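import Pool.Agent.H61.Rz.L2

/-! # Ap0: programs in several parts -/

set_option autoImplicit false

namespace Pool.H61.Rh

open Pool.H47.Kc

theorem trE_runst2 {α : Type} (A : Alg α) (P : List Op) (st0 : List α) :
    TrE A P st0 (fun st => run A P st0 = st) := trE_run A P st0 _ rfl

theorem run_append {α : Type} (A : Alg α) (P Q : List Op) (st : List α) :
    run A (P ++ Q) st = run A Q (run A P st) := by
  induction P generalizing st with
  | nil => rfl
  | cons op P ih => exact ih _

theorem get_run_add {α : Type} (A : Alg α) (d : α) (P : List Op) (st : List α) (k : ℕ) :
    Pool.H47.Kc.get d (run A P st) (P.length + k) = Pool.H47.Kc.get d st k := by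
  induction P generalizing st k with
  | nil => rw [List.length_nil, Nat.zero_add]; rfl
  | cons op P ih =>
    have h := ih (step A st op :: st) (k + 1)
    have e : (op :: P).length + k = P.length + (k + 1) := by rw [List.length_cons]; ring
    rw [e]; exact h

/-- facts about a stack entry after two more parts -/
theorem get_run_add' {α : Type} (A : Alg α) (d : α) (P : List Op) (st : List α) (k n : ℕ)
    (h : n = P.length + k) : Pool.H47.Kc.get d (run A P st) n = Pool.H47.Kc.get d st k := by
  rw [h]; exact get_run_add A d P st k

end Pool.H61.Rh
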