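import Pool.Agent.H61.Rz.PE0a
import Pool.Agent.H61.Rz.PH0a
import Pool.Agent.H47.K3.Defs

/-! # generated: difference program pD0a -/

set_option autoImplicit false
set_option maxRecDepth 100000
set_option linter.unusedVariables false

namespace Pool.H61.Rh

open Complex Pool.H47.Kc Pool.H47.K3

def pD0a_P : List Op :=
  [.x, .y, .base 2, .cst (2) 0, .mul 3 0, .sub 2 0,
   .mul 4 4, .cst (1) 0, .add 1 0, .base 0, .base 1, .mul 9 0,
   .add 2 0, .base 3, .add 2 0, .mul 0 0, .cst (4) 0, .mul 1 0,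
   .base 4, .mul 10 0, .mul 16 0, .sub 3 0, .mul 9 5, .mul 22 14,
   .add 1 0, .mul 16 0, .mul 25 0, .add 5 0, .mul 24 0, .mul 25 16,
   .add 6 0, .mul 29 0, .mul 23 22, .mul 24 22, .add 3 1, .add 3 1,
   .mul 30 0, .mul 31 2, .add 9 0, .base 5, .base 6, .mul 39 0,
   .add 2 0, .base 15, .mul 43 1, .add 1 0, .base 7, .base 8,
   .mul 46 0, .add 2 0, .base 9, .base 10, .mul 50 0, .add 2 0,
   .mul 48 4, .mul 49 1, .mul 55 19, .mul 56 18, .sub 3 1, .add 3 1,
   .base 11, .base 12, .mul 56 19, .mul 2 0, .mul 2 1, .sub 6 1,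
   .sub 6 1, .mul 66 65, .add 67 58, .add 58 1, .mul 30 1, .mul 30 1,
   .add 1 0, .base 16, .mul 5 0, .base 17, .mul 6 0, .add 2 0,
   .mul 9 2, .base 18, .mul 10 0, .add 2 0, .base 19, .base 20,
   .mul 82 0, .add 2 0, .base 21, .base 22, .mul 86 0, .add 2 0,
   .mul 4 4, .mul 1 1, .add 1 0, .base 45, .base 46, .mul 93 0,
   .add 2 0, .base 47, .base 48, .mul 97 0, .add 2 0, .mul 94 0,
   .add 5 0, .base 42, .base 43, .mul 103 0, .add 2 0, .base 44,
   .mul 101 0, .add 2 0, .mul 109 7, .add 1 0, .base 33, .base 34,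
   .mul 112 0, .add 2 0, .base 36, .base 37, .mul 116 0, .add 2 0,
   .base 38, .mul 114 0, .add 2 0, .mul 122 0, .add 8 0, .base 35,
   .mul 124 0, .add 13 0, .base 39, .base 40, .mul 128 0, .add 2 0,
   .base 41, .mul 126 0, .add 2 0, .mul 134 0, .add 8 0, .base 49,
   .base 50, .mul 137 0, .add 2 0, .base 53, .base 54, .mul 141 0,
   .add 2 0, .base 55, .mul 139 0, .add 2 0, .mul 147 0, .add 8 0,
   .base 51, .base 52, .mul 150 0, .add 2 0, .base 56, .base 57,
   .mul 154 0, .add 2 0, .base 58, .mul 152 0, .add 2 0, .mul 160 0,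
   .add 8 0, .base 59, .base 60, .mul 163 0, .add 2 0, .base 63,
   .base 64, .mul 167 0, .add 2 0, .base 65, .mul 165 0, .add 2 0,
   .mul 173 0, .add 8 0, .base 61, .base 62, .mul 176 0, .add 2 0,
   .base 66, .base 67, .mul 180 0, .add 2 0, .base 68, .mul 178 0,
   .add 2 0, .mul 186 0, .add 8 0, .mul 185 123, .mul 188 124, .add 124 0,
   .mul 190 125, .mul 189 0, .mul 128 56, .mul 128 56, .add 1 0, .mul 55 7,
   .mul 55 6, .add 1 0, .mul 54 6, .add 1 0, .mul 201 0, .add 6 0,
   .mul 138 53, .mul 138 53, .add 1 0, .mul 52 17, .mul 52 16, .add 1 0,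
   .mul 51 16, .add 1 0, .mul 211 0, .add 6 0, .base 31, .base 32,
   .mul 214 0, .add 2 0, .base 29, .base 30, .mul 183 1, .mul 182 1,
   .sub 0 1, .mul 180 5, .mul 178 112, .add 1 0, .mul 220 0, .add 4 0,
   .mul 162 103, .mul 162 92, .add 1 0, .add 3 0, .mul 142 82, .mul 147 70,
   .sub 0 1, .mul 229 0, .sub 0 4, .base 23, .base 24, .mul 237 0,
   .add 2 0, .base 25, .base 26, .mul 241 0, .add 2 0, .mul 184 120,
   .mul 184 109, .add 1 0, .base 27, .base 28, .mul 180 100, .mul 182 88,
   .sub 1 0, .mul 213 0, .mul 213 1, .mul 105 6, .mul 93 6, .add 1 0,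
   .mul 180 0, .mul 177 1, .add 6 1, .add 6 1, .mul 189 99, .mul 190 113,
   .add 3 1, .sub 3 1, .mul 265 154, .add 49 0, .sub 0 20, .mul 191 0,
   .mul 188 1, .sub 30 1, .sub 27 1, .mul 269 110, .mul 270 124, .sub 99 1,
   .add 87 1, .mul 231 1, .mul 232 1, .sub 7 1, .sub 7 1, .sub 1 16,
   .sub 1 16, .mul 237 46, .cst (6) 0, .mul 1 0, .mul 280 193, .mul 283 1,
   .sub 0 1, .mul 243 243, .mul 220 200, .mul 222 205, .add 1 0, .mul 253 0,
   .mul 253 1, .mul 205 46, .mul 210 46, .sub 0 1, .mul 220 0, .mul 217 1,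
   .sub 1 6, .sub 1 6, .mul 229 216, .mul 230 213, .add 3 1, .add 3 1,
   .mul 300 260, .mul 2 0, .mul 2 1, .sub 22 23, .mul 309 0, .mul 233 0,
   .mul 230 1, .add 5 1, .add 5 1, .mul 309 33, .mul 310 33, .sub 1 113,
   .sub 1 104, .mul 34 29, .mul 2 0, .mul 2 1, .add 8 1, .add 8 1,
   .x, .y, .mul 1 0, .base 86, .base 85, .mul 4 1,
   .add 1 0, .base 84, .mul 7 1, .add 1 0, .base 83, .mul 10 1,
   .add 1 0, .base 82, .mul 13 1, .add 1 0, .base 81, .mul 16 1,
   .add 1 0, .base 91, .base 90, .mul 20 1, .add 1 0, .base 89,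
   .mul 23 1, .add 1 0, .base 88, .mul 26 1, .add 1 0, .base 87,
   .mul 29 1, .add 1 0, .base 95, .base 94, .mul 33 1, .add 1 0,
   .base 93, .mul 36 1, .add 1 0, .base 92, .mul 39 1, .add 1 0,
   .base 98, .base 97, .mul 43 1, .add 1 0, .base 96, .mul 46 1,
   .add 1 0, .base 100, .base 99, .mul 50 1, .add 1 0, .base 101,
   .mul 51 0, .add 2 0, .mul 53 0, .add 8 0, .mul 55 0, .add 17 0,
   .mul 57 0, .add 29 0, .mul 59 0, .add 44 0, .base 107, .base 106,
   .mul 63 1, .add 1 0, .base 105, .mul 66 1, .add 1 0, .base 104,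
   .mul 69 1, .add 1 0, .base 103, .mul 72 1, .add 1 0, .base 102,
   .mul 75 1, .add 1 0, .base 113, .base 112, .mul 79 1, .add 1 0,
   .base 111, .mul 82 1, .add 1 0, .base 110, .mul 85 1, .add 1 0,
   .base 109, .mul 88 1, .add 1 0, .base 108, .mul 91 1, .add 1 0,
   .mul 94 16, .add 33 0, .mul 96 96, .mul 3 0, .add 2 0, .base 121,
   .base 120, .mul 102 1, .add 1 0, .base 119, .mul 105 1, .add 1 0,
   .base 118, .mul 108 1, .add 1 0, .base 117, .mul 111 1, .add 1 0,
   .base 116, .mul 114 1, .add 1 0, .base 115, .mul 117 1, .add 1 0,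
   .base 114, .mul 120 1, .add 1 0, .base 128, .base 127, .mul 124 1,
   .add 1 0, .base 126, .mul 127 1, .add 1 0, .base 125, .mul 130 1,
   .add 1 0, .base 124, .mul 133 1, .add 1 0, .base 123, .mul 136 1,
   .add 1 0, .base 122, .mul 139 1, .add 1 0, .base 134, .base 133,
   .mul 143 1, .add 1 0, .base 132, .mul 146 1, .add 1 0, .base 131,
   .mul 149 1, .add 1 0, .base 130, .mul 152 1, .add 1 0, .base 129,
   .mul 155 1, .add 1 0, .base 139, .base 138, .mul 159 1, .add 1 0,
   .base 137, .mul 162 1, .add 1 0, .base 136, .mul 165 1, .add 1 0,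
   .base 135, .mul 168 1, .add 1 0, .base 143, .base 142, .mul 172 1,
   .add 1 0, .base 141, .mul 175 1, .add 1 0, .base 140, .mul 178 1,
   .add 1 0, .base 146, .base 145, .mul 182 1, .add 1 0, .base 144,
   .mul 185 1, .add 1 0, .base 148, .base 147, .mul 189 1, .add 1 0,
   .base 149, .mul 190 0, .add 2 0, .mul 192 0, .add 8 0, .mul 194 0,
   .add 17 0, .mul 196 0, .add 29 0, .mul 198 0, .add 44 0, .mul 200 0,
   .add 62 0, .mul 202 0, .add 83 0, .base 157, .base 156, .mul 206 1,
   .add 1 0, .base 155, .mul 209 1, .add 1 0, .base 154, .mul 212 1,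
   .add 1 0, .base 153, .mul 215 1, .add 1 0, .base 152, .mul 218 1,
   .add 1 0, .base 151, .mul 221 1, .add 1 0, .base 150, .mul 224 1,
   .add 1 0, .mul 227 0, .add 23 0, .base 165, .base 164, .mul 232 1,
   .add 1 0, .base 163, .mul 235 1, .add 1 0, .base 162, .mul 238 1,
   .add 1 0, .base 161, .mul 241 1, .add 1 0, .base 160, .mul 244 1,
   .add 1 0, .base 159, .mul 247 1, .add 1 0, .base 158, .mul 250 1,
   .add 1 0, .base 172, .base 171, .mul 254 1, .add 1 0, .base 170,
   .mul 257 1, .add 1 0, .base 169, .mul 260 1, .add 1 0, .base 168,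
   .mul 263 1, .add 1 0, .base 167, .mul 266 1, .add 1 0, .base 166,
   .mul 269 1, .add 1 0, .base 178, .base 177, .mul 273 1, .add 1 0,
   .base 176, .mul 276 1, .add 1 0, .base 175, .mul 279 1, .add 1 0,
   .base 174, .mul 282 1, .add 1 0, .base 173, .mul 285 1, .add 1 0,
   .base 183, .base 182, .mul 289 1, .add 1 0, .base 181, .mul 292 1,
   .add 1 0, .base 180, .mul 295 1, .add 1 0, .base 179, .mul 298 1,
   .add 1 0, .base 187, .base 186, .mul 302 1, .add 1 0, .base 185,
   .mul 305 1, .add 1 0, .base 184, .mul 308 1, .add 1 0, .base 190,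
   .base 189, .mul 312 1, .add 1 0, .base 188, .mul 315 1, .add 1 0,
   .base 192, .base 191, .mul 319 1, .add 1 0, .base 193, .mul 320 0,
   .add 2 0, .mul 322 0, .add 8 0, .mul 324 0, .add 17 0, .mul 326 0,
   .add 29 0, .mul 328 0, .add 44 0, .mul 330 0, .add 62 0, .mul 332 0,
   .add 83 0, .base 201, .base 200, .mul 336 1, .add 1 0, .base 199,
   .mul 339 1, .add 1 0, .base 198, .mul 342 1, .add 1 0, .base 197,
   .mul 345 1, .add 1 0, .base 196, .mul 348 1, .add 1 0, .base 195,
   .mul 351 1, .add 1 0, .base 194, .mul 354 1, .add 1 0, .mul 357 0,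
   .add 23 0, .cst (12) 0, .mul 0 261, .sub 398 0, .cst (6) 0, .mul 0 134,
   .sub 367 0, .mul 2 6, .sub 368 0]

def pD0a_o : List Nat := [5, 2, 0]

def pD0a_b43 {α : Type} (A : Alg α) (v322 v323 v554 v684 v687 : α) : List α :=
  let v688 := A.cst (6) 0
  let v689 := A.mul v688 v554
  let v690 := A.sub v322 v689
  let v691 := A.mul v688 v684
  let v692 := A.sub v323 v691
  [v687, v690, v692]

def pD0a_b42 {α : Type} (A : Alg α) (v288 v322 v323 v325 v326 v424 v554 v660 v670 v671 : α) : List α :=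
  let v672 := A.mul v326 v670
  let v673 := A.add v671 v672
  let v674 := A.base 196
  let v675 := A.mul v326 v673
  let v676 := A.add v674 v675
  let v677 := A.base 195
  let v678 := A.mul v326 v676
  let v679 := A.add v677 v678
  let v680 := A.base 194
  let v681 := A.mul v326 v679
  let v682 := A.add v680 v681
  let v683 := A.mul v325 v682
  let v684 := A.add v660 v683
  let v685 := A.cst (12) 0
  let v686 := A.mul v685 v424
  let v687 := A.sub v288 v686
  pD0a_b43 A v322 v323 v554 v684 v687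

def pD0a_b41 {α : Type} (A : Alg α) (v288 v322 v323 v325 v326 v424 v554 v576 v595 v611 v655 : α) : List α :=
  let v656 := A.add v611 v655
  let v657 := A.mul v326 v656
  let v658 := A.add v595 v657
  let v659 := A.mul v326 v658
  let v660 := A.add v576 v659
  let v661 := A.base 201
  let v662 := A.base 200
  let v663 := A.mul v326 v661
  let v664 := A.add v662 v663
  let v665 := A.base 199
  let v666 := A.mul v326 v664
  let v667 := A.add v665 v666
  let v668 := A.base 198
  let v669 := A.mul v326 v667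
  let v670 := A.add v668 v669
  let v671 := A.base 197
  pD0a_b42 A v288 v322 v323 v325 v326 v424 v554 v660 v670 v671

def pD0a_b40 {α : Type} (A : Alg α) (v288 v322 v323 v324 v325 v326 v424 v554 v576 v595 v611 v624 v634 v638 v639 : α) : List α :=
  let v640 := A.mul v324 v638
  let v641 := A.add v639 v640
  let v642 := A.base 192
  let v643 := A.base 191
  let v644 := A.mul v324 v642
  let v645 := A.add v643 v644
  let v646 := A.base 193
  let v647 := A.mul v326 v646
  let v648 := A.add v645 v647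
  let v649 := A.mul v326 v648
  let v650 := A.add v641 v649
  let v651 := A.mul v326 v650
  let v652 := A.add v634 v651
  let v653 := A.mul v326 v652
  let v654 := A.add v624 v653
  let v655 := A.mul v326 v654
  pD0a_b41 A v288 v322 v323 v325 v326 v424 v554 v576 v595 v611 v655

def pD0a_b39 {α : Type} (A : Alg α) (v288 v322 v323 v324 v325 v326 v424 v554 v576 v595 v611 v622 v623 : α) : List α :=
  let v624 := A.add v622 v623
  let v625 := A.base 187
  let v626 := A.base 186
  let v627 := A.mul v324 v625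
  let v628 := A.add v626 v627
  let v629 := A.base 185
  let v630 := A.mul v324 v628
  let v631 := A.add v629 v630
  let v632 := A.base 184
  let v633 := A.mul v324 v631
  let v634 := A.add v632 v633
  let v635 := A.base 190
  let v636 := A.base 189
  let v637 := A.mul v324 v635
  let v638 := A.add v636 v637
  let v639 := A.base 188
  pD0a_b40 A v288 v322 v323 v324 v325 v326 v424 v554 v576 v595 v611 v624 v634 v638 v639

def pD0a_b38 {α : Type} (A : Alg α) (v288 v322 v323 v324 v325 v326 v424 v554 v576 v595 v606 v607 : α) : List α :=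
  let v608 := A.add v606 v607
  let v609 := A.base 173
  let v610 := A.mul v324 v608
  let v611 := A.add v609 v610
  let v612 := A.base 183
  let v613 := A.base 182
  let v614 := A.mul v324 v612
  let v615 := A.add v613 v614
  let v616 := A.base 181
  let v617 := A.mul v324 v615
  let v618 := A.add v616 v617
  let v619 := A.base 180
  let v620 := A.mul v324 v618
  let v621 := A.add v619 v620
  let v622 := A.base 179
  let v623 := A.mul v324 v621
  pD0a_b39 A v288 v322 v323 v324 v325 v326 v424 v554 v576 v595 v611 v622 v623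

def pD0a_b37 {α : Type} (A : Alg α) (v288 v322 v323 v324 v325 v326 v424 v554 v576 v590 v591 : α) : List α :=
  let v592 := A.add v590 v591
  let v593 := A.base 166
  let v594 := A.mul v324 v592
  let v595 := A.add v593 v594
  let v596 := A.base 178
  let v597 := A.base 177
  let v598 := A.mul v324 v596
  let v599 := A.add v597 v598
  let v600 := A.base 176
  let v601 := A.mul v324 v599
  let v602 := A.add v600 v601
  let v603 := A.base 175
  let v604 := A.mul v324 v602
  let v605 := A.add v603 v604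
  let v606 := A.base 174
  let v607 := A.mul v324 v605
  pD0a_b38 A v288 v322 v323 v324 v325 v326 v424 v554 v576 v595 v606 v607

def pD0a_b36 {α : Type} (A : Alg α) (v288 v322 v323 v324 v325 v326 v424 v554 v574 v575 : α) : List α :=
  let v576 := A.add v574 v575
  let v577 := A.base 172
  let v578 := A.base 171
  let v579 := A.mul v324 v577
  let v580 := A.add v578 v579
  let v581 := A.base 170
  let v582 := A.mul v324 v580
  let v583 := A.add v581 v582
  let v584 := A.base 169
  let v585 := A.mul v324 v583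
  let v586 := A.add v584 v585
  let v587 := A.base 168
  let v588 := A.mul v324 v586
  let v589 := A.add v587 v588
  let v590 := A.base 167
  let v591 := A.mul v324 v589
  pD0a_b37 A v288 v322 v323 v324 v325 v326 v424 v554 v576 v590 v591

def pD0a_b35 {α : Type} (A : Alg α) (v288 v322 v323 v324 v325 v326 v424 v554 v558 v559 : α) : List α :=
  let v560 := A.mul v324 v558
  let v561 := A.add v559 v560
  let v562 := A.base 162
  let v563 := A.mul v324 v561
  let v564 := A.add v562 v563
  let v565 := A.base 161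
  let v566 := A.mul v324 v564
  let v567 := A.add v565 v566
  let v568 := A.base 160
  let v569 := A.mul v324 v567
  let v570 := A.add v568 v569
  let v571 := A.base 159
  let v572 := A.mul v324 v570
  let v573 := A.add v571 v572
  let v574 := A.base 158
  let v575 := A.mul v324 v573
  pD0a_b36 A v288 v322 v323 v324 v325 v326 v424 v554 v574 v575

def pD0a_b34 {α : Type} (A : Alg α) (v288 v322 v323 v324 v325 v326 v424 v530 v543 : α) : List α :=
  let v544 := A.base 152
  let v545 := A.mul v326 v543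
  let v546 := A.add v544 v545
  let v547 := A.base 151
  let v548 := A.mul v326 v546
  let v549 := A.add v547 v548
  let v550 := A.base 150
  let v551 := A.mul v326 v549
  let v552 := A.add v550 v551
  let v553 := A.mul v325 v552
  let v554 := A.add v530 v553
  let v555 := A.base 165
  let v556 := A.base 164
  let v557 := A.mul v324 v555
  let v558 := A.add v556 v557
  let v559 := A.base 163
  pD0a_b35 A v288 v322 v323 v324 v325 v326 v424 v554 v558 v559

def pD0a_b33 {α : Type} (A : Alg α) (v288 v322 v323 v324 v325 v326 v424 v446 v465 v527 : α) : List α :=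
  let v528 := A.add v465 v527
  let v529 := A.mul v326 v528
  let v530 := A.add v446 v529
  let v531 := A.base 157
  let v532 := A.base 156
  let v533 := A.mul v326 v531
  let v534 := A.add v532 v533
  let v535 := A.base 155
  let v536 := A.mul v326 v534
  let v537 := A.add v535 v536
  let v538 := A.base 154
  let v539 := A.mul v326 v537
  let v540 := A.add v538 v539
  let v541 := A.base 153
  let v542 := A.mul v326 v540
  let v543 := A.add v541 v542
  pD0a_b34 A v288 v322 v323 v324 v325 v326 v424 v530 v543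

def pD0a_b32 {α : Type} (A : Alg α) (v288 v322 v323 v324 v325 v326 v424 v446 v465 v481 v494 v504 v511 : α) : List α :=
  let v512 := A.base 148
  let v513 := A.base 147
  let v514 := A.mul v324 v512
  let v515 := A.add v513 v514
  let v516 := A.base 149
  let v517 := A.mul v326 v516
  let v518 := A.add v515 v517
  let v519 := A.mul v326 v518
  let v520 := A.add v511 v519
  let v521 := A.mul v326 v520
  let v522 := A.add v504 v521
  let v523 := A.mul v326 v522
  let v524 := A.add v494 v523
  let v525 := A.mul v326 v524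
  let v526 := A.add v481 v525
  let v527 := A.mul v326 v526
  pD0a_b33 A v288 v322 v323 v324 v325 v326 v424 v446 v465 v527

def pD0a_b31 {α : Type} (A : Alg α) (v288 v322 v323 v324 v325 v326 v424 v446 v465 v481 v494 v495 : α) : List α :=
  let v496 := A.base 142
  let v497 := A.mul v324 v495
  let v498 := A.add v496 v497
  let v499 := A.base 141
  let v500 := A.mul v324 v498
  let v501 := A.add v499 v500
  let v502 := A.base 140
  let v503 := A.mul v324 v501
  let v504 := A.add v502 v503
  let v505 := A.base 146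
  let v506 := A.base 145
  let v507 := A.mul v324 v505
  let v508 := A.add v506 v507
  let v509 := A.base 144
  let v510 := A.mul v324 v508
  let v511 := A.add v509 v510
  pD0a_b32 A v288 v322 v323 v324 v325 v326 v424 v446 v465 v481 v494 v504 v511

def pD0a_b30 {α : Type} (A : Alg α) (v288 v322 v323 v324 v325 v326 v424 v446 v465 v478 v479 : α) : List α :=
  let v480 := A.mul v324 v478
  let v481 := A.add v479 v480
  let v482 := A.base 139
  let v483 := A.base 138
  let v484 := A.mul v324 v482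
  let v485 := A.add v483 v484
  let v486 := A.base 137
  let v487 := A.mul v324 v485
  let v488 := A.add v486 v487
  let v489 := A.base 136
  let v490 := A.mul v324 v488
  let v491 := A.add v489 v490
  let v492 := A.base 135
  let v493 := A.mul v324 v491
  let v494 := A.add v492 v493
  let v495 := A.base 143
  pD0a_b31 A v288 v322 v323 v324 v325 v326 v424 v446 v465 v481 v494 v495

def pD0a_b29 {α : Type} (A : Alg α) (v288 v322 v323 v324 v325 v326 v424 v446 v462 v463 : α) : List α :=
  let v464 := A.mul v324 v462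
  let v465 := A.add v463 v464
  let v466 := A.base 134
  let v467 := A.base 133
  let v468 := A.mul v324 v466
  let v469 := A.add v467 v468
  let v470 := A.base 132
  let v471 := A.mul v324 v469
  let v472 := A.add v470 v471
  let v473 := A.base 131
  let v474 := A.mul v324 v472
  let v475 := A.add v473 v474
  let v476 := A.base 130
  let v477 := A.mul v324 v475
  let v478 := A.add v476 v477
  let v479 := A.base 129
  pD0a_b30 A v288 v322 v323 v324 v325 v326 v424 v446 v465 v478 v479

def pD0a_b28 {α : Type} (A : Alg α) (v288 v322 v323 v324 v325 v326 v424 v446 v447 : α) : List α :=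
  let v448 := A.base 127
  let v449 := A.mul v324 v447
  let v450 := A.add v448 v449
  let v451 := A.base 126
  let v452 := A.mul v324 v450
  let v453 := A.add v451 v452
  let v454 := A.base 125
  let v455 := A.mul v324 v453
  let v456 := A.add v454 v455
  let v457 := A.base 124
  let v458 := A.mul v324 v456
  let v459 := A.add v457 v458
  let v460 := A.base 123
  let v461 := A.mul v324 v459
  let v462 := A.add v460 v461
  let v463 := A.base 122
  pD0a_b29 A v288 v322 v323 v324 v325 v326 v424 v446 v462 v463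

def pD0a_b27 {α : Type} (A : Alg α) (v288 v322 v323 v324 v325 v326 v424 v431 : α) : List α :=
  let v432 := A.base 118
  let v433 := A.mul v324 v431
  let v434 := A.add v432 v433
  let v435 := A.base 117
  let v436 := A.mul v324 v434
  let v437 := A.add v435 v436
  let v438 := A.base 116
  let v439 := A.mul v324 v437
  let v440 := A.add v438 v439
  let v441 := A.base 115
  let v442 := A.mul v324 v440
  let v443 := A.add v441 v442
  let v444 := A.base 114
  let v445 := A.mul v324 v443
  let v446 := A.add v444 v445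
  let v447 := A.base 128
  pD0a_b28 A v288 v322 v323 v324 v325 v326 v424 v446 v447

def pD0a_b26 {α : Type} (A : Alg α) (v288 v322 v323 v324 v325 v326 v387 v403 v414 v415 : α) : List α :=
  let v416 := A.add v414 v415
  let v417 := A.base 108
  let v418 := A.mul v326 v416
  let v419 := A.add v417 v418
  let v420 := A.mul v325 v403
  let v421 := A.add v387 v420
  let v422 := A.mul v325 v325
  let v423 := A.mul v419 v422
  let v424 := A.add v421 v423
  let v425 := A.base 121
  let v426 := A.base 120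
  let v427 := A.mul v324 v425
  let v428 := A.add v426 v427
  let v429 := A.base 119
  let v430 := A.mul v324 v428
  let v431 := A.add v429 v430
  pD0a_b27 A v288 v322 v323 v324 v325 v326 v424 v431

def pD0a_b25 {α : Type} (A : Alg α) (v288 v322 v323 v324 v325 v326 v387 v398 v399 : α) : List α :=
  let v400 := A.add v398 v399
  let v401 := A.base 102
  let v402 := A.mul v326 v400
  let v403 := A.add v401 v402
  let v404 := A.base 113
  let v405 := A.base 112
  let v406 := A.mul v326 v404
  let v407 := A.add v405 v406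
  let v408 := A.base 111
  let v409 := A.mul v326 v407
  let v410 := A.add v408 v409
  let v411 := A.base 110
  let v412 := A.mul v326 v410
  let v413 := A.add v411 v412
  let v414 := A.base 109
  let v415 := A.mul v326 v413
  pD0a_b26 A v288 v322 v323 v324 v325 v326 v387 v403 v414 v415

def pD0a_b24 {α : Type} (A : Alg α) (v288 v322 v323 v324 v325 v326 v342 v355 v383 : α) : List α :=
  let v384 := A.mul v326 v383
  let v385 := A.add v355 v384
  let v386 := A.mul v326 v385
  let v387 := A.add v342 v386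
  let v388 := A.base 107
  let v389 := A.base 106
  let v390 := A.mul v326 v388
  let v391 := A.add v389 v390
  let v392 := A.base 105
  let v393 := A.mul v326 v391
  let v394 := A.add v392 v393
  let v395 := A.base 104
  let v396 := A.mul v326 v394
  let v397 := A.add v395 v396
  let v398 := A.base 103
  let v399 := A.mul v326 v397
  pD0a_b25 A v288 v322 v323 v324 v325 v326 v387 v398 v399

def pD0a_b23 {α : Type} (A : Alg α) (v288 v322 v323 v324 v325 v326 v342 v355 v365 v366 v367 : α) : List α :=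
  let v368 := A.mul v324 v366
  let v369 := A.add v367 v368
  let v370 := A.base 96
  let v371 := A.mul v324 v369
  let v372 := A.add v370 v371
  let v373 := A.base 100
  let v374 := A.base 99
  let v375 := A.mul v324 v373
  let v376 := A.add v374 v375
  let v377 := A.base 101
  let v378 := A.mul v326 v377
  let v379 := A.add v376 v378
  let v380 := A.mul v326 v379
  let v381 := A.add v372 v380
  let v382 := A.mul v326 v381
  let v383 := A.add v365 v382
  pD0a_b24 A v288 v322 v323 v324 v325 v326 v342 v355 v383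

def pD0a_b22 {α : Type} (A : Alg α) (v288 v322 v323 v324 v325 v326 v342 v350 v351 : α) : List α :=
  let v352 := A.add v350 v351
  let v353 := A.base 87
  let v354 := A.mul v324 v352
  let v355 := A.add v353 v354
  let v356 := A.base 95
  let v357 := A.base 94
  let v358 := A.mul v324 v356
  let v359 := A.add v357 v358
  let v360 := A.base 93
  let v361 := A.mul v324 v359
  let v362 := A.add v360 v361
  let v363 := A.base 92
  let v364 := A.mul v324 v362
  let v365 := A.add v363 v364
  let v366 := A.base 98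
  let v367 := A.base 97
  pD0a_b23 A v288 v322 v323 v324 v325 v326 v342 v355 v365 v366 v367

def pD0a_b21 {α : Type} (A : Alg α) (v288 v322 v323 v324 v325 v326 v334 v335 : α) : List α :=
  let v336 := A.add v334 v335
  let v337 := A.base 82
  let v338 := A.mul v324 v336
  let v339 := A.add v337 v338
  let v340 := A.base 81
  let v341 := A.mul v324 v339
  let v342 := A.add v340 v341
  let v343 := A.base 91
  let v344 := A.base 90
  let v345 := A.mul v324 v343
  let v346 := A.add v344 v345
  let v347 := A.base 89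
  let v348 := A.mul v324 v346
  let v349 := A.add v347 v348
  let v350 := A.base 88
  let v351 := A.mul v324 v349
  pD0a_b22 A v288 v322 v323 v324 v325 v326 v342 v350 v351

def pD0a_b20 {α : Type} (A : Alg α) (v288 v313 v314 v317 v318 v319 : α) : List α :=
  let v320 := A.mul v317 v319
  let v321 := A.mul v318 v319
  let v322 := A.add v313 v320
  let v323 := A.add v314 v321
  let v324 := A.x
  let v325 := A.y
  let v326 := A.mul v324 v325
  let v327 := A.base 86
  let v328 := A.base 85
  let v329 := A.mul v324 v327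
  let v330 := A.add v328 v329
  let v331 := A.base 84
  let v332 := A.mul v324 v330
  let v333 := A.add v331 v332
  let v334 := A.base 83
  let v335 := A.mul v324 v333
  pD0a_b21 A v288 v322 v323 v324 v325 v326 v334 v335

def pD0a_b19 {α : Type} (A : Alg α) (v0 v5 v45 v77 v81 v203 v213 v281 v282 v284 v285 v286 v288 v289 v300 v301 v302 v303 : α) : List α :=
  let v304 := A.add v300 v302
  let v305 := A.add v301 v303
  let v306 := A.mul v5 v45
  let v307 := A.mul v304 v306
  let v308 := A.mul v305 v306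
  let v309 := A.sub v286 v285
  let v310 := A.mul v0 v309
  let v311 := A.mul v77 v310
  let v312 := A.mul v81 v310
  let v313 := A.add v307 v311
  let v314 := A.add v308 v312
  let v315 := A.mul v5 v281
  let v316 := A.mul v5 v282
  let v317 := A.sub v315 v203
  let v318 := A.sub v316 v213
  let v319 := A.mul v284 v289
  pD0a_b20 A v288 v313 v314 v317 v318 v319

def pD0a_b18 {α : Type} (A : Alg α) (v0 v5 v39 v40 v45 v68 v69 v72 v77 v81 v85 v89 v203 v213 v248 v249 v281 v282 v284 v285 v286 v287 : α) : List α :=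
  let v288 := A.sub v287 v286
  let v289 := A.mul v45 v45
  let v290 := A.mul v69 v89
  let v291 := A.mul v68 v85
  let v292 := A.add v290 v291
  let v293 := A.mul v39 v292
  let v294 := A.mul v40 v292
  let v295 := A.mul v89 v248
  let v296 := A.mul v85 v249
  let v297 := A.sub v296 v295
  let v298 := A.mul v77 v297
  let v299 := A.mul v81 v297
  let v300 := A.sub v298 v293
  let v301 := A.sub v299 v294
  let v302 := A.mul v72 v85
  let v303 := A.mul v72 v89
  pD0a_b19 A v0 v5 v45 v77 v81 v203 v213 v281 v282 v284 v285 v286 v288 v289 v300 v301 v302 v303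

def pD0a_b17 {α : Type} (A : Alg α) (v0 v3 v5 v39 v40 v45 v68 v69 v72 v77 v81 v85 v89 v92 v149 v162 v175 v188 v203 v213 v236 v244 v248 v249 v264 v265 v270 v271 : α) : List α :=
  let v272 := A.sub v244 v270
  let v273 := A.mul v3 v162
  let v274 := A.mul v3 v149
  let v275 := A.sub v175 v273
  let v276 := A.add v188 v274
  let v277 := A.mul v45 v275
  let v278 := A.mul v45 v276
  let v279 := A.sub v271 v277
  let v280 := A.sub v272 v278
  let v281 := A.sub v279 v264
  let v282 := A.sub v280 v265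
  let v283 := A.mul v45 v236
  let v284 := A.cst (6) 0
  let v285 := A.mul v283 v284
  let v286 := A.mul v5 v92
  let v287 := A.mul v3 v285
  pD0a_b18 A v0 v5 v39 v40 v45 v68 v69 v72 v77 v81 v85 v89 v203 v213 v248 v249 v281 v282 v284 v285 v286 v287

def pD0a_b16 {α : Type} (A : Alg α) (v0 v3 v5 v39 v40 v45 v68 v69 v72 v77 v81 v85 v89 v92 v111 v149 v162 v175 v188 v203 v213 v217 v236 v240 v244 v247 v248 v249 v253 v254 v255 : α) : List α :=
  let v256 := A.mul v162 v249
  let v257 := A.add v255 v256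
  let v258 := A.mul v77 v257
  let v259 := A.mul v81 v257
  let v260 := A.add v253 v258
  let v261 := A.add v254 v259
  let v262 := A.mul v72 v162
  let v263 := A.mul v72 v149
  let v264 := A.add v260 v262
  let v265 := A.sub v261 v263
  let v266 := A.mul v0 v111
  let v267 := A.add v217 v266
  let v268 := A.sub v267 v247
  let v269 := A.mul v77 v268
  let v270 := A.mul v81 v268
  let v271 := A.sub v240 v269
  pD0a_b17 A v0 v3 v5 v39 v40 v45 v68 v69 v72 v77 v81 v85 v89 v92 v149 v162 v175 v188 v203 v213 v236 v244 v248 v249 v264 v265 v270 v271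

def pD0a_b15 {α : Type} (A : Alg α) (v0 v1 v3 v5 v39 v40 v45 v60 v61 v68 v69 v72 v77 v81 v85 v89 v92 v111 v124 v136 v149 v162 v175 v188 v203 v213 v217 v236 v237 v239 : α) : List α :=
  let v240 := A.add v237 v239
  let v241 := A.base 25
  let v242 := A.base 26
  let v243 := A.mul v1 v242
  let v244 := A.add v241 v243
  let v245 := A.mul v60 v124
  let v246 := A.mul v61 v136
  let v247 := A.add v245 v246
  let v248 := A.base 27
  let v249 := A.base 28
  let v250 := A.mul v69 v149
  let v251 := A.mul v68 v162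
  let v252 := A.sub v250 v251
  let v253 := A.mul v39 v252
  let v254 := A.mul v40 v252
  let v255 := A.mul v149 v248
  pD0a_b16 A v0 v3 v5 v39 v40 v45 v68 v69 v72 v77 v81 v85 v89 v92 v111 v149 v162 v175 v188 v203 v213 v217 v236 v240 v244 v247 v248 v249 v253 v254 v255

def pD0a_b14 {α : Type} (A : Alg α) (v0 v1 v3 v5 v39 v40 v45 v60 v61 v65 v66 v68 v69 v72 v77 v81 v85 v89 v92 v111 v124 v136 v149 v162 v175 v188 v203 v213 v217 v222 v223 : α) : List α :=
  let v224 := A.mul v45 v111
  let v225 := A.add v223 v224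
  let v226 := A.mul v5 v225
  let v227 := A.add v222 v226
  let v228 := A.mul v65 v124
  let v229 := A.mul v66 v136
  let v230 := A.add v228 v229
  let v231 := A.add v227 v230
  let v232 := A.mul v89 v149
  let v233 := A.mul v85 v162
  let v234 := A.sub v233 v232
  let v235 := A.mul v5 v234
  let v236 := A.sub v235 v231
  let v237 := A.base 23
  let v238 := A.base 24
  let v239 := A.mul v1 v238
  pD0a_b15 A v0 v1 v3 v5 v39 v40 v45 v60 v61 v68 v69 v72 v77 v81 v85 v89 v92 v111 v124 v136 v149 v162 v175 v188 v203 v213 v217 v236 v237 v239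

def pD0a_b13 {α : Type} (A : Alg α) (v0 v1 v3 v5 v36 v38 v39 v40 v42 v45 v60 v61 v65 v66 v68 v69 v72 v77 v81 v85 v89 v92 v111 v124 v136 v149 v155 v158 v162 v175 v188 v191 v193 v203 v206 v207 : α) : List α :=
  let v208 := A.mul v155 v191
  let v209 := A.add v207 v208
  let v210 := A.mul v158 v193
  let v211 := A.add v209 v210
  let v212 := A.mul v0 v211
  let v213 := A.add v206 v212
  let v214 := A.base 31
  let v215 := A.base 32
  let v216 := A.mul v1 v215
  let v217 := A.add v214 v216
  let v218 := A.base 29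
  let v219 := A.base 30
  let v220 := A.mul v36 v218
  let v221 := A.mul v38 v219
  let v222 := A.sub v221 v220
  let v223 := A.mul v42 v217
  pD0a_b14 A v0 v1 v3 v5 v39 v40 v45 v60 v61 v65 v66 v68 v69 v72 v77 v81 v85 v89 v92 v111 v124 v136 v149 v162 v175 v188 v203 v213 v217 v222 v223

def pD0a_b12 {α : Type} (A : Alg α) (v0 v1 v3 v5 v36 v38 v39 v40 v42 v45 v60 v61 v65 v66 v68 v69 v72 v77 v81 v85 v89 v92 v111 v124 v136 v137 v138 v141 v142 v145 v149 v150 v151 v154 v155 v158 v162 v175 v188 v189 v191 : α) : List α :=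
  let v192 := A.mul v1 v66
  let v193 := A.mul v3 v192
  let v194 := A.mul v65 v137
  let v195 := A.mul v66 v138
  let v196 := A.add v194 v195
  let v197 := A.mul v141 v189
  let v198 := A.mul v142 v191
  let v199 := A.add v197 v198
  let v200 := A.mul v145 v193
  let v201 := A.add v199 v200
  let v202 := A.mul v0 v201
  let v203 := A.add v196 v202
  let v204 := A.mul v65 v150
  let v205 := A.mul v66 v151
  let v206 := A.add v204 v205
  let v207 := A.mul v154 v189
  pD0a_b13 A v0 v1 v3 v5 v36 v38 v39 v40 v42 v45 v60 v61 v65 v66 v68 v69 v72 v77 v81 v85 v89 v92 v111 v124 v136 v149 v155 v158 v162 v175 v188 v191 v193 v203 v206 v207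

def pD0a_b11 {α : Type} (A : Alg α) (v0 v1 v3 v5 v6 v36 v38 v39 v40 v42 v45 v60 v61 v65 v66 v68 v69 v72 v77 v81 v85 v89 v92 v111 v124 v136 v137 v138 v141 v142 v145 v149 v150 v151 v154 v155 v158 v162 v175 : α) : List α :=
  let v176 := A.base 61
  let v177 := A.base 62
  let v178 := A.mul v1 v177
  let v179 := A.add v176 v178
  let v180 := A.base 66
  let v181 := A.base 67
  let v182 := A.mul v1 v181
  let v183 := A.add v180 v182
  let v184 := A.base 68
  let v185 := A.mul v6 v184
  let v186 := A.add v183 v185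
  let v187 := A.mul v0 v186
  let v188 := A.add v179 v187
  let v189 := A.mul v3 v65
  let v190 := A.mul v1 v65
  let v191 := A.add v66 v190
  pD0a_b12 A v0 v1 v3 v5 v36 v38 v39 v40 v42 v45 v60 v61 v65 v66 v68 v69 v72 v77 v81 v85 v89 v92 v111 v124 v136 v137 v138 v141 v142 v145 v149 v150 v151 v154 v155 v158 v162 v175 v188 v189 v191

def pD0a_b10 {α : Type} (A : Alg α) (v0 v1 v3 v5 v6 v36 v38 v39 v40 v42 v45 v60 v61 v65 v66 v68 v69 v72 v77 v81 v85 v89 v92 v111 v124 v136 v137 v138 v141 v142 v145 v149 v150 v151 v153 v154 v155 v157 v158 v159 : α) : List α :=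
  let v160 := A.add v157 v159
  let v161 := A.mul v0 v160
  let v162 := A.add v153 v161
  let v163 := A.base 59
  let v164 := A.base 60
  let v165 := A.mul v1 v164
  let v166 := A.add v163 v165
  let v167 := A.base 63
  let v168 := A.base 64
  let v169 := A.mul v1 v168
  let v170 := A.add v167 v169
  let v171 := A.base 65
  let v172 := A.mul v6 v171
  let v173 := A.add v170 v172
  let v174 := A.mul v0 v173
  let v175 := A.add v166 v174
  pD0a_b11 A v0 v1 v3 v5 v6 v36 v38 v39 v40 v42 v45 v60 v61 v65 v66 v68 v69 v72 v77 v81 v85 v89 v92 v111 v124 v136 v137 v138 v141 v142 v145 v149 v150 v151 v154 v155 v158 v162 v175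

def pD0a_b9 {α : Type} (A : Alg α) (v0 v1 v3 v5 v6 v36 v38 v39 v40 v42 v45 v60 v61 v65 v66 v68 v69 v72 v77 v81 v85 v89 v92 v111 v124 v136 v137 v138 v140 v141 v142 v143 : α) : List α :=
  let v144 := A.add v141 v143
  let v145 := A.base 55
  let v146 := A.mul v6 v145
  let v147 := A.add v144 v146
  let v148 := A.mul v0 v147
  let v149 := A.add v140 v148
  let v150 := A.base 51
  let v151 := A.base 52
  let v152 := A.mul v1 v151
  let v153 := A.add v150 v152
  let v154 := A.base 56
  let v155 := A.base 57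
  let v156 := A.mul v1 v155
  let v157 := A.add v154 v156
  let v158 := A.base 58
  let v159 := A.mul v6 v158
  pD0a_b10 A v0 v1 v3 v5 v6 v36 v38 v39 v40 v42 v45 v60 v61 v65 v66 v68 v69 v72 v77 v81 v85 v89 v92 v111 v124 v136 v137 v138 v141 v142 v145 v149 v150 v151 v153 v154 v155 v157 v158 v159

def pD0a_b8 {α : Type} (A : Alg α) (v0 v1 v3 v5 v6 v36 v38 v39 v40 v42 v45 v60 v61 v65 v66 v68 v69 v72 v77 v81 v85 v89 v92 v111 v124 v127 : α) : List α :=
  let v128 := A.base 39
  let v129 := A.base 40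
  let v130 := A.mul v1 v129
  let v131 := A.add v128 v130
  let v132 := A.base 41
  let v133 := A.mul v6 v132
  let v134 := A.add v131 v133
  let v135 := A.mul v0 v134
  let v136 := A.add v127 v135
  let v137 := A.base 49
  let v138 := A.base 50
  let v139 := A.mul v1 v138
  let v140 := A.add v137 v139
  let v141 := A.base 53
  let v142 := A.base 54
  let v143 := A.mul v1 v142
  pD0a_b9 A v0 v1 v3 v5 v6 v36 v38 v39 v40 v42 v45 v60 v61 v65 v66 v68 v69 v72 v77 v81 v85 v89 v92 v111 v124 v136 v137 v138 v140 v141 v142 v143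

def pD0a_b7 {α : Type} (A : Alg α) (v0 v1 v3 v5 v6 v36 v38 v39 v40 v42 v45 v60 v61 v65 v66 v68 v69 v72 v77 v81 v85 v89 v92 v111 : α) : List α :=
  let v112 := A.base 33
  let v113 := A.base 34
  let v114 := A.mul v1 v113
  let v115 := A.add v112 v114
  let v116 := A.base 36
  let v117 := A.base 37
  let v118 := A.mul v1 v117
  let v119 := A.add v116 v118
  let v120 := A.base 38
  let v121 := A.mul v6 v120
  let v122 := A.add v119 v121
  let v123 := A.mul v0 v122
  let v124 := A.add v115 v123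
  let v125 := A.base 35
  let v126 := A.mul v1 v125
  let v127 := A.add v113 v126
  pD0a_b8 A v0 v1 v3 v5 v6 v36 v38 v39 v40 v42 v45 v60 v61 v65 v66 v68 v69 v72 v77 v81 v85 v89 v92 v111 v124 v127

def pD0a_b6 {α : Type} (A : Alg α) (v0 v1 v3 v5 v6 v36 v38 v39 v40 v42 v45 v60 v61 v65 v66 v68 v69 v72 v77 v81 v85 v89 v92 v93 v95 : α) : List α :=
  let v96 := A.add v93 v95
  let v97 := A.base 47
  let v98 := A.base 48
  let v99 := A.mul v1 v98
  let v100 := A.add v97 v99
  let v101 := A.mul v6 v100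
  let v102 := A.add v96 v101
  let v103 := A.base 42
  let v104 := A.base 43
  let v105 := A.mul v1 v104
  let v106 := A.add v103 v105
  let v107 := A.base 44
  let v108 := A.mul v6 v107
  let v109 := A.add v106 v108
  let v110 := A.mul v0 v102
  let v111 := A.add v109 v110
  pD0a_b7 A v0 v1 v3 v5 v6 v36 v38 v39 v40 v42 v45 v60 v61 v65 v66 v68 v69 v72 v77 v81 v85 v89 v92 v111

def pD0a_b5 {α : Type} (A : Alg α) (v0 v1 v3 v5 v6 v36 v38 v39 v40 v42 v45 v60 v61 v65 v66 v68 v69 v72 v77 v78 v79 : α) : List α :=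
  let v80 := A.mul v69 v79
  let v81 := A.add v78 v80
  let v82 := A.base 19
  let v83 := A.base 20
  let v84 := A.mul v1 v83
  let v85 := A.add v82 v84
  let v86 := A.base 21
  let v87 := A.base 22
  let v88 := A.mul v1 v87
  let v89 := A.add v86 v88
  let v90 := A.mul v85 v85
  let v91 := A.mul v89 v89
  let v92 := A.add v90 v91
  let v93 := A.base 45
  let v94 := A.base 46
  let v95 := A.mul v1 v94
  pD0a_b6 A v0 v1 v3 v5 v6 v36 v38 v39 v40 v42 v45 v60 v61 v65 v66 v68 v69 v72 v77 v81 v85 v89 v92 v93 v95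

def pD0a_b4 {α : Type} (A : Alg α) (v0 v1 v3 v5 v6 v9 v10 v36 v38 v39 v40 v42 v45 v58 v59 v60 v61 v62 v63 : α) : List α :=
  let v64 := A.mul v61 v62
  let v65 := A.sub v58 v63
  let v66 := A.sub v59 v64
  let v67 := A.mul v0 v1
  let v68 := A.add v0 v9
  let v69 := A.add v10 v67
  let v70 := A.mul v39 v68
  let v71 := A.mul v40 v69
  let v72 := A.add v70 v71
  let v73 := A.base 16
  let v74 := A.mul v68 v73
  let v75 := A.base 17
  let v76 := A.mul v69 v75
  let v77 := A.add v74 v76
  let v78 := A.mul v68 v75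
  let v79 := A.base 18
  pD0a_b5 A v0 v1 v3 v5 v6 v36 v38 v39 v40 v42 v45 v60 v61 v65 v66 v68 v69 v72 v77 v78 v79

def pD0a_b3 {α : Type} (A : Alg α) (v0 v1 v3 v5 v6 v9 v10 v36 v38 v39 v40 v42 v45 v46 v47 : α) : List α :=
  let v48 := A.mul v1 v47
  let v49 := A.add v46 v48
  let v50 := A.base 9
  let v51 := A.base 10
  let v52 := A.mul v1 v51
  let v53 := A.add v50 v52
  let v54 := A.mul v5 v49
  let v55 := A.mul v5 v53
  let v56 := A.mul v0 v36
  let v57 := A.mul v0 v38
  let v58 := A.sub v54 v56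
  let v59 := A.add v55 v57
  let v60 := A.base 11
  let v61 := A.base 12
  let v62 := A.mul v5 v42
  let v63 := A.mul v60 v62
  pD0a_b4 A v0 v1 v3 v5 v6 v9 v10 v36 v38 v39 v40 v42 v45 v58 v59 v60 v61 v62 v63

def pD0a_b2 {α : Type} (A : Alg α) (v0 v1 v3 v5 v6 v8 v9 v10 v28 v30 v31 : α) : List α :=
  let v32 := A.mul v8 v9
  let v33 := A.mul v8 v10
  let v34 := A.add v30 v32
  let v35 := A.add v31 v33
  let v36 := A.mul v5 v35
  let v37 := A.mul v5 v34
  let v38 := A.add v28 v37
  let v39 := A.base 5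
  let v40 := A.base 6
  let v41 := A.mul v1 v40
  let v42 := A.add v39 v41
  let v43 := A.base 15
  let v44 := A.mul v0 v42
  let v45 := A.add v43 v44
  let v46 := A.base 7
  let v47 := A.base 8
  pD0a_b3 A v0 v1 v3 v5 v6 v9 v10 v36 v38 v39 v40 v42 v45 v46 v47

def pD0a_b1 {α : Type} (A : Alg α) (v0 v1 v3 v5 v6 v8 v9 v10 v12 v15 : α) : List α :=
  let v16 := A.cst (4) 0
  let v17 := A.mul v15 v16
  let v18 := A.base 4
  let v19 := A.mul v8 v18
  let v20 := A.mul v3 v19
  let v21 := A.sub v17 v20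
  let v22 := A.mul v12 v16
  let v23 := A.mul v0 v8
  let v24 := A.add v22 v23
  let v25 := A.mul v8 v24
  let v26 := A.mul v0 v25
  let v27 := A.add v21 v26
  let v28 := A.mul v3 v27
  let v29 := A.mul v3 v12
  let v30 := A.add v23 v29
  let v31 := A.mul v1 v30
  pD0a_b2 A v0 v1 v3 v5 v6 v8 v9 v10 v28 v30 v31

def pD0a_f {α : Type} (A : Alg α) : List α :=
  let v0 := A.x
  let v1 := A.y
  let v2 := A.base 2
  let v3 := A.cst (2) 0
  let v4 := A.mul v0 v3
  let v5 := A.sub v2 v4
  let v6 := A.mul v1 v1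
  let v7 := A.cst (1) 0
  let v8 := A.add v6 v7
  let v9 := A.base 0
  let v10 := A.base 1
  let v11 := A.mul v1 v10
  let v12 := A.add v9 v11
  let v13 := A.base 3
  let v14 := A.add v11 v13
  let v15 := A.mul v14 v14
  pD0a_b1 A v0 v1 v3 v5 v6 v8 v9 v10 v12 v15

theorem pD0a_h {α : Type} (A : Alg α) : pD0a_f A = outs A pD0a_P pD0a_o := rfl

def pD0a : Prg := ⟨pD0a_P, pD0a_o, pD0a_f, pD0a_h⟩

/-- last part -/
def pD0a_z : List Op := [.cst 12 0, .mul 0 261, .sub 398 0, .cst 6 0, .mul 0 134, .sub 367 0, .mul 2 6, .sub 368 0]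

theorem pD0a_parts : pD0a_P = pE0a ++ (pH0a ++ pD0a_z) := rfl

theorem pD0a_val (P : Pt) (l : List ℝ) (r s : ℝ) (β : ℕ → ℝ)
    (hβ : β = fun i => get 0 (P.syl l) i) :
    OutEq (run (realAlg β r s) pD0a_P []) pD0a_o
      [P.E12 r ⟨1, s⟩ (P.T0 r ⟨1, s⟩ (1 - 2 * P.ys.re - 2 * (r * (⟨1, s⟩ : ℂ).re))) (P.U0 r ⟨1, s⟩ (P.T0 r ⟨1, s⟩ (1 - 2 * P.ys.re - 2 * (r * (⟨1, s⟩ : ℂ).re))) (1 - 2 * P.ys.re - 2 * (r * (⟨1, s⟩ : ℂ).re))) (1 - 2 * P.ys.re - 2 * (r * (⟨1, s⟩ : ℂ).re))
        - 12 * E0h β 81 r (r * s) 1 s,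
      (P.G6 r ⟨1, s⟩ (P.T0 r ⟨1, s⟩ (1 - 2 * P.ys.re - 2 * (r * (⟨1, s⟩ : ℂ).re))) (P.U0 r ⟨1, s⟩ (P.T0 r ⟨1, s⟩ (1 - 2 * P.ys.re - 2 * (r * (⟨1, s⟩ : ℂ).re))) (1 - 2 * P.ys.re - 2 * (r * (⟨1, s⟩ : ℂ).re))) (1 - 2 * P.ys.re - 2 * (r * (⟨1, s⟩ : ℂ).re))).re
        - 6 * G0h β 114 r (r * s) 1 s,
      (P.G6 r ⟨1, s⟩ (P.T0 r ⟨1, s⟩ (1 - 2 * P.ys.re - 2 * (r * (⟨1, s⟩ : ℂ).re))) (P.U0 r ⟨1, s⟩ (P.T0 r ⟨1, s⟩ (1 - 2 * P.ys.re - 2 * (r * (⟨1, s⟩ : ℂ).re))) (1 - 2 * P.ys.re - 2 * (r * (⟨1, s⟩ : ℂ).re))) (1 - 2 * P.ys.re - 2 * (r * (⟨1, s⟩ : ℂ).re))).im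
        - 6 * G0h β 158 r (r * s) 1 s] := by
  have hE := pE0a_val P l r s
  rw [← hβ] at hE
  obtain ⟨st1, e1⟩ : ∃ q, q = run (realAlg β r s) pE0a [] := ⟨_, rfl⟩
  rw [← e1] at hE
  have hH := pH0a_val β r s st1
  have hL := fun k n h => get_run_add' (realAlg β r s) 0 pH0a st1 k n h
  obtain ⟨st2, e2⟩ : ∃ q, q = run (realAlg β r s) pH0a st1 := ⟨_, rfl⟩
  rw [← e2] at hH
  rw [← e2] at hL
  obtain ⟨a0, a1, a2, a3, -⟩ := hE
  obtain ⟨b0, b1, b2, -⟩ := hH
  rw [pD0a_parts, run_append, run_append, ← e1, ← e2]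
  have h := trE_runst2 (realAlg β r s) pD0a_z st2
  unfold pD0a_z at h
  obtain ⟨v0, h0, h⟩ := h
  obtain ⟨v1, h1, h⟩ := h
  obtain ⟨v2, h2, h⟩ := h
  obtain ⟨v3, h3, h⟩ := h
  obtain ⟨v4, h4, h⟩ := h
  obtain ⟨v5, h5, h⟩ := h
  obtain ⟨v6, h6, h⟩ := h
  obtain ⟨v7, h7, h⟩ := h
  have cE12 : get 0 st2 396 = P.E12 r ⟨1, s⟩ (P.T0 r ⟨1, s⟩ (1 - 2 * P.ys.re - 2 * (r * (⟨1, s⟩ : ℂ).re))) (P.U0 r ⟨1, s⟩ (P.T0 r ⟨1, s⟩ (1 - 2 * P.ys.re - 2 * (r * (⟨1, s⟩ : ℂ).re))) (1 - 2 * P.ys.re - 2 * (r * (⟨1, s⟩ : ℂ).re))) (1 - 2 * P.ys.re - 2 * (r * (⟨1, s⟩ : ℂ).re)) := (hL 35 396 rfl).trans a0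
  replace h0 : v0 = (12 : ℝ) := by rw [h0]; norm_num [step, realAlg]
  change v1 = v0 * get 0 st2 260 at h1
  rw [h0, b0] at h1
  change v2 = get 0 st2 396 - v1 at h2
  rw [cE12, h1] at h2
  have cG6r : get 0 st2 362 = (P.G6 r ⟨1, s⟩ (P.T0 r ⟨1, s⟩ (1 - 2 * P.ys.re - 2 * (r * (⟨1, s⟩ : ℂ).re))) (P.U0 r ⟨1, s⟩ (P.T0 r ⟨1, s⟩ (1 - 2 * P.ys.re - 2 * (r * (⟨1, s⟩ : ℂ).re))) (1 - 2 * P.ys.re - 2 * (r * (⟨1, s⟩ : ℂ).re))) (1 - 2 * P.ys.re - 2 * (r * (⟨1, s⟩ : ℂ).re))).re := (hL 1 362 rfl).trans a1
  replace h3 : v3 = (6 : ℝ) := by rw [h3]; norm_num [step, realAlg]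
  change v4 = v3 * get 0 st2 130 at h4
  rw [h3, b1] at h4
  change v5 = get 0 st2 362 - v4 at h5
  rw [cG6r, h4] at h5
  have cG6i : get 0 st2 361 = (P.G6 r ⟨1, s⟩ (P.T0 r ⟨1, s⟩ (1 - 2 * P.ys.re - 2 * (r * (⟨1, s⟩ : ℂ).re))) (P.U0 r ⟨1, s⟩ (P.T0 r ⟨1, s⟩ (1 - 2 * P.ys.re - 2 * (r * (⟨1, s⟩ : ℂ).re))) (1 - 2 * P.ys.re - 2 * (r * (⟨1, s⟩ : ℂ).re))) (1 - 2 * P.ys.re - 2 * (r * (⟨1, s⟩ : ℂ).re))).im := (hL 0 361 rfl).trans a2
  change v6 = v3 * get 0 st2 0 at h6
  rw [h3, b2] at h6
  change v7 = get 0 st2 361 - v6 at h7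
  rw [cG6i, h6] at h7
  refine OutEq_of h ⟨h2, h5, h7, trivial⟩

end Pool.H61.Rh
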