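import Pool.Agent.H61.Rz.L2
import Pool.Agent.H61.Rz.Ap0
import Pool.Agent.H81.Lv.Hr
import Pool.Agent.H47.K3.Defs

/-! # generated: Horner program pH0b -/

set_option autoImplicit false
set_option maxRecDepth 100000
set_option linter.unusedVariables false

namespace Pool.H61.Rh

open Complex Pool.H47.Kc Pool.H47.K3

/-- program -/
def pH0b : List Op := [.x, .y, .mul 1 0, .base 86, .base 85, .mul 2 1, .add 1 0, .base 84,
  .mul 5 1, .add 1 0, .base 83, .mul 8 1, .add 1 0, .base 82, .mul 11 1, .add 1 0,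
  .base 81, .mul 14 1, .add 1 0, .base 91, .base 90, .mul 18 1, .add 1 0, .base 89,
  .mul 21 1, .add 1 0, .base 88, .mul 24 1, .add 1 0, .base 87, .mul 27 1, .add 1 0,
  .base 95, .base 94, .mul 31 1, .add 1 0, .base 93, .mul 34 1, .add 1 0, .base 92,
  .mul 37 1, .add 1 0, .base 98, .base 97, .mul 41 1, .add 1 0, .base 96, .mul 44 1,
  .add 1 0, .base 100, .base 99, .mul 48 1, .add 1 0, .base 101, .mul 53 0, .add 2 0,
  .mul 55 0, .add 8 0, .mul 57 0, .add 17 0, .mul 59 0, .add 29 0, .mul 61 0, .add 44 0,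
  .base 107, .base 106, .mul 65 1, .add 1 0, .base 105, .mul 68 1, .add 1 0, .base 104,
  .mul 71 1, .add 1 0, .base 103, .mul 74 1, .add 1 0, .base 102, .mul 77 1, .add 1 0,
  .base 113, .base 112, .mul 81 1, .add 1 0, .base 111, .mul 84 1, .add 1 0, .base 110,
  .mul 87 1, .add 1 0, .base 109, .mul 90 1, .add 1 0, .base 108, .mul 93 1, .add 1 0,
  .mul 94 94, .mul 33 0, .mul 96 18, .add 1 0, .add 4 0, .base 121, .base 120, .mul 100 1,
  .add 1 0, .base 119, .mul 103 1, .add 1 0, .base 118, .mul 106 1, .add 1 0, .base 117,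
  .mul 109 1, .add 1 0, .base 116, .mul 112 1, .add 1 0, .base 115, .mul 115 1, .add 1 0,
  .base 114, .mul 118 1, .add 1 0, .base 128, .base 127, .mul 122 1, .add 1 0, .base 126,
  .mul 125 1, .add 1 0, .base 125, .mul 128 1, .add 1 0, .base 124, .mul 131 1, .add 1 0,
  .base 123, .mul 134 1, .add 1 0, .base 122, .mul 137 1, .add 1 0, .base 134, .base 133,
  .mul 141 1, .add 1 0, .base 132, .mul 144 1, .add 1 0, .base 131, .mul 147 1, .add 1 0,
  .base 130, .mul 150 1, .add 1 0, .base 129, .mul 153 1, .add 1 0, .base 139, .base 138,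
  .mul 157 1, .add 1 0, .base 137, .mul 160 1, .add 1 0, .base 136, .mul 163 1, .add 1 0,
  .base 135, .mul 166 1, .add 1 0, .base 143, .base 142, .mul 170 1, .add 1 0, .base 141,
  .mul 173 1, .add 1 0, .base 140, .mul 176 1, .add 1 0, .base 146, .base 145, .mul 180 1,
  .add 1 0, .base 144, .mul 183 1, .add 1 0, .base 148, .base 147, .mul 187 1, .add 1 0,
  .base 149, .mul 192 0, .add 2 0, .mul 194 0, .add 8 0, .mul 196 0, .add 17 0, .mul 198 0,
  .add 29 0, .mul 200 0, .add 44 0, .mul 202 0, .add 62 0, .mul 204 0, .add 83 0, .base 157,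
  .base 156, .mul 208 1, .add 1 0, .base 155, .mul 211 1, .add 1 0, .base 154, .mul 214 1,
  .add 1 0, .base 153, .mul 217 1, .add 1 0, .base 152, .mul 220 1, .add 1 0, .base 151,
  .mul 223 1, .add 1 0, .base 150, .mul 226 1, .add 1 0, .mul 227 22, .add 1 0, .base 165,
  .base 164, .mul 230 1, .add 1 0, .base 163, .mul 233 1, .add 1 0, .base 162, .mul 236 1,
  .add 1 0, .base 161, .mul 239 1, .add 1 0, .base 160, .mul 242 1, .add 1 0, .base 159,
  .mul 245 1, .add 1 0, .base 158, .mul 248 1, .add 1 0, .base 172, .base 171, .mul 252 1,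
  .add 1 0, .base 170, .mul 255 1, .add 1 0, .base 169, .mul 258 1, .add 1 0, .base 168,
  .mul 261 1, .add 1 0, .base 167, .mul 264 1, .add 1 0, .base 166, .mul 267 1, .add 1 0,
  .base 178, .base 177, .mul 271 1, .add 1 0, .base 176, .mul 274 1, .add 1 0, .base 175,
  .mul 277 1, .add 1 0, .base 174, .mul 280 1, .add 1 0, .base 173, .mul 283 1, .add 1 0,
  .base 183, .base 182, .mul 287 1, .add 1 0, .base 181, .mul 290 1, .add 1 0, .base 180,
  .mul 293 1, .add 1 0, .base 179, .mul 296 1, .add 1 0, .base 187, .base 186, .mul 300 1,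
  .add 1 0, .base 185, .mul 303 1, .add 1 0, .base 184, .mul 306 1, .add 1 0, .base 190,
  .base 189, .mul 310 1, .add 1 0, .base 188, .mul 313 1, .add 1 0, .base 192, .base 191,
  .mul 317 1, .add 1 0, .base 193, .mul 322 0, .add 2 0, .mul 324 0, .add 8 0, .mul 326 0,
  .add 17 0, .mul 328 0, .add 29 0, .mul 330 0, .add 44 0, .mul 332 0, .add 62 0, .mul 334 0,
  .add 83 0, .base 201, .base 200, .mul 338 1, .add 1 0, .base 199, .mul 341 1, .add 1 0,
  .base 198, .mul 344 1, .add 1 0, .base 197, .mul 347 1, .add 1 0, .base 196, .mul 350 1,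
  .add 1 0, .base 195, .mul 353 1, .add 1 0, .base 194, .mul 356 1, .add 1 0, .mul 357 22,
  .add 1 0]

/-- positions of the outputs -/
def pH0b_out : List ℕ := [260, 130, 0]

/-- the final condition of the trace -/
def pH0b_valQ (β : ℕ → ℝ) (r s : ℝ) (st0 : List ℝ) (st : List ℝ) : Prop := run (realAlg β r s) pH0b st0 = st

theorem pH0b_val_s5 (β : ℕ → ℝ) (r s : ℝ) (st0 : List ℝ)
    (v0 : ℝ) (h0 : v0 = r) (v1 : ℝ) (h1 : v1 = s) (v2 : ℝ) (rs : ℝ) (e_rs_d : rs = r * s)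
    (e_rs_v : v2 = rs) (v3 : ℝ) (v4 : ℝ) (v5 : ℝ) (v6 : ℝ) (v7 : ℝ) (v8 : ℝ) (v9 : ℝ) (v10 : ℝ)
    (v11 : ℝ) (v12 : ℝ) (v13 : ℝ) (v14 : ℝ) (v15 : ℝ) (v16 : ℝ) (v17 : ℝ) (v18 : ℝ) (w81 : ℝ)
    (e_w81_d : w81 = hr β rs 81 6) (v19 : ℝ) (v20 : ℝ) (v21 : ℝ) (v22 : ℝ) (v23 : ℝ) (v24 : ℝ)
    (v25 : ℝ) (v26 : ℝ) (v27 : ℝ) (v28 : ℝ) (v29 : ℝ) (v30 : ℝ) (v31 : ℝ) (w87 : ℝ)
    (e_w87_d : w87 = hr β rs 87 5) (v32 : ℝ) (v33 : ℝ) (v34 : ℝ) (v35 : ℝ) (v36 : ℝ) (v37 : ℝ)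
    (v38 : ℝ) (v39 : ℝ) (v40 : ℝ) (v41 : ℝ) (w92 : ℝ) (e_w92_d : w92 = hr β rs 92 4) (v42 : ℝ)
    (v43 : ℝ) (v44 : ℝ) (v45 : ℝ) (v46 : ℝ) (v47 : ℝ) (v48 : ℝ) (w96 : ℝ)
    (e_w96_d : w96 = hr β rs 96 3) (v49 : ℝ) (v50 : ℝ) (v51 : ℝ) (v52 : ℝ) (w99 : ℝ)
    (e_w99_d : w99 = hr β rs 99 2) (v53 : ℝ) (v54 : ℝ) (v55 : ℝ) (v56 : ℝ) (v57 : ℝ) (v58 : ℝ)
    (v59 : ℝ) (v60 : ℝ) (v61 : ℝ) (v62 : ℝ) (v63 : ℝ) (E3a : ℝ) (e_E3a_d : E3a = hr2 β rs r 81 5)
    (v64 : ℝ) (v65 : ℝ) (v66 : ℝ) (v67 : ℝ) (v68 : ℝ) (v69 : ℝ) (v70 : ℝ) (v71 : ℝ) (v72 : ℝ)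
    (v73 : ℝ) (v74 : ℝ) (v75 : ℝ) (v76 : ℝ) (v77 : ℝ) (v78 : ℝ) (v79 : ℝ) (w102 : ℝ)
    (e_w102_d : w102 = hr β r 102 6) (v80 : ℝ) (v81 : ℝ) (v82 : ℝ) (v83 : ℝ) (v84 : ℝ) (v85 : ℝ)
    (v86 : ℝ) (v87 : ℝ) (v88 : ℝ) (v89 : ℝ) (v90 : ℝ) (v91 : ℝ) (v92 : ℝ) (v93 : ℝ) (v94 : ℝ)
    (v95 : ℝ) (w108 : ℝ) (e_w108_d : w108 = hr β r 108 6) (v96 : ℝ) (v97 : ℝ) (v98 : ℝ) (v99 : ℝ)
    (v100 : ℝ) (E3 : ℝ) (e_E3_d : E3 = E0h β 81 rs r s 1) (e_E3_v : v100 = E3) (v101 : ℝ)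
    (v102 : ℝ) (v103 : ℝ) (v104 : ℝ) (v105 : ℝ) (v106 : ℝ) (v107 : ℝ) (v108 : ℝ) (v109 : ℝ)
    (v110 : ℝ) (v111 : ℝ) (v112 : ℝ) (v113 : ℝ) (v114 : ℝ) (v115 : ℝ) (v116 : ℝ) (v117 : ℝ)
    (v118 : ℝ) (v119 : ℝ) (v120 : ℝ) (v121 : ℝ) (v122 : ℝ) (w114 : ℝ)
    (e_w114_d : w114 = hr β rs 114 8) (v123 : ℝ) (v124 : ℝ) (v125 : ℝ) (v126 : ℝ) (v127 : ℝ)
    (v128 : ℝ) (v129 : ℝ) (v130 : ℝ) (v131 : ℝ) (v132 : ℝ) (v133 : ℝ) (v134 : ℝ) (v135 : ℝ)
    (v136 : ℝ) (v137 : ℝ) (v138 : ℝ) (v139 : ℝ) (v140 : ℝ) (v141 : ℝ) (w122 : ℝ)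
    (e_w122_d : w122 = hr β rs 122 7) (v142 : ℝ) (v143 : ℝ) (v144 : ℝ) (v145 : ℝ) (v146 : ℝ)
    (v147 : ℝ) (v148 : ℝ) (v149 : ℝ) (v150 : ℝ) (v151 : ℝ) (v152 : ℝ) (v153 : ℝ) (v154 : ℝ)
    (v155 : ℝ) (v156 : ℝ) (v157 : ℝ) (w129 : ℝ) (e_w129_d : w129 = hr β rs 129 6) (v158 : ℝ)
    (v159 : ℝ) (v160 : ℝ) (v161 : ℝ) (v162 : ℝ) (v163 : ℝ) (v164 : ℝ) (v165 : ℝ) (v166 : ℝ)
    (v167 : ℝ) (v168 : ℝ) (v169 : ℝ) (v170 : ℝ) (w135 : ℝ) (e_w135_d : w135 = hr β rs 135 5)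
    (v171 : ℝ) (v172 : ℝ) (v173 : ℝ) (v174 : ℝ) (v175 : ℝ) (v176 : ℝ) (v177 : ℝ) (v178 : ℝ)
    (v179 : ℝ) (v180 : ℝ) (w140 : ℝ) (e_w140_d : w140 = hr β rs 140 4) (v181 : ℝ) (v182 : ℝ)
    (v183 : ℝ) (v184 : ℝ) (v185 : ℝ) (v186 : ℝ) (v187 : ℝ) (w144 : ℝ)
    (e_w144_d : w144 = hr β rs 144 3) (v188 : ℝ) (v189 : ℝ) (v190 : ℝ) (v191 : ℝ) (w147 : ℝ)
    (e_w147_d : w147 = hr β rs 147 2) (v192 : ℝ) (v193 : ℝ) (v194 : ℝ) (v195 : ℝ) (v196 : ℝ)
    (v197 : ℝ) (v198 : ℝ) (v199 : ℝ) (v200 : ℝ) (v201 : ℝ) (v202 : ℝ) (v203 : ℝ) (v204 : ℝ)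
    (v205 : ℝ) (v206 : ℝ) (G3a : ℝ) (e_G3a_d : G3a = hr2 β rs r 114 7) (v207 : ℝ) (v208 : ℝ)
    (v209 : ℝ) (v210 : ℝ) (v211 : ℝ) (v212 : ℝ) (v213 : ℝ) (v214 : ℝ) (v215 : ℝ) (v216 : ℝ)
    (v217 : ℝ) (v218 : ℝ) (v219 : ℝ) (v220 : ℝ) (v221 : ℝ) (v222 : ℝ) (v223 : ℝ) (v224 : ℝ)
    (v225 : ℝ) (v226 : ℝ) (v227 : ℝ) (v228 : ℝ) (w150 : ℝ) (e_w150_d : w150 = hr β r 150 8)
    (v229 : ℝ) (v230 : ℝ) (G3 : ℝ) (e_G3_d : G3 = G0h β 114 rs r s 1) (e_G3_v : v230 = G3)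
    (v231 : ℝ) (v232 : ℝ) (v233 : ℝ) (v234 : ℝ) (v235 : ℝ) (v236 : ℝ) (v237 : ℝ) (v238 : ℝ)
    (v239 : ℝ) (v240 : ℝ) (v241 : ℝ) (v242 : ℝ) (v243 : ℝ) (v244 : ℝ) (v245 : ℝ) (v246 : ℝ)
    (v247 : ℝ) (v248 : ℝ) (v249 : ℝ) (v250 : ℝ) (v251 : ℝ) (v252 : ℝ) (w158 : ℝ)
    (e_w158_d : w158 = hr β rs 158 8) (e_w158_v : v252 = w158) (v253 : ℝ) (v254 : ℝ) (v255 : ℝ)
    (v256 : ℝ) (v257 : ℝ) (v258 : ℝ) (v259 : ℝ) (v260 : ℝ) (v261 : ℝ) (v262 : ℝ) (v263 : ℝ)
    (v264 : ℝ) (v265 : ℝ) (v266 : ℝ) (v267 : ℝ) (v268 : ℝ) (v269 : ℝ) (v270 : ℝ) (v271 : ℝ)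
    (w166 : ℝ) (e_w166_d : w166 = hr β rs 166 7) (e_w166_v : v271 = w166) (v272 : ℝ) (v273 : ℝ)
    (v274 : ℝ) (v275 : ℝ) (v276 : ℝ) (v277 : ℝ) (v278 : ℝ) (v279 : ℝ) (v280 : ℝ) (v281 : ℝ)
    (v282 : ℝ) (v283 : ℝ) (v284 : ℝ) (v285 : ℝ) (v286 : ℝ) (v287 : ℝ) (w173 : ℝ)
    (e_w173_d : w173 = hr β rs 173 6) (e_w173_v : v287 = w173) (v288 : ℝ) (h288 : v288 = β 183)
    (v289 : ℝ) (h289 : v289 = β 182) (v290 : ℝ) (h290 : v290 = v2 * v288) (v291 : ℝ)
    (h291 : v291 = v289 + v290) (v292 : ℝ) (h292 : v292 = β 181) (v293 : ℝ)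
    (h293 : v293 = v2 * v291) (v294 : ℝ) (h294 : v294 = v292 + v293)
    (h : TrE (realAlg β r s)
    [.base 180, .mul 293 1, .add 1 0, .base 179, .mul 296 1, .add 1 0, .base 187, .base 186,
    .mul 300 1, .add 1 0, .base 185, .mul 303 1, .add 1 0, .base 184, .mul 306 1, .add 1 0,
    .base 190, .base 189, .mul 310 1, .add 1 0, .base 188, .mul 313 1, .add 1 0, .base 192,
    .base 191, .mul 317 1, .add 1 0, .base 193, .mul 322 0, .add 2 0, .mul 324 0, .add 8 0,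
    .mul 326 0, .add 17 0, .mul 328 0, .add 29 0, .mul 330 0, .add 44 0, .mul 332 0, .add 62 0,
    .mul 334 0, .add 83 0, .base 201, .base 200, .mul 338 1, .add 1 0, .base 199, .mul 341 1,
    .add 1 0, .base 198, .mul 344 1, .add 1 0, .base 197, .mul 347 1, .add 1 0, .base 196,
    .mul 350 1, .add 1 0, .base 195, .mul 353 1, .add 1 0, .base 194, .mul 356 1, .add 1 0,
    .mul 357 22, .add 1 0]
    (v294 :: v293 :: v292 :: v291 :: v290 :: v289 :: v288 :: v287 :: v286 :: v285 :: v284 :: v283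
    :: v282 :: v281 :: v280 :: v279 :: v278 :: v277 :: v276 :: v275 :: v274 :: v273 :: v272
    :: v271 :: v270 :: v269 :: v268 :: v267 :: v266 :: v265 :: v264 :: v263 :: v262 :: v261
    :: v260 :: v259 :: v258 :: v257 :: v256 :: v255 :: v254 :: v253 :: v252 :: v251 :: v250
    :: v249 :: v248 :: v247 :: v246 :: v245 :: v244 :: v243 :: v242 :: v241 :: v240 :: v239
    :: v238 :: v237 :: v236 :: v235 :: v234 :: v233 :: v232 :: v231 :: v230 :: v229 :: v228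
    :: v227 :: v226 :: v225 :: v224 :: v223 :: v222 :: v221 :: v220 :: v219 :: v218 :: v217
    :: v216 :: v215 :: v214 :: v213 :: v212 :: v211 :: v210 :: v209 :: v208 :: v207 :: v206
    :: v205 :: v204 :: v203 :: v202 :: v201 :: v200 :: v199 :: v198 :: v197 :: v196 :: v195
    :: v194 :: v193 :: v192 :: v191 :: v190 :: v189 :: v188 :: v187 :: v186 :: v185 :: v184
    :: v183 :: v182 :: v181 :: v180 :: v179 :: v178 :: v177 :: v176 :: v175 :: v174 :: v173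
    :: v172 :: v171 :: v170 :: v169 :: v168 :: v167 :: v166 :: v165 :: v164 :: v163 :: v162
    :: v161 :: v160 :: v159 :: v158 :: v157 :: v156 :: v155 :: v154 :: v153 :: v152 :: v151
    :: v150 :: v149 :: v148 :: v147 :: v146 :: v145 :: v144 :: v143 :: v142 :: v141 :: v140
    :: v139 :: v138 :: v137 :: v136 :: v135 :: v134 :: v133 :: v132 :: v131 :: v130 :: v129
    :: v128 :: v127 :: v126 :: v125 :: v124 :: v123 :: v122 :: v121 :: v120 :: v119 :: v118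
    :: v117 :: v116 :: v115 :: v114 :: v113 :: v112 :: v111 :: v110 :: v109 :: v108 :: v107
    :: v106 :: v105 :: v104 :: v103 :: v102 :: v101 :: v100 :: v99 :: v98 :: v97 :: v96 :: v95
    :: v94 :: v93 :: v92 :: v91 :: v90 :: v89 :: v88 :: v87 :: v86 :: v85 :: v84 :: v83 :: v82
    :: v81 :: v80 :: v79 :: v78 :: v77 :: v76 :: v75 :: v74 :: v73 :: v72 :: v71 :: v70 :: v69
    :: v68 :: v67 :: v66 :: v65 :: v64 :: v63 :: v62 :: v61 :: v60 :: v59 :: v58 :: v57 :: v56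
    :: v55 :: v54 :: v53 :: v52 :: v51 :: v50 :: v49 :: v48 :: v47 :: v46 :: v45 :: v44 :: v43
    :: v42 :: v41 :: v40 :: v39 :: v38 :: v37 :: v36 :: v35 :: v34 :: v33 :: v32 :: v31 :: v30
    :: v29 :: v28 :: v27 :: v26 :: v25 :: v24 :: v23 :: v22 :: v21 :: v20 :: v19 :: v18 :: v17
    :: v16 :: v15 :: v14 :: v13 :: v12 :: v11 :: v10 :: v9 :: v8 :: v7 :: v6 :: v5 :: v4 :: v3
    :: v2 :: v1 :: v0 :: st0)
    (pH0b_valQ β r s st0)) :
    OutEq (run (realAlg β r s) pH0b st0) pH0b_out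
      [E0h β 81 (r * s) r s 1, G0h β 114 (r * s) r s 1, G0h β 158 (r * s) r s 1] := by
  obtain ⟨v295, h295, h⟩ := h
  change v295 = β 180 at h295
  obtain ⟨v296, h296, h⟩ := h
  change v296 = v2 * v294 at h296
  obtain ⟨v297, h297, h⟩ := h
  change v297 = v295 + v296 at h297
  obtain ⟨v298, h298, h⟩ := h
  change v298 = β 179 at h298
  obtain ⟨v299, h299, h⟩ := h
  change v299 = v2 * v297 at h299
  obtain ⟨v300, h300, h⟩ := h
  change v300 = v298 + v299 at h300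
  obtain ⟨w179, e_w179_d⟩ : ∃ q : ℝ, q = hr β rs 179 5 := ⟨_, rfl⟩
  have a_w179 : hr β rs 179 5 = β 179 + rs * (β 180 + rs * (β 181 + rs * (β 182 + rs * (β 183)))) := by
    simp only [hr]
  have e_w179_v : v300 = w179 := by
    rw [e_w179_d, a_w179]
    simp only [h300, h299, h298, h297, h296, h295, h294, h293, h292, h291, h290, h289, h288, e_rs_v, mul_re, mul_im, add_re, add_im, sub_re, sub_im, neg_re, neg_im, I_re, I_im, ofReal_re,
      ofReal_im, one_re, one_im, zero_re, zero_im, dt, normSq_apply, re_ofNat, im_ofNat, conj_re, conj_im]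
    try ring
  obtain ⟨v301, h301, h⟩ := h
  change v301 = β 187 at h301
  obtain ⟨v302, h302, h⟩ := h
  change v302 = β 186 at h302
  obtain ⟨v303, h303, h⟩ := h
  change v303 = v2 * v301 at h303
  obtain ⟨v304, h304, h⟩ := h
  change v304 = v302 + v303 at h304
  obtain ⟨v305, h305, h⟩ := h
  change v305 = β 185 at h305
  obtain ⟨v306, h306, h⟩ := h
  change v306 = v2 * v304 at h306
  obtain ⟨v307, h307, h⟩ := h
  change v307 = v305 + v306 at h307
  obtain ⟨v308, h308, h⟩ := h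
  change v308 = β 184 at h308
  obtain ⟨v309, h309, h⟩ := h
  change v309 = v2 * v307 at h309
  obtain ⟨v310, h310, h⟩ := h
  change v310 = v308 + v309 at h310
  obtain ⟨w184, e_w184_d⟩ : ∃ q : ℝ, q = hr β rs 184 4 := ⟨_, rfl⟩
  have a_w184 : hr β rs 184 4 = β 184 + rs * (β 185 + rs * (β 186 + rs * (β 187))) := by
    simp only [hr]
  have e_w184_v : v310 = w184 := by
    rw [e_w184_d, a_w184]
    simp only [h310, h309, h308, h307, h306, h305, h304, h303, h302, h301, e_rs_v, mul_re, mul_im, add_re, add_im, sub_re, sub_im, neg_re, neg_im, I_re, I_im, ofReal_re,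
      ofReal_im, one_re, one_im, zero_re, zero_im, dt, normSq_apply, re_ofNat, im_ofNat, conj_re, conj_im]
    try ring
  obtain ⟨v311, h311, h⟩ := h
  change v311 = β 190 at h311
  obtain ⟨v312, h312, h⟩ := h
  change v312 = β 189 at h312
  obtain ⟨v313, h313, h⟩ := h
  change v313 = v2 * v311 at h313
  obtain ⟨v314, h314, h⟩ := h
  change v314 = v312 + v313 at h314
  obtain ⟨v315, h315, h⟩ := h
  change v315 = β 188 at h315
  obtain ⟨v316, h316, h⟩ := h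
  change v316 = v2 * v314 at h316
  obtain ⟨v317, h317, h⟩ := h
  change v317 = v315 + v316 at h317
  obtain ⟨w188, e_w188_d⟩ : ∃ q : ℝ, q = hr β rs 188 3 := ⟨_, rfl⟩
  have a_w188 : hr β rs 188 3 = β 188 + rs * (β 189 + rs * (β 190)) := by
    simp only [hr]
  have e_w188_v : v317 = w188 := by
    rw [e_w188_d, a_w188]
    simp only [h317, h316, h315, h314, h313, h312, h311, e_rs_v, mul_re, mul_im, add_re, add_im, sub_re, sub_im, neg_re, neg_im, I_re, I_im, ofReal_re,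
      ofReal_im, one_re, one_im, zero_re, zero_im, dt, normSq_apply, re_ofNat, im_ofNat, conj_re, conj_im]
    try ring
  obtain ⟨v318, h318, h⟩ := h
  change v318 = β 192 at h318
  obtain ⟨v319, h319, h⟩ := h
  change v319 = β 191 at h319
  obtain ⟨v320, h320, h⟩ := h
  change v320 = v2 * v318 at h320
  obtain ⟨v321, h321, h⟩ := h
  change v321 = v319 + v320 at h321
  obtain ⟨w191, e_w191_d⟩ : ∃ q : ℝ, q = hr β rs 191 2 := ⟨_, rfl⟩
  have a_w191 : hr β rs 191 2 = β 191 + rs * (β 192) := by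
    simp only [hr]
  have e_w191_v : v321 = w191 := by
    rw [e_w191_d, a_w191]
    simp only [h321, h320, h319, h318, e_rs_v, mul_re, mul_im, add_re, add_im, sub_re, sub_im, neg_re, neg_im, I_re, I_im, ofReal_re,
      ofReal_im, one_re, one_im, zero_re, zero_im, dt, normSq_apply, re_ofNat, im_ofNat, conj_re, conj_im]
    try ring
  obtain ⟨v322, h322, h⟩ := h
  change v322 = β 193 at h322
  obtain ⟨v323, h323, h⟩ := h
  change v323 = v0 * v322 at h323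
  obtain ⟨v324, h324, h⟩ := h
  change v324 = v321 + v323 at h324
  obtain ⟨v325, h325, h⟩ := h
  change v325 = v0 * v324 at h325
  obtain ⟨v326, h326, h⟩ := h
  change v326 = v317 + v325 at h326
  obtain ⟨v327, h327, h⟩ := h
  change v327 = v0 * v326 at h327
  obtain ⟨v328, h328, h⟩ := h
  change v328 = v310 + v327 at h328
  obtain ⟨v329, h329, h⟩ := h
  change v329 = v0 * v328 at h329
  obtain ⟨v330, h330, h⟩ := h
  change v330 = v300 + v329 at h330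
  obtain ⟨v331, h331, h⟩ := h
  change v331 = v0 * v330 at h331
  obtain ⟨v332, h332, h⟩ := h
  change v332 = v287 + v331 at h332
  obtain ⟨v333, h333, h⟩ := h
  change v333 = v0 * v332 at h333
  obtain ⟨v334, h334, h⟩ := h
  change v334 = v271 + v333 at h334
  obtain ⟨v335, h335, h⟩ := h
  change v335 = v0 * v334 at h335
  obtain ⟨v336, h336, h⟩ := h
  change v336 = v252 + v335 at h336
  obtain ⟨H3a, e_H3a_d⟩ : ∃ q : ℝ, q = hr2 β rs r 158 7 := ⟨_, rfl⟩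
  have a_H3a : hr2 β rs r 158 7 = w158 + r * (w166 + r * (w173 + r * (w179 + r * (w184 + r * (w188 + r * (w191 + r * (β 193))))))) := by
    simp only [hr2]; rw [e_w158_d, e_w166_d, e_w173_d, e_w179_d, e_w184_d, e_w188_d, e_w191_d]
  have e_H3a_v : v336 = H3a := by
    rw [e_H3a_d, a_H3a]
    simp only [h336, h335, h334, h333, h332, h331, h330, h329, h328, h327, h326, h325, h324, h323, h322, h0, e_w191_v, e_w188_v, e_w184_v, e_w179_v, e_w173_v, e_w166_v, e_w158_v, mul_re, mul_im, add_re, add_im, sub_re, sub_im, neg_re, neg_im, I_re, I_im, ofReal_re,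
      ofReal_im, one_re, one_im, zero_re, zero_im, dt, normSq_apply, re_ofNat, im_ofNat, conj_re, conj_im]
    try ring
  obtain ⟨v337, h337, h⟩ := h
  change v337 = β 201 at h337
  obtain ⟨v338, h338, h⟩ := h
  change v338 = β 200 at h338
  obtain ⟨v339, h339, h⟩ := h
  change v339 = v0 * v337 at h339
  obtain ⟨v340, h340, h⟩ := h
  change v340 = v338 + v339 at h340
  obtain ⟨v341, h341, h⟩ := h
  change v341 = β 199 at h341
  obtain ⟨v342, h342, h⟩ := h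
  change v342 = v0 * v340 at h342
  obtain ⟨v343, h343, h⟩ := h
  change v343 = v341 + v342 at h343
  obtain ⟨v344, h344, h⟩ := h
  change v344 = β 198 at h344
  obtain ⟨v345, h345, h⟩ := h
  change v345 = v0 * v343 at h345
  obtain ⟨v346, h346, h⟩ := h
  change v346 = v344 + v345 at h346
  obtain ⟨v347, h347, h⟩ := h
  change v347 = β 197 at h347
  obtain ⟨v348, h348, h⟩ := h
  change v348 = v0 * v346 at h348
  obtain ⟨v349, h349, h⟩ := h
  change v349 = v347 + v348 at h349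
  obtain ⟨v350, h350, h⟩ := h
  change v350 = β 196 at h350
  obtain ⟨v351, h351, h⟩ := h
  change v351 = v0 * v349 at h351
  obtain ⟨v352, h352, h⟩ := h
  change v352 = v350 + v351 at h352
  obtain ⟨v353, h353, h⟩ := h
  change v353 = β 195 at h353
  obtain ⟨v354, h354, h⟩ := h
  change v354 = v0 * v352 at h354
  obtain ⟨v355, h355, h⟩ := h
  change v355 = v353 + v354 at h355
  obtain ⟨v356, h356, h⟩ := h
  change v356 = β 194 at h356
  obtain ⟨v357, h357, h⟩ := h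
  change v357 = v0 * v355 at h357
  obtain ⟨v358, h358, h⟩ := h
  change v358 = v356 + v357 at h358
  obtain ⟨w194, e_w194_d⟩ : ∃ q : ℝ, q = hr β r 194 8 := ⟨_, rfl⟩
  have a_w194 : hr β r 194 8 = β 194 + r * (β 195 + r * (β 196 + r * (β 197 + r * (β 198 + r * (β 199 + r * (β 200 + r * (β 201))))))) := by
    simp only [hr]
  have e_w194_v : v358 = w194 := by
    rw [e_w194_d, a_w194]
    simp only [h358, h357, h356, h355, h354, h353, h352, h351, h350, h349, h348, h347, h346, h345, h344, h343, h342, h341, h340, h339, h338, h337, h0, mul_re, mul_im, add_re, add_im, sub_re, sub_im, neg_re, neg_im, I_re, I_im, ofReal_re,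
      ofReal_im, one_re, one_im, zero_re, zero_im, dt, normSq_apply, re_ofNat, im_ofNat, conj_re, conj_im]
    try ring
  obtain ⟨v359, h359, h⟩ := h
  change v359 = v1 * v336 at h359
  obtain ⟨v360, h360, h⟩ := h
  change v360 = v358 + v359 at h360
  obtain ⟨H3, e_H3_d⟩ : ∃ q : ℝ, q = G0h β 158 rs r s 1 := ⟨_, rfl⟩
  have a_H3 : G0h β 158 rs r s 1 = s * H3a + 1 * w194 := by
    rw [G0h, e_H3a_d, e_w194_d]
  have e_H3_v : v360 = H3 := by
    rw [e_H3_d, a_H3]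
    simp only [h360, h359, h1, e_H3a_v, e_w194_v, mul_re, mul_im, add_re, add_im, sub_re, sub_im, neg_re, neg_im, I_re, I_im, ofReal_re,
      ofReal_im, one_re, one_im, zero_re, zero_im, dt, normSq_apply, re_ofNat, im_ofNat, conj_re, conj_im]
    try ring
  obtain ⟨o_E3, e_o_E3_d⟩ : ∃ q : ℝ, q = E3 := ⟨_, rfl⟩
  have a_o_E3 : E3 = E3 := by
    rfl
  have e_o_E3_v : v100 = o_E3 := by
    rw [e_o_E3_d, a_o_E3]
    simp only [e_E3_v, mul_re, mul_im, add_re, add_im, sub_re, sub_im, neg_re, neg_im, I_re, I_im, ofReal_re,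
      ofReal_im, one_re, one_im, zero_re, zero_im, dt, normSq_apply, re_ofNat, im_ofNat, conj_re, conj_im]
    try ring
  obtain ⟨o_G3, e_o_G3_d⟩ : ∃ q : ℝ, q = G3 := ⟨_, rfl⟩
  have a_o_G3 : G3 = G3 := by
    rfl
  have e_o_G3_v : v230 = o_G3 := by
    rw [e_o_G3_d, a_o_G3]
    simp only [e_G3_v, mul_re, mul_im, add_re, add_im, sub_re, sub_im, neg_re, neg_im, I_re, I_im, ofReal_re,
      ofReal_im, one_re, one_im, zero_re, zero_im, dt, normSq_apply, re_ofNat, im_ofNat, conj_re, conj_im]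
    try ring
  obtain ⟨o_H3, e_o_H3_d⟩ : ∃ q : ℝ, q = H3 := ⟨_, rfl⟩
  have a_o_H3 : H3 = H3 := by
    rfl
  have e_o_H3_v : v360 = o_H3 := by
    rw [e_o_H3_d, a_o_H3]
    simp only [e_H3_v, mul_re, mul_im, add_re, add_im, sub_re, sub_im, neg_re, neg_im, I_re, I_im, ofReal_re,
      ofReal_im, one_re, one_im, zero_re, zero_im, dt, normSq_apply, re_ofNat, im_ofNat, conj_re, conj_im]
    try ring
  refine OutEq_of h ?_
  refine ⟨e_o_E3_v.trans ?_, e_o_G3_v.trans ?_, e_o_H3_v.trans ?_, trivial⟩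
  all_goals
    subst o_H3 o_G3 o_E3 H3 w194 H3a w191 w188 w184 w179 w173 w166 w158 G3 w150 G3a w147 w144 w140 w135 w129 w122 w114 E3 w108 w102 E3a w99 w96 w92 w87 w81 rs
    rfl

theorem pH0b_val_s4 (β : ℕ → ℝ) (r s : ℝ) (st0 : List ℝ)
    (v0 : ℝ) (h0 : v0 = r) (v1 : ℝ) (h1 : v1 = s) (v2 : ℝ) (rs : ℝ) (e_rs_d : rs = r * s)
    (e_rs_v : v2 = rs) (v3 : ℝ) (v4 : ℝ) (v5 : ℝ) (v6 : ℝ) (v7 : ℝ) (v8 : ℝ) (v9 : ℝ) (v10 : ℝ)
    (v11 : ℝ) (v12 : ℝ) (v13 : ℝ) (v14 : ℝ) (v15 : ℝ) (v16 : ℝ) (v17 : ℝ) (v18 : ℝ) (w81 : ℝ)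
    (e_w81_d : w81 = hr β rs 81 6) (v19 : ℝ) (v20 : ℝ) (v21 : ℝ) (v22 : ℝ) (v23 : ℝ) (v24 : ℝ)
    (v25 : ℝ) (v26 : ℝ) (v27 : ℝ) (v28 : ℝ) (v29 : ℝ) (v30 : ℝ) (v31 : ℝ) (w87 : ℝ)
    (e_w87_d : w87 = hr β rs 87 5) (v32 : ℝ) (v33 : ℝ) (v34 : ℝ) (v35 : ℝ) (v36 : ℝ) (v37 : ℝ)
    (v38 : ℝ) (v39 : ℝ) (v40 : ℝ) (v41 : ℝ) (w92 : ℝ) (e_w92_d : w92 = hr β rs 92 4) (v42 : ℝ)
    (v43 : ℝ) (v44 : ℝ) (v45 : ℝ) (v46 : ℝ) (v47 : ℝ) (v48 : ℝ) (w96 : ℝ)
    (e_w96_d : w96 = hr β rs 96 3) (v49 : ℝ) (v50 : ℝ) (v51 : ℝ) (v52 : ℝ) (w99 : ℝ)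
    (e_w99_d : w99 = hr β rs 99 2) (v53 : ℝ) (v54 : ℝ) (v55 : ℝ) (v56 : ℝ) (v57 : ℝ) (v58 : ℝ)
    (v59 : ℝ) (v60 : ℝ) (v61 : ℝ) (v62 : ℝ) (v63 : ℝ) (E3a : ℝ) (e_E3a_d : E3a = hr2 β rs r 81 5)
    (v64 : ℝ) (v65 : ℝ) (v66 : ℝ) (v67 : ℝ) (v68 : ℝ) (v69 : ℝ) (v70 : ℝ) (v71 : ℝ) (v72 : ℝ)
    (v73 : ℝ) (v74 : ℝ) (v75 : ℝ) (v76 : ℝ) (v77 : ℝ) (v78 : ℝ) (v79 : ℝ) (w102 : ℝ)
    (e_w102_d : w102 = hr β r 102 6) (v80 : ℝ) (v81 : ℝ) (v82 : ℝ) (v83 : ℝ) (v84 : ℝ) (v85 : ℝ)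
    (v86 : ℝ) (v87 : ℝ) (v88 : ℝ) (v89 : ℝ) (v90 : ℝ) (v91 : ℝ) (v92 : ℝ) (v93 : ℝ) (v94 : ℝ)
    (v95 : ℝ) (w108 : ℝ) (e_w108_d : w108 = hr β r 108 6) (v96 : ℝ) (v97 : ℝ) (v98 : ℝ) (v99 : ℝ)
    (v100 : ℝ) (E3 : ℝ) (e_E3_d : E3 = E0h β 81 rs r s 1) (e_E3_v : v100 = E3) (v101 : ℝ)
    (v102 : ℝ) (v103 : ℝ) (v104 : ℝ) (v105 : ℝ) (v106 : ℝ) (v107 : ℝ) (v108 : ℝ) (v109 : ℝ)
    (v110 : ℝ) (v111 : ℝ) (v112 : ℝ) (v113 : ℝ) (v114 : ℝ) (v115 : ℝ) (v116 : ℝ) (v117 : ℝ)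
    (v118 : ℝ) (v119 : ℝ) (v120 : ℝ) (v121 : ℝ) (v122 : ℝ) (w114 : ℝ)
    (e_w114_d : w114 = hr β rs 114 8) (v123 : ℝ) (v124 : ℝ) (v125 : ℝ) (v126 : ℝ) (v127 : ℝ)
    (v128 : ℝ) (v129 : ℝ) (v130 : ℝ) (v131 : ℝ) (v132 : ℝ) (v133 : ℝ) (v134 : ℝ) (v135 : ℝ)
    (v136 : ℝ) (v137 : ℝ) (v138 : ℝ) (v139 : ℝ) (v140 : ℝ) (v141 : ℝ) (w122 : ℝ)
    (e_w122_d : w122 = hr β rs 122 7) (v142 : ℝ) (v143 : ℝ) (v144 : ℝ) (v145 : ℝ) (v146 : ℝ)
    (v147 : ℝ) (v148 : ℝ) (v149 : ℝ) (v150 : ℝ) (v151 : ℝ) (v152 : ℝ) (v153 : ℝ) (v154 : ℝ)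
    (v155 : ℝ) (v156 : ℝ) (v157 : ℝ) (w129 : ℝ) (e_w129_d : w129 = hr β rs 129 6) (v158 : ℝ)
    (v159 : ℝ) (v160 : ℝ) (v161 : ℝ) (v162 : ℝ) (v163 : ℝ) (v164 : ℝ) (v165 : ℝ) (v166 : ℝ)
    (v167 : ℝ) (v168 : ℝ) (v169 : ℝ) (v170 : ℝ) (w135 : ℝ) (e_w135_d : w135 = hr β rs 135 5)
    (v171 : ℝ) (v172 : ℝ) (v173 : ℝ) (v174 : ℝ) (v175 : ℝ) (v176 : ℝ) (v177 : ℝ) (v178 : ℝ)
    (v179 : ℝ) (v180 : ℝ) (w140 : ℝ) (e_w140_d : w140 = hr β rs 140 4) (v181 : ℝ) (v182 : ℝ)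
    (v183 : ℝ) (v184 : ℝ) (v185 : ℝ) (v186 : ℝ) (v187 : ℝ) (w144 : ℝ)
    (e_w144_d : w144 = hr β rs 144 3) (v188 : ℝ) (v189 : ℝ) (v190 : ℝ) (v191 : ℝ) (w147 : ℝ)
    (e_w147_d : w147 = hr β rs 147 2) (v192 : ℝ) (v193 : ℝ) (v194 : ℝ) (v195 : ℝ) (v196 : ℝ)
    (v197 : ℝ) (v198 : ℝ) (v199 : ℝ) (v200 : ℝ) (v201 : ℝ) (v202 : ℝ) (v203 : ℝ) (v204 : ℝ)
    (v205 : ℝ) (v206 : ℝ) (G3a : ℝ) (e_G3a_d : G3a = hr2 β rs r 114 7) (e_G3a_v : v206 = G3a)
    (v207 : ℝ) (h207 : v207 = β 157) (v208 : ℝ) (h208 : v208 = β 156) (v209 : ℝ)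
    (h209 : v209 = v0 * v207) (v210 : ℝ) (h210 : v210 = v208 + v209) (v211 : ℝ)
    (h211 : v211 = β 155) (v212 : ℝ) (h212 : v212 = v0 * v210) (v213 : ℝ)
    (h213 : v213 = v211 + v212) (v214 : ℝ) (h214 : v214 = β 154) (v215 : ℝ)
    (h215 : v215 = v0 * v213) (v216 : ℝ) (h216 : v216 = v214 + v215) (v217 : ℝ)
    (h217 : v217 = β 153) (v218 : ℝ) (h218 : v218 = v0 * v216) (v219 : ℝ)
    (h219 : v219 = v217 + v218)
    (h : TrE (realAlg β r s)
    [.base 152, .mul 220 1, .add 1 0, .base 151, .mul 223 1, .add 1 0, .base 150, .mul 226 1,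
    .add 1 0, .mul 227 22, .add 1 0, .base 165, .base 164, .mul 230 1, .add 1 0, .base 163,
    .mul 233 1, .add 1 0, .base 162, .mul 236 1, .add 1 0, .base 161, .mul 239 1, .add 1 0,
    .base 160, .mul 242 1, .add 1 0, .base 159, .mul 245 1, .add 1 0, .base 158, .mul 248 1,
    .add 1 0, .base 172, .base 171, .mul 252 1, .add 1 0, .base 170, .mul 255 1, .add 1 0,
    .base 169, .mul 258 1, .add 1 0, .base 168, .mul 261 1, .add 1 0, .base 167, .mul 264 1,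
    .add 1 0, .base 166, .mul 267 1, .add 1 0, .base 178, .base 177, .mul 271 1, .add 1 0,
    .base 176, .mul 274 1, .add 1 0, .base 175, .mul 277 1, .add 1 0, .base 174, .mul 280 1,
    .add 1 0, .base 173, .mul 283 1, .add 1 0, .base 183, .base 182, .mul 287 1, .add 1 0,
    .base 181, .mul 290 1, .add 1 0, .base 180, .mul 293 1, .add 1 0, .base 179, .mul 296 1,
    .add 1 0, .base 187, .base 186, .mul 300 1, .add 1 0, .base 185, .mul 303 1, .add 1 0,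
    .base 184, .mul 306 1, .add 1 0, .base 190, .base 189, .mul 310 1, .add 1 0, .base 188,
    .mul 313 1, .add 1 0, .base 192, .base 191, .mul 317 1, .add 1 0, .base 193, .mul 322 0,
    .add 2 0, .mul 324 0, .add 8 0, .mul 326 0, .add 17 0, .mul 328 0, .add 29 0, .mul 330 0,
    .add 44 0, .mul 332 0, .add 62 0, .mul 334 0, .add 83 0, .base 201, .base 200, .mul 338 1,
    .add 1 0, .base 199, .mul 341 1, .add 1 0, .base 198, .mul 344 1, .add 1 0, .base 197,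
    .mul 347 1, .add 1 0, .base 196, .mul 350 1, .add 1 0, .base 195, .mul 353 1, .add 1 0,
    .base 194, .mul 356 1, .add 1 0, .mul 357 22, .add 1 0]
    (v219 :: v218 :: v217 :: v216 :: v215 :: v214 :: v213 :: v212 :: v211 :: v210 :: v209 :: v208
    :: v207 :: v206 :: v205 :: v204 :: v203 :: v202 :: v201 :: v200 :: v199 :: v198 :: v197
    :: v196 :: v195 :: v194 :: v193 :: v192 :: v191 :: v190 :: v189 :: v188 :: v187 :: v186
    :: v185 :: v184 :: v183 :: v182 :: v181 :: v180 :: v179 :: v178 :: v177 :: v176 :: v175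
    :: v174 :: v173 :: v172 :: v171 :: v170 :: v169 :: v168 :: v167 :: v166 :: v165 :: v164
    :: v163 :: v162 :: v161 :: v160 :: v159 :: v158 :: v157 :: v156 :: v155 :: v154 :: v153
    :: v152 :: v151 :: v150 :: v149 :: v148 :: v147 :: v146 :: v145 :: v144 :: v143 :: v142
    :: v141 :: v140 :: v139 :: v138 :: v137 :: v136 :: v135 :: v134 :: v133 :: v132 :: v131
    :: v130 :: v129 :: v128 :: v127 :: v126 :: v125 :: v124 :: v123 :: v122 :: v121 :: v120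
    :: v119 :: v118 :: v117 :: v116 :: v115 :: v114 :: v113 :: v112 :: v111 :: v110 :: v109
    :: v108 :: v107 :: v106 :: v105 :: v104 :: v103 :: v102 :: v101 :: v100 :: v99 :: v98 :: v97
    :: v96 :: v95 :: v94 :: v93 :: v92 :: v91 :: v90 :: v89 :: v88 :: v87 :: v86 :: v85 :: v84
    :: v83 :: v82 :: v81 :: v80 :: v79 :: v78 :: v77 :: v76 :: v75 :: v74 :: v73 :: v72 :: v71
    :: v70 :: v69 :: v68 :: v67 :: v66 :: v65 :: v64 :: v63 :: v62 :: v61 :: v60 :: v59 :: v58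
    :: v57 :: v56 :: v55 :: v54 :: v53 :: v52 :: v51 :: v50 :: v49 :: v48 :: v47 :: v46 :: v45
    :: v44 :: v43 :: v42 :: v41 :: v40 :: v39 :: v38 :: v37 :: v36 :: v35 :: v34 :: v33 :: v32
    :: v31 :: v30 :: v29 :: v28 :: v27 :: v26 :: v25 :: v24 :: v23 :: v22 :: v21 :: v20 :: v19
    :: v18 :: v17 :: v16 :: v15 :: v14 :: v13 :: v12 :: v11 :: v10 :: v9 :: v8 :: v7 :: v6 :: v5
    :: v4 :: v3 :: v2 :: v1 :: v0 :: st0)
    (pH0b_valQ β r s st0)) :
    OutEq (run (realAlg β r s) pH0b st0) pH0b_out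
      [E0h β 81 (r * s) r s 1, G0h β 114 (r * s) r s 1, G0h β 158 (r * s) r s 1] := by
  obtain ⟨v220, h220, h⟩ := h
  change v220 = β 152 at h220
  obtain ⟨v221, h221, h⟩ := h
  change v221 = v0 * v219 at h221
  obtain ⟨v222, h222, h⟩ := h
  change v222 = v220 + v221 at h222
  obtain ⟨v223, h223, h⟩ := h
  change v223 = β 151 at h223
  obtain ⟨v224, h224, h⟩ := h
  change v224 = v0 * v222 at h224
  obtain ⟨v225, h225, h⟩ := h
  change v225 = v223 + v224 at h225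
  obtain ⟨v226, h226, h⟩ := h
  change v226 = β 150 at h226
  obtain ⟨v227, h227, h⟩ := h
  change v227 = v0 * v225 at h227
  obtain ⟨v228, h228, h⟩ := h
  change v228 = v226 + v227 at h228
  obtain ⟨w150, e_w150_d⟩ : ∃ q : ℝ, q = hr β r 150 8 := ⟨_, rfl⟩
  have a_w150 : hr β r 150 8 = β 150 + r * (β 151 + r * (β 152 + r * (β 153 + r * (β 154 + r * (β 155 + r * (β 156 + r * (β 157))))))) := by
    simp only [hr]
  have e_w150_v : v228 = w150 := by
    rw [e_w150_d, a_w150]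
    simp only [h228, h227, h226, h225, h224, h223, h222, h221, h220, h219, h218, h217, h216, h215, h214, h213, h212, h211, h210, h209, h208, h207, h0, mul_re, mul_im, add_re, add_im, sub_re, sub_im, neg_re, neg_im, I_re, I_im, ofReal_re,
      ofReal_im, one_re, one_im, zero_re, zero_im, dt, normSq_apply, re_ofNat, im_ofNat, conj_re, conj_im]
    try ring
  obtain ⟨v229, h229, h⟩ := h
  change v229 = v1 * v206 at h229
  obtain ⟨v230, h230, h⟩ := h
  change v230 = v228 + v229 at h230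
  obtain ⟨G3, e_G3_d⟩ : ∃ q : ℝ, q = G0h β 114 rs r s 1 := ⟨_, rfl⟩
  have a_G3 : G0h β 114 rs r s 1 = s * G3a + 1 * w150 := by
    rw [G0h, e_G3a_d, e_w150_d]
  have e_G3_v : v230 = G3 := by
    rw [e_G3_d, a_G3]
    simp only [h230, h229, h1, e_G3a_v, e_w150_v, mul_re, mul_im, add_re, add_im, sub_re, sub_im, neg_re, neg_im, I_re, I_im, ofReal_re,
      ofReal_im, one_re, one_im, zero_re, zero_im, dt, normSq_apply, re_ofNat, im_ofNat, conj_re, conj_im]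
    try ring
  obtain ⟨v231, h231, h⟩ := h
  change v231 = β 165 at h231
  obtain ⟨v232, h232, h⟩ := h
  change v232 = β 164 at h232
  obtain ⟨v233, h233, h⟩ := h
  change v233 = v2 * v231 at h233
  obtain ⟨v234, h234, h⟩ := h
  change v234 = v232 + v233 at h234
  obtain ⟨v235, h235, h⟩ := h
  change v235 = β 163 at h235
  obtain ⟨v236, h236, h⟩ := h
  change v236 = v2 * v234 at h236
  obtain ⟨v237, h237, h⟩ := h
  change v237 = v235 + v236 at h237
  obtain ⟨v238, h238, h⟩ := h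
  change v238 = β 162 at h238
  obtain ⟨v239, h239, h⟩ := h
  change v239 = v2 * v237 at h239
  obtain ⟨v240, h240, h⟩ := h
  change v240 = v238 + v239 at h240
  obtain ⟨v241, h241, h⟩ := h
  change v241 = β 161 at h241
  obtain ⟨v242, h242, h⟩ := h
  change v242 = v2 * v240 at h242
  obtain ⟨v243, h243, h⟩ := h
  change v243 = v241 + v242 at h243
  obtain ⟨v244, h244, h⟩ := h
  change v244 = β 160 at h244
  obtain ⟨v245, h245, h⟩ := h
  change v245 = v2 * v243 at h245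
  obtain ⟨v246, h246, h⟩ := h
  change v246 = v244 + v245 at h246
  obtain ⟨v247, h247, h⟩ := h
  change v247 = β 159 at h247
  obtain ⟨v248, h248, h⟩ := h
  change v248 = v2 * v246 at h248
  obtain ⟨v249, h249, h⟩ := h
  change v249 = v247 + v248 at h249
  obtain ⟨v250, h250, h⟩ := h
  change v250 = β 158 at h250
  obtain ⟨v251, h251, h⟩ := h
  change v251 = v2 * v249 at h251
  obtain ⟨v252, h252, h⟩ := h
  change v252 = v250 + v251 at h252
  obtain ⟨w158, e_w158_d⟩ : ∃ q : ℝ, q = hr β rs 158 8 := ⟨_, rfl⟩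
  have a_w158 : hr β rs 158 8 = β 158 + rs * (β 159 + rs * (β 160 + rs * (β 161 + rs * (β 162 + rs * (β 163 + rs * (β 164 + rs * (β 165))))))) := by
    simp only [hr]
  have e_w158_v : v252 = w158 := by
    rw [e_w158_d, a_w158]
    simp only [h252, h251, h250, h249, h248, h247, h246, h245, h244, h243, h242, h241, h240, h239, h238, h237, h236, h235, h234, h233, h232, h231, e_rs_v, mul_re, mul_im, add_re, add_im, sub_re, sub_im, neg_re, neg_im, I_re, I_im, ofReal_re,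
      ofReal_im, one_re, one_im, zero_re, zero_im, dt, normSq_apply, re_ofNat, im_ofNat, conj_re, conj_im]
    try ring
  obtain ⟨v253, h253, h⟩ := h
  change v253 = β 172 at h253
  obtain ⟨v254, h254, h⟩ := h
  change v254 = β 171 at h254
  obtain ⟨v255, h255, h⟩ := h
  change v255 = v2 * v253 at h255
  obtain ⟨v256, h256, h⟩ := h
  change v256 = v254 + v255 at h256
  obtain ⟨v257, h257, h⟩ := h
  change v257 = β 170 at h257
  obtain ⟨v258, h258, h⟩ := h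
  change v258 = v2 * v256 at h258
  obtain ⟨v259, h259, h⟩ := h
  change v259 = v257 + v258 at h259
  obtain ⟨v260, h260, h⟩ := h
  change v260 = β 169 at h260
  obtain ⟨v261, h261, h⟩ := h
  change v261 = v2 * v259 at h261
  obtain ⟨v262, h262, h⟩ := h
  change v262 = v260 + v261 at h262
  obtain ⟨v263, h263, h⟩ := h
  change v263 = β 168 at h263
  obtain ⟨v264, h264, h⟩ := h
  change v264 = v2 * v262 at h264
  obtain ⟨v265, h265, h⟩ := h
  change v265 = v263 + v264 at h265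
  obtain ⟨v266, h266, h⟩ := h
  change v266 = β 167 at h266
  obtain ⟨v267, h267, h⟩ := h
  change v267 = v2 * v265 at h267
  obtain ⟨v268, h268, h⟩ := h
  change v268 = v266 + v267 at h268
  obtain ⟨v269, h269, h⟩ := h
  change v269 = β 166 at h269
  obtain ⟨v270, h270, h⟩ := h
  change v270 = v2 * v268 at h270
  obtain ⟨v271, h271, h⟩ := h
  change v271 = v269 + v270 at h271
  obtain ⟨w166, e_w166_d⟩ : ∃ q : ℝ, q = hr β rs 166 7 := ⟨_, rfl⟩
  have a_w166 : hr β rs 166 7 = β 166 + rs * (β 167 + rs * (β 168 + rs * (β 169 + rs * (β 170 + rs * (β 171 + rs * (β 172)))))) := by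
    simp only [hr]
  have e_w166_v : v271 = w166 := by
    rw [e_w166_d, a_w166]
    simp only [h271, h270, h269, h268, h267, h266, h265, h264, h263, h262, h261, h260, h259, h258, h257, h256, h255, h254, h253, e_rs_v, mul_re, mul_im, add_re, add_im, sub_re, sub_im, neg_re, neg_im, I_re, I_im, ofReal_re,
      ofReal_im, one_re, one_im, zero_re, zero_im, dt, normSq_apply, re_ofNat, im_ofNat, conj_re, conj_im]
    try ring
  obtain ⟨v272, h272, h⟩ := h
  change v272 = β 178 at h272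
  obtain ⟨v273, h273, h⟩ := h
  change v273 = β 177 at h273
  obtain ⟨v274, h274, h⟩ := h
  change v274 = v2 * v272 at h274
  obtain ⟨v275, h275, h⟩ := h
  change v275 = v273 + v274 at h275
  obtain ⟨v276, h276, h⟩ := h
  change v276 = β 176 at h276
  obtain ⟨v277, h277, h⟩ := h
  change v277 = v2 * v275 at h277
  obtain ⟨v278, h278, h⟩ := h
  change v278 = v276 + v277 at h278
  obtain ⟨v279, h279, h⟩ := h
  change v279 = β 175 at h279
  obtain ⟨v280, h280, h⟩ := h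
  change v280 = v2 * v278 at h280
  obtain ⟨v281, h281, h⟩ := h
  change v281 = v279 + v280 at h281
  obtain ⟨v282, h282, h⟩ := h
  change v282 = β 174 at h282
  obtain ⟨v283, h283, h⟩ := h
  change v283 = v2 * v281 at h283
  obtain ⟨v284, h284, h⟩ := h
  change v284 = v282 + v283 at h284
  obtain ⟨v285, h285, h⟩ := h
  change v285 = β 173 at h285
  obtain ⟨v286, h286, h⟩ := h
  change v286 = v2 * v284 at h286
  obtain ⟨v287, h287, h⟩ := h
  change v287 = v285 + v286 at h287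
  obtain ⟨w173, e_w173_d⟩ : ∃ q : ℝ, q = hr β rs 173 6 := ⟨_, rfl⟩
  have a_w173 : hr β rs 173 6 = β 173 + rs * (β 174 + rs * (β 175 + rs * (β 176 + rs * (β 177 + rs * (β 178))))) := by
    simp only [hr]
  have e_w173_v : v287 = w173 := by
    rw [e_w173_d, a_w173]
    simp only [h287, h286, h285, h284, h283, h282, h281, h280, h279, h278, h277, h276, h275, h274, h273, h272, e_rs_v, mul_re, mul_im, add_re, add_im, sub_re, sub_im, neg_re, neg_im, I_re, I_im, ofReal_re,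
      ofReal_im, one_re, one_im, zero_re, zero_im, dt, normSq_apply, re_ofNat, im_ofNat, conj_re, conj_im]
    try ring
  obtain ⟨v288, h288, h⟩ := h
  change v288 = β 183 at h288
  obtain ⟨v289, h289, h⟩ := h
  change v289 = β 182 at h289
  obtain ⟨v290, h290, h⟩ := h
  change v290 = v2 * v288 at h290
  obtain ⟨v291, h291, h⟩ := h
  change v291 = v289 + v290 at h291
  obtain ⟨v292, h292, h⟩ := h
  change v292 = β 181 at h292
  obtain ⟨v293, h293, h⟩ := h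
  change v293 = v2 * v291 at h293
  obtain ⟨v294, h294, h⟩ := h
  change v294 = v292 + v293 at h294
  exact pH0b_val_s5
    β r s st0 v0 h0 v1 h1 v2 rs e_rs_d e_rs_v v3 v4 v5 v6 v7 v8 v9 v10 v11 v12 v13 v14 v15 v16
    v17 v18 w81 e_w81_d v19 v20 v21 v22 v23 v24 v25 v26 v27 v28 v29 v30 v31 w87 e_w87_d v32 v33
    v34 v35 v36 v37 v38 v39 v40 v41 w92 e_w92_d v42 v43 v44 v45 v46 v47 v48 w96 e_w96_d v49 v50
    v51 v52 w99 e_w99_d v53 v54 v55 v56 v57 v58 v59 v60 v61 v62 v63 E3a e_E3a_d v64 v65 v66 v67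
    v68 v69 v70 v71 v72 v73 v74 v75 v76 v77 v78 v79 w102 e_w102_d v80 v81 v82 v83 v84 v85 v86 v87
    v88 v89 v90 v91 v92 v93 v94 v95 w108 e_w108_d v96 v97 v98 v99 v100 E3 e_E3_d e_E3_v v101 v102
    v103 v104 v105 v106 v107 v108 v109 v110 v111 v112 v113 v114 v115 v116 v117 v118 v119 v120
    v121 v122 w114 e_w114_d v123 v124 v125 v126 v127 v128 v129 v130 v131 v132 v133 v134 v135 v136
    v137 v138 v139 v140 v141 w122 e_w122_d v142 v143 v144 v145 v146 v147 v148 v149 v150 v151 v152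
    v153 v154 v155 v156 v157 w129 e_w129_d v158 v159 v160 v161 v162 v163 v164 v165 v166 v167 v168
    v169 v170 w135 e_w135_d v171 v172 v173 v174 v175 v176 v177 v178 v179 v180 w140 e_w140_d v181
    v182 v183 v184 v185 v186 v187 w144 e_w144_d v188 v189 v190 v191 w147 e_w147_d v192 v193 v194
    v195 v196 v197 v198 v199 v200 v201 v202 v203 v204 v205 v206 G3a e_G3a_d v207 v208 v209 v210
    v211 v212 v213 v214 v215 v216 v217 v218 v219 v220 v221 v222 v223 v224 v225 v226 v227 v228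
    w150 e_w150_d v229 v230 G3 e_G3_d e_G3_v v231 v232 v233 v234 v235 v236 v237 v238 v239 v240
    v241 v242 v243 v244 v245 v246 v247 v248 v249 v250 v251 v252 w158 e_w158_d e_w158_v v253 v254
    v255 v256 v257 v258 v259 v260 v261 v262 v263 v264 v265 v266 v267 v268 v269 v270 v271 w166
    e_w166_d e_w166_v v272 v273 v274 v275 v276 v277 v278 v279 v280 v281 v282 v283 v284 v285 v286
    v287 w173 e_w173_d e_w173_v v288 h288 v289 h289 v290 h290 v291 h291 v292 h292 v293 h293 v294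
    h294 h

theorem pH0b_val_s3 (β : ℕ → ℝ) (r s : ℝ) (st0 : List ℝ)
    (v0 : ℝ) (h0 : v0 = r) (v1 : ℝ) (h1 : v1 = s) (v2 : ℝ) (rs : ℝ) (e_rs_d : rs = r * s)
    (e_rs_v : v2 = rs) (v3 : ℝ) (v4 : ℝ) (v5 : ℝ) (v6 : ℝ) (v7 : ℝ) (v8 : ℝ) (v9 : ℝ) (v10 : ℝ)
    (v11 : ℝ) (v12 : ℝ) (v13 : ℝ) (v14 : ℝ) (v15 : ℝ) (v16 : ℝ) (v17 : ℝ) (v18 : ℝ) (w81 : ℝ)
    (e_w81_d : w81 = hr β rs 81 6) (v19 : ℝ) (v20 : ℝ) (v21 : ℝ) (v22 : ℝ) (v23 : ℝ) (v24 : ℝ)
    (v25 : ℝ) (v26 : ℝ) (v27 : ℝ) (v28 : ℝ) (v29 : ℝ) (v30 : ℝ) (v31 : ℝ) (w87 : ℝ)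
    (e_w87_d : w87 = hr β rs 87 5) (v32 : ℝ) (v33 : ℝ) (v34 : ℝ) (v35 : ℝ) (v36 : ℝ) (v37 : ℝ)
    (v38 : ℝ) (v39 : ℝ) (v40 : ℝ) (v41 : ℝ) (w92 : ℝ) (e_w92_d : w92 = hr β rs 92 4) (v42 : ℝ)
    (v43 : ℝ) (v44 : ℝ) (v45 : ℝ) (v46 : ℝ) (v47 : ℝ) (v48 : ℝ) (w96 : ℝ)
    (e_w96_d : w96 = hr β rs 96 3) (v49 : ℝ) (v50 : ℝ) (v51 : ℝ) (v52 : ℝ) (w99 : ℝ)
    (e_w99_d : w99 = hr β rs 99 2) (v53 : ℝ) (v54 : ℝ) (v55 : ℝ) (v56 : ℝ) (v57 : ℝ) (v58 : ℝ)
    (v59 : ℝ) (v60 : ℝ) (v61 : ℝ) (v62 : ℝ) (v63 : ℝ) (E3a : ℝ) (e_E3a_d : E3a = hr2 β rs r 81 5)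
    (v64 : ℝ) (v65 : ℝ) (v66 : ℝ) (v67 : ℝ) (v68 : ℝ) (v69 : ℝ) (v70 : ℝ) (v71 : ℝ) (v72 : ℝ)
    (v73 : ℝ) (v74 : ℝ) (v75 : ℝ) (v76 : ℝ) (v77 : ℝ) (v78 : ℝ) (v79 : ℝ) (w102 : ℝ)
    (e_w102_d : w102 = hr β r 102 6) (v80 : ℝ) (v81 : ℝ) (v82 : ℝ) (v83 : ℝ) (v84 : ℝ) (v85 : ℝ)
    (v86 : ℝ) (v87 : ℝ) (v88 : ℝ) (v89 : ℝ) (v90 : ℝ) (v91 : ℝ) (v92 : ℝ) (v93 : ℝ) (v94 : ℝ)
    (v95 : ℝ) (w108 : ℝ) (e_w108_d : w108 = hr β r 108 6) (v96 : ℝ) (v97 : ℝ) (v98 : ℝ) (v99 : ℝ)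
    (v100 : ℝ) (E3 : ℝ) (e_E3_d : E3 = E0h β 81 rs r s 1) (e_E3_v : v100 = E3) (v101 : ℝ)
    (v102 : ℝ) (v103 : ℝ) (v104 : ℝ) (v105 : ℝ) (v106 : ℝ) (v107 : ℝ) (v108 : ℝ) (v109 : ℝ)
    (v110 : ℝ) (v111 : ℝ) (v112 : ℝ) (v113 : ℝ) (v114 : ℝ) (v115 : ℝ) (v116 : ℝ) (v117 : ℝ)
    (v118 : ℝ) (v119 : ℝ) (v120 : ℝ) (v121 : ℝ) (v122 : ℝ) (w114 : ℝ)
    (e_w114_d : w114 = hr β rs 114 8) (e_w114_v : v122 = w114) (v123 : ℝ) (v124 : ℝ) (v125 : ℝ)
    (v126 : ℝ) (v127 : ℝ) (v128 : ℝ) (v129 : ℝ) (v130 : ℝ) (v131 : ℝ) (v132 : ℝ) (v133 : ℝ)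
    (v134 : ℝ) (v135 : ℝ) (v136 : ℝ) (v137 : ℝ) (v138 : ℝ) (v139 : ℝ) (v140 : ℝ) (v141 : ℝ)
    (w122 : ℝ) (e_w122_d : w122 = hr β rs 122 7) (e_w122_v : v141 = w122) (v142 : ℝ)
    (h142 : v142 = β 134) (v143 : ℝ) (h143 : v143 = β 133) (v144 : ℝ) (h144 : v144 = v2 * v142)
    (v145 : ℝ) (h145 : v145 = v143 + v144) (v146 : ℝ) (h146 : v146 = β 132)
    (h : TrE (realAlg β r s)
    [.mul 144 1, .add 1 0, .base 131, .mul 147 1, .add 1 0, .base 130, .mul 150 1, .add 1 0,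
    .base 129, .mul 153 1, .add 1 0, .base 139, .base 138, .mul 157 1, .add 1 0, .base 137,
    .mul 160 1, .add 1 0, .base 136, .mul 163 1, .add 1 0, .base 135, .mul 166 1, .add 1 0,
    .base 143, .base 142, .mul 170 1, .add 1 0, .base 141, .mul 173 1, .add 1 0, .base 140,
    .mul 176 1, .add 1 0, .base 146, .base 145, .mul 180 1, .add 1 0, .base 144, .mul 183 1,
    .add 1 0, .base 148, .base 147, .mul 187 1, .add 1 0, .base 149, .mul 192 0, .add 2 0,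
    .mul 194 0, .add 8 0, .mul 196 0, .add 17 0, .mul 198 0, .add 29 0, .mul 200 0, .add 44 0,
    .mul 202 0, .add 62 0, .mul 204 0, .add 83 0, .base 157, .base 156, .mul 208 1, .add 1 0,
    .base 155, .mul 211 1, .add 1 0, .base 154, .mul 214 1, .add 1 0, .base 153, .mul 217 1,
    .add 1 0, .base 152, .mul 220 1, .add 1 0, .base 151, .mul 223 1, .add 1 0, .base 150,
    .mul 226 1, .add 1 0, .mul 227 22, .add 1 0, .base 165, .base 164, .mul 230 1, .add 1 0,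
    .base 163, .mul 233 1, .add 1 0, .base 162, .mul 236 1, .add 1 0, .base 161, .mul 239 1,
    .add 1 0, .base 160, .mul 242 1, .add 1 0, .base 159, .mul 245 1, .add 1 0, .base 158,
    .mul 248 1, .add 1 0, .base 172, .base 171, .mul 252 1, .add 1 0, .base 170, .mul 255 1,
    .add 1 0, .base 169, .mul 258 1, .add 1 0, .base 168, .mul 261 1, .add 1 0, .base 167,
    .mul 264 1, .add 1 0, .base 166, .mul 267 1, .add 1 0, .base 178, .base 177, .mul 271 1,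
    .add 1 0, .base 176, .mul 274 1, .add 1 0, .base 175, .mul 277 1, .add 1 0, .base 174,
    .mul 280 1, .add 1 0, .base 173, .mul 283 1, .add 1 0, .base 183, .base 182, .mul 287 1,
    .add 1 0, .base 181, .mul 290 1, .add 1 0, .base 180, .mul 293 1, .add 1 0, .base 179,
    .mul 296 1, .add 1 0, .base 187, .base 186, .mul 300 1, .add 1 0, .base 185, .mul 303 1,
    .add 1 0, .base 184, .mul 306 1, .add 1 0, .base 190, .base 189, .mul 310 1, .add 1 0,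
    .base 188, .mul 313 1, .add 1 0, .base 192, .base 191, .mul 317 1, .add 1 0, .base 193,
    .mul 322 0, .add 2 0, .mul 324 0, .add 8 0, .mul 326 0, .add 17 0, .mul 328 0, .add 29 0,
    .mul 330 0, .add 44 0, .mul 332 0, .add 62 0, .mul 334 0, .add 83 0, .base 201, .base 200,
    .mul 338 1, .add 1 0, .base 199, .mul 341 1, .add 1 0, .base 198, .mul 344 1, .add 1 0,
    .base 197, .mul 347 1, .add 1 0, .base 196, .mul 350 1, .add 1 0, .base 195, .mul 353 1,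
    .add 1 0, .base 194, .mul 356 1, .add 1 0, .mul 357 22, .add 1 0]
    (v146 :: v145 :: v144 :: v143 :: v142 :: v141 :: v140 :: v139 :: v138 :: v137 :: v136 :: v135
    :: v134 :: v133 :: v132 :: v131 :: v130 :: v129 :: v128 :: v127 :: v126 :: v125 :: v124
    :: v123 :: v122 :: v121 :: v120 :: v119 :: v118 :: v117 :: v116 :: v115 :: v114 :: v113
    :: v112 :: v111 :: v110 :: v109 :: v108 :: v107 :: v106 :: v105 :: v104 :: v103 :: v102
    :: v101 :: v100 :: v99 :: v98 :: v97 :: v96 :: v95 :: v94 :: v93 :: v92 :: v91 :: v90 :: v89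
    :: v88 :: v87 :: v86 :: v85 :: v84 :: v83 :: v82 :: v81 :: v80 :: v79 :: v78 :: v77 :: v76
    :: v75 :: v74 :: v73 :: v72 :: v71 :: v70 :: v69 :: v68 :: v67 :: v66 :: v65 :: v64 :: v63
    :: v62 :: v61 :: v60 :: v59 :: v58 :: v57 :: v56 :: v55 :: v54 :: v53 :: v52 :: v51 :: v50
    :: v49 :: v48 :: v47 :: v46 :: v45 :: v44 :: v43 :: v42 :: v41 :: v40 :: v39 :: v38 :: v37
    :: v36 :: v35 :: v34 :: v33 :: v32 :: v31 :: v30 :: v29 :: v28 :: v27 :: v26 :: v25 :: v24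
    :: v23 :: v22 :: v21 :: v20 :: v19 :: v18 :: v17 :: v16 :: v15 :: v14 :: v13 :: v12 :: v11
    :: v10 :: v9 :: v8 :: v7 :: v6 :: v5 :: v4 :: v3 :: v2 :: v1 :: v0 :: st0)
    (pH0b_valQ β r s st0)) :
    OutEq (run (realAlg β r s) pH0b st0) pH0b_out
      [E0h β 81 (r * s) r s 1, G0h β 114 (r * s) r s 1, G0h β 158 (r * s) r s 1] := by
  obtain ⟨v147, h147, h⟩ := h
  change v147 = v2 * v145 at h147
  obtain ⟨v148, h148, h⟩ := h
  change v148 = v146 + v147 at h148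
  obtain ⟨v149, h149, h⟩ := h
  change v149 = β 131 at h149
  obtain ⟨v150, h150, h⟩ := h
  change v150 = v2 * v148 at h150
  obtain ⟨v151, h151, h⟩ := h
  change v151 = v149 + v150 at h151
  obtain ⟨v152, h152, h⟩ := h
  change v152 = β 130 at h152
  obtain ⟨v153, h153, h⟩ := h
  change v153 = v2 * v151 at h153
  obtain ⟨v154, h154, h⟩ := h
  change v154 = v152 + v153 at h154
  obtain ⟨v155, h155, h⟩ := h
  change v155 = β 129 at h155
  obtain ⟨v156, h156, h⟩ := h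
  change v156 = v2 * v154 at h156
  obtain ⟨v157, h157, h⟩ := h
  change v157 = v155 + v156 at h157
  obtain ⟨w129, e_w129_d⟩ : ∃ q : ℝ, q = hr β rs 129 6 := ⟨_, rfl⟩
  have a_w129 : hr β rs 129 6 = β 129 + rs * (β 130 + rs * (β 131 + rs * (β 132 + rs * (β 133 + rs * (β 134))))) := by
    simp only [hr]
  have e_w129_v : v157 = w129 := by
    rw [e_w129_d, a_w129]
    simp only [h157, h156, h155, h154, h153, h152, h151, h150, h149, h148, h147, h146, h145, h144, h143, h142, e_rs_v, mul_re, mul_im, add_re, add_im, sub_re, sub_im, neg_re, neg_im, I_re, I_im, ofReal_re,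
      ofReal_im, one_re, one_im, zero_re, zero_im, dt, normSq_apply, re_ofNat, im_ofNat, conj_re, conj_im]
    try ring
  obtain ⟨v158, h158, h⟩ := h
  change v158 = β 139 at h158
  obtain ⟨v159, h159, h⟩ := h
  change v159 = β 138 at h159
  obtain ⟨v160, h160, h⟩ := h
  change v160 = v2 * v158 at h160
  obtain ⟨v161, h161, h⟩ := h
  change v161 = v159 + v160 at h161
  obtain ⟨v162, h162, h⟩ := h
  change v162 = β 137 at h162
  obtain ⟨v163, h163, h⟩ := h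
  change v163 = v2 * v161 at h163
  obtain ⟨v164, h164, h⟩ := h
  change v164 = v162 + v163 at h164
  obtain ⟨v165, h165, h⟩ := h
  change v165 = β 136 at h165
  obtain ⟨v166, h166, h⟩ := h
  change v166 = v2 * v164 at h166
  obtain ⟨v167, h167, h⟩ := h
  change v167 = v165 + v166 at h167
  obtain ⟨v168, h168, h⟩ := h
  change v168 = β 135 at h168
  obtain ⟨v169, h169, h⟩ := h
  change v169 = v2 * v167 at h169
  obtain ⟨v170, h170, h⟩ := h
  change v170 = v168 + v169 at h170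
  obtain ⟨w135, e_w135_d⟩ : ∃ q : ℝ, q = hr β rs 135 5 := ⟨_, rfl⟩
  have a_w135 : hr β rs 135 5 = β 135 + rs * (β 136 + rs * (β 137 + rs * (β 138 + rs * (β 139)))) := by
    simp only [hr]
  have e_w135_v : v170 = w135 := by
    rw [e_w135_d, a_w135]
    simp only [h170, h169, h168, h167, h166, h165, h164, h163, h162, h161, h160, h159, h158, e_rs_v, mul_re, mul_im, add_re, add_im, sub_re, sub_im, neg_re, neg_im, I_re, I_im, ofReal_re,
      ofReal_im, one_re, one_im, zero_re, zero_im, dt, normSq_apply, re_ofNat, im_ofNat, conj_re, conj_im]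
    try ring
  obtain ⟨v171, h171, h⟩ := h
  change v171 = β 143 at h171
  obtain ⟨v172, h172, h⟩ := h
  change v172 = β 142 at h172
  obtain ⟨v173, h173, h⟩ := h
  change v173 = v2 * v171 at h173
  obtain ⟨v174, h174, h⟩ := h
  change v174 = v172 + v173 at h174
  obtain ⟨v175, h175, h⟩ := h
  change v175 = β 141 at h175
  obtain ⟨v176, h176, h⟩ := h
  change v176 = v2 * v174 at h176
  obtain ⟨v177, h177, h⟩ := h
  change v177 = v175 + v176 at h177
  obtain ⟨v178, h178, h⟩ := h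
  change v178 = β 140 at h178
  obtain ⟨v179, h179, h⟩ := h
  change v179 = v2 * v177 at h179
  obtain ⟨v180, h180, h⟩ := h
  change v180 = v178 + v179 at h180
  obtain ⟨w140, e_w140_d⟩ : ∃ q : ℝ, q = hr β rs 140 4 := ⟨_, rfl⟩
  have a_w140 : hr β rs 140 4 = β 140 + rs * (β 141 + rs * (β 142 + rs * (β 143))) := by
    simp only [hr]
  have e_w140_v : v180 = w140 := by
    rw [e_w140_d, a_w140]
    simp only [h180, h179, h178, h177, h176, h175, h174, h173, h172, h171, e_rs_v, mul_re, mul_im, add_re, add_im, sub_re, sub_im, neg_re, neg_im, I_re, I_im, ofReal_re,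
      ofReal_im, one_re, one_im, zero_re, zero_im, dt, normSq_apply, re_ofNat, im_ofNat, conj_re, conj_im]
    try ring
  obtain ⟨v181, h181, h⟩ := h
  change v181 = β 146 at h181
  obtain ⟨v182, h182, h⟩ := h
  change v182 = β 145 at h182
  obtain ⟨v183, h183, h⟩ := h
  change v183 = v2 * v181 at h183
  obtain ⟨v184, h184, h⟩ := h
  change v184 = v182 + v183 at h184
  obtain ⟨v185, h185, h⟩ := h
  change v185 = β 144 at h185
  obtain ⟨v186, h186, h⟩ := h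
  change v186 = v2 * v184 at h186
  obtain ⟨v187, h187, h⟩ := h
  change v187 = v185 + v186 at h187
  obtain ⟨w144, e_w144_d⟩ : ∃ q : ℝ, q = hr β rs 144 3 := ⟨_, rfl⟩
  have a_w144 : hr β rs 144 3 = β 144 + rs * (β 145 + rs * (β 146)) := by
    simp only [hr]
  have e_w144_v : v187 = w144 := by
    rw [e_w144_d, a_w144]
    simp only [h187, h186, h185, h184, h183, h182, h181, e_rs_v, mul_re, mul_im, add_re, add_im, sub_re, sub_im, neg_re, neg_im, I_re, I_im, ofReal_re,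
      ofReal_im, one_re, one_im, zero_re, zero_im, dt, normSq_apply, re_ofNat, im_ofNat, conj_re, conj_im]
    try ring
  obtain ⟨v188, h188, h⟩ := h
  change v188 = β 148 at h188
  obtain ⟨v189, h189, h⟩ := h
  change v189 = β 147 at h189
  obtain ⟨v190, h190, h⟩ := h
  change v190 = v2 * v188 at h190
  obtain ⟨v191, h191, h⟩ := h
  change v191 = v189 + v190 at h191
  obtain ⟨w147, e_w147_d⟩ : ∃ q : ℝ, q = hr β rs 147 2 := ⟨_, rfl⟩
  have a_w147 : hr β rs 147 2 = β 147 + rs * (β 148) := by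
    simp only [hr]
  have e_w147_v : v191 = w147 := by
    rw [e_w147_d, a_w147]
    simp only [h191, h190, h189, h188, e_rs_v, mul_re, mul_im, add_re, add_im, sub_re, sub_im, neg_re, neg_im, I_re, I_im, ofReal_re,
      ofReal_im, one_re, one_im, zero_re, zero_im, dt, normSq_apply, re_ofNat, im_ofNat, conj_re, conj_im]
    try ring
  obtain ⟨v192, h192, h⟩ := h
  change v192 = β 149 at h192
  obtain ⟨v193, h193, h⟩ := h
  change v193 = v0 * v192 at h193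
  obtain ⟨v194, h194, h⟩ := h
  change v194 = v191 + v193 at h194
  obtain ⟨v195, h195, h⟩ := h
  change v195 = v0 * v194 at h195
  obtain ⟨v196, h196, h⟩ := h
  change v196 = v187 + v195 at h196
  obtain ⟨v197, h197, h⟩ := h
  change v197 = v0 * v196 at h197
  obtain ⟨v198, h198, h⟩ := h
  change v198 = v180 + v197 at h198
  obtain ⟨v199, h199, h⟩ := h
  change v199 = v0 * v198 at h199
  obtain ⟨v200, h200, h⟩ := h
  change v200 = v170 + v199 at h200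
  obtain ⟨v201, h201, h⟩ := h
  change v201 = v0 * v200 at h201
  obtain ⟨v202, h202, h⟩ := h
  change v202 = v157 + v201 at h202
  obtain ⟨v203, h203, h⟩ := h
  change v203 = v0 * v202 at h203
  obtain ⟨v204, h204, h⟩ := h
  change v204 = v141 + v203 at h204
  obtain ⟨v205, h205, h⟩ := h
  change v205 = v0 * v204 at h205
  obtain ⟨v206, h206, h⟩ := h
  change v206 = v122 + v205 at h206
  obtain ⟨G3a, e_G3a_d⟩ : ∃ q : ℝ, q = hr2 β rs r 114 7 := ⟨_, rfl⟩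
  have a_G3a : hr2 β rs r 114 7 = w114 + r * (w122 + r * (w129 + r * (w135 + r * (w140 + r * (w144 + r * (w147 + r * (β 149))))))) := by
    simp only [hr2]; rw [e_w114_d, e_w122_d, e_w129_d, e_w135_d, e_w140_d, e_w144_d, e_w147_d]
  have e_G3a_v : v206 = G3a := by
    rw [e_G3a_d, a_G3a]
    simp only [h206, h205, h204, h203, h202, h201, h200, h199, h198, h197, h196, h195, h194, h193, h192, h0, e_w147_v, e_w144_v, e_w140_v, e_w135_v, e_w129_v, e_w122_v, e_w114_v, mul_re, mul_im, add_re, add_im, sub_re, sub_im, neg_re, neg_im, I_re, I_im, ofReal_re,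
      ofReal_im, one_re, one_im, zero_re, zero_im, dt, normSq_apply, re_ofNat, im_ofNat, conj_re, conj_im]
    try ring
  obtain ⟨v207, h207, h⟩ := h
  change v207 = β 157 at h207
  obtain ⟨v208, h208, h⟩ := h
  change v208 = β 156 at h208
  obtain ⟨v209, h209, h⟩ := h
  change v209 = v0 * v207 at h209
  obtain ⟨v210, h210, h⟩ := h
  change v210 = v208 + v209 at h210
  obtain ⟨v211, h211, h⟩ := h
  change v211 = β 155 at h211
  obtain ⟨v212, h212, h⟩ := h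
  change v212 = v0 * v210 at h212
  obtain ⟨v213, h213, h⟩ := h
  change v213 = v211 + v212 at h213
  obtain ⟨v214, h214, h⟩ := h
  change v214 = β 154 at h214
  obtain ⟨v215, h215, h⟩ := h
  change v215 = v0 * v213 at h215
  obtain ⟨v216, h216, h⟩ := h
  change v216 = v214 + v215 at h216
  obtain ⟨v217, h217, h⟩ := h
  change v217 = β 153 at h217
  obtain ⟨v218, h218, h⟩ := h
  change v218 = v0 * v216 at h218
  obtain ⟨v219, h219, h⟩ := h
  change v219 = v217 + v218 at h219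
  exact pH0b_val_s4
    β r s st0 v0 h0 v1 h1 v2 rs e_rs_d e_rs_v v3 v4 v5 v6 v7 v8 v9 v10 v11 v12 v13 v14 v15 v16
    v17 v18 w81 e_w81_d v19 v20 v21 v22 v23 v24 v25 v26 v27 v28 v29 v30 v31 w87 e_w87_d v32 v33
    v34 v35 v36 v37 v38 v39 v40 v41 w92 e_w92_d v42 v43 v44 v45 v46 v47 v48 w96 e_w96_d v49 v50
    v51 v52 w99 e_w99_d v53 v54 v55 v56 v57 v58 v59 v60 v61 v62 v63 E3a e_E3a_d v64 v65 v66 v67
    v68 v69 v70 v71 v72 v73 v74 v75 v76 v77 v78 v79 w102 e_w102_d v80 v81 v82 v83 v84 v85 v86 v87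
    v88 v89 v90 v91 v92 v93 v94 v95 w108 e_w108_d v96 v97 v98 v99 v100 E3 e_E3_d e_E3_v v101 v102
    v103 v104 v105 v106 v107 v108 v109 v110 v111 v112 v113 v114 v115 v116 v117 v118 v119 v120
    v121 v122 w114 e_w114_d v123 v124 v125 v126 v127 v128 v129 v130 v131 v132 v133 v134 v135 v136
    v137 v138 v139 v140 v141 w122 e_w122_d v142 v143 v144 v145 v146 v147 v148 v149 v150 v151 v152
    v153 v154 v155 v156 v157 w129 e_w129_d v158 v159 v160 v161 v162 v163 v164 v165 v166 v167 v168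
    v169 v170 w135 e_w135_d v171 v172 v173 v174 v175 v176 v177 v178 v179 v180 w140 e_w140_d v181
    v182 v183 v184 v185 v186 v187 w144 e_w144_d v188 v189 v190 v191 w147 e_w147_d v192 v193 v194
    v195 v196 v197 v198 v199 v200 v201 v202 v203 v204 v205 v206 G3a e_G3a_d e_G3a_v v207 h207
    v208 h208 v209 h209 v210 h210 v211 h211 v212 h212 v213 h213 v214 h214 v215 h215 v216 h216
    v217 h217 v218 h218 v219 h219 h

theorem pH0b_val_s2 (β : ℕ → ℝ) (r s : ℝ) (st0 : List ℝ)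
    (v0 : ℝ) (h0 : v0 = r) (v1 : ℝ) (h1 : v1 = s) (v2 : ℝ) (rs : ℝ) (e_rs_d : rs = r * s)
    (e_rs_v : v2 = rs) (v3 : ℝ) (v4 : ℝ) (v5 : ℝ) (v6 : ℝ) (v7 : ℝ) (v8 : ℝ) (v9 : ℝ) (v10 : ℝ)
    (v11 : ℝ) (v12 : ℝ) (v13 : ℝ) (v14 : ℝ) (v15 : ℝ) (v16 : ℝ) (v17 : ℝ) (v18 : ℝ) (w81 : ℝ)
    (e_w81_d : w81 = hr β rs 81 6) (v19 : ℝ) (v20 : ℝ) (v21 : ℝ) (v22 : ℝ) (v23 : ℝ) (v24 : ℝ)
    (v25 : ℝ) (v26 : ℝ) (v27 : ℝ) (v28 : ℝ) (v29 : ℝ) (v30 : ℝ) (v31 : ℝ) (w87 : ℝ)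
    (e_w87_d : w87 = hr β rs 87 5) (v32 : ℝ) (v33 : ℝ) (v34 : ℝ) (v35 : ℝ) (v36 : ℝ) (v37 : ℝ)
    (v38 : ℝ) (v39 : ℝ) (v40 : ℝ) (v41 : ℝ) (w92 : ℝ) (e_w92_d : w92 = hr β rs 92 4) (v42 : ℝ)
    (v43 : ℝ) (v44 : ℝ) (v45 : ℝ) (v46 : ℝ) (v47 : ℝ) (v48 : ℝ) (w96 : ℝ)
    (e_w96_d : w96 = hr β rs 96 3) (v49 : ℝ) (v50 : ℝ) (v51 : ℝ) (v52 : ℝ) (w99 : ℝ)
    (e_w99_d : w99 = hr β rs 99 2) (v53 : ℝ) (v54 : ℝ) (v55 : ℝ) (v56 : ℝ) (v57 : ℝ) (v58 : ℝ)
    (v59 : ℝ) (v60 : ℝ) (v61 : ℝ) (v62 : ℝ) (v63 : ℝ) (E3a : ℝ) (e_E3a_d : E3a = hr2 β rs r 81 5)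
    (e_E3a_v : v63 = E3a) (v64 : ℝ) (h64 : v64 = β 107) (v65 : ℝ) (h65 : v65 = β 106) (v66 : ℝ)
    (h66 : v66 = v0 * v64) (v67 : ℝ) (h67 : v67 = v65 + v66) (v68 : ℝ) (h68 : v68 = β 105)
    (v69 : ℝ) (h69 : v69 = v0 * v67) (v70 : ℝ) (h70 : v70 = v68 + v69) (v71 : ℝ)
    (h71 : v71 = β 104)
    (h : TrE (realAlg β r s)
    [.mul 71 1, .add 1 0, .base 103, .mul 74 1, .add 1 0, .base 102, .mul 77 1, .add 1 0,
    .base 113, .base 112, .mul 81 1, .add 1 0, .base 111, .mul 84 1, .add 1 0, .base 110,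
    .mul 87 1, .add 1 0, .base 109, .mul 90 1, .add 1 0, .base 108, .mul 93 1, .add 1 0,
    .mul 94 94, .mul 33 0, .mul 96 18, .add 1 0, .add 4 0, .base 121, .base 120, .mul 100 1,
    .add 1 0, .base 119, .mul 103 1, .add 1 0, .base 118, .mul 106 1, .add 1 0, .base 117,
    .mul 109 1, .add 1 0, .base 116, .mul 112 1, .add 1 0, .base 115, .mul 115 1, .add 1 0,
    .base 114, .mul 118 1, .add 1 0, .base 128, .base 127, .mul 122 1, .add 1 0, .base 126,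
    .mul 125 1, .add 1 0, .base 125, .mul 128 1, .add 1 0, .base 124, .mul 131 1, .add 1 0,
    .base 123, .mul 134 1, .add 1 0, .base 122, .mul 137 1, .add 1 0, .base 134, .base 133,
    .mul 141 1, .add 1 0, .base 132, .mul 144 1, .add 1 0, .base 131, .mul 147 1, .add 1 0,
    .base 130, .mul 150 1, .add 1 0, .base 129, .mul 153 1, .add 1 0, .base 139, .base 138,
    .mul 157 1, .add 1 0, .base 137, .mul 160 1, .add 1 0, .base 136, .mul 163 1, .add 1 0,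
    .base 135, .mul 166 1, .add 1 0, .base 143, .base 142, .mul 170 1, .add 1 0, .base 141,
    .mul 173 1, .add 1 0, .base 140, .mul 176 1, .add 1 0, .base 146, .base 145, .mul 180 1,
    .add 1 0, .base 144, .mul 183 1, .add 1 0, .base 148, .base 147, .mul 187 1, .add 1 0,
    .base 149, .mul 192 0, .add 2 0, .mul 194 0, .add 8 0, .mul 196 0, .add 17 0, .mul 198 0,
    .add 29 0, .mul 200 0, .add 44 0, .mul 202 0, .add 62 0, .mul 204 0, .add 83 0, .base 157,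
    .base 156, .mul 208 1, .add 1 0, .base 155, .mul 211 1, .add 1 0, .base 154, .mul 214 1,
    .add 1 0, .base 153, .mul 217 1, .add 1 0, .base 152, .mul 220 1, .add 1 0, .base 151,
    .mul 223 1, .add 1 0, .base 150, .mul 226 1, .add 1 0, .mul 227 22, .add 1 0, .base 165,
    .base 164, .mul 230 1, .add 1 0, .base 163, .mul 233 1, .add 1 0, .base 162, .mul 236 1,
    .add 1 0, .base 161, .mul 239 1, .add 1 0, .base 160, .mul 242 1, .add 1 0, .base 159,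
    .mul 245 1, .add 1 0, .base 158, .mul 248 1, .add 1 0, .base 172, .base 171, .mul 252 1,
    .add 1 0, .base 170, .mul 255 1, .add 1 0, .base 169, .mul 258 1, .add 1 0, .base 168,
    .mul 261 1, .add 1 0, .base 167, .mul 264 1, .add 1 0, .base 166, .mul 267 1, .add 1 0,
    .base 178, .base 177, .mul 271 1, .add 1 0, .base 176, .mul 274 1, .add 1 0, .base 175,
    .mul 277 1, .add 1 0, .base 174, .mul 280 1, .add 1 0, .base 173, .mul 283 1, .add 1 0,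
    .base 183, .base 182, .mul 287 1, .add 1 0, .base 181, .mul 290 1, .add 1 0, .base 180,
    .mul 293 1, .add 1 0, .base 179, .mul 296 1, .add 1 0, .base 187, .base 186, .mul 300 1,
    .add 1 0, .base 185, .mul 303 1, .add 1 0, .base 184, .mul 306 1, .add 1 0, .base 190,
    .base 189, .mul 310 1, .add 1 0, .base 188, .mul 313 1, .add 1 0, .base 192, .base 191,
    .mul 317 1, .add 1 0, .base 193, .mul 322 0, .add 2 0, .mul 324 0, .add 8 0, .mul 326 0,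
    .add 17 0, .mul 328 0, .add 29 0, .mul 330 0, .add 44 0, .mul 332 0, .add 62 0, .mul 334 0,
    .add 83 0, .base 201, .base 200, .mul 338 1, .add 1 0, .base 199, .mul 341 1, .add 1 0,
    .base 198, .mul 344 1, .add 1 0, .base 197, .mul 347 1, .add 1 0, .base 196, .mul 350 1,
    .add 1 0, .base 195, .mul 353 1, .add 1 0, .base 194, .mul 356 1, .add 1 0, .mul 357 22,
    .add 1 0]
    (v71 :: v70 :: v69 :: v68 :: v67 :: v66 :: v65 :: v64 :: v63 :: v62 :: v61 :: v60 :: v59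
    :: v58 :: v57 :: v56 :: v55 :: v54 :: v53 :: v52 :: v51 :: v50 :: v49 :: v48 :: v47 :: v46
    :: v45 :: v44 :: v43 :: v42 :: v41 :: v40 :: v39 :: v38 :: v37 :: v36 :: v35 :: v34 :: v33
    :: v32 :: v31 :: v30 :: v29 :: v28 :: v27 :: v26 :: v25 :: v24 :: v23 :: v22 :: v21 :: v20
    :: v19 :: v18 :: v17 :: v16 :: v15 :: v14 :: v13 :: v12 :: v11 :: v10 :: v9 :: v8 :: v7 :: v6
    :: v5 :: v4 :: v3 :: v2 :: v1 :: v0 :: st0)
    (pH0b_valQ β r s st0)) :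
    OutEq (run (realAlg β r s) pH0b st0) pH0b_out
      [E0h β 81 (r * s) r s 1, G0h β 114 (r * s) r s 1, G0h β 158 (r * s) r s 1] := by
  obtain ⟨v72, h72, h⟩ := h
  change v72 = v0 * v70 at h72
  obtain ⟨v73, h73, h⟩ := h
  change v73 = v71 + v72 at h73
  obtain ⟨v74, h74, h⟩ := h
  change v74 = β 103 at h74
  obtain ⟨v75, h75, h⟩ := h
  change v75 = v0 * v73 at h75
  obtain ⟨v76, h76, h⟩ := h
  change v76 = v74 + v75 at h76
  obtain ⟨v77, h77, h⟩ := h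
  change v77 = β 102 at h77
  obtain ⟨v78, h78, h⟩ := h
  change v78 = v0 * v76 at h78
  obtain ⟨v79, h79, h⟩ := h
  change v79 = v77 + v78 at h79
  obtain ⟨w102, e_w102_d⟩ : ∃ q : ℝ, q = hr β r 102 6 := ⟨_, rfl⟩
  have a_w102 : hr β r 102 6 = β 102 + r * (β 103 + r * (β 104 + r * (β 105 + r * (β 106 + r * (β 107))))) := by
    simp only [hr]
  have e_w102_v : v79 = w102 := by
    rw [e_w102_d, a_w102]
    simp only [h79, h78, h77, h76, h75, h74, h73, h72, h71, h70, h69, h68, h67, h66, h65, h64, h0, mul_re, mul_im, add_re, add_im, sub_re, sub_im, neg_re, neg_im, I_re, I_im, ofReal_re,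
      ofReal_im, one_re, one_im, zero_re, zero_im, dt, normSq_apply, re_ofNat, im_ofNat, conj_re, conj_im]
    try ring
  obtain ⟨v80, h80, h⟩ := h
  change v80 = β 113 at h80
  obtain ⟨v81, h81, h⟩ := h
  change v81 = β 112 at h81
  obtain ⟨v82, h82, h⟩ := h
  change v82 = v0 * v80 at h82
  obtain ⟨v83, h83, h⟩ := h
  change v83 = v81 + v82 at h83
  obtain ⟨v84, h84, h⟩ := h
  change v84 = β 111 at h84
  obtain ⟨v85, h85, h⟩ := h
  change v85 = v0 * v83 at h85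
  obtain ⟨v86, h86, h⟩ := h
  change v86 = v84 + v85 at h86
  obtain ⟨v87, h87, h⟩ := h
  change v87 = β 110 at h87
  obtain ⟨v88, h88, h⟩ := h
  change v88 = v0 * v86 at h88
  obtain ⟨v89, h89, h⟩ := h
  change v89 = v87 + v88 at h89
  obtain ⟨v90, h90, h⟩ := h
  change v90 = β 109 at h90
  obtain ⟨v91, h91, h⟩ := h
  change v91 = v0 * v89 at h91
  obtain ⟨v92, h92, h⟩ := h
  change v92 = v90 + v91 at h92
  obtain ⟨v93, h93, h⟩ := h
  change v93 = β 108 at h93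
  obtain ⟨v94, h94, h⟩ := h
  change v94 = v0 * v92 at h94
  obtain ⟨v95, h95, h⟩ := h
  change v95 = v93 + v94 at h95
  obtain ⟨w108, e_w108_d⟩ : ∃ q : ℝ, q = hr β r 108 6 := ⟨_, rfl⟩
  have a_w108 : hr β r 108 6 = β 108 + r * (β 109 + r * (β 110 + r * (β 111 + r * (β 112 + r * (β 113))))) := by
    simp only [hr]
  have e_w108_v : v95 = w108 := by
    rw [e_w108_d, a_w108]
    simp only [h95, h94, h93, h92, h91, h90, h89, h88, h87, h86, h85, h84, h83, h82, h81, h80, h0, mul_re, mul_im, add_re, add_im, sub_re, sub_im, neg_re, neg_im, I_re, I_im, ofReal_re,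
      ofReal_im, one_re, one_im, zero_re, zero_im, dt, normSq_apply, re_ofNat, im_ofNat, conj_re, conj_im]
    try ring
  obtain ⟨v96, h96, h⟩ := h
  change v96 = v1 * v1 at h96
  obtain ⟨v97, h97, h⟩ := h
  change v97 = v63 * v96 at h97
  obtain ⟨v98, h98, h⟩ := h
  change v98 = v1 * v79 at h98
  obtain ⟨v99, h99, h⟩ := h
  change v99 = v97 + v98 at h99
  obtain ⟨v100, h100, h⟩ := h
  change v100 = v95 + v99 at h100
  obtain ⟨E3, e_E3_d⟩ : ∃ q : ℝ, q = E0h β 81 rs r s 1 := ⟨_, rfl⟩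
  have a_E3 : E0h β 81 rs r s 1 = s * s * E3a + s * 1 * w102 + 1 * 1 * w108 := by
    rw [E0h, e_E3a_d, e_w102_d, e_w108_d]
  have e_E3_v : v100 = E3 := by
    rw [e_E3_d, a_E3]
    simp only [h100, h99, h98, h97, h96, h1, e_w102_v, e_E3a_v, e_w108_v, mul_re, mul_im, add_re, add_im, sub_re, sub_im, neg_re, neg_im, I_re, I_im, ofReal_re,
      ofReal_im, one_re, one_im, zero_re, zero_im, dt, normSq_apply, re_ofNat, im_ofNat, conj_re, conj_im]
    try ring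
  obtain ⟨v101, h101, h⟩ := h
  change v101 = β 121 at h101
  obtain ⟨v102, h102, h⟩ := h
  change v102 = β 120 at h102
  obtain ⟨v103, h103, h⟩ := h
  change v103 = v2 * v101 at h103
  obtain ⟨v104, h104, h⟩ := h
  change v104 = v102 + v103 at h104
  obtain ⟨v105, h105, h⟩ := h
  change v105 = β 119 at h105
  obtain ⟨v106, h106, h⟩ := h
  change v106 = v2 * v104 at h106
  obtain ⟨v107, h107, h⟩ := h
  change v107 = v105 + v106 at h107
  obtain ⟨v108, h108, h⟩ := h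
  change v108 = β 118 at h108
  obtain ⟨v109, h109, h⟩ := h
  change v109 = v2 * v107 at h109
  obtain ⟨v110, h110, h⟩ := h
  change v110 = v108 + v109 at h110
  obtain ⟨v111, h111, h⟩ := h
  change v111 = β 117 at h111
  obtain ⟨v112, h112, h⟩ := h
  change v112 = v2 * v110 at h112
  obtain ⟨v113, h113, h⟩ := h
  change v113 = v111 + v112 at h113
  obtain ⟨v114, h114, h⟩ := h
  change v114 = β 116 at h114
  obtain ⟨v115, h115, h⟩ := h
  change v115 = v2 * v113 at h115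
  obtain ⟨v116, h116, h⟩ := h
  change v116 = v114 + v115 at h116
  obtain ⟨v117, h117, h⟩ := h
  change v117 = β 115 at h117
  obtain ⟨v118, h118, h⟩ := h
  change v118 = v2 * v116 at h118
  obtain ⟨v119, h119, h⟩ := h
  change v119 = v117 + v118 at h119
  obtain ⟨v120, h120, h⟩ := h
  change v120 = β 114 at h120
  obtain ⟨v121, h121, h⟩ := h
  change v121 = v2 * v119 at h121
  obtain ⟨v122, h122, h⟩ := h
  change v122 = v120 + v121 at h122
  obtain ⟨w114, e_w114_d⟩ : ∃ q : ℝ, q = hr β rs 114 8 := ⟨_, rfl⟩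
  have a_w114 : hr β rs 114 8 = β 114 + rs * (β 115 + rs * (β 116 + rs * (β 117 + rs * (β 118 + rs * (β 119 + rs * (β 120 + rs * (β 121))))))) := by
    simp only [hr]
  have e_w114_v : v122 = w114 := by
    rw [e_w114_d, a_w114]
    simp only [h122, h121, h120, h119, h118, h117, h116, h115, h114, h113, h112, h111, h110, h109, h108, h107, h106, h105, h104, h103, h102, h101, e_rs_v, mul_re, mul_im, add_re, add_im, sub_re, sub_im, neg_re, neg_im, I_re, I_im, ofReal_re,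
      ofReal_im, one_re, one_im, zero_re, zero_im, dt, normSq_apply, re_ofNat, im_ofNat, conj_re, conj_im]
    try ring
  obtain ⟨v123, h123, h⟩ := h
  change v123 = β 128 at h123
  obtain ⟨v124, h124, h⟩ := h
  change v124 = β 127 at h124
  obtain ⟨v125, h125, h⟩ := h
  change v125 = v2 * v123 at h125
  obtain ⟨v126, h126, h⟩ := h
  change v126 = v124 + v125 at h126
  obtain ⟨v127, h127, h⟩ := h
  change v127 = β 126 at h127
  obtain ⟨v128, h128, h⟩ := h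
  change v128 = v2 * v126 at h128
  obtain ⟨v129, h129, h⟩ := h
  change v129 = v127 + v128 at h129
  obtain ⟨v130, h130, h⟩ := h
  change v130 = β 125 at h130
  obtain ⟨v131, h131, h⟩ := h
  change v131 = v2 * v129 at h131
  obtain ⟨v132, h132, h⟩ := h
  change v132 = v130 + v131 at h132
  obtain ⟨v133, h133, h⟩ := h
  change v133 = β 124 at h133
  obtain ⟨v134, h134, h⟩ := h
  change v134 = v2 * v132 at h134
  obtain ⟨v135, h135, h⟩ := h
  change v135 = v133 + v134 at h135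
  obtain ⟨v136, h136, h⟩ := h
  change v136 = β 123 at h136
  obtain ⟨v137, h137, h⟩ := h
  change v137 = v2 * v135 at h137
  obtain ⟨v138, h138, h⟩ := h
  change v138 = v136 + v137 at h138
  obtain ⟨v139, h139, h⟩ := h
  change v139 = β 122 at h139
  obtain ⟨v140, h140, h⟩ := h
  change v140 = v2 * v138 at h140
  obtain ⟨v141, h141, h⟩ := h
  change v141 = v139 + v140 at h141
  obtain ⟨w122, e_w122_d⟩ : ∃ q : ℝ, q = hr β rs 122 7 := ⟨_, rfl⟩
  have a_w122 : hr β rs 122 7 = β 122 + rs * (β 123 + rs * (β 124 + rs * (β 125 + rs * (β 126 + rs * (β 127 + rs * (β 128)))))) := by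
    simp only [hr]
  have e_w122_v : v141 = w122 := by
    rw [e_w122_d, a_w122]
    simp only [h141, h140, h139, h138, h137, h136, h135, h134, h133, h132, h131, h130, h129, h128, h127, h126, h125, h124, h123, e_rs_v, mul_re, mul_im, add_re, add_im, sub_re, sub_im, neg_re, neg_im, I_re, I_im, ofReal_re,
      ofReal_im, one_re, one_im, zero_re, zero_im, dt, normSq_apply, re_ofNat, im_ofNat, conj_re, conj_im]
    try ring
  obtain ⟨v142, h142, h⟩ := h
  change v142 = β 134 at h142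
  obtain ⟨v143, h143, h⟩ := h
  change v143 = β 133 at h143
  obtain ⟨v144, h144, h⟩ := h
  change v144 = v2 * v142 at h144
  obtain ⟨v145, h145, h⟩ := h
  change v145 = v143 + v144 at h145
  obtain ⟨v146, h146, h⟩ := h
  change v146 = β 132 at h146
  exact pH0b_val_s3
    β r s st0 v0 h0 v1 h1 v2 rs e_rs_d e_rs_v v3 v4 v5 v6 v7 v8 v9 v10 v11 v12 v13 v14 v15 v16
    v17 v18 w81 e_w81_d v19 v20 v21 v22 v23 v24 v25 v26 v27 v28 v29 v30 v31 w87 e_w87_d v32 v33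
    v34 v35 v36 v37 v38 v39 v40 v41 w92 e_w92_d v42 v43 v44 v45 v46 v47 v48 w96 e_w96_d v49 v50
    v51 v52 w99 e_w99_d v53 v54 v55 v56 v57 v58 v59 v60 v61 v62 v63 E3a e_E3a_d v64 v65 v66 v67
    v68 v69 v70 v71 v72 v73 v74 v75 v76 v77 v78 v79 w102 e_w102_d v80 v81 v82 v83 v84 v85 v86 v87
    v88 v89 v90 v91 v92 v93 v94 v95 w108 e_w108_d v96 v97 v98 v99 v100 E3 e_E3_d e_E3_v v101 v102
    v103 v104 v105 v106 v107 v108 v109 v110 v111 v112 v113 v114 v115 v116 v117 v118 v119 v120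
    v121 v122 w114 e_w114_d e_w114_v v123 v124 v125 v126 v127 v128 v129 v130 v131 v132 v133 v134
    v135 v136 v137 v138 v139 v140 v141 w122 e_w122_d e_w122_v v142 h142 v143 h143 v144 h144 v145
    h145 v146 h146 h

theorem pH0b_val (β : ℕ → ℝ) (r s : ℝ) (st0 : List ℝ) :
    OutEq (run (realAlg β r s) pH0b st0) pH0b_out
      [E0h β 81 (r * s) r s 1, G0h β 114 (r * s) r s 1, G0h β 158 (r * s) r s 1] := by
  have h : TrE (realAlg β r s)
    [.x, .y, .mul 1 0, .base 86, .base 85, .mul 2 1, .add 1 0, .base 84, .mul 5 1, .add 1 0,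
    .base 83, .mul 8 1, .add 1 0, .base 82, .mul 11 1, .add 1 0, .base 81, .mul 14 1, .add 1 0,
    .base 91, .base 90, .mul 18 1, .add 1 0, .base 89, .mul 21 1, .add 1 0, .base 88, .mul 24 1,
    .add 1 0, .base 87, .mul 27 1, .add 1 0, .base 95, .base 94, .mul 31 1, .add 1 0, .base 93,
    .mul 34 1, .add 1 0, .base 92, .mul 37 1, .add 1 0, .base 98, .base 97, .mul 41 1, .add 1 0,
    .base 96, .mul 44 1, .add 1 0, .base 100, .base 99, .mul 48 1, .add 1 0, .base 101,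
    .mul 53 0, .add 2 0, .mul 55 0, .add 8 0, .mul 57 0, .add 17 0, .mul 59 0, .add 29 0,
    .mul 61 0, .add 44 0, .base 107, .base 106, .mul 65 1, .add 1 0, .base 105, .mul 68 1,
    .add 1 0, .base 104, .mul 71 1, .add 1 0, .base 103, .mul 74 1, .add 1 0, .base 102,
    .mul 77 1, .add 1 0, .base 113, .base 112, .mul 81 1, .add 1 0, .base 111, .mul 84 1,
    .add 1 0, .base 110, .mul 87 1, .add 1 0, .base 109, .mul 90 1, .add 1 0, .base 108,
    .mul 93 1, .add 1 0, .mul 94 94, .mul 33 0, .mul 96 18, .add 1 0, .add 4 0, .base 121,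
    .base 120, .mul 100 1, .add 1 0, .base 119, .mul 103 1, .add 1 0, .base 118, .mul 106 1,
    .add 1 0, .base 117, .mul 109 1, .add 1 0, .base 116, .mul 112 1, .add 1 0, .base 115,
    .mul 115 1, .add 1 0, .base 114, .mul 118 1, .add 1 0, .base 128, .base 127, .mul 122 1,
    .add 1 0, .base 126, .mul 125 1, .add 1 0, .base 125, .mul 128 1, .add 1 0, .base 124,
    .mul 131 1, .add 1 0, .base 123, .mul 134 1, .add 1 0, .base 122, .mul 137 1, .add 1 0,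
    .base 134, .base 133, .mul 141 1, .add 1 0, .base 132, .mul 144 1, .add 1 0, .base 131,
    .mul 147 1, .add 1 0, .base 130, .mul 150 1, .add 1 0, .base 129, .mul 153 1, .add 1 0,
    .base 139, .base 138, .mul 157 1, .add 1 0, .base 137, .mul 160 1, .add 1 0, .base 136,
    .mul 163 1, .add 1 0, .base 135, .mul 166 1, .add 1 0, .base 143, .base 142, .mul 170 1,
    .add 1 0, .base 141, .mul 173 1, .add 1 0, .base 140, .mul 176 1, .add 1 0, .base 146,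
    .base 145, .mul 180 1, .add 1 0, .base 144, .mul 183 1, .add 1 0, .base 148, .base 147,
    .mul 187 1, .add 1 0, .base 149, .mul 192 0, .add 2 0, .mul 194 0, .add 8 0, .mul 196 0,
    .add 17 0, .mul 198 0, .add 29 0, .mul 200 0, .add 44 0, .mul 202 0, .add 62 0, .mul 204 0,
    .add 83 0, .base 157, .base 156, .mul 208 1, .add 1 0, .base 155, .mul 211 1, .add 1 0,
    .base 154, .mul 214 1, .add 1 0, .base 153, .mul 217 1, .add 1 0, .base 152, .mul 220 1,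
    .add 1 0, .base 151, .mul 223 1, .add 1 0, .base 150, .mul 226 1, .add 1 0, .mul 227 22,
    .add 1 0, .base 165, .base 164, .mul 230 1, .add 1 0, .base 163, .mul 233 1, .add 1 0,
    .base 162, .mul 236 1, .add 1 0, .base 161, .mul 239 1, .add 1 0, .base 160, .mul 242 1,
    .add 1 0, .base 159, .mul 245 1, .add 1 0, .base 158, .mul 248 1, .add 1 0, .base 172,
    .base 171, .mul 252 1, .add 1 0, .base 170, .mul 255 1, .add 1 0, .base 169, .mul 258 1,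
    .add 1 0, .base 168, .mul 261 1, .add 1 0, .base 167, .mul 264 1, .add 1 0, .base 166,
    .mul 267 1, .add 1 0, .base 178, .base 177, .mul 271 1, .add 1 0, .base 176, .mul 274 1,
    .add 1 0, .base 175, .mul 277 1, .add 1 0, .base 174, .mul 280 1, .add 1 0, .base 173,
    .mul 283 1, .add 1 0, .base 183, .base 182, .mul 287 1, .add 1 0, .base 181, .mul 290 1,
    .add 1 0, .base 180, .mul 293 1, .add 1 0, .base 179, .mul 296 1, .add 1 0, .base 187,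
    .base 186, .mul 300 1, .add 1 0, .base 185, .mul 303 1, .add 1 0, .base 184, .mul 306 1,
    .add 1 0, .base 190, .base 189, .mul 310 1, .add 1 0, .base 188, .mul 313 1, .add 1 0,
    .base 192, .base 191, .mul 317 1, .add 1 0, .base 193, .mul 322 0, .add 2 0, .mul 324 0,
    .add 8 0, .mul 326 0, .add 17 0, .mul 328 0, .add 29 0, .mul 330 0, .add 44 0, .mul 332 0,
    .add 62 0, .mul 334 0, .add 83 0, .base 201, .base 200, .mul 338 1, .add 1 0, .base 199,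
    .mul 341 1, .add 1 0, .base 198, .mul 344 1, .add 1 0, .base 197, .mul 347 1, .add 1 0,
    .base 196, .mul 350 1, .add 1 0, .base 195, .mul 353 1, .add 1 0, .base 194, .mul 356 1,
    .add 1 0, .mul 357 22, .add 1 0] st0
    (pH0b_valQ β r s st0) := trE_runst2 _ pH0b st0
  obtain ⟨v0, h0, h⟩ := h
  change v0 = r at h0
  obtain ⟨v1, h1, h⟩ := h
  change v1 = s at h1
  obtain ⟨v2, h2, h⟩ := h
  change v2 = v0 * v1 at h2
  obtain ⟨rs, e_rs_d⟩ : ∃ q : ℝ, q = r * s := ⟨_, rfl⟩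
  have e_rs_v : v2 = rs := by
    rw [e_rs_d]
    simp only [h2, h1, h0, mul_re, mul_im, add_re, add_im, sub_re, sub_im, neg_re, neg_im, I_re, I_im, ofReal_re,
      ofReal_im, one_re, one_im, zero_re, zero_im, dt, normSq_apply, re_ofNat, im_ofNat, conj_re, conj_im]
    try ring
  obtain ⟨v3, h3, h⟩ := h
  change v3 = β 86 at h3
  obtain ⟨v4, h4, h⟩ := h
  change v4 = β 85 at h4
  obtain ⟨v5, h5, h⟩ := h
  change v5 = v2 * v3 at h5
  obtain ⟨v6, h6, h⟩ := h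
  change v6 = v4 + v5 at h6
  obtain ⟨v7, h7, h⟩ := h
  change v7 = β 84 at h7
  obtain ⟨v8, h8, h⟩ := h
  change v8 = v2 * v6 at h8
  obtain ⟨v9, h9, h⟩ := h
  change v9 = v7 + v8 at h9
  obtain ⟨v10, h10, h⟩ := h
  change v10 = β 83 at h10
  obtain ⟨v11, h11, h⟩ := h
  change v11 = v2 * v9 at h11
  obtain ⟨v12, h12, h⟩ := h
  change v12 = v10 + v11 at h12
  obtain ⟨v13, h13, h⟩ := h
  change v13 = β 82 at h13
  obtain ⟨v14, h14, h⟩ := h
  change v14 = v2 * v12 at h14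
  obtain ⟨v15, h15, h⟩ := h
  change v15 = v13 + v14 at h15
  obtain ⟨v16, h16, h⟩ := h
  change v16 = β 81 at h16
  obtain ⟨v17, h17, h⟩ := h
  change v17 = v2 * v15 at h17
  obtain ⟨v18, h18, h⟩ := h
  change v18 = v16 + v17 at h18
  obtain ⟨w81, e_w81_d⟩ : ∃ q : ℝ, q = hr β rs 81 6 := ⟨_, rfl⟩
  have a_w81 : hr β rs 81 6 = β 81 + rs * (β 82 + rs * (β 83 + rs * (β 84 + rs * (β 85 + rs * (β 86))))) := by
    simp only [hr]
  have e_w81_v : v18 = w81 := by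
    rw [e_w81_d, a_w81]
    simp only [h18, h17, h16, h15, h14, h13, h12, h11, h10, h9, h8, h7, h6, h5, h4, h3, e_rs_v, mul_re, mul_im, add_re, add_im, sub_re, sub_im, neg_re, neg_im, I_re, I_im, ofReal_re,
      ofReal_im, one_re, one_im, zero_re, zero_im, dt, normSq_apply, re_ofNat, im_ofNat, conj_re, conj_im]
    try ring
  obtain ⟨v19, h19, h⟩ := h
  change v19 = β 91 at h19
  obtain ⟨v20, h20, h⟩ := h
  change v20 = β 90 at h20
  obtain ⟨v21, h21, h⟩ := h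
  change v21 = v2 * v19 at h21
  obtain ⟨v22, h22, h⟩ := h
  change v22 = v20 + v21 at h22
  obtain ⟨v23, h23, h⟩ := h
  change v23 = β 89 at h23
  obtain ⟨v24, h24, h⟩ := h
  change v24 = v2 * v22 at h24
  obtain ⟨v25, h25, h⟩ := h
  change v25 = v23 + v24 at h25
  obtain ⟨v26, h26, h⟩ := h
  change v26 = β 88 at h26
  obtain ⟨v27, h27, h⟩ := h
  change v27 = v2 * v25 at h27
  obtain ⟨v28, h28, h⟩ := h
  change v28 = v26 + v27 at h28
  obtain ⟨v29, h29, h⟩ := h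
  change v29 = β 87 at h29
  obtain ⟨v30, h30, h⟩ := h
  change v30 = v2 * v28 at h30
  obtain ⟨v31, h31, h⟩ := h
  change v31 = v29 + v30 at h31
  obtain ⟨w87, e_w87_d⟩ : ∃ q : ℝ, q = hr β rs 87 5 := ⟨_, rfl⟩
  have a_w87 : hr β rs 87 5 = β 87 + rs * (β 88 + rs * (β 89 + rs * (β 90 + rs * (β 91)))) := by
    simp only [hr]
  have e_w87_v : v31 = w87 := by
    rw [e_w87_d, a_w87]
    simp only [h31, h30, h29, h28, h27, h26, h25, h24, h23, h22, h21, h20, h19, e_rs_v, mul_re, mul_im, add_re, add_im, sub_re, sub_im, neg_re, neg_im, I_re, I_im, ofReal_re,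
      ofReal_im, one_re, one_im, zero_re, zero_im, dt, normSq_apply, re_ofNat, im_ofNat, conj_re, conj_im]
    try ring
  obtain ⟨v32, h32, h⟩ := h
  change v32 = β 95 at h32
  obtain ⟨v33, h33, h⟩ := h
  change v33 = β 94 at h33
  obtain ⟨v34, h34, h⟩ := h
  change v34 = v2 * v32 at h34
  obtain ⟨v35, h35, h⟩ := h
  change v35 = v33 + v34 at h35
  obtain ⟨v36, h36, h⟩ := h
  change v36 = β 93 at h36
  obtain ⟨v37, h37, h⟩ := h
  change v37 = v2 * v35 at h37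
  obtain ⟨v38, h38, h⟩ := h
  change v38 = v36 + v37 at h38
  obtain ⟨v39, h39, h⟩ := h
  change v39 = β 92 at h39
  obtain ⟨v40, h40, h⟩ := h
  change v40 = v2 * v38 at h40
  obtain ⟨v41, h41, h⟩ := h
  change v41 = v39 + v40 at h41
  obtain ⟨w92, e_w92_d⟩ : ∃ q : ℝ, q = hr β rs 92 4 := ⟨_, rfl⟩
  have a_w92 : hr β rs 92 4 = β 92 + rs * (β 93 + rs * (β 94 + rs * (β 95))) := by
    simp only [hr]
  have e_w92_v : v41 = w92 := by
    rw [e_w92_d, a_w92]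
    simp only [h41, h40, h39, h38, h37, h36, h35, h34, h33, h32, e_rs_v, mul_re, mul_im, add_re, add_im, sub_re, sub_im, neg_re, neg_im, I_re, I_im, ofReal_re,
      ofReal_im, one_re, one_im, zero_re, zero_im, dt, normSq_apply, re_ofNat, im_ofNat, conj_re, conj_im]
    try ring
  obtain ⟨v42, h42, h⟩ := h
  change v42 = β 98 at h42
  obtain ⟨v43, h43, h⟩ := h
  change v43 = β 97 at h43
  obtain ⟨v44, h44, h⟩ := h
  change v44 = v2 * v42 at h44
  obtain ⟨v45, h45, h⟩ := h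
  change v45 = v43 + v44 at h45
  obtain ⟨v46, h46, h⟩ := h
  change v46 = β 96 at h46
  obtain ⟨v47, h47, h⟩ := h
  change v47 = v2 * v45 at h47
  obtain ⟨v48, h48, h⟩ := h
  change v48 = v46 + v47 at h48
  obtain ⟨w96, e_w96_d⟩ : ∃ q : ℝ, q = hr β rs 96 3 := ⟨_, rfl⟩
  have a_w96 : hr β rs 96 3 = β 96 + rs * (β 97 + rs * (β 98)) := by
    simp only [hr]
  have e_w96_v : v48 = w96 := by
    rw [e_w96_d, a_w96]
    simp only [h48, h47, h46, h45, h44, h43, h42, e_rs_v, mul_re, mul_im, add_re, add_im, sub_re, sub_im, neg_re, neg_im, I_re, I_im, ofReal_re,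
      ofReal_im, one_re, one_im, zero_re, zero_im, dt, normSq_apply, re_ofNat, im_ofNat, conj_re, conj_im]
    try ring
  obtain ⟨v49, h49, h⟩ := h
  change v49 = β 100 at h49
  obtain ⟨v50, h50, h⟩ := h
  change v50 = β 99 at h50
  obtain ⟨v51, h51, h⟩ := h
  change v51 = v2 * v49 at h51
  obtain ⟨v52, h52, h⟩ := h
  change v52 = v50 + v51 at h52
  obtain ⟨w99, e_w99_d⟩ : ∃ q : ℝ, q = hr β rs 99 2 := ⟨_, rfl⟩
  have a_w99 : hr β rs 99 2 = β 99 + rs * (β 100) := by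
    simp only [hr]
  have e_w99_v : v52 = w99 := by
    rw [e_w99_d, a_w99]
    simp only [h52, h51, h50, h49, e_rs_v, mul_re, mul_im, add_re, add_im, sub_re, sub_im, neg_re, neg_im, I_re, I_im, ofReal_re,
      ofReal_im, one_re, one_im, zero_re, zero_im, dt, normSq_apply, re_ofNat, im_ofNat, conj_re, conj_im]
    try ring
  obtain ⟨v53, h53, h⟩ := h
  change v53 = β 101 at h53
  obtain ⟨v54, h54, h⟩ := h
  change v54 = v0 * v53 at h54
  obtain ⟨v55, h55, h⟩ := h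
  change v55 = v52 + v54 at h55
  obtain ⟨v56, h56, h⟩ := h
  change v56 = v0 * v55 at h56
  obtain ⟨v57, h57, h⟩ := h
  change v57 = v48 + v56 at h57
  obtain ⟨v58, h58, h⟩ := h
  change v58 = v0 * v57 at h58
  obtain ⟨v59, h59, h⟩ := h
  change v59 = v41 + v58 at h59
  obtain ⟨v60, h60, h⟩ := h
  change v60 = v0 * v59 at h60
  obtain ⟨v61, h61, h⟩ := h
  change v61 = v31 + v60 at h61
  obtain ⟨v62, h62, h⟩ := h
  change v62 = v0 * v61 at h62
  obtain ⟨v63, h63, h⟩ := h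
  change v63 = v18 + v62 at h63
  obtain ⟨E3a, e_E3a_d⟩ : ∃ q : ℝ, q = hr2 β rs r 81 5 := ⟨_, rfl⟩
  have a_E3a : hr2 β rs r 81 5 = w81 + r * (w87 + r * (w92 + r * (w96 + r * (w99 + r * (β 101))))) := by
    simp only [hr2]; rw [e_w81_d, e_w87_d, e_w92_d, e_w96_d, e_w99_d]
  have e_E3a_v : v63 = E3a := by
    rw [e_E3a_d, a_E3a]
    simp only [h63, h62, h61, h60, h59, h58, h57, h56, h55, h54, h53, h0, e_w99_v, e_w96_v, e_w92_v, e_w87_v, e_w81_v, mul_re, mul_im, add_re, add_im, sub_re, sub_im, neg_re, neg_im, I_re, I_im, ofReal_re,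
      ofReal_im, one_re, one_im, zero_re, zero_im, dt, normSq_apply, re_ofNat, im_ofNat, conj_re, conj_im]
    try ring
  obtain ⟨v64, h64, h⟩ := h
  change v64 = β 107 at h64
  obtain ⟨v65, h65, h⟩ := h
  change v65 = β 106 at h65
  obtain ⟨v66, h66, h⟩ := h
  change v66 = v0 * v64 at h66
  obtain ⟨v67, h67, h⟩ := h
  change v67 = v65 + v66 at h67
  obtain ⟨v68, h68, h⟩ := h
  change v68 = β 105 at h68
  obtain ⟨v69, h69, h⟩ := h
  change v69 = v0 * v67 at h69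
  obtain ⟨v70, h70, h⟩ := h
  change v70 = v68 + v69 at h70
  obtain ⟨v71, h71, h⟩ := h
  change v71 = β 104 at h71
  exact pH0b_val_s2
    β r s st0 v0 h0 v1 h1 v2 rs e_rs_d e_rs_v v3 v4 v5 v6 v7 v8 v9 v10 v11 v12 v13 v14 v15 v16
    v17 v18 w81 e_w81_d v19 v20 v21 v22 v23 v24 v25 v26 v27 v28 v29 v30 v31 w87 e_w87_d v32 v33
    v34 v35 v36 v37 v38 v39 v40 v41 w92 e_w92_d v42 v43 v44 v45 v46 v47 v48 w96 e_w96_d v49 v50
    v51 v52 w99 e_w99_d v53 v54 v55 v56 v57 v58 v59 v60 v61 v62 v63 E3a e_E3a_d e_E3a_v v64 h64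
    v65 h65 v66 h66 v67 h67 v68 h68 v69 h69 v70 h70 v71 h71 h

end Pool.H61.Rh
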