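import Pool.Agent.H61.Rz.PE0b
import Pool.Agent.H61.Rz.PH0b
import Pool.Agent.H47.K3.Defs

/-! # generated: difference program pD0b -/

set_option autoImplicit false
set_option maxRecDepth 100000
set_option linter.unusedVariables false

namespace Pool.H61.Rh

open Complex Pool.H47.Kc Pool.H47.K3

def pD0b_P : List Op :=
  [.x, .y, .base 2, .mul 2 1, .cst (2) 0, .mul 1 0,
   .sub 3 0, .mul 5 5, .cst (1) 0, .add 1 0, .base 0, .base 1,
   .mul 10 1, .add 1 0, .base 3, .mul 13 0, .add 4 0, .mul 0 0,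
   .cst (4) 0, .mul 1 0, .base 4, .mul 11 0, .mul 17 0, .sub 3 0,
   .mul 10 5, .mul 24 15, .add 1 0, .mul 17 0, .mul 27 0, .add 5 0,
   .mul 25 0, .mul 26 17, .add 6 0, .mul 31 0, .mul 24 23, .mul 25 23,
   .add 2 1, .add 4 1, .mul 31 0, .mul 32 2, .add 9 0, .base 5,
   .base 6, .mul 41 1, .add 1 0, .base 15, .mul 45 1, .add 1 0,
   .base 7, .mul 47 0, .base 8, .add 1 0, .base 9, .mul 51 0,
   .base 10, .add 1 0, .mul 49 4, .mul 50 1, .mul 57 19, .mul 58 18,
   .sub 3 1, .add 3 1, .base 11, .base 12, .mul 57 19, .mul 2 0,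
   .mul 2 1, .sub 6 1, .sub 6 1, .add 65 58, .add 69 58, .mul 29 1,
   .mul 29 1, .add 1 0, .base 16, .mul 5 0, .base 17, .mul 6 0,
   .add 2 0, .mul 9 2, .base 18, .mul 10 0, .add 2 0, .base 19,
   .mul 82 0, .base 20, .add 1 0, .base 21, .mul 86 0, .base 22,
   .add 1 0, .mul 4 4, .mul 1 1, .add 1 0, .base 45, .mul 93 0,
   .base 46, .add 1 0, .mul 90 0, .base 47, .mul 98 0, .base 48,
   .add 1 0, .add 4 0, .base 42, .mul 97 0, .base 43, .mul 105 0,
   .add 2 0, .base 44, .add 1 0, .mul 110 7, .add 1 0, .base 33,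
   .mul 112 0, .base 34, .add 1 0, .base 36, .mul 110 0, .base 37,
   .mul 118 0, .add 2 0, .base 38, .add 1 0, .mul 123 0, .add 8 0,
   .mul 124 10, .base 35, .add 1 0, .base 39, .mul 122 0, .base 40,
   .mul 130 0, .add 2 0, .base 41, .add 1 0, .mul 135 0, .add 8 0,
   .base 49, .mul 137 0, .base 50, .add 1 0, .base 53, .mul 135 0,
   .base 54, .mul 143 0, .add 2 0, .base 55, .add 1 0, .mul 148 0,
   .add 8 0, .base 51, .mul 150 0, .base 52, .add 1 0, .base 56,
   .mul 148 0, .base 57, .mul 156 0, .add 2 0, .base 58, .add 1 0,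
   .mul 161 0, .add 8 0, .base 59, .mul 163 0, .base 60, .add 1 0,
   .base 63, .mul 161 0, .base 64, .mul 169 0, .add 2 0, .base 65,
   .add 1 0, .mul 174 0, .add 8 0, .base 61, .mul 176 0, .base 62,
   .add 1 0, .base 66, .mul 174 0, .base 67, .mul 182 0, .add 2 0,
   .base 68, .add 1 0, .mul 187 0, .add 8 0, .mul 188 122, .mul 186 0,
   .mul 190 123, .add 125 0, .mul 189 125, .mul 127 56, .mul 127 55, .add 1 0,
   .mul 55 6, .mul 54 5, .add 1 0, .mul 53 6, .add 1 0, .mul 202 0,
   .add 6 0, .mul 137 53, .mul 137 52, .add 1 0, .mul 52 16, .mul 51 15,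
   .add 1 0, .mul 50 16, .add 1 0, .mul 212 0, .add 6 0, .base 31,
   .base 32, .mul 215 1, .add 1 0, .base 29, .base 30, .mul 182 1,
   .mul 181 1, .sub 0 1, .mul 179 5, .mul 177 112, .add 1 0, .mul 220 0,
   .add 4 0, .mul 161 103, .mul 161 92, .add 1 0, .add 3 0, .mul 142 82,
   .mul 147 70, .sub 0 1, .mul 229 0, .sub 0 4, .base 23, .mul 237 0,
   .base 24, .add 1 0, .base 25, .mul 241 0, .base 26, .add 1 0,
   .mul 183 120, .mul 183 109, .add 1 0, .base 27, .base 28, .mul 180 100,
   .mul 182 88, .sub 1 0, .mul 212 0, .mul 212 1, .mul 105 6, .mul 93 6,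
   .add 1 0, .mul 180 0, .mul 177 1, .add 6 1, .add 6 1, .mul 189 99,
   .mul 190 113, .add 3 1, .sub 3 1, .mul 266 154, .add 49 0, .sub 0 20,
   .mul 191 0, .mul 188 1, .sub 30 1, .sub 27 1, .mul 269 110, .mul 270 124,
   .sub 99 1, .add 87 1, .mul 230 1, .mul 231 1, .sub 7 1, .sub 7 1,
   .sub 1 16, .sub 1 16, .mul 236 46, .cst (6) 0, .mul 1 0, .mul 280 193,
   .mul 283 1, .sub 0 1, .mul 242 242, .mul 220 200, .mul 222 205, .add 1 0,
   .mul 252 0, .mul 252 1, .mul 205 46, .mul 210 46, .sub 0 1, .mul 220 0,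
   .mul 217 1, .sub 1 6, .sub 1 6, .mul 229 216, .mul 230 213, .add 3 1,
   .add 3 1, .mul 300 259, .mul 2 0, .mul 2 1, .sub 22 23, .mul 310 0,
   .mul 233 0, .mul 230 1, .add 5 1, .add 5 1, .mul 309 33, .mul 310 33,
   .sub 1 113, .sub 1 104, .mul 34 29, .mul 2 0, .mul 2 1, .add 8 1,
   .add 8 1, .x, .y, .mul 1 0, .base 86, .base 85,
   .mul 2 1, .add 1 0, .base 84, .mul 5 1, .add 1 0, .base 83,
   .mul 8 1, .add 1 0, .base 82, .mul 11 1, .add 1 0, .base 81,
   .mul 14 1, .add 1 0, .base 91, .base 90, .mul 18 1, .add 1 0,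
   .base 89, .mul 21 1, .add 1 0, .base 88, .mul 24 1, .add 1 0,
   .base 87, .mul 27 1, .add 1 0, .base 95, .base 94, .mul 31 1,
   .add 1 0, .base 93, .mul 34 1, .add 1 0, .base 92, .mul 37 1,
   .add 1 0, .base 98, .base 97, .mul 41 1, .add 1 0, .base 96,
   .mul 44 1, .add 1 0, .base 100, .base 99, .mul 48 1, .add 1 0,
   .base 101, .mul 53 0, .add 2 0, .mul 55 0, .add 8 0, .mul 57 0,
   .add 17 0, .mul 59 0, .add 29 0, .mul 61 0, .add 44 0, .base 107,
   .base 106, .mul 65 1, .add 1 0, .base 105, .mul 68 1, .add 1 0,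
   .base 104, .mul 71 1, .add 1 0, .base 103, .mul 74 1, .add 1 0,
   .base 102, .mul 77 1, .add 1 0, .base 113, .base 112, .mul 81 1,
   .add 1 0, .base 111, .mul 84 1, .add 1 0, .base 110, .mul 87 1,
   .add 1 0, .base 109, .mul 90 1, .add 1 0, .base 108, .mul 93 1,
   .add 1 0, .mul 94 94, .mul 33 0, .mul 96 18, .add 1 0, .add 4 0,
   .base 121, .base 120, .mul 100 1, .add 1 0, .base 119, .mul 103 1,
   .add 1 0, .base 118, .mul 106 1, .add 1 0, .base 117, .mul 109 1,
   .add 1 0, .base 116, .mul 112 1, .add 1 0, .base 115, .mul 115 1,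
   .add 1 0, .base 114, .mul 118 1, .add 1 0, .base 128, .base 127,
   .mul 122 1, .add 1 0, .base 126, .mul 125 1, .add 1 0, .base 125,
   .mul 128 1, .add 1 0, .base 124, .mul 131 1, .add 1 0, .base 123,
   .mul 134 1, .add 1 0, .base 122, .mul 137 1, .add 1 0, .base 134,
   .base 133, .mul 141 1, .add 1 0, .base 132, .mul 144 1, .add 1 0,
   .base 131, .mul 147 1, .add 1 0, .base 130, .mul 150 1, .add 1 0,
   .base 129, .mul 153 1, .add 1 0, .base 139, .base 138, .mul 157 1,
   .add 1 0, .base 137, .mul 160 1, .add 1 0, .base 136, .mul 163 1,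
   .add 1 0, .base 135, .mul 166 1, .add 1 0, .base 143, .base 142,
   .mul 170 1, .add 1 0, .base 141, .mul 173 1, .add 1 0, .base 140,
   .mul 176 1, .add 1 0, .base 146, .base 145, .mul 180 1, .add 1 0,
   .base 144, .mul 183 1, .add 1 0, .base 148, .base 147, .mul 187 1,
   .add 1 0, .base 149, .mul 192 0, .add 2 0, .mul 194 0, .add 8 0,
   .mul 196 0, .add 17 0, .mul 198 0, .add 29 0, .mul 200 0, .add 44 0,
   .mul 202 0, .add 62 0, .mul 204 0, .add 83 0, .base 157, .base 156,
   .mul 208 1, .add 1 0, .base 155, .mul 211 1, .add 1 0, .base 154,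
   .mul 214 1, .add 1 0, .base 153, .mul 217 1, .add 1 0, .base 152,
   .mul 220 1, .add 1 0, .base 151, .mul 223 1, .add 1 0, .base 150,
   .mul 226 1, .add 1 0, .mul 227 22, .add 1 0, .base 165, .base 164,
   .mul 230 1, .add 1 0, .base 163, .mul 233 1, .add 1 0, .base 162,
   .mul 236 1, .add 1 0, .base 161, .mul 239 1, .add 1 0, .base 160,
   .mul 242 1, .add 1 0, .base 159, .mul 245 1, .add 1 0, .base 158,
   .mul 248 1, .add 1 0, .base 172, .base 171, .mul 252 1, .add 1 0,
   .base 170, .mul 255 1, .add 1 0, .base 169, .mul 258 1, .add 1 0,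
   .base 168, .mul 261 1, .add 1 0, .base 167, .mul 264 1, .add 1 0,
   .base 166, .mul 267 1, .add 1 0, .base 178, .base 177, .mul 271 1,
   .add 1 0, .base 176, .mul 274 1, .add 1 0, .base 175, .mul 277 1,
   .add 1 0, .base 174, .mul 280 1, .add 1 0, .base 173, .mul 283 1,
   .add 1 0, .base 183, .base 182, .mul 287 1, .add 1 0, .base 181,
   .mul 290 1, .add 1 0, .base 180, .mul 293 1, .add 1 0, .base 179,
   .mul 296 1, .add 1 0, .base 187, .base 186, .mul 300 1, .add 1 0,
   .base 185, .mul 303 1, .add 1 0, .base 184, .mul 306 1, .add 1 0,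
   .base 190, .base 189, .mul 310 1, .add 1 0, .base 188, .mul 313 1,
   .add 1 0, .base 192, .base 191, .mul 317 1, .add 1 0, .base 193,
   .mul 322 0, .add 2 0, .mul 324 0, .add 8 0, .mul 326 0, .add 17 0,
   .mul 328 0, .add 29 0, .mul 330 0, .add 44 0, .mul 332 0, .add 62 0,
   .mul 334 0, .add 83 0, .base 201, .base 200, .mul 338 1, .add 1 0,
   .base 199, .mul 341 1, .add 1 0, .base 198, .mul 344 1, .add 1 0,
   .base 197, .mul 347 1, .add 1 0, .base 196, .mul 350 1, .add 1 0,
   .base 195, .mul 353 1, .add 1 0, .base 194, .mul 356 1, .add 1 0,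
   .mul 357 22, .add 1 0, .cst (12) 0, .mul 0 261, .sub 398 0, .cst (6) 0,
   .mul 0 134, .sub 367 0, .mul 2 6, .sub 368 0]

def pD0b_o : List Nat := [5, 2, 0]

def pD0b_b43 {α : Type} (A : Alg α) (v289 v323 v324 v555 v685 v687 : α) : List α :=
  let v688 := A.sub v289 v687
  let v689 := A.cst (6) 0
  let v690 := A.mul v689 v555
  let v691 := A.sub v323 v690
  let v692 := A.mul v689 v685
  let v693 := A.sub v324 v692
  [v688, v691, v693]

def pD0b_b42 {α : Type} (A : Alg α) (v289 v323 v324 v325 v326 v425 v555 v661 v671 : α) : List α :=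
  let v672 := A.base 197
  let v673 := A.mul v325 v671
  let v674 := A.add v672 v673
  let v675 := A.base 196
  let v676 := A.mul v325 v674
  let v677 := A.add v675 v676
  let v678 := A.base 195
  let v679 := A.mul v325 v677
  let v680 := A.add v678 v679
  let v681 := A.base 194
  let v682 := A.mul v325 v680
  let v683 := A.add v681 v682
  let v684 := A.mul v326 v661
  let v685 := A.add v683 v684
  let v686 := A.cst (12) 0
  let v687 := A.mul v686 v425
  pD0b_b43 A v289 v323 v324 v555 v685 v687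

def pD0b_b41 {α : Type} (A : Alg α) (v289 v323 v324 v325 v326 v425 v555 v577 v596 v612 v655 : α) : List α :=
  let v656 := A.mul v325 v655
  let v657 := A.add v612 v656
  let v658 := A.mul v325 v657
  let v659 := A.add v596 v658
  let v660 := A.mul v325 v659
  let v661 := A.add v577 v660
  let v662 := A.base 201
  let v663 := A.base 200
  let v664 := A.mul v325 v662
  let v665 := A.add v663 v664
  let v666 := A.base 199
  let v667 := A.mul v325 v665
  let v668 := A.add v666 v667
  let v669 := A.base 198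
  let v670 := A.mul v325 v668
  let v671 := A.add v669 v670
  pD0b_b42 A v289 v323 v324 v325 v326 v425 v555 v661 v671

def pD0b_b40 {α : Type} (A : Alg α) (v289 v323 v324 v325 v326 v327 v425 v555 v577 v596 v612 v625 v635 v639 : α) : List α :=
  let v640 := A.base 188
  let v641 := A.mul v327 v639
  let v642 := A.add v640 v641
  let v643 := A.base 192
  let v644 := A.base 191
  let v645 := A.mul v327 v643
  let v646 := A.add v644 v645
  let v647 := A.base 193
  let v648 := A.mul v325 v647
  let v649 := A.add v646 v648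
  let v650 := A.mul v325 v649
  let v651 := A.add v642 v650
  let v652 := A.mul v325 v651
  let v653 := A.add v635 v652
  let v654 := A.mul v325 v653
  let v655 := A.add v625 v654
  pD0b_b41 A v289 v323 v324 v325 v326 v425 v555 v577 v596 v612 v655

def pD0b_b39 {α : Type} (A : Alg α) (v289 v323 v324 v325 v326 v327 v425 v555 v577 v596 v612 v622 v623 : α) : List α :=
  let v624 := A.mul v327 v622
  let v625 := A.add v623 v624
  let v626 := A.base 187
  let v627 := A.base 186
  let v628 := A.mul v327 v626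
  let v629 := A.add v627 v628
  let v630 := A.base 185
  let v631 := A.mul v327 v629
  let v632 := A.add v630 v631
  let v633 := A.base 184
  let v634 := A.mul v327 v632
  let v635 := A.add v633 v634
  let v636 := A.base 190
  let v637 := A.base 189
  let v638 := A.mul v327 v636
  let v639 := A.add v637 v638
  pD0b_b40 A v289 v323 v324 v325 v326 v327 v425 v555 v577 v596 v612 v625 v635 v639

def pD0b_b38 {α : Type} (A : Alg α) (v289 v323 v324 v325 v326 v327 v425 v555 v577 v596 v606 v607 : α) : List α :=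
  let v608 := A.mul v327 v606
  let v609 := A.add v607 v608
  let v610 := A.base 173
  let v611 := A.mul v327 v609
  let v612 := A.add v610 v611
  let v613 := A.base 183
  let v614 := A.base 182
  let v615 := A.mul v327 v613
  let v616 := A.add v614 v615
  let v617 := A.base 181
  let v618 := A.mul v327 v616
  let v619 := A.add v617 v618
  let v620 := A.base 180
  let v621 := A.mul v327 v619
  let v622 := A.add v620 v621
  let v623 := A.base 179
  pD0b_b39 A v289 v323 v324 v325 v326 v327 v425 v555 v577 v596 v612 v622 v623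

def pD0b_b37 {α : Type} (A : Alg α) (v289 v323 v324 v325 v326 v327 v425 v555 v577 v590 v591 : α) : List α :=
  let v592 := A.mul v327 v590
  let v593 := A.add v591 v592
  let v594 := A.base 166
  let v595 := A.mul v327 v593
  let v596 := A.add v594 v595
  let v597 := A.base 178
  let v598 := A.base 177
  let v599 := A.mul v327 v597
  let v600 := A.add v598 v599
  let v601 := A.base 176
  let v602 := A.mul v327 v600
  let v603 := A.add v601 v602
  let v604 := A.base 175
  let v605 := A.mul v327 v603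
  let v606 := A.add v604 v605
  let v607 := A.base 174
  pD0b_b38 A v289 v323 v324 v325 v326 v327 v425 v555 v577 v596 v606 v607

def pD0b_b36 {α : Type} (A : Alg α) (v289 v323 v324 v325 v326 v327 v425 v555 v574 v575 : α) : List α :=
  let v576 := A.mul v327 v574
  let v577 := A.add v575 v576
  let v578 := A.base 172
  let v579 := A.base 171
  let v580 := A.mul v327 v578
  let v581 := A.add v579 v580
  let v582 := A.base 170
  let v583 := A.mul v327 v581
  let v584 := A.add v582 v583
  let v585 := A.base 169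
  let v586 := A.mul v327 v584
  let v587 := A.add v585 v586
  let v588 := A.base 168
  let v589 := A.mul v327 v587
  let v590 := A.add v588 v589
  let v591 := A.base 167
  pD0b_b37 A v289 v323 v324 v325 v326 v327 v425 v555 v577 v590 v591

def pD0b_b35 {α : Type} (A : Alg α) (v289 v323 v324 v325 v326 v327 v425 v555 v559 : α) : List α :=
  let v560 := A.base 163
  let v561 := A.mul v327 v559
  let v562 := A.add v560 v561
  let v563 := A.base 162
  let v564 := A.mul v327 v562
  let v565 := A.add v563 v564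
  let v566 := A.base 161
  let v567 := A.mul v327 v565
  let v568 := A.add v566 v567
  let v569 := A.base 160
  let v570 := A.mul v327 v568
  let v571 := A.add v569 v570
  let v572 := A.base 159
  let v573 := A.mul v327 v571
  let v574 := A.add v572 v573
  let v575 := A.base 158
  pD0b_b36 A v289 v323 v324 v325 v326 v327 v425 v555 v574 v575

def pD0b_b34 {α : Type} (A : Alg α) (v289 v323 v324 v325 v326 v327 v425 v531 v542 v543 : α) : List α :=
  let v544 := A.add v542 v543
  let v545 := A.base 152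
  let v546 := A.mul v325 v544
  let v547 := A.add v545 v546
  let v548 := A.base 151
  let v549 := A.mul v325 v547
  let v550 := A.add v548 v549
  let v551 := A.base 150
  let v552 := A.mul v325 v550
  let v553 := A.add v551 v552
  let v554 := A.mul v326 v531
  let v555 := A.add v553 v554
  let v556 := A.base 165
  let v557 := A.base 164
  let v558 := A.mul v327 v556
  let v559 := A.add v557 v558
  pD0b_b35 A v289 v323 v324 v325 v326 v327 v425 v555 v559

def pD0b_b33 {α : Type} (A : Alg α) (v289 v323 v324 v325 v326 v327 v425 v447 v466 v527 : α) : List α :=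
  let v528 := A.mul v325 v527
  let v529 := A.add v466 v528
  let v530 := A.mul v325 v529
  let v531 := A.add v447 v530
  let v532 := A.base 157
  let v533 := A.base 156
  let v534 := A.mul v325 v532
  let v535 := A.add v533 v534
  let v536 := A.base 155
  let v537 := A.mul v325 v535
  let v538 := A.add v536 v537
  let v539 := A.base 154
  let v540 := A.mul v325 v538
  let v541 := A.add v539 v540
  let v542 := A.base 153
  let v543 := A.mul v325 v541
  pD0b_b34 A v289 v323 v324 v325 v326 v327 v425 v531 v542 v543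

def pD0b_b32 {α : Type} (A : Alg α) (v289 v323 v324 v325 v326 v327 v425 v447 v466 v482 v495 v505 v510 v511 : α) : List α :=
  let v512 := A.add v510 v511
  let v513 := A.base 148
  let v514 := A.base 147
  let v515 := A.mul v327 v513
  let v516 := A.add v514 v515
  let v517 := A.base 149
  let v518 := A.mul v325 v517
  let v519 := A.add v516 v518
  let v520 := A.mul v325 v519
  let v521 := A.add v512 v520
  let v522 := A.mul v325 v521
  let v523 := A.add v505 v522
  let v524 := A.mul v325 v523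
  let v525 := A.add v495 v524
  let v526 := A.mul v325 v525
  let v527 := A.add v482 v526
  pD0b_b33 A v289 v323 v324 v325 v326 v327 v425 v447 v466 v527

def pD0b_b31 {α : Type} (A : Alg α) (v289 v323 v324 v325 v326 v327 v425 v447 v466 v482 v495 : α) : List α :=
  let v496 := A.base 143
  let v497 := A.base 142
  let v498 := A.mul v327 v496
  let v499 := A.add v497 v498
  let v500 := A.base 141
  let v501 := A.mul v327 v499
  let v502 := A.add v500 v501
  let v503 := A.base 140
  let v504 := A.mul v327 v502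
  let v505 := A.add v503 v504
  let v506 := A.base 146
  let v507 := A.base 145
  let v508 := A.mul v327 v506
  let v509 := A.add v507 v508
  let v510 := A.base 144
  let v511 := A.mul v327 v509
  pD0b_b32 A v289 v323 v324 v325 v326 v327 v425 v447 v466 v482 v495 v505 v510 v511

def pD0b_b30 {α : Type} (A : Alg α) (v289 v323 v324 v325 v326 v327 v425 v447 v466 v479 : α) : List α :=
  let v480 := A.base 129
  let v481 := A.mul v327 v479
  let v482 := A.add v480 v481
  let v483 := A.base 139
  let v484 := A.base 138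
  let v485 := A.mul v327 v483
  let v486 := A.add v484 v485
  let v487 := A.base 137
  let v488 := A.mul v327 v486
  let v489 := A.add v487 v488
  let v490 := A.base 136
  let v491 := A.mul v327 v489
  let v492 := A.add v490 v491
  let v493 := A.base 135
  let v494 := A.mul v327 v492
  let v495 := A.add v493 v494
  pD0b_b31 A v289 v323 v324 v325 v326 v327 v425 v447 v466 v482 v495

def pD0b_b29 {α : Type} (A : Alg α) (v289 v323 v324 v325 v326 v327 v425 v447 v463 : α) : List α :=
  let v464 := A.base 122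
  let v465 := A.mul v327 v463
  let v466 := A.add v464 v465
  let v467 := A.base 134
  let v468 := A.base 133
  let v469 := A.mul v327 v467
  let v470 := A.add v468 v469
  let v471 := A.base 132
  let v472 := A.mul v327 v470
  let v473 := A.add v471 v472
  let v474 := A.base 131
  let v475 := A.mul v327 v473
  let v476 := A.add v474 v475
  let v477 := A.base 130
  let v478 := A.mul v327 v476
  let v479 := A.add v477 v478
  pD0b_b30 A v289 v323 v324 v325 v326 v327 v425 v447 v466 v479

def pD0b_b28 {α : Type} (A : Alg α) (v289 v323 v324 v325 v326 v327 v425 v447 : α) : List α :=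
  let v448 := A.base 128
  let v449 := A.base 127
  let v450 := A.mul v327 v448
  let v451 := A.add v449 v450
  let v452 := A.base 126
  let v453 := A.mul v327 v451
  let v454 := A.add v452 v453
  let v455 := A.base 125
  let v456 := A.mul v327 v454
  let v457 := A.add v455 v456
  let v458 := A.base 124
  let v459 := A.mul v327 v457
  let v460 := A.add v458 v459
  let v461 := A.base 123
  let v462 := A.mul v327 v460
  let v463 := A.add v461 v462
  pD0b_b29 A v289 v323 v324 v325 v326 v327 v425 v447 v463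

def pD0b_b27 {α : Type} (A : Alg α) (v289 v323 v324 v325 v326 v327 v425 v430 v431 : α) : List α :=
  let v432 := A.add v430 v431
  let v433 := A.base 118
  let v434 := A.mul v327 v432
  let v435 := A.add v433 v434
  let v436 := A.base 117
  let v437 := A.mul v327 v435
  let v438 := A.add v436 v437
  let v439 := A.base 116
  let v440 := A.mul v327 v438
  let v441 := A.add v439 v440
  let v442 := A.base 115
  let v443 := A.mul v327 v441
  let v444 := A.add v442 v443
  let v445 := A.base 114
  let v446 := A.mul v327 v444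
  let v447 := A.add v445 v446
  pD0b_b28 A v289 v323 v324 v325 v326 v327 v425 v447

def pD0b_b26 {α : Type} (A : Alg α) (v289 v323 v324 v325 v326 v327 v388 v404 v414 v415 : α) : List α :=
  let v416 := A.mul v325 v414
  let v417 := A.add v415 v416
  let v418 := A.base 108
  let v419 := A.mul v325 v417
  let v420 := A.add v418 v419
  let v421 := A.mul v326 v326
  let v422 := A.mul v388 v421
  let v423 := A.mul v326 v404
  let v424 := A.add v422 v423
  let v425 := A.add v420 v424
  let v426 := A.base 121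
  let v427 := A.base 120
  let v428 := A.mul v327 v426
  let v429 := A.add v427 v428
  let v430 := A.base 119
  let v431 := A.mul v327 v429
  pD0b_b27 A v289 v323 v324 v325 v326 v327 v425 v430 v431

def pD0b_b25 {α : Type} (A : Alg α) (v289 v323 v324 v325 v326 v327 v388 v398 v399 : α) : List α :=
  let v400 := A.mul v325 v398
  let v401 := A.add v399 v400
  let v402 := A.base 102
  let v403 := A.mul v325 v401
  let v404 := A.add v402 v403
  let v405 := A.base 113
  let v406 := A.base 112
  let v407 := A.mul v325 v405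
  let v408 := A.add v406 v407
  let v409 := A.base 111
  let v410 := A.mul v325 v408
  let v411 := A.add v409 v410
  let v412 := A.base 110
  let v413 := A.mul v325 v411
  let v414 := A.add v412 v413
  let v415 := A.base 109
  pD0b_b26 A v289 v323 v324 v325 v326 v327 v388 v404 v414 v415

def pD0b_b24 {α : Type} (A : Alg α) (v289 v323 v324 v325 v326 v327 v343 v356 v366 v383 : α) : List α :=
  let v384 := A.add v366 v383
  let v385 := A.mul v325 v384
  let v386 := A.add v356 v385
  let v387 := A.mul v325 v386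
  let v388 := A.add v343 v387
  let v389 := A.base 107
  let v390 := A.base 106
  let v391 := A.mul v325 v389
  let v392 := A.add v390 v391
  let v393 := A.base 105
  let v394 := A.mul v325 v392
  let v395 := A.add v393 v394
  let v396 := A.base 104
  let v397 := A.mul v325 v395
  let v398 := A.add v396 v397
  let v399 := A.base 103
  pD0b_b25 A v289 v323 v324 v325 v326 v327 v388 v398 v399

def pD0b_b23 {α : Type} (A : Alg α) (v289 v323 v324 v325 v326 v327 v343 v356 v366 v367 : α) : List α :=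
  let v368 := A.base 97
  let v369 := A.mul v327 v367
  let v370 := A.add v368 v369
  let v371 := A.base 96
  let v372 := A.mul v327 v370
  let v373 := A.add v371 v372
  let v374 := A.base 100
  let v375 := A.base 99
  let v376 := A.mul v327 v374
  let v377 := A.add v375 v376
  let v378 := A.base 101
  let v379 := A.mul v325 v378
  let v380 := A.add v377 v379
  let v381 := A.mul v325 v380
  let v382 := A.add v373 v381
  let v383 := A.mul v325 v382
  pD0b_b24 A v289 v323 v324 v325 v326 v327 v343 v356 v366 v383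

def pD0b_b22 {α : Type} (A : Alg α) (v289 v323 v324 v325 v326 v327 v343 v350 v351 : α) : List α :=
  let v352 := A.mul v327 v350
  let v353 := A.add v351 v352
  let v354 := A.base 87
  let v355 := A.mul v327 v353
  let v356 := A.add v354 v355
  let v357 := A.base 95
  let v358 := A.base 94
  let v359 := A.mul v327 v357
  let v360 := A.add v358 v359
  let v361 := A.base 93
  let v362 := A.mul v327 v360
  let v363 := A.add v361 v362
  let v364 := A.base 92
  let v365 := A.mul v327 v363
  let v366 := A.add v364 v365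
  let v367 := A.base 98
  pD0b_b23 A v289 v323 v324 v325 v326 v327 v343 v356 v366 v367

def pD0b_b21 {α : Type} (A : Alg α) (v289 v323 v324 v325 v326 v327 v334 v335 : α) : List α :=
  let v336 := A.mul v327 v334
  let v337 := A.add v335 v336
  let v338 := A.base 82
  let v339 := A.mul v327 v337
  let v340 := A.add v338 v339
  let v341 := A.base 81
  let v342 := A.mul v327 v340
  let v343 := A.add v341 v342
  let v344 := A.base 91
  let v345 := A.base 90
  let v346 := A.mul v327 v344
  let v347 := A.add v345 v346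
  let v348 := A.base 89
  let v349 := A.mul v327 v347
  let v350 := A.add v348 v349
  let v351 := A.base 88
  pD0b_b22 A v289 v323 v324 v325 v326 v327 v343 v350 v351

def pD0b_b20 {α : Type} (A : Alg α) (v285 v289 v290 v314 v315 v318 v319 : α) : List α :=
  let v320 := A.mul v285 v290
  let v321 := A.mul v318 v320
  let v322 := A.mul v319 v320
  let v323 := A.add v314 v321
  let v324 := A.add v315 v322
  let v325 := A.x
  let v326 := A.y
  let v327 := A.mul v325 v326
  let v328 := A.base 86
  let v329 := A.base 85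
  let v330 := A.mul v327 v328
  let v331 := A.add v329 v330
  let v332 := A.base 84
  let v333 := A.mul v327 v331
  let v334 := A.add v332 v333
  let v335 := A.base 83
  pD0b_b21 A v289 v323 v324 v325 v326 v327 v334 v335

def pD0b_b19 {α : Type} (A : Alg α) (v0 v6 v47 v73 v78 v82 v90 v204 v214 v282 v283 v285 v286 v287 v289 v290 v301 v302 v303 : α) : List α :=
  let v304 := A.mul v73 v90
  let v305 := A.add v301 v303
  let v306 := A.add v302 v304
  let v307 := A.mul v6 v47
  let v308 := A.mul v305 v307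
  let v309 := A.mul v306 v307
  let v310 := A.sub v287 v286
  let v311 := A.mul v0 v310
  let v312 := A.mul v78 v311
  let v313 := A.mul v82 v311
  let v314 := A.add v308 v312
  let v315 := A.add v309 v313
  let v316 := A.mul v6 v282
  let v317 := A.mul v6 v283
  let v318 := A.sub v316 v204
  let v319 := A.sub v317 v214
  pD0b_b20 A v285 v289 v290 v314 v315 v318 v319

def pD0b_b18 {α : Type} (A : Alg α) (v0 v4 v6 v41 v42 v47 v69 v70 v73 v78 v82 v86 v90 v204 v214 v249 v250 v282 v283 v285 v286 v287 : α) : List α :=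
  let v288 := A.mul v4 v286
  let v289 := A.sub v288 v287
  let v290 := A.mul v47 v47
  let v291 := A.mul v70 v90
  let v292 := A.mul v69 v86
  let v293 := A.add v291 v292
  let v294 := A.mul v41 v293
  let v295 := A.mul v42 v293
  let v296 := A.mul v90 v249
  let v297 := A.mul v86 v250
  let v298 := A.sub v297 v296
  let v299 := A.mul v78 v298
  let v300 := A.mul v82 v298
  let v301 := A.sub v299 v294
  let v302 := A.sub v300 v295
  let v303 := A.mul v73 v86
  pD0b_b19 A v0 v6 v47 v73 v78 v82 v90 v204 v214 v282 v283 v285 v286 v287 v289 v290 v301 v302 v303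

def pD0b_b17 {α : Type} (A : Alg α) (v0 v4 v6 v41 v42 v47 v69 v70 v73 v78 v82 v86 v90 v93 v150 v163 v176 v189 v204 v214 v237 v241 v245 v249 v250 v265 v266 v270 v271 : α) : List α :=
  let v272 := A.sub v241 v270
  let v273 := A.sub v245 v271
  let v274 := A.mul v4 v163
  let v275 := A.mul v4 v150
  let v276 := A.sub v176 v274
  let v277 := A.add v189 v275
  let v278 := A.mul v47 v276
  let v279 := A.mul v47 v277
  let v280 := A.sub v272 v278
  let v281 := A.sub v273 v279
  let v282 := A.sub v280 v265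
  let v283 := A.sub v281 v266
  let v284 := A.mul v47 v237
  let v285 := A.cst (6) 0
  let v286 := A.mul v284 v285
  let v287 := A.mul v6 v93
  pD0b_b18 A v0 v4 v6 v41 v42 v47 v69 v70 v73 v78 v82 v86 v90 v204 v214 v249 v250 v282 v283 v285 v286 v287

def pD0b_b16 {α : Type} (A : Alg α) (v0 v4 v6 v41 v42 v47 v69 v70 v73 v78 v82 v86 v90 v93 v112 v150 v163 v176 v189 v204 v214 v218 v237 v241 v245 v248 v249 v250 v254 v255 : α) : List α :=
  let v256 := A.mul v150 v249
  let v257 := A.mul v163 v250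
  let v258 := A.add v256 v257
  let v259 := A.mul v78 v258
  let v260 := A.mul v82 v258
  let v261 := A.add v254 v259
  let v262 := A.add v255 v260
  let v263 := A.mul v73 v163
  let v264 := A.mul v73 v150
  let v265 := A.add v261 v263
  let v266 := A.sub v262 v264
  let v267 := A.mul v0 v112
  let v268 := A.add v218 v267
  let v269 := A.sub v268 v248
  let v270 := A.mul v78 v269
  let v271 := A.mul v82 v269
  pD0b_b17 A v0 v4 v6 v41 v42 v47 v69 v70 v73 v78 v82 v86 v90 v93 v150 v163 v176 v189 v204 v214 v237 v241 v245 v249 v250 v265 v266 v270 v271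

def pD0b_b15 {α : Type} (A : Alg α) (v0 v1 v4 v6 v41 v42 v47 v62 v63 v69 v70 v73 v78 v82 v86 v90 v93 v112 v125 v137 v150 v163 v176 v189 v204 v214 v218 v237 v239 : α) : List α :=
  let v240 := A.base 24
  let v241 := A.add v239 v240
  let v242 := A.base 25
  let v243 := A.mul v1 v242
  let v244 := A.base 26
  let v245 := A.add v243 v244
  let v246 := A.mul v62 v125
  let v247 := A.mul v63 v137
  let v248 := A.add v246 v247
  let v249 := A.base 27
  let v250 := A.base 28
  let v251 := A.mul v70 v150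
  let v252 := A.mul v69 v163
  let v253 := A.sub v251 v252
  let v254 := A.mul v41 v253
  let v255 := A.mul v42 v253
  pD0b_b16 A v0 v4 v6 v41 v42 v47 v69 v70 v73 v78 v82 v86 v90 v93 v112 v150 v163 v176 v189 v204 v214 v218 v237 v241 v245 v248 v249 v250 v254 v255

def pD0b_b14 {α : Type} (A : Alg α) (v0 v1 v4 v6 v41 v42 v44 v47 v62 v63 v67 v68 v69 v70 v73 v78 v82 v86 v90 v93 v112 v125 v137 v150 v163 v176 v189 v204 v214 v218 v223 : α) : List α :=
  let v224 := A.mul v44 v218
  let v225 := A.mul v47 v112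
  let v226 := A.add v224 v225
  let v227 := A.mul v6 v226
  let v228 := A.add v223 v227
  let v229 := A.mul v67 v125
  let v230 := A.mul v68 v137
  let v231 := A.add v229 v230
  let v232 := A.add v228 v231
  let v233 := A.mul v90 v150
  let v234 := A.mul v86 v163
  let v235 := A.sub v234 v233
  let v236 := A.mul v6 v235
  let v237 := A.sub v236 v232
  let v238 := A.base 23
  let v239 := A.mul v1 v238
  pD0b_b15 A v0 v1 v4 v6 v41 v42 v47 v62 v63 v69 v70 v73 v78 v82 v86 v90 v93 v112 v125 v137 v150 v163 v176 v189 v204 v214 v218 v237 v239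

def pD0b_b13 {α : Type} (A : Alg α) (v0 v1 v4 v6 v38 v40 v41 v42 v44 v47 v62 v63 v67 v68 v69 v70 v73 v78 v82 v86 v90 v93 v112 v125 v137 v150 v155 v157 v160 v163 v176 v189 v191 v193 v194 v204 v207 : α) : List α :=
  let v208 := A.mul v155 v191
  let v209 := A.mul v157 v193
  let v210 := A.add v208 v209
  let v211 := A.mul v160 v194
  let v212 := A.add v210 v211
  let v213 := A.mul v0 v212
  let v214 := A.add v207 v213
  let v215 := A.base 31
  let v216 := A.base 32
  let v217 := A.mul v1 v215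
  let v218 := A.add v216 v217
  let v219 := A.base 29
  let v220 := A.base 30
  let v221 := A.mul v38 v219
  let v222 := A.mul v40 v220
  let v223 := A.sub v222 v221
  pD0b_b14 A v0 v1 v4 v6 v41 v42 v44 v47 v62 v63 v67 v68 v69 v70 v73 v78 v82 v86 v90 v93 v112 v125 v137 v150 v163 v176 v189 v204 v214 v218 v223

def pD0b_b12 {α : Type} (A : Alg α) (v0 v1 v4 v6 v38 v40 v41 v42 v44 v47 v62 v63 v67 v68 v69 v70 v73 v78 v82 v86 v90 v93 v112 v125 v137 v138 v140 v142 v144 v147 v150 v151 v153 v155 v157 v160 v163 v176 v189 v191 : α) : List α :=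
  let v192 := A.mul v1 v68
  let v193 := A.add v67 v192
  let v194 := A.mul v4 v68
  let v195 := A.mul v67 v138
  let v196 := A.mul v68 v140
  let v197 := A.add v195 v196
  let v198 := A.mul v142 v191
  let v199 := A.mul v144 v193
  let v200 := A.add v198 v199
  let v201 := A.mul v147 v194
  let v202 := A.add v200 v201
  let v203 := A.mul v0 v202
  let v204 := A.add v197 v203
  let v205 := A.mul v67 v151
  let v206 := A.mul v68 v153
  let v207 := A.add v205 v206
  pD0b_b13 A v0 v1 v4 v6 v38 v40 v41 v42 v44 v47 v62 v63 v67 v68 v69 v70 v73 v78 v82 v86 v90 v93 v112 v125 v137 v150 v155 v157 v160 v163 v176 v189 v191 v193 v194 v204 v207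

def pD0b_b11 {α : Type} (A : Alg α) (v0 v1 v4 v6 v7 v38 v40 v41 v42 v44 v47 v62 v63 v67 v68 v69 v70 v73 v78 v82 v86 v90 v93 v112 v125 v137 v138 v140 v142 v144 v147 v150 v151 v153 v155 v157 v160 v163 v167 v175 : α) : List α :=
  let v176 := A.add v167 v175
  let v177 := A.base 61
  let v178 := A.mul v1 v177
  let v179 := A.base 62
  let v180 := A.add v178 v179
  let v181 := A.base 66
  let v182 := A.mul v7 v181
  let v183 := A.base 67
  let v184 := A.mul v1 v183
  let v185 := A.add v182 v184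
  let v186 := A.base 68
  let v187 := A.add v185 v186
  let v188 := A.mul v0 v187
  let v189 := A.add v180 v188
  let v190 := A.mul v1 v67
  let v191 := A.mul v4 v190
  pD0b_b12 A v0 v1 v4 v6 v38 v40 v41 v42 v44 v47 v62 v63 v67 v68 v69 v70 v73 v78 v82 v86 v90 v93 v112 v125 v137 v138 v140 v142 v144 v147 v150 v151 v153 v155 v157 v160 v163 v176 v189 v191

def pD0b_b10 {α : Type} (A : Alg α) (v0 v1 v4 v6 v7 v38 v40 v41 v42 v44 v47 v62 v63 v67 v68 v69 v70 v73 v78 v82 v86 v90 v93 v112 v125 v137 v138 v140 v142 v144 v147 v150 v151 v153 v154 v155 v157 v159 : α) : List α :=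
  let v160 := A.base 58
  let v161 := A.add v159 v160
  let v162 := A.mul v0 v161
  let v163 := A.add v154 v162
  let v164 := A.base 59
  let v165 := A.mul v1 v164
  let v166 := A.base 60
  let v167 := A.add v165 v166
  let v168 := A.base 63
  let v169 := A.mul v7 v168
  let v170 := A.base 64
  let v171 := A.mul v1 v170
  let v172 := A.add v169 v171
  let v173 := A.base 65
  let v174 := A.add v172 v173
  let v175 := A.mul v0 v174
  pD0b_b11 A v0 v1 v4 v6 v7 v38 v40 v41 v42 v44 v47 v62 v63 v67 v68 v69 v70 v73 v78 v82 v86 v90 v93 v112 v125 v137 v138 v140 v142 v144 v147 v150 v151 v153 v155 v157 v160 v163 v167 v175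

def pD0b_b9 {α : Type} (A : Alg α) (v0 v1 v4 v6 v7 v38 v40 v41 v42 v44 v47 v62 v63 v67 v68 v69 v70 v73 v78 v82 v86 v90 v93 v112 v125 v137 v138 v140 v141 v142 v143 : α) : List α :=
  let v144 := A.base 54
  let v145 := A.mul v1 v144
  let v146 := A.add v143 v145
  let v147 := A.base 55
  let v148 := A.add v146 v147
  let v149 := A.mul v0 v148
  let v150 := A.add v141 v149
  let v151 := A.base 51
  let v152 := A.mul v1 v151
  let v153 := A.base 52
  let v154 := A.add v152 v153
  let v155 := A.base 56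
  let v156 := A.mul v7 v155
  let v157 := A.base 57
  let v158 := A.mul v1 v157
  let v159 := A.add v156 v158
  pD0b_b10 A v0 v1 v4 v6 v7 v38 v40 v41 v42 v44 v47 v62 v63 v67 v68 v69 v70 v73 v78 v82 v86 v90 v93 v112 v125 v137 v138 v140 v142 v144 v147 v150 v151 v153 v154 v155 v157 v159

def pD0b_b8 {α : Type} (A : Alg α) (v0 v1 v4 v6 v7 v38 v40 v41 v42 v44 v47 v62 v63 v67 v68 v69 v70 v73 v78 v82 v86 v90 v93 v112 v125 v126 v127 : α) : List α :=
  let v128 := A.add v126 v127
  let v129 := A.base 39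
  let v130 := A.mul v7 v129
  let v131 := A.base 40
  let v132 := A.mul v1 v131
  let v133 := A.add v130 v132
  let v134 := A.base 41
  let v135 := A.add v133 v134
  let v136 := A.mul v0 v135
  let v137 := A.add v128 v136
  let v138 := A.base 49
  let v139 := A.mul v1 v138
  let v140 := A.base 50
  let v141 := A.add v139 v140
  let v142 := A.base 53
  let v143 := A.mul v7 v142
  pD0b_b9 A v0 v1 v4 v6 v7 v38 v40 v41 v42 v44 v47 v62 v63 v67 v68 v69 v70 v73 v78 v82 v86 v90 v93 v112 v125 v137 v138 v140 v141 v142 v143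

def pD0b_b7 {α : Type} (A : Alg α) (v0 v1 v4 v6 v7 v38 v40 v41 v42 v44 v47 v62 v63 v67 v68 v69 v70 v73 v78 v82 v86 v90 v93 v110 v111 : α) : List α :=
  let v112 := A.add v110 v111
  let v113 := A.base 33
  let v114 := A.mul v1 v113
  let v115 := A.base 34
  let v116 := A.add v114 v115
  let v117 := A.base 36
  let v118 := A.mul v7 v117
  let v119 := A.base 37
  let v120 := A.mul v1 v119
  let v121 := A.add v118 v120
  let v122 := A.base 38
  let v123 := A.add v121 v122
  let v124 := A.mul v0 v123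
  let v125 := A.add v116 v124
  let v126 := A.mul v1 v115
  let v127 := A.base 35
  pD0b_b8 A v0 v1 v4 v6 v7 v38 v40 v41 v42 v44 v47 v62 v63 v67 v68 v69 v70 v73 v78 v82 v86 v90 v93 v112 v125 v126 v127

def pD0b_b6 {α : Type} (A : Alg α) (v0 v1 v4 v6 v7 v38 v40 v41 v42 v44 v47 v62 v63 v67 v68 v69 v70 v73 v78 v82 v86 v90 v93 v95 : α) : List α :=
  let v96 := A.base 46
  let v97 := A.add v95 v96
  let v98 := A.mul v7 v97
  let v99 := A.base 47
  let v100 := A.mul v1 v99
  let v101 := A.base 48
  let v102 := A.add v100 v101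
  let v103 := A.add v98 v102
  let v104 := A.base 42
  let v105 := A.mul v7 v104
  let v106 := A.base 43
  let v107 := A.mul v1 v106
  let v108 := A.add v105 v107
  let v109 := A.base 44
  let v110 := A.add v108 v109
  let v111 := A.mul v0 v103
  pD0b_b7 A v0 v1 v4 v6 v7 v38 v40 v41 v42 v44 v47 v62 v63 v67 v68 v69 v70 v73 v78 v82 v86 v90 v93 v110 v111

def pD0b_b5 {α : Type} (A : Alg α) (v0 v1 v4 v6 v7 v38 v40 v41 v42 v44 v47 v62 v63 v67 v68 v69 v70 v73 v78 v79 : α) : List α :=
  let v80 := A.base 18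
  let v81 := A.mul v70 v80
  let v82 := A.add v79 v81
  let v83 := A.base 19
  let v84 := A.mul v1 v83
  let v85 := A.base 20
  let v86 := A.add v84 v85
  let v87 := A.base 21
  let v88 := A.mul v1 v87
  let v89 := A.base 22
  let v90 := A.add v88 v89
  let v91 := A.mul v86 v86
  let v92 := A.mul v90 v90
  let v93 := A.add v91 v92
  let v94 := A.base 45
  let v95 := A.mul v1 v94
  pD0b_b6 A v0 v1 v4 v6 v7 v38 v40 v41 v42 v44 v47 v62 v63 v67 v68 v69 v70 v73 v78 v82 v86 v90 v93 v95

def pD0b_b4 {α : Type} (A : Alg α) (v0 v1 v3 v4 v6 v7 v10 v11 v38 v40 v41 v42 v44 v47 v60 v61 v62 v63 : α) : List α :=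
  let v64 := A.mul v6 v44
  let v65 := A.mul v62 v64
  let v66 := A.mul v63 v64
  let v67 := A.sub v60 v65
  let v68 := A.sub v61 v66
  let v69 := A.add v3 v10
  let v70 := A.add v0 v11
  let v71 := A.mul v41 v69
  let v72 := A.mul v42 v70
  let v73 := A.add v71 v72
  let v74 := A.base 16
  let v75 := A.mul v69 v74
  let v76 := A.base 17
  let v77 := A.mul v70 v76
  let v78 := A.add v75 v77
  let v79 := A.mul v69 v76
  pD0b_b5 A v0 v1 v4 v6 v7 v38 v40 v41 v42 v44 v47 v62 v63 v67 v68 v69 v70 v73 v78 v79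

def pD0b_b3 {α : Type} (A : Alg α) (v0 v1 v3 v4 v6 v7 v10 v11 v38 v40 v41 v42 v44 v47 : α) : List α :=
  let v48 := A.base 7
  let v49 := A.mul v1 v48
  let v50 := A.base 8
  let v51 := A.add v49 v50
  let v52 := A.base 9
  let v53 := A.mul v1 v52
  let v54 := A.base 10
  let v55 := A.add v53 v54
  let v56 := A.mul v6 v51
  let v57 := A.mul v6 v55
  let v58 := A.mul v0 v38
  let v59 := A.mul v0 v40
  let v60 := A.sub v56 v58
  let v61 := A.add v57 v59
  let v62 := A.base 11
  let v63 := A.base 12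
  pD0b_b4 A v0 v1 v3 v4 v6 v7 v10 v11 v38 v40 v41 v42 v44 v47 v60 v61 v62 v63

def pD0b_b2 {α : Type} (A : Alg α) (v0 v1 v3 v4 v6 v7 v9 v10 v11 v25 v30 v31 : α) : List α :=
  let v32 := A.add v25 v31
  let v33 := A.mul v1 v32
  let v34 := A.mul v9 v10
  let v35 := A.mul v9 v11
  let v36 := A.add v33 v34
  let v37 := A.add v32 v35
  let v38 := A.mul v6 v37
  let v39 := A.mul v6 v36
  let v40 := A.add v30 v39
  let v41 := A.base 5
  let v42 := A.base 6
  let v43 := A.mul v1 v41
  let v44 := A.add v42 v43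
  let v45 := A.base 15
  let v46 := A.mul v0 v44
  let v47 := A.add v45 v46
  pD0b_b3 A v0 v1 v3 v4 v6 v7 v10 v11 v38 v40 v41 v42 v44 v47

def pD0b_b1 {α : Type} (A : Alg α) (v0 v1 v3 v4 v6 v7 v9 v10 v11 v13 v15 : α) : List α :=
  let v16 := A.add v11 v15
  let v17 := A.mul v16 v16
  let v18 := A.cst (4) 0
  let v19 := A.mul v17 v18
  let v20 := A.base 4
  let v21 := A.mul v9 v20
  let v22 := A.mul v4 v21
  let v23 := A.sub v19 v22
  let v24 := A.mul v13 v18
  let v25 := A.mul v0 v9
  let v26 := A.add v24 v25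
  let v27 := A.mul v9 v26
  let v28 := A.mul v0 v27
  let v29 := A.add v23 v28
  let v30 := A.mul v4 v29
  let v31 := A.mul v4 v13
  pD0b_b2 A v0 v1 v3 v4 v6 v7 v9 v10 v11 v25 v30 v31

def pD0b_f {α : Type} (A : Alg α) : List α :=
  let v0 := A.x
  let v1 := A.y
  let v2 := A.base 2
  let v3 := A.mul v0 v1
  let v4 := A.cst (2) 0
  let v5 := A.mul v3 v4
  let v6 := A.sub v2 v5
  let v7 := A.mul v1 v1
  let v8 := A.cst (1) 0
  let v9 := A.add v7 v8
  let v10 := A.base 0
  let v11 := A.base 1
  let v12 := A.mul v1 v10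
  let v13 := A.add v11 v12
  let v14 := A.base 3
  let v15 := A.mul v1 v14
  pD0b_b1 A v0 v1 v3 v4 v6 v7 v9 v10 v11 v13 v15

theorem pD0b_h {α : Type} (A : Alg α) : pD0b_f A = outs A pD0b_P pD0b_o := rfl

def pD0b : Prg := ⟨pD0b_P, pD0b_o, pD0b_f, pD0b_h⟩

/-- last part -/
def pD0b_z : List Op := [.cst 12 0, .mul 0 261, .sub 398 0, .cst 6 0, .mul 0 134, .sub 367 0, .mul 2 6, .sub 368 0]

theorem pD0b_parts : pD0b_P = pE0b ++ (pH0b ++ pD0b_z) := rfl

theorem pD0b_val (P : Pt) (l : List ℝ) (r s : ℝ) (β : ℕ → ℝ)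
    (hβ : β = fun i => get 0 (P.syl l) i) :
    OutEq (run (realAlg β r s) pD0b_P []) pD0b_o
      [P.E12 r ⟨s, 1⟩ (P.T0 r ⟨s, 1⟩ (1 - 2 * P.ys.re - 2 * (r * (⟨s, 1⟩ : ℂ).re))) (P.U0 r ⟨s, 1⟩ (P.T0 r ⟨s, 1⟩ (1 - 2 * P.ys.re - 2 * (r * (⟨s, 1⟩ : ℂ).re))) (1 - 2 * P.ys.re - 2 * (r * (⟨s, 1⟩ : ℂ).re))) (1 - 2 * P.ys.re - 2 * (r * (⟨s, 1⟩ : ℂ).re))
        - 12 * E0h β 81 (r * s) r s 1,
      (P.G6 r ⟨s, 1⟩ (P.T0 r ⟨s, 1⟩ (1 - 2 * P.ys.re - 2 * (r * (⟨s, 1⟩ : ℂ).re))) (P.U0 r ⟨s, 1⟩ (P.T0 r ⟨s, 1⟩ (1 - 2 * P.ys.re - 2 * (r * (⟨s, 1⟩ : ℂ).re))) (1 - 2 * P.ys.re - 2 * (r * (⟨s, 1⟩ : ℂ).re))) (1 - 2 * P.ys.re - 2 * (r * (⟨s, 1⟩ : ℂ).re))).re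
        - 6 * G0h β 114 (r * s) r s 1,
      (P.G6 r ⟨s, 1⟩ (P.T0 r ⟨s, 1⟩ (1 - 2 * P.ys.re - 2 * (r * (⟨s, 1⟩ : ℂ).re))) (P.U0 r ⟨s, 1⟩ (P.T0 r ⟨s, 1⟩ (1 - 2 * P.ys.re - 2 * (r * (⟨s, 1⟩ : ℂ).re))) (1 - 2 * P.ys.re - 2 * (r * (⟨s, 1⟩ : ℂ).re))) (1 - 2 * P.ys.re - 2 * (r * (⟨s, 1⟩ : ℂ).re))).im
        - 6 * G0h β 158 (r * s) r s 1] := by
  have hE := pE0b_val P l r s
  rw [← hβ] at hE
  obtain ⟨st1, e1⟩ : ∃ q, q = run (realAlg β r s) pE0b [] := ⟨_, rfl⟩
  rw [← e1] at hE
  have hH := pH0b_val β r s st1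
  have hL := fun k n h => get_run_add' (realAlg β r s) 0 pH0b st1 k n h
  obtain ⟨st2, e2⟩ : ∃ q, q = run (realAlg β r s) pH0b st1 := ⟨_, rfl⟩
  rw [← e2] at hH
  rw [← e2] at hL
  obtain ⟨a0, a1, a2, a3, -⟩ := hE
  obtain ⟨b0, b1, b2, -⟩ := hH
  rw [pD0b_parts, run_append, run_append, ← e1, ← e2]
  have h := trE_runst2 (realAlg β r s) pD0b_z st2
  unfold pD0b_z at h
  obtain ⟨v0, h0, h⟩ := h
  obtain ⟨v1, h1, h⟩ := h
  obtain ⟨v2, h2, h⟩ := h
  obtain ⟨v3, h3, h⟩ := h
  obtain ⟨v4, h4, h⟩ := h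
  obtain ⟨v5, h5, h⟩ := h
  obtain ⟨v6, h6, h⟩ := h
  obtain ⟨v7, h7, h⟩ := h
  have cE12 : get 0 st2 396 = P.E12 r ⟨s, 1⟩ (P.T0 r ⟨s, 1⟩ (1 - 2 * P.ys.re - 2 * (r * (⟨s, 1⟩ : ℂ).re))) (P.U0 r ⟨s, 1⟩ (P.T0 r ⟨s, 1⟩ (1 - 2 * P.ys.re - 2 * (r * (⟨s, 1⟩ : ℂ).re))) (1 - 2 * P.ys.re - 2 * (r * (⟨s, 1⟩ : ℂ).re))) (1 - 2 * P.ys.re - 2 * (r * (⟨s, 1⟩ : ℂ).re)) := (hL 35 396 rfl).trans a0
  replace h0 : v0 = (12 : ℝ) := by rw [h0]; norm_num [step, realAlg]
  change v1 = v0 * get 0 st2 260 at h1
  rw [h0, b0] at h1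
  change v2 = get 0 st2 396 - v1 at h2
  rw [cE12, h1] at h2
  have cG6r : get 0 st2 362 = (P.G6 r ⟨s, 1⟩ (P.T0 r ⟨s, 1⟩ (1 - 2 * P.ys.re - 2 * (r * (⟨s, 1⟩ : ℂ).re))) (P.U0 r ⟨s, 1⟩ (P.T0 r ⟨s, 1⟩ (1 - 2 * P.ys.re - 2 * (r * (⟨s, 1⟩ : ℂ).re))) (1 - 2 * P.ys.re - 2 * (r * (⟨s, 1⟩ : ℂ).re))) (1 - 2 * P.ys.re - 2 * (r * (⟨s, 1⟩ : ℂ).re))).re := (hL 1 362 rfl).trans a1
  replace h3 : v3 = (6 : ℝ) := by rw [h3]; norm_num [step, realAlg]
  change v4 = v3 * get 0 st2 130 at h4
  rw [h3, b1] at h4
  change v5 = get 0 st2 362 - v4 at h5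
  rw [cG6r, h4] at h5
  have cG6i : get 0 st2 361 = (P.G6 r ⟨s, 1⟩ (P.T0 r ⟨s, 1⟩ (1 - 2 * P.ys.re - 2 * (r * (⟨s, 1⟩ : ℂ).re))) (P.U0 r ⟨s, 1⟩ (P.T0 r ⟨s, 1⟩ (1 - 2 * P.ys.re - 2 * (r * (⟨s, 1⟩ : ℂ).re))) (1 - 2 * P.ys.re - 2 * (r * (⟨s, 1⟩ : ℂ).re))) (1 - 2 * P.ys.re - 2 * (r * (⟨s, 1⟩ : ℂ).re))).im := (hL 0 361 rfl).trans a2
  change v6 = v3 * get 0 st2 0 at h6
  rw [h3, b2] at h6
  change v7 = get 0 st2 361 - v6 at h7
  rw [cG6i, h6] at h7
  refine OutEq_of h ⟨h2, h5, h7, trivial⟩

end Pool.H61.Rh
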