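import Pool.Agent.H61.Rz.L2
import Pool.Agent.H61.Rz.Ap0
import Pool.Agent.H81.Lv.Hr
import Pool.Agent.H47.K3.Defs

/-! # generated: Horner program pH1 -/

set_option autoImplicit false
set_option maxRecDepth 100000
set_option linter.unusedVariables false

namespace Pool.H61.Rh

open Complex Pool.H47.Kc Pool.H47.K3

/-- program -/
def pH1 : List Op := [.x, .y, .base 88, .base 87, .mul 3 1, .add 1 0, .base 86, .mul 6 1,
  .add 1 0, .base 85, .mul 9 1, .add 1 0, .base 84, .mul 12 1, .add 1 0, .base 83,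
  .mul 15 1, .add 1 0, .base 82, .mul 18 1, .add 1 0, .base 81, .mul 21 1, .add 1 0,
  .base 95, .base 94, .mul 25 1, .add 1 0, .base 93, .mul 28 1, .add 1 0, .base 92,
  .mul 31 1, .add 1 0, .base 91, .mul 34 1, .add 1 0, .base 90, .mul 37 1, .add 1 0,
  .base 89, .mul 40 1, .add 1 0, .base 101, .base 100, .mul 44 1, .add 1 0, .base 99,
  .mul 47 1, .add 1 0, .base 98, .mul 50 1, .add 1 0, .base 97, .mul 53 1, .add 1 0,
  .base 96, .mul 56 1, .add 1 0, .base 106, .base 105, .mul 60 1, .add 1 0, .base 104,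
  .mul 63 1, .add 1 0, .base 103, .mul 66 1, .add 1 0, .base 102, .mul 69 1, .add 1 0,
  .base 110, .base 109, .mul 73 1, .add 1 0, .base 108, .mul 76 1, .add 1 0, .base 107,
  .mul 79 1, .add 1 0, .base 113, .base 112, .mul 83 1, .add 1 0, .base 111, .mul 86 1,
  .add 1 0, .base 115, .base 114, .mul 90 1, .add 1 0, .base 116, .mul 92 0, .add 2 0,
  .mul 94 0, .add 8 0, .mul 96 0, .add 17 0, .mul 98 0, .add 29 0, .mul 100 0, .add 44 0,
  .mul 102 0, .add 62 0, .mul 104 0, .add 83 0, .base 125, .base 124, .mul 109 1, .add 1 0,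
  .base 123, .mul 112 1, .add 1 0, .base 122, .mul 115 1, .add 1 0, .base 121, .mul 118 1,
  .add 1 0, .base 120, .mul 121 1, .add 1 0, .base 119, .mul 124 1, .add 1 0, .base 118,
  .mul 127 1, .add 1 0, .base 117, .mul 130 1, .add 1 0, .base 133, .base 132, .mul 134 1,
  .add 1 0, .base 131, .mul 137 1, .add 1 0, .base 130, .mul 140 1, .add 1 0, .base 129,
  .mul 143 1, .add 1 0, .base 128, .mul 146 1, .add 1 0, .base 127, .mul 149 1, .add 1 0,
  .base 126, .mul 152 1, .add 1 0, .base 140, .base 139, .mul 156 1, .add 1 0, .base 138,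
  .mul 159 1, .add 1 0, .base 137, .mul 162 1, .add 1 0, .base 136, .mul 165 1, .add 1 0,
  .base 135, .mul 168 1, .add 1 0, .base 134, .mul 171 1, .add 1 0, .base 146, .base 145,
  .mul 175 1, .add 1 0, .base 144, .mul 178 1, .add 1 0, .base 143, .mul 181 1, .add 1 0,
  .base 142, .mul 184 1, .add 1 0, .base 141, .mul 187 1, .add 1 0, .base 151, .base 150,
  .mul 191 1, .add 1 0, .base 149, .mul 194 1, .add 1 0, .base 148, .mul 197 1, .add 1 0,
  .base 147, .mul 200 1, .add 1 0, .base 155, .base 154, .mul 204 1, .add 1 0, .base 153,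
  .mul 207 1, .add 1 0, .base 152, .mul 210 1, .add 1 0, .base 158, .base 157, .mul 214 1,
  .add 1 0, .base 156, .mul 217 1, .add 1 0, .base 160, .base 159, .mul 221 1, .add 1 0,
  .base 161, .mul 223 0, .add 2 0, .mul 225 0, .add 8 0, .mul 227 0, .add 17 0, .mul 229 0,
  .add 29 0, .mul 231 0, .add 44 0, .mul 233 0, .add 62 0, .mul 235 0, .add 83 0, .mul 237 0,
  .add 107 0, .base 170, .base 169, .mul 242 1, .add 1 0, .base 168, .mul 245 1, .add 1 0,
  .base 167, .mul 248 1, .add 1 0, .base 166, .mul 251 1, .add 1 0, .base 165, .mul 254 1,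
  .add 1 0, .base 164, .mul 257 1, .add 1 0, .base 163, .mul 260 1, .add 1 0, .base 162,
  .mul 263 1, .add 1 0, .base 178, .base 177, .mul 267 1, .add 1 0, .base 176, .mul 270 1,
  .add 1 0, .base 175, .mul 273 1, .add 1 0, .base 174, .mul 276 1, .add 1 0, .base 173,
  .mul 279 1, .add 1 0, .base 172, .mul 282 1, .add 1 0, .base 171, .mul 285 1, .add 1 0,
  .base 185, .base 184, .mul 289 1, .add 1 0, .base 183, .mul 292 1, .add 1 0, .base 182,
  .mul 295 1, .add 1 0, .base 181, .mul 298 1, .add 1 0, .base 180, .mul 301 1, .add 1 0,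
  .base 179, .mul 304 1, .add 1 0, .base 191, .base 190, .mul 308 1, .add 1 0, .base 189,
  .mul 311 1, .add 1 0, .base 188, .mul 314 1, .add 1 0, .base 187, .mul 317 1, .add 1 0,
  .base 186, .mul 320 1, .add 1 0, .base 196, .base 195, .mul 324 1, .add 1 0, .base 194,
  .mul 327 1, .add 1 0, .base 193, .mul 330 1, .add 1 0, .base 192, .mul 333 1, .add 1 0,
  .base 200, .base 199, .mul 337 1, .add 1 0, .base 198, .mul 340 1, .add 1 0, .base 197,
  .mul 343 1, .add 1 0, .base 203, .base 202, .mul 347 1, .add 1 0, .base 201, .mul 350 1,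
  .add 1 0, .base 205, .base 204, .mul 354 1, .add 1 0, .base 206, .mul 356 0, .add 2 0,
  .mul 358 0, .add 8 0, .mul 360 0, .add 17 0, .mul 362 0, .add 29 0, .mul 364 0, .add 44 0,
  .mul 366 0, .add 62 0, .mul 368 0, .add 83 0, .mul 370 0, .add 107 0]

/-- positions of the outputs -/
def pH1_out : List ℕ := [266, 133, 0]

/-- the final condition of the trace -/
def pH1_valQ (β : ℕ → ℝ) (r s : ℝ) (st0 : List ℝ) (st : List ℝ) : Prop := run (realAlg β r s) pH1 st0 = st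

theorem pH1_val_s5 (β : ℕ → ℝ) (r s : ℝ) (st0 : List ℝ)
    (v0 : ℝ) (h0 : v0 = r) (v1 : ℝ) (h1 : v1 = s) (v2 : ℝ) (v3 : ℝ) (v4 : ℝ) (v5 : ℝ) (v6 : ℝ)
    (v7 : ℝ) (v8 : ℝ) (v9 : ℝ) (v10 : ℝ) (v11 : ℝ) (v12 : ℝ) (v13 : ℝ) (v14 : ℝ) (v15 : ℝ)
    (v16 : ℝ) (v17 : ℝ) (v18 : ℝ) (v19 : ℝ) (v20 : ℝ) (v21 : ℝ) (v22 : ℝ) (v23 : ℝ) (w81 : ℝ)
    (e_w81_d : w81 = hr β r 81 8) (v24 : ℝ) (v25 : ℝ) (v26 : ℝ) (v27 : ℝ) (v28 : ℝ) (v29 : ℝ)
    (v30 : ℝ) (v31 : ℝ) (v32 : ℝ) (v33 : ℝ) (v34 : ℝ) (v35 : ℝ) (v36 : ℝ) (v37 : ℝ) (v38 : ℝ)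
    (v39 : ℝ) (v40 : ℝ) (v41 : ℝ) (v42 : ℝ) (w89 : ℝ) (e_w89_d : w89 = hr β r 89 7) (v43 : ℝ)
    (v44 : ℝ) (v45 : ℝ) (v46 : ℝ) (v47 : ℝ) (v48 : ℝ) (v49 : ℝ) (v50 : ℝ) (v51 : ℝ) (v52 : ℝ)
    (v53 : ℝ) (v54 : ℝ) (v55 : ℝ) (v56 : ℝ) (v57 : ℝ) (v58 : ℝ) (w96 : ℝ)
    (e_w96_d : w96 = hr β r 96 6) (v59 : ℝ) (v60 : ℝ) (v61 : ℝ) (v62 : ℝ) (v63 : ℝ) (v64 : ℝ)
    (v65 : ℝ) (v66 : ℝ) (v67 : ℝ) (v68 : ℝ) (v69 : ℝ) (v70 : ℝ) (v71 : ℝ) (w102 : ℝ)
    (e_w102_d : w102 = hr β r 102 5) (v72 : ℝ) (v73 : ℝ) (v74 : ℝ) (v75 : ℝ) (v76 : ℝ) (v77 : ℝ)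
    (v78 : ℝ) (v79 : ℝ) (v80 : ℝ) (v81 : ℝ) (w107 : ℝ) (e_w107_d : w107 = hr β r 107 4) (v82 : ℝ)
    (v83 : ℝ) (v84 : ℝ) (v85 : ℝ) (v86 : ℝ) (v87 : ℝ) (v88 : ℝ) (w111 : ℝ)
    (e_w111_d : w111 = hr β r 111 3) (v89 : ℝ) (v90 : ℝ) (v91 : ℝ) (v92 : ℝ) (w114 : ℝ)
    (e_w114_d : w114 = hr β r 114 2) (v93 : ℝ) (v94 : ℝ) (v95 : ℝ) (v96 : ℝ) (v97 : ℝ) (v98 : ℝ)
    (v99 : ℝ) (v100 : ℝ) (v101 : ℝ) (v102 : ℝ) (v103 : ℝ) (v104 : ℝ) (v105 : ℝ) (v106 : ℝ)
    (v107 : ℝ) (E3 : ℝ) (e_E3_d : E3 = hr2 β r s 81 7) (e_E3_v : v107 = E3) (v108 : ℝ) (v109 : ℝ)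
    (v110 : ℝ) (v111 : ℝ) (v112 : ℝ) (v113 : ℝ) (v114 : ℝ) (v115 : ℝ) (v116 : ℝ) (v117 : ℝ)
    (v118 : ℝ) (v119 : ℝ) (v120 : ℝ) (v121 : ℝ) (v122 : ℝ) (v123 : ℝ) (v124 : ℝ) (v125 : ℝ)
    (v126 : ℝ) (v127 : ℝ) (v128 : ℝ) (v129 : ℝ) (v130 : ℝ) (v131 : ℝ) (v132 : ℝ) (w117 : ℝ)
    (e_w117_d : w117 = hr β r 117 9) (v133 : ℝ) (v134 : ℝ) (v135 : ℝ) (v136 : ℝ) (v137 : ℝ)
    (v138 : ℝ) (v139 : ℝ) (v140 : ℝ) (v141 : ℝ) (v142 : ℝ) (v143 : ℝ) (v144 : ℝ) (v145 : ℝ)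
    (v146 : ℝ) (v147 : ℝ) (v148 : ℝ) (v149 : ℝ) (v150 : ℝ) (v151 : ℝ) (v152 : ℝ) (v153 : ℝ)
    (v154 : ℝ) (w126 : ℝ) (e_w126_d : w126 = hr β r 126 8) (v155 : ℝ) (v156 : ℝ) (v157 : ℝ)
    (v158 : ℝ) (v159 : ℝ) (v160 : ℝ) (v161 : ℝ) (v162 : ℝ) (v163 : ℝ) (v164 : ℝ) (v165 : ℝ)
    (v166 : ℝ) (v167 : ℝ) (v168 : ℝ) (v169 : ℝ) (v170 : ℝ) (v171 : ℝ) (v172 : ℝ) (v173 : ℝ)
    (w134 : ℝ) (e_w134_d : w134 = hr β r 134 7) (v174 : ℝ) (v175 : ℝ) (v176 : ℝ) (v177 : ℝ)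
    (v178 : ℝ) (v179 : ℝ) (v180 : ℝ) (v181 : ℝ) (v182 : ℝ) (v183 : ℝ) (v184 : ℝ) (v185 : ℝ)
    (v186 : ℝ) (v187 : ℝ) (v188 : ℝ) (v189 : ℝ) (w141 : ℝ) (e_w141_d : w141 = hr β r 141 6)
    (v190 : ℝ) (v191 : ℝ) (v192 : ℝ) (v193 : ℝ) (v194 : ℝ) (v195 : ℝ) (v196 : ℝ) (v197 : ℝ)
    (v198 : ℝ) (v199 : ℝ) (v200 : ℝ) (v201 : ℝ) (v202 : ℝ) (w147 : ℝ)
    (e_w147_d : w147 = hr β r 147 5) (v203 : ℝ) (v204 : ℝ) (v205 : ℝ) (v206 : ℝ) (v207 : ℝ)
    (v208 : ℝ) (v209 : ℝ) (v210 : ℝ) (v211 : ℝ) (v212 : ℝ) (w152 : ℝ)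
    (e_w152_d : w152 = hr β r 152 4) (v213 : ℝ) (v214 : ℝ) (v215 : ℝ) (v216 : ℝ) (v217 : ℝ)
    (v218 : ℝ) (v219 : ℝ) (w156 : ℝ) (e_w156_d : w156 = hr β r 156 3) (v220 : ℝ) (v221 : ℝ)
    (v222 : ℝ) (v223 : ℝ) (w159 : ℝ) (e_w159_d : w159 = hr β r 159 2) (v224 : ℝ) (v225 : ℝ)
    (v226 : ℝ) (v227 : ℝ) (v228 : ℝ) (v229 : ℝ) (v230 : ℝ) (v231 : ℝ) (v232 : ℝ) (v233 : ℝ)
    (v234 : ℝ) (v235 : ℝ) (v236 : ℝ) (v237 : ℝ) (v238 : ℝ) (v239 : ℝ) (v240 : ℝ) (G3 : ℝ)
    (e_G3_d : G3 = hr2 β r s 117 8) (e_G3_v : v240 = G3) (v241 : ℝ) (v242 : ℝ) (v243 : ℝ)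
    (v244 : ℝ) (v245 : ℝ) (v246 : ℝ) (v247 : ℝ) (v248 : ℝ) (v249 : ℝ) (v250 : ℝ) (v251 : ℝ)
    (v252 : ℝ) (v253 : ℝ) (v254 : ℝ) (v255 : ℝ) (v256 : ℝ) (v257 : ℝ) (v258 : ℝ) (v259 : ℝ)
    (v260 : ℝ) (v261 : ℝ) (v262 : ℝ) (v263 : ℝ) (v264 : ℝ) (v265 : ℝ) (w162 : ℝ)
    (e_w162_d : w162 = hr β r 162 9) (e_w162_v : v265 = w162) (v266 : ℝ) (v267 : ℝ) (v268 : ℝ)
    (v269 : ℝ) (v270 : ℝ) (v271 : ℝ) (v272 : ℝ) (v273 : ℝ) (v274 : ℝ) (v275 : ℝ) (v276 : ℝ)
    (v277 : ℝ) (v278 : ℝ) (v279 : ℝ) (v280 : ℝ) (v281 : ℝ) (v282 : ℝ) (v283 : ℝ) (v284 : ℝ)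
    (v285 : ℝ) (v286 : ℝ) (v287 : ℝ) (w171 : ℝ) (e_w171_d : w171 = hr β r 171 8)
    (e_w171_v : v287 = w171) (v288 : ℝ) (h288 : v288 = β 185) (v289 : ℝ) (h289 : v289 = β 184)
    (v290 : ℝ) (h290 : v290 = v0 * v288) (v291 : ℝ) (h291 : v291 = v289 + v290) (v292 : ℝ)
    (h292 : v292 = β 183) (v293 : ℝ) (h293 : v293 = v0 * v291) (v294 : ℝ)
    (h294 : v294 = v292 + v293) (v295 : ℝ) (h295 : v295 = β 182) (v296 : ℝ)
    (h296 : v296 = v0 * v294) (v297 : ℝ) (h297 : v297 = v295 + v296) (v298 : ℝ)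
    (h298 : v298 = β 181) (v299 : ℝ) (h299 : v299 = v0 * v297) (v300 : ℝ)
    (h300 : v300 = v298 + v299) (v301 : ℝ) (h301 : v301 = β 180) (v302 : ℝ)
    (h302 : v302 = v0 * v300) (v303 : ℝ) (h303 : v303 = v301 + v302) (v304 : ℝ)
    (h304 : v304 = β 179) (v305 : ℝ) (h305 : v305 = v0 * v303)
    (h : TrE (realAlg β r s)
    [.add 1 0, .base 191, .base 190, .mul 308 1, .add 1 0, .base 189, .mul 311 1, .add 1 0,
    .base 188, .mul 314 1, .add 1 0, .base 187, .mul 317 1, .add 1 0, .base 186, .mul 320 1,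
    .add 1 0, .base 196, .base 195, .mul 324 1, .add 1 0, .base 194, .mul 327 1, .add 1 0,
    .base 193, .mul 330 1, .add 1 0, .base 192, .mul 333 1, .add 1 0, .base 200, .base 199,
    .mul 337 1, .add 1 0, .base 198, .mul 340 1, .add 1 0, .base 197, .mul 343 1, .add 1 0,
    .base 203, .base 202, .mul 347 1, .add 1 0, .base 201, .mul 350 1, .add 1 0, .base 205,
    .base 204, .mul 354 1, .add 1 0, .base 206, .mul 356 0, .add 2 0, .mul 358 0, .add 8 0,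
    .mul 360 0, .add 17 0, .mul 362 0, .add 29 0, .mul 364 0, .add 44 0, .mul 366 0, .add 62 0,
    .mul 368 0, .add 83 0, .mul 370 0, .add 107 0]
    (v305 :: v304 :: v303 :: v302 :: v301 :: v300 :: v299 :: v298 :: v297 :: v296 :: v295 :: v294
    :: v293 :: v292 :: v291 :: v290 :: v289 :: v288 :: v287 :: v286 :: v285 :: v284 :: v283
    :: v282 :: v281 :: v280 :: v279 :: v278 :: v277 :: v276 :: v275 :: v274 :: v273 :: v272
    :: v271 :: v270 :: v269 :: v268 :: v267 :: v266 :: v265 :: v264 :: v263 :: v262 :: v261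
    :: v260 :: v259 :: v258 :: v257 :: v256 :: v255 :: v254 :: v253 :: v252 :: v251 :: v250
    :: v249 :: v248 :: v247 :: v246 :: v245 :: v244 :: v243 :: v242 :: v241 :: v240 :: v239
    :: v238 :: v237 :: v236 :: v235 :: v234 :: v233 :: v232 :: v231 :: v230 :: v229 :: v228
    :: v227 :: v226 :: v225 :: v224 :: v223 :: v222 :: v221 :: v220 :: v219 :: v218 :: v217
    :: v216 :: v215 :: v214 :: v213 :: v212 :: v211 :: v210 :: v209 :: v208 :: v207 :: v206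
    :: v205 :: v204 :: v203 :: v202 :: v201 :: v200 :: v199 :: v198 :: v197 :: v196 :: v195
    :: v194 :: v193 :: v192 :: v191 :: v190 :: v189 :: v188 :: v187 :: v186 :: v185 :: v184
    :: v183 :: v182 :: v181 :: v180 :: v179 :: v178 :: v177 :: v176 :: v175 :: v174 :: v173
    :: v172 :: v171 :: v170 :: v169 :: v168 :: v167 :: v166 :: v165 :: v164 :: v163 :: v162
    :: v161 :: v160 :: v159 :: v158 :: v157 :: v156 :: v155 :: v154 :: v153 :: v152 :: v151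
    :: v150 :: v149 :: v148 :: v147 :: v146 :: v145 :: v144 :: v143 :: v142 :: v141 :: v140
    :: v139 :: v138 :: v137 :: v136 :: v135 :: v134 :: v133 :: v132 :: v131 :: v130 :: v129
    :: v128 :: v127 :: v126 :: v125 :: v124 :: v123 :: v122 :: v121 :: v120 :: v119 :: v118
    :: v117 :: v116 :: v115 :: v114 :: v113 :: v112 :: v111 :: v110 :: v109 :: v108 :: v107
    :: v106 :: v105 :: v104 :: v103 :: v102 :: v101 :: v100 :: v99 :: v98 :: v97 :: v96 :: v95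
    :: v94 :: v93 :: v92 :: v91 :: v90 :: v89 :: v88 :: v87 :: v86 :: v85 :: v84 :: v83 :: v82
    :: v81 :: v80 :: v79 :: v78 :: v77 :: v76 :: v75 :: v74 :: v73 :: v72 :: v71 :: v70 :: v69
    :: v68 :: v67 :: v66 :: v65 :: v64 :: v63 :: v62 :: v61 :: v60 :: v59 :: v58 :: v57 :: v56
    :: v55 :: v54 :: v53 :: v52 :: v51 :: v50 :: v49 :: v48 :: v47 :: v46 :: v45 :: v44 :: v43
    :: v42 :: v41 :: v40 :: v39 :: v38 :: v37 :: v36 :: v35 :: v34 :: v33 :: v32 :: v31 :: v30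
    :: v29 :: v28 :: v27 :: v26 :: v25 :: v24 :: v23 :: v22 :: v21 :: v20 :: v19 :: v18 :: v17
    :: v16 :: v15 :: v14 :: v13 :: v12 :: v11 :: v10 :: v9 :: v8 :: v7 :: v6 :: v5 :: v4 :: v3
    :: v2 :: v1 :: v0 :: st0)
    (pH1_valQ β r s st0)) :
    OutEq (run (realAlg β r s) pH1 st0) pH1_out
      [hr2 β r s 81 7, hr2 β r s 117 8, hr2 β r s 162 8] := by
  obtain ⟨v306, h306, h⟩ := h
  change v306 = v304 + v305 at h306
  obtain ⟨w179, e_w179_d⟩ : ∃ q : ℝ, q = hr β r 179 7 := ⟨_, rfl⟩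
  have a_w179 : hr β r 179 7 = β 179 + r * (β 180 + r * (β 181 + r * (β 182 + r * (β 183 + r * (β 184 + r * (β 185)))))) := by
    simp only [hr]
  have e_w179_v : v306 = w179 := by
    rw [e_w179_d, a_w179]
    simp only [h306, h305, h304, h303, h302, h301, h300, h299, h298, h297, h296, h295, h294, h293, h292, h291, h290, h289, h288, h0, mul_re, mul_im, add_re, add_im, sub_re, sub_im, neg_re, neg_im, I_re, I_im, ofReal_re,
      ofReal_im, one_re, one_im, zero_re, zero_im, dt, normSq_apply, re_ofNat, im_ofNat, conj_re, conj_im]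
    try ring
  obtain ⟨v307, h307, h⟩ := h
  change v307 = β 191 at h307
  obtain ⟨v308, h308, h⟩ := h
  change v308 = β 190 at h308
  obtain ⟨v309, h309, h⟩ := h
  change v309 = v0 * v307 at h309
  obtain ⟨v310, h310, h⟩ := h
  change v310 = v308 + v309 at h310
  obtain ⟨v311, h311, h⟩ := h
  change v311 = β 189 at h311
  obtain ⟨v312, h312, h⟩ := h
  change v312 = v0 * v310 at h312
  obtain ⟨v313, h313, h⟩ := h
  change v313 = v311 + v312 at h313
  obtain ⟨v314, h314, h⟩ := h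
  change v314 = β 188 at h314
  obtain ⟨v315, h315, h⟩ := h
  change v315 = v0 * v313 at h315
  obtain ⟨v316, h316, h⟩ := h
  change v316 = v314 + v315 at h316
  obtain ⟨v317, h317, h⟩ := h
  change v317 = β 187 at h317
  obtain ⟨v318, h318, h⟩ := h
  change v318 = v0 * v316 at h318
  obtain ⟨v319, h319, h⟩ := h
  change v319 = v317 + v318 at h319
  obtain ⟨v320, h320, h⟩ := h
  change v320 = β 186 at h320
  obtain ⟨v321, h321, h⟩ := h
  change v321 = v0 * v319 at h321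
  obtain ⟨v322, h322, h⟩ := h
  change v322 = v320 + v321 at h322
  obtain ⟨w186, e_w186_d⟩ : ∃ q : ℝ, q = hr β r 186 6 := ⟨_, rfl⟩
  have a_w186 : hr β r 186 6 = β 186 + r * (β 187 + r * (β 188 + r * (β 189 + r * (β 190 + r * (β 191))))) := by
    simp only [hr]
  have e_w186_v : v322 = w186 := by
    rw [e_w186_d, a_w186]
    simp only [h322, h321, h320, h319, h318, h317, h316, h315, h314, h313, h312, h311, h310, h309, h308, h307, h0, mul_re, mul_im, add_re, add_im, sub_re, sub_im, neg_re, neg_im, I_re, I_im, ofReal_re,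
      ofReal_im, one_re, one_im, zero_re, zero_im, dt, normSq_apply, re_ofNat, im_ofNat, conj_re, conj_im]
    try ring
  obtain ⟨v323, h323, h⟩ := h
  change v323 = β 196 at h323
  obtain ⟨v324, h324, h⟩ := h
  change v324 = β 195 at h324
  obtain ⟨v325, h325, h⟩ := h
  change v325 = v0 * v323 at h325
  obtain ⟨v326, h326, h⟩ := h
  change v326 = v324 + v325 at h326
  obtain ⟨v327, h327, h⟩ := h
  change v327 = β 194 at h327
  obtain ⟨v328, h328, h⟩ := h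
  change v328 = v0 * v326 at h328
  obtain ⟨v329, h329, h⟩ := h
  change v329 = v327 + v328 at h329
  obtain ⟨v330, h330, h⟩ := h
  change v330 = β 193 at h330
  obtain ⟨v331, h331, h⟩ := h
  change v331 = v0 * v329 at h331
  obtain ⟨v332, h332, h⟩ := h
  change v332 = v330 + v331 at h332
  obtain ⟨v333, h333, h⟩ := h
  change v333 = β 192 at h333
  obtain ⟨v334, h334, h⟩ := h
  change v334 = v0 * v332 at h334
  obtain ⟨v335, h335, h⟩ := h
  change v335 = v333 + v334 at h335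
  obtain ⟨w192, e_w192_d⟩ : ∃ q : ℝ, q = hr β r 192 5 := ⟨_, rfl⟩
  have a_w192 : hr β r 192 5 = β 192 + r * (β 193 + r * (β 194 + r * (β 195 + r * (β 196)))) := by
    simp only [hr]
  have e_w192_v : v335 = w192 := by
    rw [e_w192_d, a_w192]
    simp only [h335, h334, h333, h332, h331, h330, h329, h328, h327, h326, h325, h324, h323, h0, mul_re, mul_im, add_re, add_im, sub_re, sub_im, neg_re, neg_im, I_re, I_im, ofReal_re,
      ofReal_im, one_re, one_im, zero_re, zero_im, dt, normSq_apply, re_ofNat, im_ofNat, conj_re, conj_im]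
    try ring
  obtain ⟨v336, h336, h⟩ := h
  change v336 = β 200 at h336
  obtain ⟨v337, h337, h⟩ := h
  change v337 = β 199 at h337
  obtain ⟨v338, h338, h⟩ := h
  change v338 = v0 * v336 at h338
  obtain ⟨v339, h339, h⟩ := h
  change v339 = v337 + v338 at h339
  obtain ⟨v340, h340, h⟩ := h
  change v340 = β 198 at h340
  obtain ⟨v341, h341, h⟩ := h
  change v341 = v0 * v339 at h341
  obtain ⟨v342, h342, h⟩ := h
  change v342 = v340 + v341 at h342
  obtain ⟨v343, h343, h⟩ := h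
  change v343 = β 197 at h343
  obtain ⟨v344, h344, h⟩ := h
  change v344 = v0 * v342 at h344
  obtain ⟨v345, h345, h⟩ := h
  change v345 = v343 + v344 at h345
  obtain ⟨w197, e_w197_d⟩ : ∃ q : ℝ, q = hr β r 197 4 := ⟨_, rfl⟩
  have a_w197 : hr β r 197 4 = β 197 + r * (β 198 + r * (β 199 + r * (β 200))) := by
    simp only [hr]
  have e_w197_v : v345 = w197 := by
    rw [e_w197_d, a_w197]
    simp only [h345, h344, h343, h342, h341, h340, h339, h338, h337, h336, h0, mul_re, mul_im, add_re, add_im, sub_re, sub_im, neg_re, neg_im, I_re, I_im, ofReal_re,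
      ofReal_im, one_re, one_im, zero_re, zero_im, dt, normSq_apply, re_ofNat, im_ofNat, conj_re, conj_im]
    try ring
  obtain ⟨v346, h346, h⟩ := h
  change v346 = β 203 at h346
  obtain ⟨v347, h347, h⟩ := h
  change v347 = β 202 at h347
  obtain ⟨v348, h348, h⟩ := h
  change v348 = v0 * v346 at h348
  obtain ⟨v349, h349, h⟩ := h
  change v349 = v347 + v348 at h349
  obtain ⟨v350, h350, h⟩ := h
  change v350 = β 201 at h350
  obtain ⟨v351, h351, h⟩ := h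
  change v351 = v0 * v349 at h351
  obtain ⟨v352, h352, h⟩ := h
  change v352 = v350 + v351 at h352
  obtain ⟨w201, e_w201_d⟩ : ∃ q : ℝ, q = hr β r 201 3 := ⟨_, rfl⟩
  have a_w201 : hr β r 201 3 = β 201 + r * (β 202 + r * (β 203)) := by
    simp only [hr]
  have e_w201_v : v352 = w201 := by
    rw [e_w201_d, a_w201]
    simp only [h352, h351, h350, h349, h348, h347, h346, h0, mul_re, mul_im, add_re, add_im, sub_re, sub_im, neg_re, neg_im, I_re, I_im, ofReal_re,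
      ofReal_im, one_re, one_im, zero_re, zero_im, dt, normSq_apply, re_ofNat, im_ofNat, conj_re, conj_im]
    try ring
  obtain ⟨v353, h353, h⟩ := h
  change v353 = β 205 at h353
  obtain ⟨v354, h354, h⟩ := h
  change v354 = β 204 at h354
  obtain ⟨v355, h355, h⟩ := h
  change v355 = v0 * v353 at h355
  obtain ⟨v356, h356, h⟩ := h
  change v356 = v354 + v355 at h356
  obtain ⟨w204, e_w204_d⟩ : ∃ q : ℝ, q = hr β r 204 2 := ⟨_, rfl⟩
  have a_w204 : hr β r 204 2 = β 204 + r * (β 205) := by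
    simp only [hr]
  have e_w204_v : v356 = w204 := by
    rw [e_w204_d, a_w204]
    simp only [h356, h355, h354, h353, h0, mul_re, mul_im, add_re, add_im, sub_re, sub_im, neg_re, neg_im, I_re, I_im, ofReal_re,
      ofReal_im, one_re, one_im, zero_re, zero_im, dt, normSq_apply, re_ofNat, im_ofNat, conj_re, conj_im]
    try ring
  obtain ⟨v357, h357, h⟩ := h
  change v357 = β 206 at h357
  obtain ⟨v358, h358, h⟩ := h
  change v358 = v1 * v357 at h358
  obtain ⟨v359, h359, h⟩ := h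
  change v359 = v356 + v358 at h359
  obtain ⟨v360, h360, h⟩ := h
  change v360 = v1 * v359 at h360
  obtain ⟨v361, h361, h⟩ := h
  change v361 = v352 + v360 at h361
  obtain ⟨v362, h362, h⟩ := h
  change v362 = v1 * v361 at h362
  obtain ⟨v363, h363, h⟩ := h
  change v363 = v345 + v362 at h363
  obtain ⟨v364, h364, h⟩ := h
  change v364 = v1 * v363 at h364
  obtain ⟨v365, h365, h⟩ := h
  change v365 = v335 + v364 at h365
  obtain ⟨v366, h366, h⟩ := h
  change v366 = v1 * v365 at h366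
  obtain ⟨v367, h367, h⟩ := h
  change v367 = v322 + v366 at h367
  obtain ⟨v368, h368, h⟩ := h
  change v368 = v1 * v367 at h368
  obtain ⟨v369, h369, h⟩ := h
  change v369 = v306 + v368 at h369
  obtain ⟨v370, h370, h⟩ := h
  change v370 = v1 * v369 at h370
  obtain ⟨v371, h371, h⟩ := h
  change v371 = v287 + v370 at h371
  obtain ⟨v372, h372, h⟩ := h
  change v372 = v1 * v371 at h372
  obtain ⟨v373, h373, h⟩ := h
  change v373 = v265 + v372 at h373
  obtain ⟨H3, e_H3_d⟩ : ∃ q : ℝ, q = hr2 β r s 162 8 := ⟨_, rfl⟩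
  have a_H3 : hr2 β r s 162 8 = w162 + s * (w171 + s * (w179 + s * (w186 + s * (w192 + s * (w197 + s * (w201 + s * (w204 + s * (β 206)))))))) := by
    simp only [hr2]; rw [e_w162_d, e_w171_d, e_w179_d, e_w186_d, e_w192_d, e_w197_d, e_w201_d, e_w204_d]
  have e_H3_v : v373 = H3 := by
    rw [e_H3_d, a_H3]
    simp only [h373, h372, h371, h370, h369, h368, h367, h366, h365, h364, h363, h362, h361, h360, h359, h358, h357, h1, e_w204_v, e_w201_v, e_w197_v, e_w192_v, e_w186_v, e_w179_v, e_w171_v, e_w162_v, mul_re, mul_im, add_re, add_im, sub_re, sub_im, neg_re, neg_im, I_re, I_im, ofReal_re,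
      ofReal_im, one_re, one_im, zero_re, zero_im, dt, normSq_apply, re_ofNat, im_ofNat, conj_re, conj_im]
    try ring
  obtain ⟨o_E3, e_o_E3_d⟩ : ∃ q : ℝ, q = E3 := ⟨_, rfl⟩
  have a_o_E3 : E3 = E3 := by
    rfl
  have e_o_E3_v : v107 = o_E3 := by
    rw [e_o_E3_d, a_o_E3]
    simp only [e_E3_v, mul_re, mul_im, add_re, add_im, sub_re, sub_im, neg_re, neg_im, I_re, I_im, ofReal_re,
      ofReal_im, one_re, one_im, zero_re, zero_im, dt, normSq_apply, re_ofNat, im_ofNat, conj_re, conj_im]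
    try ring
  obtain ⟨o_G3, e_o_G3_d⟩ : ∃ q : ℝ, q = G3 := ⟨_, rfl⟩
  have a_o_G3 : G3 = G3 := by
    rfl
  have e_o_G3_v : v240 = o_G3 := by
    rw [e_o_G3_d, a_o_G3]
    simp only [e_G3_v, mul_re, mul_im, add_re, add_im, sub_re, sub_im, neg_re, neg_im, I_re, I_im, ofReal_re,
      ofReal_im, one_re, one_im, zero_re, zero_im, dt, normSq_apply, re_ofNat, im_ofNat, conj_re, conj_im]
    try ring
  obtain ⟨o_H3, e_o_H3_d⟩ : ∃ q : ℝ, q = H3 := ⟨_, rfl⟩
  have a_o_H3 : H3 = H3 := by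
    rfl
  have e_o_H3_v : v373 = o_H3 := by
    rw [e_o_H3_d, a_o_H3]
    simp only [e_H3_v, mul_re, mul_im, add_re, add_im, sub_re, sub_im, neg_re, neg_im, I_re, I_im, ofReal_re,
      ofReal_im, one_re, one_im, zero_re, zero_im, dt, normSq_apply, re_ofNat, im_ofNat, conj_re, conj_im]
    try ring
  refine OutEq_of h ?_
  refine ⟨e_o_E3_v.trans ?_, e_o_G3_v.trans ?_, e_o_H3_v.trans ?_, trivial⟩
  all_goals
    subst o_H3 o_G3 o_E3 H3 w204 w201 w197 w192 w186 w179 w171 w162 G3 w159 w156 w152 w147 w141 w134 w126 w117 E3 w114 w111 w107 w102 w96 w89 w81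
    rfl

theorem pH1_val_s4 (β : ℕ → ℝ) (r s : ℝ) (st0 : List ℝ)
    (v0 : ℝ) (h0 : v0 = r) (v1 : ℝ) (h1 : v1 = s) (v2 : ℝ) (v3 : ℝ) (v4 : ℝ) (v5 : ℝ) (v6 : ℝ)
    (v7 : ℝ) (v8 : ℝ) (v9 : ℝ) (v10 : ℝ) (v11 : ℝ) (v12 : ℝ) (v13 : ℝ) (v14 : ℝ) (v15 : ℝ)
    (v16 : ℝ) (v17 : ℝ) (v18 : ℝ) (v19 : ℝ) (v20 : ℝ) (v21 : ℝ) (v22 : ℝ) (v23 : ℝ) (w81 : ℝ)
    (e_w81_d : w81 = hr β r 81 8) (v24 : ℝ) (v25 : ℝ) (v26 : ℝ) (v27 : ℝ) (v28 : ℝ) (v29 : ℝ)
    (v30 : ℝ) (v31 : ℝ) (v32 : ℝ) (v33 : ℝ) (v34 : ℝ) (v35 : ℝ) (v36 : ℝ) (v37 : ℝ) (v38 : ℝ)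
    (v39 : ℝ) (v40 : ℝ) (v41 : ℝ) (v42 : ℝ) (w89 : ℝ) (e_w89_d : w89 = hr β r 89 7) (v43 : ℝ)
    (v44 : ℝ) (v45 : ℝ) (v46 : ℝ) (v47 : ℝ) (v48 : ℝ) (v49 : ℝ) (v50 : ℝ) (v51 : ℝ) (v52 : ℝ)
    (v53 : ℝ) (v54 : ℝ) (v55 : ℝ) (v56 : ℝ) (v57 : ℝ) (v58 : ℝ) (w96 : ℝ)
    (e_w96_d : w96 = hr β r 96 6) (v59 : ℝ) (v60 : ℝ) (v61 : ℝ) (v62 : ℝ) (v63 : ℝ) (v64 : ℝ)
    (v65 : ℝ) (v66 : ℝ) (v67 : ℝ) (v68 : ℝ) (v69 : ℝ) (v70 : ℝ) (v71 : ℝ) (w102 : ℝ)
    (e_w102_d : w102 = hr β r 102 5) (v72 : ℝ) (v73 : ℝ) (v74 : ℝ) (v75 : ℝ) (v76 : ℝ) (v77 : ℝ)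
    (v78 : ℝ) (v79 : ℝ) (v80 : ℝ) (v81 : ℝ) (w107 : ℝ) (e_w107_d : w107 = hr β r 107 4) (v82 : ℝ)
    (v83 : ℝ) (v84 : ℝ) (v85 : ℝ) (v86 : ℝ) (v87 : ℝ) (v88 : ℝ) (w111 : ℝ)
    (e_w111_d : w111 = hr β r 111 3) (v89 : ℝ) (v90 : ℝ) (v91 : ℝ) (v92 : ℝ) (w114 : ℝ)
    (e_w114_d : w114 = hr β r 114 2) (v93 : ℝ) (v94 : ℝ) (v95 : ℝ) (v96 : ℝ) (v97 : ℝ) (v98 : ℝ)
    (v99 : ℝ) (v100 : ℝ) (v101 : ℝ) (v102 : ℝ) (v103 : ℝ) (v104 : ℝ) (v105 : ℝ) (v106 : ℝ)
    (v107 : ℝ) (E3 : ℝ) (e_E3_d : E3 = hr2 β r s 81 7) (e_E3_v : v107 = E3) (v108 : ℝ) (v109 : ℝ)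
    (v110 : ℝ) (v111 : ℝ) (v112 : ℝ) (v113 : ℝ) (v114 : ℝ) (v115 : ℝ) (v116 : ℝ) (v117 : ℝ)
    (v118 : ℝ) (v119 : ℝ) (v120 : ℝ) (v121 : ℝ) (v122 : ℝ) (v123 : ℝ) (v124 : ℝ) (v125 : ℝ)
    (v126 : ℝ) (v127 : ℝ) (v128 : ℝ) (v129 : ℝ) (v130 : ℝ) (v131 : ℝ) (v132 : ℝ) (w117 : ℝ)
    (e_w117_d : w117 = hr β r 117 9) (e_w117_v : v132 = w117) (v133 : ℝ) (v134 : ℝ) (v135 : ℝ)
    (v136 : ℝ) (v137 : ℝ) (v138 : ℝ) (v139 : ℝ) (v140 : ℝ) (v141 : ℝ) (v142 : ℝ) (v143 : ℝ)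
    (v144 : ℝ) (v145 : ℝ) (v146 : ℝ) (v147 : ℝ) (v148 : ℝ) (v149 : ℝ) (v150 : ℝ) (v151 : ℝ)
    (v152 : ℝ) (v153 : ℝ) (v154 : ℝ) (w126 : ℝ) (e_w126_d : w126 = hr β r 126 8)
    (e_w126_v : v154 = w126) (v155 : ℝ) (v156 : ℝ) (v157 : ℝ) (v158 : ℝ) (v159 : ℝ) (v160 : ℝ)
    (v161 : ℝ) (v162 : ℝ) (v163 : ℝ) (v164 : ℝ) (v165 : ℝ) (v166 : ℝ) (v167 : ℝ) (v168 : ℝ)
    (v169 : ℝ) (v170 : ℝ) (v171 : ℝ) (v172 : ℝ) (v173 : ℝ) (w134 : ℝ)
    (e_w134_d : w134 = hr β r 134 7) (e_w134_v : v173 = w134) (v174 : ℝ) (v175 : ℝ) (v176 : ℝ)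
    (v177 : ℝ) (v178 : ℝ) (v179 : ℝ) (v180 : ℝ) (v181 : ℝ) (v182 : ℝ) (v183 : ℝ) (v184 : ℝ)
    (v185 : ℝ) (v186 : ℝ) (v187 : ℝ) (v188 : ℝ) (v189 : ℝ) (w141 : ℝ)
    (e_w141_d : w141 = hr β r 141 6) (e_w141_v : v189 = w141) (v190 : ℝ) (v191 : ℝ) (v192 : ℝ)
    (v193 : ℝ) (v194 : ℝ) (v195 : ℝ) (v196 : ℝ) (v197 : ℝ) (v198 : ℝ) (v199 : ℝ) (v200 : ℝ)
    (v201 : ℝ) (v202 : ℝ) (w147 : ℝ) (e_w147_d : w147 = hr β r 147 5) (e_w147_v : v202 = w147)
    (v203 : ℝ) (v204 : ℝ) (v205 : ℝ) (v206 : ℝ) (v207 : ℝ) (v208 : ℝ) (v209 : ℝ) (v210 : ℝ)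
    (v211 : ℝ) (v212 : ℝ) (w152 : ℝ) (e_w152_d : w152 = hr β r 152 4) (e_w152_v : v212 = w152)
    (v213 : ℝ) (v214 : ℝ) (v215 : ℝ) (v216 : ℝ) (v217 : ℝ) (v218 : ℝ) (v219 : ℝ) (w156 : ℝ)
    (e_w156_d : w156 = hr β r 156 3) (e_w156_v : v219 = w156) (v220 : ℝ) (v221 : ℝ) (v222 : ℝ)
    (v223 : ℝ) (w159 : ℝ) (e_w159_d : w159 = hr β r 159 2) (e_w159_v : v223 = w159) (v224 : ℝ)
    (h224 : v224 = β 161) (v225 : ℝ) (h225 : v225 = v1 * v224) (v226 : ℝ)
    (h226 : v226 = v223 + v225)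
    (h : TrE (realAlg β r s)
    [.mul 225 0, .add 8 0, .mul 227 0, .add 17 0, .mul 229 0, .add 29 0, .mul 231 0, .add 44 0,
    .mul 233 0, .add 62 0, .mul 235 0, .add 83 0, .mul 237 0, .add 107 0, .base 170, .base 169,
    .mul 242 1, .add 1 0, .base 168, .mul 245 1, .add 1 0, .base 167, .mul 248 1, .add 1 0,
    .base 166, .mul 251 1, .add 1 0, .base 165, .mul 254 1, .add 1 0, .base 164, .mul 257 1,
    .add 1 0, .base 163, .mul 260 1, .add 1 0, .base 162, .mul 263 1, .add 1 0, .base 178,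
    .base 177, .mul 267 1, .add 1 0, .base 176, .mul 270 1, .add 1 0, .base 175, .mul 273 1,
    .add 1 0, .base 174, .mul 276 1, .add 1 0, .base 173, .mul 279 1, .add 1 0, .base 172,
    .mul 282 1, .add 1 0, .base 171, .mul 285 1, .add 1 0, .base 185, .base 184, .mul 289 1,
    .add 1 0, .base 183, .mul 292 1, .add 1 0, .base 182, .mul 295 1, .add 1 0, .base 181,
    .mul 298 1, .add 1 0, .base 180, .mul 301 1, .add 1 0, .base 179, .mul 304 1, .add 1 0,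
    .base 191, .base 190, .mul 308 1, .add 1 0, .base 189, .mul 311 1, .add 1 0, .base 188,
    .mul 314 1, .add 1 0, .base 187, .mul 317 1, .add 1 0, .base 186, .mul 320 1, .add 1 0,
    .base 196, .base 195, .mul 324 1, .add 1 0, .base 194, .mul 327 1, .add 1 0, .base 193,
    .mul 330 1, .add 1 0, .base 192, .mul 333 1, .add 1 0, .base 200, .base 199, .mul 337 1,
    .add 1 0, .base 198, .mul 340 1, .add 1 0, .base 197, .mul 343 1, .add 1 0, .base 203,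
    .base 202, .mul 347 1, .add 1 0, .base 201, .mul 350 1, .add 1 0, .base 205, .base 204,
    .mul 354 1, .add 1 0, .base 206, .mul 356 0, .add 2 0, .mul 358 0, .add 8 0, .mul 360 0,
    .add 17 0, .mul 362 0, .add 29 0, .mul 364 0, .add 44 0, .mul 366 0, .add 62 0, .mul 368 0,
    .add 83 0, .mul 370 0, .add 107 0]
    (v226 :: v225 :: v224 :: v223 :: v222 :: v221 :: v220 :: v219 :: v218 :: v217 :: v216 :: v215
    :: v214 :: v213 :: v212 :: v211 :: v210 :: v209 :: v208 :: v207 :: v206 :: v205 :: v204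
    :: v203 :: v202 :: v201 :: v200 :: v199 :: v198 :: v197 :: v196 :: v195 :: v194 :: v193
    :: v192 :: v191 :: v190 :: v189 :: v188 :: v187 :: v186 :: v185 :: v184 :: v183 :: v182
    :: v181 :: v180 :: v179 :: v178 :: v177 :: v176 :: v175 :: v174 :: v173 :: v172 :: v171
    :: v170 :: v169 :: v168 :: v167 :: v166 :: v165 :: v164 :: v163 :: v162 :: v161 :: v160
    :: v159 :: v158 :: v157 :: v156 :: v155 :: v154 :: v153 :: v152 :: v151 :: v150 :: v149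
    :: v148 :: v147 :: v146 :: v145 :: v144 :: v143 :: v142 :: v141 :: v140 :: v139 :: v138
    :: v137 :: v136 :: v135 :: v134 :: v133 :: v132 :: v131 :: v130 :: v129 :: v128 :: v127
    :: v126 :: v125 :: v124 :: v123 :: v122 :: v121 :: v120 :: v119 :: v118 :: v117 :: v116
    :: v115 :: v114 :: v113 :: v112 :: v111 :: v110 :: v109 :: v108 :: v107 :: v106 :: v105
    :: v104 :: v103 :: v102 :: v101 :: v100 :: v99 :: v98 :: v97 :: v96 :: v95 :: v94 :: v93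
    :: v92 :: v91 :: v90 :: v89 :: v88 :: v87 :: v86 :: v85 :: v84 :: v83 :: v82 :: v81 :: v80
    :: v79 :: v78 :: v77 :: v76 :: v75 :: v74 :: v73 :: v72 :: v71 :: v70 :: v69 :: v68 :: v67
    :: v66 :: v65 :: v64 :: v63 :: v62 :: v61 :: v60 :: v59 :: v58 :: v57 :: v56 :: v55 :: v54
    :: v53 :: v52 :: v51 :: v50 :: v49 :: v48 :: v47 :: v46 :: v45 :: v44 :: v43 :: v42 :: v41
    :: v40 :: v39 :: v38 :: v37 :: v36 :: v35 :: v34 :: v33 :: v32 :: v31 :: v30 :: v29 :: v28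
    :: v27 :: v26 :: v25 :: v24 :: v23 :: v22 :: v21 :: v20 :: v19 :: v18 :: v17 :: v16 :: v15
    :: v14 :: v13 :: v12 :: v11 :: v10 :: v9 :: v8 :: v7 :: v6 :: v5 :: v4 :: v3 :: v2 :: v1
    :: v0 :: st0)
    (pH1_valQ β r s st0)) :
    OutEq (run (realAlg β r s) pH1 st0) pH1_out
      [hr2 β r s 81 7, hr2 β r s 117 8, hr2 β r s 162 8] := by
  obtain ⟨v227, h227, h⟩ := h
  change v227 = v1 * v226 at h227
  obtain ⟨v228, h228, h⟩ := h
  change v228 = v219 + v227 at h228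
  obtain ⟨v229, h229, h⟩ := h
  change v229 = v1 * v228 at h229
  obtain ⟨v230, h230, h⟩ := h
  change v230 = v212 + v229 at h230
  obtain ⟨v231, h231, h⟩ := h
  change v231 = v1 * v230 at h231
  obtain ⟨v232, h232, h⟩ := h
  change v232 = v202 + v231 at h232
  obtain ⟨v233, h233, h⟩ := h
  change v233 = v1 * v232 at h233
  obtain ⟨v234, h234, h⟩ := h
  change v234 = v189 + v233 at h234
  obtain ⟨v235, h235, h⟩ := h
  change v235 = v1 * v234 at h235
  obtain ⟨v236, h236, h⟩ := h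
  change v236 = v173 + v235 at h236
  obtain ⟨v237, h237, h⟩ := h
  change v237 = v1 * v236 at h237
  obtain ⟨v238, h238, h⟩ := h
  change v238 = v154 + v237 at h238
  obtain ⟨v239, h239, h⟩ := h
  change v239 = v1 * v238 at h239
  obtain ⟨v240, h240, h⟩ := h
  change v240 = v132 + v239 at h240
  obtain ⟨G3, e_G3_d⟩ : ∃ q : ℝ, q = hr2 β r s 117 8 := ⟨_, rfl⟩
  have a_G3 : hr2 β r s 117 8 = w117 + s * (w126 + s * (w134 + s * (w141 + s * (w147 + s * (w152 + s * (w156 + s * (w159 + s * (β 161)))))))) := by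
    simp only [hr2]; rw [e_w117_d, e_w126_d, e_w134_d, e_w141_d, e_w147_d, e_w152_d, e_w156_d, e_w159_d]
  have e_G3_v : v240 = G3 := by
    rw [e_G3_d, a_G3]
    simp only [h240, h239, h238, h237, h236, h235, h234, h233, h232, h231, h230, h229, h228, h227, h226, h225, h224, h1, e_w159_v, e_w156_v, e_w152_v, e_w147_v, e_w141_v, e_w134_v, e_w126_v, e_w117_v, mul_re, mul_im, add_re, add_im, sub_re, sub_im, neg_re, neg_im, I_re, I_im, ofReal_re,
      ofReal_im, one_re, one_im, zero_re, zero_im, dt, normSq_apply, re_ofNat, im_ofNat, conj_re, conj_im]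
    try ring
  obtain ⟨v241, h241, h⟩ := h
  change v241 = β 170 at h241
  obtain ⟨v242, h242, h⟩ := h
  change v242 = β 169 at h242
  obtain ⟨v243, h243, h⟩ := h
  change v243 = v0 * v241 at h243
  obtain ⟨v244, h244, h⟩ := h
  change v244 = v242 + v243 at h244
  obtain ⟨v245, h245, h⟩ := h
  change v245 = β 168 at h245
  obtain ⟨v246, h246, h⟩ := h
  change v246 = v0 * v244 at h246
  obtain ⟨v247, h247, h⟩ := h
  change v247 = v245 + v246 at h247
  obtain ⟨v248, h248, h⟩ := h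
  change v248 = β 167 at h248
  obtain ⟨v249, h249, h⟩ := h
  change v249 = v0 * v247 at h249
  obtain ⟨v250, h250, h⟩ := h
  change v250 = v248 + v249 at h250
  obtain ⟨v251, h251, h⟩ := h
  change v251 = β 166 at h251
  obtain ⟨v252, h252, h⟩ := h
  change v252 = v0 * v250 at h252
  obtain ⟨v253, h253, h⟩ := h
  change v253 = v251 + v252 at h253
  obtain ⟨v254, h254, h⟩ := h
  change v254 = β 165 at h254
  obtain ⟨v255, h255, h⟩ := h
  change v255 = v0 * v253 at h255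
  obtain ⟨v256, h256, h⟩ := h
  change v256 = v254 + v255 at h256
  obtain ⟨v257, h257, h⟩ := h
  change v257 = β 164 at h257
  obtain ⟨v258, h258, h⟩ := h
  change v258 = v0 * v256 at h258
  obtain ⟨v259, h259, h⟩ := h
  change v259 = v257 + v258 at h259
  obtain ⟨v260, h260, h⟩ := h
  change v260 = β 163 at h260
  obtain ⟨v261, h261, h⟩ := h
  change v261 = v0 * v259 at h261
  obtain ⟨v262, h262, h⟩ := h
  change v262 = v260 + v261 at h262
  obtain ⟨v263, h263, h⟩ := h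
  change v263 = β 162 at h263
  obtain ⟨v264, h264, h⟩ := h
  change v264 = v0 * v262 at h264
  obtain ⟨v265, h265, h⟩ := h
  change v265 = v263 + v264 at h265
  obtain ⟨w162, e_w162_d⟩ : ∃ q : ℝ, q = hr β r 162 9 := ⟨_, rfl⟩
  have a_w162 : hr β r 162 9 = β 162 + r * (β 163 + r * (β 164 + r * (β 165 + r * (β 166 + r * (β 167 + r * (β 168 + r * (β 169 + r * (β 170)))))))) := by
    simp only [hr]
  have e_w162_v : v265 = w162 := by
    rw [e_w162_d, a_w162]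
    simp only [h265, h264, h263, h262, h261, h260, h259, h258, h257, h256, h255, h254, h253, h252, h251, h250, h249, h248, h247, h246, h245, h244, h243, h242, h241, h0, mul_re, mul_im, add_re, add_im, sub_re, sub_im, neg_re, neg_im, I_re, I_im, ofReal_re,
      ofReal_im, one_re, one_im, zero_re, zero_im, dt, normSq_apply, re_ofNat, im_ofNat, conj_re, conj_im]
    try ring
  obtain ⟨v266, h266, h⟩ := h
  change v266 = β 178 at h266
  obtain ⟨v267, h267, h⟩ := h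
  change v267 = β 177 at h267
  obtain ⟨v268, h268, h⟩ := h
  change v268 = v0 * v266 at h268
  obtain ⟨v269, h269, h⟩ := h
  change v269 = v267 + v268 at h269
  obtain ⟨v270, h270, h⟩ := h
  change v270 = β 176 at h270
  obtain ⟨v271, h271, h⟩ := h
  change v271 = v0 * v269 at h271
  obtain ⟨v272, h272, h⟩ := h
  change v272 = v270 + v271 at h272
  obtain ⟨v273, h273, h⟩ := h
  change v273 = β 175 at h273
  obtain ⟨v274, h274, h⟩ := h
  change v274 = v0 * v272 at h274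
  obtain ⟨v275, h275, h⟩ := h
  change v275 = v273 + v274 at h275
  obtain ⟨v276, h276, h⟩ := h
  change v276 = β 174 at h276
  obtain ⟨v277, h277, h⟩ := h
  change v277 = v0 * v275 at h277
  obtain ⟨v278, h278, h⟩ := h
  change v278 = v276 + v277 at h278
  obtain ⟨v279, h279, h⟩ := h
  change v279 = β 173 at h279
  obtain ⟨v280, h280, h⟩ := h
  change v280 = v0 * v278 at h280
  obtain ⟨v281, h281, h⟩ := h
  change v281 = v279 + v280 at h281
  obtain ⟨v282, h282, h⟩ := h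
  change v282 = β 172 at h282
  obtain ⟨v283, h283, h⟩ := h
  change v283 = v0 * v281 at h283
  obtain ⟨v284, h284, h⟩ := h
  change v284 = v282 + v283 at h284
  obtain ⟨v285, h285, h⟩ := h
  change v285 = β 171 at h285
  obtain ⟨v286, h286, h⟩ := h
  change v286 = v0 * v284 at h286
  obtain ⟨v287, h287, h⟩ := h
  change v287 = v285 + v286 at h287
  obtain ⟨w171, e_w171_d⟩ : ∃ q : ℝ, q = hr β r 171 8 := ⟨_, rfl⟩
  have a_w171 : hr β r 171 8 = β 171 + r * (β 172 + r * (β 173 + r * (β 174 + r * (β 175 + r * (β 176 + r * (β 177 + r * (β 178))))))) := by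
    simp only [hr]
  have e_w171_v : v287 = w171 := by
    rw [e_w171_d, a_w171]
    simp only [h287, h286, h285, h284, h283, h282, h281, h280, h279, h278, h277, h276, h275, h274, h273, h272, h271, h270, h269, h268, h267, h266, h0, mul_re, mul_im, add_re, add_im, sub_re, sub_im, neg_re, neg_im, I_re, I_im, ofReal_re,
      ofReal_im, one_re, one_im, zero_re, zero_im, dt, normSq_apply, re_ofNat, im_ofNat, conj_re, conj_im]
    try ring
  obtain ⟨v288, h288, h⟩ := h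
  change v288 = β 185 at h288
  obtain ⟨v289, h289, h⟩ := h
  change v289 = β 184 at h289
  obtain ⟨v290, h290, h⟩ := h
  change v290 = v0 * v288 at h290
  obtain ⟨v291, h291, h⟩ := h
  change v291 = v289 + v290 at h291
  obtain ⟨v292, h292, h⟩ := h
  change v292 = β 183 at h292
  obtain ⟨v293, h293, h⟩ := h
  change v293 = v0 * v291 at h293
  obtain ⟨v294, h294, h⟩ := h
  change v294 = v292 + v293 at h294
  obtain ⟨v295, h295, h⟩ := h
  change v295 = β 182 at h295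
  obtain ⟨v296, h296, h⟩ := h
  change v296 = v0 * v294 at h296
  obtain ⟨v297, h297, h⟩ := h
  change v297 = v295 + v296 at h297
  obtain ⟨v298, h298, h⟩ := h
  change v298 = β 181 at h298
  obtain ⟨v299, h299, h⟩ := h
  change v299 = v0 * v297 at h299
  obtain ⟨v300, h300, h⟩ := h
  change v300 = v298 + v299 at h300
  obtain ⟨v301, h301, h⟩ := h
  change v301 = β 180 at h301
  obtain ⟨v302, h302, h⟩ := h
  change v302 = v0 * v300 at h302
  obtain ⟨v303, h303, h⟩ := h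
  change v303 = v301 + v302 at h303
  obtain ⟨v304, h304, h⟩ := h
  change v304 = β 179 at h304
  obtain ⟨v305, h305, h⟩ := h
  change v305 = v0 * v303 at h305
  exact pH1_val_s5
    β r s st0 v0 h0 v1 h1 v2 v3 v4 v5 v6 v7 v8 v9 v10 v11 v12 v13 v14 v15 v16 v17 v18 v19 v20 v21
    v22 v23 w81 e_w81_d v24 v25 v26 v27 v28 v29 v30 v31 v32 v33 v34 v35 v36 v37 v38 v39 v40 v41
    v42 w89 e_w89_d v43 v44 v45 v46 v47 v48 v49 v50 v51 v52 v53 v54 v55 v56 v57 v58 w96 e_w96_d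
    v59 v60 v61 v62 v63 v64 v65 v66 v67 v68 v69 v70 v71 w102 e_w102_d v72 v73 v74 v75 v76 v77 v78
    v79 v80 v81 w107 e_w107_d v82 v83 v84 v85 v86 v87 v88 w111 e_w111_d v89 v90 v91 v92 w114
    e_w114_d v93 v94 v95 v96 v97 v98 v99 v100 v101 v102 v103 v104 v105 v106 v107 E3 e_E3_d e_E3_v
    v108 v109 v110 v111 v112 v113 v114 v115 v116 v117 v118 v119 v120 v121 v122 v123 v124 v125
    v126 v127 v128 v129 v130 v131 v132 w117 e_w117_d v133 v134 v135 v136 v137 v138 v139 v140 v141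
    v142 v143 v144 v145 v146 v147 v148 v149 v150 v151 v152 v153 v154 w126 e_w126_d v155 v156 v157
    v158 v159 v160 v161 v162 v163 v164 v165 v166 v167 v168 v169 v170 v171 v172 v173 w134 e_w134_d
    v174 v175 v176 v177 v178 v179 v180 v181 v182 v183 v184 v185 v186 v187 v188 v189 w141 e_w141_d
    v190 v191 v192 v193 v194 v195 v196 v197 v198 v199 v200 v201 v202 w147 e_w147_d v203 v204 v205
    v206 v207 v208 v209 v210 v211 v212 w152 e_w152_d v213 v214 v215 v216 v217 v218 v219 w156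
    e_w156_d v220 v221 v222 v223 w159 e_w159_d v224 v225 v226 v227 v228 v229 v230 v231 v232 v233
    v234 v235 v236 v237 v238 v239 v240 G3 e_G3_d e_G3_v v241 v242 v243 v244 v245 v246 v247 v248
    v249 v250 v251 v252 v253 v254 v255 v256 v257 v258 v259 v260 v261 v262 v263 v264 v265 w162
    e_w162_d e_w162_v v266 v267 v268 v269 v270 v271 v272 v273 v274 v275 v276 v277 v278 v279 v280
    v281 v282 v283 v284 v285 v286 v287 w171 e_w171_d e_w171_v v288 h288 v289 h289 v290 h290 v291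
    h291 v292 h292 v293 h293 v294 h294 v295 h295 v296 h296 v297 h297 v298 h298 v299 h299 v300
    h300 v301 h301 v302 h302 v303 h303 v304 h304 v305 h305 h

theorem pH1_val_s3 (β : ℕ → ℝ) (r s : ℝ) (st0 : List ℝ)
    (v0 : ℝ) (h0 : v0 = r) (v1 : ℝ) (h1 : v1 = s) (v2 : ℝ) (v3 : ℝ) (v4 : ℝ) (v5 : ℝ) (v6 : ℝ)
    (v7 : ℝ) (v8 : ℝ) (v9 : ℝ) (v10 : ℝ) (v11 : ℝ) (v12 : ℝ) (v13 : ℝ) (v14 : ℝ) (v15 : ℝ)
    (v16 : ℝ) (v17 : ℝ) (v18 : ℝ) (v19 : ℝ) (v20 : ℝ) (v21 : ℝ) (v22 : ℝ) (v23 : ℝ) (w81 : ℝ)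
    (e_w81_d : w81 = hr β r 81 8) (v24 : ℝ) (v25 : ℝ) (v26 : ℝ) (v27 : ℝ) (v28 : ℝ) (v29 : ℝ)
    (v30 : ℝ) (v31 : ℝ) (v32 : ℝ) (v33 : ℝ) (v34 : ℝ) (v35 : ℝ) (v36 : ℝ) (v37 : ℝ) (v38 : ℝ)
    (v39 : ℝ) (v40 : ℝ) (v41 : ℝ) (v42 : ℝ) (w89 : ℝ) (e_w89_d : w89 = hr β r 89 7) (v43 : ℝ)
    (v44 : ℝ) (v45 : ℝ) (v46 : ℝ) (v47 : ℝ) (v48 : ℝ) (v49 : ℝ) (v50 : ℝ) (v51 : ℝ) (v52 : ℝ)
    (v53 : ℝ) (v54 : ℝ) (v55 : ℝ) (v56 : ℝ) (v57 : ℝ) (v58 : ℝ) (w96 : ℝ)
    (e_w96_d : w96 = hr β r 96 6) (v59 : ℝ) (v60 : ℝ) (v61 : ℝ) (v62 : ℝ) (v63 : ℝ) (v64 : ℝ)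
    (v65 : ℝ) (v66 : ℝ) (v67 : ℝ) (v68 : ℝ) (v69 : ℝ) (v70 : ℝ) (v71 : ℝ) (w102 : ℝ)
    (e_w102_d : w102 = hr β r 102 5) (v72 : ℝ) (v73 : ℝ) (v74 : ℝ) (v75 : ℝ) (v76 : ℝ) (v77 : ℝ)
    (v78 : ℝ) (v79 : ℝ) (v80 : ℝ) (v81 : ℝ) (w107 : ℝ) (e_w107_d : w107 = hr β r 107 4) (v82 : ℝ)
    (v83 : ℝ) (v84 : ℝ) (v85 : ℝ) (v86 : ℝ) (v87 : ℝ) (v88 : ℝ) (w111 : ℝ)
    (e_w111_d : w111 = hr β r 111 3) (v89 : ℝ) (v90 : ℝ) (v91 : ℝ) (v92 : ℝ) (w114 : ℝ)
    (e_w114_d : w114 = hr β r 114 2) (v93 : ℝ) (v94 : ℝ) (v95 : ℝ) (v96 : ℝ) (v97 : ℝ) (v98 : ℝ)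
    (v99 : ℝ) (v100 : ℝ) (v101 : ℝ) (v102 : ℝ) (v103 : ℝ) (v104 : ℝ) (v105 : ℝ) (v106 : ℝ)
    (v107 : ℝ) (E3 : ℝ) (e_E3_d : E3 = hr2 β r s 81 7) (e_E3_v : v107 = E3) (v108 : ℝ) (v109 : ℝ)
    (v110 : ℝ) (v111 : ℝ) (v112 : ℝ) (v113 : ℝ) (v114 : ℝ) (v115 : ℝ) (v116 : ℝ) (v117 : ℝ)
    (v118 : ℝ) (v119 : ℝ) (v120 : ℝ) (v121 : ℝ) (v122 : ℝ) (v123 : ℝ) (v124 : ℝ) (v125 : ℝ)
    (v126 : ℝ) (v127 : ℝ) (v128 : ℝ) (v129 : ℝ) (v130 : ℝ) (v131 : ℝ) (v132 : ℝ) (w117 : ℝ)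
    (e_w117_d : w117 = hr β r 117 9) (e_w117_v : v132 = w117) (v133 : ℝ) (h133 : v133 = β 133)
    (v134 : ℝ) (h134 : v134 = β 132) (v135 : ℝ) (h135 : v135 = v0 * v133) (v136 : ℝ)
    (h136 : v136 = v134 + v135) (v137 : ℝ) (h137 : v137 = β 131) (v138 : ℝ)
    (h138 : v138 = v0 * v136) (v139 : ℝ) (h139 : v139 = v137 + v138) (v140 : ℝ)
    (h140 : v140 = β 130) (v141 : ℝ) (h141 : v141 = v0 * v139) (v142 : ℝ)
    (h142 : v142 = v140 + v141) (v143 : ℝ) (h143 : v143 = β 129) (v144 : ℝ)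
    (h144 : v144 = v0 * v142) (v145 : ℝ) (h145 : v145 = v143 + v144) (v146 : ℝ)
    (h146 : v146 = β 128) (v147 : ℝ) (h147 : v147 = v0 * v145) (v148 : ℝ)
    (h148 : v148 = v146 + v147) (v149 : ℝ) (h149 : v149 = β 127) (v150 : ℝ)
    (h150 : v150 = v0 * v148) (v151 : ℝ) (h151 : v151 = v149 + v150) (v152 : ℝ)
    (h152 : v152 = β 126) (v153 : ℝ) (h153 : v153 = v0 * v151)
    (h : TrE (realAlg β r s)
    [.add 1 0, .base 140, .base 139, .mul 156 1, .add 1 0, .base 138, .mul 159 1, .add 1 0,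
    .base 137, .mul 162 1, .add 1 0, .base 136, .mul 165 1, .add 1 0, .base 135, .mul 168 1,
    .add 1 0, .base 134, .mul 171 1, .add 1 0, .base 146, .base 145, .mul 175 1, .add 1 0,
    .base 144, .mul 178 1, .add 1 0, .base 143, .mul 181 1, .add 1 0, .base 142, .mul 184 1,
    .add 1 0, .base 141, .mul 187 1, .add 1 0, .base 151, .base 150, .mul 191 1, .add 1 0,
    .base 149, .mul 194 1, .add 1 0, .base 148, .mul 197 1, .add 1 0, .base 147, .mul 200 1,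
    .add 1 0, .base 155, .base 154, .mul 204 1, .add 1 0, .base 153, .mul 207 1, .add 1 0,
    .base 152, .mul 210 1, .add 1 0, .base 158, .base 157, .mul 214 1, .add 1 0, .base 156,
    .mul 217 1, .add 1 0, .base 160, .base 159, .mul 221 1, .add 1 0, .base 161, .mul 223 0,
    .add 2 0, .mul 225 0, .add 8 0, .mul 227 0, .add 17 0, .mul 229 0, .add 29 0, .mul 231 0,
    .add 44 0, .mul 233 0, .add 62 0, .mul 235 0, .add 83 0, .mul 237 0, .add 107 0, .base 170,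
    .base 169, .mul 242 1, .add 1 0, .base 168, .mul 245 1, .add 1 0, .base 167, .mul 248 1,
    .add 1 0, .base 166, .mul 251 1, .add 1 0, .base 165, .mul 254 1, .add 1 0, .base 164,
    .mul 257 1, .add 1 0, .base 163, .mul 260 1, .add 1 0, .base 162, .mul 263 1, .add 1 0,
    .base 178, .base 177, .mul 267 1, .add 1 0, .base 176, .mul 270 1, .add 1 0, .base 175,
    .mul 273 1, .add 1 0, .base 174, .mul 276 1, .add 1 0, .base 173, .mul 279 1, .add 1 0,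
    .base 172, .mul 282 1, .add 1 0, .base 171, .mul 285 1, .add 1 0, .base 185, .base 184,
    .mul 289 1, .add 1 0, .base 183, .mul 292 1, .add 1 0, .base 182, .mul 295 1, .add 1 0,
    .base 181, .mul 298 1, .add 1 0, .base 180, .mul 301 1, .add 1 0, .base 179, .mul 304 1,
    .add 1 0, .base 191, .base 190, .mul 308 1, .add 1 0, .base 189, .mul 311 1, .add 1 0,
    .base 188, .mul 314 1, .add 1 0, .base 187, .mul 317 1, .add 1 0, .base 186, .mul 320 1,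
    .add 1 0, .base 196, .base 195, .mul 324 1, .add 1 0, .base 194, .mul 327 1, .add 1 0,
    .base 193, .mul 330 1, .add 1 0, .base 192, .mul 333 1, .add 1 0, .base 200, .base 199,
    .mul 337 1, .add 1 0, .base 198, .mul 340 1, .add 1 0, .base 197, .mul 343 1, .add 1 0,
    .base 203, .base 202, .mul 347 1, .add 1 0, .base 201, .mul 350 1, .add 1 0, .base 205,
    .base 204, .mul 354 1, .add 1 0, .base 206, .mul 356 0, .add 2 0, .mul 358 0, .add 8 0,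
    .mul 360 0, .add 17 0, .mul 362 0, .add 29 0, .mul 364 0, .add 44 0, .mul 366 0, .add 62 0,
    .mul 368 0, .add 83 0, .mul 370 0, .add 107 0]
    (v153 :: v152 :: v151 :: v150 :: v149 :: v148 :: v147 :: v146 :: v145 :: v144 :: v143 :: v142
    :: v141 :: v140 :: v139 :: v138 :: v137 :: v136 :: v135 :: v134 :: v133 :: v132 :: v131
    :: v130 :: v129 :: v128 :: v127 :: v126 :: v125 :: v124 :: v123 :: v122 :: v121 :: v120
    :: v119 :: v118 :: v117 :: v116 :: v115 :: v114 :: v113 :: v112 :: v111 :: v110 :: v109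
    :: v108 :: v107 :: v106 :: v105 :: v104 :: v103 :: v102 :: v101 :: v100 :: v99 :: v98 :: v97
    :: v96 :: v95 :: v94 :: v93 :: v92 :: v91 :: v90 :: v89 :: v88 :: v87 :: v86 :: v85 :: v84
    :: v83 :: v82 :: v81 :: v80 :: v79 :: v78 :: v77 :: v76 :: v75 :: v74 :: v73 :: v72 :: v71
    :: v70 :: v69 :: v68 :: v67 :: v66 :: v65 :: v64 :: v63 :: v62 :: v61 :: v60 :: v59 :: v58
    :: v57 :: v56 :: v55 :: v54 :: v53 :: v52 :: v51 :: v50 :: v49 :: v48 :: v47 :: v46 :: v45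
    :: v44 :: v43 :: v42 :: v41 :: v40 :: v39 :: v38 :: v37 :: v36 :: v35 :: v34 :: v33 :: v32
    :: v31 :: v30 :: v29 :: v28 :: v27 :: v26 :: v25 :: v24 :: v23 :: v22 :: v21 :: v20 :: v19
    :: v18 :: v17 :: v16 :: v15 :: v14 :: v13 :: v12 :: v11 :: v10 :: v9 :: v8 :: v7 :: v6 :: v5
    :: v4 :: v3 :: v2 :: v1 :: v0 :: st0)
    (pH1_valQ β r s st0)) :
    OutEq (run (realAlg β r s) pH1 st0) pH1_out
      [hr2 β r s 81 7, hr2 β r s 117 8, hr2 β r s 162 8] := by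
  obtain ⟨v154, h154, h⟩ := h
  change v154 = v152 + v153 at h154
  obtain ⟨w126, e_w126_d⟩ : ∃ q : ℝ, q = hr β r 126 8 := ⟨_, rfl⟩
  have a_w126 : hr β r 126 8 = β 126 + r * (β 127 + r * (β 128 + r * (β 129 + r * (β 130 + r * (β 131 + r * (β 132 + r * (β 133))))))) := by
    simp only [hr]
  have e_w126_v : v154 = w126 := by
    rw [e_w126_d, a_w126]
    simp only [h154, h153, h152, h151, h150, h149, h148, h147, h146, h145, h144, h143, h142, h141, h140, h139, h138, h137, h136, h135, h134, h133, h0, mul_re, mul_im, add_re, add_im, sub_re, sub_im, neg_re, neg_im, I_re, I_im, ofReal_re,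
      ofReal_im, one_re, one_im, zero_re, zero_im, dt, normSq_apply, re_ofNat, im_ofNat, conj_re, conj_im]
    try ring
  obtain ⟨v155, h155, h⟩ := h
  change v155 = β 140 at h155
  obtain ⟨v156, h156, h⟩ := h
  change v156 = β 139 at h156
  obtain ⟨v157, h157, h⟩ := h
  change v157 = v0 * v155 at h157
  obtain ⟨v158, h158, h⟩ := h
  change v158 = v156 + v157 at h158
  obtain ⟨v159, h159, h⟩ := h
  change v159 = β 138 at h159
  obtain ⟨v160, h160, h⟩ := h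
  change v160 = v0 * v158 at h160
  obtain ⟨v161, h161, h⟩ := h
  change v161 = v159 + v160 at h161
  obtain ⟨v162, h162, h⟩ := h
  change v162 = β 137 at h162
  obtain ⟨v163, h163, h⟩ := h
  change v163 = v0 * v161 at h163
  obtain ⟨v164, h164, h⟩ := h
  change v164 = v162 + v163 at h164
  obtain ⟨v165, h165, h⟩ := h
  change v165 = β 136 at h165
  obtain ⟨v166, h166, h⟩ := h
  change v166 = v0 * v164 at h166
  obtain ⟨v167, h167, h⟩ := h
  change v167 = v165 + v166 at h167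
  obtain ⟨v168, h168, h⟩ := h
  change v168 = β 135 at h168
  obtain ⟨v169, h169, h⟩ := h
  change v169 = v0 * v167 at h169
  obtain ⟨v170, h170, h⟩ := h
  change v170 = v168 + v169 at h170
  obtain ⟨v171, h171, h⟩ := h
  change v171 = β 134 at h171
  obtain ⟨v172, h172, h⟩ := h
  change v172 = v0 * v170 at h172
  obtain ⟨v173, h173, h⟩ := h
  change v173 = v171 + v172 at h173
  obtain ⟨w134, e_w134_d⟩ : ∃ q : ℝ, q = hr β r 134 7 := ⟨_, rfl⟩
  have a_w134 : hr β r 134 7 = β 134 + r * (β 135 + r * (β 136 + r * (β 137 + r * (β 138 + r * (β 139 + r * (β 140)))))) := by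
    simp only [hr]
  have e_w134_v : v173 = w134 := by
    rw [e_w134_d, a_w134]
    simp only [h173, h172, h171, h170, h169, h168, h167, h166, h165, h164, h163, h162, h161, h160, h159, h158, h157, h156, h155, h0, mul_re, mul_im, add_re, add_im, sub_re, sub_im, neg_re, neg_im, I_re, I_im, ofReal_re,
      ofReal_im, one_re, one_im, zero_re, zero_im, dt, normSq_apply, re_ofNat, im_ofNat, conj_re, conj_im]
    try ring
  obtain ⟨v174, h174, h⟩ := h
  change v174 = β 146 at h174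
  obtain ⟨v175, h175, h⟩ := h
  change v175 = β 145 at h175
  obtain ⟨v176, h176, h⟩ := h
  change v176 = v0 * v174 at h176
  obtain ⟨v177, h177, h⟩ := h
  change v177 = v175 + v176 at h177
  obtain ⟨v178, h178, h⟩ := h
  change v178 = β 144 at h178
  obtain ⟨v179, h179, h⟩ := h
  change v179 = v0 * v177 at h179
  obtain ⟨v180, h180, h⟩ := h
  change v180 = v178 + v179 at h180
  obtain ⟨v181, h181, h⟩ := h
  change v181 = β 143 at h181
  obtain ⟨v182, h182, h⟩ := h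
  change v182 = v0 * v180 at h182
  obtain ⟨v183, h183, h⟩ := h
  change v183 = v181 + v182 at h183
  obtain ⟨v184, h184, h⟩ := h
  change v184 = β 142 at h184
  obtain ⟨v185, h185, h⟩ := h
  change v185 = v0 * v183 at h185
  obtain ⟨v186, h186, h⟩ := h
  change v186 = v184 + v185 at h186
  obtain ⟨v187, h187, h⟩ := h
  change v187 = β 141 at h187
  obtain ⟨v188, h188, h⟩ := h
  change v188 = v0 * v186 at h188
  obtain ⟨v189, h189, h⟩ := h
  change v189 = v187 + v188 at h189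
  obtain ⟨w141, e_w141_d⟩ : ∃ q : ℝ, q = hr β r 141 6 := ⟨_, rfl⟩
  have a_w141 : hr β r 141 6 = β 141 + r * (β 142 + r * (β 143 + r * (β 144 + r * (β 145 + r * (β 146))))) := by
    simp only [hr]
  have e_w141_v : v189 = w141 := by
    rw [e_w141_d, a_w141]
    simp only [h189, h188, h187, h186, h185, h184, h183, h182, h181, h180, h179, h178, h177, h176, h175, h174, h0, mul_re, mul_im, add_re, add_im, sub_re, sub_im, neg_re, neg_im, I_re, I_im, ofReal_re,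
      ofReal_im, one_re, one_im, zero_re, zero_im, dt, normSq_apply, re_ofNat, im_ofNat, conj_re, conj_im]
    try ring
  obtain ⟨v190, h190, h⟩ := h
  change v190 = β 151 at h190
  obtain ⟨v191, h191, h⟩ := h
  change v191 = β 150 at h191
  obtain ⟨v192, h192, h⟩ := h
  change v192 = v0 * v190 at h192
  obtain ⟨v193, h193, h⟩ := h
  change v193 = v191 + v192 at h193
  obtain ⟨v194, h194, h⟩ := h
  change v194 = β 149 at h194
  obtain ⟨v195, h195, h⟩ := h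
  change v195 = v0 * v193 at h195
  obtain ⟨v196, h196, h⟩ := h
  change v196 = v194 + v195 at h196
  obtain ⟨v197, h197, h⟩ := h
  change v197 = β 148 at h197
  obtain ⟨v198, h198, h⟩ := h
  change v198 = v0 * v196 at h198
  obtain ⟨v199, h199, h⟩ := h
  change v199 = v197 + v198 at h199
  obtain ⟨v200, h200, h⟩ := h
  change v200 = β 147 at h200
  obtain ⟨v201, h201, h⟩ := h
  change v201 = v0 * v199 at h201
  obtain ⟨v202, h202, h⟩ := h
  change v202 = v200 + v201 at h202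
  obtain ⟨w147, e_w147_d⟩ : ∃ q : ℝ, q = hr β r 147 5 := ⟨_, rfl⟩
  have a_w147 : hr β r 147 5 = β 147 + r * (β 148 + r * (β 149 + r * (β 150 + r * (β 151)))) := by
    simp only [hr]
  have e_w147_v : v202 = w147 := by
    rw [e_w147_d, a_w147]
    simp only [h202, h201, h200, h199, h198, h197, h196, h195, h194, h193, h192, h191, h190, h0, mul_re, mul_im, add_re, add_im, sub_re, sub_im, neg_re, neg_im, I_re, I_im, ofReal_re,
      ofReal_im, one_re, one_im, zero_re, zero_im, dt, normSq_apply, re_ofNat, im_ofNat, conj_re, conj_im]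
    try ring
  obtain ⟨v203, h203, h⟩ := h
  change v203 = β 155 at h203
  obtain ⟨v204, h204, h⟩ := h
  change v204 = β 154 at h204
  obtain ⟨v205, h205, h⟩ := h
  change v205 = v0 * v203 at h205
  obtain ⟨v206, h206, h⟩ := h
  change v206 = v204 + v205 at h206
  obtain ⟨v207, h207, h⟩ := h
  change v207 = β 153 at h207
  obtain ⟨v208, h208, h⟩ := h
  change v208 = v0 * v206 at h208
  obtain ⟨v209, h209, h⟩ := h
  change v209 = v207 + v208 at h209
  obtain ⟨v210, h210, h⟩ := h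
  change v210 = β 152 at h210
  obtain ⟨v211, h211, h⟩ := h
  change v211 = v0 * v209 at h211
  obtain ⟨v212, h212, h⟩ := h
  change v212 = v210 + v211 at h212
  obtain ⟨w152, e_w152_d⟩ : ∃ q : ℝ, q = hr β r 152 4 := ⟨_, rfl⟩
  have a_w152 : hr β r 152 4 = β 152 + r * (β 153 + r * (β 154 + r * (β 155))) := by
    simp only [hr]
  have e_w152_v : v212 = w152 := by
    rw [e_w152_d, a_w152]
    simp only [h212, h211, h210, h209, h208, h207, h206, h205, h204, h203, h0, mul_re, mul_im, add_re, add_im, sub_re, sub_im, neg_re, neg_im, I_re, I_im, ofReal_re,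
      ofReal_im, one_re, one_im, zero_re, zero_im, dt, normSq_apply, re_ofNat, im_ofNat, conj_re, conj_im]
    try ring
  obtain ⟨v213, h213, h⟩ := h
  change v213 = β 158 at h213
  obtain ⟨v214, h214, h⟩ := h
  change v214 = β 157 at h214
  obtain ⟨v215, h215, h⟩ := h
  change v215 = v0 * v213 at h215
  obtain ⟨v216, h216, h⟩ := h
  change v216 = v214 + v215 at h216
  obtain ⟨v217, h217, h⟩ := h
  change v217 = β 156 at h217
  obtain ⟨v218, h218, h⟩ := h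
  change v218 = v0 * v216 at h218
  obtain ⟨v219, h219, h⟩ := h
  change v219 = v217 + v218 at h219
  obtain ⟨w156, e_w156_d⟩ : ∃ q : ℝ, q = hr β r 156 3 := ⟨_, rfl⟩
  have a_w156 : hr β r 156 3 = β 156 + r * (β 157 + r * (β 158)) := by
    simp only [hr]
  have e_w156_v : v219 = w156 := by
    rw [e_w156_d, a_w156]
    simp only [h219, h218, h217, h216, h215, h214, h213, h0, mul_re, mul_im, add_re, add_im, sub_re, sub_im, neg_re, neg_im, I_re, I_im, ofReal_re,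
      ofReal_im, one_re, one_im, zero_re, zero_im, dt, normSq_apply, re_ofNat, im_ofNat, conj_re, conj_im]
    try ring
  obtain ⟨v220, h220, h⟩ := h
  change v220 = β 160 at h220
  obtain ⟨v221, h221, h⟩ := h
  change v221 = β 159 at h221
  obtain ⟨v222, h222, h⟩ := h
  change v222 = v0 * v220 at h222
  obtain ⟨v223, h223, h⟩ := h
  change v223 = v221 + v222 at h223
  obtain ⟨w159, e_w159_d⟩ : ∃ q : ℝ, q = hr β r 159 2 := ⟨_, rfl⟩
  have a_w159 : hr β r 159 2 = β 159 + r * (β 160) := by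
    simp only [hr]
  have e_w159_v : v223 = w159 := by
    rw [e_w159_d, a_w159]
    simp only [h223, h222, h221, h220, h0, mul_re, mul_im, add_re, add_im, sub_re, sub_im, neg_re, neg_im, I_re, I_im, ofReal_re,
      ofReal_im, one_re, one_im, zero_re, zero_im, dt, normSq_apply, re_ofNat, im_ofNat, conj_re, conj_im]
    try ring
  obtain ⟨v224, h224, h⟩ := h
  change v224 = β 161 at h224
  obtain ⟨v225, h225, h⟩ := h
  change v225 = v1 * v224 at h225
  obtain ⟨v226, h226, h⟩ := h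
  change v226 = v223 + v225 at h226
  exact pH1_val_s4
    β r s st0 v0 h0 v1 h1 v2 v3 v4 v5 v6 v7 v8 v9 v10 v11 v12 v13 v14 v15 v16 v17 v18 v19 v20 v21
    v22 v23 w81 e_w81_d v24 v25 v26 v27 v28 v29 v30 v31 v32 v33 v34 v35 v36 v37 v38 v39 v40 v41
    v42 w89 e_w89_d v43 v44 v45 v46 v47 v48 v49 v50 v51 v52 v53 v54 v55 v56 v57 v58 w96 e_w96_d
    v59 v60 v61 v62 v63 v64 v65 v66 v67 v68 v69 v70 v71 w102 e_w102_d v72 v73 v74 v75 v76 v77 v78
    v79 v80 v81 w107 e_w107_d v82 v83 v84 v85 v86 v87 v88 w111 e_w111_d v89 v90 v91 v92 w114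
    e_w114_d v93 v94 v95 v96 v97 v98 v99 v100 v101 v102 v103 v104 v105 v106 v107 E3 e_E3_d e_E3_v
    v108 v109 v110 v111 v112 v113 v114 v115 v116 v117 v118 v119 v120 v121 v122 v123 v124 v125
    v126 v127 v128 v129 v130 v131 v132 w117 e_w117_d e_w117_v v133 v134 v135 v136 v137 v138 v139
    v140 v141 v142 v143 v144 v145 v146 v147 v148 v149 v150 v151 v152 v153 v154 w126 e_w126_d
    e_w126_v v155 v156 v157 v158 v159 v160 v161 v162 v163 v164 v165 v166 v167 v168 v169 v170 v171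
    v172 v173 w134 e_w134_d e_w134_v v174 v175 v176 v177 v178 v179 v180 v181 v182 v183 v184 v185
    v186 v187 v188 v189 w141 e_w141_d e_w141_v v190 v191 v192 v193 v194 v195 v196 v197 v198 v199
    v200 v201 v202 w147 e_w147_d e_w147_v v203 v204 v205 v206 v207 v208 v209 v210 v211 v212 w152
    e_w152_d e_w152_v v213 v214 v215 v216 v217 v218 v219 w156 e_w156_d e_w156_v v220 v221 v222
    v223 w159 e_w159_d e_w159_v v224 h224 v225 h225 v226 h226 h

theorem pH1_val_s2 (β : ℕ → ℝ) (r s : ℝ) (st0 : List ℝ)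
    (v0 : ℝ) (h0 : v0 = r) (v1 : ℝ) (h1 : v1 = s) (v2 : ℝ) (v3 : ℝ) (v4 : ℝ) (v5 : ℝ) (v6 : ℝ)
    (v7 : ℝ) (v8 : ℝ) (v9 : ℝ) (v10 : ℝ) (v11 : ℝ) (v12 : ℝ) (v13 : ℝ) (v14 : ℝ) (v15 : ℝ)
    (v16 : ℝ) (v17 : ℝ) (v18 : ℝ) (v19 : ℝ) (v20 : ℝ) (v21 : ℝ) (v22 : ℝ) (v23 : ℝ) (w81 : ℝ)
    (e_w81_d : w81 = hr β r 81 8) (e_w81_v : v23 = w81) (v24 : ℝ) (v25 : ℝ) (v26 : ℝ) (v27 : ℝ)
    (v28 : ℝ) (v29 : ℝ) (v30 : ℝ) (v31 : ℝ) (v32 : ℝ) (v33 : ℝ) (v34 : ℝ) (v35 : ℝ) (v36 : ℝ)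
    (v37 : ℝ) (v38 : ℝ) (v39 : ℝ) (v40 : ℝ) (v41 : ℝ) (v42 : ℝ) (w89 : ℝ)
    (e_w89_d : w89 = hr β r 89 7) (e_w89_v : v42 = w89) (v43 : ℝ) (v44 : ℝ) (v45 : ℝ) (v46 : ℝ)
    (v47 : ℝ) (v48 : ℝ) (v49 : ℝ) (v50 : ℝ) (v51 : ℝ) (v52 : ℝ) (v53 : ℝ) (v54 : ℝ) (v55 : ℝ)
    (v56 : ℝ) (v57 : ℝ) (v58 : ℝ) (w96 : ℝ) (e_w96_d : w96 = hr β r 96 6) (e_w96_v : v58 = w96)
    (v59 : ℝ) (v60 : ℝ) (v61 : ℝ) (v62 : ℝ) (v63 : ℝ) (v64 : ℝ) (v65 : ℝ) (v66 : ℝ) (v67 : ℝ)
    (v68 : ℝ) (v69 : ℝ) (v70 : ℝ) (v71 : ℝ) (w102 : ℝ) (e_w102_d : w102 = hr β r 102 5)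
    (e_w102_v : v71 = w102) (v72 : ℝ) (h72 : v72 = β 110) (v73 : ℝ) (h73 : v73 = β 109) (v74 : ℝ)
    (h74 : v74 = v0 * v72) (v75 : ℝ) (h75 : v75 = v73 + v74) (v76 : ℝ) (h76 : v76 = β 108)
    (h : TrE (realAlg β r s)
    [.mul 76 1, .add 1 0, .base 107, .mul 79 1, .add 1 0, .base 113, .base 112, .mul 83 1,
    .add 1 0, .base 111, .mul 86 1, .add 1 0, .base 115, .base 114, .mul 90 1, .add 1 0,
    .base 116, .mul 92 0, .add 2 0, .mul 94 0, .add 8 0, .mul 96 0, .add 17 0, .mul 98 0,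
    .add 29 0, .mul 100 0, .add 44 0, .mul 102 0, .add 62 0, .mul 104 0, .add 83 0, .base 125,
    .base 124, .mul 109 1, .add 1 0, .base 123, .mul 112 1, .add 1 0, .base 122, .mul 115 1,
    .add 1 0, .base 121, .mul 118 1, .add 1 0, .base 120, .mul 121 1, .add 1 0, .base 119,
    .mul 124 1, .add 1 0, .base 118, .mul 127 1, .add 1 0, .base 117, .mul 130 1, .add 1 0,
    .base 133, .base 132, .mul 134 1, .add 1 0, .base 131, .mul 137 1, .add 1 0, .base 130,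
    .mul 140 1, .add 1 0, .base 129, .mul 143 1, .add 1 0, .base 128, .mul 146 1, .add 1 0,
    .base 127, .mul 149 1, .add 1 0, .base 126, .mul 152 1, .add 1 0, .base 140, .base 139,
    .mul 156 1, .add 1 0, .base 138, .mul 159 1, .add 1 0, .base 137, .mul 162 1, .add 1 0,
    .base 136, .mul 165 1, .add 1 0, .base 135, .mul 168 1, .add 1 0, .base 134, .mul 171 1,
    .add 1 0, .base 146, .base 145, .mul 175 1, .add 1 0, .base 144, .mul 178 1, .add 1 0,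
    .base 143, .mul 181 1, .add 1 0, .base 142, .mul 184 1, .add 1 0, .base 141, .mul 187 1,
    .add 1 0, .base 151, .base 150, .mul 191 1, .add 1 0, .base 149, .mul 194 1, .add 1 0,
    .base 148, .mul 197 1, .add 1 0, .base 147, .mul 200 1, .add 1 0, .base 155, .base 154,
    .mul 204 1, .add 1 0, .base 153, .mul 207 1, .add 1 0, .base 152, .mul 210 1, .add 1 0,
    .base 158, .base 157, .mul 214 1, .add 1 0, .base 156, .mul 217 1, .add 1 0, .base 160,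
    .base 159, .mul 221 1, .add 1 0, .base 161, .mul 223 0, .add 2 0, .mul 225 0, .add 8 0,
    .mul 227 0, .add 17 0, .mul 229 0, .add 29 0, .mul 231 0, .add 44 0, .mul 233 0, .add 62 0,
    .mul 235 0, .add 83 0, .mul 237 0, .add 107 0, .base 170, .base 169, .mul 242 1, .add 1 0,
    .base 168, .mul 245 1, .add 1 0, .base 167, .mul 248 1, .add 1 0, .base 166, .mul 251 1,
    .add 1 0, .base 165, .mul 254 1, .add 1 0, .base 164, .mul 257 1, .add 1 0, .base 163,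
    .mul 260 1, .add 1 0, .base 162, .mul 263 1, .add 1 0, .base 178, .base 177, .mul 267 1,
    .add 1 0, .base 176, .mul 270 1, .add 1 0, .base 175, .mul 273 1, .add 1 0, .base 174,
    .mul 276 1, .add 1 0, .base 173, .mul 279 1, .add 1 0, .base 172, .mul 282 1, .add 1 0,
    .base 171, .mul 285 1, .add 1 0, .base 185, .base 184, .mul 289 1, .add 1 0, .base 183,
    .mul 292 1, .add 1 0, .base 182, .mul 295 1, .add 1 0, .base 181, .mul 298 1, .add 1 0,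
    .base 180, .mul 301 1, .add 1 0, .base 179, .mul 304 1, .add 1 0, .base 191, .base 190,
    .mul 308 1, .add 1 0, .base 189, .mul 311 1, .add 1 0, .base 188, .mul 314 1, .add 1 0,
    .base 187, .mul 317 1, .add 1 0, .base 186, .mul 320 1, .add 1 0, .base 196, .base 195,
    .mul 324 1, .add 1 0, .base 194, .mul 327 1, .add 1 0, .base 193, .mul 330 1, .add 1 0,
    .base 192, .mul 333 1, .add 1 0, .base 200, .base 199, .mul 337 1, .add 1 0, .base 198,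
    .mul 340 1, .add 1 0, .base 197, .mul 343 1, .add 1 0, .base 203, .base 202, .mul 347 1,
    .add 1 0, .base 201, .mul 350 1, .add 1 0, .base 205, .base 204, .mul 354 1, .add 1 0,
    .base 206, .mul 356 0, .add 2 0, .mul 358 0, .add 8 0, .mul 360 0, .add 17 0, .mul 362 0,
    .add 29 0, .mul 364 0, .add 44 0, .mul 366 0, .add 62 0, .mul 368 0, .add 83 0, .mul 370 0,
    .add 107 0]
    (v76 :: v75 :: v74 :: v73 :: v72 :: v71 :: v70 :: v69 :: v68 :: v67 :: v66 :: v65 :: v64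
    :: v63 :: v62 :: v61 :: v60 :: v59 :: v58 :: v57 :: v56 :: v55 :: v54 :: v53 :: v52 :: v51
    :: v50 :: v49 :: v48 :: v47 :: v46 :: v45 :: v44 :: v43 :: v42 :: v41 :: v40 :: v39 :: v38
    :: v37 :: v36 :: v35 :: v34 :: v33 :: v32 :: v31 :: v30 :: v29 :: v28 :: v27 :: v26 :: v25
    :: v24 :: v23 :: v22 :: v21 :: v20 :: v19 :: v18 :: v17 :: v16 :: v15 :: v14 :: v13 :: v12
    :: v11 :: v10 :: v9 :: v8 :: v7 :: v6 :: v5 :: v4 :: v3 :: v2 :: v1 :: v0 :: st0)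
    (pH1_valQ β r s st0)) :
    OutEq (run (realAlg β r s) pH1 st0) pH1_out
      [hr2 β r s 81 7, hr2 β r s 117 8, hr2 β r s 162 8] := by
  obtain ⟨v77, h77, h⟩ := h
  change v77 = v0 * v75 at h77
  obtain ⟨v78, h78, h⟩ := h
  change v78 = v76 + v77 at h78
  obtain ⟨v79, h79, h⟩ := h
  change v79 = β 107 at h79
  obtain ⟨v80, h80, h⟩ := h
  change v80 = v0 * v78 at h80
  obtain ⟨v81, h81, h⟩ := h
  change v81 = v79 + v80 at h81
  obtain ⟨w107, e_w107_d⟩ : ∃ q : ℝ, q = hr β r 107 4 := ⟨_, rfl⟩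
  have a_w107 : hr β r 107 4 = β 107 + r * (β 108 + r * (β 109 + r * (β 110))) := by
    simp only [hr]
  have e_w107_v : v81 = w107 := by
    rw [e_w107_d, a_w107]
    simp only [h81, h80, h79, h78, h77, h76, h75, h74, h73, h72, h0, mul_re, mul_im, add_re, add_im, sub_re, sub_im, neg_re, neg_im, I_re, I_im, ofReal_re,
      ofReal_im, one_re, one_im, zero_re, zero_im, dt, normSq_apply, re_ofNat, im_ofNat, conj_re, conj_im]
    try ring
  obtain ⟨v82, h82, h⟩ := h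
  change v82 = β 113 at h82
  obtain ⟨v83, h83, h⟩ := h
  change v83 = β 112 at h83
  obtain ⟨v84, h84, h⟩ := h
  change v84 = v0 * v82 at h84
  obtain ⟨v85, h85, h⟩ := h
  change v85 = v83 + v84 at h85
  obtain ⟨v86, h86, h⟩ := h
  change v86 = β 111 at h86
  obtain ⟨v87, h87, h⟩ := h
  change v87 = v0 * v85 at h87
  obtain ⟨v88, h88, h⟩ := h
  change v88 = v86 + v87 at h88
  obtain ⟨w111, e_w111_d⟩ : ∃ q : ℝ, q = hr β r 111 3 := ⟨_, rfl⟩
  have a_w111 : hr β r 111 3 = β 111 + r * (β 112 + r * (β 113)) := by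
    simp only [hr]
  have e_w111_v : v88 = w111 := by
    rw [e_w111_d, a_w111]
    simp only [h88, h87, h86, h85, h84, h83, h82, h0, mul_re, mul_im, add_re, add_im, sub_re, sub_im, neg_re, neg_im, I_re, I_im, ofReal_re,
      ofReal_im, one_re, one_im, zero_re, zero_im, dt, normSq_apply, re_ofNat, im_ofNat, conj_re, conj_im]
    try ring
  obtain ⟨v89, h89, h⟩ := h
  change v89 = β 115 at h89
  obtain ⟨v90, h90, h⟩ := h
  change v90 = β 114 at h90
  obtain ⟨v91, h91, h⟩ := h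
  change v91 = v0 * v89 at h91
  obtain ⟨v92, h92, h⟩ := h
  change v92 = v90 + v91 at h92
  obtain ⟨w114, e_w114_d⟩ : ∃ q : ℝ, q = hr β r 114 2 := ⟨_, rfl⟩
  have a_w114 : hr β r 114 2 = β 114 + r * (β 115) := by
    simp only [hr]
  have e_w114_v : v92 = w114 := by
    rw [e_w114_d, a_w114]
    simp only [h92, h91, h90, h89, h0, mul_re, mul_im, add_re, add_im, sub_re, sub_im, neg_re, neg_im, I_re, I_im, ofReal_re,
      ofReal_im, one_re, one_im, zero_re, zero_im, dt, normSq_apply, re_ofNat, im_ofNat, conj_re, conj_im]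
    try ring
  obtain ⟨v93, h93, h⟩ := h
  change v93 = β 116 at h93
  obtain ⟨v94, h94, h⟩ := h
  change v94 = v1 * v93 at h94
  obtain ⟨v95, h95, h⟩ := h
  change v95 = v92 + v94 at h95
  obtain ⟨v96, h96, h⟩ := h
  change v96 = v1 * v95 at h96
  obtain ⟨v97, h97, h⟩ := h
  change v97 = v88 + v96 at h97
  obtain ⟨v98, h98, h⟩ := h
  change v98 = v1 * v97 at h98
  obtain ⟨v99, h99, h⟩ := h
  change v99 = v81 + v98 at h99
  obtain ⟨v100, h100, h⟩ := h
  change v100 = v1 * v99 at h100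
  obtain ⟨v101, h101, h⟩ := h
  change v101 = v71 + v100 at h101
  obtain ⟨v102, h102, h⟩ := h
  change v102 = v1 * v101 at h102
  obtain ⟨v103, h103, h⟩ := h
  change v103 = v58 + v102 at h103
  obtain ⟨v104, h104, h⟩ := h
  change v104 = v1 * v103 at h104
  obtain ⟨v105, h105, h⟩ := h
  change v105 = v42 + v104 at h105
  obtain ⟨v106, h106, h⟩ := h
  change v106 = v1 * v105 at h106
  obtain ⟨v107, h107, h⟩ := h
  change v107 = v23 + v106 at h107
  obtain ⟨E3, e_E3_d⟩ : ∃ q : ℝ, q = hr2 β r s 81 7 := ⟨_, rfl⟩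
  have a_E3 : hr2 β r s 81 7 = w81 + s * (w89 + s * (w96 + s * (w102 + s * (w107 + s * (w111 + s * (w114 + s * (β 116))))))) := by
    simp only [hr2]; rw [e_w81_d, e_w89_d, e_w96_d, e_w102_d, e_w107_d, e_w111_d, e_w114_d]
  have e_E3_v : v107 = E3 := by
    rw [e_E3_d, a_E3]
    simp only [h107, h106, h105, h104, h103, h102, h101, h100, h99, h98, h97, h96, h95, h94, h93, h1, e_w114_v, e_w111_v, e_w107_v, e_w102_v, e_w96_v, e_w89_v, e_w81_v, mul_re, mul_im, add_re, add_im, sub_re, sub_im, neg_re, neg_im, I_re, I_im, ofReal_re,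
      ofReal_im, one_re, one_im, zero_re, zero_im, dt, normSq_apply, re_ofNat, im_ofNat, conj_re, conj_im]
    try ring
  obtain ⟨v108, h108, h⟩ := h
  change v108 = β 125 at h108
  obtain ⟨v109, h109, h⟩ := h
  change v109 = β 124 at h109
  obtain ⟨v110, h110, h⟩ := h
  change v110 = v0 * v108 at h110
  obtain ⟨v111, h111, h⟩ := h
  change v111 = v109 + v110 at h111
  obtain ⟨v112, h112, h⟩ := h
  change v112 = β 123 at h112
  obtain ⟨v113, h113, h⟩ := h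
  change v113 = v0 * v111 at h113
  obtain ⟨v114, h114, h⟩ := h
  change v114 = v112 + v113 at h114
  obtain ⟨v115, h115, h⟩ := h
  change v115 = β 122 at h115
  obtain ⟨v116, h116, h⟩ := h
  change v116 = v0 * v114 at h116
  obtain ⟨v117, h117, h⟩ := h
  change v117 = v115 + v116 at h117
  obtain ⟨v118, h118, h⟩ := h
  change v118 = β 121 at h118
  obtain ⟨v119, h119, h⟩ := h
  change v119 = v0 * v117 at h119
  obtain ⟨v120, h120, h⟩ := h
  change v120 = v118 + v119 at h120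
  obtain ⟨v121, h121, h⟩ := h
  change v121 = β 120 at h121
  obtain ⟨v122, h122, h⟩ := h
  change v122 = v0 * v120 at h122
  obtain ⟨v123, h123, h⟩ := h
  change v123 = v121 + v122 at h123
  obtain ⟨v124, h124, h⟩ := h
  change v124 = β 119 at h124
  obtain ⟨v125, h125, h⟩ := h
  change v125 = v0 * v123 at h125
  obtain ⟨v126, h126, h⟩ := h
  change v126 = v124 + v125 at h126
  obtain ⟨v127, h127, h⟩ := h
  change v127 = β 118 at h127
  obtain ⟨v128, h128, h⟩ := h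
  change v128 = v0 * v126 at h128
  obtain ⟨v129, h129, h⟩ := h
  change v129 = v127 + v128 at h129
  obtain ⟨v130, h130, h⟩ := h
  change v130 = β 117 at h130
  obtain ⟨v131, h131, h⟩ := h
  change v131 = v0 * v129 at h131
  obtain ⟨v132, h132, h⟩ := h
  change v132 = v130 + v131 at h132
  obtain ⟨w117, e_w117_d⟩ : ∃ q : ℝ, q = hr β r 117 9 := ⟨_, rfl⟩
  have a_w117 : hr β r 117 9 = β 117 + r * (β 118 + r * (β 119 + r * (β 120 + r * (β 121 + r * (β 122 + r * (β 123 + r * (β 124 + r * (β 125)))))))) := by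
    simp only [hr]
  have e_w117_v : v132 = w117 := by
    rw [e_w117_d, a_w117]
    simp only [h132, h131, h130, h129, h128, h127, h126, h125, h124, h123, h122, h121, h120, h119, h118, h117, h116, h115, h114, h113, h112, h111, h110, h109, h108, h0, mul_re, mul_im, add_re, add_im, sub_re, sub_im, neg_re, neg_im, I_re, I_im, ofReal_re,
      ofReal_im, one_re, one_im, zero_re, zero_im, dt, normSq_apply, re_ofNat, im_ofNat, conj_re, conj_im]
    try ring
  obtain ⟨v133, h133, h⟩ := h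
  change v133 = β 133 at h133
  obtain ⟨v134, h134, h⟩ := h
  change v134 = β 132 at h134
  obtain ⟨v135, h135, h⟩ := h
  change v135 = v0 * v133 at h135
  obtain ⟨v136, h136, h⟩ := h
  change v136 = v134 + v135 at h136
  obtain ⟨v137, h137, h⟩ := h
  change v137 = β 131 at h137
  obtain ⟨v138, h138, h⟩ := h
  change v138 = v0 * v136 at h138
  obtain ⟨v139, h139, h⟩ := h
  change v139 = v137 + v138 at h139
  obtain ⟨v140, h140, h⟩ := h
  change v140 = β 130 at h140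
  obtain ⟨v141, h141, h⟩ := h
  change v141 = v0 * v139 at h141
  obtain ⟨v142, h142, h⟩ := h
  change v142 = v140 + v141 at h142
  obtain ⟨v143, h143, h⟩ := h
  change v143 = β 129 at h143
  obtain ⟨v144, h144, h⟩ := h
  change v144 = v0 * v142 at h144
  obtain ⟨v145, h145, h⟩ := h
  change v145 = v143 + v144 at h145
  obtain ⟨v146, h146, h⟩ := h
  change v146 = β 128 at h146
  obtain ⟨v147, h147, h⟩ := h
  change v147 = v0 * v145 at h147
  obtain ⟨v148, h148, h⟩ := h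
  change v148 = v146 + v147 at h148
  obtain ⟨v149, h149, h⟩ := h
  change v149 = β 127 at h149
  obtain ⟨v150, h150, h⟩ := h
  change v150 = v0 * v148 at h150
  obtain ⟨v151, h151, h⟩ := h
  change v151 = v149 + v150 at h151
  obtain ⟨v152, h152, h⟩ := h
  change v152 = β 126 at h152
  obtain ⟨v153, h153, h⟩ := h
  change v153 = v0 * v151 at h153
  exact pH1_val_s3
    β r s st0 v0 h0 v1 h1 v2 v3 v4 v5 v6 v7 v8 v9 v10 v11 v12 v13 v14 v15 v16 v17 v18 v19 v20 v21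
    v22 v23 w81 e_w81_d v24 v25 v26 v27 v28 v29 v30 v31 v32 v33 v34 v35 v36 v37 v38 v39 v40 v41
    v42 w89 e_w89_d v43 v44 v45 v46 v47 v48 v49 v50 v51 v52 v53 v54 v55 v56 v57 v58 w96 e_w96_d
    v59 v60 v61 v62 v63 v64 v65 v66 v67 v68 v69 v70 v71 w102 e_w102_d v72 v73 v74 v75 v76 v77 v78
    v79 v80 v81 w107 e_w107_d v82 v83 v84 v85 v86 v87 v88 w111 e_w111_d v89 v90 v91 v92 w114
    e_w114_d v93 v94 v95 v96 v97 v98 v99 v100 v101 v102 v103 v104 v105 v106 v107 E3 e_E3_d e_E3_v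
    v108 v109 v110 v111 v112 v113 v114 v115 v116 v117 v118 v119 v120 v121 v122 v123 v124 v125
    v126 v127 v128 v129 v130 v131 v132 w117 e_w117_d e_w117_v v133 h133 v134 h134 v135 h135 v136
    h136 v137 h137 v138 h138 v139 h139 v140 h140 v141 h141 v142 h142 v143 h143 v144 h144 v145
    h145 v146 h146 v147 h147 v148 h148 v149 h149 v150 h150 v151 h151 v152 h152 v153 h153 h

theorem pH1_val (β : ℕ → ℝ) (r s : ℝ) (st0 : List ℝ) :
    OutEq (run (realAlg β r s) pH1 st0) pH1_out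
      [hr2 β r s 81 7, hr2 β r s 117 8, hr2 β r s 162 8] := by
  have h : TrE (realAlg β r s)
    [.x, .y, .base 88, .base 87, .mul 3 1, .add 1 0, .base 86, .mul 6 1, .add 1 0, .base 85,
    .mul 9 1, .add 1 0, .base 84, .mul 12 1, .add 1 0, .base 83, .mul 15 1, .add 1 0, .base 82,
    .mul 18 1, .add 1 0, .base 81, .mul 21 1, .add 1 0, .base 95, .base 94, .mul 25 1, .add 1 0,
    .base 93, .mul 28 1, .add 1 0, .base 92, .mul 31 1, .add 1 0, .base 91, .mul 34 1, .add 1 0,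
    .base 90, .mul 37 1, .add 1 0, .base 89, .mul 40 1, .add 1 0, .base 101, .base 100,
    .mul 44 1, .add 1 0, .base 99, .mul 47 1, .add 1 0, .base 98, .mul 50 1, .add 1 0, .base 97,
    .mul 53 1, .add 1 0, .base 96, .mul 56 1, .add 1 0, .base 106, .base 105, .mul 60 1,
    .add 1 0, .base 104, .mul 63 1, .add 1 0, .base 103, .mul 66 1, .add 1 0, .base 102,
    .mul 69 1, .add 1 0, .base 110, .base 109, .mul 73 1, .add 1 0, .base 108, .mul 76 1,
    .add 1 0, .base 107, .mul 79 1, .add 1 0, .base 113, .base 112, .mul 83 1, .add 1 0,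
    .base 111, .mul 86 1, .add 1 0, .base 115, .base 114, .mul 90 1, .add 1 0, .base 116,
    .mul 92 0, .add 2 0, .mul 94 0, .add 8 0, .mul 96 0, .add 17 0, .mul 98 0, .add 29 0,
    .mul 100 0, .add 44 0, .mul 102 0, .add 62 0, .mul 104 0, .add 83 0, .base 125, .base 124,
    .mul 109 1, .add 1 0, .base 123, .mul 112 1, .add 1 0, .base 122, .mul 115 1, .add 1 0,
    .base 121, .mul 118 1, .add 1 0, .base 120, .mul 121 1, .add 1 0, .base 119, .mul 124 1,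
    .add 1 0, .base 118, .mul 127 1, .add 1 0, .base 117, .mul 130 1, .add 1 0, .base 133,
    .base 132, .mul 134 1, .add 1 0, .base 131, .mul 137 1, .add 1 0, .base 130, .mul 140 1,
    .add 1 0, .base 129, .mul 143 1, .add 1 0, .base 128, .mul 146 1, .add 1 0, .base 127,
    .mul 149 1, .add 1 0, .base 126, .mul 152 1, .add 1 0, .base 140, .base 139, .mul 156 1,
    .add 1 0, .base 138, .mul 159 1, .add 1 0, .base 137, .mul 162 1, .add 1 0, .base 136,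
    .mul 165 1, .add 1 0, .base 135, .mul 168 1, .add 1 0, .base 134, .mul 171 1, .add 1 0,
    .base 146, .base 145, .mul 175 1, .add 1 0, .base 144, .mul 178 1, .add 1 0, .base 143,
    .mul 181 1, .add 1 0, .base 142, .mul 184 1, .add 1 0, .base 141, .mul 187 1, .add 1 0,
    .base 151, .base 150, .mul 191 1, .add 1 0, .base 149, .mul 194 1, .add 1 0, .base 148,
    .mul 197 1, .add 1 0, .base 147, .mul 200 1, .add 1 0, .base 155, .base 154, .mul 204 1,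
    .add 1 0, .base 153, .mul 207 1, .add 1 0, .base 152, .mul 210 1, .add 1 0, .base 158,
    .base 157, .mul 214 1, .add 1 0, .base 156, .mul 217 1, .add 1 0, .base 160, .base 159,
    .mul 221 1, .add 1 0, .base 161, .mul 223 0, .add 2 0, .mul 225 0, .add 8 0, .mul 227 0,
    .add 17 0, .mul 229 0, .add 29 0, .mul 231 0, .add 44 0, .mul 233 0, .add 62 0, .mul 235 0,
    .add 83 0, .mul 237 0, .add 107 0, .base 170, .base 169, .mul 242 1, .add 1 0, .base 168,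
    .mul 245 1, .add 1 0, .base 167, .mul 248 1, .add 1 0, .base 166, .mul 251 1, .add 1 0,
    .base 165, .mul 254 1, .add 1 0, .base 164, .mul 257 1, .add 1 0, .base 163, .mul 260 1,
    .add 1 0, .base 162, .mul 263 1, .add 1 0, .base 178, .base 177, .mul 267 1, .add 1 0,
    .base 176, .mul 270 1, .add 1 0, .base 175, .mul 273 1, .add 1 0, .base 174, .mul 276 1,
    .add 1 0, .base 173, .mul 279 1, .add 1 0, .base 172, .mul 282 1, .add 1 0, .base 171,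
    .mul 285 1, .add 1 0, .base 185, .base 184, .mul 289 1, .add 1 0, .base 183, .mul 292 1,
    .add 1 0, .base 182, .mul 295 1, .add 1 0, .base 181, .mul 298 1, .add 1 0, .base 180,
    .mul 301 1, .add 1 0, .base 179, .mul 304 1, .add 1 0, .base 191, .base 190, .mul 308 1,
    .add 1 0, .base 189, .mul 311 1, .add 1 0, .base 188, .mul 314 1, .add 1 0, .base 187,
    .mul 317 1, .add 1 0, .base 186, .mul 320 1, .add 1 0, .base 196, .base 195, .mul 324 1,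
    .add 1 0, .base 194, .mul 327 1, .add 1 0, .base 193, .mul 330 1, .add 1 0, .base 192,
    .mul 333 1, .add 1 0, .base 200, .base 199, .mul 337 1, .add 1 0, .base 198, .mul 340 1,
    .add 1 0, .base 197, .mul 343 1, .add 1 0, .base 203, .base 202, .mul 347 1, .add 1 0,
    .base 201, .mul 350 1, .add 1 0, .base 205, .base 204, .mul 354 1, .add 1 0, .base 206,
    .mul 356 0, .add 2 0, .mul 358 0, .add 8 0, .mul 360 0, .add 17 0, .mul 362 0, .add 29 0,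
    .mul 364 0, .add 44 0, .mul 366 0, .add 62 0, .mul 368 0, .add 83 0, .mul 370 0, .add 107 0] st0
    (pH1_valQ β r s st0) := trE_runst2 _ pH1 st0
  obtain ⟨v0, h0, h⟩ := h
  change v0 = r at h0
  obtain ⟨v1, h1, h⟩ := h
  change v1 = s at h1
  obtain ⟨v2, h2, h⟩ := h
  change v2 = β 88 at h2
  obtain ⟨v3, h3, h⟩ := h
  change v3 = β 87 at h3
  obtain ⟨v4, h4, h⟩ := h
  change v4 = v0 * v2 at h4
  obtain ⟨v5, h5, h⟩ := h
  change v5 = v3 + v4 at h5
  obtain ⟨v6, h6, h⟩ := h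
  change v6 = β 86 at h6
  obtain ⟨v7, h7, h⟩ := h
  change v7 = v0 * v5 at h7
  obtain ⟨v8, h8, h⟩ := h
  change v8 = v6 + v7 at h8
  obtain ⟨v9, h9, h⟩ := h
  change v9 = β 85 at h9
  obtain ⟨v10, h10, h⟩ := h
  change v10 = v0 * v8 at h10
  obtain ⟨v11, h11, h⟩ := h
  change v11 = v9 + v10 at h11
  obtain ⟨v12, h12, h⟩ := h
  change v12 = β 84 at h12
  obtain ⟨v13, h13, h⟩ := h
  change v13 = v0 * v11 at h13
  obtain ⟨v14, h14, h⟩ := h
  change v14 = v12 + v13 at h14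
  obtain ⟨v15, h15, h⟩ := h
  change v15 = β 83 at h15
  obtain ⟨v16, h16, h⟩ := h
  change v16 = v0 * v14 at h16
  obtain ⟨v17, h17, h⟩ := h
  change v17 = v15 + v16 at h17
  obtain ⟨v18, h18, h⟩ := h
  change v18 = β 82 at h18
  obtain ⟨v19, h19, h⟩ := h
  change v19 = v0 * v17 at h19
  obtain ⟨v20, h20, h⟩ := h
  change v20 = v18 + v19 at h20
  obtain ⟨v21, h21, h⟩ := h
  change v21 = β 81 at h21
  obtain ⟨v22, h22, h⟩ := h
  change v22 = v0 * v20 at h22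
  obtain ⟨v23, h23, h⟩ := h
  change v23 = v21 + v22 at h23
  obtain ⟨w81, e_w81_d⟩ : ∃ q : ℝ, q = hr β r 81 8 := ⟨_, rfl⟩
  have a_w81 : hr β r 81 8 = β 81 + r * (β 82 + r * (β 83 + r * (β 84 + r * (β 85 + r * (β 86 + r * (β 87 + r * (β 88))))))) := by
    simp only [hr]
  have e_w81_v : v23 = w81 := by
    rw [e_w81_d, a_w81]
    simp only [h23, h22, h21, h20, h19, h18, h17, h16, h15, h14, h13, h12, h11, h10, h9, h8, h7, h6, h5, h4, h3, h2, h0, mul_re, mul_im, add_re, add_im, sub_re, sub_im, neg_re, neg_im, I_re, I_im, ofReal_re,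
      ofReal_im, one_re, one_im, zero_re, zero_im, dt, normSq_apply, re_ofNat, im_ofNat, conj_re, conj_im]
    try ring
  obtain ⟨v24, h24, h⟩ := h
  change v24 = β 95 at h24
  obtain ⟨v25, h25, h⟩ := h
  change v25 = β 94 at h25
  obtain ⟨v26, h26, h⟩ := h
  change v26 = v0 * v24 at h26
  obtain ⟨v27, h27, h⟩ := h
  change v27 = v25 + v26 at h27
  obtain ⟨v28, h28, h⟩ := h
  change v28 = β 93 at h28
  obtain ⟨v29, h29, h⟩ := h
  change v29 = v0 * v27 at h29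
  obtain ⟨v30, h30, h⟩ := h
  change v30 = v28 + v29 at h30
  obtain ⟨v31, h31, h⟩ := h
  change v31 = β 92 at h31
  obtain ⟨v32, h32, h⟩ := h
  change v32 = v0 * v30 at h32
  obtain ⟨v33, h33, h⟩ := h
  change v33 = v31 + v32 at h33
  obtain ⟨v34, h34, h⟩ := h
  change v34 = β 91 at h34
  obtain ⟨v35, h35, h⟩ := h
  change v35 = v0 * v33 at h35
  obtain ⟨v36, h36, h⟩ := h
  change v36 = v34 + v35 at h36
  obtain ⟨v37, h37, h⟩ := h
  change v37 = β 90 at h37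
  obtain ⟨v38, h38, h⟩ := h
  change v38 = v0 * v36 at h38
  obtain ⟨v39, h39, h⟩ := h
  change v39 = v37 + v38 at h39
  obtain ⟨v40, h40, h⟩ := h
  change v40 = β 89 at h40
  obtain ⟨v41, h41, h⟩ := h
  change v41 = v0 * v39 at h41
  obtain ⟨v42, h42, h⟩ := h
  change v42 = v40 + v41 at h42
  obtain ⟨w89, e_w89_d⟩ : ∃ q : ℝ, q = hr β r 89 7 := ⟨_, rfl⟩
  have a_w89 : hr β r 89 7 = β 89 + r * (β 90 + r * (β 91 + r * (β 92 + r * (β 93 + r * (β 94 + r * (β 95)))))) := by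
    simp only [hr]
  have e_w89_v : v42 = w89 := by
    rw [e_w89_d, a_w89]
    simp only [h42, h41, h40, h39, h38, h37, h36, h35, h34, h33, h32, h31, h30, h29, h28, h27, h26, h25, h24, h0, mul_re, mul_im, add_re, add_im, sub_re, sub_im, neg_re, neg_im, I_re, I_im, ofReal_re,
      ofReal_im, one_re, one_im, zero_re, zero_im, dt, normSq_apply, re_ofNat, im_ofNat, conj_re, conj_im]
    try ring
  obtain ⟨v43, h43, h⟩ := h
  change v43 = β 101 at h43
  obtain ⟨v44, h44, h⟩ := h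
  change v44 = β 100 at h44
  obtain ⟨v45, h45, h⟩ := h
  change v45 = v0 * v43 at h45
  obtain ⟨v46, h46, h⟩ := h
  change v46 = v44 + v45 at h46
  obtain ⟨v47, h47, h⟩ := h
  change v47 = β 99 at h47
  obtain ⟨v48, h48, h⟩ := h
  change v48 = v0 * v46 at h48
  obtain ⟨v49, h49, h⟩ := h
  change v49 = v47 + v48 at h49
  obtain ⟨v50, h50, h⟩ := h
  change v50 = β 98 at h50
  obtain ⟨v51, h51, h⟩ := h
  change v51 = v0 * v49 at h51
  obtain ⟨v52, h52, h⟩ := h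
  change v52 = v50 + v51 at h52
  obtain ⟨v53, h53, h⟩ := h
  change v53 = β 97 at h53
  obtain ⟨v54, h54, h⟩ := h
  change v54 = v0 * v52 at h54
  obtain ⟨v55, h55, h⟩ := h
  change v55 = v53 + v54 at h55
  obtain ⟨v56, h56, h⟩ := h
  change v56 = β 96 at h56
  obtain ⟨v57, h57, h⟩ := h
  change v57 = v0 * v55 at h57
  obtain ⟨v58, h58, h⟩ := h
  change v58 = v56 + v57 at h58
  obtain ⟨w96, e_w96_d⟩ : ∃ q : ℝ, q = hr β r 96 6 := ⟨_, rfl⟩
  have a_w96 : hr β r 96 6 = β 96 + r * (β 97 + r * (β 98 + r * (β 99 + r * (β 100 + r * (β 101))))) := by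
    simp only [hr]
  have e_w96_v : v58 = w96 := by
    rw [e_w96_d, a_w96]
    simp only [h58, h57, h56, h55, h54, h53, h52, h51, h50, h49, h48, h47, h46, h45, h44, h43, h0, mul_re, mul_im, add_re, add_im, sub_re, sub_im, neg_re, neg_im, I_re, I_im, ofReal_re,
      ofReal_im, one_re, one_im, zero_re, zero_im, dt, normSq_apply, re_ofNat, im_ofNat, conj_re, conj_im]
    try ring
  obtain ⟨v59, h59, h⟩ := h
  change v59 = β 106 at h59
  obtain ⟨v60, h60, h⟩ := h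
  change v60 = β 105 at h60
  obtain ⟨v61, h61, h⟩ := h
  change v61 = v0 * v59 at h61
  obtain ⟨v62, h62, h⟩ := h
  change v62 = v60 + v61 at h62
  obtain ⟨v63, h63, h⟩ := h
  change v63 = β 104 at h63
  obtain ⟨v64, h64, h⟩ := h
  change v64 = v0 * v62 at h64
  obtain ⟨v65, h65, h⟩ := h
  change v65 = v63 + v64 at h65
  obtain ⟨v66, h66, h⟩ := h
  change v66 = β 103 at h66
  obtain ⟨v67, h67, h⟩ := h
  change v67 = v0 * v65 at h67
  obtain ⟨v68, h68, h⟩ := h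
  change v68 = v66 + v67 at h68
  obtain ⟨v69, h69, h⟩ := h
  change v69 = β 102 at h69
  obtain ⟨v70, h70, h⟩ := h
  change v70 = v0 * v68 at h70
  obtain ⟨v71, h71, h⟩ := h
  change v71 = v69 + v70 at h71
  obtain ⟨w102, e_w102_d⟩ : ∃ q : ℝ, q = hr β r 102 5 := ⟨_, rfl⟩
  have a_w102 : hr β r 102 5 = β 102 + r * (β 103 + r * (β 104 + r * (β 105 + r * (β 106)))) := by
    simp only [hr]
  have e_w102_v : v71 = w102 := by
    rw [e_w102_d, a_w102]
    simp only [h71, h70, h69, h68, h67, h66, h65, h64, h63, h62, h61, h60, h59, h0, mul_re, mul_im, add_re, add_im, sub_re, sub_im, neg_re, neg_im, I_re, I_im, ofReal_re,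
      ofReal_im, one_re, one_im, zero_re, zero_im, dt, normSq_apply, re_ofNat, im_ofNat, conj_re, conj_im]
    try ring
  obtain ⟨v72, h72, h⟩ := h
  change v72 = β 110 at h72
  obtain ⟨v73, h73, h⟩ := h
  change v73 = β 109 at h73
  obtain ⟨v74, h74, h⟩ := h
  change v74 = v0 * v72 at h74
  obtain ⟨v75, h75, h⟩ := h
  change v75 = v73 + v74 at h75
  obtain ⟨v76, h76, h⟩ := h
  change v76 = β 108 at h76
  exact pH1_val_s2
    β r s st0 v0 h0 v1 h1 v2 v3 v4 v5 v6 v7 v8 v9 v10 v11 v12 v13 v14 v15 v16 v17 v18 v19 v20 v21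
    v22 v23 w81 e_w81_d e_w81_v v24 v25 v26 v27 v28 v29 v30 v31 v32 v33 v34 v35 v36 v37 v38 v39
    v40 v41 v42 w89 e_w89_d e_w89_v v43 v44 v45 v46 v47 v48 v49 v50 v51 v52 v53 v54 v55 v56 v57
    v58 w96 e_w96_d e_w96_v v59 v60 v61 v62 v63 v64 v65 v66 v67 v68 v69 v70 v71 w102 e_w102_d
    e_w102_v v72 h72 v73 h73 v74 h74 v75 h75 v76 h76 h

end Pool.H61.Rh
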