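import Pool.Agent.H61.Rz.PE2
import Pool.Agent.H61.Rz.PH1
import Pool.Agent.H47.K3.Defs

/-! # generated: difference program pD2 -/

set_option autoImplicit false
set_option maxRecDepth 100000
set_option linter.unusedVariables false

namespace Pool.H61.Rh

open Complex Pool.H47.Kc Pool.H47.K3

def pD2_P : List Op :=
  [.x, .y, .base 0, .base 1, .add 3 1, .add 3 1,
   .base 78, .cst (1) 1, .mul 1 0, .mul 4 4, .mul 4 4, .add 1 0,
   .cst (1) 0, .sub 0 1, .mul 9 6, .mul 9 6, .add 1 0, .cst (2) 0,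
   .mul 1 0, .add 0 6, .mul 6 2, .mul 13 0, .mul 13 1, .mul 18 3,
   .mul 18 4, .add 3 1, .add 3 1, .mul 13 1, .mul 14 1, .base 5,
   .base 6, .mul 30 1, .mul 30 1, .add 1 0, .base 15, .add 1 0,
   .base 13, .base 14, .base 7, .mul 38 0, .base 8, .mul 39 0,
   .add 2 0, .base 9, .mul 43 0, .base 10, .mul 44 0, .add 2 0,
   .add 11 5, .add 11 1, .mul 30 1, .mul 31 1, .sub 23 1, .add 25 1,
   .base 11, .base 12, .mul 36 20, .mul 2 0, .mul 2 1, .sub 30 1,
   .add 32 1, .mul 60 60, .mul 61 60, .mul 61 61, .mul 59 34, .mul 59 34,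
   .add 1 0, .base 16, .mul 63 0, .base 17, .mul 64 0, .add 2 0,
   .mul 67 2, .base 18, .mul 68 0, .add 2 0, .base 19, .mul 76 0,
   .base 20, .mul 77 0, .add 2 0, .base 21, .mul 81 0, .base 22,
   .mul 82 0, .add 2 0, .mul 5 5, .mul 1 1, .add 1 0, .base 45,
   .mul 89 0, .base 46, .mul 90 0, .add 2 0, .mul 32 0, .base 47,
   .mul 95 0, .base 48, .mul 96 0, .add 2 0, .mul 36 0, .add 6 0,
   .base 42, .mul 41 0, .base 43, .mul 42 0, .add 2 0, .base 44,
   .mul 44 0, .add 2 0, .add 8 0, .base 33, .mul 111 0, .base 34,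
   .mul 112 0, .add 2 0, .base 36, .mul 55 0, .base 37, .mul 56 0,
   .add 2 0, .base 38, .mul 58 0, .add 2 0, .add 8 0, .mul 124 11,
   .base 35, .mul 125 0, .add 2 0, .base 39, .mul 68 0, .base 40,
   .mul 69 0, .add 2 0, .base 41, .mul 71 0, .add 2 0, .add 8 0,
   .base 49, .mul 138 0, .base 50, .mul 139 0, .add 2 0, .base 53,
   .mul 82 0, .base 54, .mul 83 0, .add 2 0, .base 55, .mul 85 0,
   .add 2 0, .add 8 0, .base 51, .mul 152 0, .base 52, .mul 153 0,
   .add 2 0, .base 56, .mul 96 0, .base 57, .mul 97 0, .add 2 0,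
   .base 58, .mul 99 0, .add 2 0, .add 8 0, .base 59, .mul 166 0,
   .base 60, .mul 167 0, .add 2 0, .base 63, .mul 110 0, .base 64,
   .mul 111 0, .add 2 0, .base 65, .mul 113 0, .add 2 0, .add 8 0,
   .base 61, .mul 180 0, .base 62, .mul 181 0, .add 2 0, .base 66,
   .mul 124 0, .base 67, .mul 125 0, .add 2 0, .base 68, .mul 127 0,
   .add 2 0, .add 8 0, .mul 193 134, .mul 177 0, .mul 195 135, .mul 195 137,
   .sub 0 1, .mul 197 138, .mul 182 0, .mul 141 62, .mul 141 61, .sub 1 0,
   .mul 60 8, .mul 59 6, .add 1 0, .mul 58 6, .sub 1 0, .add 5 0,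
   .mul 150 57, .mul 150 56, .sub 1 0, .mul 55 17, .mul 54 15, .add 1 0,
   .mul 53 15, .sub 1 0, .add 5 0, .base 31, .base 32, .mul 220 1,
   .mul 220 1, .add 1 0, .base 29, .base 30, .mul 173 1, .mul 173 1,
   .sub 1 0, .mul 195 5, .mul 194 119, .add 1 0, .mul 212 0, .add 4 0,
   .mul 174 109, .mul 174 97, .sub 1 0, .add 3 0, .mul 152 86, .mul 158 73,
   .sub 0 1, .mul 221 0, .sub 0 4, .base 23, .mul 243 0, .base 24,
   .mul 244 0, .add 2 0, .base 25, .mul 248 0, .base 26, .mul 249 0,
   .add 2 0, .mul 198 128, .mul 198 116, .add 1 0, .base 27, .base 28,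
   .mul 252 106, .mul 254 93, .sub 1 0, .mul 231 0, .mul 231 1, .mul 111 6,
   .mul 98 6, .add 1 0, .mul 194 0, .mul 191 1, .add 6 1, .add 6 1,
   .mul 203 104, .mul 204 119, .add 3 1, .sub 3 1, .add 163 50, .sub 0 19,
   .mul 204 0, .mul 201 1, .sub 30 1, .sub 26 1, .mul 262 114, .mul 263 129,
   .sub 102 1, .add 89 1, .mul 248 1, .mul 249 1, .sub 7 1, .sub 7 1,
   .sub 1 15, .sub 1 15, .mul 254 47, .cst (6) 0, .mul 1 0, .mul 273 204,
   .mul 276 1, .sub 0 1, .mul 260 260, .mul 291 211, .mul 293 217, .add 1 0,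
   .mul 270 0, .mul 270 1, .mul 216 45, .mul 222 45, .sub 0 1, .mul 233 0,
   .mul 230 1, .sub 1 6, .sub 1 6, .mul 242 228, .mul 243 224, .add 3 1,
   .add 3 1, .mul 256 1, .mul 257 1, .sub 21 22, .mul 244 0, .mul 241 1,
   .add 4 1, .add 4 1, .mul 300 31, .mul 301 31, .sub 1 112, .sub 1 104,
   .mul 32 27, .mul 2 0, .mul 2 1, .add 8 1, .add 8 1, .x,
   .y, .base 88, .base 87, .mul 3 1, .add 1 0, .base 86,
   .mul 6 1, .add 1 0, .base 85, .mul 9 1, .add 1 0, .base 84,
   .mul 12 1, .add 1 0, .base 83, .mul 15 1, .add 1 0, .base 82,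
   .mul 18 1, .add 1 0, .base 81, .mul 21 1, .add 1 0, .base 95,
   .base 94, .mul 25 1, .add 1 0, .base 93, .mul 28 1, .add 1 0,
   .base 92, .mul 31 1, .add 1 0, .base 91, .mul 34 1, .add 1 0,
   .base 90, .mul 37 1, .add 1 0, .base 89, .mul 40 1, .add 1 0,
   .base 101, .base 100, .mul 44 1, .add 1 0, .base 99, .mul 47 1,
   .add 1 0, .base 98, .mul 50 1, .add 1 0, .base 97, .mul 53 1,
   .add 1 0, .base 96, .mul 56 1, .add 1 0, .base 106, .base 105,
   .mul 60 1, .add 1 0, .base 104, .mul 63 1, .add 1 0, .base 103,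
   .mul 66 1, .add 1 0, .base 102, .mul 69 1, .add 1 0, .base 110,
   .base 109, .mul 73 1, .add 1 0, .base 108, .mul 76 1, .add 1 0,
   .base 107, .mul 79 1, .add 1 0, .base 113, .base 112, .mul 83 1,
   .add 1 0, .base 111, .mul 86 1, .add 1 0, .base 115, .base 114,
   .mul 90 1, .add 1 0, .base 116, .mul 92 0, .add 2 0, .mul 94 0,
   .add 8 0, .mul 96 0, .add 17 0, .mul 98 0, .add 29 0, .mul 100 0,
   .add 44 0, .mul 102 0, .add 62 0, .mul 104 0, .add 83 0, .base 125,
   .base 124, .mul 109 1, .add 1 0, .base 123, .mul 112 1, .add 1 0,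
   .base 122, .mul 115 1, .add 1 0, .base 121, .mul 118 1, .add 1 0,
   .base 120, .mul 121 1, .add 1 0, .base 119, .mul 124 1, .add 1 0,
   .base 118, .mul 127 1, .add 1 0, .base 117, .mul 130 1, .add 1 0,
   .base 133, .base 132, .mul 134 1, .add 1 0, .base 131, .mul 137 1,
   .add 1 0, .base 130, .mul 140 1, .add 1 0, .base 129, .mul 143 1,
   .add 1 0, .base 128, .mul 146 1, .add 1 0, .base 127, .mul 149 1,
   .add 1 0, .base 126, .mul 152 1, .add 1 0, .base 140, .base 139,
   .mul 156 1, .add 1 0, .base 138, .mul 159 1, .add 1 0, .base 137,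
   .mul 162 1, .add 1 0, .base 136, .mul 165 1, .add 1 0, .base 135,
   .mul 168 1, .add 1 0, .base 134, .mul 171 1, .add 1 0, .base 146,
   .base 145, .mul 175 1, .add 1 0, .base 144, .mul 178 1, .add 1 0,
   .base 143, .mul 181 1, .add 1 0, .base 142, .mul 184 1, .add 1 0,
   .base 141, .mul 187 1, .add 1 0, .base 151, .base 150, .mul 191 1,
   .add 1 0, .base 149, .mul 194 1, .add 1 0, .base 148, .mul 197 1,
   .add 1 0, .base 147, .mul 200 1, .add 1 0, .base 155, .base 154,
   .mul 204 1, .add 1 0, .base 153, .mul 207 1, .add 1 0, .base 152,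
   .mul 210 1, .add 1 0, .base 158, .base 157, .mul 214 1, .add 1 0,
   .base 156, .mul 217 1, .add 1 0, .base 160, .base 159, .mul 221 1,
   .add 1 0, .base 161, .mul 223 0, .add 2 0, .mul 225 0, .add 8 0,
   .mul 227 0, .add 17 0, .mul 229 0, .add 29 0, .mul 231 0, .add 44 0,
   .mul 233 0, .add 62 0, .mul 235 0, .add 83 0, .mul 237 0, .add 107 0,
   .base 170, .base 169, .mul 242 1, .add 1 0, .base 168, .mul 245 1,
   .add 1 0, .base 167, .mul 248 1, .add 1 0, .base 166, .mul 251 1,
   .add 1 0, .base 165, .mul 254 1, .add 1 0, .base 164, .mul 257 1,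
   .add 1 0, .base 163, .mul 260 1, .add 1 0, .base 162, .mul 263 1,
   .add 1 0, .base 178, .base 177, .mul 267 1, .add 1 0, .base 176,
   .mul 270 1, .add 1 0, .base 175, .mul 273 1, .add 1 0, .base 174,
   .mul 276 1, .add 1 0, .base 173, .mul 279 1, .add 1 0, .base 172,
   .mul 282 1, .add 1 0, .base 171, .mul 285 1, .add 1 0, .base 185,
   .base 184, .mul 289 1, .add 1 0, .base 183, .mul 292 1, .add 1 0,
   .base 182, .mul 295 1, .add 1 0, .base 181, .mul 298 1, .add 1 0,
   .base 180, .mul 301 1, .add 1 0, .base 179, .mul 304 1, .add 1 0,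
   .base 191, .base 190, .mul 308 1, .add 1 0, .base 189, .mul 311 1,
   .add 1 0, .base 188, .mul 314 1, .add 1 0, .base 187, .mul 317 1,
   .add 1 0, .base 186, .mul 320 1, .add 1 0, .base 196, .base 195,
   .mul 324 1, .add 1 0, .base 194, .mul 327 1, .add 1 0, .base 193,
   .mul 330 1, .add 1 0, .base 192, .mul 333 1, .add 1 0, .base 200,
   .base 199, .mul 337 1, .add 1 0, .base 198, .mul 340 1, .add 1 0,
   .base 197, .mul 343 1, .add 1 0, .base 203, .base 202, .mul 347 1,
   .add 1 0, .base 201, .mul 350 1, .add 1 0, .base 205, .base 204,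
   .mul 354 1, .add 1 0, .base 206, .mul 356 0, .add 2 0, .mul 358 0,
   .add 8 0, .mul 360 0, .add 17 0, .mul 362 0, .add 29 0, .mul 364 0,
   .add 44 0, .mul 366 0, .add 62 0, .mul 368 0, .add 83 0, .mul 370 0,
   .add 107 0, .cst (12) 0, .mul 0 267, .sub 409 0, .cst (6) 0, .mul 0 137,
   .sub 380 0, .mul 2 6, .sub 381 0]

def pD2_o : List Nat := [5, 2, 0]

def pD2_b44 {α : Type} (A : Alg α) (v295 v327 v328 v436 v569 v702 v703 : α) : List α :=
  let v704 := A.mul v703 v436
  let v705 := A.sub v295 v704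
  let v706 := A.cst (6) 0
  let v707 := A.mul v706 v569
  let v708 := A.sub v327 v707
  let v709 := A.mul v706 v702
  let v710 := A.sub v328 v709
  [v705, v708, v710]

def pD2_b43 {α : Type} (A : Alg α) (v295 v327 v328 v330 v436 v569 v594 v616 v635 v651 v664 v674 v681 v685 v687 : α) : List α :=
  let v688 := A.add v685 v687
  let v689 := A.mul v330 v688
  let v690 := A.add v681 v689
  let v691 := A.mul v330 v690
  let v692 := A.add v674 v691
  let v693 := A.mul v330 v692
  let v694 := A.add v664 v693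
  let v695 := A.mul v330 v694
  let v696 := A.add v651 v695
  let v697 := A.mul v330 v696
  let v698 := A.add v635 v697
  let v699 := A.mul v330 v698
  let v700 := A.add v616 v699
  let v701 := A.mul v330 v700
  let v702 := A.add v594 v701
  let v703 := A.cst (12) 0
  pD2_b44 A v295 v327 v328 v436 v569 v702 v703

def pD2_b42 {α : Type} (A : Alg α) (v295 v327 v328 v329 v330 v436 v569 v594 v616 v635 v651 v664 v671 : α) : List α :=
  let v672 := A.base 197
  let v673 := A.mul v329 v671
  let v674 := A.add v672 v673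
  let v675 := A.base 203
  let v676 := A.base 202
  let v677 := A.mul v329 v675
  let v678 := A.add v676 v677
  let v679 := A.base 201
  let v680 := A.mul v329 v678
  let v681 := A.add v679 v680
  let v682 := A.base 205
  let v683 := A.base 204
  let v684 := A.mul v329 v682
  let v685 := A.add v683 v684
  let v686 := A.base 206
  let v687 := A.mul v330 v686
  pD2_b43 A v295 v327 v328 v330 v436 v569 v594 v616 v635 v651 v664 v674 v681 v685 v687

def pD2_b41 {α : Type} (A : Alg α) (v295 v327 v328 v329 v330 v436 v569 v594 v616 v635 v651 v655 : α) : List α :=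
  let v656 := A.base 194
  let v657 := A.mul v329 v655
  let v658 := A.add v656 v657
  let v659 := A.base 193
  let v660 := A.mul v329 v658
  let v661 := A.add v659 v660
  let v662 := A.base 192
  let v663 := A.mul v329 v661
  let v664 := A.add v662 v663
  let v665 := A.base 200
  let v666 := A.base 199
  let v667 := A.mul v329 v665
  let v668 := A.add v666 v667
  let v669 := A.base 198
  let v670 := A.mul v329 v668
  let v671 := A.add v669 v670
  pD2_b42 A v295 v327 v328 v329 v330 v436 v569 v594 v616 v635 v651 v664 v671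

def pD2_b40 {α : Type} (A : Alg α) (v295 v327 v328 v329 v330 v436 v569 v594 v616 v635 v639 : α) : List α :=
  let v640 := A.base 189
  let v641 := A.mul v329 v639
  let v642 := A.add v640 v641
  let v643 := A.base 188
  let v644 := A.mul v329 v642
  let v645 := A.add v643 v644
  let v646 := A.base 187
  let v647 := A.mul v329 v645
  let v648 := A.add v646 v647
  let v649 := A.base 186
  let v650 := A.mul v329 v648
  let v651 := A.add v649 v650
  let v652 := A.base 196
  let v653 := A.base 195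
  let v654 := A.mul v329 v652
  let v655 := A.add v653 v654
  pD2_b41 A v295 v327 v328 v329 v330 v436 v569 v594 v616 v635 v651 v655

def pD2_b39 {α : Type} (A : Alg α) (v295 v327 v328 v329 v330 v436 v569 v594 v616 v623 : α) : List α :=
  let v624 := A.base 182
  let v625 := A.mul v329 v623
  let v626 := A.add v624 v625
  let v627 := A.base 181
  let v628 := A.mul v329 v626
  let v629 := A.add v627 v628
  let v630 := A.base 180
  let v631 := A.mul v329 v629
  let v632 := A.add v630 v631
  let v633 := A.base 179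
  let v634 := A.mul v329 v632
  let v635 := A.add v633 v634
  let v636 := A.base 191
  let v637 := A.base 190
  let v638 := A.mul v329 v636
  let v639 := A.add v637 v638
  pD2_b40 A v295 v327 v328 v329 v330 v436 v569 v594 v616 v635 v639

def pD2_b38 {α : Type} (A : Alg α) (v295 v327 v328 v329 v330 v436 v569 v594 v607 : α) : List α :=
  let v608 := A.base 173
  let v609 := A.mul v329 v607
  let v610 := A.add v608 v609
  let v611 := A.base 172
  let v612 := A.mul v329 v610
  let v613 := A.add v611 v612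
  let v614 := A.base 171
  let v615 := A.mul v329 v613
  let v616 := A.add v614 v615
  let v617 := A.base 185
  let v618 := A.base 184
  let v619 := A.mul v329 v617
  let v620 := A.add v618 v619
  let v621 := A.base 183
  let v622 := A.mul v329 v620
  let v623 := A.add v621 v622
  pD2_b39 A v295 v327 v328 v329 v330 v436 v569 v594 v616 v623

def pD2_b37 {α : Type} (A : Alg α) (v295 v327 v328 v329 v330 v436 v569 v591 : α) : List α :=
  let v592 := A.base 162
  let v593 := A.mul v329 v591
  let v594 := A.add v592 v593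
  let v595 := A.base 178
  let v596 := A.base 177
  let v597 := A.mul v329 v595
  let v598 := A.add v596 v597
  let v599 := A.base 176
  let v600 := A.mul v329 v598
  let v601 := A.add v599 v600
  let v602 := A.base 175
  let v603 := A.mul v329 v601
  let v604 := A.add v602 v603
  let v605 := A.base 174
  let v606 := A.mul v329 v604
  let v607 := A.add v605 v606
  pD2_b38 A v295 v327 v328 v329 v330 v436 v569 v594 v607

def pD2_b36 {α : Type} (A : Alg α) (v295 v327 v328 v329 v330 v436 v569 v574 v575 : α) : List α :=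
  let v576 := A.add v574 v575
  let v577 := A.base 167
  let v578 := A.mul v329 v576
  let v579 := A.add v577 v578
  let v580 := A.base 166
  let v581 := A.mul v329 v579
  let v582 := A.add v580 v581
  let v583 := A.base 165
  let v584 := A.mul v329 v582
  let v585 := A.add v583 v584
  let v586 := A.base 164
  let v587 := A.mul v329 v585
  let v588 := A.add v586 v587
  let v589 := A.base 163
  let v590 := A.mul v329 v588
  let v591 := A.add v589 v590
  pD2_b37 A v295 v327 v328 v329 v330 v436 v569 v591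

def pD2_b35 {α : Type} (A : Alg α) (v295 v327 v328 v329 v330 v436 v461 v483 v502 v518 v531 v559 : α) : List α :=
  let v560 := A.mul v330 v559
  let v561 := A.add v531 v560
  let v562 := A.mul v330 v561
  let v563 := A.add v518 v562
  let v564 := A.mul v330 v563
  let v565 := A.add v502 v564
  let v566 := A.mul v330 v565
  let v567 := A.add v483 v566
  let v568 := A.mul v330 v567
  let v569 := A.add v461 v568
  let v570 := A.base 170
  let v571 := A.base 169
  let v572 := A.mul v329 v570
  let v573 := A.add v571 v572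
  let v574 := A.base 168
  let v575 := A.mul v329 v573
  pD2_b36 A v295 v327 v328 v329 v330 v436 v569 v574 v575

def pD2_b34 {α : Type} (A : Alg α) (v295 v327 v328 v329 v330 v436 v461 v483 v502 v518 v531 v541 v542 v543 : α) : List α :=
  let v544 := A.mul v329 v542
  let v545 := A.add v543 v544
  let v546 := A.base 156
  let v547 := A.mul v329 v545
  let v548 := A.add v546 v547
  let v549 := A.base 160
  let v550 := A.base 159
  let v551 := A.mul v329 v549
  let v552 := A.add v550 v551
  let v553 := A.base 161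
  let v554 := A.mul v330 v553
  let v555 := A.add v552 v554
  let v556 := A.mul v330 v555
  let v557 := A.add v548 v556
  let v558 := A.mul v330 v557
  let v559 := A.add v541 v558
  pD2_b35 A v295 v327 v328 v329 v330 v436 v461 v483 v502 v518 v531 v559

def pD2_b33 {α : Type} (A : Alg α) (v295 v327 v328 v329 v330 v436 v461 v483 v502 v518 v526 v527 : α) : List α :=
  let v528 := A.add v526 v527
  let v529 := A.base 147
  let v530 := A.mul v329 v528
  let v531 := A.add v529 v530
  let v532 := A.base 155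
  let v533 := A.base 154
  let v534 := A.mul v329 v532
  let v535 := A.add v533 v534
  let v536 := A.base 153
  let v537 := A.mul v329 v535
  let v538 := A.add v536 v537
  let v539 := A.base 152
  let v540 := A.mul v329 v538
  let v541 := A.add v539 v540
  let v542 := A.base 158
  let v543 := A.base 157
  pD2_b34 A v295 v327 v328 v329 v330 v436 v461 v483 v502 v518 v531 v541 v542 v543

def pD2_b32 {α : Type} (A : Alg α) (v295 v327 v328 v329 v330 v436 v461 v483 v502 v510 v511 : α) : List α :=
  let v512 := A.add v510 v511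
  let v513 := A.base 142
  let v514 := A.mul v329 v512
  let v515 := A.add v513 v514
  let v516 := A.base 141
  let v517 := A.mul v329 v515
  let v518 := A.add v516 v517
  let v519 := A.base 151
  let v520 := A.base 150
  let v521 := A.mul v329 v519
  let v522 := A.add v520 v521
  let v523 := A.base 149
  let v524 := A.mul v329 v522
  let v525 := A.add v523 v524
  let v526 := A.base 148
  let v527 := A.mul v329 v525
  pD2_b33 A v295 v327 v328 v329 v330 v436 v461 v483 v502 v518 v526 v527

def pD2_b31 {α : Type} (A : Alg α) (v295 v327 v328 v329 v330 v436 v461 v483 v494 v495 : α) : List α :=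
  let v496 := A.add v494 v495
  let v497 := A.base 135
  let v498 := A.mul v329 v496
  let v499 := A.add v497 v498
  let v500 := A.base 134
  let v501 := A.mul v329 v499
  let v502 := A.add v500 v501
  let v503 := A.base 146
  let v504 := A.base 145
  let v505 := A.mul v329 v503
  let v506 := A.add v504 v505
  let v507 := A.base 144
  let v508 := A.mul v329 v506
  let v509 := A.add v507 v508
  let v510 := A.base 143
  let v511 := A.mul v329 v509
  pD2_b32 A v295 v327 v328 v329 v330 v436 v461 v483 v502 v510 v511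

def pD2_b30 {α : Type} (A : Alg α) (v295 v327 v328 v329 v330 v436 v461 v478 v479 : α) : List α :=
  let v480 := A.add v478 v479
  let v481 := A.base 126
  let v482 := A.mul v329 v480
  let v483 := A.add v481 v482
  let v484 := A.base 140
  let v485 := A.base 139
  let v486 := A.mul v329 v484
  let v487 := A.add v485 v486
  let v488 := A.base 138
  let v489 := A.mul v329 v487
  let v490 := A.add v488 v489
  let v491 := A.base 137
  let v492 := A.mul v329 v490
  let v493 := A.add v491 v492
  let v494 := A.base 136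
  let v495 := A.mul v329 v493
  pD2_b31 A v295 v327 v328 v329 v330 v436 v461 v483 v494 v495

def pD2_b29 {α : Type} (A : Alg α) (v295 v327 v328 v329 v330 v436 v461 v462 v463 : α) : List α :=
  let v464 := A.mul v329 v462
  let v465 := A.add v463 v464
  let v466 := A.base 131
  let v467 := A.mul v329 v465
  let v468 := A.add v466 v467
  let v469 := A.base 130
  let v470 := A.mul v329 v468
  let v471 := A.add v469 v470
  let v472 := A.base 129
  let v473 := A.mul v329 v471
  let v474 := A.add v472 v473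
  let v475 := A.base 128
  let v476 := A.mul v329 v474
  let v477 := A.add v475 v476
  let v478 := A.base 127
  let v479 := A.mul v329 v477
  pD2_b30 A v295 v327 v328 v329 v330 v436 v461 v478 v479

def pD2_b28 {α : Type} (A : Alg α) (v295 v327 v328 v329 v330 v436 v446 v447 : α) : List α :=
  let v448 := A.mul v329 v446
  let v449 := A.add v447 v448
  let v450 := A.base 120
  let v451 := A.mul v329 v449
  let v452 := A.add v450 v451
  let v453 := A.base 119
  let v454 := A.mul v329 v452
  let v455 := A.add v453 v454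
  let v456 := A.base 118
  let v457 := A.mul v329 v455
  let v458 := A.add v456 v457
  let v459 := A.base 117
  let v460 := A.mul v329 v458
  let v461 := A.add v459 v460
  let v462 := A.base 133
  let v463 := A.base 132
  pD2_b29 A v295 v327 v328 v329 v330 v436 v461 v462 v463

def pD2_b27 {α : Type} (A : Alg α) (v295 v327 v328 v329 v330 v352 v371 v387 v431 : α) : List α :=
  let v432 := A.add v387 v431
  let v433 := A.mul v330 v432
  let v434 := A.add v371 v433
  let v435 := A.mul v330 v434
  let v436 := A.add v352 v435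
  let v437 := A.base 125
  let v438 := A.base 124
  let v439 := A.mul v329 v437
  let v440 := A.add v438 v439
  let v441 := A.base 123
  let v442 := A.mul v329 v440
  let v443 := A.add v441 v442
  let v444 := A.base 122
  let v445 := A.mul v329 v443
  let v446 := A.add v444 v445
  let v447 := A.base 121
  pD2_b28 A v295 v327 v328 v329 v330 v436 v446 v447

def pD2_b26 {α : Type} (A : Alg α) (v295 v327 v328 v329 v330 v352 v371 v387 v400 v410 v414 v415 : α) : List α :=
  let v416 := A.mul v329 v414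
  let v417 := A.add v415 v416
  let v418 := A.base 115
  let v419 := A.base 114
  let v420 := A.mul v329 v418
  let v421 := A.add v419 v420
  let v422 := A.base 116
  let v423 := A.mul v330 v422
  let v424 := A.add v421 v423
  let v425 := A.mul v330 v424
  let v426 := A.add v417 v425
  let v427 := A.mul v330 v426
  let v428 := A.add v410 v427
  let v429 := A.mul v330 v428
  let v430 := A.add v400 v429
  let v431 := A.mul v330 v430
  pD2_b27 A v295 v327 v328 v329 v330 v352 v371 v387 v431

def pD2_b25 {α : Type} (A : Alg α) (v295 v327 v328 v329 v330 v352 v371 v387 v398 v399 : α) : List α :=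
  let v400 := A.add v398 v399
  let v401 := A.base 110
  let v402 := A.base 109
  let v403 := A.mul v329 v401
  let v404 := A.add v402 v403
  let v405 := A.base 108
  let v406 := A.mul v329 v404
  let v407 := A.add v405 v406
  let v408 := A.base 107
  let v409 := A.mul v329 v407
  let v410 := A.add v408 v409
  let v411 := A.base 113
  let v412 := A.base 112
  let v413 := A.mul v329 v411
  let v414 := A.add v412 v413
  let v415 := A.base 111
  pD2_b26 A v295 v327 v328 v329 v330 v352 v371 v387 v400 v410 v414 v415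

def pD2_b24 {α : Type} (A : Alg α) (v295 v327 v328 v329 v330 v352 v371 v382 v383 : α) : List α :=
  let v384 := A.add v382 v383
  let v385 := A.base 96
  let v386 := A.mul v329 v384
  let v387 := A.add v385 v386
  let v388 := A.base 106
  let v389 := A.base 105
  let v390 := A.mul v329 v388
  let v391 := A.add v389 v390
  let v392 := A.base 104
  let v393 := A.mul v329 v391
  let v394 := A.add v392 v393
  let v395 := A.base 103
  let v396 := A.mul v329 v394
  let v397 := A.add v395 v396
  let v398 := A.base 102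
  let v399 := A.mul v329 v397
  pD2_b25 A v295 v327 v328 v329 v330 v352 v371 v387 v398 v399

def pD2_b23 {α : Type} (A : Alg α) (v295 v327 v328 v329 v330 v352 v366 v367 : α) : List α :=
  let v368 := A.add v366 v367
  let v369 := A.base 89
  let v370 := A.mul v329 v368
  let v371 := A.add v369 v370
  let v372 := A.base 101
  let v373 := A.base 100
  let v374 := A.mul v329 v372
  let v375 := A.add v373 v374
  let v376 := A.base 99
  let v377 := A.mul v329 v375
  let v378 := A.add v376 v377
  let v379 := A.base 98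
  let v380 := A.mul v329 v378
  let v381 := A.add v379 v380
  let v382 := A.base 97
  let v383 := A.mul v329 v381
  pD2_b24 A v295 v327 v328 v329 v330 v352 v371 v382 v383

def pD2_b22 {α : Type} (A : Alg α) (v295 v327 v328 v329 v330 v350 v351 : α) : List α :=
  let v352 := A.add v350 v351
  let v353 := A.base 95
  let v354 := A.base 94
  let v355 := A.mul v329 v353
  let v356 := A.add v354 v355
  let v357 := A.base 93
  let v358 := A.mul v329 v356
  let v359 := A.add v357 v358
  let v360 := A.base 92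
  let v361 := A.mul v329 v359
  let v362 := A.add v360 v361
  let v363 := A.base 91
  let v364 := A.mul v329 v362
  let v365 := A.add v363 v364
  let v366 := A.base 90
  let v367 := A.mul v329 v365
  pD2_b23 A v295 v327 v328 v329 v330 v352 v366 v367

def pD2_b21 {α : Type} (A : Alg α) (v295 v327 v328 v329 v330 v334 v335 : α) : List α :=
  let v336 := A.mul v329 v334
  let v337 := A.add v335 v336
  let v338 := A.base 85
  let v339 := A.mul v329 v337
  let v340 := A.add v338 v339
  let v341 := A.base 84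
  let v342 := A.mul v329 v340
  let v343 := A.add v341 v342
  let v344 := A.base 83
  let v345 := A.mul v329 v343
  let v346 := A.add v344 v345
  let v347 := A.base 82
  let v348 := A.mul v329 v346
  let v349 := A.add v347 v348
  let v350 := A.base 81
  let v351 := A.mul v329 v349
  pD2_b22 A v295 v327 v328 v329 v330 v350 v351

def pD2_b20 {α : Type} (A : Alg α) (v19 v209 v218 v288 v289 v291 v295 v296 v318 v319 : α) : List α :=
  let v320 := A.mul v19 v288
  let v321 := A.mul v19 v289
  let v322 := A.sub v320 v209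
  let v323 := A.sub v321 v218
  let v324 := A.mul v291 v296
  let v325 := A.mul v322 v324
  let v326 := A.mul v323 v324
  let v327 := A.add v318 v325
  let v328 := A.add v319 v326
  let v329 := A.x
  let v330 := A.y
  let v331 := A.base 88
  let v332 := A.base 87
  let v333 := A.mul v329 v331
  let v334 := A.add v332 v333
  let v335 := A.base 86
  pD2_b21 A v295 v327 v328 v329 v330 v334 v335

def pD2_b19 {α : Type} (A : Alg α) (v19 v56 v66 v71 v75 v80 v85 v209 v218 v288 v289 v291 v292 v293 v295 v296 v300 v301 v302 v303 : α) : List α :=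
  let v304 := A.sub v303 v302
  let v305 := A.mul v71 v304
  let v306 := A.mul v75 v304
  let v307 := A.sub v305 v300
  let v308 := A.sub v306 v301
  let v309 := A.mul v66 v80
  let v310 := A.mul v66 v85
  let v311 := A.add v307 v309
  let v312 := A.add v308 v310
  let v313 := A.mul v56 v311
  let v314 := A.mul v56 v312
  let v315 := A.sub v293 v292
  let v316 := A.mul v71 v315
  let v317 := A.mul v75 v315
  let v318 := A.add v313 v316
  let v319 := A.add v314 v317
  pD2_b20 A v19 v209 v218 v288 v289 v291 v295 v296 v318 v319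

def pD2_b18 {α : Type} (A : Alg α) (v4 v5 v17 v19 v29 v30 v35 v56 v66 v71 v75 v80 v85 v88 v209 v218 v242 v256 v257 v272 v273 v286 v287 : α) : List α :=
  let v288 := A.sub v286 v272
  let v289 := A.sub v287 v273
  let v290 := A.mul v35 v242
  let v291 := A.cst (6) 0
  let v292 := A.mul v290 v291
  let v293 := A.mul v19 v88
  let v294 := A.mul v17 v292
  let v295 := A.sub v294 v293
  let v296 := A.mul v35 v35
  let v297 := A.mul v5 v85
  let v298 := A.mul v4 v80
  let v299 := A.add v297 v298
  let v300 := A.mul v29 v299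
  let v301 := A.mul v30 v299
  let v302 := A.mul v85 v256
  let v303 := A.mul v80 v257
  pD2_b19 A v19 v56 v66 v71 v75 v80 v85 v209 v218 v288 v289 v291 v292 v293 v295 v296 v300 v301 v302 v303

def pD2_b17 {α : Type} (A : Alg α) (v4 v5 v17 v19 v29 v30 v35 v56 v66 v71 v75 v80 v85 v88 v110 v151 v165 v179 v193 v209 v218 v223 v242 v247 v252 v255 v256 v257 v268 v269 v270 v271 : α) : List α :=
  let v272 := A.add v268 v270
  let v273 := A.sub v269 v271
  let v274 := A.add v110 v223
  let v275 := A.sub v274 v255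
  let v276 := A.mul v71 v275
  let v277 := A.mul v75 v275
  let v278 := A.sub v247 v276
  let v279 := A.sub v252 v277
  let v280 := A.mul v17 v165
  let v281 := A.mul v17 v151
  let v282 := A.sub v179 v280
  let v283 := A.add v193 v281
  let v284 := A.mul v35 v282
  let v285 := A.mul v35 v283
  let v286 := A.sub v278 v284
  let v287 := A.sub v279 v285
  pD2_b18 A v4 v5 v17 v19 v29 v30 v35 v56 v66 v71 v75 v80 v85 v88 v209 v218 v242 v256 v257 v272 v273 v286 v287

def pD2_b16 {α : Type} (A : Alg α) (v4 v5 v17 v19 v29 v30 v35 v56 v66 v71 v75 v80 v85 v88 v110 v151 v165 v179 v193 v209 v218 v223 v242 v247 v252 v255 : α) : List α :=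
  let v256 := A.base 27
  let v257 := A.base 28
  let v258 := A.mul v5 v151
  let v259 := A.mul v4 v165
  let v260 := A.sub v258 v259
  let v261 := A.mul v29 v260
  let v262 := A.mul v30 v260
  let v263 := A.mul v151 v256
  let v264 := A.mul v165 v257
  let v265 := A.add v263 v264
  let v266 := A.mul v71 v265
  let v267 := A.mul v75 v265
  let v268 := A.add v261 v266
  let v269 := A.add v262 v267
  let v270 := A.mul v66 v165
  let v271 := A.mul v66 v151
  pD2_b17 A v4 v5 v17 v19 v29 v30 v35 v56 v66 v71 v75 v80 v85 v88 v110 v151 v165 v179 v193 v209 v218 v223 v242 v247 v252 v255 v256 v257 v268 v269 v270 v271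

def pD2_b15 {α : Type} (A : Alg α) (v0 v1 v4 v5 v17 v19 v29 v30 v35 v54 v55 v56 v66 v71 v75 v80 v85 v88 v110 v124 v137 v151 v165 v179 v193 v209 v218 v223 v237 v238 v239 : α) : List α :=
  let v240 := A.sub v239 v238
  let v241 := A.mul v19 v240
  let v242 := A.sub v241 v237
  let v243 := A.base 23
  let v244 := A.mul v0 v243
  let v245 := A.base 24
  let v246 := A.mul v1 v245
  let v247 := A.add v244 v246
  let v248 := A.base 25
  let v249 := A.mul v0 v248
  let v250 := A.base 26
  let v251 := A.mul v1 v250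
  let v252 := A.add v249 v251
  let v253 := A.mul v54 v124
  let v254 := A.mul v55 v137
  let v255 := A.add v253 v254
  pD2_b16 A v4 v5 v17 v19 v29 v30 v35 v56 v66 v71 v75 v80 v85 v88 v110 v151 v165 v179 v193 v209 v218 v223 v242 v247 v252 v255

def pD2_b14 {α : Type} (A : Alg α) (v0 v1 v4 v5 v17 v19 v29 v30 v33 v35 v52 v53 v54 v55 v56 v59 v60 v66 v71 v75 v80 v85 v88 v110 v124 v137 v151 v165 v179 v193 v209 v218 v223 : α) : List α :=
  let v224 := A.base 29
  let v225 := A.base 30
  let v226 := A.mul v52 v224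
  let v227 := A.mul v53 v225
  let v228 := A.sub v226 v227
  let v229 := A.mul v33 v223
  let v230 := A.mul v35 v110
  let v231 := A.add v229 v230
  let v232 := A.mul v19 v231
  let v233 := A.add v228 v232
  let v234 := A.mul v59 v124
  let v235 := A.mul v60 v137
  let v236 := A.sub v234 v235
  let v237 := A.add v233 v236
  let v238 := A.mul v85 v151
  let v239 := A.mul v80 v165
  pD2_b15 A v0 v1 v4 v5 v17 v19 v29 v30 v35 v54 v55 v56 v66 v71 v75 v80 v85 v88 v110 v124 v137 v151 v165 v179 v193 v209 v218 v223 v237 v238 v239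

def pD2_b13 {α : Type} (A : Alg α) (v0 v1 v4 v5 v17 v19 v29 v30 v33 v35 v52 v53 v54 v55 v56 v59 v60 v66 v71 v75 v80 v85 v88 v110 v124 v137 v151 v152 v154 v157 v159 v162 v165 v179 v193 v195 v198 v200 v203 v206 v207 : α) : List α :=
  let v208 := A.sub v206 v207
  let v209 := A.add v203 v208
  let v210 := A.mul v59 v152
  let v211 := A.mul v60 v154
  let v212 := A.sub v210 v211
  let v213 := A.mul v157 v195
  let v214 := A.mul v159 v198
  let v215 := A.add v213 v214
  let v216 := A.mul v162 v200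
  let v217 := A.sub v215 v216
  let v218 := A.add v212 v217
  let v219 := A.base 31
  let v220 := A.base 32
  let v221 := A.mul v0 v219
  let v222 := A.mul v1 v220
  let v223 := A.add v221 v222
  pD2_b14 A v0 v1 v4 v5 v17 v19 v29 v30 v33 v35 v52 v53 v54 v55 v56 v59 v60 v66 v71 v75 v80 v85 v88 v110 v124 v137 v151 v165 v179 v193 v209 v218 v223

def pD2_b12 {α : Type} (A : Alg α) (v0 v1 v4 v5 v17 v19 v29 v30 v33 v35 v52 v53 v54 v55 v56 v59 v60 v66 v71 v75 v80 v85 v88 v110 v124 v137 v138 v140 v143 v145 v148 v151 v152 v154 v157 v159 v162 v165 v179 v184 v189 v191 : α) : List α :=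
  let v192 := A.add v189 v191
  let v193 := A.add v184 v192
  let v194 := A.mul v0 v59
  let v195 := A.mul v17 v194
  let v196 := A.mul v0 v60
  let v197 := A.mul v1 v59
  let v198 := A.sub v197 v196
  let v199 := A.mul v1 v60
  let v200 := A.mul v17 v199
  let v201 := A.mul v59 v138
  let v202 := A.mul v60 v140
  let v203 := A.sub v201 v202
  let v204 := A.mul v143 v195
  let v205 := A.mul v145 v198
  let v206 := A.add v204 v205
  let v207 := A.mul v148 v200
  pD2_b13 A v0 v1 v4 v5 v17 v19 v29 v30 v33 v35 v52 v53 v54 v55 v56 v59 v60 v66 v71 v75 v80 v85 v88 v110 v124 v137 v151 v152 v154 v157 v159 v162 v165 v179 v193 v195 v198 v200 v203 v206 v207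

def pD2_b11 {α : Type} (A : Alg α) (v0 v1 v4 v5 v17 v19 v29 v30 v33 v35 v52 v53 v54 v55 v56 v59 v60 v61 v62 v63 v66 v71 v75 v80 v85 v88 v110 v124 v137 v138 v140 v143 v145 v148 v151 v152 v154 v157 v159 v162 v165 v170 v175 : α) : List α :=
  let v176 := A.base 65
  let v177 := A.mul v63 v176
  let v178 := A.add v175 v177
  let v179 := A.add v170 v178
  let v180 := A.base 61
  let v181 := A.mul v0 v180
  let v182 := A.base 62
  let v183 := A.mul v1 v182
  let v184 := A.add v181 v183
  let v185 := A.base 66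
  let v186 := A.mul v61 v185
  let v187 := A.base 67
  let v188 := A.mul v62 v187
  let v189 := A.add v186 v188
  let v190 := A.base 68
  let v191 := A.mul v63 v190
  pD2_b12 A v0 v1 v4 v5 v17 v19 v29 v30 v33 v35 v52 v53 v54 v55 v56 v59 v60 v66 v71 v75 v80 v85 v88 v110 v124 v137 v138 v140 v143 v145 v148 v151 v152 v154 v157 v159 v162 v165 v179 v184 v189 v191

def pD2_b10 {α : Type} (A : Alg α) (v0 v1 v4 v5 v17 v19 v29 v30 v33 v35 v52 v53 v54 v55 v56 v59 v60 v61 v62 v63 v66 v71 v75 v80 v85 v88 v110 v124 v137 v138 v140 v143 v145 v148 v151 v152 v154 v156 v157 v158 v159 : α) : List α :=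
  let v160 := A.mul v62 v159
  let v161 := A.add v158 v160
  let v162 := A.base 58
  let v163 := A.mul v63 v162
  let v164 := A.add v161 v163
  let v165 := A.add v156 v164
  let v166 := A.base 59
  let v167 := A.mul v0 v166
  let v168 := A.base 60
  let v169 := A.mul v1 v168
  let v170 := A.add v167 v169
  let v171 := A.base 63
  let v172 := A.mul v61 v171
  let v173 := A.base 64
  let v174 := A.mul v62 v173
  let v175 := A.add v172 v174
  pD2_b11 A v0 v1 v4 v5 v17 v19 v29 v30 v33 v35 v52 v53 v54 v55 v56 v59 v60 v61 v62 v63 v66 v71 v75 v80 v85 v88 v110 v124 v137 v138 v140 v143 v145 v148 v151 v152 v154 v157 v159 v162 v165 v170 v175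

def pD2_b9 {α : Type} (A : Alg α) (v0 v1 v4 v5 v17 v19 v29 v30 v33 v35 v52 v53 v54 v55 v56 v59 v60 v61 v62 v63 v66 v71 v75 v80 v85 v88 v110 v124 v137 v138 v140 v142 v143 : α) : List α :=
  let v144 := A.mul v61 v143
  let v145 := A.base 54
  let v146 := A.mul v62 v145
  let v147 := A.add v144 v146
  let v148 := A.base 55
  let v149 := A.mul v63 v148
  let v150 := A.add v147 v149
  let v151 := A.add v142 v150
  let v152 := A.base 51
  let v153 := A.mul v0 v152
  let v154 := A.base 52
  let v155 := A.mul v1 v154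
  let v156 := A.add v153 v155
  let v157 := A.base 56
  let v158 := A.mul v61 v157
  let v159 := A.base 57
  pD2_b10 A v0 v1 v4 v5 v17 v19 v29 v30 v33 v35 v52 v53 v54 v55 v56 v59 v60 v61 v62 v63 v66 v71 v75 v80 v85 v88 v110 v124 v137 v138 v140 v143 v145 v148 v151 v152 v154 v156 v157 v158 v159

def pD2_b8 {α : Type} (A : Alg α) (v0 v1 v4 v5 v17 v19 v29 v30 v33 v35 v52 v53 v54 v55 v56 v59 v60 v61 v62 v63 v66 v71 v75 v80 v85 v88 v110 v124 v125 v127 : α) : List α :=
  let v128 := A.add v125 v127
  let v129 := A.base 39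
  let v130 := A.mul v61 v129
  let v131 := A.base 40
  let v132 := A.mul v62 v131
  let v133 := A.add v130 v132
  let v134 := A.base 41
  let v135 := A.mul v63 v134
  let v136 := A.add v133 v135
  let v137 := A.add v128 v136
  let v138 := A.base 49
  let v139 := A.mul v0 v138
  let v140 := A.base 50
  let v141 := A.mul v1 v140
  let v142 := A.add v139 v141
  let v143 := A.base 53
  pD2_b9 A v0 v1 v4 v5 v17 v19 v29 v30 v33 v35 v52 v53 v54 v55 v56 v59 v60 v61 v62 v63 v66 v71 v75 v80 v85 v88 v110 v124 v137 v138 v140 v142 v143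

def pD2_b7 {α : Type} (A : Alg α) (v0 v1 v4 v5 v17 v19 v29 v30 v33 v35 v52 v53 v54 v55 v56 v59 v60 v61 v62 v63 v66 v71 v75 v80 v85 v88 v110 v111 : α) : List α :=
  let v112 := A.mul v0 v111
  let v113 := A.base 34
  let v114 := A.mul v1 v113
  let v115 := A.add v112 v114
  let v116 := A.base 36
  let v117 := A.mul v61 v116
  let v118 := A.base 37
  let v119 := A.mul v62 v118
  let v120 := A.add v117 v119
  let v121 := A.base 38
  let v122 := A.mul v63 v121
  let v123 := A.add v120 v122
  let v124 := A.add v115 v123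
  let v125 := A.mul v0 v113
  let v126 := A.base 35
  let v127 := A.mul v1 v126
  pD2_b8 A v0 v1 v4 v5 v17 v19 v29 v30 v33 v35 v52 v53 v54 v55 v56 v59 v60 v61 v62 v63 v66 v71 v75 v80 v85 v88 v110 v124 v125 v127

def pD2_b6 {α : Type} (A : Alg α) (v0 v1 v4 v5 v17 v19 v29 v30 v33 v35 v52 v53 v54 v55 v56 v59 v60 v61 v62 v63 v66 v71 v75 v80 v85 v88 v94 v95 : α) : List α :=
  let v96 := A.mul v0 v95
  let v97 := A.base 48
  let v98 := A.mul v1 v97
  let v99 := A.add v96 v98
  let v100 := A.mul v63 v99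
  let v101 := A.add v94 v100
  let v102 := A.base 42
  let v103 := A.mul v61 v102
  let v104 := A.base 43
  let v105 := A.mul v62 v104
  let v106 := A.add v103 v105
  let v107 := A.base 44
  let v108 := A.mul v63 v107
  let v109 := A.add v106 v108
  let v110 := A.add v101 v109
  let v111 := A.base 33
  pD2_b7 A v0 v1 v4 v5 v17 v19 v29 v30 v33 v35 v52 v53 v54 v55 v56 v59 v60 v61 v62 v63 v66 v71 v75 v80 v85 v88 v110 v111

def pD2_b5 {α : Type} (A : Alg α) (v0 v1 v4 v5 v17 v19 v29 v30 v33 v35 v52 v53 v54 v55 v56 v59 v60 v61 v62 v63 v66 v71 v75 v77 v79 : α) : List α :=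
  let v80 := A.add v77 v79
  let v81 := A.base 21
  let v82 := A.mul v0 v81
  let v83 := A.base 22
  let v84 := A.mul v1 v83
  let v85 := A.add v82 v84
  let v86 := A.mul v80 v80
  let v87 := A.mul v85 v85
  let v88 := A.add v86 v87
  let v89 := A.base 45
  let v90 := A.mul v0 v89
  let v91 := A.base 46
  let v92 := A.mul v1 v91
  let v93 := A.add v90 v92
  let v94 := A.mul v61 v93
  let v95 := A.base 47
  pD2_b6 A v0 v1 v4 v5 v17 v19 v29 v30 v33 v35 v52 v53 v54 v55 v56 v59 v60 v61 v62 v63 v66 v71 v75 v80 v85 v88 v94 v95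

def pD2_b4 {α : Type} (A : Alg α) (v0 v1 v4 v5 v17 v19 v29 v30 v33 v35 v52 v53 v54 v55 v56 v59 v60 v61 v62 v63 : α) : List α :=
  let v64 := A.mul v4 v29
  let v65 := A.mul v5 v30
  let v66 := A.add v64 v65
  let v67 := A.base 16
  let v68 := A.mul v4 v67
  let v69 := A.base 17
  let v70 := A.mul v5 v69
  let v71 := A.add v68 v70
  let v72 := A.mul v4 v69
  let v73 := A.base 18
  let v74 := A.mul v5 v73
  let v75 := A.add v72 v74
  let v76 := A.base 19
  let v77 := A.mul v0 v76
  let v78 := A.base 20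
  let v79 := A.mul v1 v78
  pD2_b5 A v0 v1 v4 v5 v17 v19 v29 v30 v33 v35 v52 v53 v54 v55 v56 v59 v60 v61 v62 v63 v66 v71 v75 v77 v79

def pD2_b3 {α : Type} (A : Alg α) (v0 v1 v4 v5 v17 v19 v27 v28 v29 v30 v33 v35 v36 v37 v42 v47 : α) : List α :=
  let v48 := A.add v36 v42
  let v49 := A.add v37 v47
  let v50 := A.mul v19 v48
  let v51 := A.mul v19 v49
  let v52 := A.sub v28 v50
  let v53 := A.add v27 v51
  let v54 := A.base 11
  let v55 := A.base 12
  let v56 := A.mul v19 v35
  let v57 := A.mul v54 v56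
  let v58 := A.mul v55 v56
  let v59 := A.sub v28 v57
  let v60 := A.add v27 v58
  let v61 := A.mul v0 v0
  let v62 := A.mul v0 v1
  let v63 := A.mul v1 v1
  pD2_b4 A v0 v1 v4 v5 v17 v19 v29 v30 v33 v35 v52 v53 v54 v55 v56 v59 v60 v61 v62 v63

def pD2_b2 {α : Type} (A : Alg α) (v0 v1 v4 v5 v17 v19 v27 v28 v29 v30 v31 : α) : List α :=
  let v32 := A.mul v1 v30
  let v33 := A.add v31 v32
  let v34 := A.base 15
  let v35 := A.add v33 v34
  let v36 := A.base 13
  let v37 := A.base 14
  let v38 := A.base 7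
  let v39 := A.mul v0 v38
  let v40 := A.base 8
  let v41 := A.mul v1 v40
  let v42 := A.add v39 v41
  let v43 := A.base 9
  let v44 := A.mul v0 v43
  let v45 := A.base 10
  let v46 := A.mul v1 v45
  let v47 := A.add v44 v46
  pD2_b3 A v0 v1 v4 v5 v17 v19 v27 v28 v29 v30 v33 v35 v36 v37 v42 v47

def pD2_b1 {α : Type} (A : Alg α) (v0 v1 v4 v5 v7 v8 v12 v13 v14 v15 : α) : List α :=
  let v16 := A.add v14 v15
  let v17 := A.cst (2) 0
  let v18 := A.mul v16 v17
  let v19 := A.add v18 v12
  let v20 := A.mul v13 v17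
  let v21 := A.mul v7 v20
  let v22 := A.mul v8 v20
  let v23 := A.mul v4 v19
  let v24 := A.mul v5 v19
  let v25 := A.add v21 v23
  let v26 := A.add v22 v24
  let v27 := A.mul v13 v25
  let v28 := A.mul v13 v26
  let v29 := A.base 5
  let v30 := A.base 6
  let v31 := A.mul v0 v29
  pD2_b2 A v0 v1 v4 v5 v17 v19 v27 v28 v29 v30 v31

def pD2_f {α : Type} (A : Alg α) : List α :=
  let v0 := A.x
  let v1 := A.y
  let v2 := A.base 0
  let v3 := A.base 1
  let v4 := A.add v0 v2
  let v5 := A.add v1 v3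
  let v6 := A.base 78
  let v7 := A.cst (1) 1
  let v8 := A.mul v6 v7
  let v9 := A.mul v4 v4
  let v10 := A.mul v5 v5
  let v11 := A.add v9 v10
  let v12 := A.cst (1) 0
  let v13 := A.sub v12 v11
  let v14 := A.mul v4 v7
  let v15 := A.mul v5 v8
  pD2_b1 A v0 v1 v4 v5 v7 v8 v12 v13 v14 v15

theorem pD2_h {α : Type} (A : Alg α) : pD2_f A = outs A pD2_P pD2_o := rfl

def pD2 : Prg := ⟨pD2_P, pD2_o, pD2_f, pD2_h⟩

/-- last part -/
def pD2_z : List Op := [.cst 12 0, .mul 0 267, .sub 409 0, .cst 6 0, .mul 0 137, .sub 380 0, .mul 2 6, .sub 381 0]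

theorem pD2_parts : pD2_P = pE2 ++ (pH1 ++ pD2_z) := rfl

theorem pD2_val (P : Pt) (l : List ℝ) (r s : ℝ) (β : ℕ → ℝ)
    (hβ : β = fun i => get 0 (P.syl l) i) :
    OutEq (run (realAlg β r s) pD2_P []) pD2_o
      [P.E12 1 ⟨r, s⟩ (ηd 2 (P.ys + ⟨r, s⟩) - (P.V0 + P.DV ⟨r, s⟩) * ((1 - 2 * dt (uu 2) (P.ys + ⟨r, s⟩)) : ℝ)) (ηd 2 (P.ys + ⟨r, s⟩) - P.V0 / (P.fs : ℂ) * ((1 - 2 * dt (uu 2) (P.ys + ⟨r, s⟩)) * (P.fs + dt P.ns ⟨r, s⟩) : ℝ)) (1 - 2 * dt (uu 2) (P.ys + ⟨r, s⟩))
        - 12 * hr2 β r s 81 7,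
      (P.G6 1 ⟨r, s⟩ (ηd 2 (P.ys + ⟨r, s⟩) - (P.V0 + P.DV ⟨r, s⟩) * ((1 - 2 * dt (uu 2) (P.ys + ⟨r, s⟩)) : ℝ)) (ηd 2 (P.ys + ⟨r, s⟩) - P.V0 / (P.fs : ℂ) * ((1 - 2 * dt (uu 2) (P.ys + ⟨r, s⟩)) * (P.fs + dt P.ns ⟨r, s⟩) : ℝ)) (1 - 2 * dt (uu 2) (P.ys + ⟨r, s⟩))).re
        - 6 * hr2 β r s 117 8,
      (P.G6 1 ⟨r, s⟩ (ηd 2 (P.ys + ⟨r, s⟩) - (P.V0 + P.DV ⟨r, s⟩) * ((1 - 2 * dt (uu 2) (P.ys + ⟨r, s⟩)) : ℝ)) (ηd 2 (P.ys + ⟨r, s⟩) - P.V0 / (P.fs : ℂ) * ((1 - 2 * dt (uu 2) (P.ys + ⟨r, s⟩)) * (P.fs + dt P.ns ⟨r, s⟩) : ℝ)) (1 - 2 * dt (uu 2) (P.ys + ⟨r, s⟩))).im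
        - 6 * hr2 β r s 162 8] := by
  have hE := pE2_val P l r s
  rw [← hβ] at hE
  obtain ⟨st1, e1⟩ : ∃ q, q = run (realAlg β r s) pE2 [] := ⟨_, rfl⟩
  rw [← e1] at hE
  have hH := pH1_val β r s st1
  have hL := fun k n h => get_run_add' (realAlg β r s) 0 pH1 st1 k n h
  obtain ⟨st2, e2⟩ : ∃ q, q = run (realAlg β r s) pH1 st1 := ⟨_, rfl⟩
  rw [← e2] at hH
  rw [← e2] at hL
  obtain ⟨a0, a1, a2, a3, -⟩ := hE
  obtain ⟨b0, b1, b2, -⟩ := hH
  rw [pD2_parts, run_append, run_append, ← e1, ← e2]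
  have h := trE_runst2 (realAlg β r s) pD2_z st2
  unfold pD2_z at h
  obtain ⟨v0, h0, h⟩ := h
  obtain ⟨v1, h1, h⟩ := h
  obtain ⟨v2, h2, h⟩ := h
  obtain ⟨v3, h3, h⟩ := h
  obtain ⟨v4, h4, h⟩ := h
  obtain ⟨v5, h5, h⟩ := h
  obtain ⟨v6, h6, h⟩ := h
  obtain ⟨v7, h7, h⟩ := h
  have cE12 : get 0 st2 407 = P.E12 1 ⟨r, s⟩ (ηd 2 (P.ys + ⟨r, s⟩) - (P.V0 + P.DV ⟨r, s⟩) * ((1 - 2 * dt (uu 2) (P.ys + ⟨r, s⟩)) : ℝ)) (ηd 2 (P.ys + ⟨r, s⟩) - P.V0 / (P.fs : ℂ) * ((1 - 2 * dt (uu 2) (P.ys + ⟨r, s⟩)) * (P.fs + dt P.ns ⟨r, s⟩) : ℝ)) (1 - 2 * dt (uu 2) (P.ys + ⟨r, s⟩)) := (hL 33 407 rfl).trans a0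
  replace h0 : v0 = (12 : ℝ) := by rw [h0]; norm_num [step, realAlg]
  change v1 = v0 * get 0 st2 266 at h1
  rw [h0, b0] at h1
  change v2 = get 0 st2 407 - v1 at h2
  rw [cE12, h1] at h2
  have cG6r : get 0 st2 375 = (P.G6 1 ⟨r, s⟩ (ηd 2 (P.ys + ⟨r, s⟩) - (P.V0 + P.DV ⟨r, s⟩) * ((1 - 2 * dt (uu 2) (P.ys + ⟨r, s⟩)) : ℝ)) (ηd 2 (P.ys + ⟨r, s⟩) - P.V0 / (P.fs : ℂ) * ((1 - 2 * dt (uu 2) (P.ys + ⟨r, s⟩)) * (P.fs + dt P.ns ⟨r, s⟩) : ℝ)) (1 - 2 * dt (uu 2) (P.ys + ⟨r, s⟩))).re := (hL 1 375 rfl).trans a1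
  replace h3 : v3 = (6 : ℝ) := by rw [h3]; norm_num [step, realAlg]
  change v4 = v3 * get 0 st2 133 at h4
  rw [h3, b1] at h4
  change v5 = get 0 st2 375 - v4 at h5
  rw [cG6r, h4] at h5
  have cG6i : get 0 st2 374 = (P.G6 1 ⟨r, s⟩ (ηd 2 (P.ys + ⟨r, s⟩) - (P.V0 + P.DV ⟨r, s⟩) * ((1 - 2 * dt (uu 2) (P.ys + ⟨r, s⟩)) : ℝ)) (ηd 2 (P.ys + ⟨r, s⟩) - P.V0 / (P.fs : ℂ) * ((1 - 2 * dt (uu 2) (P.ys + ⟨r, s⟩)) * (P.fs + dt P.ns ⟨r, s⟩) : ℝ)) (1 - 2 * dt (uu 2) (P.ys + ⟨r, s⟩))).im := (hL 0 374 rfl).trans a2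
  change v6 = v3 * get 0 st2 0 at h6
  rw [h3, b2] at h6
  change v7 = get 0 st2 374 - v6 at h7
  rw [cG6i, h6] at h7
  refine OutEq_of h ⟨h2, h5, h7, trivial⟩

end Pool.H61.Rh
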