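import Pool.Agent.H61.Rz.L2
import Pool.Agent.H61.Rz.Ap0
import Pool.Agent.H81.Lv.Hr
import Pool.Agent.H47.K3.Defs

/-! # generated: Horner program pHR -/

set_option autoImplicit false
set_option maxRecDepth 100000
set_option linter.unusedVariables false

namespace Pool.H61.Rh

open Complex Pool.H47.Kc Pool.H47.K3

/-- program -/
def pHR : List Op := [.x, .y, .base 88, .base 87, .mul 3 1, .add 1 0, .base 86, .mul 6 1,
  .add 1 0, .base 85, .mul 9 1, .add 1 0, .base 84, .mul 12 1, .add 1 0, .base 83,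
  .mul 15 1, .add 1 0, .base 82, .mul 18 1, .add 1 0, .base 81, .mul 21 1, .add 1 0,
  .base 95, .base 94, .mul 25 1, .add 1 0, .base 93, .mul 28 1, .add 1 0, .base 92,
  .mul 31 1, .add 1 0, .base 91, .mul 34 1, .add 1 0, .base 90, .mul 37 1, .add 1 0,
  .base 89, .mul 40 1, .add 1 0, .base 101, .base 100, .mul 44 1, .add 1 0, .base 99,
  .mul 47 1, .add 1 0, .base 98, .mul 50 1, .add 1 0, .base 97, .mul 53 1, .add 1 0,
  .base 96, .mul 56 1, .add 1 0, .base 106, .base 105, .mul 60 1, .add 1 0, .base 104,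
  .mul 63 1, .add 1 0, .base 103, .mul 66 1, .add 1 0, .base 102, .mul 69 1, .add 1 0,
  .base 110, .base 109, .mul 73 1, .add 1 0, .base 108, .mul 76 1, .add 1 0, .base 107,
  .mul 79 1, .add 1 0, .base 113, .base 112, .mul 83 1, .add 1 0, .base 111, .mul 86 1,
  .add 1 0, .base 115, .base 114, .mul 90 1, .add 1 0, .base 116, .mul 92 0, .add 2 0,
  .mul 94 0, .add 8 0, .mul 96 0, .add 17 0, .mul 98 0, .add 29 0, .mul 100 0, .add 44 0,
  .mul 102 0, .add 62 0, .mul 104 0, .add 83 0, .base 123, .base 122, .mul 109 1, .add 1 0,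
  .base 121, .mul 112 1, .add 1 0, .base 120, .mul 115 1, .add 1 0, .base 119, .mul 118 1,
  .add 1 0, .base 118, .mul 121 1, .add 1 0, .base 117, .mul 124 1, .add 1 0, .base 129,
  .base 128, .mul 128 1, .add 1 0, .base 127, .mul 131 1, .add 1 0, .base 126, .mul 134 1,
  .add 1 0, .base 125, .mul 137 1, .add 1 0, .base 124, .mul 140 1, .add 1 0, .base 134,
  .base 133, .mul 144 1, .add 1 0, .base 132, .mul 147 1, .add 1 0, .base 131, .mul 150 1,
  .add 1 0, .base 130, .mul 153 1, .add 1 0, .base 138, .base 137, .mul 157 1, .add 1 0,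
  .base 136, .mul 160 1, .add 1 0, .base 135, .mul 163 1, .add 1 0, .base 141, .base 140,
  .mul 167 1, .add 1 0, .base 139, .mul 170 1, .add 1 0, .base 143, .base 142, .mul 174 1,
  .add 1 0, .base 144, .mul 176 0, .add 2 0, .mul 178 0, .add 8 0, .mul 180 0, .add 17 0,
  .mul 182 0, .add 29 0, .mul 184 0, .add 44 0, .mul 186 0, .add 62 0, .base 151, .base 150,
  .mul 191 1, .add 1 0, .base 149, .mul 194 1, .add 1 0, .base 148, .mul 197 1, .add 1 0,
  .base 147, .mul 200 1, .add 1 0, .base 146, .mul 203 1, .add 1 0, .base 145, .mul 206 1,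
  .add 1 0, .base 157, .base 156, .mul 210 1, .add 1 0, .base 155, .mul 213 1, .add 1 0,
  .base 154, .mul 216 1, .add 1 0, .base 153, .mul 219 1, .add 1 0, .base 152, .mul 222 1,
  .add 1 0, .base 162, .base 161, .mul 226 1, .add 1 0, .base 160, .mul 229 1, .add 1 0,
  .base 159, .mul 232 1, .add 1 0, .base 158, .mul 235 1, .add 1 0, .base 166, .base 165,
  .mul 239 1, .add 1 0, .base 164, .mul 242 1, .add 1 0, .base 163, .mul 245 1, .add 1 0,
  .base 169, .base 168, .mul 249 1, .add 1 0, .base 167, .mul 252 1, .add 1 0, .base 171,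
  .base 170, .mul 256 1, .add 1 0, .base 172, .mul 258 0, .add 2 0, .mul 260 0, .add 8 0,
  .mul 262 0, .add 17 0, .mul 264 0, .add 29 0, .mul 266 0, .add 44 0, .mul 268 0, .add 62 0,
  .base 177, .base 176, .mul 273 1, .add 1 0, .base 175, .mul 276 1, .add 1 0, .base 174,
  .mul 279 1, .add 1 0, .base 173, .mul 282 1, .add 1 0, .base 181, .base 180, .mul 286 1,
  .add 1 0, .base 179, .mul 289 1, .add 1 0, .base 178, .mul 292 1, .add 1 0, .base 184,
  .base 183, .mul 296 1, .add 1 0, .base 182, .mul 299 1, .add 1 0, .base 186, .base 185,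
  .mul 303 1, .add 1 0, .base 187, .mul 305 0, .add 2 0, .mul 307 0, .add 8 0, .mul 309 0,
  .add 17 0, .mul 311 0, .add 29 0]

/-- positions of the outputs -/
def pHR_out : List ℕ := [207, 125, 43, 0]

/-- the final condition of the trace -/
def pHR_valQ (β : ℕ → ℝ) (r s : ℝ) (st0 : List ℝ) (st : List ℝ) : Prop := run (realAlg β r s) pHR st0 = st

theorem pHR_val_s5 (β : ℕ → ℝ) (r s : ℝ) (st0 : List ℝ)
    (v0 : ℝ) (h0 : v0 = r) (v1 : ℝ) (h1 : v1 = s) (v2 : ℝ) (v3 : ℝ) (v4 : ℝ) (v5 : ℝ) (v6 : ℝ)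
    (v7 : ℝ) (v8 : ℝ) (v9 : ℝ) (v10 : ℝ) (v11 : ℝ) (v12 : ℝ) (v13 : ℝ) (v14 : ℝ) (v15 : ℝ)
    (v16 : ℝ) (v17 : ℝ) (v18 : ℝ) (v19 : ℝ) (v20 : ℝ) (v21 : ℝ) (v22 : ℝ) (v23 : ℝ) (w81 : ℝ)
    (e_w81_d : w81 = hr β r 81 8) (v24 : ℝ) (v25 : ℝ) (v26 : ℝ) (v27 : ℝ) (v28 : ℝ) (v29 : ℝ)
    (v30 : ℝ) (v31 : ℝ) (v32 : ℝ) (v33 : ℝ) (v34 : ℝ) (v35 : ℝ) (v36 : ℝ) (v37 : ℝ) (v38 : ℝ)
    (v39 : ℝ) (v40 : ℝ) (v41 : ℝ) (v42 : ℝ) (w89 : ℝ) (e_w89_d : w89 = hr β r 89 7) (v43 : ℝ)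
    (v44 : ℝ) (v45 : ℝ) (v46 : ℝ) (v47 : ℝ) (v48 : ℝ) (v49 : ℝ) (v50 : ℝ) (v51 : ℝ) (v52 : ℝ)
    (v53 : ℝ) (v54 : ℝ) (v55 : ℝ) (v56 : ℝ) (v57 : ℝ) (v58 : ℝ) (w96 : ℝ)
    (e_w96_d : w96 = hr β r 96 6) (v59 : ℝ) (v60 : ℝ) (v61 : ℝ) (v62 : ℝ) (v63 : ℝ) (v64 : ℝ)
    (v65 : ℝ) (v66 : ℝ) (v67 : ℝ) (v68 : ℝ) (v69 : ℝ) (v70 : ℝ) (v71 : ℝ) (w102 : ℝ)
    (e_w102_d : w102 = hr β r 102 5) (v72 : ℝ) (v73 : ℝ) (v74 : ℝ) (v75 : ℝ) (v76 : ℝ) (v77 : ℝ)
    (v78 : ℝ) (v79 : ℝ) (v80 : ℝ) (v81 : ℝ) (w107 : ℝ) (e_w107_d : w107 = hr β r 107 4) (v82 : ℝ)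
    (v83 : ℝ) (v84 : ℝ) (v85 : ℝ) (v86 : ℝ) (v87 : ℝ) (v88 : ℝ) (w111 : ℝ)
    (e_w111_d : w111 = hr β r 111 3) (v89 : ℝ) (v90 : ℝ) (v91 : ℝ) (v92 : ℝ) (w114 : ℝ)
    (e_w114_d : w114 = hr β r 114 2) (v93 : ℝ) (v94 : ℝ) (v95 : ℝ) (v96 : ℝ) (v97 : ℝ) (v98 : ℝ)
    (v99 : ℝ) (v100 : ℝ) (v101 : ℝ) (v102 : ℝ) (v103 : ℝ) (v104 : ℝ) (v105 : ℝ) (v106 : ℝ)
    (v107 : ℝ) (C3 : ℝ) (e_C3_d : C3 = hr2 β r s 81 7) (e_C3_v : v107 = C3) (v108 : ℝ) (v109 : ℝ)
    (v110 : ℝ) (v111 : ℝ) (v112 : ℝ) (v113 : ℝ) (v114 : ℝ) (v115 : ℝ) (v116 : ℝ) (v117 : ℝ)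
    (v118 : ℝ) (v119 : ℝ) (v120 : ℝ) (v121 : ℝ) (v122 : ℝ) (v123 : ℝ) (v124 : ℝ) (v125 : ℝ)
    (v126 : ℝ) (w117 : ℝ) (e_w117_d : w117 = hr β r 117 7) (v127 : ℝ) (v128 : ℝ) (v129 : ℝ)
    (v130 : ℝ) (v131 : ℝ) (v132 : ℝ) (v133 : ℝ) (v134 : ℝ) (v135 : ℝ) (v136 : ℝ) (v137 : ℝ)
    (v138 : ℝ) (v139 : ℝ) (v140 : ℝ) (v141 : ℝ) (v142 : ℝ) (w124 : ℝ)
    (e_w124_d : w124 = hr β r 124 6) (v143 : ℝ) (v144 : ℝ) (v145 : ℝ) (v146 : ℝ) (v147 : ℝ)
    (v148 : ℝ) (v149 : ℝ) (v150 : ℝ) (v151 : ℝ) (v152 : ℝ) (v153 : ℝ) (v154 : ℝ) (v155 : ℝ)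
    (w130 : ℝ) (e_w130_d : w130 = hr β r 130 5) (v156 : ℝ) (v157 : ℝ) (v158 : ℝ) (v159 : ℝ)
    (v160 : ℝ) (v161 : ℝ) (v162 : ℝ) (v163 : ℝ) (v164 : ℝ) (v165 : ℝ) (w135 : ℝ)
    (e_w135_d : w135 = hr β r 135 4) (v166 : ℝ) (v167 : ℝ) (v168 : ℝ) (v169 : ℝ) (v170 : ℝ)
    (v171 : ℝ) (v172 : ℝ) (w139 : ℝ) (e_w139_d : w139 = hr β r 139 3) (v173 : ℝ) (v174 : ℝ)
    (v175 : ℝ) (v176 : ℝ) (w142 : ℝ) (e_w142_d : w142 = hr β r 142 2) (v177 : ℝ) (v178 : ℝ)
    (v179 : ℝ) (v180 : ℝ) (v181 : ℝ) (v182 : ℝ) (v183 : ℝ) (v184 : ℝ) (v185 : ℝ) (v186 : ℝ)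
    (v187 : ℝ) (v188 : ℝ) (v189 : ℝ) (Q3 : ℝ) (e_Q3_d : Q3 = hr2 β r s 117 6)
    (e_Q3_v : v189 = Q3) (v190 : ℝ) (v191 : ℝ) (v192 : ℝ) (v193 : ℝ) (v194 : ℝ) (v195 : ℝ)
    (v196 : ℝ) (v197 : ℝ) (v198 : ℝ) (v199 : ℝ) (v200 : ℝ) (v201 : ℝ) (v202 : ℝ) (v203 : ℝ)
    (v204 : ℝ) (v205 : ℝ) (v206 : ℝ) (v207 : ℝ) (v208 : ℝ) (w145 : ℝ)
    (e_w145_d : w145 = hr β r 145 7) (e_w145_v : v208 = w145) (v209 : ℝ) (v210 : ℝ) (v211 : ℝ)
    (v212 : ℝ) (v213 : ℝ) (v214 : ℝ) (v215 : ℝ) (v216 : ℝ) (v217 : ℝ) (v218 : ℝ) (v219 : ℝ)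
    (v220 : ℝ) (v221 : ℝ) (v222 : ℝ) (v223 : ℝ) (v224 : ℝ) (w152 : ℝ)
    (e_w152_d : w152 = hr β r 152 6) (e_w152_v : v224 = w152) (v225 : ℝ) (v226 : ℝ) (v227 : ℝ)
    (v228 : ℝ) (v229 : ℝ) (v230 : ℝ) (v231 : ℝ) (v232 : ℝ) (v233 : ℝ) (v234 : ℝ) (v235 : ℝ)
    (v236 : ℝ) (v237 : ℝ) (w158 : ℝ) (e_w158_d : w158 = hr β r 158 5) (e_w158_v : v237 = w158)
    (v238 : ℝ) (v239 : ℝ) (v240 : ℝ) (v241 : ℝ) (v242 : ℝ) (v243 : ℝ) (v244 : ℝ) (v245 : ℝ)
    (v246 : ℝ) (v247 : ℝ) (w163 : ℝ) (e_w163_d : w163 = hr β r 163 4) (e_w163_v : v247 = w163)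
    (v248 : ℝ) (v249 : ℝ) (v250 : ℝ) (v251 : ℝ) (v252 : ℝ) (v253 : ℝ) (v254 : ℝ) (w167 : ℝ)
    (e_w167_d : w167 = hr β r 167 3) (e_w167_v : v254 = w167) (v255 : ℝ) (v256 : ℝ) (v257 : ℝ)
    (v258 : ℝ) (w170 : ℝ) (e_w170_d : w170 = hr β r 170 2) (e_w170_v : v258 = w170)
    (h : TrE (realAlg β r s)
    [.base 172, .mul 258 0, .add 2 0, .mul 260 0, .add 8 0, .mul 262 0, .add 17 0, .mul 264 0,
    .add 29 0, .mul 266 0, .add 44 0, .mul 268 0, .add 62 0, .base 177, .base 176, .mul 273 1,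
    .add 1 0, .base 175, .mul 276 1, .add 1 0, .base 174, .mul 279 1, .add 1 0, .base 173,
    .mul 282 1, .add 1 0, .base 181, .base 180, .mul 286 1, .add 1 0, .base 179, .mul 289 1,
    .add 1 0, .base 178, .mul 292 1, .add 1 0, .base 184, .base 183, .mul 296 1, .add 1 0,
    .base 182, .mul 299 1, .add 1 0, .base 186, .base 185, .mul 303 1, .add 1 0, .base 187,
    .mul 305 0, .add 2 0, .mul 307 0, .add 8 0, .mul 309 0, .add 17 0, .mul 311 0, .add 29 0]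
    (v258 :: v257 :: v256 :: v255 :: v254 :: v253 :: v252 :: v251 :: v250 :: v249 :: v248 :: v247
    :: v246 :: v245 :: v244 :: v243 :: v242 :: v241 :: v240 :: v239 :: v238 :: v237 :: v236
    :: v235 :: v234 :: v233 :: v232 :: v231 :: v230 :: v229 :: v228 :: v227 :: v226 :: v225
    :: v224 :: v223 :: v222 :: v221 :: v220 :: v219 :: v218 :: v217 :: v216 :: v215 :: v214
    :: v213 :: v212 :: v211 :: v210 :: v209 :: v208 :: v207 :: v206 :: v205 :: v204 :: v203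
    :: v202 :: v201 :: v200 :: v199 :: v198 :: v197 :: v196 :: v195 :: v194 :: v193 :: v192
    :: v191 :: v190 :: v189 :: v188 :: v187 :: v186 :: v185 :: v184 :: v183 :: v182 :: v181
    :: v180 :: v179 :: v178 :: v177 :: v176 :: v175 :: v174 :: v173 :: v172 :: v171 :: v170
    :: v169 :: v168 :: v167 :: v166 :: v165 :: v164 :: v163 :: v162 :: v161 :: v160 :: v159
    :: v158 :: v157 :: v156 :: v155 :: v154 :: v153 :: v152 :: v151 :: v150 :: v149 :: v148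
    :: v147 :: v146 :: v145 :: v144 :: v143 :: v142 :: v141 :: v140 :: v139 :: v138 :: v137
    :: v136 :: v135 :: v134 :: v133 :: v132 :: v131 :: v130 :: v129 :: v128 :: v127 :: v126
    :: v125 :: v124 :: v123 :: v122 :: v121 :: v120 :: v119 :: v118 :: v117 :: v116 :: v115
    :: v114 :: v113 :: v112 :: v111 :: v110 :: v109 :: v108 :: v107 :: v106 :: v105 :: v104
    :: v103 :: v102 :: v101 :: v100 :: v99 :: v98 :: v97 :: v96 :: v95 :: v94 :: v93 :: v92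
    :: v91 :: v90 :: v89 :: v88 :: v87 :: v86 :: v85 :: v84 :: v83 :: v82 :: v81 :: v80 :: v79
    :: v78 :: v77 :: v76 :: v75 :: v74 :: v73 :: v72 :: v71 :: v70 :: v69 :: v68 :: v67 :: v66
    :: v65 :: v64 :: v63 :: v62 :: v61 :: v60 :: v59 :: v58 :: v57 :: v56 :: v55 :: v54 :: v53
    :: v52 :: v51 :: v50 :: v49 :: v48 :: v47 :: v46 :: v45 :: v44 :: v43 :: v42 :: v41 :: v40
    :: v39 :: v38 :: v37 :: v36 :: v35 :: v34 :: v33 :: v32 :: v31 :: v30 :: v29 :: v28 :: v27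
    :: v26 :: v25 :: v24 :: v23 :: v22 :: v21 :: v20 :: v19 :: v18 :: v17 :: v16 :: v15 :: v14
    :: v13 :: v12 :: v11 :: v10 :: v9 :: v8 :: v7 :: v6 :: v5 :: v4 :: v3 :: v2 :: v1 :: v0
    :: st0)
    (pHR_valQ β r s st0)) :
    OutEq (run (realAlg β r s) pHR st0) pHR_out
      [hr2 β r s 81 7, hr2 β r s 117 6, hr2 β r s 145 6, hr2 β r s 173 4] := by
  obtain ⟨v259, h259, h⟩ := h
  change v259 = β 172 at h259
  obtain ⟨v260, h260, h⟩ := h
  change v260 = v1 * v259 at h260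
  obtain ⟨v261, h261, h⟩ := h
  change v261 = v258 + v260 at h261
  obtain ⟨v262, h262, h⟩ := h
  change v262 = v1 * v261 at h262
  obtain ⟨v263, h263, h⟩ := h
  change v263 = v254 + v262 at h263
  obtain ⟨v264, h264, h⟩ := h
  change v264 = v1 * v263 at h264
  obtain ⟨v265, h265, h⟩ := h
  change v265 = v247 + v264 at h265
  obtain ⟨v266, h266, h⟩ := h
  change v266 = v1 * v265 at h266
  obtain ⟨v267, h267, h⟩ := h
  change v267 = v237 + v266 at h267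
  obtain ⟨v268, h268, h⟩ := h
  change v268 = v1 * v267 at h268
  obtain ⟨v269, h269, h⟩ := h
  change v269 = v224 + v268 at h269
  obtain ⟨v270, h270, h⟩ := h
  change v270 = v1 * v269 at h270
  obtain ⟨v271, h271, h⟩ := h
  change v271 = v208 + v270 at h271
  obtain ⟨R3, e_R3_d⟩ : ∃ q : ℝ, q = hr2 β r s 145 6 := ⟨_, rfl⟩
  have a_R3 : hr2 β r s 145 6 = w145 + s * (w152 + s * (w158 + s * (w163 + s * (w167 + s * (w170 + s * (β 172)))))) := by
    simp only [hr2]; rw [e_w145_d, e_w152_d, e_w158_d, e_w163_d, e_w167_d, e_w170_d]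
  have e_R3_v : v271 = R3 := by
    rw [e_R3_d, a_R3]
    simp only [h271, h270, h269, h268, h267, h266, h265, h264, h263, h262, h261, h260, h259, h1, e_w170_v, e_w167_v, e_w163_v, e_w158_v, e_w152_v, e_w145_v, mul_re, mul_im, add_re, add_im, sub_re, sub_im, neg_re, neg_im, I_re, I_im, ofReal_re,
      ofReal_im, one_re, one_im, zero_re, zero_im, dt, normSq_apply, re_ofNat, im_ofNat, conj_re, conj_im]
    try ring
  obtain ⟨v272, h272, h⟩ := h
  change v272 = β 177 at h272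
  obtain ⟨v273, h273, h⟩ := h
  change v273 = β 176 at h273
  obtain ⟨v274, h274, h⟩ := h
  change v274 = v0 * v272 at h274
  obtain ⟨v275, h275, h⟩ := h
  change v275 = v273 + v274 at h275
  obtain ⟨v276, h276, h⟩ := h
  change v276 = β 175 at h276
  obtain ⟨v277, h277, h⟩ := h
  change v277 = v0 * v275 at h277
  obtain ⟨v278, h278, h⟩ := h
  change v278 = v276 + v277 at h278
  obtain ⟨v279, h279, h⟩ := h
  change v279 = β 174 at h279
  obtain ⟨v280, h280, h⟩ := h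
  change v280 = v0 * v278 at h280
  obtain ⟨v281, h281, h⟩ := h
  change v281 = v279 + v280 at h281
  obtain ⟨v282, h282, h⟩ := h
  change v282 = β 173 at h282
  obtain ⟨v283, h283, h⟩ := h
  change v283 = v0 * v281 at h283
  obtain ⟨v284, h284, h⟩ := h
  change v284 = v282 + v283 at h284
  obtain ⟨w173, e_w173_d⟩ : ∃ q : ℝ, q = hr β r 173 5 := ⟨_, rfl⟩
  have a_w173 : hr β r 173 5 = β 173 + r * (β 174 + r * (β 175 + r * (β 176 + r * (β 177)))) := by
    simp only [hr]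
  have e_w173_v : v284 = w173 := by
    rw [e_w173_d, a_w173]
    simp only [h284, h283, h282, h281, h280, h279, h278, h277, h276, h275, h274, h273, h272, h0, mul_re, mul_im, add_re, add_im, sub_re, sub_im, neg_re, neg_im, I_re, I_im, ofReal_re,
      ofReal_im, one_re, one_im, zero_re, zero_im, dt, normSq_apply, re_ofNat, im_ofNat, conj_re, conj_im]
    try ring
  obtain ⟨v285, h285, h⟩ := h
  change v285 = β 181 at h285
  obtain ⟨v286, h286, h⟩ := h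
  change v286 = β 180 at h286
  obtain ⟨v287, h287, h⟩ := h
  change v287 = v0 * v285 at h287
  obtain ⟨v288, h288, h⟩ := h
  change v288 = v286 + v287 at h288
  obtain ⟨v289, h289, h⟩ := h
  change v289 = β 179 at h289
  obtain ⟨v290, h290, h⟩ := h
  change v290 = v0 * v288 at h290
  obtain ⟨v291, h291, h⟩ := h
  change v291 = v289 + v290 at h291
  obtain ⟨v292, h292, h⟩ := h
  change v292 = β 178 at h292
  obtain ⟨v293, h293, h⟩ := h
  change v293 = v0 * v291 at h293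
  obtain ⟨v294, h294, h⟩ := h
  change v294 = v292 + v293 at h294
  obtain ⟨w178, e_w178_d⟩ : ∃ q : ℝ, q = hr β r 178 4 := ⟨_, rfl⟩
  have a_w178 : hr β r 178 4 = β 178 + r * (β 179 + r * (β 180 + r * (β 181))) := by
    simp only [hr]
  have e_w178_v : v294 = w178 := by
    rw [e_w178_d, a_w178]
    simp only [h294, h293, h292, h291, h290, h289, h288, h287, h286, h285, h0, mul_re, mul_im, add_re, add_im, sub_re, sub_im, neg_re, neg_im, I_re, I_im, ofReal_re,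
      ofReal_im, one_re, one_im, zero_re, zero_im, dt, normSq_apply, re_ofNat, im_ofNat, conj_re, conj_im]
    try ring
  obtain ⟨v295, h295, h⟩ := h
  change v295 = β 184 at h295
  obtain ⟨v296, h296, h⟩ := h
  change v296 = β 183 at h296
  obtain ⟨v297, h297, h⟩ := h
  change v297 = v0 * v295 at h297
  obtain ⟨v298, h298, h⟩ := h
  change v298 = v296 + v297 at h298
  obtain ⟨v299, h299, h⟩ := h
  change v299 = β 182 at h299
  obtain ⟨v300, h300, h⟩ := h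
  change v300 = v0 * v298 at h300
  obtain ⟨v301, h301, h⟩ := h
  change v301 = v299 + v300 at h301
  obtain ⟨w182, e_w182_d⟩ : ∃ q : ℝ, q = hr β r 182 3 := ⟨_, rfl⟩
  have a_w182 : hr β r 182 3 = β 182 + r * (β 183 + r * (β 184)) := by
    simp only [hr]
  have e_w182_v : v301 = w182 := by
    rw [e_w182_d, a_w182]
    simp only [h301, h300, h299, h298, h297, h296, h295, h0, mul_re, mul_im, add_re, add_im, sub_re, sub_im, neg_re, neg_im, I_re, I_im, ofReal_re,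
      ofReal_im, one_re, one_im, zero_re, zero_im, dt, normSq_apply, re_ofNat, im_ofNat, conj_re, conj_im]
    try ring
  obtain ⟨v302, h302, h⟩ := h
  change v302 = β 186 at h302
  obtain ⟨v303, h303, h⟩ := h
  change v303 = β 185 at h303
  obtain ⟨v304, h304, h⟩ := h
  change v304 = v0 * v302 at h304
  obtain ⟨v305, h305, h⟩ := h
  change v305 = v303 + v304 at h305
  obtain ⟨w185, e_w185_d⟩ : ∃ q : ℝ, q = hr β r 185 2 := ⟨_, rfl⟩
  have a_w185 : hr β r 185 2 = β 185 + r * (β 186) := by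
    simp only [hr]
  have e_w185_v : v305 = w185 := by
    rw [e_w185_d, a_w185]
    simp only [h305, h304, h303, h302, h0, mul_re, mul_im, add_re, add_im, sub_re, sub_im, neg_re, neg_im, I_re, I_im, ofReal_re,
      ofReal_im, one_re, one_im, zero_re, zero_im, dt, normSq_apply, re_ofNat, im_ofNat, conj_re, conj_im]
    try ring
  obtain ⟨v306, h306, h⟩ := h
  change v306 = β 187 at h306
  obtain ⟨v307, h307, h⟩ := h
  change v307 = v1 * v306 at h307
  obtain ⟨v308, h308, h⟩ := h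
  change v308 = v305 + v307 at h308
  obtain ⟨v309, h309, h⟩ := h
  change v309 = v1 * v308 at h309
  obtain ⟨v310, h310, h⟩ := h
  change v310 = v301 + v309 at h310
  obtain ⟨v311, h311, h⟩ := h
  change v311 = v1 * v310 at h311
  obtain ⟨v312, h312, h⟩ := h
  change v312 = v294 + v311 at h312
  obtain ⟨v313, h313, h⟩ := h
  change v313 = v1 * v312 at h313
  obtain ⟨v314, h314, h⟩ := h
  change v314 = v284 + v313 at h314
  obtain ⟨Y3, e_Y3_d⟩ : ∃ q : ℝ, q = hr2 β r s 173 4 := ⟨_, rfl⟩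
  have a_Y3 : hr2 β r s 173 4 = w173 + s * (w178 + s * (w182 + s * (w185 + s * (β 187)))) := by
    simp only [hr2]; rw [e_w173_d, e_w178_d, e_w182_d, e_w185_d]
  have e_Y3_v : v314 = Y3 := by
    rw [e_Y3_d, a_Y3]
    simp only [h314, h313, h312, h311, h310, h309, h308, h307, h306, h1, e_w185_v, e_w182_v, e_w178_v, e_w173_v, mul_re, mul_im, add_re, add_im, sub_re, sub_im, neg_re, neg_im, I_re, I_im, ofReal_re,
      ofReal_im, one_re, one_im, zero_re, zero_im, dt, normSq_apply, re_ofNat, im_ofNat, conj_re, conj_im]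
    try ring
  obtain ⟨o_C3, e_o_C3_d⟩ : ∃ q : ℝ, q = C3 := ⟨_, rfl⟩
  have a_o_C3 : C3 = C3 := by
    rfl
  have e_o_C3_v : v107 = o_C3 := by
    rw [e_o_C3_d, a_o_C3]
    simp only [e_C3_v, mul_re, mul_im, add_re, add_im, sub_re, sub_im, neg_re, neg_im, I_re, I_im, ofReal_re,
      ofReal_im, one_re, one_im, zero_re, zero_im, dt, normSq_apply, re_ofNat, im_ofNat, conj_re, conj_im]
    try ring
  obtain ⟨o_Q3, e_o_Q3_d⟩ : ∃ q : ℝ, q = Q3 := ⟨_, rfl⟩
  have a_o_Q3 : Q3 = Q3 := by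
    rfl
  have e_o_Q3_v : v189 = o_Q3 := by
    rw [e_o_Q3_d, a_o_Q3]
    simp only [e_Q3_v, mul_re, mul_im, add_re, add_im, sub_re, sub_im, neg_re, neg_im, I_re, I_im, ofReal_re,
      ofReal_im, one_re, one_im, zero_re, zero_im, dt, normSq_apply, re_ofNat, im_ofNat, conj_re, conj_im]
    try ring
  obtain ⟨o_R3, e_o_R3_d⟩ : ∃ q : ℝ, q = R3 := ⟨_, rfl⟩
  have a_o_R3 : R3 = R3 := by
    rfl
  have e_o_R3_v : v271 = o_R3 := by
    rw [e_o_R3_d, a_o_R3]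
    simp only [e_R3_v, mul_re, mul_im, add_re, add_im, sub_re, sub_im, neg_re, neg_im, I_re, I_im, ofReal_re,
      ofReal_im, one_re, one_im, zero_re, zero_im, dt, normSq_apply, re_ofNat, im_ofNat, conj_re, conj_im]
    try ring
  obtain ⟨o_Y3, e_o_Y3_d⟩ : ∃ q : ℝ, q = Y3 := ⟨_, rfl⟩
  have a_o_Y3 : Y3 = Y3 := by
    rfl
  have e_o_Y3_v : v314 = o_Y3 := by
    rw [e_o_Y3_d, a_o_Y3]
    simp only [e_Y3_v, mul_re, mul_im, add_re, add_im, sub_re, sub_im, neg_re, neg_im, I_re, I_im, ofReal_re,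
      ofReal_im, one_re, one_im, zero_re, zero_im, dt, normSq_apply, re_ofNat, im_ofNat, conj_re, conj_im]
    try ring
  refine OutEq_of h ?_
  refine ⟨e_o_C3_v.trans ?_, e_o_Q3_v.trans ?_, e_o_R3_v.trans ?_, e_o_Y3_v.trans ?_, trivial⟩
  all_goals
    subst o_Y3 o_R3 o_Q3 o_C3 Y3 w185 w182 w178 w173 R3 w170 w167 w163 w158 w152 w145 Q3 w142 w139 w135 w130 w124 w117 C3 w114 w111 w107 w102 w96 w89 w81
    rfl

theorem pHR_val_s4 (β : ℕ → ℝ) (r s : ℝ) (st0 : List ℝ)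
    (v0 : ℝ) (h0 : v0 = r) (v1 : ℝ) (h1 : v1 = s) (v2 : ℝ) (v3 : ℝ) (v4 : ℝ) (v5 : ℝ) (v6 : ℝ)
    (v7 : ℝ) (v8 : ℝ) (v9 : ℝ) (v10 : ℝ) (v11 : ℝ) (v12 : ℝ) (v13 : ℝ) (v14 : ℝ) (v15 : ℝ)
    (v16 : ℝ) (v17 : ℝ) (v18 : ℝ) (v19 : ℝ) (v20 : ℝ) (v21 : ℝ) (v22 : ℝ) (v23 : ℝ) (w81 : ℝ)
    (e_w81_d : w81 = hr β r 81 8) (v24 : ℝ) (v25 : ℝ) (v26 : ℝ) (v27 : ℝ) (v28 : ℝ) (v29 : ℝ)
    (v30 : ℝ) (v31 : ℝ) (v32 : ℝ) (v33 : ℝ) (v34 : ℝ) (v35 : ℝ) (v36 : ℝ) (v37 : ℝ) (v38 : ℝ)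
    (v39 : ℝ) (v40 : ℝ) (v41 : ℝ) (v42 : ℝ) (w89 : ℝ) (e_w89_d : w89 = hr β r 89 7) (v43 : ℝ)
    (v44 : ℝ) (v45 : ℝ) (v46 : ℝ) (v47 : ℝ) (v48 : ℝ) (v49 : ℝ) (v50 : ℝ) (v51 : ℝ) (v52 : ℝ)
    (v53 : ℝ) (v54 : ℝ) (v55 : ℝ) (v56 : ℝ) (v57 : ℝ) (v58 : ℝ) (w96 : ℝ)
    (e_w96_d : w96 = hr β r 96 6) (v59 : ℝ) (v60 : ℝ) (v61 : ℝ) (v62 : ℝ) (v63 : ℝ) (v64 : ℝ)
    (v65 : ℝ) (v66 : ℝ) (v67 : ℝ) (v68 : ℝ) (v69 : ℝ) (v70 : ℝ) (v71 : ℝ) (w102 : ℝ)
    (e_w102_d : w102 = hr β r 102 5) (v72 : ℝ) (v73 : ℝ) (v74 : ℝ) (v75 : ℝ) (v76 : ℝ) (v77 : ℝ)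
    (v78 : ℝ) (v79 : ℝ) (v80 : ℝ) (v81 : ℝ) (w107 : ℝ) (e_w107_d : w107 = hr β r 107 4) (v82 : ℝ)
    (v83 : ℝ) (v84 : ℝ) (v85 : ℝ) (v86 : ℝ) (v87 : ℝ) (v88 : ℝ) (w111 : ℝ)
    (e_w111_d : w111 = hr β r 111 3) (v89 : ℝ) (v90 : ℝ) (v91 : ℝ) (v92 : ℝ) (w114 : ℝ)
    (e_w114_d : w114 = hr β r 114 2) (v93 : ℝ) (v94 : ℝ) (v95 : ℝ) (v96 : ℝ) (v97 : ℝ) (v98 : ℝ)
    (v99 : ℝ) (v100 : ℝ) (v101 : ℝ) (v102 : ℝ) (v103 : ℝ) (v104 : ℝ) (v105 : ℝ) (v106 : ℝ)
    (v107 : ℝ) (C3 : ℝ) (e_C3_d : C3 = hr2 β r s 81 7) (e_C3_v : v107 = C3) (v108 : ℝ) (v109 : ℝ)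
    (v110 : ℝ) (v111 : ℝ) (v112 : ℝ) (v113 : ℝ) (v114 : ℝ) (v115 : ℝ) (v116 : ℝ) (v117 : ℝ)
    (v118 : ℝ) (v119 : ℝ) (v120 : ℝ) (v121 : ℝ) (v122 : ℝ) (v123 : ℝ) (v124 : ℝ) (v125 : ℝ)
    (v126 : ℝ) (w117 : ℝ) (e_w117_d : w117 = hr β r 117 7) (v127 : ℝ) (v128 : ℝ) (v129 : ℝ)
    (v130 : ℝ) (v131 : ℝ) (v132 : ℝ) (v133 : ℝ) (v134 : ℝ) (v135 : ℝ) (v136 : ℝ) (v137 : ℝ)
    (v138 : ℝ) (v139 : ℝ) (v140 : ℝ) (v141 : ℝ) (v142 : ℝ) (w124 : ℝ)
    (e_w124_d : w124 = hr β r 124 6) (v143 : ℝ) (v144 : ℝ) (v145 : ℝ) (v146 : ℝ) (v147 : ℝ)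
    (v148 : ℝ) (v149 : ℝ) (v150 : ℝ) (v151 : ℝ) (v152 : ℝ) (v153 : ℝ) (v154 : ℝ) (v155 : ℝ)
    (w130 : ℝ) (e_w130_d : w130 = hr β r 130 5) (v156 : ℝ) (v157 : ℝ) (v158 : ℝ) (v159 : ℝ)
    (v160 : ℝ) (v161 : ℝ) (v162 : ℝ) (v163 : ℝ) (v164 : ℝ) (v165 : ℝ) (w135 : ℝ)
    (e_w135_d : w135 = hr β r 135 4) (v166 : ℝ) (v167 : ℝ) (v168 : ℝ) (v169 : ℝ) (v170 : ℝ)
    (v171 : ℝ) (v172 : ℝ) (w139 : ℝ) (e_w139_d : w139 = hr β r 139 3) (v173 : ℝ) (v174 : ℝ)
    (v175 : ℝ) (v176 : ℝ) (w142 : ℝ) (e_w142_d : w142 = hr β r 142 2) (v177 : ℝ) (v178 : ℝ)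
    (v179 : ℝ) (v180 : ℝ) (v181 : ℝ) (v182 : ℝ) (v183 : ℝ) (v184 : ℝ) (v185 : ℝ) (v186 : ℝ)
    (v187 : ℝ) (v188 : ℝ) (v189 : ℝ) (Q3 : ℝ) (e_Q3_d : Q3 = hr2 β r s 117 6)
    (e_Q3_v : v189 = Q3) (v190 : ℝ) (h190 : v190 = β 151) (v191 : ℝ) (h191 : v191 = β 150)
    (v192 : ℝ) (h192 : v192 = v0 * v190) (v193 : ℝ) (h193 : v193 = v191 + v192) (v194 : ℝ)
    (h194 : v194 = β 149)
    (h : TrE (realAlg β r s)
    [.mul 194 1, .add 1 0, .base 148, .mul 197 1, .add 1 0, .base 147, .mul 200 1, .add 1 0,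
    .base 146, .mul 203 1, .add 1 0, .base 145, .mul 206 1, .add 1 0, .base 157, .base 156,
    .mul 210 1, .add 1 0, .base 155, .mul 213 1, .add 1 0, .base 154, .mul 216 1, .add 1 0,
    .base 153, .mul 219 1, .add 1 0, .base 152, .mul 222 1, .add 1 0, .base 162, .base 161,
    .mul 226 1, .add 1 0, .base 160, .mul 229 1, .add 1 0, .base 159, .mul 232 1, .add 1 0,
    .base 158, .mul 235 1, .add 1 0, .base 166, .base 165, .mul 239 1, .add 1 0, .base 164,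
    .mul 242 1, .add 1 0, .base 163, .mul 245 1, .add 1 0, .base 169, .base 168, .mul 249 1,
    .add 1 0, .base 167, .mul 252 1, .add 1 0, .base 171, .base 170, .mul 256 1, .add 1 0,
    .base 172, .mul 258 0, .add 2 0, .mul 260 0, .add 8 0, .mul 262 0, .add 17 0, .mul 264 0,
    .add 29 0, .mul 266 0, .add 44 0, .mul 268 0, .add 62 0, .base 177, .base 176, .mul 273 1,
    .add 1 0, .base 175, .mul 276 1, .add 1 0, .base 174, .mul 279 1, .add 1 0, .base 173,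
    .mul 282 1, .add 1 0, .base 181, .base 180, .mul 286 1, .add 1 0, .base 179, .mul 289 1,
    .add 1 0, .base 178, .mul 292 1, .add 1 0, .base 184, .base 183, .mul 296 1, .add 1 0,
    .base 182, .mul 299 1, .add 1 0, .base 186, .base 185, .mul 303 1, .add 1 0, .base 187,
    .mul 305 0, .add 2 0, .mul 307 0, .add 8 0, .mul 309 0, .add 17 0, .mul 311 0, .add 29 0]
    (v194 :: v193 :: v192 :: v191 :: v190 :: v189 :: v188 :: v187 :: v186 :: v185 :: v184 :: v183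
    :: v182 :: v181 :: v180 :: v179 :: v178 :: v177 :: v176 :: v175 :: v174 :: v173 :: v172
    :: v171 :: v170 :: v169 :: v168 :: v167 :: v166 :: v165 :: v164 :: v163 :: v162 :: v161
    :: v160 :: v159 :: v158 :: v157 :: v156 :: v155 :: v154 :: v153 :: v152 :: v151 :: v150
    :: v149 :: v148 :: v147 :: v146 :: v145 :: v144 :: v143 :: v142 :: v141 :: v140 :: v139
    :: v138 :: v137 :: v136 :: v135 :: v134 :: v133 :: v132 :: v131 :: v130 :: v129 :: v128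
    :: v127 :: v126 :: v125 :: v124 :: v123 :: v122 :: v121 :: v120 :: v119 :: v118 :: v117
    :: v116 :: v115 :: v114 :: v113 :: v112 :: v111 :: v110 :: v109 :: v108 :: v107 :: v106
    :: v105 :: v104 :: v103 :: v102 :: v101 :: v100 :: v99 :: v98 :: v97 :: v96 :: v95 :: v94
    :: v93 :: v92 :: v91 :: v90 :: v89 :: v88 :: v87 :: v86 :: v85 :: v84 :: v83 :: v82 :: v81
    :: v80 :: v79 :: v78 :: v77 :: v76 :: v75 :: v74 :: v73 :: v72 :: v71 :: v70 :: v69 :: v68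
    :: v67 :: v66 :: v65 :: v64 :: v63 :: v62 :: v61 :: v60 :: v59 :: v58 :: v57 :: v56 :: v55
    :: v54 :: v53 :: v52 :: v51 :: v50 :: v49 :: v48 :: v47 :: v46 :: v45 :: v44 :: v43 :: v42
    :: v41 :: v40 :: v39 :: v38 :: v37 :: v36 :: v35 :: v34 :: v33 :: v32 :: v31 :: v30 :: v29
    :: v28 :: v27 :: v26 :: v25 :: v24 :: v23 :: v22 :: v21 :: v20 :: v19 :: v18 :: v17 :: v16
    :: v15 :: v14 :: v13 :: v12 :: v11 :: v10 :: v9 :: v8 :: v7 :: v6 :: v5 :: v4 :: v3 :: v2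
    :: v1 :: v0 :: st0)
    (pHR_valQ β r s st0)) :
    OutEq (run (realAlg β r s) pHR st0) pHR_out
      [hr2 β r s 81 7, hr2 β r s 117 6, hr2 β r s 145 6, hr2 β r s 173 4] := by
  obtain ⟨v195, h195, h⟩ := h
  change v195 = v0 * v193 at h195
  obtain ⟨v196, h196, h⟩ := h
  change v196 = v194 + v195 at h196
  obtain ⟨v197, h197, h⟩ := h
  change v197 = β 148 at h197
  obtain ⟨v198, h198, h⟩ := h
  change v198 = v0 * v196 at h198
  obtain ⟨v199, h199, h⟩ := h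
  change v199 = v197 + v198 at h199
  obtain ⟨v200, h200, h⟩ := h
  change v200 = β 147 at h200
  obtain ⟨v201, h201, h⟩ := h
  change v201 = v0 * v199 at h201
  obtain ⟨v202, h202, h⟩ := h
  change v202 = v200 + v201 at h202
  obtain ⟨v203, h203, h⟩ := h
  change v203 = β 146 at h203
  obtain ⟨v204, h204, h⟩ := h
  change v204 = v0 * v202 at h204
  obtain ⟨v205, h205, h⟩ := h
  change v205 = v203 + v204 at h205
  obtain ⟨v206, h206, h⟩ := h
  change v206 = β 145 at h206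
  obtain ⟨v207, h207, h⟩ := h
  change v207 = v0 * v205 at h207
  obtain ⟨v208, h208, h⟩ := h
  change v208 = v206 + v207 at h208
  obtain ⟨w145, e_w145_d⟩ : ∃ q : ℝ, q = hr β r 145 7 := ⟨_, rfl⟩
  have a_w145 : hr β r 145 7 = β 145 + r * (β 146 + r * (β 147 + r * (β 148 + r * (β 149 + r * (β 150 + r * (β 151)))))) := by
    simp only [hr]
  have e_w145_v : v208 = w145 := by
    rw [e_w145_d, a_w145]
    simp only [h208, h207, h206, h205, h204, h203, h202, h201, h200, h199, h198, h197, h196, h195, h194, h193, h192, h191, h190, h0, mul_re, mul_im, add_re, add_im, sub_re, sub_im, neg_re, neg_im, I_re, I_im, ofReal_re,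
      ofReal_im, one_re, one_im, zero_re, zero_im, dt, normSq_apply, re_ofNat, im_ofNat, conj_re, conj_im]
    try ring
  obtain ⟨v209, h209, h⟩ := h
  change v209 = β 157 at h209
  obtain ⟨v210, h210, h⟩ := h
  change v210 = β 156 at h210
  obtain ⟨v211, h211, h⟩ := h
  change v211 = v0 * v209 at h211
  obtain ⟨v212, h212, h⟩ := h
  change v212 = v210 + v211 at h212
  obtain ⟨v213, h213, h⟩ := h
  change v213 = β 155 at h213
  obtain ⟨v214, h214, h⟩ := h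
  change v214 = v0 * v212 at h214
  obtain ⟨v215, h215, h⟩ := h
  change v215 = v213 + v214 at h215
  obtain ⟨v216, h216, h⟩ := h
  change v216 = β 154 at h216
  obtain ⟨v217, h217, h⟩ := h
  change v217 = v0 * v215 at h217
  obtain ⟨v218, h218, h⟩ := h
  change v218 = v216 + v217 at h218
  obtain ⟨v219, h219, h⟩ := h
  change v219 = β 153 at h219
  obtain ⟨v220, h220, h⟩ := h
  change v220 = v0 * v218 at h220
  obtain ⟨v221, h221, h⟩ := h
  change v221 = v219 + v220 at h221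
  obtain ⟨v222, h222, h⟩ := h
  change v222 = β 152 at h222
  obtain ⟨v223, h223, h⟩ := h
  change v223 = v0 * v221 at h223
  obtain ⟨v224, h224, h⟩ := h
  change v224 = v222 + v223 at h224
  obtain ⟨w152, e_w152_d⟩ : ∃ q : ℝ, q = hr β r 152 6 := ⟨_, rfl⟩
  have a_w152 : hr β r 152 6 = β 152 + r * (β 153 + r * (β 154 + r * (β 155 + r * (β 156 + r * (β 157))))) := by
    simp only [hr]
  have e_w152_v : v224 = w152 := by
    rw [e_w152_d, a_w152]
    simp only [h224, h223, h222, h221, h220, h219, h218, h217, h216, h215, h214, h213, h212, h211, h210, h209, h0, mul_re, mul_im, add_re, add_im, sub_re, sub_im, neg_re, neg_im, I_re, I_im, ofReal_re,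
      ofReal_im, one_re, one_im, zero_re, zero_im, dt, normSq_apply, re_ofNat, im_ofNat, conj_re, conj_im]
    try ring
  obtain ⟨v225, h225, h⟩ := h
  change v225 = β 162 at h225
  obtain ⟨v226, h226, h⟩ := h
  change v226 = β 161 at h226
  obtain ⟨v227, h227, h⟩ := h
  change v227 = v0 * v225 at h227
  obtain ⟨v228, h228, h⟩ := h
  change v228 = v226 + v227 at h228
  obtain ⟨v229, h229, h⟩ := h
  change v229 = β 160 at h229
  obtain ⟨v230, h230, h⟩ := h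
  change v230 = v0 * v228 at h230
  obtain ⟨v231, h231, h⟩ := h
  change v231 = v229 + v230 at h231
  obtain ⟨v232, h232, h⟩ := h
  change v232 = β 159 at h232
  obtain ⟨v233, h233, h⟩ := h
  change v233 = v0 * v231 at h233
  obtain ⟨v234, h234, h⟩ := h
  change v234 = v232 + v233 at h234
  obtain ⟨v235, h235, h⟩ := h
  change v235 = β 158 at h235
  obtain ⟨v236, h236, h⟩ := h
  change v236 = v0 * v234 at h236
  obtain ⟨v237, h237, h⟩ := h
  change v237 = v235 + v236 at h237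
  obtain ⟨w158, e_w158_d⟩ : ∃ q : ℝ, q = hr β r 158 5 := ⟨_, rfl⟩
  have a_w158 : hr β r 158 5 = β 158 + r * (β 159 + r * (β 160 + r * (β 161 + r * (β 162)))) := by
    simp only [hr]
  have e_w158_v : v237 = w158 := by
    rw [e_w158_d, a_w158]
    simp only [h237, h236, h235, h234, h233, h232, h231, h230, h229, h228, h227, h226, h225, h0, mul_re, mul_im, add_re, add_im, sub_re, sub_im, neg_re, neg_im, I_re, I_im, ofReal_re,
      ofReal_im, one_re, one_im, zero_re, zero_im, dt, normSq_apply, re_ofNat, im_ofNat, conj_re, conj_im]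
    try ring
  obtain ⟨v238, h238, h⟩ := h
  change v238 = β 166 at h238
  obtain ⟨v239, h239, h⟩ := h
  change v239 = β 165 at h239
  obtain ⟨v240, h240, h⟩ := h
  change v240 = v0 * v238 at h240
  obtain ⟨v241, h241, h⟩ := h
  change v241 = v239 + v240 at h241
  obtain ⟨v242, h242, h⟩ := h
  change v242 = β 164 at h242
  obtain ⟨v243, h243, h⟩ := h
  change v243 = v0 * v241 at h243
  obtain ⟨v244, h244, h⟩ := h
  change v244 = v242 + v243 at h244
  obtain ⟨v245, h245, h⟩ := h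
  change v245 = β 163 at h245
  obtain ⟨v246, h246, h⟩ := h
  change v246 = v0 * v244 at h246
  obtain ⟨v247, h247, h⟩ := h
  change v247 = v245 + v246 at h247
  obtain ⟨w163, e_w163_d⟩ : ∃ q : ℝ, q = hr β r 163 4 := ⟨_, rfl⟩
  have a_w163 : hr β r 163 4 = β 163 + r * (β 164 + r * (β 165 + r * (β 166))) := by
    simp only [hr]
  have e_w163_v : v247 = w163 := by
    rw [e_w163_d, a_w163]
    simp only [h247, h246, h245, h244, h243, h242, h241, h240, h239, h238, h0, mul_re, mul_im, add_re, add_im, sub_re, sub_im, neg_re, neg_im, I_re, I_im, ofReal_re,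
      ofReal_im, one_re, one_im, zero_re, zero_im, dt, normSq_apply, re_ofNat, im_ofNat, conj_re, conj_im]
    try ring
  obtain ⟨v248, h248, h⟩ := h
  change v248 = β 169 at h248
  obtain ⟨v249, h249, h⟩ := h
  change v249 = β 168 at h249
  obtain ⟨v250, h250, h⟩ := h
  change v250 = v0 * v248 at h250
  obtain ⟨v251, h251, h⟩ := h
  change v251 = v249 + v250 at h251
  obtain ⟨v252, h252, h⟩ := h
  change v252 = β 167 at h252
  obtain ⟨v253, h253, h⟩ := h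
  change v253 = v0 * v251 at h253
  obtain ⟨v254, h254, h⟩ := h
  change v254 = v252 + v253 at h254
  obtain ⟨w167, e_w167_d⟩ : ∃ q : ℝ, q = hr β r 167 3 := ⟨_, rfl⟩
  have a_w167 : hr β r 167 3 = β 167 + r * (β 168 + r * (β 169)) := by
    simp only [hr]
  have e_w167_v : v254 = w167 := by
    rw [e_w167_d, a_w167]
    simp only [h254, h253, h252, h251, h250, h249, h248, h0, mul_re, mul_im, add_re, add_im, sub_re, sub_im, neg_re, neg_im, I_re, I_im, ofReal_re,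
      ofReal_im, one_re, one_im, zero_re, zero_im, dt, normSq_apply, re_ofNat, im_ofNat, conj_re, conj_im]
    try ring
  obtain ⟨v255, h255, h⟩ := h
  change v255 = β 171 at h255
  obtain ⟨v256, h256, h⟩ := h
  change v256 = β 170 at h256
  obtain ⟨v257, h257, h⟩ := h
  change v257 = v0 * v255 at h257
  obtain ⟨v258, h258, h⟩ := h
  change v258 = v256 + v257 at h258
  obtain ⟨w170, e_w170_d⟩ : ∃ q : ℝ, q = hr β r 170 2 := ⟨_, rfl⟩
  have a_w170 : hr β r 170 2 = β 170 + r * (β 171) := by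
    simp only [hr]
  have e_w170_v : v258 = w170 := by
    rw [e_w170_d, a_w170]
    simp only [h258, h257, h256, h255, h0, mul_re, mul_im, add_re, add_im, sub_re, sub_im, neg_re, neg_im, I_re, I_im, ofReal_re,
      ofReal_im, one_re, one_im, zero_re, zero_im, dt, normSq_apply, re_ofNat, im_ofNat, conj_re, conj_im]
    try ring
  exact pHR_val_s5
    β r s st0 v0 h0 v1 h1 v2 v3 v4 v5 v6 v7 v8 v9 v10 v11 v12 v13 v14 v15 v16 v17 v18 v19 v20 v21
    v22 v23 w81 e_w81_d v24 v25 v26 v27 v28 v29 v30 v31 v32 v33 v34 v35 v36 v37 v38 v39 v40 v41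
    v42 w89 e_w89_d v43 v44 v45 v46 v47 v48 v49 v50 v51 v52 v53 v54 v55 v56 v57 v58 w96 e_w96_d
    v59 v60 v61 v62 v63 v64 v65 v66 v67 v68 v69 v70 v71 w102 e_w102_d v72 v73 v74 v75 v76 v77 v78
    v79 v80 v81 w107 e_w107_d v82 v83 v84 v85 v86 v87 v88 w111 e_w111_d v89 v90 v91 v92 w114
    e_w114_d v93 v94 v95 v96 v97 v98 v99 v100 v101 v102 v103 v104 v105 v106 v107 C3 e_C3_d e_C3_v
    v108 v109 v110 v111 v112 v113 v114 v115 v116 v117 v118 v119 v120 v121 v122 v123 v124 v125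
    v126 w117 e_w117_d v127 v128 v129 v130 v131 v132 v133 v134 v135 v136 v137 v138 v139 v140 v141
    v142 w124 e_w124_d v143 v144 v145 v146 v147 v148 v149 v150 v151 v152 v153 v154 v155 w130
    e_w130_d v156 v157 v158 v159 v160 v161 v162 v163 v164 v165 w135 e_w135_d v166 v167 v168 v169
    v170 v171 v172 w139 e_w139_d v173 v174 v175 v176 w142 e_w142_d v177 v178 v179 v180 v181 v182
    v183 v184 v185 v186 v187 v188 v189 Q3 e_Q3_d e_Q3_v v190 v191 v192 v193 v194 v195 v196 v197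
    v198 v199 v200 v201 v202 v203 v204 v205 v206 v207 v208 w145 e_w145_d e_w145_v v209 v210 v211
    v212 v213 v214 v215 v216 v217 v218 v219 v220 v221 v222 v223 v224 w152 e_w152_d e_w152_v v225
    v226 v227 v228 v229 v230 v231 v232 v233 v234 v235 v236 v237 w158 e_w158_d e_w158_v v238 v239
    v240 v241 v242 v243 v244 v245 v246 v247 w163 e_w163_d e_w163_v v248 v249 v250 v251 v252 v253
    v254 w167 e_w167_d e_w167_v v255 v256 v257 v258 w170 e_w170_d e_w170_v h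

theorem pHR_val_s3 (β : ℕ → ℝ) (r s : ℝ) (st0 : List ℝ)
    (v0 : ℝ) (h0 : v0 = r) (v1 : ℝ) (h1 : v1 = s) (v2 : ℝ) (v3 : ℝ) (v4 : ℝ) (v5 : ℝ) (v6 : ℝ)
    (v7 : ℝ) (v8 : ℝ) (v9 : ℝ) (v10 : ℝ) (v11 : ℝ) (v12 : ℝ) (v13 : ℝ) (v14 : ℝ) (v15 : ℝ)
    (v16 : ℝ) (v17 : ℝ) (v18 : ℝ) (v19 : ℝ) (v20 : ℝ) (v21 : ℝ) (v22 : ℝ) (v23 : ℝ) (w81 : ℝ)
    (e_w81_d : w81 = hr β r 81 8) (v24 : ℝ) (v25 : ℝ) (v26 : ℝ) (v27 : ℝ) (v28 : ℝ) (v29 : ℝ)
    (v30 : ℝ) (v31 : ℝ) (v32 : ℝ) (v33 : ℝ) (v34 : ℝ) (v35 : ℝ) (v36 : ℝ) (v37 : ℝ) (v38 : ℝ)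
    (v39 : ℝ) (v40 : ℝ) (v41 : ℝ) (v42 : ℝ) (w89 : ℝ) (e_w89_d : w89 = hr β r 89 7) (v43 : ℝ)
    (v44 : ℝ) (v45 : ℝ) (v46 : ℝ) (v47 : ℝ) (v48 : ℝ) (v49 : ℝ) (v50 : ℝ) (v51 : ℝ) (v52 : ℝ)
    (v53 : ℝ) (v54 : ℝ) (v55 : ℝ) (v56 : ℝ) (v57 : ℝ) (v58 : ℝ) (w96 : ℝ)
    (e_w96_d : w96 = hr β r 96 6) (v59 : ℝ) (v60 : ℝ) (v61 : ℝ) (v62 : ℝ) (v63 : ℝ) (v64 : ℝ)
    (v65 : ℝ) (v66 : ℝ) (v67 : ℝ) (v68 : ℝ) (v69 : ℝ) (v70 : ℝ) (v71 : ℝ) (w102 : ℝ)
    (e_w102_d : w102 = hr β r 102 5) (v72 : ℝ) (v73 : ℝ) (v74 : ℝ) (v75 : ℝ) (v76 : ℝ) (v77 : ℝ)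
    (v78 : ℝ) (v79 : ℝ) (v80 : ℝ) (v81 : ℝ) (w107 : ℝ) (e_w107_d : w107 = hr β r 107 4) (v82 : ℝ)
    (v83 : ℝ) (v84 : ℝ) (v85 : ℝ) (v86 : ℝ) (v87 : ℝ) (v88 : ℝ) (w111 : ℝ)
    (e_w111_d : w111 = hr β r 111 3) (v89 : ℝ) (v90 : ℝ) (v91 : ℝ) (v92 : ℝ) (w114 : ℝ)
    (e_w114_d : w114 = hr β r 114 2) (v93 : ℝ) (v94 : ℝ) (v95 : ℝ) (v96 : ℝ) (v97 : ℝ) (v98 : ℝ)
    (v99 : ℝ) (v100 : ℝ) (v101 : ℝ) (v102 : ℝ) (v103 : ℝ) (v104 : ℝ) (v105 : ℝ) (v106 : ℝ)
    (v107 : ℝ) (C3 : ℝ) (e_C3_d : C3 = hr2 β r s 81 7) (e_C3_v : v107 = C3) (v108 : ℝ) (v109 : ℝ)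
    (v110 : ℝ) (v111 : ℝ) (v112 : ℝ) (v113 : ℝ) (v114 : ℝ) (v115 : ℝ) (v116 : ℝ) (v117 : ℝ)
    (v118 : ℝ) (v119 : ℝ) (v120 : ℝ) (v121 : ℝ) (v122 : ℝ) (v123 : ℝ) (v124 : ℝ) (v125 : ℝ)
    (v126 : ℝ) (w117 : ℝ) (e_w117_d : w117 = hr β r 117 7) (e_w117_v : v126 = w117) (v127 : ℝ)
    (h127 : v127 = β 129) (v128 : ℝ) (h128 : v128 = β 128) (v129 : ℝ) (h129 : v129 = v0 * v127)
    (v130 : ℝ) (h130 : v130 = v128 + v129)
    (h : TrE (realAlg β r s)
    [.base 127, .mul 131 1, .add 1 0, .base 126, .mul 134 1, .add 1 0, .base 125, .mul 137 1,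
    .add 1 0, .base 124, .mul 140 1, .add 1 0, .base 134, .base 133, .mul 144 1, .add 1 0,
    .base 132, .mul 147 1, .add 1 0, .base 131, .mul 150 1, .add 1 0, .base 130, .mul 153 1,
    .add 1 0, .base 138, .base 137, .mul 157 1, .add 1 0, .base 136, .mul 160 1, .add 1 0,
    .base 135, .mul 163 1, .add 1 0, .base 141, .base 140, .mul 167 1, .add 1 0, .base 139,
    .mul 170 1, .add 1 0, .base 143, .base 142, .mul 174 1, .add 1 0, .base 144, .mul 176 0,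
    .add 2 0, .mul 178 0, .add 8 0, .mul 180 0, .add 17 0, .mul 182 0, .add 29 0, .mul 184 0,
    .add 44 0, .mul 186 0, .add 62 0, .base 151, .base 150, .mul 191 1, .add 1 0, .base 149,
    .mul 194 1, .add 1 0, .base 148, .mul 197 1, .add 1 0, .base 147, .mul 200 1, .add 1 0,
    .base 146, .mul 203 1, .add 1 0, .base 145, .mul 206 1, .add 1 0, .base 157, .base 156,
    .mul 210 1, .add 1 0, .base 155, .mul 213 1, .add 1 0, .base 154, .mul 216 1, .add 1 0,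
    .base 153, .mul 219 1, .add 1 0, .base 152, .mul 222 1, .add 1 0, .base 162, .base 161,
    .mul 226 1, .add 1 0, .base 160, .mul 229 1, .add 1 0, .base 159, .mul 232 1, .add 1 0,
    .base 158, .mul 235 1, .add 1 0, .base 166, .base 165, .mul 239 1, .add 1 0, .base 164,
    .mul 242 1, .add 1 0, .base 163, .mul 245 1, .add 1 0, .base 169, .base 168, .mul 249 1,
    .add 1 0, .base 167, .mul 252 1, .add 1 0, .base 171, .base 170, .mul 256 1, .add 1 0,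
    .base 172, .mul 258 0, .add 2 0, .mul 260 0, .add 8 0, .mul 262 0, .add 17 0, .mul 264 0,
    .add 29 0, .mul 266 0, .add 44 0, .mul 268 0, .add 62 0, .base 177, .base 176, .mul 273 1,
    .add 1 0, .base 175, .mul 276 1, .add 1 0, .base 174, .mul 279 1, .add 1 0, .base 173,
    .mul 282 1, .add 1 0, .base 181, .base 180, .mul 286 1, .add 1 0, .base 179, .mul 289 1,
    .add 1 0, .base 178, .mul 292 1, .add 1 0, .base 184, .base 183, .mul 296 1, .add 1 0,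
    .base 182, .mul 299 1, .add 1 0, .base 186, .base 185, .mul 303 1, .add 1 0, .base 187,
    .mul 305 0, .add 2 0, .mul 307 0, .add 8 0, .mul 309 0, .add 17 0, .mul 311 0, .add 29 0]
    (v130 :: v129 :: v128 :: v127 :: v126 :: v125 :: v124 :: v123 :: v122 :: v121 :: v120 :: v119
    :: v118 :: v117 :: v116 :: v115 :: v114 :: v113 :: v112 :: v111 :: v110 :: v109 :: v108
    :: v107 :: v106 :: v105 :: v104 :: v103 :: v102 :: v101 :: v100 :: v99 :: v98 :: v97 :: v96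
    :: v95 :: v94 :: v93 :: v92 :: v91 :: v90 :: v89 :: v88 :: v87 :: v86 :: v85 :: v84 :: v83
    :: v82 :: v81 :: v80 :: v79 :: v78 :: v77 :: v76 :: v75 :: v74 :: v73 :: v72 :: v71 :: v70
    :: v69 :: v68 :: v67 :: v66 :: v65 :: v64 :: v63 :: v62 :: v61 :: v60 :: v59 :: v58 :: v57
    :: v56 :: v55 :: v54 :: v53 :: v52 :: v51 :: v50 :: v49 :: v48 :: v47 :: v46 :: v45 :: v44
    :: v43 :: v42 :: v41 :: v40 :: v39 :: v38 :: v37 :: v36 :: v35 :: v34 :: v33 :: v32 :: v31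
    :: v30 :: v29 :: v28 :: v27 :: v26 :: v25 :: v24 :: v23 :: v22 :: v21 :: v20 :: v19 :: v18
    :: v17 :: v16 :: v15 :: v14 :: v13 :: v12 :: v11 :: v10 :: v9 :: v8 :: v7 :: v6 :: v5 :: v4
    :: v3 :: v2 :: v1 :: v0 :: st0)
    (pHR_valQ β r s st0)) :
    OutEq (run (realAlg β r s) pHR st0) pHR_out
      [hr2 β r s 81 7, hr2 β r s 117 6, hr2 β r s 145 6, hr2 β r s 173 4] := by
  obtain ⟨v131, h131, h⟩ := h
  change v131 = β 127 at h131
  obtain ⟨v132, h132, h⟩ := h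
  change v132 = v0 * v130 at h132
  obtain ⟨v133, h133, h⟩ := h
  change v133 = v131 + v132 at h133
  obtain ⟨v134, h134, h⟩ := h
  change v134 = β 126 at h134
  obtain ⟨v135, h135, h⟩ := h
  change v135 = v0 * v133 at h135
  obtain ⟨v136, h136, h⟩ := h
  change v136 = v134 + v135 at h136
  obtain ⟨v137, h137, h⟩ := h
  change v137 = β 125 at h137
  obtain ⟨v138, h138, h⟩ := h
  change v138 = v0 * v136 at h138
  obtain ⟨v139, h139, h⟩ := h
  change v139 = v137 + v138 at h139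
  obtain ⟨v140, h140, h⟩ := h
  change v140 = β 124 at h140
  obtain ⟨v141, h141, h⟩ := h
  change v141 = v0 * v139 at h141
  obtain ⟨v142, h142, h⟩ := h
  change v142 = v140 + v141 at h142
  obtain ⟨w124, e_w124_d⟩ : ∃ q : ℝ, q = hr β r 124 6 := ⟨_, rfl⟩
  have a_w124 : hr β r 124 6 = β 124 + r * (β 125 + r * (β 126 + r * (β 127 + r * (β 128 + r * (β 129))))) := by
    simp only [hr]
  have e_w124_v : v142 = w124 := by
    rw [e_w124_d, a_w124]
    simp only [h142, h141, h140, h139, h138, h137, h136, h135, h134, h133, h132, h131, h130, h129, h128, h127, h0, mul_re, mul_im, add_re, add_im, sub_re, sub_im, neg_re, neg_im, I_re, I_im, ofReal_re,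
      ofReal_im, one_re, one_im, zero_re, zero_im, dt, normSq_apply, re_ofNat, im_ofNat, conj_re, conj_im]
    try ring
  obtain ⟨v143, h143, h⟩ := h
  change v143 = β 134 at h143
  obtain ⟨v144, h144, h⟩ := h
  change v144 = β 133 at h144
  obtain ⟨v145, h145, h⟩ := h
  change v145 = v0 * v143 at h145
  obtain ⟨v146, h146, h⟩ := h
  change v146 = v144 + v145 at h146
  obtain ⟨v147, h147, h⟩ := h
  change v147 = β 132 at h147
  obtain ⟨v148, h148, h⟩ := h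
  change v148 = v0 * v146 at h148
  obtain ⟨v149, h149, h⟩ := h
  change v149 = v147 + v148 at h149
  obtain ⟨v150, h150, h⟩ := h
  change v150 = β 131 at h150
  obtain ⟨v151, h151, h⟩ := h
  change v151 = v0 * v149 at h151
  obtain ⟨v152, h152, h⟩ := h
  change v152 = v150 + v151 at h152
  obtain ⟨v153, h153, h⟩ := h
  change v153 = β 130 at h153
  obtain ⟨v154, h154, h⟩ := h
  change v154 = v0 * v152 at h154
  obtain ⟨v155, h155, h⟩ := h
  change v155 = v153 + v154 at h155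
  obtain ⟨w130, e_w130_d⟩ : ∃ q : ℝ, q = hr β r 130 5 := ⟨_, rfl⟩
  have a_w130 : hr β r 130 5 = β 130 + r * (β 131 + r * (β 132 + r * (β 133 + r * (β 134)))) := by
    simp only [hr]
  have e_w130_v : v155 = w130 := by
    rw [e_w130_d, a_w130]
    simp only [h155, h154, h153, h152, h151, h150, h149, h148, h147, h146, h145, h144, h143, h0, mul_re, mul_im, add_re, add_im, sub_re, sub_im, neg_re, neg_im, I_re, I_im, ofReal_re,
      ofReal_im, one_re, one_im, zero_re, zero_im, dt, normSq_apply, re_ofNat, im_ofNat, conj_re, conj_im]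
    try ring
  obtain ⟨v156, h156, h⟩ := h
  change v156 = β 138 at h156
  obtain ⟨v157, h157, h⟩ := h
  change v157 = β 137 at h157
  obtain ⟨v158, h158, h⟩ := h
  change v158 = v0 * v156 at h158
  obtain ⟨v159, h159, h⟩ := h
  change v159 = v157 + v158 at h159
  obtain ⟨v160, h160, h⟩ := h
  change v160 = β 136 at h160
  obtain ⟨v161, h161, h⟩ := h
  change v161 = v0 * v159 at h161
  obtain ⟨v162, h162, h⟩ := h
  change v162 = v160 + v161 at h162
  obtain ⟨v163, h163, h⟩ := h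
  change v163 = β 135 at h163
  obtain ⟨v164, h164, h⟩ := h
  change v164 = v0 * v162 at h164
  obtain ⟨v165, h165, h⟩ := h
  change v165 = v163 + v164 at h165
  obtain ⟨w135, e_w135_d⟩ : ∃ q : ℝ, q = hr β r 135 4 := ⟨_, rfl⟩
  have a_w135 : hr β r 135 4 = β 135 + r * (β 136 + r * (β 137 + r * (β 138))) := by
    simp only [hr]
  have e_w135_v : v165 = w135 := by
    rw [e_w135_d, a_w135]
    simp only [h165, h164, h163, h162, h161, h160, h159, h158, h157, h156, h0, mul_re, mul_im, add_re, add_im, sub_re, sub_im, neg_re, neg_im, I_re, I_im, ofReal_re,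
      ofReal_im, one_re, one_im, zero_re, zero_im, dt, normSq_apply, re_ofNat, im_ofNat, conj_re, conj_im]
    try ring
  obtain ⟨v166, h166, h⟩ := h
  change v166 = β 141 at h166
  obtain ⟨v167, h167, h⟩ := h
  change v167 = β 140 at h167
  obtain ⟨v168, h168, h⟩ := h
  change v168 = v0 * v166 at h168
  obtain ⟨v169, h169, h⟩ := h
  change v169 = v167 + v168 at h169
  obtain ⟨v170, h170, h⟩ := h
  change v170 = β 139 at h170
  obtain ⟨v171, h171, h⟩ := h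
  change v171 = v0 * v169 at h171
  obtain ⟨v172, h172, h⟩ := h
  change v172 = v170 + v171 at h172
  obtain ⟨w139, e_w139_d⟩ : ∃ q : ℝ, q = hr β r 139 3 := ⟨_, rfl⟩
  have a_w139 : hr β r 139 3 = β 139 + r * (β 140 + r * (β 141)) := by
    simp only [hr]
  have e_w139_v : v172 = w139 := by
    rw [e_w139_d, a_w139]
    simp only [h172, h171, h170, h169, h168, h167, h166, h0, mul_re, mul_im, add_re, add_im, sub_re, sub_im, neg_re, neg_im, I_re, I_im, ofReal_re,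
      ofReal_im, one_re, one_im, zero_re, zero_im, dt, normSq_apply, re_ofNat, im_ofNat, conj_re, conj_im]
    try ring
  obtain ⟨v173, h173, h⟩ := h
  change v173 = β 143 at h173
  obtain ⟨v174, h174, h⟩ := h
  change v174 = β 142 at h174
  obtain ⟨v175, h175, h⟩ := h
  change v175 = v0 * v173 at h175
  obtain ⟨v176, h176, h⟩ := h
  change v176 = v174 + v175 at h176
  obtain ⟨w142, e_w142_d⟩ : ∃ q : ℝ, q = hr β r 142 2 := ⟨_, rfl⟩
  have a_w142 : hr β r 142 2 = β 142 + r * (β 143) := by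
    simp only [hr]
  have e_w142_v : v176 = w142 := by
    rw [e_w142_d, a_w142]
    simp only [h176, h175, h174, h173, h0, mul_re, mul_im, add_re, add_im, sub_re, sub_im, neg_re, neg_im, I_re, I_im, ofReal_re,
      ofReal_im, one_re, one_im, zero_re, zero_im, dt, normSq_apply, re_ofNat, im_ofNat, conj_re, conj_im]
    try ring
  obtain ⟨v177, h177, h⟩ := h
  change v177 = β 144 at h177
  obtain ⟨v178, h178, h⟩ := h
  change v178 = v1 * v177 at h178
  obtain ⟨v179, h179, h⟩ := h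
  change v179 = v176 + v178 at h179
  obtain ⟨v180, h180, h⟩ := h
  change v180 = v1 * v179 at h180
  obtain ⟨v181, h181, h⟩ := h
  change v181 = v172 + v180 at h181
  obtain ⟨v182, h182, h⟩ := h
  change v182 = v1 * v181 at h182
  obtain ⟨v183, h183, h⟩ := h
  change v183 = v165 + v182 at h183
  obtain ⟨v184, h184, h⟩ := h
  change v184 = v1 * v183 at h184
  obtain ⟨v185, h185, h⟩ := h
  change v185 = v155 + v184 at h185
  obtain ⟨v186, h186, h⟩ := h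
  change v186 = v1 * v185 at h186
  obtain ⟨v187, h187, h⟩ := h
  change v187 = v142 + v186 at h187
  obtain ⟨v188, h188, h⟩ := h
  change v188 = v1 * v187 at h188
  obtain ⟨v189, h189, h⟩ := h
  change v189 = v126 + v188 at h189
  obtain ⟨Q3, e_Q3_d⟩ : ∃ q : ℝ, q = hr2 β r s 117 6 := ⟨_, rfl⟩
  have a_Q3 : hr2 β r s 117 6 = w117 + s * (w124 + s * (w130 + s * (w135 + s * (w139 + s * (w142 + s * (β 144)))))) := by
    simp only [hr2]; rw [e_w117_d, e_w124_d, e_w130_d, e_w135_d, e_w139_d, e_w142_d]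
  have e_Q3_v : v189 = Q3 := by
    rw [e_Q3_d, a_Q3]
    simp only [h189, h188, h187, h186, h185, h184, h183, h182, h181, h180, h179, h178, h177, h1, e_w142_v, e_w139_v, e_w135_v, e_w130_v, e_w124_v, e_w117_v, mul_re, mul_im, add_re, add_im, sub_re, sub_im, neg_re, neg_im, I_re, I_im, ofReal_re,
      ofReal_im, one_re, one_im, zero_re, zero_im, dt, normSq_apply, re_ofNat, im_ofNat, conj_re, conj_im]
    try ring
  obtain ⟨v190, h190, h⟩ := h
  change v190 = β 151 at h190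
  obtain ⟨v191, h191, h⟩ := h
  change v191 = β 150 at h191
  obtain ⟨v192, h192, h⟩ := h
  change v192 = v0 * v190 at h192
  obtain ⟨v193, h193, h⟩ := h
  change v193 = v191 + v192 at h193
  obtain ⟨v194, h194, h⟩ := h
  change v194 = β 149 at h194
  exact pHR_val_s4
    β r s st0 v0 h0 v1 h1 v2 v3 v4 v5 v6 v7 v8 v9 v10 v11 v12 v13 v14 v15 v16 v17 v18 v19 v20 v21
    v22 v23 w81 e_w81_d v24 v25 v26 v27 v28 v29 v30 v31 v32 v33 v34 v35 v36 v37 v38 v39 v40 v41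
    v42 w89 e_w89_d v43 v44 v45 v46 v47 v48 v49 v50 v51 v52 v53 v54 v55 v56 v57 v58 w96 e_w96_d
    v59 v60 v61 v62 v63 v64 v65 v66 v67 v68 v69 v70 v71 w102 e_w102_d v72 v73 v74 v75 v76 v77 v78
    v79 v80 v81 w107 e_w107_d v82 v83 v84 v85 v86 v87 v88 w111 e_w111_d v89 v90 v91 v92 w114
    e_w114_d v93 v94 v95 v96 v97 v98 v99 v100 v101 v102 v103 v104 v105 v106 v107 C3 e_C3_d e_C3_v
    v108 v109 v110 v111 v112 v113 v114 v115 v116 v117 v118 v119 v120 v121 v122 v123 v124 v125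
    v126 w117 e_w117_d v127 v128 v129 v130 v131 v132 v133 v134 v135 v136 v137 v138 v139 v140 v141
    v142 w124 e_w124_d v143 v144 v145 v146 v147 v148 v149 v150 v151 v152 v153 v154 v155 w130
    e_w130_d v156 v157 v158 v159 v160 v161 v162 v163 v164 v165 w135 e_w135_d v166 v167 v168 v169
    v170 v171 v172 w139 e_w139_d v173 v174 v175 v176 w142 e_w142_d v177 v178 v179 v180 v181 v182
    v183 v184 v185 v186 v187 v188 v189 Q3 e_Q3_d e_Q3_v v190 h190 v191 h191 v192 h192 v193 h193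
    v194 h194 h

theorem pHR_val_s2 (β : ℕ → ℝ) (r s : ℝ) (st0 : List ℝ)
    (v0 : ℝ) (h0 : v0 = r) (v1 : ℝ) (h1 : v1 = s) (v2 : ℝ) (v3 : ℝ) (v4 : ℝ) (v5 : ℝ) (v6 : ℝ)
    (v7 : ℝ) (v8 : ℝ) (v9 : ℝ) (v10 : ℝ) (v11 : ℝ) (v12 : ℝ) (v13 : ℝ) (v14 : ℝ) (v15 : ℝ)
    (v16 : ℝ) (v17 : ℝ) (v18 : ℝ) (v19 : ℝ) (v20 : ℝ) (v21 : ℝ) (v22 : ℝ) (v23 : ℝ) (w81 : ℝ)
    (e_w81_d : w81 = hr β r 81 8) (e_w81_v : v23 = w81) (v24 : ℝ) (v25 : ℝ) (v26 : ℝ) (v27 : ℝ)
    (v28 : ℝ) (v29 : ℝ) (v30 : ℝ) (v31 : ℝ) (v32 : ℝ) (v33 : ℝ) (v34 : ℝ) (v35 : ℝ) (v36 : ℝ)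
    (v37 : ℝ) (v38 : ℝ) (v39 : ℝ) (v40 : ℝ) (v41 : ℝ) (v42 : ℝ) (w89 : ℝ)
    (e_w89_d : w89 = hr β r 89 7) (e_w89_v : v42 = w89) (v43 : ℝ) (v44 : ℝ) (v45 : ℝ) (v46 : ℝ)
    (v47 : ℝ) (v48 : ℝ) (v49 : ℝ) (v50 : ℝ) (v51 : ℝ) (v52 : ℝ) (v53 : ℝ) (v54 : ℝ) (v55 : ℝ)
    (v56 : ℝ) (v57 : ℝ) (v58 : ℝ) (w96 : ℝ) (e_w96_d : w96 = hr β r 96 6) (e_w96_v : v58 = w96)
    (v59 : ℝ) (h59 : v59 = β 106) (v60 : ℝ) (h60 : v60 = β 105) (v61 : ℝ) (h61 : v61 = v0 * v59)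
    (v62 : ℝ) (h62 : v62 = v60 + v61) (v63 : ℝ) (h63 : v63 = β 104) (v64 : ℝ)
    (h64 : v64 = v0 * v62) (v65 : ℝ) (h65 : v65 = v63 + v64) (v66 : ℝ) (h66 : v66 = β 103)
    (v67 : ℝ) (h67 : v67 = v0 * v65)
    (h : TrE (realAlg β r s)
    [.add 1 0, .base 102, .mul 69 1, .add 1 0, .base 110, .base 109, .mul 73 1, .add 1 0,
    .base 108, .mul 76 1, .add 1 0, .base 107, .mul 79 1, .add 1 0, .base 113, .base 112,
    .mul 83 1, .add 1 0, .base 111, .mul 86 1, .add 1 0, .base 115, .base 114, .mul 90 1,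
    .add 1 0, .base 116, .mul 92 0, .add 2 0, .mul 94 0, .add 8 0, .mul 96 0, .add 17 0,
    .mul 98 0, .add 29 0, .mul 100 0, .add 44 0, .mul 102 0, .add 62 0, .mul 104 0, .add 83 0,
    .base 123, .base 122, .mul 109 1, .add 1 0, .base 121, .mul 112 1, .add 1 0, .base 120,
    .mul 115 1, .add 1 0, .base 119, .mul 118 1, .add 1 0, .base 118, .mul 121 1, .add 1 0,
    .base 117, .mul 124 1, .add 1 0, .base 129, .base 128, .mul 128 1, .add 1 0, .base 127,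
    .mul 131 1, .add 1 0, .base 126, .mul 134 1, .add 1 0, .base 125, .mul 137 1, .add 1 0,
    .base 124, .mul 140 1, .add 1 0, .base 134, .base 133, .mul 144 1, .add 1 0, .base 132,
    .mul 147 1, .add 1 0, .base 131, .mul 150 1, .add 1 0, .base 130, .mul 153 1, .add 1 0,
    .base 138, .base 137, .mul 157 1, .add 1 0, .base 136, .mul 160 1, .add 1 0, .base 135,
    .mul 163 1, .add 1 0, .base 141, .base 140, .mul 167 1, .add 1 0, .base 139, .mul 170 1,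
    .add 1 0, .base 143, .base 142, .mul 174 1, .add 1 0, .base 144, .mul 176 0, .add 2 0,
    .mul 178 0, .add 8 0, .mul 180 0, .add 17 0, .mul 182 0, .add 29 0, .mul 184 0, .add 44 0,
    .mul 186 0, .add 62 0, .base 151, .base 150, .mul 191 1, .add 1 0, .base 149, .mul 194 1,
    .add 1 0, .base 148, .mul 197 1, .add 1 0, .base 147, .mul 200 1, .add 1 0, .base 146,
    .mul 203 1, .add 1 0, .base 145, .mul 206 1, .add 1 0, .base 157, .base 156, .mul 210 1,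
    .add 1 0, .base 155, .mul 213 1, .add 1 0, .base 154, .mul 216 1, .add 1 0, .base 153,
    .mul 219 1, .add 1 0, .base 152, .mul 222 1, .add 1 0, .base 162, .base 161, .mul 226 1,
    .add 1 0, .base 160, .mul 229 1, .add 1 0, .base 159, .mul 232 1, .add 1 0, .base 158,
    .mul 235 1, .add 1 0, .base 166, .base 165, .mul 239 1, .add 1 0, .base 164, .mul 242 1,
    .add 1 0, .base 163, .mul 245 1, .add 1 0, .base 169, .base 168, .mul 249 1, .add 1 0,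
    .base 167, .mul 252 1, .add 1 0, .base 171, .base 170, .mul 256 1, .add 1 0, .base 172,
    .mul 258 0, .add 2 0, .mul 260 0, .add 8 0, .mul 262 0, .add 17 0, .mul 264 0, .add 29 0,
    .mul 266 0, .add 44 0, .mul 268 0, .add 62 0, .base 177, .base 176, .mul 273 1, .add 1 0,
    .base 175, .mul 276 1, .add 1 0, .base 174, .mul 279 1, .add 1 0, .base 173, .mul 282 1,
    .add 1 0, .base 181, .base 180, .mul 286 1, .add 1 0, .base 179, .mul 289 1, .add 1 0,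
    .base 178, .mul 292 1, .add 1 0, .base 184, .base 183, .mul 296 1, .add 1 0, .base 182,
    .mul 299 1, .add 1 0, .base 186, .base 185, .mul 303 1, .add 1 0, .base 187, .mul 305 0,
    .add 2 0, .mul 307 0, .add 8 0, .mul 309 0, .add 17 0, .mul 311 0, .add 29 0]
    (v67 :: v66 :: v65 :: v64 :: v63 :: v62 :: v61 :: v60 :: v59 :: v58 :: v57 :: v56 :: v55
    :: v54 :: v53 :: v52 :: v51 :: v50 :: v49 :: v48 :: v47 :: v46 :: v45 :: v44 :: v43 :: v42
    :: v41 :: v40 :: v39 :: v38 :: v37 :: v36 :: v35 :: v34 :: v33 :: v32 :: v31 :: v30 :: v29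
    :: v28 :: v27 :: v26 :: v25 :: v24 :: v23 :: v22 :: v21 :: v20 :: v19 :: v18 :: v17 :: v16
    :: v15 :: v14 :: v13 :: v12 :: v11 :: v10 :: v9 :: v8 :: v7 :: v6 :: v5 :: v4 :: v3 :: v2
    :: v1 :: v0 :: st0)
    (pHR_valQ β r s st0)) :
    OutEq (run (realAlg β r s) pHR st0) pHR_out
      [hr2 β r s 81 7, hr2 β r s 117 6, hr2 β r s 145 6, hr2 β r s 173 4] := by
  obtain ⟨v68, h68, h⟩ := h
  change v68 = v66 + v67 at h68
  obtain ⟨v69, h69, h⟩ := h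
  change v69 = β 102 at h69
  obtain ⟨v70, h70, h⟩ := h
  change v70 = v0 * v68 at h70
  obtain ⟨v71, h71, h⟩ := h
  change v71 = v69 + v70 at h71
  obtain ⟨w102, e_w102_d⟩ : ∃ q : ℝ, q = hr β r 102 5 := ⟨_, rfl⟩
  have a_w102 : hr β r 102 5 = β 102 + r * (β 103 + r * (β 104 + r * (β 105 + r * (β 106)))) := by
    simp only [hr]
  have e_w102_v : v71 = w102 := by
    rw [e_w102_d, a_w102]
    simp only [h71, h70, h69, h68, h67, h66, h65, h64, h63, h62, h61, h60, h59, h0, mul_re, mul_im, add_re, add_im, sub_re, sub_im, neg_re, neg_im, I_re, I_im, ofReal_re,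
      ofReal_im, one_re, one_im, zero_re, zero_im, dt, normSq_apply, re_ofNat, im_ofNat, conj_re, conj_im]
    try ring
  obtain ⟨v72, h72, h⟩ := h
  change v72 = β 110 at h72
  obtain ⟨v73, h73, h⟩ := h
  change v73 = β 109 at h73
  obtain ⟨v74, h74, h⟩ := h
  change v74 = v0 * v72 at h74
  obtain ⟨v75, h75, h⟩ := h
  change v75 = v73 + v74 at h75
  obtain ⟨v76, h76, h⟩ := h
  change v76 = β 108 at h76
  obtain ⟨v77, h77, h⟩ := h
  change v77 = v0 * v75 at h77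
  obtain ⟨v78, h78, h⟩ := h
  change v78 = v76 + v77 at h78
  obtain ⟨v79, h79, h⟩ := h
  change v79 = β 107 at h79
  obtain ⟨v80, h80, h⟩ := h
  change v80 = v0 * v78 at h80
  obtain ⟨v81, h81, h⟩ := h
  change v81 = v79 + v80 at h81
  obtain ⟨w107, e_w107_d⟩ : ∃ q : ℝ, q = hr β r 107 4 := ⟨_, rfl⟩
  have a_w107 : hr β r 107 4 = β 107 + r * (β 108 + r * (β 109 + r * (β 110))) := by
    simp only [hr]
  have e_w107_v : v81 = w107 := by
    rw [e_w107_d, a_w107]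
    simp only [h81, h80, h79, h78, h77, h76, h75, h74, h73, h72, h0, mul_re, mul_im, add_re, add_im, sub_re, sub_im, neg_re, neg_im, I_re, I_im, ofReal_re,
      ofReal_im, one_re, one_im, zero_re, zero_im, dt, normSq_apply, re_ofNat, im_ofNat, conj_re, conj_im]
    try ring
  obtain ⟨v82, h82, h⟩ := h
  change v82 = β 113 at h82
  obtain ⟨v83, h83, h⟩ := h
  change v83 = β 112 at h83
  obtain ⟨v84, h84, h⟩ := h
  change v84 = v0 * v82 at h84
  obtain ⟨v85, h85, h⟩ := h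
  change v85 = v83 + v84 at h85
  obtain ⟨v86, h86, h⟩ := h
  change v86 = β 111 at h86
  obtain ⟨v87, h87, h⟩ := h
  change v87 = v0 * v85 at h87
  obtain ⟨v88, h88, h⟩ := h
  change v88 = v86 + v87 at h88
  obtain ⟨w111, e_w111_d⟩ : ∃ q : ℝ, q = hr β r 111 3 := ⟨_, rfl⟩
  have a_w111 : hr β r 111 3 = β 111 + r * (β 112 + r * (β 113)) := by
    simp only [hr]
  have e_w111_v : v88 = w111 := by
    rw [e_w111_d, a_w111]
    simp only [h88, h87, h86, h85, h84, h83, h82, h0, mul_re, mul_im, add_re, add_im, sub_re, sub_im, neg_re, neg_im, I_re, I_im, ofReal_re,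
      ofReal_im, one_re, one_im, zero_re, zero_im, dt, normSq_apply, re_ofNat, im_ofNat, conj_re, conj_im]
    try ring
  obtain ⟨v89, h89, h⟩ := h
  change v89 = β 115 at h89
  obtain ⟨v90, h90, h⟩ := h
  change v90 = β 114 at h90
  obtain ⟨v91, h91, h⟩ := h
  change v91 = v0 * v89 at h91
  obtain ⟨v92, h92, h⟩ := h
  change v92 = v90 + v91 at h92
  obtain ⟨w114, e_w114_d⟩ : ∃ q : ℝ, q = hr β r 114 2 := ⟨_, rfl⟩
  have a_w114 : hr β r 114 2 = β 114 + r * (β 115) := by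
    simp only [hr]
  have e_w114_v : v92 = w114 := by
    rw [e_w114_d, a_w114]
    simp only [h92, h91, h90, h89, h0, mul_re, mul_im, add_re, add_im, sub_re, sub_im, neg_re, neg_im, I_re, I_im, ofReal_re,
      ofReal_im, one_re, one_im, zero_re, zero_im, dt, normSq_apply, re_ofNat, im_ofNat, conj_re, conj_im]
    try ring
  obtain ⟨v93, h93, h⟩ := h
  change v93 = β 116 at h93
  obtain ⟨v94, h94, h⟩ := h
  change v94 = v1 * v93 at h94
  obtain ⟨v95, h95, h⟩ := h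
  change v95 = v92 + v94 at h95
  obtain ⟨v96, h96, h⟩ := h
  change v96 = v1 * v95 at h96
  obtain ⟨v97, h97, h⟩ := h
  change v97 = v88 + v96 at h97
  obtain ⟨v98, h98, h⟩ := h
  change v98 = v1 * v97 at h98
  obtain ⟨v99, h99, h⟩ := h
  change v99 = v81 + v98 at h99
  obtain ⟨v100, h100, h⟩ := h
  change v100 = v1 * v99 at h100
  obtain ⟨v101, h101, h⟩ := h
  change v101 = v71 + v100 at h101
  obtain ⟨v102, h102, h⟩ := h
  change v102 = v1 * v101 at h102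
  obtain ⟨v103, h103, h⟩ := h
  change v103 = v58 + v102 at h103
  obtain ⟨v104, h104, h⟩ := h
  change v104 = v1 * v103 at h104
  obtain ⟨v105, h105, h⟩ := h
  change v105 = v42 + v104 at h105
  obtain ⟨v106, h106, h⟩ := h
  change v106 = v1 * v105 at h106
  obtain ⟨v107, h107, h⟩ := h
  change v107 = v23 + v106 at h107
  obtain ⟨C3, e_C3_d⟩ : ∃ q : ℝ, q = hr2 β r s 81 7 := ⟨_, rfl⟩
  have a_C3 : hr2 β r s 81 7 = w81 + s * (w89 + s * (w96 + s * (w102 + s * (w107 + s * (w111 + s * (w114 + s * (β 116))))))) := by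
    simp only [hr2]; rw [e_w81_d, e_w89_d, e_w96_d, e_w102_d, e_w107_d, e_w111_d, e_w114_d]
  have e_C3_v : v107 = C3 := by
    rw [e_C3_d, a_C3]
    simp only [h107, h106, h105, h104, h103, h102, h101, h100, h99, h98, h97, h96, h95, h94, h93, h1, e_w114_v, e_w111_v, e_w107_v, e_w102_v, e_w96_v, e_w89_v, e_w81_v, mul_re, mul_im, add_re, add_im, sub_re, sub_im, neg_re, neg_im, I_re, I_im, ofReal_re,
      ofReal_im, one_re, one_im, zero_re, zero_im, dt, normSq_apply, re_ofNat, im_ofNat, conj_re, conj_im]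
    try ring
  obtain ⟨v108, h108, h⟩ := h
  change v108 = β 123 at h108
  obtain ⟨v109, h109, h⟩ := h
  change v109 = β 122 at h109
  obtain ⟨v110, h110, h⟩ := h
  change v110 = v0 * v108 at h110
  obtain ⟨v111, h111, h⟩ := h
  change v111 = v109 + v110 at h111
  obtain ⟨v112, h112, h⟩ := h
  change v112 = β 121 at h112
  obtain ⟨v113, h113, h⟩ := h
  change v113 = v0 * v111 at h113
  obtain ⟨v114, h114, h⟩ := h
  change v114 = v112 + v113 at h114
  obtain ⟨v115, h115, h⟩ := h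
  change v115 = β 120 at h115
  obtain ⟨v116, h116, h⟩ := h
  change v116 = v0 * v114 at h116
  obtain ⟨v117, h117, h⟩ := h
  change v117 = v115 + v116 at h117
  obtain ⟨v118, h118, h⟩ := h
  change v118 = β 119 at h118
  obtain ⟨v119, h119, h⟩ := h
  change v119 = v0 * v117 at h119
  obtain ⟨v120, h120, h⟩ := h
  change v120 = v118 + v119 at h120
  obtain ⟨v121, h121, h⟩ := h
  change v121 = β 118 at h121
  obtain ⟨v122, h122, h⟩ := h
  change v122 = v0 * v120 at h122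
  obtain ⟨v123, h123, h⟩ := h
  change v123 = v121 + v122 at h123
  obtain ⟨v124, h124, h⟩ := h
  change v124 = β 117 at h124
  obtain ⟨v125, h125, h⟩ := h
  change v125 = v0 * v123 at h125
  obtain ⟨v126, h126, h⟩ := h
  change v126 = v124 + v125 at h126
  obtain ⟨w117, e_w117_d⟩ : ∃ q : ℝ, q = hr β r 117 7 := ⟨_, rfl⟩
  have a_w117 : hr β r 117 7 = β 117 + r * (β 118 + r * (β 119 + r * (β 120 + r * (β 121 + r * (β 122 + r * (β 123)))))) := by
    simp only [hr]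
  have e_w117_v : v126 = w117 := by
    rw [e_w117_d, a_w117]
    simp only [h126, h125, h124, h123, h122, h121, h120, h119, h118, h117, h116, h115, h114, h113, h112, h111, h110, h109, h108, h0, mul_re, mul_im, add_re, add_im, sub_re, sub_im, neg_re, neg_im, I_re, I_im, ofReal_re,
      ofReal_im, one_re, one_im, zero_re, zero_im, dt, normSq_apply, re_ofNat, im_ofNat, conj_re, conj_im]
    try ring
  obtain ⟨v127, h127, h⟩ := h
  change v127 = β 129 at h127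
  obtain ⟨v128, h128, h⟩ := h
  change v128 = β 128 at h128
  obtain ⟨v129, h129, h⟩ := h
  change v129 = v0 * v127 at h129
  obtain ⟨v130, h130, h⟩ := h
  change v130 = v128 + v129 at h130
  exact pHR_val_s3
    β r s st0 v0 h0 v1 h1 v2 v3 v4 v5 v6 v7 v8 v9 v10 v11 v12 v13 v14 v15 v16 v17 v18 v19 v20 v21
    v22 v23 w81 e_w81_d v24 v25 v26 v27 v28 v29 v30 v31 v32 v33 v34 v35 v36 v37 v38 v39 v40 v41
    v42 w89 e_w89_d v43 v44 v45 v46 v47 v48 v49 v50 v51 v52 v53 v54 v55 v56 v57 v58 w96 e_w96_d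
    v59 v60 v61 v62 v63 v64 v65 v66 v67 v68 v69 v70 v71 w102 e_w102_d v72 v73 v74 v75 v76 v77 v78
    v79 v80 v81 w107 e_w107_d v82 v83 v84 v85 v86 v87 v88 w111 e_w111_d v89 v90 v91 v92 w114
    e_w114_d v93 v94 v95 v96 v97 v98 v99 v100 v101 v102 v103 v104 v105 v106 v107 C3 e_C3_d e_C3_v
    v108 v109 v110 v111 v112 v113 v114 v115 v116 v117 v118 v119 v120 v121 v122 v123 v124 v125
    v126 w117 e_w117_d e_w117_v v127 h127 v128 h128 v129 h129 v130 h130 h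

theorem pHR_val (β : ℕ → ℝ) (r s : ℝ) (st0 : List ℝ) :
    OutEq (run (realAlg β r s) pHR st0) pHR_out
      [hr2 β r s 81 7, hr2 β r s 117 6, hr2 β r s 145 6, hr2 β r s 173 4] := by
  have h : TrE (realAlg β r s)
    [.x, .y, .base 88, .base 87, .mul 3 1, .add 1 0, .base 86, .mul 6 1, .add 1 0, .base 85,
    .mul 9 1, .add 1 0, .base 84, .mul 12 1, .add 1 0, .base 83, .mul 15 1, .add 1 0, .base 82,
    .mul 18 1, .add 1 0, .base 81, .mul 21 1, .add 1 0, .base 95, .base 94, .mul 25 1, .add 1 0,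
    .base 93, .mul 28 1, .add 1 0, .base 92, .mul 31 1, .add 1 0, .base 91, .mul 34 1, .add 1 0,
    .base 90, .mul 37 1, .add 1 0, .base 89, .mul 40 1, .add 1 0, .base 101, .base 100,
    .mul 44 1, .add 1 0, .base 99, .mul 47 1, .add 1 0, .base 98, .mul 50 1, .add 1 0, .base 97,
    .mul 53 1, .add 1 0, .base 96, .mul 56 1, .add 1 0, .base 106, .base 105, .mul 60 1,
    .add 1 0, .base 104, .mul 63 1, .add 1 0, .base 103, .mul 66 1, .add 1 0, .base 102,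
    .mul 69 1, .add 1 0, .base 110, .base 109, .mul 73 1, .add 1 0, .base 108, .mul 76 1,
    .add 1 0, .base 107, .mul 79 1, .add 1 0, .base 113, .base 112, .mul 83 1, .add 1 0,
    .base 111, .mul 86 1, .add 1 0, .base 115, .base 114, .mul 90 1, .add 1 0, .base 116,
    .mul 92 0, .add 2 0, .mul 94 0, .add 8 0, .mul 96 0, .add 17 0, .mul 98 0, .add 29 0,
    .mul 100 0, .add 44 0, .mul 102 0, .add 62 0, .mul 104 0, .add 83 0, .base 123, .base 122,
    .mul 109 1, .add 1 0, .base 121, .mul 112 1, .add 1 0, .base 120, .mul 115 1, .add 1 0,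
    .base 119, .mul 118 1, .add 1 0, .base 118, .mul 121 1, .add 1 0, .base 117, .mul 124 1,
    .add 1 0, .base 129, .base 128, .mul 128 1, .add 1 0, .base 127, .mul 131 1, .add 1 0,
    .base 126, .mul 134 1, .add 1 0, .base 125, .mul 137 1, .add 1 0, .base 124, .mul 140 1,
    .add 1 0, .base 134, .base 133, .mul 144 1, .add 1 0, .base 132, .mul 147 1, .add 1 0,
    .base 131, .mul 150 1, .add 1 0, .base 130, .mul 153 1, .add 1 0, .base 138, .base 137,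
    .mul 157 1, .add 1 0, .base 136, .mul 160 1, .add 1 0, .base 135, .mul 163 1, .add 1 0,
    .base 141, .base 140, .mul 167 1, .add 1 0, .base 139, .mul 170 1, .add 1 0, .base 143,
    .base 142, .mul 174 1, .add 1 0, .base 144, .mul 176 0, .add 2 0, .mul 178 0, .add 8 0,
    .mul 180 0, .add 17 0, .mul 182 0, .add 29 0, .mul 184 0, .add 44 0, .mul 186 0, .add 62 0,
    .base 151, .base 150, .mul 191 1, .add 1 0, .base 149, .mul 194 1, .add 1 0, .base 148,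
    .mul 197 1, .add 1 0, .base 147, .mul 200 1, .add 1 0, .base 146, .mul 203 1, .add 1 0,
    .base 145, .mul 206 1, .add 1 0, .base 157, .base 156, .mul 210 1, .add 1 0, .base 155,
    .mul 213 1, .add 1 0, .base 154, .mul 216 1, .add 1 0, .base 153, .mul 219 1, .add 1 0,
    .base 152, .mul 222 1, .add 1 0, .base 162, .base 161, .mul 226 1, .add 1 0, .base 160,
    .mul 229 1, .add 1 0, .base 159, .mul 232 1, .add 1 0, .base 158, .mul 235 1, .add 1 0,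
    .base 166, .base 165, .mul 239 1, .add 1 0, .base 164, .mul 242 1, .add 1 0, .base 163,
    .mul 245 1, .add 1 0, .base 169, .base 168, .mul 249 1, .add 1 0, .base 167, .mul 252 1,
    .add 1 0, .base 171, .base 170, .mul 256 1, .add 1 0, .base 172, .mul 258 0, .add 2 0,
    .mul 260 0, .add 8 0, .mul 262 0, .add 17 0, .mul 264 0, .add 29 0, .mul 266 0, .add 44 0,
    .mul 268 0, .add 62 0, .base 177, .base 176, .mul 273 1, .add 1 0, .base 175, .mul 276 1,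
    .add 1 0, .base 174, .mul 279 1, .add 1 0, .base 173, .mul 282 1, .add 1 0, .base 181,
    .base 180, .mul 286 1, .add 1 0, .base 179, .mul 289 1, .add 1 0, .base 178, .mul 292 1,
    .add 1 0, .base 184, .base 183, .mul 296 1, .add 1 0, .base 182, .mul 299 1, .add 1 0,
    .base 186, .base 185, .mul 303 1, .add 1 0, .base 187, .mul 305 0, .add 2 0, .mul 307 0,
    .add 8 0, .mul 309 0, .add 17 0, .mul 311 0, .add 29 0] st0
    (pHR_valQ β r s st0) := trE_runst2 _ pHR st0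
  obtain ⟨v0, h0, h⟩ := h
  change v0 = r at h0
  obtain ⟨v1, h1, h⟩ := h
  change v1 = s at h1
  obtain ⟨v2, h2, h⟩ := h
  change v2 = β 88 at h2
  obtain ⟨v3, h3, h⟩ := h
  change v3 = β 87 at h3
  obtain ⟨v4, h4, h⟩ := h
  change v4 = v0 * v2 at h4
  obtain ⟨v5, h5, h⟩ := h
  change v5 = v3 + v4 at h5
  obtain ⟨v6, h6, h⟩ := h
  change v6 = β 86 at h6
  obtain ⟨v7, h7, h⟩ := h
  change v7 = v0 * v5 at h7
  obtain ⟨v8, h8, h⟩ := h
  change v8 = v6 + v7 at h8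
  obtain ⟨v9, h9, h⟩ := h
  change v9 = β 85 at h9
  obtain ⟨v10, h10, h⟩ := h
  change v10 = v0 * v8 at h10
  obtain ⟨v11, h11, h⟩ := h
  change v11 = v9 + v10 at h11
  obtain ⟨v12, h12, h⟩ := h
  change v12 = β 84 at h12
  obtain ⟨v13, h13, h⟩ := h
  change v13 = v0 * v11 at h13
  obtain ⟨v14, h14, h⟩ := h
  change v14 = v12 + v13 at h14
  obtain ⟨v15, h15, h⟩ := h
  change v15 = β 83 at h15
  obtain ⟨v16, h16, h⟩ := h
  change v16 = v0 * v14 at h16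
  obtain ⟨v17, h17, h⟩ := h
  change v17 = v15 + v16 at h17
  obtain ⟨v18, h18, h⟩ := h
  change v18 = β 82 at h18
  obtain ⟨v19, h19, h⟩ := h
  change v19 = v0 * v17 at h19
  obtain ⟨v20, h20, h⟩ := h
  change v20 = v18 + v19 at h20
  obtain ⟨v21, h21, h⟩ := h
  change v21 = β 81 at h21
  obtain ⟨v22, h22, h⟩ := h
  change v22 = v0 * v20 at h22
  obtain ⟨v23, h23, h⟩ := h
  change v23 = v21 + v22 at h23
  obtain ⟨w81, e_w81_d⟩ : ∃ q : ℝ, q = hr β r 81 8 := ⟨_, rfl⟩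
  have a_w81 : hr β r 81 8 = β 81 + r * (β 82 + r * (β 83 + r * (β 84 + r * (β 85 + r * (β 86 + r * (β 87 + r * (β 88))))))) := by
    simp only [hr]
  have e_w81_v : v23 = w81 := by
    rw [e_w81_d, a_w81]
    simp only [h23, h22, h21, h20, h19, h18, h17, h16, h15, h14, h13, h12, h11, h10, h9, h8, h7, h6, h5, h4, h3, h2, h0, mul_re, mul_im, add_re, add_im, sub_re, sub_im, neg_re, neg_im, I_re, I_im, ofReal_re,
      ofReal_im, one_re, one_im, zero_re, zero_im, dt, normSq_apply, re_ofNat, im_ofNat, conj_re, conj_im]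
    try ring
  obtain ⟨v24, h24, h⟩ := h
  change v24 = β 95 at h24
  obtain ⟨v25, h25, h⟩ := h
  change v25 = β 94 at h25
  obtain ⟨v26, h26, h⟩ := h
  change v26 = v0 * v24 at h26
  obtain ⟨v27, h27, h⟩ := h
  change v27 = v25 + v26 at h27
  obtain ⟨v28, h28, h⟩ := h
  change v28 = β 93 at h28
  obtain ⟨v29, h29, h⟩ := h
  change v29 = v0 * v27 at h29
  obtain ⟨v30, h30, h⟩ := h
  change v30 = v28 + v29 at h30
  obtain ⟨v31, h31, h⟩ := h
  change v31 = β 92 at h31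
  obtain ⟨v32, h32, h⟩ := h
  change v32 = v0 * v30 at h32
  obtain ⟨v33, h33, h⟩ := h
  change v33 = v31 + v32 at h33
  obtain ⟨v34, h34, h⟩ := h
  change v34 = β 91 at h34
  obtain ⟨v35, h35, h⟩ := h
  change v35 = v0 * v33 at h35
  obtain ⟨v36, h36, h⟩ := h
  change v36 = v34 + v35 at h36
  obtain ⟨v37, h37, h⟩ := h
  change v37 = β 90 at h37
  obtain ⟨v38, h38, h⟩ := h
  change v38 = v0 * v36 at h38
  obtain ⟨v39, h39, h⟩ := h
  change v39 = v37 + v38 at h39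
  obtain ⟨v40, h40, h⟩ := h
  change v40 = β 89 at h40
  obtain ⟨v41, h41, h⟩ := h
  change v41 = v0 * v39 at h41
  obtain ⟨v42, h42, h⟩ := h
  change v42 = v40 + v41 at h42
  obtain ⟨w89, e_w89_d⟩ : ∃ q : ℝ, q = hr β r 89 7 := ⟨_, rfl⟩
  have a_w89 : hr β r 89 7 = β 89 + r * (β 90 + r * (β 91 + r * (β 92 + r * (β 93 + r * (β 94 + r * (β 95)))))) := by
    simp only [hr]
  have e_w89_v : v42 = w89 := by
    rw [e_w89_d, a_w89]
    simp only [h42, h41, h40, h39, h38, h37, h36, h35, h34, h33, h32, h31, h30, h29, h28, h27, h26, h25, h24, h0, mul_re, mul_im, add_re, add_im, sub_re, sub_im, neg_re, neg_im, I_re, I_im, ofReal_re,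
      ofReal_im, one_re, one_im, zero_re, zero_im, dt, normSq_apply, re_ofNat, im_ofNat, conj_re, conj_im]
    try ring
  obtain ⟨v43, h43, h⟩ := h
  change v43 = β 101 at h43
  obtain ⟨v44, h44, h⟩ := h
  change v44 = β 100 at h44
  obtain ⟨v45, h45, h⟩ := h
  change v45 = v0 * v43 at h45
  obtain ⟨v46, h46, h⟩ := h
  change v46 = v44 + v45 at h46
  obtain ⟨v47, h47, h⟩ := h
  change v47 = β 99 at h47
  obtain ⟨v48, h48, h⟩ := h
  change v48 = v0 * v46 at h48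
  obtain ⟨v49, h49, h⟩ := h
  change v49 = v47 + v48 at h49
  obtain ⟨v50, h50, h⟩ := h
  change v50 = β 98 at h50
  obtain ⟨v51, h51, h⟩ := h
  change v51 = v0 * v49 at h51
  obtain ⟨v52, h52, h⟩ := h
  change v52 = v50 + v51 at h52
  obtain ⟨v53, h53, h⟩ := h
  change v53 = β 97 at h53
  obtain ⟨v54, h54, h⟩ := h
  change v54 = v0 * v52 at h54
  obtain ⟨v55, h55, h⟩ := h
  change v55 = v53 + v54 at h55
  obtain ⟨v56, h56, h⟩ := h
  change v56 = β 96 at h56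
  obtain ⟨v57, h57, h⟩ := h
  change v57 = v0 * v55 at h57
  obtain ⟨v58, h58, h⟩ := h
  change v58 = v56 + v57 at h58
  obtain ⟨w96, e_w96_d⟩ : ∃ q : ℝ, q = hr β r 96 6 := ⟨_, rfl⟩
  have a_w96 : hr β r 96 6 = β 96 + r * (β 97 + r * (β 98 + r * (β 99 + r * (β 100 + r * (β 101))))) := by
    simp only [hr]
  have e_w96_v : v58 = w96 := by
    rw [e_w96_d, a_w96]
    simp only [h58, h57, h56, h55, h54, h53, h52, h51, h50, h49, h48, h47, h46, h45, h44, h43, h0, mul_re, mul_im, add_re, add_im, sub_re, sub_im, neg_re, neg_im, I_re, I_im, ofReal_re,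
      ofReal_im, one_re, one_im, zero_re, zero_im, dt, normSq_apply, re_ofNat, im_ofNat, conj_re, conj_im]
    try ring
  obtain ⟨v59, h59, h⟩ := h
  change v59 = β 106 at h59
  obtain ⟨v60, h60, h⟩ := h
  change v60 = β 105 at h60
  obtain ⟨v61, h61, h⟩ := h
  change v61 = v0 * v59 at h61
  obtain ⟨v62, h62, h⟩ := h
  change v62 = v60 + v61 at h62
  obtain ⟨v63, h63, h⟩ := h
  change v63 = β 104 at h63
  obtain ⟨v64, h64, h⟩ := h
  change v64 = v0 * v62 at h64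
  obtain ⟨v65, h65, h⟩ := h
  change v65 = v63 + v64 at h65
  obtain ⟨v66, h66, h⟩ := h
  change v66 = β 103 at h66
  obtain ⟨v67, h67, h⟩ := h
  change v67 = v0 * v65 at h67
  exact pHR_val_s2
    β r s st0 v0 h0 v1 h1 v2 v3 v4 v5 v6 v7 v8 v9 v10 v11 v12 v13 v14 v15 v16 v17 v18 v19 v20 v21
    v22 v23 w81 e_w81_d e_w81_v v24 v25 v26 v27 v28 v29 v30 v31 v32 v33 v34 v35 v36 v37 v38 v39
    v40 v41 v42 w89 e_w89_d e_w89_v v43 v44 v45 v46 v47 v48 v49 v50 v51 v52 v53 v54 v55 v56 v57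
    v58 w96 e_w96_d e_w96_v v59 h59 v60 h60 v61 h61 v62 h62 v63 h63 v64 h64 v65 h65 v66 h66 v67
    h67 h

end Pool.H61.Rh
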