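import Pool.Agent.H61.Rz.PR0
import Pool.Agent.H61.Rz.PHR
import Pool.Agent.H47.K3.Defs

/-! # generated: difference program pDR0 -/

set_option autoImplicit false
set_option maxRecDepth 100000
set_option linter.unusedVariables false

namespace Pool.H61.Rh

open Complex Pool.H47.Kc Pool.H47.K3

def pDR0_P : List Op :=
  [.x, .y, .mul 1 1, .mul 2 1, .mul 2 2, .base 0,
   .base 1, .add 6 1, .add 6 1, .mul 1 1, .mul 1 1, .add 1 0,
   .cst (1) 0, .sub 0 1, .cst (2) 0, .mul 7 0, .sub 3 0, .mul 3 2,
   .mul 10 1, .mul 10 2, .sub 2 1, .mul 7 0, .mul 8 2, .base 49,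
   .mul 23 0, .base 50, .mul 24 0, .add 2 0, .base 53, .mul 26 0,
   .base 54, .mul 27 0, .add 2 0, .base 55, .mul 29 0, .add 2 0,
   .add 8 0, .base 51, .mul 37 0, .base 52, .mul 38 0, .add 2 0,
   .base 56, .mul 40 0, .base 57, .mul 41 0, .add 2 0, .base 58,
   .mul 43 0, .add 2 0, .add 8 0, .base 33, .mul 51 0, .base 34,
   .mul 52 0, .add 2 0, .base 36, .mul 54 0, .base 37, .mul 55 0,
   .add 2 0, .base 38, .mul 57 0, .add 2 0, .add 8 0, .mul 64 11,
   .base 35, .mul 65 0, .add 2 0, .base 39, .mul 67 0, .base 40,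
   .mul 68 0, .add 2 0, .base 41, .mul 70 0, .add 2 0, .add 8 0,
   .mul 77 55, .mul 64 0, .mul 79 58, .mul 79 58, .add 1 0, .mul 81 61,
   .mul 69 0, .mul 62 61, .mul 64 60, .add 1 0, .mul 59 8, .mul 58 6,
   .add 1 0, .mul 57 6, .add 1 0, .add 5 0, .mul 71 56, .mul 73 55,
   .add 1 0, .mul 54 17, .mul 53 15, .add 1 0, .mul 52 15, .add 1 0,
   .add 5 0, .base 15, .base 5, .base 6, .mul 105 1, .mul 105 1,
   .add 1 0, .add 5 0, .base 29, .base 30, .add 47 1, .add 35 1,
   .mul 91 1, .mul 93 1, .add 1 0, .base 69, .base 70, .add 68 1,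
   .sub 1 83, .mul 11 1, .mul 12 1, .base 74, .mul 123 0, .base 75,
   .mul 124 0, .add 2 0, .base 76, .mul 128 0, .base 77, .mul 129 0,
   .add 2 0, .sub 11 5, .sub 11 1, .mul 41 25, .mul 33 26, .mul 120 3,
   .mul 121 3, .sub 3 1, .sub 3 1, .cst (1) 1, .mul 125 0, .sub 0 26,
   .mul 34 0, .base 71, .base 72, .base 73, .mul 140 0, .mul 140 1,
   .add 4 1, .add 4 1, .mul 18 1, .mul 18 1, .add 1 0, .mul 138 0,
   .add 11 0, .mul 149 23, .mul 149 23, .add 1 0, .x, .y,
   .base 88, .base 87, .mul 3 1, .add 1 0, .base 86, .mul 6 1,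
   .add 1 0, .base 85, .mul 9 1, .add 1 0, .base 84, .mul 12 1,
   .add 1 0, .base 83, .mul 15 1, .add 1 0, .base 82, .mul 18 1,
   .add 1 0, .base 81, .mul 21 1, .add 1 0, .base 95, .base 94,
   .mul 25 1, .add 1 0, .base 93, .mul 28 1, .add 1 0, .base 92,
   .mul 31 1, .add 1 0, .base 91, .mul 34 1, .add 1 0, .base 90,
   .mul 37 1, .add 1 0, .base 89, .mul 40 1, .add 1 0, .base 101,
   .base 100, .mul 44 1, .add 1 0, .base 99, .mul 47 1, .add 1 0,
   .base 98, .mul 50 1, .add 1 0, .base 97, .mul 53 1, .add 1 0,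
   .base 96, .mul 56 1, .add 1 0, .base 106, .base 105, .mul 60 1,
   .add 1 0, .base 104, .mul 63 1, .add 1 0, .base 103, .mul 66 1,
   .add 1 0, .base 102, .mul 69 1, .add 1 0, .base 110, .base 109,
   .mul 73 1, .add 1 0, .base 108, .mul 76 1, .add 1 0, .base 107,
   .mul 79 1, .add 1 0, .base 113, .base 112, .mul 83 1, .add 1 0,
   .base 111, .mul 86 1, .add 1 0, .base 115, .base 114, .mul 90 1,
   .add 1 0, .base 116, .mul 92 0, .add 2 0, .mul 94 0, .add 8 0,
   .mul 96 0, .add 17 0, .mul 98 0, .add 29 0, .mul 100 0, .add 44 0,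
   .mul 102 0, .add 62 0, .mul 104 0, .add 83 0, .base 123, .base 122,
   .mul 109 1, .add 1 0, .base 121, .mul 112 1, .add 1 0, .base 120,
   .mul 115 1, .add 1 0, .base 119, .mul 118 1, .add 1 0, .base 118,
   .mul 121 1, .add 1 0, .base 117, .mul 124 1, .add 1 0, .base 129,
   .base 128, .mul 128 1, .add 1 0, .base 127, .mul 131 1, .add 1 0,
   .base 126, .mul 134 1, .add 1 0, .base 125, .mul 137 1, .add 1 0,
   .base 124, .mul 140 1, .add 1 0, .base 134, .base 133, .mul 144 1,
   .add 1 0, .base 132, .mul 147 1, .add 1 0, .base 131, .mul 150 1,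
   .add 1 0, .base 130, .mul 153 1, .add 1 0, .base 138, .base 137,
   .mul 157 1, .add 1 0, .base 136, .mul 160 1, .add 1 0, .base 135,
   .mul 163 1, .add 1 0, .base 141, .base 140, .mul 167 1, .add 1 0,
   .base 139, .mul 170 1, .add 1 0, .base 143, .base 142, .mul 174 1,
   .add 1 0, .base 144, .mul 176 0, .add 2 0, .mul 178 0, .add 8 0,
   .mul 180 0, .add 17 0, .mul 182 0, .add 29 0, .mul 184 0, .add 44 0,
   .mul 186 0, .add 62 0, .base 151, .base 150, .mul 191 1, .add 1 0,
   .base 149, .mul 194 1, .add 1 0, .base 148, .mul 197 1, .add 1 0,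
   .base 147, .mul 200 1, .add 1 0, .base 146, .mul 203 1, .add 1 0,
   .base 145, .mul 206 1, .add 1 0, .base 157, .base 156, .mul 210 1,
   .add 1 0, .base 155, .mul 213 1, .add 1 0, .base 154, .mul 216 1,
   .add 1 0, .base 153, .mul 219 1, .add 1 0, .base 152, .mul 222 1,
   .add 1 0, .base 162, .base 161, .mul 226 1, .add 1 0, .base 160,
   .mul 229 1, .add 1 0, .base 159, .mul 232 1, .add 1 0, .base 158,
   .mul 235 1, .add 1 0, .base 166, .base 165, .mul 239 1, .add 1 0,
   .base 164, .mul 242 1, .add 1 0, .base 163, .mul 245 1, .add 1 0,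
   .base 169, .base 168, .mul 249 1, .add 1 0, .base 167, .mul 252 1,
   .add 1 0, .base 171, .base 170, .mul 256 1, .add 1 0, .base 172,
   .mul 258 0, .add 2 0, .mul 260 0, .add 8 0, .mul 262 0, .add 17 0,
   .mul 264 0, .add 29 0, .mul 266 0, .add 44 0, .mul 268 0, .add 62 0,
   .base 177, .base 176, .mul 273 1, .add 1 0, .base 175, .mul 276 1,
   .add 1 0, .base 174, .mul 279 1, .add 1 0, .base 173, .mul 282 1,
   .add 1 0, .base 181, .base 180, .mul 286 1, .add 1 0, .base 179,
   .mul 289 1, .add 1 0, .base 178, .mul 292 1, .add 1 0, .base 184,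
   .base 183, .mul 296 1, .add 1 0, .base 182, .mul 299 1, .add 1 0,
   .base 186, .base 185, .mul 303 1, .add 1 0, .base 187, .mul 305 0,
   .add 2 0, .mul 307 0, .add 8 0, .mul 309 0, .add 17 0, .mul 311 0,
   .add 29 0, .sub 318 207, .sub 336 126, .sub 336 45, .sub 318 3]

def pDR0_o : List Nat := [3, 2, 1, 0]

def pDR0_b29 {α : Type} (A : Alg α) (v139 v140 v156 v159 v160 v161 v267 v349 v431 v444 v454 v461 v462 v463 : α) : List α :=
  let v464 := A.mul v160 v462
  let v465 := A.add v463 v464
  let v466 := A.base 187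
  let v467 := A.mul v161 v466
  let v468 := A.add v465 v467
  let v469 := A.mul v161 v468
  let v470 := A.add v461 v469
  let v471 := A.mul v161 v470
  let v472 := A.add v454 v471
  let v473 := A.mul v161 v472
  let v474 := A.add v444 v473
  let v475 := A.sub v156 v267
  let v476 := A.sub v139 v349
  let v477 := A.sub v140 v431
  let v478 := A.sub v159 v474
  [v475, v476, v477, v478]

def pDR0_b28 {α : Type} (A : Alg α) (v139 v140 v156 v159 v160 v161 v267 v349 v431 v444 v446 v447 : α) : List α :=
  let v448 := A.add v446 v447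
  let v449 := A.base 179
  let v450 := A.mul v160 v448
  let v451 := A.add v449 v450
  let v452 := A.base 178
  let v453 := A.mul v160 v451
  let v454 := A.add v452 v453
  let v455 := A.base 184
  let v456 := A.base 183
  let v457 := A.mul v160 v455
  let v458 := A.add v456 v457
  let v459 := A.base 182
  let v460 := A.mul v160 v458
  let v461 := A.add v459 v460
  let v462 := A.base 186
  let v463 := A.base 185
  pDR0_b29 A v139 v140 v156 v159 v160 v161 v267 v349 v431 v444 v454 v461 v462 v463

def pDR0_b27 {α : Type} (A : Alg α) (v139 v140 v156 v159 v160 v161 v267 v349 v431 : α) : List α :=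
  let v432 := A.base 177
  let v433 := A.base 176
  let v434 := A.mul v160 v432
  let v435 := A.add v433 v434
  let v436 := A.base 175
  let v437 := A.mul v160 v435
  let v438 := A.add v436 v437
  let v439 := A.base 174
  let v440 := A.mul v160 v438
  let v441 := A.add v439 v440
  let v442 := A.base 173
  let v443 := A.mul v160 v441
  let v444 := A.add v442 v443
  let v445 := A.base 181
  let v446 := A.base 180
  let v447 := A.mul v160 v445
  pDR0_b28 A v139 v140 v156 v159 v160 v161 v267 v349 v431 v444 v446 v447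

def pDR0_b26 {α : Type} (A : Alg α) (v139 v140 v156 v159 v160 v161 v267 v349 v368 v384 v397 v407 v414 v415 : α) : List α :=
  let v416 := A.base 170
  let v417 := A.mul v160 v415
  let v418 := A.add v416 v417
  let v419 := A.base 172
  let v420 := A.mul v161 v419
  let v421 := A.add v418 v420
  let v422 := A.mul v161 v421
  let v423 := A.add v414 v422
  let v424 := A.mul v161 v423
  let v425 := A.add v407 v424
  let v426 := A.mul v161 v425
  let v427 := A.add v397 v426
  let v428 := A.mul v161 v427
  let v429 := A.add v384 v428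
  let v430 := A.mul v161 v429
  let v431 := A.add v368 v430
  pDR0_b27 A v139 v140 v156 v159 v160 v161 v267 v349 v431

def pDR0_b25 {α : Type} (A : Alg α) (v139 v140 v156 v159 v160 v161 v267 v349 v368 v384 v397 v398 v399 : α) : List α :=
  let v400 := A.mul v160 v398
  let v401 := A.add v399 v400
  let v402 := A.base 164
  let v403 := A.mul v160 v401
  let v404 := A.add v402 v403
  let v405 := A.base 163
  let v406 := A.mul v160 v404
  let v407 := A.add v405 v406
  let v408 := A.base 169
  let v409 := A.base 168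
  let v410 := A.mul v160 v408
  let v411 := A.add v409 v410
  let v412 := A.base 167
  let v413 := A.mul v160 v411
  let v414 := A.add v412 v413
  let v415 := A.base 171
  pDR0_b26 A v139 v140 v156 v159 v160 v161 v267 v349 v368 v384 v397 v407 v414 v415

def pDR0_b24 {α : Type} (A : Alg α) (v139 v140 v156 v159 v160 v161 v267 v349 v368 v382 v383 : α) : List α :=
  let v384 := A.add v382 v383
  let v385 := A.base 162
  let v386 := A.base 161
  let v387 := A.mul v160 v385
  let v388 := A.add v386 v387
  let v389 := A.base 160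
  let v390 := A.mul v160 v388
  let v391 := A.add v389 v390
  let v392 := A.base 159
  let v393 := A.mul v160 v391
  let v394 := A.add v392 v393
  let v395 := A.base 158
  let v396 := A.mul v160 v394
  let v397 := A.add v395 v396
  let v398 := A.base 166
  let v399 := A.base 165
  pDR0_b25 A v139 v140 v156 v159 v160 v161 v267 v349 v368 v384 v397 v398 v399

def pDR0_b23 {α : Type} (A : Alg α) (v139 v140 v156 v159 v160 v161 v267 v349 v366 v367 : α) : List α :=
  let v368 := A.add v366 v367
  let v369 := A.base 157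
  let v370 := A.base 156
  let v371 := A.mul v160 v369
  let v372 := A.add v370 v371
  let v373 := A.base 155
  let v374 := A.mul v160 v372
  let v375 := A.add v373 v374
  let v376 := A.base 154
  let v377 := A.mul v160 v375
  let v378 := A.add v376 v377
  let v379 := A.base 153
  let v380 := A.mul v160 v378
  let v381 := A.add v379 v380
  let v382 := A.base 152
  let v383 := A.mul v160 v381
  pDR0_b24 A v139 v140 v156 v159 v160 v161 v267 v349 v368 v382 v383

def pDR0_b22 {α : Type} (A : Alg α) (v139 v140 v156 v159 v160 v161 v267 v349 v350 v351 : α) : List α :=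
  let v352 := A.mul v160 v350
  let v353 := A.add v351 v352
  let v354 := A.base 149
  let v355 := A.mul v160 v353
  let v356 := A.add v354 v355
  let v357 := A.base 148
  let v358 := A.mul v160 v356
  let v359 := A.add v357 v358
  let v360 := A.base 147
  let v361 := A.mul v160 v359
  let v362 := A.add v360 v361
  let v363 := A.base 146
  let v364 := A.mul v160 v362
  let v365 := A.add v363 v364
  let v366 := A.base 145
  let v367 := A.mul v160 v365
  pDR0_b23 A v139 v140 v156 v159 v160 v161 v267 v349 v366 v367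

def pDR0_b21 {α : Type} (A : Alg α) (v139 v140 v156 v159 v160 v161 v267 v286 v302 v315 v325 v332 v334 v335 : α) : List α :=
  let v336 := A.add v334 v335
  let v337 := A.base 144
  let v338 := A.mul v161 v337
  let v339 := A.add v336 v338
  let v340 := A.mul v161 v339
  let v341 := A.add v332 v340
  let v342 := A.mul v161 v341
  let v343 := A.add v325 v342
  let v344 := A.mul v161 v343
  let v345 := A.add v315 v344
  let v346 := A.mul v161 v345
  let v347 := A.add v302 v346
  let v348 := A.mul v161 v347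
  let v349 := A.add v286 v348
  let v350 := A.base 151
  let v351 := A.base 150
  pDR0_b22 A v139 v140 v156 v159 v160 v161 v267 v349 v350 v351

def pDR0_b20 {α : Type} (A : Alg α) (v139 v140 v156 v159 v160 v161 v267 v286 v302 v315 v319 : α) : List α :=
  let v320 := A.base 136
  let v321 := A.mul v160 v319
  let v322 := A.add v320 v321
  let v323 := A.base 135
  let v324 := A.mul v160 v322
  let v325 := A.add v323 v324
  let v326 := A.base 141
  let v327 := A.base 140
  let v328 := A.mul v160 v326
  let v329 := A.add v327 v328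
  let v330 := A.base 139
  let v331 := A.mul v160 v329
  let v332 := A.add v330 v331
  let v333 := A.base 143
  let v334 := A.base 142
  let v335 := A.mul v160 v333
  pDR0_b21 A v139 v140 v156 v159 v160 v161 v267 v286 v302 v315 v325 v332 v334 v335

def pDR0_b19 {α : Type} (A : Alg α) (v139 v140 v156 v159 v160 v161 v267 v286 v302 v303 : α) : List α :=
  let v304 := A.base 133
  let v305 := A.mul v160 v303
  let v306 := A.add v304 v305
  let v307 := A.base 132
  let v308 := A.mul v160 v306
  let v309 := A.add v307 v308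
  let v310 := A.base 131
  let v311 := A.mul v160 v309
  let v312 := A.add v310 v311
  let v313 := A.base 130
  let v314 := A.mul v160 v312
  let v315 := A.add v313 v314
  let v316 := A.base 138
  let v317 := A.base 137
  let v318 := A.mul v160 v316
  let v319 := A.add v317 v318
  pDR0_b20 A v139 v140 v156 v159 v160 v161 v267 v286 v302 v315 v319

def pDR0_b18 {α : Type} (A : Alg α) (v139 v140 v156 v159 v160 v161 v267 v286 v287 : α) : List α :=
  let v288 := A.base 128
  let v289 := A.mul v160 v287
  let v290 := A.add v288 v289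
  let v291 := A.base 127
  let v292 := A.mul v160 v290
  let v293 := A.add v291 v292
  let v294 := A.base 126
  let v295 := A.mul v160 v293
  let v296 := A.add v294 v295
  let v297 := A.base 125
  let v298 := A.mul v160 v296
  let v299 := A.add v297 v298
  let v300 := A.base 124
  let v301 := A.mul v160 v299
  let v302 := A.add v300 v301
  let v303 := A.base 134
  pDR0_b19 A v139 v140 v156 v159 v160 v161 v267 v286 v302 v303

def pDR0_b17 {α : Type} (A : Alg α) (v139 v140 v156 v159 v160 v161 v267 v271 : α) : List α :=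
  let v272 := A.base 121
  let v273 := A.mul v160 v271
  let v274 := A.add v272 v273
  let v275 := A.base 120
  let v276 := A.mul v160 v274
  let v277 := A.add v275 v276
  let v278 := A.base 119
  let v279 := A.mul v160 v277
  let v280 := A.add v278 v279
  let v281 := A.base 118
  let v282 := A.mul v160 v280
  let v283 := A.add v281 v282
  let v284 := A.base 117
  let v285 := A.mul v160 v283
  let v286 := A.add v284 v285
  let v287 := A.base 129
  pDR0_b18 A v139 v140 v156 v159 v160 v161 v267 v286 v287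

def pDR0_b16 {α : Type} (A : Alg α) (v139 v140 v156 v159 v160 v161 v183 v202 v218 v231 v241 v248 v255 : α) : List α :=
  let v256 := A.mul v161 v255
  let v257 := A.add v248 v256
  let v258 := A.mul v161 v257
  let v259 := A.add v241 v258
  let v260 := A.mul v161 v259
  let v261 := A.add v231 v260
  let v262 := A.mul v161 v261
  let v263 := A.add v218 v262
  let v264 := A.mul v161 v263
  let v265 := A.add v202 v264
  let v266 := A.mul v161 v265
  let v267 := A.add v183 v266
  let v268 := A.base 123
  let v269 := A.base 122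
  let v270 := A.mul v160 v268
  let v271 := A.add v269 v270
  pDR0_b17 A v139 v140 v156 v159 v160 v161 v267 v271

def pDR0_b15 {α : Type} (A : Alg α) (v139 v140 v156 v159 v160 v161 v183 v202 v218 v231 v238 v239 : α) : List α :=
  let v240 := A.mul v160 v238
  let v241 := A.add v239 v240
  let v242 := A.base 113
  let v243 := A.base 112
  let v244 := A.mul v160 v242
  let v245 := A.add v243 v244
  let v246 := A.base 111
  let v247 := A.mul v160 v245
  let v248 := A.add v246 v247
  let v249 := A.base 115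
  let v250 := A.base 114
  let v251 := A.mul v160 v249
  let v252 := A.add v250 v251
  let v253 := A.base 116
  let v254 := A.mul v161 v253
  let v255 := A.add v252 v254
  pDR0_b16 A v139 v140 v156 v159 v160 v161 v183 v202 v218 v231 v241 v248 v255

def pDR0_b14 {α : Type} (A : Alg α) (v139 v140 v156 v159 v160 v161 v183 v202 v218 v222 v223 : α) : List α :=
  let v224 := A.mul v160 v222
  let v225 := A.add v223 v224
  let v226 := A.base 103
  let v227 := A.mul v160 v225
  let v228 := A.add v226 v227
  let v229 := A.base 102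
  let v230 := A.mul v160 v228
  let v231 := A.add v229 v230
  let v232 := A.base 110
  let v233 := A.base 109
  let v234 := A.mul v160 v232
  let v235 := A.add v233 v234
  let v236 := A.base 108
  let v237 := A.mul v160 v235
  let v238 := A.add v236 v237
  let v239 := A.base 107
  pDR0_b15 A v139 v140 v156 v159 v160 v161 v183 v202 v218 v231 v238 v239

def pDR0_b13 {α : Type} (A : Alg α) (v139 v140 v156 v159 v160 v161 v183 v202 v206 v207 : α) : List α :=
  let v208 := A.mul v160 v206
  let v209 := A.add v207 v208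
  let v210 := A.base 98
  let v211 := A.mul v160 v209
  let v212 := A.add v210 v211
  let v213 := A.base 97
  let v214 := A.mul v160 v212
  let v215 := A.add v213 v214
  let v216 := A.base 96
  let v217 := A.mul v160 v215
  let v218 := A.add v216 v217
  let v219 := A.base 106
  let v220 := A.base 105
  let v221 := A.mul v160 v219
  let v222 := A.add v220 v221
  let v223 := A.base 104
  pDR0_b14 A v139 v140 v156 v159 v160 v161 v183 v202 v218 v222 v223

def pDR0_b12 {α : Type} (A : Alg α) (v139 v140 v156 v159 v160 v161 v183 v190 v191 : α) : List α :=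
  let v192 := A.mul v160 v190
  let v193 := A.add v191 v192
  let v194 := A.base 91
  let v195 := A.mul v160 v193
  let v196 := A.add v194 v195
  let v197 := A.base 90
  let v198 := A.mul v160 v196
  let v199 := A.add v197 v198
  let v200 := A.base 89
  let v201 := A.mul v160 v199
  let v202 := A.add v200 v201
  let v203 := A.base 101
  let v204 := A.base 100
  let v205 := A.mul v160 v203
  let v206 := A.add v204 v205
  let v207 := A.base 99
  pDR0_b13 A v139 v140 v156 v159 v160 v161 v183 v202 v206 v207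

def pDR0_b11 {α : Type} (A : Alg α) (v139 v140 v156 v159 v160 v161 v174 v175 : α) : List α :=
  let v176 := A.mul v160 v174
  let v177 := A.add v175 v176
  let v178 := A.base 82
  let v179 := A.mul v160 v177
  let v180 := A.add v178 v179
  let v181 := A.base 81
  let v182 := A.mul v160 v180
  let v183 := A.add v181 v182
  let v184 := A.base 95
  let v185 := A.base 94
  let v186 := A.mul v160 v184
  let v187 := A.add v185 v186
  let v188 := A.base 93
  let v189 := A.mul v160 v187
  let v190 := A.add v188 v189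
  let v191 := A.base 92
  pDR0_b12 A v139 v140 v156 v159 v160 v161 v183 v190 v191

def pDR0_b10 {α : Type} (A : Alg α) (v139 v140 v156 v159 : α) : List α :=
  let v160 := A.x
  let v161 := A.y
  let v162 := A.base 88
  let v163 := A.base 87
  let v164 := A.mul v160 v162
  let v165 := A.add v163 v164
  let v166 := A.base 86
  let v167 := A.mul v160 v165
  let v168 := A.add v166 v167
  let v169 := A.base 85
  let v170 := A.mul v160 v168
  let v171 := A.add v169 v170
  let v172 := A.base 84
  let v173 := A.mul v160 v171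
  let v174 := A.add v172 v173
  let v175 := A.base 83
  pDR0_b11 A v139 v140 v156 v159 v160 v161 v174 v175

def pDR0_b9 {α : Type} (A : Alg α) (v7 v8 v16 v109 v133 v134 v139 v140 v143 : α) : List α :=
  let v144 := A.mul v109 v143
  let v145 := A.base 71
  let v146 := A.base 72
  let v147 := A.base 73
  let v148 := A.mul v7 v147
  let v149 := A.mul v8 v147
  let v150 := A.add v145 v148
  let v151 := A.add v146 v149
  let v152 := A.mul v133 v150
  let v153 := A.mul v134 v151
  let v154 := A.add v152 v153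
  let v155 := A.mul v16 v154
  let v156 := A.add v144 v155
  let v157 := A.mul v7 v133
  let v158 := A.mul v8 v134
  let v159 := A.add v157 v158
  pDR0_b10 A v139 v140 v156 v159

def pDR0_b8 {α : Type} (A : Alg α) (v0 v1 v7 v8 v16 v93 v102 v109 v116 v121 v122 v127 : α) : List α :=
  let v128 := A.base 76
  let v129 := A.mul v0 v128
  let v130 := A.base 77
  let v131 := A.mul v1 v130
  let v132 := A.add v129 v131
  let v133 := A.sub v121 v127
  let v134 := A.sub v122 v132
  let v135 := A.mul v93 v109
  let v136 := A.mul v102 v109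
  let v137 := A.mul v16 v133
  let v138 := A.mul v16 v134
  let v139 := A.sub v135 v137
  let v140 := A.sub v136 v138
  let v141 := A.cst (1) 1
  let v142 := A.mul v16 v141
  let v143 := A.sub v142 v116
  pDR0_b9 A v7 v8 v16 v109 v133 v134 v139 v140 v143

def pDR0_b7 {α : Type} (A : Alg α) (v0 v1 v7 v8 v16 v21 v22 v36 v50 v64 v77 v93 v102 v109 v110 v111 : α) : List α :=
  let v112 := A.add v64 v110
  let v113 := A.add v77 v111
  let v114 := A.mul v22 v112
  let v115 := A.mul v21 v113
  let v116 := A.add v114 v115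
  let v117 := A.base 69
  let v118 := A.base 70
  let v119 := A.add v50 v117
  let v120 := A.sub v118 v36
  let v121 := A.mul v109 v119
  let v122 := A.mul v109 v120
  let v123 := A.base 74
  let v124 := A.mul v0 v123
  let v125 := A.base 75
  let v126 := A.mul v1 v125
  let v127 := A.add v124 v126
  pDR0_b8 A v0 v1 v7 v8 v16 v93 v102 v109 v116 v121 v122 v127

def pDR0_b6 {α : Type} (A : Alg α) (v0 v1 v7 v8 v16 v21 v22 v36 v42 v44 v47 v50 v64 v77 v79 v82 v84 v93 v94 v95 : α) : List α :=
  let v96 := A.add v94 v95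
  let v97 := A.mul v42 v79
  let v98 := A.mul v44 v82
  let v99 := A.add v97 v98
  let v100 := A.mul v47 v84
  let v101 := A.add v99 v100
  let v102 := A.add v96 v101
  let v103 := A.base 15
  let v104 := A.base 5
  let v105 := A.base 6
  let v106 := A.mul v0 v104
  let v107 := A.mul v1 v105
  let v108 := A.add v106 v107
  let v109 := A.add v103 v108
  let v110 := A.base 29
  let v111 := A.base 30
  pDR0_b7 A v0 v1 v7 v8 v16 v21 v22 v36 v50 v64 v77 v93 v102 v109 v110 v111

def pDR0_b5 {α : Type} (A : Alg α) (v0 v1 v7 v8 v14 v16 v21 v22 v23 v25 v28 v30 v33 v36 v37 v39 v42 v44 v47 v50 v64 v77 v79 : α) : List α :=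
  let v80 := A.mul v0 v21
  let v81 := A.mul v1 v22
  let v82 := A.add v80 v81
  let v83 := A.mul v1 v21
  let v84 := A.mul v14 v83
  let v85 := A.mul v22 v23
  let v86 := A.mul v21 v25
  let v87 := A.add v85 v86
  let v88 := A.mul v28 v79
  let v89 := A.mul v30 v82
  let v90 := A.add v88 v89
  let v91 := A.mul v33 v84
  let v92 := A.add v90 v91
  let v93 := A.add v87 v92
  let v94 := A.mul v22 v37
  let v95 := A.mul v21 v39
  pDR0_b6 A v0 v1 v7 v8 v16 v21 v22 v36 v42 v44 v47 v50 v64 v77 v79 v82 v84 v93 v94 v95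

def pDR0_b4 {α : Type} (A : Alg α) (v0 v1 v2 v3 v4 v7 v8 v14 v16 v21 v22 v23 v25 v28 v30 v33 v36 v37 v39 v42 v44 v47 v50 v53 v55 v63 : α) : List α :=
  let v64 := A.add v55 v63
  let v65 := A.mul v0 v53
  let v66 := A.base 35
  let v67 := A.mul v1 v66
  let v68 := A.add v65 v67
  let v69 := A.base 39
  let v70 := A.mul v2 v69
  let v71 := A.base 40
  let v72 := A.mul v3 v71
  let v73 := A.add v70 v72
  let v74 := A.base 41
  let v75 := A.mul v4 v74
  let v76 := A.add v73 v75
  let v77 := A.add v68 v76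
  let v78 := A.mul v0 v22
  let v79 := A.mul v14 v78
  pDR0_b5 A v0 v1 v7 v8 v14 v16 v21 v22 v23 v25 v28 v30 v33 v36 v37 v39 v42 v44 v47 v50 v64 v77 v79

def pDR0_b3 {α : Type} (A : Alg α) (v0 v1 v2 v3 v4 v7 v8 v14 v16 v21 v22 v23 v25 v28 v30 v33 v36 v37 v39 v41 v42 v44 v46 v47 : α) : List α :=
  let v48 := A.mul v4 v47
  let v49 := A.add v46 v48
  let v50 := A.add v41 v49
  let v51 := A.base 33
  let v52 := A.mul v0 v51
  let v53 := A.base 34
  let v54 := A.mul v1 v53
  let v55 := A.add v52 v54
  let v56 := A.base 36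
  let v57 := A.mul v2 v56
  let v58 := A.base 37
  let v59 := A.mul v3 v58
  let v60 := A.add v57 v59
  let v61 := A.base 38
  let v62 := A.mul v4 v61
  let v63 := A.add v60 v62
  pDR0_b4 A v0 v1 v2 v3 v4 v7 v8 v14 v16 v21 v22 v23 v25 v28 v30 v33 v36 v37 v39 v42 v44 v47 v50 v53 v55 v63

def pDR0_b2 {α : Type} (A : Alg α) (v0 v1 v2 v3 v4 v7 v8 v14 v16 v21 v22 v23 v25 v27 v28 v29 v30 v31 : α) : List α :=
  let v32 := A.add v29 v31
  let v33 := A.base 55
  let v34 := A.mul v4 v33
  let v35 := A.add v32 v34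
  let v36 := A.add v27 v35
  let v37 := A.base 51
  let v38 := A.mul v0 v37
  let v39 := A.base 52
  let v40 := A.mul v1 v39
  let v41 := A.add v38 v40
  let v42 := A.base 56
  let v43 := A.mul v2 v42
  let v44 := A.base 57
  let v45 := A.mul v3 v44
  let v46 := A.add v43 v45
  let v47 := A.base 58
  pDR0_b3 A v0 v1 v2 v3 v4 v7 v8 v14 v16 v21 v22 v23 v25 v28 v30 v33 v36 v37 v39 v41 v42 v44 v46 v47

def pDR0_b1 {α : Type} (A : Alg α) (v0 v1 v2 v3 v4 v7 v8 v12 v13 v14 v15 : α) : List α :=
  let v16 := A.sub v12 v15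
  let v17 := A.mul v13 v14
  let v18 := A.mul v7 v16
  let v19 := A.mul v8 v16
  let v20 := A.sub v17 v18
  let v21 := A.mul v13 v20
  let v22 := A.mul v13 v19
  let v23 := A.base 49
  let v24 := A.mul v0 v23
  let v25 := A.base 50
  let v26 := A.mul v1 v25
  let v27 := A.add v24 v26
  let v28 := A.base 53
  let v29 := A.mul v2 v28
  let v30 := A.base 54
  let v31 := A.mul v3 v30
  pDR0_b2 A v0 v1 v2 v3 v4 v7 v8 v14 v16 v21 v22 v23 v25 v27 v28 v29 v30 v31

def pDR0_f {α : Type} (A : Alg α) : List α :=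
  let v0 := A.x
  let v1 := A.y
  let v2 := A.mul v0 v0
  let v3 := A.mul v0 v1
  let v4 := A.mul v1 v1
  let v5 := A.base 0
  let v6 := A.base 1
  let v7 := A.add v0 v5
  let v8 := A.add v1 v6
  let v9 := A.mul v7 v7
  let v10 := A.mul v8 v8
  let v11 := A.add v9 v10
  let v12 := A.cst (1) 0
  let v13 := A.sub v12 v11
  let v14 := A.cst (2) 0
  let v15 := A.mul v7 v14
  pDR0_b1 A v0 v1 v2 v3 v4 v7 v8 v12 v13 v14 v15

theorem pDR0_h {α : Type} (A : Alg α) : pDR0_f A = outs A pDR0_P pDR0_o := rfl

def pDR0 : Prg := ⟨pDR0_P, pDR0_o, pDR0_f, pDR0_h⟩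

/-- last part -/
def pDR0_z : List Op := [.sub 318 207, .sub 336 126, .sub 336 45, .sub 318 3]

theorem pDR0_parts : pDR0_P = pR0 ++ (pHR ++ pDR0_z) := rfl

theorem pDR0_val (P : Pt) (l : List ℝ) (r s : ℝ) (β : ℕ → ℝ)
    (hβ : β = fun i => get 0 (P.syl l) i) :
    OutEq (run (realAlg β r s) pDR0_P []) pDR0_o
      [P.ctr 1 ⟨r, s⟩ (ηd 0 (P.yr 1 ⟨r, s⟩)) (1 - 2 * dt (uu 0) (P.yr 1 ⟨r, s⟩))
        - hr2 β r s 81 7,
      (P.fqr 1 ⟨r, s⟩ (ηd 0 (P.yr 1 ⟨r, s⟩)) (1 - 2 * dt (uu 0) (P.yr 1 ⟨r, s⟩))).re
        - hr2 β r s 117 6,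
      (P.fqr 1 ⟨r, s⟩ (ηd 0 (P.yr 1 ⟨r, s⟩)) (1 - 2 * dt (uu 0) (P.yr 1 ⟨r, s⟩))).im
        - hr2 β r s 145 6,
      dt (P.fpr 1 ⟨r, s⟩) (P.yr 1 ⟨r, s⟩)
        - hr2 β r s 173 4] := by
  have hE := pR0_val P l r s
  rw [← hβ] at hE
  obtain ⟨st1, e1⟩ : ∃ q, q = run (realAlg β r s) pR0 [] := ⟨_, rfl⟩
  rw [← e1] at hE
  have hH := pHR_val β r s st1
  have hL := fun k n h => get_run_add' (realAlg β r s) 0 pHR st1 k n h
  obtain ⟨st2, e2⟩ : ∃ q, q = run (realAlg β r s) pHR st1 := ⟨_, rfl⟩
  rw [← e2] at hH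
  rw [← e2] at hL
  obtain ⟨a0, a1, a2, a3, a4, -⟩ := hE
  obtain ⟨b0, b1, b2, b3, -⟩ := hH
  rw [pDR0_parts, run_append, run_append, ← e1, ← e2]
  have h := trE_runst2 (realAlg β r s) pDR0_z st2
  unfold pDR0_z at h
  obtain ⟨v0, h0, h⟩ := h
  obtain ⟨v1, h1, h⟩ := h
  obtain ⟨v2, h2, h⟩ := h
  obtain ⟨v3, h3, h⟩ := h
  have cct : get 0 st2 318 = P.ctr 1 ⟨r, s⟩ (ηd 0 (P.yr 1 ⟨r, s⟩)) (1 - 2 * dt (uu 0) (P.yr 1 ⟨r, s⟩)) := (hL 3 318 rfl).trans a2
  change v0 = get 0 st2 318 - get 0 st2 207 at h0
  rw [cct, b0] at h0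
  have cqr : get 0 st2 335 = (P.fqr 1 ⟨r, s⟩ (ηd 0 (P.yr 1 ⟨r, s⟩)) (1 - 2 * dt (uu 0) (P.yr 1 ⟨r, s⟩))).re := (hL 20 335 rfl).trans a0
  change v1 = get 0 st2 335 - get 0 st2 125 at h1
  rw [cqr, b1] at h1
  have cqi : get 0 st2 334 = (P.fqr 1 ⟨r, s⟩ (ηd 0 (P.yr 1 ⟨r, s⟩)) (1 - 2 * dt (uu 0) (P.yr 1 ⟨r, s⟩))).im := (hL 19 334 rfl).trans a1
  change v2 = get 0 st2 334 - get 0 st2 43 at h2
  rw [cqi, b2] at h2
  have cfy : get 0 st2 315 = dt (P.fpr 1 ⟨r, s⟩) (P.yr 1 ⟨r, s⟩) := (hL 0 315 rfl).trans a3
  change v3 = get 0 st2 315 - get 0 st2 0 at h3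
  rw [cfy, b3] at h3
  refine OutEq_of h ⟨h0, h1, h2, h3, trivial⟩

end Pool.H61.Rh
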