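import Pool.Agent.H61.Rz.PR1
import Pool.Agent.H61.Rz.PHR
import Pool.Agent.H47.K3.Defs

/-! # generated: difference program pDR1 -/

set_option autoImplicit false
set_option maxRecDepth 100000
set_option linter.unusedVariables false

namespace Pool.H61.Rh

open Complex Pool.H47.Kc Pool.H47.K3

def pDR1_P : List Op :=
  [.x, .y, .mul 1 1, .mul 2 1, .mul 2 2, .base 78,
   .cst (1) 1, .mul 1 0, .base 0, .base 1, .add 9 1, .add 9 1,
   .mul 1 1, .mul 1 1, .add 1 0, .cst (1) 0, .sub 0 1, .mul 10 6,
   .mul 10 6, .sub 0 1, .cst (2) 0, .mul 1 0, .sub 6 0, .mul 6 2,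
   .mul 17 0, .mul 17 1, .mul 15 3, .mul 15 4, .add 3 1, .sub 3 1,
   .mul 13 1, .mul 14 1, .base 49, .mul 32 0, .base 50, .mul 33 0,
   .add 2 0, .base 53, .mul 35 0, .base 54, .mul 36 0, .add 2 0,
   .base 55, .mul 38 0, .add 2 0, .add 8 0, .base 51, .mul 46 0,
   .base 52, .mul 47 0, .add 2 0, .base 56, .mul 49 0, .base 57,
   .mul 50 0, .add 2 0, .base 58, .mul 52 0, .add 2 0, .add 8 0,
   .base 33, .mul 60 0, .base 34, .mul 61 0, .add 2 0, .base 36,
   .mul 63 0, .base 37, .mul 64 0, .add 2 0, .base 38, .mul 66 0,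
   .add 2 0, .add 8 0, .mul 73 11, .base 35, .mul 74 0, .add 2 0,
   .base 39, .mul 76 0, .base 40, .mul 77 0, .add 2 0, .base 41,
   .mul 79 0, .add 2 0, .add 8 0, .mul 86 55, .mul 67 0, .mul 88 58,
   .mul 88 58, .add 1 0, .mul 90 61, .mul 72 0, .mul 62 61, .mul 64 60,
   .add 1 0, .mul 59 8, .mul 58 6, .add 1 0, .mul 57 6, .add 1 0,
   .add 5 0, .mul 71 56, .mul 73 55, .add 1 0, .mul 54 17, .mul 53 15,
   .add 1 0, .mul 52 15, .add 1 0, .add 5 0, .base 15, .base 5,
   .base 6, .mul 114 1, .mul 114 1, .add 1 0, .add 5 0, .base 29,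
   .base 30, .add 47 1, .add 35 1, .mul 91 1, .mul 93 1, .add 1 0,
   .base 69, .base 70, .add 68 1, .sub 1 83, .mul 11 1, .mul 12 1,
   .base 74, .mul 132 0, .base 75, .mul 133 0, .add 2 0, .base 76,
   .mul 137 0, .base 77, .mul 138 0, .add 2 0, .sub 11 5, .sub 11 1,
   .mul 41 25, .mul 33 26, .mul 123 3, .mul 124 3, .add 3 1, .add 3 1,
   .mul 143 127, .add 25 0, .mul 33 0, .base 71, .base 72, .base 73,
   .mul 145 0, .mul 145 1, .add 4 1, .add 4 1, .mul 17 1, .mul 17 1,
   .add 1 0, .mul 140 0, .add 11 0, .mul 154 22, .mul 154 22, .add 1 0,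
   .cst (0) 0, .sub 0 20, .sub 1 20, .x, .y, .base 88,
   .base 87, .mul 3 1, .add 1 0, .base 86, .mul 6 1, .add 1 0,
   .base 85, .mul 9 1, .add 1 0, .base 84, .mul 12 1, .add 1 0,
   .base 83, .mul 15 1, .add 1 0, .base 82, .mul 18 1, .add 1 0,
   .base 81, .mul 21 1, .add 1 0, .base 95, .base 94, .mul 25 1,
   .add 1 0, .base 93, .mul 28 1, .add 1 0, .base 92, .mul 31 1,
   .add 1 0, .base 91, .mul 34 1, .add 1 0, .base 90, .mul 37 1,
   .add 1 0, .base 89, .mul 40 1, .add 1 0, .base 101, .base 100,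
   .mul 44 1, .add 1 0, .base 99, .mul 47 1, .add 1 0, .base 98,
   .mul 50 1, .add 1 0, .base 97, .mul 53 1, .add 1 0, .base 96,
   .mul 56 1, .add 1 0, .base 106, .base 105, .mul 60 1, .add 1 0,
   .base 104, .mul 63 1, .add 1 0, .base 103, .mul 66 1, .add 1 0,
   .base 102, .mul 69 1, .add 1 0, .base 110, .base 109, .mul 73 1,
   .add 1 0, .base 108, .mul 76 1, .add 1 0, .base 107, .mul 79 1,
   .add 1 0, .base 113, .base 112, .mul 83 1, .add 1 0, .base 111,
   .mul 86 1, .add 1 0, .base 115, .base 114, .mul 90 1, .add 1 0,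
   .base 116, .mul 92 0, .add 2 0, .mul 94 0, .add 8 0, .mul 96 0,
   .add 17 0, .mul 98 0, .add 29 0, .mul 100 0, .add 44 0, .mul 102 0,
   .add 62 0, .mul 104 0, .add 83 0, .base 123, .base 122, .mul 109 1,
   .add 1 0, .base 121, .mul 112 1, .add 1 0, .base 120, .mul 115 1,
   .add 1 0, .base 119, .mul 118 1, .add 1 0, .base 118, .mul 121 1,
   .add 1 0, .base 117, .mul 124 1, .add 1 0, .base 129, .base 128,
   .mul 128 1, .add 1 0, .base 127, .mul 131 1, .add 1 0, .base 126,
   .mul 134 1, .add 1 0, .base 125, .mul 137 1, .add 1 0, .base 124,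
   .mul 140 1, .add 1 0, .base 134, .base 133, .mul 144 1, .add 1 0,
   .base 132, .mul 147 1, .add 1 0, .base 131, .mul 150 1, .add 1 0,
   .base 130, .mul 153 1, .add 1 0, .base 138, .base 137, .mul 157 1,
   .add 1 0, .base 136, .mul 160 1, .add 1 0, .base 135, .mul 163 1,
   .add 1 0, .base 141, .base 140, .mul 167 1, .add 1 0, .base 139,
   .mul 170 1, .add 1 0, .base 143, .base 142, .mul 174 1, .add 1 0,
   .base 144, .mul 176 0, .add 2 0, .mul 178 0, .add 8 0, .mul 180 0,
   .add 17 0, .mul 182 0, .add 29 0, .mul 184 0, .add 44 0, .mul 186 0,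
   .add 62 0, .base 151, .base 150, .mul 191 1, .add 1 0, .base 149,
   .mul 194 1, .add 1 0, .base 148, .mul 197 1, .add 1 0, .base 147,
   .mul 200 1, .add 1 0, .base 146, .mul 203 1, .add 1 0, .base 145,
   .mul 206 1, .add 1 0, .base 157, .base 156, .mul 210 1, .add 1 0,
   .base 155, .mul 213 1, .add 1 0, .base 154, .mul 216 1, .add 1 0,
   .base 153, .mul 219 1, .add 1 0, .base 152, .mul 222 1, .add 1 0,
   .base 162, .base 161, .mul 226 1, .add 1 0, .base 160, .mul 229 1,
   .add 1 0, .base 159, .mul 232 1, .add 1 0, .base 158, .mul 235 1,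
   .add 1 0, .base 166, .base 165, .mul 239 1, .add 1 0, .base 164,
   .mul 242 1, .add 1 0, .base 163, .mul 245 1, .add 1 0, .base 169,
   .base 168, .mul 249 1, .add 1 0, .base 167, .mul 252 1, .add 1 0,
   .base 171, .base 170, .mul 256 1, .add 1 0, .base 172, .mul 258 0,
   .add 2 0, .mul 260 0, .add 8 0, .mul 262 0, .add 17 0, .mul 264 0,
   .add 29 0, .mul 266 0, .add 44 0, .mul 268 0, .add 62 0, .base 177,
   .base 176, .mul 273 1, .add 1 0, .base 175, .mul 276 1, .add 1 0,
   .base 174, .mul 279 1, .add 1 0, .base 173, .mul 282 1, .add 1 0,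
   .base 181, .base 180, .mul 286 1, .add 1 0, .base 179, .mul 289 1,
   .add 1 0, .base 178, .mul 292 1, .add 1 0, .base 184, .base 183,
   .mul 296 1, .add 1 0, .base 182, .mul 299 1, .add 1 0, .base 186,
   .base 185, .mul 303 1, .add 1 0, .base 187, .mul 305 0, .add 2 0,
   .mul 307 0, .add 8 0, .mul 309 0, .add 17 0, .mul 311 0, .add 29 0,
   .sub 321 207, .sub 317 126, .sub 317 45, .sub 321 3]

def pDR1_o : List Nat := [3, 2, 1, 0]

def pDR1_b30 {α : Type} (A : Alg α) (v164 v167 v169 v170 v172 v278 v360 v442 v455 v465 v472 v479 : α) : List α :=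
  let v480 := A.mul v172 v479
  let v481 := A.add v472 v480
  let v482 := A.mul v172 v481
  let v483 := A.add v465 v482
  let v484 := A.mul v172 v483
  let v485 := A.add v455 v484
  let v486 := A.sub v164 v278
  let v487 := A.sub v169 v360
  let v488 := A.sub v170 v442
  let v489 := A.sub v167 v485
  [v486, v487, v488, v489]

def pDR1_b29 {α : Type} (A : Alg α) (v164 v167 v169 v170 v171 v172 v278 v360 v442 v455 v462 v463 : α) : List α :=
  let v464 := A.mul v171 v462
  let v465 := A.add v463 v464
  let v466 := A.base 184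
  let v467 := A.base 183
  let v468 := A.mul v171 v466
  let v469 := A.add v467 v468
  let v470 := A.base 182
  let v471 := A.mul v171 v469
  let v472 := A.add v470 v471
  let v473 := A.base 186
  let v474 := A.base 185
  let v475 := A.mul v171 v473
  let v476 := A.add v474 v475
  let v477 := A.base 187
  let v478 := A.mul v172 v477
  let v479 := A.add v476 v478
  pDR1_b30 A v164 v167 v169 v170 v172 v278 v360 v442 v455 v465 v472 v479

def pDR1_b28 {α : Type} (A : Alg α) (v164 v167 v169 v170 v171 v172 v278 v360 v442 v446 v447 : α) : List α :=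
  let v448 := A.mul v171 v446
  let v449 := A.add v447 v448
  let v450 := A.base 174
  let v451 := A.mul v171 v449
  let v452 := A.add v450 v451
  let v453 := A.base 173
  let v454 := A.mul v171 v452
  let v455 := A.add v453 v454
  let v456 := A.base 181
  let v457 := A.base 180
  let v458 := A.mul v171 v456
  let v459 := A.add v457 v458
  let v460 := A.base 179
  let v461 := A.mul v171 v459
  let v462 := A.add v460 v461
  let v463 := A.base 178
  pDR1_b29 A v164 v167 v169 v170 v171 v172 v278 v360 v442 v455 v462 v463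

def pDR1_b27 {α : Type} (A : Alg α) (v164 v167 v169 v170 v171 v172 v278 v360 v379 v395 v408 v418 v425 v429 v431 : α) : List α :=
  let v432 := A.add v429 v431
  let v433 := A.mul v172 v432
  let v434 := A.add v425 v433
  let v435 := A.mul v172 v434
  let v436 := A.add v418 v435
  let v437 := A.mul v172 v436
  let v438 := A.add v408 v437
  let v439 := A.mul v172 v438
  let v440 := A.add v395 v439
  let v441 := A.mul v172 v440
  let v442 := A.add v379 v441
  let v443 := A.base 177
  let v444 := A.base 176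
  let v445 := A.mul v171 v443
  let v446 := A.add v444 v445
  let v447 := A.base 175
  pDR1_b28 A v164 v167 v169 v170 v171 v172 v278 v360 v442 v446 v447

def pDR1_b26 {α : Type} (A : Alg α) (v164 v167 v169 v170 v171 v172 v278 v360 v379 v395 v408 v415 : α) : List α :=
  let v416 := A.base 163
  let v417 := A.mul v171 v415
  let v418 := A.add v416 v417
  let v419 := A.base 169
  let v420 := A.base 168
  let v421 := A.mul v171 v419
  let v422 := A.add v420 v421
  let v423 := A.base 167
  let v424 := A.mul v171 v422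
  let v425 := A.add v423 v424
  let v426 := A.base 171
  let v427 := A.base 170
  let v428 := A.mul v171 v426
  let v429 := A.add v427 v428
  let v430 := A.base 172
  let v431 := A.mul v172 v430
  pDR1_b27 A v164 v167 v169 v170 v171 v172 v278 v360 v379 v395 v408 v418 v425 v429 v431

def pDR1_b25 {α : Type} (A : Alg α) (v164 v167 v169 v170 v171 v172 v278 v360 v379 v395 v399 : α) : List α :=
  let v400 := A.base 160
  let v401 := A.mul v171 v399
  let v402 := A.add v400 v401
  let v403 := A.base 159
  let v404 := A.mul v171 v402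
  let v405 := A.add v403 v404
  let v406 := A.base 158
  let v407 := A.mul v171 v405
  let v408 := A.add v406 v407
  let v409 := A.base 166
  let v410 := A.base 165
  let v411 := A.mul v171 v409
  let v412 := A.add v410 v411
  let v413 := A.base 164
  let v414 := A.mul v171 v412
  let v415 := A.add v413 v414
  pDR1_b26 A v164 v167 v169 v170 v171 v172 v278 v360 v379 v395 v408 v415

def pDR1_b24 {α : Type} (A : Alg α) (v164 v167 v169 v170 v171 v172 v278 v360 v379 v383 : α) : List α :=
  let v384 := A.base 155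
  let v385 := A.mul v171 v383
  let v386 := A.add v384 v385
  let v387 := A.base 154
  let v388 := A.mul v171 v386
  let v389 := A.add v387 v388
  let v390 := A.base 153
  let v391 := A.mul v171 v389
  let v392 := A.add v390 v391
  let v393 := A.base 152
  let v394 := A.mul v171 v392
  let v395 := A.add v393 v394
  let v396 := A.base 162
  let v397 := A.base 161
  let v398 := A.mul v171 v396
  let v399 := A.add v397 v398
  pDR1_b25 A v164 v167 v169 v170 v171 v172 v278 v360 v379 v395 v399

def pDR1_b23 {α : Type} (A : Alg α) (v164 v167 v169 v170 v171 v172 v278 v360 v367 : α) : List α :=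
  let v368 := A.base 148
  let v369 := A.mul v171 v367
  let v370 := A.add v368 v369
  let v371 := A.base 147
  let v372 := A.mul v171 v370
  let v373 := A.add v371 v372
  let v374 := A.base 146
  let v375 := A.mul v171 v373
  let v376 := A.add v374 v375
  let v377 := A.base 145
  let v378 := A.mul v171 v376
  let v379 := A.add v377 v378
  let v380 := A.base 157
  let v381 := A.base 156
  let v382 := A.mul v171 v380
  let v383 := A.add v381 v382
  pDR1_b24 A v164 v167 v169 v170 v171 v172 v278 v360 v379 v383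

def pDR1_b22 {α : Type} (A : Alg α) (v164 v167 v169 v170 v171 v172 v278 v297 v313 v326 v336 v343 v351 : α) : List α :=
  let v352 := A.add v343 v351
  let v353 := A.mul v172 v352
  let v354 := A.add v336 v353
  let v355 := A.mul v172 v354
  let v356 := A.add v326 v355
  let v357 := A.mul v172 v356
  let v358 := A.add v313 v357
  let v359 := A.mul v172 v358
  let v360 := A.add v297 v359
  let v361 := A.base 151
  let v362 := A.base 150
  let v363 := A.mul v171 v361
  let v364 := A.add v362 v363
  let v365 := A.base 149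
  let v366 := A.mul v171 v364
  let v367 := A.add v365 v366
  pDR1_b23 A v164 v167 v169 v170 v171 v172 v278 v360 v367

def pDR1_b21 {α : Type} (A : Alg α) (v164 v167 v169 v170 v171 v172 v278 v297 v313 v326 v334 v335 : α) : List α :=
  let v336 := A.add v334 v335
  let v337 := A.base 141
  let v338 := A.base 140
  let v339 := A.mul v171 v337
  let v340 := A.add v338 v339
  let v341 := A.base 139
  let v342 := A.mul v171 v340
  let v343 := A.add v341 v342
  let v344 := A.base 143
  let v345 := A.base 142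
  let v346 := A.mul v171 v344
  let v347 := A.add v345 v346
  let v348 := A.base 144
  let v349 := A.mul v172 v348
  let v350 := A.add v347 v349
  let v351 := A.mul v172 v350
  pDR1_b22 A v164 v167 v169 v170 v171 v172 v278 v297 v313 v326 v336 v343 v351

def pDR1_b20 {α : Type} (A : Alg α) (v164 v167 v169 v170 v171 v172 v278 v297 v313 v318 v319 : α) : List α :=
  let v320 := A.add v318 v319
  let v321 := A.base 131
  let v322 := A.mul v171 v320
  let v323 := A.add v321 v322
  let v324 := A.base 130
  let v325 := A.mul v171 v323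
  let v326 := A.add v324 v325
  let v327 := A.base 138
  let v328 := A.base 137
  let v329 := A.mul v171 v327
  let v330 := A.add v328 v329
  let v331 := A.base 136
  let v332 := A.mul v171 v330
  let v333 := A.add v331 v332
  let v334 := A.base 135
  let v335 := A.mul v171 v333
  pDR1_b21 A v164 v167 v169 v170 v171 v172 v278 v297 v313 v326 v334 v335

def pDR1_b19 {α : Type} (A : Alg α) (v164 v167 v169 v170 v171 v172 v278 v297 v302 v303 : α) : List α :=
  let v304 := A.add v302 v303
  let v305 := A.base 126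
  let v306 := A.mul v171 v304
  let v307 := A.add v305 v306
  let v308 := A.base 125
  let v309 := A.mul v171 v307
  let v310 := A.add v308 v309
  let v311 := A.base 124
  let v312 := A.mul v171 v310
  let v313 := A.add v311 v312
  let v314 := A.base 134
  let v315 := A.base 133
  let v316 := A.mul v171 v314
  let v317 := A.add v315 v316
  let v318 := A.base 132
  let v319 := A.mul v171 v317
  pDR1_b20 A v164 v167 v169 v170 v171 v172 v278 v297 v313 v318 v319

def pDR1_b18 {α : Type} (A : Alg α) (v164 v167 v169 v170 v171 v172 v278 v286 v287 : α) : List α :=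
  let v288 := A.add v286 v287
  let v289 := A.base 119
  let v290 := A.mul v171 v288
  let v291 := A.add v289 v290
  let v292 := A.base 118
  let v293 := A.mul v171 v291
  let v294 := A.add v292 v293
  let v295 := A.base 117
  let v296 := A.mul v171 v294
  let v297 := A.add v295 v296
  let v298 := A.base 129
  let v299 := A.base 128
  let v300 := A.mul v171 v298
  let v301 := A.add v299 v300
  let v302 := A.base 127
  let v303 := A.mul v171 v301
  pDR1_b19 A v164 v167 v169 v170 v171 v172 v278 v297 v302 v303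

def pDR1_b17 {α : Type} (A : Alg α) (v164 v167 v169 v170 v171 v172 v194 v213 v229 v242 v271 : α) : List α :=
  let v272 := A.add v242 v271
  let v273 := A.mul v172 v272
  let v274 := A.add v229 v273
  let v275 := A.mul v172 v274
  let v276 := A.add v213 v275
  let v277 := A.mul v172 v276
  let v278 := A.add v194 v277
  let v279 := A.base 123
  let v280 := A.base 122
  let v281 := A.mul v171 v279
  let v282 := A.add v280 v281
  let v283 := A.base 121
  let v284 := A.mul v171 v282
  let v285 := A.add v283 v284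
  let v286 := A.base 120
  let v287 := A.mul v171 v285
  pDR1_b18 A v164 v167 v169 v170 v171 v172 v278 v286 v287

def pDR1_b16 {α : Type} (A : Alg α) (v164 v167 v169 v170 v171 v172 v194 v213 v229 v242 v252 v254 v255 : α) : List α :=
  let v256 := A.add v254 v255
  let v257 := A.base 111
  let v258 := A.mul v171 v256
  let v259 := A.add v257 v258
  let v260 := A.base 115
  let v261 := A.base 114
  let v262 := A.mul v171 v260
  let v263 := A.add v261 v262
  let v264 := A.base 116
  let v265 := A.mul v172 v264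
  let v266 := A.add v263 v265
  let v267 := A.mul v172 v266
  let v268 := A.add v259 v267
  let v269 := A.mul v172 v268
  let v270 := A.add v252 v269
  let v271 := A.mul v172 v270
  pDR1_b17 A v164 v167 v169 v170 v171 v172 v194 v213 v229 v242 v271

def pDR1_b15 {α : Type} (A : Alg α) (v164 v167 v169 v170 v171 v172 v194 v213 v229 v239 : α) : List α :=
  let v240 := A.base 102
  let v241 := A.mul v171 v239
  let v242 := A.add v240 v241
  let v243 := A.base 110
  let v244 := A.base 109
  let v245 := A.mul v171 v243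
  let v246 := A.add v244 v245
  let v247 := A.base 108
  let v248 := A.mul v171 v246
  let v249 := A.add v247 v248
  let v250 := A.base 107
  let v251 := A.mul v171 v249
  let v252 := A.add v250 v251
  let v253 := A.base 113
  let v254 := A.base 112
  let v255 := A.mul v171 v253
  pDR1_b16 A v164 v167 v169 v170 v171 v172 v194 v213 v229 v242 v252 v254 v255

def pDR1_b14 {α : Type} (A : Alg α) (v164 v167 v169 v170 v171 v172 v194 v213 v223 : α) : List α :=
  let v224 := A.base 97
  let v225 := A.mul v171 v223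
  let v226 := A.add v224 v225
  let v227 := A.base 96
  let v228 := A.mul v171 v226
  let v229 := A.add v227 v228
  let v230 := A.base 106
  let v231 := A.base 105
  let v232 := A.mul v171 v230
  let v233 := A.add v231 v232
  let v234 := A.base 104
  let v235 := A.mul v171 v233
  let v236 := A.add v234 v235
  let v237 := A.base 103
  let v238 := A.mul v171 v236
  let v239 := A.add v237 v238
  pDR1_b15 A v164 v167 v169 v170 v171 v172 v194 v213 v229 v239

def pDR1_b13 {α : Type} (A : Alg α) (v164 v167 v169 v170 v171 v172 v194 v207 : α) : List α :=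
  let v208 := A.base 90
  let v209 := A.mul v171 v207
  let v210 := A.add v208 v209
  let v211 := A.base 89
  let v212 := A.mul v171 v210
  let v213 := A.add v211 v212
  let v214 := A.base 101
  let v215 := A.base 100
  let v216 := A.mul v171 v214
  let v217 := A.add v215 v216
  let v218 := A.base 99
  let v219 := A.mul v171 v217
  let v220 := A.add v218 v219
  let v221 := A.base 98
  let v222 := A.mul v171 v220
  let v223 := A.add v221 v222
  pDR1_b14 A v164 v167 v169 v170 v171 v172 v194 v213 v223

def pDR1_b12 {α : Type} (A : Alg α) (v164 v167 v169 v170 v171 v172 v191 : α) : List α :=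
  let v192 := A.base 81
  let v193 := A.mul v171 v191
  let v194 := A.add v192 v193
  let v195 := A.base 95
  let v196 := A.base 94
  let v197 := A.mul v171 v195
  let v198 := A.add v196 v197
  let v199 := A.base 93
  let v200 := A.mul v171 v198
  let v201 := A.add v199 v200
  let v202 := A.base 92
  let v203 := A.mul v171 v201
  let v204 := A.add v202 v203
  let v205 := A.base 91
  let v206 := A.mul v171 v204
  let v207 := A.add v205 v206
  pDR1_b13 A v164 v167 v169 v170 v171 v172 v194 v207

def pDR1_b11 {α : Type} (A : Alg α) (v164 v167 v169 v170 v171 v172 v174 v175 : α) : List α :=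
  let v176 := A.add v174 v175
  let v177 := A.base 86
  let v178 := A.mul v171 v176
  let v179 := A.add v177 v178
  let v180 := A.base 85
  let v181 := A.mul v171 v179
  let v182 := A.add v180 v181
  let v183 := A.base 84
  let v184 := A.mul v171 v182
  let v185 := A.add v183 v184
  let v186 := A.base 83
  let v187 := A.mul v171 v185
  let v188 := A.add v186 v187
  let v189 := A.base 82
  let v190 := A.mul v171 v188
  let v191 := A.add v189 v190
  pDR1_b12 A v164 v167 v169 v170 v171 v172 v191

def pDR1_b10 {α : Type} (A : Alg α) (v10 v11 v22 v142 v143 v148 v149 v152 v158 v159 : α) : List α :=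
  let v160 := A.mul v142 v158
  let v161 := A.mul v143 v159
  let v162 := A.add v160 v161
  let v163 := A.mul v22 v162
  let v164 := A.add v152 v163
  let v165 := A.mul v10 v142
  let v166 := A.mul v11 v143
  let v167 := A.add v165 v166
  let v168 := A.cst (0) 0
  let v169 := A.sub v168 v148
  let v170 := A.sub v168 v149
  let v171 := A.x
  let v172 := A.y
  let v173 := A.base 88
  let v174 := A.base 87
  let v175 := A.mul v171 v173
  pDR1_b11 A v164 v167 v169 v170 v171 v172 v174 v175

def pDR1_b9 {α : Type} (A : Alg α) (v6 v10 v11 v22 v102 v111 v118 v125 v142 v143 : α) : List α :=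
  let v144 := A.mul v102 v118
  let v145 := A.mul v111 v118
  let v146 := A.mul v22 v142
  let v147 := A.mul v22 v143
  let v148 := A.add v144 v146
  let v149 := A.add v145 v147
  let v150 := A.mul v6 v22
  let v151 := A.add v125 v150
  let v152 := A.mul v118 v151
  let v153 := A.base 71
  let v154 := A.base 72
  let v155 := A.base 73
  let v156 := A.mul v10 v155
  let v157 := A.mul v11 v155
  let v158 := A.add v153 v156
  let v159 := A.add v154 v157
  pDR1_b10 A v10 v11 v22 v142 v143 v148 v149 v152 v158 v159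

def pDR1_b8 {α : Type} (A : Alg α) (v0 v1 v6 v10 v11 v22 v45 v59 v102 v111 v118 v125 v126 v127 : α) : List α :=
  let v128 := A.add v59 v126
  let v129 := A.sub v127 v45
  let v130 := A.mul v118 v128
  let v131 := A.mul v118 v129
  let v132 := A.base 74
  let v133 := A.mul v0 v132
  let v134 := A.base 75
  let v135 := A.mul v1 v134
  let v136 := A.add v133 v135
  let v137 := A.base 76
  let v138 := A.mul v0 v137
  let v139 := A.base 77
  let v140 := A.mul v1 v139
  let v141 := A.add v138 v140
  let v142 := A.sub v130 v136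
  let v143 := A.sub v131 v141
  pDR1_b9 A v6 v10 v11 v22 v102 v111 v118 v125 v142 v143

def pDR1_b7 {α : Type} (A : Alg α) (v0 v1 v6 v10 v11 v22 v30 v31 v45 v59 v73 v86 v102 v111 : α) : List α :=
  let v112 := A.base 15
  let v113 := A.base 5
  let v114 := A.base 6
  let v115 := A.mul v0 v113
  let v116 := A.mul v1 v114
  let v117 := A.add v115 v116
  let v118 := A.add v112 v117
  let v119 := A.base 29
  let v120 := A.base 30
  let v121 := A.add v73 v119
  let v122 := A.add v86 v120
  let v123 := A.mul v31 v121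
  let v124 := A.mul v30 v122
  let v125 := A.add v123 v124
  let v126 := A.base 69
  let v127 := A.base 70
  pDR1_b8 A v0 v1 v6 v10 v11 v22 v45 v59 v102 v111 v118 v125 v126 v127

def pDR1_b6 {α : Type} (A : Alg α) (v0 v1 v6 v10 v11 v22 v30 v31 v37 v39 v42 v45 v46 v48 v51 v53 v56 v59 v73 v86 v88 v91 v93 v94 v95 : α) : List α :=
  let v96 := A.add v94 v95
  let v97 := A.mul v37 v88
  let v98 := A.mul v39 v91
  let v99 := A.add v97 v98
  let v100 := A.mul v42 v93
  let v101 := A.add v99 v100
  let v102 := A.add v96 v101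
  let v103 := A.mul v31 v46
  let v104 := A.mul v30 v48
  let v105 := A.add v103 v104
  let v106 := A.mul v51 v88
  let v107 := A.mul v53 v91
  let v108 := A.add v106 v107
  let v109 := A.mul v56 v93
  let v110 := A.add v108 v109
  let v111 := A.add v105 v110
  pDR1_b7 A v0 v1 v6 v10 v11 v22 v30 v31 v45 v59 v73 v86 v102 v111

def pDR1_b5 {α : Type} (A : Alg α) (v0 v1 v3 v4 v6 v10 v11 v20 v22 v30 v31 v32 v34 v37 v39 v42 v45 v46 v48 v51 v53 v56 v59 v73 v77 v79 : α) : List α :=
  let v80 := A.base 40
  let v81 := A.mul v3 v80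
  let v82 := A.add v79 v81
  let v83 := A.base 41
  let v84 := A.mul v4 v83
  let v85 := A.add v82 v84
  let v86 := A.add v77 v85
  let v87 := A.mul v0 v31
  let v88 := A.mul v20 v87
  let v89 := A.mul v0 v30
  let v90 := A.mul v1 v31
  let v91 := A.add v89 v90
  let v92 := A.mul v1 v30
  let v93 := A.mul v20 v92
  let v94 := A.mul v31 v32
  let v95 := A.mul v30 v34
  pDR1_b6 A v0 v1 v6 v10 v11 v22 v30 v31 v37 v39 v42 v45 v46 v48 v51 v53 v56 v59 v73 v86 v88 v91 v93 v94 v95

def pDR1_b4 {α : Type} (A : Alg α) (v0 v1 v2 v3 v4 v6 v10 v11 v20 v22 v30 v31 v32 v34 v37 v39 v42 v45 v46 v48 v51 v53 v56 v59 v61 v62 v63 : α) : List α :=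
  let v64 := A.add v61 v63
  let v65 := A.base 36
  let v66 := A.mul v2 v65
  let v67 := A.base 37
  let v68 := A.mul v3 v67
  let v69 := A.add v66 v68
  let v70 := A.base 38
  let v71 := A.mul v4 v70
  let v72 := A.add v69 v71
  let v73 := A.add v64 v72
  let v74 := A.mul v0 v62
  let v75 := A.base 35
  let v76 := A.mul v1 v75
  let v77 := A.add v74 v76
  let v78 := A.base 39
  let v79 := A.mul v2 v78
  pDR1_b5 A v0 v1 v3 v4 v6 v10 v11 v20 v22 v30 v31 v32 v34 v37 v39 v42 v45 v46 v48 v51 v53 v56 v59 v73 v77 v79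

def pDR1_b3 {α : Type} (A : Alg α) (v0 v1 v2 v3 v4 v6 v10 v11 v20 v22 v30 v31 v32 v34 v37 v39 v42 v45 v46 v47 : α) : List α :=
  let v48 := A.base 52
  let v49 := A.mul v1 v48
  let v50 := A.add v47 v49
  let v51 := A.base 56
  let v52 := A.mul v2 v51
  let v53 := A.base 57
  let v54 := A.mul v3 v53
  let v55 := A.add v52 v54
  let v56 := A.base 58
  let v57 := A.mul v4 v56
  let v58 := A.add v55 v57
  let v59 := A.add v50 v58
  let v60 := A.base 33
  let v61 := A.mul v0 v60
  let v62 := A.base 34
  let v63 := A.mul v1 v62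
  pDR1_b4 A v0 v1 v2 v3 v4 v6 v10 v11 v20 v22 v30 v31 v32 v34 v37 v39 v42 v45 v46 v48 v51 v53 v56 v59 v61 v62 v63

def pDR1_b2 {α : Type} (A : Alg α) (v0 v1 v2 v3 v4 v6 v10 v11 v20 v22 v30 v31 : α) : List α :=
  let v32 := A.base 49
  let v33 := A.mul v0 v32
  let v34 := A.base 50
  let v35 := A.mul v1 v34
  let v36 := A.add v33 v35
  let v37 := A.base 53
  let v38 := A.mul v2 v37
  let v39 := A.base 54
  let v40 := A.mul v3 v39
  let v41 := A.add v38 v40
  let v42 := A.base 55
  let v43 := A.mul v4 v42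
  let v44 := A.add v41 v43
  let v45 := A.add v36 v44
  let v46 := A.base 51
  let v47 := A.mul v0 v46
  pDR1_b3 A v0 v1 v2 v3 v4 v6 v10 v11 v20 v22 v30 v31 v32 v34 v37 v39 v42 v45 v46 v47

def pDR1_b1 {α : Type} (A : Alg α) (v0 v1 v2 v3 v4 v6 v7 v10 v11 v14 v15 : α) : List α :=
  let v16 := A.sub v15 v14
  let v17 := A.mul v6 v10
  let v18 := A.mul v7 v11
  let v19 := A.sub v18 v17
  let v20 := A.cst (2) 0
  let v21 := A.mul v19 v20
  let v22 := A.sub v15 v21
  let v23 := A.mul v16 v20
  let v24 := A.mul v6 v23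
  let v25 := A.mul v7 v23
  let v26 := A.mul v10 v22
  let v27 := A.mul v11 v22
  let v28 := A.add v24 v26
  let v29 := A.sub v25 v27
  let v30 := A.mul v16 v28
  let v31 := A.mul v16 v29
  pDR1_b2 A v0 v1 v2 v3 v4 v6 v10 v11 v20 v22 v30 v31

def pDR1_f {α : Type} (A : Alg α) : List α :=
  let v0 := A.x
  let v1 := A.y
  let v2 := A.mul v0 v0
  let v3 := A.mul v0 v1
  let v4 := A.mul v1 v1
  let v5 := A.base 78
  let v6 := A.cst (1) 1
  let v7 := A.mul v5 v6
  let v8 := A.base 0
  let v9 := A.base 1
  let v10 := A.add v0 v8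
  let v11 := A.add v1 v9
  let v12 := A.mul v10 v10
  let v13 := A.mul v11 v11
  let v14 := A.add v12 v13
  let v15 := A.cst (1) 0
  pDR1_b1 A v0 v1 v2 v3 v4 v6 v7 v10 v11 v14 v15

theorem pDR1_h {α : Type} (A : Alg α) : pDR1_f A = outs A pDR1_P pDR1_o := rfl

def pDR1 : Prg := ⟨pDR1_P, pDR1_o, pDR1_f, pDR1_h⟩

/-- last part -/
def pDR1_z : List Op := [.sub 321 207, .sub 317 126, .sub 317 45, .sub 321 3]

theorem pDR1_parts : pDR1_P = pR1 ++ (pHR ++ pDR1_z) := rfl

theorem pDR1_val (P : Pt) (l : List ℝ) (r s : ℝ) (β : ℕ → ℝ)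
    (hβ : β = fun i => get 0 (P.syl l) i) :
    OutEq (run (realAlg β r s) pDR1_P []) pDR1_o
      [P.ctr 1 ⟨r, s⟩ (ηd 1 (P.yr 1 ⟨r, s⟩)) (1 - 2 * dt (uu 1) (P.yr 1 ⟨r, s⟩))
        - hr2 β r s 81 7,
      (P.fqr 1 ⟨r, s⟩ (ηd 1 (P.yr 1 ⟨r, s⟩)) (1 - 2 * dt (uu 1) (P.yr 1 ⟨r, s⟩))).re
        - hr2 β r s 117 6,
      (P.fqr 1 ⟨r, s⟩ (ηd 1 (P.yr 1 ⟨r, s⟩)) (1 - 2 * dt (uu 1) (P.yr 1 ⟨r, s⟩))).im
        - hr2 β r s 145 6,
      dt (P.fpr 1 ⟨r, s⟩) (P.yr 1 ⟨r, s⟩)
        - hr2 β r s 173 4] := by
  have hE := pR1_val P l r s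
  rw [← hβ] at hE
  obtain ⟨st1, e1⟩ : ∃ q, q = run (realAlg β r s) pR1 [] := ⟨_, rfl⟩
  rw [← e1] at hE
  have hH := pHR_val β r s st1
  have hL := fun k n h => get_run_add' (realAlg β r s) 0 pHR st1 k n h
  obtain ⟨st2, e2⟩ : ∃ q, q = run (realAlg β r s) pHR st1 := ⟨_, rfl⟩
  rw [← e2] at hH
  rw [← e2] at hL
  obtain ⟨a0, a1, a2, a3, a4, -⟩ := hE
  obtain ⟨b0, b1, b2, b3, -⟩ := hH
  rw [pDR1_parts, run_append, run_append, ← e1, ← e2]
  have h := trE_runst2 (realAlg β r s) pDR1_z st2
  unfold pDR1_z at h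
  obtain ⟨v0, h0, h⟩ := h
  obtain ⟨v1, h1, h⟩ := h
  obtain ⟨v2, h2, h⟩ := h
  obtain ⟨v3, h3, h⟩ := h
  have cct : get 0 st2 321 = P.ctr 1 ⟨r, s⟩ (ηd 1 (P.yr 1 ⟨r, s⟩)) (1 - 2 * dt (uu 1) (P.yr 1 ⟨r, s⟩)) := (hL 6 321 rfl).trans a2
  change v0 = get 0 st2 321 - get 0 st2 207 at h0
  rw [cct, b0] at h0
  have cqr : get 0 st2 316 = (P.fqr 1 ⟨r, s⟩ (ηd 1 (P.yr 1 ⟨r, s⟩)) (1 - 2 * dt (uu 1) (P.yr 1 ⟨r, s⟩))).re := (hL 1 316 rfl).trans a0
  change v1 = get 0 st2 316 - get 0 st2 125 at h1
  rw [cqr, b1] at h1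
  have cqi : get 0 st2 315 = (P.fqr 1 ⟨r, s⟩ (ηd 1 (P.yr 1 ⟨r, s⟩)) (1 - 2 * dt (uu 1) (P.yr 1 ⟨r, s⟩))).im := (hL 0 315 rfl).trans a1
  change v2 = get 0 st2 315 - get 0 st2 43 at h2
  rw [cqi, b2] at h2
  have cfy : get 0 st2 318 = dt (P.fpr 1 ⟨r, s⟩) (P.yr 1 ⟨r, s⟩) := (hL 3 318 rfl).trans a3
  change v3 = get 0 st2 318 - get 0 st2 0 at h3
  rw [cfy, b3] at h3
  refine OutEq_of h ⟨h0, h1, h2, h3, trivial⟩

end Pool.H61.Rh
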