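import Pool.Agent.H47.Kc.Rel

/-! # Tr: opening a program: every intermediate value gets a name -/

set_option autoImplicit false

namespace Pool.H61.Rh

open Pool.H47.Kc

/-- `TrE A P st Q`: there are values `v` of the instructions with `Q` of the final stack -/
def TrE {α : Type} (A : Alg α) : List Op → List α → (List α → Prop) → Prop
  | [], st, Q => Q st
  | op :: P, st, Q => ∃ v, v = step A st op ∧ TrE A P (v :: st) Q

theorem trE_run {α : Type} (A : Alg α) (P : List Op) (st : List α) (Q : List α → Prop)
    (h : Q (run A P st)) : TrE A P st Q := by
  induction P generalizing st with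
  | nil => exact h
  | cons op P ih => exact ⟨_, rfl, ih _ h⟩

/-- opening the result -/
theorem trE_res {α : Type} (A : Alg α) (P : List Op) :
    TrE A P [] (fun st => res A P = get A.dflt st 0) :=
  trE_run A P [] _ rfl

end Pool.H61.Rh
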