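import Pool.Agent.H61.Rz.Sy
import Pool.Agent.H61.Rz.Tr

/-! # Sl: the list of base symbols; the `j = 0` forms of `T` and `U` -/

set_option autoImplicit false

namespace Pool.H61.Rh

open Complex

/-- the base symbols (common part), followed by the zone constants `l` -/
noncomputable def Pt.syl (P : Pt) (l : List ℝ) : List ℝ :=
  P.ys.re :: P.ys.im :: (1 - 2 * P.ys.re) :: (P.ys.re - (1 - normSq P.ys) / (1 - 2 * P.ys.re)) ::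
  (1 - normSq P.ys) :: P.ns.re :: P.ns.im :: ((P.DV 1).re) :: ((P.DV I).re) :: ((P.DV 1).im) ::
  ((P.DV I).im) :: ((P.V0 / (P.fs : ℂ)).re) :: ((P.V0 / (P.fs : ℂ)).im) :: P.V0.re :: P.V0.im ::
  P.fs :: ((P.fv 1).re) :: ((P.fv 1).im) :: ((P.fv I).im) :: ((P.M 1).re) :: ((P.M I).re) ::
  ((P.M 1).im) :: ((P.M I).im) :: ((P.L 1).re) :: ((P.L I).re) :: ((P.L 1).im) :: ((P.L I).im) ::
  ((I * P.vs - P.bs).re) :: ((I * P.vs - P.bs).im) :: P.a.re :: P.a.im :: P.sa.re :: P.sa.im ::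
  (2 * P.c.a20) :: P.c.a11 :: (2 * P.c.a02) :: (3 * P.c.a30) :: (2 * P.c.a21) :: P.c.a12 ::
  P.c.a21 :: (2 * P.c.a12) :: (3 * P.c.a03) :: P.cs.a20 :: P.cs.a11 :: P.cs.a02 :: P.cs.a30 ::
  P.cs.a21 :: P.cs.a12 :: P.cs.a03 :: P.c.b11 :: P.c.b12 :: P.c.b21 :: P.c.b22 :: P.c.q1 ::
  P.c.q2 :: P.c.q3 :: P.c.q4 :: P.c.q5 :: P.c.q6 :: P.cs.b11 :: P.cs.b12 :: P.cs.b21 ::
  P.cs.b22 :: P.cs.q1 :: P.cs.q2 :: P.cs.q3 :: P.cs.q4 :: P.cs.q5 :: P.cs.q6 ::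
  ((-((1 / 2 + oc : ℝ) : ℂ) * P.vs - I * P.b).re) ::
  ((-((1 / 2 + oc : ℝ) : ℂ) * P.vs - I * P.b).im) :: P.vs.re :: P.vs.im :: P.rs ::
  ((P.M 1).re / 6) :: ((P.M I).re / 6) :: ((P.M 1).im / 6) :: ((P.M I).im / 6) :: s3 ::
  (957 / 1000) :: (493 / 1000) :: l

/-- zone constants: the sector is `(px,py) + s (ex,ey)`, `R - ν = R0 + R1 r`,
`6 - R - Kz = K0 - R1 r` -/
structure Zc where
  (px py ex ey R0 R1 lam K0 Phi cb Qb2 pb : ℝ)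

/-- as a list -/
def Zc.l (z : Zc) : List ℝ :=
  [z.px, z.py, z.ex, z.ey, z.R0, z.R1, z.lam, z.K0, z.Phi, z.cb, z.Qb2, z.pb]

/-- direction `(px,py) + s (ex,ey) - y*` -/
noncomputable def Zc.X (z : Zc) (P : Pt) (s : ℝ) : ℂ := ⟨z.px - P.ys.re + z.ex * s, z.py - P.ys.im + z.ey * s⟩

noncomputable def Pt.Ss (P : Pt) (r : ℝ) (X : ℂ) : ℝ :=
  4 * ((P.ys.re - (1 - normSq P.ys) / (1 - 2 * P.ys.re)) * X.re + P.ys.im * X.im) ^ 2
    - 2 * (1 - normSq P.ys) * normSq X + (4 * dt P.ys X + normSq X * r) * normSq X * r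

/-- `T` for `j = 0` -/
noncomputable def Pt.T0 (P : Pt) (r : ℝ) (X : ℂ) (d : ℝ) : ℂ :=
  I * ((2 * P.Ss r X : ℝ) : ℂ)
    + I * (X * ((2 * dt P.ys X + normSq X * r : ℝ) : ℂ) + P.ys * (normSq X : ℂ)) * (d : ℂ)

/-- `U` for `j = 0` -/
noncomputable def Pt.U0 (P : Pt) (r : ℝ) (X T : ℂ) (d : ℝ) : ℂ :=
  P.DV X * (d : ℂ) + T * (r : ℂ) - P.V0 / (P.fs : ℂ) * ((d * dt P.ns X : ℝ) : ℂ)

lemma DV_scale (P : Pt) (r : ℝ) (X : ℂ) : P.DV (X * (r : ℂ)) = (r : ℂ) * P.DV X := by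
  apply Complex.ext
  · rw [re_ofReal_mul, DV_re, DV_re P X]
    simp only [mul_re, mul_im, ofReal_re, ofReal_im]; ring
  · rw [im_ofReal_mul, DV_im, DV_im P X]
    simp only [mul_re, mul_im, ofReal_re, ofReal_im]; ring

theorem T0_eq (P : Pt) (hV : P.V0 = Vx P.ys 0) (h0 : 1 - 2 * P.ys.re ≠ 0) (r : ℝ) (X : ℂ)
    (h : 1 - 2 * P.ys.re - 2 * (r * X.re) ≠ 0) :
    ((r ^ 2 : ℝ) : ℂ) * P.T0 r X (1 - 2 * P.ys.re - 2 * (r * X.re))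
      = ((1 - 2 * P.ys.re - 2 * (r * X.re) : ℝ) : ℂ)
        * (Vx (P.yr r X) 0 - P.V0 - P.DV (X * (r : ℂ))) := by
  have hu : uu 0 = 1 := rfl
  have hd : 1 - 2 * dt (uu 0) (P.yr r X) = 1 - 2 * P.ys.re - 2 * (r * X.re) := by
    rw [hu]; simp [dt, Pt.yr]; ring
  have hd0 : 1 - 2 * dt (uu 0) P.ys = 1 - 2 * P.ys.re := by
    rw [hu]; simp [dt]
  rw [hV, Vx, Vx, hd, hd0, hu]
  obtain ⟨i0, hi0⟩ : ∃ i0 : ℝ, i0 = (1 - 2 * P.ys.re)⁻¹ := ⟨_, rfl⟩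
  obtain ⟨i1, hi1⟩ : ∃ i1 : ℝ, i1 = (1 - 2 * P.ys.re - 2 * (r * X.re))⁻¹ := ⟨_, rfl⟩
  have k0 : (1 - 2 * P.ys.re) * i0 = 1 := by rw [hi0]; exact mul_inv_cancel₀ h0
  have k1 : (1 - 2 * P.ys.re - 2 * (r * X.re)) * i1 = 1 := by rw [hi1]; exact mul_inv_cancel₀ h
  apply Complex.ext
  · simp only [Pt.T0, Pt.Ss, Pt.DV, Pt.yr, dt, normSq_apply, mul_re, mul_im, add_re, add_im,
      sub_re, sub_im, I_re, I_im, ofReal_re, ofReal_im, one_re, one_im, div_eq_mul_inv, inv_pow, ← hi0, ← hi1]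
    ring
  · simp only [Pt.T0, Pt.Ss, Pt.DV, Pt.yr, dt, normSq_apply, mul_re, mul_im, add_re, add_im,
      sub_re, sub_im, I_re, I_im, ofReal_re, ofReal_im, one_re, one_im, div_eq_mul_inv, ← inv_pow, ← hi0, ← hi1]
    generalize P.ys.re = a at *
    generalize P.ys.im = b at *
    generalize X.re = x at *
    generalize X.im = z at *
    linear_combination (-2 * (1 - ((a + (x * r - z * 0)) * (a + (x * r - z * 0)) + (b + (x * 0 + z * r)) * (b + (x * 0 + z * r)))) ^ 2) * k1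
      + (-(r ^ 2 * (2 * (4 * (a * x + b * z) ^ 2 - 2 * (1 - (a * a + b * b)) * (x * x + z * z)
          + (4 * (a * x + b * z) + (x * x + z * z) * r) * (x * x + z * z) * r)
          + (x * (2 * (a * x + b * z) + (x * x + z * z) * r) + a * (x * x + z * z))
            * (1 - 2 * a - 2 * (r * x)))
        - 2 * (1 - ((a + x * r) * (a + x * r) + (b + z * r) * (b + z * r))) ^ 2
        - (1 - 2 * a - 2 * (r * x)) * (-(1 - ((a + x * r) * (a + x * r) + (b + z * r) * (b + z * r))) * (a + x * r)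
          + (1 - (a * a + b * b)) * a - (2 * a * r * (a * x + b * z) - (1 - (a * a + b * b)) * x * r)))
        + 4 * (1 - (a * a + b * b)) ^ 2 * x * r * i0) * k0
theorem U0_eq (P : Pt) (hf : P.fs ≠ 0) (r : ℝ) (X T η : ℂ) (d : ℝ)
    (hT : ((r ^ 2 : ℝ) : ℂ) * T = (d : ℂ) * (η - P.V0 - P.DV (X * (r : ℂ)))) :
    (r : ℂ) * P.U0 r X T d = (d : ℂ) * (η - ((P.fr r X / P.fs : ℝ) : ℂ) * P.V0) := by
  have hfc : (P.fs : ℂ) ≠ 0 := by exact_mod_cast hf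
  rw [DV_scale] at hT
  rw [Pt.U0, Pt.fr]
  push_cast at hT ⊢
  field_simp
  linear_combination (P.fs : ℂ) * hT

lemma uu0_re : (uu 0).re = 1 := rfl
lemma uu0_im : (uu 0).im = 0 := rfl
lemma uu1_re : (uu 1).re = -1 / 2 := rfl
lemma uu1_im : (uu 1).im = s3 / 2 := rfl
lemma uu2_re : (uu 2).re = -1 / 2 := rfl
lemma uu2_im : (uu 2).im = -(s3 / 2) := rfl

end Pool.H61.Rh
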