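import Pool.Agent.H61.Rz.L1
import Pool.Agent.H61.Rz.Sl

/-! # L2: level-1 symbols, outputs of a program, fields of `d.pt m` -/

set_option autoImplicit false

namespace Pool.H61.Rh

open Complex Pool.H47.Kc

/-- level-1 symbols -/
noncomputable def l1 (μ m : ℝ) : List ℝ :=
  [Real.sqrt 2, s3, kp, m1, 1 / m1, oC, cB, sB, oc, 1 / oK, Real.cosh m, Real.sinh m, 1 / oS m,
    oR m, 1 / oR m, 1 / oF m, 1 / 6, 1 / 27, pj μ]

/-- the 78 symbols of a point -/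
noncomputable def Pt.sy (P : Pt) : List ℝ :=
  [P.ys.re, P.ys.im, 1 - 2 * P.ys.re, P.ys.re - (1 - normSq P.ys) / (1 - 2 * P.ys.re),
   1 - normSq P.ys, P.ns.re, P.ns.im, (P.DV 1).re, (P.DV I).re, (P.DV 1).im, (P.DV I).im,
   (P.V0 / (P.fs : ℂ)).re, (P.V0 / (P.fs : ℂ)).im, P.V0.re, P.V0.im, P.fs, (P.fv 1).re,
   (P.fv 1).im, (P.fv I).im, (P.M 1).re, (P.M I).re, (P.M 1).im, (P.M I).im, (P.L 1).re,
   (P.L I).re, (P.L 1).im, (P.L I).im, (I * P.vs - P.bs).re, (I * P.vs - P.bs).im, P.a.re,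
   P.a.im, P.sa.re, P.sa.im, 2 * P.c.a20, P.c.a11, 2 * P.c.a02, 3 * P.c.a30, 2 * P.c.a21,
   P.c.a12, P.c.a21, 2 * P.c.a12, 3 * P.c.a03, P.cs.a20, P.cs.a11, P.cs.a02, P.cs.a30, P.cs.a21,
   P.cs.a12, P.cs.a03, P.c.b11, P.c.b12, P.c.b21, P.c.b22, P.c.q1, P.c.q2, P.c.q3, P.c.q4,
   P.c.q5, P.c.q6, P.cs.b11, P.cs.b12, P.cs.b21, P.cs.b22, P.cs.q1, P.cs.q2, P.cs.q3, P.cs.q4,
   P.cs.q5, P.cs.q6, (-((1 / 2 + oc : ℝ) : ℂ) * P.vs - I * P.b).re,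
   (-((1 / 2 + oc : ℝ) : ℂ) * P.vs - I * P.b).im, P.vs.re, P.vs.im, P.rs, (P.M 1).re / 6,
   (P.M I).re / 6, (P.M 1).im / 6, (P.M I).im / 6]

theorem syl_eq (P : Pt) (l : List ℝ) :
    P.syl l = P.sy ++ (s3 :: 957 / 1000 :: 493 / 1000 :: l) := rfl

/-- the entries at the given positions of the stack -/
def OutEq (st : List ℝ) : List ℕ → List ℝ → Prop
  | [], [] => True
  | k :: ks, v :: vs => get 0 st k = v ∧ OutEq st ks vs
  | _, _ => False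

theorem trE_runst {α : Type} (A : Alg α) (P : List Op) : TrE A P [] (fun st => run A P [] = st) :=
  trE_run A P [] _ rfl

theorem OutEq_of {st st' : List ℝ} (h : st = st') {ks : List ℕ} {vs : List ℝ}
    (h2 : OutEq st' ks vs) : OutEq st ks vs := by rw [h]; exact h2

theorem m1_ne : m1 ≠ 0 := by have := m1_bounds; linarith [this.1]

theorem sa_l1 (d : VD) (m : ℝ) : (d.pt m).sa
    = (-DVT (oy m) (qy m + d.ae m)
      + ((dt (d.ae m) (oV m) / oF m - 2 * oc * oR m ^ 2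
          + dt (d.be m) (oB m - (oR m : ℂ) * (I * oN m)) : ℝ) : ℂ) * oN m
      - (oR m : ℂ) * (I * d.be m)) * ((1 / oF m : ℝ) : ℂ) := by
  show _ / (oF m : ℂ) = _
  push_cast; ring

theorem kap_l1 (d : VD) (m : ℝ) : (d.pt m).kap
    = (((dt (d.be m) (-(I * oy m)) : ℝ) : ℂ) * oN m
      + ((dt (d.be m) (I * ov m - oB m) - dt (d.ae m) (oV m) / oF m : ℝ) : ℂ) *
        ((oy m - ((dt (oy m) (oN m) : ℝ) : ℂ) * oN m) / (oR m : ℂ))
      - ((dt (oy m) (oN m) : ℝ) : ℂ) * (I * d.be m)) * ((1 / oF m : ℝ) : ℂ) := by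
  show _ / (oF m : ℂ) = _
  push_cast; ring

theorem fv_l1 (d : VD) (m : ℝ) (x : ℂ) : (d.pt m).fv x
    = (x - ((dt x (oN m) : ℝ) : ℂ) * oN m) * ((1 / oR m : ℝ) : ℂ) := by
  show (x - ((dt x (oN m) : ℝ) : ℂ) * oN m) / (oR m : ℂ) = _
  push_cast; ring

theorem sm_a20 (d : VD) (m : ℝ) : (d.pt m).cs.a20 = 1 / osd m * ((d.xx.dv m).im + (d.xb.dv m).im) := by
  show VC.a20 (VC.sm (1 / osd m) (d.dv m)) = _
  simp only [VC.a20, VC.sm, VD.dv, mul_re, mul_im, ofReal_re, ofReal_im]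
  ring

theorem sm_a02 (d : VD) (m : ℝ) : (d.pt m).cs.a02 = 1 / osd m * (-(d.xx.dv m).im + (d.xb.dv m).im) := by
  show VC.a02 (VC.sm (1 / osd m) (d.dv m)) = _
  simp only [VC.a02, VC.sm, VD.dv, mul_re, mul_im, ofReal_re, ofReal_im]
  ring

theorem sm_a11 (d : VD) (m : ℝ) : (d.pt m).cs.a11 = 1 / osd m * (2 * (d.xx.dv m).re) := by
  show VC.a11 (VC.sm (1 / osd m) (d.dv m)) = _
  simp only [VC.a11, VC.sm, VD.dv, mul_re, mul_im, ofReal_re, ofReal_im]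
  ring

theorem sm_a30 (d : VD) (m : ℝ) : (d.pt m).cs.a30 = 1 / osd m * ((d.x3.dv m).im + (d.x2b.dv m).im) := by
  show VC.a30 (VC.sm (1 / osd m) (d.dv m)) = _
  simp only [VC.a30, VC.sm, VD.dv, mul_re, mul_im, ofReal_re, ofReal_im]
  ring

theorem sm_a12 (d : VD) (m : ℝ) : (d.pt m).cs.a12 = 1 / osd m * (-3 * (d.x3.dv m).im + (d.x2b.dv m).im) := by
  show VC.a12 (VC.sm (1 / osd m) (d.dv m)) = _
  simp only [VC.a12, VC.sm, VD.dv, mul_re, mul_im, ofReal_re, ofReal_im]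
  ring

theorem sm_a21 (d : VD) (m : ℝ) : (d.pt m).cs.a21 = 1 / osd m * (3 * (d.x3.dv m).re + (d.x2b.dv m).re) := by
  show VC.a21 (VC.sm (1 / osd m) (d.dv m)) = _
  simp only [VC.a21, VC.sm, VD.dv, mul_re, mul_im, ofReal_re, ofReal_im]
  ring

theorem sm_a03 (d : VD) (m : ℝ) : (d.pt m).cs.a03 = 1 / osd m * (-(d.x3.dv m).re + (d.x2b.dv m).re) := by
  show VC.a03 (VC.sm (1 / osd m) (d.dv m)) = _
  simp only [VC.a03, VC.sm, VD.dv, mul_re, mul_im, ofReal_re, ofReal_im]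
  ring

theorem sm_b11 (d : VD) (m : ℝ) : (d.pt m).cs.b11 = 1 / osd m * ((d.xu.dv m).im + (d.xc.dv m).im) := by
  show VC.b11 (VC.sm (1 / osd m) (d.dv m)) = _
  simp only [VC.b11, VC.sm, VD.dv, mul_re, mul_im, ofReal_re, ofReal_im]
  ring

theorem sm_b12 (d : VD) (m : ℝ) : (d.pt m).cs.b12 = 1 / osd m * ((d.xu.dv m).re + (d.xc.dv m).re) := by
  show VC.b12 (VC.sm (1 / osd m) (d.dv m)) = _
  simp only [VC.b12, VC.sm, VD.dv, mul_re, mul_im, ofReal_re, ofReal_im]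
  ring

theorem sm_b21 (d : VD) (m : ℝ) : (d.pt m).cs.b21 = 1 / osd m * ((d.xu.dv m).re - (d.xc.dv m).re) := by
  show VC.b21 (VC.sm (1 / osd m) (d.dv m)) = _
  simp only [VC.b21, VC.sm, VD.dv, mul_re, mul_im, ofReal_re, ofReal_im]
  ring

theorem sm_b22 (d : VD) (m : ℝ) : (d.pt m).cs.b22 = 1 / osd m * (-(d.xu.dv m).im + (d.xc.dv m).im) := by
  show VC.b22 (VC.sm (1 / osd m) (d.dv m)) = _
  simp only [VC.b22, VC.sm, VD.dv, mul_re, mul_im, ofReal_re, ofReal_im]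
  ring

theorem sm_q1 (d : VD) (m : ℝ) : (d.pt m).cs.q1 = 1 / osd m * ((d.x2u.dv m).im + (d.x2c.dv m).im + (d.xbu.dv m).im) := by
  show VC.q1 (VC.sm (1 / osd m) (d.dv m)) = _
  simp only [VC.q1, VC.sm, VD.dv, mul_re, mul_im, ofReal_re, ofReal_im]
  ring

theorem sm_q2 (d : VD) (m : ℝ) : (d.pt m).cs.q2 = 1 / osd m * (2 * ((d.x2u.dv m).re + (d.x2c.dv m).re)) := by
  show VC.q2 (VC.sm (1 / osd m) (d.dv m)) = _
  simp only [VC.q2, VC.sm, VD.dv, mul_re, mul_im, ofReal_re, ofReal_im]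
  ring

theorem sm_q3 (d : VD) (m : ℝ) : (d.pt m).cs.q3 = 1 / osd m * (-(d.x2u.dv m).im - (d.x2c.dv m).im + (d.xbu.dv m).im) := by
  show VC.q3 (VC.sm (1 / osd m) (d.dv m)) = _
  simp only [VC.q3, VC.sm, VD.dv, mul_re, mul_im, ofReal_re, ofReal_im]
  ring

theorem sm_q4 (d : VD) (m : ℝ) : (d.pt m).cs.q4 = 1 / osd m * ((d.x2u.dv m).re - (d.x2c.dv m).re + (d.xbu.dv m).re) := by
  show VC.q4 (VC.sm (1 / osd m) (d.dv m)) = _
  simp only [VC.q4, VC.sm, VD.dv, mul_re, mul_im, ofReal_re, ofReal_im]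
  ring

theorem sm_q5 (d : VD) (m : ℝ) : (d.pt m).cs.q5 = 1 / osd m * (2 * (-(d.x2u.dv m).im + (d.x2c.dv m).im)) := by
  show VC.q5 (VC.sm (1 / osd m) (d.dv m)) = _
  simp only [VC.q5, VC.sm, VD.dv, mul_re, mul_im, ofReal_re, ofReal_im]
  ring

theorem sm_q6 (d : VD) (m : ℝ) : (d.pt m).cs.q6 = 1 / osd m * (-(d.x2u.dv m).re + (d.x2c.dv m).re + (d.xbu.dv m).re) := by
  show VC.q6 (VC.sm (1 / osd m) (d.dv m)) = _
  simp only [VC.q6, VC.sm, VD.dv, mul_re, mul_im, ofReal_re, ofReal_im]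
  ring

end Pool.H61.Rh
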