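import Pool.Agent.H61.Rz.Ch
import Pool.Agent.H61.Rz.L2
import Pool.Agent.H47.K3.Defs

/-! # En: enclosures of the base symbols -/

set_option autoImplicit false

namespace Pool.H61.Rh

open Pool.H47.Kc Pool.H47.K3

theorem OutEq_get {st : List ℝ} : ∀ {o : List ℕ} {v : List ℝ}, OutEq st o v →
    ∀ k, k < o.length → Pool.H47.Kc.get 0 st (o.getD k 0) = Pool.H47.Kc.get 0 v k
  | [], _, _, k, hk => absurd hk (by simp)
  | _ :: _, [], h, _, _ => h.elim
  | a :: o, b :: v, h, 0, _ => h.1
  | a :: o, b :: v, h, k + 1, hk => OutEq_get h.2 k (by simpa using hk)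

theorem get_append_left {α : Type} (d : α) (a b : List α) (k : ℕ) (hk : k < a.length) :
    Pool.H47.Kc.get d (a ++ b) k = Pool.H47.Kc.get d a k := by
  induction a generalizing k with
  | nil => exact absurd hk (by simp)
  | cons x a ih =>
    cases k with
    | zero => rfl
    | succ k => exact ih k (by simpa using hk)

theorem get_append_right {α : Type} (d : α) (a b : List α) (k : ℕ) :
    Pool.H47.Kc.get d (a ++ b) (a.length + k) = Pool.H47.Kc.get d b k := by
  induction a with
  | nil => rw [List.length_nil, Nat.zero_add]; rfl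
  | cons x a ih =>
    have e : (x :: a).length + k = (a.length + k) + 1 := by rw [List.length_cons]; ring
    rw [e]; exact ih

theorem syl_right (P : Pt) (l : List ℝ) (k : ℕ) :
    Pool.H47.Kc.get 0 (P.syl l) (81 + k) = Pool.H47.Kc.get 0 l k := by
  have h : P.syl l = P.syl [] ++ l := rfl
  have h2 : (P.syl []).length = 81 := rfl
  rw [h, ← h2]; exact get_append_right 0 _ _ k

theorem syl_left (P : Pt) (l : List ℝ) (k : ℕ) (hk : k < 78) :
    Pool.H47.Kc.get 0 (P.syl l) k = Pool.H47.Kc.get 0 P.sy k := by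
  rw [syl_eq]; exact get_append_left 0 _ _ k hk

/-- a table of symbols followed by another one -/
noncomputable def sapp (S T : Nat → Sym) (i : Nat) : Sym := cond (Nat.blt i 81) (S i) (T (Nat.sub i 81))

theorem pval_nil (t : ℝ) : pval [] t = 0 := rfl

/-- the level-3 values at `θ` -/
noncomputable def lvl (T : Nat → Sym) (n : ℕ) (θ : ℝ) : List ℝ :=
  (List.range n).map (fun k => pval (T k).p θ)

theorem get_lvl (T : Nat → Sym) (n : ℕ) (hT : ∀ k, n ≤ k → T k = ⟨[], 0⟩) (θ : ℝ) (k : ℕ) :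
    Pool.H47.Kc.get 0 (lvl T n θ) k = pval (T k).p θ := by
  have h : ∀ (l : List ℝ) (k : ℕ), Pool.H47.Kc.get 0 l k = l.getD k 0 := by
    intro l
    induction l with
    | nil => intro k; simp [Pool.H47.Kc.get]
    | cons a l ih =>
      intro k
      cases k with
      | zero => rfl
      | succ k => simpa [Pool.H47.Kc.get] using ih k
  rw [h, lvl, List.getD_eq_getElem?_getD, List.getElem?_map]
  by_cases hk : k < n
  · rw [List.getElem?_range hk]; rfl
  · rw [List.getElem?_eq_none (by simpa using hk), hT k (by omega)]; rfl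

/-- enclosure of the 81 base symbols -/
def Encl81 (S : Nat → Sym) (P : Pt) (θ : ℝ) : Prop :=
  ∀ i, i < 81 → |Pool.H47.Kc.get 0 (P.syl []) i - pval (S i).p θ| ≤ ((S i).eps : ℝ) / 2 ^ 60

theorem syl_left' (P : Pt) (l : List ℝ) (k : ℕ) (hk : k < 81) :
    Pool.H47.Kc.get 0 (P.syl l) k = Pool.H47.Kc.get 0 (P.syl []) k := by
  have h : P.syl l = P.syl [] ++ l := rfl
  have h2 : (P.syl []).length = 81 := rfl
  rw [h]; exact get_append_left 0 _ _ k (by rw [h2]; exact hk)

theorem EnclF_sapp {S T : Nat → Sym} {P : Pt} {θ : ℝ} (h : Encl81 S P θ) (n : ℕ)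
    (hT : ∀ k, n ≤ k → T k = ⟨[], 0⟩) (hT0 : ∀ k, (T k).eps = 0) :
    EnclF (sapp S T) θ (fun i => Pool.H47.Kc.get 0 (P.syl (lvl T n θ)) i) := by
  intro i
  beta_reduce
  by_cases hi : i < 81
  · have e : sapp S T i = S i := by
      have : Nat.blt i 81 = true := by rw [Nat.blt_eq]; exact hi
      rw [sapp, this]; rfl
    rw [e, syl_left' P _ i hi]
    exact h i hi
  · have e : sapp S T i = T (i - 81) := by
      have : Nat.blt i 81 = false := by
        rw [Bool.eq_false_iff, ne_eq, Nat.blt_eq]; exact hi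
      rw [sapp, this]; rfl
    obtain ⟨k, rfl⟩ : ∃ k, i = 81 + k := ⟨i - 81, by omega⟩
    rw [e, syl_right, Nat.add_sub_cancel_left, get_lvl T n hT, hT0]
    simp

/-- from the Taylor models of the 78 symbols -/
theorem Encl81_of {q : List Tm} {t : ℝ} (ht : |t| ≤ 1) {d : VD} {μ m : ℝ} (hm : m / m1 = (1 + t) / 2)
    (hq : TmIn q t (fun i => Pool.H47.Kc.get 0 (l1 μ m) i)) {Q : List Op} {o : List ℕ}
    (ho : o.length = 78)
    (hv : OutEq (run (realAlg (fun i => Pool.H47.Kc.get 0 (l1 μ m) i) (m / m1) 0) Q []) o (d.pt m).sy)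
    {S : Nat → Sym} (hc : chkL (run (tmAlg q) Q []) S o 0 = true)
    (hk : (chk2 (Pool.H47.Kc.get ⟨[], 0⟩ q 1) (S 78) && (chk2 (Tm.rat 957 1000) (S 79) &&
      chk2 (Tm.rat 493 1000) (S 80))) = true) : Encl81 S (d.pt m) ((1 + t) / 2) := by
  intro i hi
  rw [hm] at hv
  by_cases h : i < 78
  · rw [syl_left _ _ i h]
    have h1 := chkL_sound ht (run_sound ht hq Q) S o 0 hc i (by rw [ho]; exact h)
    rw [OutEq_get hv i (by rw [ho]; exact h), Nat.zero_add] at h1
    exact h1
  · rw [Bool.and_eq_true, Bool.and_eq_true] at hk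
    obtain ⟨k0, k1, k2⟩ := hk
    have hi' : i = 78 ∨ i = 79 ∨ i = 80 := by omega
    rcases hi' with rfl | rfl | rfl
    · exact chk2_sound ht (hq 1) k0
    · have h2 := Tm.rat_sound 957 (n := 1000) (by norm_num) t
      have h3 := chk2_sound ht h2 k1
      have e : Pool.H47.Kc.get 0 ((d.pt m).syl []) 79 = ((957 : ℤ) : ℝ) / ((1000 : ℕ) : ℝ) := by
        show (957 / 1000 : ℝ) = _
        norm_num
      rw [e]; exact h3
    · have h2 := Tm.rat_sound 493 (n := 1000) (by norm_num) t
      have h3 := chk2_sound ht h2 k2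
      have e : Pool.H47.Kc.get 0 ((d.pt m).syl []) 80 = ((493 : ℤ) : ℝ) / ((1000 : ℕ) : ℝ) := by
        show (493 / 1000 : ℝ) = _
        norm_num
      rw [e]; exact h3

end Pool.H61.Rh
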