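import Pool.Agent.H61.Rz.Ch
import Pool.Agent.H61.Rz.L2

/-! # generated: Taylor models of the level-1 symbols -/

set_option autoImplicit false

namespace Pool.H61.Rh

/-- `l1 μ m` without the last entry -/
def qC : List Tm :=
  [⟨[1630477228166597777], 90⟩,
   ⟨[1996918623117814388], 90⟩,
   ⟨[1938975120585633119], 282⟩,
   ⟨[199786072581291495], 55⟩,
   ⟨[6653256548922161246], 613⟩,
   ⟨[1089564877574664707], 517⟩,
   ⟨[1143058101309820321], 195⟩,
   ⟨[150486453924944405], 187⟩,
   ⟨[1130242923481659777, 0, 0, 0], 217⟩,
   ⟨[630553708705720361], 131⟩,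
   ⟨[1157251748575960887, 8665905173923644, 4343789769261164, 10842604841512, 2717430841755, 4069814198, 679998873, 727438, 91157, 75, 7, 0, 0], 95⟩,
   ⟨[100018067353869220, 100268223340436748, 375421733644063, 125453567979521, 234860030494, 47089488158, 58770421, 8416773, 7878, 877, 0, 0, 0], 98⟩,
   ⟨[485191620550278490, -5162303441139133, -2532681991760344, 48019481460982, 11446240272661, -329366112805, -50108887553, 1993654179, 214047547, -11237185, -888954, 59396, 3521], 9848⟩,
   ⟨[1153409774216541021, -87388989556901, -14732007681418, 29037346700642, 7352635064733, 55590627411, 8938668899, -142657753, -19547263, -565407, -53274, 987, 112], 712⟩,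
   ⟨[1152433441694908647, 87315016963254, 14726152895674, -29010536337373, -7350619333025, -57398376563, -8397074022, 509767945, 69059942, 1736488, 151381, -6575, -706], 2312⟩,
   ⟨[1147442770814755495, -1469794083656229, -663437552101056, 71394748275881, 17769947856044, -44202053290, -4863975917, 1041545052, 111089508, -6071631, -463526, 36000, 2023], 9775⟩,
   ⟨[192153584101141162], 51⟩,
   ⟨[42700796466920258], 51⟩]

def pjA : Tm := ⟨[4945779287163456, 0, 0], 1287⟩

def pjB : Tm := ⟨[21735103696695232, 0, 0], 1287⟩

def qA : List Tm := qC ++ [pjA]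

def qB : List Tm := qC ++ [pjB]

end Pool.H61.Rh
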