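import Pool.Agent.H61.Rz.Rs1
import Pool.Agent.H61.Rz.Tq
import Pool.Agent.H61.Rz.En

/-! # Rs2: bound of the residuals -/

set_option autoImplicit false
set_option maxRecDepth 100000

namespace Pool.H61.Rh

open Pool.H47.Kc Complex

/-- all outputs are at most `2^(-19)` in absolute value -/
noncomputable def bdL (st : List Tm) (o : List Nat) : Bool :=
  List.rec (motive := fun _ => Bool) true
    (fun k _ ih => cond (Nat.ble (Pool.H47.Kc.get ⟨[], 0⟩ st k).bd 2199023255552) ih false) o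

theorem bdL_sound {st : List Tm} {st' : List ℝ} {t : ℝ} (ht : |t| ≤ 1)
    (hst : ∀ i, (Pool.H47.Kc.get ⟨[], 0⟩ st i).In t (Pool.H47.Kc.get 0 st' i)) :
    ∀ (o : List Nat), bdL st o = true → ∀ k, k < o.length →
      |Pool.H47.Kc.get 0 st' (o.getD k 0)| ≤ 1 / 2 ^ 19 := by
  intro o
  induction o with
  | nil => intro _ k hk; exact absurd hk (by simp)
  | cons a o ih =>
    intro h k hk
    have hc : (Nat.ble (Pool.H47.Kc.get ⟨[], 0⟩ st a).bd 2199023255552 && bdL st o) = true := by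
      have : bdL st (a :: o)
        = cond (Nat.ble (Pool.H47.Kc.get ⟨[], 0⟩ st a).bd 2199023255552) (bdL st o) false := rfl
      rw [this] at h
      cases hb : Nat.ble (Pool.H47.Kc.get ⟨[], 0⟩ st a).bd 2199023255552 with
      | true => rw [hb] at h; simpa using h
      | false => rw [hb] at h; simp at h
    rw [Bool.and_eq_true] at hc
    cases k with
    | zero =>
      have h2 := Tm.bd_sound ht (hst a)
      have h3 : ((Pool.H47.Kc.get ⟨[], 0⟩ st a).bd : ℝ) ≤ 2199023255552 := by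
        exact_mod_cast Nat.le_of_ble_eq_true hc.1
      rw [abs_mul, abs_of_pos (show (0 : ℝ) < 2 ^ 60 by positivity)] at h2
      have h4 := h2.trans h3
      show |Pool.H47.Kc.get 0 st' a| ≤ 1 / 2 ^ 19
      norm_num at h4 ⊢
      linarith
    | succ k => exact ih hc.2 k (by simpa using hk)

theorem bdL_chk : bdL (run (tmAlg qA) pL []) pL_out = true := by
  decide +kernel

theorem l_bound {t : ℝ} (ht : |t| ≤ 1)
    (hq : TmIn qA t (fun i => Pool.H47.Kc.get 0 (l1 μA (m1 * ((1 + t) / 2))) i)) :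
    normSq (lx (m1 * ((1 + t) / 2))) + normSq (lu (m1 * ((1 + t) / 2))) ≤ 1 / 2 ^ 36 := by
  have hm : m1 * ((1 + t) / 2) / m1 = (1 + t) / 2 := by
    rw [mul_div_assoc, mul_comm, div_mul_cancel₀ _ m1_ne]
  have hv := pL_val (m1 * ((1 + t) / 2))
  rw [hm] at hv
  have hb := bdL_sound ht (run_sound ht hq pL) pL_out bdL_chk
  obtain ⟨a0, a1, a2, a3, -⟩ := hv
  have b0 := hb 0 (by decide)
  have b1 := hb 1 (by decide)
  have b2 := hb 2 (by decide)
  have b3 := hb 3 (by decide)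
  have c0 : |(lx (m1 * ((1 + t) / 2))).re| ≤ 1 / 2 ^ 19 := by rw [← a0]; exact b0
  have c1 : |(lx (m1 * ((1 + t) / 2))).im| ≤ 1 / 2 ^ 19 := by rw [← a1]; exact b1
  have c2 : |(lu (m1 * ((1 + t) / 2))).re| ≤ 1 / 2 ^ 19 := by rw [← a2]; exact b2
  have c3 : |(lu (m1 * ((1 + t) / 2))).im| ≤ 1 / 2 ^ 19 := by rw [← a3]; exact b3
  have hs : ∀ x : ℝ, |x| ≤ 1 / 2 ^ 19 → x * x ≤ 1 / 2 ^ 38 := by
    intro x hx
    have := mul_le_mul hx hx (abs_nonneg x) (by positivity : (0 : ℝ) ≤ 1 / 2 ^ 19)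
    rw [abs_mul_abs_self] at this
    refine this.trans (le_of_eq ?_)
    norm_num
  rw [normSq_apply, normSq_apply]
  have d0 := hs _ c0
  have d1 := hs _ c1
  have d2 := hs _ c2
  have d3 := hs _ c3
  have e : (1 : ℝ) / 2 ^ 36 = 4 * (1 / 2 ^ 38) := by norm_num
  rw [e]
  linarith

theorem res_small {t : ℝ} (ht : |t| ≤ 1)
    (hq : TmIn qA t (fun i => Pool.H47.Kc.get 0 (l1 μA (m1 * ((1 + t) / 2))) i)) {μ : ℝ}
    (hμ : μ ^ 2 ≤ 2) : μ ^ 2 * (normSq (lx (m1 * ((1 + t) / 2))) + normSq (lu (m1 * ((1 + t) / 2))))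
      ≤ (1 / 1000) ^ 2 * (1 / 8192) := by
  have h := l_bound ht hq
  have h0 : 0 ≤ normSq (lx (m1 * ((1 + t) / 2))) + normSq (lu (m1 * ((1 + t) / 2))) :=
    add_nonneg (normSq_nonneg _) (normSq_nonneg _)
  calc _ ≤ 2 * (1 / 2 ^ 36) := mul_le_mul hμ h h0 (by norm_num)
    _ ≤ _ := by norm_num

end Pool.H61.Rh
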