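import Pool.Agent.H61.Rc.N12b
import Pool.Agent.H61.Re.G2
import Pool.Agent.H61.Rz.Rs2
import Pool.Agent.H81.Co.C5
import Pool.Agent.H61.Sm.M9

/-! # Fin: the bound from the inequalities in the zones -/

set_option autoImplicit false

namespace Pool.H61.Rh

open Pool.H47.Kc Complex

/-- the inequalities of the zones for the data `d` -/
def ZH (d : VD) : Prop :=
  ∀ m, 0 ≤ m → m ≤ m1 → ∀ y : ℂ, Dom y → ∀ j : Fin 3, ∃ z : ZC, z.Ok (1 / 8192) ∧
    (d.pt m).Z (1 / 8192) z (y - oy m) (Vx y j) (1 - 2 * dt (uu j) y)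

theorem rs_of_zones
    (hq : ∀ t : ℝ, |t| ≤ 1 → TmIn qA t (fun i => Pool.H47.Kc.get 0 (l1 μA (m1 * ((1 + t) / 2))) i))
    (hA : ZH dA) (hB : ZH dB) :
    RSBound ((8 - Real.sqrt 32 - Real.log 2) / (Real.sqrt 8 - 1)) := by
  have hcA := HCal_of_zones (ν := 1 / 8192) dA_junc (fun m _ _ => resx_lin dA_isL m)
    (fun m _ _ => resu_lin dA_isL m) hA
  have hcB := HCal_of_zones (ν := 1 / 8192) dB_junc (fun m _ _ => resx_lin dB_isL m)
    (fun m _ _ => resu_lin dB_isL m) hB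
  have hm1 : 0 < m1 := by have := m1_bounds.1; linarith
  have hl : ∀ μ : ℝ, μ ^ 2 ≤ 2 → ∀ m, 0 ≤ m → m ≤ m1 →
      μ ^ 2 * (normSq (lx m) + normSq (lu m)) ≤ (1 / 1000) ^ 2 * (1 / 8192) := by
    intro μ hμ m h0 h1
    have e : m1 * ((1 + (2 * (m / m1) - 1)) / 2) = m := by field_simp; ring
    have ht : |2 * (m / m1) - 1| ≤ 1 := by
      have a1 : 0 ≤ m / m1 := div_nonneg h0 hm1.le
      have a2 : m / m1 ≤ 1 := by rw [div_le_one hm1]; exact h1
      rw [abs_le]; constructor <;> linarith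
    have h := res_small ht (hq _ ht) hμ
    rw [e] at h
    exact h
  have cA := hcA.cal (ε := 1 / 1000) (by norm_num) (by norm_num)
    (hl μA (by unfold μA; norm_num))
  have cB := hcB.cal (ε := 1 / 1000) (by norm_num) (by norm_num)
    (hl μB (by unfold μB; norm_num))
  obtain ⟨W, c0⟩ := hcA.zero hcB (by norm_num) (by unfold μA; norm_num) (by unfold μB; norm_num)
  exact rsBound_sharp5 coarse le_rfl le_rfl c0 cA cB (by unfold μA; norm_num)
    (by unfold μB; norm_num) (by rw [abs_of_pos] <;> norm_num)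

end Pool.H61.Rh
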