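import Pool.Agent.H61.Rz.Ax4
import Pool.Agent.H89.Nz.DA
import Pool.Agent.H89.Nz.DB

/-! # Ax5: the near zones -/

set_option autoImplicit false

namespace Pool.H61.Rh

open Complex Pool.H47.Kc Pool.H47.K3

theorem nearA (m : ℝ) (x : ℂ) (m0 : 3 / 4 * m1 ≤ m) (mm : m ≤ m1) (hx : |x.re| ≤ 1 / 16)
    (hy : |x.im| ≤ 1 / 16) : (dA.pt m).FI 5 x 2 := by
  have h0 : 0 ≤ m := by have := m1_bounds.1; linarith
  obtain ⟨-, -, ht, e1, e2⟩ := th_mem h0 mm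
  have h := TmIn_A ht
  rw [e1, e2] at h
  exact near_A m0 mm h (fun l i hi => by rw [syl_left' _ _ _ hi]; exact enA h0 mm i hi) hx hy

theorem nearB (m : ℝ) (x : ℂ) (m0 : 3 / 4 * m1 ≤ m) (mm : m ≤ m1) (hx : |x.re| ≤ 1 / 16)
    (hy : |x.im| ≤ 1 / 16) : (dB.pt m).FI 5 x 2 := by
  have h0 : 0 ≤ m := by have := m1_bounds.1; linarith
  obtain ⟨-, -, ht, e1, e2⟩ := th_mem h0 mm
  have h := TmIn_B ht
  rw [e1, e2] at h
  exact near_B m0 mm h (fun l i hi => by rw [syl_left' _ _ _ hi]; exact enB h0 mm i hi) hx hy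

/-- enclosure of the level 1 quantities for all `t` -/
theorem hqA (t : ℝ) (ht : |t| ≤ 1) :
    TmIn qA t (fun i => Pool.H47.Kc.get 0 (l1 μA (m1 * ((1 + t) / 2))) i) := TmIn_A ht

end Pool.H61.Rh
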