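import Pool.Agent.H61.Rz.QB
import Pool.Agent.H61.Rz.Tq
import Pool.Agent.H61.Rz.SyB
import Pool.Agent.H61.Rz.En

/-! # EB: enclosures of the 81 base symbols of `dB.pt m` -/

set_option autoImplicit false
set_option maxRecDepth 100000

namespace Pool.H61.Rh

open Pool.H47.Kc Pool.H47.K3

theorem chkB : chkL (run (tmAlg qB) pQB []) SyB pQB_out 0 = true := by
  decide +kernel

theorem chkB' : (chk2 (Pool.H47.Kc.get ⟨[], 0⟩ qB 1) (SyB 78) &&
    (chk2 (Tm.rat 957 1000) (SyB 79) && chk2 (Tm.rat 493 1000) (SyB 80))) = true := by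
  decide +kernel

theorem EnclB {t : ℝ} (ht : |t| ≤ 1)
    (hq : TmIn qB t (fun i => Pool.H47.Kc.get 0 (l1 μB (m1 * ((1 + t) / 2))) i)) :
    Encl81 SyB (dB.pt (m1 * ((1 + t) / 2))) ((1 + t) / 2) := by
  have hm : m1 * ((1 + t) / 2) / m1 = (1 + t) / 2 := by
    rw [mul_div_assoc, mul_comm, div_mul_cancel₀ _ m1_ne]
  exact Encl81_of ht hm hq rfl (pQB_val _) chkB chkB'

end Pool.H61.Rh
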