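import Pool.Agent.H61.Rz.Te0

/-! # generated: enclosures of the level-1 symbols -/

set_option autoImplicit false

namespace Pool.H61.Rh

open Pool.H47.Kc

def uS2 : Tm := ⟨[1630477228166597777], 32⟩

theorem uS2_in {t : ℝ} (ht : |t| ≤ 1) : uS2.In t (Real.sqrt 2) := by
  have h : (Tm.sqrt (Tm.cst (2) 0) [1630477228166597777]).In t (Real.sqrt 2) :=
    (Tm.sqrt_sound ht (Tm.conv (Tm.cst_sound (2) 0 t) (w := 2) (by norm_num)) (by norm_num) [1630477228166597777] (by decide +kernel))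
  refine Tm.le_sound ht (Tm.conv h (w := (Real.sqrt 2)) ?_) (by decide +kernel)
  rfl

def uS3 : Tm := ⟨[1996918623117814388], 32⟩

theorem uS3_in {t : ℝ} (ht : |t| ≤ 1) : uS3.In t s3 := by
  have h : (Tm.sqrt (Tm.cst (3) 0) [1996918623117814388]).In t (Real.sqrt 3) :=
    (Tm.sqrt_sound ht (Tm.conv (Tm.cst_sound (3) 0 t) (w := 3) (by norm_num)) (by norm_num) [1996918623117814388] (by decide +kernel))
  refine Tm.le_sound ht (Tm.conv h (w := s3) ?_) (by decide +kernel)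
  rfl

def uKP : Tm := ⟨[1938975120585633119], 186⟩

theorem uKP_in {t : ℝ} (ht : |t| ≤ 1) : uKP.In t kp := by
  have h : (Tm.sqrt (Tm.mul (Tm.cst (2) 0) uS2) [1938975120585633119]).In t (Real.sqrt (2 * (Real.sqrt 2))) :=
    (Tm.sqrt_sound ht (Tm.mul_sound ht (Tm.conv (Tm.cst_sound (2) 0 t) (w := 2) (by norm_num)) (uS2_in ht)) (by positivity) [1938975120585633119] (by decide +kernel))
  refine Tm.le_sound ht (Tm.conv h (w := kp) ?_) (by decide +kernel)
  rfl

def uM1 : Tm := ⟨[199786072581291495], 4⟩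

theorem uM1_in {t : ℝ} (_ht : |t| ≤ 1) : uM1.In t m1 := by
  show |m1 * 2 ^ 60 - (((199786072581291495 : ℤ) : ℝ) + t * 0)| ≤ ((4 : ℕ) : ℝ)
  have h := m1_60
  rw [mul_zero, add_zero]
  push_cast
  exact h

def uIM1 : Tm := ⟨[6653256548922161246], 451⟩

theorem uIM1_in {t : ℝ} (ht : |t| ≤ 1) : uIM1.In t (1 / m1) := by
  have h : (Tm.inv uM1 [6653256548922161246]).In t (1 / m1) :=
    (Tm.inv_sound ht (uM1_in ht) [6653256548922161246] (by decide +kernel))
  refine Tm.le_sound ht (Tm.conv h (w := (1 / m1)) ?_) (by decide +kernel)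
  rfl

def uK : Tm := ⟨[2108032951726348578], 80⟩

theorem uK_in {t : ℝ} (ht : |t| ≤ 1) : uK.In t oK := by
  have h : (Tm.sub (Tm.mul uS2 (Tm.cst (2) 0)) (Tm.cst (1) 0)).In t (((Real.sqrt 2) * 2) - 1) :=
    (Tm.sub_sound (Tm.mul_sound ht (uS2_in ht) (Tm.conv (Tm.cst_sound (2) 0 t) (w := 2) (by norm_num))) (Tm.conv (Tm.cst_sound (1) 0 t) (w := 1) (by norm_num)))
  refine Tm.le_sound ht (Tm.conv h (w := oK) ?_) (by decide +kernel)
  rw [oK]; ring

def uIK : Tm := ⟨[630553708705720361], 65⟩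

theorem uIK_in {t : ℝ} (ht : |t| ≤ 1) : uIK.In t (1 / oK) := by
  have h : (Tm.inv uK [630553708705720361]).In t (1 / oK) :=
    (Tm.inv_sound ht (uK_in ht) [630553708705720361] (by decide +kernel))
  refine Tm.le_sound ht (Tm.conv h (w := (1 / oK)) ?_) (by decide +kernel)
  rfl

def uOC : Tm := ⟨[1089564877574664707], 374⟩

theorem uOC_in {t : ℝ} (ht : |t| ≤ 1) : uOC.In t oC := by
  have h : (Tm.sqrt (Tm.mul (Tm.mul (Tm.mul uS2 uS3) uIK) (Tm.rat 2 3)) [1089564877574664707]).In t (Real.sqrt ((((Real.sqrt 2) * s3) * (1 / oK)) * (2 / 3))) :=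
    (Tm.sqrt_sound ht (Tm.mul_sound ht (Tm.mul_sound ht (Tm.mul_sound ht (uS2_in ht) (uS3_in ht)) (uIK_in ht)) (Tm.conv (Tm.rat_sound 2 (n := 3) (by norm_num) t) (w := (2 / 3)) (by norm_num))) te_oC0 [1089564877574664707] (by decide +kernel))
  refine Tm.le_sound ht (Tm.conv h (w := oC) ?_) (by decide +kernel)
  exact te_oC

def uC12 : Tm := ⟨[1113636656983804515], 54⟩

theorem uC12_in {t : ℝ} (ht : |t| ≤ 1) : uC12.In t ((Real.sqrt 2 * s3 + Real.sqrt 2) * (1 / 4)) := by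
  have h : (Tm.mul (Tm.add (Tm.mul uS2 uS3) uS2) (Tm.rat 1 4)).In t ((((Real.sqrt 2) * s3) + (Real.sqrt 2)) * (1 / 4)) :=
    (Tm.mul_sound ht (Tm.add_sound (Tm.mul_sound ht (uS2_in ht) (uS3_in ht)) (uS2_in ht)) (Tm.conv (Tm.rat_sound 1 (n := 4) (by norm_num) t) (w := (1 / 4)) (by norm_num)))
  refine Tm.le_sound ht (Tm.conv h (w := ((Real.sqrt 2 * s3 + Real.sqrt 2) * (1 / 4))) ?_) (by decide +kernel)
  rfl

def uCB : Tm := ⟨[1143058101309820321], 116⟩

theorem uCB_in {t : ℝ} (ht : |t| ≤ 1) : uCB.In t cB := by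
  have h : (Tm.sqrt (Tm.mul (Tm.add (Tm.cst (1) 0) uC12) (Tm.rat 1 2)) [1143058101309820321]).In t (Real.sqrt ((1 + ((Real.sqrt 2 * s3 + Real.sqrt 2) * (1 / 4))) * (1 / 2))) :=
    (Tm.sqrt_sound ht (Tm.mul_sound ht (Tm.add_sound (Tm.conv (Tm.cst_sound (1) 0 t) (w := 1) (by norm_num)) (uC12_in ht)) (Tm.conv (Tm.rat_sound 1 (n := 2) (by norm_num) t) (w := (1 / 2)) (by norm_num))) te_cB0 [1143058101309820321] (by decide +kernel))
  refine Tm.le_sound ht (Tm.conv h (w := cB) ?_) (by decide +kernel)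
  exact te_cB

def uICB : Tm := ⟨[1162870018822109822], 269⟩

theorem uICB_in {t : ℝ} (ht : |t| ≤ 1) : uICB.In t (1 / cB) := by
  have h : (Tm.inv uCB [1162870018822109822]).In t (1 / cB) :=
    (Tm.inv_sound ht (uCB_in ht) [1162870018822109822] (by decide +kernel))
  refine Tm.le_sound ht (Tm.conv h (w := (1 / cB)) ?_) (by decide +kernel)
  rfl

def uSB : Tm := ⟨[150486453924944405], 110⟩

theorem uSB_in {t : ℝ} (ht : |t| ≤ 1) : uSB.In t sB := by
  have h : (Tm.mul (Tm.mul (Tm.mul uS2 (Tm.sub uS3 (Tm.cst (1) 0))) (Tm.rat 1 8)) uICB).In t ((((Real.sqrt 2) * (s3 - 1)) * (1 / 8)) * (1 / cB)) :=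
    (Tm.mul_sound ht (Tm.mul_sound ht (Tm.mul_sound ht (uS2_in ht) (Tm.sub_sound (uS3_in ht) (Tm.conv (Tm.cst_sound (1) 0 t) (w := 1) (by norm_num)))) (Tm.conv (Tm.rat_sound 1 (n := 8) (by norm_num) t) (w := (1 / 8)) (by norm_num))) (uICB_in ht))
  exact Tm.le_sound ht (Tm.conv h te_sB) (by decide +kernel)

def uDN : Tm := ⟨[58316723916358924], 5⟩

theorem uDN_in {t : ℝ} (ht : |t| ≤ 1) : uDN.In t (1 / (s3 * (10 + Real.sqrt 2))) := by
  have h : (Tm.inv (Tm.mul uS3 (Tm.add (Tm.cst (10) 0) uS2)) [58316723916358924]).In t (1 / (s3 * (10 + (Real.sqrt 2)))) :=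
    (Tm.inv_sound ht (Tm.mul_sound ht (uS3_in ht) (Tm.add_sound (Tm.conv (Tm.cst_sound (10) 0 t) (w := 10) (by norm_num)) (uS2_in ht))) [58316723916358924] (by decide +kernel))
  refine Tm.le_sound ht (Tm.conv h (w := (1 / (s3 * (10 + Real.sqrt 2)))) ?_) (by decide +kernel)
  rfl

def uoc : Tm := ⟨[1130242923481659777], 134⟩

theorem uoc_in {t : ℝ} (ht : |t| ≤ 1) : uoc.In t oc := by
  have h : (Tm.mul (Tm.sub (Tm.add (Tm.cst (10) 0) (Tm.mul (Tm.cst (9) 0) uS2)) (Tm.mul (Tm.mul (Tm.cst (8) 0) uM1) (Tm.add (Tm.cst (1) 0) uS2))) uDN).In t (((10 + (9 * (Real.sqrt 2))) - ((8 * m1) * (1 + (Real.sqrt 2)))) * (1 / (s3 * (10 + Real.sqrt 2)))) :=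
    (Tm.mul_sound ht (Tm.sub_sound (Tm.add_sound (Tm.conv (Tm.cst_sound (10) 0 t) (w := 10) (by norm_num)) (Tm.mul_sound ht (Tm.conv (Tm.cst_sound (9) 0 t) (w := 9) (by norm_num)) (uS2_in ht))) (Tm.mul_sound ht (Tm.mul_sound ht (Tm.conv (Tm.cst_sound (8) 0 t) (w := 8) (by norm_num)) (uM1_in ht)) (Tm.add_sound (Tm.conv (Tm.cst_sound (1) 0 t) (w := 1) (by norm_num)) (uS2_in ht)))) (uDN_in ht))
  refine Tm.le_sound ht (Tm.conv h (w := oc) ?_) (by decide +kernel)
  rw [oc]; ring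

def uM : Tm := ⟨[99893036290645747, 99893036290645747], 18⟩

theorem uM_in {t : ℝ} (ht : |t| ≤ 1) : uM.In t (te_m t) := by
  have h : (Tm.mul uM1 uX).In t (m1 * ((1 + t) / 2)) :=
    (Tm.mul_sound ht (uM1_in ht) (te_x t))
  refine Tm.le_sound ht (Tm.conv h (w := (te_m t)) ?_) (by decide +kernel)
  rfl

def uQ : Tm := ⟨[8655072057804174, 17310144115608349, 8655072057804174], 20⟩

theorem uQ_in {t : ℝ} (ht : |t| ≤ 1) : uQ.In t (te_m t * te_m t) := by
  have h : (Tm.mul uM uM).In t ((te_m t) * (te_m t)) :=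
    (Tm.mul_sound ht (uM_in ht) (uM_in ht))
  refine Tm.le_sound ht (Tm.conv h (w := (te_m t * te_m t)) ?_) (by decide +kernel)
  rfl

def uCc0 : Tm := ⟨[1153017672074155911, 192334934617870, 96167467308935], 15⟩

theorem uCc0_in {t : ℝ} (ht : |t| ≤ 1) : uCc0.In t (1 + te_m t * te_m t * 1 * (1 / 90)) := by
  have h : (Tm.add (Tm.cst (1) 0) (Tm.mul (Tm.mul uQ (Tm.cst (1) 0)) (Tm.rat 1 90))).In t (1 + (((te_m t * te_m t) * 1) * (1 / 90))) :=
    (Tm.add_sound (Tm.conv (Tm.cst_sound (1) 0 t) (w := 1) (by norm_num)) (Tm.mul_sound ht (Tm.mul_sound ht (uQ_in ht) (Tm.conv (Tm.cst_sound (1) 0 t) (w := 1) (by norm_num))) (Tm.conv (Tm.rat_sound 1 (n := 90) (by norm_num) t) (w := (1 / 90)) (by norm_num))))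
  refine Tm.le_sound ht (Tm.conv h (w := (1 + te_m t * te_m t * 1 * (1 / 90))) ?_) (by decide +kernel)
  rfl

def uCc1 : Tm := ⟨[1153076072356749034, 309161283258083, 154632208536976, 51566907934, 12891726983], 15⟩

theorem uCc1_in {t : ℝ} (ht : |t| ≤ 1) : uCc1.In t (1 + te_m t * te_m t * (1 + te_m t * te_m t * 1 * (1 / 90)) * (1 / 56)) := by
  have h : (Tm.add (Tm.cst (1) 0) (Tm.mul (Tm.mul uQ uCc0) (Tm.rat 1 56))).In t (1 + (((te_m t * te_m t) * (1 + te_m t * te_m t * 1 * (1 / 90))) * (1 / 56))) :=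
    (Tm.add_sound (Tm.conv (Tm.cst_sound (1) 0 t) (w := 1) (by norm_num)) (Tm.mul_sound ht (Tm.mul_sound ht (uQ_in ht) (uCc0_in ht)) (Tm.conv (Tm.rat_sound 1 (n := 56) (by norm_num) t) (w := (1 / 56)) (by norm_num))))
  refine Tm.le_sound ht (Tm.conv h (w := (1 + te_m t * te_m t * (1 + te_m t * te_m t * 1 * (1 / 90)) * (1 / 56))) ?_) (by decide +kernel)
  rfl

def uCc2 : Tm := ⟨[1153210045687180706, 577159523933256, 288734501402113, 154765243273, 38723570553, 19355840, 3225973], 16⟩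

theorem uCc2_in {t : ℝ} (ht : |t| ≤ 1) : uCc2.In t (1 + te_m t * te_m t * (1 + te_m t * te_m t * (1 + te_m t * te_m t * 1 * (1 / 90)) * (1 / 56)) * (1 / 30)) := by
  have h : (Tm.add (Tm.cst (1) 0) (Tm.mul (Tm.mul uQ uCc1) (Tm.rat 1 30))).In t (1 + (((te_m t * te_m t) * (1 + te_m t * te_m t * (1 + te_m t * te_m t * 1 * (1 / 90)) * (1 / 56))) * (1 / 30))) :=
    (Tm.add_sound (Tm.conv (Tm.cst_sound (1) 0 t) (w := 1) (by norm_num)) (Tm.mul_sound ht (Tm.mul_sound ht (uQ_in ht) (uCc1_in ht)) (Tm.conv (Tm.rat_sound 1 (n := 30) (by norm_num) t) (w := (1 / 30)) (by norm_num))))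
  refine Tm.le_sound ht (Tm.conv h (w := (1 + te_m t * te_m t * (1 + te_m t * te_m t * (1 + te_m t * te_m t * 1 * (1 / 90)) * (1 / 56)) * (1 / 30))) ?_) (by decide +kernel)
  rfl

def uCc3 : Tm := ⟨[1153642941120038580, 1443234091530066, 722339272862166, 722420720123, 180847241057, 145281822, 24251308, 16145, 2018], 17⟩

theorem uCc3_in {t : ℝ} (ht : |t| ≤ 1) : uCc3.In t (1 + te_m t * te_m t * (1 + te_m t * te_m t * (1 + te_m t * te_m t * (1 + te_m t * te_m t * 1 * (1 / 90)) * (1 / 56)) * (1 / 30)) * (1 / 12)) := by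
  have h : (Tm.add (Tm.cst (1) 0) (Tm.mul (Tm.mul uQ uCc2) (Tm.rat 1 12))).In t (1 + (((te_m t * te_m t) * (1 + te_m t * te_m t * (1 + te_m t * te_m t * (1 + te_m t * te_m t * 1 * (1 / 90)) * (1 / 56)) * (1 / 30))) * (1 / 12))) :=
    (Tm.add_sound (Tm.conv (Tm.cst_sound (1) 0 t) (w := 1) (by norm_num)) (Tm.mul_sound ht (Tm.mul_sound ht (uQ_in ht) (uCc2_in ht)) (Tm.conv (Tm.rat_sound 1 (n := 12) (by norm_num) t) (w := (1 / 12)) (by norm_num))))
  refine Tm.le_sound ht (Tm.conv h (w := (1 + te_m t * te_m t * (1 + te_m t * te_m t * (1 + te_m t * te_m t * (1 + te_m t * te_m t * 1 * (1 / 90)) * (1 / 56)) * (1 / 30)) * (1 / 12))) ?_) (by decide +kernel)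
  rfl

def uCc4 : Tm := ⟨[1157251748575960887, 8665905173923644, 4343789769261164, 10842604841512, 2717430841755, 4069814198, 679998873, 727438, 91157, 75, 7], 32⟩

theorem uCc4_in {t : ℝ} (ht : |t| ≤ 1) : uCc4.In t (1 + te_m t * te_m t * (1 + te_m t * te_m t * (1 + te_m t * te_m t * (1 + te_m t * te_m t * (1 + te_m t * te_m t * 1 * (1 / 90)) * (1 / 56)) * (1 / 30)) * (1 / 12)) * (1 / 2)) := by
  have h : (Tm.add (Tm.cst (1) 0) (Tm.mul (Tm.mul uQ uCc3) (Tm.rat 1 2))).In t (1 + (((te_m t * te_m t) * (1 + te_m t * te_m t * (1 + te_m t * te_m t * (1 + te_m t * te_m t * (1 + te_m t * te_m t * 1 * (1 / 90)) * (1 / 56)) * (1 / 30)) * (1 / 12))) * (1 / 2))) :=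
    (Tm.add_sound (Tm.conv (Tm.cst_sound (1) 0 t) (w := 1) (by norm_num)) (Tm.mul_sound ht (Tm.mul_sound ht (uQ_in ht) (uCc3_in ht)) (Tm.conv (Tm.rat_sound 1 (n := 2) (by norm_num) t) (w := (1 / 2)) (by norm_num))))
  refine Tm.le_sound ht (Tm.conv h (w := (1 + te_m t * te_m t * (1 + te_m t * te_m t * (1 + te_m t * te_m t * (1 + te_m t * te_m t * (1 + te_m t * te_m t * 1 * (1 / 90)) * (1 / 56)) * (1 / 30)) * (1 / 12)) * (1 / 2))) ?_) (by decide +kernel)
  rfl

def uSs0 : Tm := ⟨[1153000187080099741, 157364946505530, 78682473252765], 15⟩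

theorem uSs0_in {t : ℝ} (ht : |t| ≤ 1) : uSs0.In t (1 + te_m t * te_m t * 1 * (1 / 110)) := by
  have h : (Tm.add (Tm.cst (1) 0) (Tm.mul (Tm.mul uQ (Tm.cst (1) 0)) (Tm.rat 1 110))).In t (1 + (((te_m t * te_m t) * 1) * (1 / 110))) :=
    (Tm.add_sound (Tm.conv (Tm.cst_sound (1) 0 t) (w := 1) (by norm_num)) (Tm.mul_sound ht (Tm.mul_sound ht (uQ_in ht) (Tm.conv (Tm.cst_sound (1) 0 t) (w := 1) (by norm_num))) (Tm.conv (Tm.rat_sound 1 (n := 110) (by norm_num) t) (w := (1 / 110)) (by norm_num))))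
  refine Tm.le_sound ht (Tm.conv h (w := (1 + te_m t * te_m t * 1 * (1 / 110))) ?_) (by decide +kernel)
  rfl

def uSs1 : Tm := ⟨[1153041722144809407, 240451483577387, 120258557093743, 32815305049, 8203826262], 15⟩

theorem uSs1_in {t : ℝ} (ht : |t| ≤ 1) : uSs1.In t (1 + te_m t * te_m t * (1 + te_m t * te_m t * 1 * (1 / 110)) * (1 / 72)) := by
  have h : (Tm.add (Tm.cst (1) 0) (Tm.mul (Tm.mul uQ uSs0) (Tm.rat 1 72))).In t (1 + (((te_m t * te_m t) * (1 + te_m t * te_m t * 1 * (1 / 110))) * (1 / 72))) :=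
    (Tm.add_sound (Tm.conv (Tm.cst_sound (1) 0 t) (w := 1) (by norm_num)) (Tm.mul_sound ht (Tm.mul_sound ht (uQ_in ht) (uSs0_in ht)) (Tm.conv (Tm.rat_sound 1 (n := 72) (by norm_num) t) (w := (1 / 72)) (by norm_num))))
  refine Tm.le_sound ht (Tm.conv h (w := (1 + te_m t * te_m t * (1 + te_m t * te_m t * 1 * (1 / 110)) * (1 / 72))) ?_) (by decide +kernel)
  rfl

def uSs2 : Tm := ⟨[1153127599238758399, 412232242111532, 206202083498543, 85974173589, 21508206913, 8798109, 1466351], 15⟩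

theorem uSs2_in {t : ℝ} (ht : |t| ≤ 1) : uSs2.In t (1 + te_m t * te_m t * (1 + te_m t * te_m t * (1 + te_m t * te_m t * 1 * (1 / 110)) * (1 / 72)) * (1 / 42)) := by
  have h : (Tm.add (Tm.cst (1) 0) (Tm.mul (Tm.mul uQ uSs1) (Tm.rat 1 42))).In t (1 + (((te_m t * te_m t) * (1 + te_m t * te_m t * (1 + te_m t * te_m t * 1 * (1 / 110)) * (1 / 72))) * (1 / 42))) :=
    (Tm.add_sound (Tm.conv (Tm.cst_sound (1) 0 t) (w := 1) (by norm_num)) (Tm.mul_sound ht (Tm.mul_sound ht (uQ_in ht) (uSs1_in ht)) (Tm.conv (Tm.rat_sound 1 (n := 42) (by norm_num) t) (w := (1 / 42)) (by norm_num))))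
  refine Tm.le_sound ht (Tm.conv h (w := (1 + te_m t * te_m t * (1 + te_m t * te_m t * (1 + te_m t * te_m t * 1 * (1 / 110)) * (1 / 72)) * (1 / 42))) ?_) (by decide +kernel)
  rfl

def uSs3 : Tm := ⟨[1153354335568164570, 865816655622030, 433217826051037, 309562777104, 77471374435, 48420424, 8080344, 4403, 550], 16⟩

theorem uSs3_in {t : ℝ} (ht : |t| ≤ 1) : uSs3.In t (1 + te_m t * te_m t * (1 + te_m t * te_m t * (1 + te_m t * te_m t * (1 + te_m t * te_m t * 1 * (1 / 110)) * (1 / 72)) * (1 / 42)) * (1 / 20)) := by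
  have h : (Tm.add (Tm.cst (1) 0) (Tm.mul (Tm.mul uQ uSs2) (Tm.rat 1 20))).In t (1 + (((te_m t * te_m t) * (1 + te_m t * te_m t * (1 + te_m t * te_m t * (1 + te_m t * te_m t * 1 * (1 / 110)) * (1 / 72)) * (1 / 42))) * (1 / 20))) :=
    (Tm.add_sound (Tm.conv (Tm.cst_sound (1) 0 t) (w := 1) (by norm_num)) (Tm.mul_sound ht (Tm.mul_sound ht (uQ_in ht) (uSs2_in ht)) (Tm.conv (Tm.rat_sound 1 (n := 20) (by norm_num) t) (w := (1 / 20)) (by norm_num))))
  refine Tm.le_sound ht (Tm.conv h (w := (1 + te_m t * te_m t * (1 + te_m t * te_m t * (1 + te_m t * te_m t * (1 + te_m t * te_m t * 1 * (1 / 110)) * (1 / 72)) * (1 / 42)) * (1 / 20))) ?_) (by decide +kernel)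
  rfl

def uSs4 : Tm := ⟨[1154364558165803614, 2887190410157272, 1445762176804549, 2167746282505, 542904927872, 581240478, 97061887, 80807, 10121, 6], 20⟩

theorem uSs4_in {t : ℝ} (ht : |t| ≤ 1) : uSs4.In t (1 + te_m t * te_m t * (1 + te_m t * te_m t * (1 + te_m t * te_m t * (1 + te_m t * te_m t * (1 + te_m t * te_m t * 1 * (1 / 110)) * (1 / 72)) * (1 / 42)) * (1 / 20)) * (1 / 6)) := by
  have h : (Tm.add (Tm.cst (1) 0) (Tm.mul (Tm.mul uQ uSs3) (Tm.rat 1 6))).In t (1 + (((te_m t * te_m t) * (1 + te_m t * te_m t * (1 + te_m t * te_m t * (1 + te_m t * te_m t * (1 + te_m t * te_m t * 1 * (1 / 110)) * (1 / 72)) * (1 / 42)) * (1 / 20))) * (1 / 6))) :=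
    (Tm.add_sound (Tm.conv (Tm.cst_sound (1) 0 t) (w := 1) (by norm_num)) (Tm.mul_sound ht (Tm.mul_sound ht (uQ_in ht) (uSs3_in ht)) (Tm.conv (Tm.rat_sound 1 (n := 6) (by norm_num) t) (w := (1 / 6)) (by norm_num))))
  refine Tm.le_sound ht (Tm.conv h (w := (1 + te_m t * te_m t * (1 + te_m t * te_m t * (1 + te_m t * te_m t * (1 + te_m t * te_m t * (1 + te_m t * te_m t * 1 * (1 / 110)) * (1 / 72)) * (1 / 42)) * (1 / 20)) * (1 / 6))) ?_) (by decide +kernel)
  rfl

def uCh : Tm := ⟨[1157251748575960887, 8665905173923644, 4343789769261164, 10842604841512, 2717430841755, 4069814198, 679998873, 727438, 91157, 75, 7], 36⟩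

theorem uCh_in {t : ℝ} (ht : |t| ≤ 1) : uCh.In t (Real.cosh (te_m t)) := by
  have h : (⟨uCc4.c, Nat.add uCc4.e 4⟩ : Tm).In t (Real.cosh (te_m t)) :=
    Tm.weaken (uCc4_in ht) (te_cosh (te_m0 ht) (te_m1 ht))
  exact Tm.le_sound ht h (by decide +kernel)

def uSh1 : Tm := ⟨[100018067353869220, 100268223340436748, 375421733644063, 125453567979521, 234860030494, 47089488158, 58770421, 8416773, 7878, 877], 35⟩

theorem uSh1_in {t : ℝ} (ht : |t| ≤ 1) : uSh1.In t (te_m t * (1 + te_m t * te_m t * (1 + te_m t * te_m t * (1 + te_m t * te_m t * (1 + te_m t * te_m t * (1 + te_m t * te_m t * 1 * (1 / 110)) * (1 / 72)) * (1 / 42)) * (1 / 20)) * (1 / 6))) := by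
  have h : (Tm.mul uM uSs4).In t ((te_m t) * (1 + te_m t * te_m t * (1 + te_m t * te_m t * (1 + te_m t * te_m t * (1 + te_m t * te_m t * (1 + te_m t * te_m t * 1 * (1 / 110)) * (1 / 72)) * (1 / 42)) * (1 / 20)) * (1 / 6))) :=
    (Tm.mul_sound ht (uM_in ht) (uSs4_in ht))
  refine Tm.le_sound ht (Tm.conv h (w := (te_m t * (1 + te_m t * te_m t * (1 + te_m t * te_m t * (1 + te_m t * te_m t * (1 + te_m t * te_m t * (1 + te_m t * te_m t * 1 * (1 / 110)) * (1 / 72)) * (1 / 42)) * (1 / 20)) * (1 / 6)))) ?_) (by decide +kernel)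
  rfl

def uSh : Tm := ⟨[100018067353869220, 100268223340436748, 375421733644063, 125453567979521, 234860030494, 47089488158, 58770421, 8416773, 7878, 877], 39⟩

theorem uSh_in {t : ℝ} (ht : |t| ≤ 1) : uSh.In t (Real.sinh (te_m t)) := by
  have h : (⟨uSh1.c, Nat.add uSh1.e 4⟩ : Tm).In t (Real.sinh (te_m t)) :=
    Tm.weaken (uSh1_in ht) (te_sinh (te_m0 ht) (te_m1 ht))
  exact Tm.le_sound ht h (by decide +kernel)

def uP0 : Tm := ⟨[1946257693847236927, 14574257191362019, 7305354491174945, 18235015086480, 4570155707063, 6844584339, 1143617229, 1223400, 153307, 126, 11], 263⟩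

theorem uP0_in {t : ℝ} (ht : |t| ≤ 1) : uP0.In t (kp * Real.cosh (te_m t)) := by
  have h : (Tm.mul uKP uCh).In t (kp * (Real.cosh (te_m t))) :=
    (Tm.mul_sound ht (uKP_in ht) (uCh_in ht))
  refine Tm.le_sound ht (Tm.conv h (w := (kp * Real.cosh (te_m t))) ?_) (by decide +kernel)
  rfl

def uS : Tm := ⟨[2739593883087626878, 29148514382724038, 14610708982349890, 36470030172960, 9140311414126, 13689168678, 2287234458, 2446800, 306614, 252, 22], 542⟩

theorem uS_in {t : ℝ} (ht : |t| ≤ 1) : uS.In t (oS (te_m t)) := by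
  have h : (Tm.sub (Tm.mul uP0 (Tm.cst (2) 0)) (Tm.cst (1) 0)).In t (((kp * Real.cosh (te_m t)) * 2) - 1) :=
    (Tm.sub_sound (Tm.mul_sound ht (uP0_in ht) (Tm.conv (Tm.cst_sound (2) 0 t) (w := 2) (by norm_num))) (Tm.conv (Tm.cst_sound (1) 0 t) (w := 1) (by norm_num)))
  refine Tm.le_sound ht (Tm.conv h (w := (oS (te_m t))) ?_) (by decide +kernel)
  rw [oS]; ring

def uIS : Tm := ⟨[485191620550278490, -5162303441139133, -2532681991760344, 48019481460982, 11446240272661, -329366112805, -50108887553, 1993654179, 214047547, -11237185, -888954, 59396, 3521], 7839⟩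

theorem uIS_in {t : ℝ} (ht : |t| ≤ 1) : uIS.In t (1 / oS (te_m t)) := by
  have h : (Tm.inv uS [485191620550278490, -5162303441139133, -2532681991760344, 48019481460982, 11446240272661, -329366112805, -50108887553, 1993654179, 214047547, -11237185, -888954, 59396, 3521]).In t (1 / (oS (te_m t))) :=
    (Tm.inv_sound ht (uS_in ht) [485191620550278490, -5162303441139133, -2532681991760344, 48019481460982, 11446240272661, -329366112805, -50108887553, 1993654179, 214047547, -11237185, -888954, 59396, 3521] (by decide +kernel))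
  refine Tm.le_sound ht (Tm.conv h (w := (1 / oS (te_m t))) ?_) (by decide +kernel)
  rfl

def uCA : Tm := ⟨[914674126773438719], 193⟩

theorem uCA_in {t : ℝ} (ht : |t| ≤ 1) : uCA.In t cA := by
  have h : (Tm.mul (Tm.sub (Tm.mul uS3 uCB) uSB) (Tm.rat 1 2)).In t (((s3 * cB) - sB) * (1 / 2)) :=
    (Tm.mul_sound ht (Tm.sub_sound (Tm.mul_sound ht (uS3_in ht) (uCB_in ht)) (uSB_in ht)) (Tm.conv (Tm.rat_sound 1 (n := 2) (by norm_num) t) (w := (1 / 2)) (by norm_num)))
  refine Tm.le_sound ht (Tm.conv h (w := cA) ?_) (by decide +kernel)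
  rw [cA_eq]; ring

def uSA : Tm := ⟨[701854142679348460], 177⟩

theorem uSA_in {t : ℝ} (ht : |t| ≤ 1) : uSA.In t sA := by
  have h : (Tm.mul (Tm.add uCB (Tm.mul uS3 uSB)) (Tm.rat 1 2)).In t ((cB + (s3 * sB)) * (1 / 2)) :=
    (Tm.mul_sound ht (Tm.add_sound (uCB_in ht) (Tm.mul_sound ht (uS3_in ht) (uSB_in ht))) (Tm.conv (Tm.rat_sound 1 (n := 2) (by norm_num) t) (w := (1 / 2)) (by norm_num)))
  refine Tm.le_sound ht (Tm.conv h (w := sA) ?_) (by decide +kernel)
  rw [sA_eq]; ring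

def uAre : Tm := ⟨[74989156472065814, 75176712449854968, 281474736235839, 94059578315089, 176087741361, 35305631162, 44063481, 6310526, 5906, 656], 139⟩

theorem uAre_in {t : ℝ} (ht : |t| ≤ 1) : uAre.In t (oa (te_m t)).re := by
  have h : (Tm.mul uOC (Tm.mul uSh uCA)).In t (oC * ((Real.sinh (te_m t)) * cA)) :=
    (Tm.mul_sound ht (uOC_in ht) (Tm.mul_sound ht (uSh_in ht) (uCA_in ht)))
  refine Tm.le_sound ht (Tm.conv h (w := (oa (te_m t)).re) ?_) (by decide +kernel)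
  rfl

def uAim : Tm := ⟨[-1150969475559565032, 4985565377293573, 2499017407325868, 6237838311475, 1563359954665, 2341397043, 391208854, 418500, 52442, 42, 3], 986⟩

theorem uAim_in {t : ℝ} (ht : |t| ≤ 1) : uAim.In t (oa (te_m t)).im := by
  have h : (Tm.mul uOC (Tm.sub (Tm.mul uCh uSA) (Tm.mul uKP uCB))).In t (oC * (((Real.cosh (te_m t)) * sA) - (kp * cB))) :=
    (Tm.mul_sound ht (uOC_in ht) (Tm.sub_sound (Tm.mul_sound ht (uCh_in ht) (uSA_in ht)) (Tm.mul_sound ht (uKP_in ht) (uCB_in ht))))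
  refine Tm.le_sound ht (Tm.conv h (w := (oa (te_m t)).im) ?_) (by decide +kernel)
  rfl

def uBre : Tm := ⟨[12337565817141773, 12368423401481104, 46309536572342, 15475120574629, 28970776587, 5808647124, 7249529, 1038237, 971, 107], 58⟩

theorem uBre_in {t : ℝ} (ht : |t| ≤ 1) : uBre.In t (-(ob (te_m t)).re) := by
  have h : (Tm.mul uOC (Tm.mul uSh uSB)).In t (oC * ((Real.sinh (te_m t)) * sB)) :=
    (Tm.mul_sound ht (uOC_in ht) (Tm.mul_sound ht (uSh_in ht) (uSB_in ht)))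
  refine Tm.le_sound ht (Tm.conv h (w := (-(ob (te_m t)).re)) ?_) (by decide +kernel)
  show _ = -(-(oC * (Real.sinh (te_m t) * sB))); ring

def uBim : Tm := ⟨[-31207305924157531, 8119622792806879, 4069965423090959, 10159107402818, 2546129106856, 3813260756, 637133021, 681581, 85410, 69, 5], 587⟩

theorem uBim_in {t : ℝ} (ht : |t| ≤ 1) : uBim.In t (ob (te_m t)).im := by
  have h : (Tm.mul uOC (Tm.sub (Tm.mul uCh uCB) (Tm.mul uKP uSA))).In t (oC * (((Real.cosh (te_m t)) * cB) - (kp * sA))) :=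
    (Tm.mul_sound ht (uOC_in ht) (Tm.sub_sound (Tm.mul_sound ht (uCh_in ht) (uCB_in ht)) (Tm.mul_sound ht (uKP_in ht) (uSA_in ht))))
  refine Tm.le_sound ht (Tm.conv h (w := (ob (te_m t)).im) ?_) (by decide +kernel)
  rfl

def uR2 : Tm := ⟨[1153898250611528598, -174851998702565, -29469869662335, 58101521713780, 14707284212620, 109371635450, 18419909248, 82153111, 10372955, 34675, 3501, 9], 75⟩

theorem uR2_in {t : ℝ} (ht : |t| ≤ 1) : uR2.In t (1 + Complex.normSq (ob (te_m t))) := by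
  have h : (Tm.add (Tm.cst (1) 0) (Tm.add (Tm.mul uBre uBre) (Tm.mul uBim uBim))).In t (1 + (((-(ob (te_m t)).re) * (-(ob (te_m t)).re)) + ((ob (te_m t)).im * (ob (te_m t)).im))) :=
    (Tm.add_sound (Tm.conv (Tm.cst_sound (1) 0 t) (w := 1) (by norm_num)) (Tm.add_sound (Tm.mul_sound ht (uBre_in ht) (uBre_in ht)) (Tm.mul_sound ht (uBim_in ht) (uBim_in ht))))
  refine Tm.le_sound ht (Tm.conv h (w := (1 + Complex.normSq (ob (te_m t)))) ?_) (by decide +kernel)
  rw [Complex.normSq_apply]; ring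

def uR : Tm := ⟨[1153409774216541021, -87388989556901, -14732007681418, 29037346700642, 7352635064733, 55590627411, 8938668899, -142657753, -19547263, -565407, -53274, 987, 112], 530⟩

theorem uR_in {t : ℝ} (ht : |t| ≤ 1) : uR.In t (oR (te_m t)) := by
  have h : (Tm.sqrt uR2 [1153409774216541021, -87388989556901, -14732007681418, 29037346700642, 7352635064733, 55590627411, 8938668899, -142657753, -19547263, -565407, -53274, 987, 112]).In t (Real.sqrt (1 + Complex.normSq (ob (te_m t)))) :=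
    (Tm.sqrt_sound ht (uR2_in ht) (te_nn (ob (te_m t))) [1153409774216541021, -87388989556901, -14732007681418, 29037346700642, 7352635064733, 55590627411, 8938668899, -142657753, -19547263, -565407, -53274, 987, 112] (by decide +kernel))
  refine Tm.le_sound ht (Tm.conv h (w := (oR (te_m t))) ?_) (by decide +kernel)
  exact (te_oR (te_m t)).symm

def uIR : Tm := ⟨[1152433441694908647, 87315016963254, 14726152895674, -29010536337373, -7350619333025, -57398376563, -8397074022, 509767945, 69059942, 1736488, 151381, -6575, -706], 1810⟩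

theorem uIR_in {t : ℝ} (ht : |t| ≤ 1) : uIR.In t (1 / oR (te_m t)) := by
  have h : (Tm.inv uR [1152433441694908647, 87315016963254, 14726152895674, -29010536337373, -7350619333025, -57398376563, -8397074022, 509767945, 69059942, 1736488, 151381, -6575, -706]).In t (1 / (oR (te_m t))) :=
    (Tm.inv_sound ht (uR_in ht) [1152433441694908647, 87315016963254, 14726152895674, -29010536337373, -7350619333025, -57398376563, -8397074022, 509767945, 69059942, 1736488, 151381, -6575, -706] (by decide +kernel))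
  refine Tm.le_sound ht (Tm.conv h (w := (1 / oR (te_m t))) ?_) (by decide +kernel)
  rfl

def uYr : Tm := ⟨[-151326678521994248, 7743455161708699, 3799022987640515, -72029222191507, -17169360408994, 494049169467, 75163331343, -2990482162, -321071370, 16857264, 1333511, -90284, -5347], 3106⟩

theorem uYr_in {t : ℝ} (ht : |t| ≤ 1) : uYr.In t (oy (te_m t)).re := by
  have h : (Tm.mul (Tm.sub uP0 (Tm.cst (2) 0)) uIS).In t (((kp * Real.cosh (te_m t)) - 2) * (1 / oS (te_m t))) :=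
    (Tm.mul_sound ht (Tm.sub_sound (uP0_in ht) (Tm.conv (Tm.cst_sound (2) 0 t) (w := 2) (by norm_num))) (uIS_in ht))
  refine Tm.le_sound ht (Tm.conv h (w := (oy (te_m t)).re) ?_) (by decide +kernel)
  rw [oy_l1]

def uYi : Tm := ⟨[122609786028265182, 121611912435870689, -1487594519187536, -480590568435979, 11306852770715, 2113941029083, -72070161831, -9138171030, 419255110, 38514963, -2302729, -157596, 11881], 4788⟩

theorem uYi_in {t : ℝ} (ht : |t| ≤ 1) : uYi.In t (oy (te_m t)).im := by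
  have h : (Tm.mul (Tm.mul uS3 (Tm.mul uKP uSh)) uIS).In t ((s3 * (kp * (Real.sinh (te_m t)))) * (1 / oS (te_m t))) :=
    (Tm.mul_sound ht (Tm.mul_sound ht (uS3_in ht) (Tm.mul_sound ht (uKP_in ht) (uSh_in ht))) (uIS_in ht))
  refine Tm.le_sound ht (Tm.conv h (w := (oy (te_m t)).im) ?_) (by decide +kernel)
  rw [oy_l1]

def uVr : Tm := ⟨[-30339150631333886, 9843308313421835, 4906399149182730, -15567922047200, -4283490637534, -235408770656, -39637056427, -155679867, -8937178, 3564499, 384197, 7117, 399], 802⟩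

theorem uVr_in {t : ℝ} (ht : |t| ≤ 1) : uVr.In t (ov (te_m t)).re := by
  have h : (Tm.sub (Tm.cst (0) 0) (Tm.mul (Tm.sub (Tm.mul uBim uAim) (Tm.mul uBre uAre)) uIR)).In t (0 - ((((ob (te_m t)).im * (oa (te_m t)).im) - ((-(ob (te_m t)).re) * (oa (te_m t)).re)) * (1 / oR (te_m t)))) :=
    (Tm.sub_sound (Tm.conv (Tm.cst_sound (0) 0 t) (w := 0) (by norm_num)) (Tm.mul_sound ht (Tm.sub_sound (Tm.mul_sound ht (uBim_in ht) (uAim_in ht)) (Tm.mul_sound ht (uBre_in ht) (uAre_in ht))) (uIR_in ht)))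
  refine Tm.le_sound ht (Tm.conv h (w := (ov (te_m t)).re) ?_) (by decide +kernel)
  exact te_vr (te_m t)

def uVi : Tm := ⟨[14340411859688536, 13796137855278184, -818965985335678, -277237680162049, -3170423833891, -617563437562, 8471955924, 1360790102, 56069309, 6011167, -74020, -10552, -960], 323⟩

theorem uVi_in {t : ℝ} (ht : |t| ≤ 1) : uVi.In t (ov (te_m t)).im := by
  have h : (Tm.sub (Tm.cst (0) 0) (Tm.mul (Tm.add (Tm.mul uBim uAre) (Tm.mul uBre uAim)) uIR)).In t (0 - ((((ob (te_m t)).im * (oa (te_m t)).re) + ((-(ob (te_m t)).re) * (oa (te_m t)).im)) * (1 / oR (te_m t)))) :=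
    (Tm.sub_sound (Tm.conv (Tm.cst_sound (0) 0 t) (w := 0) (by norm_num)) (Tm.mul_sound ht (Tm.add_sound (Tm.mul_sound ht (uBim_in ht) (uAre_in ht)) (Tm.mul_sound ht (uBre_in ht) (uAim_in ht))) (uIR_in ht)))
  refine Tm.le_sound ht (Tm.conv h (w := (ov (te_m t)).im) ?_) (by decide +kernel)
  exact te_vi (te_m t)

def uNr : Tm := ⟨[-30326307246815776, 9836843678023154, 4904680088703310, -14300611532542, -4274439217117, -420537280026, -70851633513, -283955405, -8642734, 9098518, 981588, 18122, 890], 1000⟩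

theorem uNr_in {t : ℝ} (ht : |t| ≤ 1) : uNr.In t (oN (te_m t)).re := by
  have h : (Tm.mul uVr uIR).In t ((ov (te_m t)).re * (1 / oR (te_m t))) :=
    (Tm.mul_sound ht (uVr_in ht) (uIR_in ht))
  refine Tm.le_sound ht (Tm.conv h (w := (oN (te_m t)).re) ?_) (by decide +kernel)
  exact te_nr (te_m t)

def uNi : Tm := ⟨[14334341174787033, 13791383628829584, -817391293541987, -277366967023947, -3639115006569, -689149136555, 19787281361, 3146944660, 118735955, 12417363, -256212, -34000, -2676], 512⟩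

theorem uNi_in {t : ℝ} (ht : |t| ≤ 1) : uNi.In t (oN (te_m t)).im := by
  have h : (Tm.mul uVi uIR).In t ((ov (te_m t)).im * (1 / oR (te_m t))) :=
    (Tm.mul_sound ht (uVi_in ht) (uIR_in ht))
  refine Tm.le_sound ht (Tm.conv h (w := (oN (te_m t)).im) ?_) (by decide +kernel)
  exact te_ni (te_m t)

def uF : Tm := ⟨[1158426397894407927, 1483863343151669, 671688877976690, -70359819351654, -17734137226114, -83545154303, -11417295858, 1110783186, 161297640, 7248924, 606546, -33046, -3077], 1222⟩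

theorem uF_in {t : ℝ} (ht : |t| ≤ 1) : uF.In t (oF (te_m t)) := by
  have h : (Tm.add (Tm.cst (1) 0) (Tm.add (Tm.mul uYr uNr) (Tm.mul uYi uNi))).In t (1 + (((oy (te_m t)).re * (oN (te_m t)).re) + ((oy (te_m t)).im * (oN (te_m t)).im))) :=
    (Tm.add_sound (Tm.conv (Tm.cst_sound (1) 0 t) (w := 1) (by norm_num)) (Tm.add_sound (Tm.mul_sound ht (uYr_in ht) (uNr_in ht)) (Tm.mul_sound ht (uYi_in ht) (uNi_in ht))))
  refine Tm.le_sound ht (Tm.conv h (w := (oF (te_m t))) ?_) (by decide +kernel)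
  rw [oF_eq]; rfl

def uIF : Tm := ⟨[1147442770814755495, -1469794083656229, -663437552101056, 71394748275881, 17769947856044, -44202053290, -4863975917, 1041545052, 111089508, -6071631, -463526, 36000, 2023], 7780⟩

theorem uIF_in {t : ℝ} (ht : |t| ≤ 1) : uIF.In t (1 / oF (te_m t)) := by
  have h : (Tm.inv uF [1147442770814755495, -1469794083656229, -663437552101056, 71394748275881, 17769947856044, -44202053290, -4863975917, 1041545052, 111089508, -6071631, -463526, 36000, 2023]).In t (1 / (oF (te_m t))) :=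
    (Tm.inv_sound ht (uF_in ht) [1147442770814755495, -1469794083656229, -663437552101056, 71394748275881, 17769947856044, -44202053290, -4863975917, 1041545052, 111089508, -6071631, -463526, 36000, 2023] (by decide +kernel))
  refine Tm.le_sound ht (Tm.conv h (w := (1 / oF (te_m t))) ?_) (by decide +kernel)
  rfl

def uQ0 : Tm := ⟨[168209668596946403, 168630379141664184, 631381580059254, 210986911189534, 394985915457, 79194763576, 98839672, 14155268, 13249, 1474], 111⟩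

theorem uQ0_in {t : ℝ} (ht : |t| ≤ 1) : uQ0.In t (kp * Real.sinh (te_m t)) := by
  have h : (Tm.mul uKP uSh).In t (kp * (Real.sinh (te_m t))) :=
    (Tm.mul_sound ht (uKP_in ht) (uSh_in ht))
  refine Tm.le_sound ht (Tm.conv h (w := (kp * Real.sinh (te_m t))) ?_) (by decide +kernel)
  rfl

def uTk : Tm := ⟨[15728399748944713008, 670470560488546787, 339524372373792311, 4298710101858973, 1086710731675032, 7234968087849, 1218375879611, 5388558585, 680389515, 2277788, 230018, 581], 4647⟩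

theorem uTk_in {t : ℝ} (ht : |t| ≤ 1) : uTk.In t (tk (te_m t)).im := by
  have h : (Tm.mul uS3 (Tm.sub (Tm.add (Tm.sub (Tm.sub (Tm.mul uS2 (Tm.cst (12) 0)) (Tm.cst (6) 0)) (Tm.mul (Tm.sub (Tm.cst (3) 0) (Tm.mul uS2 (Tm.cst (3) 2))) uP0)) (Tm.mul (Tm.mul uS2 (Tm.mul uSh uSh)) (Tm.cst (24) 0))) (Tm.mul (Tm.mul uM uQ0) (Tm.cst (6) 0)))).In t (s3 * ((((((Real.sqrt 2) * 12) - 6) - ((3 - ((Real.sqrt 2) * (3 / 4))) * (kp * Real.cosh (te_m t)))) + (((Real.sqrt 2) * ((Real.sinh (te_m t)) * (Real.sinh (te_m t)))) * 24)) - (((te_m t) * (kp * Real.sinh (te_m t))) * 6))) :=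
    (Tm.mul_sound ht (uS3_in ht) (Tm.sub_sound (Tm.add_sound (Tm.sub_sound (Tm.sub_sound (Tm.mul_sound ht (uS2_in ht) (Tm.conv (Tm.cst_sound (12) 0 t) (w := 12) (by norm_num))) (Tm.conv (Tm.cst_sound (6) 0 t) (w := 6) (by norm_num))) (Tm.mul_sound ht (Tm.sub_sound (Tm.conv (Tm.cst_sound (3) 0 t) (w := 3) (by norm_num)) (Tm.mul_sound ht (uS2_in ht) (Tm.conv (Tm.cst_sound (3) 2 t) (w := (3 / 4)) (by norm_num)))) (uP0_in ht))) (Tm.mul_sound ht (Tm.mul_sound ht (uS2_in ht) (Tm.mul_sound ht (uSh_in ht) (uSh_in ht))) (Tm.conv (Tm.cst_sound (24) 0 t) (w := 24) (by norm_num)))) (Tm.mul_sound ht (Tm.mul_sound ht (uM_in ht) (uQ0_in ht)) (Tm.conv (Tm.cst_sound (6) 0 t) (w := 6) (by norm_num)))))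
  refine Tm.le_sound ht (Tm.conv h (w := (tk (te_m t)).im) ?_) (by decide +kernel)
  simp only [tk]; ring

def uPk : Tm := ⟨[-8204527018123817787, -373802988871286559, -188932244596540173, -2034894017182872, -513907788565299, -3116823020151, -524685358977, -2239413864, -282726471, -935070, -94407, -240], 2941⟩

theorem uPk_in {t : ℝ} (ht : |t| ≤ 1) : uPk.In t (pk (te_m t)).im := by
  have h : (Tm.mul (Tm.add (Tm.sub uP0 (Tm.mul (Tm.mul uCh uCh) (Tm.cst (8) 0))) (Tm.cst (4) 0)) (Tm.cst (3) 0)).In t ((((kp * Real.cosh (te_m t)) - (((Real.cosh (te_m t)) * (Real.cosh (te_m t))) * 8)) + 4) * 3) :=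
    (Tm.mul_sound ht (Tm.add_sound (Tm.sub_sound (uP0_in ht) (Tm.mul_sound ht (Tm.mul_sound ht (uCh_in ht) (uCh_in ht)) (Tm.conv (Tm.cst_sound (8) 0 t) (w := 8) (by norm_num)))) (Tm.conv (Tm.cst_sound (4) 0 t) (w := 4) (by norm_num))) (Tm.conv (Tm.cst_sound (3) 0 t) (w := 3) (by norm_num)))
  refine Tm.le_sound ht (Tm.conv h (w := (pk (te_m t)).im) ?_) (by decide +kernel)
  simp only [pk]; ring

def ukc : Tm := ⟨[2191925117071994665], 314⟩

theorem ukc_in {t : ℝ} (ht : |t| ≤ 1) : ukc.In t (oc * (3 * (4 - Real.sqrt 2) / 4)) := by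
  have h : (Tm.mul uoc (Tm.mul (Tm.sub (Tm.cst (4) 0) uS2) (Tm.cst (3) 2))).In t (oc * ((4 - (Real.sqrt 2)) * (3 / 4))) :=
    (Tm.mul_sound ht (uoc_in ht) (Tm.mul_sound ht (Tm.sub_sound (Tm.conv (Tm.cst_sound (4) 0 t) (w := 4) (by norm_num)) (uS2_in ht)) (Tm.conv (Tm.cst_sound (3) 2 t) (w := (3 / 4)) (by norm_num))))
  refine Tm.le_sound ht (Tm.conv h (w := (oc * (3 * (4 - Real.sqrt 2) / 4))) ?_) (by decide +kernel)
  ring

def ukq : Tm := ⟨[52568760878739864, 559316945484258, 280357928780439, 699806021336, 175389077940, 262674931, 43888651, 46950, 5883, 4], 43⟩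

theorem ukq_in {t : ℝ} (ht : |t| ≤ 1) : ukq.In t (oS (te_m t) * s3 * (1 / 27) * (1 / oK) ^ 2) := by
  have h : (Tm.mul (Tm.mul (Tm.mul uS uS3) (Tm.rat 1 27)) (Tm.mul uIK uIK)).In t ((((oS (te_m t)) * s3) * (1 / 27)) * ((1 / oK) * (1 / oK))) :=
    (Tm.mul_sound ht (Tm.mul_sound ht (Tm.mul_sound ht (uS_in ht) (uS3_in ht)) (Tm.conv (Tm.rat_sound 1 (n := 27) (by norm_num) t) (w := (1 / 27)) (by norm_num))) (Tm.mul_sound ht (uIK_in ht) (uIK_in ht)))
  refine Tm.le_sound ht (Tm.conv h (w := (oS (te_m t) * s3 * (1 / 27) * (1 / oK) ^ 2)) ?_) (by decide +kernel)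
  ring

def uqi : Tm := ⟨[5928353881159534, -1769919642050801, -884857132743042, 365417743578, 420960637507, 199438194449, 34638618911, 603066647, 77594157, 740717, 75962, 517, 43], 606⟩

theorem uqi_in {t : ℝ} (ht : |t| ≤ 1) : uqi.In t (qy (te_m t)).im := by
  have h : (Tm.mul (Tm.add uTk (Tm.mul uPk ukc)) ukq).In t (((tk (te_m t)).im + ((pk (te_m t)).im * (oc * (3 * (4 - Real.sqrt 2) / 4)))) * (oS (te_m t) * s3 * (1 / 27) * (1 / oK) ^ 2)) :=
    (Tm.mul_sound ht (Tm.add_sound (uTk_in ht) (Tm.mul_sound ht (uPk_in ht) (ukc_in ht))) (ukq_in ht))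
  refine Tm.le_sound ht (Tm.conv h (w := (qy (te_m t)).im) ?_) (by decide +kernel)
  exact te_qi (te_m t)

def uqn : Tm := ⟨[6549196486076358], 1212⟩

theorem uqn_in (t : ℝ) : uqn.In t (2 * (qy m1).im) := by
  have h := uqi_in (t := 1) (by norm_num)
  rw [te_m_one] at h
  have h2 : |(qy m1).im * 2 ^ 60 - 3274598243038179| ≤ 606 := by
    have e : pv uqi.c 1 = 3274598243038179 := by
      simp only [uqi, pv]
      norm_num
    have h3 : |(qy m1).im * 2 ^ 60 - pv uqi.c 1| ≤ ((606 : ℕ) : ℝ) := h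
    rw [e] at h3
    push_cast at h3
    exact h3
  show |2 * (qy m1).im * 2 ^ 60 - (((6549196486076358 : ℤ) : ℝ) + t * 0)| ≤ ((1212 : ℕ) : ℝ)
  rw [abs_le] at h2 ⊢
  push_cast
  constructor <;> linarith [h2.1, h2.2]

def uhs : Tm := ⟨[927799577591148250], 27⟩

theorem uhs_in {t : ℝ} (ht : |t| ≤ 1) : uhs.In t ((1 + Real.sqrt 2) * (1 / 3)) := by
  have h : (Tm.mul (Tm.add (Tm.cst (1) 0) uS2) (Tm.rat 1 3)).In t ((1 + (Real.sqrt 2)) * (1 / 3)) :=
    (Tm.mul_sound ht (Tm.add_sound (Tm.conv (Tm.cst_sound (1) 0 t) (w := 1) (by norm_num)) (uS2_in ht)) (Tm.conv (Tm.rat_sound 1 (n := 3) (by norm_num) t) (w := (1 / 3)) (by norm_num)))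
  refine Tm.le_sound ht (Tm.conv h (w := ((1 + Real.sqrt 2) * (1 / 3))) ?_) (by decide +kernel)
  rfl

def uPjA : Tm := ⟨[4945779287163456], 990⟩

theorem uPjA_in {t : ℝ} (ht : |t| ≤ 1) : uPjA.In t (pj μA) := by
  have h : (Tm.mul (Tm.add uqn (Tm.cst (-393915931968) 50)) uhs).In t (((2 * (qy m1).im) + (-(393915931968 / 1125899906842624))) * ((1 + Real.sqrt 2) * (1 / 3))) :=
    (Tm.mul_sound ht (Tm.add_sound (uqn_in t) (Tm.conv (Tm.cst_sound (-393915931968) 50 t) (w := (-(393915931968 / 1125899906842624))) (by norm_num))) (uhs_in ht))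
  refine Tm.le_sound ht (Tm.conv h (w := (pj μA)) ?_) (by decide +kernel)
  rw [pj, μA]; ring

def uPjB : Tm := ⟨[21735103696695232], 990⟩

theorem uPjB_in {t : ℝ} (ht : |t| ≤ 1) : uPjB.In t (pj μB) := by
  have h : (Tm.mul (Tm.add uqn (Tm.cst (19980202838080) 50)) uhs).In t (((2 * (qy m1).im) + (19980202838080 / 1125899906842624)) * ((1 + Real.sqrt 2) * (1 / 3))) :=
    (Tm.mul_sound ht (Tm.add_sound (uqn_in t) (Tm.conv (Tm.cst_sound (19980202838080) 50 t) (w := (19980202838080 / 1125899906842624)) (by norm_num))) (uhs_in ht))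
  refine Tm.le_sound ht (Tm.conv h (w := (pj μB)) ?_) (by decide +kernel)
  rw [pj, μB]; ring

theorem TmIn_A {t : ℝ} (ht : |t| ≤ 1) :
    TmIn qA t (fun i => get 0 (l1 μA (m1 * ((1 + t) / 2))) i) := by
  have h0 : (get ⟨[], 0⟩ qA 0).In t ((Real.sqrt 2)) := Tm.le_sound ht (uS2_in ht) (by decide +kernel)
  have h1 : (get ⟨[], 0⟩ qA 1).In t (s3) := Tm.le_sound ht (uS3_in ht) (by decide +kernel)
  have h2 : (get ⟨[], 0⟩ qA 2).In t (kp) := Tm.le_sound ht (uKP_in ht) (by decide +kernel)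
  have h3 : (get ⟨[], 0⟩ qA 3).In t (m1) := Tm.le_sound ht (uM1_in ht) (by decide +kernel)
  have h4 : (get ⟨[], 0⟩ qA 4).In t ((1 / m1)) := Tm.le_sound ht (uIM1_in ht) (by decide +kernel)
  have h5 : (get ⟨[], 0⟩ qA 5).In t (oC) := Tm.le_sound ht (uOC_in ht) (by decide +kernel)
  have h6 : (get ⟨[], 0⟩ qA 6).In t (cB) := Tm.le_sound ht (uCB_in ht) (by decide +kernel)
  have h7 : (get ⟨[], 0⟩ qA 7).In t (sB) := Tm.le_sound ht (uSB_in ht) (by decide +kernel)
  have h8 : (get ⟨[], 0⟩ qA 8).In t (oc) := Tm.le_sound ht (uoc_in ht) (by decide +kernel)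
  have h9 : (get ⟨[], 0⟩ qA 9).In t ((1 / oK)) := Tm.le_sound ht (uIK_in ht) (by decide +kernel)
  have h10 : (get ⟨[], 0⟩ qA 10).In t ((Real.cosh (te_m t))) := Tm.le_sound ht (uCh_in ht) (by decide +kernel)
  have h11 : (get ⟨[], 0⟩ qA 11).In t ((Real.sinh (te_m t))) := Tm.le_sound ht (uSh_in ht) (by decide +kernel)
  have h12 : (get ⟨[], 0⟩ qA 12).In t ((1 / oS (te_m t))) := Tm.le_sound ht (uIS_in ht) (by decide +kernel)
  have h13 : (get ⟨[], 0⟩ qA 13).In t ((oR (te_m t))) := Tm.le_sound ht (uR_in ht) (by decide +kernel)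
  have h14 : (get ⟨[], 0⟩ qA 14).In t ((1 / oR (te_m t))) := Tm.le_sound ht (uIR_in ht) (by decide +kernel)
  have h15 : (get ⟨[], 0⟩ qA 15).In t ((1 / oF (te_m t))) := Tm.le_sound ht (uIF_in ht) (by decide +kernel)
  have h16 : (get ⟨[], 0⟩ qA 16).In t ((1 / 6)) := Tm.le_sound ht (Tm.conv (Tm.rat_sound 1 (n := 6) (by norm_num) t) (w := (1 / 6)) (by norm_num)) (by decide +kernel)
  have h17 : (get ⟨[], 0⟩ qA 17).In t ((1 / 27)) := Tm.le_sound ht (Tm.conv (Tm.rat_sound 1 (n := 27) (by norm_num) t) (w := (1 / 27)) (by norm_num)) (by decide +kernel)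
  have h18 : (get ⟨[], 0⟩ qA 18).In t ((pj μA)) := Tm.le_sound ht (uPjA_in ht) (by decide +kernel)
  exact TmIn_cons (TmIn_cons (TmIn_cons (TmIn_cons (TmIn_cons (TmIn_cons (TmIn_cons (TmIn_cons (TmIn_cons (TmIn_cons (TmIn_cons (TmIn_cons (TmIn_cons (TmIn_cons (TmIn_cons (TmIn_cons (TmIn_cons (TmIn_cons (TmIn_cons (TmIn_nil t) h18) h17) h16) h15) h14) h13) h12) h11) h10) h9) h8) h7) h6) h5) h4) h3) h2) h1) h0

theorem TmIn_B {t : ℝ} (ht : |t| ≤ 1) :
    TmIn qB t (fun i => get 0 (l1 μB (m1 * ((1 + t) / 2))) i) := by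
  have h0 : (get ⟨[], 0⟩ qB 0).In t ((Real.sqrt 2)) := Tm.le_sound ht (uS2_in ht) (by decide +kernel)
  have h1 : (get ⟨[], 0⟩ qB 1).In t (s3) := Tm.le_sound ht (uS3_in ht) (by decide +kernel)
  have h2 : (get ⟨[], 0⟩ qB 2).In t (kp) := Tm.le_sound ht (uKP_in ht) (by decide +kernel)
  have h3 : (get ⟨[], 0⟩ qB 3).In t (m1) := Tm.le_sound ht (uM1_in ht) (by decide +kernel)
  have h4 : (get ⟨[], 0⟩ qB 4).In t ((1 / m1)) := Tm.le_sound ht (uIM1_in ht) (by decide +kernel)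
  have h5 : (get ⟨[], 0⟩ qB 5).In t (oC) := Tm.le_sound ht (uOC_in ht) (by decide +kernel)
  have h6 : (get ⟨[], 0⟩ qB 6).In t (cB) := Tm.le_sound ht (uCB_in ht) (by decide +kernel)
  have h7 : (get ⟨[], 0⟩ qB 7).In t (sB) := Tm.le_sound ht (uSB_in ht) (by decide +kernel)
  have h8 : (get ⟨[], 0⟩ qB 8).In t (oc) := Tm.le_sound ht (uoc_in ht) (by decide +kernel)
  have h9 : (get ⟨[], 0⟩ qB 9).In t ((1 / oK)) := Tm.le_sound ht (uIK_in ht) (by decide +kernel)
  have h10 : (get ⟨[], 0⟩ qB 10).In t ((Real.cosh (te_m t))) := Tm.le_sound ht (uCh_in ht) (by decide +kernel)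
  have h11 : (get ⟨[], 0⟩ qB 11).In t ((Real.sinh (te_m t))) := Tm.le_sound ht (uSh_in ht) (by decide +kernel)
  have h12 : (get ⟨[], 0⟩ qB 12).In t ((1 / oS (te_m t))) := Tm.le_sound ht (uIS_in ht) (by decide +kernel)
  have h13 : (get ⟨[], 0⟩ qB 13).In t ((oR (te_m t))) := Tm.le_sound ht (uR_in ht) (by decide +kernel)
  have h14 : (get ⟨[], 0⟩ qB 14).In t ((1 / oR (te_m t))) := Tm.le_sound ht (uIR_in ht) (by decide +kernel)
  have h15 : (get ⟨[], 0⟩ qB 15).In t ((1 / oF (te_m t))) := Tm.le_sound ht (uIF_in ht) (by decide +kernel)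
  have h16 : (get ⟨[], 0⟩ qB 16).In t ((1 / 6)) := Tm.le_sound ht (Tm.conv (Tm.rat_sound 1 (n := 6) (by norm_num) t) (w := (1 / 6)) (by norm_num)) (by decide +kernel)
  have h17 : (get ⟨[], 0⟩ qB 17).In t ((1 / 27)) := Tm.le_sound ht (Tm.conv (Tm.rat_sound 1 (n := 27) (by norm_num) t) (w := (1 / 27)) (by norm_num)) (by decide +kernel)
  have h18 : (get ⟨[], 0⟩ qB 18).In t ((pj μB)) := Tm.le_sound ht (uPjB_in ht) (by decide +kernel)
  exact TmIn_cons (TmIn_cons (TmIn_cons (TmIn_cons (TmIn_cons (TmIn_cons (TmIn_cons (TmIn_cons (TmIn_cons (TmIn_cons (TmIn_cons (TmIn_cons (TmIn_cons (TmIn_cons (TmIn_cons (TmIn_cons (TmIn_cons (TmIn_cons (TmIn_cons (TmIn_nil t) h18) h17) h16) h15) h14) h13) h12) h11) h10) h9) h8) h7) h6) h5) h4) h3) h2) h1) h0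

end Pool.H61.Rh
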