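import Pool.Agent.H61.Rz.Ax3
import Pool.Agent.H61.Rz.EA
import Pool.Agent.H61.Rz.EB
import Pool.Agent.H61.Rz.Te
import Pool.Agent.H47.Nr.NA0a
import Pool.Agent.H47.Nr.NA0b
import Pool.Agent.H47.Nr.NA1
import Pool.Agent.H47.Nr.NA2
import Pool.Agent.H47.Nr.NAR0
import Pool.Agent.H47.Nr.NAR1
import Pool.Agent.H47.Nr.NAR2
import Pool.Agent.H47.Nr.NB0a
import Pool.Agent.H47.Nr.NB0b
import Pool.Agent.H47.Nr.NB1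
import Pool.Agent.H47.Nr.NB2
import Pool.Agent.H47.Nr.NBR0
import Pool.Agent.H47.Nr.NBR1
import Pool.Agent.H47.Nr.NBR2

/-! # Ax4: the approximations of level 3 for the two data -/

set_option autoImplicit false
set_option maxRecDepth 100000

namespace Pool.H61.Rh

open Complex Pool.H47.Kc Pool.H47.K3

lemma th_mem {m : ℝ} (h0 : 0 ≤ m) (h1 : m ≤ m1) : 0 ≤ m / m1 ∧ m / m1 ≤ 1 ∧
    |2 * (m / m1) - 1| ≤ 1 ∧ (1 + (2 * (m / m1) - 1)) / 2 = m / m1 ∧ m1 * (m / m1) = m := by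
  have hm1 : 0 < m1 := by have := m1_bounds.1; linarith
  have a1 : 0 ≤ m / m1 := div_nonneg h0 hm1.le
  have a2 : m / m1 ≤ 1 := by rw [div_le_one hm1]; exact h1
  refine ⟨a1, a2, ?_, by ring, by field_simp⟩
  rw [abs_le]; constructor <;> linarith

/-- enclosure of the symbols, `A` -/
theorem enA {m : ℝ} (h0 : 0 ≤ m) (h1 : m ≤ m1) : Encl81 SyA (dA.pt m) (m / m1) := by
  obtain ⟨-, -, ht, e1, e2⟩ := th_mem h0 h1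
  have h := EnclA ht (TmIn_A ht)
  rw [e1, e2] at h
  exact h

theorem TA0E : Tab LA0E (16 * LA0E_L.length) := Tab_of LA0E_L (by decide +kernel)

theorem TA0R : Tab LA0R (16 * LA0R_L.length) := Tab_of LA0R_L (by decide +kernel)

theorem TA1E : Tab LA1E (16 * LA1E_L.length) := Tab_of LA1E_L (by decide +kernel)

theorem TA1R : Tab LA1R (16 * LA1R_L.length) := Tab_of LA1R_L (by decide +kernel)

theorem TA2E : Tab LA2E (16 * LA2E_L.length) := Tab_of LA2E_L (by decide +kernel)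

theorem TA2R : Tab LA2R (16 * LA2R_L.length) := Tab_of LA2R_L (by decide +kernel)

theorem ApxA0 {m : ℝ} (h0 : 0 ≤ m) (h1 : m ≤ m1) (x : ℂ) (hx1 : |x.re| ≤ 9 / 8)
    (hx2 : |x.im| ≤ 9 / 8) (hd : 1 - 2 * dt (uu 0) (oy m + x) ≠ 0) :
    (dA.pt m).Apx x (Vx (oy m + x) 0) (1 - 2 * dt (uu 0) (oy m + x))
      (E0h (nomF LA0E (m / m1)) 0 x.re x.im x.re x.im)
      ⟨G0h (nomF LA0E (m / m1)) 33 x.re x.im x.re x.im,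
        G0h (nomF LA0E (m / m1)) 77 x.re x.im x.re x.im⟩
      (C3f (nomF LA0R (m / m1)) 0 x.re x.im)
      ⟨Q3f (nomF LA0R (m / m1)) 36 x.re x.im, Q3f (nomF LA0R (m / m1)) 64 x.re x.im⟩
      (Y3f (nomF LA0R (m / m1)) 92 x.re x.im) (normSq x / 2 ^ 20) (‖x‖ / 2 ^ 18) (1 / 2 ^ 14)
      (1 / 2 ^ 13) (1 / 2 ^ 16) := by
  obtain ⟨t0, t1, -, -, -⟩ := th_mem h0 h1
  exact Apx0 (reg_pt dA m) TA0E TA0R (enA h0 h1) x hd hx1 hx2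
    (fun r s hr hs β hb => nrm_A0a t0 t1 hr hs hb)
    (fun r s hr hs β hb => nrm_A0b t0 t1 hr hs hb)
    (fun β hb => nrm_AR0 t0 t1 hx1 hx2 hb)

theorem ApxA1 {m : ℝ} (h0 : 0 ≤ m) (h1 : m ≤ m1) (x : ℂ) (hx1 : |x.re| ≤ 9 / 8)
    (hx2 : |x.im| ≤ 9 / 8) (hd : 1 - 2 * dt (uu 1) (oy m + x) ≠ 0) :
    (dA.pt m).Apx x (Vx (oy m + x) 1) (1 - 2 * dt (uu 1) (oy m + x))
      (E1f (nomF LA1E (m / m1)) 0 x.re x.im)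
      ⟨G1f (nomF LA1E (m / m1)) 36 x.re x.im, G1f (nomF LA1E (m / m1)) 81 x.re x.im⟩
      (C3f (nomF LA1R (m / m1)) 0 x.re x.im)
      ⟨Q3f (nomF LA1R (m / m1)) 36 x.re x.im, Q3f (nomF LA1R (m / m1)) 64 x.re x.im⟩
      (Y3f (nomF LA1R (m / m1)) 92 x.re x.im) (1 / 2 ^ 20) (1 / 2 ^ 18) (1 / 2 ^ 14) (1 / 2 ^ 13)
      (1 / 2 ^ 16) := by
  obtain ⟨t0, t1, -, -, -⟩ := th_mem h0 h1
  exact Apx1 (reg_pt dA m) TA1E TA1R (enA h0 h1) x hd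
    (fun β hb => nrm_A1 t0 t1 hx1 hx2 hb)
    (fun β hb => nrm_AR1 t0 t1 hx1 hx2 hb)

theorem ApxA2 {m : ℝ} (h0 : 0 ≤ m) (h1 : m ≤ m1) (x : ℂ) (hx1 : |x.re| ≤ 9 / 8)
    (hx2 : |x.im| ≤ 9 / 8) (hd : 1 - 2 * dt (uu 2) (oy m + x) ≠ 0) :
    (dA.pt m).Apx x (Vx (oy m + x) 2) (1 - 2 * dt (uu 2) (oy m + x))
      (E1f (nomF LA2E (m / m1)) 0 x.re x.im)
      ⟨G1f (nomF LA2E (m / m1)) 36 x.re x.im, G1f (nomF LA2E (m / m1)) 81 x.re x.im⟩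
      (C3f (nomF LA2R (m / m1)) 0 x.re x.im)
      ⟨Q3f (nomF LA2R (m / m1)) 36 x.re x.im, Q3f (nomF LA2R (m / m1)) 64 x.re x.im⟩
      (Y3f (nomF LA2R (m / m1)) 92 x.re x.im) (1 / 2 ^ 20) (1 / 2 ^ 18) (1 / 2 ^ 14) (1 / 2 ^ 13)
      (1 / 2 ^ 16) := by
  obtain ⟨t0, t1, -, -, -⟩ := th_mem h0 h1
  exact Apx2 (reg_pt dA m) TA2E TA2R (enA h0 h1) x hd
    (fun β hb => nrm_A2 t0 t1 hx1 hx2 hb)
    (fun β hb => nrm_AR2 t0 t1 hx1 hx2 hb)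

/-- enclosure of the symbols, `B` -/
theorem enB {m : ℝ} (h0 : 0 ≤ m) (h1 : m ≤ m1) : Encl81 SyB (dB.pt m) (m / m1) := by
  obtain ⟨-, -, ht, e1, e2⟩ := th_mem h0 h1
  have h := EnclB ht (TmIn_B ht)
  rw [e1, e2] at h
  exact h

theorem TB0E : Tab LB0E (16 * LB0E_L.length) := Tab_of LB0E_L (by decide +kernel)

theorem TB0R : Tab LB0R (16 * LB0R_L.length) := Tab_of LB0R_L (by decide +kernel)

theorem TB1E : Tab LB1E (16 * LB1E_L.length) := Tab_of LB1E_L (by decide +kernel)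

theorem TB1R : Tab LB1R (16 * LB1R_L.length) := Tab_of LB1R_L (by decide +kernel)

theorem TB2E : Tab LB2E (16 * LB2E_L.length) := Tab_of LB2E_L (by decide +kernel)

theorem TB2R : Tab LB2R (16 * LB2R_L.length) := Tab_of LB2R_L (by decide +kernel)

theorem ApxB0 {m : ℝ} (h0 : 0 ≤ m) (h1 : m ≤ m1) (x : ℂ) (hx1 : |x.re| ≤ 9 / 8)
    (hx2 : |x.im| ≤ 9 / 8) (hd : 1 - 2 * dt (uu 0) (oy m + x) ≠ 0) :
    (dB.pt m).Apx x (Vx (oy m + x) 0) (1 - 2 * dt (uu 0) (oy m + x))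
      (E0h (nomF LB0E (m / m1)) 0 x.re x.im x.re x.im)
      ⟨G0h (nomF LB0E (m / m1)) 33 x.re x.im x.re x.im,
        G0h (nomF LB0E (m / m1)) 77 x.re x.im x.re x.im⟩
      (C3f (nomF LB0R (m / m1)) 0 x.re x.im)
      ⟨Q3f (nomF LB0R (m / m1)) 36 x.re x.im, Q3f (nomF LB0R (m / m1)) 64 x.re x.im⟩
      (Y3f (nomF LB0R (m / m1)) 92 x.re x.im) (normSq x / 2 ^ 20) (‖x‖ / 2 ^ 18) (1 / 2 ^ 14)
      (1 / 2 ^ 13) (1 / 2 ^ 16) := by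
  obtain ⟨t0, t1, -, -, -⟩ := th_mem h0 h1
  exact Apx0 (reg_pt dB m) TB0E TB0R (enB h0 h1) x hd hx1 hx2
    (fun r s hr hs β hb => nrm_B0a t0 t1 hr hs hb)
    (fun r s hr hs β hb => nrm_B0b t0 t1 hr hs hb)
    (fun β hb => nrm_BR0 t0 t1 hx1 hx2 hb)

theorem ApxB1 {m : ℝ} (h0 : 0 ≤ m) (h1 : m ≤ m1) (x : ℂ) (hx1 : |x.re| ≤ 9 / 8)
    (hx2 : |x.im| ≤ 9 / 8) (hd : 1 - 2 * dt (uu 1) (oy m + x) ≠ 0) :
    (dB.pt m).Apx x (Vx (oy m + x) 1) (1 - 2 * dt (uu 1) (oy m + x))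
      (E1f (nomF LB1E (m / m1)) 0 x.re x.im)
      ⟨G1f (nomF LB1E (m / m1)) 36 x.re x.im, G1f (nomF LB1E (m / m1)) 81 x.re x.im⟩
      (C3f (nomF LB1R (m / m1)) 0 x.re x.im)
      ⟨Q3f (nomF LB1R (m / m1)) 36 x.re x.im, Q3f (nomF LB1R (m / m1)) 64 x.re x.im⟩
      (Y3f (nomF LB1R (m / m1)) 92 x.re x.im) (1 / 2 ^ 20) (1 / 2 ^ 18) (1 / 2 ^ 14) (1 / 2 ^ 13)
      (1 / 2 ^ 16) := by
  obtain ⟨t0, t1, -, -, -⟩ := th_mem h0 h1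
  exact Apx1 (reg_pt dB m) TB1E TB1R (enB h0 h1) x hd
    (fun β hb => nrm_B1 t0 t1 hx1 hx2 hb)
    (fun β hb => nrm_BR1 t0 t1 hx1 hx2 hb)

theorem ApxB2 {m : ℝ} (h0 : 0 ≤ m) (h1 : m ≤ m1) (x : ℂ) (hx1 : |x.re| ≤ 9 / 8)
    (hx2 : |x.im| ≤ 9 / 8) (hd : 1 - 2 * dt (uu 2) (oy m + x) ≠ 0) :
    (dB.pt m).Apx x (Vx (oy m + x) 2) (1 - 2 * dt (uu 2) (oy m + x))
      (E1f (nomF LB2E (m / m1)) 0 x.re x.im)
      ⟨G1f (nomF LB2E (m / m1)) 36 x.re x.im, G1f (nomF LB2E (m / m1)) 81 x.re x.im⟩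
      (C3f (nomF LB2R (m / m1)) 0 x.re x.im)
      ⟨Q3f (nomF LB2R (m / m1)) 36 x.re x.im, Q3f (nomF LB2R (m / m1)) 64 x.re x.im⟩
      (Y3f (nomF LB2R (m / m1)) 92 x.re x.im) (1 / 2 ^ 20) (1 / 2 ^ 18) (1 / 2 ^ 14) (1 / 2 ^ 13)
      (1 / 2 ^ 16) := by
  obtain ⟨t0, t1, -, -, -⟩ := th_mem h0 h1
  exact Apx2 (reg_pt dB m) TB2E TB2R (enB h0 h1) x hd
    (fun β hb => nrm_B2 t0 t1 hx1 hx2 hb)
    (fun β hb => nrm_BR2 t0 t1 hx1 hx2 hb)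

end Pool.H61.Rh
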