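import Pool.Agent.H61.Rz.Fin
import Pool.Agent.H81.Lv.Zh

/-! # Rein: the bound of the Reinhardt system with the sharp constant -/

set_option autoImplicit false

namespace Pool.H61.Rh

/-- the sharp bound -/
theorem rsBound_cR : RSBound ((8 - Real.sqrt 32 - Real.log 2) / (Real.sqrt 8 - 1)) :=
  rs_of_zones hqA (zhA ytOk) (zhB ytOk)

end Pool.H61.Rh

namespace Pool.H61.Sm

/-- lattice packing densities of a symmetric convex body: the lower bound and the smoothed octagon -/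
theorem reinhardt :
    (∀ K : Set (ℝ × ℝ), Convex ℝ K → IsCompact K → (interior K).Nonempty →
        (∀ x ∈ K, -x ∈ K) →
        (8 - Real.sqrt 32 - Real.log 2) / (Real.sqrt 8 - 1) ≤
          sSup {d : ℝ | ∃ v w : ℝ × ℝ, v.1 * w.2 - v.2 * w.1 ≠ 0 ∧
            (∀ m n : ℤ, ¬ (m = 0 ∧ n = 0) →
              ∀ x ∈ interior K, x + ((m : ℝ) • v + (n : ℝ) • w) ∉ interior K) ∧
            d = (MeasureTheory.volume K).toReal / |v.1 * w.2 - v.2 * w.1|}) ∧
    (∃ K : Set (ℝ × ℝ), Convex ℝ K ∧ IsCompact K ∧ (interior K).Nonempty ∧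
        (∀ x ∈ K, -x ∈ K) ∧
        sSup {d : ℝ | ∃ v w : ℝ × ℝ, v.1 * w.2 - v.2 * w.1 ≠ 0 ∧
            (∀ m n : ℤ, ¬ (m = 0 ∧ n = 0) →
              ∀ x ∈ interior K, x + ((m : ℝ) • v + (n : ℝ) • w) ∉ interior K) ∧
            d = (MeasureTheory.volume K).toReal / |v.1 * w.2 - v.2 * w.1|} =
          (8 - Real.sqrt 32 - Real.log 2) / (Real.sqrt 8 - 1)) :=
  main Rh.rsBound_cR

end Pool.H61.Sm
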