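import Pool.Agent.H61.Re.Z0

/-! # Fi: the main inequality as a predicate -/

set_option autoImplicit false

namespace Pool.H61.Rh

open Complex

/-- the main inequality at `x` -/
def Pt.FI (P : Pt) (Rm : ℝ) (x : ℂ) (j : Fin 3) : Prop :=
  0 ≤ (4 * Rm * P.f x ^ 4
      * (P.Eh x (Vx (P.ys + x) j) - 1 / 8192 * normSq x * P.f x ^ 2)
      - normSq (P.Gh x (Vx (P.ys + x) j))) * (1 - 2 * dt (uu j) (P.ys + x)) ^ 2

end Pool.H61.Rh
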