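import Pool.Agent.H61.Rz.Rr
import Pool.Agent.H61.Rz.En
import Pool.Agent.H81.Lv.Hr
import Pool.Agent.H47.K3.Ops

/-! # Ax0: general facts for the level-3 approximations -/

set_option autoImplicit false

namespace Pool.H61.Rh

open Complex

theorem EG_eq (P : Pt) (hfv : P.fvs = P.fv P.ys) (r : ℝ) (X T U η : ℂ) (d : ℝ)
    (hT : ((r ^ 2 : ℝ) : ℂ) * T = (d : ℂ) * (η - P.V0 - P.DV (X * (r : ℂ))))
    (hU : (r : ℂ) * U = (d : ℂ) * (η - ((P.fr r X / P.fs : ℝ) : ℂ) * P.V0)) :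
    12 * (d * P.Eh (X * (r : ℂ)) η) = r ^ 2 * P.E12 r X T U d ∧
      6 * ((d : ℂ) * P.Gh (X * (r : ℂ)) η) = (r : ℂ) * P.G6 r X T U d := by
  have e1 : dt P.ns (X * (r : ℂ)) = r * dt P.ns X := by rw [mul_comm X, dt_smul_right']
  have e2 : dt P.sa (X * (r : ℂ)) = r * dt P.sa X := by rw [mul_comm X, dt_smul_right']
  -- second order part
  have hX : d * P.X (X * (r : ℂ)) η = r ^ 2 * P.Xr r X T U d := by
    have a1 : d * dt P.a (η - P.V0 - P.DV (X * (r : ℂ))) = r ^ 2 * dt P.a T := by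
      rw [← dt_smul_right', ← hT, dt_smul_right']
    have a2 : d * dt (VAx P.c (X * (r : ℂ))) (η - ((P.fr r X / P.fs : ℝ) : ℂ) * P.V0)
        = r ^ 2 * dt (VAxr P.c r X) U := by
      rw [← dt_smul_right', ← hU, VAx_scale, dt_smul_right', dt_smul_left']; ring
    have a3 : dt (VB P.c (X * (r : ℂ))) (I * P.M (X * (r : ℂ)))
        = r ^ 2 * dt (VBr P.c r X) (I * P.M X) := by
      rw [VB_scale, M_scale, show I * ((r : ℂ) * P.M X) = (r : ℂ) * (I * P.M X) by ring,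
        dt_smul_right', dt_smul_left']; ring
    rw [Pt.X, f_scale, e1, e2, VA_scale, a3]
    calc d * (-dt P.a (η - P.V0 - P.DV (X * (r : ℂ))) - r * dt P.ns X * (r * dt P.sa X)
          - P.fr r X * (r ^ 2 * VAr P.cs r X)
          - dt (VAx P.c (X * (r : ℂ))) (η - ((P.fr r X / P.fs : ℝ) : ℂ) * P.V0)
          + r ^ 2 * dt (VBr P.c r X) (I * P.M X))
        = -(d * dt P.a (η - P.V0 - P.DV (X * (r : ℂ))))
          - d * (r * dt P.ns X * (r * dt P.sa X)) - d * (P.fr r X * (r ^ 2 * VAr P.cs r X))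
          - d * dt (VAx P.c (X * (r : ℂ))) (η - ((P.fr r X / P.fs : ℝ) : ℂ) * P.V0)
          + d * (r ^ 2 * dt (VBr P.c r X) (I * P.M X)) := by ring
      _ = r ^ 2 * P.Xr r X T U d := by rw [a1, a2, Pt.Xr]; ring
  -- gradient part
  have hG : (d : ℂ) * P.G (X * (r : ℂ)) η
      = (r : ℂ) * (P.Hr r X * (d : ℂ) - VBd P.c (X * (r : ℂ)) U) := by
    have b1 : (d : ℂ) * VBd P.c (X * (r : ℂ)) (η - ((P.fr r X / P.fs : ℝ) : ℂ) * P.V0)
        = (r : ℂ) * VBd P.c (X * (r : ℂ)) U := by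
      rw [← VBd_smul, ← hU, VBd_smul]
    have b2 : dt (VAx P.c (X * (r : ℂ))) P.V0 / P.fs
        = r * dt (VAxr P.c r X) (P.V0 / (P.fs : ℂ)) := by
      rw [VAx_scale, dt_smul_left', div_eq_inv_mul P.V0, ← ofReal_inv, dt_smul_right']; ring
    have b3 : P.ZT (P.ys + X * (r : ℂ)) P.b - P.ZT P.ys P.b = (r : ℂ) * P.ZT X P.b := by
      rw [ZT_add_left, mul_comm X, ZT_smul_left]; ring
    have b4 : P.ZT (P.ys + X * (r : ℂ)) (VB P.c (X * (r : ℂ)))
        = (r : ℂ) * P.ZT (P.yr r X) (VBr P.c r X) := by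
      rw [VB_scale, ZT_smul_right]; rfl
    have b5 : P.fv (P.ys + X * (r : ℂ)) - P.fvs = (r : ℂ) * P.fv X + (P.fv P.ys - P.fvs) := by
      rw [fv_add, mul_comm X, fv_smul]; ring
    have b6 : P.G (X * (r : ℂ)) η
        = (r : ℂ) * (P.L X - ((dt P.sa X + VAr P.cs r X * r
            - dt (VAxr P.c r X) (P.V0 / (P.fs : ℂ)) : ℝ) : ℂ) * P.fv (P.yr r X)
          - (VBr P.cs r X + 2 * I * VBr P.c r X) * (P.fr r X : ℂ)
          - P.ZT (P.yr r X) (VBr P.c r X))
          - VBd P.c (X * (r : ℂ)) (η - ((P.fr r X / P.fs : ℝ) : ℂ) * P.V0) := by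
      rw [Pt.G, b5, b4, b3, b2, f_scale, M_scale, VA_scale, VB_scale, VB_scale, e1, e2, hfv, Pt.L,
        Pt.yr]
      push_cast
      ring
    rw [b6, Pt.Hr, mul_sub, b1]
    ring
  have hM : normSq (P.M (X * (r : ℂ))) = r ^ 2 * normSq (P.M X) := by
    rw [M_scale, normSq_mul, normSq_ofReal]; ring
  have hE : 12 * (d * P.Eh (X * (r : ℂ)) η) = r ^ 2 * P.E12 r X T U d := by
    rw [Pt.Eh, hM, f_scale, Pt.E12]
    linear_combination 12 * P.fr r X * hX
  have hGh : 6 * ((d : ℂ) * P.Gh (X * (r : ℂ)) η) = (r : ℂ) * P.G6 r X T U d := by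
    have c1 : P.ZT (P.ys + X * (r : ℂ)) (I * P.M (X * (r : ℂ)))
        = (r : ℂ) * P.ZT (P.yr r X) (I * P.M X) := by
      rw [M_scale, show I * ((r : ℂ) * P.M X) = (r : ℂ) * (I * P.M X) by ring, ZT_smul_right]; rfl
    have hXc : (d : ℂ) * (P.X (X * (r : ℂ)) η : ℂ) = (r : ℂ) ^ 2 * (P.Xr r X T U d : ℂ) := by
      exact_mod_cast congrArg (fun t : ℝ => (t : ℂ)) hX
    rw [Pt.Gh, c1, hM, f_scale, Pt.G6, show P.ys + X * (r : ℂ) = P.yr r X from rfl]
    push_cast
    linear_combination 6 * (P.fr r X : ℂ) ^ 2 * hG - 6 * (P.fr r X : ℂ) * P.fv (P.yr r X) * hXc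
  exact ⟨hE, hGh⟩

/-! ### Horner forms -/

lemma hr_congr {β β' : ℕ → ℝ} {x : ℝ} {n : ℕ} : ∀ {i i' : ℕ},
    (∀ k, β (i + k) = β' (i' + k)) → hr β x i n = hr β' x i' n := by
  induction n with
  | zero => intro i i' _; rfl
  | succ n ih =>
    intro i i' h
    cases n with
    | zero => exact h 0
    | succ n =>
      have h0 : β i = β' i' := h 0
      have h1 : hr β x (i + 1) (n + 1) = hr β' x (i' + 1) (n + 1) := ih (fun k => by
        have := h (k + 1)
        have e1 : i + 1 + k = i + (k + 1) := by ring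
        have e2 : i' + 1 + k = i' + (k + 1) := by ring
        rw [e1, e2]; exact this)
      show β i + x * hr β x (i + 1) (n + 1) = β' i' + x * hr β' x (i' + 1) (n + 1)
      rw [h0, h1]

lemma hr2_congr {β β' : ℕ → ℝ} {x y : ℝ} {n : ℕ} : ∀ {i i' : ℕ},
    (∀ k, β (i + k) = β' (i' + k)) → hr2 β x y i n = hr2 β' x y i' n := by
  induction n with
  | zero => intro i i' h; exact h 0
  | succ n ih =>
    intro i i' h
    show hr β x i (n + 2) + y * hr2 β x y (i + (n + 2)) n =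
      hr β' x i' (n + 2) + y * hr2 β' x y (i' + (n + 2)) n
    rw [hr_congr h, ih (i := i + (n + 2)) (i' := i' + (n + 2)) (fun k => by
      have := h (n + 2 + k)
      have e1 : i + (n + 2) + k = i + (n + 2 + k) := by ring
      have e2 : i' + (n + 2) + k = i' + (n + 2 + k) := by ring
      rw [e1, e2]; exact this)]

lemma E0h_congr {β β' : ℕ → ℝ} {x y X Y : ℝ} {i i' : ℕ} (h : ∀ k, β (i + k) = β' (i' + k)) :
    E0h β i x y X Y = E0h β' i' x y X Y := by
  have hs : ∀ j k, β (i + j + k) = β' (i' + j + k) := by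
    intro j k
    rw [add_assoc, add_assoc]; exact h _
  unfold E0h
  rw [hr2_congr h, hr_congr (hs 21), hr_congr (hs 27)]

lemma G0h_congr {β β' : ℕ → ℝ} {x y X Y : ℝ} {i i' : ℕ} (h : ∀ k, β (i + k) = β' (i' + k)) :
    G0h β i x y X Y = G0h β' i' x y X Y := by
  have hs : ∀ j k, β (i + j + k) = β' (i' + j + k) := by
    intro j k
    rw [add_assoc, add_assoc]; exact h _
  unfold G0h
  rw [hr2_congr h, hr_congr (hs 36)]

lemma E0h_scale (β : ℕ → ℝ) (i : ℕ) (x y X Y r : ℝ) :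
    r ^ 2 * E0h β i x y X Y = E0h β i x y (r * X) (r * Y) := by
  unfold E0h; ring

lemma G0h_scale (β : ℕ → ℝ) (i : ℕ) (x y X Y r : ℝ) :
    r * G0h β i x y X Y = G0h β i x y (r * X) (r * Y) := by
  unfold G0h; ring

/-! ### tables -/

open Pool.H47.Kc Pool.H47.K3

lemma get_big {α : Type} (d : α) : ∀ (l : List α) (k : ℕ), l.length ≤ k → Pool.H47.Kc.get d l k = d
  | [], _, _ => by cases ‹ℕ› <;> rfl
  | _ :: l, 0, h => absurd h (by simp)
  | _ :: l, k + 1, h => get_big d l k (by simpa using h)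

lemma sym16_big (L : List (List Sym)) (k : ℕ) (h : 16 * L.length ≤ k) : sym16 L k = ⟨[], 0⟩ := by
  have h1 : L.length ≤ k / 16 := by omega
  have e : sym16 L k = get2 ⟨[], 0⟩ (get2 [] L (k / 16)) (k % 16) := rfl
  rw [e, get2_eq, get2_eq, get_big [] L _ h1]
  exact get_big _ _ _ (Nat.zero_le _)

/-- all symbols are exact -/
def exL (L : List (List Sym)) : Bool := L.all (fun b => b.all (fun s => Nat.beq s.eps 0))

lemma get_all {α : Type} (d : α) (p : α → Bool) (hd : p d = true) : ∀ (l : List α),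
    l.all p = true → ∀ k, p (Pool.H47.Kc.get d l k) = true
  | [], _, k => by cases k <;> exact hd
  | a :: l, h, 0 => by
    rw [List.all_cons, Bool.and_eq_true] at h; exact h.1
  | a :: l, h, k + 1 => by
    rw [List.all_cons, Bool.and_eq_true] at h; exact get_all d p hd l h.2 k

lemma sym16_ex (L : List (List Sym)) (h : exL L = true) (k : ℕ) : (sym16 L k).eps = 0 := by
  have e : sym16 L k = get2 ⟨[], 0⟩ (get2 [] L (k / 16)) (k % 16) := rfl
  rw [e, get2_eq, get2_eq]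
  have h1 := get_all ([] : List Sym) (fun b => b.all (fun s => Nat.beq s.eps 0)) rfl L h (k / 16)
  have h2 := get_all (⟨[], 0⟩ : Sym) (fun s => Nat.beq s.eps 0) rfl _ h1 (k % 16)
  exact Nat.eq_of_beq_eq_true h2

/-! ### values of outputs -/

lemma outs_of_OutEq {st : List ℝ} : ∀ {o : List ℕ} {v : List ℝ}, OutEq st o v →
    o.map (fun k => Pool.H47.Kc.get 0 st k) = v
  | [], [], _ => rfl
  | [], _ :: _, h => h.elim
  | _ :: _, [], h => h.elim
  | a :: o, b :: v, h => by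
    rw [List.map_cons, h.1, outs_of_OutEq h.2]

lemma val_of_OutEq (Q : Prg) (β : ℕ → ℝ) (x y : ℝ) {v : List ℝ}
    (h : OutEq (run (realAlg β x y) Q.P []) Q.o v) (k : ℕ) :
    Q.val (realAlg β x y) k = get2 0 v k := by
  have e : Q.f (realAlg β x y) = v := by
    rw [Q.h]; exact outs_of_OutEq h
  show get2 0 (Q.f (realAlg β x y)) k = _
  rw [e]

end Pool.H61.Rh
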