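import Pool.Agent.H61.Rz.Ax0
import Pool.Agent.H61.Re.L3

/-! # Ax1: from the values of the difference programs to `Pt.Apx` -/

set_option autoImplicit false

namespace Pool.H61.Rh

open Complex

lemma nrm2_le {z : ℂ} {t : ℝ} (ht : 0 ≤ t) (h1 : |z.re| ≤ 106 / 25 / 6 * t)
    (h2 : |z.im| ≤ 106 / 25 / 6 * t) : ‖z‖ ≤ t := by
  have a1 : z.re ^ 2 ≤ (106 / 25 / 6 * t) ^ 2 := by
    rw [← sq_abs z.re]; exact pow_le_pow_left₀ (abs_nonneg _) h1 2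
  have a2 : z.im ^ 2 ≤ (106 / 25 / 6 * t) ^ 2 := by
    rw [← sq_abs z.im]; exact pow_le_pow_left₀ (abs_nonneg _) h2 2
  have h : ‖z‖ ^ 2 ≤ t ^ 2 := by
    rw [← normSq_eq_norm_sq, normSq_apply]
    nlinarith [sq_nonneg t]
  exact le_of_sq_le_sq h ht

lemma nrm2_le' {z : ℂ} {t : ℝ} (ht : 0 ≤ t) (h1 : |z.re| ≤ 707 / 1000 * t)
    (h2 : |z.im| ≤ 707 / 1000 * t) : ‖z‖ ≤ t := by
  have a1 : z.re ^ 2 ≤ (707 / 1000 * t) ^ 2 := by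
    rw [← sq_abs z.re]; exact pow_le_pow_left₀ (abs_nonneg _) h1 2
  have a2 : z.im ^ 2 ≤ (707 / 1000 * t) ^ 2 := by
    rw [← sq_abs z.im]; exact pow_le_pow_left₀ (abs_nonneg _) h2 2
  have h : ‖z‖ ^ 2 ≤ t ^ 2 := by
    rw [← normSq_eq_norm_sq, normSq_apply]
    nlinarith [sq_nonneg t]
  exact le_of_sq_le_sq h ht

/-- the conversions for the main inequality -/
lemma EG_conv {Eh D E E12 r : ℝ} {Gh G6 : ℂ} {G1 G2 : ℝ} (hE : 12 * (D * Eh) = r ^ 2 * E12)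
    (hG : 6 * ((D : ℂ) * Gh) = (r : ℂ) * G6) (h0 : |E12 - 12 * E| ≤ 12 / 2 ^ 20)
    (h1 : |G6.re - 6 * G1| ≤ 106 / 25 / 2 ^ 18) (h2 : |G6.im - 6 * G2| ≤ 106 / 25 / 2 ^ 18) :
    |Eh * D - r ^ 2 * E| ≤ r ^ 2 / 2 ^ 20 ∧ ‖Gh * (D : ℂ) - (r : ℂ) * ⟨G1, G2⟩‖ ≤ |r| / 2 ^ 18 := by
  constructor
  · have e : Eh * D - r ^ 2 * E = r ^ 2 / 12 * (E12 - 12 * E) := by linarith
    rw [e, abs_mul, abs_of_nonneg (by positivity : 0 ≤ r ^ 2 / 12)]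
    calc r ^ 2 / 12 * |E12 - 12 * E| ≤ r ^ 2 / 12 * (12 / 2 ^ 20) :=
          mul_le_mul_of_nonneg_left h0 (by positivity)
      _ = _ := by ring
  · have e : Gh * (D : ℂ) - (r : ℂ) * ⟨G1, G2⟩ = ((r / 6 : ℝ) : ℂ) * (G6 - 6 * ⟨G1, G2⟩) := by
      push_cast
      linear_combination (1 / 6 : ℂ) * hG
    have hre : (((r / 6 : ℝ) : ℂ) * (G6 - 6 * ⟨G1, G2⟩)).re = r / 6 * (G6.re - 6 * G1) := by
      rw [re_ofReal_mul]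
      simp
    have him : (((r / 6 : ℝ) : ℂ) * (G6 - 6 * ⟨G1, G2⟩)).im = r / 6 * (G6.im - 6 * G2) := by
      rw [im_ofReal_mul]
      simp
    rw [e]
    apply nrm2_le (by positivity)
    · rw [hre, abs_mul, abs_div, abs_of_pos (by norm_num : (0 : ℝ) < 6)]
      calc |r| / 6 * |G6.re - 6 * G1| ≤ |r| / 6 * (106 / 25 / 2 ^ 18) :=
            mul_le_mul_of_nonneg_left h1 (by positivity)
        _ = _ := by ring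
    · rw [him, abs_mul, abs_div, abs_of_pos (by norm_num : (0 : ℝ) < 6)]
      calc |r| / 6 * |G6.im - 6 * G2| ≤ |r| / 6 * (106 / 25 / 2 ^ 18) :=
            mul_le_mul_of_nonneg_left h2 (by positivity)
        _ = _ := by ring

/-- `j = 1, 2`, plain coordinates -/
theorem apxE_j (P : Pt) (hfv : P.fvs = P.fv P.ys) (hf : P.fs ≠ 0) (j : Fin 3) (x : ℂ)
    (hd : 1 - 2 * dt (uu j) (P.ys + x) ≠ 0) (E G1 G2 : ℝ)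
    (h0 : |P.E12 1 x
      (ηd j (P.ys + x) - (P.V0 + P.DV x) * ((1 - 2 * dt (uu j) (P.ys + x) : ℝ) : ℂ))
      (ηd j (P.ys + x) - P.V0 / (P.fs : ℂ)
        * (((1 - 2 * dt (uu j) (P.ys + x)) * (P.fs + dt P.ns x) : ℝ) : ℂ))
      (1 - 2 * dt (uu j) (P.ys + x)) - 12 * E| ≤ 12 / 2 ^ 20)
    (h1 : |(P.G6 1 x
      (ηd j (P.ys + x) - (P.V0 + P.DV x) * ((1 - 2 * dt (uu j) (P.ys + x) : ℝ) : ℂ))
      (ηd j (P.ys + x) - P.V0 / (P.fs : ℂ)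
        * (((1 - 2 * dt (uu j) (P.ys + x)) * (P.fs + dt P.ns x) : ℝ) : ℂ))
      (1 - 2 * dt (uu j) (P.ys + x))).re - 6 * G1| ≤ 106 / 25 / 2 ^ 18)
    (h2 : |(P.G6 1 x
      (ηd j (P.ys + x) - (P.V0 + P.DV x) * ((1 - 2 * dt (uu j) (P.ys + x) : ℝ) : ℂ))
      (ηd j (P.ys + x) - P.V0 / (P.fs : ℂ)
        * (((1 - 2 * dt (uu j) (P.ys + x)) * (P.fs + dt P.ns x) : ℝ) : ℂ))
      (1 - 2 * dt (uu j) (P.ys + x))).im - 6 * G2| ≤ 106 / 25 / 2 ^ 18) :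
    |P.Eh x (Vx (P.ys + x) j) * (1 - 2 * dt (uu j) (P.ys + x)) - E| ≤ 1 / 2 ^ 20 ∧
      ‖P.Gh x (Vx (P.ys + x) j) * ((1 - 2 * dt (uu j) (P.ys + x) : ℝ) : ℂ) - ⟨G1, G2⟩‖
        ≤ 1 / 2 ^ 18 := by
  have hfc : (P.fs : ℂ) ≠ 0 := by exact_mod_cast hf
  have hx : x * ((1 : ℝ) : ℂ) = x := by simp
  have hη := ηd_eq j (P.ys + x) hd
  have key := EG_eq P hfv 1 x
    (ηd j (P.ys + x) - (P.V0 + P.DV x) * ((1 - 2 * dt (uu j) (P.ys + x) : ℝ) : ℂ))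
    (ηd j (P.ys + x) - P.V0 / (P.fs : ℂ)
        * (((1 - 2 * dt (uu j) (P.ys + x)) * (P.fs + dt P.ns x) : ℝ) : ℂ))
    (Vx (P.ys + x) j) (1 - 2 * dt (uu j) (P.ys + x))
    (by rw [hx, hη]; push_cast; ring)
    (by
      rw [hη, Pt.fr]; push_cast; field_simp)
  rw [hx] at key
  have h := EG_conv key.1 key.2 h0 h1 h2
  rw [one_pow, one_mul, ofReal_one, one_mul, abs_one] at h
  exact h

/-- `j = 0`, at `x = r X` -/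
theorem apxE_0 (P : Pt) (hfv : P.fvs = P.fv P.ys) (hV : P.V0 = Vx P.ys 0) (hf : P.fs ≠ 0)
    (hd0 : 1 - 2 * P.ys.re ≠ 0) (r : ℝ) (X : ℂ)
    (hd : 1 - 2 * dt (uu 0) (P.ys + X * (r : ℂ)) ≠ 0) (E G1 G2 : ℝ)
    (h0 : |P.E12 r X (P.T0 r X (1 - 2 * P.ys.re - 2 * (r * X.re)))
      (P.U0 r X (P.T0 r X (1 - 2 * P.ys.re - 2 * (r * X.re)))
        (1 - 2 * P.ys.re - 2 * (r * X.re))) (1 - 2 * P.ys.re - 2 * (r * X.re)) - 12 * E|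
        ≤ 12 / 2 ^ 20)
    (h1 : |(P.G6 r X (P.T0 r X (1 - 2 * P.ys.re - 2 * (r * X.re)))
      (P.U0 r X (P.T0 r X (1 - 2 * P.ys.re - 2 * (r * X.re)))
        (1 - 2 * P.ys.re - 2 * (r * X.re))) (1 - 2 * P.ys.re - 2 * (r * X.re))).re - 6 * G1|
        ≤ 106 / 25 / 2 ^ 18)
    (h2 : |(P.G6 r X (P.T0 r X (1 - 2 * P.ys.re - 2 * (r * X.re)))
      (P.U0 r X (P.T0 r X (1 - 2 * P.ys.re - 2 * (r * X.re)))
        (1 - 2 * P.ys.re - 2 * (r * X.re))) (1 - 2 * P.ys.re - 2 * (r * X.re))).im - 6 * G2|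
        ≤ 106 / 25 / 2 ^ 18) :
    |P.Eh (X * (r : ℂ)) (Vx (P.ys + X * (r : ℂ)) 0)
        * (1 - 2 * dt (uu 0) (P.ys + X * (r : ℂ))) - r ^ 2 * E| ≤ r ^ 2 / 2 ^ 20 ∧
      ‖P.Gh (X * (r : ℂ)) (Vx (P.ys + X * (r : ℂ)) 0)
        * ((1 - 2 * dt (uu 0) (P.ys + X * (r : ℂ)) : ℝ) : ℂ) - (r : ℂ) * ⟨G1, G2⟩‖
        ≤ |r| / 2 ^ 18 := by
  have e : 1 - 2 * dt (uu 0) (P.ys + X * (r : ℂ)) = 1 - 2 * P.ys.re - 2 * (r * X.re) := by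
    simp only [dt, uu0_re, uu0_im, add_re, mul_re, ofReal_re, ofReal_im]; ring
  rw [e] at hd ⊢
  have hT := T0_eq P hV hd0 r X hd
  have hU := U0_eq P hf r X _ _ _ hT
  have key := EG_eq P hfv r X _ _ _ _ hT hU
  exact EG_conv key.1 key.2 h0 h1 h2

/-- the crude quantities -/
theorem apxR (P : Pt) (j : Fin 3) (x : ℂ) (hd : 1 - 2 * dt (uu j) (P.ys + x) ≠ 0)
    (C Q1 Q2 Y : ℝ)
    (h0 : |P.ctr 1 x (ηd j (P.yr 1 x)) (1 - 2 * dt (uu j) (P.yr 1 x)) - C| ≤ 1 / 2 ^ 14)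
    (h1 : |(P.fqr 1 x (ηd j (P.yr 1 x)) (1 - 2 * dt (uu j) (P.yr 1 x))).re - Q1|
      ≤ 707 / 1000 / 2 ^ 13)
    (h2 : |(P.fqr 1 x (ηd j (P.yr 1 x)) (1 - 2 * dt (uu j) (P.yr 1 x))).im - Q2|
      ≤ 707 / 1000 / 2 ^ 13)
    (h3 : |dt (P.fpr 1 x) (P.yr 1 x) - Y| ≤ 1 / 2 ^ 16) :
    |P.ct x (Vx (P.ys + x) j) * (1 - 2 * dt (uu j) (P.ys + x)) - C| ≤ 1 / 2 ^ 14 ∧
      ‖P.fq x (Vx (P.ys + x) j) * ((1 - 2 * dt (uu j) (P.ys + x) : ℝ) : ℂ) - ⟨Q1, Q2⟩‖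
        ≤ 1 / 2 ^ 13 ∧ |dt (P.fp x) (P.ys + x) - Y| ≤ 1 / 2 ^ 16 := by
  have hx : x * ((1 : ℝ) : ℂ) = x := by simp
  have hy : P.yr 1 x = P.ys + x := by rw [Pt.yr, hx]
  rw [hy] at h0 h1 h2 h3
  rw [ηd_eq j _ hd] at h0 h1 h2
  rw [ctr_eq, hx] at h0
  rw [fqr_eq, hx] at h1 h2
  rw [fpr_eq, hx] at h3
  refine ⟨h0, ?_, h3⟩
  apply nrm2_le' (by positivity)
  · refine le_trans (le_of_eq ?_) (h1.trans (le_of_eq (by ring)))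
    rw [sub_re]
  · refine le_trans (le_of_eq ?_) (h2.trans (le_of_eq (by ring)))
    rw [sub_im]

end Pool.H61.Rh
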