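import Pool.Agent.H61.Rz.Ax1
import Pool.Agent.H61.Rz.PD0a
import Pool.Agent.H61.Rz.PD0b
import Pool.Agent.H61.Rz.PD1
import Pool.Agent.H61.Rz.PD2
import Pool.Agent.H61.Rz.PDR0
import Pool.Agent.H61.Rz.PDR1
import Pool.Agent.H61.Rz.PDR2

/-! # Ax2: the approximations of level 3 from norm bounds of the difference programs -/

set_option autoImplicit false

namespace Pool.H61.Rh

open Complex Pool.H47.Kc Pool.H47.K3

/-- norm bounds of a difference program (main inequality) -/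
def NbE (Q : Prg) (S : Nat → Sym) (θ x y : ℝ) : Prop :=
  ∀ β : ℕ → ℝ, EnclF S θ β → |Q.val (realAlg β x y) 0| ≤ 12 / 2 ^ 20 ∧
    |Q.val (realAlg β x y) 1| ≤ 106 / 25 / 2 ^ 18 ∧ |Q.val (realAlg β x y) 2| ≤ 106 / 25 / 2 ^ 18

/-- norm bounds of a difference program (crude quantities) -/
def NbR (Q : Prg) (S : Nat → Sym) (θ x y : ℝ) : Prop :=
  ∀ β : ℕ → ℝ, EnclF S θ β → |Q.val (realAlg β x y) 0| ≤ 1 / 2 ^ 14 ∧
    |Q.val (realAlg β x y) 1| ≤ 707 / 1000 / 2 ^ 13 ∧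
    |Q.val (realAlg β x y) 2| ≤ 707 / 1000 / 2 ^ 13 ∧ |Q.val (realAlg β x y) 3| ≤ 1 / 2 ^ 16

/-- a table of exact level-3 coefficients -/
structure Tab (T : Nat → Sym) (n : ℕ) : Prop where
  big : ∀ k, n ≤ k → T k = ⟨[], 0⟩
  ex : ∀ k, (T k).eps = 0

theorem Tab_of (L : List (List Sym)) (h : exL L = true) : Tab (fun i => sym16 L i) (16 * L.length) :=
  ⟨fun k hk => sym16_big L k hk, fun k => sym16_ex L h k⟩

/-- regular points -/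
structure Pt.Reg (P : Pt) : Prop where
  fvs : P.fvs = P.fv P.ys
  V0 : P.V0 = Vx P.ys 0
  fs : P.fs ≠ 0
  d0 : 1 - 2 * P.ys.re ≠ 0

theorem reg_pt (d : VD) (m : ℝ) : (d.pt m).Reg where
  fvs := rfl
  V0 := rfl
  fs := oF_ne m
  d0 := by
    show 1 - 2 * (oy m).re ≠ 0
    rw [d_l1]
    have := oS_gt m
    have h : 0 < 3 * (1 / oS m) := by positivity
    exact h.ne'

lemma beta_shift (P : Pt) (T : Nat → Sym) (n : ℕ) (hT : Tab T n) (θ : ℝ) (k : ℕ) :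
    (fun i => Pool.H47.Kc.get 0 (P.syl (lvl T n θ)) i) (81 + k) = nomF T θ k := by
  show Pool.H47.Kc.get 0 (P.syl (lvl T n θ)) (81 + k) = _
  rw [syl_right, get_lvl T n hT.big]
  rfl

theorem apxE1 {P : Pt} (hP : P.Reg) {Sy TE : Nat → Sym} {n : ℕ} (hT : Tab TE n) {θ : ℝ}
    (hE : Encl81 Sy P θ) (x : ℂ) (hd : 1 - 2 * dt (uu 1) (P.ys + x) ≠ 0)
    (hn : NbE pD1 (sapp Sy TE) θ x.re x.im) :
    |P.Eh x (Vx (P.ys + x) 1) * (1 - 2 * dt (uu 1) (P.ys + x))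
        - E1f (nomF TE θ) 0 x.re x.im| ≤ 1 / 2 ^ 20 ∧
      ‖P.Gh x (Vx (P.ys + x) 1) * ((1 - 2 * dt (uu 1) (P.ys + x) : ℝ) : ℂ)
        - ⟨G1f (nomF TE θ) 36 x.re x.im, G1f (nomF TE θ) 81 x.re x.im⟩‖ ≤ 1 / 2 ^ 18 := by
  obtain ⟨β, hβ⟩ : ∃ β : ℕ → ℝ, β = fun i => Pool.H47.Kc.get 0 (P.syl (lvl TE n θ)) i := ⟨_, rfl⟩
  have he : EnclF (sapp Sy TE) θ β := by rw [hβ]; exact EnclF_sapp hE n hT.big hT.ex
  obtain ⟨b0, b1, b2⟩ := hn β he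
  have hv := val_of_OutEq pD1 β x.re x.im (pD1_val P (lvl TE n θ) x.re x.im β hβ)
  rw [hv 0] at b0
  rw [hv 1] at b1
  rw [hv 2] at b2
  have hs : ∀ a k, β (81 + a + k) = nomF TE θ (a + k) := by
    intro a k
    rw [hβ, add_assoc]; exact beta_shift P TE n hT θ _
  have e0 : hr2 β x.re x.im 81 7 = E1f (nomF TE θ) 0 x.re x.im := hr2_congr (fun k => hs 0 k)
  have e1 : hr2 β x.re x.im 117 8 = G1f (nomF TE θ) 36 x.re x.im := hr2_congr (fun k => hs 36 k)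
  have e2 : hr2 β x.re x.im 162 8 = G1f (nomF TE θ) 81 x.re x.im := hr2_congr (fun k => hs 81 k)
  rw [← e0, ← e1, ← e2]
  exact apxE_j P hP.fvs hP.fs 1 x hd _ _ _ b0 b1 b2

theorem apxE2 {P : Pt} (hP : P.Reg) {Sy TE : Nat → Sym} {n : ℕ} (hT : Tab TE n) {θ : ℝ}
    (hE : Encl81 Sy P θ) (x : ℂ) (hd : 1 - 2 * dt (uu 2) (P.ys + x) ≠ 0)
    (hn : NbE pD2 (sapp Sy TE) θ x.re x.im) :
    |P.Eh x (Vx (P.ys + x) 2) * (1 - 2 * dt (uu 2) (P.ys + x))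
        - E1f (nomF TE θ) 0 x.re x.im| ≤ 1 / 2 ^ 20 ∧
      ‖P.Gh x (Vx (P.ys + x) 2) * ((1 - 2 * dt (uu 2) (P.ys + x) : ℝ) : ℂ)
        - ⟨G1f (nomF TE θ) 36 x.re x.im, G1f (nomF TE θ) 81 x.re x.im⟩‖ ≤ 1 / 2 ^ 18 := by
  obtain ⟨β, hβ⟩ : ∃ β : ℕ → ℝ, β = fun i => Pool.H47.Kc.get 0 (P.syl (lvl TE n θ)) i := ⟨_, rfl⟩
  have he : EnclF (sapp Sy TE) θ β := by rw [hβ]; exact EnclF_sapp hE n hT.big hT.ex
  obtain ⟨b0, b1, b2⟩ := hn β he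
  have hv := val_of_OutEq pD2 β x.re x.im (pD2_val P (lvl TE n θ) x.re x.im β hβ)
  rw [hv 0] at b0
  rw [hv 1] at b1
  rw [hv 2] at b2
  have hs : ∀ a k, β (81 + a + k) = nomF TE θ (a + k) := by
    intro a k
    rw [hβ, add_assoc]; exact beta_shift P TE n hT θ _
  have e0 : hr2 β x.re x.im 81 7 = E1f (nomF TE θ) 0 x.re x.im := hr2_congr (fun k => hs 0 k)
  have e1 : hr2 β x.re x.im 117 8 = G1f (nomF TE θ) 36 x.re x.im := hr2_congr (fun k => hs 36 k)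
  have e2 : hr2 β x.re x.im 162 8 = G1f (nomF TE θ) 81 x.re x.im := hr2_congr (fun k => hs 81 k)
  rw [← e0, ← e1, ← e2]
  exact apxE_j P hP.fvs hP.fs 2 x hd _ _ _ b0 b1 b2

theorem apxR0 {P : Pt} {Sy TR : Nat → Sym} {n : ℕ} (hT : Tab TR n) {θ : ℝ}
    (hE : Encl81 Sy P θ) (x : ℂ) (hd : 1 - 2 * dt (uu 0) (P.ys + x) ≠ 0)
    (hn : NbR pDR0 (sapp Sy TR) θ x.re x.im) :
    |P.ct x (Vx (P.ys + x) 0) * (1 - 2 * dt (uu 0) (P.ys + x))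
        - C3f (nomF TR θ) 0 x.re x.im| ≤ 1 / 2 ^ 14 ∧
      ‖P.fq x (Vx (P.ys + x) 0) * ((1 - 2 * dt (uu 0) (P.ys + x) : ℝ) : ℂ)
        - ⟨Q3f (nomF TR θ) 36 x.re x.im, Q3f (nomF TR θ) 64 x.re x.im⟩‖ ≤ 1 / 2 ^ 13 ∧
      |dt (P.fp x) (P.ys + x) - Y3f (nomF TR θ) 92 x.re x.im| ≤ 1 / 2 ^ 16 := by
  obtain ⟨β, hβ⟩ : ∃ β : ℕ → ℝ, β = fun i => Pool.H47.Kc.get 0 (P.syl (lvl TR n θ)) i := ⟨_, rfl⟩
  have he : EnclF (sapp Sy TR) θ β := by rw [hβ]; exact EnclF_sapp hE n hT.big hT.ex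
  obtain ⟨b0, b1, b2, b3⟩ := hn β he
  have hv := val_of_OutEq pDR0 β x.re x.im (pDR0_val P (lvl TR n θ) x.re x.im β hβ)
  rw [hv 0] at b0
  rw [hv 1] at b1
  rw [hv 2] at b2
  rw [hv 3] at b3
  have hs : ∀ a k, β (81 + a + k) = nomF TR θ (a + k) := by
    intro a k
    rw [hβ, add_assoc]; exact beta_shift P TR n hT θ _
  have e0 : hr2 β x.re x.im 81 7 = C3f (nomF TR θ) 0 x.re x.im := hr2_congr (fun k => hs 0 k)
  have e1 : hr2 β x.re x.im 117 6 = Q3f (nomF TR θ) 36 x.re x.im := hr2_congr (fun k => hs 36 k)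
  have e2 : hr2 β x.re x.im 145 6 = Q3f (nomF TR θ) 64 x.re x.im := hr2_congr (fun k => hs 64 k)
  have e3 : hr2 β x.re x.im 173 4 = Y3f (nomF TR θ) 92 x.re x.im := hr2_congr (fun k => hs 92 k)
  rw [← e0, ← e1, ← e2, ← e3]
  exact apxR P 0 x hd _ _ _ _ b0 b1 b2 b3

theorem apxR1 {P : Pt} {Sy TR : Nat → Sym} {n : ℕ} (hT : Tab TR n) {θ : ℝ}
    (hE : Encl81 Sy P θ) (x : ℂ) (hd : 1 - 2 * dt (uu 1) (P.ys + x) ≠ 0)
    (hn : NbR pDR1 (sapp Sy TR) θ x.re x.im) :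
    |P.ct x (Vx (P.ys + x) 1) * (1 - 2 * dt (uu 1) (P.ys + x))
        - C3f (nomF TR θ) 0 x.re x.im| ≤ 1 / 2 ^ 14 ∧
      ‖P.fq x (Vx (P.ys + x) 1) * ((1 - 2 * dt (uu 1) (P.ys + x) : ℝ) : ℂ)
        - ⟨Q3f (nomF TR θ) 36 x.re x.im, Q3f (nomF TR θ) 64 x.re x.im⟩‖ ≤ 1 / 2 ^ 13 ∧
      |dt (P.fp x) (P.ys + x) - Y3f (nomF TR θ) 92 x.re x.im| ≤ 1 / 2 ^ 16 := by
  obtain ⟨β, hβ⟩ : ∃ β : ℕ → ℝ, β = fun i => Pool.H47.Kc.get 0 (P.syl (lvl TR n θ)) i := ⟨_, rfl⟩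
  have he : EnclF (sapp Sy TR) θ β := by rw [hβ]; exact EnclF_sapp hE n hT.big hT.ex
  obtain ⟨b0, b1, b2, b3⟩ := hn β he
  have hv := val_of_OutEq pDR1 β x.re x.im (pDR1_val P (lvl TR n θ) x.re x.im β hβ)
  rw [hv 0] at b0
  rw [hv 1] at b1
  rw [hv 2] at b2
  rw [hv 3] at b3
  have hs : ∀ a k, β (81 + a + k) = nomF TR θ (a + k) := by
    intro a k
    rw [hβ, add_assoc]; exact beta_shift P TR n hT θ _
  have e0 : hr2 β x.re x.im 81 7 = C3f (nomF TR θ) 0 x.re x.im := hr2_congr (fun k => hs 0 k)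
  have e1 : hr2 β x.re x.im 117 6 = Q3f (nomF TR θ) 36 x.re x.im := hr2_congr (fun k => hs 36 k)
  have e2 : hr2 β x.re x.im 145 6 = Q3f (nomF TR θ) 64 x.re x.im := hr2_congr (fun k => hs 64 k)
  have e3 : hr2 β x.re x.im 173 4 = Y3f (nomF TR θ) 92 x.re x.im := hr2_congr (fun k => hs 92 k)
  rw [← e0, ← e1, ← e2, ← e3]
  exact apxR P 1 x hd _ _ _ _ b0 b1 b2 b3

theorem apxR2 {P : Pt} {Sy TR : Nat → Sym} {n : ℕ} (hT : Tab TR n) {θ : ℝ}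
    (hE : Encl81 Sy P θ) (x : ℂ) (hd : 1 - 2 * dt (uu 2) (P.ys + x) ≠ 0)
    (hn : NbR pDR2 (sapp Sy TR) θ x.re x.im) :
    |P.ct x (Vx (P.ys + x) 2) * (1 - 2 * dt (uu 2) (P.ys + x))
        - C3f (nomF TR θ) 0 x.re x.im| ≤ 1 / 2 ^ 14 ∧
      ‖P.fq x (Vx (P.ys + x) 2) * ((1 - 2 * dt (uu 2) (P.ys + x) : ℝ) : ℂ)
        - ⟨Q3f (nomF TR θ) 36 x.re x.im, Q3f (nomF TR θ) 64 x.re x.im⟩‖ ≤ 1 / 2 ^ 13 ∧
      |dt (P.fp x) (P.ys + x) - Y3f (nomF TR θ) 92 x.re x.im| ≤ 1 / 2 ^ 16 := by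
  obtain ⟨β, hβ⟩ : ∃ β : ℕ → ℝ, β = fun i => Pool.H47.Kc.get 0 (P.syl (lvl TR n θ)) i := ⟨_, rfl⟩
  have he : EnclF (sapp Sy TR) θ β := by rw [hβ]; exact EnclF_sapp hE n hT.big hT.ex
  obtain ⟨b0, b1, b2, b3⟩ := hn β he
  have hv := val_of_OutEq pDR2 β x.re x.im (pDR2_val P (lvl TR n θ) x.re x.im β hβ)
  rw [hv 0] at b0
  rw [hv 1] at b1
  rw [hv 2] at b2
  rw [hv 3] at b3
  have hs : ∀ a k, β (81 + a + k) = nomF TR θ (a + k) := by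
    intro a k
    rw [hβ, add_assoc]; exact beta_shift P TR n hT θ _
  have e0 : hr2 β x.re x.im 81 7 = C3f (nomF TR θ) 0 x.re x.im := hr2_congr (fun k => hs 0 k)
  have e1 : hr2 β x.re x.im 117 6 = Q3f (nomF TR θ) 36 x.re x.im := hr2_congr (fun k => hs 36 k)
  have e2 : hr2 β x.re x.im 145 6 = Q3f (nomF TR θ) 64 x.re x.im := hr2_congr (fun k => hs 64 k)
  have e3 : hr2 β x.re x.im 173 4 = Y3f (nomF TR θ) 92 x.re x.im := hr2_congr (fun k => hs 92 k)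
  rw [← e0, ← e1, ← e2, ← e3]
  exact apxR P 2 x hd _ _ _ _ b0 b1 b2 b3

/-- chart `x = r ⟨1, s⟩` -/
theorem apxE0a {P : Pt} (hP : P.Reg) {Sy TE : Nat → Sym} {n : ℕ} (hT : Tab TE n) {θ : ℝ}
    (hE : Encl81 Sy P θ) (r s : ℝ)
    (hd : 1 - 2 * dt (uu 0) (P.ys + (⟨1, s⟩ : ℂ) * (r : ℂ)) ≠ 0)
    (hn : NbE pD0a (sapp Sy TE) θ r s) :
    |P.Eh ((⟨1, s⟩ : ℂ) * (r : ℂ)) (Vx (P.ys + (⟨1, s⟩ : ℂ) * (r : ℂ)) 0)
        * (1 - 2 * dt (uu 0) (P.ys + (⟨1, s⟩ : ℂ) * (r : ℂ)))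
        - r ^ 2 * E0h (nomF TE θ) 0 r (r * s) 1 s| ≤ r ^ 2 / 2 ^ 20 ∧
      ‖P.Gh ((⟨1, s⟩ : ℂ) * (r : ℂ)) (Vx (P.ys + (⟨1, s⟩ : ℂ) * (r : ℂ)) 0)
        * ((1 - 2 * dt (uu 0) (P.ys + (⟨1, s⟩ : ℂ) * (r : ℂ)) : ℝ) : ℂ)
        - (r : ℂ) * ⟨G0h (nomF TE θ) 33 r (r * s) 1 s, G0h (nomF TE θ) 77 r (r * s) 1 s⟩‖
        ≤ |r| / 2 ^ 18 := by
  obtain ⟨β, hβ⟩ : ∃ β : ℕ → ℝ, β = fun i => Pool.H47.Kc.get 0 (P.syl (lvl TE n θ)) i := ⟨_, rfl⟩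
  have he : EnclF (sapp Sy TE) θ β := by rw [hβ]; exact EnclF_sapp hE n hT.big hT.ex
  obtain ⟨b0, b1, b2⟩ := hn β he
  have hv := val_of_OutEq pD0a β r s (pD0a_val P (lvl TE n θ) r s β hβ)
  rw [hv 0] at b0
  rw [hv 1] at b1
  rw [hv 2] at b2
  have hs : ∀ a k, β (81 + a + k) = nomF TE θ (a + k) := by
    intro a k
    rw [hβ, add_assoc]; exact beta_shift P TE n hT θ _
  have e0 : E0h β 81 r (r * s) 1 s = E0h (nomF TE θ) 0 r (r * s) 1 s := E0h_congr (fun k => hs 0 k)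
  have e1 : G0h β 114 r (r * s) 1 s = G0h (nomF TE θ) 33 r (r * s) 1 s := G0h_congr (fun k => hs 33 k)
  have e2 : G0h β 158 r (r * s) 1 s = G0h (nomF TE θ) 77 r (r * s) 1 s := G0h_congr (fun k => hs 77 k)
  rw [← e0, ← e1, ← e2]
  exact apxE_0 P hP.fvs hP.V0 hP.fs hP.d0 r ⟨1, s⟩ hd _ _ _ b0 b1 b2

/-- chart `x = r ⟨s, 1⟩` -/
theorem apxE0b {P : Pt} (hP : P.Reg) {Sy TE : Nat → Sym} {n : ℕ} (hT : Tab TE n) {θ : ℝ}
    (hE : Encl81 Sy P θ) (r s : ℝ)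
    (hd : 1 - 2 * dt (uu 0) (P.ys + (⟨s, 1⟩ : ℂ) * (r : ℂ)) ≠ 0)
    (hn : NbE pD0b (sapp Sy TE) θ r s) :
    |P.Eh ((⟨s, 1⟩ : ℂ) * (r : ℂ)) (Vx (P.ys + (⟨s, 1⟩ : ℂ) * (r : ℂ)) 0)
        * (1 - 2 * dt (uu 0) (P.ys + (⟨s, 1⟩ : ℂ) * (r : ℂ)))
        - r ^ 2 * E0h (nomF TE θ) 0 (r * s) r s 1| ≤ r ^ 2 / 2 ^ 20 ∧
      ‖P.Gh ((⟨s, 1⟩ : ℂ) * (r : ℂ)) (Vx (P.ys + (⟨s, 1⟩ : ℂ) * (r : ℂ)) 0)
        * ((1 - 2 * dt (uu 0) (P.ys + (⟨s, 1⟩ : ℂ) * (r : ℂ)) : ℝ) : ℂ)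
        - (r : ℂ) * ⟨G0h (nomF TE θ) 33 (r * s) r s 1, G0h (nomF TE θ) 77 (r * s) r s 1⟩‖
        ≤ |r| / 2 ^ 18 := by
  obtain ⟨β, hβ⟩ : ∃ β : ℕ → ℝ, β = fun i => Pool.H47.Kc.get 0 (P.syl (lvl TE n θ)) i := ⟨_, rfl⟩
  have he : EnclF (sapp Sy TE) θ β := by rw [hβ]; exact EnclF_sapp hE n hT.big hT.ex
  obtain ⟨b0, b1, b2⟩ := hn β he
  have hv := val_of_OutEq pD0b β r s (pD0b_val P (lvl TE n θ) r s β hβ)
  rw [hv 0] at b0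
  rw [hv 1] at b1
  rw [hv 2] at b2
  have hs : ∀ a k, β (81 + a + k) = nomF TE θ (a + k) := by
    intro a k
    rw [hβ, add_assoc]; exact beta_shift P TE n hT θ _
  have e0 : E0h β 81 (r * s) r s 1 = E0h (nomF TE θ) 0 (r * s) r s 1 := E0h_congr (fun k => hs 0 k)
  have e1 : G0h β 114 (r * s) r s 1 = G0h (nomF TE θ) 33 (r * s) r s 1 := G0h_congr (fun k => hs 33 k)
  have e2 : G0h β 158 (r * s) r s 1 = G0h (nomF TE θ) 77 (r * s) r s 1 := G0h_congr (fun k => hs 77 k)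
  rw [← e0, ← e1, ← e2]
  exact apxE_0 P hP.fvs hP.V0 hP.fs hP.d0 r ⟨s, 1⟩ hd _ _ _ b0 b1 b2

/-- `j = 0`, all directions -/
theorem apxE0 {P : Pt} (hP : P.Reg) {Sy TE : Nat → Sym} {n : ℕ} (hT : Tab TE n) {θ : ℝ}
    (hE : Encl81 Sy P θ) (x : ℂ) (hx1 : |x.re| ≤ 9 / 8) (hx2 : |x.im| ≤ 9 / 8)
    (hd : 1 - 2 * dt (uu 0) (P.ys + x) ≠ 0)
    (ha : ∀ r s : ℝ, |r| ≤ 9 / 8 → |s| ≤ 1 → NbE pD0a (sapp Sy TE) θ r s)
    (hb : ∀ r s : ℝ, |r| ≤ 9 / 8 → |s| ≤ 1 → NbE pD0b (sapp Sy TE) θ r s) :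
    |P.Eh x (Vx (P.ys + x) 0) * (1 - 2 * dt (uu 0) (P.ys + x))
        - E0h (nomF TE θ) 0 x.re x.im x.re x.im| ≤ normSq x / 2 ^ 20 ∧
      ‖P.Gh x (Vx (P.ys + x) 0) * ((1 - 2 * dt (uu 0) (P.ys + x) : ℝ) : ℂ)
        - ⟨G0h (nomF TE θ) 33 x.re x.im x.re x.im, G0h (nomF TE θ) 77 x.re x.im x.re x.im⟩‖
        ≤ ‖x‖ / 2 ^ 18 := by
  have hn : normSq x = x.re ^ 2 + x.im ^ 2 := by rw [normSq_apply]; ring
  have hq : ∀ r : ℝ, r ^ 2 ≤ normSq x → |r| ≤ ‖x‖ := by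
    intro r hr
    rw [normSq_eq_norm_sq] at hr
    exact abs_le_of_sq_le_sq hr (norm_nonneg _)
  rcases le_total |x.im| |x.re| with h | h
  · obtain ⟨s, hs⟩ : ∃ s : ℝ, s = x.im / x.re := ⟨_, rfl⟩
    have hxs : x.re * s = x.im := by
      by_cases h0 : x.re = 0
      · rw [h0, abs_zero] at h
        have : x.im = 0 := abs_eq_zero.1 (le_antisymm h (abs_nonneg _))
        rw [h0, this]; ring
      · rw [hs]; field_simp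
    have hs1 : |s| ≤ 1 := by
      rw [hs, abs_div]
      exact div_le_one_of_le₀ h (abs_nonneg _)
    have hX : (⟨1, s⟩ : ℂ) * (x.re : ℂ) = x := by
      apply Complex.ext
      · rw [re_mul_ofReal]; simp
      · rw [im_mul_ofReal]; show s * x.re = x.im; rw [mul_comm]; exact hxs
    have key := apxE0a hP hT hE x.re s (by rw [hX]; exact hd) (ha _ _ hx1 hs1)
    rw [hX, hxs, E0h_scale, mul_one, hxs] at key
    have hc : (x.re : ℂ) * ⟨G0h (nomF TE θ) 33 x.re x.im 1 s, G0h (nomF TE θ) 77 x.re x.im 1 s⟩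
        = ⟨G0h (nomF TE θ) 33 x.re x.im x.re x.im, G0h (nomF TE θ) 77 x.re x.im x.re x.im⟩ := by
      apply Complex.ext
      · rw [re_ofReal_mul]; show x.re * G0h (nomF TE θ) 33 x.re x.im 1 s = _
        rw [G0h_scale, mul_one, hxs]
      · rw [im_ofReal_mul]; show x.re * G0h (nomF TE θ) 77 x.re x.im 1 s = _
        rw [G0h_scale, mul_one, hxs]
    rw [hc] at key
    have h2 : x.re ^ 2 ≤ normSq x := by rw [hn]; nlinarith [sq_nonneg x.im]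
    refine ⟨key.1.trans ?_, key.2.trans ?_⟩
    · exact div_le_div_of_nonneg_right h2 (by positivity)
    · exact div_le_div_of_nonneg_right (hq _ h2) (by positivity)
  · obtain ⟨s, hs⟩ : ∃ s : ℝ, s = x.re / x.im := ⟨_, rfl⟩
    have hxs : x.im * s = x.re := by
      by_cases h0 : x.im = 0
      · rw [h0, abs_zero] at h
        have : x.re = 0 := abs_eq_zero.1 (le_antisymm h (abs_nonneg _))
        rw [h0, this]; ring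
      · rw [hs]; field_simp
    have hs1 : |s| ≤ 1 := by
      rw [hs, abs_div]
      exact div_le_one_of_le₀ h (abs_nonneg _)
    have hX : (⟨s, 1⟩ : ℂ) * (x.im : ℂ) = x := by
      apply Complex.ext
      · rw [re_mul_ofReal]; show s * x.im = x.re; rw [mul_comm]; exact hxs
      · rw [im_mul_ofReal]; simp
    have key := apxE0b hP hT hE x.im s (by rw [hX]; exact hd) (hb _ _ hx2 hs1)
    rw [hX, hxs, E0h_scale, mul_one, hxs] at key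
    have hc : (x.im : ℂ) * ⟨G0h (nomF TE θ) 33 x.re x.im s 1, G0h (nomF TE θ) 77 x.re x.im s 1⟩
        = ⟨G0h (nomF TE θ) 33 x.re x.im x.re x.im, G0h (nomF TE θ) 77 x.re x.im x.re x.im⟩ := by
      apply Complex.ext
      · rw [re_ofReal_mul]; show x.im * G0h (nomF TE θ) 33 x.re x.im s 1 = _
        rw [G0h_scale, mul_one, hxs]
      · rw [im_ofReal_mul]; show x.im * G0h (nomF TE θ) 77 x.re x.im s 1 = _
        rw [G0h_scale, mul_one, hxs]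
    rw [hc] at key
    have h2 : x.im ^ 2 ≤ normSq x := by rw [hn]; nlinarith [sq_nonneg x.re]
    refine ⟨key.1.trans ?_, key.2.trans ?_⟩
    · exact div_le_div_of_nonneg_right h2 (by positivity)
    · exact div_le_div_of_nonneg_right (hq _ h2) (by positivity)

end Pool.H61.Rh
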