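import Pool.Agent.H61.Rz.Ax2

/-! # Ax3: packaging as `Pt.Apx` -/

set_option autoImplicit false

namespace Pool.H61.Rh

open Complex Pool.H47.Kc Pool.H47.K3

theorem Apx0 {P : Pt} (hP : P.Reg) {Sy TE TR : Nat → Sym} {n n' : ℕ} (hTE : Tab TE n)
    (hTR : Tab TR n') {θ : ℝ} (hE : Encl81 Sy P θ) (x : ℂ)
    (hd : 1 - 2 * dt (uu 0) (P.ys + x) ≠ 0) (hx1 : |x.re| ≤ 9 / 8) (hx2 : |x.im| ≤ 9 / 8)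
    (ha : ∀ r s : ℝ, |r| ≤ 9 / 8 → |s| ≤ 1 → NbE pD0a (sapp Sy TE) θ r s)
    (hb : ∀ r s : ℝ, |r| ≤ 9 / 8 → |s| ≤ 1 → NbE pD0b (sapp Sy TE) θ r s)
    (hr : NbR pDR0 (sapp Sy TR) θ x.re x.im) :
    P.Apx x (Vx (P.ys + x) 0) (1 - 2 * dt (uu 0) (P.ys + x)) (E0h (nomF TE θ) 0 x.re x.im x.re x.im)
      ⟨G0h (nomF TE θ) 33 x.re x.im x.re x.im, G0h (nomF TE θ) 77 x.re x.im x.re x.im⟩ (C3f (nomF TR θ) 0 x.re x.im)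
      ⟨Q3f (nomF TR θ) 36 x.re x.im, Q3f (nomF TR θ) 64 x.re x.im⟩
      (Y3f (nomF TR θ) 92 x.re x.im) (normSq x / 2 ^ 20) (‖x‖ / 2 ^ 18) (1 / 2 ^ 14) (1 / 2 ^ 13) (1 / 2 ^ 16) := by
  obtain ⟨h1, h2⟩ := apxE0 hP hTE hE x hx1 hx2 hd ha hb
  obtain ⟨h3, h4, h5⟩ := apxR0 hTR hE x hd hr
  exact ⟨h1, h2, h3, h4, h5⟩

theorem Apx1 {P : Pt} (hP : P.Reg) {Sy TE TR : Nat → Sym} {n n' : ℕ} (hTE : Tab TE n)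
    (hTR : Tab TR n') {θ : ℝ} (hE : Encl81 Sy P θ) (x : ℂ)
    (hd : 1 - 2 * dt (uu 1) (P.ys + x) ≠ 0) (hn : NbE pD1 (sapp Sy TE) θ x.re x.im)
    (hr : NbR pDR1 (sapp Sy TR) θ x.re x.im) :
    P.Apx x (Vx (P.ys + x) 1) (1 - 2 * dt (uu 1) (P.ys + x)) (E1f (nomF TE θ) 0 x.re x.im)
      ⟨G1f (nomF TE θ) 36 x.re x.im, G1f (nomF TE θ) 81 x.re x.im⟩ (C3f (nomF TR θ) 0 x.re x.im)
      ⟨Q3f (nomF TR θ) 36 x.re x.im, Q3f (nomF TR θ) 64 x.re x.im⟩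
      (Y3f (nomF TR θ) 92 x.re x.im) (1 / 2 ^ 20) (1 / 2 ^ 18) (1 / 2 ^ 14) (1 / 2 ^ 13) (1 / 2 ^ 16) := by
  obtain ⟨h1, h2⟩ := apxE1 hP hTE hE x hd hn
  obtain ⟨h3, h4, h5⟩ := apxR1 hTR hE x hd hr
  exact ⟨h1, h2, h3, h4, h5⟩

theorem Apx2 {P : Pt} (hP : P.Reg) {Sy TE TR : Nat → Sym} {n n' : ℕ} (hTE : Tab TE n)
    (hTR : Tab TR n') {θ : ℝ} (hE : Encl81 Sy P θ) (x : ℂ)
    (hd : 1 - 2 * dt (uu 2) (P.ys + x) ≠ 0) (hn : NbE pD2 (sapp Sy TE) θ x.re x.im)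
    (hr : NbR pDR2 (sapp Sy TR) θ x.re x.im) :
    P.Apx x (Vx (P.ys + x) 2) (1 - 2 * dt (uu 2) (P.ys + x)) (E1f (nomF TE θ) 0 x.re x.im)
      ⟨G1f (nomF TE θ) 36 x.re x.im, G1f (nomF TE θ) 81 x.re x.im⟩ (C3f (nomF TR θ) 0 x.re x.im)
      ⟨Q3f (nomF TR θ) 36 x.re x.im, Q3f (nomF TR θ) 64 x.re x.im⟩
      (Y3f (nomF TR θ) 92 x.re x.im) (1 / 2 ^ 20) (1 / 2 ^ 18) (1 / 2 ^ 14) (1 / 2 ^ 13) (1 / 2 ^ 16) := by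
  obtain ⟨h1, h2⟩ := apxE2 hP hTE hE x hd hn
  obtain ⟨h3, h4, h5⟩ := apxR2 hTR hE x hd hr
  exact ⟨h1, h2, h3, h4, h5⟩

end Pool.H61.Rh
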