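import Pool.Agent.H61.Rz.Tm

/-! # Ch: comparison of Taylor models with polynomials, Chebyshev norm

`chh p` are the coefficients of `2^(length p) p` in the basis `T_j(t) = cos (j arccos t)`. -/

set_option autoImplicit false

namespace Pool.H61.Rh

open Pool.H47.Kc

/-- multiplication by `2 t` in the basis `T_j` -/
def chx : List Int → List Int
  | [] => []
  | a :: l => addL (0 :: 2 * a :: l) l

/-- coefficients of `2^(length p) p` in the basis `T_j` -/
def chh : List Int → List Int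
  | [] => []
  | a :: l => addL [a * 2 ^ Nat.succ l.length] (chx (chh l))

/-- `Σ_i l_i cos ((j + i) x)` -/
noncomputable def cvf (x : ℝ) : ℕ → List Int → ℝ
  | _, [] => 0
  | j, a :: l => (a : ℝ) * Real.cos (j * x) + cvf x (j + 1) l

theorem cvf_addL (x : ℝ) (p : List Int) : ∀ (j : ℕ) (q : List Int),
    cvf x j (addL p q) = cvf x j p + cvf x j q := by
  induction p with
  | nil => intro j q; show cvf x j q = 0 + cvf x j q; ring
  | cons a l ih =>
    intro j q
    cases q with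
    | nil => show cvf x j (a :: l) = cvf x j (a :: l) + 0; ring
    | cons b q =>
      show ((a + b : ℤ) : ℝ) * Real.cos (j * x) + cvf x (j + 1) (addL l q) =
        ((a : ℝ) * Real.cos (j * x) + cvf x (j + 1) l) +
          ((b : ℝ) * Real.cos (j * x) + cvf x (j + 1) q)
      rw [ih]; push_cast; ring

theorem cvf_shift (x : ℝ) (l : List Int) : ∀ j : ℕ,
    2 * Real.cos x * cvf x (j + 1) l = cvf x (j + 2) l + cvf x j l := by
  induction l with
  | nil => intro j; show 2 * Real.cos x * 0 = 0 + 0; ring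
  | cons a l ih =>
    intro j
    show 2 * Real.cos x * ((a : ℝ) * Real.cos (((j + 1 : ℕ) : ℝ) * x) + cvf x (j + 1 + 1) l) =
      ((a : ℝ) * Real.cos (((j + 2 : ℕ) : ℝ) * x) + cvf x (j + 2 + 1) l) +
        ((a : ℝ) * Real.cos (j * x) + cvf x (j + 1) l)
    have h1 := ih (j + 1)
    have h2 : 2 * Real.cos x * Real.cos (((j + 1 : ℕ) : ℝ) * x) =
        Real.cos (((j + 2 : ℕ) : ℝ) * x) + Real.cos (j * x) := by
      have e1 : ((j + 2 : ℕ) : ℝ) * x = ((j + 1 : ℕ) : ℝ) * x + x := by push_cast; ring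
      have e2 : (j : ℝ) * x = ((j + 1 : ℕ) : ℝ) * x - x := by push_cast; ring
      rw [e1, e2, Real.cos_add, Real.cos_sub]; ring
    have e3 : j + 1 + 1 = j + 2 := rfl
    have e4 : j + 1 + 2 = j + 2 + 1 := rfl
    rw [e3, e4] at h1
    rw [e3]
    linear_combination (a : ℝ) * h2 + h1

theorem cvf_chx (x : ℝ) (l : List Int) : cvf x 0 (chx l) = 2 * Real.cos x * cvf x 0 l := by
  cases l with
  | nil => show (0 : ℝ) = 2 * Real.cos x * 0; ring
  | cons a l =>
    show cvf x 0 (addL (0 :: 2 * a :: l) l) = _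
    rw [cvf_addL]
    show (((0 : ℤ) : ℝ) * Real.cos (((0 : ℕ) : ℝ) * x) + (((2 * a : ℤ) : ℝ) *
        Real.cos (((0 + 1 : ℕ) : ℝ) * x) + cvf x (0 + 1 + 1) l)) + cvf x 0 l =
      2 * Real.cos x * ((a : ℝ) * Real.cos (((0 : ℕ) : ℝ) * x) + cvf x (0 + 1) l)
    have h := cvf_shift x l 0
    have e : ((0 + 1 : ℕ) : ℝ) * x = x := by push_cast; ring
    have e0 : ((0 : ℕ) : ℝ) * x = 0 := by push_cast; ring
    rw [e, e0, Real.cos_zero]
    push_cast
    have e2 : cvf x (0 + 1 + 1) l = cvf x (0 + 2) l := rfl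
    rw [e2]
    linear_combination -h

theorem cvf_chh (x : ℝ) (l : List Int) :
    cvf x 0 (chh l) = 2 ^ l.length * pv l (Real.cos x) := by
  induction l with
  | nil => show (0 : ℝ) = 2 ^ 0 * 0; ring
  | cons a l ih =>
    show cvf x 0 (addL [a * 2 ^ Nat.succ l.length] (chx (chh l))) =
      2 ^ (l.length + 1) * ((a : ℝ) + Real.cos x * pv l (Real.cos x))
    rw [cvf_addL, cvf_chx, ih]
    show ((a * 2 ^ Nat.succ l.length : ℤ) : ℝ) * Real.cos (((0 : ℕ) : ℝ) * x) + 0 + _ = _
    have e0 : ((0 : ℕ) : ℝ) * x = 0 := by push_cast; ring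
    rw [e0, Real.cos_zero]
    push_cast
    rw [pow_succ]
    ring

theorem cvf_le (x : ℝ) (l : List Int) : ∀ j : ℕ, |cvf x j l| ≤ (nrm l : ℝ) := by
  induction l with
  | nil => intro j; simp [cvf, nrm]
  | cons a l ih =>
    intro j
    have h0 : ((nrm (a :: l) : ℕ) : ℝ) = |(a : ℝ)| + (nrm l : ℝ) := by
      show ((a.natAbs + nrm l : ℕ) : ℝ) = _
      push_cast
      rw [Nat.cast_natAbs]
      push_cast
      rfl
    rw [h0]
    show |(a : ℝ) * Real.cos (j * x) + cvf x (j + 1) l| ≤ _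
    have h1 : |(a : ℝ) * Real.cos (j * x)| ≤ |(a : ℝ)| := by
      rw [abs_mul]
      have := Real.abs_cos_le_one (j * x)
      nlinarith [abs_nonneg (a : ℝ)]
    exact (abs_add_le _ _).trans (add_le_add h1 (ih _))

/-- the Chebyshev norm -/
def chn (l : List Int) : Nat := Nat.succ (Nat.div (nrm (chh l)) (Nat.pow 2 l.length))

theorem pv_le_chn (l : List Int) {t : ℝ} (ht : |t| ≤ 1) : |pv l t| ≤ (chn l : ℝ) := by
  have ht' := abs_le.1 ht
  have hx : Real.cos (Real.arccos t) = t := Real.cos_arccos ht'.1 ht'.2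
  have h1 := cvf_chh (Real.arccos t) l
  rw [hx] at h1
  have h2 := cvf_le (Real.arccos t) (chh l) 0
  rw [h1, abs_mul, abs_of_pos (show (0 : ℝ) < 2 ^ l.length by positivity)] at h2
  have h3 : |pv l t| ≤ (nrm (chh l) : ℝ) / 2 ^ l.length := by
    rw [le_div_iff₀ (by positivity)]; linarith
  refine h3.trans ?_
  have h4 : nrm (chh l) < (nrm (chh l) / 2 ^ l.length + 1) * 2 ^ l.length := by
    have := Nat.lt_div_mul_add (a := nrm (chh l)) (b := 2 ^ l.length) (by positivity)
    calc nrm (chh l) < nrm (chh l) / 2 ^ l.length * 2 ^ l.length + 2 ^ l.length := this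
      _ = _ := by ring
  have h5 : chn l = nrm (chh l) / 2 ^ l.length + 1 := rfl
  rw [h5, div_le_iff₀ (by positivity)]
  exact_mod_cast h4.le

/-- bound with the Chebyshev norm -/
def Tm.bc (a : Tm) : Nat := Nat.add (chn a.c) a.e

theorem Tm.bc_sound {a : Tm} {t v : ℝ} (ht : |t| ≤ 1) (h : a.In t v) :
    |v * 2 ^ 60| ≤ (a.bc : ℝ) := by
  have h1 : (a.bc : ℝ) = (chn a.c : ℝ) + (a.e : ℝ) := by
    show ((chn a.c + a.e : ℕ) : ℝ) = _
    push_cast; rfl
  rw [h1]
  have h2 := pv_le_chn a.c ht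
  have h3 : |v * 2 ^ 60 - pv a.c t| ≤ (a.e : ℝ) := h
  calc |v * 2 ^ 60| = |pv a.c t + (v * 2 ^ 60 - pv a.c t)| := by ring_nf
    _ ≤ |pv a.c t| + |v * 2 ^ 60 - pv a.c t| := abs_add_le _ _
    _ ≤ _ := add_le_add h2 h3

theorem x_In (t : ℝ) :
    (⟨[576460752303423488, 576460752303423488], 0⟩ : Tm).In t ((1 + t) / 2) := by
  show |(1 + t) / 2 * 2 ^ 60 - (((576460752303423488 : ℤ) : ℝ) +
    t * (((576460752303423488 : ℤ) : ℝ) + t * 0))| ≤ ((0 : ℕ) : ℝ)
  have h : (1 + t) / 2 * 2 ^ 60 - (((576460752303423488 : ℤ) : ℝ) +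
      t * (((576460752303423488 : ℤ) : ℝ) + t * 0)) = 0 := by
    push_cast
    ring
  rw [h]
  simp

theorem horner_In {t : ℝ} (ht : |t| ≤ 1) (p : List Fx) :
    (horner (tmAlg []) (tmAlg []).x p).In t (pval p ((1 + t) / 2)) := by
  have h1 : (horner (tmAlg []) (tmAlg []).x p).In t
      (horner (realAlg (fun _ => 0) ((1 + t) / 2) 0) ((1 + t) / 2) p) :=
    horner_rel (R := fun (a : Tm) (v : ℝ) => a.In t v)
      (fun z e => Tm.cst_sound z e t) (fun _ _ _ _ h1 h2 => Tm.add_sound h1 h2)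
      (fun _ _ _ _ h1 h2 => Tm.mul_sound ht h1 h2) _ _ (x_In t) p
  have h2 : horner (realAlg (fun _ => 0) ((1 + t) / 2) 0) ((1 + t) / 2) p
      = pval p ((1 + t) / 2) := by
    clear h1
    induction p with
    | nil => simp [horner, realAlg, pval]
    | cons a l ih =>
      have h1 : horner (realAlg (fun _ => 0) ((1 + t) / 2) 0) ((1 + t) / 2) (a :: l) =
          a.val + (1 + t) / 2 * horner (realAlg (fun _ => 0) ((1 + t) / 2) 0) ((1 + t) / 2) l := rfl
      rw [h1, ih]
      rfl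
  rw [h2] at h1
  exact h1

/-- comparison with a base symbol of `Kc` (polynomial in `(1 + t) / 2`) -/
def chk2 (a : Tm) (s : Sym) : Bool :=
  Nat.ble (a.sub (horner (tmAlg []) (tmAlg []).x s.p)).bc s.eps

theorem chk2_sound {a : Tm} {t v : ℝ} (ht : |t| ≤ 1) (ha : a.In t v) {s : Sym}
    (h : chk2 a s = true) : |v - pval s.p ((1 + t) / 2)| ≤ (s.eps : ℝ) / 2 ^ 60 := by
  have h0 : (a.sub (horner (tmAlg []) (tmAlg []).x s.p)).bc ≤ s.eps := Nat.le_of_ble_eq_true h
  have h0' : ((a.sub (horner (tmAlg []) (tmAlg []).x s.p)).bc : ℝ) ≤ (s.eps : ℝ) := by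
    exact_mod_cast h0
  have h1 := horner_In ht s.p
  have h2 := Tm.bc_sound ht (Tm.sub_sound ha h1)
  rw [abs_mul, abs_of_pos (show (0 : ℝ) < 2 ^ 60 by positivity)] at h2
  rw [le_div_iff₀ (by positivity)]
  exact h2.trans h0'

/-- check of the stack entries at the positions `o` against `S i, S (i + 1), ...` -/
noncomputable def chkL (st : List Tm) (S : Nat → Sym) (o : List Nat) : Nat → Bool :=
  List.rec (motive := fun _ => Nat → Bool) (fun _ => true)
    (fun k _ ih i => cond (chk2 (get ⟨[], 0⟩ st k) (S i)) (ih (Nat.succ i)) false) o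

theorem chkL_sound {st : List Tm} {st' : List ℝ} {t : ℝ} (ht : |t| ≤ 1)
    (hst : ∀ i, (Pool.H47.Kc.get ⟨[], 0⟩ st i).In t (Pool.H47.Kc.get 0 st' i)) (S : Nat → Sym) :
    ∀ (o : List Nat) (i : Nat), chkL st S o i = true →
      ∀ k, k < o.length →
        |Pool.H47.Kc.get 0 st' (o.getD k 0) - pval (S (i + k)).p ((1 + t) / 2)| ≤
        ((S (i + k)).eps : ℝ) / 2 ^ 60 := by
  intro o
  induction o with
  | nil => intro i _ k hk; exact absurd hk (by simp)
  | cons a o ih =>
    intro i h k hk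
    have hc : (chk2 (Pool.H47.Kc.get ⟨[], 0⟩ st a) (S i) && chkL st S o (i + 1)) = true := by
      have : chkL st S (a :: o) i
        = cond (chk2 (Pool.H47.Kc.get ⟨[], 0⟩ st a) (S i)) (chkL st S o (i + 1)) false := rfl
      rw [this] at h
      cases hb : chk2 (Pool.H47.Kc.get ⟨[], 0⟩ st a) (S i) with
      | true => rw [hb] at h; simpa using h
      | false => rw [hb] at h; simp at h
    rw [Bool.and_eq_true] at hc
    cases k with
    | zero =>
      have h2 := chk2_sound ht (hst a) hc.1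
      simpa using h2
    | succ k =>
      have hk' : k < o.length := by simpa using hk
      have h1 := ih (i + 1) hc.2 k hk'
      have e : i + (k + 1) = i + 1 + k := by ring
      rw [e]
      simpa using h1

end Pool.H61.Rh
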