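import Pool.Agent.H61.Re.D0

/-! # Dat: the data of the two calibrations

`extra costate` lists (for `mu = 1`) with denominators `2^30`, coefficient lists of `V` with
denominators `2^20`; the last coefficients of `xx` carry `pj mu / 4`. -/

set_option autoImplicit false

namespace Pool.H61.Rh

/-- lists of the extra costate for `mu = 1` -/
noncomputable def axp : List ℝ := [18983651 / 2 ^ 30, -(11220205 / 2 ^ 30), 538950 / 2 ^ 30, 4424 / 2 ^ 30, -(563 / 2 ^ 30)]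
noncomputable def axq : List ℝ := [9855849 / 2 ^ 30, -(1595395 / 2 ^ 30), 44747 / 2 ^ 30, 1096 / 2 ^ 30, -(40 / 2 ^ 30)]
noncomputable def bup : List ℝ := [177063997 / 2 ^ 30, -(95531716 / 2 ^ 30), 7167706 / 2 ^ 30, -(48004 / 2 ^ 30), -(5937 / 2 ^ 30)]
noncomputable def buq : List ℝ := [106449884 / 2 ^ 30, -(18394599 / 2 ^ 30), 578826 / 2 ^ 30, 12461 / 2 ^ 30, -(526 / 2 ^ 30)]

/-- the number `2 mu sum (axp)` enters the touching condition -/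
noncomputable def pj (μ : ℝ) : ℝ :=
  (2 * (qy m1).im + 2 * μ * (8306257 / 2 ^ 30)) * (1 + Real.sqrt 2) / 3

noncomputable def μA : ℝ := -(741 / 2 ^ 15)
noncomputable def μB : ℝ := 37585 / 2 ^ 15

/-- `mu` times a list -/
noncomputable def sml (μ : ℝ) (l : List ℝ) : List ℝ := l.map (fun a => μ * a)

/-- data -/
noncomputable def dA : VD where
  xx := ⟨[-(9420 / 2 ^ 20), 8470 / 2 ^ 20, 950 / 2 ^ 20 - pj μA / 4],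
    [-(1784 / 2 ^ 20), 2678 / 2 ^ 20, -(894 / 2 ^ 20) + pj μA / 4]⟩
  xb := ⟨[],
    [3744 / 2 ^ 20, -(3331 / 2 ^ 20), -(413 / 2 ^ 20)]⟩
  x3 := ⟨[-(7709 / 2 ^ 20), 3184 / 2 ^ 20, -(1241 / 2 ^ 20)],
    [960 / 2 ^ 20, -(719 / 2 ^ 20), -(241 / 2 ^ 20)]⟩
  x2b := ⟨[13814 / 2 ^ 20, -(12169 / 2 ^ 20), -(486 / 2 ^ 20)],
    [-(3718 / 2 ^ 20), 5461 / 2 ^ 20, -(584 / 2 ^ 20)]⟩
  xu := ⟨[-(5700 / 2 ^ 20), 46868 / 2 ^ 20, 2544 / 2 ^ 20],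
    [-(47783 / 2 ^ 20), 4592 / 2 ^ 20, -(521 / 2 ^ 20)]⟩
  xc := ⟨[-(164672 / 2 ^ 20), 76033 / 2 ^ 20, 1215 / 2 ^ 20],
    [1966 / 2 ^ 20, -(3716 / 2 ^ 20), 1750 / 2 ^ 20]⟩
  x2u := ⟨[53668 / 2 ^ 20, -(17425 / 2 ^ 20), -(1286 / 2 ^ 20)],
    [-(12014 / 2 ^ 20), 13139 / 2 ^ 20, -(1125 / 2 ^ 20)]⟩
  x2c := ⟨[25123 / 2 ^ 20, -(95401 / 2 ^ 20), 14724 / 2 ^ 20],
    [-(76751 / 2 ^ 20), 25099 / 2 ^ 20, -(3902 / 2 ^ 20)]⟩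
  xbu := ⟨[10558 / 2 ^ 20, 11051 / 2 ^ 20, 10410 / 2 ^ 20],
    [12883 / 2 ^ 20, 23843 / 2 ^ 20, -(4707 / 2 ^ 20)]⟩
  ax := ⟨sml μA axp, sml μA axq⟩
  bu := ⟨sml μA bup, sml μA buq⟩

/-- data -/
noncomputable def dB : VD where
  xx := ⟨[-(23996 / 2 ^ 20), 15696 / 2 ^ 20, 8300 / 2 ^ 20 - pj μB / 4],
    [7283 / 2 ^ 20, -(3153 / 2 ^ 20), -(4130 / 2 ^ 20) + pj μB / 4]⟩
  xb := ⟨[],
    [7906 / 2 ^ 20, -(8087 / 2 ^ 20), 181 / 2 ^ 20]⟩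
  x3 := ⟨[-(11738 / 2 ^ 20), 1022 / 2 ^ 20, -(1138 / 2 ^ 20)],
    [4129 / 2 ^ 20, -(4713 / 2 ^ 20), 584 / 2 ^ 20]⟩
  x2b := ⟨[12006 / 2 ^ 20, -(6192 / 2 ^ 20), -(5748 / 2 ^ 20)],
    [-(3275 / 2 ^ 20), 1740 / 2 ^ 20, 1601 / 2 ^ 20]⟩
  xu := ⟨[122079 / 2 ^ 20, -(30969 / 2 ^ 20), -(9095 / 2 ^ 20)],
    [-(63072 / 2 ^ 20), -(19356 / 2 ^ 20), 413 / 2 ^ 20]⟩
  xc := ⟨[-(252858 / 2 ^ 20), 97979 / 2 ^ 20, -(9151 / 2 ^ 20)],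
    [6772 / 2 ^ 20, -(21485 / 2 ^ 20), 14713 / 2 ^ 20]⟩
  x2u := ⟨[58727 / 2 ^ 20, -(61337 / 2 ^ 20), 3574 / 2 ^ 20],
    [-(6081 / 2 ^ 20), 3572 / 2 ^ 20, 2509 / 2 ^ 20]⟩
  x2c := ⟨[-(45738 / 2 ^ 20), 4530 / 2 ^ 20, 2900 / 2 ^ 20],
    [-(18930 / 2 ^ 20), -(24860 / 2 ^ 20), 5482 / 2 ^ 20]⟩
  xbu := ⟨[-(68597 / 2 ^ 20), 45841 / 2 ^ 20, 32347 / 2 ^ 20],
    [-(2065 / 2 ^ 20), 16843 / 2 ^ 20, -(5187 / 2 ^ 20)]⟩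
  ax := ⟨sml μB axp, sml μB axq⟩
  bu := ⟨sml μB bup, sml μB buq⟩

theorem dA_junc : dA.Junc := by
  constructor <;> simp only [dA, sml, axp, axq, bup, buq, hor, List.map] <;> ring

theorem dB_junc : dB.Junc := by
  constructor <;> simp only [dB, sml, axp, axq, bup, buq, hor, List.map] <;> ring

end Pool.H61.Rh
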