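import Pool.Agent.H61.Re.Z0

/-! # Fr: the scaled form of the main inequality

`x = r X`, `T`, `U` with `r² T = d (η - V0 - DV x)`, `r U = d (η - (f/f*) V0)`:
`r² Fr = 36 (4 Rm f⁴ (Eh - ν |x|² f²) - |Gh|²) d²`. -/

set_option autoImplicit false

namespace Pool.H61.Rh

open Complex

/-- linear part of `G` -/
noncomputable def Pt.L (P : Pt) (x : ℂ) : ℂ :=
  ((1 / 2 - oc : ℝ) : ℂ) * P.M x + (dt P.ns x : ℂ) * P.kap - P.ZT x P.b + (P.aeV : ℂ) * P.fv x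

noncomputable def VAr (c : VC) (r : ℝ) (X : ℂ) : ℝ :=
  (c.xx * X ^ 2 + c.xb * (normSq X : ℂ)
    + (r : ℂ) * (c.x3 * X ^ 3 + c.x2b * ((normSq X : ℂ) * X))).im

noncomputable def VBr (c : VC) (r : ℝ) (X : ℂ) : ℂ :=
  I * (starRingEnd ℂ) (c.xu * X + (r : ℂ) * (c.x2u * X ^ 2 + c.xbu * (normSq X : ℂ)))
    - I * (c.xc * X + (r : ℂ) * (c.x2c * X ^ 2))

noncomputable def VAxr (c : VC) (r : ℝ) (X : ℂ) : ℂ :=
  I * (starRingEnd ℂ) (2 * c.xx * X + (r : ℂ) * (3 * c.x3 * X ^ 2 + 2 * c.x2b * (normSq X : ℂ)))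
    + ((2 * c.xb.im : ℝ) : ℂ) * X - (r : ℂ) * (I * (c.x2b * X ^ 2))

/-- `f` at `y* + r X` -/
noncomputable def Pt.fr (P : Pt) (r : ℝ) (X : ℂ) : ℝ := P.fs + dt P.ns X * r

/-- `y* + r X` -/
noncomputable def Pt.yr (P : Pt) (r : ℝ) (X : ℂ) : ℂ := P.ys + X * (r : ℂ)

/-- scaled second order part -/
noncomputable def Pt.Xr (P : Pt) (r : ℝ) (X T U : ℂ) (d : ℝ) : ℝ :=
  -dt P.a T - (dt P.ns X * dt P.sa X + P.fr r X * VAr P.cs r X) * d - dt (VAxr P.c r X) U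
    + dt (VBr P.c r X) (I * P.M X) * d

/-- scaled `G` without the term with `U` -/
noncomputable def Pt.Hr (P : Pt) (r : ℝ) (X : ℂ) : ℂ :=
  P.L X - ((dt P.sa X + VAr P.cs r X * r - dt (VAxr P.c r X) (P.V0 / (P.fs : ℂ)) : ℝ) : ℂ)
      * P.fv (P.yr r X)
    - (VBr P.cs r X + 2 * I * VBr P.c r X) * (P.fr r X : ℂ) - P.ZT (P.yr r X) (VBr P.c r X)

noncomputable def Pt.E12 (P : Pt) (r : ℝ) (X T U : ℂ) (d : ℝ) : ℝ :=
  12 * (P.fr r X * P.Xr r X T U d) - normSq (P.M X) * d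

noncomputable def Pt.G6 (P : Pt) (r : ℝ) (X T U : ℂ) (d : ℝ) : ℂ :=
  P.ZT (P.yr r X) (I * P.M X) * ((d * P.fr r X : ℝ) : ℂ)
    + P.fv (P.yr r X) * ((r * (normSq (P.M X) * d - 6 * (P.fr r X * P.Xr r X T U d)) : ℝ) : ℂ)
    + (P.Hr r X * (d : ℂ) - VBd P.c (X * (r : ℂ)) U) * ((6 * P.fr r X ^ 2 : ℝ) : ℂ)

/-- the scaled function -/
noncomputable def Pt.Fr (P : Pt) (r : ℝ) (X T U : ℂ) (d Rm ν : ℝ) : ℝ :=
  (P.E12 r X T U d - normSq X * P.fr r X ^ 2 * (d * (12 * ν))) * (d * P.fr r X ^ 4) * Rm * 12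
    - normSq (P.G6 r X T U d)

lemma dt_smul_left' (t : ℝ) (a b : ℂ) : dt ((t : ℂ) * a) b = t * dt a b := by
  simp [dt]; ring

lemma dt_smul_right' (t : ℝ) (a b : ℂ) : dt a ((t : ℂ) * b) = t * dt a b := by
  simp [dt]; ring

lemma VA_scale (c : VC) (r : ℝ) (X : ℂ) : VA c (X * (r : ℂ)) = r ^ 2 * VAr c r X := by
  have h : c.xx * (X * (r : ℂ)) ^ 2 + c.xb * (normSq (X * (r : ℂ)) : ℂ) + c.x3 * (X * (r : ℂ)) ^ 3
      + c.x2b * ((normSq (X * (r : ℂ)) : ℂ) * (X * (r : ℂ)))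
      = ((r ^ 2 : ℝ) : ℂ) * (c.xx * X ^ 2 + c.xb * (normSq X : ℂ)
    + (r : ℂ) * (c.x3 * X ^ 3 + c.x2b * ((normSq X : ℂ) * X))) := by
    rw [normSq_mul, normSq_ofReal]; push_cast; ring
  rw [VA, h, im_ofReal_mul, VAr]

lemma VB_scale (c : VC) (r : ℝ) (X : ℂ) : VB c (X * (r : ℂ)) = (r : ℂ) * VBr c r X := by
  rw [VB, VBr, normSq_mul, normSq_ofReal]
  simp only [map_add, map_mul, map_pow, conj_ofReal]
  push_cast; ring

lemma VAx_scale (c : VC) (r : ℝ) (X : ℂ) : VAx c (X * (r : ℂ)) = (r : ℂ) * VAxr c r X := by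
  rw [VAx, VAxr, normSq_mul, normSq_ofReal]
  simp only [map_add, map_mul, map_pow, conj_ofReal, map_ofNat]
  push_cast; ring

lemma M_scale (P : Pt) (r : ℝ) (X : ℂ) : P.M (X * (r : ℂ)) = (r : ℂ) * P.M X := by
  have h : dt P.ns (X * (r : ℂ)) = r * dt P.ns X := by rw [mul_comm X, dt_smul_right']
  rw [Pt.M, Pt.M, h]; push_cast; ring

lemma f_scale (P : Pt) (r : ℝ) (X : ℂ) : P.f (X * (r : ℂ)) = P.fr r X := by
  rw [Pt.f, Pt.fr, mul_comm X, dt_smul_right']; ring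

lemma fv_add (P : Pt) (x y : ℂ) : P.fv (x + y) = P.fv x + P.fv y := by
  have h : dt (x + y) P.ns = dt x P.ns + dt y P.ns := by simp [dt]; ring
  rw [Pt.fv, Pt.fv, Pt.fv, h]; push_cast; ring

lemma fv_smul (P : Pt) (t : ℝ) (x : ℂ) : P.fv ((t : ℂ) * x) = (t : ℂ) * P.fv x := by
  rw [Pt.fv, Pt.fv, dt_smul_left']; push_cast; ring

lemma ZT_add_left (P : Pt) (x y w : ℂ) : P.ZT (x + y) w = P.ZT x w + P.ZT y w := by
  have h1 : dt (x + y) P.ns = dt x P.ns + dt y P.ns := by simp [dt]; ring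
  have h2 : dt w (-(I * (x + y))) = dt w (-(I * x)) + dt w (-(I * y)) := by simp [dt]; ring
  rw [Pt.ZT, Pt.ZT, Pt.ZT, h1, h2, fv_add]; push_cast; ring

lemma ZT_smul_left (P : Pt) (t : ℝ) (x w : ℂ) : P.ZT ((t : ℂ) * x) w = (t : ℂ) * P.ZT x w := by
  have h2 : dt w (-(I * ((t : ℂ) * x))) = t * dt w (-(I * x)) := by simp [dt]; ring
  rw [Pt.ZT, Pt.ZT, dt_smul_left', h2, fv_smul]; push_cast; ring

lemma ZT_smul_right (P : Pt) (t : ℝ) (x w : ℂ) : P.ZT x ((t : ℂ) * w) = (t : ℂ) * P.ZT x w := by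
  rw [Pt.ZT, Pt.ZT, dt_smul_left', dt_smul_left']; push_cast; ring

lemma VBd_smul (c : VC) (x : ℂ) (t : ℝ) (h : ℂ) : VBd c x ((t : ℂ) * h) = (t : ℂ) * VBd c x h := by
  rw [VBd, VBd, dt_smul_right']
  simp only [map_add, map_mul, conj_ofReal]
  push_cast
  ring

theorem Fr_eq (P : Pt) (hfv : P.fvs = P.fv P.ys) (r : ℝ) (X T U η : ℂ) (d Rm ν : ℝ)
    (hT : ((r ^ 2 : ℝ) : ℂ) * T = (d : ℂ) * (η - P.V0 - P.DV (X * (r : ℂ))))
    (hU : (r : ℂ) * U = (d : ℂ) * (η - ((P.fr r X / P.fs : ℝ) : ℂ) * P.V0)) :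
    P.Fr r X T U d Rm ν * r ^ 2 = 36 * ((4 * Rm * P.f (X * (r : ℂ)) ^ 4
      * (P.Eh (X * (r : ℂ)) η - ν * normSq (X * (r : ℂ)) * P.f (X * (r : ℂ)) ^ 2)
      - normSq (P.Gh (X * (r : ℂ)) η)) * d ^ 2) := by
  have e1 : dt P.ns (X * (r : ℂ)) = r * dt P.ns X := by rw [mul_comm X, dt_smul_right']
  have e2 : dt P.sa (X * (r : ℂ)) = r * dt P.sa X := by rw [mul_comm X, dt_smul_right']
  -- second order part
  have hX : d * P.X (X * (r : ℂ)) η = r ^ 2 * P.Xr r X T U d := by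
    have a1 : d * dt P.a (η - P.V0 - P.DV (X * (r : ℂ))) = r ^ 2 * dt P.a T := by
      rw [← dt_smul_right', ← hT, dt_smul_right']
    have a2 : d * dt (VAx P.c (X * (r : ℂ))) (η - ((P.fr r X / P.fs : ℝ) : ℂ) * P.V0)
        = r ^ 2 * dt (VAxr P.c r X) U := by
      rw [← dt_smul_right', ← hU, VAx_scale, dt_smul_right', dt_smul_left']; ring
    have a3 : dt (VB P.c (X * (r : ℂ))) (I * P.M (X * (r : ℂ)))
        = r ^ 2 * dt (VBr P.c r X) (I * P.M X) := by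
      rw [VB_scale, M_scale, show I * ((r : ℂ) * P.M X) = (r : ℂ) * (I * P.M X) by ring,
        dt_smul_right', dt_smul_left']; ring
    rw [Pt.X, f_scale, e1, e2, VA_scale, a3]
    calc d * (-dt P.a (η - P.V0 - P.DV (X * (r : ℂ))) - r * dt P.ns X * (r * dt P.sa X)
          - P.fr r X * (r ^ 2 * VAr P.cs r X)
          - dt (VAx P.c (X * (r : ℂ))) (η - ((P.fr r X / P.fs : ℝ) : ℂ) * P.V0)
          + r ^ 2 * dt (VBr P.c r X) (I * P.M X))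
        = -(d * dt P.a (η - P.V0 - P.DV (X * (r : ℂ))))
          - d * (r * dt P.ns X * (r * dt P.sa X)) - d * (P.fr r X * (r ^ 2 * VAr P.cs r X))
          - d * dt (VAx P.c (X * (r : ℂ))) (η - ((P.fr r X / P.fs : ℝ) : ℂ) * P.V0)
          + d * (r ^ 2 * dt (VBr P.c r X) (I * P.M X)) := by ring
      _ = r ^ 2 * P.Xr r X T U d := by rw [a1, a2, Pt.Xr]; ring
  -- gradient part
  have hG : (d : ℂ) * P.G (X * (r : ℂ)) η
      = (r : ℂ) * (P.Hr r X * (d : ℂ) - VBd P.c (X * (r : ℂ)) U) := by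
    have b1 : (d : ℂ) * VBd P.c (X * (r : ℂ)) (η - ((P.fr r X / P.fs : ℝ) : ℂ) * P.V0)
        = (r : ℂ) * VBd P.c (X * (r : ℂ)) U := by
      rw [← VBd_smul, ← hU, VBd_smul]
    have b2 : dt (VAx P.c (X * (r : ℂ))) P.V0 / P.fs
        = r * dt (VAxr P.c r X) (P.V0 / (P.fs : ℂ)) := by
      rw [VAx_scale, dt_smul_left', div_eq_inv_mul P.V0, ← ofReal_inv, dt_smul_right']; ring
    have b3 : P.ZT (P.ys + X * (r : ℂ)) P.b - P.ZT P.ys P.b = (r : ℂ) * P.ZT X P.b := by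
      rw [ZT_add_left, mul_comm X, ZT_smul_left]; ring
    have b4 : P.ZT (P.ys + X * (r : ℂ)) (VB P.c (X * (r : ℂ)))
        = (r : ℂ) * P.ZT (P.yr r X) (VBr P.c r X) := by
      rw [VB_scale, ZT_smul_right]; rfl
    have b5 : P.fv (P.ys + X * (r : ℂ)) - P.fvs = (r : ℂ) * P.fv X + (P.fv P.ys - P.fvs) := by
      rw [fv_add, mul_comm X, fv_smul]; ring
    have b6 : P.G (X * (r : ℂ)) η
        = (r : ℂ) * (P.L X - ((dt P.sa X + VAr P.cs r X * r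
            - dt (VAxr P.c r X) (P.V0 / (P.fs : ℂ)) : ℝ) : ℂ) * P.fv (P.yr r X)
          - (VBr P.cs r X + 2 * I * VBr P.c r X) * (P.fr r X : ℂ)
          - P.ZT (P.yr r X) (VBr P.c r X))
          - VBd P.c (X * (r : ℂ)) (η - ((P.fr r X / P.fs : ℝ) : ℂ) * P.V0) := by
      rw [Pt.G, b5, b4, b3, b2, f_scale, M_scale, VA_scale, VB_scale, VB_scale, e1, e2, hfv, Pt.L,
        Pt.yr]
      push_cast
      ring
    rw [b6, Pt.Hr, mul_sub, b1]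
    ring
  have hM : normSq (P.M (X * (r : ℂ))) = r ^ 2 * normSq (P.M X) := by
    rw [M_scale, normSq_mul, normSq_ofReal]; ring
  have hE : 12 * (d * P.Eh (X * (r : ℂ)) η) = r ^ 2 * P.E12 r X T U d := by
    rw [Pt.Eh, hM, f_scale, Pt.E12]
    linear_combination 12 * P.fr r X * hX
  have hGh : 6 * ((d : ℂ) * P.Gh (X * (r : ℂ)) η) = (r : ℂ) * P.G6 r X T U d := by
    have c1 : P.ZT (P.ys + X * (r : ℂ)) (I * P.M (X * (r : ℂ)))
        = (r : ℂ) * P.ZT (P.yr r X) (I * P.M X) := by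
      rw [M_scale, show I * ((r : ℂ) * P.M X) = (r : ℂ) * (I * P.M X) by ring, ZT_smul_right]; rfl
    have hXc : (d : ℂ) * (P.X (X * (r : ℂ)) η : ℂ) = (r : ℂ) ^ 2 * (P.Xr r X T U d : ℂ) := by
      exact_mod_cast congrArg (fun t : ℝ => (t : ℂ)) hX
    rw [Pt.Gh, c1, hM, f_scale, Pt.G6, show P.ys + X * (r : ℂ) = P.yr r X from rfl]
    push_cast
    linear_combination 6 * (P.fr r X : ℂ) ^ 2 * hG - 6 * (P.fr r X : ℂ) * P.fv (P.yr r X) * hXc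
  have hN : normSq (X * (r : ℂ)) = r ^ 2 * normSq X := by
    rw [normSq_mul, normSq_ofReal]; ring
  have hGn : 36 * (d ^ 2 * normSq (P.Gh (X * (r : ℂ)) η)) = r ^ 2 * normSq (P.G6 r X T U d) := by
    have := congrArg normSq hGh
    rw [normSq_mul, normSq_mul, normSq_mul, normSq_ofReal, normSq_ofReal,
      show (6 : ℂ) = ((6 : ℝ) : ℂ) by norm_num, normSq_ofReal] at this
    linear_combination this
  rw [hN, f_scale, Pt.Fr]
  linear_combination (-(12 * Rm * P.fr r X ^ 4 * d)) * hE + hGn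

end Pool.H61.Rh
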