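import Pool.Agent.H61.Re.F2
import Pool.Agent.H61.Rz.Dat

/-! # L1: the fields of `d.pt m` in terms of `cosh m`, `sinh m`, `1/S`, `ρ*`, `1/ρ*`, `1/f*` -/

set_option autoImplicit false

namespace Pool.H61.Rh

open Complex

lemma oS_ne (m : ℝ) : oS m ≠ 0 := by linarith [oS_gt m]

lemma oK_ne : oK ≠ 0 := oK_pos.ne'

lemma oR_ne (m : ℝ) : oR m ≠ 0 := by linarith [oR_ge m]

lemma oF_pos' (m : ℝ) : 0 < oF m := by
  have h1 := oy_w m
  have h2 : 0 < 3 * oK / oS m ^ 2 := by have := oK_pos; have := oS_gt m; positivity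
  have hy : ‖oy m‖ < 1 := by
    have h3 : normSq (oy m) < 1 := by linarith
    rw [normSq_eq_norm_sq] at h3
    nlinarith [norm_nonneg (oy m)]
  have h3 : |dt (oy m) (oN m)| ≤ ‖oy m‖ * ‖oN m‖ := by
    rw [abs_le]
    have e : dt (oy m) (oN m) = (oy m * (starRingEnd ℂ) (oN m)).re := by
      simp only [dt, mul_re, conj_re, conj_im]; ring
    have := abs_re_le_norm (oy m * (starRingEnd ℂ) (oN m))
    rw [norm_mul, norm_conj, ← e] at this
    exact abs_le.mp this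
  have h4 : ‖oN m‖ ≤ 1 := by
    have hR := oR_sq m
    have hR1 := oR_ge m
    rw [oN, norm_div, norm_real, Real.norm_of_nonneg (by linarith), div_le_one (by linarith)]
    rw [normSq_eq_norm_sq] at hR
    nlinarith [norm_nonneg (ov m)]
  rw [oF_eq]
  have h5 : ‖oy m‖ * ‖oN m‖ < 1 := by nlinarith [norm_nonneg (oy m), norm_nonneg (oN m)]
  have := (abs_le.mp h3).1
  linarith

lemma oF_ne (m : ℝ) : oF m ≠ 0 := (oF_pos' m).ne'

lemma oy_l1 (m : ℝ) : oy m = ⟨(kp * Real.cosh m - 2) * (1 / oS m),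
    s3 * (kp * Real.sinh m) * (1 / oS m)⟩ := by
  apply Complex.ext
  · show (kp * Real.cosh m - 2) / (2 * kp * Real.cosh m - 1) = _
    rw [show 2 * kp * Real.cosh m - 1 = oS m from rfl]; ring
  · show s3 * kp * Real.sinh m / (2 * kp * Real.cosh m - 1) = _
    rw [show 2 * kp * Real.cosh m - 1 = oS m from rfl]; ring

lemma ov_l1 (m : ℝ) :
    ov m = -(ob m * (starRingEnd ℂ) (oa m)) * ((1 / oR m : ℝ) : ℂ) := by
  have h : (oR m : ℂ) ≠ 0 := by exact_mod_cast oR_ne m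
  rw [← oR_mul_ov]
  push_cast
  field_simp

lemma oN_l1 (m : ℝ) : oN m = ov m * ((1 / oR m : ℝ) : ℂ) := by
  rw [oN]; push_cast; ring

lemma oB_l1 (m : ℝ) : oB m
    = -(I * (oy m - oN m * ((dt (oy m) (oN m) : ℝ) : ℂ))) * ((oR m * (1 / oF m) : ℝ) : ℂ) := by
  have hR := oR_ne m
  have hF := oF_ne m
  have hRc : (oR m : ℂ) ≠ 0 := by exact_mod_cast hR
  have hFc : (oF m : ℂ) ≠ 0 := by exact_mod_cast hF
  have h1 : Real.sqrt (1 + normSq (ov m)) = oR m := rfl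
  have h4 : ov m = (oR m : ℂ) * oN m := by rw [oN]; field_simp
  have h2 : dt (oy m) (ov m) = oR m * dt (oy m) (oN m) := by
    nth_rewrite 1 [h4]
    simp [dt]; ring
  have h3 : oR m + oR m * dt (oy m) (oN m) = oR m * oF m := by rw [oF_eq]; ring
  rw [oB, bp, h1, h2, h3, ← oR_sq, h4]
  push_cast
  field_simp

lemma oV_l1 (m : ℝ) : oV m = I * ((3 * oK * (1 / oS m) ^ 2 : ℝ) : ℂ)
    * (((2 * (oK * (1 / oS m)) : ℝ) : ℂ) - oy m) := by
  have hS := oS_ne m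
  have hd : 1 - 2 * dt (uu 0) (oy m) = 3 / oS m := by
    rw [← oy_d0]
    simp only [dt, show (uu 0).re = 1 from rfl, show (uu 0).im = 0 from rfl]; ring
  have hK := oK_ne
  rw [oV, Vx, hd, oy_w, show uu 0 = 1 from rfl]
  rw [show 3 * oK * (1 / oS m) ^ 2 = 3 * oK / oS m ^ 2 by ring,
    show 2 * (3 * oK / oS m ^ 2) / (3 / oS m) = 2 * (oK * (1 / oS m)) by field_simp, mul_one]

lemma w_l1 (m : ℝ) : 1 - normSq (oy m) = 3 * oK * (1 / oS m) ^ 2 := by rw [oy_w]; ring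

lemma d_l1 (m : ℝ) : 1 - 2 * (oy m).re = 3 * (1 / oS m) := by rw [oy_d0]; ring

lemma wd_l1 (m : ℝ) : (1 - normSq (oy m)) / (1 - 2 * (oy m).re) = oK * (1 / oS m) := by
  have := oS_ne m
  rw [oy_w, oy_d0]; field_simp

lemma qy_l1 (m : ℝ) : qy m = ((oS m * s3 * (1 / 27) * (1 / oK) ^ 2 : ℝ) : ℂ)
    * (tk m + ((oc * (3 * (4 - Real.sqrt 2) / 4) : ℝ) : ℂ) * pk m) := by
  have h3 : s3 ^ 2 = 3 := s3_sq
  have h3p := s3_pos
  have hK := oK_ne
  rw [qy, show oS m / (9 * s3 * oK ^ 2) = oS m * s3 * (1 / 27) * (1 / oK) ^ 2 by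
    field_simp; rw [h3]; ring]

lemma DVT_l1 (m : ℝ) (q : ℂ) : DVT (oy m) q
    = -2 * oy m * ((dt q (I * (((2 * (oK * (1 / oS m)) : ℝ) : ℂ) - oy m))
        + 2 * (oK * (1 / oS m)) * dt q I : ℝ) : ℂ)
      + ((4 * (oK * (1 / oS m)) ^ 2 * dt q I : ℝ) : ℂ)
      + ((3 * oK * (1 / oS m) ^ 2 : ℝ) : ℂ) * (I * q) := by
  have hS := oS_ne m
  have e1 : 2 * (1 - normSq (oy m)) / (1 - 2 * (oy m).re) = 2 * (oK * (1 / oS m)) := by
    rw [← wd_l1]; ring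
  have e2 : 4 * (1 - normSq (oy m)) ^ 2 / (1 - 2 * (oy m).re) ^ 2
      = 4 * (oK * (1 / oS m)) ^ 2 := by
    rw [← wd_l1, div_pow]; ring
  rw [DVT, e1, e2, w_l1]

lemma iosd_l1 (m : ℝ) : 1 / osd m = s3 * oK * (1 / oS m) * (1 / oF m) := by
  have := oS_ne m
  have := oF_ne m
  have := oK_ne
  have := s3_pos
  rw [osd_eq, otau'_eq]; field_simp

/-- derivative of `V_0` in real form -/
lemma DV_l1 (d : VD) (m : ℝ) (x : ℂ) : (d.pt m).DV x
    = I * ((-2 * dt (oy m) x : ℝ) : ℂ) * (((2 * (oK * (1 / oS m)) : ℝ) : ℂ) - oy m)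
      + I * (((-4 * (oK * (1 / oS m)) * dt (oy m) x + 4 * (oK * (1 / oS m)) ^ 2 * x.re : ℝ) : ℂ)
        - ((3 * oK * (1 / oS m) ^ 2 : ℝ) : ℂ) * x) := by
  have hS := oS_ne m
  have e1 : 2 * (1 - normSq (oy m)) / (1 - 2 * (oy m).re) = 2 * (oK * (1 / oS m)) := by
    rw [← wd_l1]; ring
  have e2 : (1 - normSq (oy m)) * (-4 * dt (oy m) x / (1 - 2 * (oy m).re)
      + 4 * (1 - normSq (oy m)) * x.re / (1 - 2 * (oy m).re) ^ 2)
      = -4 * (oK * (1 / oS m)) * dt (oy m) x + 4 * (oK * (1 / oS m)) ^ 2 * x.re := by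
    rw [← wd_l1, div_pow]
    generalize (1 - 2 * (oy m).re) = D
    ring
  show I * ((-2 * dt (oy m) x : ℝ) : ℂ) *
      (((2 * (1 - normSq (oy m)) / (1 - 2 * (oy m).re) : ℝ) : ℂ) - oy m)
    + I * ((1 - normSq (oy m) : ℝ) : ℂ) *
      (((-4 * dt (oy m) x / (1 - 2 * (oy m).re)
        + 4 * (1 - normSq (oy m)) * x.re / (1 - 2 * (oy m).re) ^ 2 : ℝ) : ℂ) - x) = _
  rw [e1, ← e2, ← w_l1]
  push_cast
  ring

end Pool.H61.Rh
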