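import Pool.Agent.H61.Rz.Rr
import Pool.Agent.H61.Rz.L2

/-! # generated: program `pE0b` (chart b of j = 0) -/

set_option autoImplicit false
set_option maxRecDepth 100000
set_option linter.unusedVariables false

namespace Pool.H61.Rh

open Complex Pool.H47.Kc

/-- program -/
def pE0b : List Op := [.x, .y, .base 2, .mul 2 1, .cst 2 0, .mul 1 0, .sub 3 0, .mul 5 5,
  .cst 1 0, .add 1 0, .base 0, .base 1, .mul 10 1, .add 1 0, .base 3, .mul 13 0,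
  .add 4 0, .mul 0 0, .cst 4 0, .mul 1 0, .base 4, .mul 11 0, .mul 17 0, .sub 3 0,
  .mul 10 5, .mul 24 15, .add 1 0, .mul 17 0, .mul 27 0, .add 5 0, .mul 25 0, .mul 26 17,
  .add 6 0, .mul 31 0, .mul 24 23, .mul 25 23, .add 2 1, .add 4 1, .mul 31 0, .mul 32 2,
  .add 9 0, .base 5, .base 6, .mul 41 1, .add 1 0, .base 15, .mul 45 1, .add 1 0,
  .base 7, .mul 47 0, .base 8, .add 1 0, .base 9, .mul 51 0, .base 10, .add 1 0,
  .mul 49 4, .mul 50 1, .mul 57 19, .mul 58 18, .sub 3 1, .add 3 1, .base 11, .base 12,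
  .mul 57 19, .mul 2 0, .mul 2 1, .sub 6 1, .sub 6 1, .add 65 58, .add 69 58, .mul 29 1,
  .mul 29 1, .add 1 0, .base 16, .mul 5 0, .base 17, .mul 6 0, .add 2 0, .mul 9 2,
  .base 18, .mul 10 0, .add 2 0, .base 19, .mul 82 0, .base 20, .add 1 0, .base 21,
  .mul 86 0, .base 22, .add 1 0, .mul 4 4, .mul 1 1, .add 1 0, .base 45, .mul 93 0,
  .base 46, .add 1 0, .mul 90 0, .base 47, .mul 98 0, .base 48, .add 1 0, .add 4 0,
  .base 42, .mul 97 0, .base 43, .mul 105 0, .add 2 0, .base 44, .add 1 0, .mul 110 7,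
  .add 1 0, .base 33, .mul 112 0, .base 34, .add 1 0, .base 36, .mul 110 0, .base 37,
  .mul 118 0, .add 2 0, .base 38, .add 1 0, .mul 123 0, .add 8 0, .mul 124 10, .base 35,
  .add 1 0, .base 39, .mul 122 0, .base 40, .mul 130 0, .add 2 0, .base 41, .add 1 0,
  .mul 135 0, .add 8 0, .base 49, .mul 137 0, .base 50, .add 1 0, .base 53, .mul 135 0,
  .base 54, .mul 143 0, .add 2 0, .base 55, .add 1 0, .mul 148 0, .add 8 0, .base 51,
  .mul 150 0, .base 52, .add 1 0, .base 56, .mul 148 0, .base 57, .mul 156 0, .add 2 0,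
  .base 58, .add 1 0, .mul 161 0, .add 8 0, .base 59, .mul 163 0, .base 60, .add 1 0,
  .base 63, .mul 161 0, .base 64, .mul 169 0, .add 2 0, .base 65, .add 1 0, .mul 174 0,
  .add 8 0, .base 61, .mul 176 0, .base 62, .add 1 0, .base 66, .mul 174 0, .base 67,
  .mul 182 0, .add 2 0, .base 68, .add 1 0, .mul 187 0, .add 8 0, .mul 188 122, .mul 186 0,
  .mul 190 123, .add 125 0, .mul 189 125, .mul 127 56, .mul 127 55, .add 1 0, .mul 55 6, .mul 54 5,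
  .add 1 0, .mul 53 6, .add 1 0, .mul 202 0, .add 6 0, .mul 137 53, .mul 137 52, .add 1 0,
  .mul 52 16, .mul 51 15, .add 1 0, .mul 50 16, .add 1 0, .mul 212 0, .add 6 0, .base 31,
  .base 32, .mul 215 1, .add 1 0, .base 29, .base 30, .mul 182 1, .mul 181 1, .sub 0 1,
  .mul 179 5, .mul 177 112, .add 1 0, .mul 220 0, .add 4 0, .mul 161 103, .mul 161 92, .add 1 0,
  .add 3 0, .mul 142 82, .mul 147 70, .sub 0 1, .mul 229 0, .sub 0 4, .base 23, .mul 237 0,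
  .base 24, .add 1 0, .base 25, .mul 241 0, .base 26, .add 1 0, .mul 183 120, .mul 183 109,
  .add 1 0, .base 27, .base 28, .mul 180 100, .mul 182 88, .sub 1 0, .mul 212 0, .mul 212 1,
  .mul 105 6, .mul 93 6, .add 1 0, .mul 180 0, .mul 177 1, .add 6 1, .add 6 1, .mul 189 99,
  .mul 190 113, .add 3 1, .sub 3 1, .mul 266 154, .add 49 0, .sub 0 20, .mul 191 0, .mul 188 1,
  .sub 30 1, .sub 27 1, .mul 269 110, .mul 270 124, .sub 99 1, .add 87 1, .mul 230 1, .mul 231 1,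
  .sub 7 1, .sub 7 1, .sub 1 16, .sub 1 16, .mul 236 46, .cst 6 0, .mul 1 0, .mul 280 193,
  .mul 283 1, .sub 0 1, .mul 242 242, .mul 220 200, .mul 222 205, .add 1 0, .mul 252 0, .mul 252 1,
  .mul 205 46, .mul 210 46, .sub 0 1, .mul 220 0, .mul 217 1, .sub 1 6, .sub 1 6, .mul 229 216,
  .mul 230 213, .add 3 1, .add 3 1, .mul 300 259, .mul 2 0, .mul 2 1, .sub 22 23, .mul 310 0,
  .mul 233 0, .mul 230 1, .add 5 1, .add 5 1, .mul 309 33, .mul 310 33, .sub 1 113, .sub 1 104,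
  .mul 34 29, .mul 2 0, .mul 2 1, .add 8 1, .add 8 1]

/-- positions of the outputs -/
def pE0b_out : List ℕ := [35, 1, 0, 277]

/-- the final condition of the trace -/
def pE0b_valQ (P : Pt) (l : List ℝ) (r s : ℝ) (st : List ℝ) : Prop := run (realAlg (fun i => get 0 (P.syl l) i) (r) (s)) pE0b [] = st

theorem pE0b_val_s5 (P : Pt) (l : List ℝ) (r s : ℝ)
    (v0 : ℝ) (h0 : v0 = r) (v1 : ℝ) (X : ℂ) (e_X_d : X = (⟨s, 1⟩ : ℂ)) (v2 : ℝ) (v3 : ℝ) (v4 : ℝ)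
    (h4 : v4 = (2 : ℝ)) (v5 : ℝ) (v6 : ℝ) (d : ℝ) (e_d_d : d = 1 - 2 * P.ys.re - 2 * (r * X.re))
    (e_d_v : v6 = d) (v7 : ℝ) (v8 : ℝ) (v9 : ℝ) (v10 : ℝ) (v11 : ℝ) (v12 : ℝ) (v13 : ℝ) (yx : ℝ)
    (e_yx_d : yx = dt P.ys X) (v14 : ℝ) (v15 : ℝ) (v16 : ℝ) (v17 : ℝ) (v18 : ℝ) (v19 : ℝ)
    (v20 : ℝ) (v21 : ℝ) (v22 : ℝ) (v23 : ℝ) (v24 : ℝ) (v25 : ℝ) (v26 : ℝ) (v27 : ℝ) (v28 : ℝ)
    (v29 : ℝ) (S : ℝ)
    (e_S_d : S = 4 * ((P.ys.re - (1 - normSq P.ys) / (1 - 2 * P.ys.re)) * X.re + P.ys.im * X.im) ^ 2 - 2 * (1 - normSq P.ys) * normSq X + (4 * yx + normSq X * r) * normSq X * r)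
    (v30 : ℝ) (v31 : ℝ) (v32 : ℝ) (v33 : ℝ) (v34 : ℝ) (v35 : ℝ) (v36 : ℝ) (v37 : ℝ) (v38 : ℝ)
    (v39 : ℝ) (v40 : ℝ) (T : ℂ)
    (e_T_d : T = I * ((2 * S : ℝ) : ℂ) + I * (X * ((2 * yx + normSq X * r : ℝ) : ℂ) + P.ys * (normSq X : ℂ)) * (d : ℂ))
    (v41 : ℝ) (h41 : v41 = P.ns.re) (v42 : ℝ) (h42 : v42 = P.ns.im) (v43 : ℝ) (v44 : ℝ) (e : ℝ)
    (e_e_d : e = dt P.ns X) (v45 : ℝ) (v46 : ℝ) (v47 : ℝ) (f : ℝ) (e_f_d : f = P.fs + e * r)
    (e_f_v : v47 = f) (v48 : ℝ) (v49 : ℝ) (v50 : ℝ) (v51 : ℝ) (v52 : ℝ) (v53 : ℝ) (v54 : ℝ)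
    (v55 : ℝ) (v56 : ℝ) (v57 : ℝ) (v58 : ℝ) (v59 : ℝ) (v60 : ℝ) (v61 : ℝ) (v62 : ℝ) (v63 : ℝ)
    (v64 : ℝ) (v65 : ℝ) (v66 : ℝ) (v67 : ℝ) (v68 : ℝ) (U : ℂ)
    (e_U_d : U = P.DV X * (d : ℂ) + T * (r : ℂ) - P.V0 / (P.fs : ℂ) * ((d * e : ℝ) : ℂ))
    (v69 : ℝ) (v70 : ℝ) (y : ℂ) (e_y_d : y = P.ys + X * (r : ℂ)) (e_y_re : v69 = y.re)
    (e_y_im : v70 = y.im) (v71 : ℝ) (v72 : ℝ) (v73 : ℝ) (k : ℝ) (e_k_d : k = dt y P.ns)
    (e_k_v : v73 = k) (v74 : ℝ) (v75 : ℝ) (v76 : ℝ) (v77 : ℝ) (v78 : ℝ) (v79 : ℝ) (v80 : ℝ)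
    (v81 : ℝ) (v82 : ℝ) (fv : ℂ) (e_fv_d : fv = P.fv y) (e_fv_re : v78 = fv.re)
    (e_fv_im : v82 = fv.im) (v83 : ℝ) (v84 : ℝ) (v85 : ℝ) (v86 : ℝ) (v87 : ℝ) (v88 : ℝ) (v89 : ℝ)
    (v90 : ℝ) (M : ℂ) (e_M_d : M = P.M X) (iM : ℂ) (e_iM_d : iM = I * M) (e_iM_re : v90 = -iM.re)
    (e_iM_im : v86 = iM.im) (v91 : ℝ) (v92 : ℝ) (v93 : ℝ) (nM : ℝ) (e_nM_d : nM = normSq M)
    (e_nM_v : v93 = nM) (v94 : ℝ) (v95 : ℝ) (v96 : ℝ) (v97 : ℝ) (v98 : ℝ) (v99 : ℝ) (v100 : ℝ)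
    (v101 : ℝ) (v102 : ℝ) (v103 : ℝ) (v104 : ℝ) (v105 : ℝ) (v106 : ℝ) (v107 : ℝ) (v108 : ℝ)
    (v109 : ℝ) (v110 : ℝ) (v111 : ℝ) (v112 : ℝ) (As : ℝ) (e_As_d : As = VAr P.cs r X)
    (e_As_v : v112 = As) (v113 : ℝ) (v114 : ℝ) (v115 : ℝ) (v116 : ℝ) (v117 : ℝ) (v118 : ℝ)
    (v119 : ℝ) (v120 : ℝ) (v121 : ℝ) (v122 : ℝ) (v123 : ℝ) (v124 : ℝ) (v125 : ℝ) (v126 : ℝ)
    (v127 : ℝ) (v128 : ℝ) (v129 : ℝ) (v130 : ℝ) (v131 : ℝ) (v132 : ℝ) (v133 : ℝ) (v134 : ℝ)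
    (v135 : ℝ) (v136 : ℝ) (v137 : ℝ) (Ax : ℂ) (e_Ax_d : Ax = VAxr P.c r X) (v138 : ℝ) (v139 : ℝ)
    (v140 : ℝ) (v141 : ℝ) (v142 : ℝ) (v143 : ℝ) (v144 : ℝ) (v145 : ℝ) (v146 : ℝ) (v147 : ℝ)
    (v148 : ℝ) (v149 : ℝ) (v150 : ℝ) (v151 : ℝ) (v152 : ℝ) (v153 : ℝ) (v154 : ℝ) (v155 : ℝ)
    (v156 : ℝ) (v157 : ℝ) (v158 : ℝ) (v159 : ℝ) (v160 : ℝ) (v161 : ℝ) (v162 : ℝ) (v163 : ℝ)
    (B : ℂ) (e_B_d : B = VBr P.c r X) (e_B_re : v150 = B.re) (e_B_im : v163 = B.im) (v164 : ℝ)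
    (v165 : ℝ) (v166 : ℝ) (v167 : ℝ) (v168 : ℝ) (v169 : ℝ) (v170 : ℝ) (v171 : ℝ) (v172 : ℝ)
    (v173 : ℝ) (v174 : ℝ) (v175 : ℝ) (v176 : ℝ) (v177 : ℝ) (v178 : ℝ) (v179 : ℝ) (v180 : ℝ)
    (v181 : ℝ) (v182 : ℝ) (v183 : ℝ) (v184 : ℝ) (v185 : ℝ) (v186 : ℝ) (v187 : ℝ) (v188 : ℝ)
    (v189 : ℝ) (Bs : ℂ) (e_Bs_d : Bs = VBr P.cs r X) (e_Bs_re : v176 = Bs.re)
    (e_Bs_im : v189 = Bs.im) (v190 : ℝ) (v191 : ℝ) (v192 : ℝ) (v193 : ℝ) (v194 : ℝ) (v195 : ℝ)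
    (v196 : ℝ) (v197 : ℝ) (v198 : ℝ) (v199 : ℝ) (v200 : ℝ) (v201 : ℝ) (v202 : ℝ) (v203 : ℝ)
    (v204 : ℝ) (v205 : ℝ) (v206 : ℝ) (v207 : ℝ) (v208 : ℝ) (v209 : ℝ) (v210 : ℝ) (v211 : ℝ)
    (v212 : ℝ) (v213 : ℝ) (v214 : ℝ) (DB : ℂ) (e_DB_d : DB = VBd P.c (X * (r : ℂ)) U)
    (e_DB_re : v204 = DB.re) (e_DB_im : v214 = DB.im) (v215 : ℝ) (v216 : ℝ) (v217 : ℝ) (v218 : ℝ)
    (sax : ℝ) (e_sax_d : sax = dt P.sa X) (e_sax_v : v218 = sax) (v219 : ℝ) (v220 : ℝ) (v221 : ℝ)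
    (v222 : ℝ) (v223 : ℝ) (v224 : ℝ) (v225 : ℝ) (v226 : ℝ) (v227 : ℝ) (v228 : ℝ) (v229 : ℝ)
    (v230 : ℝ) (v231 : ℝ) (v232 : ℝ) (v233 : ℝ) (v234 : ℝ) (v235 : ℝ) (v236 : ℝ) (v237 : ℝ)
    (Xv : ℝ) (e_Xv_d : Xv = -dt P.a T - (e * sax + f * As) * d - dt Ax U + dt B iM * d)
    (e_Xv_v : v237 = Xv) (v238 : ℝ) (v239 : ℝ) (v240 : ℝ) (v241 : ℝ) (v242 : ℝ) (v243 : ℝ)
    (v244 : ℝ) (v245 : ℝ) (L : ℂ) (e_L_d : L = P.L X) (e_L_re : v241 = L.re)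
    (e_L_im : v245 = L.im) (v246 : ℝ) (v247 : ℝ) (v248 : ℝ) (aV : ℝ)
    (e_aV_d : aV = dt Ax (P.V0 / (P.fs : ℂ))) (e_aV_v : v248 = aV) (v249 : ℝ)
    (h249 : v249 = (I * P.vs - P.bs).re) (v250 : ℝ) (h250 : v250 = (I * P.vs - P.bs).im)
    (v251 : ℝ) (h251 : v251 = v70 * v150) (v252 : ℝ) (h252 : v252 = v69 * v163) (v253 : ℝ)
    (h253 : v253 = v251 - v252) (v254 : ℝ) (h254 : v254 = v41 * v253) (v255 : ℝ)
    (h255 : v255 = v42 * v253) (v256 : ℝ) (h256 : v256 = v150 * v249) (v257 : ℝ)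
    (h257 : v257 = v163 * v250) (v258 : ℝ) (h258 : v258 = v256 + v257) (v259 : ℝ)
    (h259 : v259 = v78 * v258) (v260 : ℝ) (h260 : v260 = v82 * v258) (v261 : ℝ)
    (h261 : v261 = v254 + v259) (v262 : ℝ) (h262 : v262 = v255 + v260) (v263 : ℝ)
    (h263 : v263 = v73 * v163) (v264 : ℝ) (h264 : v264 = v73 * v150)
    (h : TrE (realAlg (fun i => get 0 (P.syl l) i) (r) (s))
    [.add 3 1, .sub 3 1, .mul 266 154, .add 49 0, .sub 0 20, .mul 191 0, .mul 188 1, .sub 30 1,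
    .sub 27 1, .mul 269 110, .mul 270 124, .sub 99 1, .add 87 1, .mul 230 1, .mul 231 1,
    .sub 7 1, .sub 7 1, .sub 1 16, .sub 1 16, .mul 236 46, .cst 6 0, .mul 1 0, .mul 280 193,
    .mul 283 1, .sub 0 1, .mul 242 242, .mul 220 200, .mul 222 205, .add 1 0, .mul 252 0,
    .mul 252 1, .mul 205 46, .mul 210 46, .sub 0 1, .mul 220 0, .mul 217 1, .sub 1 6, .sub 1 6,
    .mul 229 216, .mul 230 213, .add 3 1, .add 3 1, .mul 300 259, .mul 2 0, .mul 2 1, .sub 22 23,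
    .mul 310 0, .mul 233 0, .mul 230 1, .add 5 1, .add 5 1, .mul 309 33, .mul 310 33, .sub 1 113,
    .sub 1 104, .mul 34 29, .mul 2 0, .mul 2 1, .add 8 1, .add 8 1]
    [v264, v263, v262, v261, v260, v259, v258, v257, v256, v255, v254, v253, v252, v251, v250,
    v249, v248, v247, v246, v245, v244, v243, v242, v241, v240, v239, v238, v237, v236, v235,
    v234, v233, v232, v231, v230, v229, v228, v227, v226, v225, v224, v223, v222, v221, v220,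
    v219, v218, v217, v216, v215, v214, v213, v212, v211, v210, v209, v208, v207, v206, v205,
    v204, v203, v202, v201, v200, v199, v198, v197, v196, v195, v194, v193, v192, v191, v190,
    v189, v188, v187, v186, v185, v184, v183, v182, v181, v180, v179, v178, v177, v176, v175,
    v174, v173, v172, v171, v170, v169, v168, v167, v166, v165, v164, v163, v162, v161, v160,
    v159, v158, v157, v156, v155, v154, v153, v152, v151, v150, v149, v148, v147, v146, v145,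
    v144, v143, v142, v141, v140, v139, v138, v137, v136, v135, v134, v133, v132, v131, v130,
    v129, v128, v127, v126, v125, v124, v123, v122, v121, v120, v119, v118, v117, v116, v115,
    v114, v113, v112, v111, v110, v109, v108, v107, v106, v105, v104, v103, v102, v101, v100,
    v99, v98, v97, v96, v95, v94, v93, v92, v91, v90, v89, v88, v87, v86, v85, v84, v83, v82,
    v81, v80, v79, v78, v77, v76, v75, v74, v73, v72, v71, v70, v69, v68, v67, v66, v65, v64,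
    v63, v62, v61, v60, v59, v58, v57, v56, v55, v54, v53, v52, v51, v50, v49, v48, v47, v46,
    v45, v44, v43, v42, v41, v40, v39, v38, v37, v36, v35, v34, v33, v32, v31, v30, v29, v28,
    v27, v26, v25, v24, v23, v22, v21, v20, v19, v18, v17, v16, v15, v14, v13, v12, v11, v10, v9,
    v8, v7, v6, v5, v4, v3, v2, v1, v0]
    (pE0b_valQ P l r s)) :
    OutEq (run (realAlg (fun i => get 0 (P.syl l) i) (r) (s)) pE0b []) pE0b_out
      [P.E12 r ⟨s, 1⟩ (P.T0 r ⟨s, 1⟩ (1 - 2 * P.ys.re - 2 * (r * (⟨s, 1⟩ : ℂ).re))) (P.U0 r ⟨s, 1⟩ (P.T0 r ⟨s, 1⟩ (1 - 2 * P.ys.re - 2 * (r * (⟨s, 1⟩ : ℂ).re))) (1 - 2 * P.ys.re - 2 * (r * (⟨s, 1⟩ : ℂ).re))) (1 - 2 * P.ys.re - 2 * (r * (⟨s, 1⟩ : ℂ).re)), (P.G6 r ⟨s, 1⟩ (P.T0 r ⟨s, 1⟩ (1 - 2 * P.ys.re - 2 * (r * (⟨s, 1⟩ : ℂ).re))) (P.U0 r ⟨s, 1⟩ (P.T0 r ⟨s, 1⟩ (1 - 2 * P.ys.re - 2 * (r * (⟨s, 1⟩ : ℂ).re))) (1 - 2 * P.ys.re - 2 * (r * (⟨s, 1⟩ :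 ℂ).re))) (1 - 2 * P.ys.re - 2 * (r * (⟨s, 1⟩ : ℂ).re))).re, (P.G6 r ⟨s, 1⟩ (P.T0 r ⟨s, 1⟩ (1 - 2 * P.ys.re - 2 * (r * (⟨s, 1⟩ : ℂ).re))) (P.U0 r ⟨s, 1⟩ (P.T0 r ⟨s, 1⟩ (1 - 2 * P.ys.re - 2 * (r * (⟨s, 1⟩ : ℂ).re))) (1 - 2 * P.ys.re - 2 * (r * (⟨s, 1⟩ : ℂ).re))) (1 - 2 * P.ys.re - 2 * (r * (⟨s, 1⟩ : ℂ).re))).im, P.fr r ⟨s, 1⟩] := by
  obtain ⟨v265, h265, h⟩ := h
  change v265 = v261 + v263 at h265
  obtain ⟨v266, h266, h⟩ := h
  change v266 = v262 - v264 at h266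
  obtain ⟨ZB, e_ZB_d⟩ : ∃ q : ℂ, q = ((dt B (-(I * y)) : ℝ) : ℂ) * P.ns + ((dt B (I * P.vs - P.bs) : ℝ) : ℂ) * fv - (k : ℂ) * (I * B) := ⟨_, rfl⟩
  have e_ZB_re : v265 = ZB.re := by
    rw [e_ZB_d]
    simp only [h265, h263, h261, h259, h258, h257, h256, h254, h253, h252, h251, h250, h249, h41, e_B_im, e_k_v, e_B_re, e_fv_re, e_y_re, e_y_im, mul_re, mul_im, add_re, add_im, sub_re, sub_im, neg_re, neg_im, I_re, I_im, ofReal_re,
      ofReal_im, one_re, one_im, zero_re, zero_im, dt, normSq_apply, re_ofNat, im_ofNat, conj_re, conj_im]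
    try ring
  have e_ZB_im : v266 = ZB.im := by
    rw [e_ZB_d]
    simp only [h266, h264, h262, h260, h258, h257, h256, h255, h253, h252, h251, h250, h249, h42, e_B_re, e_k_v, e_B_im, e_fv_im, e_y_re, e_y_im, mul_re, mul_im, add_re, add_im, sub_re, sub_im, neg_re, neg_im, I_re, I_im, ofReal_re,
      ofReal_im, one_re, one_im, zero_re, zero_im, dt, normSq_apply, re_ofNat, im_ofNat, conj_re, conj_im]
    try ring
  obtain ⟨v267, h267, h⟩ := h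
  change v267 = v0 * v112 at h267
  obtain ⟨v268, h268, h⟩ := h
  change v268 = v218 + v267 at h268
  obtain ⟨v269, h269, h⟩ := h
  change v269 = v268 - v248 at h269
  obtain ⟨v270, h270, h⟩ := h
  change v270 = v78 * v269 at h270
  obtain ⟨v271, h271, h⟩ := h
  change v271 = v82 * v269 at h271
  obtain ⟨v272, h272, h⟩ := h
  change v272 = v241 - v270 at h272
  obtain ⟨v273, h273, h⟩ := h
  change v273 = v245 - v271 at h273
  obtain ⟨v274, h274, h⟩ := h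
  change v274 = v4 * v163 at h274
  obtain ⟨v275, h275, h⟩ := h
  change v275 = v4 * v150 at h275
  obtain ⟨v276, h276, h⟩ := h
  change v276 = v176 - v274 at h276
  obtain ⟨v277, h277, h⟩ := h
  change v277 = v189 + v275 at h277
  obtain ⟨v278, h278, h⟩ := h
  change v278 = v47 * v276 at h278
  obtain ⟨v279, h279, h⟩ := h
  change v279 = v47 * v277 at h279
  obtain ⟨v280, h280, h⟩ := h
  change v280 = v272 - v278 at h280
  obtain ⟨v281, h281, h⟩ := h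
  change v281 = v273 - v279 at h281
  obtain ⟨v282, h282, h⟩ := h
  change v282 = v280 - v265 at h282
  obtain ⟨v283, h283, h⟩ := h
  change v283 = v281 - v266 at h283
  obtain ⟨H, e_H_d⟩ : ∃ q : ℂ, q = L - ((sax + As * r - aV : ℝ) : ℂ) * fv - (Bs + 2 * I * B) * (f : ℂ) - ZB := ⟨_, rfl⟩
  have e_H_re : v282 = H.re := by
    rw [e_H_d]
    simp only [h282, h280, h278, h276, h274, h272, h270, h269, h268, h267, h4, h0, e_ZB_re, e_B_im, e_Bs_re, e_f_v, e_aV_v, e_As_v, e_sax_v, e_fv_re, e_L_re, mul_re, mul_im, add_re, add_im, sub_re, sub_im, neg_re, neg_im, I_re, I_im, ofReal_re,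
      ofReal_im, one_re, one_im, zero_re, zero_im, dt, normSq_apply, re_ofNat, im_ofNat, conj_re, conj_im]
    try ring
  have e_H_im : v283 = H.im := by
    rw [e_H_d]
    simp only [h283, h281, h279, h277, h275, h273, h271, h269, h268, h267, h4, h0, e_ZB_im, e_B_re, e_Bs_im, e_f_v, e_aV_v, e_As_v, e_sax_v, e_fv_im, e_L_im, mul_re, mul_im, add_re, add_im, sub_re, sub_im, neg_re, neg_im, I_re, I_im, ofReal_re,
      ofReal_im, one_re, one_im, zero_re, zero_im, dt, normSq_apply, re_ofNat, im_ofNat, conj_re, conj_im]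
    try ring
  obtain ⟨v284, h284, h⟩ := h
  change v284 = v47 * v237 at h284
  obtain ⟨v285, h285, h⟩ := h
  replace h285 : v285 = (6 : ℝ) := by rw [h285]; norm_num [step, realAlg]
  obtain ⟨v286, h286, h⟩ := h
  change v286 = v284 * v285 at h286
  obtain ⟨v287, h287, h⟩ := h
  change v287 = v6 * v93 at h287
  obtain ⟨v288, h288, h⟩ := h
  change v288 = v4 * v286 at h288
  obtain ⟨v289, h289, h⟩ := h
  change v289 = v288 - v287 at h289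
  obtain ⟨E12, e_E12_d⟩ : ∃ q : ℝ, q = 12 * (f * Xv) - nM * d := ⟨_, rfl⟩
  have e_E12_v : v289 = E12 := by
    rw [e_E12_d]
    simp only [h289, h288, h287, h286, h285, h284, h4, e_nM_v, e_d_v, e_Xv_v, e_f_v, mul_re, mul_im, add_re, add_im, sub_re, sub_im, neg_re, neg_im, I_re, I_im, ofReal_re,
      ofReal_im, one_re, one_im, zero_re, zero_im, dt, normSq_apply, re_ofNat, im_ofNat, conj_re, conj_im]
    try ring
  obtain ⟨v290, h290, h⟩ := h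
  change v290 = v47 * v47 at h290
  obtain ⟨v291, h291, h⟩ := h
  change v291 = v70 * v90 at h291
  obtain ⟨v292, h292, h⟩ := h
  change v292 = v69 * v86 at h292
  obtain ⟨v293, h293, h⟩ := h
  change v293 = v291 + v292 at h293
  obtain ⟨v294, h294, h⟩ := h
  change v294 = v41 * v293 at h294
  obtain ⟨v295, h295, h⟩ := h
  change v295 = v42 * v293 at h295
  obtain ⟨v296, h296, h⟩ := h
  change v296 = v90 * v249 at h296
  obtain ⟨v297, h297, h⟩ := h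
  change v297 = v86 * v250 at h297
  obtain ⟨v298, h298, h⟩ := h
  change v298 = v297 - v296 at h298
  obtain ⟨v299, h299, h⟩ := h
  change v299 = v78 * v298 at h299
  obtain ⟨v300, h300, h⟩ := h
  change v300 = v82 * v298 at h300
  obtain ⟨v301, h301, h⟩ := h
  change v301 = v299 - v294 at h301
  obtain ⟨v302, h302, h⟩ := h
  change v302 = v300 - v295 at h302
  obtain ⟨v303, h303, h⟩ := h
  change v303 = v73 * v86 at h303
  obtain ⟨v304, h304, h⟩ := h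
  change v304 = v73 * v90 at h304
  obtain ⟨v305, h305, h⟩ := h
  change v305 = v301 + v303 at h305
  obtain ⟨v306, h306, h⟩ := h
  change v306 = v302 + v304 at h306
  obtain ⟨ZM, e_ZM_d⟩ : ∃ q : ℂ, q = ((dt iM (-(I * y)) : ℝ) : ℂ) * P.ns + ((dt iM (I * P.vs - P.bs) : ℝ) : ℂ) * fv - (k : ℂ) * (I * iM) := ⟨_, rfl⟩
  have e_ZM_re : v305 = ZM.re := by
    rw [e_ZM_d]
    simp only [h305, h303, h301, h299, h298, h297, h296, h294, h293, h292, h291, h250, h249, h41, e_iM_im, e_k_v, e_y_re, e_iM_re, e_y_im, e_fv_re, mul_re, mul_im, add_re, add_im, sub_re, sub_im, neg_re, neg_im, I_re, I_im, ofReal_re,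
      ofReal_im, one_re, one_im, zero_re, zero_im, dt, normSq_apply, re_ofNat, im_ofNat, conj_re, conj_im]
    try ring
  have e_ZM_im : v306 = ZM.im := by
    rw [e_ZM_d]
    simp only [h306, h304, h302, h300, h298, h297, h296, h295, h293, h292, h291, h250, h249, h42, e_iM_re, e_k_v, e_iM_im, e_y_re, e_y_im, e_fv_im, mul_re, mul_im, add_re, add_im, sub_re, sub_im, neg_re, neg_im, I_re, I_im, ofReal_re,
      ofReal_im, one_re, one_im, zero_re, zero_im, dt, normSq_apply, re_ofNat, im_ofNat, conj_re, conj_im]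
    try ring
  obtain ⟨v307, h307, h⟩ := h
  change v307 = v6 * v47 at h307
  obtain ⟨v308, h308, h⟩ := h
  change v308 = v305 * v307 at h308
  obtain ⟨v309, h309, h⟩ := h
  change v309 = v306 * v307 at h309
  obtain ⟨v310, h310, h⟩ := h
  change v310 = v287 - v286 at h310
  obtain ⟨v311, h311, h⟩ := h
  change v311 = v0 * v310 at h311
  obtain ⟨v312, h312, h⟩ := h
  change v312 = v78 * v311 at h312
  obtain ⟨v313, h313, h⟩ := h
  change v313 = v82 * v311 at h313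
  obtain ⟨v314, h314, h⟩ := h
  change v314 = v308 + v312 at h314
  obtain ⟨v315, h315, h⟩ := h
  change v315 = v309 + v313 at h315
  obtain ⟨v316, h316, h⟩ := h
  change v316 = v6 * v282 at h316
  obtain ⟨v317, h317, h⟩ := h
  change v317 = v6 * v283 at h317
  obtain ⟨v318, h318, h⟩ := h
  change v318 = v316 - v204 at h318
  obtain ⟨v319, h319, h⟩ := h
  change v319 = v317 - v214 at h319
  obtain ⟨v320, h320, h⟩ := h
  change v320 = v285 * v290 at h320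
  obtain ⟨v321, h321, h⟩ := h
  change v321 = v318 * v320 at h321
  obtain ⟨v322, h322, h⟩ := h
  change v322 = v319 * v320 at h322
  obtain ⟨v323, h323, h⟩ := h
  change v323 = v314 + v321 at h323
  obtain ⟨v324, h324, h⟩ := h
  change v324 = v315 + v322 at h324
  obtain ⟨G6, e_G6_d⟩ : ∃ q : ℂ, q = ZM * ((d * f : ℝ) : ℂ) + fv * ((r * (nM * d - 6 * (f * Xv)) : ℝ) : ℂ) + (H * (d : ℂ) - DB) * ((6 * f ^ 2 : ℝ) : ℂ) := ⟨_, rfl⟩
  have e_G6_re : v323 = G6.re := by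
    rw [e_G6_d]
    simp only [h323, h321, h320, h318, h316, h314, h312, h311, h310, h308, h307, h290, h287, h286, h285, h284, h0, e_f_v, e_DB_re, e_H_re, e_d_v, e_Xv_v, e_nM_v, e_fv_re, e_ZM_re, mul_re, mul_im, add_re, add_im, sub_re, sub_im, neg_re, neg_im, I_re, I_im, ofReal_re,
      ofReal_im, one_re, one_im, zero_re, zero_im, dt, normSq_apply, re_ofNat, im_ofNat, conj_re, conj_im]
    try ring
  have e_G6_im : v324 = G6.im := by
    rw [e_G6_d]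
    simp only [h324, h322, h320, h319, h317, h315, h313, h311, h310, h309, h307, h290, h287, h286, h285, h284, h0, e_f_v, e_DB_im, e_H_im, e_d_v, e_Xv_v, e_nM_v, e_fv_im, e_ZM_im, mul_re, mul_im, add_re, add_im, sub_re, sub_im, neg_re, neg_im, I_re, I_im, ofReal_re,
      ofReal_im, one_re, one_im, zero_re, zero_im, dt, normSq_apply, re_ofNat, im_ofNat, conj_re, conj_im]
    try ring
  obtain ⟨o_E12, e_o_E12_d⟩ : ∃ q : ℝ, q = E12 := ⟨_, rfl⟩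
  have a_o_E12 : E12 = E12 := by
    rfl
  have e_o_E12_v : v289 = o_E12 := by
    rw [e_o_E12_d, a_o_E12]
    simp only [e_E12_v, mul_re, mul_im, add_re, add_im, sub_re, sub_im, neg_re, neg_im, I_re, I_im, ofReal_re,
      ofReal_im, one_re, one_im, zero_re, zero_im, dt, normSq_apply, re_ofNat, im_ofNat, conj_re, conj_im]
    try ring
  obtain ⟨o_G6r, e_o_G6r_d⟩ : ∃ q : ℝ, q = G6.re := ⟨_, rfl⟩
  have a_o_G6r : G6.re = G6.re := by
    rfl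
  have e_o_G6r_v : v323 = o_G6r := by
    rw [e_o_G6r_d, a_o_G6r]
    simp only [e_G6_re, mul_re, mul_im, add_re, add_im, sub_re, sub_im, neg_re, neg_im, I_re, I_im, ofReal_re,
      ofReal_im, one_re, one_im, zero_re, zero_im, dt, normSq_apply, re_ofNat, im_ofNat, conj_re, conj_im]
    try ring
  obtain ⟨o_G6i, e_o_G6i_d⟩ : ∃ q : ℝ, q = G6.im := ⟨_, rfl⟩
  have a_o_G6i : G6.im = G6.im := by
    rfl
  have e_o_G6i_v : v324 = o_G6i := by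
    rw [e_o_G6i_d, a_o_G6i]
    simp only [e_G6_im, mul_re, mul_im, add_re, add_im, sub_re, sub_im, neg_re, neg_im, I_re, I_im, ofReal_re,
      ofReal_im, one_re, one_im, zero_re, zero_im, dt, normSq_apply, re_ofNat, im_ofNat, conj_re, conj_im]
    try ring
  obtain ⟨o_f, e_o_f_d⟩ : ∃ q : ℝ, q = f := ⟨_, rfl⟩
  have a_o_f : f = f := by
    rfl
  have e_o_f_v : v47 = o_f := by
    rw [e_o_f_d, a_o_f]
    simp only [e_f_v, mul_re, mul_im, add_re, add_im, sub_re, sub_im, neg_re, neg_im, I_re, I_im, ofReal_re,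
      ofReal_im, one_re, one_im, zero_re, zero_im, dt, normSq_apply, re_ofNat, im_ofNat, conj_re, conj_im]
    try ring
  refine OutEq_of h ?_
  refine ⟨e_o_E12_v.trans ?_, e_o_G6r_v.trans ?_, e_o_G6i_v.trans ?_, e_o_f_v.trans ?_, trivial⟩
  all_goals
    subst o_f o_G6i o_G6r o_E12 G6 ZM E12 H ZB aV L Xv sax DB Bs B Ax As nM iM M fv k y U f e T S yx d X
    rfl

theorem pE0b_val_s4 (P : Pt) (l : List ℝ) (r s : ℝ)
    (v0 : ℝ) (h0 : v0 = r) (v1 : ℝ) (X : ℂ) (e_X_d : X = (⟨s, 1⟩ : ℂ)) (e_X_re : v1 = X.re)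
    (e_X_im : X.im = (1 : ℝ)) (v2 : ℝ) (v3 : ℝ) (v4 : ℝ) (h4 : v4 = (2 : ℝ)) (v5 : ℝ) (v6 : ℝ)
    (d : ℝ) (e_d_d : d = 1 - 2 * P.ys.re - 2 * (r * X.re)) (e_d_v : v6 = d) (v7 : ℝ) (v8 : ℝ)
    (v9 : ℝ) (v10 : ℝ) (v11 : ℝ) (v12 : ℝ) (v13 : ℝ) (yx : ℝ) (e_yx_d : yx = dt P.ys X) (v14 : ℝ)
    (v15 : ℝ) (v16 : ℝ) (v17 : ℝ) (v18 : ℝ) (v19 : ℝ) (v20 : ℝ) (v21 : ℝ) (v22 : ℝ) (v23 : ℝ)
    (v24 : ℝ) (v25 : ℝ) (v26 : ℝ) (v27 : ℝ) (v28 : ℝ) (v29 : ℝ) (S : ℝ)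
    (e_S_d : S = 4 * ((P.ys.re - (1 - normSq P.ys) / (1 - 2 * P.ys.re)) * X.re + P.ys.im * X.im) ^ 2 - 2 * (1 - normSq P.ys) * normSq X + (4 * yx + normSq X * r) * normSq X * r)
    (v30 : ℝ) (v31 : ℝ) (v32 : ℝ) (v33 : ℝ) (v34 : ℝ) (v35 : ℝ) (v36 : ℝ) (v37 : ℝ) (v38 : ℝ)
    (v39 : ℝ) (v40 : ℝ) (T : ℂ)
    (e_T_d : T = I * ((2 * S : ℝ) : ℂ) + I * (X * ((2 * yx + normSq X * r : ℝ) : ℂ) + P.ys * (normSq X : ℂ)) * (d : ℂ))
    (e_T_re : v38 = -T.re) (e_T_im : v40 = T.im) (v41 : ℝ) (h41 : v41 = P.ns.re) (v42 : ℝ)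
    (h42 : v42 = P.ns.im) (v43 : ℝ) (v44 : ℝ) (e : ℝ) (e_e_d : e = dt P.ns X) (e_e_v : v44 = e)
    (v45 : ℝ) (v46 : ℝ) (v47 : ℝ) (f : ℝ) (e_f_d : f = P.fs + e * r) (e_f_v : v47 = f) (v48 : ℝ)
    (v49 : ℝ) (v50 : ℝ) (v51 : ℝ) (v52 : ℝ) (v53 : ℝ) (v54 : ℝ) (v55 : ℝ) (v56 : ℝ) (v57 : ℝ)
    (v58 : ℝ) (v59 : ℝ) (v60 : ℝ) (v61 : ℝ) (v62 : ℝ) (h62 : v62 = (P.V0 / (P.fs : ℂ)).re)
    (v63 : ℝ) (h63 : v63 = (P.V0 / (P.fs : ℂ)).im) (v64 : ℝ) (v65 : ℝ) (v66 : ℝ) (v67 : ℝ)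
    (v68 : ℝ) (U : ℂ)
    (e_U_d : U = P.DV X * (d : ℂ) + T * (r : ℂ) - P.V0 / (P.fs : ℂ) * ((d * e : ℝ) : ℂ))
    (e_U_re : v67 = U.re) (e_U_im : v68 = U.im) (v69 : ℝ) (v70 : ℝ) (y : ℂ)
    (e_y_d : y = P.ys + X * (r : ℂ)) (e_y_re : v69 = y.re) (e_y_im : v70 = y.im) (v71 : ℝ)
    (v72 : ℝ) (v73 : ℝ) (k : ℝ) (e_k_d : k = dt y P.ns) (e_k_v : v73 = k) (v74 : ℝ) (v75 : ℝ)
    (v76 : ℝ) (v77 : ℝ) (v78 : ℝ) (v79 : ℝ) (v80 : ℝ) (v81 : ℝ) (v82 : ℝ) (fv : ℂ)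
    (e_fv_d : fv = P.fv y) (e_fv_re : v78 = fv.re) (e_fv_im : v82 = fv.im) (v83 : ℝ) (v84 : ℝ)
    (v85 : ℝ) (v86 : ℝ) (v87 : ℝ) (v88 : ℝ) (v89 : ℝ) (v90 : ℝ) (M : ℂ) (e_M_d : M = P.M X)
    (iM : ℂ) (e_iM_d : iM = I * M) (e_iM_re : v90 = -iM.re) (e_iM_im : v86 = iM.im) (v91 : ℝ)
    (v92 : ℝ) (v93 : ℝ) (nM : ℝ) (e_nM_d : nM = normSq M) (e_nM_v : v93 = nM) (v94 : ℝ) (v95 : ℝ)
    (v96 : ℝ) (v97 : ℝ) (v98 : ℝ) (v99 : ℝ) (v100 : ℝ) (v101 : ℝ) (v102 : ℝ) (v103 : ℝ)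
    (v104 : ℝ) (v105 : ℝ) (v106 : ℝ) (v107 : ℝ) (v108 : ℝ) (v109 : ℝ) (v110 : ℝ) (v111 : ℝ)
    (v112 : ℝ) (As : ℝ) (e_As_d : As = VAr P.cs r X) (e_As_v : v112 = As) (v113 : ℝ) (v114 : ℝ)
    (v115 : ℝ) (v116 : ℝ) (v117 : ℝ) (v118 : ℝ) (v119 : ℝ) (v120 : ℝ) (v121 : ℝ) (v122 : ℝ)
    (v123 : ℝ) (v124 : ℝ) (v125 : ℝ) (v126 : ℝ) (v127 : ℝ) (v128 : ℝ) (v129 : ℝ) (v130 : ℝ)
    (v131 : ℝ) (v132 : ℝ) (v133 : ℝ) (v134 : ℝ) (v135 : ℝ) (v136 : ℝ) (v137 : ℝ) (Ax : ℂ)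
    (e_Ax_d : Ax = VAxr P.c r X) (e_Ax_re : v125 = Ax.re) (e_Ax_im : v137 = Ax.im) (v138 : ℝ)
    (h138 : v138 = P.c.b11) (v139 : ℝ) (v140 : ℝ) (h140 : v140 = P.c.b12) (v141 : ℝ) (v142 : ℝ)
    (h142 : v142 = P.c.q1) (v143 : ℝ) (v144 : ℝ) (h144 : v144 = P.c.q2) (v145 : ℝ) (v146 : ℝ)
    (v147 : ℝ) (h147 : v147 = P.c.q3) (v148 : ℝ) (v149 : ℝ) (v150 : ℝ) (v151 : ℝ)
    (h151 : v151 = P.c.b21) (v152 : ℝ) (v153 : ℝ) (h153 : v153 = P.c.b22) (v154 : ℝ) (v155 : ℝ)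
    (h155 : v155 = P.c.q4) (v156 : ℝ) (v157 : ℝ) (h157 : v157 = P.c.q5) (v158 : ℝ) (v159 : ℝ)
    (v160 : ℝ) (h160 : v160 = P.c.q6) (v161 : ℝ) (v162 : ℝ) (v163 : ℝ) (B : ℂ)
    (e_B_d : B = VBr P.c r X) (e_B_re : v150 = B.re) (e_B_im : v163 = B.im) (v164 : ℝ) (v165 : ℝ)
    (v166 : ℝ) (v167 : ℝ) (v168 : ℝ) (v169 : ℝ) (v170 : ℝ) (v171 : ℝ) (v172 : ℝ) (v173 : ℝ)
    (v174 : ℝ) (v175 : ℝ) (v176 : ℝ) (v177 : ℝ) (v178 : ℝ) (v179 : ℝ) (v180 : ℝ) (v181 : ℝ)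
    (v182 : ℝ) (v183 : ℝ) (v184 : ℝ) (v185 : ℝ) (v186 : ℝ) (v187 : ℝ) (v188 : ℝ) (v189 : ℝ)
    (Bs : ℂ) (e_Bs_d : Bs = VBr P.cs r X) (e_Bs_re : v176 = Bs.re) (e_Bs_im : v189 = Bs.im)
    (v190 : ℝ) (h190 : v190 = v1 * v67) (v191 : ℝ) (h191 : v191 = v4 * v190) (v192 : ℝ)
    (h192 : v192 = v1 * v68) (v193 : ℝ) (h193 : v193 = v67 + v192) (v194 : ℝ)
    (h194 : v194 = v4 * v68) (v195 : ℝ) (h195 : v195 = v67 * v138) (v196 : ℝ)
    (h196 : v196 = v68 * v140) (v197 : ℝ) (h197 : v197 = v195 + v196)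
    (h : TrE (realAlg (fun i => get 0 (P.syl l) i) (r) (s))
    [.mul 55 6, .mul 54 5, .add 1 0, .mul 53 6, .add 1 0, .mul 202 0, .add 6 0, .mul 137 53,
    .mul 137 52, .add 1 0, .mul 52 16, .mul 51 15, .add 1 0, .mul 50 16, .add 1 0, .mul 212 0,
    .add 6 0, .base 31, .base 32, .mul 215 1, .add 1 0, .base 29, .base 30, .mul 182 1,
    .mul 181 1, .sub 0 1, .mul 179 5, .mul 177 112, .add 1 0, .mul 220 0, .add 4 0, .mul 161 103,
    .mul 161 92, .add 1 0, .add 3 0, .mul 142 82, .mul 147 70, .sub 0 1, .mul 229 0, .sub 0 4,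
    .base 23, .mul 237 0, .base 24, .add 1 0, .base 25, .mul 241 0, .base 26, .add 1 0,
    .mul 183 120, .mul 183 109, .add 1 0, .base 27, .base 28, .mul 180 100, .mul 182 88,
    .sub 1 0, .mul 212 0, .mul 212 1, .mul 105 6, .mul 93 6, .add 1 0, .mul 180 0, .mul 177 1,
    .add 6 1, .add 6 1, .mul 189 99, .mul 190 113, .add 3 1, .sub 3 1, .mul 266 154, .add 49 0,
    .sub 0 20, .mul 191 0, .mul 188 1, .sub 30 1, .sub 27 1, .mul 269 110, .mul 270 124,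
    .sub 99 1, .add 87 1, .mul 230 1, .mul 231 1, .sub 7 1, .sub 7 1, .sub 1 16, .sub 1 16,
    .mul 236 46, .cst 6 0, .mul 1 0, .mul 280 193, .mul 283 1, .sub 0 1, .mul 242 242,
    .mul 220 200, .mul 222 205, .add 1 0, .mul 252 0, .mul 252 1, .mul 205 46, .mul 210 46,
    .sub 0 1, .mul 220 0, .mul 217 1, .sub 1 6, .sub 1 6, .mul 229 216, .mul 230 213, .add 3 1,
    .add 3 1, .mul 300 259, .mul 2 0, .mul 2 1, .sub 22 23, .mul 310 0, .mul 233 0, .mul 230 1,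
    .add 5 1, .add 5 1, .mul 309 33, .mul 310 33, .sub 1 113, .sub 1 104, .mul 34 29, .mul 2 0,
    .mul 2 1, .add 8 1, .add 8 1]
    [v197, v196, v195, v194, v193, v192, v191, v190, v189, v188, v187, v186, v185, v184, v183,
    v182, v181, v180, v179, v178, v177, v176, v175, v174, v173, v172, v171, v170, v169, v168,
    v167, v166, v165, v164, v163, v162, v161, v160, v159, v158, v157, v156, v155, v154, v153,
    v152, v151, v150, v149, v148, v147, v146, v145, v144, v143, v142, v141, v140, v139, v138,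
    v137, v136, v135, v134, v133, v132, v131, v130, v129, v128, v127, v126, v125, v124, v123,
    v122, v121, v120, v119, v118, v117, v116, v115, v114, v113, v112, v111, v110, v109, v108,
    v107, v106, v105, v104, v103, v102, v101, v100, v99, v98, v97, v96, v95, v94, v93, v92, v91,
    v90, v89, v88, v87, v86, v85, v84, v83, v82, v81, v80, v79, v78, v77, v76, v75, v74, v73,
    v72, v71, v70, v69, v68, v67, v66, v65, v64, v63, v62, v61, v60, v59, v58, v57, v56, v55,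
    v54, v53, v52, v51, v50, v49, v48, v47, v46, v45, v44, v43, v42, v41, v40, v39, v38, v37,
    v36, v35, v34, v33, v32, v31, v30, v29, v28, v27, v26, v25, v24, v23, v22, v21, v20, v19,
    v18, v17, v16, v15, v14, v13, v12, v11, v10, v9, v8, v7, v6, v5, v4, v3, v2, v1, v0]
    (pE0b_valQ P l r s)) :
    OutEq (run (realAlg (fun i => get 0 (P.syl l) i) (r) (s)) pE0b []) pE0b_out
      [P.E12 r ⟨s, 1⟩ (P.T0 r ⟨s, 1⟩ (1 - 2 * P.ys.re - 2 * (r * (⟨s, 1⟩ : ℂ).re))) (P.U0 r ⟨s, 1⟩ (P.T0 r ⟨s, 1⟩ (1 - 2 * P.ys.re - 2 * (r * (⟨s, 1⟩ : ℂ).re))) (1 - 2 * P.ys.re - 2 * (r * (⟨s, 1⟩ : ℂ).re))) (1 - 2 * P.ys.re - 2 * (r * (⟨s, 1⟩ : ℂ).re)), (P.G6 r ⟨s, 1⟩ (P.T0 r ⟨s, 1⟩ (1 - 2 * P.ys.re - 2 * (r * (⟨s, 1⟩ : ℂ).re))) (P.U0 r ⟨s, 1⟩ (P.T0 r ⟨s, 1⟩ (1 - 2 * P.ys.re - 2 * (r * (⟨s, 1⟩ : ℂ).re))) (1 - 2 * P.ys.re - 2 * (r * (⟨s, 1⟩ : ℂ).re))) (1 - 2 * P.ys.re - 2 * (r * (⟨s, 1⟩ : ℂ).re))).re,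 (P.G6 r ⟨s, 1⟩ (P.T0 r ⟨s, 1⟩ (1 - 2 * P.ys.re - 2 * (r * (⟨s, 1⟩ : ℂ).re))) (P.U0 r ⟨s, 1⟩ (P.T0 r ⟨s, 1⟩ (1 - 2 * P.ys.re - 2 * (r * (⟨s, 1⟩ : ℂ).re))) (1 - 2 * P.ys.re - 2 * (r * (⟨s, 1⟩ : ℂ).re))) (1 - 2 * P.ys.re - 2 * (r * (⟨s, 1⟩ : ℂ).re))).im, P.fr r ⟨s, 1⟩] := by
  obtain ⟨v198, h198, h⟩ := h
  change v198 = v142 * v191 at h198
  obtain ⟨v199, h199, h⟩ := h
  change v199 = v144 * v193 at h199
  obtain ⟨v200, h200, h⟩ := h
  change v200 = v198 + v199 at h200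
  obtain ⟨v201, h201, h⟩ := h
  change v201 = v147 * v194 at h201
  obtain ⟨v202, h202, h⟩ := h
  change v202 = v200 + v201 at h202
  obtain ⟨v203, h203, h⟩ := h
  change v203 = v0 * v202 at h203
  obtain ⟨v204, h204, h⟩ := h
  change v204 = v197 + v203 at h204
  obtain ⟨v205, h205, h⟩ := h
  change v205 = v67 * v151 at h205
  obtain ⟨v206, h206, h⟩ := h
  change v206 = v68 * v153 at h206
  obtain ⟨v207, h207, h⟩ := h
  change v207 = v205 + v206 at h207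
  obtain ⟨v208, h208, h⟩ := h
  change v208 = v155 * v191 at h208
  obtain ⟨v209, h209, h⟩ := h
  change v209 = v157 * v193 at h209
  obtain ⟨v210, h210, h⟩ := h
  change v210 = v208 + v209 at h210
  obtain ⟨v211, h211, h⟩ := h
  change v211 = v160 * v194 at h211
  obtain ⟨v212, h212, h⟩ := h
  change v212 = v210 + v211 at h212
  obtain ⟨v213, h213, h⟩ := h
  change v213 = v0 * v212 at h213
  obtain ⟨v214, h214, h⟩ := h
  change v214 = v207 + v213 at h214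
  obtain ⟨DB, e_DB_d⟩ : ∃ q : ℂ, q = VBd P.c (X * (r : ℂ)) U := ⟨_, rfl⟩
  have e_DB_re : v204 = DB.re := by
    rw [e_DB_d]
    simp only [VBd_re, VBd_im, h204, h203, h202, h201, h200, h199, h198, h197, h196, h195, h194, h193, h192, h191, h190, h147, h144, h142, h140, h138, h4, h0, e_U_im, e_X_re, e_U_re, e_X_im, mul_re, mul_im, add_re, add_im, sub_re, sub_im, neg_re, neg_im, I_re, I_im, ofReal_re,
      ofReal_im, one_re, one_im, zero_re, zero_im, dt, normSq_apply, re_ofNat, im_ofNat, conj_re, conj_im]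
    try ring
  have e_DB_im : v214 = DB.im := by
    rw [e_DB_d]
    simp only [VBd_re, VBd_im, h214, h213, h212, h211, h210, h209, h208, h207, h206, h205, h194, h193, h192, h191, h190, h160, h157, h155, h153, h151, h4, h0, e_U_im, e_X_re, e_U_re, e_X_im, mul_re, mul_im, add_re, add_im, sub_re, sub_im, neg_re, neg_im, I_re, I_im, ofReal_re,
      ofReal_im, one_re, one_im, zero_re, zero_im, dt, normSq_apply, re_ofNat, im_ofNat, conj_re, conj_im]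
    try ring
  obtain ⟨v215, h215, h⟩ := h
  change v215 = P.sa.re at h215
  obtain ⟨v216, h216, h⟩ := h
  change v216 = P.sa.im at h216
  obtain ⟨v217, h217, h⟩ := h
  change v217 = v1 * v215 at h217
  obtain ⟨v218, h218, h⟩ := h
  change v218 = v216 + v217 at h218
  obtain ⟨sax, e_sax_d⟩ : ∃ q : ℝ, q = dt P.sa X := ⟨_, rfl⟩
  have e_sax_v : v218 = sax := by
    rw [e_sax_d]
    simp only [h218, h217, h216, h215, e_X_re, e_X_im, mul_re, mul_im, add_re, add_im, sub_re, sub_im, neg_re, neg_im, I_re, I_im, ofReal_re,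
      ofReal_im, one_re, one_im, zero_re, zero_im, dt, normSq_apply, re_ofNat, im_ofNat, conj_re, conj_im]
    try ring
  obtain ⟨v219, h219, h⟩ := h
  change v219 = P.a.re at h219
  obtain ⟨v220, h220, h⟩ := h
  change v220 = P.a.im at h220
  obtain ⟨v221, h221, h⟩ := h
  change v221 = v38 * v219 at h221
  obtain ⟨v222, h222, h⟩ := h
  change v222 = v40 * v220 at h222
  obtain ⟨v223, h223, h⟩ := h
  change v223 = v222 - v221 at h223
  obtain ⟨v224, h224, h⟩ := h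
  change v224 = v44 * v218 at h224
  obtain ⟨v225, h225, h⟩ := h
  change v225 = v47 * v112 at h225
  obtain ⟨v226, h226, h⟩ := h
  change v226 = v224 + v225 at h226
  obtain ⟨v227, h227, h⟩ := h
  change v227 = v6 * v226 at h227
  obtain ⟨v228, h228, h⟩ := h
  change v228 = v223 + v227 at h228
  obtain ⟨v229, h229, h⟩ := h
  change v229 = v67 * v125 at h229
  obtain ⟨v230, h230, h⟩ := h
  change v230 = v68 * v137 at h230
  obtain ⟨v231, h231, h⟩ := h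
  change v231 = v229 + v230 at h231
  obtain ⟨v232, h232, h⟩ := h
  change v232 = v228 + v231 at h232
  obtain ⟨v233, h233, h⟩ := h
  change v233 = v90 * v150 at h233
  obtain ⟨v234, h234, h⟩ := h
  change v234 = v86 * v163 at h234
  obtain ⟨v235, h235, h⟩ := h
  change v235 = v234 - v233 at h235
  obtain ⟨v236, h236, h⟩ := h
  change v236 = v6 * v235 at h236
  obtain ⟨v237, h237, h⟩ := h
  change v237 = v236 - v232 at h237
  obtain ⟨Xv, e_Xv_d⟩ : ∃ q : ℝ, q = -dt P.a T - (e * sax + f * As) * d - dt Ax U + dt B iM * d := ⟨_, rfl⟩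
  have e_Xv_v : v237 = Xv := by
    rw [e_Xv_d]
    simp only [h237, h236, h235, h234, h233, h232, h231, h230, h229, h228, h227, h226, h225, h224, h223, h222, h221, h220, h219, e_Ax_im, e_U_im, e_Ax_re, e_U_re, e_As_v, e_f_v, e_sax_v, e_e_v, e_d_v, e_T_re, e_T_im, e_B_re, e_iM_re, e_B_im, e_iM_im, mul_re, mul_im, add_re, add_im, sub_re, sub_im, neg_re, neg_im, I_re, I_im, ofReal_re,
      ofReal_im, one_re, one_im, zero_re, zero_im, dt, normSq_apply, re_ofNat, im_ofNat, conj_re, conj_im]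
    try ring
  obtain ⟨v238, h238, h⟩ := h
  change v238 = (P.L 1).re at h238
  obtain ⟨v239, h239, h⟩ := h
  change v239 = v1 * v238 at h239
  obtain ⟨v240, h240, h⟩ := h
  change v240 = (P.L I).re at h240
  obtain ⟨v241, h241, h⟩ := h
  change v241 = v239 + v240 at h241
  obtain ⟨v242, h242, h⟩ := h
  change v242 = (P.L 1).im at h242
  obtain ⟨v243, h243, h⟩ := h
  change v243 = v1 * v242 at h243
  obtain ⟨v244, h244, h⟩ := h
  change v244 = (P.L I).im at h244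
  obtain ⟨v245, h245, h⟩ := h
  change v245 = v243 + v244 at h245
  obtain ⟨L, e_L_d⟩ : ∃ q : ℂ, q = P.L X := ⟨_, rfl⟩
  have e_L_re : v241 = L.re := by
    rw [e_L_d]
    simp only [L_re P X, L_im P X, h241, h240, h239, h238, e_X_re, e_X_im, mul_re, mul_im, add_re, add_im, sub_re, sub_im, neg_re, neg_im, I_re, I_im, ofReal_re,
      ofReal_im, one_re, one_im, zero_re, zero_im, dt, normSq_apply, re_ofNat, im_ofNat, conj_re, conj_im]
    try ring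
  have e_L_im : v245 = L.im := by
    rw [e_L_d]
    simp only [L_re P X, L_im P X, h245, h244, h243, h242, e_X_re, e_X_im, mul_re, mul_im, add_re, add_im, sub_re, sub_im, neg_re, neg_im, I_re, I_im, ofReal_re,
      ofReal_im, one_re, one_im, zero_re, zero_im, dt, normSq_apply, re_ofNat, im_ofNat, conj_re, conj_im]
    try ring
  obtain ⟨v246, h246, h⟩ := h
  change v246 = v62 * v125 at h246
  obtain ⟨v247, h247, h⟩ := h
  change v247 = v63 * v137 at h247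
  obtain ⟨v248, h248, h⟩ := h
  change v248 = v246 + v247 at h248
  obtain ⟨aV, e_aV_d⟩ : ∃ q : ℝ, q = dt Ax (P.V0 / (P.fs : ℂ)) := ⟨_, rfl⟩
  have e_aV_v : v248 = aV := by
    rw [e_aV_d]
    simp only [h248, h247, h246, h63, h62, e_Ax_im, e_Ax_re, mul_re, mul_im, add_re, add_im, sub_re, sub_im, neg_re, neg_im, I_re, I_im, ofReal_re,
      ofReal_im, one_re, one_im, zero_re, zero_im, dt, normSq_apply, re_ofNat, im_ofNat, conj_re, conj_im]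
    try ring
  obtain ⟨v249, h249, h⟩ := h
  change v249 = (I * P.vs - P.bs).re at h249
  obtain ⟨v250, h250, h⟩ := h
  change v250 = (I * P.vs - P.bs).im at h250
  obtain ⟨v251, h251, h⟩ := h
  change v251 = v70 * v150 at h251
  obtain ⟨v252, h252, h⟩ := h
  change v252 = v69 * v163 at h252
  obtain ⟨v253, h253, h⟩ := h
  change v253 = v251 - v252 at h253
  obtain ⟨v254, h254, h⟩ := h
  change v254 = v41 * v253 at h254
  obtain ⟨v255, h255, h⟩ := h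
  change v255 = v42 * v253 at h255
  obtain ⟨v256, h256, h⟩ := h
  change v256 = v150 * v249 at h256
  obtain ⟨v257, h257, h⟩ := h
  change v257 = v163 * v250 at h257
  obtain ⟨v258, h258, h⟩ := h
  change v258 = v256 + v257 at h258
  obtain ⟨v259, h259, h⟩ := h
  change v259 = v78 * v258 at h259
  obtain ⟨v260, h260, h⟩ := h
  change v260 = v82 * v258 at h260
  obtain ⟨v261, h261, h⟩ := h
  change v261 = v254 + v259 at h261
  obtain ⟨v262, h262, h⟩ := h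
  change v262 = v255 + v260 at h262
  obtain ⟨v263, h263, h⟩ := h
  change v263 = v73 * v163 at h263
  obtain ⟨v264, h264, h⟩ := h
  change v264 = v73 * v150 at h264
  exact pE0b_val_s5
    P l r s v0 h0 v1 X e_X_d v2 v3 v4 h4 v5 v6 d e_d_d e_d_v v7 v8 v9 v10 v11 v12 v13 yx e_yx_d
    v14 v15 v16 v17 v18 v19 v20 v21 v22 v23 v24 v25 v26 v27 v28 v29 S e_S_d v30 v31 v32 v33 v34
    v35 v36 v37 v38 v39 v40 T e_T_d v41 h41 v42 h42 v43 v44 e e_e_d v45 v46 v47 f e_f_d e_f_v v48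
    v49 v50 v51 v52 v53 v54 v55 v56 v57 v58 v59 v60 v61 v62 v63 v64 v65 v66 v67 v68 U e_U_d v69
    v70 y e_y_d e_y_re e_y_im v71 v72 v73 k e_k_d e_k_v v74 v75 v76 v77 v78 v79 v80 v81 v82 fv
    e_fv_d e_fv_re e_fv_im v83 v84 v85 v86 v87 v88 v89 v90 M e_M_d iM e_iM_d e_iM_re e_iM_im v91
    v92 v93 nM e_nM_d e_nM_v v94 v95 v96 v97 v98 v99 v100 v101 v102 v103 v104 v105 v106 v107 v108
    v109 v110 v111 v112 As e_As_d e_As_v v113 v114 v115 v116 v117 v118 v119 v120 v121 v122 v123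
    v124 v125 v126 v127 v128 v129 v130 v131 v132 v133 v134 v135 v136 v137 Ax e_Ax_d v138 v139
    v140 v141 v142 v143 v144 v145 v146 v147 v148 v149 v150 v151 v152 v153 v154 v155 v156 v157
    v158 v159 v160 v161 v162 v163 B e_B_d e_B_re e_B_im v164 v165 v166 v167 v168 v169 v170 v171
    v172 v173 v174 v175 v176 v177 v178 v179 v180 v181 v182 v183 v184 v185 v186 v187 v188 v189 Bs
    e_Bs_d e_Bs_re e_Bs_im v190 v191 v192 v193 v194 v195 v196 v197 v198 v199 v200 v201 v202 v203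
    v204 v205 v206 v207 v208 v209 v210 v211 v212 v213 v214 DB e_DB_d e_DB_re e_DB_im v215 v216
    v217 v218 sax e_sax_d e_sax_v v219 v220 v221 v222 v223 v224 v225 v226 v227 v228 v229 v230
    v231 v232 v233 v234 v235 v236 v237 Xv e_Xv_d e_Xv_v v238 v239 v240 v241 v242 v243 v244 v245 L
    e_L_d e_L_re e_L_im v246 v247 v248 aV e_aV_d e_aV_v v249 h249 v250 h250 v251 h251 v252 h252
    v253 h253 v254 h254 v255 h255 v256 h256 v257 h257 v258 h258 v259 h259 v260 h260 v261 h261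
    v262 h262 v263 h263 v264 h264 h

theorem pE0b_val_s3 (P : Pt) (l : List ℝ) (r s : ℝ)
    (v0 : ℝ) (h0 : v0 = r) (v1 : ℝ) (X : ℂ) (e_X_d : X = (⟨s, 1⟩ : ℂ)) (e_X_re : v1 = X.re)
    (e_X_im : X.im = (1 : ℝ)) (v2 : ℝ) (v3 : ℝ) (v4 : ℝ) (h4 : v4 = (2 : ℝ)) (v5 : ℝ) (v6 : ℝ)
    (d : ℝ) (e_d_d : d = 1 - 2 * P.ys.re - 2 * (r * X.re)) (e_d_v : v6 = d) (v7 : ℝ)
    (h7 : v7 = v1 * v1) (v8 : ℝ) (v9 : ℝ) (v10 : ℝ) (v11 : ℝ) (v12 : ℝ) (v13 : ℝ) (yx : ℝ)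
    (e_yx_d : yx = dt P.ys X) (v14 : ℝ) (v15 : ℝ) (v16 : ℝ) (v17 : ℝ) (v18 : ℝ) (v19 : ℝ)
    (v20 : ℝ) (v21 : ℝ) (v22 : ℝ) (v23 : ℝ) (v24 : ℝ) (v25 : ℝ) (v26 : ℝ) (v27 : ℝ) (v28 : ℝ)
    (v29 : ℝ) (S : ℝ)
    (e_S_d : S = 4 * ((P.ys.re - (1 - normSq P.ys) / (1 - 2 * P.ys.re)) * X.re + P.ys.im * X.im) ^ 2 - 2 * (1 - normSq P.ys) * normSq X + (4 * yx + normSq X * r) * normSq X * r)
    (v30 : ℝ) (v31 : ℝ) (v32 : ℝ) (v33 : ℝ) (v34 : ℝ) (v35 : ℝ) (v36 : ℝ) (v37 : ℝ) (v38 : ℝ)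
    (v39 : ℝ) (v40 : ℝ) (T : ℂ)
    (e_T_d : T = I * ((2 * S : ℝ) : ℂ) + I * (X * ((2 * yx + normSq X * r : ℝ) : ℂ) + P.ys * (normSq X : ℂ)) * (d : ℂ))
    (e_T_re : v38 = -T.re) (e_T_im : v40 = T.im) (v41 : ℝ) (h41 : v41 = P.ns.re) (v42 : ℝ)
    (h42 : v42 = P.ns.im) (v43 : ℝ) (v44 : ℝ) (e : ℝ) (e_e_d : e = dt P.ns X) (e_e_v : v44 = e)
    (v45 : ℝ) (v46 : ℝ) (v47 : ℝ) (f : ℝ) (e_f_d : f = P.fs + e * r) (e_f_v : v47 = f) (v48 : ℝ)
    (v49 : ℝ) (v50 : ℝ) (v51 : ℝ) (v52 : ℝ) (v53 : ℝ) (v54 : ℝ) (v55 : ℝ) (v56 : ℝ) (v57 : ℝ)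
    (v58 : ℝ) (v59 : ℝ) (v60 : ℝ) (v61 : ℝ) (v62 : ℝ) (h62 : v62 = (P.V0 / (P.fs : ℂ)).re)
    (v63 : ℝ) (h63 : v63 = (P.V0 / (P.fs : ℂ)).im) (v64 : ℝ) (v65 : ℝ) (v66 : ℝ) (v67 : ℝ)
    (v68 : ℝ) (U : ℂ)
    (e_U_d : U = P.DV X * (d : ℂ) + T * (r : ℂ) - P.V0 / (P.fs : ℂ) * ((d * e : ℝ) : ℂ))
    (e_U_re : v67 = U.re) (e_U_im : v68 = U.im) (v69 : ℝ) (v70 : ℝ) (y : ℂ)
    (e_y_d : y = P.ys + X * (r : ℂ)) (e_y_re : v69 = y.re) (e_y_im : v70 = y.im) (v71 : ℝ)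
    (v72 : ℝ) (v73 : ℝ) (k : ℝ) (e_k_d : k = dt y P.ns) (e_k_v : v73 = k) (v74 : ℝ) (v75 : ℝ)
    (v76 : ℝ) (v77 : ℝ) (v78 : ℝ) (v79 : ℝ) (v80 : ℝ) (v81 : ℝ) (v82 : ℝ) (fv : ℂ)
    (e_fv_d : fv = P.fv y) (e_fv_re : v78 = fv.re) (e_fv_im : v82 = fv.im) (v83 : ℝ) (v84 : ℝ)
    (v85 : ℝ) (v86 : ℝ) (v87 : ℝ) (v88 : ℝ) (v89 : ℝ) (v90 : ℝ) (M : ℂ) (e_M_d : M = P.M X)
    (iM : ℂ) (e_iM_d : iM = I * M) (e_iM_re : v90 = -iM.re) (e_iM_im : v86 = iM.im) (v91 : ℝ)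
    (v92 : ℝ) (v93 : ℝ) (nM : ℝ) (e_nM_d : nM = normSq M) (e_nM_v : v93 = nM) (v94 : ℝ) (v95 : ℝ)
    (v96 : ℝ) (v97 : ℝ) (v98 : ℝ) (v99 : ℝ) (v100 : ℝ) (v101 : ℝ) (v102 : ℝ) (v103 : ℝ)
    (v104 : ℝ) (v105 : ℝ) (v106 : ℝ) (v107 : ℝ) (v108 : ℝ) (v109 : ℝ) (v110 : ℝ) (v111 : ℝ)
    (v112 : ℝ) (As : ℝ) (e_As_d : As = VAr P.cs r X) (e_As_v : v112 = As) (v113 : ℝ)
    (h113 : v113 = 2 * P.c.a20) (v114 : ℝ) (h114 : v114 = v1 * v113) (v115 : ℝ)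
    (h115 : v115 = P.c.a11) (v116 : ℝ) (h116 : v116 = v114 + v115) (v117 : ℝ)
    (h117 : v117 = 3 * P.c.a30) (v118 : ℝ) (h118 : v118 = v7 * v117) (v119 : ℝ)
    (h119 : v119 = 2 * P.c.a21) (v120 : ℝ) (h120 : v120 = v1 * v119) (v121 : ℝ)
    (h121 : v121 = v118 + v120) (v122 : ℝ) (h122 : v122 = P.c.a12) (v123 : ℝ)
    (h123 : v123 = v121 + v122) (v124 : ℝ) (h124 : v124 = v0 * v123) (v125 : ℝ)
    (h125 : v125 = v116 + v124) (v126 : ℝ) (h126 : v126 = v1 * v115) (v127 : ℝ)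
    (h127 : v127 = 2 * P.c.a02)
    (h : TrE (realAlg (fun i => get 0 (P.syl l) i) (r) (s))
    [.add 1 0, .base 39, .mul 122 0, .base 40, .mul 130 0, .add 2 0, .base 41, .add 1 0,
    .mul 135 0, .add 8 0, .base 49, .mul 137 0, .base 50, .add 1 0, .base 53, .mul 135 0,
    .base 54, .mul 143 0, .add 2 0, .base 55, .add 1 0, .mul 148 0, .add 8 0, .base 51,
    .mul 150 0, .base 52, .add 1 0, .base 56, .mul 148 0, .base 57, .mul 156 0, .add 2 0,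
    .base 58, .add 1 0, .mul 161 0, .add 8 0, .base 59, .mul 163 0, .base 60, .add 1 0, .base 63,
    .mul 161 0, .base 64, .mul 169 0, .add 2 0, .base 65, .add 1 0, .mul 174 0, .add 8 0,
    .base 61, .mul 176 0, .base 62, .add 1 0, .base 66, .mul 174 0, .base 67, .mul 182 0,
    .add 2 0, .base 68, .add 1 0, .mul 187 0, .add 8 0, .mul 188 122, .mul 186 0, .mul 190 123,
    .add 125 0, .mul 189 125, .mul 127 56, .mul 127 55, .add 1 0, .mul 55 6, .mul 54 5, .add 1 0,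
    .mul 53 6, .add 1 0, .mul 202 0, .add 6 0, .mul 137 53, .mul 137 52, .add 1 0, .mul 52 16,
    .mul 51 15, .add 1 0, .mul 50 16, .add 1 0, .mul 212 0, .add 6 0, .base 31, .base 32,
    .mul 215 1, .add 1 0, .base 29, .base 30, .mul 182 1, .mul 181 1, .sub 0 1, .mul 179 5,
    .mul 177 112, .add 1 0, .mul 220 0, .add 4 0, .mul 161 103, .mul 161 92, .add 1 0, .add 3 0,
    .mul 142 82, .mul 147 70, .sub 0 1, .mul 229 0, .sub 0 4, .base 23, .mul 237 0, .base 24,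
    .add 1 0, .base 25, .mul 241 0, .base 26, .add 1 0, .mul 183 120, .mul 183 109, .add 1 0,
    .base 27, .base 28, .mul 180 100, .mul 182 88, .sub 1 0, .mul 212 0, .mul 212 1, .mul 105 6,
    .mul 93 6, .add 1 0, .mul 180 0, .mul 177 1, .add 6 1, .add 6 1, .mul 189 99, .mul 190 113,
    .add 3 1, .sub 3 1, .mul 266 154, .add 49 0, .sub 0 20, .mul 191 0, .mul 188 1, .sub 30 1,
    .sub 27 1, .mul 269 110, .mul 270 124, .sub 99 1, .add 87 1, .mul 230 1, .mul 231 1,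
    .sub 7 1, .sub 7 1, .sub 1 16, .sub 1 16, .mul 236 46, .cst 6 0, .mul 1 0, .mul 280 193,
    .mul 283 1, .sub 0 1, .mul 242 242, .mul 220 200, .mul 222 205, .add 1 0, .mul 252 0,
    .mul 252 1, .mul 205 46, .mul 210 46, .sub 0 1, .mul 220 0, .mul 217 1, .sub 1 6, .sub 1 6,
    .mul 229 216, .mul 230 213, .add 3 1, .add 3 1, .mul 300 259, .mul 2 0, .mul 2 1, .sub 22 23,
    .mul 310 0, .mul 233 0, .mul 230 1, .add 5 1, .add 5 1, .mul 309 33, .mul 310 33, .sub 1 113,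
    .sub 1 104, .mul 34 29, .mul 2 0, .mul 2 1, .add 8 1, .add 8 1]
    [v127, v126, v125, v124, v123, v122, v121, v120, v119, v118, v117, v116, v115, v114, v113,
    v112, v111, v110, v109, v108, v107, v106, v105, v104, v103, v102, v101, v100, v99, v98, v97,
    v96, v95, v94, v93, v92, v91, v90, v89, v88, v87, v86, v85, v84, v83, v82, v81, v80, v79,
    v78, v77, v76, v75, v74, v73, v72, v71, v70, v69, v68, v67, v66, v65, v64, v63, v62, v61,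
    v60, v59, v58, v57, v56, v55, v54, v53, v52, v51, v50, v49, v48, v47, v46, v45, v44, v43,
    v42, v41, v40, v39, v38, v37, v36, v35, v34, v33, v32, v31, v30, v29, v28, v27, v26, v25,
    v24, v23, v22, v21, v20, v19, v18, v17, v16, v15, v14, v13, v12, v11, v10, v9, v8, v7, v6,
    v5, v4, v3, v2, v1, v0]
    (pE0b_valQ P l r s)) :
    OutEq (run (realAlg (fun i => get 0 (P.syl l) i) (r) (s)) pE0b []) pE0b_out
      [P.E12 r ⟨s, 1⟩ (P.T0 r ⟨s, 1⟩ (1 - 2 * P.ys.re - 2 * (r * (⟨s, 1⟩ : ℂ).re))) (P.U0 r ⟨s, 1⟩ (P.T0 r ⟨s, 1⟩ (1 - 2 * P.ys.re - 2 * (r * (⟨s, 1⟩ : ℂ).re))) (1 - 2 * P.ys.re - 2 * (r * (⟨s, 1⟩ : ℂ).re))) (1 - 2 * P.ys.re - 2 * (r * (⟨s, 1⟩ : ℂ).re)), (P.G6 r ⟨s, 1⟩ (P.T0 r ⟨s, 1⟩ (1 - 2 * P.ys.re - 2 * (r * (⟨s, 1⟩ : ℂ).re))) (P.U0 r ⟨s, 1⟩ (P.T0 r ⟨s, 1⟩ (1 - 2 * P.ys.re - 2 * (r * (⟨s, 1⟩ : ℂ).re))) (1 - 2 * P.ys.re - 2 * (r * (⟨s, 1⟩ : ℂ).re))) (1 -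 2 * P.ys.re - 2 * (r * (⟨s, 1⟩ : ℂ).re))).re, (P.G6 r ⟨s, 1⟩ (P.T0 r ⟨s, 1⟩ (1 - 2 * P.ys.re - 2 * (r * (⟨s, 1⟩ : ℂ).re))) (P.U0 r ⟨s, 1⟩ (P.T0 r ⟨s, 1⟩ (1 - 2 * P.ys.re - 2 * (r * (⟨s, 1⟩ : ℂ).re))) (1 - 2 * P.ys.re - 2 * (r * (⟨s, 1⟩ : ℂ).re))) (1 - 2 * P.ys.re - 2 * (r * (⟨s, 1⟩ : ℂ).re))).im, P.fr r ⟨s, 1⟩] := by
  obtain ⟨v128, h128, h⟩ := h
  change v128 = v126 + v127 at h128
  obtain ⟨v129, h129, h⟩ := h
  change v129 = P.c.a21 at h129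
  obtain ⟨v130, h130, h⟩ := h
  change v130 = v7 * v129 at h130
  obtain ⟨v131, h131, h⟩ := h
  change v131 = 2 * P.c.a12 at h131
  obtain ⟨v132, h132, h⟩ := h
  change v132 = v1 * v131 at h132
  obtain ⟨v133, h133, h⟩ := h
  change v133 = v130 + v132 at h133
  obtain ⟨v134, h134, h⟩ := h
  change v134 = 3 * P.c.a03 at h134
  obtain ⟨v135, h135, h⟩ := h
  change v135 = v133 + v134 at h135
  obtain ⟨v136, h136, h⟩ := h
  change v136 = v0 * v135 at h136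
  obtain ⟨v137, h137, h⟩ := h
  change v137 = v128 + v136 at h137
  obtain ⟨Ax, e_Ax_d⟩ : ∃ q : ℂ, q = VAxr P.c r X := ⟨_, rfl⟩
  have e_Ax_re : v125 = Ax.re := by
    rw [e_Ax_d]
    simp only [VAxr_re, VAxr_im, h125, h124, h123, h122, h121, h120, h119, h118, h117, h116, h115, h114, h113, h7, h0, e_X_re, e_X_im, mul_re, mul_im, add_re, add_im, sub_re, sub_im, neg_re, neg_im, I_re, I_im, ofReal_re,
      ofReal_im, one_re, one_im, zero_re, zero_im, dt, normSq_apply, re_ofNat, im_ofNat, conj_re, conj_im]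
    try ring
  have e_Ax_im : v137 = Ax.im := by
    rw [e_Ax_d]
    simp only [VAxr_re, VAxr_im, h137, h136, h135, h134, h133, h132, h131, h130, h129, h128, h127, h126, h115, h7, h0, e_X_re, e_X_im, mul_re, mul_im, add_re, add_im, sub_re, sub_im, neg_re, neg_im, I_re, I_im, ofReal_re,
      ofReal_im, one_re, one_im, zero_re, zero_im, dt, normSq_apply, re_ofNat, im_ofNat, conj_re, conj_im]
    try ring
  obtain ⟨v138, h138, h⟩ := h
  change v138 = P.c.b11 at h138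
  obtain ⟨v139, h139, h⟩ := h
  change v139 = v1 * v138 at h139
  obtain ⟨v140, h140, h⟩ := h
  change v140 = P.c.b12 at h140
  obtain ⟨v141, h141, h⟩ := h
  change v141 = v139 + v140 at h141
  obtain ⟨v142, h142, h⟩ := h
  change v142 = P.c.q1 at h142
  obtain ⟨v143, h143, h⟩ := h
  change v143 = v7 * v142 at h143
  obtain ⟨v144, h144, h⟩ := h
  change v144 = P.c.q2 at h144
  obtain ⟨v145, h145, h⟩ := h
  change v145 = v1 * v144 at h145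
  obtain ⟨v146, h146, h⟩ := h
  change v146 = v143 + v145 at h146
  obtain ⟨v147, h147, h⟩ := h
  change v147 = P.c.q3 at h147
  obtain ⟨v148, h148, h⟩ := h
  change v148 = v146 + v147 at h148
  obtain ⟨v149, h149, h⟩ := h
  change v149 = v0 * v148 at h149
  obtain ⟨v150, h150, h⟩ := h
  change v150 = v141 + v149 at h150
  obtain ⟨v151, h151, h⟩ := h
  change v151 = P.c.b21 at h151
  obtain ⟨v152, h152, h⟩ := h
  change v152 = v1 * v151 at h152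
  obtain ⟨v153, h153, h⟩ := h
  change v153 = P.c.b22 at h153
  obtain ⟨v154, h154, h⟩ := h
  change v154 = v152 + v153 at h154
  obtain ⟨v155, h155, h⟩ := h
  change v155 = P.c.q4 at h155
  obtain ⟨v156, h156, h⟩ := h
  change v156 = v7 * v155 at h156
  obtain ⟨v157, h157, h⟩ := h
  change v157 = P.c.q5 at h157
  obtain ⟨v158, h158, h⟩ := h
  change v158 = v1 * v157 at h158
  obtain ⟨v159, h159, h⟩ := h
  change v159 = v156 + v158 at h159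
  obtain ⟨v160, h160, h⟩ := h
  change v160 = P.c.q6 at h160
  obtain ⟨v161, h161, h⟩ := h
  change v161 = v159 + v160 at h161
  obtain ⟨v162, h162, h⟩ := h
  change v162 = v0 * v161 at h162
  obtain ⟨v163, h163, h⟩ := h
  change v163 = v154 + v162 at h163
  obtain ⟨B, e_B_d⟩ : ∃ q : ℂ, q = VBr P.c r X := ⟨_, rfl⟩
  have e_B_re : v150 = B.re := by
    rw [e_B_d]
    simp only [VBr_re, VBr_im, h150, h149, h148, h147, h146, h145, h144, h143, h142, h141, h140, h139, h138, h7, h0, e_X_re, e_X_im, mul_re, mul_im, add_re, add_im, sub_re, sub_im, neg_re, neg_im, I_re, I_im, ofReal_re,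
      ofReal_im, one_re, one_im, zero_re, zero_im, dt, normSq_apply, re_ofNat, im_ofNat, conj_re, conj_im]
    try ring
  have e_B_im : v163 = B.im := by
    rw [e_B_d]
    simp only [VBr_re, VBr_im, h163, h162, h161, h160, h159, h158, h157, h156, h155, h154, h153, h152, h151, h7, h0, e_X_re, e_X_im, mul_re, mul_im, add_re, add_im, sub_re, sub_im, neg_re, neg_im, I_re, I_im, ofReal_re,
      ofReal_im, one_re, one_im, zero_re, zero_im, dt, normSq_apply, re_ofNat, im_ofNat, conj_re, conj_im]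
    try ring
  obtain ⟨v164, h164, h⟩ := h
  change v164 = P.cs.b11 at h164
  obtain ⟨v165, h165, h⟩ := h
  change v165 = v1 * v164 at h165
  obtain ⟨v166, h166, h⟩ := h
  change v166 = P.cs.b12 at h166
  obtain ⟨v167, h167, h⟩ := h
  change v167 = v165 + v166 at h167
  obtain ⟨v168, h168, h⟩ := h
  change v168 = P.cs.q1 at h168
  obtain ⟨v169, h169, h⟩ := h
  change v169 = v7 * v168 at h169
  obtain ⟨v170, h170, h⟩ := h
  change v170 = P.cs.q2 at h170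
  obtain ⟨v171, h171, h⟩ := h
  change v171 = v1 * v170 at h171
  obtain ⟨v172, h172, h⟩ := h
  change v172 = v169 + v171 at h172
  obtain ⟨v173, h173, h⟩ := h
  change v173 = P.cs.q3 at h173
  obtain ⟨v174, h174, h⟩ := h
  change v174 = v172 + v173 at h174
  obtain ⟨v175, h175, h⟩ := h
  change v175 = v0 * v174 at h175
  obtain ⟨v176, h176, h⟩ := h
  change v176 = v167 + v175 at h176
  obtain ⟨v177, h177, h⟩ := h
  change v177 = P.cs.b21 at h177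
  obtain ⟨v178, h178, h⟩ := h
  change v178 = v1 * v177 at h178
  obtain ⟨v179, h179, h⟩ := h
  change v179 = P.cs.b22 at h179
  obtain ⟨v180, h180, h⟩ := h
  change v180 = v178 + v179 at h180
  obtain ⟨v181, h181, h⟩ := h
  change v181 = P.cs.q4 at h181
  obtain ⟨v182, h182, h⟩ := h
  change v182 = v7 * v181 at h182
  obtain ⟨v183, h183, h⟩ := h
  change v183 = P.cs.q5 at h183
  obtain ⟨v184, h184, h⟩ := h
  change v184 = v1 * v183 at h184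
  obtain ⟨v185, h185, h⟩ := h
  change v185 = v182 + v184 at h185
  obtain ⟨v186, h186, h⟩ := h
  change v186 = P.cs.q6 at h186
  obtain ⟨v187, h187, h⟩ := h
  change v187 = v185 + v186 at h187
  obtain ⟨v188, h188, h⟩ := h
  change v188 = v0 * v187 at h188
  obtain ⟨v189, h189, h⟩ := h
  change v189 = v180 + v188 at h189
  obtain ⟨Bs, e_Bs_d⟩ : ∃ q : ℂ, q = VBr P.cs r X := ⟨_, rfl⟩
  have e_Bs_re : v176 = Bs.re := by
    rw [e_Bs_d]
    simp only [VBr_re, VBr_im, h176, h175, h174, h173, h172, h171, h170, h169, h168, h167, h166, h165, h164, h7, h0, e_X_re, e_X_im, mul_re, mul_im, add_re, add_im, sub_re, sub_im, neg_re, neg_im, I_re, I_im, ofReal_re,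
      ofReal_im, one_re, one_im, zero_re, zero_im, dt, normSq_apply, re_ofNat, im_ofNat, conj_re, conj_im]
    try ring
  have e_Bs_im : v189 = Bs.im := by
    rw [e_Bs_d]
    simp only [VBr_re, VBr_im, h189, h188, h187, h186, h185, h184, h183, h182, h181, h180, h179, h178, h177, h7, h0, e_X_re, e_X_im, mul_re, mul_im, add_re, add_im, sub_re, sub_im, neg_re, neg_im, I_re, I_im, ofReal_re,
      ofReal_im, one_re, one_im, zero_re, zero_im, dt, normSq_apply, re_ofNat, im_ofNat, conj_re, conj_im]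
    try ring
  obtain ⟨v190, h190, h⟩ := h
  change v190 = v1 * v67 at h190
  obtain ⟨v191, h191, h⟩ := h
  change v191 = v4 * v190 at h191
  obtain ⟨v192, h192, h⟩ := h
  change v192 = v1 * v68 at h192
  obtain ⟨v193, h193, h⟩ := h
  change v193 = v67 + v192 at h193
  obtain ⟨v194, h194, h⟩ := h
  change v194 = v4 * v68 at h194
  obtain ⟨v195, h195, h⟩ := h
  change v195 = v67 * v138 at h195
  obtain ⟨v196, h196, h⟩ := h
  change v196 = v68 * v140 at h196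
  obtain ⟨v197, h197, h⟩ := h
  change v197 = v195 + v196 at h197
  exact pE0b_val_s4
    P l r s v0 h0 v1 X e_X_d e_X_re e_X_im v2 v3 v4 h4 v5 v6 d e_d_d e_d_v v7 v8 v9 v10 v11 v12
    v13 yx e_yx_d v14 v15 v16 v17 v18 v19 v20 v21 v22 v23 v24 v25 v26 v27 v28 v29 S e_S_d v30 v31
    v32 v33 v34 v35 v36 v37 v38 v39 v40 T e_T_d e_T_re e_T_im v41 h41 v42 h42 v43 v44 e e_e_d
    e_e_v v45 v46 v47 f e_f_d e_f_v v48 v49 v50 v51 v52 v53 v54 v55 v56 v57 v58 v59 v60 v61 v62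
    h62 v63 h63 v64 v65 v66 v67 v68 U e_U_d e_U_re e_U_im v69 v70 y e_y_d e_y_re e_y_im v71 v72
    v73 k e_k_d e_k_v v74 v75 v76 v77 v78 v79 v80 v81 v82 fv e_fv_d e_fv_re e_fv_im v83 v84 v85
    v86 v87 v88 v89 v90 M e_M_d iM e_iM_d e_iM_re e_iM_im v91 v92 v93 nM e_nM_d e_nM_v v94 v95
    v96 v97 v98 v99 v100 v101 v102 v103 v104 v105 v106 v107 v108 v109 v110 v111 v112 As e_As_d
    e_As_v v113 v114 v115 v116 v117 v118 v119 v120 v121 v122 v123 v124 v125 v126 v127 v128 v129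
    v130 v131 v132 v133 v134 v135 v136 v137 Ax e_Ax_d e_Ax_re e_Ax_im v138 h138 v139 v140 h140
    v141 v142 h142 v143 v144 h144 v145 v146 v147 h147 v148 v149 v150 v151 h151 v152 v153 h153
    v154 v155 h155 v156 v157 h157 v158 v159 v160 h160 v161 v162 v163 B e_B_d e_B_re e_B_im v164
    v165 v166 v167 v168 v169 v170 v171 v172 v173 v174 v175 v176 v177 v178 v179 v180 v181 v182
    v183 v184 v185 v186 v187 v188 v189 Bs e_Bs_d e_Bs_re e_Bs_im v190 h190 v191 h191 v192 h192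
    v193 h193 v194 h194 v195 h195 v196 h196 v197 h197 h

theorem pE0b_val_s2 (P : Pt) (l : List ℝ) (r s : ℝ)
    (v0 : ℝ) (h0 : v0 = r) (v1 : ℝ) (X : ℂ) (e_X_d : X = (⟨s, 1⟩ : ℂ)) (e_X_re : v1 = X.re)
    (e_X_im : X.im = (1 : ℝ)) (v2 : ℝ) (v3 : ℝ) (h3 : v3 = v0 * v1) (v4 : ℝ) (h4 : v4 = (2 : ℝ))
    (v5 : ℝ) (v6 : ℝ) (d : ℝ) (e_d_d : d = 1 - 2 * P.ys.re - 2 * (r * X.re)) (e_d_v : v6 = d)
    (v7 : ℝ) (h7 : v7 = v1 * v1) (v8 : ℝ) (v9 : ℝ) (v10 : ℝ) (h10 : v10 = P.ys.re) (v11 : ℝ)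
    (h11 : v11 = P.ys.im) (v12 : ℝ) (v13 : ℝ) (yx : ℝ) (e_yx_d : yx = dt P.ys X) (v14 : ℝ)
    (v15 : ℝ) (v16 : ℝ) (v17 : ℝ) (v18 : ℝ) (v19 : ℝ) (v20 : ℝ) (v21 : ℝ) (v22 : ℝ) (v23 : ℝ)
    (v24 : ℝ) (v25 : ℝ) (v26 : ℝ) (v27 : ℝ) (v28 : ℝ) (v29 : ℝ) (S : ℝ)
    (e_S_d : S = 4 * ((P.ys.re - (1 - normSq P.ys) / (1 - 2 * P.ys.re)) * X.re + P.ys.im * X.im) ^ 2 - 2 * (1 - normSq P.ys) * normSq X + (4 * yx + normSq X * r) * normSq X * r)
    (v30 : ℝ) (v31 : ℝ) (v32 : ℝ) (v33 : ℝ) (v34 : ℝ) (v35 : ℝ) (v36 : ℝ) (v37 : ℝ) (v38 : ℝ)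
    (v39 : ℝ) (v40 : ℝ) (T : ℂ)
    (e_T_d : T = I * ((2 * S : ℝ) : ℂ) + I * (X * ((2 * yx + normSq X * r : ℝ) : ℂ) + P.ys * (normSq X : ℂ)) * (d : ℂ))
    (e_T_re : v38 = -T.re) (e_T_im : v40 = T.im) (v41 : ℝ) (h41 : v41 = P.ns.re) (v42 : ℝ)
    (h42 : v42 = P.ns.im) (v43 : ℝ) (v44 : ℝ) (e : ℝ) (e_e_d : e = dt P.ns X) (e_e_v : v44 = e)
    (v45 : ℝ) (v46 : ℝ) (v47 : ℝ) (f : ℝ) (e_f_d : f = P.fs + e * r) (e_f_v : v47 = f) (v48 : ℝ)
    (h48 : v48 = (P.DV 1).re) (v49 : ℝ) (h49 : v49 = v1 * v48) (v50 : ℝ)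
    (h50 : v50 = (P.DV I).re) (v51 : ℝ) (h51 : v51 = v49 + v50) (v52 : ℝ)
    (h52 : v52 = (P.DV 1).im) (v53 : ℝ) (h53 : v53 = v1 * v52) (v54 : ℝ)
    (h54 : v54 = (P.DV I).im) (v55 : ℝ) (h55 : v55 = v53 + v54) (v56 : ℝ) (h56 : v56 = v6 * v51)
    (v57 : ℝ) (h57 : v57 = v6 * v55) (v58 : ℝ) (h58 : v58 = v0 * v38) (v59 : ℝ)
    (h59 : v59 = v0 * v40) (v60 : ℝ) (h60 : v60 = v56 - v58) (v61 : ℝ) (h61 : v61 = v57 + v59)
    (v62 : ℝ) (h62 : v62 = (P.V0 / (P.fs : ℂ)).re) (v63 : ℝ) (h63 : v63 = (P.V0 / (P.fs : ℂ)).im)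
    (v64 : ℝ) (h64 : v64 = v6 * v44)
    (h : TrE (realAlg (fun i => get 0 (P.syl l) i) (r) (s))
    [.mul 2 0, .mul 2 1, .sub 6 1, .sub 6 1, .add 65 58, .add 69 58, .mul 29 1, .mul 29 1,
    .add 1 0, .base 16, .mul 5 0, .base 17, .mul 6 0, .add 2 0, .mul 9 2, .base 18, .mul 10 0,
    .add 2 0, .base 19, .mul 82 0, .base 20, .add 1 0, .base 21, .mul 86 0, .base 22, .add 1 0,
    .mul 4 4, .mul 1 1, .add 1 0, .base 45, .mul 93 0, .base 46, .add 1 0, .mul 90 0, .base 47,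
    .mul 98 0, .base 48, .add 1 0, .add 4 0, .base 42, .mul 97 0, .base 43, .mul 105 0, .add 2 0,
    .base 44, .add 1 0, .mul 110 7, .add 1 0, .base 33, .mul 112 0, .base 34, .add 1 0, .base 36,
    .mul 110 0, .base 37, .mul 118 0, .add 2 0, .base 38, .add 1 0, .mul 123 0, .add 8 0,
    .mul 124 10, .base 35, .add 1 0, .base 39, .mul 122 0, .base 40, .mul 130 0, .add 2 0,
    .base 41, .add 1 0, .mul 135 0, .add 8 0, .base 49, .mul 137 0, .base 50, .add 1 0, .base 53,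
    .mul 135 0, .base 54, .mul 143 0, .add 2 0, .base 55, .add 1 0, .mul 148 0, .add 8 0,
    .base 51, .mul 150 0, .base 52, .add 1 0, .base 56, .mul 148 0, .base 57, .mul 156 0,
    .add 2 0, .base 58, .add 1 0, .mul 161 0, .add 8 0, .base 59, .mul 163 0, .base 60, .add 1 0,
    .base 63, .mul 161 0, .base 64, .mul 169 0, .add 2 0, .base 65, .add 1 0, .mul 174 0,
    .add 8 0, .base 61, .mul 176 0, .base 62, .add 1 0, .base 66, .mul 174 0, .base 67,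
    .mul 182 0, .add 2 0, .base 68, .add 1 0, .mul 187 0, .add 8 0, .mul 188 122, .mul 186 0,
    .mul 190 123, .add 125 0, .mul 189 125, .mul 127 56, .mul 127 55, .add 1 0, .mul 55 6,
    .mul 54 5, .add 1 0, .mul 53 6, .add 1 0, .mul 202 0, .add 6 0, .mul 137 53, .mul 137 52,
    .add 1 0, .mul 52 16, .mul 51 15, .add 1 0, .mul 50 16, .add 1 0, .mul 212 0, .add 6 0,
    .base 31, .base 32, .mul 215 1, .add 1 0, .base 29, .base 30, .mul 182 1, .mul 181 1,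
    .sub 0 1, .mul 179 5, .mul 177 112, .add 1 0, .mul 220 0, .add 4 0, .mul 161 103,
    .mul 161 92, .add 1 0, .add 3 0, .mul 142 82, .mul 147 70, .sub 0 1, .mul 229 0, .sub 0 4,
    .base 23, .mul 237 0, .base 24, .add 1 0, .base 25, .mul 241 0, .base 26, .add 1 0,
    .mul 183 120, .mul 183 109, .add 1 0, .base 27, .base 28, .mul 180 100, .mul 182 88,
    .sub 1 0, .mul 212 0, .mul 212 1, .mul 105 6, .mul 93 6, .add 1 0, .mul 180 0, .mul 177 1,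
    .add 6 1, .add 6 1, .mul 189 99, .mul 190 113, .add 3 1, .sub 3 1, .mul 266 154, .add 49 0,
    .sub 0 20, .mul 191 0, .mul 188 1, .sub 30 1, .sub 27 1, .mul 269 110, .mul 270 124,
    .sub 99 1, .add 87 1, .mul 230 1, .mul 231 1, .sub 7 1, .sub 7 1, .sub 1 16, .sub 1 16,
    .mul 236 46, .cst 6 0, .mul 1 0, .mul 280 193, .mul 283 1, .sub 0 1, .mul 242 242,
    .mul 220 200, .mul 222 205, .add 1 0, .mul 252 0, .mul 252 1, .mul 205 46, .mul 210 46,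
    .sub 0 1, .mul 220 0, .mul 217 1, .sub 1 6, .sub 1 6, .mul 229 216, .mul 230 213, .add 3 1,
    .add 3 1, .mul 300 259, .mul 2 0, .mul 2 1, .sub 22 23, .mul 310 0, .mul 233 0, .mul 230 1,
    .add 5 1, .add 5 1, .mul 309 33, .mul 310 33, .sub 1 113, .sub 1 104, .mul 34 29, .mul 2 0,
    .mul 2 1, .add 8 1, .add 8 1]
    [v64, v63, v62, v61, v60, v59, v58, v57, v56, v55, v54, v53, v52, v51, v50, v49, v48, v47,
    v46, v45, v44, v43, v42, v41, v40, v39, v38, v37, v36, v35, v34, v33, v32, v31, v30, v29,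
    v28, v27, v26, v25, v24, v23, v22, v21, v20, v19, v18, v17, v16, v15, v14, v13, v12, v11,
    v10, v9, v8, v7, v6, v5, v4, v3, v2, v1, v0]
    (pE0b_valQ P l r s)) :
    OutEq (run (realAlg (fun i => get 0 (P.syl l) i) (r) (s)) pE0b []) pE0b_out
      [P.E12 r ⟨s, 1⟩ (P.T0 r ⟨s, 1⟩ (1 - 2 * P.ys.re - 2 * (r * (⟨s, 1⟩ : ℂ).re))) (P.U0 r ⟨s, 1⟩ (P.T0 r ⟨s, 1⟩ (1 - 2 * P.ys.re - 2 * (r * (⟨s, 1⟩ : ℂ).re))) (1 - 2 * P.ys.re - 2 * (r * (⟨s, 1⟩ : ℂ).re))) (1 - 2 * P.ys.re - 2 * (r * (⟨s, 1⟩ : ℂ).re)), (P.G6 r ⟨s, 1⟩ (P.T0 r ⟨s, 1⟩ (1 - 2 * P.ys.re - 2 * (r * (⟨s, 1⟩ : ℂ).re))) (P.U0 r ⟨s, 1⟩ (P.T0 r ⟨s, 1⟩ (1 - 2 * P.ys.re - 2 * (r * (⟨s, 1⟩ : ℂ).re))) (1 - 2 * P.ys.re - 2 * (r * (⟨s, 1⟩ : ℂ).re))) (1 - 2 * P.ys.re - 2 * (r * (⟨s, 1⟩ : ℂ).re))).re, (P.G6 r ⟨s, 1⟩ (P.T0 r ⟨s, 1⟩ (1 - 2 * P.ys.re - 2 * (r * (⟨s, 1⟩ : ℂ).re))) (P.U0 r ⟨s, 1⟩ (P.T0 r ⟨s, 1⟩ (1 - 2 * P.ys.re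 - 2 * (r * (⟨s, 1⟩ : ℂ).re))) (1 - 2 * P.ys.re - 2 * (r * (⟨s, 1⟩ : ℂ).re))) (1 - 2 * P.ys.re - 2 * (r * (⟨s, 1⟩ : ℂ).re))).im, P.fr r ⟨s, 1⟩] := by
  obtain ⟨v65, h65, h⟩ := h
  change v65 = v62 * v64 at h65
  obtain ⟨v66, h66, h⟩ := h
  change v66 = v63 * v64 at h66
  obtain ⟨v67, h67, h⟩ := h
  change v67 = v60 - v65 at h67
  obtain ⟨v68, h68, h⟩ := h
  change v68 = v61 - v66 at h68
  obtain ⟨U, e_U_d⟩ : ∃ q : ℂ, q = P.DV X * (d : ℂ) + T * (r : ℂ) - P.V0 / (P.fs : ℂ) * ((d * e : ℝ) : ℂ) := ⟨_, rfl⟩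
  have e_U_re : v67 = U.re := by
    rw [e_U_d]
    simp only [DV_re P X, DV_im P X, h67, h65, h64, h62, h60, h58, h56, h51, h50, h49, h48, h0, e_e_v, e_d_v, e_T_re, e_X_re, e_X_im, mul_re, mul_im, add_re, add_im, sub_re, sub_im, neg_re, neg_im, I_re, I_im, ofReal_re,
      ofReal_im, one_re, one_im, zero_re, zero_im, dt, normSq_apply, re_ofNat, im_ofNat, conj_re, conj_im]
    try ring
  have e_U_im : v68 = U.im := by
    rw [e_U_d]
    simp only [DV_re P X, DV_im P X, h68, h66, h64, h63, h61, h59, h57, h55, h54, h53, h52, h0, e_e_v, e_d_v, e_T_im, e_X_re, e_X_im, mul_re, mul_im, add_re, add_im, sub_re, sub_im, neg_re, neg_im, I_re, I_im, ofReal_re,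
      ofReal_im, one_re, one_im, zero_re, zero_im, dt, normSq_apply, re_ofNat, im_ofNat, conj_re, conj_im]
    try ring
  obtain ⟨v69, h69, h⟩ := h
  change v69 = v3 + v10 at h69
  obtain ⟨v70, h70, h⟩ := h
  change v70 = v0 + v11 at h70
  obtain ⟨y, e_y_d⟩ : ∃ q : ℂ, q = P.ys + X * (r : ℂ) := ⟨_, rfl⟩
  have e_y_re : v69 = y.re := by
    rw [e_y_d]
    simp only [h69, h10, h3, h0, e_X_re, e_X_im, mul_re, mul_im, add_re, add_im, sub_re, sub_im, neg_re, neg_im, I_re, I_im, ofReal_re,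
      ofReal_im, one_re, one_im, zero_re, zero_im, dt, normSq_apply, re_ofNat, im_ofNat, conj_re, conj_im]
    try ring
  have e_y_im : v70 = y.im := by
    rw [e_y_d]
    simp only [h70, h11, h0, e_X_im, mul_re, mul_im, add_re, add_im, sub_re, sub_im, neg_re, neg_im, I_re, I_im, ofReal_re,
      ofReal_im, one_re, one_im, zero_re, zero_im, dt, normSq_apply, re_ofNat, im_ofNat, conj_re, conj_im]
    try ring
  obtain ⟨v71, h71, h⟩ := h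
  change v71 = v41 * v69 at h71
  obtain ⟨v72, h72, h⟩ := h
  change v72 = v42 * v70 at h72
  obtain ⟨v73, h73, h⟩ := h
  change v73 = v71 + v72 at h73
  obtain ⟨k, e_k_d⟩ : ∃ q : ℝ, q = dt y P.ns := ⟨_, rfl⟩
  have e_k_v : v73 = k := by
    rw [e_k_d]
    simp only [h73, h72, h71, h42, h41, e_y_im, e_y_re, mul_re, mul_im, add_re, add_im, sub_re, sub_im, neg_re, neg_im, I_re, I_im, ofReal_re,
      ofReal_im, one_re, one_im, zero_re, zero_im, dt, normSq_apply, re_ofNat, im_ofNat, conj_re, conj_im]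
    try ring
  obtain ⟨v74, h74, h⟩ := h
  change v74 = (P.fv 1).re at h74
  obtain ⟨v75, h75, h⟩ := h
  change v75 = v69 * v74 at h75
  obtain ⟨v76, h76, h⟩ := h
  change v76 = (P.fv 1).im at h76
  obtain ⟨v77, h77, h⟩ := h
  change v77 = v70 * v76 at h77
  obtain ⟨v78, h78, h⟩ := h
  change v78 = v75 + v77 at h78
  obtain ⟨v79, h79, h⟩ := h
  change v79 = v69 * v76 at h79
  obtain ⟨v80, h80, h⟩ := h
  change v80 = (P.fv I).im at h80
  obtain ⟨v81, h81, h⟩ := h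
  change v81 = v70 * v80 at h81
  obtain ⟨v82, h82, h⟩ := h
  change v82 = v79 + v81 at h82
  obtain ⟨fv, e_fv_d⟩ : ∃ q : ℂ, q = P.fv y := ⟨_, rfl⟩
  have e_fv_re : v78 = fv.re := by
    rw [e_fv_d]
    simp only [fv_re P y, fv_im P y, h78, h77, h76, h75, h74, e_y_im, e_y_re, mul_re, mul_im, add_re, add_im, sub_re, sub_im, neg_re, neg_im, I_re, I_im, ofReal_re,
      ofReal_im, one_re, one_im, zero_re, zero_im, dt, normSq_apply, re_ofNat, im_ofNat, conj_re, conj_im]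
    try ring
  have e_fv_im : v82 = fv.im := by
    rw [e_fv_d]
    simp only [fv_re P y, fv_im P y, h82, h81, h80, h79, h76, e_y_im, e_y_re, mul_re, mul_im, add_re, add_im, sub_re, sub_im, neg_re, neg_im, I_re, I_im, ofReal_re,
      ofReal_im, one_re, one_im, zero_re, zero_im, dt, normSq_apply, re_ofNat, im_ofNat, conj_re, conj_im]
    try ring
  obtain ⟨v83, h83, h⟩ := h
  change v83 = (P.M 1).re at h83
  obtain ⟨v84, h84, h⟩ := h
  change v84 = v1 * v83 at h84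
  obtain ⟨v85, h85, h⟩ := h
  change v85 = (P.M I).re at h85
  obtain ⟨v86, h86, h⟩ := h
  change v86 = v84 + v85 at h86
  obtain ⟨v87, h87, h⟩ := h
  change v87 = (P.M 1).im at h87
  obtain ⟨v88, h88, h⟩ := h
  change v88 = v1 * v87 at h88
  obtain ⟨v89, h89, h⟩ := h
  change v89 = (P.M I).im at h89
  obtain ⟨v90, h90, h⟩ := h
  change v90 = v88 + v89 at h90
  obtain ⟨M, e_M_d⟩ : ∃ q : ℂ, q = P.M X := ⟨_, rfl⟩
  have e_M_re : v86 = M.re := by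
    rw [e_M_d]
    simp only [M_re P X, M_im P X, h86, h85, h84, h83, e_X_re, e_X_im, mul_re, mul_im, add_re, add_im, sub_re, sub_im, neg_re, neg_im, I_re, I_im, ofReal_re,
      ofReal_im, one_re, one_im, zero_re, zero_im, dt, normSq_apply, re_ofNat, im_ofNat, conj_re, conj_im]
    try ring
  have e_M_im : v90 = M.im := by
    rw [e_M_d]
    simp only [M_re P X, M_im P X, h90, h89, h88, h87, e_X_re, e_X_im, mul_re, mul_im, add_re, add_im, sub_re, sub_im, neg_re, neg_im, I_re, I_im, ofReal_re,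
      ofReal_im, one_re, one_im, zero_re, zero_im, dt, normSq_apply, re_ofNat, im_ofNat, conj_re, conj_im]
    try ring
  obtain ⟨iM, e_iM_d⟩ : ∃ q : ℂ, q = I * M := ⟨_, rfl⟩
  have e_iM_re : v90 = -iM.re := by
    rw [e_iM_d]
    simp only [e_M_im, mul_re, mul_im, add_re, add_im, sub_re, sub_im, neg_re, neg_im, I_re, I_im, ofReal_re,
      ofReal_im, one_re, one_im, zero_re, zero_im, dt, normSq_apply, re_ofNat, im_ofNat, conj_re, conj_im]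
    try ring
  have e_iM_im : v86 = iM.im := by
    rw [e_iM_d]
    simp only [e_M_re, mul_re, mul_im, add_re, add_im, sub_re, sub_im, neg_re, neg_im, I_re, I_im, ofReal_re,
      ofReal_im, one_re, one_im, zero_re, zero_im, dt, normSq_apply, re_ofNat, im_ofNat, conj_re, conj_im]
    try ring
  obtain ⟨v91, h91, h⟩ := h
  change v91 = v86 * v86 at h91
  obtain ⟨v92, h92, h⟩ := h
  change v92 = v90 * v90 at h92
  obtain ⟨v93, h93, h⟩ := h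
  change v93 = v91 + v92 at h93
  obtain ⟨nM, e_nM_d⟩ : ∃ q : ℝ, q = normSq M := ⟨_, rfl⟩
  have e_nM_v : v93 = nM := by
    rw [e_nM_d]
    simp only [h93, h92, h91, e_M_im, e_M_re, mul_re, mul_im, add_re, add_im, sub_re, sub_im, neg_re, neg_im, I_re, I_im, ofReal_re,
      ofReal_im, one_re, one_im, zero_re, zero_im, dt, normSq_apply, re_ofNat, im_ofNat, conj_re, conj_im]
    try ring
  obtain ⟨v94, h94, h⟩ := h
  change v94 = P.cs.a30 at h94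
  obtain ⟨v95, h95, h⟩ := h
  change v95 = v1 * v94 at h95
  obtain ⟨v96, h96, h⟩ := h
  change v96 = P.cs.a21 at h96
  obtain ⟨v97, h97, h⟩ := h
  change v97 = v95 + v96 at h97
  obtain ⟨v98, h98, h⟩ := h
  change v98 = v7 * v97 at h98
  obtain ⟨v99, h99, h⟩ := h
  change v99 = P.cs.a12 at h99
  obtain ⟨v100, h100, h⟩ := h
  change v100 = v1 * v99 at h100
  obtain ⟨v101, h101, h⟩ := h
  change v101 = P.cs.a03 at h101
  obtain ⟨v102, h102, h⟩ := h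
  change v102 = v100 + v101 at h102
  obtain ⟨v103, h103, h⟩ := h
  change v103 = v98 + v102 at h103
  obtain ⟨v104, h104, h⟩ := h
  change v104 = P.cs.a20 at h104
  obtain ⟨v105, h105, h⟩ := h
  change v105 = v7 * v104 at h105
  obtain ⟨v106, h106, h⟩ := h
  change v106 = P.cs.a11 at h106
  obtain ⟨v107, h107, h⟩ := h
  change v107 = v1 * v106 at h107
  obtain ⟨v108, h108, h⟩ := h
  change v108 = v105 + v107 at h108
  obtain ⟨v109, h109, h⟩ := h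
  change v109 = P.cs.a02 at h109
  obtain ⟨v110, h110, h⟩ := h
  change v110 = v108 + v109 at h110
  obtain ⟨v111, h111, h⟩ := h
  change v111 = v0 * v103 at h111
  obtain ⟨v112, h112, h⟩ := h
  change v112 = v110 + v111 at h112
  obtain ⟨As, e_As_d⟩ : ∃ q : ℝ, q = VAr P.cs r X := ⟨_, rfl⟩
  have e_As_v : v112 = As := by
    rw [e_As_d]
    simp only [VAr_eq, h112, h111, h110, h109, h108, h107, h106, h105, h104, h103, h102, h101, h100, h99, h98, h97, h96, h95, h94, h7, h0, e_X_re, e_X_im, mul_re, mul_im, add_re, add_im, sub_re, sub_im, neg_re, neg_im, I_re, I_im, ofReal_re,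
      ofReal_im, one_re, one_im, zero_re, zero_im, dt, normSq_apply, re_ofNat, im_ofNat, conj_re, conj_im]
    try ring
  obtain ⟨v113, h113, h⟩ := h
  change v113 = 2 * P.c.a20 at h113
  obtain ⟨v114, h114, h⟩ := h
  change v114 = v1 * v113 at h114
  obtain ⟨v115, h115, h⟩ := h
  change v115 = P.c.a11 at h115
  obtain ⟨v116, h116, h⟩ := h
  change v116 = v114 + v115 at h116
  obtain ⟨v117, h117, h⟩ := h
  change v117 = 3 * P.c.a30 at h117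
  obtain ⟨v118, h118, h⟩ := h
  change v118 = v7 * v117 at h118
  obtain ⟨v119, h119, h⟩ := h
  change v119 = 2 * P.c.a21 at h119
  obtain ⟨v120, h120, h⟩ := h
  change v120 = v1 * v119 at h120
  obtain ⟨v121, h121, h⟩ := h
  change v121 = v118 + v120 at h121
  obtain ⟨v122, h122, h⟩ := h
  change v122 = P.c.a12 at h122
  obtain ⟨v123, h123, h⟩ := h
  change v123 = v121 + v122 at h123
  obtain ⟨v124, h124, h⟩ := h
  change v124 = v0 * v123 at h124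
  obtain ⟨v125, h125, h⟩ := h
  change v125 = v116 + v124 at h125
  obtain ⟨v126, h126, h⟩ := h
  change v126 = v1 * v115 at h126
  obtain ⟨v127, h127, h⟩ := h
  change v127 = 2 * P.c.a02 at h127
  exact pE0b_val_s3
    P l r s v0 h0 v1 X e_X_d e_X_re e_X_im v2 v3 v4 h4 v5 v6 d e_d_d e_d_v v7 h7 v8 v9 v10 v11
    v12 v13 yx e_yx_d v14 v15 v16 v17 v18 v19 v20 v21 v22 v23 v24 v25 v26 v27 v28 v29 S e_S_d v30
    v31 v32 v33 v34 v35 v36 v37 v38 v39 v40 T e_T_d e_T_re e_T_im v41 h41 v42 h42 v43 v44 e e_e_d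
    e_e_v v45 v46 v47 f e_f_d e_f_v v48 v49 v50 v51 v52 v53 v54 v55 v56 v57 v58 v59 v60 v61 v62
    h62 v63 h63 v64 v65 v66 v67 v68 U e_U_d e_U_re e_U_im v69 v70 y e_y_d e_y_re e_y_im v71 v72
    v73 k e_k_d e_k_v v74 v75 v76 v77 v78 v79 v80 v81 v82 fv e_fv_d e_fv_re e_fv_im v83 v84 v85
    v86 v87 v88 v89 v90 M e_M_d iM e_iM_d e_iM_re e_iM_im v91 v92 v93 nM e_nM_d e_nM_v v94 v95
    v96 v97 v98 v99 v100 v101 v102 v103 v104 v105 v106 v107 v108 v109 v110 v111 v112 As e_As_d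
    e_As_v v113 h113 v114 h114 v115 h115 v116 h116 v117 h117 v118 h118 v119 h119 v120 h120 v121
    h121 v122 h122 v123 h123 v124 h124 v125 h125 v126 h126 v127 h127 h

theorem pE0b_val (P : Pt) (l : List ℝ) (r s : ℝ) :
    OutEq (run (realAlg (fun i => get 0 (P.syl l) i) (r) (s)) pE0b []) pE0b_out
      [P.E12 r ⟨s, 1⟩ (P.T0 r ⟨s, 1⟩ (1 - 2 * P.ys.re - 2 * (r * (⟨s, 1⟩ : ℂ).re))) (P.U0 r ⟨s, 1⟩ (P.T0 r ⟨s, 1⟩ (1 - 2 * P.ys.re - 2 * (r * (⟨s, 1⟩ : ℂ).re))) (1 - 2 * P.ys.re - 2 * (r * (⟨s, 1⟩ : ℂ).re))) (1 - 2 * P.ys.re - 2 * (r * (⟨s, 1⟩ : ℂ).re)), (P.G6 r ⟨s, 1⟩ (P.T0 r ⟨s, 1⟩ (1 - 2 * P.ys.re - 2 * (r * (⟨s, 1⟩ : ℂ).re))) (P.U0 r ⟨s, 1⟩ (P.T0 r ⟨s, 1⟩ (1 - 2 * P.ys.re - 2 * (r * (⟨s, 1⟩ : ℂ).re))) (1 - 2 * P.ys.re - 2 * (r * (⟨s, 1⟩ : ℂ).re))) (1 - 2 * P.ys.re - 2 * (r * (⟨s, 1⟩ : ℂ).re))).re, (P.G6 r ⟨s, 1⟩ (P.T0 r ⟨s, 1⟩ (1 - 2 * P.ys.re - 2 * (r * (⟨s, 1⟩ : ℂ).re)))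 (P.U0 r ⟨s, 1⟩ (P.T0 r ⟨s, 1⟩ (1 - 2 * P.ys.re - 2 * (r * (⟨s, 1⟩ : ℂ).re))) (1 - 2 * P.ys.re - 2 * (r * (⟨s, 1⟩ : ℂ).re))) (1 - 2 * P.ys.re - 2 * (r * (⟨s, 1⟩ : ℂ).re))).im, P.fr r ⟨s, 1⟩] := by
  have h : TrE (realAlg (fun i => get 0 (P.syl l) i) (r) (s))
    [.x, .y, .base 2, .mul 2 1, .cst 2 0, .mul 1 0, .sub 3 0, .mul 5 5, .cst 1 0, .add 1 0,
    .base 0, .base 1, .mul 10 1, .add 1 0, .base 3, .mul 13 0, .add 4 0, .mul 0 0, .cst 4 0,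
    .mul 1 0, .base 4, .mul 11 0, .mul 17 0, .sub 3 0, .mul 10 5, .mul 24 15, .add 1 0,
    .mul 17 0, .mul 27 0, .add 5 0, .mul 25 0, .mul 26 17, .add 6 0, .mul 31 0, .mul 24 23,
    .mul 25 23, .add 2 1, .add 4 1, .mul 31 0, .mul 32 2, .add 9 0, .base 5, .base 6, .mul 41 1,
    .add 1 0, .base 15, .mul 45 1, .add 1 0, .base 7, .mul 47 0, .base 8, .add 1 0, .base 9,
    .mul 51 0, .base 10, .add 1 0, .mul 49 4, .mul 50 1, .mul 57 19, .mul 58 18, .sub 3 1,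
    .add 3 1, .base 11, .base 12, .mul 57 19, .mul 2 0, .mul 2 1, .sub 6 1, .sub 6 1, .add 65 58,
    .add 69 58, .mul 29 1, .mul 29 1, .add 1 0, .base 16, .mul 5 0, .base 17, .mul 6 0, .add 2 0,
    .mul 9 2, .base 18, .mul 10 0, .add 2 0, .base 19, .mul 82 0, .base 20, .add 1 0, .base 21,
    .mul 86 0, .base 22, .add 1 0, .mul 4 4, .mul 1 1, .add 1 0, .base 45, .mul 93 0, .base 46,
    .add 1 0, .mul 90 0, .base 47, .mul 98 0, .base 48, .add 1 0, .add 4 0, .base 42, .mul 97 0,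
    .base 43, .mul 105 0, .add 2 0, .base 44, .add 1 0, .mul 110 7, .add 1 0, .base 33,
    .mul 112 0, .base 34, .add 1 0, .base 36, .mul 110 0, .base 37, .mul 118 0, .add 2 0,
    .base 38, .add 1 0, .mul 123 0, .add 8 0, .mul 124 10, .base 35, .add 1 0, .base 39,
    .mul 122 0, .base 40, .mul 130 0, .add 2 0, .base 41, .add 1 0, .mul 135 0, .add 8 0,
    .base 49, .mul 137 0, .base 50, .add 1 0, .base 53, .mul 135 0, .base 54, .mul 143 0,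
    .add 2 0, .base 55, .add 1 0, .mul 148 0, .add 8 0, .base 51, .mul 150 0, .base 52, .add 1 0,
    .base 56, .mul 148 0, .base 57, .mul 156 0, .add 2 0, .base 58, .add 1 0, .mul 161 0,
    .add 8 0, .base 59, .mul 163 0, .base 60, .add 1 0, .base 63, .mul 161 0, .base 64,
    .mul 169 0, .add 2 0, .base 65, .add 1 0, .mul 174 0, .add 8 0, .base 61, .mul 176 0,
    .base 62, .add 1 0, .base 66, .mul 174 0, .base 67, .mul 182 0, .add 2 0, .base 68, .add 1 0,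
    .mul 187 0, .add 8 0, .mul 188 122, .mul 186 0, .mul 190 123, .add 125 0, .mul 189 125,
    .mul 127 56, .mul 127 55, .add 1 0, .mul 55 6, .mul 54 5, .add 1 0, .mul 53 6, .add 1 0,
    .mul 202 0, .add 6 0, .mul 137 53, .mul 137 52, .add 1 0, .mul 52 16, .mul 51 15, .add 1 0,
    .mul 50 16, .add 1 0, .mul 212 0, .add 6 0, .base 31, .base 32, .mul 215 1, .add 1 0,
    .base 29, .base 30, .mul 182 1, .mul 181 1, .sub 0 1, .mul 179 5, .mul 177 112, .add 1 0,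
    .mul 220 0, .add 4 0, .mul 161 103, .mul 161 92, .add 1 0, .add 3 0, .mul 142 82,
    .mul 147 70, .sub 0 1, .mul 229 0, .sub 0 4, .base 23, .mul 237 0, .base 24, .add 1 0,
    .base 25, .mul 241 0, .base 26, .add 1 0, .mul 183 120, .mul 183 109, .add 1 0, .base 27,
    .base 28, .mul 180 100, .mul 182 88, .sub 1 0, .mul 212 0, .mul 212 1, .mul 105 6, .mul 93 6,
    .add 1 0, .mul 180 0, .mul 177 1, .add 6 1, .add 6 1, .mul 189 99, .mul 190 113, .add 3 1,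
    .sub 3 1, .mul 266 154, .add 49 0, .sub 0 20, .mul 191 0, .mul 188 1, .sub 30 1, .sub 27 1,
    .mul 269 110, .mul 270 124, .sub 99 1, .add 87 1, .mul 230 1, .mul 231 1, .sub 7 1, .sub 7 1,
    .sub 1 16, .sub 1 16, .mul 236 46, .cst 6 0, .mul 1 0, .mul 280 193, .mul 283 1, .sub 0 1,
    .mul 242 242, .mul 220 200, .mul 222 205, .add 1 0, .mul 252 0, .mul 252 1, .mul 205 46,
    .mul 210 46, .sub 0 1, .mul 220 0, .mul 217 1, .sub 1 6, .sub 1 6, .mul 229 216,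
    .mul 230 213, .add 3 1, .add 3 1, .mul 300 259, .mul 2 0, .mul 2 1, .sub 22 23, .mul 310 0,
    .mul 233 0, .mul 230 1, .add 5 1, .add 5 1, .mul 309 33, .mul 310 33, .sub 1 113, .sub 1 104,
    .mul 34 29, .mul 2 0, .mul 2 1, .add 8 1, .add 8 1] []
    (pE0b_valQ P l r s) := trE_runst _ pE0b
  obtain ⟨v0, h0, h⟩ := h
  change v0 = r at h0
  obtain ⟨v1, h1, h⟩ := h
  change v1 = s at h1
  obtain ⟨X, e_X_d⟩ : ∃ q : ℂ, q = (⟨s, 1⟩ : ℂ) := ⟨_, rfl⟩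
  have e_X_re : v1 = X.re := by
    rw [e_X_d]
    simp only [h1, mul_re, mul_im, add_re, add_im, sub_re, sub_im, neg_re, neg_im, I_re, I_im, ofReal_re,
      ofReal_im, one_re, one_im, zero_re, zero_im, dt, normSq_apply, re_ofNat, im_ofNat, conj_re, conj_im]
    try ring
  have e_X_im : X.im = (1 : ℝ) := by
    first | (rw [e_X_d]; done) | (rw [e_X_d]; simp only [mul_re, mul_im, add_re, add_im, sub_re, sub_im, neg_re, neg_im, I_re, I_im, ofReal_re,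
      ofReal_im, one_re, one_im, zero_re, zero_im, dt, normSq_apply, re_ofNat, im_ofNat, conj_re, conj_im]; try ring)
  obtain ⟨v2, h2, h⟩ := h
  change v2 = 1 - 2 * P.ys.re at h2
  obtain ⟨v3, h3, h⟩ := h
  change v3 = v0 * v1 at h3
  obtain ⟨v4, h4, h⟩ := h
  replace h4 : v4 = (2 : ℝ) := by rw [h4]; norm_num [step, realAlg]
  obtain ⟨v5, h5, h⟩ := h
  change v5 = v3 * v4 at h5
  obtain ⟨v6, h6, h⟩ := h
  change v6 = v2 - v5 at h6
  obtain ⟨d, e_d_d⟩ : ∃ q : ℝ, q = 1 - 2 * P.ys.re - 2 * (r * X.re) := ⟨_, rfl⟩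
  have e_d_v : v6 = d := by
    rw [e_d_d]
    simp only [h6, h5, h4, h3, h2, h0, e_X_re, e_X_im, mul_re, mul_im, add_re, add_im, sub_re, sub_im, neg_re, neg_im, I_re, I_im, ofReal_re,
      ofReal_im, one_re, one_im, zero_re, zero_im, dt, normSq_apply, re_ofNat, im_ofNat, conj_re, conj_im]
    try ring
  obtain ⟨v7, h7, h⟩ := h
  change v7 = v1 * v1 at h7
  obtain ⟨v8, h8, h⟩ := h
  replace h8 : v8 = (1 : ℝ) := by rw [h8]; norm_num [step, realAlg]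
  obtain ⟨v9, h9, h⟩ := h
  change v9 = v7 + v8 at h9
  obtain ⟨v10, h10, h⟩ := h
  change v10 = P.ys.re at h10
  obtain ⟨v11, h11, h⟩ := h
  change v11 = P.ys.im at h11
  obtain ⟨v12, h12, h⟩ := h
  change v12 = v1 * v10 at h12
  obtain ⟨v13, h13, h⟩ := h
  change v13 = v11 + v12 at h13
  obtain ⟨yx, e_yx_d⟩ : ∃ q : ℝ, q = dt P.ys X := ⟨_, rfl⟩
  have e_yx_v : v13 = yx := by
    rw [e_yx_d]
    simp only [h13, h12, h11, h10, e_X_re, e_X_im, mul_re, mul_im, add_re, add_im, sub_re, sub_im, neg_re, neg_im, I_re, I_im, ofReal_re,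
      ofReal_im, one_re, one_im, zero_re, zero_im, dt, normSq_apply, re_ofNat, im_ofNat, conj_re, conj_im]
    try ring
  obtain ⟨v14, h14, h⟩ := h
  change v14 = P.ys.re - (1 - normSq P.ys) / (1 - 2 * P.ys.re) at h14
  obtain ⟨v15, h15, h⟩ := h
  change v15 = v1 * v14 at h15
  obtain ⟨v16, h16, h⟩ := h
  change v16 = v11 + v15 at h16
  obtain ⟨v17, h17, h⟩ := h
  change v17 = v16 * v16 at h17
  obtain ⟨v18, h18, h⟩ := h
  replace h18 : v18 = (4 : ℝ) := by rw [h18]; norm_num [step, realAlg]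
  obtain ⟨v19, h19, h⟩ := h
  change v19 = v17 * v18 at h19
  obtain ⟨v20, h20, h⟩ := h
  change v20 = 1 - normSq P.ys at h20
  obtain ⟨v21, h21, h⟩ := h
  change v21 = v9 * v20 at h21
  obtain ⟨v22, h22, h⟩ := h
  change v22 = v4 * v21 at h22
  obtain ⟨v23, h23, h⟩ := h
  change v23 = v19 - v22 at h23
  obtain ⟨v24, h24, h⟩ := h
  change v24 = v13 * v18 at h24
  obtain ⟨v25, h25, h⟩ := h
  change v25 = v0 * v9 at h25
  obtain ⟨v26, h26, h⟩ := h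
  change v26 = v24 + v25 at h26
  obtain ⟨v27, h27, h⟩ := h
  change v27 = v9 * v26 at h27
  obtain ⟨v28, h28, h⟩ := h
  change v28 = v0 * v27 at h28
  obtain ⟨v29, h29, h⟩ := h
  change v29 = v23 + v28 at h29
  obtain ⟨S, e_S_d⟩ : ∃ q : ℝ, q = 4 * ((P.ys.re - (1 - normSq P.ys) / (1 - 2 * P.ys.re)) * X.re + P.ys.im * X.im) ^ 2 - 2 * (1 - normSq P.ys) * normSq X + (4 * yx + normSq X * r) * normSq X * r := ⟨_, rfl⟩
  have e_S_v : v29 = S := by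
    rw [e_S_d]
    simp only [h29, h28, h27, h26, h25, h24, h23, h22, h21, h20, h19, h18, h17, h16, h15, h14, h11, h9, h8, h7, h4, h0, e_X_re, e_yx_v, e_X_im, mul_re, mul_im, add_re, add_im, sub_re, sub_im, neg_re, neg_im, I_re, I_im, ofReal_re,
      ofReal_im, one_re, one_im, zero_re, zero_im, dt, normSq_apply, re_ofNat, im_ofNat, conj_re, conj_im]
    try ring
  obtain ⟨v30, h30, h⟩ := h
  change v30 = v4 * v29 at h30
  obtain ⟨v31, h31, h⟩ := h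
  change v31 = v4 * v13 at h31
  obtain ⟨v32, h32, h⟩ := h
  change v32 = v25 + v31 at h32
  obtain ⟨v33, h33, h⟩ := h
  change v33 = v1 * v32 at h33
  obtain ⟨v34, h34, h⟩ := h
  change v34 = v9 * v10 at h34
  obtain ⟨v35, h35, h⟩ := h
  change v35 = v9 * v11 at h35
  obtain ⟨v36, h36, h⟩ := h
  change v36 = v33 + v34 at h36
  obtain ⟨v37, h37, h⟩ := h
  change v37 = v32 + v35 at h37
  obtain ⟨v38, h38, h⟩ := h
  change v38 = v6 * v37 at h38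
  obtain ⟨v39, h39, h⟩ := h
  change v39 = v6 * v36 at h39
  obtain ⟨v40, h40, h⟩ := h
  change v40 = v30 + v39 at h40
  obtain ⟨T, e_T_d⟩ : ∃ q : ℂ, q = I * ((2 * S : ℝ) : ℂ) + I * (X * ((2 * yx + normSq X * r : ℝ) : ℂ) + P.ys * (normSq X : ℂ)) * (d : ℂ) := ⟨_, rfl⟩
  have e_T_re : v38 = -T.re := by
    rw [e_T_d]
    simp only [h38, h37, h35, h32, h31, h25, h11, h9, h8, h7, h4, h0, e_X_re, e_yx_v, e_d_v, e_X_im, mul_re, mul_im, add_re, add_im, sub_re, sub_im, neg_re, neg_im, I_re, I_im, ofReal_re,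
      ofReal_im, one_re, one_im, zero_re, zero_im, dt, normSq_apply, re_ofNat, im_ofNat, conj_re, conj_im]
    try ring
  have e_T_im : v40 = T.im := by
    rw [e_T_d]
    simp only [h40, h39, h36, h34, h33, h32, h31, h30, h25, h10, h9, h8, h7, h4, h0, e_X_re, e_yx_v, e_d_v, e_S_v, e_X_im, mul_re, mul_im, add_re, add_im, sub_re, sub_im, neg_re, neg_im, I_re, I_im, ofReal_re,
      ofReal_im, one_re, one_im, zero_re, zero_im, dt, normSq_apply, re_ofNat, im_ofNat, conj_re, conj_im]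
    try ring
  obtain ⟨v41, h41, h⟩ := h
  change v41 = P.ns.re at h41
  obtain ⟨v42, h42, h⟩ := h
  change v42 = P.ns.im at h42
  obtain ⟨v43, h43, h⟩ := h
  change v43 = v1 * v41 at h43
  obtain ⟨v44, h44, h⟩ := h
  change v44 = v42 + v43 at h44
  obtain ⟨e, e_e_d⟩ : ∃ q : ℝ, q = dt P.ns X := ⟨_, rfl⟩
  have e_e_v : v44 = e := by
    rw [e_e_d]
    simp only [h44, h43, h42, h41, e_X_re, e_X_im, mul_re, mul_im, add_re, add_im, sub_re, sub_im, neg_re, neg_im, I_re, I_im, ofReal_re,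
      ofReal_im, one_re, one_im, zero_re, zero_im, dt, normSq_apply, re_ofNat, im_ofNat, conj_re, conj_im]
    try ring
  obtain ⟨v45, h45, h⟩ := h
  change v45 = P.fs at h45
  obtain ⟨v46, h46, h⟩ := h
  change v46 = v0 * v44 at h46
  obtain ⟨v47, h47, h⟩ := h
  change v47 = v45 + v46 at h47
  obtain ⟨f, e_f_d⟩ : ∃ q : ℝ, q = P.fs + e * r := ⟨_, rfl⟩
  have e_f_v : v47 = f := by
    rw [e_f_d]
    simp only [h47, h46, h45, h0, e_e_v, mul_re, mul_im, add_re, add_im, sub_re, sub_im, neg_re, neg_im, I_re, I_im, ofReal_re,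
      ofReal_im, one_re, one_im, zero_re, zero_im, dt, normSq_apply, re_ofNat, im_ofNat, conj_re, conj_im]
    try ring
  obtain ⟨v48, h48, h⟩ := h
  change v48 = (P.DV 1).re at h48
  obtain ⟨v49, h49, h⟩ := h
  change v49 = v1 * v48 at h49
  obtain ⟨v50, h50, h⟩ := h
  change v50 = (P.DV I).re at h50
  obtain ⟨v51, h51, h⟩ := h
  change v51 = v49 + v50 at h51
  obtain ⟨v52, h52, h⟩ := h
  change v52 = (P.DV 1).im at h52
  obtain ⟨v53, h53, h⟩ := h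
  change v53 = v1 * v52 at h53
  obtain ⟨v54, h54, h⟩ := h
  change v54 = (P.DV I).im at h54
  obtain ⟨v55, h55, h⟩ := h
  change v55 = v53 + v54 at h55
  obtain ⟨v56, h56, h⟩ := h
  change v56 = v6 * v51 at h56
  obtain ⟨v57, h57, h⟩ := h
  change v57 = v6 * v55 at h57
  obtain ⟨v58, h58, h⟩ := h
  change v58 = v0 * v38 at h58
  obtain ⟨v59, h59, h⟩ := h
  change v59 = v0 * v40 at h59
  obtain ⟨v60, h60, h⟩ := h
  change v60 = v56 - v58 at h60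
  obtain ⟨v61, h61, h⟩ := h
  change v61 = v57 + v59 at h61
  obtain ⟨v62, h62, h⟩ := h
  change v62 = (P.V0 / (P.fs : ℂ)).re at h62
  obtain ⟨v63, h63, h⟩ := h
  change v63 = (P.V0 / (P.fs : ℂ)).im at h63
  obtain ⟨v64, h64, h⟩ := h
  change v64 = v6 * v44 at h64
  exact pE0b_val_s2
    P l r s v0 h0 v1 X e_X_d e_X_re e_X_im v2 v3 h3 v4 h4 v5 v6 d e_d_d e_d_v v7 h7 v8 v9 v10 h10
    v11 h11 v12 v13 yx e_yx_d v14 v15 v16 v17 v18 v19 v20 v21 v22 v23 v24 v25 v26 v27 v28 v29 S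
    e_S_d v30 v31 v32 v33 v34 v35 v36 v37 v38 v39 v40 T e_T_d e_T_re e_T_im v41 h41 v42 h42 v43
    v44 e e_e_d e_e_v v45 v46 v47 f e_f_d e_f_v v48 h48 v49 h49 v50 h50 v51 h51 v52 h52 v53 h53
    v54 h54 v55 h55 v56 h56 v57 h57 v58 h58 v59 h59 v60 h60 v61 h61 v62 h62 v63 h63 v64 h64 h

end Pool.H61.Rh
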