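import Pool.Agent.H61.Rz.Rr
import Pool.Agent.H61.Rz.L2

/-! # generated: program `pE2` (main inequality j = 2, plain coordinates) -/

set_option autoImplicit false
set_option maxRecDepth 100000
set_option linter.unusedVariables false

namespace Pool.H61.Rh

open Complex Pool.H47.Kc

/-- program -/
def pE2 : List Op := [.x, .y, .base 0, .base 1, .add 3 1, .add 3 1, .base 78, .cst 1 1,
  .mul 1 0, .mul 4 4, .mul 4 4, .add 1 0, .cst 1 0, .sub 0 1, .mul 9 6, .mul 9 6,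
  .add 1 0, .cst 2 0, .mul 1 0, .add 0 6, .mul 6 2, .mul 13 0, .mul 13 1, .mul 18 3,
  .mul 18 4, .add 3 1, .add 3 1, .mul 13 1, .mul 14 1, .base 5, .base 6, .mul 30 1,
  .mul 30 1, .add 1 0, .base 15, .add 1 0, .base 13, .base 14, .base 7, .mul 38 0,
  .base 8, .mul 39 0, .add 2 0, .base 9, .mul 43 0, .base 10, .mul 44 0, .add 2 0,
  .add 11 5, .add 11 1, .mul 30 1, .mul 31 1, .sub 23 1, .add 25 1, .base 11, .base 12,
  .mul 36 20, .mul 2 0, .mul 2 1, .sub 30 1, .add 32 1, .mul 60 60, .mul 61 60, .mul 61 61,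
  .mul 59 34, .mul 59 34, .add 1 0, .base 16, .mul 63 0, .base 17, .mul 64 0, .add 2 0,
  .mul 67 2, .base 18, .mul 68 0, .add 2 0, .base 19, .mul 76 0, .base 20, .mul 77 0,
  .add 2 0, .base 21, .mul 81 0, .base 22, .mul 82 0, .add 2 0, .mul 5 5, .mul 1 1,
  .add 1 0, .base 45, .mul 89 0, .base 46, .mul 90 0, .add 2 0, .mul 32 0, .base 47,
  .mul 95 0, .base 48, .mul 96 0, .add 2 0, .mul 36 0, .add 6 0, .base 42, .mul 41 0,
  .base 43, .mul 42 0, .add 2 0, .base 44, .mul 44 0, .add 2 0, .add 8 0, .base 33,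
  .mul 111 0, .base 34, .mul 112 0, .add 2 0, .base 36, .mul 55 0, .base 37, .mul 56 0,
  .add 2 0, .base 38, .mul 58 0, .add 2 0, .add 8 0, .mul 124 11, .base 35, .mul 125 0,
  .add 2 0, .base 39, .mul 68 0, .base 40, .mul 69 0, .add 2 0, .base 41, .mul 71 0,
  .add 2 0, .add 8 0, .base 49, .mul 138 0, .base 50, .mul 139 0, .add 2 0, .base 53,
  .mul 82 0, .base 54, .mul 83 0, .add 2 0, .base 55, .mul 85 0, .add 2 0, .add 8 0,
  .base 51, .mul 152 0, .base 52, .mul 153 0, .add 2 0, .base 56, .mul 96 0, .base 57,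
  .mul 97 0, .add 2 0, .base 58, .mul 99 0, .add 2 0, .add 8 0, .base 59, .mul 166 0,
  .base 60, .mul 167 0, .add 2 0, .base 63, .mul 110 0, .base 64, .mul 111 0, .add 2 0,
  .base 65, .mul 113 0, .add 2 0, .add 8 0, .base 61, .mul 180 0, .base 62, .mul 181 0,
  .add 2 0, .base 66, .mul 124 0, .base 67, .mul 125 0, .add 2 0, .base 68, .mul 127 0,
  .add 2 0, .add 8 0, .mul 193 134, .mul 177 0, .mul 195 135, .mul 195 137, .sub 0 1, .mul 197 138,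
  .mul 182 0, .mul 141 62, .mul 141 61, .sub 1 0, .mul 60 8, .mul 59 6, .add 1 0, .mul 58 6,
  .sub 1 0, .add 5 0, .mul 150 57, .mul 150 56, .sub 1 0, .mul 55 17, .mul 54 15, .add 1 0,
  .mul 53 15, .sub 1 0, .add 5 0, .base 31, .base 32, .mul 220 1, .mul 220 1, .add 1 0,
  .base 29, .base 30, .mul 173 1, .mul 173 1, .sub 1 0, .mul 195 5, .mul 194 119, .add 1 0,
  .mul 212 0, .add 4 0, .mul 174 109, .mul 174 97, .sub 1 0, .add 3 0, .mul 152 86, .mul 158 73,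
  .sub 0 1, .mul 221 0, .sub 0 4, .base 23, .mul 243 0, .base 24, .mul 244 0, .add 2 0,
  .base 25, .mul 248 0, .base 26, .mul 249 0, .add 2 0, .mul 198 128, .mul 198 116, .add 1 0,
  .base 27, .base 28, .mul 252 106, .mul 254 93, .sub 1 0, .mul 231 0, .mul 231 1, .mul 111 6,
  .mul 98 6, .add 1 0, .mul 194 0, .mul 191 1, .add 6 1, .add 6 1, .mul 203 104, .mul 204 119,
  .add 3 1, .sub 3 1, .add 163 50, .sub 0 19, .mul 204 0, .mul 201 1, .sub 30 1, .sub 26 1,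
  .mul 262 114, .mul 263 129, .sub 102 1, .add 89 1, .mul 248 1, .mul 249 1, .sub 7 1, .sub 7 1,
  .sub 1 15, .sub 1 15, .mul 254 47, .cst 6 0, .mul 1 0, .mul 273 204, .mul 276 1, .sub 0 1,
  .mul 260 260, .mul 291 211, .mul 293 217, .add 1 0, .mul 270 0, .mul 270 1, .mul 216 45, .mul 222 45,
  .sub 0 1, .mul 233 0, .mul 230 1, .sub 1 6, .sub 1 6, .mul 242 228, .mul 243 224, .add 3 1,
  .add 3 1, .mul 256 1, .mul 257 1, .sub 21 22, .mul 244 0, .mul 241 1, .add 4 1, .add 4 1,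
  .mul 300 31, .mul 301 31, .sub 1 112, .sub 1 104, .mul 32 27, .mul 2 0, .mul 2 1, .add 8 1,
  .add 8 1]

/-- positions of the outputs -/
def pE2_out : List ℕ := [33, 1, 0, 293]

/-- the final condition of the trace -/
def pE2_valQ (P : Pt) (l : List ℝ) (r s : ℝ) (st : List ℝ) : Prop := run (realAlg (fun i => get 0 (P.syl l) i) (r) (s)) pE2 [] = st

theorem pE2_val_s5 (P : Pt) (l : List ℝ) (r s : ℝ)
    (v0 : ℝ) (v1 : ℝ) (X : ℂ) (e_X_d : X = (⟨r, s⟩ : ℂ)) (v2 : ℝ) (v3 : ℝ) (v4 : ℝ) (v5 : ℝ)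
    (y0 : ℂ) (e_y0_d : y0 = P.ys + X) (v6 : ℝ) (v7 : ℝ) (v8 : ℝ) (v9 : ℝ) (v10 : ℝ) (v11 : ℝ)
    (v12 : ℝ) (v13 : ℝ) (w : ℝ) (e_w_d : w = 1 - normSq y0) (v14 : ℝ) (v15 : ℝ) (v16 : ℝ)
    (v17 : ℝ) (h17 : v17 = (2 : ℝ)) (v18 : ℝ) (v19 : ℝ) (d : ℝ)
    (e_d_d : d = 1 - 2 * dt (uu 2) y0) (e_d_v : v19 = d) (v20 : ℝ) (v21 : ℝ) (v22 : ℝ) (v23 : ℝ)
    (v24 : ℝ) (v25 : ℝ) (v26 : ℝ) (v27 : ℝ) (v28 : ℝ) (ηL : ℂ)
    (e_ηL_d : ηL = I * (w : ℂ) * (((2 * w : ℝ) : ℂ) * uu 2 - (d : ℂ) * y0)) (v29 : ℝ)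
    (h29 : v29 = P.ns.re) (v30 : ℝ) (h30 : v30 = P.ns.im) (v31 : ℝ) (v32 : ℝ) (v33 : ℝ) (e : ℝ)
    (e_e_d : e = dt P.ns X) (v34 : ℝ) (v35 : ℝ) (f : ℝ) (e_f_d : f = P.fs + e * 1)
    (e_f_v : v35 = f) (v36 : ℝ) (v37 : ℝ) (v38 : ℝ) (v39 : ℝ) (v40 : ℝ) (v41 : ℝ) (v42 : ℝ)
    (v43 : ℝ) (v44 : ℝ) (v45 : ℝ) (v46 : ℝ) (v47 : ℝ) (v48 : ℝ) (v49 : ℝ) (v50 : ℝ) (v51 : ℝ)
    (v52 : ℝ) (v53 : ℝ) (T : ℂ) (e_T_d : T = ηL - (P.V0 + P.DV X) * (d : ℂ)) (v54 : ℝ) (v55 : ℝ)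
    (v56 : ℝ) (h56 : v56 = v19 * v35) (v57 : ℝ) (v58 : ℝ) (v59 : ℝ) (v60 : ℝ) (U : ℂ)
    (e_U_d : U = ηL - P.V0 / (P.fs : ℂ) * ((d * (P.fs + e) : ℝ) : ℂ)) (y : ℂ)
    (e_y_d : y = P.ys + X * ((1 : ℝ) : ℂ)) (e_y_re : v4 = y.re) (e_y_im : v5 = y.im) (v61 : ℝ)
    (v62 : ℝ) (v63 : ℝ) (v64 : ℝ) (v65 : ℝ) (v66 : ℝ) (k : ℝ) (e_k_d : k = dt y P.ns)
    (e_k_v : v66 = k) (v67 : ℝ) (v68 : ℝ) (v69 : ℝ) (v70 : ℝ) (v71 : ℝ) (v72 : ℝ) (v73 : ℝ)
    (v74 : ℝ) (v75 : ℝ) (fv : ℂ) (e_fv_d : fv = P.fv y) (e_fv_re : v71 = fv.re)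
    (e_fv_im : v75 = fv.im) (v76 : ℝ) (v77 : ℝ) (v78 : ℝ) (v79 : ℝ) (v80 : ℝ) (v81 : ℝ) (v82 : ℝ)
    (v83 : ℝ) (v84 : ℝ) (v85 : ℝ) (M : ℂ) (e_M_d : M = P.M X) (iM : ℂ) (e_iM_d : iM = I * M)
    (e_iM_re : v85 = -iM.re) (e_iM_im : v80 = iM.im) (v86 : ℝ) (v87 : ℝ) (v88 : ℝ) (nM : ℝ)
    (e_nM_d : nM = normSq M) (e_nM_v : v88 = nM) (v89 : ℝ) (v90 : ℝ) (v91 : ℝ) (v92 : ℝ)
    (v93 : ℝ) (v94 : ℝ) (v95 : ℝ) (v96 : ℝ) (v97 : ℝ) (v98 : ℝ) (v99 : ℝ) (v100 : ℝ) (v101 : ℝ)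
    (v102 : ℝ) (v103 : ℝ) (v104 : ℝ) (v105 : ℝ) (v106 : ℝ) (v107 : ℝ) (v108 : ℝ) (v109 : ℝ)
    (v110 : ℝ) (As : ℝ) (e_As_d : As = VAr P.cs 1 X) (e_As_v : v110 = As) (v111 : ℝ) (v112 : ℝ)
    (v113 : ℝ) (v114 : ℝ) (v115 : ℝ) (v116 : ℝ) (v117 : ℝ) (v118 : ℝ) (v119 : ℝ) (v120 : ℝ)
    (v121 : ℝ) (v122 : ℝ) (v123 : ℝ) (v124 : ℝ) (v125 : ℝ) (v126 : ℝ) (v127 : ℝ) (v128 : ℝ)
    (v129 : ℝ) (v130 : ℝ) (v131 : ℝ) (v132 : ℝ) (v133 : ℝ) (v134 : ℝ) (v135 : ℝ) (v136 : ℝ)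
    (v137 : ℝ) (Ax : ℂ) (e_Ax_d : Ax = VAxr P.c 1 X) (v138 : ℝ) (v139 : ℝ) (v140 : ℝ) (v141 : ℝ)
    (v142 : ℝ) (v143 : ℝ) (v144 : ℝ) (v145 : ℝ) (v146 : ℝ) (v147 : ℝ) (v148 : ℝ) (v149 : ℝ)
    (v150 : ℝ) (v151 : ℝ) (v152 : ℝ) (v153 : ℝ) (v154 : ℝ) (v155 : ℝ) (v156 : ℝ) (v157 : ℝ)
    (v158 : ℝ) (v159 : ℝ) (v160 : ℝ) (v161 : ℝ) (v162 : ℝ) (v163 : ℝ) (v164 : ℝ) (v165 : ℝ)
    (B : ℂ) (e_B_d : B = VBr P.c 1 X) (e_B_re : v151 = B.re) (e_B_im : v165 = B.im) (v166 : ℝ)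
    (v167 : ℝ) (v168 : ℝ) (v169 : ℝ) (v170 : ℝ) (v171 : ℝ) (v172 : ℝ) (v173 : ℝ) (v174 : ℝ)
    (v175 : ℝ) (v176 : ℝ) (v177 : ℝ) (v178 : ℝ) (v179 : ℝ) (v180 : ℝ) (v181 : ℝ) (v182 : ℝ)
    (v183 : ℝ) (v184 : ℝ) (v185 : ℝ) (v186 : ℝ) (v187 : ℝ) (v188 : ℝ) (v189 : ℝ) (v190 : ℝ)
    (v191 : ℝ) (v192 : ℝ) (v193 : ℝ) (Bs : ℂ) (e_Bs_d : Bs = VBr P.cs 1 X)
    (e_Bs_re : v179 = Bs.re) (e_Bs_im : v193 = Bs.im) (v194 : ℝ) (v195 : ℝ) (v196 : ℝ) (v197 : ℝ)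
    (v198 : ℝ) (v199 : ℝ) (v200 : ℝ) (v201 : ℝ) (v202 : ℝ) (v203 : ℝ) (v204 : ℝ) (v205 : ℝ)
    (v206 : ℝ) (v207 : ℝ) (v208 : ℝ) (v209 : ℝ) (v210 : ℝ) (v211 : ℝ) (v212 : ℝ) (v213 : ℝ)
    (v214 : ℝ) (v215 : ℝ) (v216 : ℝ) (v217 : ℝ) (v218 : ℝ) (DB : ℂ)
    (e_DB_d : DB = VBd P.c (X * ((1 : ℝ) : ℂ)) U) (e_DB_re : v209 = DB.re)
    (e_DB_im : v218 = DB.im) (v219 : ℝ) (v220 : ℝ) (v221 : ℝ) (v222 : ℝ) (v223 : ℝ) (sax : ℝ)
    (e_sax_d : sax = dt P.sa X) (e_sax_v : v223 = sax) (v224 : ℝ) (v225 : ℝ) (v226 : ℝ)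
    (v227 : ℝ) (v228 : ℝ) (v229 : ℝ) (v230 : ℝ) (v231 : ℝ) (v232 : ℝ) (v233 : ℝ) (v234 : ℝ)
    (v235 : ℝ) (v236 : ℝ) (v237 : ℝ) (v238 : ℝ) (v239 : ℝ) (v240 : ℝ) (v241 : ℝ) (v242 : ℝ)
    (Xv : ℝ) (e_Xv_d : Xv = -dt P.a T - (e * sax + f * As) * d - dt Ax U + dt B iM * d)
    (e_Xv_v : v242 = Xv) (v243 : ℝ) (v244 : ℝ) (v245 : ℝ) (v246 : ℝ) (v247 : ℝ) (v248 : ℝ)
    (v249 : ℝ) (v250 : ℝ) (v251 : ℝ) (v252 : ℝ) (L : ℂ) (e_L_d : L = P.L X)
    (e_L_re : v247 = L.re) (e_L_im : v252 = L.im) (v253 : ℝ) (v254 : ℝ) (v255 : ℝ) (aV : ℝ)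
    (e_aV_d : aV = dt Ax (P.V0 / (P.fs : ℂ))) (e_aV_v : v255 = aV) (v256 : ℝ)
    (h256 : v256 = (I * P.vs - P.bs).re) (v257 : ℝ) (h257 : v257 = (I * P.vs - P.bs).im)
    (v258 : ℝ) (h258 : v258 = v5 * v151) (v259 : ℝ) (h259 : v259 = v4 * v165) (v260 : ℝ)
    (h260 : v260 = v258 - v259) (v261 : ℝ) (h261 : v261 = v29 * v260) (v262 : ℝ)
    (h262 : v262 = v30 * v260) (v263 : ℝ) (h263 : v263 = v151 * v256) (v264 : ℝ)
    (h264 : v264 = v165 * v257) (v265 : ℝ) (h265 : v265 = v263 + v264) (v266 : ℝ)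
    (h266 : v266 = v71 * v265) (v267 : ℝ) (h267 : v267 = v75 * v265)
    (h : TrE (realAlg (fun i => get 0 (P.syl l) i) (r) (s))
    [.add 6 1, .add 6 1, .mul 203 104, .mul 204 119, .add 3 1, .sub 3 1, .add 163 50, .sub 0 19,
    .mul 204 0, .mul 201 1, .sub 30 1, .sub 26 1, .mul 262 114, .mul 263 129, .sub 102 1,
    .add 89 1, .mul 248 1, .mul 249 1, .sub 7 1, .sub 7 1, .sub 1 15, .sub 1 15, .mul 254 47,
    .cst 6 0, .mul 1 0, .mul 273 204, .mul 276 1, .sub 0 1, .mul 260 260, .mul 291 211,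
    .mul 293 217, .add 1 0, .mul 270 0, .mul 270 1, .mul 216 45, .mul 222 45, .sub 0 1,
    .mul 233 0, .mul 230 1, .sub 1 6, .sub 1 6, .mul 242 228, .mul 243 224, .add 3 1, .add 3 1,
    .mul 256 1, .mul 257 1, .sub 21 22, .mul 244 0, .mul 241 1, .add 4 1, .add 4 1, .mul 300 31,
    .mul 301 31, .sub 1 112, .sub 1 104, .mul 32 27, .mul 2 0, .mul 2 1, .add 8 1, .add 8 1]
    [v267, v266, v265, v264, v263, v262, v261, v260, v259, v258, v257, v256, v255, v254, v253,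
    v252, v251, v250, v249, v248, v247, v246, v245, v244, v243, v242, v241, v240, v239, v238,
    v237, v236, v235, v234, v233, v232, v231, v230, v229, v228, v227, v226, v225, v224, v223,
    v222, v221, v220, v219, v218, v217, v216, v215, v214, v213, v212, v211, v210, v209, v208,
    v207, v206, v205, v204, v203, v202, v201, v200, v199, v198, v197, v196, v195, v194, v193,
    v192, v191, v190, v189, v188, v187, v186, v185, v184, v183, v182, v181, v180, v179, v178,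
    v177, v176, v175, v174, v173, v172, v171, v170, v169, v168, v167, v166, v165, v164, v163,
    v162, v161, v160, v159, v158, v157, v156, v155, v154, v153, v152, v151, v150, v149, v148,
    v147, v146, v145, v144, v143, v142, v141, v140, v139, v138, v137, v136, v135, v134, v133,
    v132, v131, v130, v129, v128, v127, v126, v125, v124, v123, v122, v121, v120, v119, v118,
    v117, v116, v115, v114, v113, v112, v111, v110, v109, v108, v107, v106, v105, v104, v103,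
    v102, v101, v100, v99, v98, v97, v96, v95, v94, v93, v92, v91, v90, v89, v88, v87, v86, v85,
    v84, v83, v82, v81, v80, v79, v78, v77, v76, v75, v74, v73, v72, v71, v70, v69, v68, v67,
    v66, v65, v64, v63, v62, v61, v60, v59, v58, v57, v56, v55, v54, v53, v52, v51, v50, v49,
    v48, v47, v46, v45, v44, v43, v42, v41, v40, v39, v38, v37, v36, v35, v34, v33, v32, v31,
    v30, v29, v28, v27, v26, v25, v24, v23, v22, v21, v20, v19, v18, v17, v16, v15, v14, v13,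
    v12, v11, v10, v9, v8, v7, v6, v5, v4, v3, v2, v1, v0]
    (pE2_valQ P l r s)) :
    OutEq (run (realAlg (fun i => get 0 (P.syl l) i) (r) (s)) pE2 []) pE2_out
      [P.E12 1 ⟨r, s⟩ (ηd 2 (P.ys + ⟨r, s⟩) - (P.V0 + P.DV ⟨r, s⟩) * ((1 - 2 * dt (uu 2) (P.ys + ⟨r, s⟩)) : ℝ)) (ηd 2 (P.ys + ⟨r, s⟩) - P.V0 / (P.fs : ℂ) * ((1 - 2 * dt (uu 2) (P.ys + ⟨r, s⟩)) * (P.fs + dt P.ns ⟨r, s⟩) : ℝ)) (1 - 2 * dt (uu 2) (P.ys + ⟨r, s⟩)),
      (P.G6 1 ⟨r, s⟩ (ηd 2 (P.ys + ⟨r, s⟩) - (P.V0 + P.DV ⟨r, s⟩) * ((1 - 2 * dt (uu 2) (P.ys + ⟨r, s⟩)) : ℝ)) (ηd 2 (P.ys + ⟨r, s⟩) - P.V0 / (P.fs : ℂ) * ((1 - 2 * dt (uu 2) (P.ys + ⟨r, s⟩)) * (P.fs + dt P.ns ⟨r, s⟩) : ℝ)) (1 - 2 * dt (uu 2) (P.ys + ⟨r, s⟩))).re,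
      (P.G6 1 ⟨r, s⟩ (ηd 2 (P.ys + ⟨r, s⟩) - (P.V0 + P.DV ⟨r, s⟩) * ((1 - 2 * dt (uu 2) (P.ys + ⟨r, s⟩)) : ℝ)) (ηd 2 (P.ys + ⟨r, s⟩) - P.V0 / (P.fs : ℂ) * ((1 - 2 * dt (uu 2) (P.ys + ⟨r, s⟩)) * (P.fs + dt P.ns ⟨r, s⟩) : ℝ)) (1 - 2 * dt (uu 2) (P.ys + ⟨r, s⟩))).im, P.fr 1 ⟨r, s⟩] := by
  obtain ⟨v268, h268, h⟩ := h
  change v268 = v261 + v266 at h268
  obtain ⟨v269, h269, h⟩ := h
  change v269 = v262 + v267 at h269
  obtain ⟨v270, h270, h⟩ := h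
  change v270 = v66 * v165 at h270
  obtain ⟨v271, h271, h⟩ := h
  change v271 = v66 * v151 at h271
  obtain ⟨v272, h272, h⟩ := h
  change v272 = v268 + v270 at h272
  obtain ⟨v273, h273, h⟩ := h
  change v273 = v269 - v271 at h273
  obtain ⟨ZB, e_ZB_d⟩ : ∃ q : ℂ, q = ((dt B (-(I * y)) : ℝ) : ℂ) * P.ns + ((dt B (I * P.vs - P.bs) : ℝ) : ℂ) * fv - (k : ℂ) * (I * B) := ⟨_, rfl⟩
  have e_ZB_re : v272 = ZB.re := by
    rw [e_ZB_d]
    simp only [h272, h270, h268, h266, h265, h264, h263, h261, h260, h259, h258, h257, h256, h29, e_B_im, e_k_v, e_B_re, e_fv_re, e_y_re, e_y_im, mul_re, mul_im, add_re, add_im, sub_re, sub_im, neg_re, neg_im, I_re, I_im, ofReal_re,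
      ofReal_im, one_re, one_im, zero_re, zero_im, dt, normSq_apply, re_ofNat, im_ofNat, conj_re, conj_im]
    try ring
  have e_ZB_im : v273 = ZB.im := by
    rw [e_ZB_d]
    simp only [h273, h271, h269, h267, h265, h264, h263, h262, h260, h259, h258, h257, h256, h30, e_B_re, e_k_v, e_B_im, e_fv_im, e_y_re, e_y_im, mul_re, mul_im, add_re, add_im, sub_re, sub_im, neg_re, neg_im, I_re, I_im, ofReal_re,
      ofReal_im, one_re, one_im, zero_re, zero_im, dt, normSq_apply, re_ofNat, im_ofNat, conj_re, conj_im]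
    try ring
  obtain ⟨v274, h274, h⟩ := h
  change v274 = v110 + v223 at h274
  obtain ⟨v275, h275, h⟩ := h
  change v275 = v274 - v255 at h275
  obtain ⟨v276, h276, h⟩ := h
  change v276 = v71 * v275 at h276
  obtain ⟨v277, h277, h⟩ := h
  change v277 = v75 * v275 at h277
  obtain ⟨v278, h278, h⟩ := h
  change v278 = v247 - v276 at h278
  obtain ⟨v279, h279, h⟩ := h
  change v279 = v252 - v277 at h279
  obtain ⟨v280, h280, h⟩ := h
  change v280 = v17 * v165 at h280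
  obtain ⟨v281, h281, h⟩ := h
  change v281 = v17 * v151 at h281
  obtain ⟨v282, h282, h⟩ := h
  change v282 = v179 - v280 at h282
  obtain ⟨v283, h283, h⟩ := h
  change v283 = v193 + v281 at h283
  obtain ⟨v284, h284, h⟩ := h
  change v284 = v35 * v282 at h284
  obtain ⟨v285, h285, h⟩ := h
  change v285 = v35 * v283 at h285
  obtain ⟨v286, h286, h⟩ := h
  change v286 = v278 - v284 at h286
  obtain ⟨v287, h287, h⟩ := h
  change v287 = v279 - v285 at h287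
  obtain ⟨v288, h288, h⟩ := h
  change v288 = v286 - v272 at h288
  obtain ⟨v289, h289, h⟩ := h
  change v289 = v287 - v273 at h289
  obtain ⟨H, e_H_d⟩ : ∃ q : ℂ, q = L - ((sax + As * 1 - aV : ℝ) : ℂ) * fv - (Bs + 2 * I * B) * (f : ℂ) - ZB := ⟨_, rfl⟩
  have e_H_re : v288 = H.re := by
    rw [e_H_d]
    simp only [h288, h286, h284, h282, h280, h278, h276, h275, h274, h17, e_ZB_re, e_B_im, e_Bs_re, e_f_v, e_aV_v, e_sax_v, e_As_v, e_fv_re, e_L_re, mul_re, mul_im, add_re, add_im, sub_re, sub_im, neg_re, neg_im, I_re, I_im, ofReal_re,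
      ofReal_im, one_re, one_im, zero_re, zero_im, dt, normSq_apply, re_ofNat, im_ofNat, conj_re, conj_im]
    try ring
  have e_H_im : v289 = H.im := by
    rw [e_H_d]
    simp only [h289, h287, h285, h283, h281, h279, h277, h275, h274, h17, e_ZB_im, e_B_re, e_Bs_im, e_f_v, e_aV_v, e_sax_v, e_As_v, e_fv_im, e_L_im, mul_re, mul_im, add_re, add_im, sub_re, sub_im, neg_re, neg_im, I_re, I_im, ofReal_re,
      ofReal_im, one_re, one_im, zero_re, zero_im, dt, normSq_apply, re_ofNat, im_ofNat, conj_re, conj_im]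
    try ring
  obtain ⟨v290, h290, h⟩ := h
  change v290 = v35 * v242 at h290
  obtain ⟨v291, h291, h⟩ := h
  replace h291 : v291 = (6 : ℝ) := by rw [h291]; norm_num [step, realAlg]
  obtain ⟨v292, h292, h⟩ := h
  change v292 = v290 * v291 at h292
  obtain ⟨v293, h293, h⟩ := h
  change v293 = v19 * v88 at h293
  obtain ⟨v294, h294, h⟩ := h
  change v294 = v17 * v292 at h294
  obtain ⟨v295, h295, h⟩ := h
  change v295 = v294 - v293 at h295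
  obtain ⟨E12, e_E12_d⟩ : ∃ q : ℝ, q = 12 * (f * Xv) - nM * d := ⟨_, rfl⟩
  have e_E12_v : v295 = E12 := by
    rw [e_E12_d]
    simp only [h295, h294, h293, h292, h291, h290, h17, e_nM_v, e_d_v, e_Xv_v, e_f_v, mul_re, mul_im, add_re, add_im, sub_re, sub_im, neg_re, neg_im, I_re, I_im, ofReal_re,
      ofReal_im, one_re, one_im, zero_re, zero_im, dt, normSq_apply, re_ofNat, im_ofNat, conj_re, conj_im]
    try ring
  obtain ⟨v296, h296, h⟩ := h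
  change v296 = v35 * v35 at h296
  obtain ⟨v297, h297, h⟩ := h
  change v297 = v5 * v85 at h297
  obtain ⟨v298, h298, h⟩ := h
  change v298 = v4 * v80 at h298
  obtain ⟨v299, h299, h⟩ := h
  change v299 = v297 + v298 at h299
  obtain ⟨v300, h300, h⟩ := h
  change v300 = v29 * v299 at h300
  obtain ⟨v301, h301, h⟩ := h
  change v301 = v30 * v299 at h301
  obtain ⟨v302, h302, h⟩ := h
  change v302 = v85 * v256 at h302
  obtain ⟨v303, h303, h⟩ := h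
  change v303 = v80 * v257 at h303
  obtain ⟨v304, h304, h⟩ := h
  change v304 = v303 - v302 at h304
  obtain ⟨v305, h305, h⟩ := h
  change v305 = v71 * v304 at h305
  obtain ⟨v306, h306, h⟩ := h
  change v306 = v75 * v304 at h306
  obtain ⟨v307, h307, h⟩ := h
  change v307 = v305 - v300 at h307
  obtain ⟨v308, h308, h⟩ := h
  change v308 = v306 - v301 at h308
  obtain ⟨v309, h309, h⟩ := h
  change v309 = v66 * v80 at h309
  obtain ⟨v310, h310, h⟩ := h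
  change v310 = v66 * v85 at h310
  obtain ⟨v311, h311, h⟩ := h
  change v311 = v307 + v309 at h311
  obtain ⟨v312, h312, h⟩ := h
  change v312 = v308 + v310 at h312
  obtain ⟨ZM, e_ZM_d⟩ : ∃ q : ℂ, q = ((dt iM (-(I * y)) : ℝ) : ℂ) * P.ns + ((dt iM (I * P.vs - P.bs) : ℝ) : ℂ) * fv - (k : ℂ) * (I * iM) := ⟨_, rfl⟩
  have e_ZM_re : v311 = ZM.re := by
    rw [e_ZM_d]
    simp only [h311, h309, h307, h305, h304, h303, h302, h300, h299, h298, h297, h257, h256, h29, e_iM_im, e_k_v, e_y_re, e_iM_re, e_y_im, e_fv_re, mul_re, mul_im, add_re, add_im, sub_re, sub_im, neg_re, neg_im, I_re, I_im, ofReal_re,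
      ofReal_im, one_re, one_im, zero_re, zero_im, dt, normSq_apply, re_ofNat, im_ofNat, conj_re, conj_im]
    try ring
  have e_ZM_im : v312 = ZM.im := by
    rw [e_ZM_d]
    simp only [h312, h310, h308, h306, h304, h303, h302, h301, h299, h298, h297, h257, h256, h30, e_iM_re, e_k_v, e_iM_im, e_y_re, e_y_im, e_fv_im, mul_re, mul_im, add_re, add_im, sub_re, sub_im, neg_re, neg_im, I_re, I_im, ofReal_re,
      ofReal_im, one_re, one_im, zero_re, zero_im, dt, normSq_apply, re_ofNat, im_ofNat, conj_re, conj_im]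
    try ring
  obtain ⟨v313, h313, h⟩ := h
  change v313 = v56 * v311 at h313
  obtain ⟨v314, h314, h⟩ := h
  change v314 = v56 * v312 at h314
  obtain ⟨v315, h315, h⟩ := h
  change v315 = v293 - v292 at h315
  obtain ⟨v316, h316, h⟩ := h
  change v316 = v71 * v315 at h316
  obtain ⟨v317, h317, h⟩ := h
  change v317 = v75 * v315 at h317
  obtain ⟨v318, h318, h⟩ := h
  change v318 = v313 + v316 at h318
  obtain ⟨v319, h319, h⟩ := h
  change v319 = v314 + v317 at h319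
  obtain ⟨v320, h320, h⟩ := h
  change v320 = v19 * v288 at h320
  obtain ⟨v321, h321, h⟩ := h
  change v321 = v19 * v289 at h321
  obtain ⟨v322, h322, h⟩ := h
  change v322 = v320 - v209 at h322
  obtain ⟨v323, h323, h⟩ := h
  change v323 = v321 - v218 at h323
  obtain ⟨v324, h324, h⟩ := h
  change v324 = v291 * v296 at h324
  obtain ⟨v325, h325, h⟩ := h
  change v325 = v322 * v324 at h325
  obtain ⟨v326, h326, h⟩ := h
  change v326 = v323 * v324 at h326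
  obtain ⟨v327, h327, h⟩ := h
  change v327 = v318 + v325 at h327
  obtain ⟨v328, h328, h⟩ := h
  change v328 = v319 + v326 at h328
  obtain ⟨G6, e_G6_d⟩ : ∃ q : ℂ, q = ZM * ((d * f : ℝ) : ℂ) + fv * ((1 * (nM * d - 6 * (f * Xv)) : ℝ) : ℂ) + (H * (d : ℂ) - DB) * ((6 * f ^ 2 : ℝ) : ℂ) := ⟨_, rfl⟩
  have e_G6_re : v327 = G6.re := by
    rw [e_G6_d]
    simp only [h327, h325, h324, h322, h320, h318, h316, h315, h313, h296, h293, h292, h291, h290, h56, e_f_v, e_DB_re, e_H_re, e_d_v, e_Xv_v, e_nM_v, e_fv_re, e_ZM_re, mul_re, mul_im, add_re, add_im, sub_re, sub_im, neg_re, neg_im, I_re, I_im, ofReal_re,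
      ofReal_im, one_re, one_im, zero_re, zero_im, dt, normSq_apply, re_ofNat, im_ofNat, conj_re, conj_im]
    try ring
  have e_G6_im : v328 = G6.im := by
    rw [e_G6_d]
    simp only [h328, h326, h324, h323, h321, h319, h317, h315, h314, h296, h293, h292, h291, h290, h56, e_f_v, e_DB_im, e_H_im, e_d_v, e_Xv_v, e_nM_v, e_fv_im, e_ZM_im, mul_re, mul_im, add_re, add_im, sub_re, sub_im, neg_re, neg_im, I_re, I_im, ofReal_re,
      ofReal_im, one_re, one_im, zero_re, zero_im, dt, normSq_apply, re_ofNat, im_ofNat, conj_re, conj_im]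
    try ring
  obtain ⟨o_E12, e_o_E12_d⟩ : ∃ q : ℝ, q = E12 := ⟨_, rfl⟩
  have a_o_E12 : E12 = E12 := by
    rfl
  have e_o_E12_v : v295 = o_E12 := by
    rw [e_o_E12_d, a_o_E12]
    simp only [e_E12_v, mul_re, mul_im, add_re, add_im, sub_re, sub_im, neg_re, neg_im, I_re, I_im, ofReal_re,
      ofReal_im, one_re, one_im, zero_re, zero_im, dt, normSq_apply, re_ofNat, im_ofNat, conj_re, conj_im]
    try ring
  obtain ⟨o_G6r, e_o_G6r_d⟩ : ∃ q : ℝ, q = G6.re := ⟨_, rfl⟩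
  have a_o_G6r : G6.re = G6.re := by
    rfl
  have e_o_G6r_v : v327 = o_G6r := by
    rw [e_o_G6r_d, a_o_G6r]
    simp only [e_G6_re, mul_re, mul_im, add_re, add_im, sub_re, sub_im, neg_re, neg_im, I_re, I_im, ofReal_re,
      ofReal_im, one_re, one_im, zero_re, zero_im, dt, normSq_apply, re_ofNat, im_ofNat, conj_re, conj_im]
    try ring
  obtain ⟨o_G6i, e_o_G6i_d⟩ : ∃ q : ℝ, q = G6.im := ⟨_, rfl⟩
  have a_o_G6i : G6.im = G6.im := by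
    rfl
  have e_o_G6i_v : v328 = o_G6i := by
    rw [e_o_G6i_d, a_o_G6i]
    simp only [e_G6_im, mul_re, mul_im, add_re, add_im, sub_re, sub_im, neg_re, neg_im, I_re, I_im, ofReal_re,
      ofReal_im, one_re, one_im, zero_re, zero_im, dt, normSq_apply, re_ofNat, im_ofNat, conj_re, conj_im]
    try ring
  obtain ⟨o_f, e_o_f_d⟩ : ∃ q : ℝ, q = f := ⟨_, rfl⟩
  have a_o_f : f = f := by
    rfl
  have e_o_f_v : v35 = o_f := by
    rw [e_o_f_d, a_o_f]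
    simp only [e_f_v, mul_re, mul_im, add_re, add_im, sub_re, sub_im, neg_re, neg_im, I_re, I_im, ofReal_re,
      ofReal_im, one_re, one_im, zero_re, zero_im, dt, normSq_apply, re_ofNat, im_ofNat, conj_re, conj_im]
    try ring
  refine OutEq_of h ?_
  refine ⟨e_o_E12_v.trans ?_, e_o_G6r_v.trans ?_, e_o_G6i_v.trans ?_, e_o_f_v.trans ?_, trivial⟩
  all_goals
    subst o_f o_G6i o_G6r o_E12 G6 ZM E12 H ZB aV L Xv sax DB Bs B Ax As nM iM M fv k y U T f e ηL d w y0 X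
    rfl

theorem pE2_val_s4 (P : Pt) (l : List ℝ) (r s : ℝ)
    (v0 : ℝ) (v1 : ℝ) (X : ℂ) (e_X_d : X = (⟨r, s⟩ : ℂ)) (e_X_re : v0 = X.re)
    (e_X_im : v1 = X.im) (v2 : ℝ) (v3 : ℝ) (v4 : ℝ) (v5 : ℝ) (y0 : ℂ) (e_y0_d : y0 = P.ys + X)
    (v6 : ℝ) (v7 : ℝ) (v8 : ℝ) (v9 : ℝ) (v10 : ℝ) (v11 : ℝ) (v12 : ℝ) (v13 : ℝ) (w : ℝ)
    (e_w_d : w = 1 - normSq y0) (v14 : ℝ) (v15 : ℝ) (v16 : ℝ) (v17 : ℝ) (h17 : v17 = (2 : ℝ))
    (v18 : ℝ) (v19 : ℝ) (d : ℝ) (e_d_d : d = 1 - 2 * dt (uu 2) y0) (e_d_v : v19 = d) (v20 : ℝ)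
    (v21 : ℝ) (v22 : ℝ) (v23 : ℝ) (v24 : ℝ) (v25 : ℝ) (v26 : ℝ) (v27 : ℝ) (v28 : ℝ) (ηL : ℂ)
    (e_ηL_d : ηL = I * (w : ℂ) * (((2 * w : ℝ) : ℂ) * uu 2 - (d : ℂ) * y0)) (v29 : ℝ)
    (h29 : v29 = P.ns.re) (v30 : ℝ) (h30 : v30 = P.ns.im) (v31 : ℝ) (v32 : ℝ) (v33 : ℝ) (e : ℝ)
    (e_e_d : e = dt P.ns X) (e_e_v : v33 = e) (v34 : ℝ) (v35 : ℝ) (f : ℝ)
    (e_f_d : f = P.fs + e * 1) (e_f_v : v35 = f) (v36 : ℝ) (v37 : ℝ) (v38 : ℝ) (v39 : ℝ)
    (v40 : ℝ) (v41 : ℝ) (v42 : ℝ) (v43 : ℝ) (v44 : ℝ) (v45 : ℝ) (v46 : ℝ) (v47 : ℝ) (v48 : ℝ)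
    (v49 : ℝ) (v50 : ℝ) (v51 : ℝ) (v52 : ℝ) (v53 : ℝ) (T : ℂ)
    (e_T_d : T = ηL - (P.V0 + P.DV X) * (d : ℂ)) (e_T_re : v52 = T.re) (e_T_im : v53 = -T.im)
    (v54 : ℝ) (h54 : v54 = (P.V0 / (P.fs : ℂ)).re) (v55 : ℝ) (h55 : v55 = (P.V0 / (P.fs : ℂ)).im)
    (v56 : ℝ) (h56 : v56 = v19 * v35) (v57 : ℝ) (v58 : ℝ) (v59 : ℝ) (v60 : ℝ) (U : ℂ)
    (e_U_d : U = ηL - P.V0 / (P.fs : ℂ) * ((d * (P.fs + e) : ℝ) : ℂ)) (e_U_re : v59 = U.re)
    (e_U_im : v60 = -U.im) (y : ℂ) (e_y_d : y = P.ys + X * ((1 : ℝ) : ℂ)) (e_y_re : v4 = y.re)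
    (e_y_im : v5 = y.im) (v61 : ℝ) (v62 : ℝ) (v63 : ℝ) (v64 : ℝ) (v65 : ℝ) (v66 : ℝ) (k : ℝ)
    (e_k_d : k = dt y P.ns) (e_k_v : v66 = k) (v67 : ℝ) (v68 : ℝ) (v69 : ℝ) (v70 : ℝ) (v71 : ℝ)
    (v72 : ℝ) (v73 : ℝ) (v74 : ℝ) (v75 : ℝ) (fv : ℂ) (e_fv_d : fv = P.fv y)
    (e_fv_re : v71 = fv.re) (e_fv_im : v75 = fv.im) (v76 : ℝ) (v77 : ℝ) (v78 : ℝ) (v79 : ℝ)
    (v80 : ℝ) (v81 : ℝ) (v82 : ℝ) (v83 : ℝ) (v84 : ℝ) (v85 : ℝ) (M : ℂ) (e_M_d : M = P.M X)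
    (iM : ℂ) (e_iM_d : iM = I * M) (e_iM_re : v85 = -iM.re) (e_iM_im : v80 = iM.im) (v86 : ℝ)
    (v87 : ℝ) (v88 : ℝ) (nM : ℝ) (e_nM_d : nM = normSq M) (e_nM_v : v88 = nM) (v89 : ℝ) (v90 : ℝ)
    (v91 : ℝ) (v92 : ℝ) (v93 : ℝ) (v94 : ℝ) (v95 : ℝ) (v96 : ℝ) (v97 : ℝ) (v98 : ℝ) (v99 : ℝ)
    (v100 : ℝ) (v101 : ℝ) (v102 : ℝ) (v103 : ℝ) (v104 : ℝ) (v105 : ℝ) (v106 : ℝ) (v107 : ℝ)
    (v108 : ℝ) (v109 : ℝ) (v110 : ℝ) (As : ℝ) (e_As_d : As = VAr P.cs 1 X) (e_As_v : v110 = As)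
    (v111 : ℝ) (v112 : ℝ) (v113 : ℝ) (v114 : ℝ) (v115 : ℝ) (v116 : ℝ) (v117 : ℝ) (v118 : ℝ)
    (v119 : ℝ) (v120 : ℝ) (v121 : ℝ) (v122 : ℝ) (v123 : ℝ) (v124 : ℝ) (v125 : ℝ) (v126 : ℝ)
    (v127 : ℝ) (v128 : ℝ) (v129 : ℝ) (v130 : ℝ) (v131 : ℝ) (v132 : ℝ) (v133 : ℝ) (v134 : ℝ)
    (v135 : ℝ) (v136 : ℝ) (v137 : ℝ) (Ax : ℂ) (e_Ax_d : Ax = VAxr P.c 1 X)
    (e_Ax_re : v124 = Ax.re) (e_Ax_im : v137 = Ax.im) (v138 : ℝ) (h138 : v138 = P.c.b11)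
    (v139 : ℝ) (v140 : ℝ) (h140 : v140 = P.c.b12) (v141 : ℝ) (v142 : ℝ) (v143 : ℝ)
    (h143 : v143 = P.c.q1) (v144 : ℝ) (v145 : ℝ) (h145 : v145 = P.c.q2) (v146 : ℝ) (v147 : ℝ)
    (v148 : ℝ) (h148 : v148 = P.c.q3) (v149 : ℝ) (v150 : ℝ) (v151 : ℝ) (v152 : ℝ)
    (h152 : v152 = P.c.b21) (v153 : ℝ) (v154 : ℝ) (h154 : v154 = P.c.b22) (v155 : ℝ) (v156 : ℝ)
    (v157 : ℝ) (h157 : v157 = P.c.q4) (v158 : ℝ) (v159 : ℝ) (h159 : v159 = P.c.q5) (v160 : ℝ)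
    (v161 : ℝ) (v162 : ℝ) (h162 : v162 = P.c.q6) (v163 : ℝ) (v164 : ℝ) (v165 : ℝ) (B : ℂ)
    (e_B_d : B = VBr P.c 1 X) (e_B_re : v151 = B.re) (e_B_im : v165 = B.im) (v166 : ℝ) (v167 : ℝ)
    (v168 : ℝ) (v169 : ℝ) (v170 : ℝ) (v171 : ℝ) (v172 : ℝ) (v173 : ℝ) (v174 : ℝ) (v175 : ℝ)
    (v176 : ℝ) (v177 : ℝ) (v178 : ℝ) (v179 : ℝ) (v180 : ℝ) (v181 : ℝ) (v182 : ℝ) (v183 : ℝ)
    (v184 : ℝ) (v185 : ℝ) (v186 : ℝ) (v187 : ℝ) (v188 : ℝ) (v189 : ℝ) (v190 : ℝ) (v191 : ℝ)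
    (v192 : ℝ) (v193 : ℝ) (Bs : ℂ) (e_Bs_d : Bs = VBr P.cs 1 X) (e_Bs_re : v179 = Bs.re)
    (e_Bs_im : v193 = Bs.im) (v194 : ℝ) (h194 : v194 = v0 * v59) (v195 : ℝ)
    (h195 : v195 = v17 * v194) (v196 : ℝ) (h196 : v196 = v0 * v60) (v197 : ℝ)
    (h197 : v197 = v1 * v59) (v198 : ℝ) (h198 : v198 = v197 - v196)
    (h : TrE (realAlg (fun i => get 0 (P.syl l) i) (r) (s))
    [.mul 197 138, .mul 182 0, .mul 141 62, .mul 141 61, .sub 1 0, .mul 60 8, .mul 59 6,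
    .add 1 0, .mul 58 6, .sub 1 0, .add 5 0, .mul 150 57, .mul 150 56, .sub 1 0, .mul 55 17,
    .mul 54 15, .add 1 0, .mul 53 15, .sub 1 0, .add 5 0, .base 31, .base 32, .mul 220 1,
    .mul 220 1, .add 1 0, .base 29, .base 30, .mul 173 1, .mul 173 1, .sub 1 0, .mul 195 5,
    .mul 194 119, .add 1 0, .mul 212 0, .add 4 0, .mul 174 109, .mul 174 97, .sub 1 0, .add 3 0,
    .mul 152 86, .mul 158 73, .sub 0 1, .mul 221 0, .sub 0 4, .base 23, .mul 243 0, .base 24,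
    .mul 244 0, .add 2 0, .base 25, .mul 248 0, .base 26, .mul 249 0, .add 2 0, .mul 198 128,
    .mul 198 116, .add 1 0, .base 27, .base 28, .mul 252 106, .mul 254 93, .sub 1 0, .mul 231 0,
    .mul 231 1, .mul 111 6, .mul 98 6, .add 1 0, .mul 194 0, .mul 191 1, .add 6 1, .add 6 1,
    .mul 203 104, .mul 204 119, .add 3 1, .sub 3 1, .add 163 50, .sub 0 19, .mul 204 0,
    .mul 201 1, .sub 30 1, .sub 26 1, .mul 262 114, .mul 263 129, .sub 102 1, .add 89 1,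
    .mul 248 1, .mul 249 1, .sub 7 1, .sub 7 1, .sub 1 15, .sub 1 15, .mul 254 47, .cst 6 0,
    .mul 1 0, .mul 273 204, .mul 276 1, .sub 0 1, .mul 260 260, .mul 291 211, .mul 293 217,
    .add 1 0, .mul 270 0, .mul 270 1, .mul 216 45, .mul 222 45, .sub 0 1, .mul 233 0, .mul 230 1,
    .sub 1 6, .sub 1 6, .mul 242 228, .mul 243 224, .add 3 1, .add 3 1, .mul 256 1, .mul 257 1,
    .sub 21 22, .mul 244 0, .mul 241 1, .add 4 1, .add 4 1, .mul 300 31, .mul 301 31, .sub 1 112,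
    .sub 1 104, .mul 32 27, .mul 2 0, .mul 2 1, .add 8 1, .add 8 1]
    [v198, v197, v196, v195, v194, v193, v192, v191, v190, v189, v188, v187, v186, v185, v184,
    v183, v182, v181, v180, v179, v178, v177, v176, v175, v174, v173, v172, v171, v170, v169,
    v168, v167, v166, v165, v164, v163, v162, v161, v160, v159, v158, v157, v156, v155, v154,
    v153, v152, v151, v150, v149, v148, v147, v146, v145, v144, v143, v142, v141, v140, v139,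
    v138, v137, v136, v135, v134, v133, v132, v131, v130, v129, v128, v127, v126, v125, v124,
    v123, v122, v121, v120, v119, v118, v117, v116, v115, v114, v113, v112, v111, v110, v109,
    v108, v107, v106, v105, v104, v103, v102, v101, v100, v99, v98, v97, v96, v95, v94, v93, v92,
    v91, v90, v89, v88, v87, v86, v85, v84, v83, v82, v81, v80, v79, v78, v77, v76, v75, v74,
    v73, v72, v71, v70, v69, v68, v67, v66, v65, v64, v63, v62, v61, v60, v59, v58, v57, v56,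
    v55, v54, v53, v52, v51, v50, v49, v48, v47, v46, v45, v44, v43, v42, v41, v40, v39, v38,
    v37, v36, v35, v34, v33, v32, v31, v30, v29, v28, v27, v26, v25, v24, v23, v22, v21, v20,
    v19, v18, v17, v16, v15, v14, v13, v12, v11, v10, v9, v8, v7, v6, v5, v4, v3, v2, v1, v0]
    (pE2_valQ P l r s)) :
    OutEq (run (realAlg (fun i => get 0 (P.syl l) i) (r) (s)) pE2 []) pE2_out
      [P.E12 1 ⟨r, s⟩ (ηd 2 (P.ys + ⟨r, s⟩) - (P.V0 + P.DV ⟨r, s⟩) * ((1 - 2 * dt (uu 2) (P.ys + ⟨r, s⟩)) : ℝ)) (ηd 2 (P.ys + ⟨r, s⟩) - P.V0 / (P.fs : ℂ) * ((1 - 2 * dt (uu 2) (P.ys + ⟨r, s⟩)) * (P.fs + dt P.ns ⟨r, s⟩) : ℝ)) (1 - 2 * dt (uu 2) (P.ys + ⟨r, s⟩)),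
      (P.G6 1 ⟨r, s⟩ (ηd 2 (P.ys + ⟨r, s⟩) - (P.V0 + P.DV ⟨r, s⟩) * ((1 - 2 * dt (uu 2) (P.ys + ⟨r, s⟩)) : ℝ)) (ηd 2 (P.ys + ⟨r, s⟩) - P.V0 / (P.fs : ℂ) * ((1 - 2 * dt (uu 2) (P.ys + ⟨r, s⟩)) * (P.fs + dt P.ns ⟨r, s⟩) : ℝ)) (1 - 2 * dt (uu 2) (P.ys + ⟨r, s⟩))).re,
      (P.G6 1 ⟨r, s⟩ (ηd 2 (P.ys + ⟨r, s⟩) - (P.V0 + P.DV ⟨r, s⟩) * ((1 - 2 * dt (uu 2) (P.ys + ⟨r, s⟩)) : ℝ)) (ηd 2 (P.ys + ⟨r, s⟩) - P.V0 / (P.fs : ℂ) * ((1 - 2 * dt (uu 2) (P.ys + ⟨r, s⟩)) * (P.fs + dt P.ns ⟨r, s⟩) : ℝ)) (1 - 2 * dt (uu 2) (P.ys + ⟨r, s⟩))).im, P.fr 1 ⟨r, s⟩] := by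
  obtain ⟨v199, h199, h⟩ := h
  change v199 = v1 * v60 at h199
  obtain ⟨v200, h200, h⟩ := h
  change v200 = v17 * v199 at h200
  obtain ⟨v201, h201, h⟩ := h
  change v201 = v59 * v138 at h201
  obtain ⟨v202, h202, h⟩ := h
  change v202 = v60 * v140 at h202
  obtain ⟨v203, h203, h⟩ := h
  change v203 = v201 - v202 at h203
  obtain ⟨v204, h204, h⟩ := h
  change v204 = v143 * v195 at h204
  obtain ⟨v205, h205, h⟩ := h
  change v205 = v145 * v198 at h205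
  obtain ⟨v206, h206, h⟩ := h
  change v206 = v204 + v205 at h206
  obtain ⟨v207, h207, h⟩ := h
  change v207 = v148 * v200 at h207
  obtain ⟨v208, h208, h⟩ := h
  change v208 = v206 - v207 at h208
  obtain ⟨v209, h209, h⟩ := h
  change v209 = v203 + v208 at h209
  obtain ⟨v210, h210, h⟩ := h
  change v210 = v59 * v152 at h210
  obtain ⟨v211, h211, h⟩ := h
  change v211 = v60 * v154 at h211
  obtain ⟨v212, h212, h⟩ := h
  change v212 = v210 - v211 at h212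
  obtain ⟨v213, h213, h⟩ := h
  change v213 = v157 * v195 at h213
  obtain ⟨v214, h214, h⟩ := h
  change v214 = v159 * v198 at h214
  obtain ⟨v215, h215, h⟩ := h
  change v215 = v213 + v214 at h215
  obtain ⟨v216, h216, h⟩ := h
  change v216 = v162 * v200 at h216
  obtain ⟨v217, h217, h⟩ := h
  change v217 = v215 - v216 at h217
  obtain ⟨v218, h218, h⟩ := h
  change v218 = v212 + v217 at h218
  obtain ⟨DB, e_DB_d⟩ : ∃ q : ℂ, q = VBd P.c (X * ((1 : ℝ) : ℂ)) U := ⟨_, rfl⟩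
  have e_DB_re : v209 = DB.re := by
    rw [e_DB_d]
    simp only [VBd_re, VBd_im, h209, h208, h207, h206, h205, h204, h203, h202, h201, h200, h199, h198, h197, h196, h195, h194, h148, h145, h143, h140, h138, h17, e_U_im, e_X_im, e_X_re, e_U_re, mul_re, mul_im, add_re, add_im, sub_re, sub_im, neg_re, neg_im, I_re, I_im, ofReal_re,
      ofReal_im, one_re, one_im, zero_re, zero_im, dt, normSq_apply, re_ofNat, im_ofNat, conj_re, conj_im]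
    try ring
  have e_DB_im : v218 = DB.im := by
    rw [e_DB_d]
    simp only [VBd_re, VBd_im, h218, h217, h216, h215, h214, h213, h212, h211, h210, h200, h199, h198, h197, h196, h195, h194, h162, h159, h157, h154, h152, h17, e_U_im, e_X_im, e_X_re, e_U_re, mul_re, mul_im, add_re, add_im, sub_re, sub_im, neg_re, neg_im, I_re, I_im, ofReal_re,
      ofReal_im, one_re, one_im, zero_re, zero_im, dt, normSq_apply, re_ofNat, im_ofNat, conj_re, conj_im]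
    try ring
  obtain ⟨v219, h219, h⟩ := h
  change v219 = P.sa.re at h219
  obtain ⟨v220, h220, h⟩ := h
  change v220 = P.sa.im at h220
  obtain ⟨v221, h221, h⟩ := h
  change v221 = v0 * v219 at h221
  obtain ⟨v222, h222, h⟩ := h
  change v222 = v1 * v220 at h222
  obtain ⟨v223, h223, h⟩ := h
  change v223 = v221 + v222 at h223
  obtain ⟨sax, e_sax_d⟩ : ∃ q : ℝ, q = dt P.sa X := ⟨_, rfl⟩
  have e_sax_v : v223 = sax := by
    rw [e_sax_d]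
    simp only [h223, h222, h221, h220, h219, e_X_im, e_X_re, mul_re, mul_im, add_re, add_im, sub_re, sub_im, neg_re, neg_im, I_re, I_im, ofReal_re,
      ofReal_im, one_re, one_im, zero_re, zero_im, dt, normSq_apply, re_ofNat, im_ofNat, conj_re, conj_im]
    try ring
  obtain ⟨v224, h224, h⟩ := h
  change v224 = P.a.re at h224
  obtain ⟨v225, h225, h⟩ := h
  change v225 = P.a.im at h225
  obtain ⟨v226, h226, h⟩ := h
  change v226 = v52 * v224 at h226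
  obtain ⟨v227, h227, h⟩ := h
  change v227 = v53 * v225 at h227
  obtain ⟨v228, h228, h⟩ := h
  change v228 = v226 - v227 at h228
  obtain ⟨v229, h229, h⟩ := h
  change v229 = v33 * v223 at h229
  obtain ⟨v230, h230, h⟩ := h
  change v230 = v35 * v110 at h230
  obtain ⟨v231, h231, h⟩ := h
  change v231 = v229 + v230 at h231
  obtain ⟨v232, h232, h⟩ := h
  change v232 = v19 * v231 at h232
  obtain ⟨v233, h233, h⟩ := h
  change v233 = v228 + v232 at h233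
  obtain ⟨v234, h234, h⟩ := h
  change v234 = v59 * v124 at h234
  obtain ⟨v235, h235, h⟩ := h
  change v235 = v60 * v137 at h235
  obtain ⟨v236, h236, h⟩ := h
  change v236 = v234 - v235 at h236
  obtain ⟨v237, h237, h⟩ := h
  change v237 = v233 + v236 at h237
  obtain ⟨v238, h238, h⟩ := h
  change v238 = v85 * v151 at h238
  obtain ⟨v239, h239, h⟩ := h
  change v239 = v80 * v165 at h239
  obtain ⟨v240, h240, h⟩ := h
  change v240 = v239 - v238 at h240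
  obtain ⟨v241, h241, h⟩ := h
  change v241 = v19 * v240 at h241
  obtain ⟨v242, h242, h⟩ := h
  change v242 = v241 - v237 at h242
  obtain ⟨Xv, e_Xv_d⟩ : ∃ q : ℝ, q = -dt P.a T - (e * sax + f * As) * d - dt Ax U + dt B iM * d := ⟨_, rfl⟩
  have e_Xv_v : v242 = Xv := by
    rw [e_Xv_d]
    simp only [h242, h241, h240, h239, h238, h237, h236, h235, h234, h233, h232, h231, h230, h229, h228, h227, h226, h225, h224, e_Ax_im, e_U_im, e_Ax_re, e_U_re, e_As_v, e_f_v, e_sax_v, e_e_v, e_d_v, e_T_im, e_T_re, e_B_re, e_iM_re, e_B_im, e_iM_im, mul_re, mul_im, add_re, add_im, sub_re, sub_im, neg_re, neg_im, I_re, I_im, ofReal_re,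
      ofReal_im, one_re, one_im, zero_re, zero_im, dt, normSq_apply, re_ofNat, im_ofNat, conj_re, conj_im]
    try ring
  obtain ⟨v243, h243, h⟩ := h
  change v243 = (P.L 1).re at h243
  obtain ⟨v244, h244, h⟩ := h
  change v244 = v0 * v243 at h244
  obtain ⟨v245, h245, h⟩ := h
  change v245 = (P.L I).re at h245
  obtain ⟨v246, h246, h⟩ := h
  change v246 = v1 * v245 at h246
  obtain ⟨v247, h247, h⟩ := h
  change v247 = v244 + v246 at h247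
  obtain ⟨v248, h248, h⟩ := h
  change v248 = (P.L 1).im at h248
  obtain ⟨v249, h249, h⟩ := h
  change v249 = v0 * v248 at h249
  obtain ⟨v250, h250, h⟩ := h
  change v250 = (P.L I).im at h250
  obtain ⟨v251, h251, h⟩ := h
  change v251 = v1 * v250 at h251
  obtain ⟨v252, h252, h⟩ := h
  change v252 = v249 + v251 at h252
  obtain ⟨L, e_L_d⟩ : ∃ q : ℂ, q = P.L X := ⟨_, rfl⟩
  have e_L_re : v247 = L.re := by
    rw [e_L_d]
    simp only [L_re P X, L_im P X, h247, h246, h245, h244, h243, e_X_im, e_X_re, mul_re, mul_im, add_re, add_im, sub_re, sub_im, neg_re, neg_im, I_re, I_im, ofReal_re,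
      ofReal_im, one_re, one_im, zero_re, zero_im, dt, normSq_apply, re_ofNat, im_ofNat, conj_re, conj_im]
    try ring
  have e_L_im : v252 = L.im := by
    rw [e_L_d]
    simp only [L_re P X, L_im P X, h252, h251, h250, h249, h248, e_X_im, e_X_re, mul_re, mul_im, add_re, add_im, sub_re, sub_im, neg_re, neg_im, I_re, I_im, ofReal_re,
      ofReal_im, one_re, one_im, zero_re, zero_im, dt, normSq_apply, re_ofNat, im_ofNat, conj_re, conj_im]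
    try ring
  obtain ⟨v253, h253, h⟩ := h
  change v253 = v54 * v124 at h253
  obtain ⟨v254, h254, h⟩ := h
  change v254 = v55 * v137 at h254
  obtain ⟨v255, h255, h⟩ := h
  change v255 = v253 + v254 at h255
  obtain ⟨aV, e_aV_d⟩ : ∃ q : ℝ, q = dt Ax (P.V0 / (P.fs : ℂ)) := ⟨_, rfl⟩
  have e_aV_v : v255 = aV := by
    rw [e_aV_d]
    simp only [h255, h254, h253, h55, h54, e_Ax_im, e_Ax_re, mul_re, mul_im, add_re, add_im, sub_re, sub_im, neg_re, neg_im, I_re, I_im, ofReal_re,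
      ofReal_im, one_re, one_im, zero_re, zero_im, dt, normSq_apply, re_ofNat, im_ofNat, conj_re, conj_im]
    try ring
  obtain ⟨v256, h256, h⟩ := h
  change v256 = (I * P.vs - P.bs).re at h256
  obtain ⟨v257, h257, h⟩ := h
  change v257 = (I * P.vs - P.bs).im at h257
  obtain ⟨v258, h258, h⟩ := h
  change v258 = v5 * v151 at h258
  obtain ⟨v259, h259, h⟩ := h
  change v259 = v4 * v165 at h259
  obtain ⟨v260, h260, h⟩ := h
  change v260 = v258 - v259 at h260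
  obtain ⟨v261, h261, h⟩ := h
  change v261 = v29 * v260 at h261
  obtain ⟨v262, h262, h⟩ := h
  change v262 = v30 * v260 at h262
  obtain ⟨v263, h263, h⟩ := h
  change v263 = v151 * v256 at h263
  obtain ⟨v264, h264, h⟩ := h
  change v264 = v165 * v257 at h264
  obtain ⟨v265, h265, h⟩ := h
  change v265 = v263 + v264 at h265
  obtain ⟨v266, h266, h⟩ := h
  change v266 = v71 * v265 at h266
  obtain ⟨v267, h267, h⟩ := h
  change v267 = v75 * v265 at h267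
  exact pE2_val_s5
    P l r s v0 v1 X e_X_d v2 v3 v4 v5 y0 e_y0_d v6 v7 v8 v9 v10 v11 v12 v13 w e_w_d v14 v15 v16
    v17 h17 v18 v19 d e_d_d e_d_v v20 v21 v22 v23 v24 v25 v26 v27 v28 ηL e_ηL_d v29 h29 v30 h30
    v31 v32 v33 e e_e_d v34 v35 f e_f_d e_f_v v36 v37 v38 v39 v40 v41 v42 v43 v44 v45 v46 v47 v48
    v49 v50 v51 v52 v53 T e_T_d v54 v55 v56 h56 v57 v58 v59 v60 U e_U_d y e_y_d e_y_re e_y_im v61
    v62 v63 v64 v65 v66 k e_k_d e_k_v v67 v68 v69 v70 v71 v72 v73 v74 v75 fv e_fv_d e_fv_re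
    e_fv_im v76 v77 v78 v79 v80 v81 v82 v83 v84 v85 M e_M_d iM e_iM_d e_iM_re e_iM_im v86 v87 v88
    nM e_nM_d e_nM_v v89 v90 v91 v92 v93 v94 v95 v96 v97 v98 v99 v100 v101 v102 v103 v104 v105
    v106 v107 v108 v109 v110 As e_As_d e_As_v v111 v112 v113 v114 v115 v116 v117 v118 v119 v120
    v121 v122 v123 v124 v125 v126 v127 v128 v129 v130 v131 v132 v133 v134 v135 v136 v137 Ax
    e_Ax_d v138 v139 v140 v141 v142 v143 v144 v145 v146 v147 v148 v149 v150 v151 v152 v153 v154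
    v155 v156 v157 v158 v159 v160 v161 v162 v163 v164 v165 B e_B_d e_B_re e_B_im v166 v167 v168
    v169 v170 v171 v172 v173 v174 v175 v176 v177 v178 v179 v180 v181 v182 v183 v184 v185 v186
    v187 v188 v189 v190 v191 v192 v193 Bs e_Bs_d e_Bs_re e_Bs_im v194 v195 v196 v197 v198 v199
    v200 v201 v202 v203 v204 v205 v206 v207 v208 v209 v210 v211 v212 v213 v214 v215 v216 v217
    v218 DB e_DB_d e_DB_re e_DB_im v219 v220 v221 v222 v223 sax e_sax_d e_sax_v v224 v225 v226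
    v227 v228 v229 v230 v231 v232 v233 v234 v235 v236 v237 v238 v239 v240 v241 v242 Xv e_Xv_d
    e_Xv_v v243 v244 v245 v246 v247 v248 v249 v250 v251 v252 L e_L_d e_L_re e_L_im v253 v254 v255
    aV e_aV_d e_aV_v v256 h256 v257 h257 v258 h258 v259 h259 v260 h260 v261 h261 v262 h262 v263
    h263 v264 h264 v265 h265 v266 h266 v267 h267 h

theorem pE2_val_s3 (P : Pt) (l : List ℝ) (r s : ℝ)
    (v0 : ℝ) (v1 : ℝ) (X : ℂ) (e_X_d : X = (⟨r, s⟩ : ℂ)) (e_X_re : v0 = X.re)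
    (e_X_im : v1 = X.im) (v2 : ℝ) (v3 : ℝ) (v4 : ℝ) (v5 : ℝ) (y0 : ℂ) (e_y0_d : y0 = P.ys + X)
    (v6 : ℝ) (v7 : ℝ) (v8 : ℝ) (v9 : ℝ) (v10 : ℝ) (v11 : ℝ) (v12 : ℝ) (v13 : ℝ) (w : ℝ)
    (e_w_d : w = 1 - normSq y0) (v14 : ℝ) (v15 : ℝ) (v16 : ℝ) (v17 : ℝ) (h17 : v17 = (2 : ℝ))
    (v18 : ℝ) (v19 : ℝ) (d : ℝ) (e_d_d : d = 1 - 2 * dt (uu 2) y0) (e_d_v : v19 = d) (v20 : ℝ)
    (v21 : ℝ) (v22 : ℝ) (v23 : ℝ) (v24 : ℝ) (v25 : ℝ) (v26 : ℝ) (v27 : ℝ) (v28 : ℝ) (ηL : ℂ)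
    (e_ηL_d : ηL = I * (w : ℂ) * (((2 * w : ℝ) : ℂ) * uu 2 - (d : ℂ) * y0)) (v29 : ℝ)
    (h29 : v29 = P.ns.re) (v30 : ℝ) (h30 : v30 = P.ns.im) (v31 : ℝ) (v32 : ℝ) (v33 : ℝ) (e : ℝ)
    (e_e_d : e = dt P.ns X) (e_e_v : v33 = e) (v34 : ℝ) (v35 : ℝ) (f : ℝ)
    (e_f_d : f = P.fs + e * 1) (e_f_v : v35 = f) (v36 : ℝ) (v37 : ℝ) (v38 : ℝ) (v39 : ℝ)
    (v40 : ℝ) (v41 : ℝ) (v42 : ℝ) (v43 : ℝ) (v44 : ℝ) (v45 : ℝ) (v46 : ℝ) (v47 : ℝ) (v48 : ℝ)
    (v49 : ℝ) (v50 : ℝ) (v51 : ℝ) (v52 : ℝ) (v53 : ℝ) (T : ℂ)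
    (e_T_d : T = ηL - (P.V0 + P.DV X) * (d : ℂ)) (e_T_re : v52 = T.re) (e_T_im : v53 = -T.im)
    (v54 : ℝ) (h54 : v54 = (P.V0 / (P.fs : ℂ)).re) (v55 : ℝ) (h55 : v55 = (P.V0 / (P.fs : ℂ)).im)
    (v56 : ℝ) (h56 : v56 = v19 * v35) (v57 : ℝ) (v58 : ℝ) (v59 : ℝ) (v60 : ℝ) (U : ℂ)
    (e_U_d : U = ηL - P.V0 / (P.fs : ℂ) * ((d * (P.fs + e) : ℝ) : ℂ)) (e_U_re : v59 = U.re)
    (e_U_im : v60 = -U.im) (y : ℂ) (e_y_d : y = P.ys + X * ((1 : ℝ) : ℂ)) (e_y_re : v4 = y.re)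
    (e_y_im : v5 = y.im) (v61 : ℝ) (h61 : v61 = v0 * v0) (v62 : ℝ) (h62 : v62 = v0 * v1)
    (v63 : ℝ) (h63 : v63 = v1 * v1) (v64 : ℝ) (v65 : ℝ) (v66 : ℝ) (k : ℝ) (e_k_d : k = dt y P.ns)
    (e_k_v : v66 = k) (v67 : ℝ) (v68 : ℝ) (v69 : ℝ) (v70 : ℝ) (v71 : ℝ) (v72 : ℝ) (v73 : ℝ)
    (v74 : ℝ) (v75 : ℝ) (fv : ℂ) (e_fv_d : fv = P.fv y) (e_fv_re : v71 = fv.re)
    (e_fv_im : v75 = fv.im) (v76 : ℝ) (v77 : ℝ) (v78 : ℝ) (v79 : ℝ) (v80 : ℝ) (v81 : ℝ) (v82 : ℝ)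
    (v83 : ℝ) (v84 : ℝ) (v85 : ℝ) (M : ℂ) (e_M_d : M = P.M X) (iM : ℂ) (e_iM_d : iM = I * M)
    (e_iM_re : v85 = -iM.re) (e_iM_im : v80 = iM.im) (v86 : ℝ) (v87 : ℝ) (v88 : ℝ) (nM : ℝ)
    (e_nM_d : nM = normSq M) (e_nM_v : v88 = nM) (v89 : ℝ) (v90 : ℝ) (v91 : ℝ) (v92 : ℝ)
    (v93 : ℝ) (v94 : ℝ) (v95 : ℝ) (v96 : ℝ) (v97 : ℝ) (v98 : ℝ) (v99 : ℝ) (v100 : ℝ) (v101 : ℝ)
    (v102 : ℝ) (v103 : ℝ) (v104 : ℝ) (v105 : ℝ) (v106 : ℝ) (v107 : ℝ) (v108 : ℝ) (v109 : ℝ)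
    (v110 : ℝ) (As : ℝ) (e_As_d : As = VAr P.cs 1 X) (e_As_v : v110 = As) (v111 : ℝ)
    (h111 : v111 = 2 * P.c.a20) (v112 : ℝ) (h112 : v112 = v0 * v111) (v113 : ℝ)
    (h113 : v113 = P.c.a11) (v114 : ℝ) (h114 : v114 = v1 * v113) (v115 : ℝ)
    (h115 : v115 = v112 + v114) (v116 : ℝ) (h116 : v116 = 3 * P.c.a30) (v117 : ℝ)
    (h117 : v117 = v61 * v116) (v118 : ℝ) (h118 : v118 = 2 * P.c.a21) (v119 : ℝ)
    (h119 : v119 = v62 * v118) (v120 : ℝ) (h120 : v120 = v117 + v119) (v121 : ℝ)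
    (h121 : v121 = P.c.a12) (v122 : ℝ) (h122 : v122 = v63 * v121) (v123 : ℝ)
    (h123 : v123 = v120 + v122) (v124 : ℝ) (h124 : v124 = v115 + v123) (v125 : ℝ)
    (h125 : v125 = v0 * v113) (v126 : ℝ) (h126 : v126 = 2 * P.c.a02) (v127 : ℝ)
    (h127 : v127 = v1 * v126) (v128 : ℝ) (h128 : v128 = v125 + v127)
    (h : TrE (realAlg (fun i => get 0 (P.syl l) i) (r) (s))
    [.base 39, .mul 68 0, .base 40, .mul 69 0, .add 2 0, .base 41, .mul 71 0, .add 2 0, .add 8 0,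
    .base 49, .mul 138 0, .base 50, .mul 139 0, .add 2 0, .base 53, .mul 82 0, .base 54,
    .mul 83 0, .add 2 0, .base 55, .mul 85 0, .add 2 0, .add 8 0, .base 51, .mul 152 0, .base 52,
    .mul 153 0, .add 2 0, .base 56, .mul 96 0, .base 57, .mul 97 0, .add 2 0, .base 58,
    .mul 99 0, .add 2 0, .add 8 0, .base 59, .mul 166 0, .base 60, .mul 167 0, .add 2 0,
    .base 63, .mul 110 0, .base 64, .mul 111 0, .add 2 0, .base 65, .mul 113 0, .add 2 0,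
    .add 8 0, .base 61, .mul 180 0, .base 62, .mul 181 0, .add 2 0, .base 66, .mul 124 0,
    .base 67, .mul 125 0, .add 2 0, .base 68, .mul 127 0, .add 2 0, .add 8 0, .mul 193 134,
    .mul 177 0, .mul 195 135, .mul 195 137, .sub 0 1, .mul 197 138, .mul 182 0, .mul 141 62,
    .mul 141 61, .sub 1 0, .mul 60 8, .mul 59 6, .add 1 0, .mul 58 6, .sub 1 0, .add 5 0,
    .mul 150 57, .mul 150 56, .sub 1 0, .mul 55 17, .mul 54 15, .add 1 0, .mul 53 15, .sub 1 0,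
    .add 5 0, .base 31, .base 32, .mul 220 1, .mul 220 1, .add 1 0, .base 29, .base 30,
    .mul 173 1, .mul 173 1, .sub 1 0, .mul 195 5, .mul 194 119, .add 1 0, .mul 212 0, .add 4 0,
    .mul 174 109, .mul 174 97, .sub 1 0, .add 3 0, .mul 152 86, .mul 158 73, .sub 0 1,
    .mul 221 0, .sub 0 4, .base 23, .mul 243 0, .base 24, .mul 244 0, .add 2 0, .base 25,
    .mul 248 0, .base 26, .mul 249 0, .add 2 0, .mul 198 128, .mul 198 116, .add 1 0, .base 27,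
    .base 28, .mul 252 106, .mul 254 93, .sub 1 0, .mul 231 0, .mul 231 1, .mul 111 6, .mul 98 6,
    .add 1 0, .mul 194 0, .mul 191 1, .add 6 1, .add 6 1, .mul 203 104, .mul 204 119, .add 3 1,
    .sub 3 1, .add 163 50, .sub 0 19, .mul 204 0, .mul 201 1, .sub 30 1, .sub 26 1, .mul 262 114,
    .mul 263 129, .sub 102 1, .add 89 1, .mul 248 1, .mul 249 1, .sub 7 1, .sub 7 1, .sub 1 15,
    .sub 1 15, .mul 254 47, .cst 6 0, .mul 1 0, .mul 273 204, .mul 276 1, .sub 0 1, .mul 260 260,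
    .mul 291 211, .mul 293 217, .add 1 0, .mul 270 0, .mul 270 1, .mul 216 45, .mul 222 45,
    .sub 0 1, .mul 233 0, .mul 230 1, .sub 1 6, .sub 1 6, .mul 242 228, .mul 243 224, .add 3 1,
    .add 3 1, .mul 256 1, .mul 257 1, .sub 21 22, .mul 244 0, .mul 241 1, .add 4 1, .add 4 1,
    .mul 300 31, .mul 301 31, .sub 1 112, .sub 1 104, .mul 32 27, .mul 2 0, .mul 2 1, .add 8 1,
    .add 8 1]
    [v128, v127, v126, v125, v124, v123, v122, v121, v120, v119, v118, v117, v116, v115, v114,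
    v113, v112, v111, v110, v109, v108, v107, v106, v105, v104, v103, v102, v101, v100, v99, v98,
    v97, v96, v95, v94, v93, v92, v91, v90, v89, v88, v87, v86, v85, v84, v83, v82, v81, v80,
    v79, v78, v77, v76, v75, v74, v73, v72, v71, v70, v69, v68, v67, v66, v65, v64, v63, v62,
    v61, v60, v59, v58, v57, v56, v55, v54, v53, v52, v51, v50, v49, v48, v47, v46, v45, v44,
    v43, v42, v41, v40, v39, v38, v37, v36, v35, v34, v33, v32, v31, v30, v29, v28, v27, v26,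
    v25, v24, v23, v22, v21, v20, v19, v18, v17, v16, v15, v14, v13, v12, v11, v10, v9, v8, v7,
    v6, v5, v4, v3, v2, v1, v0]
    (pE2_valQ P l r s)) :
    OutEq (run (realAlg (fun i => get 0 (P.syl l) i) (r) (s)) pE2 []) pE2_out
      [P.E12 1 ⟨r, s⟩ (ηd 2 (P.ys + ⟨r, s⟩) - (P.V0 + P.DV ⟨r, s⟩) * ((1 - 2 * dt (uu 2) (P.ys + ⟨r, s⟩)) : ℝ)) (ηd 2 (P.ys + ⟨r, s⟩) - P.V0 / (P.fs : ℂ) * ((1 - 2 * dt (uu 2) (P.ys + ⟨r, s⟩)) * (P.fs + dt P.ns ⟨r, s⟩) : ℝ)) (1 - 2 * dt (uu 2) (P.ys + ⟨r, s⟩)),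
      (P.G6 1 ⟨r, s⟩ (ηd 2 (P.ys + ⟨r, s⟩) - (P.V0 + P.DV ⟨r, s⟩) * ((1 - 2 * dt (uu 2) (P.ys + ⟨r, s⟩)) : ℝ)) (ηd 2 (P.ys + ⟨r, s⟩) - P.V0 / (P.fs : ℂ) * ((1 - 2 * dt (uu 2) (P.ys + ⟨r, s⟩)) * (P.fs + dt P.ns ⟨r, s⟩) : ℝ)) (1 - 2 * dt (uu 2) (P.ys + ⟨r, s⟩))).re,
      (P.G6 1 ⟨r, s⟩ (ηd 2 (P.ys + ⟨r, s⟩) - (P.V0 + P.DV ⟨r, s⟩) * ((1 - 2 * dt (uu 2) (P.ys + ⟨r, s⟩)) : ℝ)) (ηd 2 (P.ys + ⟨r, s⟩) - P.V0 / (P.fs : ℂ) * ((1 - 2 * dt (uu 2) (P.ys + ⟨r, s⟩)) * (P.fs + dt P.ns ⟨r, s⟩) : ℝ)) (1 - 2 * dt (uu 2) (P.ys + ⟨r, s⟩))).im, P.fr 1 ⟨r, s⟩] := by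
  obtain ⟨v129, h129, h⟩ := h
  change v129 = P.c.a21 at h129
  obtain ⟨v130, h130, h⟩ := h
  change v130 = v61 * v129 at h130
  obtain ⟨v131, h131, h⟩ := h
  change v131 = 2 * P.c.a12 at h131
  obtain ⟨v132, h132, h⟩ := h
  change v132 = v62 * v131 at h132
  obtain ⟨v133, h133, h⟩ := h
  change v133 = v130 + v132 at h133
  obtain ⟨v134, h134, h⟩ := h
  change v134 = 3 * P.c.a03 at h134
  obtain ⟨v135, h135, h⟩ := h
  change v135 = v63 * v134 at h135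
  obtain ⟨v136, h136, h⟩ := h
  change v136 = v133 + v135 at h136
  obtain ⟨v137, h137, h⟩ := h
  change v137 = v128 + v136 at h137
  obtain ⟨Ax, e_Ax_d⟩ : ∃ q : ℂ, q = VAxr P.c 1 X := ⟨_, rfl⟩
  have e_Ax_re : v124 = Ax.re := by
    rw [e_Ax_d]
    simp only [VAxr_re, VAxr_im, h124, h123, h122, h121, h120, h119, h118, h117, h116, h115, h114, h113, h112, h111, h63, h62, h61, e_X_im, e_X_re, mul_re, mul_im, add_re, add_im, sub_re, sub_im, neg_re, neg_im, I_re, I_im, ofReal_re,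
      ofReal_im, one_re, one_im, zero_re, zero_im, dt, normSq_apply, re_ofNat, im_ofNat, conj_re, conj_im]
    try ring
  have e_Ax_im : v137 = Ax.im := by
    rw [e_Ax_d]
    simp only [VAxr_re, VAxr_im, h137, h136, h135, h134, h133, h132, h131, h130, h129, h128, h127, h126, h125, h113, h63, h62, h61, e_X_im, e_X_re, mul_re, mul_im, add_re, add_im, sub_re, sub_im, neg_re, neg_im, I_re, I_im, ofReal_re,
      ofReal_im, one_re, one_im, zero_re, zero_im, dt, normSq_apply, re_ofNat, im_ofNat, conj_re, conj_im]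
    try ring
  obtain ⟨v138, h138, h⟩ := h
  change v138 = P.c.b11 at h138
  obtain ⟨v139, h139, h⟩ := h
  change v139 = v0 * v138 at h139
  obtain ⟨v140, h140, h⟩ := h
  change v140 = P.c.b12 at h140
  obtain ⟨v141, h141, h⟩ := h
  change v141 = v1 * v140 at h141
  obtain ⟨v142, h142, h⟩ := h
  change v142 = v139 + v141 at h142
  obtain ⟨v143, h143, h⟩ := h
  change v143 = P.c.q1 at h143
  obtain ⟨v144, h144, h⟩ := h
  change v144 = v61 * v143 at h144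
  obtain ⟨v145, h145, h⟩ := h
  change v145 = P.c.q2 at h145
  obtain ⟨v146, h146, h⟩ := h
  change v146 = v62 * v145 at h146
  obtain ⟨v147, h147, h⟩ := h
  change v147 = v144 + v146 at h147
  obtain ⟨v148, h148, h⟩ := h
  change v148 = P.c.q3 at h148
  obtain ⟨v149, h149, h⟩ := h
  change v149 = v63 * v148 at h149
  obtain ⟨v150, h150, h⟩ := h
  change v150 = v147 + v149 at h150
  obtain ⟨v151, h151, h⟩ := h
  change v151 = v142 + v150 at h151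
  obtain ⟨v152, h152, h⟩ := h
  change v152 = P.c.b21 at h152
  obtain ⟨v153, h153, h⟩ := h
  change v153 = v0 * v152 at h153
  obtain ⟨v154, h154, h⟩ := h
  change v154 = P.c.b22 at h154
  obtain ⟨v155, h155, h⟩ := h
  change v155 = v1 * v154 at h155
  obtain ⟨v156, h156, h⟩ := h
  change v156 = v153 + v155 at h156
  obtain ⟨v157, h157, h⟩ := h
  change v157 = P.c.q4 at h157
  obtain ⟨v158, h158, h⟩ := h
  change v158 = v61 * v157 at h158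
  obtain ⟨v159, h159, h⟩ := h
  change v159 = P.c.q5 at h159
  obtain ⟨v160, h160, h⟩ := h
  change v160 = v62 * v159 at h160
  obtain ⟨v161, h161, h⟩ := h
  change v161 = v158 + v160 at h161
  obtain ⟨v162, h162, h⟩ := h
  change v162 = P.c.q6 at h162
  obtain ⟨v163, h163, h⟩ := h
  change v163 = v63 * v162 at h163
  obtain ⟨v164, h164, h⟩ := h
  change v164 = v161 + v163 at h164
  obtain ⟨v165, h165, h⟩ := h
  change v165 = v156 + v164 at h165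
  obtain ⟨B, e_B_d⟩ : ∃ q : ℂ, q = VBr P.c 1 X := ⟨_, rfl⟩
  have e_B_re : v151 = B.re := by
    rw [e_B_d]
    simp only [VBr_re, VBr_im, h151, h150, h149, h148, h147, h146, h145, h144, h143, h142, h141, h140, h139, h138, h63, h62, h61, e_X_im, e_X_re, mul_re, mul_im, add_re, add_im, sub_re, sub_im, neg_re, neg_im, I_re, I_im, ofReal_re,
      ofReal_im, one_re, one_im, zero_re, zero_im, dt, normSq_apply, re_ofNat, im_ofNat, conj_re, conj_im]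
    try ring
  have e_B_im : v165 = B.im := by
    rw [e_B_d]
    simp only [VBr_re, VBr_im, h165, h164, h163, h162, h161, h160, h159, h158, h157, h156, h155, h154, h153, h152, h63, h62, h61, e_X_im, e_X_re, mul_re, mul_im, add_re, add_im, sub_re, sub_im, neg_re, neg_im, I_re, I_im, ofReal_re,
      ofReal_im, one_re, one_im, zero_re, zero_im, dt, normSq_apply, re_ofNat, im_ofNat, conj_re, conj_im]
    try ring
  obtain ⟨v166, h166, h⟩ := h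
  change v166 = P.cs.b11 at h166
  obtain ⟨v167, h167, h⟩ := h
  change v167 = v0 * v166 at h167
  obtain ⟨v168, h168, h⟩ := h
  change v168 = P.cs.b12 at h168
  obtain ⟨v169, h169, h⟩ := h
  change v169 = v1 * v168 at h169
  obtain ⟨v170, h170, h⟩ := h
  change v170 = v167 + v169 at h170
  obtain ⟨v171, h171, h⟩ := h
  change v171 = P.cs.q1 at h171
  obtain ⟨v172, h172, h⟩ := h
  change v172 = v61 * v171 at h172
  obtain ⟨v173, h173, h⟩ := h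
  change v173 = P.cs.q2 at h173
  obtain ⟨v174, h174, h⟩ := h
  change v174 = v62 * v173 at h174
  obtain ⟨v175, h175, h⟩ := h
  change v175 = v172 + v174 at h175
  obtain ⟨v176, h176, h⟩ := h
  change v176 = P.cs.q3 at h176
  obtain ⟨v177, h177, h⟩ := h
  change v177 = v63 * v176 at h177
  obtain ⟨v178, h178, h⟩ := h
  change v178 = v175 + v177 at h178
  obtain ⟨v179, h179, h⟩ := h
  change v179 = v170 + v178 at h179
  obtain ⟨v180, h180, h⟩ := h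
  change v180 = P.cs.b21 at h180
  obtain ⟨v181, h181, h⟩ := h
  change v181 = v0 * v180 at h181
  obtain ⟨v182, h182, h⟩ := h
  change v182 = P.cs.b22 at h182
  obtain ⟨v183, h183, h⟩ := h
  change v183 = v1 * v182 at h183
  obtain ⟨v184, h184, h⟩ := h
  change v184 = v181 + v183 at h184
  obtain ⟨v185, h185, h⟩ := h
  change v185 = P.cs.q4 at h185
  obtain ⟨v186, h186, h⟩ := h
  change v186 = v61 * v185 at h186
  obtain ⟨v187, h187, h⟩ := h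
  change v187 = P.cs.q5 at h187
  obtain ⟨v188, h188, h⟩ := h
  change v188 = v62 * v187 at h188
  obtain ⟨v189, h189, h⟩ := h
  change v189 = v186 + v188 at h189
  obtain ⟨v190, h190, h⟩ := h
  change v190 = P.cs.q6 at h190
  obtain ⟨v191, h191, h⟩ := h
  change v191 = v63 * v190 at h191
  obtain ⟨v192, h192, h⟩ := h
  change v192 = v189 + v191 at h192
  obtain ⟨v193, h193, h⟩ := h
  change v193 = v184 + v192 at h193
  obtain ⟨Bs, e_Bs_d⟩ : ∃ q : ℂ, q = VBr P.cs 1 X := ⟨_, rfl⟩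
  have e_Bs_re : v179 = Bs.re := by
    rw [e_Bs_d]
    simp only [VBr_re, VBr_im, h179, h178, h177, h176, h175, h174, h173, h172, h171, h170, h169, h168, h167, h166, h63, h62, h61, e_X_im, e_X_re, mul_re, mul_im, add_re, add_im, sub_re, sub_im, neg_re, neg_im, I_re, I_im, ofReal_re,
      ofReal_im, one_re, one_im, zero_re, zero_im, dt, normSq_apply, re_ofNat, im_ofNat, conj_re, conj_im]
    try ring
  have e_Bs_im : v193 = Bs.im := by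
    rw [e_Bs_d]
    simp only [VBr_re, VBr_im, h193, h192, h191, h190, h189, h188, h187, h186, h185, h184, h183, h182, h181, h180, h63, h62, h61, e_X_im, e_X_re, mul_re, mul_im, add_re, add_im, sub_re, sub_im, neg_re, neg_im, I_re, I_im, ofReal_re,
      ofReal_im, one_re, one_im, zero_re, zero_im, dt, normSq_apply, re_ofNat, im_ofNat, conj_re, conj_im]
    try ring
  obtain ⟨v194, h194, h⟩ := h
  change v194 = v0 * v59 at h194
  obtain ⟨v195, h195, h⟩ := h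
  change v195 = v17 * v194 at h195
  obtain ⟨v196, h196, h⟩ := h
  change v196 = v0 * v60 at h196
  obtain ⟨v197, h197, h⟩ := h
  change v197 = v1 * v59 at h197
  obtain ⟨v198, h198, h⟩ := h
  change v198 = v197 - v196 at h198
  exact pE2_val_s4
    P l r s v0 v1 X e_X_d e_X_re e_X_im v2 v3 v4 v5 y0 e_y0_d v6 v7 v8 v9 v10 v11 v12 v13 w e_w_d
    v14 v15 v16 v17 h17 v18 v19 d e_d_d e_d_v v20 v21 v22 v23 v24 v25 v26 v27 v28 ηL e_ηL_d v29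
    h29 v30 h30 v31 v32 v33 e e_e_d e_e_v v34 v35 f e_f_d e_f_v v36 v37 v38 v39 v40 v41 v42 v43
    v44 v45 v46 v47 v48 v49 v50 v51 v52 v53 T e_T_d e_T_re e_T_im v54 h54 v55 h55 v56 h56 v57 v58
    v59 v60 U e_U_d e_U_re e_U_im y e_y_d e_y_re e_y_im v61 v62 v63 v64 v65 v66 k e_k_d e_k_v v67
    v68 v69 v70 v71 v72 v73 v74 v75 fv e_fv_d e_fv_re e_fv_im v76 v77 v78 v79 v80 v81 v82 v83 v84
    v85 M e_M_d iM e_iM_d e_iM_re e_iM_im v86 v87 v88 nM e_nM_d e_nM_v v89 v90 v91 v92 v93 v94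
    v95 v96 v97 v98 v99 v100 v101 v102 v103 v104 v105 v106 v107 v108 v109 v110 As e_As_d e_As_v
    v111 v112 v113 v114 v115 v116 v117 v118 v119 v120 v121 v122 v123 v124 v125 v126 v127 v128
    v129 v130 v131 v132 v133 v134 v135 v136 v137 Ax e_Ax_d e_Ax_re e_Ax_im v138 h138 v139 v140
    h140 v141 v142 v143 h143 v144 v145 h145 v146 v147 v148 h148 v149 v150 v151 v152 h152 v153
    v154 h154 v155 v156 v157 h157 v158 v159 h159 v160 v161 v162 h162 v163 v164 v165 B e_B_d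
    e_B_re e_B_im v166 v167 v168 v169 v170 v171 v172 v173 v174 v175 v176 v177 v178 v179 v180 v181
    v182 v183 v184 v185 v186 v187 v188 v189 v190 v191 v192 v193 Bs e_Bs_d e_Bs_re e_Bs_im v194
    h194 v195 h195 v196 h196 v197 h197 v198 h198 h

theorem pE2_val_s2 (P : Pt) (l : List ℝ) (r s : ℝ)
    (v0 : ℝ) (v1 : ℝ) (X : ℂ) (e_X_d : X = (⟨r, s⟩ : ℂ)) (e_X_re : v0 = X.re)
    (e_X_im : v1 = X.im) (v2 : ℝ) (v3 : ℝ) (v4 : ℝ) (v5 : ℝ) (y0 : ℂ) (e_y0_d : y0 = P.ys + X)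
    (v6 : ℝ) (v7 : ℝ) (v8 : ℝ) (v9 : ℝ) (v10 : ℝ) (v11 : ℝ) (v12 : ℝ) (v13 : ℝ) (w : ℝ)
    (e_w_d : w = 1 - normSq y0) (v14 : ℝ) (v15 : ℝ) (v16 : ℝ) (v17 : ℝ) (h17 : v17 = (2 : ℝ))
    (v18 : ℝ) (v19 : ℝ) (d : ℝ) (e_d_d : d = 1 - 2 * dt (uu 2) y0) (e_d_v : v19 = d) (v20 : ℝ)
    (v21 : ℝ) (v22 : ℝ) (v23 : ℝ) (v24 : ℝ) (v25 : ℝ) (v26 : ℝ) (v27 : ℝ) (v28 : ℝ) (ηL : ℂ)
    (e_ηL_d : ηL = I * (w : ℂ) * (((2 * w : ℝ) : ℂ) * uu 2 - (d : ℂ) * y0)) (v29 : ℝ)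
    (h29 : v29 = P.ns.re) (v30 : ℝ) (h30 : v30 = P.ns.im) (v31 : ℝ) (v32 : ℝ) (v33 : ℝ) (e : ℝ)
    (e_e_d : e = dt P.ns X) (e_e_v : v33 = e) (v34 : ℝ) (v35 : ℝ) (f : ℝ)
    (e_f_d : f = P.fs + e * 1) (e_f_v : v35 = f) (v36 : ℝ) (v37 : ℝ) (v38 : ℝ) (v39 : ℝ)
    (v40 : ℝ) (v41 : ℝ) (v42 : ℝ) (v43 : ℝ) (v44 : ℝ) (v45 : ℝ) (v46 : ℝ) (v47 : ℝ) (v48 : ℝ)
    (v49 : ℝ) (v50 : ℝ) (v51 : ℝ) (v52 : ℝ) (v53 : ℝ) (T : ℂ)
    (e_T_d : T = ηL - (P.V0 + P.DV X) * (d : ℂ)) (e_T_re : v52 = T.re) (e_T_im : v53 = -T.im)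
    (v54 : ℝ) (h54 : v54 = (P.V0 / (P.fs : ℂ)).re) (v55 : ℝ) (h55 : v55 = (P.V0 / (P.fs : ℂ)).im)
    (v56 : ℝ) (h56 : v56 = v19 * v35) (v57 : ℝ) (v58 : ℝ) (v59 : ℝ) (v60 : ℝ) (U : ℂ)
    (e_U_d : U = ηL - P.V0 / (P.fs : ℂ) * ((d * (P.fs + e) : ℝ) : ℂ)) (e_U_re : v59 = U.re)
    (e_U_im : v60 = -U.im) (y : ℂ) (e_y_d : y = P.ys + X * ((1 : ℝ) : ℂ)) (e_y_re : v4 = y.re)
    (e_y_im : v5 = y.im)
    (h : TrE (realAlg (fun i => get 0 (P.syl l) i) (r) (s))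
    [.mul 60 60, .mul 61 60, .mul 61 61, .mul 59 34, .mul 59 34, .add 1 0, .base 16, .mul 63 0,
    .base 17, .mul 64 0, .add 2 0, .mul 67 2, .base 18, .mul 68 0, .add 2 0, .base 19, .mul 76 0,
    .base 20, .mul 77 0, .add 2 0, .base 21, .mul 81 0, .base 22, .mul 82 0, .add 2 0, .mul 5 5,
    .mul 1 1, .add 1 0, .base 45, .mul 89 0, .base 46, .mul 90 0, .add 2 0, .mul 32 0, .base 47,
    .mul 95 0, .base 48, .mul 96 0, .add 2 0, .mul 36 0, .add 6 0, .base 42, .mul 41 0, .base 43,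
    .mul 42 0, .add 2 0, .base 44, .mul 44 0, .add 2 0, .add 8 0, .base 33, .mul 111 0, .base 34,
    .mul 112 0, .add 2 0, .base 36, .mul 55 0, .base 37, .mul 56 0, .add 2 0, .base 38,
    .mul 58 0, .add 2 0, .add 8 0, .mul 124 11, .base 35, .mul 125 0, .add 2 0, .base 39,
    .mul 68 0, .base 40, .mul 69 0, .add 2 0, .base 41, .mul 71 0, .add 2 0, .add 8 0, .base 49,
    .mul 138 0, .base 50, .mul 139 0, .add 2 0, .base 53, .mul 82 0, .base 54, .mul 83 0,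
    .add 2 0, .base 55, .mul 85 0, .add 2 0, .add 8 0, .base 51, .mul 152 0, .base 52,
    .mul 153 0, .add 2 0, .base 56, .mul 96 0, .base 57, .mul 97 0, .add 2 0, .base 58,
    .mul 99 0, .add 2 0, .add 8 0, .base 59, .mul 166 0, .base 60, .mul 167 0, .add 2 0,
    .base 63, .mul 110 0, .base 64, .mul 111 0, .add 2 0, .base 65, .mul 113 0, .add 2 0,
    .add 8 0, .base 61, .mul 180 0, .base 62, .mul 181 0, .add 2 0, .base 66, .mul 124 0,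
    .base 67, .mul 125 0, .add 2 0, .base 68, .mul 127 0, .add 2 0, .add 8 0, .mul 193 134,
    .mul 177 0, .mul 195 135, .mul 195 137, .sub 0 1, .mul 197 138, .mul 182 0, .mul 141 62,
    .mul 141 61, .sub 1 0, .mul 60 8, .mul 59 6, .add 1 0, .mul 58 6, .sub 1 0, .add 5 0,
    .mul 150 57, .mul 150 56, .sub 1 0, .mul 55 17, .mul 54 15, .add 1 0, .mul 53 15, .sub 1 0,
    .add 5 0, .base 31, .base 32, .mul 220 1, .mul 220 1, .add 1 0, .base 29, .base 30,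
    .mul 173 1, .mul 173 1, .sub 1 0, .mul 195 5, .mul 194 119, .add 1 0, .mul 212 0, .add 4 0,
    .mul 174 109, .mul 174 97, .sub 1 0, .add 3 0, .mul 152 86, .mul 158 73, .sub 0 1,
    .mul 221 0, .sub 0 4, .base 23, .mul 243 0, .base 24, .mul 244 0, .add 2 0, .base 25,
    .mul 248 0, .base 26, .mul 249 0, .add 2 0, .mul 198 128, .mul 198 116, .add 1 0, .base 27,
    .base 28, .mul 252 106, .mul 254 93, .sub 1 0, .mul 231 0, .mul 231 1, .mul 111 6, .mul 98 6,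
    .add 1 0, .mul 194 0, .mul 191 1, .add 6 1, .add 6 1, .mul 203 104, .mul 204 119, .add 3 1,
    .sub 3 1, .add 163 50, .sub 0 19, .mul 204 0, .mul 201 1, .sub 30 1, .sub 26 1, .mul 262 114,
    .mul 263 129, .sub 102 1, .add 89 1, .mul 248 1, .mul 249 1, .sub 7 1, .sub 7 1, .sub 1 15,
    .sub 1 15, .mul 254 47, .cst 6 0, .mul 1 0, .mul 273 204, .mul 276 1, .sub 0 1, .mul 260 260,
    .mul 291 211, .mul 293 217, .add 1 0, .mul 270 0, .mul 270 1, .mul 216 45, .mul 222 45,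
    .sub 0 1, .mul 233 0, .mul 230 1, .sub 1 6, .sub 1 6, .mul 242 228, .mul 243 224, .add 3 1,
    .add 3 1, .mul 256 1, .mul 257 1, .sub 21 22, .mul 244 0, .mul 241 1, .add 4 1, .add 4 1,
    .mul 300 31, .mul 301 31, .sub 1 112, .sub 1 104, .mul 32 27, .mul 2 0, .mul 2 1, .add 8 1,
    .add 8 1]
    [v60, v59, v58, v57, v56, v55, v54, v53, v52, v51, v50, v49, v48, v47, v46, v45, v44, v43,
    v42, v41, v40, v39, v38, v37, v36, v35, v34, v33, v32, v31, v30, v29, v28, v27, v26, v25,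
    v24, v23, v22, v21, v20, v19, v18, v17, v16, v15, v14, v13, v12, v11, v10, v9, v8, v7, v6,
    v5, v4, v3, v2, v1, v0]
    (pE2_valQ P l r s)) :
    OutEq (run (realAlg (fun i => get 0 (P.syl l) i) (r) (s)) pE2 []) pE2_out
      [P.E12 1 ⟨r, s⟩ (ηd 2 (P.ys + ⟨r, s⟩) - (P.V0 + P.DV ⟨r, s⟩) * ((1 - 2 * dt (uu 2) (P.ys + ⟨r, s⟩)) : ℝ)) (ηd 2 (P.ys + ⟨r, s⟩) - P.V0 / (P.fs : ℂ) * ((1 - 2 * dt (uu 2) (P.ys + ⟨r, s⟩)) * (P.fs + dt P.ns ⟨r, s⟩) : ℝ)) (1 - 2 * dt (uu 2) (P.ys + ⟨r, s⟩)),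
      (P.G6 1 ⟨r, s⟩ (ηd 2 (P.ys + ⟨r, s⟩) - (P.V0 + P.DV ⟨r, s⟩) * ((1 - 2 * dt (uu 2) (P.ys + ⟨r, s⟩)) : ℝ)) (ηd 2 (P.ys + ⟨r, s⟩) - P.V0 / (P.fs : ℂ) * ((1 - 2 * dt (uu 2) (P.ys + ⟨r, s⟩)) * (P.fs + dt P.ns ⟨r, s⟩) : ℝ)) (1 - 2 * dt (uu 2) (P.ys + ⟨r, s⟩))).re,
      (P.G6 1 ⟨r, s⟩ (ηd 2 (P.ys + ⟨r, s⟩) - (P.V0 + P.DV ⟨r, s⟩) * ((1 - 2 * dt (uu 2) (P.ys + ⟨r, s⟩)) : ℝ)) (ηd 2 (P.ys + ⟨r, s⟩) - P.V0 / (P.fs : ℂ) * ((1 - 2 * dt (uu 2) (P.ys + ⟨r, s⟩)) * (P.fs + dt P.ns ⟨r, s⟩) : ℝ)) (1 - 2 * dt (uu 2) (P.ys + ⟨r, s⟩))).im, P.fr 1 ⟨r, s⟩] := by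
  obtain ⟨v61, h61, h⟩ := h
  change v61 = v0 * v0 at h61
  obtain ⟨v62, h62, h⟩ := h
  change v62 = v0 * v1 at h62
  obtain ⟨v63, h63, h⟩ := h
  change v63 = v1 * v1 at h63
  obtain ⟨v64, h64, h⟩ := h
  change v64 = v4 * v29 at h64
  obtain ⟨v65, h65, h⟩ := h
  change v65 = v5 * v30 at h65
  obtain ⟨v66, h66, h⟩ := h
  change v66 = v64 + v65 at h66
  obtain ⟨k, e_k_d⟩ : ∃ q : ℝ, q = dt y P.ns := ⟨_, rfl⟩
  have e_k_v : v66 = k := by
    rw [e_k_d]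
    simp only [h66, h65, h64, h30, h29, e_y_im, e_y_re, mul_re, mul_im, add_re, add_im, sub_re, sub_im, neg_re, neg_im, I_re, I_im, ofReal_re,
      ofReal_im, one_re, one_im, zero_re, zero_im, dt, normSq_apply, re_ofNat, im_ofNat, conj_re, conj_im]
    try ring
  obtain ⟨v67, h67, h⟩ := h
  change v67 = (P.fv 1).re at h67
  obtain ⟨v68, h68, h⟩ := h
  change v68 = v4 * v67 at h68
  obtain ⟨v69, h69, h⟩ := h
  change v69 = (P.fv 1).im at h69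
  obtain ⟨v70, h70, h⟩ := h
  change v70 = v5 * v69 at h70
  obtain ⟨v71, h71, h⟩ := h
  change v71 = v68 + v70 at h71
  obtain ⟨v72, h72, h⟩ := h
  change v72 = v4 * v69 at h72
  obtain ⟨v73, h73, h⟩ := h
  change v73 = (P.fv I).im at h73
  obtain ⟨v74, h74, h⟩ := h
  change v74 = v5 * v73 at h74
  obtain ⟨v75, h75, h⟩ := h
  change v75 = v72 + v74 at h75
  obtain ⟨fv, e_fv_d⟩ : ∃ q : ℂ, q = P.fv y := ⟨_, rfl⟩
  have e_fv_re : v71 = fv.re := by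
    rw [e_fv_d]
    simp only [fv_re P y, fv_im P y, h71, h70, h69, h68, h67, e_y_im, e_y_re, mul_re, mul_im, add_re, add_im, sub_re, sub_im, neg_re, neg_im, I_re, I_im, ofReal_re,
      ofReal_im, one_re, one_im, zero_re, zero_im, dt, normSq_apply, re_ofNat, im_ofNat, conj_re, conj_im]
    try ring
  have e_fv_im : v75 = fv.im := by
    rw [e_fv_d]
    simp only [fv_re P y, fv_im P y, h75, h74, h73, h72, h69, e_y_im, e_y_re, mul_re, mul_im, add_re, add_im, sub_re, sub_im, neg_re, neg_im, I_re, I_im, ofReal_re,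
      ofReal_im, one_re, one_im, zero_re, zero_im, dt, normSq_apply, re_ofNat, im_ofNat, conj_re, conj_im]
    try ring
  obtain ⟨v76, h76, h⟩ := h
  change v76 = (P.M 1).re at h76
  obtain ⟨v77, h77, h⟩ := h
  change v77 = v0 * v76 at h77
  obtain ⟨v78, h78, h⟩ := h
  change v78 = (P.M I).re at h78
  obtain ⟨v79, h79, h⟩ := h
  change v79 = v1 * v78 at h79
  obtain ⟨v80, h80, h⟩ := h
  change v80 = v77 + v79 at h80
  obtain ⟨v81, h81, h⟩ := h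
  change v81 = (P.M 1).im at h81
  obtain ⟨v82, h82, h⟩ := h
  change v82 = v0 * v81 at h82
  obtain ⟨v83, h83, h⟩ := h
  change v83 = (P.M I).im at h83
  obtain ⟨v84, h84, h⟩ := h
  change v84 = v1 * v83 at h84
  obtain ⟨v85, h85, h⟩ := h
  change v85 = v82 + v84 at h85
  obtain ⟨M, e_M_d⟩ : ∃ q : ℂ, q = P.M X := ⟨_, rfl⟩
  have e_M_re : v80 = M.re := by
    rw [e_M_d]
    simp only [M_re P X, M_im P X, h80, h79, h78, h77, h76, e_X_im, e_X_re, mul_re, mul_im, add_re, add_im, sub_re, sub_im, neg_re, neg_im, I_re, I_im, ofReal_re,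
      ofReal_im, one_re, one_im, zero_re, zero_im, dt, normSq_apply, re_ofNat, im_ofNat, conj_re, conj_im]
    try ring
  have e_M_im : v85 = M.im := by
    rw [e_M_d]
    simp only [M_re P X, M_im P X, h85, h84, h83, h82, h81, e_X_im, e_X_re, mul_re, mul_im, add_re, add_im, sub_re, sub_im, neg_re, neg_im, I_re, I_im, ofReal_re,
      ofReal_im, one_re, one_im, zero_re, zero_im, dt, normSq_apply, re_ofNat, im_ofNat, conj_re, conj_im]
    try ring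
  obtain ⟨iM, e_iM_d⟩ : ∃ q : ℂ, q = I * M := ⟨_, rfl⟩
  have e_iM_re : v85 = -iM.re := by
    rw [e_iM_d]
    simp only [e_M_im, mul_re, mul_im, add_re, add_im, sub_re, sub_im, neg_re, neg_im, I_re, I_im, ofReal_re,
      ofReal_im, one_re, one_im, zero_re, zero_im, dt, normSq_apply, re_ofNat, im_ofNat, conj_re, conj_im]
    try ring
  have e_iM_im : v80 = iM.im := by
    rw [e_iM_d]
    simp only [e_M_re, mul_re, mul_im, add_re, add_im, sub_re, sub_im, neg_re, neg_im, I_re, I_im, ofReal_re,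
      ofReal_im, one_re, one_im, zero_re, zero_im, dt, normSq_apply, re_ofNat, im_ofNat, conj_re, conj_im]
    try ring
  obtain ⟨v86, h86, h⟩ := h
  change v86 = v80 * v80 at h86
  obtain ⟨v87, h87, h⟩ := h
  change v87 = v85 * v85 at h87
  obtain ⟨v88, h88, h⟩ := h
  change v88 = v86 + v87 at h88
  obtain ⟨nM, e_nM_d⟩ : ∃ q : ℝ, q = normSq M := ⟨_, rfl⟩
  have e_nM_v : v88 = nM := by
    rw [e_nM_d]
    simp only [h88, h87, h86, e_M_im, e_M_re, mul_re, mul_im, add_re, add_im, sub_re, sub_im, neg_re, neg_im, I_re, I_im, ofReal_re,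
      ofReal_im, one_re, one_im, zero_re, zero_im, dt, normSq_apply, re_ofNat, im_ofNat, conj_re, conj_im]
    try ring
  obtain ⟨v89, h89, h⟩ := h
  change v89 = P.cs.a30 at h89
  obtain ⟨v90, h90, h⟩ := h
  change v90 = v0 * v89 at h90
  obtain ⟨v91, h91, h⟩ := h
  change v91 = P.cs.a21 at h91
  obtain ⟨v92, h92, h⟩ := h
  change v92 = v1 * v91 at h92
  obtain ⟨v93, h93, h⟩ := h
  change v93 = v90 + v92 at h93
  obtain ⟨v94, h94, h⟩ := h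
  change v94 = v61 * v93 at h94
  obtain ⟨v95, h95, h⟩ := h
  change v95 = P.cs.a12 at h95
  obtain ⟨v96, h96, h⟩ := h
  change v96 = v0 * v95 at h96
  obtain ⟨v97, h97, h⟩ := h
  change v97 = P.cs.a03 at h97
  obtain ⟨v98, h98, h⟩ := h
  change v98 = v1 * v97 at h98
  obtain ⟨v99, h99, h⟩ := h
  change v99 = v96 + v98 at h99
  obtain ⟨v100, h100, h⟩ := h
  change v100 = v63 * v99 at h100
  obtain ⟨v101, h101, h⟩ := h
  change v101 = v94 + v100 at h101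
  obtain ⟨v102, h102, h⟩ := h
  change v102 = P.cs.a20 at h102
  obtain ⟨v103, h103, h⟩ := h
  change v103 = v61 * v102 at h103
  obtain ⟨v104, h104, h⟩ := h
  change v104 = P.cs.a11 at h104
  obtain ⟨v105, h105, h⟩ := h
  change v105 = v62 * v104 at h105
  obtain ⟨v106, h106, h⟩ := h
  change v106 = v103 + v105 at h106
  obtain ⟨v107, h107, h⟩ := h
  change v107 = P.cs.a02 at h107
  obtain ⟨v108, h108, h⟩ := h
  change v108 = v63 * v107 at h108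
  obtain ⟨v109, h109, h⟩ := h
  change v109 = v106 + v108 at h109
  obtain ⟨v110, h110, h⟩ := h
  change v110 = v101 + v109 at h110
  obtain ⟨As, e_As_d⟩ : ∃ q : ℝ, q = VAr P.cs 1 X := ⟨_, rfl⟩
  have e_As_v : v110 = As := by
    rw [e_As_d]
    simp only [VAr_eq, h110, h109, h108, h107, h106, h105, h104, h103, h102, h101, h100, h99, h98, h97, h96, h95, h94, h93, h92, h91, h90, h89, h63, h62, h61, e_X_im, e_X_re, mul_re, mul_im, add_re, add_im, sub_re, sub_im, neg_re, neg_im, I_re, I_im, ofReal_re,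
      ofReal_im, one_re, one_im, zero_re, zero_im, dt, normSq_apply, re_ofNat, im_ofNat, conj_re, conj_im]
    try ring
  obtain ⟨v111, h111, h⟩ := h
  change v111 = 2 * P.c.a20 at h111
  obtain ⟨v112, h112, h⟩ := h
  change v112 = v0 * v111 at h112
  obtain ⟨v113, h113, h⟩ := h
  change v113 = P.c.a11 at h113
  obtain ⟨v114, h114, h⟩ := h
  change v114 = v1 * v113 at h114
  obtain ⟨v115, h115, h⟩ := h
  change v115 = v112 + v114 at h115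
  obtain ⟨v116, h116, h⟩ := h
  change v116 = 3 * P.c.a30 at h116
  obtain ⟨v117, h117, h⟩ := h
  change v117 = v61 * v116 at h117
  obtain ⟨v118, h118, h⟩ := h
  change v118 = 2 * P.c.a21 at h118
  obtain ⟨v119, h119, h⟩ := h
  change v119 = v62 * v118 at h119
  obtain ⟨v120, h120, h⟩ := h
  change v120 = v117 + v119 at h120
  obtain ⟨v121, h121, h⟩ := h
  change v121 = P.c.a12 at h121
  obtain ⟨v122, h122, h⟩ := h
  change v122 = v63 * v121 at h122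
  obtain ⟨v123, h123, h⟩ := h
  change v123 = v120 + v122 at h123
  obtain ⟨v124, h124, h⟩ := h
  change v124 = v115 + v123 at h124
  obtain ⟨v125, h125, h⟩ := h
  change v125 = v0 * v113 at h125
  obtain ⟨v126, h126, h⟩ := h
  change v126 = 2 * P.c.a02 at h126
  obtain ⟨v127, h127, h⟩ := h
  change v127 = v1 * v126 at h127
  obtain ⟨v128, h128, h⟩ := h
  change v128 = v125 + v127 at h128
  exact pE2_val_s3
    P l r s v0 v1 X e_X_d e_X_re e_X_im v2 v3 v4 v5 y0 e_y0_d v6 v7 v8 v9 v10 v11 v12 v13 w e_w_d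
    v14 v15 v16 v17 h17 v18 v19 d e_d_d e_d_v v20 v21 v22 v23 v24 v25 v26 v27 v28 ηL e_ηL_d v29
    h29 v30 h30 v31 v32 v33 e e_e_d e_e_v v34 v35 f e_f_d e_f_v v36 v37 v38 v39 v40 v41 v42 v43
    v44 v45 v46 v47 v48 v49 v50 v51 v52 v53 T e_T_d e_T_re e_T_im v54 h54 v55 h55 v56 h56 v57 v58
    v59 v60 U e_U_d e_U_re e_U_im y e_y_d e_y_re e_y_im v61 h61 v62 h62 v63 h63 v64 v65 v66 k
    e_k_d e_k_v v67 v68 v69 v70 v71 v72 v73 v74 v75 fv e_fv_d e_fv_re e_fv_im v76 v77 v78 v79 v80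
    v81 v82 v83 v84 v85 M e_M_d iM e_iM_d e_iM_re e_iM_im v86 v87 v88 nM e_nM_d e_nM_v v89 v90
    v91 v92 v93 v94 v95 v96 v97 v98 v99 v100 v101 v102 v103 v104 v105 v106 v107 v108 v109 v110 As
    e_As_d e_As_v v111 h111 v112 h112 v113 h113 v114 h114 v115 h115 v116 h116 v117 h117 v118 h118
    v119 h119 v120 h120 v121 h121 v122 h122 v123 h123 v124 h124 v125 h125 v126 h126 v127 h127
    v128 h128 h

theorem pE2_val (P : Pt) (l : List ℝ) (r s : ℝ) :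
    OutEq (run (realAlg (fun i => get 0 (P.syl l) i) (r) (s)) pE2 []) pE2_out
      [P.E12 1 ⟨r, s⟩ (ηd 2 (P.ys + ⟨r, s⟩) - (P.V0 + P.DV ⟨r, s⟩) * ((1 - 2 * dt (uu 2) (P.ys + ⟨r, s⟩)) : ℝ)) (ηd 2 (P.ys + ⟨r, s⟩) - P.V0 / (P.fs : ℂ) * ((1 - 2 * dt (uu 2) (P.ys + ⟨r, s⟩)) * (P.fs + dt P.ns ⟨r, s⟩) : ℝ)) (1 - 2 * dt (uu 2) (P.ys + ⟨r, s⟩)),
      (P.G6 1 ⟨r, s⟩ (ηd 2 (P.ys + ⟨r, s⟩) - (P.V0 + P.DV ⟨r, s⟩) * ((1 - 2 * dt (uu 2) (P.ys + ⟨r, s⟩)) : ℝ)) (ηd 2 (P.ys + ⟨r, s⟩) - P.V0 / (P.fs : ℂ) * ((1 - 2 * dt (uu 2) (P.ys + ⟨r, s⟩)) * (P.fs + dt P.ns ⟨r, s⟩) : ℝ)) (1 - 2 * dt (uu 2) (P.ys + ⟨r, s⟩))).re,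
      (P.G6 1 ⟨r, s⟩ (ηd 2 (P.ys + ⟨r, s⟩) - (P.V0 + P.DV ⟨r, s⟩) * ((1 - 2 * dt (uu 2) (P.ys + ⟨r, s⟩)) : ℝ)) (ηd 2 (P.ys + ⟨r, s⟩) - P.V0 / (P.fs : ℂ) * ((1 - 2 * dt (uu 2) (P.ys + ⟨r, s⟩)) * (P.fs + dt P.ns ⟨r, s⟩) : ℝ)) (1 - 2 * dt (uu 2) (P.ys + ⟨r, s⟩))).im, P.fr 1 ⟨r, s⟩] := by
  have h : TrE (realAlg (fun i => get 0 (P.syl l) i) (r) (s))
    [.x, .y, .base 0, .base 1, .add 3 1, .add 3 1, .base 78, .cst 1 1, .mul 1 0, .mul 4 4,
    .mul 4 4, .add 1 0, .cst 1 0, .sub 0 1, .mul 9 6, .mul 9 6, .add 1 0, .cst 2 0, .mul 1 0,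
    .add 0 6, .mul 6 2, .mul 13 0, .mul 13 1, .mul 18 3, .mul 18 4, .add 3 1, .add 3 1,
    .mul 13 1, .mul 14 1, .base 5, .base 6, .mul 30 1, .mul 30 1, .add 1 0, .base 15, .add 1 0,
    .base 13, .base 14, .base 7, .mul 38 0, .base 8, .mul 39 0, .add 2 0, .base 9, .mul 43 0,
    .base 10, .mul 44 0, .add 2 0, .add 11 5, .add 11 1, .mul 30 1, .mul 31 1, .sub 23 1,
    .add 25 1, .base 11, .base 12, .mul 36 20, .mul 2 0, .mul 2 1, .sub 30 1, .add 32 1,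
    .mul 60 60, .mul 61 60, .mul 61 61, .mul 59 34, .mul 59 34, .add 1 0, .base 16, .mul 63 0,
    .base 17, .mul 64 0, .add 2 0, .mul 67 2, .base 18, .mul 68 0, .add 2 0, .base 19, .mul 76 0,
    .base 20, .mul 77 0, .add 2 0, .base 21, .mul 81 0, .base 22, .mul 82 0, .add 2 0, .mul 5 5,
    .mul 1 1, .add 1 0, .base 45, .mul 89 0, .base 46, .mul 90 0, .add 2 0, .mul 32 0, .base 47,
    .mul 95 0, .base 48, .mul 96 0, .add 2 0, .mul 36 0, .add 6 0, .base 42, .mul 41 0, .base 43,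
    .mul 42 0, .add 2 0, .base 44, .mul 44 0, .add 2 0, .add 8 0, .base 33, .mul 111 0, .base 34,
    .mul 112 0, .add 2 0, .base 36, .mul 55 0, .base 37, .mul 56 0, .add 2 0, .base 38,
    .mul 58 0, .add 2 0, .add 8 0, .mul 124 11, .base 35, .mul 125 0, .add 2 0, .base 39,
    .mul 68 0, .base 40, .mul 69 0, .add 2 0, .base 41, .mul 71 0, .add 2 0, .add 8 0, .base 49,
    .mul 138 0, .base 50, .mul 139 0, .add 2 0, .base 53, .mul 82 0, .base 54, .mul 83 0,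
    .add 2 0, .base 55, .mul 85 0, .add 2 0, .add 8 0, .base 51, .mul 152 0, .base 52,
    .mul 153 0, .add 2 0, .base 56, .mul 96 0, .base 57, .mul 97 0, .add 2 0, .base 58,
    .mul 99 0, .add 2 0, .add 8 0, .base 59, .mul 166 0, .base 60, .mul 167 0, .add 2 0,
    .base 63, .mul 110 0, .base 64, .mul 111 0, .add 2 0, .base 65, .mul 113 0, .add 2 0,
    .add 8 0, .base 61, .mul 180 0, .base 62, .mul 181 0, .add 2 0, .base 66, .mul 124 0,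
    .base 67, .mul 125 0, .add 2 0, .base 68, .mul 127 0, .add 2 0, .add 8 0, .mul 193 134,
    .mul 177 0, .mul 195 135, .mul 195 137, .sub 0 1, .mul 197 138, .mul 182 0, .mul 141 62,
    .mul 141 61, .sub 1 0, .mul 60 8, .mul 59 6, .add 1 0, .mul 58 6, .sub 1 0, .add 5 0,
    .mul 150 57, .mul 150 56, .sub 1 0, .mul 55 17, .mul 54 15, .add 1 0, .mul 53 15, .sub 1 0,
    .add 5 0, .base 31, .base 32, .mul 220 1, .mul 220 1, .add 1 0, .base 29, .base 30,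
    .mul 173 1, .mul 173 1, .sub 1 0, .mul 195 5, .mul 194 119, .add 1 0, .mul 212 0, .add 4 0,
    .mul 174 109, .mul 174 97, .sub 1 0, .add 3 0, .mul 152 86, .mul 158 73, .sub 0 1,
    .mul 221 0, .sub 0 4, .base 23, .mul 243 0, .base 24, .mul 244 0, .add 2 0, .base 25,
    .mul 248 0, .base 26, .mul 249 0, .add 2 0, .mul 198 128, .mul 198 116, .add 1 0, .base 27,
    .base 28, .mul 252 106, .mul 254 93, .sub 1 0, .mul 231 0, .mul 231 1, .mul 111 6, .mul 98 6,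
    .add 1 0, .mul 194 0, .mul 191 1, .add 6 1, .add 6 1, .mul 203 104, .mul 204 119, .add 3 1,
    .sub 3 1, .add 163 50, .sub 0 19, .mul 204 0, .mul 201 1, .sub 30 1, .sub 26 1, .mul 262 114,
    .mul 263 129, .sub 102 1, .add 89 1, .mul 248 1, .mul 249 1, .sub 7 1, .sub 7 1, .sub 1 15,
    .sub 1 15, .mul 254 47, .cst 6 0, .mul 1 0, .mul 273 204, .mul 276 1, .sub 0 1, .mul 260 260,
    .mul 291 211, .mul 293 217, .add 1 0, .mul 270 0, .mul 270 1, .mul 216 45, .mul 222 45,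
    .sub 0 1, .mul 233 0, .mul 230 1, .sub 1 6, .sub 1 6, .mul 242 228, .mul 243 224, .add 3 1,
    .add 3 1, .mul 256 1, .mul 257 1, .sub 21 22, .mul 244 0, .mul 241 1, .add 4 1, .add 4 1,
    .mul 300 31, .mul 301 31, .sub 1 112, .sub 1 104, .mul 32 27, .mul 2 0, .mul 2 1, .add 8 1,
    .add 8 1] []
    (pE2_valQ P l r s) := trE_runst _ pE2
  obtain ⟨v0, h0, h⟩ := h
  change v0 = r at h0
  obtain ⟨v1, h1, h⟩ := h
  change v1 = s at h1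
  obtain ⟨X, e_X_d⟩ : ∃ q : ℂ, q = (⟨r, s⟩ : ℂ) := ⟨_, rfl⟩
  have e_X_re : v0 = X.re := by
    rw [e_X_d]
    simp only [h0, mul_re, mul_im, add_re, add_im, sub_re, sub_im, neg_re, neg_im, I_re, I_im, ofReal_re,
      ofReal_im, one_re, one_im, zero_re, zero_im, dt, normSq_apply, re_ofNat, im_ofNat, conj_re, conj_im]
    try ring
  have e_X_im : v1 = X.im := by
    rw [e_X_d]
    simp only [h1, mul_re, mul_im, add_re, add_im, sub_re, sub_im, neg_re, neg_im, I_re, I_im, ofReal_re,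
      ofReal_im, one_re, one_im, zero_re, zero_im, dt, normSq_apply, re_ofNat, im_ofNat, conj_re, conj_im]
    try ring
  obtain ⟨v2, h2, h⟩ := h
  change v2 = P.ys.re at h2
  obtain ⟨v3, h3, h⟩ := h
  change v3 = P.ys.im at h3
  obtain ⟨v4, h4, h⟩ := h
  change v4 = v0 + v2 at h4
  obtain ⟨v5, h5, h⟩ := h
  change v5 = v1 + v3 at h5
  obtain ⟨y0, e_y0_d⟩ : ∃ q : ℂ, q = P.ys + X := ⟨_, rfl⟩
  have e_y0_re : v4 = y0.re := by
    rw [e_y0_d]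
    simp only [h4, h2, e_X_re, mul_re, mul_im, add_re, add_im, sub_re, sub_im, neg_re, neg_im, I_re, I_im, ofReal_re,
      ofReal_im, one_re, one_im, zero_re, zero_im, dt, normSq_apply, re_ofNat, im_ofNat, conj_re, conj_im]
    try ring
  have e_y0_im : v5 = y0.im := by
    rw [e_y0_d]
    simp only [h5, h3, e_X_im, mul_re, mul_im, add_re, add_im, sub_re, sub_im, neg_re, neg_im, I_re, I_im, ofReal_re,
      ofReal_im, one_re, one_im, zero_re, zero_im, dt, normSq_apply, re_ofNat, im_ofNat, conj_re, conj_im]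
    try ring
  obtain ⟨v6, h6, h⟩ := h
  change v6 = s3 at h6
  obtain ⟨v7, h7, h⟩ := h
  replace h7 : v7 = (1 : ℝ) / 2 ^ 1 := by rw [h7]; norm_num [step, realAlg]
  obtain ⟨v8, h8, h⟩ := h
  change v8 = v6 * v7 at h8
  obtain ⟨v9, h9, h⟩ := h
  change v9 = v4 * v4 at h9
  obtain ⟨v10, h10, h⟩ := h
  change v10 = v5 * v5 at h10
  obtain ⟨v11, h11, h⟩ := h
  change v11 = v9 + v10 at h11
  obtain ⟨v12, h12, h⟩ := h
  replace h12 : v12 = (1 : ℝ) := by rw [h12]; norm_num [step, realAlg]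
  obtain ⟨v13, h13, h⟩ := h
  change v13 = v12 - v11 at h13
  obtain ⟨w, e_w_d⟩ : ∃ q : ℝ, q = 1 - normSq y0 := ⟨_, rfl⟩
  have e_w_v : v13 = w := by
    rw [e_w_d]
    simp only [h13, h12, h11, h10, h9, e_y0_im, e_y0_re, mul_re, mul_im, add_re, add_im, sub_re, sub_im, neg_re, neg_im, I_re, I_im, ofReal_re,
      ofReal_im, one_re, one_im, zero_re, zero_im, dt, normSq_apply, re_ofNat, im_ofNat, conj_re, conj_im]
    try ring
  obtain ⟨v14, h14, h⟩ := h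
  change v14 = v4 * v7 at h14
  obtain ⟨v15, h15, h⟩ := h
  change v15 = v5 * v8 at h15
  obtain ⟨v16, h16, h⟩ := h
  change v16 = v14 + v15 at h16
  obtain ⟨v17, h17, h⟩ := h
  replace h17 : v17 = (2 : ℝ) := by rw [h17]; norm_num [step, realAlg]
  obtain ⟨v18, h18, h⟩ := h
  change v18 = v16 * v17 at h18
  obtain ⟨v19, h19, h⟩ := h
  change v19 = v18 + v12 at h19
  obtain ⟨d, e_d_d⟩ : ∃ q : ℝ, q = 1 - 2 * dt (uu 2) y0 := ⟨_, rfl⟩
  have e_d_v : v19 = d := by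
    rw [e_d_d]
    simp only [uu2_re, uu2_im, h19, h18, h17, h16, h15, h14, h12, h8, h7, h6, e_y0_im, e_y0_re, mul_re, mul_im, add_re, add_im, sub_re, sub_im, neg_re, neg_im, I_re, I_im, ofReal_re,
      ofReal_im, one_re, one_im, zero_re, zero_im, dt, normSq_apply, re_ofNat, im_ofNat, conj_re, conj_im]
    try ring
  obtain ⟨v20, h20, h⟩ := h
  change v20 = v13 * v17 at h20
  obtain ⟨v21, h21, h⟩ := h
  change v21 = v7 * v20 at h21
  obtain ⟨v22, h22, h⟩ := h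
  change v22 = v8 * v20 at h22
  obtain ⟨v23, h23, h⟩ := h
  change v23 = v4 * v19 at h23
  obtain ⟨v24, h24, h⟩ := h
  change v24 = v5 * v19 at h24
  obtain ⟨v25, h25, h⟩ := h
  change v25 = v21 + v23 at h25
  obtain ⟨v26, h26, h⟩ := h
  change v26 = v22 + v24 at h26
  obtain ⟨v27, h27, h⟩ := h
  change v27 = v13 * v25 at h27
  obtain ⟨v28, h28, h⟩ := h
  change v28 = v13 * v26 at h28
  obtain ⟨ηL, e_ηL_d⟩ : ∃ q : ℂ, q = I * (w : ℂ) * (((2 * w : ℝ) : ℂ) * uu 2 - (d : ℂ) * y0) := ⟨_, rfl⟩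
  have e_ηL_re : v28 = ηL.re := by
    rw [e_ηL_d]
    simp only [uu2_re, uu2_im, h28, h26, h24, h22, h20, h17, h8, h7, h6, e_d_v, e_y0_im, e_w_v, mul_re, mul_im, add_re, add_im, sub_re, sub_im, neg_re, neg_im, I_re, I_im, ofReal_re,
      ofReal_im, one_re, one_im, zero_re, zero_im, dt, normSq_apply, re_ofNat, im_ofNat, conj_re, conj_im]
    try ring
  have e_ηL_im : v27 = -ηL.im := by
    rw [e_ηL_d]
    simp only [uu2_re, uu2_im, h27, h25, h23, h21, h20, h17, h7, e_d_v, e_y0_re, e_w_v, mul_re, mul_im, add_re, add_im, sub_re, sub_im, neg_re, neg_im, I_re, I_im, ofReal_re,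
      ofReal_im, one_re, one_im, zero_re, zero_im, dt, normSq_apply, re_ofNat, im_ofNat, conj_re, conj_im]
    try ring
  obtain ⟨v29, h29, h⟩ := h
  change v29 = P.ns.re at h29
  obtain ⟨v30, h30, h⟩ := h
  change v30 = P.ns.im at h30
  obtain ⟨v31, h31, h⟩ := h
  change v31 = v0 * v29 at h31
  obtain ⟨v32, h32, h⟩ := h
  change v32 = v1 * v30 at h32
  obtain ⟨v33, h33, h⟩ := h
  change v33 = v31 + v32 at h33
  obtain ⟨e, e_e_d⟩ : ∃ q : ℝ, q = dt P.ns X := ⟨_, rfl⟩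
  have e_e_v : v33 = e := by
    rw [e_e_d]
    simp only [h33, h32, h31, h30, h29, e_X_im, e_X_re, mul_re, mul_im, add_re, add_im, sub_re, sub_im, neg_re, neg_im, I_re, I_im, ofReal_re,
      ofReal_im, one_re, one_im, zero_re, zero_im, dt, normSq_apply, re_ofNat, im_ofNat, conj_re, conj_im]
    try ring
  obtain ⟨v34, h34, h⟩ := h
  change v34 = P.fs at h34
  obtain ⟨v35, h35, h⟩ := h
  change v35 = v33 + v34 at h35
  obtain ⟨f, e_f_d⟩ : ∃ q : ℝ, q = P.fs + e * 1 := ⟨_, rfl⟩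
  have e_f_v : v35 = f := by
    rw [e_f_d]
    simp only [h35, h34, e_e_v, mul_re, mul_im, add_re, add_im, sub_re, sub_im, neg_re, neg_im, I_re, I_im, ofReal_re,
      ofReal_im, one_re, one_im, zero_re, zero_im, dt, normSq_apply, re_ofNat, im_ofNat, conj_re, conj_im]
    try ring
  obtain ⟨v36, h36, h⟩ := h
  change v36 = P.V0.re at h36
  obtain ⟨v37, h37, h⟩ := h
  change v37 = P.V0.im at h37
  obtain ⟨v38, h38, h⟩ := h
  change v38 = (P.DV 1).re at h38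
  obtain ⟨v39, h39, h⟩ := h
  change v39 = v0 * v38 at h39
  obtain ⟨v40, h40, h⟩ := h
  change v40 = (P.DV I).re at h40
  obtain ⟨v41, h41, h⟩ := h
  change v41 = v1 * v40 at h41
  obtain ⟨v42, h42, h⟩ := h
  change v42 = v39 + v41 at h42
  obtain ⟨v43, h43, h⟩ := h
  change v43 = (P.DV 1).im at h43
  obtain ⟨v44, h44, h⟩ := h
  change v44 = v0 * v43 at h44
  obtain ⟨v45, h45, h⟩ := h
  change v45 = (P.DV I).im at h45
  obtain ⟨v46, h46, h⟩ := h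
  change v46 = v1 * v45 at h46
  obtain ⟨v47, h47, h⟩ := h
  change v47 = v44 + v46 at h47
  obtain ⟨v48, h48, h⟩ := h
  change v48 = v36 + v42 at h48
  obtain ⟨v49, h49, h⟩ := h
  change v49 = v37 + v47 at h49
  obtain ⟨v50, h50, h⟩ := h
  change v50 = v19 * v48 at h50
  obtain ⟨v51, h51, h⟩ := h
  change v51 = v19 * v49 at h51
  obtain ⟨v52, h52, h⟩ := h
  change v52 = v28 - v50 at h52
  obtain ⟨v53, h53, h⟩ := h
  change v53 = v27 + v51 at h53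
  obtain ⟨T, e_T_d⟩ : ∃ q : ℂ, q = ηL - (P.V0 + P.DV X) * (d : ℂ) := ⟨_, rfl⟩
  have e_T_re : v52 = T.re := by
    rw [e_T_d]
    simp only [DV_re P X, DV_im P X, h52, h50, h48, h42, h41, h40, h39, h38, h36, e_X_im, e_X_re, e_d_v, e_ηL_re, mul_re, mul_im, add_re, add_im, sub_re, sub_im, neg_re, neg_im, I_re, I_im, ofReal_re,
      ofReal_im, one_re, one_im, zero_re, zero_im, dt, normSq_apply, re_ofNat, im_ofNat, conj_re, conj_im]
    try ring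
  have e_T_im : v53 = -T.im := by
    rw [e_T_d]
    simp only [DV_re P X, DV_im P X, h53, h51, h49, h47, h46, h45, h44, h43, h37, e_X_im, e_X_re, e_d_v, e_ηL_im, mul_re, mul_im, add_re, add_im, sub_re, sub_im, neg_re, neg_im, I_re, I_im, ofReal_re,
      ofReal_im, one_re, one_im, zero_re, zero_im, dt, normSq_apply, re_ofNat, im_ofNat, conj_re, conj_im]
    try ring
  obtain ⟨v54, h54, h⟩ := h
  change v54 = (P.V0 / (P.fs : ℂ)).re at h54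
  obtain ⟨v55, h55, h⟩ := h
  change v55 = (P.V0 / (P.fs : ℂ)).im at h55
  obtain ⟨v56, h56, h⟩ := h
  change v56 = v19 * v35 at h56
  obtain ⟨v57, h57, h⟩ := h
  change v57 = v54 * v56 at h57
  obtain ⟨v58, h58, h⟩ := h
  change v58 = v55 * v56 at h58
  obtain ⟨v59, h59, h⟩ := h
  change v59 = v28 - v57 at h59
  obtain ⟨v60, h60, h⟩ := h
  change v60 = v27 + v58 at h60
  obtain ⟨U, e_U_d⟩ : ∃ q : ℂ, q = ηL - P.V0 / (P.fs : ℂ) * ((d * (P.fs + e) : ℝ) : ℂ) := ⟨_, rfl⟩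
  have e_U_re : v59 = U.re := by
    rw [e_U_d]
    simp only [h59, h57, h56, h54, h35, h34, e_e_v, e_d_v, e_ηL_re, mul_re, mul_im, add_re, add_im, sub_re, sub_im, neg_re, neg_im, I_re, I_im, ofReal_re,
      ofReal_im, one_re, one_im, zero_re, zero_im, dt, normSq_apply, re_ofNat, im_ofNat, conj_re, conj_im]
    try ring
  have e_U_im : v60 = -U.im := by
    rw [e_U_d]
    simp only [h60, h58, h56, h55, h35, h34, e_e_v, e_d_v, e_ηL_im, mul_re, mul_im, add_re, add_im, sub_re, sub_im, neg_re, neg_im, I_re, I_im, ofReal_re,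
      ofReal_im, one_re, one_im, zero_re, zero_im, dt, normSq_apply, re_ofNat, im_ofNat, conj_re, conj_im]
    try ring
  obtain ⟨y, e_y_d⟩ : ∃ q : ℂ, q = P.ys + X * ((1 : ℝ) : ℂ) := ⟨_, rfl⟩
  have e_y_re : v4 = y.re := by
    rw [e_y_d]
    simp only [h4, h2, e_X_re, mul_re, mul_im, add_re, add_im, sub_re, sub_im, neg_re, neg_im, I_re, I_im, ofReal_re,
      ofReal_im, one_re, one_im, zero_re, zero_im, dt, normSq_apply, re_ofNat, im_ofNat, conj_re, conj_im]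
    try ring
  have e_y_im : v5 = y.im := by
    rw [e_y_d]
    simp only [h5, h3, e_X_im, mul_re, mul_im, add_re, add_im, sub_re, sub_im, neg_re, neg_im, I_re, I_im, ofReal_re,
      ofReal_im, one_re, one_im, zero_re, zero_im, dt, normSq_apply, re_ofNat, im_ofNat, conj_re, conj_im]
    try ring
  exact pE2_val_s2
    P l r s v0 v1 X e_X_d e_X_re e_X_im v2 v3 v4 v5 y0 e_y0_d v6 v7 v8 v9 v10 v11 v12 v13 w e_w_d
    v14 v15 v16 v17 h17 v18 v19 d e_d_d e_d_v v20 v21 v22 v23 v24 v25 v26 v27 v28 ηL e_ηL_d v29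
    h29 v30 h30 v31 v32 v33 e e_e_d e_e_v v34 v35 f e_f_d e_f_v v36 v37 v38 v39 v40 v41 v42 v43
    v44 v45 v46 v47 v48 v49 v50 v51 v52 v53 T e_T_d e_T_re e_T_im v54 h54 v55 h55 v56 h56 v57 v58
    v59 v60 U e_U_d e_U_re e_U_im y e_y_d e_y_re e_y_im h

end Pool.H61.Rh
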