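import Pool.Agent.H61.Rz.Rr
import Pool.Agent.H61.Rz.L2

/-! # generated: program `pR0` (crude quantities j = 0, plain coordinates) -/

set_option autoImplicit false
set_option maxRecDepth 100000
set_option linter.unusedVariables false

namespace Pool.H61.Rh

open Complex Pool.H47.Kc

/-- program -/
def pR0 : List Op := [.x, .y, .mul 1 1, .mul 2 1, .mul 2 2, .base 0, .base 1, .add 6 1,
  .add 6 1, .mul 1 1, .mul 1 1, .add 1 0, .cst 1 0, .sub 0 1, .cst 2 0, .mul 7 0,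
  .sub 3 0, .mul 3 2, .mul 10 1, .mul 10 2, .sub 2 1, .mul 7 0, .mul 8 2, .base 49,
  .mul 23 0, .base 50, .mul 24 0, .add 2 0, .base 53, .mul 26 0, .base 54, .mul 27 0,
  .add 2 0, .base 55, .mul 29 0, .add 2 0, .add 8 0, .base 51, .mul 37 0, .base 52,
  .mul 38 0, .add 2 0, .base 56, .mul 40 0, .base 57, .mul 41 0, .add 2 0, .base 58,
  .mul 43 0, .add 2 0, .add 8 0, .base 33, .mul 51 0, .base 34, .mul 52 0, .add 2 0,
  .base 36, .mul 54 0, .base 37, .mul 55 0, .add 2 0, .base 38, .mul 57 0, .add 2 0,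
  .add 8 0, .mul 64 11, .base 35, .mul 65 0, .add 2 0, .base 39, .mul 67 0, .base 40,
  .mul 68 0, .add 2 0, .base 41, .mul 70 0, .add 2 0, .add 8 0, .mul 77 55, .mul 64 0,
  .mul 79 58, .mul 79 58, .add 1 0, .mul 81 61, .mul 69 0, .mul 62 61, .mul 64 60, .add 1 0,
  .mul 59 8, .mul 58 6, .add 1 0, .mul 57 6, .add 1 0, .add 5 0, .mul 71 56, .mul 73 55,
  .add 1 0, .mul 54 17, .mul 53 15, .add 1 0, .mul 52 15, .add 1 0, .add 5 0, .base 15,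
  .base 5, .base 6, .mul 105 1, .mul 105 1, .add 1 0, .add 5 0, .base 29, .base 30,
  .add 47 1, .add 35 1, .mul 91 1, .mul 93 1, .add 1 0, .base 69, .base 70, .add 68 1,
  .sub 1 83, .mul 11 1, .mul 12 1, .base 74, .mul 123 0, .base 75, .mul 124 0, .add 2 0,
  .base 76, .mul 128 0, .base 77, .mul 129 0, .add 2 0, .sub 11 5, .sub 11 1, .mul 41 25,
  .mul 33 26, .mul 120 3, .mul 121 3, .sub 3 1, .sub 3 1, .cst 1 1, .mul 125 0, .sub 0 26,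
  .mul 34 0, .base 71, .base 72, .base 73, .mul 140 0, .mul 140 1, .add 4 1, .add 4 1,
  .mul 18 1, .mul 18 1, .add 1 0, .mul 138 0, .add 11 0, .mul 149 23, .mul 149 23, .add 1 0]

/-- positions of the outputs -/
def pR0_out : List ℕ := [20, 19, 3, 0, 50]

/-- the final condition of the trace -/
def pR0_valQ (P : Pt) (l : List ℝ) (r s : ℝ) (st : List ℝ) : Prop := run (realAlg (fun i => get 0 (P.syl l) i) (r) (s)) pR0 [] = st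

theorem pR0_val_s5 (P : Pt) (l : List ℝ) (r s : ℝ)
    (v0 : ℝ) (v1 : ℝ) (X : ℂ) (e_X_d : X = (⟨r, s⟩ : ℂ)) (v2 : ℝ) (v3 : ℝ) (v4 : ℝ) (v5 : ℝ)
    (v6 : ℝ) (v7 : ℝ) (v8 : ℝ) (y : ℂ) (e_y_d : y = P.ys + X * ((1 : ℝ) : ℂ))
    (e_y_re : v7 = y.re) (e_y_im : v8 = y.im) (v9 : ℝ) (v10 : ℝ) (v11 : ℝ) (v12 : ℝ) (v13 : ℝ)
    (w : ℝ) (e_w_d : w = 1 - normSq y) (v14 : ℝ) (v15 : ℝ) (v16 : ℝ) (d : ℝ)
    (e_d_d : d = 1 - 2 * dt (uu 0) y) (e_d_v : v16 = d) (v17 : ℝ) (v18 : ℝ) (v19 : ℝ) (v20 : ℝ)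
    (v21 : ℝ) (v22 : ℝ) (ηq : ℂ)
    (e_ηq_d : ηq = I * (w : ℂ) * (((2 * w : ℝ) : ℂ) * uu 0 - (d : ℂ) * y)) (v23 : ℝ) (v24 : ℝ)
    (v25 : ℝ) (v26 : ℝ) (v27 : ℝ) (v28 : ℝ) (v29 : ℝ) (v30 : ℝ) (v31 : ℝ) (v32 : ℝ) (v33 : ℝ)
    (v34 : ℝ) (v35 : ℝ) (v36 : ℝ) (v37 : ℝ) (v38 : ℝ) (v39 : ℝ) (v40 : ℝ) (v41 : ℝ) (v42 : ℝ)
    (v43 : ℝ) (v44 : ℝ) (v45 : ℝ) (v46 : ℝ) (v47 : ℝ) (v48 : ℝ) (v49 : ℝ) (v50 : ℝ) (B : ℂ)
    (e_B_d : B = VBr P.c 1 X) (v51 : ℝ) (v52 : ℝ) (v53 : ℝ) (v54 : ℝ) (v55 : ℝ) (v56 : ℝ)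
    (v57 : ℝ) (v58 : ℝ) (v59 : ℝ) (v60 : ℝ) (v61 : ℝ) (v62 : ℝ) (v63 : ℝ) (v64 : ℝ) (v65 : ℝ)
    (v66 : ℝ) (v67 : ℝ) (v68 : ℝ) (v69 : ℝ) (v70 : ℝ) (v71 : ℝ) (v72 : ℝ) (v73 : ℝ) (v74 : ℝ)
    (v75 : ℝ) (v76 : ℝ) (v77 : ℝ) (Ax : ℂ) (e_Ax_d : Ax = VAxr P.c 1 X) (v78 : ℝ) (v79 : ℝ)
    (v80 : ℝ) (v81 : ℝ) (v82 : ℝ) (v83 : ℝ) (v84 : ℝ) (v85 : ℝ) (v86 : ℝ) (v87 : ℝ) (v88 : ℝ)
    (v89 : ℝ) (v90 : ℝ) (v91 : ℝ) (v92 : ℝ) (v93 : ℝ) (v94 : ℝ) (v95 : ℝ) (v96 : ℝ) (v97 : ℝ)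
    (v98 : ℝ) (v99 : ℝ) (v100 : ℝ) (v101 : ℝ) (v102 : ℝ) (DB : ℂ)
    (e_DB_d : DB = VBd P.c (X * ((1 : ℝ) : ℂ)) ηq) (e_DB_re : v93 = DB.re)
    (e_DB_im : v102 = DB.im) (v103 : ℝ) (v104 : ℝ) (v105 : ℝ) (v106 : ℝ) (v107 : ℝ) (v108 : ℝ)
    (v109 : ℝ) (f : ℝ) (e_f_d : f = P.fs + dt P.ns X * 1) (e_f_v : v109 = f) (v110 : ℝ)
    (v111 : ℝ) (v112 : ℝ) (v113 : ℝ) (v114 : ℝ) (v115 : ℝ) (v116 : ℝ) (AV : ℝ)
    (e_AV_d : AV = dt (P.a + Ax * ((1 : ℝ) : ℂ)) ηq) (e_AV_v : v116 = AV) (v117 : ℝ) (v118 : ℝ)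
    (v119 : ℝ) (v120 : ℝ) (v121 : ℝ) (v122 : ℝ) (v123 : ℝ) (v124 : ℝ) (v125 : ℝ) (v126 : ℝ)
    (v127 : ℝ) (v128 : ℝ) (v129 : ℝ) (v130 : ℝ) (v131 : ℝ) (v132 : ℝ) (v133 : ℝ) (v134 : ℝ)
    (fp : ℂ)
    (e_fp_d : fp = (-((1 / 2 + oc : ℝ) : ℂ) * P.vs - I * P.b - I * (B * ((1 : ℝ) : ℂ))) * (f : ℂ) - P.M X * ((1 : ℝ) : ℂ) / 6)
    (e_fp_re : v133 = fp.re) (e_fp_im : v134 = fp.im)
    (h : TrE (realAlg (fun i => get 0 (P.syl l) i) (r) (s))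
    [.mul 41 25, .mul 33 26, .mul 120 3, .mul 121 3, .sub 3 1, .sub 3 1, .cst 1 1, .mul 125 0,
    .sub 0 26, .mul 34 0, .base 71, .base 72, .base 73, .mul 140 0, .mul 140 1, .add 4 1,
    .add 4 1, .mul 18 1, .mul 18 1, .add 1 0, .mul 138 0, .add 11 0, .mul 149 23, .mul 149 23,
    .add 1 0]
    [v134, v133, v132, v131, v130, v129, v128, v127, v126, v125, v124, v123, v122, v121, v120,
    v119, v118, v117, v116, v115, v114, v113, v112, v111, v110, v109, v108, v107, v106, v105,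
    v104, v103, v102, v101, v100, v99, v98, v97, v96, v95, v94, v93, v92, v91, v90, v89, v88,
    v87, v86, v85, v84, v83, v82, v81, v80, v79, v78, v77, v76, v75, v74, v73, v72, v71, v70,
    v69, v68, v67, v66, v65, v64, v63, v62, v61, v60, v59, v58, v57, v56, v55, v54, v53, v52,
    v51, v50, v49, v48, v47, v46, v45, v44, v43, v42, v41, v40, v39, v38, v37, v36, v35, v34,
    v33, v32, v31, v30, v29, v28, v27, v26, v25, v24, v23, v22, v21, v20, v19, v18, v17, v16,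
    v15, v14, v13, v12, v11, v10, v9, v8, v7, v6, v5, v4, v3, v2, v1, v0]
    (pR0_valQ P l r s)) :
    OutEq (run (realAlg (fun i => get 0 (P.syl l) i) (r) (s)) pR0 []) pR0_out
      [(P.fqr 1 ⟨r, s⟩ (ηd 0 (P.yr 1 ⟨r, s⟩)) (1 - 2 * dt (uu 0) (P.yr 1 ⟨r, s⟩))).re,
      (P.fqr 1 ⟨r, s⟩ (ηd 0 (P.yr 1 ⟨r, s⟩)) (1 - 2 * dt (uu 0) (P.yr 1 ⟨r, s⟩))).im,
      P.ctr 1 ⟨r, s⟩ (ηd 0 (P.yr 1 ⟨r, s⟩)) (1 - 2 * dt (uu 0) (P.yr 1 ⟨r, s⟩)), dt (P.fpr 1 ⟨r, s⟩) (P.yr 1 ⟨r, s⟩), P.fr 1 ⟨r, s⟩] := by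
  obtain ⟨v135, h135, h⟩ := h
  change v135 = v93 * v109 at h135
  obtain ⟨v136, h136, h⟩ := h
  change v136 = v102 * v109 at h136
  obtain ⟨v137, h137, h⟩ := h
  change v137 = v16 * v133 at h137
  obtain ⟨v138, h138, h⟩ := h
  change v138 = v16 * v134 at h138
  obtain ⟨v139, h139, h⟩ := h
  change v139 = v135 - v137 at h139
  obtain ⟨v140, h140, h⟩ := h
  change v140 = v136 - v138 at h140
  obtain ⟨fqd, e_fqd_d⟩ : ∃ q : ℂ, q = DB * (f : ℂ) - fp * (d : ℂ) := ⟨_, rfl⟩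
  have e_fqd_re : v139 = fqd.re := by
    rw [e_fqd_d]
    simp only [h139, h137, h135, e_fp_re, e_d_v, e_f_v, e_DB_re, mul_re, mul_im, add_re, add_im, sub_re, sub_im, neg_re, neg_im, I_re, I_im, ofReal_re,
      ofReal_im, one_re, one_im, zero_re, zero_im, dt, normSq_apply, re_ofNat, im_ofNat, conj_re, conj_im]
    try ring
  have e_fqd_im : v140 = fqd.im := by
    rw [e_fqd_d]
    simp only [h140, h138, h136, e_fp_im, e_d_v, e_f_v, e_DB_im, mul_re, mul_im, add_re, add_im, sub_re, sub_im, neg_re, neg_im, I_re, I_im, ofReal_re,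
      ofReal_im, one_re, one_im, zero_re, zero_im, dt, normSq_apply, re_ofNat, im_ofNat, conj_re, conj_im]
    try ring
  obtain ⟨v141, h141, h⟩ := h
  replace h141 : v141 = (1 : ℝ) / 2 ^ 1 := by rw [h141]; norm_num [step, realAlg]
  obtain ⟨v142, h142, h⟩ := h
  change v142 = v16 * v141 at h142
  obtain ⟨v143, h143, h⟩ := h
  change v143 = v142 - v116 at h143
  obtain ⟨v144, h144, h⟩ := h
  change v144 = v109 * v143 at h144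
  obtain ⟨v145, h145, h⟩ := h
  change v145 = P.vs.re at h145
  obtain ⟨v146, h146, h⟩ := h
  change v146 = P.vs.im at h146
  obtain ⟨v147, h147, h⟩ := h
  change v147 = P.rs at h147
  obtain ⟨v148, h148, h⟩ := h
  change v148 = v7 * v147 at h148
  obtain ⟨v149, h149, h⟩ := h
  change v149 = v8 * v147 at h149
  obtain ⟨v150, h150, h⟩ := h
  change v150 = v145 + v148 at h150
  obtain ⟨v151, h151, h⟩ := h
  change v151 = v146 + v149 at h151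
  obtain ⟨v152, h152, h⟩ := h
  change v152 = v133 * v150 at h152
  obtain ⟨v153, h153, h⟩ := h
  change v153 = v134 * v151 at h153
  obtain ⟨v154, h154, h⟩ := h
  change v154 = v152 + v153 at h154
  obtain ⟨v155, h155, h⟩ := h
  change v155 = v16 * v154 at h155
  obtain ⟨v156, h156, h⟩ := h
  change v156 = v144 + v155 at h156
  obtain ⟨ctd, e_ctd_d⟩ : ∃ q : ℝ, q = f * (d * (1 / 2) - AV) + dt fp (P.vs + y * (P.rs : ℂ)) * d := ⟨_, rfl⟩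
  have e_ctd_v : v156 = ctd := by
    rw [e_ctd_d]
    simp only [h156, h155, h154, h153, h152, h151, h150, h149, h148, h147, h146, h145, h144, h143, h142, h141, e_y_im, e_fp_im, e_y_re, e_fp_re, e_d_v, e_AV_v, e_f_v, mul_re, mul_im, add_re, add_im, sub_re, sub_im, neg_re, neg_im, I_re, I_im, ofReal_re,
      ofReal_im, one_re, one_im, zero_re, zero_im, dt, normSq_apply, re_ofNat, im_ofNat, conj_re, conj_im]
    try ring
  obtain ⟨v157, h157, h⟩ := h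
  change v157 = v7 * v133 at h157
  obtain ⟨v158, h158, h⟩ := h
  change v158 = v8 * v134 at h158
  obtain ⟨v159, h159, h⟩ := h
  change v159 = v157 + v158 at h159
  obtain ⟨fy, e_fy_d⟩ : ∃ q : ℝ, q = dt fp y := ⟨_, rfl⟩
  have e_fy_v : v159 = fy := by
    rw [e_fy_d]
    simp only [h159, h158, h157, e_fp_im, e_y_im, e_fp_re, e_y_re, mul_re, mul_im, add_re, add_im, sub_re, sub_im, neg_re, neg_im, I_re, I_im, ofReal_re,
      ofReal_im, one_re, one_im, zero_re, zero_im, dt, normSq_apply, re_ofNat, im_ofNat, conj_re, conj_im]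
    try ring
  obtain ⟨o_qr, e_o_qr_d⟩ : ∃ q : ℝ, q = fqd.re := ⟨_, rfl⟩
  have a_o_qr : fqd.re = fqd.re := by
    rfl
  have e_o_qr_v : v139 = o_qr := by
    rw [e_o_qr_d, a_o_qr]
    simp only [e_fqd_re, mul_re, mul_im, add_re, add_im, sub_re, sub_im, neg_re, neg_im, I_re, I_im, ofReal_re,
      ofReal_im, one_re, one_im, zero_re, zero_im, dt, normSq_apply, re_ofNat, im_ofNat, conj_re, conj_im]
    try ring
  obtain ⟨o_qi, e_o_qi_d⟩ : ∃ q : ℝ, q = fqd.im := ⟨_, rfl⟩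
  have a_o_qi : fqd.im = fqd.im := by
    rfl
  have e_o_qi_v : v140 = o_qi := by
    rw [e_o_qi_d, a_o_qi]
    simp only [e_fqd_im, mul_re, mul_im, add_re, add_im, sub_re, sub_im, neg_re, neg_im, I_re, I_im, ofReal_re,
      ofReal_im, one_re, one_im, zero_re, zero_im, dt, normSq_apply, re_ofNat, im_ofNat, conj_re, conj_im]
    try ring
  obtain ⟨o_ct, e_o_ct_d⟩ : ∃ q : ℝ, q = ctd := ⟨_, rfl⟩
  have a_o_ct : ctd = ctd := by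
    rfl
  have e_o_ct_v : v156 = o_ct := by
    rw [e_o_ct_d, a_o_ct]
    simp only [e_ctd_v, mul_re, mul_im, add_re, add_im, sub_re, sub_im, neg_re, neg_im, I_re, I_im, ofReal_re,
      ofReal_im, one_re, one_im, zero_re, zero_im, dt, normSq_apply, re_ofNat, im_ofNat, conj_re, conj_im]
    try ring
  obtain ⟨o_fy, e_o_fy_d⟩ : ∃ q : ℝ, q = fy := ⟨_, rfl⟩
  have a_o_fy : fy = fy := by
    rfl
  have e_o_fy_v : v159 = o_fy := by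
    rw [e_o_fy_d, a_o_fy]
    simp only [e_fy_v, mul_re, mul_im, add_re, add_im, sub_re, sub_im, neg_re, neg_im, I_re, I_im, ofReal_re,
      ofReal_im, one_re, one_im, zero_re, zero_im, dt, normSq_apply, re_ofNat, im_ofNat, conj_re, conj_im]
    try ring
  obtain ⟨o_f, e_o_f_d⟩ : ∃ q : ℝ, q = f := ⟨_, rfl⟩
  have a_o_f : f = f := by
    rfl
  have e_o_f_v : v109 = o_f := by
    rw [e_o_f_d, a_o_f]
    simp only [e_f_v, mul_re, mul_im, add_re, add_im, sub_re, sub_im, neg_re, neg_im, I_re, I_im, ofReal_re,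
      ofReal_im, one_re, one_im, zero_re, zero_im, dt, normSq_apply, re_ofNat, im_ofNat, conj_re, conj_im]
    try ring
  refine OutEq_of h ?_
  refine ⟨e_o_qr_v.trans ?_, e_o_qi_v.trans ?_, e_o_ct_v.trans ?_, e_o_fy_v.trans ?_, e_o_f_v.trans ?_, trivial⟩
  all_goals
    subst o_f o_fy o_ct o_qi o_qr fy ctd fqd fp AV f DB Ax B ηq d w y X
    rfl

theorem pR0_val_s4 (P : Pt) (l : List ℝ) (r s : ℝ)
    (v0 : ℝ) (v1 : ℝ) (X : ℂ) (e_X_d : X = (⟨r, s⟩ : ℂ)) (e_X_re : v0 = X.re)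
    (e_X_im : v1 = X.im) (v2 : ℝ) (v3 : ℝ) (v4 : ℝ) (v5 : ℝ) (v6 : ℝ) (v7 : ℝ) (v8 : ℝ) (y : ℂ)
    (e_y_d : y = P.ys + X * ((1 : ℝ) : ℂ)) (e_y_re : v7 = y.re) (e_y_im : v8 = y.im) (v9 : ℝ)
    (v10 : ℝ) (v11 : ℝ) (v12 : ℝ) (v13 : ℝ) (w : ℝ) (e_w_d : w = 1 - normSq y) (v14 : ℝ)
    (h14 : v14 = (2 : ℝ)) (v15 : ℝ) (v16 : ℝ) (d : ℝ) (e_d_d : d = 1 - 2 * dt (uu 0) y)
    (e_d_v : v16 = d) (v17 : ℝ) (v18 : ℝ) (v19 : ℝ) (v20 : ℝ) (v21 : ℝ) (v22 : ℝ) (ηq : ℂ)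
    (e_ηq_d : ηq = I * (w : ℂ) * (((2 * w : ℝ) : ℂ) * uu 0 - (d : ℂ) * y))
    (e_ηq_re : v22 = ηq.re) (e_ηq_im : v21 = ηq.im) (v23 : ℝ) (h23 : v23 = P.c.b11) (v24 : ℝ)
    (v25 : ℝ) (h25 : v25 = P.c.b12) (v26 : ℝ) (v27 : ℝ) (v28 : ℝ) (h28 : v28 = P.c.q1) (v29 : ℝ)
    (v30 : ℝ) (h30 : v30 = P.c.q2) (v31 : ℝ) (v32 : ℝ) (v33 : ℝ) (h33 : v33 = P.c.q3) (v34 : ℝ)
    (v35 : ℝ) (v36 : ℝ) (v37 : ℝ) (h37 : v37 = P.c.b21) (v38 : ℝ) (v39 : ℝ) (h39 : v39 = P.c.b22)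
    (v40 : ℝ) (v41 : ℝ) (v42 : ℝ) (h42 : v42 = P.c.q4) (v43 : ℝ) (v44 : ℝ) (h44 : v44 = P.c.q5)
    (v45 : ℝ) (v46 : ℝ) (v47 : ℝ) (h47 : v47 = P.c.q6) (v48 : ℝ) (v49 : ℝ) (v50 : ℝ) (B : ℂ)
    (e_B_d : B = VBr P.c 1 X) (e_B_re : v36 = B.re) (e_B_im : v50 = B.im) (v51 : ℝ) (v52 : ℝ)
    (v53 : ℝ) (v54 : ℝ) (v55 : ℝ) (v56 : ℝ) (v57 : ℝ) (v58 : ℝ) (v59 : ℝ) (v60 : ℝ) (v61 : ℝ)
    (v62 : ℝ) (v63 : ℝ) (v64 : ℝ) (v65 : ℝ) (v66 : ℝ) (v67 : ℝ) (v68 : ℝ) (v69 : ℝ) (v70 : ℝ)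
    (v71 : ℝ) (v72 : ℝ) (v73 : ℝ) (v74 : ℝ) (v75 : ℝ) (v76 : ℝ) (v77 : ℝ) (Ax : ℂ)
    (e_Ax_d : Ax = VAxr P.c 1 X) (e_Ax_re : v64 = Ax.re) (e_Ax_im : v77 = Ax.im) (v78 : ℝ)
    (h78 : v78 = v0 * v22) (v79 : ℝ) (h79 : v79 = v14 * v78) (v80 : ℝ) (h80 : v80 = v0 * v21)
    (v81 : ℝ) (h81 : v81 = v1 * v22) (v82 : ℝ) (h82 : v82 = v80 + v81) (v83 : ℝ)
    (h83 : v83 = v1 * v21) (v84 : ℝ) (h84 : v84 = v14 * v83) (v85 : ℝ) (h85 : v85 = v22 * v23)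
    (v86 : ℝ) (h86 : v86 = v21 * v25) (v87 : ℝ) (h87 : v87 = v85 + v86) (v88 : ℝ)
    (h88 : v88 = v28 * v79) (v89 : ℝ) (h89 : v89 = v30 * v82) (v90 : ℝ) (h90 : v90 = v88 + v89)
    (v91 : ℝ) (h91 : v91 = v33 * v84) (v92 : ℝ) (h92 : v92 = v90 + v91) (v93 : ℝ)
    (h93 : v93 = v87 + v92) (v94 : ℝ) (h94 : v94 = v22 * v37) (v95 : ℝ) (h95 : v95 = v21 * v39)
    (v96 : ℝ) (h96 : v96 = v94 + v95) (v97 : ℝ) (h97 : v97 = v42 * v79) (v98 : ℝ)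
    (h98 : v98 = v44 * v82) (v99 : ℝ) (h99 : v99 = v97 + v98) (v100 : ℝ)
    (h100 : v100 = v47 * v84) (v101 : ℝ) (h101 : v101 = v99 + v100)
    (h : TrE (realAlg (fun i => get 0 (P.syl l) i) (r) (s))
    [.add 5 0, .base 15, .base 5, .base 6, .mul 105 1, .mul 105 1, .add 1 0, .add 5 0, .base 29,
    .base 30, .add 47 1, .add 35 1, .mul 91 1, .mul 93 1, .add 1 0, .base 69, .base 70,
    .add 68 1, .sub 1 83, .mul 11 1, .mul 12 1, .base 74, .mul 123 0, .base 75, .mul 124 0,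
    .add 2 0, .base 76, .mul 128 0, .base 77, .mul 129 0, .add 2 0, .sub 11 5, .sub 11 1,
    .mul 41 25, .mul 33 26, .mul 120 3, .mul 121 3, .sub 3 1, .sub 3 1, .cst 1 1, .mul 125 0,
    .sub 0 26, .mul 34 0, .base 71, .base 72, .base 73, .mul 140 0, .mul 140 1, .add 4 1,
    .add 4 1, .mul 18 1, .mul 18 1, .add 1 0, .mul 138 0, .add 11 0, .mul 149 23, .mul 149 23,
    .add 1 0]
    [v101, v100, v99, v98, v97, v96, v95, v94, v93, v92, v91, v90, v89, v88, v87, v86, v85, v84,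
    v83, v82, v81, v80, v79, v78, v77, v76, v75, v74, v73, v72, v71, v70, v69, v68, v67, v66,
    v65, v64, v63, v62, v61, v60, v59, v58, v57, v56, v55, v54, v53, v52, v51, v50, v49, v48,
    v47, v46, v45, v44, v43, v42, v41, v40, v39, v38, v37, v36, v35, v34, v33, v32, v31, v30,
    v29, v28, v27, v26, v25, v24, v23, v22, v21, v20, v19, v18, v17, v16, v15, v14, v13, v12,
    v11, v10, v9, v8, v7, v6, v5, v4, v3, v2, v1, v0]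
    (pR0_valQ P l r s)) :
    OutEq (run (realAlg (fun i => get 0 (P.syl l) i) (r) (s)) pR0 []) pR0_out
      [(P.fqr 1 ⟨r, s⟩ (ηd 0 (P.yr 1 ⟨r, s⟩)) (1 - 2 * dt (uu 0) (P.yr 1 ⟨r, s⟩))).re,
      (P.fqr 1 ⟨r, s⟩ (ηd 0 (P.yr 1 ⟨r, s⟩)) (1 - 2 * dt (uu 0) (P.yr 1 ⟨r, s⟩))).im,
      P.ctr 1 ⟨r, s⟩ (ηd 0 (P.yr 1 ⟨r, s⟩)) (1 - 2 * dt (uu 0) (P.yr 1 ⟨r, s⟩)), dt (P.fpr 1 ⟨r, s⟩) (P.yr 1 ⟨r, s⟩), P.fr 1 ⟨r, s⟩] := by
  obtain ⟨v102, h102, h⟩ := h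
  change v102 = v96 + v101 at h102
  obtain ⟨DB, e_DB_d⟩ : ∃ q : ℂ, q = VBd P.c (X * ((1 : ℝ) : ℂ)) ηq := ⟨_, rfl⟩
  have e_DB_re : v93 = DB.re := by
    rw [e_DB_d]
    simp only [VBd_re, VBd_im, h93, h92, h91, h90, h89, h88, h87, h86, h85, h84, h83, h82, h81, h80, h79, h78, h33, h30, h28, h25, h23, h14, e_ηq_im, e_X_im, e_ηq_re, e_X_re, mul_re, mul_im, add_re, add_im, sub_re, sub_im, neg_re, neg_im, I_re, I_im, ofReal_re,
      ofReal_im, one_re, one_im, zero_re, zero_im, dt, normSq_apply, re_ofNat, im_ofNat, conj_re, conj_im]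
    try ring
  have e_DB_im : v102 = DB.im := by
    rw [e_DB_d]
    simp only [VBd_re, VBd_im, h102, h101, h100, h99, h98, h97, h96, h95, h94, h84, h83, h82, h81, h80, h79, h78, h47, h44, h42, h39, h37, h14, e_ηq_im, e_X_im, e_ηq_re, e_X_re, mul_re, mul_im, add_re, add_im, sub_re, sub_im, neg_re, neg_im, I_re, I_im, ofReal_re,
      ofReal_im, one_re, one_im, zero_re, zero_im, dt, normSq_apply, re_ofNat, im_ofNat, conj_re, conj_im]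
    try ring
  obtain ⟨v103, h103, h⟩ := h
  change v103 = P.fs at h103
  obtain ⟨v104, h104, h⟩ := h
  change v104 = P.ns.re at h104
  obtain ⟨v105, h105, h⟩ := h
  change v105 = P.ns.im at h105
  obtain ⟨v106, h106, h⟩ := h
  change v106 = v0 * v104 at h106
  obtain ⟨v107, h107, h⟩ := h
  change v107 = v1 * v105 at h107
  obtain ⟨v108, h108, h⟩ := h
  change v108 = v106 + v107 at h108
  obtain ⟨v109, h109, h⟩ := h
  change v109 = v103 + v108 at h109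
  obtain ⟨f, e_f_d⟩ : ∃ q : ℝ, q = P.fs + dt P.ns X * 1 := ⟨_, rfl⟩
  have e_f_v : v109 = f := by
    rw [e_f_d]
    simp only [h109, h108, h107, h106, h105, h104, h103, e_X_im, e_X_re, mul_re, mul_im, add_re, add_im, sub_re, sub_im, neg_re, neg_im, I_re, I_im, ofReal_re,
      ofReal_im, one_re, one_im, zero_re, zero_im, dt, normSq_apply, re_ofNat, im_ofNat, conj_re, conj_im]
    try ring
  obtain ⟨v110, h110, h⟩ := h
  change v110 = P.a.re at h110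
  obtain ⟨v111, h111, h⟩ := h
  change v111 = P.a.im at h111
  obtain ⟨v112, h112, h⟩ := h
  change v112 = v64 + v110 at h112
  obtain ⟨v113, h113, h⟩ := h
  change v113 = v77 + v111 at h113
  obtain ⟨v114, h114, h⟩ := h
  change v114 = v22 * v112 at h114
  obtain ⟨v115, h115, h⟩ := h
  change v115 = v21 * v113 at h115
  obtain ⟨v116, h116, h⟩ := h
  change v116 = v114 + v115 at h116
  obtain ⟨AV, e_AV_d⟩ : ∃ q : ℝ, q = dt (P.a + Ax * ((1 : ℝ) : ℂ)) ηq := ⟨_, rfl⟩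
  have e_AV_v : v116 = AV := by
    rw [e_AV_d]
    simp only [h116, h115, h114, h113, h112, h111, h110, e_Ax_im, e_ηq_im, e_Ax_re, e_ηq_re, mul_re, mul_im, add_re, add_im, sub_re, sub_im, neg_re, neg_im, I_re, I_im, ofReal_re,
      ofReal_im, one_re, one_im, zero_re, zero_im, dt, normSq_apply, re_ofNat, im_ofNat, conj_re, conj_im]
    try ring
  obtain ⟨v117, h117, h⟩ := h
  change v117 = (-((1 / 2 + oc : ℝ) : ℂ) * P.vs - I * P.b).re at h117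
  obtain ⟨v118, h118, h⟩ := h
  change v118 = (-((1 / 2 + oc : ℝ) : ℂ) * P.vs - I * P.b).im at h118
  obtain ⟨v119, h119, h⟩ := h
  change v119 = v50 + v117 at h119
  obtain ⟨v120, h120, h⟩ := h
  change v120 = v118 - v36 at h120
  obtain ⟨v121, h121, h⟩ := h
  change v121 = v109 * v119 at h121
  obtain ⟨v122, h122, h⟩ := h
  change v122 = v109 * v120 at h122
  obtain ⟨v123, h123, h⟩ := h
  change v123 = (P.M 1).re / 6 at h123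
  obtain ⟨v124, h124, h⟩ := h
  change v124 = v0 * v123 at h124
  obtain ⟨v125, h125, h⟩ := h
  change v125 = (P.M I).re / 6 at h125
  obtain ⟨v126, h126, h⟩ := h
  change v126 = v1 * v125 at h126
  obtain ⟨v127, h127, h⟩ := h
  change v127 = v124 + v126 at h127
  obtain ⟨v128, h128, h⟩ := h
  change v128 = (P.M 1).im / 6 at h128
  obtain ⟨v129, h129, h⟩ := h
  change v129 = v0 * v128 at h129
  obtain ⟨v130, h130, h⟩ := h
  change v130 = (P.M I).im / 6 at h130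
  obtain ⟨v131, h131, h⟩ := h
  change v131 = v1 * v130 at h131
  obtain ⟨v132, h132, h⟩ := h
  change v132 = v129 + v131 at h132
  obtain ⟨v133, h133, h⟩ := h
  change v133 = v121 - v127 at h133
  obtain ⟨v134, h134, h⟩ := h
  change v134 = v122 - v132 at h134
  obtain ⟨fp, e_fp_d⟩ : ∃ q : ℂ, q = (-((1 / 2 + oc : ℝ) : ℂ) * P.vs - I * P.b - I * (B * ((1 : ℝ) : ℂ))) * (f : ℂ) - P.M X * ((1 : ℝ) : ℂ) / 6 := ⟨_, rfl⟩
  have e_fp_re : v133 = fp.re := by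
    rw [e_fp_d]
    simp only [M_re P X, M_im P X, div_ofNat_re, div_ofNat_im, h133, h127, h126, h125, h124, h123, h121, h119, h117, e_X_im, e_X_re, e_B_im, e_f_v, mul_re, mul_im, add_re, add_im, sub_re, sub_im, neg_re, neg_im, I_re, I_im, ofReal_re,
      ofReal_im, one_re, one_im, zero_re, zero_im, dt, normSq_apply, re_ofNat, im_ofNat, conj_re, conj_im]
    try ring
  have e_fp_im : v134 = fp.im := by
    rw [e_fp_d]
    simp only [M_re P X, M_im P X, div_ofNat_re, div_ofNat_im, h134, h132, h131, h130, h129, h128, h122, h120, h118, e_X_im, e_X_re, e_B_re, e_f_v, mul_re, mul_im, add_re, add_im, sub_re, sub_im, neg_re, neg_im, I_re, I_im, ofReal_re,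
      ofReal_im, one_re, one_im, zero_re, zero_im, dt, normSq_apply, re_ofNat, im_ofNat, conj_re, conj_im]
    try ring
  exact pR0_val_s5
    P l r s v0 v1 X e_X_d v2 v3 v4 v5 v6 v7 v8 y e_y_d e_y_re e_y_im v9 v10 v11 v12 v13 w e_w_d
    v14 v15 v16 d e_d_d e_d_v v17 v18 v19 v20 v21 v22 ηq e_ηq_d v23 v24 v25 v26 v27 v28 v29 v30
    v31 v32 v33 v34 v35 v36 v37 v38 v39 v40 v41 v42 v43 v44 v45 v46 v47 v48 v49 v50 B e_B_d v51
    v52 v53 v54 v55 v56 v57 v58 v59 v60 v61 v62 v63 v64 v65 v66 v67 v68 v69 v70 v71 v72 v73 v74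
    v75 v76 v77 Ax e_Ax_d v78 v79 v80 v81 v82 v83 v84 v85 v86 v87 v88 v89 v90 v91 v92 v93 v94 v95
    v96 v97 v98 v99 v100 v101 v102 DB e_DB_d e_DB_re e_DB_im v103 v104 v105 v106 v107 v108 v109 f
    e_f_d e_f_v v110 v111 v112 v113 v114 v115 v116 AV e_AV_d e_AV_v v117 v118 v119 v120 v121 v122
    v123 v124 v125 v126 v127 v128 v129 v130 v131 v132 v133 v134 fp e_fp_d e_fp_re e_fp_im h

theorem pR0_val_s3 (P : Pt) (l : List ℝ) (r s : ℝ)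
    (v0 : ℝ) (v1 : ℝ) (X : ℂ) (e_X_d : X = (⟨r, s⟩ : ℂ)) (e_X_re : v0 = X.re)
    (e_X_im : v1 = X.im) (v2 : ℝ) (h2 : v2 = v0 * v0) (v3 : ℝ) (h3 : v3 = v0 * v1) (v4 : ℝ)
    (h4 : v4 = v1 * v1) (v5 : ℝ) (v6 : ℝ) (v7 : ℝ) (v8 : ℝ) (y : ℂ)
    (e_y_d : y = P.ys + X * ((1 : ℝ) : ℂ)) (e_y_re : v7 = y.re) (e_y_im : v8 = y.im) (v9 : ℝ)
    (v10 : ℝ) (v11 : ℝ) (v12 : ℝ) (v13 : ℝ) (w : ℝ) (e_w_d : w = 1 - normSq y) (v14 : ℝ)
    (h14 : v14 = (2 : ℝ)) (v15 : ℝ) (v16 : ℝ) (d : ℝ) (e_d_d : d = 1 - 2 * dt (uu 0) y)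
    (e_d_v : v16 = d) (v17 : ℝ) (v18 : ℝ) (v19 : ℝ) (v20 : ℝ) (v21 : ℝ) (v22 : ℝ) (ηq : ℂ)
    (e_ηq_d : ηq = I * (w : ℂ) * (((2 * w : ℝ) : ℂ) * uu 0 - (d : ℂ) * y))
    (e_ηq_re : v22 = ηq.re) (e_ηq_im : v21 = ηq.im) (v23 : ℝ) (h23 : v23 = P.c.b11) (v24 : ℝ)
    (v25 : ℝ) (h25 : v25 = P.c.b12) (v26 : ℝ) (v27 : ℝ) (v28 : ℝ) (h28 : v28 = P.c.q1) (v29 : ℝ)
    (v30 : ℝ) (h30 : v30 = P.c.q2) (v31 : ℝ) (v32 : ℝ) (v33 : ℝ) (h33 : v33 = P.c.q3) (v34 : ℝ)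
    (v35 : ℝ) (v36 : ℝ) (v37 : ℝ) (h37 : v37 = P.c.b21) (v38 : ℝ) (v39 : ℝ) (h39 : v39 = P.c.b22)
    (v40 : ℝ) (v41 : ℝ) (v42 : ℝ) (h42 : v42 = P.c.q4) (v43 : ℝ) (v44 : ℝ) (h44 : v44 = P.c.q5)
    (v45 : ℝ) (v46 : ℝ) (v47 : ℝ) (h47 : v47 = P.c.q6) (v48 : ℝ) (v49 : ℝ) (v50 : ℝ) (B : ℂ)
    (e_B_d : B = VBr P.c 1 X) (e_B_re : v36 = B.re) (e_B_im : v50 = B.im) (v51 : ℝ)
    (h51 : v51 = 2 * P.c.a20) (v52 : ℝ) (h52 : v52 = v0 * v51) (v53 : ℝ) (h53 : v53 = P.c.a11)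
    (v54 : ℝ) (h54 : v54 = v1 * v53) (v55 : ℝ) (h55 : v55 = v52 + v54) (v56 : ℝ)
    (h56 : v56 = 3 * P.c.a30) (v57 : ℝ) (h57 : v57 = v2 * v56) (v58 : ℝ)
    (h58 : v58 = 2 * P.c.a21) (v59 : ℝ) (h59 : v59 = v3 * v58) (v60 : ℝ) (h60 : v60 = v57 + v59)
    (v61 : ℝ) (h61 : v61 = P.c.a12) (v62 : ℝ) (h62 : v62 = v4 * v61) (v63 : ℝ)
    (h63 : v63 = v60 + v62) (v64 : ℝ) (h64 : v64 = v55 + v63) (v65 : ℝ) (h65 : v65 = v0 * v53)
    (h : TrE (realAlg (fun i => get 0 (P.syl l) i) (r) (s))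
    [.base 35, .mul 65 0, .add 2 0, .base 39, .mul 67 0, .base 40, .mul 68 0, .add 2 0, .base 41,
    .mul 70 0, .add 2 0, .add 8 0, .mul 77 55, .mul 64 0, .mul 79 58, .mul 79 58, .add 1 0,
    .mul 81 61, .mul 69 0, .mul 62 61, .mul 64 60, .add 1 0, .mul 59 8, .mul 58 6, .add 1 0,
    .mul 57 6, .add 1 0, .add 5 0, .mul 71 56, .mul 73 55, .add 1 0, .mul 54 17, .mul 53 15,
    .add 1 0, .mul 52 15, .add 1 0, .add 5 0, .base 15, .base 5, .base 6, .mul 105 1, .mul 105 1,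
    .add 1 0, .add 5 0, .base 29, .base 30, .add 47 1, .add 35 1, .mul 91 1, .mul 93 1, .add 1 0,
    .base 69, .base 70, .add 68 1, .sub 1 83, .mul 11 1, .mul 12 1, .base 74, .mul 123 0,
    .base 75, .mul 124 0, .add 2 0, .base 76, .mul 128 0, .base 77, .mul 129 0, .add 2 0,
    .sub 11 5, .sub 11 1, .mul 41 25, .mul 33 26, .mul 120 3, .mul 121 3, .sub 3 1, .sub 3 1,
    .cst 1 1, .mul 125 0, .sub 0 26, .mul 34 0, .base 71, .base 72, .base 73, .mul 140 0,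
    .mul 140 1, .add 4 1, .add 4 1, .mul 18 1, .mul 18 1, .add 1 0, .mul 138 0, .add 11 0,
    .mul 149 23, .mul 149 23, .add 1 0]
    [v65, v64, v63, v62, v61, v60, v59, v58, v57, v56, v55, v54, v53, v52, v51, v50, v49, v48,
    v47, v46, v45, v44, v43, v42, v41, v40, v39, v38, v37, v36, v35, v34, v33, v32, v31, v30,
    v29, v28, v27, v26, v25, v24, v23, v22, v21, v20, v19, v18, v17, v16, v15, v14, v13, v12,
    v11, v10, v9, v8, v7, v6, v5, v4, v3, v2, v1, v0]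
    (pR0_valQ P l r s)) :
    OutEq (run (realAlg (fun i => get 0 (P.syl l) i) (r) (s)) pR0 []) pR0_out
      [(P.fqr 1 ⟨r, s⟩ (ηd 0 (P.yr 1 ⟨r, s⟩)) (1 - 2 * dt (uu 0) (P.yr 1 ⟨r, s⟩))).re,
      (P.fqr 1 ⟨r, s⟩ (ηd 0 (P.yr 1 ⟨r, s⟩)) (1 - 2 * dt (uu 0) (P.yr 1 ⟨r, s⟩))).im,
      P.ctr 1 ⟨r, s⟩ (ηd 0 (P.yr 1 ⟨r, s⟩)) (1 - 2 * dt (uu 0) (P.yr 1 ⟨r, s⟩)), dt (P.fpr 1 ⟨r, s⟩) (P.yr 1 ⟨r, s⟩), P.fr 1 ⟨r, s⟩] := by
  obtain ⟨v66, h66, h⟩ := h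
  change v66 = 2 * P.c.a02 at h66
  obtain ⟨v67, h67, h⟩ := h
  change v67 = v1 * v66 at h67
  obtain ⟨v68, h68, h⟩ := h
  change v68 = v65 + v67 at h68
  obtain ⟨v69, h69, h⟩ := h
  change v69 = P.c.a21 at h69
  obtain ⟨v70, h70, h⟩ := h
  change v70 = v2 * v69 at h70
  obtain ⟨v71, h71, h⟩ := h
  change v71 = 2 * P.c.a12 at h71
  obtain ⟨v72, h72, h⟩ := h
  change v72 = v3 * v71 at h72
  obtain ⟨v73, h73, h⟩ := h
  change v73 = v70 + v72 at h73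
  obtain ⟨v74, h74, h⟩ := h
  change v74 = 3 * P.c.a03 at h74
  obtain ⟨v75, h75, h⟩ := h
  change v75 = v4 * v74 at h75
  obtain ⟨v76, h76, h⟩ := h
  change v76 = v73 + v75 at h76
  obtain ⟨v77, h77, h⟩ := h
  change v77 = v68 + v76 at h77
  obtain ⟨Ax, e_Ax_d⟩ : ∃ q : ℂ, q = VAxr P.c 1 X := ⟨_, rfl⟩
  have e_Ax_re : v64 = Ax.re := by
    rw [e_Ax_d]
    simp only [VAxr_re, VAxr_im, h64, h63, h62, h61, h60, h59, h58, h57, h56, h55, h54, h53, h52, h51, h4, h3, h2, e_X_im, e_X_re, mul_re, mul_im, add_re, add_im, sub_re, sub_im, neg_re, neg_im, I_re, I_im, ofReal_re,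
      ofReal_im, one_re, one_im, zero_re, zero_im, dt, normSq_apply, re_ofNat, im_ofNat, conj_re, conj_im]
    try ring
  have e_Ax_im : v77 = Ax.im := by
    rw [e_Ax_d]
    simp only [VAxr_re, VAxr_im, h77, h76, h75, h74, h73, h72, h71, h70, h69, h68, h67, h66, h65, h53, h4, h3, h2, e_X_im, e_X_re, mul_re, mul_im, add_re, add_im, sub_re, sub_im, neg_re, neg_im, I_re, I_im, ofReal_re,
      ofReal_im, one_re, one_im, zero_re, zero_im, dt, normSq_apply, re_ofNat, im_ofNat, conj_re, conj_im]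
    try ring
  obtain ⟨v78, h78, h⟩ := h
  change v78 = v0 * v22 at h78
  obtain ⟨v79, h79, h⟩ := h
  change v79 = v14 * v78 at h79
  obtain ⟨v80, h80, h⟩ := h
  change v80 = v0 * v21 at h80
  obtain ⟨v81, h81, h⟩ := h
  change v81 = v1 * v22 at h81
  obtain ⟨v82, h82, h⟩ := h
  change v82 = v80 + v81 at h82
  obtain ⟨v83, h83, h⟩ := h
  change v83 = v1 * v21 at h83
  obtain ⟨v84, h84, h⟩ := h
  change v84 = v14 * v83 at h84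
  obtain ⟨v85, h85, h⟩ := h
  change v85 = v22 * v23 at h85
  obtain ⟨v86, h86, h⟩ := h
  change v86 = v21 * v25 at h86
  obtain ⟨v87, h87, h⟩ := h
  change v87 = v85 + v86 at h87
  obtain ⟨v88, h88, h⟩ := h
  change v88 = v28 * v79 at h88
  obtain ⟨v89, h89, h⟩ := h
  change v89 = v30 * v82 at h89
  obtain ⟨v90, h90, h⟩ := h
  change v90 = v88 + v89 at h90
  obtain ⟨v91, h91, h⟩ := h
  change v91 = v33 * v84 at h91
  obtain ⟨v92, h92, h⟩ := h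
  change v92 = v90 + v91 at h92
  obtain ⟨v93, h93, h⟩ := h
  change v93 = v87 + v92 at h93
  obtain ⟨v94, h94, h⟩ := h
  change v94 = v22 * v37 at h94
  obtain ⟨v95, h95, h⟩ := h
  change v95 = v21 * v39 at h95
  obtain ⟨v96, h96, h⟩ := h
  change v96 = v94 + v95 at h96
  obtain ⟨v97, h97, h⟩ := h
  change v97 = v42 * v79 at h97
  obtain ⟨v98, h98, h⟩ := h
  change v98 = v44 * v82 at h98
  obtain ⟨v99, h99, h⟩ := h
  change v99 = v97 + v98 at h99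
  obtain ⟨v100, h100, h⟩ := h
  change v100 = v47 * v84 at h100
  obtain ⟨v101, h101, h⟩ := h
  change v101 = v99 + v100 at h101
  exact pR0_val_s4
    P l r s v0 v1 X e_X_d e_X_re e_X_im v2 v3 v4 v5 v6 v7 v8 y e_y_d e_y_re e_y_im v9 v10 v11 v12
    v13 w e_w_d v14 h14 v15 v16 d e_d_d e_d_v v17 v18 v19 v20 v21 v22 ηq e_ηq_d e_ηq_re e_ηq_im
    v23 h23 v24 v25 h25 v26 v27 v28 h28 v29 v30 h30 v31 v32 v33 h33 v34 v35 v36 v37 h37 v38 v39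
    h39 v40 v41 v42 h42 v43 v44 h44 v45 v46 v47 h47 v48 v49 v50 B e_B_d e_B_re e_B_im v51 v52 v53
    v54 v55 v56 v57 v58 v59 v60 v61 v62 v63 v64 v65 v66 v67 v68 v69 v70 v71 v72 v73 v74 v75 v76
    v77 Ax e_Ax_d e_Ax_re e_Ax_im v78 h78 v79 h79 v80 h80 v81 h81 v82 h82 v83 h83 v84 h84 v85 h85
    v86 h86 v87 h87 v88 h88 v89 h89 v90 h90 v91 h91 v92 h92 v93 h93 v94 h94 v95 h95 v96 h96 v97
    h97 v98 h98 v99 h99 v100 h100 v101 h101 h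

theorem pR0_val_s2 (P : Pt) (l : List ℝ) (r s : ℝ)
    (v0 : ℝ) (v1 : ℝ) (X : ℂ) (e_X_d : X = (⟨r, s⟩ : ℂ)) (e_X_re : v0 = X.re)
    (e_X_im : v1 = X.im) (v2 : ℝ) (h2 : v2 = v0 * v0) (v3 : ℝ) (h3 : v3 = v0 * v1) (v4 : ℝ)
    (h4 : v4 = v1 * v1) (v5 : ℝ) (v6 : ℝ) (v7 : ℝ) (v8 : ℝ) (y : ℂ)
    (e_y_d : y = P.ys + X * ((1 : ℝ) : ℂ)) (e_y_re : v7 = y.re) (e_y_im : v8 = y.im) (v9 : ℝ)
    (v10 : ℝ) (v11 : ℝ) (v12 : ℝ) (v13 : ℝ) (w : ℝ) (e_w_d : w = 1 - normSq y) (v14 : ℝ)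
    (h14 : v14 = (2 : ℝ)) (v15 : ℝ) (v16 : ℝ) (d : ℝ) (e_d_d : d = 1 - 2 * dt (uu 0) y)
    (e_d_v : v16 = d) (v17 : ℝ) (v18 : ℝ) (v19 : ℝ) (v20 : ℝ) (v21 : ℝ) (v22 : ℝ) (ηq : ℂ)
    (e_ηq_d : ηq = I * (w : ℂ) * (((2 * w : ℝ) : ℂ) * uu 0 - (d : ℂ) * y))
    (e_ηq_re : v22 = ηq.re) (e_ηq_im : v21 = ηq.im) (v23 : ℝ) (h23 : v23 = P.c.b11) (v24 : ℝ)
    (h24 : v24 = v0 * v23) (v25 : ℝ) (h25 : v25 = P.c.b12) (v26 : ℝ) (h26 : v26 = v1 * v25)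
    (v27 : ℝ) (h27 : v27 = v24 + v26) (v28 : ℝ) (h28 : v28 = P.c.q1) (v29 : ℝ)
    (h29 : v29 = v2 * v28)
    (h : TrE (realAlg (fun i => get 0 (P.syl l) i) (r) (s))
    [.base 54, .mul 27 0, .add 2 0, .base 55, .mul 29 0, .add 2 0, .add 8 0, .base 51, .mul 37 0,
    .base 52, .mul 38 0, .add 2 0, .base 56, .mul 40 0, .base 57, .mul 41 0, .add 2 0, .base 58,
    .mul 43 0, .add 2 0, .add 8 0, .base 33, .mul 51 0, .base 34, .mul 52 0, .add 2 0, .base 36,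
    .mul 54 0, .base 37, .mul 55 0, .add 2 0, .base 38, .mul 57 0, .add 2 0, .add 8 0,
    .mul 64 11, .base 35, .mul 65 0, .add 2 0, .base 39, .mul 67 0, .base 40, .mul 68 0,
    .add 2 0, .base 41, .mul 70 0, .add 2 0, .add 8 0, .mul 77 55, .mul 64 0, .mul 79 58,
    .mul 79 58, .add 1 0, .mul 81 61, .mul 69 0, .mul 62 61, .mul 64 60, .add 1 0, .mul 59 8,
    .mul 58 6, .add 1 0, .mul 57 6, .add 1 0, .add 5 0, .mul 71 56, .mul 73 55, .add 1 0,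
    .mul 54 17, .mul 53 15, .add 1 0, .mul 52 15, .add 1 0, .add 5 0, .base 15, .base 5, .base 6,
    .mul 105 1, .mul 105 1, .add 1 0, .add 5 0, .base 29, .base 30, .add 47 1, .add 35 1,
    .mul 91 1, .mul 93 1, .add 1 0, .base 69, .base 70, .add 68 1, .sub 1 83, .mul 11 1,
    .mul 12 1, .base 74, .mul 123 0, .base 75, .mul 124 0, .add 2 0, .base 76, .mul 128 0,
    .base 77, .mul 129 0, .add 2 0, .sub 11 5, .sub 11 1, .mul 41 25, .mul 33 26, .mul 120 3,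
    .mul 121 3, .sub 3 1, .sub 3 1, .cst 1 1, .mul 125 0, .sub 0 26, .mul 34 0, .base 71,
    .base 72, .base 73, .mul 140 0, .mul 140 1, .add 4 1, .add 4 1, .mul 18 1, .mul 18 1,
    .add 1 0, .mul 138 0, .add 11 0, .mul 149 23, .mul 149 23, .add 1 0]
    [v29, v28, v27, v26, v25, v24, v23, v22, v21, v20, v19, v18, v17, v16, v15, v14, v13, v12,
    v11, v10, v9, v8, v7, v6, v5, v4, v3, v2, v1, v0]
    (pR0_valQ P l r s)) :
    OutEq (run (realAlg (fun i => get 0 (P.syl l) i) (r) (s)) pR0 []) pR0_out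
      [(P.fqr 1 ⟨r, s⟩ (ηd 0 (P.yr 1 ⟨r, s⟩)) (1 - 2 * dt (uu 0) (P.yr 1 ⟨r, s⟩))).re,
      (P.fqr 1 ⟨r, s⟩ (ηd 0 (P.yr 1 ⟨r, s⟩)) (1 - 2 * dt (uu 0) (P.yr 1 ⟨r, s⟩))).im,
      P.ctr 1 ⟨r, s⟩ (ηd 0 (P.yr 1 ⟨r, s⟩)) (1 - 2 * dt (uu 0) (P.yr 1 ⟨r, s⟩)), dt (P.fpr 1 ⟨r, s⟩) (P.yr 1 ⟨r, s⟩), P.fr 1 ⟨r, s⟩] := by
  obtain ⟨v30, h30, h⟩ := h
  change v30 = P.c.q2 at h30
  obtain ⟨v31, h31, h⟩ := h
  change v31 = v3 * v30 at h31
  obtain ⟨v32, h32, h⟩ := h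
  change v32 = v29 + v31 at h32
  obtain ⟨v33, h33, h⟩ := h
  change v33 = P.c.q3 at h33
  obtain ⟨v34, h34, h⟩ := h
  change v34 = v4 * v33 at h34
  obtain ⟨v35, h35, h⟩ := h
  change v35 = v32 + v34 at h35
  obtain ⟨v36, h36, h⟩ := h
  change v36 = v27 + v35 at h36
  obtain ⟨v37, h37, h⟩ := h
  change v37 = P.c.b21 at h37
  obtain ⟨v38, h38, h⟩ := h
  change v38 = v0 * v37 at h38
  obtain ⟨v39, h39, h⟩ := h
  change v39 = P.c.b22 at h39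
  obtain ⟨v40, h40, h⟩ := h
  change v40 = v1 * v39 at h40
  obtain ⟨v41, h41, h⟩ := h
  change v41 = v38 + v40 at h41
  obtain ⟨v42, h42, h⟩ := h
  change v42 = P.c.q4 at h42
  obtain ⟨v43, h43, h⟩ := h
  change v43 = v2 * v42 at h43
  obtain ⟨v44, h44, h⟩ := h
  change v44 = P.c.q5 at h44
  obtain ⟨v45, h45, h⟩ := h
  change v45 = v3 * v44 at h45
  obtain ⟨v46, h46, h⟩ := h
  change v46 = v43 + v45 at h46
  obtain ⟨v47, h47, h⟩ := h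
  change v47 = P.c.q6 at h47
  obtain ⟨v48, h48, h⟩ := h
  change v48 = v4 * v47 at h48
  obtain ⟨v49, h49, h⟩ := h
  change v49 = v46 + v48 at h49
  obtain ⟨v50, h50, h⟩ := h
  change v50 = v41 + v49 at h50
  obtain ⟨B, e_B_d⟩ : ∃ q : ℂ, q = VBr P.c 1 X := ⟨_, rfl⟩
  have e_B_re : v36 = B.re := by
    rw [e_B_d]
    simp only [VBr_re, VBr_im, h36, h35, h34, h33, h32, h31, h30, h29, h28, h27, h26, h25, h24, h23, h4, h3, h2, e_X_im, e_X_re, mul_re, mul_im, add_re, add_im, sub_re, sub_im, neg_re, neg_im, I_re, I_im, ofReal_re,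
      ofReal_im, one_re, one_im, zero_re, zero_im, dt, normSq_apply, re_ofNat, im_ofNat, conj_re, conj_im]
    try ring
  have e_B_im : v50 = B.im := by
    rw [e_B_d]
    simp only [VBr_re, VBr_im, h50, h49, h48, h47, h46, h45, h44, h43, h42, h41, h40, h39, h38, h37, h4, h3, h2, e_X_im, e_X_re, mul_re, mul_im, add_re, add_im, sub_re, sub_im, neg_re, neg_im, I_re, I_im, ofReal_re,
      ofReal_im, one_re, one_im, zero_re, zero_im, dt, normSq_apply, re_ofNat, im_ofNat, conj_re, conj_im]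
    try ring
  obtain ⟨v51, h51, h⟩ := h
  change v51 = 2 * P.c.a20 at h51
  obtain ⟨v52, h52, h⟩ := h
  change v52 = v0 * v51 at h52
  obtain ⟨v53, h53, h⟩ := h
  change v53 = P.c.a11 at h53
  obtain ⟨v54, h54, h⟩ := h
  change v54 = v1 * v53 at h54
  obtain ⟨v55, h55, h⟩ := h
  change v55 = v52 + v54 at h55
  obtain ⟨v56, h56, h⟩ := h
  change v56 = 3 * P.c.a30 at h56
  obtain ⟨v57, h57, h⟩ := h
  change v57 = v2 * v56 at h57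
  obtain ⟨v58, h58, h⟩ := h
  change v58 = 2 * P.c.a21 at h58
  obtain ⟨v59, h59, h⟩ := h
  change v59 = v3 * v58 at h59
  obtain ⟨v60, h60, h⟩ := h
  change v60 = v57 + v59 at h60
  obtain ⟨v61, h61, h⟩ := h
  change v61 = P.c.a12 at h61
  obtain ⟨v62, h62, h⟩ := h
  change v62 = v4 * v61 at h62
  obtain ⟨v63, h63, h⟩ := h
  change v63 = v60 + v62 at h63
  obtain ⟨v64, h64, h⟩ := h
  change v64 = v55 + v63 at h64
  obtain ⟨v65, h65, h⟩ := h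
  change v65 = v0 * v53 at h65
  exact pR0_val_s3
    P l r s v0 v1 X e_X_d e_X_re e_X_im v2 h2 v3 h3 v4 h4 v5 v6 v7 v8 y e_y_d e_y_re e_y_im v9
    v10 v11 v12 v13 w e_w_d v14 h14 v15 v16 d e_d_d e_d_v v17 v18 v19 v20 v21 v22 ηq e_ηq_d
    e_ηq_re e_ηq_im v23 h23 v24 v25 h25 v26 v27 v28 h28 v29 v30 h30 v31 v32 v33 h33 v34 v35 v36
    v37 h37 v38 v39 h39 v40 v41 v42 h42 v43 v44 h44 v45 v46 v47 h47 v48 v49 v50 B e_B_d e_B_re
    e_B_im v51 h51 v52 h52 v53 h53 v54 h54 v55 h55 v56 h56 v57 h57 v58 h58 v59 h59 v60 h60 v61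
    h61 v62 h62 v63 h63 v64 h64 v65 h65 h

theorem pR0_val (P : Pt) (l : List ℝ) (r s : ℝ) :
    OutEq (run (realAlg (fun i => get 0 (P.syl l) i) (r) (s)) pR0 []) pR0_out
      [(P.fqr 1 ⟨r, s⟩ (ηd 0 (P.yr 1 ⟨r, s⟩)) (1 - 2 * dt (uu 0) (P.yr 1 ⟨r, s⟩))).re,
      (P.fqr 1 ⟨r, s⟩ (ηd 0 (P.yr 1 ⟨r, s⟩)) (1 - 2 * dt (uu 0) (P.yr 1 ⟨r, s⟩))).im,
      P.ctr 1 ⟨r, s⟩ (ηd 0 (P.yr 1 ⟨r, s⟩)) (1 - 2 * dt (uu 0) (P.yr 1 ⟨r, s⟩)), dt (P.fpr 1 ⟨r, s⟩) (P.yr 1 ⟨r, s⟩), P.fr 1 ⟨r, s⟩] := by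
  have h : TrE (realAlg (fun i => get 0 (P.syl l) i) (r) (s))
    [.x, .y, .mul 1 1, .mul 2 1, .mul 2 2, .base 0, .base 1, .add 6 1, .add 6 1, .mul 1 1,
    .mul 1 1, .add 1 0, .cst 1 0, .sub 0 1, .cst 2 0, .mul 7 0, .sub 3 0, .mul 3 2, .mul 10 1,
    .mul 10 2, .sub 2 1, .mul 7 0, .mul 8 2, .base 49, .mul 23 0, .base 50, .mul 24 0, .add 2 0,
    .base 53, .mul 26 0, .base 54, .mul 27 0, .add 2 0, .base 55, .mul 29 0, .add 2 0, .add 8 0,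
    .base 51, .mul 37 0, .base 52, .mul 38 0, .add 2 0, .base 56, .mul 40 0, .base 57, .mul 41 0,
    .add 2 0, .base 58, .mul 43 0, .add 2 0, .add 8 0, .base 33, .mul 51 0, .base 34, .mul 52 0,
    .add 2 0, .base 36, .mul 54 0, .base 37, .mul 55 0, .add 2 0, .base 38, .mul 57 0, .add 2 0,
    .add 8 0, .mul 64 11, .base 35, .mul 65 0, .add 2 0, .base 39, .mul 67 0, .base 40,
    .mul 68 0, .add 2 0, .base 41, .mul 70 0, .add 2 0, .add 8 0, .mul 77 55, .mul 64 0,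
    .mul 79 58, .mul 79 58, .add 1 0, .mul 81 61, .mul 69 0, .mul 62 61, .mul 64 60, .add 1 0,
    .mul 59 8, .mul 58 6, .add 1 0, .mul 57 6, .add 1 0, .add 5 0, .mul 71 56, .mul 73 55,
    .add 1 0, .mul 54 17, .mul 53 15, .add 1 0, .mul 52 15, .add 1 0, .add 5 0, .base 15,
    .base 5, .base 6, .mul 105 1, .mul 105 1, .add 1 0, .add 5 0, .base 29, .base 30, .add 47 1,
    .add 35 1, .mul 91 1, .mul 93 1, .add 1 0, .base 69, .base 70, .add 68 1, .sub 1 83,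
    .mul 11 1, .mul 12 1, .base 74, .mul 123 0, .base 75, .mul 124 0, .add 2 0, .base 76,
    .mul 128 0, .base 77, .mul 129 0, .add 2 0, .sub 11 5, .sub 11 1, .mul 41 25, .mul 33 26,
    .mul 120 3, .mul 121 3, .sub 3 1, .sub 3 1, .cst 1 1, .mul 125 0, .sub 0 26, .mul 34 0,
    .base 71, .base 72, .base 73, .mul 140 0, .mul 140 1, .add 4 1, .add 4 1, .mul 18 1,
    .mul 18 1, .add 1 0, .mul 138 0, .add 11 0, .mul 149 23, .mul 149 23, .add 1 0] []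
    (pR0_valQ P l r s) := trE_runst _ pR0
  obtain ⟨v0, h0, h⟩ := h
  change v0 = r at h0
  obtain ⟨v1, h1, h⟩ := h
  change v1 = s at h1
  obtain ⟨X, e_X_d⟩ : ∃ q : ℂ, q = (⟨r, s⟩ : ℂ) := ⟨_, rfl⟩
  have e_X_re : v0 = X.re := by
    rw [e_X_d]
    simp only [h0, mul_re, mul_im, add_re, add_im, sub_re, sub_im, neg_re, neg_im, I_re, I_im, ofReal_re,
      ofReal_im, one_re, one_im, zero_re, zero_im, dt, normSq_apply, re_ofNat, im_ofNat, conj_re, conj_im]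
    try ring
  have e_X_im : v1 = X.im := by
    rw [e_X_d]
    simp only [h1, mul_re, mul_im, add_re, add_im, sub_re, sub_im, neg_re, neg_im, I_re, I_im, ofReal_re,
      ofReal_im, one_re, one_im, zero_re, zero_im, dt, normSq_apply, re_ofNat, im_ofNat, conj_re, conj_im]
    try ring
  obtain ⟨v2, h2, h⟩ := h
  change v2 = v0 * v0 at h2
  obtain ⟨v3, h3, h⟩ := h
  change v3 = v0 * v1 at h3
  obtain ⟨v4, h4, h⟩ := h
  change v4 = v1 * v1 at h4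
  obtain ⟨v5, h5, h⟩ := h
  change v5 = P.ys.re at h5
  obtain ⟨v6, h6, h⟩ := h
  change v6 = P.ys.im at h6
  obtain ⟨v7, h7, h⟩ := h
  change v7 = v0 + v5 at h7
  obtain ⟨v8, h8, h⟩ := h
  change v8 = v1 + v6 at h8
  obtain ⟨y, e_y_d⟩ : ∃ q : ℂ, q = P.ys + X * ((1 : ℝ) : ℂ) := ⟨_, rfl⟩
  have e_y_re : v7 = y.re := by
    rw [e_y_d]
    simp only [h7, h5, e_X_re, mul_re, mul_im, add_re, add_im, sub_re, sub_im, neg_re, neg_im, I_re, I_im, ofReal_re,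
      ofReal_im, one_re, one_im, zero_re, zero_im, dt, normSq_apply, re_ofNat, im_ofNat, conj_re, conj_im]
    try ring
  have e_y_im : v8 = y.im := by
    rw [e_y_d]
    simp only [h8, h6, e_X_im, mul_re, mul_im, add_re, add_im, sub_re, sub_im, neg_re, neg_im, I_re, I_im, ofReal_re,
      ofReal_im, one_re, one_im, zero_re, zero_im, dt, normSq_apply, re_ofNat, im_ofNat, conj_re, conj_im]
    try ring
  obtain ⟨v9, h9, h⟩ := h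
  change v9 = v7 * v7 at h9
  obtain ⟨v10, h10, h⟩ := h
  change v10 = v8 * v8 at h10
  obtain ⟨v11, h11, h⟩ := h
  change v11 = v9 + v10 at h11
  obtain ⟨v12, h12, h⟩ := h
  replace h12 : v12 = (1 : ℝ) := by rw [h12]; norm_num [step, realAlg]
  obtain ⟨v13, h13, h⟩ := h
  change v13 = v12 - v11 at h13
  obtain ⟨w, e_w_d⟩ : ∃ q : ℝ, q = 1 - normSq y := ⟨_, rfl⟩
  have e_w_v : v13 = w := by
    rw [e_w_d]
    simp only [h13, h12, h11, h10, h9, e_y_im, e_y_re, mul_re, mul_im, add_re, add_im, sub_re, sub_im, neg_re, neg_im, I_re, I_im, ofReal_re,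
      ofReal_im, one_re, one_im, zero_re, zero_im, dt, normSq_apply, re_ofNat, im_ofNat, conj_re, conj_im]
    try ring
  obtain ⟨v14, h14, h⟩ := h
  replace h14 : v14 = (2 : ℝ) := by rw [h14]; norm_num [step, realAlg]
  obtain ⟨v15, h15, h⟩ := h
  change v15 = v7 * v14 at h15
  obtain ⟨v16, h16, h⟩ := h
  change v16 = v12 - v15 at h16
  obtain ⟨d, e_d_d⟩ : ∃ q : ℝ, q = 1 - 2 * dt (uu 0) y := ⟨_, rfl⟩
  have e_d_v : v16 = d := by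
    rw [e_d_d]
    simp only [uu0_re, uu0_im, h16, h15, h14, h12, e_y_re, mul_re, mul_im, add_re, add_im, sub_re, sub_im, neg_re, neg_im, I_re, I_im, ofReal_re,
      ofReal_im, one_re, one_im, zero_re, zero_im, dt, normSq_apply, re_ofNat, im_ofNat, conj_re, conj_im]
    try ring
  obtain ⟨v17, h17, h⟩ := h
  change v17 = v13 * v14 at h17
  obtain ⟨v18, h18, h⟩ := h
  change v18 = v7 * v16 at h18
  obtain ⟨v19, h19, h⟩ := h
  change v19 = v8 * v16 at h19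
  obtain ⟨v20, h20, h⟩ := h
  change v20 = v17 - v18 at h20
  obtain ⟨v21, h21, h⟩ := h
  change v21 = v13 * v20 at h21
  obtain ⟨v22, h22, h⟩ := h
  change v22 = v13 * v19 at h22
  obtain ⟨ηq, e_ηq_d⟩ : ∃ q : ℂ, q = I * (w : ℂ) * (((2 * w : ℝ) : ℂ) * uu 0 - (d : ℂ) * y) := ⟨_, rfl⟩
  have e_ηq_re : v22 = ηq.re := by
    rw [e_ηq_d]
    simp only [uu0_re, uu0_im, h22, h19, e_d_v, e_y_im, e_w_v, mul_re, mul_im, add_re, add_im, sub_re, sub_im, neg_re, neg_im, I_re, I_im, ofReal_re,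
      ofReal_im, one_re, one_im, zero_re, zero_im, dt, normSq_apply, re_ofNat, im_ofNat, conj_re, conj_im]
    try ring
  have e_ηq_im : v21 = ηq.im := by
    rw [e_ηq_d]
    simp only [uu0_re, uu0_im, h21, h20, h18, h17, h14, e_d_v, e_y_re, e_w_v, mul_re, mul_im, add_re, add_im, sub_re, sub_im, neg_re, neg_im, I_re, I_im, ofReal_re,
      ofReal_im, one_re, one_im, zero_re, zero_im, dt, normSq_apply, re_ofNat, im_ofNat, conj_re, conj_im]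
    try ring
  obtain ⟨v23, h23, h⟩ := h
  change v23 = P.c.b11 at h23
  obtain ⟨v24, h24, h⟩ := h
  change v24 = v0 * v23 at h24
  obtain ⟨v25, h25, h⟩ := h
  change v25 = P.c.b12 at h25
  obtain ⟨v26, h26, h⟩ := h
  change v26 = v1 * v25 at h26
  obtain ⟨v27, h27, h⟩ := h
  change v27 = v24 + v26 at h27
  obtain ⟨v28, h28, h⟩ := h
  change v28 = P.c.q1 at h28
  obtain ⟨v29, h29, h⟩ := h
  change v29 = v2 * v28 at h29
  exact pR0_val_s2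
    P l r s v0 v1 X e_X_d e_X_re e_X_im v2 h2 v3 h3 v4 h4 v5 v6 v7 v8 y e_y_d e_y_re e_y_im v9
    v10 v11 v12 v13 w e_w_d v14 h14 v15 v16 d e_d_d e_d_v v17 v18 v19 v20 v21 v22 ηq e_ηq_d
    e_ηq_re e_ηq_im v23 h23 v24 h24 v25 h25 v26 h26 v27 h27 v28 h28 v29 h29 h

end Pool.H61.Rh
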