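import Pool.Agent.H61.Rz.Rr
import Pool.Agent.H61.Rz.L2

/-! # generated: program `pR2` (crude quantities j = 2, plain coordinates) -/

set_option autoImplicit false
set_option maxRecDepth 100000
set_option linter.unusedVariables false

namespace Pool.H61.Rh

open Complex Pool.H47.Kc

/-- program -/
def pR2 : List Op := [.x, .y, .mul 1 1, .mul 2 1, .mul 2 2, .base 78, .cst 1 1, .mul 1 0,
  .base 0, .base 1, .add 9 1, .add 9 1, .mul 1 1, .mul 1 1, .add 1 0, .cst 1 0,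
  .sub 0 1, .mul 10 6, .mul 10 6, .add 1 0, .cst 2 0, .mul 1 0, .add 0 6, .mul 6 2,
  .mul 17 0, .mul 17 1, .mul 15 3, .mul 15 4, .add 3 1, .add 3 1, .mul 13 1, .mul 14 1,
  .base 49, .mul 32 0, .base 50, .mul 33 0, .add 2 0, .base 53, .mul 35 0, .base 54,
  .mul 36 0, .add 2 0, .base 55, .mul 38 0, .add 2 0, .add 8 0, .base 51, .mul 46 0,
  .base 52, .mul 47 0, .add 2 0, .base 56, .mul 49 0, .base 57, .mul 50 0, .add 2 0,
  .base 58, .mul 52 0, .add 2 0, .add 8 0, .base 33, .mul 60 0, .base 34, .mul 61 0,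
  .add 2 0, .base 36, .mul 63 0, .base 37, .mul 64 0, .add 2 0, .base 38, .mul 66 0,
  .add 2 0, .add 8 0, .mul 73 11, .base 35, .mul 74 0, .add 2 0, .base 39, .mul 76 0,
  .base 40, .mul 77 0, .add 2 0, .base 41, .mul 79 0, .add 2 0, .add 8 0, .mul 86 55,
  .mul 67 0, .mul 88 58, .mul 88 58, .sub 0 1, .mul 90 61, .mul 72 0, .mul 62 61, .mul 64 60,
  .sub 1 0, .mul 59 8, .mul 58 6, .add 1 0, .mul 57 6, .sub 1 0, .add 5 0, .mul 71 56,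
  .mul 73 55, .sub 1 0, .mul 54 17, .mul 53 15, .add 1 0, .mul 52 15, .sub 1 0, .add 5 0,
  .base 15, .base 5, .base 6, .mul 114 1, .mul 114 1, .add 1 0, .add 5 0, .base 29,
  .base 30, .add 47 1, .add 35 1, .mul 91 1, .mul 93 1, .sub 1 0, .base 69, .base 70,
  .add 68 1, .sub 1 83, .mul 11 1, .mul 12 1, .base 74, .mul 132 0, .base 75, .mul 133 0,
  .add 2 0, .base 76, .mul 137 0, .base 77, .mul 138 0, .add 2 0, .sub 11 5, .sub 11 1,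
  .mul 41 25, .mul 33 26, .mul 123 3, .mul 124 3, .sub 3 1, .sub 3 1, .mul 143 127, .sub 0 25,
  .mul 33 0, .base 71, .base 72, .base 73, .mul 145 0, .mul 145 1, .add 4 1, .add 4 1,
  .mul 17 1, .mul 17 1, .add 1 0, .mul 140 0, .add 11 0, .mul 154 22, .mul 154 22, .add 1 0]

/-- positions of the outputs -/
def pR2_out : List ℕ := [19, 18, 3, 0, 49]

/-- the final condition of the trace -/
def pR2_valQ (P : Pt) (l : List ℝ) (r s : ℝ) (st : List ℝ) : Prop := run (realAlg (fun i => get 0 (P.syl l) i) (r) (s)) pR2 [] = st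

theorem pR2_val_s5 (P : Pt) (l : List ℝ) (r s : ℝ)
    (v0 : ℝ) (v1 : ℝ) (X : ℂ) (e_X_d : X = (⟨r, s⟩ : ℂ)) (e_X_re : v0 = X.re)
    (e_X_im : v1 = X.im) (v2 : ℝ) (v3 : ℝ) (v4 : ℝ) (v5 : ℝ) (v6 : ℝ) (h6 : v6 = (1 : ℝ) / 2 ^ 1)
    (v7 : ℝ) (v8 : ℝ) (v9 : ℝ) (v10 : ℝ) (v11 : ℝ) (y : ℂ) (e_y_d : y = P.ys + X * ((1 : ℝ) : ℂ))
    (e_y_re : v10 = y.re) (e_y_im : v11 = y.im) (v12 : ℝ) (v13 : ℝ) (v14 : ℝ) (v15 : ℝ) (v16 : ℝ)
    (w : ℝ) (e_w_d : w = 1 - normSq y) (v17 : ℝ) (v18 : ℝ) (v19 : ℝ) (v20 : ℝ) (v21 : ℝ)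
    (v22 : ℝ) (d : ℝ) (e_d_d : d = 1 - 2 * dt (uu 2) y) (e_d_v : v22 = d) (v23 : ℝ) (v24 : ℝ)
    (v25 : ℝ) (v26 : ℝ) (v27 : ℝ) (v28 : ℝ) (v29 : ℝ) (v30 : ℝ) (v31 : ℝ) (ηq : ℂ)
    (e_ηq_d : ηq = I * (w : ℂ) * (((2 * w : ℝ) : ℂ) * uu 2 - (d : ℂ) * y)) (v32 : ℝ) (v33 : ℝ)
    (v34 : ℝ) (v35 : ℝ) (v36 : ℝ) (v37 : ℝ) (v38 : ℝ) (v39 : ℝ) (v40 : ℝ) (v41 : ℝ) (v42 : ℝ)
    (v43 : ℝ) (v44 : ℝ) (v45 : ℝ) (v46 : ℝ) (v47 : ℝ) (v48 : ℝ) (v49 : ℝ) (v50 : ℝ) (v51 : ℝ)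
    (v52 : ℝ) (v53 : ℝ) (v54 : ℝ) (v55 : ℝ) (v56 : ℝ) (v57 : ℝ) (v58 : ℝ) (v59 : ℝ) (B : ℂ)
    (e_B_d : B = VBr P.c 1 X) (e_B_re : v45 = B.re) (e_B_im : v59 = B.im) (v60 : ℝ) (v61 : ℝ)
    (v62 : ℝ) (v63 : ℝ) (v64 : ℝ) (v65 : ℝ) (v66 : ℝ) (v67 : ℝ) (v68 : ℝ) (v69 : ℝ) (v70 : ℝ)
    (v71 : ℝ) (v72 : ℝ) (v73 : ℝ) (v74 : ℝ) (v75 : ℝ) (v76 : ℝ) (v77 : ℝ) (v78 : ℝ) (v79 : ℝ)
    (v80 : ℝ) (v81 : ℝ) (v82 : ℝ) (v83 : ℝ) (v84 : ℝ) (v85 : ℝ) (v86 : ℝ) (Ax : ℂ)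
    (e_Ax_d : Ax = VAxr P.c 1 X) (v87 : ℝ) (v88 : ℝ) (v89 : ℝ) (v90 : ℝ) (v91 : ℝ) (v92 : ℝ)
    (v93 : ℝ) (v94 : ℝ) (v95 : ℝ) (v96 : ℝ) (v97 : ℝ) (v98 : ℝ) (v99 : ℝ) (v100 : ℝ) (v101 : ℝ)
    (v102 : ℝ) (v103 : ℝ) (v104 : ℝ) (v105 : ℝ) (v106 : ℝ) (v107 : ℝ) (v108 : ℝ) (v109 : ℝ)
    (v110 : ℝ) (v111 : ℝ) (DB : ℂ) (e_DB_d : DB = VBd P.c (X * ((1 : ℝ) : ℂ)) ηq)
    (e_DB_re : v102 = DB.re) (e_DB_im : v111 = DB.im) (v112 : ℝ) (v113 : ℝ) (v114 : ℝ) (v115 : ℝ)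
    (v116 : ℝ) (v117 : ℝ) (v118 : ℝ) (f : ℝ) (e_f_d : f = P.fs + dt P.ns X * 1)
    (e_f_v : v118 = f) (v119 : ℝ) (v120 : ℝ) (v121 : ℝ) (v122 : ℝ) (v123 : ℝ) (v124 : ℝ)
    (v125 : ℝ) (AV : ℝ) (e_AV_d : AV = dt (P.a + Ax * ((1 : ℝ) : ℂ)) ηq) (e_AV_v : v125 = AV)
    (v126 : ℝ) (h126 : v126 = (-((1 / 2 + oc : ℝ) : ℂ) * P.vs - I * P.b).re) (v127 : ℝ)
    (h127 : v127 = (-((1 / 2 + oc : ℝ) : ℂ) * P.vs - I * P.b).im) (v128 : ℝ)
    (h128 : v128 = v59 + v126) (v129 : ℝ) (h129 : v129 = v127 - v45) (v130 : ℝ)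
    (h130 : v130 = v118 * v128) (v131 : ℝ) (h131 : v131 = v118 * v129) (v132 : ℝ)
    (h132 : v132 = (P.M 1).re / 6) (v133 : ℝ) (h133 : v133 = v0 * v132) (v134 : ℝ)
    (h134 : v134 = (P.M I).re / 6) (v135 : ℝ) (h135 : v135 = v1 * v134) (v136 : ℝ)
    (h136 : v136 = v133 + v135) (v137 : ℝ) (h137 : v137 = (P.M 1).im / 6) (v138 : ℝ)
    (h138 : v138 = v0 * v137) (v139 : ℝ) (h139 : v139 = (P.M I).im / 6) (v140 : ℝ)
    (h140 : v140 = v1 * v139) (v141 : ℝ) (h141 : v141 = v138 + v140) (v142 : ℝ)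
    (h142 : v142 = v130 - v136)
    (h : TrE (realAlg (fun i => get 0 (P.syl l) i) (r) (s))
    [.sub 11 1, .mul 41 25, .mul 33 26, .mul 123 3, .mul 124 3, .sub 3 1, .sub 3 1, .mul 143 127,
    .sub 0 25, .mul 33 0, .base 71, .base 72, .base 73, .mul 145 0, .mul 145 1, .add 4 1,
    .add 4 1, .mul 17 1, .mul 17 1, .add 1 0, .mul 140 0, .add 11 0, .mul 154 22, .mul 154 22,
    .add 1 0]
    [v142, v141, v140, v139, v138, v137, v136, v135, v134, v133, v132, v131, v130, v129, v128,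
    v127, v126, v125, v124, v123, v122, v121, v120, v119, v118, v117, v116, v115, v114, v113,
    v112, v111, v110, v109, v108, v107, v106, v105, v104, v103, v102, v101, v100, v99, v98, v97,
    v96, v95, v94, v93, v92, v91, v90, v89, v88, v87, v86, v85, v84, v83, v82, v81, v80, v79,
    v78, v77, v76, v75, v74, v73, v72, v71, v70, v69, v68, v67, v66, v65, v64, v63, v62, v61,
    v60, v59, v58, v57, v56, v55, v54, v53, v52, v51, v50, v49, v48, v47, v46, v45, v44, v43,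
    v42, v41, v40, v39, v38, v37, v36, v35, v34, v33, v32, v31, v30, v29, v28, v27, v26, v25,
    v24, v23, v22, v21, v20, v19, v18, v17, v16, v15, v14, v13, v12, v11, v10, v9, v8, v7, v6,
    v5, v4, v3, v2, v1, v0]
    (pR2_valQ P l r s)) :
    OutEq (run (realAlg (fun i => get 0 (P.syl l) i) (r) (s)) pR2 []) pR2_out
      [(P.fqr 1 ⟨r, s⟩ (ηd 2 (P.yr 1 ⟨r, s⟩)) (1 - 2 * dt (uu 2) (P.yr 1 ⟨r, s⟩))).re,
      (P.fqr 1 ⟨r, s⟩ (ηd 2 (P.yr 1 ⟨r, s⟩)) (1 - 2 * dt (uu 2) (P.yr 1 ⟨r, s⟩))).im,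
      P.ctr 1 ⟨r, s⟩ (ηd 2 (P.yr 1 ⟨r, s⟩)) (1 - 2 * dt (uu 2) (P.yr 1 ⟨r, s⟩)), dt (P.fpr 1 ⟨r, s⟩) (P.yr 1 ⟨r, s⟩), P.fr 1 ⟨r, s⟩] := by
  obtain ⟨v143, h143, h⟩ := h
  change v143 = v131 - v141 at h143
  obtain ⟨fp, e_fp_d⟩ : ∃ q : ℂ, q = (-((1 / 2 + oc : ℝ) : ℂ) * P.vs - I * P.b - I * (B * ((1 : ℝ) : ℂ))) * (f : ℂ) - P.M X * ((1 : ℝ) : ℂ) / 6 := ⟨_, rfl⟩
  have e_fp_re : v142 = fp.re := by
    rw [e_fp_d]
    simp only [M_re P X, M_im P X, div_ofNat_re, div_ofNat_im, h142, h136, h135, h134, h133, h132, h130, h128, h126, e_X_im, e_X_re, e_B_im, e_f_v, mul_re, mul_im, add_re, add_im, sub_re, sub_im, neg_re, neg_im, I_re, I_im, ofReal_re,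
      ofReal_im, one_re, one_im, zero_re, zero_im, dt, normSq_apply, re_ofNat, im_ofNat, conj_re, conj_im]
    try ring
  have e_fp_im : v143 = fp.im := by
    rw [e_fp_d]
    simp only [M_re P X, M_im P X, div_ofNat_re, div_ofNat_im, h143, h141, h140, h139, h138, h137, h131, h129, h127, e_X_im, e_X_re, e_B_re, e_f_v, mul_re, mul_im, add_re, add_im, sub_re, sub_im, neg_re, neg_im, I_re, I_im, ofReal_re,
      ofReal_im, one_re, one_im, zero_re, zero_im, dt, normSq_apply, re_ofNat, im_ofNat, conj_re, conj_im]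
    try ring
  obtain ⟨v144, h144, h⟩ := h
  change v144 = v102 * v118 at h144
  obtain ⟨v145, h145, h⟩ := h
  change v145 = v111 * v118 at h145
  obtain ⟨v146, h146, h⟩ := h
  change v146 = v22 * v142 at h146
  obtain ⟨v147, h147, h⟩ := h
  change v147 = v22 * v143 at h147
  obtain ⟨v148, h148, h⟩ := h
  change v148 = v144 - v146 at h148
  obtain ⟨v149, h149, h⟩ := h
  change v149 = v145 - v147 at h149
  obtain ⟨fqd, e_fqd_d⟩ : ∃ q : ℂ, q = DB * (f : ℂ) - fp * (d : ℂ) := ⟨_, rfl⟩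
  have e_fqd_re : v148 = fqd.re := by
    rw [e_fqd_d]
    simp only [h148, h146, h144, e_fp_re, e_d_v, e_f_v, e_DB_re, mul_re, mul_im, add_re, add_im, sub_re, sub_im, neg_re, neg_im, I_re, I_im, ofReal_re,
      ofReal_im, one_re, one_im, zero_re, zero_im, dt, normSq_apply, re_ofNat, im_ofNat, conj_re, conj_im]
    try ring
  have e_fqd_im : v149 = fqd.im := by
    rw [e_fqd_d]
    simp only [h149, h147, h145, e_fp_im, e_d_v, e_f_v, e_DB_im, mul_re, mul_im, add_re, add_im, sub_re, sub_im, neg_re, neg_im, I_re, I_im, ofReal_re,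
      ofReal_im, one_re, one_im, zero_re, zero_im, dt, normSq_apply, re_ofNat, im_ofNat, conj_re, conj_im]
    try ring
  obtain ⟨v150, h150, h⟩ := h
  change v150 = v6 * v22 at h150
  obtain ⟨v151, h151, h⟩ := h
  change v151 = v150 - v125 at h151
  obtain ⟨v152, h152, h⟩ := h
  change v152 = v118 * v151 at h152
  obtain ⟨v153, h153, h⟩ := h
  change v153 = P.vs.re at h153
  obtain ⟨v154, h154, h⟩ := h
  change v154 = P.vs.im at h154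
  obtain ⟨v155, h155, h⟩ := h
  change v155 = P.rs at h155
  obtain ⟨v156, h156, h⟩ := h
  change v156 = v10 * v155 at h156
  obtain ⟨v157, h157, h⟩ := h
  change v157 = v11 * v155 at h157
  obtain ⟨v158, h158, h⟩ := h
  change v158 = v153 + v156 at h158
  obtain ⟨v159, h159, h⟩ := h
  change v159 = v154 + v157 at h159
  obtain ⟨v160, h160, h⟩ := h
  change v160 = v142 * v158 at h160
  obtain ⟨v161, h161, h⟩ := h
  change v161 = v143 * v159 at h161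
  obtain ⟨v162, h162, h⟩ := h
  change v162 = v160 + v161 at h162
  obtain ⟨v163, h163, h⟩ := h
  change v163 = v22 * v162 at h163
  obtain ⟨v164, h164, h⟩ := h
  change v164 = v152 + v163 at h164
  obtain ⟨ctd, e_ctd_d⟩ : ∃ q : ℝ, q = f * (d * (1 / 2) - AV) + dt fp (P.vs + y * (P.rs : ℂ)) * d := ⟨_, rfl⟩
  have e_ctd_v : v164 = ctd := by
    rw [e_ctd_d]
    simp only [h164, h163, h162, h161, h160, h159, h158, h157, h156, h155, h154, h153, h152, h151, h150, h6, e_y_im, e_fp_im, e_y_re, e_fp_re, e_d_v, e_AV_v, e_f_v, mul_re, mul_im, add_re, add_im, sub_re, sub_im, neg_re, neg_im, I_re, I_im, ofReal_re,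
      ofReal_im, one_re, one_im, zero_re, zero_im, dt, normSq_apply, re_ofNat, im_ofNat, conj_re, conj_im]
    try ring
  obtain ⟨v165, h165, h⟩ := h
  change v165 = v10 * v142 at h165
  obtain ⟨v166, h166, h⟩ := h
  change v166 = v11 * v143 at h166
  obtain ⟨v167, h167, h⟩ := h
  change v167 = v165 + v166 at h167
  obtain ⟨fy, e_fy_d⟩ : ∃ q : ℝ, q = dt fp y := ⟨_, rfl⟩
  have e_fy_v : v167 = fy := by
    rw [e_fy_d]
    simp only [h167, h166, h165, e_fp_im, e_y_im, e_fp_re, e_y_re, mul_re, mul_im, add_re, add_im, sub_re, sub_im, neg_re, neg_im, I_re, I_im, ofReal_re,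
      ofReal_im, one_re, one_im, zero_re, zero_im, dt, normSq_apply, re_ofNat, im_ofNat, conj_re, conj_im]
    try ring
  obtain ⟨o_qr, e_o_qr_d⟩ : ∃ q : ℝ, q = fqd.re := ⟨_, rfl⟩
  have a_o_qr : fqd.re = fqd.re := by
    rfl
  have e_o_qr_v : v148 = o_qr := by
    rw [e_o_qr_d, a_o_qr]
    simp only [e_fqd_re, mul_re, mul_im, add_re, add_im, sub_re, sub_im, neg_re, neg_im, I_re, I_im, ofReal_re,
      ofReal_im, one_re, one_im, zero_re, zero_im, dt, normSq_apply, re_ofNat, im_ofNat, conj_re, conj_im]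
    try ring
  obtain ⟨o_qi, e_o_qi_d⟩ : ∃ q : ℝ, q = fqd.im := ⟨_, rfl⟩
  have a_o_qi : fqd.im = fqd.im := by
    rfl
  have e_o_qi_v : v149 = o_qi := by
    rw [e_o_qi_d, a_o_qi]
    simp only [e_fqd_im, mul_re, mul_im, add_re, add_im, sub_re, sub_im, neg_re, neg_im, I_re, I_im, ofReal_re,
      ofReal_im, one_re, one_im, zero_re, zero_im, dt, normSq_apply, re_ofNat, im_ofNat, conj_re, conj_im]
    try ring
  obtain ⟨o_ct, e_o_ct_d⟩ : ∃ q : ℝ, q = ctd := ⟨_, rfl⟩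
  have a_o_ct : ctd = ctd := by
    rfl
  have e_o_ct_v : v164 = o_ct := by
    rw [e_o_ct_d, a_o_ct]
    simp only [e_ctd_v, mul_re, mul_im, add_re, add_im, sub_re, sub_im, neg_re, neg_im, I_re, I_im, ofReal_re,
      ofReal_im, one_re, one_im, zero_re, zero_im, dt, normSq_apply, re_ofNat, im_ofNat, conj_re, conj_im]
    try ring
  obtain ⟨o_fy, e_o_fy_d⟩ : ∃ q : ℝ, q = fy := ⟨_, rfl⟩
  have a_o_fy : fy = fy := by
    rfl
  have e_o_fy_v : v167 = o_fy := by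
    rw [e_o_fy_d, a_o_fy]
    simp only [e_fy_v, mul_re, mul_im, add_re, add_im, sub_re, sub_im, neg_re, neg_im, I_re, I_im, ofReal_re,
      ofReal_im, one_re, one_im, zero_re, zero_im, dt, normSq_apply, re_ofNat, im_ofNat, conj_re, conj_im]
    try ring
  obtain ⟨o_f, e_o_f_d⟩ : ∃ q : ℝ, q = f := ⟨_, rfl⟩
  have a_o_f : f = f := by
    rfl
  have e_o_f_v : v118 = o_f := by
    rw [e_o_f_d, a_o_f]
    simp only [e_f_v, mul_re, mul_im, add_re, add_im, sub_re, sub_im, neg_re, neg_im, I_re, I_im, ofReal_re,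
      ofReal_im, one_re, one_im, zero_re, zero_im, dt, normSq_apply, re_ofNat, im_ofNat, conj_re, conj_im]
    try ring
  refine OutEq_of h ?_
  refine ⟨e_o_qr_v.trans ?_, e_o_qi_v.trans ?_, e_o_ct_v.trans ?_, e_o_fy_v.trans ?_, e_o_f_v.trans ?_, trivial⟩
  all_goals
    subst o_f o_fy o_ct o_qi o_qr fy ctd fqd fp AV f DB Ax B ηq d w y X
    rfl

theorem pR2_val_s4 (P : Pt) (l : List ℝ) (r s : ℝ)
    (v0 : ℝ) (v1 : ℝ) (X : ℂ) (e_X_d : X = (⟨r, s⟩ : ℂ)) (e_X_re : v0 = X.re)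
    (e_X_im : v1 = X.im) (v2 : ℝ) (v3 : ℝ) (v4 : ℝ) (v5 : ℝ) (v6 : ℝ) (h6 : v6 = (1 : ℝ) / 2 ^ 1)
    (v7 : ℝ) (v8 : ℝ) (v9 : ℝ) (v10 : ℝ) (v11 : ℝ) (y : ℂ) (e_y_d : y = P.ys + X * ((1 : ℝ) : ℂ))
    (e_y_re : v10 = y.re) (e_y_im : v11 = y.im) (v12 : ℝ) (v13 : ℝ) (v14 : ℝ) (v15 : ℝ) (v16 : ℝ)
    (w : ℝ) (e_w_d : w = 1 - normSq y) (v17 : ℝ) (v18 : ℝ) (v19 : ℝ) (v20 : ℝ)
    (h20 : v20 = (2 : ℝ)) (v21 : ℝ) (v22 : ℝ) (d : ℝ) (e_d_d : d = 1 - 2 * dt (uu 2) y)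
    (e_d_v : v22 = d) (v23 : ℝ) (v24 : ℝ) (v25 : ℝ) (v26 : ℝ) (v27 : ℝ) (v28 : ℝ) (v29 : ℝ)
    (v30 : ℝ) (v31 : ℝ) (ηq : ℂ)
    (e_ηq_d : ηq = I * (w : ℂ) * (((2 * w : ℝ) : ℂ) * uu 2 - (d : ℂ) * y))
    (e_ηq_re : v31 = ηq.re) (e_ηq_im : v30 = -ηq.im) (v32 : ℝ) (h32 : v32 = P.c.b11) (v33 : ℝ)
    (v34 : ℝ) (h34 : v34 = P.c.b12) (v35 : ℝ) (v36 : ℝ) (v37 : ℝ) (h37 : v37 = P.c.q1) (v38 : ℝ)
    (v39 : ℝ) (h39 : v39 = P.c.q2) (v40 : ℝ) (v41 : ℝ) (v42 : ℝ) (h42 : v42 = P.c.q3) (v43 : ℝ)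
    (v44 : ℝ) (v45 : ℝ) (v46 : ℝ) (h46 : v46 = P.c.b21) (v47 : ℝ) (v48 : ℝ) (h48 : v48 = P.c.b22)
    (v49 : ℝ) (v50 : ℝ) (v51 : ℝ) (h51 : v51 = P.c.q4) (v52 : ℝ) (v53 : ℝ) (h53 : v53 = P.c.q5)
    (v54 : ℝ) (v55 : ℝ) (v56 : ℝ) (h56 : v56 = P.c.q6) (v57 : ℝ) (v58 : ℝ) (v59 : ℝ) (B : ℂ)
    (e_B_d : B = VBr P.c 1 X) (e_B_re : v45 = B.re) (e_B_im : v59 = B.im) (v60 : ℝ) (v61 : ℝ)
    (v62 : ℝ) (v63 : ℝ) (v64 : ℝ) (v65 : ℝ) (v66 : ℝ) (v67 : ℝ) (v68 : ℝ) (v69 : ℝ) (v70 : ℝ)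
    (v71 : ℝ) (v72 : ℝ) (v73 : ℝ) (v74 : ℝ) (v75 : ℝ) (v76 : ℝ) (v77 : ℝ) (v78 : ℝ) (v79 : ℝ)
    (v80 : ℝ) (v81 : ℝ) (v82 : ℝ) (v83 : ℝ) (v84 : ℝ) (v85 : ℝ) (v86 : ℝ) (Ax : ℂ)
    (e_Ax_d : Ax = VAxr P.c 1 X) (e_Ax_re : v73 = Ax.re) (e_Ax_im : v86 = Ax.im) (v87 : ℝ)
    (h87 : v87 = v0 * v31) (v88 : ℝ) (h88 : v88 = v20 * v87) (v89 : ℝ) (h89 : v89 = v0 * v30)
    (v90 : ℝ) (h90 : v90 = v1 * v31) (v91 : ℝ) (h91 : v91 = v90 - v89) (v92 : ℝ)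
    (h92 : v92 = v1 * v30) (v93 : ℝ) (h93 : v93 = v20 * v92) (v94 : ℝ) (h94 : v94 = v31 * v32)
    (v95 : ℝ) (h95 : v95 = v30 * v34) (v96 : ℝ) (h96 : v96 = v94 - v95) (v97 : ℝ)
    (h97 : v97 = v37 * v88) (v98 : ℝ) (h98 : v98 = v39 * v91) (v99 : ℝ) (h99 : v99 = v97 + v98)
    (v100 : ℝ) (h100 : v100 = v42 * v93) (v101 : ℝ) (h101 : v101 = v99 - v100) (v102 : ℝ)
    (h102 : v102 = v96 + v101) (v103 : ℝ) (h103 : v103 = v31 * v46) (v104 : ℝ)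
    (h104 : v104 = v30 * v48) (v105 : ℝ) (h105 : v105 = v103 - v104) (v106 : ℝ)
    (h106 : v106 = v51 * v88)
    (h : TrE (realAlg (fun i => get 0 (P.syl l) i) (r) (s))
    [.mul 53 15, .add 1 0, .mul 52 15, .sub 1 0, .add 5 0, .base 15, .base 5, .base 6,
    .mul 114 1, .mul 114 1, .add 1 0, .add 5 0, .base 29, .base 30, .add 47 1, .add 35 1,
    .mul 91 1, .mul 93 1, .sub 1 0, .base 69, .base 70, .add 68 1, .sub 1 83, .mul 11 1,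
    .mul 12 1, .base 74, .mul 132 0, .base 75, .mul 133 0, .add 2 0, .base 76, .mul 137 0,
    .base 77, .mul 138 0, .add 2 0, .sub 11 5, .sub 11 1, .mul 41 25, .mul 33 26, .mul 123 3,
    .mul 124 3, .sub 3 1, .sub 3 1, .mul 143 127, .sub 0 25, .mul 33 0, .base 71, .base 72,
    .base 73, .mul 145 0, .mul 145 1, .add 4 1, .add 4 1, .mul 17 1, .mul 17 1, .add 1 0,
    .mul 140 0, .add 11 0, .mul 154 22, .mul 154 22, .add 1 0]
    [v106, v105, v104, v103, v102, v101, v100, v99, v98, v97, v96, v95, v94, v93, v92, v91, v90,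
    v89, v88, v87, v86, v85, v84, v83, v82, v81, v80, v79, v78, v77, v76, v75, v74, v73, v72,
    v71, v70, v69, v68, v67, v66, v65, v64, v63, v62, v61, v60, v59, v58, v57, v56, v55, v54,
    v53, v52, v51, v50, v49, v48, v47, v46, v45, v44, v43, v42, v41, v40, v39, v38, v37, v36,
    v35, v34, v33, v32, v31, v30, v29, v28, v27, v26, v25, v24, v23, v22, v21, v20, v19, v18,
    v17, v16, v15, v14, v13, v12, v11, v10, v9, v8, v7, v6, v5, v4, v3, v2, v1, v0]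
    (pR2_valQ P l r s)) :
    OutEq (run (realAlg (fun i => get 0 (P.syl l) i) (r) (s)) pR2 []) pR2_out
      [(P.fqr 1 ⟨r, s⟩ (ηd 2 (P.yr 1 ⟨r, s⟩)) (1 - 2 * dt (uu 2) (P.yr 1 ⟨r, s⟩))).re,
      (P.fqr 1 ⟨r, s⟩ (ηd 2 (P.yr 1 ⟨r, s⟩)) (1 - 2 * dt (uu 2) (P.yr 1 ⟨r, s⟩))).im,
      P.ctr 1 ⟨r, s⟩ (ηd 2 (P.yr 1 ⟨r, s⟩)) (1 - 2 * dt (uu 2) (P.yr 1 ⟨r, s⟩)), dt (P.fpr 1 ⟨r, s⟩) (P.yr 1 ⟨r, s⟩), P.fr 1 ⟨r, s⟩] := by
  obtain ⟨v107, h107, h⟩ := h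
  change v107 = v53 * v91 at h107
  obtain ⟨v108, h108, h⟩ := h
  change v108 = v106 + v107 at h108
  obtain ⟨v109, h109, h⟩ := h
  change v109 = v56 * v93 at h109
  obtain ⟨v110, h110, h⟩ := h
  change v110 = v108 - v109 at h110
  obtain ⟨v111, h111, h⟩ := h
  change v111 = v105 + v110 at h111
  obtain ⟨DB, e_DB_d⟩ : ∃ q : ℂ, q = VBd P.c (X * ((1 : ℝ) : ℂ)) ηq := ⟨_, rfl⟩
  have e_DB_re : v102 = DB.re := by
    rw [e_DB_d]
    simp only [VBd_re, VBd_im, h102, h101, h100, h99, h98, h97, h96, h95, h94, h93, h92, h91, h90, h89, h88, h87, h42, h39, h37, h34, h32, h20, e_ηq_im, e_X_im, e_X_re, e_ηq_re, mul_re, mul_im, add_re, add_im, sub_re, sub_im, neg_re, neg_im, I_re, I_im, ofReal_re,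
      ofReal_im, one_re, one_im, zero_re, zero_im, dt, normSq_apply, re_ofNat, im_ofNat, conj_re, conj_im]
    try ring
  have e_DB_im : v111 = DB.im := by
    rw [e_DB_d]
    simp only [VBd_re, VBd_im, h111, h110, h109, h108, h107, h106, h105, h104, h103, h93, h92, h91, h90, h89, h88, h87, h56, h53, h51, h48, h46, h20, e_ηq_im, e_X_im, e_X_re, e_ηq_re, mul_re, mul_im, add_re, add_im, sub_re, sub_im, neg_re, neg_im, I_re, I_im, ofReal_re,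
      ofReal_im, one_re, one_im, zero_re, zero_im, dt, normSq_apply, re_ofNat, im_ofNat, conj_re, conj_im]
    try ring
  obtain ⟨v112, h112, h⟩ := h
  change v112 = P.fs at h112
  obtain ⟨v113, h113, h⟩ := h
  change v113 = P.ns.re at h113
  obtain ⟨v114, h114, h⟩ := h
  change v114 = P.ns.im at h114
  obtain ⟨v115, h115, h⟩ := h
  change v115 = v0 * v113 at h115
  obtain ⟨v116, h116, h⟩ := h
  change v116 = v1 * v114 at h116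
  obtain ⟨v117, h117, h⟩ := h
  change v117 = v115 + v116 at h117
  obtain ⟨v118, h118, h⟩ := h
  change v118 = v112 + v117 at h118
  obtain ⟨f, e_f_d⟩ : ∃ q : ℝ, q = P.fs + dt P.ns X * 1 := ⟨_, rfl⟩
  have e_f_v : v118 = f := by
    rw [e_f_d]
    simp only [h118, h117, h116, h115, h114, h113, h112, e_X_im, e_X_re, mul_re, mul_im, add_re, add_im, sub_re, sub_im, neg_re, neg_im, I_re, I_im, ofReal_re,
      ofReal_im, one_re, one_im, zero_re, zero_im, dt, normSq_apply, re_ofNat, im_ofNat, conj_re, conj_im]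
    try ring
  obtain ⟨v119, h119, h⟩ := h
  change v119 = P.a.re at h119
  obtain ⟨v120, h120, h⟩ := h
  change v120 = P.a.im at h120
  obtain ⟨v121, h121, h⟩ := h
  change v121 = v73 + v119 at h121
  obtain ⟨v122, h122, h⟩ := h
  change v122 = v86 + v120 at h122
  obtain ⟨v123, h123, h⟩ := h
  change v123 = v31 * v121 at h123
  obtain ⟨v124, h124, h⟩ := h
  change v124 = v30 * v122 at h124
  obtain ⟨v125, h125, h⟩ := h
  change v125 = v123 - v124 at h125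
  obtain ⟨AV, e_AV_d⟩ : ∃ q : ℝ, q = dt (P.a + Ax * ((1 : ℝ) : ℂ)) ηq := ⟨_, rfl⟩
  have e_AV_v : v125 = AV := by
    rw [e_AV_d]
    simp only [h125, h124, h123, h122, h121, h120, h119, e_Ax_im, e_ηq_im, e_Ax_re, e_ηq_re, mul_re, mul_im, add_re, add_im, sub_re, sub_im, neg_re, neg_im, I_re, I_im, ofReal_re,
      ofReal_im, one_re, one_im, zero_re, zero_im, dt, normSq_apply, re_ofNat, im_ofNat, conj_re, conj_im]
    try ring
  obtain ⟨v126, h126, h⟩ := h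
  change v126 = (-((1 / 2 + oc : ℝ) : ℂ) * P.vs - I * P.b).re at h126
  obtain ⟨v127, h127, h⟩ := h
  change v127 = (-((1 / 2 + oc : ℝ) : ℂ) * P.vs - I * P.b).im at h127
  obtain ⟨v128, h128, h⟩ := h
  change v128 = v59 + v126 at h128
  obtain ⟨v129, h129, h⟩ := h
  change v129 = v127 - v45 at h129
  obtain ⟨v130, h130, h⟩ := h
  change v130 = v118 * v128 at h130
  obtain ⟨v131, h131, h⟩ := h
  change v131 = v118 * v129 at h131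
  obtain ⟨v132, h132, h⟩ := h
  change v132 = (P.M 1).re / 6 at h132
  obtain ⟨v133, h133, h⟩ := h
  change v133 = v0 * v132 at h133
  obtain ⟨v134, h134, h⟩ := h
  change v134 = (P.M I).re / 6 at h134
  obtain ⟨v135, h135, h⟩ := h
  change v135 = v1 * v134 at h135
  obtain ⟨v136, h136, h⟩ := h
  change v136 = v133 + v135 at h136
  obtain ⟨v137, h137, h⟩ := h
  change v137 = (P.M 1).im / 6 at h137
  obtain ⟨v138, h138, h⟩ := h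
  change v138 = v0 * v137 at h138
  obtain ⟨v139, h139, h⟩ := h
  change v139 = (P.M I).im / 6 at h139
  obtain ⟨v140, h140, h⟩ := h
  change v140 = v1 * v139 at h140
  obtain ⟨v141, h141, h⟩ := h
  change v141 = v138 + v140 at h141
  obtain ⟨v142, h142, h⟩ := h
  change v142 = v130 - v136 at h142
  exact pR2_val_s5
    P l r s v0 v1 X e_X_d e_X_re e_X_im v2 v3 v4 v5 v6 h6 v7 v8 v9 v10 v11 y e_y_d e_y_re e_y_im
    v12 v13 v14 v15 v16 w e_w_d v17 v18 v19 v20 v21 v22 d e_d_d e_d_v v23 v24 v25 v26 v27 v28 v29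
    v30 v31 ηq e_ηq_d v32 v33 v34 v35 v36 v37 v38 v39 v40 v41 v42 v43 v44 v45 v46 v47 v48 v49 v50
    v51 v52 v53 v54 v55 v56 v57 v58 v59 B e_B_d e_B_re e_B_im v60 v61 v62 v63 v64 v65 v66 v67 v68
    v69 v70 v71 v72 v73 v74 v75 v76 v77 v78 v79 v80 v81 v82 v83 v84 v85 v86 Ax e_Ax_d v87 v88 v89
    v90 v91 v92 v93 v94 v95 v96 v97 v98 v99 v100 v101 v102 v103 v104 v105 v106 v107 v108 v109
    v110 v111 DB e_DB_d e_DB_re e_DB_im v112 v113 v114 v115 v116 v117 v118 f e_f_d e_f_v v119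
    v120 v121 v122 v123 v124 v125 AV e_AV_d e_AV_v v126 h126 v127 h127 v128 h128 v129 h129 v130
    h130 v131 h131 v132 h132 v133 h133 v134 h134 v135 h135 v136 h136 v137 h137 v138 h138 v139
    h139 v140 h140 v141 h141 v142 h142 h

theorem pR2_val_s3 (P : Pt) (l : List ℝ) (r s : ℝ)
    (v0 : ℝ) (v1 : ℝ) (X : ℂ) (e_X_d : X = (⟨r, s⟩ : ℂ)) (e_X_re : v0 = X.re)
    (e_X_im : v1 = X.im) (v2 : ℝ) (h2 : v2 = v0 * v0) (v3 : ℝ) (h3 : v3 = v0 * v1) (v4 : ℝ)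
    (h4 : v4 = v1 * v1) (v5 : ℝ) (v6 : ℝ) (h6 : v6 = (1 : ℝ) / 2 ^ 1) (v7 : ℝ) (v8 : ℝ) (v9 : ℝ)
    (v10 : ℝ) (v11 : ℝ) (y : ℂ) (e_y_d : y = P.ys + X * ((1 : ℝ) : ℂ)) (e_y_re : v10 = y.re)
    (e_y_im : v11 = y.im) (v12 : ℝ) (v13 : ℝ) (v14 : ℝ) (v15 : ℝ) (v16 : ℝ) (w : ℝ)
    (e_w_d : w = 1 - normSq y) (v17 : ℝ) (v18 : ℝ) (v19 : ℝ) (v20 : ℝ) (h20 : v20 = (2 : ℝ))
    (v21 : ℝ) (v22 : ℝ) (d : ℝ) (e_d_d : d = 1 - 2 * dt (uu 2) y) (e_d_v : v22 = d) (v23 : ℝ)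
    (v24 : ℝ) (v25 : ℝ) (v26 : ℝ) (v27 : ℝ) (v28 : ℝ) (v29 : ℝ) (v30 : ℝ) (v31 : ℝ) (ηq : ℂ)
    (e_ηq_d : ηq = I * (w : ℂ) * (((2 * w : ℝ) : ℂ) * uu 2 - (d : ℂ) * y))
    (e_ηq_re : v31 = ηq.re) (e_ηq_im : v30 = -ηq.im) (v32 : ℝ) (h32 : v32 = P.c.b11) (v33 : ℝ)
    (v34 : ℝ) (h34 : v34 = P.c.b12) (v35 : ℝ) (v36 : ℝ) (v37 : ℝ) (h37 : v37 = P.c.q1) (v38 : ℝ)
    (v39 : ℝ) (h39 : v39 = P.c.q2) (v40 : ℝ) (v41 : ℝ) (v42 : ℝ) (h42 : v42 = P.c.q3) (v43 : ℝ)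
    (v44 : ℝ) (v45 : ℝ) (v46 : ℝ) (h46 : v46 = P.c.b21) (v47 : ℝ) (v48 : ℝ) (h48 : v48 = P.c.b22)
    (v49 : ℝ) (v50 : ℝ) (v51 : ℝ) (h51 : v51 = P.c.q4) (v52 : ℝ) (v53 : ℝ) (h53 : v53 = P.c.q5)
    (v54 : ℝ) (v55 : ℝ) (v56 : ℝ) (h56 : v56 = P.c.q6) (v57 : ℝ) (v58 : ℝ) (v59 : ℝ) (B : ℂ)
    (e_B_d : B = VBr P.c 1 X) (e_B_re : v45 = B.re) (e_B_im : v59 = B.im) (v60 : ℝ)
    (h60 : v60 = 2 * P.c.a20) (v61 : ℝ) (h61 : v61 = v0 * v60) (v62 : ℝ) (h62 : v62 = P.c.a11)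
    (v63 : ℝ) (h63 : v63 = v1 * v62) (v64 : ℝ) (h64 : v64 = v61 + v63) (v65 : ℝ)
    (h65 : v65 = 3 * P.c.a30) (v66 : ℝ) (h66 : v66 = v2 * v65) (v67 : ℝ)
    (h67 : v67 = 2 * P.c.a21) (v68 : ℝ) (h68 : v68 = v3 * v67) (v69 : ℝ) (h69 : v69 = v66 + v68)
    (h : TrE (realAlg (fun i => get 0 (P.syl l) i) (r) (s))
    [.base 38, .mul 66 0, .add 2 0, .add 8 0, .mul 73 11, .base 35, .mul 74 0, .add 2 0,
    .base 39, .mul 76 0, .base 40, .mul 77 0, .add 2 0, .base 41, .mul 79 0, .add 2 0, .add 8 0,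
    .mul 86 55, .mul 67 0, .mul 88 58, .mul 88 58, .sub 0 1, .mul 90 61, .mul 72 0, .mul 62 61,
    .mul 64 60, .sub 1 0, .mul 59 8, .mul 58 6, .add 1 0, .mul 57 6, .sub 1 0, .add 5 0,
    .mul 71 56, .mul 73 55, .sub 1 0, .mul 54 17, .mul 53 15, .add 1 0, .mul 52 15, .sub 1 0,
    .add 5 0, .base 15, .base 5, .base 6, .mul 114 1, .mul 114 1, .add 1 0, .add 5 0, .base 29,
    .base 30, .add 47 1, .add 35 1, .mul 91 1, .mul 93 1, .sub 1 0, .base 69, .base 70,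
    .add 68 1, .sub 1 83, .mul 11 1, .mul 12 1, .base 74, .mul 132 0, .base 75, .mul 133 0,
    .add 2 0, .base 76, .mul 137 0, .base 77, .mul 138 0, .add 2 0, .sub 11 5, .sub 11 1,
    .mul 41 25, .mul 33 26, .mul 123 3, .mul 124 3, .sub 3 1, .sub 3 1, .mul 143 127, .sub 0 25,
    .mul 33 0, .base 71, .base 72, .base 73, .mul 145 0, .mul 145 1, .add 4 1, .add 4 1,
    .mul 17 1, .mul 17 1, .add 1 0, .mul 140 0, .add 11 0, .mul 154 22, .mul 154 22, .add 1 0]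
    [v69, v68, v67, v66, v65, v64, v63, v62, v61, v60, v59, v58, v57, v56, v55, v54, v53, v52,
    v51, v50, v49, v48, v47, v46, v45, v44, v43, v42, v41, v40, v39, v38, v37, v36, v35, v34,
    v33, v32, v31, v30, v29, v28, v27, v26, v25, v24, v23, v22, v21, v20, v19, v18, v17, v16,
    v15, v14, v13, v12, v11, v10, v9, v8, v7, v6, v5, v4, v3, v2, v1, v0]
    (pR2_valQ P l r s)) :
    OutEq (run (realAlg (fun i => get 0 (P.syl l) i) (r) (s)) pR2 []) pR2_out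
      [(P.fqr 1 ⟨r, s⟩ (ηd 2 (P.yr 1 ⟨r, s⟩)) (1 - 2 * dt (uu 2) (P.yr 1 ⟨r, s⟩))).re,
      (P.fqr 1 ⟨r, s⟩ (ηd 2 (P.yr 1 ⟨r, s⟩)) (1 - 2 * dt (uu 2) (P.yr 1 ⟨r, s⟩))).im,
      P.ctr 1 ⟨r, s⟩ (ηd 2 (P.yr 1 ⟨r, s⟩)) (1 - 2 * dt (uu 2) (P.yr 1 ⟨r, s⟩)), dt (P.fpr 1 ⟨r, s⟩) (P.yr 1 ⟨r, s⟩), P.fr 1 ⟨r, s⟩] := by
  obtain ⟨v70, h70, h⟩ := h
  change v70 = P.c.a12 at h70
  obtain ⟨v71, h71, h⟩ := h
  change v71 = v4 * v70 at h71
  obtain ⟨v72, h72, h⟩ := h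
  change v72 = v69 + v71 at h72
  obtain ⟨v73, h73, h⟩ := h
  change v73 = v64 + v72 at h73
  obtain ⟨v74, h74, h⟩ := h
  change v74 = v0 * v62 at h74
  obtain ⟨v75, h75, h⟩ := h
  change v75 = 2 * P.c.a02 at h75
  obtain ⟨v76, h76, h⟩ := h
  change v76 = v1 * v75 at h76
  obtain ⟨v77, h77, h⟩ := h
  change v77 = v74 + v76 at h77
  obtain ⟨v78, h78, h⟩ := h
  change v78 = P.c.a21 at h78
  obtain ⟨v79, h79, h⟩ := h
  change v79 = v2 * v78 at h79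
  obtain ⟨v80, h80, h⟩ := h
  change v80 = 2 * P.c.a12 at h80
  obtain ⟨v81, h81, h⟩ := h
  change v81 = v3 * v80 at h81
  obtain ⟨v82, h82, h⟩ := h
  change v82 = v79 + v81 at h82
  obtain ⟨v83, h83, h⟩ := h
  change v83 = 3 * P.c.a03 at h83
  obtain ⟨v84, h84, h⟩ := h
  change v84 = v4 * v83 at h84
  obtain ⟨v85, h85, h⟩ := h
  change v85 = v82 + v84 at h85
  obtain ⟨v86, h86, h⟩ := h
  change v86 = v77 + v85 at h86
  obtain ⟨Ax, e_Ax_d⟩ : ∃ q : ℂ, q = VAxr P.c 1 X := ⟨_, rfl⟩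
  have e_Ax_re : v73 = Ax.re := by
    rw [e_Ax_d]
    simp only [VAxr_re, VAxr_im, h73, h72, h71, h70, h69, h68, h67, h66, h65, h64, h63, h62, h61, h60, h4, h3, h2, e_X_im, e_X_re, mul_re, mul_im, add_re, add_im, sub_re, sub_im, neg_re, neg_im, I_re, I_im, ofReal_re,
      ofReal_im, one_re, one_im, zero_re, zero_im, dt, normSq_apply, re_ofNat, im_ofNat, conj_re, conj_im]
    try ring
  have e_Ax_im : v86 = Ax.im := by
    rw [e_Ax_d]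
    simp only [VAxr_re, VAxr_im, h86, h85, h84, h83, h82, h81, h80, h79, h78, h77, h76, h75, h74, h62, h4, h3, h2, e_X_im, e_X_re, mul_re, mul_im, add_re, add_im, sub_re, sub_im, neg_re, neg_im, I_re, I_im, ofReal_re,
      ofReal_im, one_re, one_im, zero_re, zero_im, dt, normSq_apply, re_ofNat, im_ofNat, conj_re, conj_im]
    try ring
  obtain ⟨v87, h87, h⟩ := h
  change v87 = v0 * v31 at h87
  obtain ⟨v88, h88, h⟩ := h
  change v88 = v20 * v87 at h88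
  obtain ⟨v89, h89, h⟩ := h
  change v89 = v0 * v30 at h89
  obtain ⟨v90, h90, h⟩ := h
  change v90 = v1 * v31 at h90
  obtain ⟨v91, h91, h⟩ := h
  change v91 = v90 - v89 at h91
  obtain ⟨v92, h92, h⟩ := h
  change v92 = v1 * v30 at h92
  obtain ⟨v93, h93, h⟩ := h
  change v93 = v20 * v92 at h93
  obtain ⟨v94, h94, h⟩ := h
  change v94 = v31 * v32 at h94
  obtain ⟨v95, h95, h⟩ := h
  change v95 = v30 * v34 at h95
  obtain ⟨v96, h96, h⟩ := h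
  change v96 = v94 - v95 at h96
  obtain ⟨v97, h97, h⟩ := h
  change v97 = v37 * v88 at h97
  obtain ⟨v98, h98, h⟩ := h
  change v98 = v39 * v91 at h98
  obtain ⟨v99, h99, h⟩ := h
  change v99 = v97 + v98 at h99
  obtain ⟨v100, h100, h⟩ := h
  change v100 = v42 * v93 at h100
  obtain ⟨v101, h101, h⟩ := h
  change v101 = v99 - v100 at h101
  obtain ⟨v102, h102, h⟩ := h
  change v102 = v96 + v101 at h102
  obtain ⟨v103, h103, h⟩ := h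
  change v103 = v31 * v46 at h103
  obtain ⟨v104, h104, h⟩ := h
  change v104 = v30 * v48 at h104
  obtain ⟨v105, h105, h⟩ := h
  change v105 = v103 - v104 at h105
  obtain ⟨v106, h106, h⟩ := h
  change v106 = v51 * v88 at h106
  exact pR2_val_s4
    P l r s v0 v1 X e_X_d e_X_re e_X_im v2 v3 v4 v5 v6 h6 v7 v8 v9 v10 v11 y e_y_d e_y_re e_y_im
    v12 v13 v14 v15 v16 w e_w_d v17 v18 v19 v20 h20 v21 v22 d e_d_d e_d_v v23 v24 v25 v26 v27 v28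
    v29 v30 v31 ηq e_ηq_d e_ηq_re e_ηq_im v32 h32 v33 v34 h34 v35 v36 v37 h37 v38 v39 h39 v40 v41
    v42 h42 v43 v44 v45 v46 h46 v47 v48 h48 v49 v50 v51 h51 v52 v53 h53 v54 v55 v56 h56 v57 v58
    v59 B e_B_d e_B_re e_B_im v60 v61 v62 v63 v64 v65 v66 v67 v68 v69 v70 v71 v72 v73 v74 v75 v76
    v77 v78 v79 v80 v81 v82 v83 v84 v85 v86 Ax e_Ax_d e_Ax_re e_Ax_im v87 h87 v88 h88 v89 h89 v90
    h90 v91 h91 v92 h92 v93 h93 v94 h94 v95 h95 v96 h96 v97 h97 v98 h98 v99 h99 v100 h100 v101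
    h101 v102 h102 v103 h103 v104 h104 v105 h105 v106 h106 h

theorem pR2_val_s2 (P : Pt) (l : List ℝ) (r s : ℝ)
    (v0 : ℝ) (v1 : ℝ) (X : ℂ) (e_X_d : X = (⟨r, s⟩ : ℂ)) (e_X_re : v0 = X.re)
    (e_X_im : v1 = X.im) (v2 : ℝ) (h2 : v2 = v0 * v0) (v3 : ℝ) (h3 : v3 = v0 * v1) (v4 : ℝ)
    (h4 : v4 = v1 * v1) (v5 : ℝ) (v6 : ℝ) (h6 : v6 = (1 : ℝ) / 2 ^ 1) (v7 : ℝ) (v8 : ℝ) (v9 : ℝ)
    (v10 : ℝ) (v11 : ℝ) (y : ℂ) (e_y_d : y = P.ys + X * ((1 : ℝ) : ℂ)) (e_y_re : v10 = y.re)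
    (e_y_im : v11 = y.im) (v12 : ℝ) (v13 : ℝ) (v14 : ℝ) (v15 : ℝ) (v16 : ℝ) (w : ℝ)
    (e_w_d : w = 1 - normSq y) (v17 : ℝ) (v18 : ℝ) (v19 : ℝ) (v20 : ℝ) (h20 : v20 = (2 : ℝ))
    (v21 : ℝ) (v22 : ℝ) (d : ℝ) (e_d_d : d = 1 - 2 * dt (uu 2) y) (e_d_v : v22 = d) (v23 : ℝ)
    (v24 : ℝ) (v25 : ℝ) (v26 : ℝ) (v27 : ℝ) (v28 : ℝ) (v29 : ℝ) (v30 : ℝ) (v31 : ℝ) (ηq : ℂ)
    (e_ηq_d : ηq = I * (w : ℂ) * (((2 * w : ℝ) : ℂ) * uu 2 - (d : ℂ) * y))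
    (e_ηq_re : v31 = ηq.re) (e_ηq_im : v30 = -ηq.im)
    (h : TrE (realAlg (fun i => get 0 (P.syl l) i) (r) (s))
    [.base 49, .mul 32 0, .base 50, .mul 33 0, .add 2 0, .base 53, .mul 35 0, .base 54,
    .mul 36 0, .add 2 0, .base 55, .mul 38 0, .add 2 0, .add 8 0, .base 51, .mul 46 0, .base 52,
    .mul 47 0, .add 2 0, .base 56, .mul 49 0, .base 57, .mul 50 0, .add 2 0, .base 58, .mul 52 0,
    .add 2 0, .add 8 0, .base 33, .mul 60 0, .base 34, .mul 61 0, .add 2 0, .base 36, .mul 63 0,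
    .base 37, .mul 64 0, .add 2 0, .base 38, .mul 66 0, .add 2 0, .add 8 0, .mul 73 11, .base 35,
    .mul 74 0, .add 2 0, .base 39, .mul 76 0, .base 40, .mul 77 0, .add 2 0, .base 41, .mul 79 0,
    .add 2 0, .add 8 0, .mul 86 55, .mul 67 0, .mul 88 58, .mul 88 58, .sub 0 1, .mul 90 61,
    .mul 72 0, .mul 62 61, .mul 64 60, .sub 1 0, .mul 59 8, .mul 58 6, .add 1 0, .mul 57 6,
    .sub 1 0, .add 5 0, .mul 71 56, .mul 73 55, .sub 1 0, .mul 54 17, .mul 53 15, .add 1 0,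
    .mul 52 15, .sub 1 0, .add 5 0, .base 15, .base 5, .base 6, .mul 114 1, .mul 114 1, .add 1 0,
    .add 5 0, .base 29, .base 30, .add 47 1, .add 35 1, .mul 91 1, .mul 93 1, .sub 1 0, .base 69,
    .base 70, .add 68 1, .sub 1 83, .mul 11 1, .mul 12 1, .base 74, .mul 132 0, .base 75,
    .mul 133 0, .add 2 0, .base 76, .mul 137 0, .base 77, .mul 138 0, .add 2 0, .sub 11 5,
    .sub 11 1, .mul 41 25, .mul 33 26, .mul 123 3, .mul 124 3, .sub 3 1, .sub 3 1, .mul 143 127,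
    .sub 0 25, .mul 33 0, .base 71, .base 72, .base 73, .mul 145 0, .mul 145 1, .add 4 1,
    .add 4 1, .mul 17 1, .mul 17 1, .add 1 0, .mul 140 0, .add 11 0, .mul 154 22, .mul 154 22,
    .add 1 0]
    [v31, v30, v29, v28, v27, v26, v25, v24, v23, v22, v21, v20, v19, v18, v17, v16, v15, v14,
    v13, v12, v11, v10, v9, v8, v7, v6, v5, v4, v3, v2, v1, v0]
    (pR2_valQ P l r s)) :
    OutEq (run (realAlg (fun i => get 0 (P.syl l) i) (r) (s)) pR2 []) pR2_out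
      [(P.fqr 1 ⟨r, s⟩ (ηd 2 (P.yr 1 ⟨r, s⟩)) (1 - 2 * dt (uu 2) (P.yr 1 ⟨r, s⟩))).re,
      (P.fqr 1 ⟨r, s⟩ (ηd 2 (P.yr 1 ⟨r, s⟩)) (1 - 2 * dt (uu 2) (P.yr 1 ⟨r, s⟩))).im,
      P.ctr 1 ⟨r, s⟩ (ηd 2 (P.yr 1 ⟨r, s⟩)) (1 - 2 * dt (uu 2) (P.yr 1 ⟨r, s⟩)), dt (P.fpr 1 ⟨r, s⟩) (P.yr 1 ⟨r, s⟩), P.fr 1 ⟨r, s⟩] := by
  obtain ⟨v32, h32, h⟩ := h
  change v32 = P.c.b11 at h32
  obtain ⟨v33, h33, h⟩ := h
  change v33 = v0 * v32 at h33
  obtain ⟨v34, h34, h⟩ := h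
  change v34 = P.c.b12 at h34
  obtain ⟨v35, h35, h⟩ := h
  change v35 = v1 * v34 at h35
  obtain ⟨v36, h36, h⟩ := h
  change v36 = v33 + v35 at h36
  obtain ⟨v37, h37, h⟩ := h
  change v37 = P.c.q1 at h37
  obtain ⟨v38, h38, h⟩ := h
  change v38 = v2 * v37 at h38
  obtain ⟨v39, h39, h⟩ := h
  change v39 = P.c.q2 at h39
  obtain ⟨v40, h40, h⟩ := h
  change v40 = v3 * v39 at h40
  obtain ⟨v41, h41, h⟩ := h
  change v41 = v38 + v40 at h41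
  obtain ⟨v42, h42, h⟩ := h
  change v42 = P.c.q3 at h42
  obtain ⟨v43, h43, h⟩ := h
  change v43 = v4 * v42 at h43
  obtain ⟨v44, h44, h⟩ := h
  change v44 = v41 + v43 at h44
  obtain ⟨v45, h45, h⟩ := h
  change v45 = v36 + v44 at h45
  obtain ⟨v46, h46, h⟩ := h
  change v46 = P.c.b21 at h46
  obtain ⟨v47, h47, h⟩ := h
  change v47 = v0 * v46 at h47
  obtain ⟨v48, h48, h⟩ := h
  change v48 = P.c.b22 at h48
  obtain ⟨v49, h49, h⟩ := h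
  change v49 = v1 * v48 at h49
  obtain ⟨v50, h50, h⟩ := h
  change v50 = v47 + v49 at h50
  obtain ⟨v51, h51, h⟩ := h
  change v51 = P.c.q4 at h51
  obtain ⟨v52, h52, h⟩ := h
  change v52 = v2 * v51 at h52
  obtain ⟨v53, h53, h⟩ := h
  change v53 = P.c.q5 at h53
  obtain ⟨v54, h54, h⟩ := h
  change v54 = v3 * v53 at h54
  obtain ⟨v55, h55, h⟩ := h
  change v55 = v52 + v54 at h55
  obtain ⟨v56, h56, h⟩ := h
  change v56 = P.c.q6 at h56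
  obtain ⟨v57, h57, h⟩ := h
  change v57 = v4 * v56 at h57
  obtain ⟨v58, h58, h⟩ := h
  change v58 = v55 + v57 at h58
  obtain ⟨v59, h59, h⟩ := h
  change v59 = v50 + v58 at h59
  obtain ⟨B, e_B_d⟩ : ∃ q : ℂ, q = VBr P.c 1 X := ⟨_, rfl⟩
  have e_B_re : v45 = B.re := by
    rw [e_B_d]
    simp only [VBr_re, VBr_im, h45, h44, h43, h42, h41, h40, h39, h38, h37, h36, h35, h34, h33, h32, h4, h3, h2, e_X_im, e_X_re, mul_re, mul_im, add_re, add_im, sub_re, sub_im, neg_re, neg_im, I_re, I_im, ofReal_re,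
      ofReal_im, one_re, one_im, zero_re, zero_im, dt, normSq_apply, re_ofNat, im_ofNat, conj_re, conj_im]
    try ring
  have e_B_im : v59 = B.im := by
    rw [e_B_d]
    simp only [VBr_re, VBr_im, h59, h58, h57, h56, h55, h54, h53, h52, h51, h50, h49, h48, h47, h46, h4, h3, h2, e_X_im, e_X_re, mul_re, mul_im, add_re, add_im, sub_re, sub_im, neg_re, neg_im, I_re, I_im, ofReal_re,
      ofReal_im, one_re, one_im, zero_re, zero_im, dt, normSq_apply, re_ofNat, im_ofNat, conj_re, conj_im]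
    try ring
  obtain ⟨v60, h60, h⟩ := h
  change v60 = 2 * P.c.a20 at h60
  obtain ⟨v61, h61, h⟩ := h
  change v61 = v0 * v60 at h61
  obtain ⟨v62, h62, h⟩ := h
  change v62 = P.c.a11 at h62
  obtain ⟨v63, h63, h⟩ := h
  change v63 = v1 * v62 at h63
  obtain ⟨v64, h64, h⟩ := h
  change v64 = v61 + v63 at h64
  obtain ⟨v65, h65, h⟩ := h
  change v65 = 3 * P.c.a30 at h65
  obtain ⟨v66, h66, h⟩ := h
  change v66 = v2 * v65 at h66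
  obtain ⟨v67, h67, h⟩ := h
  change v67 = 2 * P.c.a21 at h67
  obtain ⟨v68, h68, h⟩ := h
  change v68 = v3 * v67 at h68
  obtain ⟨v69, h69, h⟩ := h
  change v69 = v66 + v68 at h69
  exact pR2_val_s3
    P l r s v0 v1 X e_X_d e_X_re e_X_im v2 h2 v3 h3 v4 h4 v5 v6 h6 v7 v8 v9 v10 v11 y e_y_d
    e_y_re e_y_im v12 v13 v14 v15 v16 w e_w_d v17 v18 v19 v20 h20 v21 v22 d e_d_d e_d_v v23 v24
    v25 v26 v27 v28 v29 v30 v31 ηq e_ηq_d e_ηq_re e_ηq_im v32 h32 v33 v34 h34 v35 v36 v37 h37 v38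
    v39 h39 v40 v41 v42 h42 v43 v44 v45 v46 h46 v47 v48 h48 v49 v50 v51 h51 v52 v53 h53 v54 v55
    v56 h56 v57 v58 v59 B e_B_d e_B_re e_B_im v60 h60 v61 h61 v62 h62 v63 h63 v64 h64 v65 h65 v66
    h66 v67 h67 v68 h68 v69 h69 h

theorem pR2_val (P : Pt) (l : List ℝ) (r s : ℝ) :
    OutEq (run (realAlg (fun i => get 0 (P.syl l) i) (r) (s)) pR2 []) pR2_out
      [(P.fqr 1 ⟨r, s⟩ (ηd 2 (P.yr 1 ⟨r, s⟩)) (1 - 2 * dt (uu 2) (P.yr 1 ⟨r, s⟩))).re,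
      (P.fqr 1 ⟨r, s⟩ (ηd 2 (P.yr 1 ⟨r, s⟩)) (1 - 2 * dt (uu 2) (P.yr 1 ⟨r, s⟩))).im,
      P.ctr 1 ⟨r, s⟩ (ηd 2 (P.yr 1 ⟨r, s⟩)) (1 - 2 * dt (uu 2) (P.yr 1 ⟨r, s⟩)), dt (P.fpr 1 ⟨r, s⟩) (P.yr 1 ⟨r, s⟩), P.fr 1 ⟨r, s⟩] := by
  have h : TrE (realAlg (fun i => get 0 (P.syl l) i) (r) (s))
    [.x, .y, .mul 1 1, .mul 2 1, .mul 2 2, .base 78, .cst 1 1, .mul 1 0, .base 0, .base 1,
    .add 9 1, .add 9 1, .mul 1 1, .mul 1 1, .add 1 0, .cst 1 0, .sub 0 1, .mul 10 6, .mul 10 6,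
    .add 1 0, .cst 2 0, .mul 1 0, .add 0 6, .mul 6 2, .mul 17 0, .mul 17 1, .mul 15 3, .mul 15 4,
    .add 3 1, .add 3 1, .mul 13 1, .mul 14 1, .base 49, .mul 32 0, .base 50, .mul 33 0, .add 2 0,
    .base 53, .mul 35 0, .base 54, .mul 36 0, .add 2 0, .base 55, .mul 38 0, .add 2 0, .add 8 0,
    .base 51, .mul 46 0, .base 52, .mul 47 0, .add 2 0, .base 56, .mul 49 0, .base 57, .mul 50 0,
    .add 2 0, .base 58, .mul 52 0, .add 2 0, .add 8 0, .base 33, .mul 60 0, .base 34, .mul 61 0,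
    .add 2 0, .base 36, .mul 63 0, .base 37, .mul 64 0, .add 2 0, .base 38, .mul 66 0, .add 2 0,
    .add 8 0, .mul 73 11, .base 35, .mul 74 0, .add 2 0, .base 39, .mul 76 0, .base 40,
    .mul 77 0, .add 2 0, .base 41, .mul 79 0, .add 2 0, .add 8 0, .mul 86 55, .mul 67 0,
    .mul 88 58, .mul 88 58, .sub 0 1, .mul 90 61, .mul 72 0, .mul 62 61, .mul 64 60, .sub 1 0,
    .mul 59 8, .mul 58 6, .add 1 0, .mul 57 6, .sub 1 0, .add 5 0, .mul 71 56, .mul 73 55,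
    .sub 1 0, .mul 54 17, .mul 53 15, .add 1 0, .mul 52 15, .sub 1 0, .add 5 0, .base 15,
    .base 5, .base 6, .mul 114 1, .mul 114 1, .add 1 0, .add 5 0, .base 29, .base 30, .add 47 1,
    .add 35 1, .mul 91 1, .mul 93 1, .sub 1 0, .base 69, .base 70, .add 68 1, .sub 1 83,
    .mul 11 1, .mul 12 1, .base 74, .mul 132 0, .base 75, .mul 133 0, .add 2 0, .base 76,
    .mul 137 0, .base 77, .mul 138 0, .add 2 0, .sub 11 5, .sub 11 1, .mul 41 25, .mul 33 26,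
    .mul 123 3, .mul 124 3, .sub 3 1, .sub 3 1, .mul 143 127, .sub 0 25, .mul 33 0, .base 71,
    .base 72, .base 73, .mul 145 0, .mul 145 1, .add 4 1, .add 4 1, .mul 17 1, .mul 17 1,
    .add 1 0, .mul 140 0, .add 11 0, .mul 154 22, .mul 154 22, .add 1 0] []
    (pR2_valQ P l r s) := trE_runst _ pR2
  obtain ⟨v0, h0, h⟩ := h
  change v0 = r at h0
  obtain ⟨v1, h1, h⟩ := h
  change v1 = s at h1
  obtain ⟨X, e_X_d⟩ : ∃ q : ℂ, q = (⟨r, s⟩ : ℂ) := ⟨_, rfl⟩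
  have e_X_re : v0 = X.re := by
    rw [e_X_d]
    simp only [h0, mul_re, mul_im, add_re, add_im, sub_re, sub_im, neg_re, neg_im, I_re, I_im, ofReal_re,
      ofReal_im, one_re, one_im, zero_re, zero_im, dt, normSq_apply, re_ofNat, im_ofNat, conj_re, conj_im]
    try ring
  have e_X_im : v1 = X.im := by
    rw [e_X_d]
    simp only [h1, mul_re, mul_im, add_re, add_im, sub_re, sub_im, neg_re, neg_im, I_re, I_im, ofReal_re,
      ofReal_im, one_re, one_im, zero_re, zero_im, dt, normSq_apply, re_ofNat, im_ofNat, conj_re, conj_im]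
    try ring
  obtain ⟨v2, h2, h⟩ := h
  change v2 = v0 * v0 at h2
  obtain ⟨v3, h3, h⟩ := h
  change v3 = v0 * v1 at h3
  obtain ⟨v4, h4, h⟩ := h
  change v4 = v1 * v1 at h4
  obtain ⟨v5, h5, h⟩ := h
  change v5 = s3 at h5
  obtain ⟨v6, h6, h⟩ := h
  replace h6 : v6 = (1 : ℝ) / 2 ^ 1 := by rw [h6]; norm_num [step, realAlg]
  obtain ⟨v7, h7, h⟩ := h
  change v7 = v5 * v6 at h7
  obtain ⟨v8, h8, h⟩ := h
  change v8 = P.ys.re at h8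
  obtain ⟨v9, h9, h⟩ := h
  change v9 = P.ys.im at h9
  obtain ⟨v10, h10, h⟩ := h
  change v10 = v0 + v8 at h10
  obtain ⟨v11, h11, h⟩ := h
  change v11 = v1 + v9 at h11
  obtain ⟨y, e_y_d⟩ : ∃ q : ℂ, q = P.ys + X * ((1 : ℝ) : ℂ) := ⟨_, rfl⟩
  have e_y_re : v10 = y.re := by
    rw [e_y_d]
    simp only [h10, h8, e_X_re, mul_re, mul_im, add_re, add_im, sub_re, sub_im, neg_re, neg_im, I_re, I_im, ofReal_re,
      ofReal_im, one_re, one_im, zero_re, zero_im, dt, normSq_apply, re_ofNat, im_ofNat, conj_re, conj_im]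
    try ring
  have e_y_im : v11 = y.im := by
    rw [e_y_d]
    simp only [h11, h9, e_X_im, mul_re, mul_im, add_re, add_im, sub_re, sub_im, neg_re, neg_im, I_re, I_im, ofReal_re,
      ofReal_im, one_re, one_im, zero_re, zero_im, dt, normSq_apply, re_ofNat, im_ofNat, conj_re, conj_im]
    try ring
  obtain ⟨v12, h12, h⟩ := h
  change v12 = v10 * v10 at h12
  obtain ⟨v13, h13, h⟩ := h
  change v13 = v11 * v11 at h13
  obtain ⟨v14, h14, h⟩ := h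
  change v14 = v12 + v13 at h14
  obtain ⟨v15, h15, h⟩ := h
  replace h15 : v15 = (1 : ℝ) := by rw [h15]; norm_num [step, realAlg]
  obtain ⟨v16, h16, h⟩ := h
  change v16 = v15 - v14 at h16
  obtain ⟨w, e_w_d⟩ : ∃ q : ℝ, q = 1 - normSq y := ⟨_, rfl⟩
  have e_w_v : v16 = w := by
    rw [e_w_d]
    simp only [h16, h15, h14, h13, h12, e_y_im, e_y_re, mul_re, mul_im, add_re, add_im, sub_re, sub_im, neg_re, neg_im, I_re, I_im, ofReal_re,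
      ofReal_im, one_re, one_im, zero_re, zero_im, dt, normSq_apply, re_ofNat, im_ofNat, conj_re, conj_im]
    try ring
  obtain ⟨v17, h17, h⟩ := h
  change v17 = v6 * v10 at h17
  obtain ⟨v18, h18, h⟩ := h
  change v18 = v7 * v11 at h18
  obtain ⟨v19, h19, h⟩ := h
  change v19 = v17 + v18 at h19
  obtain ⟨v20, h20, h⟩ := h
  replace h20 : v20 = (2 : ℝ) := by rw [h20]; norm_num [step, realAlg]
  obtain ⟨v21, h21, h⟩ := h
  change v21 = v19 * v20 at h21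
  obtain ⟨v22, h22, h⟩ := h
  change v22 = v21 + v15 at h22
  obtain ⟨d, e_d_d⟩ : ∃ q : ℝ, q = 1 - 2 * dt (uu 2) y := ⟨_, rfl⟩
  have e_d_v : v22 = d := by
    rw [e_d_d]
    simp only [uu2_re, uu2_im, h22, h21, h20, h19, h18, h17, h15, h7, h6, h5, e_y_im, e_y_re, mul_re, mul_im, add_re, add_im, sub_re, sub_im, neg_re, neg_im, I_re, I_im, ofReal_re,
      ofReal_im, one_re, one_im, zero_re, zero_im, dt, normSq_apply, re_ofNat, im_ofNat, conj_re, conj_im]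
    try ring
  obtain ⟨v23, h23, h⟩ := h
  change v23 = v16 * v20 at h23
  obtain ⟨v24, h24, h⟩ := h
  change v24 = v6 * v23 at h24
  obtain ⟨v25, h25, h⟩ := h
  change v25 = v7 * v23 at h25
  obtain ⟨v26, h26, h⟩ := h
  change v26 = v10 * v22 at h26
  obtain ⟨v27, h27, h⟩ := h
  change v27 = v11 * v22 at h27
  obtain ⟨v28, h28, h⟩ := h
  change v28 = v24 + v26 at h28
  obtain ⟨v29, h29, h⟩ := h
  change v29 = v25 + v27 at h29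
  obtain ⟨v30, h30, h⟩ := h
  change v30 = v16 * v28 at h30
  obtain ⟨v31, h31, h⟩ := h
  change v31 = v16 * v29 at h31
  obtain ⟨ηq, e_ηq_d⟩ : ∃ q : ℂ, q = I * (w : ℂ) * (((2 * w : ℝ) : ℂ) * uu 2 - (d : ℂ) * y) := ⟨_, rfl⟩
  have e_ηq_re : v31 = ηq.re := by
    rw [e_ηq_d]
    simp only [uu2_re, uu2_im, h31, h29, h27, h25, h23, h20, h7, h6, h5, e_d_v, e_y_im, e_w_v, mul_re, mul_im, add_re, add_im, sub_re, sub_im, neg_re, neg_im, I_re, I_im, ofReal_re,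
      ofReal_im, one_re, one_im, zero_re, zero_im, dt, normSq_apply, re_ofNat, im_ofNat, conj_re, conj_im]
    try ring
  have e_ηq_im : v30 = -ηq.im := by
    rw [e_ηq_d]
    simp only [uu2_re, uu2_im, h30, h28, h26, h24, h23, h20, h6, e_d_v, e_y_re, e_w_v, mul_re, mul_im, add_re, add_im, sub_re, sub_im, neg_re, neg_im, I_re, I_im, ofReal_re,
      ofReal_im, one_re, one_im, zero_re, zero_im, dt, normSq_apply, re_ofNat, im_ofNat, conj_re, conj_im]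
    try ring
  exact pR2_val_s2
    P l r s v0 v1 X e_X_d e_X_re e_X_im v2 h2 v3 h3 v4 h4 v5 v6 h6 v7 v8 v9 v10 v11 y e_y_d
    e_y_re e_y_im v12 v13 v14 v15 v16 w e_w_d v17 v18 v19 v20 h20 v21 v22 d e_d_d e_d_v v23 v24
    v25 v26 v27 v28 v29 v30 v31 ηq e_ηq_d e_ηq_re e_ηq_im h

end Pool.H61.Rh
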