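import Pool.Agent.H61.Rz.L2

/-! # generated: the base symbols of `dB.pt m` as values of a program -/

set_option autoImplicit false
set_option maxRecDepth 100000
set_option linter.unusedVariables false

namespace Pool.H61.Rh

open Complex Pool.H47.Kc

/-- program -/
def pQB : List Op := [.base 0, .base 1, .base 2, .base 3, .base 4, .base 5, .base 6, .base 7,
  .base 8, .base 9, .base 10, .base 11, .base 12, .base 13, .base 14, .base 15,
  .base 16, .base 17, .base 18, .x, .cst 2 0, .mul 20 0, .cst 1 0, .sub 1 0,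
  .mul 21 13, .mul 22 13, .mul 5 1, .sub 0 4, .sub 3 7, .mul 16 0, .mul 28 4, .mul 18 0,
  .mul 30 25, .sub 0 25, .cst 1 1, .mul 1 0, .mul 34 28, .add 30 0, .mul 3 0, .mul 27 3,
  .mul 34 0, .mul 30 2, .mul 39 35, .sub 1 0, .mul 38 0, .mul 37 33, .mul 40 0, .mul 40 36,
  .mul 45 9, .sub 1 0, .mul 44 0, .mul 10 4, .mul 7 1, .sub 0 1, .mul 9 7, .mul 14 4,
  .add 1 0, .mul 42 3, .mul 43 1, .mul 44 1, .mul 45 1, .mul 31 1, .mul 30 1, .add 1 0,
  .sub 41 0, .mul 5 1, .mul 5 2, .sub 37 1, .sub 36 1, .mul 55 53, .mul 1 0, .mul 3 1,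
  .mul 59 48, .mul 60 0, .cst 3 0, .mul 1 0, .mul 55 3, .sub 0 47, .mul 2 0, .mul 47 3,
  .mul 64 0, .mul 65 2, .mul 78 62, .mul 72 71, .cst 93 2, .mul 84 0, .cst (-15) 0, .sub 0 1,
  .mul 62 0, .mul 88 5, .cst 24 0, .mul 1 0, .add 3 0, .mul 92 2, .cst 6 0, .mul 70 0,
  .sub 2 0, .mul 14 0, .add 5 0, .cst 12 0, .mul 99 0, .sub 0 6, .cst 3 2, .mul 102 0,
  .sub 29 0, .mul 80 0, .sub 4 0, .mul 95 95, .mul 107 0, .mul 18 0, .add 3 0, .mul 85 28,
  .mul 17 0, .sub 2 0, .mul 112 0, .cst 9 0, .mul 113 0, .cst 8 0, .mul 107 0, .sub 2 0,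
  .mul 118 0, .mul 109 0, .mul 111 111, .mul 5 0, .sub 99 0, .cst 4 0, .add 1 0, .mul 52 0,
  .sub 2 127, .mul 26 0, .mul 121 0, .mul 129 103, .mul 114 0, .mul 123 123, .mul 1 0, .mul 13 4,
  .mul 8 5, .add 38 1, .add 23 1, .mul 4 1, .mul 5 1, .mul 121 121, .cst 21160355 45, .mul 1 0,
  .cst 20784505 42, .sub 0 1, .mul 4 0, .cst 10128217875 44, .add 1 0, .mul 7 0, .cst 421711404925 45, .sub 1 0,
  .mul 10 0, .cst 713500522835 45, .add 1 0, .cst 187925 42, .mul 14 0, .cst 5149145 42, .sub 0 1, .mul 17 0,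
  .cst 1681815995 45, .add 1 0, .mul 20 0, .cst 59962921075 45, .sub 1 0, .mul 23 0, .cst 370432084665 45, .add 1 0,
  .mul 148 0, .mul 167 0, .cst 223142145 45, .mul 29 0, .cst (-451057585) 43, .sub 0 1, .mul 32 0, .cst 134699115005 44,
  .add 1 0, .mul 35 0, .cst 897639886465 43, .sub 1 0, .mul 38 0, .cst 6654950327245 45, .add 1 0, .cst 9884855 44,
  .mul 42 0, .cst 468346685 45, .sub 0 1, .mul 45 0, .cst 10877587605 44, .add 1 0, .mul 48 0, .cst 691361003415 45,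
  .sub 1 0, .mul 51 0, .cst 1000229722535 43, .add 1 0, .mul 176 0, .mul 195 0, .add 58 28, .add 58 44,
  .mul 120 30, .mul 122 46, .add 1 0, .mul 187 0, .mul 172 5, .mul 127 5, .add 1 0, .mul 130 7,
  .add 1 0, .mul 188 0, .mul 180 0, .mul 179 1, .mul 139 139, .mul 13 0, .mul 88 0, .sub 0 4,
  .mul 140 17, .mul 141 17, .sub 2 0, .sub 2 7, .mul 206 206, .mul 207 161, .mul 208 161, .mul 214 2,
  .mul 203 0, .sub 21 0, .sub 155 3, .sub 5 155, .mul 30 1, .mul 46 1, .add 1 0, .add 5 0,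
  .mul 172 0, .mul 172 1, .add 15 1, .add 15 1, .mul 222 38, .mul 223 54, .sub 0 3, .add 3 2,
  .mul 224 1, .mul 225 1, .mul 182 182, .sub 220 0, .mul 229 0, .mul 185 184, .mul 231 0, .mul 186 186,
  .sub 225 0, .mul 234 0, .mul 235 182, .mul 236 182, .sub 193 181, .sub 181 195, .mul 56 1, .mul 72 1,
  .add 1 0, .mul 225 59, .mul 228 75, .sub 1 0, .mul 200 0, .mul 200 1, .sub 5 58, .mul 12 0,
  .mul 12 1, .sub 1 4, .sub 1 4, .mul 203 69, .mul 204 85, .sub 3 0, .add 3 2, .mul 255 1,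
  .mul 256 1, .mul 200 147, .mul 148 61, .mul 254 245, .mul 244 0, .mul 199 1, .mul 248 4, .sub 4 0,
  .sub 0 204, .sub 0 3, .mul 261 250, .mul 251 0, .mul 206 1, .mul 253 11, .sub 210 2, .add 2 1,
  .mul 274 44, .mul 229 217, .add 1 0, .mul 277 45, .mul 232 221, .sub 0 1, .mul 233 222, .sub 0 3,
  .mul 282 47, .mul 236 226, .add 1 0, .sub 264 290, .mul 9 0, .mul 7 1, .mul 242 30, .mul 243 30,
  .sub 3 1, .sub 3 1, .mul 246 123, .mul 246 124, .mul 63 51, .mul 62 52, .add 3 1, .sub 3 1,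
  .mul 252 114, .sub 2 6, .add 2 1, .sub 10 1, .sub 10 1, .mul 113 72, .mul 114 71, .add 3 1,
  .sub 3 1, .mul 25 21, .mul 23 22, .mul 262 51, .mul 263 51, .sub 3 1, .sub 3 1, .mul 266 129,
  .mul 78 71, .add 19 16, .sub 1 2, .add 23 1, .add 4 1, .add 7 1, .sub 7 1, .mul 131 85,
  .sub 2 17, .add 2 1, .mul 336 265, .mul 323 0, .cst 1 2, .mul 322 0, .cst 2075 18, .sub 0 1,
  .mul 202 0, .cst 981 16, .add 1 0, .mul 205 0, .cst 5999 18, .sub 1 0, .cst 2065 19, .sub 9 0,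
  .mul 210 0, .cst 3153 20, .sub 1 0, .mul 213 0, .cst 7283 20, .add 1 0, .mul 337 14, .mul 217 0,
  .add 0 14, .cst 5 0, .mul 10 0, .mul 221 0, .cst 9459 20, .sub 1 0, .mul 224 0, .add 0 10,
  .mul 348 10, .mul 367 0, .mul 365 350, .mul 350 10, .mul 1 0, .mul 371 368, .mul 6 0, .cst 181 20,
  .mul 234 0, .cst 8087 20, .sub 1 0, .mul 237 0, .cst 3953 19, .add 1 0, .cst 905 20, .mul 241 0,
  .cst 24261 20, .sub 1 0, .mul 244 0, .add 0 6, .mul 368 6, .mul 387 0, .mul 16 2, .cst 569 19,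
  .mul 250 0, .cst 511 19, .sub 0 1, .mul 253 0, .cst 5869 19, .sub 1 0, .cst 73 17, .mul 257 0,
  .cst 4713 20, .sub 1 0, .mul 260 0, .cst 4129 20, .add 1 0, .cst 569 18, .mul 264 0, .sub 13 0,
  .cst 365 17, .mul 267 0, .cst 14139 20, .sub 1 0, .mul 270 0, .add 0 9, .mul 394 9, .mul 413 0,
  .mul 395 8, .mul 46 0, .mul 44 4, .cst 1437 18, .mul 278 0, .cst (-387) 16, .sub 0 1, .mul 281 0,
  .cst 6003 19, .add 1 0, .cst 1601 20, .mul 285 0, .cst 435 18, .add 1 0, .mul 288 0, .cst 3275 20,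
  .sub 1 0, .cst 1437 17, .mul 292 0, .sub 13 0, .cst 8005 20, .mul 295 0, .cst 1305 18, .add 1 0,
  .mul 298 0, .sub 0 9, .mul 422 9, .mul 441 0, .mul 423 8, .mul 74 0, .mul 72 4, .cst 9095 20,
  .mul 306 0, .cst (-30969) 20, .sub 0 1, .mul 309 0, .cst 122079 20, .add 1 0, .cst 413 20, .mul 313 0,
  .cst 4839 18, .sub 1 0, .mul 316 0, .cst 1971 15, .sub 1 0, .cst 9095 19, .mul 320 0, .sub 13 0,
  .cst 2065 20, .mul 323 0, .cst 14517 18, .sub 1 0, .mul 326 0, .sub 0 9, .mul 450 9, .mul 469 0,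
  .mul 451 8, .mul 102 0, .mul 100 4, .cst 9151 20, .mul 334 0, .cst 97979 20, .sub 0 1, .mul 337 0,
  .cst 126429 19, .sub 1 0, .cst 14713 20, .mul 341 0, .cst 21485 20, .sub 1 0, .mul 344 0, .cst 1693 18,
  .add 1 0, .cst 9151 19, .mul 348 0, .sub 13 0, .cst 73565 20, .mul 351 0, .cst 64455 20, .sub 1 0,
  .mul 354 0, .add 0 9, .mul 478 9, .mul 497 0, .mul 479 8, .mul 130 0, .mul 128 4, .cst 1787 19,
  .mul 362 0, .cst 61337 20, .sub 1 0, .mul 365 0, .cst 58727 20, .add 1 0, .cst 2509 20, .mul 369 0,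
  .cst 893 18, .add 1 0, .mul 372 0, .cst 6081 20, .sub 1 0, .cst 1787 18, .mul 376 0, .sub 0 13,
  .cst 12545 20, .mul 379 0, .cst 2679 18, .add 1 0, .mul 382 0, .sub 0 9, .mul 506 9, .mul 525 0,
  .mul 507 8, .mul 158 0, .mul 156 4, .cst 725 18, .mul 390 0, .cst 2265 19, .add 1 0, .mul 393 0,
  .cst 22869 19, .sub 1 0, .cst 2741 19, .mul 397 0, .cst 6215 18, .sub 1 0, .mul 400 0, .cst 9465 19,
  .sub 1 0, .cst 725 17, .mul 404 0, .add 0 13, .cst 13705 19, .mul 407 0, .cst 18645 18, .sub 1 0,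
  .mul 410 0, .sub 0 9, .mul 534 9, .mul 553 0, .mul 535 8, .mul 186 0, .mul 184 4, .cst 32347 20,
  .mul 418 0, .cst 45841 20, .add 1 0, .mul 421 0, .cst 68597 20, .sub 1 0, .cst 5187 20, .mul 425 0,
  .cst 16843 20, .sub 0 1, .mul 428 0, .sub 0 106, .cst 32347 19, .mul 431 0, .add 0 12, .cst 25935 20,
  .mul 434 0, .cst 50529 20, .sub 0 1, .mul 437 0, .sub 0 115, .mul 561 9, .mul 580 0, .mul 562 8,
  .mul 213 0, .mul 211 4, .mul 573 511, .sub 557 514, .cst 0 0, .sub 0 529, .sub 1 529, .sub 2 314,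
  .sub 3 304, .sub 4 346, .sub 5 352, .add 225 205, .sub 206 226, .mul 576 247, .add 182 154, .mul 524 183,
  .sub 156 0, .mul 526 203, .add 176 0, .sub 177 205, .add 132 104, .add 151 123, .sub 152 124, .sub 107 135,
  .add 80 52, .add 26 0, .add 100 72, .mul 590 0, .sub 29 84, .sub 0 57, .sub 104 76, .add 49 0,
  .sub 60 88, .mul 596 0, .sub 80 108, .add 53 0, .mul 599 24, .mul 600 24, .mul 547 23, .mul 602 20,
  .mul 603 23, .mul 550 21, .add 251 235, .sub 236 252, .mul 607 255, .add 210 182, .mul 555 211, .sub 184 0,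
  .mul 557 214, .add 187 0, .sub 188 216, .add 160 132, .add 162 134, .sub 163 135, .sub 135 163, .add 108 80,
  .add 54 0, .add 111 83, .mul 621 0, .sub 57 112, .sub 0 85, .sub 115 87, .add 61 0, .sub 88 116,
  .mul 627 0, .sub 91 119, .add 65 0, .mul 311 24, .mul 312 23, .mul 313 25, .mul 314 24, .mul 315 21,
  .mul 316 24, .mul 317 22, .mul 318 22, .mul 319 22, .mul 320 22, .mul 321 22, .mul 322 21, .mul 323 20,
  .mul 324 19, .mul 325 18, .mul 326 17, .mul 327 16, .add 659 633, .mul 611 0, .mul 611 1, .add 488 1,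
  .sub 1 474, .sub 84 615, .sub 85 615, .mul 658 384, .mul 659 380, .mul 660 383, .mul 661 379]

/-- positions of the outputs -/
def pQB_out : List ℕ := [649, 647, 92, 91, 603, 89, 88, 87, 392, 397, 86, 598, 597, 599, 600, 614, 434, 85, 429, 388, 383, 385, 380, 359, 342, 358, 341, 426, 425, 480, 479, 438, 84, 58, 81, 57, 56, 55, 78, 76, 54, 53, 27, 26, 25, 24, 23, 22, 21, 74, 73, 72, 71, 69, 67, 65, 63, 61, 59, 20, 19, 18, 17, 16, 15, 14, 13, 12, 11, 7, 6, 5, 4, 665, 3, 2, 1, 0]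

/-- the statement of `pQB_val` -/
def pQB_goal (m : ℝ) : Prop :=
    OutEq (run (realAlg (fun i => get 0 (l1 μB m) i) (m / m1) 0) pQB []) pQB_out ((dB.pt m).sy)

theorem pQB_c16 (m : ℝ) {v0 v1 v2 v3 v4 v5 v6 v7 v8 v9 v10 v11 v12 v13 v14 v15 v16 v17 v18 v19 v20 v21 v22 v23 K v24 v25 v26 v27 S v28 v29 v30 v31 : ℝ} {ys : ℂ} {v32 v33 v34 v35 cAv v36 v37 v38 sAv v39 v40 v41 v42 v43 v44 : ℝ} {oav : ℂ} {v45 v46 v47 v48 v49 v50 : ℝ} {obv : ℂ} {v51 v52 v53 v54 v55 v56 v57 v58 : ℝ} {vs : ℂ} {v59 v60 : ℝ} {ns : ℂ} {v61 v62 v63 k0 v64 F v65 v66 v67 v68 : ℝ} {pr : ℂ} {v69 v70 v71 : ℝ} {bs : ℂ} {v72 wd v73 v74 v75 w v76 hh2 v77 : ℝ} {c2 : ℂ} {v78 v79 : ℝ} {V0 : ℂ} {v80 v81 : ℝ} {V0f : ℂ} {v82 mm v83 v84 v85 v86 v87 v88 v89 v90 v91 v92 v93 v94 v95 v96 v97 v98 v99 v100 v101 v102 v103 v104 v105 v106 v107 v108 v109 v110 v111 v112 v113 v114 : ℝ} {tkv : ℂ} {v115 v116 v117 v118 v119 v120 v121 v122 v123 v124 v125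 v126 v127 : ℝ} {pkv : ℂ} {v128 v129 v130 kc v131 v132 v133 v134 kq v135 v136 v137 v138 v139 v140 : ℝ} {qv : ℂ} {v141 t2 v142 v143 v144 v145 v146 v147 v148 v149 v150 v151 v152 v153 v154 v155 v156 v157 v158 v159 v160 v161 v162 v163 v164 v165 v166 v167 v168 v169 : ℝ} {cax : ℂ} {v170 v171 v172 v173 v174 v175 v176 v177 v178 v179 v180 v181 v182 v183 v184 v185 v186 v187 v188 v189 v190 v191 v192 v193 v194 v195 v196 v197 : ℝ} {cbu ae be : ℂ} {v198 v199 : ℝ} {a : ℂ} {v200 v201 v202 v203 aeV v204 v205 v206 v207 v208 v209 v210 v211 v212 v213 v214 v215 v216 v217 v218 v219 : ℝ} {DT : ℂ} {v220 v221 v222 v223 v224 v225 v226 v227 v228 v229 v230 v231 gq v232 v233 v234 v235 v236 v237 v238 v239 v240 v241 : ℝ} {sa : ℂ} {v242 v243 v244 v245 v246 : ℝ} {fv1 : ℂ} {v247 v248 v249 : ℝ} {fvI : ℂ} {v250 v251 : ℝ} {fvs : ℂ} {v252 v253 : ℝ} {zv : ℂ} {v254 v255 v256 bz v257 v258 v259 v260 v261 v262 v263 v264 v265 v266 v267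 v268 v269 v270 v271 v272 : ℝ} {kap : ℂ} {v273 g4 v274 gw v275 v276 v277 v278 v279 v280 v281 : ℝ} {D1 : ℂ} {v282 v283 v284 v285 v286 v287 : ℝ} {DI : ℂ} {v288 v289 v290 v291 v292 v293 : ℝ} {Mq1 : ℂ} {v294 v295 v296 v297 v298 : ℝ} {MqI : ℂ} {v299 hc v300 v301 v302 v303 v304 v305 v306 v307 v308 v309 v310 v311 v312 v313 v314 v315 v316 v317 v318 v319 v320 : ℝ} {Lq1 : ℂ} {v321 v322 v323 v324 v325 v326 v327 v328 v329 v330 v331 v332 v333 v334 v335 v336 v337 : ℝ} {LqI : ℂ} {v338 v339 io v340 v341 v342 v343 v344 v345 v346 v347 v348 v349 v350 v351 v352 v353 v354 v355 v356 v357 v358 v359 v360 v361 v362 v363 v364 v365 v366 v367 v368 v369 : ℝ} {c_xx : ℂ} {v370 v371 v372 v373 v374 : ℝ} {d_xx : ℂ} {v375 v376 v377 v378 v379 v380 v381 v382 v383 v384 v385 v386 v387 v388 v389 : ℝ} {c_xb : ℂ} {v390 : ℝ} {d_xb : ℂ} {v391 v392 v393 v394 v395 v396 v397 v398 v399 v400 v401 v402 v403 v404 v405 v406 v407 v408 v409 v410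 v411 v412 v413 v414 v415 : ℝ} {c_x3 : ℂ} {v416 v417 v418 : ℝ} {d_x3 : ℂ} {v419 v420 v421 v422 v423 v424 v425 v426 v427 v428 v429 v430 v431 v432 v433 v434 v435 v436 v437 v438 v439 v440 v441 v442 v443 : ℝ} {c_x2b : ℂ} {v444 v445 v446 : ℝ} {d_x2b : ℂ} {v447 v448 v449 v450 v451 v452 v453 v454 v455 v456 v457 v458 v459 v460 v461 v462 v463 v464 v465 v466 v467 v468 v469 v470 v471 : ℝ} {c_xu : ℂ} {v472 v473 v474 : ℝ} {d_xu : ℂ} {v475 v476 v477 v478 v479 v480 v481 v482 v483 v484 v485 v486 v487 v488 v489 v490 v491 v492 v493 v494 v495 v496 v497 v498 v499 : ℝ} {c_xc : ℂ} {v500 v501 v502 : ℝ} {d_xc : ℂ} {v503 v504 v505 v506 v507 v508 v509 v510 v511 v512 v513 v514 v515 v516 v517 v518 v519 v520 v521 v522 v523 v524 v525 v526 v527 : ℝ} {c_x2u : ℂ} {v528 v529 v530 : ℝ} {d_x2u : ℂ} {v531 v532 v533 v534 v535 v536 v537 v538 v539 v540 v541 v542 v543 v544 v545 v546 v547 v548 v549 v550 v551 v552 v553 v554 v555 : ℝ} {c_x2c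 : ℂ} {v556 v557 v558 : ℝ} {d_x2c : ℂ} {v559 v560 v561 v562 v563 v564 v565 v566 v567 v568 v569 v570 v571 v572 v573 v574 v575 v576 v577 v578 v579 v580 v581 v582 : ℝ} {c_xbu : ℂ} {v583 v584 v585 : ℝ} {d_xbu : ℂ} {o_ysr o_ysi v586 o_d v587 o_ysw o_w v588 v589 o_nsr v590 o_nsi v591 o_D11 o_D12 o_D21 v592 o_D22 o_V0fr o_V0fi o_V0r o_V0i o_fs o_N11 v593 o_N12 o_N22 o_M11 o_M12 o_M21 o_M22 o_L11 o_L12 o_L21 o_L22 o_zvr o_zvi o_ar o_ai o_sar v594 o_sai v595 v596 v597 v598 v599 v600 v601 v602 v603 v604 v605 v606 v607 v608 v609 v610 v611 v612 v613 v614 v615 v616 v617 v618 v619 v620 o_A11 o_A12 v621 o_A22 v622 o_g1 v623 o_g2 o_g3 o_g4 v624 o_g5 v625 o_g6 v626 v627 v628 v629 v630 v631 v632 v633 v634 v635 v636 v637 v638 v639 : ℝ}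
    (h8 : v8 = oc)
    (h13 : v13 = oR m)
    (h16 : v16 = 1 / 6)
    (h20 : v20 = (2 : ℝ))
    (e_K_d : K = oK)
    (e_S_d : S = oS m)
    (e_ys_d : ys = oy m)
    (h34 : v34 = (1 : ℝ) / 2 ^ 1)
    (e_cAv_d : cAv = cA)
    (e_sAv_d : sAv = sA)
    (e_oav_d : oav = oa m)
    (e_obv_d : obv = ob m)
    (e_vs_d : vs = ov m)
    (e_vs_re : v57 = -vs.re)
    (e_vs_im : v58 = -vs.im)
    (e_ns_d : ns = oN m)
    (e_k0_d : k0 = dt (oy m) (oN m))
    (e_F_d : F = oF m)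
    (e_pr_d : pr = oy m - oN m * (k0 : ℂ))
    (e_bs_d : bs = oB m)
    (e_wd_d : wd = oK * (1 / oS m))
    (h74 : v74 = (3 : ℝ))
    (e_w_d : w = 3 * oK * (1 / oS m) ^ 2)
    (e_hh2_d : hh2 = 2 * (oK * (1 / oS m)))
    (e_c2_d : c2 = (hh2 : ℂ) - oy m)
    (e_V0_d : V0 = oV m)
    (e_V0f_d : V0f = oV m / (oF m : ℂ))
    (e_mm_d : mm = m)
    (e_tkv_d : tkv = tk m)
    (e_pkv_d : pkv = pk m)
    (e_kc_d : kc = oc * (3 * (4 - Real.sqrt 2) / 4))
    (e_kq_d : kq = oS m * s3 * (1 / 27) * (1 / oK) ^ 2)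
    (e_qv_d : qv = qy m)
    (e_t2_d : t2 = (m / m1) ^ 2)
    (e_cax_d : cax = (dB.ax).ev m)
    (e_cbu_d : cbu = (dB.bu).ev m)
    (e_ae_d : ae = dB.ae m)
    (e_be_d : be = dB.be m)
    (e_be_re : v197 = be.re)
    (e_be_im : v182 = be.im)
    (e_a_d : a = qy m + dB.ae m)
    (e_aeV_d : aeV = dt (dB.ae m) (oV m) / oF m)
    (e_DT_d : DT = DVT (oy m) (qy m + dB.ae m))
    (e_gq_d : gq = aeV - 2 * oc * oR m ^ 2 + dt be (bs - (oR m : ℂ) * (I * ns)))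
    (e_sa_d : sa = (dB.pt m).sa)
    (e_fv1_d : fv1 = (dB.pt m).fv 1)
    (e_fvI_d : fvI = (dB.pt m).fv I)
    (e_fvs_d : fvs = (oy m - ((dt (oy m) (oN m) : ℝ) : ℂ) * oN m) / (oR m : ℂ))
    (e_zv_d : zv = I * ov m - oB m)
    (e_bz_d : bz = dt (dB.be m) (I * ov m - oB m))
    (e_kap_d : kap = (dB.pt m).kap)
    (e_g4_d : g4 = -4 * (oK * (1 / oS m)))
    (e_gw_d : gw = 4 * (oK * (1 / oS m)) ^ 2)
    (e_D1_d : D1 = (dB.pt m).DV 1)
    (e_DI_d : DI = (dB.pt m).DV I)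
    (e_Mq1_d : Mq1 = (dB.pt m).M 1)
    (e_Mq1_re : v290 = Mq1.re)
    (e_Mq1_im : v293 = Mq1.im)
    (e_MqI_d : MqI = (dB.pt m).M I)
    (e_MqI_re : v295 = MqI.re)
    (e_MqI_im : v298 = MqI.im)
    (e_hc_d : hc = 1 / 2 - oc)
    (e_Lq1_d : Lq1 = (dB.pt m).L 1)
    (e_LqI_d : LqI = (dB.pt m).L I)
    (e_io_d : io = 1 / osd m)
    (e_io_v : v339 = io)
    (e_c_xx_d : c_xx = dB.xx.ev m)
    (e_d_xx_d : d_xx = dB.xx.dv m)
    (e_d_xx_re : v372 = d_xx.re)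
    (e_d_xx_im : v374 = d_xx.im)
    (e_c_xb_d : c_xb = dB.xb.ev m)
    (e_d_xb_d : d_xb = dB.xb.dv m)
    (e_d_xb_im : v390 = d_xb.im)
    (e_c_x3_d : c_x3 = dB.x3.ev m)
    (e_d_x3_d : d_x3 = dB.x3.dv m)
    (e_d_x3_re : v417 = d_x3.re)
    (e_d_x3_im : v418 = d_x3.im)
    (e_c_x2b_d : c_x2b = dB.x2b.ev m)
    (e_d_x2b_d : d_x2b = dB.x2b.dv m)
    (e_d_x2b_re : v445 = d_x2b.re)
    (e_d_x2b_im : v446 = d_x2b.im)
    (e_c_xu_d : c_xu = dB.xu.ev m)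
    (e_c_xu_re : v453 = c_xu.re)
    (e_c_xu_im : v471 = c_xu.im)
    (e_d_xu_d : d_xu = dB.xu.dv m)
    (e_d_xu_re : v473 = d_xu.re)
    (e_d_xu_im : v474 = d_xu.im)
    (e_c_xc_d : c_xc = dB.xc.ev m)
    (e_c_xc_re : v481 = c_xc.re)
    (e_c_xc_im : v499 = c_xc.im)
    (e_d_xc_d : d_xc = dB.xc.dv m)
    (e_d_xc_re : v501 = d_xc.re)
    (e_d_xc_im : v502 = d_xc.im)
    (e_c_x2u_d : c_x2u = dB.x2u.ev m)
    (e_c_x2u_re : v509 = c_x2u.re)
    (e_c_x2u_im : v527 = c_x2u.im)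
    (e_d_x2u_d : d_x2u = dB.x2u.dv m)
    (e_d_x2u_re : v529 = d_x2u.re)
    (e_d_x2u_im : v530 = d_x2u.im)
    (e_c_x2c_d : c_x2c = dB.x2c.ev m)
    (e_c_x2c_re : v537 = c_x2c.re)
    (e_c_x2c_im : v555 = c_x2c.im)
    (e_d_x2c_d : d_x2c = dB.x2c.dv m)
    (e_d_x2c_re : v557 = d_x2c.re)
    (e_d_x2c_im : v558 = d_x2c.im)
    (e_c_xbu_d : c_xbu = dB.xbu.ev m)
    (e_c_xbu_re : v565 = c_xbu.re)
    (e_c_xbu_im : v582 = c_xbu.im)
    (e_d_xbu_d : d_xbu = dB.xbu.dv m)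
    (e_d_xbu_re : v584 = d_xbu.re)
    (e_d_xbu_im : v585 = d_xbu.im)
    (e_o_ysr_d : o_ysr = (dB.pt m).ys.re)
    (e_o_ysr_v : v29 = o_ysr)
    (e_o_ysi_d : o_ysi = (dB.pt m).ys.im)
    (e_o_ysi_v : v31 = o_ysi)
    (e_o_d_d : o_d = 1 - 2 * (dB.pt m).ys.re)
    (a_o_d : 1 - 2 * (dB.pt m).ys.re = 3 * (1 / oS m))
    (e_o_d_v : v586 = o_d)
    (e_o_ysw_d : o_ysw = (dB.pt m).ys.re - (1 - normSq (dB.pt m).ys) / (1 - 2 * (dB.pt m).ys.re))
    (e_o_ysw_v : v587 = o_ysw)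
    (e_o_w_d : o_w = 1 - normSq (dB.pt m).ys)
    (e_o_w_v : v75 = o_w)
    (h588 : v588 = (0 : ℝ))
    (e_o_nsr_d : o_nsr = (dB.pt m).ns.re)
    (e_o_nsr_v : v589 = o_nsr)
    (e_o_nsi_d : o_nsi = (dB.pt m).ns.im)
    (e_o_nsi_v : v590 = o_nsi)
    (e_o_D11_d : o_D11 = ((dB.pt m).DV 1).re)
    (e_o_D11_v : v591 = o_D11)
    (e_o_D12_d : o_D12 = ((dB.pt m).DV I).re)
    (e_o_D12_v : v286 = o_D12)
    (e_o_D21_d : o_D21 = ((dB.pt m).DV 1).im)
    (e_o_D21_v : v281 = o_D21)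
    (e_o_D22_d : o_D22 = ((dB.pt m).DV I).im)
    (e_o_D22_v : v592 = o_D22)
    (e_o_V0fr_d : o_V0fr = ((dB.pt m).V0 / ((dB.pt m).fs : ℂ)).re)
    (e_o_V0fr_v : v80 = o_V0fr)
    (e_o_V0fi_d : o_V0fi = ((dB.pt m).V0 / ((dB.pt m).fs : ℂ)).im)
    (e_o_V0fi_v : v81 = o_V0fi)
    (e_o_V0r_d : o_V0r = (dB.pt m).V0.re)
    (e_o_V0r_v : v79 = o_V0r)
    (e_o_V0i_d : o_V0i = (dB.pt m).V0.im)
    (e_o_V0i_v : v78 = o_V0i)
    (e_o_fs_d : o_fs = (dB.pt m).fs)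
    (e_o_fs_v : v64 = o_fs)
    (e_o_N11_d : o_N11 = ((dB.pt m).fv 1).re)
    (e_o_N11_v : v244 = o_N11)
    (e_o_N12_d : o_N12 = ((dB.pt m).fv 1).im)
    (e_o_N12_v : v593 = o_N12)
    (e_o_N22_d : o_N22 = ((dB.pt m).fv I).im)
    (e_o_N22_v : v249 = o_N22)
    (e_o_M11_d : o_M11 = ((dB.pt m).M 1).re)
    (e_o_M11_v : v290 = o_M11)
    (e_o_M12_d : o_M12 = ((dB.pt m).M I).re)
    (e_o_M12_v : v295 = o_M12)
    (e_o_M21_d : o_M21 = ((dB.pt m).M 1).im)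
    (e_o_M21_v : v293 = o_M21)
    (e_o_M22_d : o_M22 = ((dB.pt m).M I).im)
    (e_o_M22_v : v298 = o_M22)
    (e_o_L11_d : o_L11 = ((dB.pt m).L 1).re)
    (e_o_L11_v : v319 = o_L11)
    (e_o_L12_d : o_L12 = ((dB.pt m).L I).re)
    (e_o_L12_v : v336 = o_L12)
    (e_o_L21_d : o_L21 = ((dB.pt m).L 1).im)
    (e_o_L21_v : v320 = o_L21)
    (e_o_L22_d : o_L22 = ((dB.pt m).L I).im)
    (e_o_L22_v : v337 = o_L22)
    (e_o_zvr_d : o_zvr = (I * (dB.pt m).vs - (dB.pt m).bs).re)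
    (e_o_zvr_v : v252 = o_zvr)
    (e_o_zvi_d : o_zvi = (I * (dB.pt m).vs - (dB.pt m).bs).im)
    (e_o_zvi_v : v253 = o_zvi)
    (e_o_ar_d : o_ar = (dB.pt m).a.re)
    (e_o_ar_v : v198 = o_ar)
    (e_o_ai_d : o_ai = (dB.pt m).a.im)
    (e_o_ai_v : v199 = o_ai)
    (e_o_sar_d : o_sar = (dB.pt m).sa.re)
    (e_o_sar_v : v240 = o_sar)
    (e_o_sai_d : o_sai = (dB.pt m).sa.im)
    (e_o_sai_v : v594 = o_sai)
    (h604 : v604 = v471 + v499)
    (h605 : v605 = v453 + v481)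
    (h606 : v606 = v453 - v481)
    (h607 : v607 = v499 - v471)
    (h608 : v608 = v527 + v555)
    (h609 : v609 = v582 + v608)
    (h610 : v610 = v509 + v537)
    (h611 : v611 = v20 * v610)
    (h612 : v612 = v582 - v527)
    (h613 : v613 = v612 - v555)
    (h614 : v614 = v509 - v537)
    (h615 : v615 = v565 + v614)
    (h616 : v616 = v555 - v527)
    (h617 : v617 = v20 * v616)
    (h618 : v618 = v537 - v509)
    (h619 : v619 = v565 + v618)
    (e_o_A11_d : o_A11 = 2 * (dB.pt m).c.a20)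
    (e_o_A11_v : v620 = o_A11)
    (e_o_A12_d : o_A12 = (dB.pt m).c.a11)
    (e_o_A12_v : v597 = o_A12)
    (e_o_A22_d : o_A22 = 2 * (dB.pt m).c.a02)
    (e_o_A22_v : v621 = o_A22)
    (e_o_g1_d : o_g1 = 3 * (dB.pt m).c.a30)
    (e_o_g1_v : v622 = o_g1)
    (e_o_g2_d : o_g2 = 2 * (dB.pt m).c.a21)
    (e_o_g2_v : v623 = o_g2)
    (e_o_g3_d : o_g3 = (dB.pt m).c.a12)
    (e_o_g3_v : v600 = o_g3)
    (e_o_g4_d : o_g4 = (dB.pt m).c.a21)
    (e_o_g4_v : v602 = o_g4)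
    (e_o_g5_d : o_g5 = 2 * (dB.pt m).c.a12)
    (e_o_g5_v : v624 = o_g5)
    (e_o_g6_d : o_g6 = 3 * (dB.pt m).c.a03)
    (e_o_g6_v : v625 = o_g6)
    (h626 : v626 = v374 + v390)
    (h627 : v627 = v390 - v374)
    (h628 : v628 = v20 * v372)
    (h629 : v629 = v418 + v446)
    (h630 : v630 = v74 * v418)
    (h631 : v631 = v446 - v630)
    (h632 : v632 = v74 * v417)
    (h633 : v633 = v445 + v632)
    (h634 : v634 = v445 - v417)
    (h635 : v635 = v474 + v502)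
    (h636 : v636 = v473 + v501)
    (h637 : v637 = v473 - v501)
    (h638 : v638 = v502 - v474)
    (h639 : v639 = v530 + v558)
    (h : TrE (realAlg (fun i => get 0 (l1 μB m) i) (m / m1) 0) (pQB.drop 640) [v639, v638, v637, v636, v635, v634, v633, v632, v631, v630, v629, v628, v627, v626, v625, v624, v623, v622, v621, v620, v619, v618, v617, v616, v615, v614, v613, v612, v611, v610, v609, v608, v607, v606, v605, v604, v603, v602, v601, v600, v599, v598, v597, v596, v595, v594, v593, v592, v591, v590, v589, v588, v587, v586, v585, v584, v583, v582, v581, v580, v579, v578, v577, v576, v575, v574, v573, v572, v571, v570, v569, v568, v567, v566, v565, v564, v563, v562, v561, v560, v559, v558, v557, v556, v555, v554, v553, v552, v551, v550, v549, v548, v547, v546, v545, v544, v543, v542, v541, v540, v539, v538, v537, v536, v535, v534, v533, v532, v531, v530, v529, v528, v527, v526, v525, v524, v523,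 v522, v521, v520, v519, v518, v517, v516, v515, v514, v513, v512, v511, v510, v509, v508, v507, v506, v505, v504, v503, v502, v501, v500, v499, v498, v497, v496, v495, v494, v493, v492, v491, v490, v489, v488, v487, v486, v485, v484, v483, v482, v481, v480, v479, v478, v477, v476, v475, v474, v473, v472, v471, v470, v469, v468, v467, v466, v465, v464, v463, v462, v461, v460, v459, v458, v457, v456, v455, v454, v453, v452, v451, v450, v449, v448, v447, v446, v445, v444, v443, v442, v441, v440, v439, v438, v437, v436, v435, v434, v433, v432, v431, v430, v429, v428, v427, v426, v425, v424, v423, v422, v421, v420, v419, v418, v417, v416, v415, v414, v413, v412, v411, v410, v409, v408, v407, v406, v405, v404, v403, v402, v401, v400, v399, v398, v397, v396, v395, v394, v393, v392, v391, v390, v389, v388, v387, v386, v385, v384, v383, v382, v381, v380, v379, v378, v377, v376, v375, v374, v373, v372,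 v371, v370, v369, v368, v367, v366, v365, v364, v363, v362, v361, v360, v359, v358, v357, v356, v355, v354, v353, v352, v351, v350, v349, v348, v347, v346, v345, v344, v343, v342, v341, v340, v339, v338, v337, v336, v335, v334, v333, v332, v331, v330, v329, v328, v327, v326, v325, v324, v323, v322, v321, v320, v319, v318, v317, v316, v315, v314, v313, v312, v311, v310, v309, v308, v307, v306, v305, v304, v303, v302, v301, v300, v299, v298, v297, v296, v295, v294, v293, v292, v291, v290, v289, v288, v287, v286, v285, v284, v283, v282, v281, v280, v279, v278, v277, v276, v275, v274, v273, v272, v271, v270, v269, v268, v267, v266, v265, v264, v263, v262, v261, v260, v259, v258, v257, v256, v255, v254, v253, v252, v251, v250, v249, v248, v247, v246, v245, v244, v243, v242, v241, v240, v239, v238, v237, v236, v235, v234, v233, v232, v231, v230, v229, v228, v227, v226, v225, v224, v223, v222, v221,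 v220, v219, v218, v217, v216, v215, v214, v213, v212, v211, v210, v209, v208, v207, v206, v205, v204, v203, v202, v201, v200, v199, v198, v197, v196, v195, v194, v193, v192, v191, v190, v189, v188, v187, v186, v185, v184, v183, v182, v181, v180, v179, v178, v177, v176, v175, v174, v173, v172, v171, v170, v169, v168, v167, v166, v165, v164, v163, v162, v161, v160, v159, v158, v157, v156, v155, v154, v153, v152, v151, v150, v149, v148, v147, v146, v145, v144, v143, v142, v141, v140, v139, v138, v137, v136, v135, v134, v133, v132, v131, v130, v129, v128, v127, v126, v125, v124, v123, v122, v121, v120, v119, v118, v117, v116, v115, v114, v113, v112, v111, v110, v109, v108, v107, v106, v105, v104, v103, v102, v101, v100, v99, v98, v97, v96, v95, v94, v93, v92, v91, v90, v89, v88, v87, v86, v85, v84, v83, v82, v81, v80, v79, v78, v77, v76, v75, v74, v73, v72, v71, v70, v69, v68, v67, v66, v65, v64,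 v63, v62, v61, v60, v59, v58, v57, v56, v55, v54, v53, v52, v51, v50, v49, v48, v47, v46, v45, v44, v43, v42, v41, v40, v39, v38, v37, v36, v35, v34, v33, v32, v31, v30, v29, v28, v27, v26, v25, v24, v23, v22, v21, v20, v19, v18, v17, v16, v15, v14, v13, v12, v11, v10, v9, v8, v7, v6, v5, v4, v3, v2, v1, v0] (fun st => run (realAlg (fun i => get 0 (l1 μB m) i) (m / m1) 0) pQB [] = st)) :
    pQB_goal m := by
  have hm1 : m1 ≠ 0 := m1_ne
  obtain ⟨v640, h640, h⟩ := h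
  change v640 = v585 + v639 at h640
  obtain ⟨v641, h641, h⟩ := h
  change v641 = v529 + v557 at h641
  obtain ⟨v642, h642, h⟩ := h
  change v642 = v20 * v641 at h642
  obtain ⟨v643, h643, h⟩ := h
  change v643 = v585 - v530 at h643
  obtain ⟨v644, h644, h⟩ := h
  change v644 = v643 - v558 at h644
  obtain ⟨v645, h645, h⟩ := h
  change v645 = v529 - v557 at h645
  obtain ⟨v646, h646, h⟩ := h
  change v646 = v584 + v645 at h646
  obtain ⟨v647, h647, h⟩ := h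
  change v647 = v558 - v530 at h647
  obtain ⟨v648, h648, h⟩ := h
  change v648 = v20 * v647 at h648
  obtain ⟨v649, h649, h⟩ := h
  change v649 = v557 - v529 at h649
  obtain ⟨v650, h650, h⟩ := h
  change v650 = v584 + v649 at h650
  obtain ⟨v651, h651, h⟩ := h
  change v651 = v339 * v626 at h651
  obtain ⟨o_s20, e_o_s20_d⟩ : ∃ q : ℝ, q = (dB.pt m).cs.a20 := ⟨_, rfl⟩
  have a_o_s20 : (dB.pt m).cs.a20 = io * (d_xx.im + d_xb.im) := by
    rw [e_io_d, e_d_xx_d, e_d_xb_d]; exact sm_a20 _ _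
  have e_o_s20_v : v651 = o_s20 := by
    rw [e_o_s20_d, a_o_s20]
    simp only [h651, h626, e_d_xb_im, e_d_xx_im, e_io_v, mul_re, mul_im, add_re, add_im, sub_re, sub_im, neg_re, neg_im, I_re, I_im, ofReal_re,
      ofReal_im, one_re, one_im, dt, normSq_apply, re_ofNat, im_ofNat]
    try ring
  obtain ⟨v652, h652, h⟩ := h
  change v652 = v339 * v628 at h652
  obtain ⟨o_s11, e_o_s11_d⟩ : ∃ q : ℝ, q = (dB.pt m).cs.a11 := ⟨_, rfl⟩
  have a_o_s11 : (dB.pt m).cs.a11 = io * (2 * d_xx.re) := by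
    rw [e_io_d, e_d_xx_d]; exact sm_a11 _ _
  have e_o_s11_v : v652 = o_s11 := by
    rw [e_o_s11_d, a_o_s11]
    simp only [h652, h628, h20, e_d_xx_re, e_io_v, mul_re, mul_im, add_re, add_im, sub_re, sub_im, neg_re, neg_im, I_re, I_im, ofReal_re,
      ofReal_im, one_re, one_im, dt, normSq_apply, re_ofNat, im_ofNat]
    try ring
  obtain ⟨v653, h653, h⟩ := h
  change v653 = v339 * v627 at h653
  obtain ⟨o_s02, e_o_s02_d⟩ : ∃ q : ℝ, q = (dB.pt m).cs.a02 := ⟨_, rfl⟩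
  have a_o_s02 : (dB.pt m).cs.a02 = io * (-d_xx.im + d_xb.im) := by
    rw [e_io_d, e_d_xx_d, e_d_xb_d]; exact sm_a02 _ _
  have e_o_s02_v : v653 = o_s02 := by
    rw [e_o_s02_d, a_o_s02]
    simp only [h653, h627, e_d_xx_im, e_d_xb_im, e_io_v, mul_re, mul_im, add_re, add_im, sub_re, sub_im, neg_re, neg_im, I_re, I_im, ofReal_re,
      ofReal_im, one_re, one_im, dt, normSq_apply, re_ofNat, im_ofNat]
    try ring
  obtain ⟨v654, h654, h⟩ := h
  change v654 = v339 * v629 at h654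
  obtain ⟨o_s30, e_o_s30_d⟩ : ∃ q : ℝ, q = (dB.pt m).cs.a30 := ⟨_, rfl⟩
  have a_o_s30 : (dB.pt m).cs.a30 = io * (d_x3.im + d_x2b.im) := by
    rw [e_io_d, e_d_x3_d, e_d_x2b_d]; exact sm_a30 _ _
  have e_o_s30_v : v654 = o_s30 := by
    rw [e_o_s30_d, a_o_s30]
    simp only [h654, h629, e_d_x2b_im, e_d_x3_im, e_io_v, mul_re, mul_im, add_re, add_im, sub_re, sub_im, neg_re, neg_im, I_re, I_im, ofReal_re,
      ofReal_im, one_re, one_im, dt, normSq_apply, re_ofNat, im_ofNat]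
    try ring
  obtain ⟨v655, h655, h⟩ := h
  change v655 = v339 * v633 at h655
  obtain ⟨o_s21, e_o_s21_d⟩ : ∃ q : ℝ, q = (dB.pt m).cs.a21 := ⟨_, rfl⟩
  have a_o_s21 : (dB.pt m).cs.a21 = io * (3 * d_x3.re + d_x2b.re) := by
    rw [e_io_d, e_d_x3_d, e_d_x2b_d]; exact sm_a21 _ _
  have e_o_s21_v : v655 = o_s21 := by
    rw [e_o_s21_d, a_o_s21]
    simp only [h655, h633, h632, h74, e_d_x3_re, e_d_x2b_re, e_io_v, mul_re, mul_im, add_re, add_im, sub_re, sub_im, neg_re, neg_im, I_re, I_im, ofReal_re,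
      ofReal_im, one_re, one_im, dt, normSq_apply, re_ofNat, im_ofNat]
    try ring
  obtain ⟨v656, h656, h⟩ := h
  change v656 = v339 * v631 at h656
  obtain ⟨o_s12, e_o_s12_d⟩ : ∃ q : ℝ, q = (dB.pt m).cs.a12 := ⟨_, rfl⟩
  have a_o_s12 : (dB.pt m).cs.a12 = io * (-3 * d_x3.im + d_x2b.im) := by
    rw [e_io_d, e_d_x3_d, e_d_x2b_d]; exact sm_a12 _ _
  have e_o_s12_v : v656 = o_s12 := by
    rw [e_o_s12_d, a_o_s12]
    simp only [h656, h631, h630, h74, e_d_x3_im, e_d_x2b_im, e_io_v, mul_re, mul_im, add_re, add_im, sub_re, sub_im, neg_re, neg_im, I_re, I_im, ofReal_re,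
      ofReal_im, one_re, one_im, dt, normSq_apply, re_ofNat, im_ofNat]
    try ring
  obtain ⟨v657, h657, h⟩ := h
  change v657 = v339 * v634 at h657
  obtain ⟨o_s03, e_o_s03_d⟩ : ∃ q : ℝ, q = (dB.pt m).cs.a03 := ⟨_, rfl⟩
  have a_o_s03 : (dB.pt m).cs.a03 = io * (-d_x3.re + d_x2b.re) := by
    rw [e_io_d, e_d_x3_d, e_d_x2b_d]; exact sm_a03 _ _
  have e_o_s03_v : v657 = o_s03 := by
    rw [e_o_s03_d, a_o_s03]
    simp only [h657, h634, e_d_x3_re, e_d_x2b_re, e_io_v, mul_re, mul_im, add_re, add_im, sub_re, sub_im, neg_re, neg_im, I_re, I_im, ofReal_re,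
      ofReal_im, one_re, one_im, dt, normSq_apply, re_ofNat, im_ofNat]
    try ring
  obtain ⟨o_b11, e_o_b11_d⟩ : ∃ q : ℝ, q = (dB.pt m).c.b11 := ⟨_, rfl⟩
  have a_o_b11 : (dB.pt m).c.b11 = c_xu.im + c_xc.im := by
    rw [e_c_xu_d, e_c_xc_d]; rfl
  have e_o_b11_v : v604 = o_b11 := by
    rw [e_o_b11_d, a_o_b11]
    simp only [h604, e_c_xc_im, e_c_xu_im, mul_re, mul_im, add_re, add_im, sub_re, sub_im, neg_re, neg_im, I_re, I_im, ofReal_re,
      ofReal_im, one_re, one_im, dt, normSq_apply, re_ofNat, im_ofNat]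
    try ring
  obtain ⟨o_b12, e_o_b12_d⟩ : ∃ q : ℝ, q = (dB.pt m).c.b12 := ⟨_, rfl⟩
  have a_o_b12 : (dB.pt m).c.b12 = c_xu.re + c_xc.re := by
    rw [e_c_xu_d, e_c_xc_d]; rfl
  have e_o_b12_v : v605 = o_b12 := by
    rw [e_o_b12_d, a_o_b12]
    simp only [h605, e_c_xc_re, e_c_xu_re, mul_re, mul_im, add_re, add_im, sub_re, sub_im, neg_re, neg_im, I_re, I_im, ofReal_re,
      ofReal_im, one_re, one_im, dt, normSq_apply, re_ofNat, im_ofNat]
    try ring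
  obtain ⟨o_b21, e_o_b21_d⟩ : ∃ q : ℝ, q = (dB.pt m).c.b21 := ⟨_, rfl⟩
  have a_o_b21 : (dB.pt m).c.b21 = c_xu.re - c_xc.re := by
    rw [e_c_xu_d, e_c_xc_d]; rfl
  have e_o_b21_v : v606 = o_b21 := by
    rw [e_o_b21_d, a_o_b21]
    simp only [h606, e_c_xc_re, e_c_xu_re, mul_re, mul_im, add_re, add_im, sub_re, sub_im, neg_re, neg_im, I_re, I_im, ofReal_re,
      ofReal_im, one_re, one_im, dt, normSq_apply, re_ofNat, im_ofNat]
    try ring
  obtain ⟨o_b22, e_o_b22_d⟩ : ∃ q : ℝ, q = (dB.pt m).c.b22 := ⟨_, rfl⟩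
  have a_o_b22 : (dB.pt m).c.b22 = -c_xu.im + c_xc.im := by
    rw [e_c_xu_d, e_c_xc_d]; rfl
  have e_o_b22_v : v607 = o_b22 := by
    rw [e_o_b22_d, a_o_b22]
    simp only [h607, e_c_xu_im, e_c_xc_im, mul_re, mul_im, add_re, add_im, sub_re, sub_im, neg_re, neg_im, I_re, I_im, ofReal_re,
      ofReal_im, one_re, one_im, dt, normSq_apply, re_ofNat, im_ofNat]
    try ring
  obtain ⟨o_bq1, e_o_bq1_d⟩ : ∃ q : ℝ, q = (dB.pt m).c.q1 := ⟨_, rfl⟩
  have a_o_bq1 : (dB.pt m).c.q1 = c_x2u.im + c_x2c.im + c_xbu.im := by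
    rw [e_c_x2u_d, e_c_x2c_d, e_c_xbu_d]; rfl
  have e_o_bq1_v : v609 = o_bq1 := by
    rw [e_o_bq1_d, a_o_bq1]
    simp only [h609, h608, e_c_x2c_im, e_c_x2u_im, e_c_xbu_im, mul_re, mul_im, add_re, add_im, sub_re, sub_im, neg_re, neg_im, I_re, I_im, ofReal_re,
      ofReal_im, one_re, one_im, dt, normSq_apply, re_ofNat, im_ofNat]
    try ring
  obtain ⟨o_bq2, e_o_bq2_d⟩ : ∃ q : ℝ, q = (dB.pt m).c.q2 := ⟨_, rfl⟩
  have a_o_bq2 : (dB.pt m).c.q2 = 2 * (c_x2u.re + c_x2c.re) := by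
    rw [e_c_x2u_d, e_c_x2c_d]; rfl
  have e_o_bq2_v : v611 = o_bq2 := by
    rw [e_o_bq2_d, a_o_bq2]
    simp only [h611, h610, h20, e_c_x2c_re, e_c_x2u_re, mul_re, mul_im, add_re, add_im, sub_re, sub_im, neg_re, neg_im, I_re, I_im, ofReal_re,
      ofReal_im, one_re, one_im, dt, normSq_apply, re_ofNat, im_ofNat]
    try ring
  obtain ⟨o_bq3, e_o_bq3_d⟩ : ∃ q : ℝ, q = (dB.pt m).c.q3 := ⟨_, rfl⟩
  have a_o_bq3 : (dB.pt m).c.q3 = -c_x2u.im - c_x2c.im + c_xbu.im := by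
    rw [e_c_x2u_d, e_c_x2c_d, e_c_xbu_d]; rfl
  have e_o_bq3_v : v613 = o_bq3 := by
    rw [e_o_bq3_d, a_o_bq3]
    simp only [h613, h612, e_c_x2c_im, e_c_x2u_im, e_c_xbu_im, mul_re, mul_im, add_re, add_im, sub_re, sub_im, neg_re, neg_im, I_re, I_im, ofReal_re,
      ofReal_im, one_re, one_im, dt, normSq_apply, re_ofNat, im_ofNat]
    try ring
  obtain ⟨o_bq4, e_o_bq4_d⟩ : ∃ q : ℝ, q = (dB.pt m).c.q4 := ⟨_, rfl⟩
  have a_o_bq4 : (dB.pt m).c.q4 = c_x2u.re - c_x2c.re + c_xbu.re := by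
    rw [e_c_x2u_d, e_c_x2c_d, e_c_xbu_d]; rfl
  have e_o_bq4_v : v615 = o_bq4 := by
    rw [e_o_bq4_d, a_o_bq4]
    simp only [h615, h614, e_c_x2c_re, e_c_x2u_re, e_c_xbu_re, mul_re, mul_im, add_re, add_im, sub_re, sub_im, neg_re, neg_im, I_re, I_im, ofReal_re,
      ofReal_im, one_re, one_im, dt, normSq_apply, re_ofNat, im_ofNat]
    try ring
  obtain ⟨o_bq5, e_o_bq5_d⟩ : ∃ q : ℝ, q = (dB.pt m).c.q5 := ⟨_, rfl⟩
  have a_o_bq5 : (dB.pt m).c.q5 = 2 * (-c_x2u.im + c_x2c.im) := by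
    rw [e_c_x2u_d, e_c_x2c_d]; rfl
  have e_o_bq5_v : v617 = o_bq5 := by
    rw [e_o_bq5_d, a_o_bq5]
    simp only [h617, h616, h20, e_c_x2u_im, e_c_x2c_im, mul_re, mul_im, add_re, add_im, sub_re, sub_im, neg_re, neg_im, I_re, I_im, ofReal_re,
      ofReal_im, one_re, one_im, dt, normSq_apply, re_ofNat, im_ofNat]
    try ring
  obtain ⟨o_bq6, e_o_bq6_d⟩ : ∃ q : ℝ, q = (dB.pt m).c.q6 := ⟨_, rfl⟩
  have a_o_bq6 : (dB.pt m).c.q6 = -c_x2u.re + c_x2c.re + c_xbu.re := by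
    rw [e_c_x2u_d, e_c_x2c_d, e_c_xbu_d]; rfl
  have e_o_bq6_v : v619 = o_bq6 := by
    rw [e_o_bq6_d, a_o_bq6]
    simp only [h619, h618, e_c_x2u_re, e_c_x2c_re, e_c_xbu_re, mul_re, mul_im, add_re, add_im, sub_re, sub_im, neg_re, neg_im, I_re, I_im, ofReal_re,
      ofReal_im, one_re, one_im, dt, normSq_apply, re_ofNat, im_ofNat]
    try ring
  obtain ⟨v658, h658, h⟩ := h
  change v658 = v339 * v635 at h658
  obtain ⟨o_t11, e_o_t11_d⟩ : ∃ q : ℝ, q = (dB.pt m).cs.b11 := ⟨_, rfl⟩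
  have a_o_t11 : (dB.pt m).cs.b11 = io * (d_xu.im + d_xc.im) := by
    rw [e_io_d, e_d_xu_d, e_d_xc_d]; exact sm_b11 _ _
  have e_o_t11_v : v658 = o_t11 := by
    rw [e_o_t11_d, a_o_t11]
    simp only [h658, h635, e_d_xc_im, e_d_xu_im, e_io_v, mul_re, mul_im, add_re, add_im, sub_re, sub_im, neg_re, neg_im, I_re, I_im, ofReal_re,
      ofReal_im, one_re, one_im, dt, normSq_apply, re_ofNat, im_ofNat]
    try ring
  obtain ⟨v659, h659, h⟩ := h
  change v659 = v339 * v636 at h659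
  obtain ⟨o_t12, e_o_t12_d⟩ : ∃ q : ℝ, q = (dB.pt m).cs.b12 := ⟨_, rfl⟩
  have a_o_t12 : (dB.pt m).cs.b12 = io * (d_xu.re + d_xc.re) := by
    rw [e_io_d, e_d_xu_d, e_d_xc_d]; exact sm_b12 _ _
  have e_o_t12_v : v659 = o_t12 := by
    rw [e_o_t12_d, a_o_t12]
    simp only [h659, h636, e_d_xc_re, e_d_xu_re, e_io_v, mul_re, mul_im, add_re, add_im, sub_re, sub_im, neg_re, neg_im, I_re, I_im, ofReal_re,
      ofReal_im, one_re, one_im, dt, normSq_apply, re_ofNat, im_ofNat]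
    try ring
  obtain ⟨v660, h660, h⟩ := h
  change v660 = v339 * v637 at h660
  obtain ⟨o_t21, e_o_t21_d⟩ : ∃ q : ℝ, q = (dB.pt m).cs.b21 := ⟨_, rfl⟩
  have a_o_t21 : (dB.pt m).cs.b21 = io * (d_xu.re - d_xc.re) := by
    rw [e_io_d, e_d_xu_d, e_d_xc_d]; exact sm_b21 _ _
  have e_o_t21_v : v660 = o_t21 := by
    rw [e_o_t21_d, a_o_t21]
    simp only [h660, h637, e_d_xc_re, e_d_xu_re, e_io_v, mul_re, mul_im, add_re, add_im, sub_re, sub_im, neg_re, neg_im, I_re, I_im, ofReal_re,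
      ofReal_im, one_re, one_im, dt, normSq_apply, re_ofNat, im_ofNat]
    try ring
  obtain ⟨v661, h661, h⟩ := h
  change v661 = v339 * v638 at h661
  obtain ⟨o_t22, e_o_t22_d⟩ : ∃ q : ℝ, q = (dB.pt m).cs.b22 := ⟨_, rfl⟩
  have a_o_t22 : (dB.pt m).cs.b22 = io * (-d_xu.im + d_xc.im) := by
    rw [e_io_d, e_d_xu_d, e_d_xc_d]; exact sm_b22 _ _
  have e_o_t22_v : v661 = o_t22 := by
    rw [e_o_t22_d, a_o_t22]
    simp only [h661, h638, e_d_xu_im, e_d_xc_im, e_io_v, mul_re, mul_im, add_re, add_im, sub_re, sub_im, neg_re, neg_im, I_re, I_im, ofReal_re,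
      ofReal_im, one_re, one_im, dt, normSq_apply, re_ofNat, im_ofNat]
    try ring
  obtain ⟨v662, h662, h⟩ := h
  change v662 = v339 * v640 at h662
  obtain ⟨o_tq1, e_o_tq1_d⟩ : ∃ q : ℝ, q = (dB.pt m).cs.q1 := ⟨_, rfl⟩
  have a_o_tq1 : (dB.pt m).cs.q1 = io * (d_x2u.im + d_x2c.im + d_xbu.im) := by
    rw [e_io_d, e_d_x2u_d, e_d_x2c_d, e_d_xbu_d]; exact sm_q1 _ _
  have e_o_tq1_v : v662 = o_tq1 := by
    rw [e_o_tq1_d, a_o_tq1]
    simp only [h662, h640, h639, e_d_x2c_im, e_d_x2u_im, e_d_xbu_im, e_io_v, mul_re, mul_im, add_re, add_im, sub_re, sub_im, neg_re, neg_im, I_re, I_im, ofReal_re,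
      ofReal_im, one_re, one_im, dt, normSq_apply, re_ofNat, im_ofNat]
    try ring
  obtain ⟨v663, h663, h⟩ := h
  change v663 = v339 * v642 at h663
  obtain ⟨o_tq2, e_o_tq2_d⟩ : ∃ q : ℝ, q = (dB.pt m).cs.q2 := ⟨_, rfl⟩
  have a_o_tq2 : (dB.pt m).cs.q2 = io * (2 * (d_x2u.re + d_x2c.re)) := by
    rw [e_io_d, e_d_x2u_d, e_d_x2c_d]; exact sm_q2 _ _
  have e_o_tq2_v : v663 = o_tq2 := by
    rw [e_o_tq2_d, a_o_tq2]
    simp only [h663, h642, h641, h20, e_d_x2c_re, e_d_x2u_re, e_io_v, mul_re, mul_im, add_re, add_im, sub_re, sub_im, neg_re, neg_im, I_re, I_im, ofReal_re,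
      ofReal_im, one_re, one_im, dt, normSq_apply, re_ofNat, im_ofNat]
    try ring
  obtain ⟨v664, h664, h⟩ := h
  change v664 = v339 * v644 at h664
  obtain ⟨o_tq3, e_o_tq3_d⟩ : ∃ q : ℝ, q = (dB.pt m).cs.q3 := ⟨_, rfl⟩
  have a_o_tq3 : (dB.pt m).cs.q3 = io * (-d_x2u.im - d_x2c.im + d_xbu.im) := by
    rw [e_io_d, e_d_x2u_d, e_d_x2c_d, e_d_xbu_d]; exact sm_q3 _ _
  have e_o_tq3_v : v664 = o_tq3 := by
    rw [e_o_tq3_d, a_o_tq3]
    simp only [h664, h644, h643, e_d_x2c_im, e_d_x2u_im, e_d_xbu_im, e_io_v, mul_re, mul_im, add_re, add_im, sub_re, sub_im, neg_re, neg_im, I_re, I_im, ofReal_re,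
      ofReal_im, one_re, one_im, dt, normSq_apply, re_ofNat, im_ofNat]
    try ring
  obtain ⟨v665, h665, h⟩ := h
  change v665 = v339 * v646 at h665
  obtain ⟨o_tq4, e_o_tq4_d⟩ : ∃ q : ℝ, q = (dB.pt m).cs.q4 := ⟨_, rfl⟩
  have a_o_tq4 : (dB.pt m).cs.q4 = io * (d_x2u.re - d_x2c.re + d_xbu.re) := by
    rw [e_io_d, e_d_x2u_d, e_d_x2c_d, e_d_xbu_d]; exact sm_q4 _ _
  have e_o_tq4_v : v665 = o_tq4 := by
    rw [e_o_tq4_d, a_o_tq4]
    simp only [h665, h646, h645, e_d_x2c_re, e_d_x2u_re, e_d_xbu_re, e_io_v, mul_re, mul_im, add_re, add_im, sub_re, sub_im, neg_re, neg_im, I_re, I_im, ofReal_re,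
      ofReal_im, one_re, one_im, dt, normSq_apply, re_ofNat, im_ofNat]
    try ring
  obtain ⟨v666, h666, h⟩ := h
  change v666 = v339 * v648 at h666
  obtain ⟨o_tq5, e_o_tq5_d⟩ : ∃ q : ℝ, q = (dB.pt m).cs.q5 := ⟨_, rfl⟩
  have a_o_tq5 : (dB.pt m).cs.q5 = io * (2 * (-d_x2u.im + d_x2c.im)) := by
    rw [e_io_d, e_d_x2u_d, e_d_x2c_d]; exact sm_q5 _ _
  have e_o_tq5_v : v666 = o_tq5 := by
    rw [e_o_tq5_d, a_o_tq5]
    simp only [h666, h648, h647, h20, e_d_x2u_im, e_d_x2c_im, e_io_v, mul_re, mul_im, add_re, add_im, sub_re, sub_im, neg_re, neg_im, I_re, I_im, ofReal_re,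
      ofReal_im, one_re, one_im, dt, normSq_apply, re_ofNat, im_ofNat]
    try ring
  obtain ⟨v667, h667, h⟩ := h
  change v667 = v339 * v650 at h667
  obtain ⟨o_tq6, e_o_tq6_d⟩ : ∃ q : ℝ, q = (dB.pt m).cs.q6 := ⟨_, rfl⟩
  have a_o_tq6 : (dB.pt m).cs.q6 = io * (-d_x2u.re + d_x2c.re + d_xbu.re) := by
    rw [e_io_d, e_d_x2u_d, e_d_x2c_d, e_d_xbu_d]; exact sm_q6 _ _
  have e_o_tq6_v : v667 = o_tq6 := by
    rw [e_o_tq6_d, a_o_tq6]
    simp only [h667, h650, h649, e_d_x2u_re, e_d_x2c_re, e_d_xbu_re, e_io_v, mul_re, mul_im, add_re, add_im, sub_re, sub_im, neg_re, neg_im, I_re, I_im, ofReal_re,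
      ofReal_im, one_re, one_im, dt, normSq_apply, re_ofNat, im_ofNat]
    try ring
  obtain ⟨v668, h668, h⟩ := h
  change v668 = v8 + v34 at h668
  obtain ⟨hq, e_hq_d⟩ : ∃ q : ℝ, q = 1 / 2 + oc := ⟨_, rfl⟩
  have e_hq_v : v668 = hq := by
    rw [e_hq_d]
    simp only [h668, h34, h8, mul_re, mul_im, add_re, add_im, sub_re, sub_im, neg_re, neg_im, I_re, I_im, ofReal_re,
      ofReal_im, one_re, one_im, dt, normSq_apply, re_ofNat, im_ofNat]
    try ring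
  obtain ⟨v669, h669, h⟩ := h
  change v669 = v57 * v668 at h669
  obtain ⟨v670, h670, h⟩ := h
  change v670 = v58 * v668 at h670
  obtain ⟨v671, h671, h⟩ := h
  change v671 = v182 + v669 at h671
  obtain ⟨v672, h672, h⟩ := h
  change v672 = v670 - v197 at h672
  obtain ⟨vh, e_vh_d⟩ : ∃ q : ℂ, q = -((1 / 2 + oc : ℝ) : ℂ) * ov m - I * dB.be m := ⟨_, rfl⟩
  have a_vh : -((1 / 2 + oc : ℝ) : ℂ) * ov m - I * dB.be m = -(hq : ℂ) * vs - I * be := by
    rw [e_hq_d, e_vs_d, e_be_d]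
  have e_vh_re : v671 = vh.re := by
    rw [e_vh_d, a_vh]
    simp only [h671, h669, e_hq_v, e_vs_re, e_be_im, mul_re, mul_im, add_re, add_im, sub_re, sub_im, neg_re, neg_im, I_re, I_im, ofReal_re,
      ofReal_im, one_re, one_im, dt, normSq_apply, re_ofNat, im_ofNat]
    try ring
  have e_vh_im : v672 = vh.im := by
    rw [e_vh_d, a_vh]
    simp only [h672, h670, e_be_re, e_hq_v, e_vs_im, mul_re, mul_im, add_re, add_im, sub_re, sub_im, neg_re, neg_im, I_re, I_im, ofReal_re,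
      ofReal_im, one_re, one_im, dt, normSq_apply, re_ofNat, im_ofNat]
    try ring
  obtain ⟨o_vhr, e_o_vhr_d⟩ : ∃ q : ℝ, q = (-((1 / 2 + oc : ℝ) : ℂ) * (dB.pt m).vs - I * (dB.pt m).b).re := ⟨_, rfl⟩
  have a_o_vhr : (-((1 / 2 + oc : ℝ) : ℂ) * (dB.pt m).vs - I * (dB.pt m).b).re = vh.re := by
    rw [e_vh_d]; rfl
  have e_o_vhr_v : v671 = o_vhr := by
    rw [e_o_vhr_d, a_o_vhr]
    simp only [e_vh_re, mul_re, mul_im, add_re, add_im, sub_re, sub_im, neg_re, neg_im, I_re, I_im, ofReal_re,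
      ofReal_im, one_re, one_im, dt, normSq_apply, re_ofNat, im_ofNat]
    try ring
  obtain ⟨o_vhi, e_o_vhi_d⟩ : ∃ q : ℝ, q = (-((1 / 2 + oc : ℝ) : ℂ) * (dB.pt m).vs - I * (dB.pt m).b).im := ⟨_, rfl⟩
  have a_o_vhi : (-((1 / 2 + oc : ℝ) : ℂ) * (dB.pt m).vs - I * (dB.pt m).b).im = vh.im := by
    rw [e_vh_d]; rfl
  have e_o_vhi_v : v672 = o_vhi := by
    rw [e_o_vhi_d, a_o_vhi]
    simp only [e_vh_im, mul_re, mul_im, add_re, add_im, sub_re, sub_im, neg_re, neg_im, I_re, I_im, ofReal_re,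
      ofReal_im, one_re, one_im, dt, normSq_apply, re_ofNat, im_ofNat]
    try ring
  obtain ⟨v673, h673, h⟩ := h
  change v673 = v588 - v57 at h673
  obtain ⟨o_vsr, e_o_vsr_d⟩ : ∃ q : ℝ, q = (dB.pt m).vs.re := ⟨_, rfl⟩
  have a_o_vsr : (dB.pt m).vs.re = vs.re := by
    rw [e_vs_d]; rfl
  have e_o_vsr_v : v673 = o_vsr := by
    rw [e_o_vsr_d, a_o_vsr]
    simp only [h673, h588, e_vs_re, mul_re, mul_im, add_re, add_im, sub_re, sub_im, neg_re, neg_im, I_re, I_im, ofReal_re,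
      ofReal_im, one_re, one_im, dt, normSq_apply, re_ofNat, im_ofNat]
    try ring
  obtain ⟨v674, h674, h⟩ := h
  change v674 = v588 - v58 at h674
  obtain ⟨o_vsi, e_o_vsi_d⟩ : ∃ q : ℝ, q = (dB.pt m).vs.im := ⟨_, rfl⟩
  have a_o_vsi : (dB.pt m).vs.im = vs.im := by
    rw [e_vs_d]; rfl
  have e_o_vsi_v : v674 = o_vsi := by
    rw [e_o_vsi_d, a_o_vsi]
    simp only [h674, h588, e_vs_im, mul_re, mul_im, add_re, add_im, sub_re, sub_im, neg_re, neg_im, I_re, I_im, ofReal_re,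
      ofReal_im, one_re, one_im, dt, normSq_apply, re_ofNat, im_ofNat]
    try ring
  obtain ⟨o_rs, e_o_rs_d⟩ : ∃ q : ℝ, q = (dB.pt m).rs := ⟨_, rfl⟩
  have a_o_rs : (dB.pt m).rs = oR m := by
    rfl
  have e_o_rs_v : v13 = o_rs := by
    rw [e_o_rs_d, a_o_rs]
    simp only [h13, mul_re, mul_im, add_re, add_im, sub_re, sub_im, neg_re, neg_im, I_re, I_im, ofReal_re,
      ofReal_im, one_re, one_im, dt, normSq_apply, re_ofNat, im_ofNat]
    try ring
  obtain ⟨v675, h675, h⟩ := h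
  change v675 = v16 * v290 at h675
  obtain ⟨o_M611, e_o_M611_d⟩ : ∃ q : ℝ, q = ((dB.pt m).M 1).re / 6 := ⟨_, rfl⟩
  have a_o_M611 : ((dB.pt m).M 1).re / 6 = Mq1.re * (1 / 6) := by
    rw [e_Mq1_d]; ring
  have e_o_M611_v : v675 = o_M611 := by
    rw [e_o_M611_d, a_o_M611]
    simp only [h675, h16, e_Mq1_re, mul_re, mul_im, add_re, add_im, sub_re, sub_im, neg_re, neg_im, I_re, I_im, ofReal_re,
      ofReal_im, one_re, one_im, dt, normSq_apply, re_ofNat, im_ofNat]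
    try ring
  obtain ⟨v676, h676, h⟩ := h
  change v676 = v16 * v295 at h676
  obtain ⟨o_M612, e_o_M612_d⟩ : ∃ q : ℝ, q = ((dB.pt m).M I).re / 6 := ⟨_, rfl⟩
  have a_o_M612 : ((dB.pt m).M I).re / 6 = MqI.re * (1 / 6) := by
    rw [e_MqI_d]; ring
  have e_o_M612_v : v676 = o_M612 := by
    rw [e_o_M612_d, a_o_M612]
    simp only [h676, h16, e_MqI_re, mul_re, mul_im, add_re, add_im, sub_re, sub_im, neg_re, neg_im, I_re, I_im, ofReal_re,
      ofReal_im, one_re, one_im, dt, normSq_apply, re_ofNat, im_ofNat]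
    try ring
  obtain ⟨v677, h677, h⟩ := h
  change v677 = v16 * v293 at h677
  obtain ⟨o_M621, e_o_M621_d⟩ : ∃ q : ℝ, q = ((dB.pt m).M 1).im / 6 := ⟨_, rfl⟩
  have a_o_M621 : ((dB.pt m).M 1).im / 6 = Mq1.im * (1 / 6) := by
    rw [e_Mq1_d]; ring
  have e_o_M621_v : v677 = o_M621 := by
    rw [e_o_M621_d, a_o_M621]
    simp only [h677, h16, e_Mq1_im, mul_re, mul_im, add_re, add_im, sub_re, sub_im, neg_re, neg_im, I_re, I_im, ofReal_re,
      ofReal_im, one_re, one_im, dt, normSq_apply, re_ofNat, im_ofNat]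
    try ring
  obtain ⟨v678, h678, h⟩ := h
  change v678 = v16 * v298 at h678
  obtain ⟨o_M622, e_o_M622_d⟩ : ∃ q : ℝ, q = ((dB.pt m).M I).im / 6 := ⟨_, rfl⟩
  have a_o_M622 : ((dB.pt m).M I).im / 6 = MqI.im * (1 / 6) := by
    rw [e_MqI_d]; ring
  have e_o_M622_v : v678 = o_M622 := by
    rw [e_o_M622_d, a_o_M622]
    simp only [h678, h16, e_MqI_im, mul_re, mul_im, add_re, add_im, sub_re, sub_im, neg_re, neg_im, I_re, I_im, ofReal_re,
      ofReal_im, one_re, one_im, dt, normSq_apply, re_ofNat, im_ofNat]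
    try ring
  unfold pQB_goal
  refine OutEq_of h ?_
  exact ⟨e_o_ysr_v.trans e_o_ysr_d, e_o_ysi_v.trans e_o_ysi_d, e_o_d_v.trans e_o_d_d, e_o_ysw_v.trans e_o_ysw_d, e_o_w_v.trans e_o_w_d, e_o_nsr_v.trans e_o_nsr_d, e_o_nsi_v.trans e_o_nsi_d, e_o_D11_v.trans e_o_D11_d, e_o_D12_v.trans e_o_D12_d, e_o_D21_v.trans e_o_D21_d, e_o_D22_v.trans e_o_D22_d, e_o_V0fr_v.trans e_o_V0fr_d, e_o_V0fi_v.trans e_o_V0fi_d, e_o_V0r_v.trans e_o_V0r_d, e_o_V0i_v.trans e_o_V0i_d, e_o_fs_v.trans e_o_fs_d, e_o_N11_v.trans e_o_N11_d, e_o_N12_v.trans e_o_N12_d, e_o_N22_v.trans e_o_N22_d, e_o_M11_v.trans e_o_M11_d, e_o_M12_v.trans e_o_M12_d, e_o_M21_v.trans e_o_M21_d, e_o_M22_v.trans e_o_M22_d, e_o_L11_v.trans e_o_L11_d, e_o_L12_v.trans e_o_L12_d, e_o_L21_v.trans e_o_L21_d, e_o_L22_v.trans e_o_L22_d, e_o_zvr_v.trans e_o_zvr_d, e_o_zvi_v.trans e_o_zvi_d, e_o_ar_v.trans e_o_ar_d, e_o_ai_v.trans e_o_ai_d, e_o_sar_v.trans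 e_o_sar_d, e_o_sai_v.trans e_o_sai_d, e_o_A11_v.trans e_o_A11_d, e_o_A12_v.trans e_o_A12_d, e_o_A22_v.trans e_o_A22_d, e_o_g1_v.trans e_o_g1_d, e_o_g2_v.trans e_o_g2_d, e_o_g3_v.trans e_o_g3_d, e_o_g4_v.trans e_o_g4_d, e_o_g5_v.trans e_o_g5_d, e_o_g6_v.trans e_o_g6_d, e_o_s20_v.trans e_o_s20_d, e_o_s11_v.trans e_o_s11_d, e_o_s02_v.trans e_o_s02_d, e_o_s30_v.trans e_o_s30_d, e_o_s21_v.trans e_o_s21_d, e_o_s12_v.trans e_o_s12_d, e_o_s03_v.trans e_o_s03_d, e_o_b11_v.trans e_o_b11_d, e_o_b12_v.trans e_o_b12_d, e_o_b21_v.trans e_o_b21_d, e_o_b22_v.trans e_o_b22_d, e_o_bq1_v.trans e_o_bq1_d, e_o_bq2_v.trans e_o_bq2_d, e_o_bq3_v.trans e_o_bq3_d, e_o_bq4_v.trans e_o_bq4_d, e_o_bq5_v.trans e_o_bq5_d, e_o_bq6_v.trans e_o_bq6_d, e_o_t11_v.trans e_o_t11_d, e_o_t12_v.trans e_o_t12_d, e_o_t21_v.trans e_o_t21_d, e_o_t22_v.trans e_o_t22_d, e_o_tq1_v.trans e_o_tq1_d, e_o_tq2_v.trans e_o_tq2_d, e_o_tq3_v.trans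 e_o_tq3_d, e_o_tq4_v.trans e_o_tq4_d, e_o_tq5_v.trans e_o_tq5_d, e_o_tq6_v.trans e_o_tq6_d, e_o_vhr_v.trans e_o_vhr_d, e_o_vhi_v.trans e_o_vhi_d, e_o_vsr_v.trans e_o_vsr_d, e_o_vsi_v.trans e_o_vsi_d, e_o_rs_v.trans e_o_rs_d, e_o_M611_v.trans e_o_M611_d, e_o_M612_v.trans e_o_M612_d, e_o_M621_v.trans e_o_M621_d, e_o_M622_v.trans e_o_M622_d, trivial⟩

theorem pQB_c15 (m : ℝ) {v0 v1 v2 v3 v4 v5 v6 v7 v8 v9 v10 v11 v12 v13 v14 v15 v16 v17 v18 v19 v20 v21 v22 v23 K v24 v25 v26 v27 S v28 v29 v30 v31 : ℝ} {ys : ℂ} {v32 v33 v34 v35 cAv v36 v37 v38 sAv v39 v40 v41 v42 v43 v44 : ℝ} {oav : ℂ} {v45 v46 v47 v48 v49 v50 : ℝ} {obv : ℂ} {v51 v52 v53 v54 v55 v56 v57 v58 : ℝ} {vs : ℂ} {v59 v60 : ℝ} {ns : ℂ} {v61 v62 v63 k0 v64 F v65 v66 v67 v68 : ℝ} {pr : ℂ} {v69 v70 v71 : ℝ} {bs : ℂ} {v72 wd v73 v74 v75 w v76 hh2 v77 : ℝ} {c2 : ℂ} {v78 v79 : ℝ} {V0 : ℂ} {v80 v81 : ℝ} {V0f : ℂ} {v82 mm v83 v84 v85 v86 v87 v88 v89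 v90 v91 v92 v93 v94 v95 v96 v97 v98 v99 v100 v101 v102 v103 v104 v105 v106 v107 v108 v109 v110 v111 v112 v113 v114 : ℝ} {tkv : ℂ} {v115 v116 v117 v118 v119 v120 v121 v122 v123 v124 v125 v126 v127 : ℝ} {pkv : ℂ} {v128 v129 v130 kc v131 v132 v133 v134 kq v135 v136 v137 v138 v139 v140 : ℝ} {qv : ℂ} {v141 t2 v142 v143 v144 v145 v146 v147 v148 v149 v150 v151 v152 v153 v154 v155 v156 v157 v158 v159 v160 v161 v162 v163 v164 v165 v166 v167 v168 v169 : ℝ} {cax : ℂ} {v170 v171 v172 v173 v174 v175 v176 v177 v178 v179 v180 v181 v182 v183 v184 v185 v186 v187 v188 v189 v190 v191 v192 v193 v194 v195 v196 v197 : ℝ} {cbu ae be : ℂ} {v198 v199 : ℝ} {a : ℂ} {v200 v201 v202 v203 aeV v204 v205 v206 v207 v208 v209 v210 v211 v212 v213 v214 v215 v216 v217 v218 v219 : ℝ} {DT : ℂ} {v220 v221 v222 v223 v224 v225 v226 v227 v228 v229 v230 v231 gq v232 v233 v234 v235 v236 v237 v238 v239 v240 v241 : ℝ} {sa : ℂ} {v242 v243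 v244 v245 v246 : ℝ} {fv1 : ℂ} {v247 v248 v249 : ℝ} {fvI : ℂ} {v250 v251 : ℝ} {fvs : ℂ} {v252 v253 : ℝ} {zv : ℂ} {v254 v255 v256 bz v257 v258 v259 v260 v261 v262 v263 v264 v265 v266 v267 v268 v269 v270 v271 v272 : ℝ} {kap : ℂ} {v273 g4 v274 gw v275 v276 v277 v278 v279 v280 v281 : ℝ} {D1 : ℂ} {v282 v283 v284 v285 v286 v287 : ℝ} {DI : ℂ} {v288 v289 v290 v291 v292 v293 : ℝ} {Mq1 : ℂ} {v294 v295 v296 v297 v298 : ℝ} {MqI : ℂ} {v299 hc v300 v301 v302 v303 v304 v305 v306 v307 v308 v309 v310 v311 v312 v313 v314 v315 v316 v317 v318 v319 v320 : ℝ} {Lq1 : ℂ} {v321 v322 v323 v324 v325 v326 v327 v328 v329 v330 v331 v332 v333 v334 v335 v336 v337 : ℝ} {LqI : ℂ} {v338 v339 io v340 v341 v342 v343 v344 v345 v346 v347 v348 v349 v350 v351 v352 v353 v354 v355 v356 v357 v358 v359 v360 v361 v362 v363 v364 v365 v366 v367 v368 v369 : ℝ} {c_xx : ℂ} {v370 v371 v372 v373 v374 : ℝ} {d_xx : ℂ} {v375 v376 v377 v378 v379 v380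 v381 v382 v383 v384 v385 v386 v387 v388 v389 : ℝ} {c_xb : ℂ} {v390 : ℝ} {d_xb : ℂ} {v391 v392 v393 v394 v395 v396 v397 v398 v399 v400 v401 v402 v403 v404 v405 v406 v407 v408 v409 v410 v411 v412 v413 v414 v415 : ℝ} {c_x3 : ℂ} {v416 v417 v418 : ℝ} {d_x3 : ℂ} {v419 v420 v421 v422 v423 v424 v425 v426 v427 v428 v429 v430 v431 v432 v433 v434 v435 v436 v437 v438 v439 v440 v441 v442 v443 : ℝ} {c_x2b : ℂ} {v444 v445 v446 : ℝ} {d_x2b : ℂ} {v447 v448 v449 v450 v451 v452 v453 v454 v455 v456 v457 v458 v459 v460 v461 v462 v463 v464 v465 v466 v467 v468 v469 v470 v471 : ℝ} {c_xu : ℂ} {v472 v473 v474 : ℝ} {d_xu : ℂ} {v475 v476 v477 v478 v479 v480 v481 v482 v483 v484 v485 v486 v487 v488 v489 v490 v491 v492 v493 v494 v495 v496 v497 v498 v499 : ℝ} {c_xc : ℂ} {v500 v501 v502 : ℝ} {d_xc : ℂ} {v503 v504 v505 v506 v507 v508 v509 v510 v511 v512 v513 v514 v515 v516 v517 v518 v519 v520 v521 v522 v523 v524 v525 v526 v527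 : ℝ} {c_x2u : ℂ} {v528 v529 v530 : ℝ} {d_x2u : ℂ} {v531 v532 v533 v534 v535 v536 v537 v538 v539 v540 v541 v542 v543 v544 v545 v546 v547 v548 v549 v550 v551 v552 v553 v554 v555 : ℝ} {c_x2c : ℂ} {v556 v557 v558 : ℝ} {d_x2c : ℂ} {v559 v560 v561 v562 v563 v564 v565 v566 v567 v568 v569 v570 v571 v572 v573 v574 v575 v576 v577 v578 v579 v580 v581 v582 : ℝ} {c_xbu : ℂ} {v583 v584 v585 : ℝ} {d_xbu : ℂ} {o_ysr o_ysi v586 o_d v587 o_ysw o_w v588 v589 o_nsr v590 o_nsi v591 o_D11 o_D12 o_D21 v592 o_D22 o_V0fr o_V0fi o_V0r o_V0i o_fs o_N11 v593 o_N12 o_N22 o_M11 o_M12 o_M21 o_M22 o_L11 o_L12 o_L21 o_L22 o_zvr o_zvi o_ar o_ai o_sar v594 o_sai v595 v596 v597 v598 v599 : ℝ}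
    (h8 : v8 = oc)
    (h13 : v13 = oR m)
    (h16 : v16 = 1 / 6)
    (h20 : v20 = (2 : ℝ))
    (e_K_d : K = oK)
    (e_S_d : S = oS m)
    (e_ys_d : ys = oy m)
    (h34 : v34 = (1 : ℝ) / 2 ^ 1)
    (e_cAv_d : cAv = cA)
    (e_sAv_d : sAv = sA)
    (e_oav_d : oav = oa m)
    (e_obv_d : obv = ob m)
    (e_vs_d : vs = ov m)
    (e_vs_re : v57 = -vs.re)
    (e_vs_im : v58 = -vs.im)
    (e_ns_d : ns = oN m)
    (e_k0_d : k0 = dt (oy m) (oN m))
    (e_F_d : F = oF m)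
    (e_pr_d : pr = oy m - oN m * (k0 : ℂ))
    (e_bs_d : bs = oB m)
    (e_wd_d : wd = oK * (1 / oS m))
    (h74 : v74 = (3 : ℝ))
    (e_w_d : w = 3 * oK * (1 / oS m) ^ 2)
    (e_hh2_d : hh2 = 2 * (oK * (1 / oS m)))
    (e_c2_d : c2 = (hh2 : ℂ) - oy m)
    (e_V0_d : V0 = oV m)
    (e_V0f_d : V0f = oV m / (oF m : ℂ))
    (e_mm_d : mm = m)
    (e_tkv_d : tkv = tk m)
    (e_pkv_d : pkv = pk m)
    (e_kc_d : kc = oc * (3 * (4 - Real.sqrt 2) / 4))
    (e_kq_d : kq = oS m * s3 * (1 / 27) * (1 / oK) ^ 2)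
    (e_qv_d : qv = qy m)
    (e_t2_d : t2 = (m / m1) ^ 2)
    (e_cax_d : cax = (dB.ax).ev m)
    (e_cbu_d : cbu = (dB.bu).ev m)
    (e_ae_d : ae = dB.ae m)
    (e_be_d : be = dB.be m)
    (e_be_re : v197 = be.re)
    (e_be_im : v182 = be.im)
    (e_a_d : a = qy m + dB.ae m)
    (e_aeV_d : aeV = dt (dB.ae m) (oV m) / oF m)
    (e_DT_d : DT = DVT (oy m) (qy m + dB.ae m))
    (e_gq_d : gq = aeV - 2 * oc * oR m ^ 2 + dt be (bs - (oR m : ℂ) * (I * ns)))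
    (e_sa_d : sa = (dB.pt m).sa)
    (e_fv1_d : fv1 = (dB.pt m).fv 1)
    (e_fvI_d : fvI = (dB.pt m).fv I)
    (e_fvs_d : fvs = (oy m - ((dt (oy m) (oN m) : ℝ) : ℂ) * oN m) / (oR m : ℂ))
    (e_zv_d : zv = I * ov m - oB m)
    (e_bz_d : bz = dt (dB.be m) (I * ov m - oB m))
    (e_kap_d : kap = (dB.pt m).kap)
    (e_g4_d : g4 = -4 * (oK * (1 / oS m)))
    (e_gw_d : gw = 4 * (oK * (1 / oS m)) ^ 2)
    (e_D1_d : D1 = (dB.pt m).DV 1)
    (e_DI_d : DI = (dB.pt m).DV I)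
    (e_Mq1_d : Mq1 = (dB.pt m).M 1)
    (e_Mq1_re : v290 = Mq1.re)
    (e_Mq1_im : v293 = Mq1.im)
    (e_MqI_d : MqI = (dB.pt m).M I)
    (e_MqI_re : v295 = MqI.re)
    (e_MqI_im : v298 = MqI.im)
    (e_hc_d : hc = 1 / 2 - oc)
    (e_Lq1_d : Lq1 = (dB.pt m).L 1)
    (e_LqI_d : LqI = (dB.pt m).L I)
    (e_io_d : io = 1 / osd m)
    (e_io_v : v339 = io)
    (e_c_xx_d : c_xx = dB.xx.ev m)
    (e_c_xx_re : v349 = c_xx.re)
    (e_c_xx_im : v369 = c_xx.im)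
    (e_d_xx_d : d_xx = dB.xx.dv m)
    (e_d_xx_re : v372 = d_xx.re)
    (e_d_xx_im : v374 = d_xx.im)
    (e_c_xb_d : c_xb = dB.xb.ev m)
    (e_c_xb_im : v389 = c_xb.im)
    (e_d_xb_d : d_xb = dB.xb.dv m)
    (e_d_xb_im : v390 = d_xb.im)
    (e_c_x3_d : c_x3 = dB.x3.ev m)
    (e_c_x3_re : v397 = c_x3.re)
    (e_c_x3_im : v415 = c_x3.im)
    (e_d_x3_d : d_x3 = dB.x3.dv m)
    (e_d_x3_re : v417 = d_x3.re)
    (e_d_x3_im : v418 = d_x3.im)
    (e_c_x2b_d : c_x2b = dB.x2b.ev m)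
    (e_c_x2b_re : v425 = c_x2b.re)
    (e_c_x2b_im : v443 = c_x2b.im)
    (e_d_x2b_d : d_x2b = dB.x2b.dv m)
    (e_d_x2b_re : v445 = d_x2b.re)
    (e_d_x2b_im : v446 = d_x2b.im)
    (e_c_xu_d : c_xu = dB.xu.ev m)
    (e_c_xu_re : v453 = c_xu.re)
    (e_c_xu_im : v471 = c_xu.im)
    (e_d_xu_d : d_xu = dB.xu.dv m)
    (e_d_xu_re : v473 = d_xu.re)
    (e_d_xu_im : v474 = d_xu.im)
    (e_c_xc_d : c_xc = dB.xc.ev m)
    (e_c_xc_re : v481 = c_xc.re)
    (e_c_xc_im : v499 = c_xc.im)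
    (e_d_xc_d : d_xc = dB.xc.dv m)
    (e_d_xc_re : v501 = d_xc.re)
    (e_d_xc_im : v502 = d_xc.im)
    (e_c_x2u_d : c_x2u = dB.x2u.ev m)
    (e_c_x2u_re : v509 = c_x2u.re)
    (e_c_x2u_im : v527 = c_x2u.im)
    (e_d_x2u_d : d_x2u = dB.x2u.dv m)
    (e_d_x2u_re : v529 = d_x2u.re)
    (e_d_x2u_im : v530 = d_x2u.im)
    (e_c_x2c_d : c_x2c = dB.x2c.ev m)
    (e_c_x2c_re : v537 = c_x2c.re)
    (e_c_x2c_im : v555 = c_x2c.im)
    (e_d_x2c_d : d_x2c = dB.x2c.dv m)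
    (e_d_x2c_re : v557 = d_x2c.re)
    (e_d_x2c_im : v558 = d_x2c.im)
    (e_c_xbu_d : c_xbu = dB.xbu.ev m)
    (e_c_xbu_re : v565 = c_xbu.re)
    (e_c_xbu_im : v582 = c_xbu.im)
    (e_d_xbu_d : d_xbu = dB.xbu.dv m)
    (e_d_xbu_re : v584 = d_xbu.re)
    (e_d_xbu_im : v585 = d_xbu.im)
    (e_o_ysr_d : o_ysr = (dB.pt m).ys.re)
    (e_o_ysr_v : v29 = o_ysr)
    (e_o_ysi_d : o_ysi = (dB.pt m).ys.im)
    (e_o_ysi_v : v31 = o_ysi)
    (e_o_d_d : o_d = 1 - 2 * (dB.pt m).ys.re)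
    (a_o_d : 1 - 2 * (dB.pt m).ys.re = 3 * (1 / oS m))
    (e_o_d_v : v586 = o_d)
    (e_o_ysw_d : o_ysw = (dB.pt m).ys.re - (1 - normSq (dB.pt m).ys) / (1 - 2 * (dB.pt m).ys.re))
    (e_o_ysw_v : v587 = o_ysw)
    (e_o_w_d : o_w = 1 - normSq (dB.pt m).ys)
    (e_o_w_v : v75 = o_w)
    (h588 : v588 = (0 : ℝ))
    (e_o_nsr_d : o_nsr = (dB.pt m).ns.re)
    (e_o_nsr_v : v589 = o_nsr)
    (e_o_nsi_d : o_nsi = (dB.pt m).ns.im)
    (e_o_nsi_v : v590 = o_nsi)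
    (e_o_D11_d : o_D11 = ((dB.pt m).DV 1).re)
    (e_o_D11_v : v591 = o_D11)
    (e_o_D12_d : o_D12 = ((dB.pt m).DV I).re)
    (e_o_D12_v : v286 = o_D12)
    (e_o_D21_d : o_D21 = ((dB.pt m).DV 1).im)
    (e_o_D21_v : v281 = o_D21)
    (e_o_D22_d : o_D22 = ((dB.pt m).DV I).im)
    (e_o_D22_v : v592 = o_D22)
    (e_o_V0fr_d : o_V0fr = ((dB.pt m).V0 / ((dB.pt m).fs : ℂ)).re)
    (e_o_V0fr_v : v80 = o_V0fr)
    (e_o_V0fi_d : o_V0fi = ((dB.pt m).V0 / ((dB.pt m).fs : ℂ)).im)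
    (e_o_V0fi_v : v81 = o_V0fi)
    (e_o_V0r_d : o_V0r = (dB.pt m).V0.re)
    (e_o_V0r_v : v79 = o_V0r)
    (e_o_V0i_d : o_V0i = (dB.pt m).V0.im)
    (e_o_V0i_v : v78 = o_V0i)
    (e_o_fs_d : o_fs = (dB.pt m).fs)
    (e_o_fs_v : v64 = o_fs)
    (e_o_N11_d : o_N11 = ((dB.pt m).fv 1).re)
    (e_o_N11_v : v244 = o_N11)
    (e_o_N12_d : o_N12 = ((dB.pt m).fv 1).im)
    (e_o_N12_v : v593 = o_N12)
    (e_o_N22_d : o_N22 = ((dB.pt m).fv I).im)
    (e_o_N22_v : v249 = o_N22)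
    (e_o_M11_d : o_M11 = ((dB.pt m).M 1).re)
    (e_o_M11_v : v290 = o_M11)
    (e_o_M12_d : o_M12 = ((dB.pt m).M I).re)
    (e_o_M12_v : v295 = o_M12)
    (e_o_M21_d : o_M21 = ((dB.pt m).M 1).im)
    (e_o_M21_v : v293 = o_M21)
    (e_o_M22_d : o_M22 = ((dB.pt m).M I).im)
    (e_o_M22_v : v298 = o_M22)
    (e_o_L11_d : o_L11 = ((dB.pt m).L 1).re)
    (e_o_L11_v : v319 = o_L11)
    (e_o_L12_d : o_L12 = ((dB.pt m).L I).re)
    (e_o_L12_v : v336 = o_L12)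
    (e_o_L21_d : o_L21 = ((dB.pt m).L 1).im)
    (e_o_L21_v : v320 = o_L21)
    (e_o_L22_d : o_L22 = ((dB.pt m).L I).im)
    (e_o_L22_v : v337 = o_L22)
    (e_o_zvr_d : o_zvr = (I * (dB.pt m).vs - (dB.pt m).bs).re)
    (e_o_zvr_v : v252 = o_zvr)
    (e_o_zvi_d : o_zvi = (I * (dB.pt m).vs - (dB.pt m).bs).im)
    (e_o_zvi_v : v253 = o_zvi)
    (e_o_ar_d : o_ar = (dB.pt m).a.re)
    (e_o_ar_v : v198 = o_ar)
    (e_o_ai_d : o_ai = (dB.pt m).a.im)
    (e_o_ai_v : v199 = o_ai)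
    (e_o_sar_d : o_sar = (dB.pt m).sa.re)
    (e_o_sar_v : v240 = o_sar)
    (e_o_sai_d : o_sai = (dB.pt m).sa.im)
    (e_o_sai_v : v594 = o_sai)
    (h595 : v595 = v369 + v389)
    (h596 : v596 = v389 - v369)
    (h597 : v597 = v20 * v349)
    (h598 : v598 = v415 + v443)
    (h599 : v599 = v74 * v415)
    (h : TrE (realAlg (fun i => get 0 (l1 μB m) i) (m / m1) 0) (pQB.drop 600) [v599, v598, v597, v596, v595, v594, v593, v592, v591, v590, v589, v588, v587, v586, v585, v584, v583, v582, v581, v580, v579, v578, v577, v576, v575, v574, v573, v572, v571, v570, v569, v568, v567, v566, v565, v564, v563, v562, v561, v560, v559, v558, v557, v556, v555, v554, v553, v552, v551, v550, v549, v548, v547, v546, v545, v544, v543, v542, v541, v540, v539, v538, v537, v536, v535, v534, v533, v532, v531, v530, v529, v528, v527, v526, v525, v524, v523, v522, v521, v520, v519, v518, v517, v516, v515, v514, v513,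 v512, v511, v510, v509, v508, v507, v506, v505, v504, v503, v502, v501, v500, v499, v498, v497, v496, v495, v494, v493, v492, v491, v490, v489, v488, v487, v486, v485, v484, v483, v482, v481, v480, v479, v478, v477, v476, v475, v474, v473, v472, v471, v470, v469, v468, v467, v466, v465, v464, v463, v462, v461, v460, v459, v458, v457, v456, v455, v454, v453, v452, v451, v450, v449, v448, v447, v446, v445, v444, v443, v442, v441, v440, v439, v438, v437, v436, v435, v434, v433, v432, v431, v430, v429, v428, v427, v426, v425, v424, v423, v422, v421, v420, v419, v418, v417, v416, v415, v414, v413, v412, v411, v410, v409, v408, v407, v406, v405, v404, v403, v402, v401, v400, v399, v398, v397, v396, v395, v394, v393, v392, v391, v390, v389, v388, v387, v386, v385, v384, v383, v382, v381, v380, v379, v378, v377, v376, v375, v374, v373, v372, v371, v370, v369, v368, v367, v366, v365, v364, v363, v362,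 v361, v360, v359, v358, v357, v356, v355, v354, v353, v352, v351, v350, v349, v348, v347, v346, v345, v344, v343, v342, v341, v340, v339, v338, v337, v336, v335, v334, v333, v332, v331, v330, v329, v328, v327, v326, v325, v324, v323, v322, v321, v320, v319, v318, v317, v316, v315, v314, v313, v312, v311, v310, v309, v308, v307, v306, v305, v304, v303, v302, v301, v300, v299, v298, v297, v296, v295, v294, v293, v292, v291, v290, v289, v288, v287, v286, v285, v284, v283, v282, v281, v280, v279, v278, v277, v276, v275, v274, v273, v272, v271, v270, v269, v268, v267, v266, v265, v264, v263, v262, v261, v260, v259, v258, v257, v256, v255, v254, v253, v252, v251, v250, v249, v248, v247, v246, v245, v244, v243, v242, v241, v240, v239, v238, v237, v236, v235, v234, v233, v232, v231, v230, v229, v228, v227, v226, v225, v224, v223, v222, v221, v220, v219, v218, v217, v216, v215, v214, v213, v212, v211,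 v210, v209, v208, v207, v206, v205, v204, v203, v202, v201, v200, v199, v198, v197, v196, v195, v194, v193, v192, v191, v190, v189, v188, v187, v186, v185, v184, v183, v182, v181, v180, v179, v178, v177, v176, v175, v174, v173, v172, v171, v170, v169, v168, v167, v166, v165, v164, v163, v162, v161, v160, v159, v158, v157, v156, v155, v154, v153, v152, v151, v150, v149, v148, v147, v146, v145, v144, v143, v142, v141, v140, v139, v138, v137, v136, v135, v134, v133, v132, v131, v130, v129, v128, v127, v126, v125, v124, v123, v122, v121, v120, v119, v118, v117, v116, v115, v114, v113, v112, v111, v110, v109, v108, v107, v106, v105, v104, v103, v102, v101, v100, v99, v98, v97, v96, v95, v94, v93, v92, v91, v90, v89, v88, v87, v86, v85, v84, v83, v82, v81, v80, v79, v78, v77, v76, v75, v74, v73, v72, v71, v70, v69, v68, v67, v66, v65, v64, v63, v62, v61, v60, v59, v58, v57, v56, v55, v54, v53, v52,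 v51, v50, v49, v48, v47, v46, v45, v44, v43, v42, v41, v40, v39, v38, v37, v36, v35, v34, v33, v32, v31, v30, v29, v28, v27, v26, v25, v24, v23, v22, v21, v20, v19, v18, v17, v16, v15, v14, v13, v12, v11, v10, v9, v8, v7, v6, v5, v4, v3, v2, v1, v0] (fun st => run (realAlg (fun i => get 0 (l1 μB m) i) (m / m1) 0) pQB [] = st)) :
    pQB_goal m := by
  have hm1 : m1 ≠ 0 := m1_ne
  obtain ⟨v600, h600, h⟩ := h
  change v600 = v443 - v599 at h600
  obtain ⟨v601, h601, h⟩ := h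
  change v601 = v74 * v397 at h601
  obtain ⟨v602, h602, h⟩ := h
  change v602 = v425 + v601 at h602
  obtain ⟨v603, h603, h⟩ := h
  change v603 = v425 - v397 at h603
  obtain ⟨v604, h604, h⟩ := h
  change v604 = v471 + v499 at h604
  obtain ⟨v605, h605, h⟩ := h
  change v605 = v453 + v481 at h605
  obtain ⟨v606, h606, h⟩ := h
  change v606 = v453 - v481 at h606
  obtain ⟨v607, h607, h⟩ := h
  change v607 = v499 - v471 at h607
  obtain ⟨v608, h608, h⟩ := h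
  change v608 = v527 + v555 at h608
  obtain ⟨v609, h609, h⟩ := h
  change v609 = v582 + v608 at h609
  obtain ⟨v610, h610, h⟩ := h
  change v610 = v509 + v537 at h610
  obtain ⟨v611, h611, h⟩ := h
  change v611 = v20 * v610 at h611
  obtain ⟨v612, h612, h⟩ := h
  change v612 = v582 - v527 at h612
  obtain ⟨v613, h613, h⟩ := h
  change v613 = v612 - v555 at h613
  obtain ⟨v614, h614, h⟩ := h
  change v614 = v509 - v537 at h614
  obtain ⟨v615, h615, h⟩ := h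
  change v615 = v565 + v614 at h615
  obtain ⟨v616, h616, h⟩ := h
  change v616 = v555 - v527 at h616
  obtain ⟨v617, h617, h⟩ := h
  change v617 = v20 * v616 at h617
  obtain ⟨v618, h618, h⟩ := h
  change v618 = v537 - v509 at h618
  obtain ⟨v619, h619, h⟩ := h
  change v619 = v565 + v618 at h619
  obtain ⟨v620, h620, h⟩ := h
  change v620 = v20 * v595 at h620
  obtain ⟨o_A11, e_o_A11_d⟩ : ∃ q : ℝ, q = 2 * (dB.pt m).c.a20 := ⟨_, rfl⟩
  have a_o_A11 : 2 * (dB.pt m).c.a20 = 2 * (c_xx.im + c_xb.im) := by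
    rw [e_c_xx_d, e_c_xb_d]; rfl
  have e_o_A11_v : v620 = o_A11 := by
    rw [e_o_A11_d, a_o_A11]
    simp only [h620, h595, h20, e_c_xb_im, e_c_xx_im, mul_re, mul_im, add_re, add_im, sub_re, sub_im, neg_re, neg_im, I_re, I_im, ofReal_re,
      ofReal_im, one_re, one_im, dt, normSq_apply, re_ofNat, im_ofNat]
    try ring
  obtain ⟨o_A12, e_o_A12_d⟩ : ∃ q : ℝ, q = (dB.pt m).c.a11 := ⟨_, rfl⟩
  have a_o_A12 : (dB.pt m).c.a11 = 2 * c_xx.re := by
    rw [e_c_xx_d]; rfl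
  have e_o_A12_v : v597 = o_A12 := by
    rw [e_o_A12_d, a_o_A12]
    simp only [h597, h20, e_c_xx_re, mul_re, mul_im, add_re, add_im, sub_re, sub_im, neg_re, neg_im, I_re, I_im, ofReal_re,
      ofReal_im, one_re, one_im, dt, normSq_apply, re_ofNat, im_ofNat]
    try ring
  obtain ⟨v621, h621, h⟩ := h
  change v621 = v20 * v596 at h621
  obtain ⟨o_A22, e_o_A22_d⟩ : ∃ q : ℝ, q = 2 * (dB.pt m).c.a02 := ⟨_, rfl⟩
  have a_o_A22 : 2 * (dB.pt m).c.a02 = 2 * (-c_xx.im + c_xb.im) := by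
    rw [e_c_xx_d, e_c_xb_d]; rfl
  have e_o_A22_v : v621 = o_A22 := by
    rw [e_o_A22_d, a_o_A22]
    simp only [h621, h596, h20, e_c_xx_im, e_c_xb_im, mul_re, mul_im, add_re, add_im, sub_re, sub_im, neg_re, neg_im, I_re, I_im, ofReal_re,
      ofReal_im, one_re, one_im, dt, normSq_apply, re_ofNat, im_ofNat]
    try ring
  obtain ⟨v622, h622, h⟩ := h
  change v622 = v74 * v598 at h622
  obtain ⟨o_g1, e_o_g1_d⟩ : ∃ q : ℝ, q = 3 * (dB.pt m).c.a30 := ⟨_, rfl⟩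
  have a_o_g1 : 3 * (dB.pt m).c.a30 = 3 * (c_x3.im + c_x2b.im) := by
    rw [e_c_x3_d, e_c_x2b_d]; rfl
  have e_o_g1_v : v622 = o_g1 := by
    rw [e_o_g1_d, a_o_g1]
    simp only [h622, h598, h74, e_c_x2b_im, e_c_x3_im, mul_re, mul_im, add_re, add_im, sub_re, sub_im, neg_re, neg_im, I_re, I_im, ofReal_re,
      ofReal_im, one_re, one_im, dt, normSq_apply, re_ofNat, im_ofNat]
    try ring
  obtain ⟨v623, h623, h⟩ := h
  change v623 = v20 * v602 at h623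
  obtain ⟨o_g2, e_o_g2_d⟩ : ∃ q : ℝ, q = 2 * (dB.pt m).c.a21 := ⟨_, rfl⟩
  have a_o_g2 : 2 * (dB.pt m).c.a21 = 2 * (3 * c_x3.re + c_x2b.re) := by
    rw [e_c_x3_d, e_c_x2b_d]; rfl
  have e_o_g2_v : v623 = o_g2 := by
    rw [e_o_g2_d, a_o_g2]
    simp only [h623, h602, h601, h74, h20, e_c_x3_re, e_c_x2b_re, mul_re, mul_im, add_re, add_im, sub_re, sub_im, neg_re, neg_im, I_re, I_im, ofReal_re,
      ofReal_im, one_re, one_im, dt, normSq_apply, re_ofNat, im_ofNat]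
    try ring
  obtain ⟨o_g3, e_o_g3_d⟩ : ∃ q : ℝ, q = (dB.pt m).c.a12 := ⟨_, rfl⟩
  have a_o_g3 : (dB.pt m).c.a12 = -3 * c_x3.im + c_x2b.im := by
    rw [e_c_x3_d, e_c_x2b_d]; rfl
  have e_o_g3_v : v600 = o_g3 := by
    rw [e_o_g3_d, a_o_g3]
    simp only [h600, h599, h74, e_c_x3_im, e_c_x2b_im, mul_re, mul_im, add_re, add_im, sub_re, sub_im, neg_re, neg_im, I_re, I_im, ofReal_re,
      ofReal_im, one_re, one_im, dt, normSq_apply, re_ofNat, im_ofNat]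
    try ring
  obtain ⟨o_g4, e_o_g4_d⟩ : ∃ q : ℝ, q = (dB.pt m).c.a21 := ⟨_, rfl⟩
  have a_o_g4 : (dB.pt m).c.a21 = 3 * c_x3.re + c_x2b.re := by
    rw [e_c_x3_d, e_c_x2b_d]; rfl
  have e_o_g4_v : v602 = o_g4 := by
    rw [e_o_g4_d, a_o_g4]
    simp only [h602, h601, h74, e_c_x3_re, e_c_x2b_re, mul_re, mul_im, add_re, add_im, sub_re, sub_im, neg_re, neg_im, I_re, I_im, ofReal_re,
      ofReal_im, one_re, one_im, dt, normSq_apply, re_ofNat, im_ofNat]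
    try ring
  obtain ⟨v624, h624, h⟩ := h
  change v624 = v20 * v600 at h624
  obtain ⟨o_g5, e_o_g5_d⟩ : ∃ q : ℝ, q = 2 * (dB.pt m).c.a12 := ⟨_, rfl⟩
  have a_o_g5 : 2 * (dB.pt m).c.a12 = 2 * (-3 * c_x3.im + c_x2b.im) := by
    rw [e_c_x3_d, e_c_x2b_d]; rfl
  have e_o_g5_v : v624 = o_g5 := by
    rw [e_o_g5_d, a_o_g5]
    simp only [h624, h600, h599, h74, h20, e_c_x3_im, e_c_x2b_im, mul_re, mul_im, add_re, add_im, sub_re, sub_im, neg_re, neg_im, I_re, I_im, ofReal_re,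
      ofReal_im, one_re, one_im, dt, normSq_apply, re_ofNat, im_ofNat]
    try ring
  obtain ⟨v625, h625, h⟩ := h
  change v625 = v74 * v603 at h625
  obtain ⟨o_g6, e_o_g6_d⟩ : ∃ q : ℝ, q = 3 * (dB.pt m).c.a03 := ⟨_, rfl⟩
  have a_o_g6 : 3 * (dB.pt m).c.a03 = 3 * (-c_x3.re + c_x2b.re) := by
    rw [e_c_x3_d, e_c_x2b_d]; rfl
  have e_o_g6_v : v625 = o_g6 := by
    rw [e_o_g6_d, a_o_g6]
    simp only [h625, h603, h74, e_c_x3_re, e_c_x2b_re, mul_re, mul_im, add_re, add_im, sub_re, sub_im, neg_re, neg_im, I_re, I_im, ofReal_re,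
      ofReal_im, one_re, one_im, dt, normSq_apply, re_ofNat, im_ofNat]
    try ring
  obtain ⟨v626, h626, h⟩ := h
  change v626 = v374 + v390 at h626
  obtain ⟨v627, h627, h⟩ := h
  change v627 = v390 - v374 at h627
  obtain ⟨v628, h628, h⟩ := h
  change v628 = v20 * v372 at h628
  obtain ⟨v629, h629, h⟩ := h
  change v629 = v418 + v446 at h629
  obtain ⟨v630, h630, h⟩ := h
  change v630 = v74 * v418 at h630
  obtain ⟨v631, h631, h⟩ := h
  change v631 = v446 - v630 at h631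
  obtain ⟨v632, h632, h⟩ := h
  change v632 = v74 * v417 at h632
  obtain ⟨v633, h633, h⟩ := h
  change v633 = v445 + v632 at h633
  obtain ⟨v634, h634, h⟩ := h
  change v634 = v445 - v417 at h634
  obtain ⟨v635, h635, h⟩ := h
  change v635 = v474 + v502 at h635
  obtain ⟨v636, h636, h⟩ := h
  change v636 = v473 + v501 at h636
  obtain ⟨v637, h637, h⟩ := h
  change v637 = v473 - v501 at h637
  obtain ⟨v638, h638, h⟩ := h
  change v638 = v502 - v474 at h638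
  obtain ⟨v639, h639, h⟩ := h
  change v639 = v530 + v558 at h639
  exact pQB_c16 m h8 h13 h16 h20 e_K_d e_S_d e_ys_d h34 e_cAv_d e_sAv_d e_oav_d e_obv_d e_vs_d e_vs_re e_vs_im e_ns_d e_k0_d e_F_d e_pr_d e_bs_d e_wd_d h74 e_w_d e_hh2_d e_c2_d e_V0_d e_V0f_d e_mm_d e_tkv_d e_pkv_d e_kc_d e_kq_d e_qv_d e_t2_d e_cax_d e_cbu_d e_ae_d e_be_d e_be_re e_be_im e_a_d e_aeV_d e_DT_d e_gq_d e_sa_d e_fv1_d e_fvI_d e_fvs_d e_zv_d e_bz_d e_kap_d e_g4_d e_gw_d e_D1_d e_DI_d e_Mq1_d e_Mq1_re e_Mq1_im e_MqI_d e_MqI_re e_MqI_im e_hc_d e_Lq1_d e_LqI_d e_io_d e_io_v e_c_xx_d e_d_xx_d e_d_xx_re e_d_xx_im e_c_xb_d e_d_xb_d e_d_xb_im e_c_x3_d e_d_x3_d e_d_x3_re e_d_x3_im e_c_x2b_d e_d_x2b_d e_d_x2b_re e_d_x2b_im e_c_xu_d e_c_xu_re e_c_xu_im e_d_xu_d e_d_xu_re e_d_xu_im e_c_xc_d e_c_xc_re e_c_xc_im e_d_xc_d e_d_xc_re e_d_xc_im e_c_x2u_d e_c_x2u_re e_c_x2u_im e_d_x2u_d e_d_x2u_re e_d_x2u_im e_c_x2c_d e_c_x2c_re e_c_x2c_im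 e_d_x2c_d e_d_x2c_re e_d_x2c_im e_c_xbu_d e_c_xbu_re e_c_xbu_im e_d_xbu_d e_d_xbu_re e_d_xbu_im e_o_ysr_d e_o_ysr_v e_o_ysi_d e_o_ysi_v e_o_d_d a_o_d e_o_d_v e_o_ysw_d e_o_ysw_v e_o_w_d e_o_w_v h588 e_o_nsr_d e_o_nsr_v e_o_nsi_d e_o_nsi_v e_o_D11_d e_o_D11_v e_o_D12_d e_o_D12_v e_o_D21_d e_o_D21_v e_o_D22_d e_o_D22_v e_o_V0fr_d e_o_V0fr_v e_o_V0fi_d e_o_V0fi_v e_o_V0r_d e_o_V0r_v e_o_V0i_d e_o_V0i_v e_o_fs_d e_o_fs_v e_o_N11_d e_o_N11_v e_o_N12_d e_o_N12_v e_o_N22_d e_o_N22_v e_o_M11_d e_o_M11_v e_o_M12_d e_o_M12_v e_o_M21_d e_o_M21_v e_o_M22_d e_o_M22_v e_o_L11_d e_o_L11_v e_o_L12_d e_o_L12_v e_o_L21_d e_o_L21_v e_o_L22_d e_o_L22_v e_o_zvr_d e_o_zvr_v e_o_zvi_d e_o_zvi_v e_o_ar_d e_o_ar_v e_o_ai_d e_o_ai_v e_o_sar_d e_o_sar_v e_o_sai_d e_o_sai_v h604 h605 h606 h607 h608 h609 h610 h611 h612 h613 h614 h615 h616 h617 h618 h619 e_o_A11_d e_o_A11_v e_o_A12_d e_o_A12_v e_o_A22_d e_o_A22_v e_o_g1_d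 e_o_g1_v e_o_g2_d e_o_g2_v e_o_g3_d e_o_g3_v e_o_g4_d e_o_g4_v e_o_g5_d e_o_g5_v e_o_g6_d e_o_g6_v h626 h627 h628 h629 h630 h631 h632 h633 h634 h635 h636 h637 h638 h639 h

theorem pQB_c14 (m : ℝ) {v0 v1 v2 v3 v4 v5 v6 v7 v8 v9 v10 v11 v12 v13 v14 v15 v16 v17 v18 v19 v20 v21 v22 v23 K v24 v25 v26 v27 S v28 v29 v30 v31 : ℝ} {ys : ℂ} {v32 v33 v34 v35 cAv v36 v37 v38 sAv v39 v40 v41 v42 v43 v44 : ℝ} {oav : ℂ} {v45 v46 v47 v48 v49 v50 : ℝ} {obv : ℂ} {v51 v52 v53 v54 v55 v56 v57 v58 : ℝ} {vs : ℂ} {v59 v60 : ℝ} {ns : ℂ} {v61 v62 v63 k0 v64 F v65 v66 v67 v68 : ℝ} {pr : ℂ} {v69 v70 v71 : ℝ} {bs : ℂ} {v72 wd v73 v74 v75 w v76 hh2 v77 : ℝ} {c2 : ℂ} {v78 v79 : ℝ} {V0 : ℂ} {v80 v81 : ℝ} {V0f : ℂ} {v82 mm v83 v84 v85 v86 v87 v88 v89 v90 v91 v92 v93 v94 v95 v96 v97 v98 v99 v100 v101 v102 v103 v104 v105 v106 v107 v108 v109 v110 v111 v112 v113 v114 : ℝ} {tkv : ℂ} {v115 v116 v117 v118 v119 v120 v121 v122 v123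 v124 v125 v126 v127 : ℝ} {pkv : ℂ} {v128 v129 v130 kc v131 v132 v133 v134 kq v135 v136 v137 v138 v139 v140 : ℝ} {qv : ℂ} {v141 t2 v142 v143 v144 v145 v146 v147 v148 v149 v150 v151 v152 v153 v154 v155 v156 v157 v158 v159 v160 v161 v162 v163 v164 v165 v166 v167 v168 v169 : ℝ} {cax : ℂ} {v170 v171 v172 v173 v174 v175 v176 v177 v178 v179 v180 v181 v182 v183 v184 v185 v186 v187 v188 v189 v190 v191 v192 v193 v194 v195 v196 v197 : ℝ} {cbu ae be : ℂ} {v198 v199 : ℝ} {a : ℂ} {v200 v201 v202 v203 aeV v204 v205 v206 v207 v208 v209 v210 v211 v212 v213 v214 v215 v216 v217 v218 v219 : ℝ} {DT : ℂ} {v220 v221 v222 v223 v224 v225 v226 v227 v228 v229 v230 v231 gq v232 v233 v234 v235 v236 v237 v238 v239 v240 v241 : ℝ} {sa : ℂ} {v242 v243 v244 v245 v246 : ℝ} {fv1 : ℂ} {v247 v248 v249 : ℝ} {fvI : ℂ} {v250 v251 : ℝ} {fvs : ℂ} {v252 v253 : ℝ} {zv : ℂ} {v254 v255 v256 bz v257 v258 v259 v260 v261 v262 v263 v264 v265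 v266 v267 v268 v269 v270 v271 v272 : ℝ} {kap : ℂ} {v273 g4 v274 gw v275 v276 v277 v278 v279 v280 v281 : ℝ} {D1 : ℂ} {v282 v283 v284 v285 v286 v287 : ℝ} {DI : ℂ} {v288 v289 v290 v291 v292 v293 : ℝ} {Mq1 : ℂ} {v294 v295 v296 v297 v298 : ℝ} {MqI : ℂ} {v299 hc v300 v301 v302 v303 v304 v305 v306 v307 v308 v309 v310 v311 v312 v313 v314 v315 v316 v317 v318 v319 v320 : ℝ} {Lq1 : ℂ} {v321 v322 v323 v324 v325 v326 v327 v328 v329 v330 v331 v332 v333 v334 v335 v336 v337 : ℝ} {LqI : ℂ} {v338 v339 io v340 v341 v342 v343 v344 v345 v346 v347 v348 v349 v350 v351 v352 v353 v354 v355 v356 v357 v358 v359 v360 v361 v362 v363 v364 v365 v366 v367 v368 v369 : ℝ} {c_xx : ℂ} {v370 v371 v372 v373 v374 : ℝ} {d_xx : ℂ} {v375 v376 v377 v378 v379 v380 v381 v382 v383 v384 v385 v386 v387 v388 v389 : ℝ} {c_xb : ℂ} {v390 : ℝ} {d_xb : ℂ} {v391 v392 v393 v394 v395 v396 v397 v398 v399 v400 v401 v402 v403 v404 v405 v406 v407 v408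 v409 v410 v411 v412 v413 v414 v415 : ℝ} {c_x3 : ℂ} {v416 v417 v418 : ℝ} {d_x3 : ℂ} {v419 v420 v421 v422 v423 v424 v425 v426 v427 v428 v429 v430 v431 v432 v433 v434 v435 v436 v437 v438 v439 v440 v441 v442 v443 : ℝ} {c_x2b : ℂ} {v444 v445 v446 : ℝ} {d_x2b : ℂ} {v447 v448 v449 v450 v451 v452 v453 v454 v455 v456 v457 v458 v459 v460 v461 v462 v463 v464 v465 v466 v467 v468 v469 v470 v471 : ℝ} {c_xu : ℂ} {v472 v473 v474 : ℝ} {d_xu : ℂ} {v475 v476 v477 v478 v479 v480 v481 v482 v483 v484 v485 v486 v487 v488 v489 v490 v491 v492 v493 v494 v495 v496 v497 v498 v499 : ℝ} {c_xc : ℂ} {v500 v501 v502 : ℝ} {d_xc : ℂ} {v503 v504 v505 v506 v507 v508 v509 v510 v511 v512 v513 v514 v515 v516 v517 v518 v519 v520 v521 v522 v523 v524 v525 v526 v527 : ℝ} {c_x2u : ℂ} {v528 v529 v530 : ℝ} {d_x2u : ℂ} {v531 v532 v533 v534 v535 v536 v537 v538 v539 v540 v541 v542 v543 v544 v545 v546 v547 v548 v549 v550 v551 v552 v553 v554 v555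 : ℝ} {c_x2c : ℂ} {v556 v557 v558 : ℝ} {d_x2c : ℂ} {v559 : ℝ}
    (h1 : v1 = s3)
    (h4 : v4 = 1 / m1)
    (h8 : v8 = oc)
    (h12 : v12 = 1 / oS m)
    (h13 : v13 = oR m)
    (h16 : v16 = 1 / 6)
    (h19 : v19 = m / m1)
    (h20 : v20 = (2 : ℝ))
    (e_K_d : K = oK)
    (e_S_d : S = oS m)
    (e_ys_d : ys = oy m)
    (e_ys_re : v29 = ys.re)
    (e_ys_im : v31 = ys.im)
    (h34 : v34 = (1 : ℝ) / 2 ^ 1)
    (e_cAv_d : cAv = cA)
    (e_sAv_d : sAv = sA)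
    (e_oav_d : oav = oa m)
    (e_obv_d : obv = ob m)
    (e_vs_d : vs = ov m)
    (e_vs_re : v57 = -vs.re)
    (e_vs_im : v58 = -vs.im)
    (e_ns_d : ns = oN m)
    (e_ns_re : v59 = -ns.re)
    (e_ns_im : v60 = -ns.im)
    (e_k0_d : k0 = dt (oy m) (oN m))
    (e_F_d : F = oF m)
    (e_F_v : v64 = F)
    (e_pr_d : pr = oy m - oN m * (k0 : ℂ))
    (e_bs_d : bs = oB m)
    (e_wd_d : wd = oK * (1 / oS m))
    (e_wd_v : v72 = wd)
    (h74 : v74 = (3 : ℝ))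
    (e_w_d : w = 3 * oK * (1 / oS m) ^ 2)
    (e_w_v : v75 = w)
    (e_hh2_d : hh2 = 2 * (oK * (1 / oS m)))
    (e_c2_d : c2 = (hh2 : ℂ) - oy m)
    (e_V0_d : V0 = oV m)
    (e_V0_re : v79 = V0.re)
    (e_V0_im : v78 = V0.im)
    (e_V0f_d : V0f = oV m / (oF m : ℂ))
    (e_V0f_re : v80 = V0f.re)
    (e_V0f_im : v81 = V0f.im)
    (e_mm_d : mm = m)
    (e_tkv_d : tkv = tk m)
    (e_pkv_d : pkv = pk m)
    (e_kc_d : kc = oc * (3 * (4 - Real.sqrt 2) / 4))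
    (e_kq_d : kq = oS m * s3 * (1 / 27) * (1 / oK) ^ 2)
    (e_qv_d : qv = qy m)
    (h141 : v141 = v19 * v19)
    (e_t2_d : t2 = (m / m1) ^ 2)
    (e_cax_d : cax = (dB.ax).ev m)
    (e_cbu_d : cbu = (dB.bu).ev m)
    (e_ae_d : ae = dB.ae m)
    (e_be_d : be = dB.be m)
    (e_be_re : v197 = be.re)
    (e_be_im : v182 = be.im)
    (e_a_d : a = qy m + dB.ae m)
    (e_a_re : v198 = a.re)
    (e_a_im : v199 = a.im)
    (e_aeV_d : aeV = dt (dB.ae m) (oV m) / oF m)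
    (e_DT_d : DT = DVT (oy m) (qy m + dB.ae m))
    (e_gq_d : gq = aeV - 2 * oc * oR m ^ 2 + dt be (bs - (oR m : ℂ) * (I * ns)))
    (e_sa_d : sa = (dB.pt m).sa)
    (e_sa_re : v240 = sa.re)
    (e_sa_im : v241 = -sa.im)
    (e_fv1_d : fv1 = (dB.pt m).fv 1)
    (e_fv1_re : v244 = fv1.re)
    (e_fv1_im : v246 = -fv1.im)
    (e_fvI_d : fvI = (dB.pt m).fv I)
    (e_fvI_im : v249 = fvI.im)
    (e_fvs_d : fvs = (oy m - ((dt (oy m) (oN m) : ℝ) : ℂ) * oN m) / (oR m : ℂ))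
    (e_zv_d : zv = I * ov m - oB m)
    (e_zv_re : v252 = zv.re)
    (e_zv_im : v253 = zv.im)
    (e_bz_d : bz = dt (dB.be m) (I * ov m - oB m))
    (e_kap_d : kap = (dB.pt m).kap)
    (e_g4_d : g4 = -4 * (oK * (1 / oS m)))
    (e_gw_d : gw = 4 * (oK * (1 / oS m)) ^ 2)
    (e_D1_d : D1 = (dB.pt m).DV 1)
    (e_D1_re : v276 = -D1.re)
    (e_D1_im : v281 = D1.im)
    (e_DI_d : DI = (dB.pt m).DV I)
    (e_DI_re : v286 = DI.re)
    (e_DI_im : v287 = -DI.im)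
    (e_Mq1_d : Mq1 = (dB.pt m).M 1)
    (e_Mq1_re : v290 = Mq1.re)
    (e_Mq1_im : v293 = Mq1.im)
    (e_MqI_d : MqI = (dB.pt m).M I)
    (e_MqI_re : v295 = MqI.re)
    (e_MqI_im : v298 = MqI.im)
    (e_hc_d : hc = 1 / 2 - oc)
    (e_Lq1_d : Lq1 = (dB.pt m).L 1)
    (e_Lq1_re : v319 = Lq1.re)
    (e_Lq1_im : v320 = Lq1.im)
    (e_LqI_d : LqI = (dB.pt m).L I)
    (e_LqI_re : v336 = LqI.re)
    (e_LqI_im : v337 = LqI.im)
    (e_io_d : io = 1 / osd m)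
    (e_io_v : v339 = io)
    (e_c_xx_d : c_xx = dB.xx.ev m)
    (e_c_xx_re : v349 = c_xx.re)
    (e_c_xx_im : v369 = c_xx.im)
    (h370 : v370 = v4 * v19)
    (h373 : v373 = v1 * v4)
    (e_d_xx_d : d_xx = dB.xx.dv m)
    (e_d_xx_re : v372 = d_xx.re)
    (e_d_xx_im : v374 = d_xx.im)
    (e_c_xb_d : c_xb = dB.xb.ev m)
    (e_c_xb_im : v389 = c_xb.im)
    (e_d_xb_d : d_xb = dB.xb.dv m)
    (e_d_xb_im : v390 = d_xb.im)
    (e_c_x3_d : c_x3 = dB.x3.ev m)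
    (e_c_x3_re : v397 = c_x3.re)
    (e_c_x3_im : v415 = c_x3.im)
    (e_d_x3_d : d_x3 = dB.x3.dv m)
    (e_d_x3_re : v417 = d_x3.re)
    (e_d_x3_im : v418 = d_x3.im)
    (e_c_x2b_d : c_x2b = dB.x2b.ev m)
    (e_c_x2b_re : v425 = c_x2b.re)
    (e_c_x2b_im : v443 = c_x2b.im)
    (e_d_x2b_d : d_x2b = dB.x2b.dv m)
    (e_d_x2b_re : v445 = d_x2b.re)
    (e_d_x2b_im : v446 = d_x2b.im)
    (h464 : v464 = (2065 : ℝ) / 2 ^ 20)
    (e_c_xu_d : c_xu = dB.xu.ev m)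
    (e_c_xu_re : v453 = c_xu.re)
    (e_c_xu_im : v471 = c_xu.im)
    (e_d_xu_d : d_xu = dB.xu.dv m)
    (e_d_xu_re : v473 = d_xu.re)
    (e_d_xu_im : v474 = d_xu.im)
    (e_c_xc_d : c_xc = dB.xc.ev m)
    (e_c_xc_re : v481 = c_xc.re)
    (e_c_xc_im : v499 = c_xc.im)
    (e_d_xc_d : d_xc = dB.xc.dv m)
    (e_d_xc_re : v501 = d_xc.re)
    (e_d_xc_im : v502 = d_xc.im)
    (e_c_x2u_d : c_x2u = dB.x2u.ev m)
    (e_c_x2u_re : v509 = c_x2u.re)
    (e_c_x2u_im : v527 = c_x2u.im)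
    (e_d_x2u_d : d_x2u = dB.x2u.dv m)
    (e_d_x2u_re : v529 = d_x2u.re)
    (e_d_x2u_im : v530 = d_x2u.im)
    (e_c_x2c_d : c_x2c = dB.x2c.ev m)
    (e_c_x2c_re : v537 = c_x2c.re)
    (e_c_x2c_im : v555 = c_x2c.im)
    (e_d_x2c_d : d_x2c = dB.x2c.dv m)
    (e_d_x2c_re : v557 = d_x2c.re)
    (e_d_x2c_im : v558 = d_x2c.im)
    (h559 : v559 = (32347 : ℝ) / 2 ^ 20)
    (h : TrE (realAlg (fun i => get 0 (l1 μB m) i) (m / m1) 0) (pQB.drop 560) [v559, v558, v557, v556, v555, v554, v553, v552, v551, v550, v549, v548, v547, v546, v545, v544, v543, v542, v541, v540, v539, v538, v537, v536, v535, v534, v533, v532, v531, v530, v529, v528, v527, v526, v525, v524, v523, v522, v521, v520, v519, v518, v517, v516, v515, v514, v513, v512, v511, v510, v509, v508, v507, v506, v505, v504, v503, v502, v501, v500, v499, v498, v497, v496, v495, v494, v493, v492, v491, v490, v489, v488, v487, v486, v485, v484, v483,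 v482, v481, v480, v479, v478, v477, v476, v475, v474, v473, v472, v471, v470, v469, v468, v467, v466, v465, v464, v463, v462, v461, v460, v459, v458, v457, v456, v455, v454, v453, v452, v451, v450, v449, v448, v447, v446, v445, v444, v443, v442, v441, v440, v439, v438, v437, v436, v435, v434, v433, v432, v431, v430, v429, v428, v427, v426, v425, v424, v423, v422, v421, v420, v419, v418, v417, v416, v415, v414, v413, v412, v411, v410, v409, v408, v407, v406, v405, v404, v403, v402, v401, v400, v399, v398, v397, v396, v395, v394, v393, v392, v391, v390, v389, v388, v387, v386, v385, v384, v383, v382, v381, v380, v379, v378, v377, v376, v375, v374, v373, v372, v371, v370, v369, v368, v367, v366, v365, v364, v363, v362, v361, v360, v359, v358, v357, v356, v355, v354, v353, v352, v351, v350, v349, v348, v347, v346, v345, v344, v343, v342, v341, v340, v339, v338, v337, v336, v335, v334, v333, v332,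 v331, v330, v329, v328, v327, v326, v325, v324, v323, v322, v321, v320, v319, v318, v317, v316, v315, v314, v313, v312, v311, v310, v309, v308, v307, v306, v305, v304, v303, v302, v301, v300, v299, v298, v297, v296, v295, v294, v293, v292, v291, v290, v289, v288, v287, v286, v285, v284, v283, v282, v281, v280, v279, v278, v277, v276, v275, v274, v273, v272, v271, v270, v269, v268, v267, v266, v265, v264, v263, v262, v261, v260, v259, v258, v257, v256, v255, v254, v253, v252, v251, v250, v249, v248, v247, v246, v245, v244, v243, v242, v241, v240, v239, v238, v237, v236, v235, v234, v233, v232, v231, v230, v229, v228, v227, v226, v225, v224, v223, v222, v221, v220, v219, v218, v217, v216, v215, v214, v213, v212, v211, v210, v209, v208, v207, v206, v205, v204, v203, v202, v201, v200, v199, v198, v197, v196, v195, v194, v193, v192, v191, v190, v189, v188, v187, v186, v185, v184, v183, v182, v181,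 v180, v179, v178, v177, v176, v175, v174, v173, v172, v171, v170, v169, v168, v167, v166, v165, v164, v163, v162, v161, v160, v159, v158, v157, v156, v155, v154, v153, v152, v151, v150, v149, v148, v147, v146, v145, v144, v143, v142, v141, v140, v139, v138, v137, v136, v135, v134, v133, v132, v131, v130, v129, v128, v127, v126, v125, v124, v123, v122, v121, v120, v119, v118, v117, v116, v115, v114, v113, v112, v111, v110, v109, v108, v107, v106, v105, v104, v103, v102, v101, v100, v99, v98, v97, v96, v95, v94, v93, v92, v91, v90, v89, v88, v87, v86, v85, v84, v83, v82, v81, v80, v79, v78, v77, v76, v75, v74, v73, v72, v71, v70, v69, v68, v67, v66, v65, v64, v63, v62, v61, v60, v59, v58, v57, v56, v55, v54, v53, v52, v51, v50, v49, v48, v47, v46, v45, v44, v43, v42, v41, v40, v39, v38, v37, v36, v35, v34, v33, v32, v31, v30, v29, v28, v27, v26, v25, v24, v23, v22, v21, v20, v19, v18, v17, v16,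 v15, v14, v13, v12, v11, v10, v9, v8, v7, v6, v5, v4, v3, v2, v1, v0] (fun st => run (realAlg (fun i => get 0 (l1 μB m) i) (m / m1) 0) pQB [] = st)) :
    pQB_goal m := by
  have hm1 : m1 ≠ 0 := m1_ne
  obtain ⟨v560, h560, h⟩ := h
  change v560 = v141 * v559 at h560
  obtain ⟨v561, h561, h⟩ := h
  replace h561 : v561 = (45841 : ℝ) / 2 ^ 20 := by rw [h561]; norm_num [step, realAlg]
  obtain ⟨v562, h562, h⟩ := h
  change v562 = v560 + v561 at h562
  obtain ⟨v563, h563, h⟩ := h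
  change v563 = v141 * v562 at h563
  obtain ⟨v564, h564, h⟩ := h
  replace h564 : v564 = (68597 : ℝ) / 2 ^ 20 := by rw [h564]; norm_num [step, realAlg]
  obtain ⟨v565, h565, h⟩ := h
  change v565 = v563 - v564 at h565
  obtain ⟨v566, h566, h⟩ := h
  replace h566 : v566 = (5187 : ℝ) / 2 ^ 20 := by rw [h566]; norm_num [step, realAlg]
  obtain ⟨v567, h567, h⟩ := h
  change v567 = v141 * v566 at h567
  obtain ⟨v568, h568, h⟩ := h
  replace h568 : v568 = (16843 : ℝ) / 2 ^ 20 := by rw [h568]; norm_num [step, realAlg]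
  obtain ⟨v569, h569, h⟩ := h
  change v569 = v568 - v567 at h569
  obtain ⟨v570, h570, h⟩ := h
  change v570 = v141 * v569 at h570
  obtain ⟨v571, h571, h⟩ := h
  change v571 = v570 - v464 at h571
  obtain ⟨v572, h572, h⟩ := h
  replace h572 : v572 = (32347 : ℝ) / 2 ^ 19 := by rw [h572]; norm_num [step, realAlg]
  obtain ⟨v573, h573, h⟩ := h
  change v573 = v141 * v572 at h573
  obtain ⟨v574, h574, h⟩ := h
  change v574 = v573 + v561 at h574
  obtain ⟨v575, h575, h⟩ := h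
  replace h575 : v575 = (25935 : ℝ) / 2 ^ 20 := by rw [h575]; norm_num [step, realAlg]
  obtain ⟨v576, h576, h⟩ := h
  change v576 = v141 * v575 at h576
  obtain ⟨v577, h577, h⟩ := h
  replace h577 : v577 = (50529 : ℝ) / 2 ^ 20 := by rw [h577]; norm_num [step, realAlg]
  obtain ⟨v578, h578, h⟩ := h
  change v578 = v577 - v576 at h578
  obtain ⟨v579, h579, h⟩ := h
  change v579 = v141 * v578 at h579
  obtain ⟨v580, h580, h⟩ := h
  change v580 = v579 - v464 at h580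
  obtain ⟨v581, h581, h⟩ := h
  change v581 = v19 * v571 at h581
  obtain ⟨v582, h582, h⟩ := h
  change v582 = v1 * v581 at h582
  obtain ⟨c_xbu, e_c_xbu_d⟩ : ∃ q : ℂ, q = dB.xbu.ev m := ⟨_, rfl⟩
  have e_c_xbu_re : v565 = c_xbu.re := by
    rw [e_c_xbu_d]
    simp only [dB, Cf.ev, hor, h565, h564, h563, h562, h561, h560, h559, h141, h19, mul_re, mul_im, add_re, add_im, sub_re, sub_im, neg_re, neg_im, I_re, I_im, ofReal_re,
      ofReal_im, one_re, one_im, dt, normSq_apply, re_ofNat, im_ofNat]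
    try ring
  have e_c_xbu_im : v582 = c_xbu.im := by
    rw [e_c_xbu_d]
    simp only [dB, Cf.ev, hor, h582, h581, h571, h570, h569, h568, h567, h566, h464, h141, h19, h1, mul_re, mul_im, add_re, add_im, sub_re, sub_im, neg_re, neg_im, I_re, I_im, ofReal_re,
      ofReal_im, one_re, one_im, dt, normSq_apply, re_ofNat, im_ofNat]
    try ring
  obtain ⟨v583, h583, h⟩ := h
  change v583 = v20 * v574 at h583
  obtain ⟨v584, h584, h⟩ := h
  change v584 = v370 * v583 at h584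
  obtain ⟨v585, h585, h⟩ := h
  change v585 = v373 * v580 at h585
  obtain ⟨d_xbu, e_d_xbu_d⟩ : ∃ q : ℂ, q = dB.xbu.dv m := ⟨_, rfl⟩
  have e_d_xbu_re : v584 = d_xbu.re := by
    rw [e_d_xbu_d]
    simp only [dB, Cf.dv, hor, dhor, h584, h583, h574, h573, h572, h561, h370, h141, h20, h19, h4, mul_re, mul_im, add_re, add_im, sub_re, sub_im, neg_re, neg_im, I_re, I_im, ofReal_re,
      ofReal_im, one_re, one_im, dt, normSq_apply, re_ofNat, im_ofNat]
    try ring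
  have e_d_xbu_im : v585 = d_xbu.im := by
    rw [e_d_xbu_d]
    simp only [dB, Cf.dv, hor, dhor, h585, h580, h579, h578, h577, h576, h575, h464, h373, h141, h19, h4, h1, mul_re, mul_im, add_re, add_im, sub_re, sub_im, neg_re, neg_im, I_re, I_im, ofReal_re,
      ofReal_im, one_re, one_im, dt, normSq_apply, re_ofNat, im_ofNat]
    try ring
  obtain ⟨o_ysr, e_o_ysr_d⟩ : ∃ q : ℝ, q = (dB.pt m).ys.re := ⟨_, rfl⟩
  have a_o_ysr : (dB.pt m).ys.re = ys.re := by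
    rw [e_ys_d]; rfl
  have e_o_ysr_v : v29 = o_ysr := by
    rw [e_o_ysr_d, a_o_ysr]
    simp only [e_ys_re, mul_re, mul_im, add_re, add_im, sub_re, sub_im, neg_re, neg_im, I_re, I_im, ofReal_re,
      ofReal_im, one_re, one_im, dt, normSq_apply, re_ofNat, im_ofNat]
    try ring
  obtain ⟨o_ysi, e_o_ysi_d⟩ : ∃ q : ℝ, q = (dB.pt m).ys.im := ⟨_, rfl⟩
  have a_o_ysi : (dB.pt m).ys.im = ys.im := by
    rw [e_ys_d]; rfl
  have e_o_ysi_v : v31 = o_ysi := by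
    rw [e_o_ysi_d, a_o_ysi]
    simp only [e_ys_im, mul_re, mul_im, add_re, add_im, sub_re, sub_im, neg_re, neg_im, I_re, I_im, ofReal_re,
      ofReal_im, one_re, one_im, dt, normSq_apply, re_ofNat, im_ofNat]
    try ring
  obtain ⟨v586, h586, h⟩ := h
  change v586 = v12 * v74 at h586
  obtain ⟨o_d, e_o_d_d⟩ : ∃ q : ℝ, q = 1 - 2 * (dB.pt m).ys.re := ⟨_, rfl⟩
  have a_o_d : 1 - 2 * (dB.pt m).ys.re = 3 * (1 / oS m) := by
    exact d_l1 m
  have e_o_d_v : v586 = o_d := by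
    rw [e_o_d_d, a_o_d]
    simp only [h586, h74, h12, mul_re, mul_im, add_re, add_im, sub_re, sub_im, neg_re, neg_im, I_re, I_im, ofReal_re,
      ofReal_im, one_re, one_im, dt, normSq_apply, re_ofNat, im_ofNat]
    try ring
  obtain ⟨v587, h587, h⟩ := h
  change v587 = v29 - v72 at h587
  obtain ⟨o_ysw, e_o_ysw_d⟩ : ∃ q : ℝ, q = (dB.pt m).ys.re - (1 - normSq (dB.pt m).ys) / (1 - 2 * (dB.pt m).ys.re) := ⟨_, rfl⟩
  have a_o_ysw : (dB.pt m).ys.re - (1 - normSq (dB.pt m).ys) / (1 - 2 * (dB.pt m).ys.re) = ys.re - wd := by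
    rw [e_ys_d, e_wd_d, ← wd_l1]; rfl
  have e_o_ysw_v : v587 = o_ysw := by
    rw [e_o_ysw_d, a_o_ysw]
    simp only [h587, e_wd_v, e_ys_re, mul_re, mul_im, add_re, add_im, sub_re, sub_im, neg_re, neg_im, I_re, I_im, ofReal_re,
      ofReal_im, one_re, one_im, dt, normSq_apply, re_ofNat, im_ofNat]
    try ring
  obtain ⟨o_w, e_o_w_d⟩ : ∃ q : ℝ, q = 1 - normSq (dB.pt m).ys := ⟨_, rfl⟩
  have a_o_w : 1 - normSq (dB.pt m).ys = w := by
    rw [e_w_d]; exact w_l1 m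
  have e_o_w_v : v75 = o_w := by
    rw [e_o_w_d, a_o_w]
    simp only [e_w_v, mul_re, mul_im, add_re, add_im, sub_re, sub_im, neg_re, neg_im, I_re, I_im, ofReal_re,
      ofReal_im, one_re, one_im, dt, normSq_apply, re_ofNat, im_ofNat]
    try ring
  obtain ⟨v588, h588, h⟩ := h
  replace h588 : v588 = (0 : ℝ) := by rw [h588]; norm_num [step, realAlg]
  obtain ⟨v589, h589, h⟩ := h
  change v589 = v588 - v59 at h589
  obtain ⟨o_nsr, e_o_nsr_d⟩ : ∃ q : ℝ, q = (dB.pt m).ns.re := ⟨_, rfl⟩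
  have a_o_nsr : (dB.pt m).ns.re = ns.re := by
    rw [e_ns_d]; rfl
  have e_o_nsr_v : v589 = o_nsr := by
    rw [e_o_nsr_d, a_o_nsr]
    simp only [h589, h588, e_ns_re, mul_re, mul_im, add_re, add_im, sub_re, sub_im, neg_re, neg_im, I_re, I_im, ofReal_re,
      ofReal_im, one_re, one_im, dt, normSq_apply, re_ofNat, im_ofNat]
    try ring
  obtain ⟨v590, h590, h⟩ := h
  change v590 = v588 - v60 at h590
  obtain ⟨o_nsi, e_o_nsi_d⟩ : ∃ q : ℝ, q = (dB.pt m).ns.im := ⟨_, rfl⟩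
  have a_o_nsi : (dB.pt m).ns.im = ns.im := by
    rw [e_ns_d]; rfl
  have e_o_nsi_v : v590 = o_nsi := by
    rw [e_o_nsi_d, a_o_nsi]
    simp only [h590, h588, e_ns_im, mul_re, mul_im, add_re, add_im, sub_re, sub_im, neg_re, neg_im, I_re, I_im, ofReal_re,
      ofReal_im, one_re, one_im, dt, normSq_apply, re_ofNat, im_ofNat]
    try ring
  obtain ⟨v591, h591, h⟩ := h
  change v591 = v588 - v276 at h591
  obtain ⟨o_D11, e_o_D11_d⟩ : ∃ q : ℝ, q = ((dB.pt m).DV 1).re := ⟨_, rfl⟩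
  have a_o_D11 : ((dB.pt m).DV 1).re = D1.re := by
    rw [e_D1_d]
  have e_o_D11_v : v591 = o_D11 := by
    rw [e_o_D11_d, a_o_D11]
    simp only [h591, h588, e_D1_re, mul_re, mul_im, add_re, add_im, sub_re, sub_im, neg_re, neg_im, I_re, I_im, ofReal_re,
      ofReal_im, one_re, one_im, dt, normSq_apply, re_ofNat, im_ofNat]
    try ring
  obtain ⟨o_D12, e_o_D12_d⟩ : ∃ q : ℝ, q = ((dB.pt m).DV I).re := ⟨_, rfl⟩
  have a_o_D12 : ((dB.pt m).DV I).re = DI.re := by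
    rw [e_DI_d]
  have e_o_D12_v : v286 = o_D12 := by
    rw [e_o_D12_d, a_o_D12]
    simp only [e_DI_re, mul_re, mul_im, add_re, add_im, sub_re, sub_im, neg_re, neg_im, I_re, I_im, ofReal_re,
      ofReal_im, one_re, one_im, dt, normSq_apply, re_ofNat, im_ofNat]
    try ring
  obtain ⟨o_D21, e_o_D21_d⟩ : ∃ q : ℝ, q = ((dB.pt m).DV 1).im := ⟨_, rfl⟩
  have a_o_D21 : ((dB.pt m).DV 1).im = D1.im := by
    rw [e_D1_d]
  have e_o_D21_v : v281 = o_D21 := by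
    rw [e_o_D21_d, a_o_D21]
    simp only [e_D1_im, mul_re, mul_im, add_re, add_im, sub_re, sub_im, neg_re, neg_im, I_re, I_im, ofReal_re,
      ofReal_im, one_re, one_im, dt, normSq_apply, re_ofNat, im_ofNat]
    try ring
  obtain ⟨v592, h592, h⟩ := h
  change v592 = v588 - v287 at h592
  obtain ⟨o_D22, e_o_D22_d⟩ : ∃ q : ℝ, q = ((dB.pt m).DV I).im := ⟨_, rfl⟩
  have a_o_D22 : ((dB.pt m).DV I).im = DI.im := by
    rw [e_DI_d]
  have e_o_D22_v : v592 = o_D22 := by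
    rw [e_o_D22_d, a_o_D22]
    simp only [h592, h588, e_DI_im, mul_re, mul_im, add_re, add_im, sub_re, sub_im, neg_re, neg_im, I_re, I_im, ofReal_re,
      ofReal_im, one_re, one_im, dt, normSq_apply, re_ofNat, im_ofNat]
    try ring
  obtain ⟨o_V0fr, e_o_V0fr_d⟩ : ∃ q : ℝ, q = ((dB.pt m).V0 / ((dB.pt m).fs : ℂ)).re := ⟨_, rfl⟩
  have a_o_V0fr : ((dB.pt m).V0 / ((dB.pt m).fs : ℂ)).re = V0f.re := by
    rw [e_V0f_d]; rfl
  have e_o_V0fr_v : v80 = o_V0fr := by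
    rw [e_o_V0fr_d, a_o_V0fr]
    simp only [e_V0f_re, mul_re, mul_im, add_re, add_im, sub_re, sub_im, neg_re, neg_im, I_re, I_im, ofReal_re,
      ofReal_im, one_re, one_im, dt, normSq_apply, re_ofNat, im_ofNat]
    try ring
  obtain ⟨o_V0fi, e_o_V0fi_d⟩ : ∃ q : ℝ, q = ((dB.pt m).V0 / ((dB.pt m).fs : ℂ)).im := ⟨_, rfl⟩
  have a_o_V0fi : ((dB.pt m).V0 / ((dB.pt m).fs : ℂ)).im = V0f.im := by
    rw [e_V0f_d]; rfl
  have e_o_V0fi_v : v81 = o_V0fi := by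
    rw [e_o_V0fi_d, a_o_V0fi]
    simp only [e_V0f_im, mul_re, mul_im, add_re, add_im, sub_re, sub_im, neg_re, neg_im, I_re, I_im, ofReal_re,
      ofReal_im, one_re, one_im, dt, normSq_apply, re_ofNat, im_ofNat]
    try ring
  obtain ⟨o_V0r, e_o_V0r_d⟩ : ∃ q : ℝ, q = (dB.pt m).V0.re := ⟨_, rfl⟩
  have a_o_V0r : (dB.pt m).V0.re = V0.re := by
    rw [e_V0_d]; rfl
  have e_o_V0r_v : v79 = o_V0r := by
    rw [e_o_V0r_d, a_o_V0r]
    simp only [e_V0_re, mul_re, mul_im, add_re, add_im, sub_re, sub_im, neg_re, neg_im, I_re, I_im, ofReal_re,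
      ofReal_im, one_re, one_im, dt, normSq_apply, re_ofNat, im_ofNat]
    try ring
  obtain ⟨o_V0i, e_o_V0i_d⟩ : ∃ q : ℝ, q = (dB.pt m).V0.im := ⟨_, rfl⟩
  have a_o_V0i : (dB.pt m).V0.im = V0.im := by
    rw [e_V0_d]; rfl
  have e_o_V0i_v : v78 = o_V0i := by
    rw [e_o_V0i_d, a_o_V0i]
    simp only [e_V0_im, mul_re, mul_im, add_re, add_im, sub_re, sub_im, neg_re, neg_im, I_re, I_im, ofReal_re,
      ofReal_im, one_re, one_im, dt, normSq_apply, re_ofNat, im_ofNat]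
    try ring
  obtain ⟨o_fs, e_o_fs_d⟩ : ∃ q : ℝ, q = (dB.pt m).fs := ⟨_, rfl⟩
  have a_o_fs : (dB.pt m).fs = F := by
    rw [e_F_d]; rfl
  have e_o_fs_v : v64 = o_fs := by
    rw [e_o_fs_d, a_o_fs]
    simp only [e_F_v, mul_re, mul_im, add_re, add_im, sub_re, sub_im, neg_re, neg_im, I_re, I_im, ofReal_re,
      ofReal_im, one_re, one_im, dt, normSq_apply, re_ofNat, im_ofNat]
    try ring
  obtain ⟨o_N11, e_o_N11_d⟩ : ∃ q : ℝ, q = ((dB.pt m).fv 1).re := ⟨_, rfl⟩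
  have a_o_N11 : ((dB.pt m).fv 1).re = fv1.re := by
    rw [e_fv1_d]
  have e_o_N11_v : v244 = o_N11 := by
    rw [e_o_N11_d, a_o_N11]
    simp only [e_fv1_re, mul_re, mul_im, add_re, add_im, sub_re, sub_im, neg_re, neg_im, I_re, I_im, ofReal_re,
      ofReal_im, one_re, one_im, dt, normSq_apply, re_ofNat, im_ofNat]
    try ring
  obtain ⟨v593, h593, h⟩ := h
  change v593 = v588 - v246 at h593
  obtain ⟨o_N12, e_o_N12_d⟩ : ∃ q : ℝ, q = ((dB.pt m).fv 1).im := ⟨_, rfl⟩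
  have a_o_N12 : ((dB.pt m).fv 1).im = fv1.im := by
    rw [e_fv1_d]
  have e_o_N12_v : v593 = o_N12 := by
    rw [e_o_N12_d, a_o_N12]
    simp only [h593, h588, e_fv1_im, mul_re, mul_im, add_re, add_im, sub_re, sub_im, neg_re, neg_im, I_re, I_im, ofReal_re,
      ofReal_im, one_re, one_im, dt, normSq_apply, re_ofNat, im_ofNat]
    try ring
  obtain ⟨o_N22, e_o_N22_d⟩ : ∃ q : ℝ, q = ((dB.pt m).fv I).im := ⟨_, rfl⟩
  have a_o_N22 : ((dB.pt m).fv I).im = fvI.im := by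
    rw [e_fvI_d]
  have e_o_N22_v : v249 = o_N22 := by
    rw [e_o_N22_d, a_o_N22]
    simp only [e_fvI_im, mul_re, mul_im, add_re, add_im, sub_re, sub_im, neg_re, neg_im, I_re, I_im, ofReal_re,
      ofReal_im, one_re, one_im, dt, normSq_apply, re_ofNat, im_ofNat]
    try ring
  obtain ⟨o_M11, e_o_M11_d⟩ : ∃ q : ℝ, q = ((dB.pt m).M 1).re := ⟨_, rfl⟩
  have a_o_M11 : ((dB.pt m).M 1).re = Mq1.re := by
    rw [e_Mq1_d]
  have e_o_M11_v : v290 = o_M11 := by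
    rw [e_o_M11_d, a_o_M11]
    simp only [e_Mq1_re, mul_re, mul_im, add_re, add_im, sub_re, sub_im, neg_re, neg_im, I_re, I_im, ofReal_re,
      ofReal_im, one_re, one_im, dt, normSq_apply, re_ofNat, im_ofNat]
    try ring
  obtain ⟨o_M12, e_o_M12_d⟩ : ∃ q : ℝ, q = ((dB.pt m).M I).re := ⟨_, rfl⟩
  have a_o_M12 : ((dB.pt m).M I).re = MqI.re := by
    rw [e_MqI_d]
  have e_o_M12_v : v295 = o_M12 := by
    rw [e_o_M12_d, a_o_M12]
    simp only [e_MqI_re, mul_re, mul_im, add_re, add_im, sub_re, sub_im, neg_re, neg_im, I_re, I_im, ofReal_re,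
      ofReal_im, one_re, one_im, dt, normSq_apply, re_ofNat, im_ofNat]
    try ring
  obtain ⟨o_M21, e_o_M21_d⟩ : ∃ q : ℝ, q = ((dB.pt m).M 1).im := ⟨_, rfl⟩
  have a_o_M21 : ((dB.pt m).M 1).im = Mq1.im := by
    rw [e_Mq1_d]
  have e_o_M21_v : v293 = o_M21 := by
    rw [e_o_M21_d, a_o_M21]
    simp only [e_Mq1_im, mul_re, mul_im, add_re, add_im, sub_re, sub_im, neg_re, neg_im, I_re, I_im, ofReal_re,
      ofReal_im, one_re, one_im, dt, normSq_apply, re_ofNat, im_ofNat]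
    try ring
  obtain ⟨o_M22, e_o_M22_d⟩ : ∃ q : ℝ, q = ((dB.pt m).M I).im := ⟨_, rfl⟩
  have a_o_M22 : ((dB.pt m).M I).im = MqI.im := by
    rw [e_MqI_d]
  have e_o_M22_v : v298 = o_M22 := by
    rw [e_o_M22_d, a_o_M22]
    simp only [e_MqI_im, mul_re, mul_im, add_re, add_im, sub_re, sub_im, neg_re, neg_im, I_re, I_im, ofReal_re,
      ofReal_im, one_re, one_im, dt, normSq_apply, re_ofNat, im_ofNat]
    try ring
  obtain ⟨o_L11, e_o_L11_d⟩ : ∃ q : ℝ, q = ((dB.pt m).L 1).re := ⟨_, rfl⟩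
  have a_o_L11 : ((dB.pt m).L 1).re = Lq1.re := by
    rw [e_Lq1_d]
  have e_o_L11_v : v319 = o_L11 := by
    rw [e_o_L11_d, a_o_L11]
    simp only [e_Lq1_re, mul_re, mul_im, add_re, add_im, sub_re, sub_im, neg_re, neg_im, I_re, I_im, ofReal_re,
      ofReal_im, one_re, one_im, dt, normSq_apply, re_ofNat, im_ofNat]
    try ring
  obtain ⟨o_L12, e_o_L12_d⟩ : ∃ q : ℝ, q = ((dB.pt m).L I).re := ⟨_, rfl⟩
  have a_o_L12 : ((dB.pt m).L I).re = LqI.re := by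
    rw [e_LqI_d]
  have e_o_L12_v : v336 = o_L12 := by
    rw [e_o_L12_d, a_o_L12]
    simp only [e_LqI_re, mul_re, mul_im, add_re, add_im, sub_re, sub_im, neg_re, neg_im, I_re, I_im, ofReal_re,
      ofReal_im, one_re, one_im, dt, normSq_apply, re_ofNat, im_ofNat]
    try ring
  obtain ⟨o_L21, e_o_L21_d⟩ : ∃ q : ℝ, q = ((dB.pt m).L 1).im := ⟨_, rfl⟩
  have a_o_L21 : ((dB.pt m).L 1).im = Lq1.im := by
    rw [e_Lq1_d]
  have e_o_L21_v : v320 = o_L21 := by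
    rw [e_o_L21_d, a_o_L21]
    simp only [e_Lq1_im, mul_re, mul_im, add_re, add_im, sub_re, sub_im, neg_re, neg_im, I_re, I_im, ofReal_re,
      ofReal_im, one_re, one_im, dt, normSq_apply, re_ofNat, im_ofNat]
    try ring
  obtain ⟨o_L22, e_o_L22_d⟩ : ∃ q : ℝ, q = ((dB.pt m).L I).im := ⟨_, rfl⟩
  have a_o_L22 : ((dB.pt m).L I).im = LqI.im := by
    rw [e_LqI_d]
  have e_o_L22_v : v337 = o_L22 := by
    rw [e_o_L22_d, a_o_L22]
    simp only [e_LqI_im, mul_re, mul_im, add_re, add_im, sub_re, sub_im, neg_re, neg_im, I_re, I_im, ofReal_re,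
      ofReal_im, one_re, one_im, dt, normSq_apply, re_ofNat, im_ofNat]
    try ring
  obtain ⟨o_zvr, e_o_zvr_d⟩ : ∃ q : ℝ, q = (I * (dB.pt m).vs - (dB.pt m).bs).re := ⟨_, rfl⟩
  have a_o_zvr : (I * (dB.pt m).vs - (dB.pt m).bs).re = zv.re := by
    rw [e_zv_d]; rfl
  have e_o_zvr_v : v252 = o_zvr := by
    rw [e_o_zvr_d, a_o_zvr]
    simp only [e_zv_re, mul_re, mul_im, add_re, add_im, sub_re, sub_im, neg_re, neg_im, I_re, I_im, ofReal_re,
      ofReal_im, one_re, one_im, dt, normSq_apply, re_ofNat, im_ofNat]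
    try ring
  obtain ⟨o_zvi, e_o_zvi_d⟩ : ∃ q : ℝ, q = (I * (dB.pt m).vs - (dB.pt m).bs).im := ⟨_, rfl⟩
  have a_o_zvi : (I * (dB.pt m).vs - (dB.pt m).bs).im = zv.im := by
    rw [e_zv_d]; rfl
  have e_o_zvi_v : v253 = o_zvi := by
    rw [e_o_zvi_d, a_o_zvi]
    simp only [e_zv_im, mul_re, mul_im, add_re, add_im, sub_re, sub_im, neg_re, neg_im, I_re, I_im, ofReal_re,
      ofReal_im, one_re, one_im, dt, normSq_apply, re_ofNat, im_ofNat]
    try ring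
  obtain ⟨o_ar, e_o_ar_d⟩ : ∃ q : ℝ, q = (dB.pt m).a.re := ⟨_, rfl⟩
  have a_o_ar : (dB.pt m).a.re = a.re := by
    rw [e_a_d]; rfl
  have e_o_ar_v : v198 = o_ar := by
    rw [e_o_ar_d, a_o_ar]
    simp only [e_a_re, mul_re, mul_im, add_re, add_im, sub_re, sub_im, neg_re, neg_im, I_re, I_im, ofReal_re,
      ofReal_im, one_re, one_im, dt, normSq_apply, re_ofNat, im_ofNat]
    try ring
  obtain ⟨o_ai, e_o_ai_d⟩ : ∃ q : ℝ, q = (dB.pt m).a.im := ⟨_, rfl⟩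
  have a_o_ai : (dB.pt m).a.im = a.im := by
    rw [e_a_d]; rfl
  have e_o_ai_v : v199 = o_ai := by
    rw [e_o_ai_d, a_o_ai]
    simp only [e_a_im, mul_re, mul_im, add_re, add_im, sub_re, sub_im, neg_re, neg_im, I_re, I_im, ofReal_re,
      ofReal_im, one_re, one_im, dt, normSq_apply, re_ofNat, im_ofNat]
    try ring
  obtain ⟨o_sar, e_o_sar_d⟩ : ∃ q : ℝ, q = (dB.pt m).sa.re := ⟨_, rfl⟩
  have a_o_sar : (dB.pt m).sa.re = sa.re := by
    rw [e_sa_d]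
  have e_o_sar_v : v240 = o_sar := by
    rw [e_o_sar_d, a_o_sar]
    simp only [e_sa_re, mul_re, mul_im, add_re, add_im, sub_re, sub_im, neg_re, neg_im, I_re, I_im, ofReal_re,
      ofReal_im, one_re, one_im, dt, normSq_apply, re_ofNat, im_ofNat]
    try ring
  obtain ⟨v594, h594, h⟩ := h
  change v594 = v588 - v241 at h594
  obtain ⟨o_sai, e_o_sai_d⟩ : ∃ q : ℝ, q = (dB.pt m).sa.im := ⟨_, rfl⟩
  have a_o_sai : (dB.pt m).sa.im = sa.im := by
    rw [e_sa_d]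
  have e_o_sai_v : v594 = o_sai := by
    rw [e_o_sai_d, a_o_sai]
    simp only [h594, h588, e_sa_im, mul_re, mul_im, add_re, add_im, sub_re, sub_im, neg_re, neg_im, I_re, I_im, ofReal_re,
      ofReal_im, one_re, one_im, dt, normSq_apply, re_ofNat, im_ofNat]
    try ring
  obtain ⟨v595, h595, h⟩ := h
  change v595 = v369 + v389 at h595
  obtain ⟨v596, h596, h⟩ := h
  change v596 = v389 - v369 at h596
  obtain ⟨v597, h597, h⟩ := h
  change v597 = v20 * v349 at h597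
  obtain ⟨v598, h598, h⟩ := h
  change v598 = v415 + v443 at h598
  obtain ⟨v599, h599, h⟩ := h
  change v599 = v74 * v415 at h599
  exact pQB_c15 m h8 h13 h16 h20 e_K_d e_S_d e_ys_d h34 e_cAv_d e_sAv_d e_oav_d e_obv_d e_vs_d e_vs_re e_vs_im e_ns_d e_k0_d e_F_d e_pr_d e_bs_d e_wd_d h74 e_w_d e_hh2_d e_c2_d e_V0_d e_V0f_d e_mm_d e_tkv_d e_pkv_d e_kc_d e_kq_d e_qv_d e_t2_d e_cax_d e_cbu_d e_ae_d e_be_d e_be_re e_be_im e_a_d e_aeV_d e_DT_d e_gq_d e_sa_d e_fv1_d e_fvI_d e_fvs_d e_zv_d e_bz_d e_kap_d e_g4_d e_gw_d e_D1_d e_DI_d e_Mq1_d e_Mq1_re e_Mq1_im e_MqI_d e_MqI_re e_MqI_im e_hc_d e_Lq1_d e_LqI_d e_io_d e_io_v e_c_xx_d e_c_xx_re e_c_xx_im e_d_xx_d e_d_xx_re e_d_xx_im e_c_xb_d e_c_xb_im e_d_xb_d e_d_xb_im e_c_x3_d e_c_x3_re e_c_x3_im e_d_x3_d e_d_x3_re e_d_x3_im e_c_x2b_d e_c_x2b_re e_c_x2b_im e_d_x2b_d e_d_x2b_re e_d_x2b_im e_c_xu_d e_c_xu_re e_c_xu_im e_d_xu_d e_d_xu_re e_d_xu_im e_c_xc_d e_c_xc_re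 e_c_xc_im e_d_xc_d e_d_xc_re e_d_xc_im e_c_x2u_d e_c_x2u_re e_c_x2u_im e_d_x2u_d e_d_x2u_re e_d_x2u_im e_c_x2c_d e_c_x2c_re e_c_x2c_im e_d_x2c_d e_d_x2c_re e_d_x2c_im e_c_xbu_d e_c_xbu_re e_c_xbu_im e_d_xbu_d e_d_xbu_re e_d_xbu_im e_o_ysr_d e_o_ysr_v e_o_ysi_d e_o_ysi_v e_o_d_d a_o_d e_o_d_v e_o_ysw_d e_o_ysw_v e_o_w_d e_o_w_v h588 e_o_nsr_d e_o_nsr_v e_o_nsi_d e_o_nsi_v e_o_D11_d e_o_D11_v e_o_D12_d e_o_D12_v e_o_D21_d e_o_D21_v e_o_D22_d e_o_D22_v e_o_V0fr_d e_o_V0fr_v e_o_V0fi_d e_o_V0fi_v e_o_V0r_d e_o_V0r_v e_o_V0i_d e_o_V0i_v e_o_fs_d e_o_fs_v e_o_N11_d e_o_N11_v e_o_N12_d e_o_N12_v e_o_N22_d e_o_N22_v e_o_M11_d e_o_M11_v e_o_M12_d e_o_M12_v e_o_M21_d e_o_M21_v e_o_M22_d e_o_M22_v e_o_L11_d e_o_L11_v e_o_L12_d e_o_L12_v e_o_L21_d e_o_L21_v e_o_L22_d e_o_L22_v e_o_zvr_d e_o_zvr_v e_o_zvi_d e_o_zvi_v e_o_ar_d e_o_ar_v e_o_ai_d e_o_ai_v e_o_sar_d e_o_sar_v e_o_sai_d e_o_sai_v h595 h596 h597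 h598 h599 h

theorem pQB_c13 (m : ℝ) {v0 v1 v2 v3 v4 v5 v6 v7 v8 v9 v10 v11 v12 v13 v14 v15 v16 v17 v18 v19 v20 v21 v22 v23 K v24 v25 v26 v27 S v28 v29 v30 v31 : ℝ} {ys : ℂ} {v32 v33 v34 v35 cAv v36 v37 v38 sAv v39 v40 v41 v42 v43 v44 : ℝ} {oav : ℂ} {v45 v46 v47 v48 v49 v50 : ℝ} {obv : ℂ} {v51 v52 v53 v54 v55 v56 v57 v58 : ℝ} {vs : ℂ} {v59 v60 : ℝ} {ns : ℂ} {v61 v62 v63 k0 v64 F v65 v66 v67 v68 : ℝ} {pr : ℂ} {v69 v70 v71 : ℝ} {bs : ℂ} {v72 wd v73 v74 v75 w v76 hh2 v77 : ℝ} {c2 : ℂ} {v78 v79 : ℝ} {V0 : ℂ} {v80 v81 : ℝ} {V0f : ℂ} {v82 mm v83 v84 v85 v86 v87 v88 v89 v90 v91 v92 v93 v94 v95 v96 v97 v98 v99 v100 v101 v102 v103 v104 v105 v106 v107 v108 v109 v110 v111 v112 v113 v114 : ℝ} {tkv : ℂ} {v115 v116 v117 v118 v119 v120 v121 v122 v123 v124 v125 v126 v127 : ℝ} {pkv : ℂ} {v128 v129 v130 kc v131 v132 v133 v134 kq v135 v136 v137 v138 v139 v140 : ℝ} {qv : ℂ} {v141 t2 v142 v143 v144 v145 v146 v147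 v148 v149 v150 v151 v152 v153 v154 v155 v156 v157 v158 v159 v160 v161 v162 v163 v164 v165 v166 v167 v168 v169 : ℝ} {cax : ℂ} {v170 v171 v172 v173 v174 v175 v176 v177 v178 v179 v180 v181 v182 v183 v184 v185 v186 v187 v188 v189 v190 v191 v192 v193 v194 v195 v196 v197 : ℝ} {cbu ae be : ℂ} {v198 v199 : ℝ} {a : ℂ} {v200 v201 v202 v203 aeV v204 v205 v206 v207 v208 v209 v210 v211 v212 v213 v214 v215 v216 v217 v218 v219 : ℝ} {DT : ℂ} {v220 v221 v222 v223 v224 v225 v226 v227 v228 v229 v230 v231 gq v232 v233 v234 v235 v236 v237 v238 v239 v240 v241 : ℝ} {sa : ℂ} {v242 v243 v244 v245 v246 : ℝ} {fv1 : ℂ} {v247 v248 v249 : ℝ} {fvI : ℂ} {v250 v251 : ℝ} {fvs : ℂ} {v252 v253 : ℝ} {zv : ℂ} {v254 v255 v256 bz v257 v258 v259 v260 v261 v262 v263 v264 v265 v266 v267 v268 v269 v270 v271 v272 : ℝ} {kap : ℂ} {v273 g4 v274 gw v275 v276 v277 v278 v279 v280 v281 : ℝ} {D1 : ℂ} {v282 v283 v284 v285 v286 v287 : ℝ} {DI : ℂ}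 {v288 v289 v290 v291 v292 v293 : ℝ} {Mq1 : ℂ} {v294 v295 v296 v297 v298 : ℝ} {MqI : ℂ} {v299 hc v300 v301 v302 v303 v304 v305 v306 v307 v308 v309 v310 v311 v312 v313 v314 v315 v316 v317 v318 v319 v320 : ℝ} {Lq1 : ℂ} {v321 v322 v323 v324 v325 v326 v327 v328 v329 v330 v331 v332 v333 v334 v335 v336 v337 : ℝ} {LqI : ℂ} {v338 v339 io v340 v341 v342 v343 v344 v345 v346 v347 v348 v349 v350 v351 v352 v353 v354 v355 v356 v357 v358 v359 v360 v361 v362 v363 v364 v365 v366 v367 v368 v369 : ℝ} {c_xx : ℂ} {v370 v371 v372 v373 v374 : ℝ} {d_xx : ℂ} {v375 v376 v377 v378 v379 v380 v381 v382 v383 v384 v385 v386 v387 v388 v389 : ℝ} {c_xb : ℂ} {v390 : ℝ} {d_xb : ℂ} {v391 v392 v393 v394 v395 v396 v397 v398 v399 v400 v401 v402 v403 v404 v405 v406 v407 v408 v409 v410 v411 v412 v413 v414 v415 : ℝ} {c_x3 : ℂ} {v416 v417 v418 : ℝ} {d_x3 : ℂ} {v419 v420 v421 v422 v423 v424 v425 v426 v427 v428 v429 v430 v431 v432 v433 v434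 v435 v436 v437 v438 v439 v440 v441 v442 v443 : ℝ} {c_x2b : ℂ} {v444 v445 v446 : ℝ} {d_x2b : ℂ} {v447 v448 v449 v450 v451 v452 v453 v454 v455 v456 v457 v458 v459 v460 v461 v462 v463 v464 v465 v466 v467 v468 v469 v470 v471 : ℝ} {c_xu : ℂ} {v472 v473 v474 : ℝ} {d_xu : ℂ} {v475 v476 v477 v478 v479 v480 v481 v482 v483 v484 v485 v486 v487 v488 v489 v490 v491 v492 v493 v494 v495 v496 v497 v498 v499 : ℝ} {c_xc : ℂ} {v500 v501 v502 : ℝ} {d_xc : ℂ} {v503 v504 v505 v506 v507 v508 v509 v510 v511 v512 v513 v514 v515 v516 v517 v518 v519 : ℝ}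
    (h1 : v1 = s3)
    (h4 : v4 = 1 / m1)
    (h8 : v8 = oc)
    (h12 : v12 = 1 / oS m)
    (h13 : v13 = oR m)
    (h16 : v16 = 1 / 6)
    (h19 : v19 = m / m1)
    (h20 : v20 = (2 : ℝ))
    (e_K_d : K = oK)
    (e_S_d : S = oS m)
    (e_ys_d : ys = oy m)
    (e_ys_re : v29 = ys.re)
    (e_ys_im : v31 = ys.im)
    (h34 : v34 = (1 : ℝ) / 2 ^ 1)
    (e_cAv_d : cAv = cA)
    (e_sAv_d : sAv = sA)
    (e_oav_d : oav = oa m)
    (e_obv_d : obv = ob m)
    (e_vs_d : vs = ov m)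
    (e_vs_re : v57 = -vs.re)
    (e_vs_im : v58 = -vs.im)
    (e_ns_d : ns = oN m)
    (e_ns_re : v59 = -ns.re)
    (e_ns_im : v60 = -ns.im)
    (e_k0_d : k0 = dt (oy m) (oN m))
    (e_F_d : F = oF m)
    (e_F_v : v64 = F)
    (e_pr_d : pr = oy m - oN m * (k0 : ℂ))
    (e_bs_d : bs = oB m)
    (e_wd_d : wd = oK * (1 / oS m))
    (e_wd_v : v72 = wd)
    (h74 : v74 = (3 : ℝ))
    (e_w_d : w = 3 * oK * (1 / oS m) ^ 2)
    (e_w_v : v75 = w)
    (e_hh2_d : hh2 = 2 * (oK * (1 / oS m)))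
    (e_c2_d : c2 = (hh2 : ℂ) - oy m)
    (e_V0_d : V0 = oV m)
    (e_V0_re : v79 = V0.re)
    (e_V0_im : v78 = V0.im)
    (e_V0f_d : V0f = oV m / (oF m : ℂ))
    (e_V0f_re : v80 = V0f.re)
    (e_V0f_im : v81 = V0f.im)
    (e_mm_d : mm = m)
    (e_tkv_d : tkv = tk m)
    (e_pkv_d : pkv = pk m)
    (e_kc_d : kc = oc * (3 * (4 - Real.sqrt 2) / 4))
    (e_kq_d : kq = oS m * s3 * (1 / 27) * (1 / oK) ^ 2)
    (e_qv_d : qv = qy m)
    (h141 : v141 = v19 * v19)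
    (e_t2_d : t2 = (m / m1) ^ 2)
    (e_cax_d : cax = (dB.ax).ev m)
    (e_cbu_d : cbu = (dB.bu).ev m)
    (e_ae_d : ae = dB.ae m)
    (e_be_d : be = dB.be m)
    (e_be_re : v197 = be.re)
    (e_be_im : v182 = be.im)
    (e_a_d : a = qy m + dB.ae m)
    (e_a_re : v198 = a.re)
    (e_a_im : v199 = a.im)
    (e_aeV_d : aeV = dt (dB.ae m) (oV m) / oF m)
    (e_DT_d : DT = DVT (oy m) (qy m + dB.ae m))
    (e_gq_d : gq = aeV - 2 * oc * oR m ^ 2 + dt be (bs - (oR m : ℂ) * (I * ns)))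
    (e_sa_d : sa = (dB.pt m).sa)
    (e_sa_re : v240 = sa.re)
    (e_sa_im : v241 = -sa.im)
    (e_fv1_d : fv1 = (dB.pt m).fv 1)
    (e_fv1_re : v244 = fv1.re)
    (e_fv1_im : v246 = -fv1.im)
    (e_fvI_d : fvI = (dB.pt m).fv I)
    (e_fvI_im : v249 = fvI.im)
    (e_fvs_d : fvs = (oy m - ((dt (oy m) (oN m) : ℝ) : ℂ) * oN m) / (oR m : ℂ))
    (e_zv_d : zv = I * ov m - oB m)
    (e_zv_re : v252 = zv.re)
    (e_zv_im : v253 = zv.im)
    (e_bz_d : bz = dt (dB.be m) (I * ov m - oB m))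
    (e_kap_d : kap = (dB.pt m).kap)
    (e_g4_d : g4 = -4 * (oK * (1 / oS m)))
    (e_gw_d : gw = 4 * (oK * (1 / oS m)) ^ 2)
    (e_D1_d : D1 = (dB.pt m).DV 1)
    (e_D1_re : v276 = -D1.re)
    (e_D1_im : v281 = D1.im)
    (e_DI_d : DI = (dB.pt m).DV I)
    (e_DI_re : v286 = DI.re)
    (e_DI_im : v287 = -DI.im)
    (e_Mq1_d : Mq1 = (dB.pt m).M 1)
    (e_Mq1_re : v290 = Mq1.re)
    (e_Mq1_im : v293 = Mq1.im)
    (e_MqI_d : MqI = (dB.pt m).M I)
    (e_MqI_re : v295 = MqI.re)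
    (e_MqI_im : v298 = MqI.im)
    (e_hc_d : hc = 1 / 2 - oc)
    (e_Lq1_d : Lq1 = (dB.pt m).L 1)
    (e_Lq1_re : v319 = Lq1.re)
    (e_Lq1_im : v320 = Lq1.im)
    (e_LqI_d : LqI = (dB.pt m).L I)
    (e_LqI_re : v336 = LqI.re)
    (e_LqI_im : v337 = LqI.im)
    (e_io_d : io = 1 / osd m)
    (e_io_v : v339 = io)
    (e_c_xx_d : c_xx = dB.xx.ev m)
    (e_c_xx_re : v349 = c_xx.re)
    (e_c_xx_im : v369 = c_xx.im)
    (h370 : v370 = v4 * v19)
    (h373 : v373 = v1 * v4)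
    (e_d_xx_d : d_xx = dB.xx.dv m)
    (e_d_xx_re : v372 = d_xx.re)
    (e_d_xx_im : v374 = d_xx.im)
    (e_c_xb_d : c_xb = dB.xb.ev m)
    (e_c_xb_im : v389 = c_xb.im)
    (e_d_xb_d : d_xb = dB.xb.dv m)
    (e_d_xb_im : v390 = d_xb.im)
    (e_c_x3_d : c_x3 = dB.x3.ev m)
    (e_c_x3_re : v397 = c_x3.re)
    (e_c_x3_im : v415 = c_x3.im)
    (e_d_x3_d : d_x3 = dB.x3.dv m)
    (e_d_x3_re : v417 = d_x3.re)
    (e_d_x3_im : v418 = d_x3.im)
    (e_c_x2b_d : c_x2b = dB.x2b.ev m)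
    (e_c_x2b_re : v425 = c_x2b.re)
    (e_c_x2b_im : v443 = c_x2b.im)
    (e_d_x2b_d : d_x2b = dB.x2b.dv m)
    (e_d_x2b_re : v445 = d_x2b.re)
    (e_d_x2b_im : v446 = d_x2b.im)
    (h464 : v464 = (2065 : ℝ) / 2 ^ 20)
    (e_c_xu_d : c_xu = dB.xu.ev m)
    (e_c_xu_re : v453 = c_xu.re)
    (e_c_xu_im : v471 = c_xu.im)
    (e_d_xu_d : d_xu = dB.xu.dv m)
    (e_d_xu_re : v473 = d_xu.re)
    (e_d_xu_im : v474 = d_xu.im)
    (e_c_xc_d : c_xc = dB.xc.ev m)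
    (e_c_xc_re : v481 = c_xc.re)
    (e_c_xc_im : v499 = c_xc.im)
    (e_d_xc_d : d_xc = dB.xc.dv m)
    (e_d_xc_re : v501 = d_xc.re)
    (e_d_xc_im : v502 = d_xc.im)
    (h503 : v503 = (1787 : ℝ) / 2 ^ 19)
    (h504 : v504 = v141 * v503)
    (h505 : v505 = (61337 : ℝ) / 2 ^ 20)
    (h506 : v506 = v504 - v505)
    (h507 : v507 = v141 * v506)
    (h508 : v508 = (58727 : ℝ) / 2 ^ 20)
    (h509 : v509 = v507 + v508)
    (h510 : v510 = (2509 : ℝ) / 2 ^ 20)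
    (h511 : v511 = v141 * v510)
    (h512 : v512 = (893 : ℝ) / 2 ^ 18)
    (h513 : v513 = v511 + v512)
    (h514 : v514 = v141 * v513)
    (h515 : v515 = (6081 : ℝ) / 2 ^ 20)
    (h516 : v516 = v514 - v515)
    (h517 : v517 = (1787 : ℝ) / 2 ^ 18)
    (h518 : v518 = v141 * v517)
    (h519 : v519 = v518 - v505)
    (h : TrE (realAlg (fun i => get 0 (l1 μB m) i) (m / m1) 0) (pQB.drop 520) [v519, v518, v517, v516, v515, v514, v513, v512, v511, v510, v509, v508, v507, v506, v505, v504, v503, v502, v501, v500, v499, v498, v497, v496, v495, v494, v493, v492, v491, v490, v489, v488, v487, v486, v485, v484, v483, v482, v481, v480, v479, v478, v477, v476, v475, v474, v473, v472, v471, v470, v469, v468, v467, v466, v465, v464, v463, v462, v461, v460, v459, v458, v457, v456, v455, v454, v453, v452, v451, v450, v449, v448, v447, v446, v445, v444, v443, v442, v441, v440, v439, v438, v437, v436, v435, v434,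 v433, v432, v431, v430, v429, v428, v427, v426, v425, v424, v423, v422, v421, v420, v419, v418, v417, v416, v415, v414, v413, v412, v411, v410, v409, v408, v407, v406, v405, v404, v403, v402, v401, v400, v399, v398, v397, v396, v395, v394, v393, v392, v391, v390, v389, v388, v387, v386, v385, v384, v383, v382, v381, v380, v379, v378, v377, v376, v375, v374, v373, v372, v371, v370, v369, v368, v367, v366, v365, v364, v363, v362, v361, v360, v359, v358, v357, v356, v355, v354, v353, v352, v351, v350, v349, v348, v347, v346, v345, v344, v343, v342, v341, v340, v339, v338, v337, v336, v335, v334, v333, v332, v331, v330, v329, v328, v327, v326, v325, v324, v323, v322, v321, v320, v319, v318, v317, v316, v315, v314, v313, v312, v311, v310, v309, v308, v307, v306, v305, v304, v303, v302, v301, v300, v299, v298, v297, v296, v295, v294, v293, v292, v291, v290, v289, v288, v287, v286, v285, v284, v283,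 v282, v281, v280, v279, v278, v277, v276, v275, v274, v273, v272, v271, v270, v269, v268, v267, v266, v265, v264, v263, v262, v261, v260, v259, v258, v257, v256, v255, v254, v253, v252, v251, v250, v249, v248, v247, v246, v245, v244, v243, v242, v241, v240, v239, v238, v237, v236, v235, v234, v233, v232, v231, v230, v229, v228, v227, v226, v225, v224, v223, v222, v221, v220, v219, v218, v217, v216, v215, v214, v213, v212, v211, v210, v209, v208, v207, v206, v205, v204, v203, v202, v201, v200, v199, v198, v197, v196, v195, v194, v193, v192, v191, v190, v189, v188, v187, v186, v185, v184, v183, v182, v181, v180, v179, v178, v177, v176, v175, v174, v173, v172, v171, v170, v169, v168, v167, v166, v165, v164, v163, v162, v161, v160, v159, v158, v157, v156, v155, v154, v153, v152, v151, v150, v149, v148, v147, v146, v145, v144, v143, v142, v141, v140, v139, v138, v137, v136, v135, v134, v133, v132,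 v131, v130, v129, v128, v127, v126, v125, v124, v123, v122, v121, v120, v119, v118, v117, v116, v115, v114, v113, v112, v111, v110, v109, v108, v107, v106, v105, v104, v103, v102, v101, v100, v99, v98, v97, v96, v95, v94, v93, v92, v91, v90, v89, v88, v87, v86, v85, v84, v83, v82, v81, v80, v79, v78, v77, v76, v75, v74, v73, v72, v71, v70, v69, v68, v67, v66, v65, v64, v63, v62, v61, v60, v59, v58, v57, v56, v55, v54, v53, v52, v51, v50, v49, v48, v47, v46, v45, v44, v43, v42, v41, v40, v39, v38, v37, v36, v35, v34, v33, v32, v31, v30, v29, v28, v27, v26, v25, v24, v23, v22, v21, v20, v19, v18, v17, v16, v15, v14, v13, v12, v11, v10, v9, v8, v7, v6, v5, v4, v3, v2, v1, v0] (fun st => run (realAlg (fun i => get 0 (l1 μB m) i) (m / m1) 0) pQB [] = st)) :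
    pQB_goal m := by
  have hm1 : m1 ≠ 0 := m1_ne
  obtain ⟨v520, h520, h⟩ := h
  replace h520 : v520 = (12545 : ℝ) / 2 ^ 20 := by rw [h520]; norm_num [step, realAlg]
  obtain ⟨v521, h521, h⟩ := h
  change v521 = v141 * v520 at h521
  obtain ⟨v522, h522, h⟩ := h
  replace h522 : v522 = (2679 : ℝ) / 2 ^ 18 := by rw [h522]; norm_num [step, realAlg]
  obtain ⟨v523, h523, h⟩ := h
  change v523 = v521 + v522 at h523
  obtain ⟨v524, h524, h⟩ := h
  change v524 = v141 * v523 at h524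
  obtain ⟨v525, h525, h⟩ := h
  change v525 = v524 - v515 at h525
  obtain ⟨v526, h526, h⟩ := h
  change v526 = v19 * v516 at h526
  obtain ⟨v527, h527, h⟩ := h
  change v527 = v1 * v526 at h527
  obtain ⟨c_x2u, e_c_x2u_d⟩ : ∃ q : ℂ, q = dB.x2u.ev m := ⟨_, rfl⟩
  have e_c_x2u_re : v509 = c_x2u.re := by
    rw [e_c_x2u_d]
    simp only [dB, Cf.ev, hor, h509, h508, h507, h506, h505, h504, h503, h141, h19, mul_re, mul_im, add_re, add_im, sub_re, sub_im, neg_re, neg_im, I_re, I_im, ofReal_re,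
      ofReal_im, one_re, one_im, dt, normSq_apply, re_ofNat, im_ofNat]
    try ring
  have e_c_x2u_im : v527 = c_x2u.im := by
    rw [e_c_x2u_d]
    simp only [dB, Cf.ev, hor, h527, h526, h516, h515, h514, h513, h512, h511, h510, h141, h19, h1, mul_re, mul_im, add_re, add_im, sub_re, sub_im, neg_re, neg_im, I_re, I_im, ofReal_re,
      ofReal_im, one_re, one_im, dt, normSq_apply, re_ofNat, im_ofNat]
    try ring
  obtain ⟨v528, h528, h⟩ := h
  change v528 = v20 * v519 at h528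
  obtain ⟨v529, h529, h⟩ := h
  change v529 = v370 * v528 at h529
  obtain ⟨v530, h530, h⟩ := h
  change v530 = v373 * v525 at h530
  obtain ⟨d_x2u, e_d_x2u_d⟩ : ∃ q : ℂ, q = dB.x2u.dv m := ⟨_, rfl⟩
  have e_d_x2u_re : v529 = d_x2u.re := by
    rw [e_d_x2u_d]
    simp only [dB, Cf.dv, hor, dhor, h529, h528, h519, h518, h517, h505, h370, h141, h20, h19, h4, mul_re, mul_im, add_re, add_im, sub_re, sub_im, neg_re, neg_im, I_re, I_im, ofReal_re,
      ofReal_im, one_re, one_im, dt, normSq_apply, re_ofNat, im_ofNat]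
    try ring
  have e_d_x2u_im : v530 = d_x2u.im := by
    rw [e_d_x2u_d]
    simp only [dB, Cf.dv, hor, dhor, h530, h525, h524, h523, h522, h521, h520, h515, h373, h141, h19, h4, h1, mul_re, mul_im, add_re, add_im, sub_re, sub_im, neg_re, neg_im, I_re, I_im, ofReal_re,
      ofReal_im, one_re, one_im, dt, normSq_apply, re_ofNat, im_ofNat]
    try ring
  obtain ⟨v531, h531, h⟩ := h
  replace h531 : v531 = (725 : ℝ) / 2 ^ 18 := by rw [h531]; norm_num [step, realAlg]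
  obtain ⟨v532, h532, h⟩ := h
  change v532 = v141 * v531 at h532
  obtain ⟨v533, h533, h⟩ := h
  replace h533 : v533 = (2265 : ℝ) / 2 ^ 19 := by rw [h533]; norm_num [step, realAlg]
  obtain ⟨v534, h534, h⟩ := h
  change v534 = v532 + v533 at h534
  obtain ⟨v535, h535, h⟩ := h
  change v535 = v141 * v534 at h535
  obtain ⟨v536, h536, h⟩ := h
  replace h536 : v536 = (22869 : ℝ) / 2 ^ 19 := by rw [h536]; norm_num [step, realAlg]
  obtain ⟨v537, h537, h⟩ := h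
  change v537 = v535 - v536 at h537
  obtain ⟨v538, h538, h⟩ := h
  replace h538 : v538 = (2741 : ℝ) / 2 ^ 19 := by rw [h538]; norm_num [step, realAlg]
  obtain ⟨v539, h539, h⟩ := h
  change v539 = v141 * v538 at h539
  obtain ⟨v540, h540, h⟩ := h
  replace h540 : v540 = (6215 : ℝ) / 2 ^ 18 := by rw [h540]; norm_num [step, realAlg]
  obtain ⟨v541, h541, h⟩ := h
  change v541 = v539 - v540 at h541
  obtain ⟨v542, h542, h⟩ := h
  change v542 = v141 * v541 at h542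
  obtain ⟨v543, h543, h⟩ := h
  replace h543 : v543 = (9465 : ℝ) / 2 ^ 19 := by rw [h543]; norm_num [step, realAlg]
  obtain ⟨v544, h544, h⟩ := h
  change v544 = v542 - v543 at h544
  obtain ⟨v545, h545, h⟩ := h
  replace h545 : v545 = (725 : ℝ) / 2 ^ 17 := by rw [h545]; norm_num [step, realAlg]
  obtain ⟨v546, h546, h⟩ := h
  change v546 = v141 * v545 at h546
  obtain ⟨v547, h547, h⟩ := h
  change v547 = v546 + v533 at h547
  obtain ⟨v548, h548, h⟩ := h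
  replace h548 : v548 = (13705 : ℝ) / 2 ^ 19 := by rw [h548]; norm_num [step, realAlg]
  obtain ⟨v549, h549, h⟩ := h
  change v549 = v141 * v548 at h549
  obtain ⟨v550, h550, h⟩ := h
  replace h550 : v550 = (18645 : ℝ) / 2 ^ 18 := by rw [h550]; norm_num [step, realAlg]
  obtain ⟨v551, h551, h⟩ := h
  change v551 = v549 - v550 at h551
  obtain ⟨v552, h552, h⟩ := h
  change v552 = v141 * v551 at h552
  obtain ⟨v553, h553, h⟩ := h
  change v553 = v552 - v543 at h553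
  obtain ⟨v554, h554, h⟩ := h
  change v554 = v19 * v544 at h554
  obtain ⟨v555, h555, h⟩ := h
  change v555 = v1 * v554 at h555
  obtain ⟨c_x2c, e_c_x2c_d⟩ : ∃ q : ℂ, q = dB.x2c.ev m := ⟨_, rfl⟩
  have e_c_x2c_re : v537 = c_x2c.re := by
    rw [e_c_x2c_d]
    simp only [dB, Cf.ev, hor, h537, h536, h535, h534, h533, h532, h531, h141, h19, mul_re, mul_im, add_re, add_im, sub_re, sub_im, neg_re, neg_im, I_re, I_im, ofReal_re,
      ofReal_im, one_re, one_im, dt, normSq_apply, re_ofNat, im_ofNat]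
    try ring
  have e_c_x2c_im : v555 = c_x2c.im := by
    rw [e_c_x2c_d]
    simp only [dB, Cf.ev, hor, h555, h554, h544, h543, h542, h541, h540, h539, h538, h141, h19, h1, mul_re, mul_im, add_re, add_im, sub_re, sub_im, neg_re, neg_im, I_re, I_im, ofReal_re,
      ofReal_im, one_re, one_im, dt, normSq_apply, re_ofNat, im_ofNat]
    try ring
  obtain ⟨v556, h556, h⟩ := h
  change v556 = v20 * v547 at h556
  obtain ⟨v557, h557, h⟩ := h
  change v557 = v370 * v556 at h557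
  obtain ⟨v558, h558, h⟩ := h
  change v558 = v373 * v553 at h558
  obtain ⟨d_x2c, e_d_x2c_d⟩ : ∃ q : ℂ, q = dB.x2c.dv m := ⟨_, rfl⟩
  have e_d_x2c_re : v557 = d_x2c.re := by
    rw [e_d_x2c_d]
    simp only [dB, Cf.dv, hor, dhor, h557, h556, h547, h546, h545, h533, h370, h141, h20, h19, h4, mul_re, mul_im, add_re, add_im, sub_re, sub_im, neg_re, neg_im, I_re, I_im, ofReal_re,
      ofReal_im, one_re, one_im, dt, normSq_apply, re_ofNat, im_ofNat]
    try ring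
  have e_d_x2c_im : v558 = d_x2c.im := by
    rw [e_d_x2c_d]
    simp only [dB, Cf.dv, hor, dhor, h558, h553, h552, h551, h550, h549, h548, h543, h373, h141, h19, h4, h1, mul_re, mul_im, add_re, add_im, sub_re, sub_im, neg_re, neg_im, I_re, I_im, ofReal_re,
      ofReal_im, one_re, one_im, dt, normSq_apply, re_ofNat, im_ofNat]
    try ring
  obtain ⟨v559, h559, h⟩ := h
  replace h559 : v559 = (32347 : ℝ) / 2 ^ 20 := by rw [h559]; norm_num [step, realAlg]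
  exact pQB_c14 m h1 h4 h8 h12 h13 h16 h19 h20 e_K_d e_S_d e_ys_d e_ys_re e_ys_im h34 e_cAv_d e_sAv_d e_oav_d e_obv_d e_vs_d e_vs_re e_vs_im e_ns_d e_ns_re e_ns_im e_k0_d e_F_d e_F_v e_pr_d e_bs_d e_wd_d e_wd_v h74 e_w_d e_w_v e_hh2_d e_c2_d e_V0_d e_V0_re e_V0_im e_V0f_d e_V0f_re e_V0f_im e_mm_d e_tkv_d e_pkv_d e_kc_d e_kq_d e_qv_d h141 e_t2_d e_cax_d e_cbu_d e_ae_d e_be_d e_be_re e_be_im e_a_d e_a_re e_a_im e_aeV_d e_DT_d e_gq_d e_sa_d e_sa_re e_sa_im e_fv1_d e_fv1_re e_fv1_im e_fvI_d e_fvI_im e_fvs_d e_zv_d e_zv_re e_zv_im e_bz_d e_kap_d e_g4_d e_gw_d e_D1_d e_D1_re e_D1_im e_DI_d e_DI_re e_DI_im e_Mq1_d e_Mq1_re e_Mq1_im e_MqI_d e_MqI_re e_MqI_im e_hc_d e_Lq1_d e_Lq1_re e_Lq1_im e_LqI_d e_LqI_re e_LqI_im e_io_d e_io_v e_c_xx_d e_c_xx_re e_c_xx_im h370 h373 e_d_xx_d e_d_xx_re e_d_xx_im e_c_xb_d e_c_xb_im e_d_xb_d e_d_xb_im e_c_x3_d e_c_x3_re e_c_x3_im e_d_x3_d e_d_x3_re e_d_x3_im e_c_x2b_d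 e_c_x2b_re e_c_x2b_im e_d_x2b_d e_d_x2b_re e_d_x2b_im h464 e_c_xu_d e_c_xu_re e_c_xu_im e_d_xu_d e_d_xu_re e_d_xu_im e_c_xc_d e_c_xc_re e_c_xc_im e_d_xc_d e_d_xc_re e_d_xc_im e_c_x2u_d e_c_x2u_re e_c_x2u_im e_d_x2u_d e_d_x2u_re e_d_x2u_im e_c_x2c_d e_c_x2c_re e_c_x2c_im e_d_x2c_d e_d_x2c_re e_d_x2c_im h559 h

theorem pQB_c12 (m : ℝ) {v0 v1 v2 v3 v4 v5 v6 v7 v8 v9 v10 v11 v12 v13 v14 v15 v16 v17 v18 v19 v20 v21 v22 v23 K v24 v25 v26 v27 S v28 v29 v30 v31 : ℝ} {ys : ℂ} {v32 v33 v34 v35 cAv v36 v37 v38 sAv v39 v40 v41 v42 v43 v44 : ℝ} {oav : ℂ} {v45 v46 v47 v48 v49 v50 : ℝ} {obv : ℂ} {v51 v52 v53 v54 v55 v56 v57 v58 : ℝ} {vs : ℂ} {v59 v60 : ℝ} {ns : ℂ} {v61 v62 v63 k0 v64 F v65 v66 v67 v68 : ℝ} {pr : ℂ} {v69 v70 v71 : ℝ} {bs : ℂ} {v72 wd v73 v74 v75 w v76 hh2 v77 : ℝ} {c2 : ℂ} {v78 v79 : ℝ} {V0 : ℂ} {v80 v81 : ℝ} {V0f : ℂ} {v82 mm v83 v84 v85 v86 v87 v88 v89 v90 v91 v92 v93 v94 v95 v96 v97 v98 v99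 v100 v101 v102 v103 v104 v105 v106 v107 v108 v109 v110 v111 v112 v113 v114 : ℝ} {tkv : ℂ} {v115 v116 v117 v118 v119 v120 v121 v122 v123 v124 v125 v126 v127 : ℝ} {pkv : ℂ} {v128 v129 v130 kc v131 v132 v133 v134 kq v135 v136 v137 v138 v139 v140 : ℝ} {qv : ℂ} {v141 t2 v142 v143 v144 v145 v146 v147 v148 v149 v150 v151 v152 v153 v154 v155 v156 v157 v158 v159 v160 v161 v162 v163 v164 v165 v166 v167 v168 v169 : ℝ} {cax : ℂ} {v170 v171 v172 v173 v174 v175 v176 v177 v178 v179 v180 v181 v182 v183 v184 v185 v186 v187 v188 v189 v190 v191 v192 v193 v194 v195 v196 v197 : ℝ} {cbu ae be : ℂ} {v198 v199 : ℝ} {a : ℂ} {v200 v201 v202 v203 aeV v204 v205 v206 v207 v208 v209 v210 v211 v212 v213 v214 v215 v216 v217 v218 v219 : ℝ} {DT : ℂ} {v220 v221 v222 v223 v224 v225 v226 v227 v228 v229 v230 v231 gq v232 v233 v234 v235 v236 v237 v238 v239 v240 v241 : ℝ} {sa : ℂ} {v242 v243 v244 v245 v246 : ℝ} {fv1 : ℂ} {v247 v248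 v249 : ℝ} {fvI : ℂ} {v250 v251 : ℝ} {fvs : ℂ} {v252 v253 : ℝ} {zv : ℂ} {v254 v255 v256 bz v257 v258 v259 v260 v261 v262 v263 v264 v265 v266 v267 v268 v269 v270 v271 v272 : ℝ} {kap : ℂ} {v273 g4 v274 gw v275 v276 v277 v278 v279 v280 v281 : ℝ} {D1 : ℂ} {v282 v283 v284 v285 v286 v287 : ℝ} {DI : ℂ} {v288 v289 v290 v291 v292 v293 : ℝ} {Mq1 : ℂ} {v294 v295 v296 v297 v298 : ℝ} {MqI : ℂ} {v299 hc v300 v301 v302 v303 v304 v305 v306 v307 v308 v309 v310 v311 v312 v313 v314 v315 v316 v317 v318 v319 v320 : ℝ} {Lq1 : ℂ} {v321 v322 v323 v324 v325 v326 v327 v328 v329 v330 v331 v332 v333 v334 v335 v336 v337 : ℝ} {LqI : ℂ} {v338 v339 io v340 v341 v342 v343 v344 v345 v346 v347 v348 v349 v350 v351 v352 v353 v354 v355 v356 v357 v358 v359 v360 v361 v362 v363 v364 v365 v366 v367 v368 v369 : ℝ} {c_xx : ℂ} {v370 v371 v372 v373 v374 : ℝ} {d_xx : ℂ} {v375 v376 v377 v378 v379 v380 v381 v382 v383 v384 v385 v386 v387 v388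 v389 : ℝ} {c_xb : ℂ} {v390 : ℝ} {d_xb : ℂ} {v391 v392 v393 v394 v395 v396 v397 v398 v399 v400 v401 v402 v403 v404 v405 v406 v407 v408 v409 v410 v411 v412 v413 v414 v415 : ℝ} {c_x3 : ℂ} {v416 v417 v418 : ℝ} {d_x3 : ℂ} {v419 v420 v421 v422 v423 v424 v425 v426 v427 v428 v429 v430 v431 v432 v433 v434 v435 v436 v437 v438 v439 v440 v441 v442 v443 : ℝ} {c_x2b : ℂ} {v444 v445 v446 : ℝ} {d_x2b : ℂ} {v447 v448 v449 v450 v451 v452 v453 v454 v455 v456 v457 v458 v459 v460 v461 v462 v463 v464 v465 v466 v467 v468 v469 v470 v471 : ℝ} {c_xu : ℂ} {v472 v473 v474 : ℝ} {d_xu : ℂ} {v475 v476 v477 v478 v479 : ℝ}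
    (h1 : v1 = s3)
    (h4 : v4 = 1 / m1)
    (h8 : v8 = oc)
    (h12 : v12 = 1 / oS m)
    (h13 : v13 = oR m)
    (h16 : v16 = 1 / 6)
    (h19 : v19 = m / m1)
    (h20 : v20 = (2 : ℝ))
    (e_K_d : K = oK)
    (e_S_d : S = oS m)
    (e_ys_d : ys = oy m)
    (e_ys_re : v29 = ys.re)
    (e_ys_im : v31 = ys.im)
    (h34 : v34 = (1 : ℝ) / 2 ^ 1)
    (e_cAv_d : cAv = cA)
    (e_sAv_d : sAv = sA)
    (e_oav_d : oav = oa m)
    (e_obv_d : obv = ob m)
    (e_vs_d : vs = ov m)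
    (e_vs_re : v57 = -vs.re)
    (e_vs_im : v58 = -vs.im)
    (e_ns_d : ns = oN m)
    (e_ns_re : v59 = -ns.re)
    (e_ns_im : v60 = -ns.im)
    (e_k0_d : k0 = dt (oy m) (oN m))
    (e_F_d : F = oF m)
    (e_F_v : v64 = F)
    (e_pr_d : pr = oy m - oN m * (k0 : ℂ))
    (e_bs_d : bs = oB m)
    (e_wd_d : wd = oK * (1 / oS m))
    (e_wd_v : v72 = wd)
    (h74 : v74 = (3 : ℝ))
    (e_w_d : w = 3 * oK * (1 / oS m) ^ 2)
    (e_w_v : v75 = w)
    (e_hh2_d : hh2 = 2 * (oK * (1 / oS m)))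
    (e_c2_d : c2 = (hh2 : ℂ) - oy m)
    (e_V0_d : V0 = oV m)
    (e_V0_re : v79 = V0.re)
    (e_V0_im : v78 = V0.im)
    (e_V0f_d : V0f = oV m / (oF m : ℂ))
    (e_V0f_re : v80 = V0f.re)
    (e_V0f_im : v81 = V0f.im)
    (e_mm_d : mm = m)
    (e_tkv_d : tkv = tk m)
    (e_pkv_d : pkv = pk m)
    (e_kc_d : kc = oc * (3 * (4 - Real.sqrt 2) / 4))
    (e_kq_d : kq = oS m * s3 * (1 / 27) * (1 / oK) ^ 2)
    (e_qv_d : qv = qy m)
    (h141 : v141 = v19 * v19)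
    (e_t2_d : t2 = (m / m1) ^ 2)
    (e_cax_d : cax = (dB.ax).ev m)
    (e_cbu_d : cbu = (dB.bu).ev m)
    (e_ae_d : ae = dB.ae m)
    (e_be_d : be = dB.be m)
    (e_be_re : v197 = be.re)
    (e_be_im : v182 = be.im)
    (e_a_d : a = qy m + dB.ae m)
    (e_a_re : v198 = a.re)
    (e_a_im : v199 = a.im)
    (e_aeV_d : aeV = dt (dB.ae m) (oV m) / oF m)
    (e_DT_d : DT = DVT (oy m) (qy m + dB.ae m))
    (e_gq_d : gq = aeV - 2 * oc * oR m ^ 2 + dt be (bs - (oR m : ℂ) * (I * ns)))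
    (e_sa_d : sa = (dB.pt m).sa)
    (e_sa_re : v240 = sa.re)
    (e_sa_im : v241 = -sa.im)
    (e_fv1_d : fv1 = (dB.pt m).fv 1)
    (e_fv1_re : v244 = fv1.re)
    (e_fv1_im : v246 = -fv1.im)
    (e_fvI_d : fvI = (dB.pt m).fv I)
    (e_fvI_im : v249 = fvI.im)
    (e_fvs_d : fvs = (oy m - ((dt (oy m) (oN m) : ℝ) : ℂ) * oN m) / (oR m : ℂ))
    (e_zv_d : zv = I * ov m - oB m)
    (e_zv_re : v252 = zv.re)
    (e_zv_im : v253 = zv.im)
    (e_bz_d : bz = dt (dB.be m) (I * ov m - oB m))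
    (e_kap_d : kap = (dB.pt m).kap)
    (e_g4_d : g4 = -4 * (oK * (1 / oS m)))
    (e_gw_d : gw = 4 * (oK * (1 / oS m)) ^ 2)
    (e_D1_d : D1 = (dB.pt m).DV 1)
    (e_D1_re : v276 = -D1.re)
    (e_D1_im : v281 = D1.im)
    (e_DI_d : DI = (dB.pt m).DV I)
    (e_DI_re : v286 = DI.re)
    (e_DI_im : v287 = -DI.im)
    (e_Mq1_d : Mq1 = (dB.pt m).M 1)
    (e_Mq1_re : v290 = Mq1.re)
    (e_Mq1_im : v293 = Mq1.im)
    (e_MqI_d : MqI = (dB.pt m).M I)
    (e_MqI_re : v295 = MqI.re)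
    (e_MqI_im : v298 = MqI.im)
    (e_hc_d : hc = 1 / 2 - oc)
    (e_Lq1_d : Lq1 = (dB.pt m).L 1)
    (e_Lq1_re : v319 = Lq1.re)
    (e_Lq1_im : v320 = Lq1.im)
    (e_LqI_d : LqI = (dB.pt m).L I)
    (e_LqI_re : v336 = LqI.re)
    (e_LqI_im : v337 = LqI.im)
    (e_io_d : io = 1 / osd m)
    (e_io_v : v339 = io)
    (e_c_xx_d : c_xx = dB.xx.ev m)
    (e_c_xx_re : v349 = c_xx.re)
    (e_c_xx_im : v369 = c_xx.im)
    (h370 : v370 = v4 * v19)
    (h373 : v373 = v1 * v4)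
    (e_d_xx_d : d_xx = dB.xx.dv m)
    (e_d_xx_re : v372 = d_xx.re)
    (e_d_xx_im : v374 = d_xx.im)
    (e_c_xb_d : c_xb = dB.xb.ev m)
    (e_c_xb_im : v389 = c_xb.im)
    (e_d_xb_d : d_xb = dB.xb.dv m)
    (e_d_xb_im : v390 = d_xb.im)
    (e_c_x3_d : c_x3 = dB.x3.ev m)
    (e_c_x3_re : v397 = c_x3.re)
    (e_c_x3_im : v415 = c_x3.im)
    (e_d_x3_d : d_x3 = dB.x3.dv m)
    (e_d_x3_re : v417 = d_x3.re)
    (e_d_x3_im : v418 = d_x3.im)
    (e_c_x2b_d : c_x2b = dB.x2b.ev m)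
    (e_c_x2b_re : v425 = c_x2b.re)
    (e_c_x2b_im : v443 = c_x2b.im)
    (e_d_x2b_d : d_x2b = dB.x2b.dv m)
    (e_d_x2b_re : v445 = d_x2b.re)
    (e_d_x2b_im : v446 = d_x2b.im)
    (h464 : v464 = (2065 : ℝ) / 2 ^ 20)
    (e_c_xu_d : c_xu = dB.xu.ev m)
    (e_c_xu_re : v453 = c_xu.re)
    (e_c_xu_im : v471 = c_xu.im)
    (e_d_xu_d : d_xu = dB.xu.dv m)
    (e_d_xu_re : v473 = d_xu.re)
    (e_d_xu_im : v474 = d_xu.im)
    (h475 : v475 = (9151 : ℝ) / 2 ^ 20)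
    (h476 : v476 = v141 * v475)
    (h477 : v477 = (97979 : ℝ) / 2 ^ 20)
    (h478 : v478 = v477 - v476)
    (h479 : v479 = v141 * v478)
    (h : TrE (realAlg (fun i => get 0 (l1 μB m) i) (m / m1) 0) (pQB.drop 480) [v479, v478, v477, v476, v475, v474, v473, v472, v471, v470, v469, v468, v467, v466, v465, v464, v463, v462, v461, v460, v459, v458, v457, v456, v455, v454, v453, v452, v451, v450, v449, v448, v447, v446, v445, v444, v443, v442, v441, v440, v439, v438, v437, v436, v435, v434, v433, v432, v431, v430, v429, v428, v427, v426, v425, v424, v423, v422, v421, v420, v419, v418, v417, v416, v415, v414, v413, v412, v411, v410, v409, v408, v407, v406, v405, v404, v403, v402, v401, v400, v399, v398, v397, v396, v395, v394, v393, v392, v391, v390, v389, v388, v387, v386, v385, v384, v383, v382, v381, v380, v379, v378, v377, v376, v375, v374, v373, v372, v371, v370, v369, v368, v367, v366, v365,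 v364, v363, v362, v361, v360, v359, v358, v357, v356, v355, v354, v353, v352, v351, v350, v349, v348, v347, v346, v345, v344, v343, v342, v341, v340, v339, v338, v337, v336, v335, v334, v333, v332, v331, v330, v329, v328, v327, v326, v325, v324, v323, v322, v321, v320, v319, v318, v317, v316, v315, v314, v313, v312, v311, v310, v309, v308, v307, v306, v305, v304, v303, v302, v301, v300, v299, v298, v297, v296, v295, v294, v293, v292, v291, v290, v289, v288, v287, v286, v285, v284, v283, v282, v281, v280, v279, v278, v277, v276, v275, v274, v273, v272, v271, v270, v269, v268, v267, v266, v265, v264, v263, v262, v261, v260, v259, v258, v257, v256, v255, v254, v253, v252, v251, v250, v249, v248, v247, v246, v245, v244, v243, v242, v241, v240, v239, v238, v237, v236, v235, v234, v233, v232, v231, v230, v229, v228, v227, v226, v225, v224, v223, v222, v221, v220, v219, v218, v217, v216, v215, v214,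 v213, v212, v211, v210, v209, v208, v207, v206, v205, v204, v203, v202, v201, v200, v199, v198, v197, v196, v195, v194, v193, v192, v191, v190, v189, v188, v187, v186, v185, v184, v183, v182, v181, v180, v179, v178, v177, v176, v175, v174, v173, v172, v171, v170, v169, v168, v167, v166, v165, v164, v163, v162, v161, v160, v159, v158, v157, v156, v155, v154, v153, v152, v151, v150, v149, v148, v147, v146, v145, v144, v143, v142, v141, v140, v139, v138, v137, v136, v135, v134, v133, v132, v131, v130, v129, v128, v127, v126, v125, v124, v123, v122, v121, v120, v119, v118, v117, v116, v115, v114, v113, v112, v111, v110, v109, v108, v107, v106, v105, v104, v103, v102, v101, v100, v99, v98, v97, v96, v95, v94, v93, v92, v91, v90, v89, v88, v87, v86, v85, v84, v83, v82, v81, v80, v79, v78, v77, v76, v75, v74, v73, v72, v71, v70, v69, v68, v67, v66, v65, v64, v63, v62, v61, v60, v59, v58, v57, v56, v55,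 v54, v53, v52, v51, v50, v49, v48, v47, v46, v45, v44, v43, v42, v41, v40, v39, v38, v37, v36, v35, v34, v33, v32, v31, v30, v29, v28, v27, v26, v25, v24, v23, v22, v21, v20, v19, v18, v17, v16, v15, v14, v13, v12, v11, v10, v9, v8, v7, v6, v5, v4, v3, v2, v1, v0] (fun st => run (realAlg (fun i => get 0 (l1 μB m) i) (m / m1) 0) pQB [] = st)) :
    pQB_goal m := by
  have hm1 : m1 ≠ 0 := m1_ne
  obtain ⟨v480, h480, h⟩ := h
  replace h480 : v480 = (126429 : ℝ) / 2 ^ 19 := by rw [h480]; norm_num [step, realAlg]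
  obtain ⟨v481, h481, h⟩ := h
  change v481 = v479 - v480 at h481
  obtain ⟨v482, h482, h⟩ := h
  replace h482 : v482 = (14713 : ℝ) / 2 ^ 20 := by rw [h482]; norm_num [step, realAlg]
  obtain ⟨v483, h483, h⟩ := h
  change v483 = v141 * v482 at h483
  obtain ⟨v484, h484, h⟩ := h
  replace h484 : v484 = (21485 : ℝ) / 2 ^ 20 := by rw [h484]; norm_num [step, realAlg]
  obtain ⟨v485, h485, h⟩ := h
  change v485 = v483 - v484 at h485
  obtain ⟨v486, h486, h⟩ := h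
  change v486 = v141 * v485 at h486
  obtain ⟨v487, h487, h⟩ := h
  replace h487 : v487 = (1693 : ℝ) / 2 ^ 18 := by rw [h487]; norm_num [step, realAlg]
  obtain ⟨v488, h488, h⟩ := h
  change v488 = v486 + v487 at h488
  obtain ⟨v489, h489, h⟩ := h
  replace h489 : v489 = (9151 : ℝ) / 2 ^ 19 := by rw [h489]; norm_num [step, realAlg]
  obtain ⟨v490, h490, h⟩ := h
  change v490 = v141 * v489 at h490
  obtain ⟨v491, h491, h⟩ := h
  change v491 = v477 - v490 at h491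
  obtain ⟨v492, h492, h⟩ := h
  replace h492 : v492 = (73565 : ℝ) / 2 ^ 20 := by rw [h492]; norm_num [step, realAlg]
  obtain ⟨v493, h493, h⟩ := h
  change v493 = v141 * v492 at h493
  obtain ⟨v494, h494, h⟩ := h
  replace h494 : v494 = (64455 : ℝ) / 2 ^ 20 := by rw [h494]; norm_num [step, realAlg]
  obtain ⟨v495, h495, h⟩ := h
  change v495 = v493 - v494 at h495
  obtain ⟨v496, h496, h⟩ := h
  change v496 = v141 * v495 at h496
  obtain ⟨v497, h497, h⟩ := h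
  change v497 = v496 + v487 at h497
  obtain ⟨v498, h498, h⟩ := h
  change v498 = v19 * v488 at h498
  obtain ⟨v499, h499, h⟩ := h
  change v499 = v1 * v498 at h499
  obtain ⟨c_xc, e_c_xc_d⟩ : ∃ q : ℂ, q = dB.xc.ev m := ⟨_, rfl⟩
  have e_c_xc_re : v481 = c_xc.re := by
    rw [e_c_xc_d]
    simp only [dB, Cf.ev, hor, h481, h480, h479, h478, h477, h476, h475, h141, h19, mul_re, mul_im, add_re, add_im, sub_re, sub_im, neg_re, neg_im, I_re, I_im, ofReal_re,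
      ofReal_im, one_re, one_im, dt, normSq_apply, re_ofNat, im_ofNat]
    try ring
  have e_c_xc_im : v499 = c_xc.im := by
    rw [e_c_xc_d]
    simp only [dB, Cf.ev, hor, h499, h498, h488, h487, h486, h485, h484, h483, h482, h141, h19, h1, mul_re, mul_im, add_re, add_im, sub_re, sub_im, neg_re, neg_im, I_re, I_im, ofReal_re,
      ofReal_im, one_re, one_im, dt, normSq_apply, re_ofNat, im_ofNat]
    try ring
  obtain ⟨v500, h500, h⟩ := h
  change v500 = v20 * v491 at h500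
  obtain ⟨v501, h501, h⟩ := h
  change v501 = v370 * v500 at h501
  obtain ⟨v502, h502, h⟩ := h
  change v502 = v373 * v497 at h502
  obtain ⟨d_xc, e_d_xc_d⟩ : ∃ q : ℂ, q = dB.xc.dv m := ⟨_, rfl⟩
  have e_d_xc_re : v501 = d_xc.re := by
    rw [e_d_xc_d]
    simp only [dB, Cf.dv, hor, dhor, h501, h500, h491, h490, h489, h477, h370, h141, h20, h19, h4, mul_re, mul_im, add_re, add_im, sub_re, sub_im, neg_re, neg_im, I_re, I_im, ofReal_re,
      ofReal_im, one_re, one_im, dt, normSq_apply, re_ofNat, im_ofNat]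
    try ring
  have e_d_xc_im : v502 = d_xc.im := by
    rw [e_d_xc_d]
    simp only [dB, Cf.dv, hor, dhor, h502, h497, h496, h495, h494, h493, h492, h487, h373, h141, h19, h4, h1, mul_re, mul_im, add_re, add_im, sub_re, sub_im, neg_re, neg_im, I_re, I_im, ofReal_re,
      ofReal_im, one_re, one_im, dt, normSq_apply, re_ofNat, im_ofNat]
    try ring
  obtain ⟨v503, h503, h⟩ := h
  replace h503 : v503 = (1787 : ℝ) / 2 ^ 19 := by rw [h503]; norm_num [step, realAlg]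
  obtain ⟨v504, h504, h⟩ := h
  change v504 = v141 * v503 at h504
  obtain ⟨v505, h505, h⟩ := h
  replace h505 : v505 = (61337 : ℝ) / 2 ^ 20 := by rw [h505]; norm_num [step, realAlg]
  obtain ⟨v506, h506, h⟩ := h
  change v506 = v504 - v505 at h506
  obtain ⟨v507, h507, h⟩ := h
  change v507 = v141 * v506 at h507
  obtain ⟨v508, h508, h⟩ := h
  replace h508 : v508 = (58727 : ℝ) / 2 ^ 20 := by rw [h508]; norm_num [step, realAlg]
  obtain ⟨v509, h509, h⟩ := h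
  change v509 = v507 + v508 at h509
  obtain ⟨v510, h510, h⟩ := h
  replace h510 : v510 = (2509 : ℝ) / 2 ^ 20 := by rw [h510]; norm_num [step, realAlg]
  obtain ⟨v511, h511, h⟩ := h
  change v511 = v141 * v510 at h511
  obtain ⟨v512, h512, h⟩ := h
  replace h512 : v512 = (893 : ℝ) / 2 ^ 18 := by rw [h512]; norm_num [step, realAlg]
  obtain ⟨v513, h513, h⟩ := h
  change v513 = v511 + v512 at h513
  obtain ⟨v514, h514, h⟩ := h
  change v514 = v141 * v513 at h514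
  obtain ⟨v515, h515, h⟩ := h
  replace h515 : v515 = (6081 : ℝ) / 2 ^ 20 := by rw [h515]; norm_num [step, realAlg]
  obtain ⟨v516, h516, h⟩ := h
  change v516 = v514 - v515 at h516
  obtain ⟨v517, h517, h⟩ := h
  replace h517 : v517 = (1787 : ℝ) / 2 ^ 18 := by rw [h517]; norm_num [step, realAlg]
  obtain ⟨v518, h518, h⟩ := h
  change v518 = v141 * v517 at h518
  obtain ⟨v519, h519, h⟩ := h
  change v519 = v518 - v505 at h519
  exact pQB_c13 m h1 h4 h8 h12 h13 h16 h19 h20 e_K_d e_S_d e_ys_d e_ys_re e_ys_im h34 e_cAv_d e_sAv_d e_oav_d e_obv_d e_vs_d e_vs_re e_vs_im e_ns_d e_ns_re e_ns_im e_k0_d e_F_d e_F_v e_pr_d e_bs_d e_wd_d e_wd_v h74 e_w_d e_w_v e_hh2_d e_c2_d e_V0_d e_V0_re e_V0_im e_V0f_d e_V0f_re e_V0f_im e_mm_d e_tkv_d e_pkv_d e_kc_d e_kq_d e_qv_d h141 e_t2_d e_cax_d e_cbu_d e_ae_d e_be_d e_be_re e_be_im e_a_d e_a_re e_a_im e_aeV_d e_DT_d e_gq_d e_sa_d e_sa_re e_sa_im e_fv1_d e_fv1_re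 e_fv1_im e_fvI_d e_fvI_im e_fvs_d e_zv_d e_zv_re e_zv_im e_bz_d e_kap_d e_g4_d e_gw_d e_D1_d e_D1_re e_D1_im e_DI_d e_DI_re e_DI_im e_Mq1_d e_Mq1_re e_Mq1_im e_MqI_d e_MqI_re e_MqI_im e_hc_d e_Lq1_d e_Lq1_re e_Lq1_im e_LqI_d e_LqI_re e_LqI_im e_io_d e_io_v e_c_xx_d e_c_xx_re e_c_xx_im h370 h373 e_d_xx_d e_d_xx_re e_d_xx_im e_c_xb_d e_c_xb_im e_d_xb_d e_d_xb_im e_c_x3_d e_c_x3_re e_c_x3_im e_d_x3_d e_d_x3_re e_d_x3_im e_c_x2b_d e_c_x2b_re e_c_x2b_im e_d_x2b_d e_d_x2b_re e_d_x2b_im h464 e_c_xu_d e_c_xu_re e_c_xu_im e_d_xu_d e_d_xu_re e_d_xu_im e_c_xc_d e_c_xc_re e_c_xc_im e_d_xc_d e_d_xc_re e_d_xc_im h503 h504 h505 h506 h507 h508 h509 h510 h511 h512 h513 h514 h515 h516 h517 h518 h519 h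

theorem pQB_c11 (m : ℝ) {v0 v1 v2 v3 v4 v5 v6 v7 v8 v9 v10 v11 v12 v13 v14 v15 v16 v17 v18 v19 v20 v21 v22 v23 K v24 v25 v26 v27 S v28 v29 v30 v31 : ℝ} {ys : ℂ} {v32 v33 v34 v35 cAv v36 v37 v38 sAv v39 v40 v41 v42 v43 v44 : ℝ} {oav : ℂ} {v45 v46 v47 v48 v49 v50 : ℝ} {obv : ℂ} {v51 v52 v53 v54 v55 v56 v57 v58 : ℝ} {vs : ℂ} {v59 v60 : ℝ} {ns : ℂ} {v61 v62 v63 k0 v64 F v65 v66 v67 v68 : ℝ} {pr : ℂ} {v69 v70 v71 : ℝ} {bs : ℂ} {v72 wd v73 v74 v75 w v76 hh2 v77 : ℝ} {c2 : ℂ} {v78 v79 : ℝ} {V0 : ℂ} {v80 v81 : ℝ} {V0f : ℂ} {v82 mm v83 v84 v85 v86 v87 v88 v89 v90 v91 v92 v93 v94 v95 v96 v97 v98 v99 v100 v101 v102 v103 v104 v105 v106 v107 v108 v109 v110 v111 v112 v113 v114 : ℝ} {tkv : ℂ} {v115 v116 v117 v118 v119 v120 v121 v122 v123 v124 v125 v126 v127 : ℝ} {pkv : ℂ} {v128 v129 v130 kc v131 v132 v133 v134 kq v135 v136 v137 v138 v139 v140 : ℝ} {qv : ℂ} {v141 t2 v142 v143 v144 v145 v146 v147 v148 v149 v150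 v151 v152 v153 v154 v155 v156 v157 v158 v159 v160 v161 v162 v163 v164 v165 v166 v167 v168 v169 : ℝ} {cax : ℂ} {v170 v171 v172 v173 v174 v175 v176 v177 v178 v179 v180 v181 v182 v183 v184 v185 v186 v187 v188 v189 v190 v191 v192 v193 v194 v195 v196 v197 : ℝ} {cbu ae be : ℂ} {v198 v199 : ℝ} {a : ℂ} {v200 v201 v202 v203 aeV v204 v205 v206 v207 v208 v209 v210 v211 v212 v213 v214 v215 v216 v217 v218 v219 : ℝ} {DT : ℂ} {v220 v221 v222 v223 v224 v225 v226 v227 v228 v229 v230 v231 gq v232 v233 v234 v235 v236 v237 v238 v239 v240 v241 : ℝ} {sa : ℂ} {v242 v243 v244 v245 v246 : ℝ} {fv1 : ℂ} {v247 v248 v249 : ℝ} {fvI : ℂ} {v250 v251 : ℝ} {fvs : ℂ} {v252 v253 : ℝ} {zv : ℂ} {v254 v255 v256 bz v257 v258 v259 v260 v261 v262 v263 v264 v265 v266 v267 v268 v269 v270 v271 v272 : ℝ} {kap : ℂ} {v273 g4 v274 gw v275 v276 v277 v278 v279 v280 v281 : ℝ} {D1 : ℂ} {v282 v283 v284 v285 v286 v287 : ℝ} {DI : ℂ} {v288 v289 v290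 v291 v292 v293 : ℝ} {Mq1 : ℂ} {v294 v295 v296 v297 v298 : ℝ} {MqI : ℂ} {v299 hc v300 v301 v302 v303 v304 v305 v306 v307 v308 v309 v310 v311 v312 v313 v314 v315 v316 v317 v318 v319 v320 : ℝ} {Lq1 : ℂ} {v321 v322 v323 v324 v325 v326 v327 v328 v329 v330 v331 v332 v333 v334 v335 v336 v337 : ℝ} {LqI : ℂ} {v338 v339 io v340 v341 v342 v343 v344 v345 v346 v347 v348 v349 v350 v351 v352 v353 v354 v355 v356 v357 v358 v359 v360 v361 v362 v363 v364 v365 v366 v367 v368 v369 : ℝ} {c_xx : ℂ} {v370 v371 v372 v373 v374 : ℝ} {d_xx : ℂ} {v375 v376 v377 v378 v379 v380 v381 v382 v383 v384 v385 v386 v387 v388 v389 : ℝ} {c_xb : ℂ} {v390 : ℝ} {d_xb : ℂ} {v391 v392 v393 v394 v395 v396 v397 v398 v399 v400 v401 v402 v403 v404 v405 v406 v407 v408 v409 v410 v411 v412 v413 v414 v415 : ℝ} {c_x3 : ℂ} {v416 v417 v418 : ℝ} {d_x3 : ℂ} {v419 v420 v421 v422 v423 v424 v425 v426 v427 v428 v429 v430 v431 v432 v433 v434 v435 v436 v437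 v438 v439 : ℝ}
    (h1 : v1 = s3)
    (h4 : v4 = 1 / m1)
    (h8 : v8 = oc)
    (h12 : v12 = 1 / oS m)
    (h13 : v13 = oR m)
    (h16 : v16 = 1 / 6)
    (h19 : v19 = m / m1)
    (h20 : v20 = (2 : ℝ))
    (e_K_d : K = oK)
    (e_S_d : S = oS m)
    (e_ys_d : ys = oy m)
    (e_ys_re : v29 = ys.re)
    (e_ys_im : v31 = ys.im)
    (h34 : v34 = (1 : ℝ) / 2 ^ 1)
    (e_cAv_d : cAv = cA)
    (e_sAv_d : sAv = sA)
    (e_oav_d : oav = oa m)
    (e_obv_d : obv = ob m)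
    (e_vs_d : vs = ov m)
    (e_vs_re : v57 = -vs.re)
    (e_vs_im : v58 = -vs.im)
    (e_ns_d : ns = oN m)
    (e_ns_re : v59 = -ns.re)
    (e_ns_im : v60 = -ns.im)
    (e_k0_d : k0 = dt (oy m) (oN m))
    (e_F_d : F = oF m)
    (e_F_v : v64 = F)
    (e_pr_d : pr = oy m - oN m * (k0 : ℂ))
    (e_bs_d : bs = oB m)
    (e_wd_d : wd = oK * (1 / oS m))
    (e_wd_v : v72 = wd)
    (h74 : v74 = (3 : ℝ))
    (e_w_d : w = 3 * oK * (1 / oS m) ^ 2)
    (e_w_v : v75 = w)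
    (e_hh2_d : hh2 = 2 * (oK * (1 / oS m)))
    (e_c2_d : c2 = (hh2 : ℂ) - oy m)
    (e_V0_d : V0 = oV m)
    (e_V0_re : v79 = V0.re)
    (e_V0_im : v78 = V0.im)
    (e_V0f_d : V0f = oV m / (oF m : ℂ))
    (e_V0f_re : v80 = V0f.re)
    (e_V0f_im : v81 = V0f.im)
    (e_mm_d : mm = m)
    (e_tkv_d : tkv = tk m)
    (e_pkv_d : pkv = pk m)
    (e_kc_d : kc = oc * (3 * (4 - Real.sqrt 2) / 4))
    (e_kq_d : kq = oS m * s3 * (1 / 27) * (1 / oK) ^ 2)
    (e_qv_d : qv = qy m)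
    (h141 : v141 = v19 * v19)
    (e_t2_d : t2 = (m / m1) ^ 2)
    (e_cax_d : cax = (dB.ax).ev m)
    (e_cbu_d : cbu = (dB.bu).ev m)
    (e_ae_d : ae = dB.ae m)
    (e_be_d : be = dB.be m)
    (e_be_re : v197 = be.re)
    (e_be_im : v182 = be.im)
    (e_a_d : a = qy m + dB.ae m)
    (e_a_re : v198 = a.re)
    (e_a_im : v199 = a.im)
    (e_aeV_d : aeV = dt (dB.ae m) (oV m) / oF m)
    (e_DT_d : DT = DVT (oy m) (qy m + dB.ae m))
    (e_gq_d : gq = aeV - 2 * oc * oR m ^ 2 + dt be (bs - (oR m : ℂ) * (I * ns)))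
    (e_sa_d : sa = (dB.pt m).sa)
    (e_sa_re : v240 = sa.re)
    (e_sa_im : v241 = -sa.im)
    (e_fv1_d : fv1 = (dB.pt m).fv 1)
    (e_fv1_re : v244 = fv1.re)
    (e_fv1_im : v246 = -fv1.im)
    (e_fvI_d : fvI = (dB.pt m).fv I)
    (e_fvI_im : v249 = fvI.im)
    (e_fvs_d : fvs = (oy m - ((dt (oy m) (oN m) : ℝ) : ℂ) * oN m) / (oR m : ℂ))
    (e_zv_d : zv = I * ov m - oB m)
    (e_zv_re : v252 = zv.re)
    (e_zv_im : v253 = zv.im)
    (e_bz_d : bz = dt (dB.be m) (I * ov m - oB m))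
    (e_kap_d : kap = (dB.pt m).kap)
    (e_g4_d : g4 = -4 * (oK * (1 / oS m)))
    (e_gw_d : gw = 4 * (oK * (1 / oS m)) ^ 2)
    (e_D1_d : D1 = (dB.pt m).DV 1)
    (e_D1_re : v276 = -D1.re)
    (e_D1_im : v281 = D1.im)
    (e_DI_d : DI = (dB.pt m).DV I)
    (e_DI_re : v286 = DI.re)
    (e_DI_im : v287 = -DI.im)
    (e_Mq1_d : Mq1 = (dB.pt m).M 1)
    (e_Mq1_re : v290 = Mq1.re)
    (e_Mq1_im : v293 = Mq1.im)
    (e_MqI_d : MqI = (dB.pt m).M I)
    (e_MqI_re : v295 = MqI.re)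
    (e_MqI_im : v298 = MqI.im)
    (e_hc_d : hc = 1 / 2 - oc)
    (e_Lq1_d : Lq1 = (dB.pt m).L 1)
    (e_Lq1_re : v319 = Lq1.re)
    (e_Lq1_im : v320 = Lq1.im)
    (e_LqI_d : LqI = (dB.pt m).L I)
    (e_LqI_re : v336 = LqI.re)
    (e_LqI_im : v337 = LqI.im)
    (e_io_d : io = 1 / osd m)
    (e_io_v : v339 = io)
    (e_c_xx_d : c_xx = dB.xx.ev m)
    (e_c_xx_re : v349 = c_xx.re)
    (e_c_xx_im : v369 = c_xx.im)
    (h370 : v370 = v4 * v19)
    (h373 : v373 = v1 * v4)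
    (e_d_xx_d : d_xx = dB.xx.dv m)
    (e_d_xx_re : v372 = d_xx.re)
    (e_d_xx_im : v374 = d_xx.im)
    (e_c_xb_d : c_xb = dB.xb.ev m)
    (e_c_xb_im : v389 = c_xb.im)
    (e_d_xb_d : d_xb = dB.xb.dv m)
    (e_d_xb_im : v390 = d_xb.im)
    (e_c_x3_d : c_x3 = dB.x3.ev m)
    (e_c_x3_re : v397 = c_x3.re)
    (e_c_x3_im : v415 = c_x3.im)
    (e_d_x3_d : d_x3 = dB.x3.dv m)
    (e_d_x3_re : v417 = d_x3.re)
    (e_d_x3_im : v418 = d_x3.im)
    (h419 : v419 = (1437 : ℝ) / 2 ^ 18)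
    (h420 : v420 = v141 * v419)
    (h421 : v421 = (-387 : ℝ) / 2 ^ 16)
    (h422 : v422 = v421 - v420)
    (h423 : v423 = v141 * v422)
    (h424 : v424 = (6003 : ℝ) / 2 ^ 19)
    (h425 : v425 = v423 + v424)
    (h426 : v426 = (1601 : ℝ) / 2 ^ 20)
    (h427 : v427 = v141 * v426)
    (h428 : v428 = (435 : ℝ) / 2 ^ 18)
    (h429 : v429 = v427 + v428)
    (h430 : v430 = v141 * v429)
    (h431 : v431 = (3275 : ℝ) / 2 ^ 20)
    (h432 : v432 = v430 - v431)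
    (h433 : v433 = (1437 : ℝ) / 2 ^ 17)
    (h434 : v434 = v141 * v433)
    (h435 : v435 = v421 - v434)
    (h436 : v436 = (8005 : ℝ) / 2 ^ 20)
    (h437 : v437 = v141 * v436)
    (h438 : v438 = (1305 : ℝ) / 2 ^ 18)
    (h439 : v439 = v437 + v438)
    (h : TrE (realAlg (fun i => get 0 (l1 μB m) i) (m / m1) 0) (pQB.drop 440) [v439, v438, v437, v436, v435, v434, v433, v432, v431, v430, v429, v428, v427, v426, v425, v424, v423, v422, v421, v420, v419, v418, v417, v416, v415, v414, v413, v412, v411, v410, v409, v408, v407, v406, v405, v404, v403, v402, v401, v400, v399, v398, v397, v396, v395, v394, v393, v392, v391, v390, v389, v388, v387, v386, v385, v384, v383, v382, v381, v380, v379, v378, v377, v376, v375, v374, v373, v372, v371, v370, v369, v368, v367, v366, v365, v364, v363, v362, v361, v360, v359, v358, v357, v356, v355, v354, v353, v352, v351, v350, v349, v348, v347, v346, v345, v344, v343,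 v342, v341, v340, v339, v338, v337, v336, v335, v334, v333, v332, v331, v330, v329, v328, v327, v326, v325, v324, v323, v322, v321, v320, v319, v318, v317, v316, v315, v314, v313, v312, v311, v310, v309, v308, v307, v306, v305, v304, v303, v302, v301, v300, v299, v298, v297, v296, v295, v294, v293, v292, v291, v290, v289, v288, v287, v286, v285, v284, v283, v282, v281, v280, v279, v278, v277, v276, v275, v274, v273, v272, v271, v270, v269, v268, v267, v266, v265, v264, v263, v262, v261, v260, v259, v258, v257, v256, v255, v254, v253, v252, v251, v250, v249, v248, v247, v246, v245, v244, v243, v242, v241, v240, v239, v238, v237, v236, v235, v234, v233, v232, v231, v230, v229, v228, v227, v226, v225, v224, v223, v222, v221, v220, v219, v218, v217, v216, v215, v214, v213, v212, v211, v210, v209, v208, v207, v206, v205, v204, v203, v202, v201, v200, v199, v198, v197, v196, v195, v194, v193, v192,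 v191, v190, v189, v188, v187, v186, v185, v184, v183, v182, v181, v180, v179, v178, v177, v176, v175, v174, v173, v172, v171, v170, v169, v168, v167, v166, v165, v164, v163, v162, v161, v160, v159, v158, v157, v156, v155, v154, v153, v152, v151, v150, v149, v148, v147, v146, v145, v144, v143, v142, v141, v140, v139, v138, v137, v136, v135, v134, v133, v132, v131, v130, v129, v128, v127, v126, v125, v124, v123, v122, v121, v120, v119, v118, v117, v116, v115, v114, v113, v112, v111, v110, v109, v108, v107, v106, v105, v104, v103, v102, v101, v100, v99, v98, v97, v96, v95, v94, v93, v92, v91, v90, v89, v88, v87, v86, v85, v84, v83, v82, v81, v80, v79, v78, v77, v76, v75, v74, v73, v72, v71, v70, v69, v68, v67, v66, v65, v64, v63, v62, v61, v60, v59, v58, v57, v56, v55, v54, v53, v52, v51, v50, v49, v48, v47, v46, v45, v44, v43, v42, v41, v40, v39, v38, v37, v36, v35, v34, v33, v32, v31, v30, v29,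 v28, v27, v26, v25, v24, v23, v22, v21, v20, v19, v18, v17, v16, v15, v14, v13, v12, v11, v10, v9, v8, v7, v6, v5, v4, v3, v2, v1, v0] (fun st => run (realAlg (fun i => get 0 (l1 μB m) i) (m / m1) 0) pQB [] = st)) :
    pQB_goal m := by
  have hm1 : m1 ≠ 0 := m1_ne
  obtain ⟨v440, h440, h⟩ := h
  change v440 = v141 * v439 at h440
  obtain ⟨v441, h441, h⟩ := h
  change v441 = v440 - v431 at h441
  obtain ⟨v442, h442, h⟩ := h
  change v442 = v19 * v432 at h442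
  obtain ⟨v443, h443, h⟩ := h
  change v443 = v1 * v442 at h443
  obtain ⟨c_x2b, e_c_x2b_d⟩ : ∃ q : ℂ, q = dB.x2b.ev m := ⟨_, rfl⟩
  have e_c_x2b_re : v425 = c_x2b.re := by
    rw [e_c_x2b_d]
    simp only [dB, Cf.ev, hor, h425, h424, h423, h422, h421, h420, h419, h141, h19, mul_re, mul_im, add_re, add_im, sub_re, sub_im, neg_re, neg_im, I_re, I_im, ofReal_re,
      ofReal_im, one_re, one_im, dt, normSq_apply, re_ofNat, im_ofNat]
    try ring
  have e_c_x2b_im : v443 = c_x2b.im := by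
    rw [e_c_x2b_d]
    simp only [dB, Cf.ev, hor, h443, h442, h432, h431, h430, h429, h428, h427, h426, h141, h19, h1, mul_re, mul_im, add_re, add_im, sub_re, sub_im, neg_re, neg_im, I_re, I_im, ofReal_re,
      ofReal_im, one_re, one_im, dt, normSq_apply, re_ofNat, im_ofNat]
    try ring
  obtain ⟨v444, h444, h⟩ := h
  change v444 = v20 * v435 at h444
  obtain ⟨v445, h445, h⟩ := h
  change v445 = v370 * v444 at h445
  obtain ⟨v446, h446, h⟩ := h
  change v446 = v373 * v441 at h446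
  obtain ⟨d_x2b, e_d_x2b_d⟩ : ∃ q : ℂ, q = dB.x2b.dv m := ⟨_, rfl⟩
  have e_d_x2b_re : v445 = d_x2b.re := by
    rw [e_d_x2b_d]
    simp only [dB, Cf.dv, hor, dhor, h445, h444, h435, h434, h433, h421, h370, h141, h20, h19, h4, mul_re, mul_im, add_re, add_im, sub_re, sub_im, neg_re, neg_im, I_re, I_im, ofReal_re,
      ofReal_im, one_re, one_im, dt, normSq_apply, re_ofNat, im_ofNat]
    try ring
  have e_d_x2b_im : v446 = d_x2b.im := by
    rw [e_d_x2b_d]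
    simp only [dB, Cf.dv, hor, dhor, h446, h441, h440, h439, h438, h437, h436, h431, h373, h141, h19, h4, h1, mul_re, mul_im, add_re, add_im, sub_re, sub_im, neg_re, neg_im, I_re, I_im, ofReal_re,
      ofReal_im, one_re, one_im, dt, normSq_apply, re_ofNat, im_ofNat]
    try ring
  obtain ⟨v447, h447, h⟩ := h
  replace h447 : v447 = (9095 : ℝ) / 2 ^ 20 := by rw [h447]; norm_num [step, realAlg]
  obtain ⟨v448, h448, h⟩ := h
  change v448 = v141 * v447 at h448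
  obtain ⟨v449, h449, h⟩ := h
  replace h449 : v449 = (-30969 : ℝ) / 2 ^ 20 := by rw [h449]; norm_num [step, realAlg]
  obtain ⟨v450, h450, h⟩ := h
  change v450 = v449 - v448 at h450
  obtain ⟨v451, h451, h⟩ := h
  change v451 = v141 * v450 at h451
  obtain ⟨v452, h452, h⟩ := h
  replace h452 : v452 = (122079 : ℝ) / 2 ^ 20 := by rw [h452]; norm_num [step, realAlg]
  obtain ⟨v453, h453, h⟩ := h
  change v453 = v451 + v452 at h453
  obtain ⟨v454, h454, h⟩ := h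
  replace h454 : v454 = (413 : ℝ) / 2 ^ 20 := by rw [h454]; norm_num [step, realAlg]
  obtain ⟨v455, h455, h⟩ := h
  change v455 = v141 * v454 at h455
  obtain ⟨v456, h456, h⟩ := h
  replace h456 : v456 = (4839 : ℝ) / 2 ^ 18 := by rw [h456]; norm_num [step, realAlg]
  obtain ⟨v457, h457, h⟩ := h
  change v457 = v455 - v456 at h457
  obtain ⟨v458, h458, h⟩ := h
  change v458 = v141 * v457 at h458
  obtain ⟨v459, h459, h⟩ := h
  replace h459 : v459 = (1971 : ℝ) / 2 ^ 15 := by rw [h459]; norm_num [step, realAlg]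
  obtain ⟨v460, h460, h⟩ := h
  change v460 = v458 - v459 at h460
  obtain ⟨v461, h461, h⟩ := h
  replace h461 : v461 = (9095 : ℝ) / 2 ^ 19 := by rw [h461]; norm_num [step, realAlg]
  obtain ⟨v462, h462, h⟩ := h
  change v462 = v141 * v461 at h462
  obtain ⟨v463, h463, h⟩ := h
  change v463 = v449 - v462 at h463
  obtain ⟨v464, h464, h⟩ := h
  replace h464 : v464 = (2065 : ℝ) / 2 ^ 20 := by rw [h464]; norm_num [step, realAlg]
  obtain ⟨v465, h465, h⟩ := h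
  change v465 = v141 * v464 at h465
  obtain ⟨v466, h466, h⟩ := h
  replace h466 : v466 = (14517 : ℝ) / 2 ^ 18 := by rw [h466]; norm_num [step, realAlg]
  obtain ⟨v467, h467, h⟩ := h
  change v467 = v465 - v466 at h467
  obtain ⟨v468, h468, h⟩ := h
  change v468 = v141 * v467 at h468
  obtain ⟨v469, h469, h⟩ := h
  change v469 = v468 - v459 at h469
  obtain ⟨v470, h470, h⟩ := h
  change v470 = v19 * v460 at h470
  obtain ⟨v471, h471, h⟩ := h
  change v471 = v1 * v470 at h471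
  obtain ⟨c_xu, e_c_xu_d⟩ : ∃ q : ℂ, q = dB.xu.ev m := ⟨_, rfl⟩
  have e_c_xu_re : v453 = c_xu.re := by
    rw [e_c_xu_d]
    simp only [dB, Cf.ev, hor, h453, h452, h451, h450, h449, h448, h447, h141, h19, mul_re, mul_im, add_re, add_im, sub_re, sub_im, neg_re, neg_im, I_re, I_im, ofReal_re,
      ofReal_im, one_re, one_im, dt, normSq_apply, re_ofNat, im_ofNat]
    try ring
  have e_c_xu_im : v471 = c_xu.im := by
    rw [e_c_xu_d]
    simp only [dB, Cf.ev, hor, h471, h470, h460, h459, h458, h457, h456, h455, h454, h141, h19, h1, mul_re, mul_im, add_re, add_im, sub_re, sub_im, neg_re, neg_im, I_re, I_im, ofReal_re,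
      ofReal_im, one_re, one_im, dt, normSq_apply, re_ofNat, im_ofNat]
    try ring
  obtain ⟨v472, h472, h⟩ := h
  change v472 = v20 * v463 at h472
  obtain ⟨v473, h473, h⟩ := h
  change v473 = v370 * v472 at h473
  obtain ⟨v474, h474, h⟩ := h
  change v474 = v373 * v469 at h474
  obtain ⟨d_xu, e_d_xu_d⟩ : ∃ q : ℂ, q = dB.xu.dv m := ⟨_, rfl⟩
  have e_d_xu_re : v473 = d_xu.re := by
    rw [e_d_xu_d]
    simp only [dB, Cf.dv, hor, dhor, h473, h472, h463, h462, h461, h449, h370, h141, h20, h19, h4, mul_re, mul_im, add_re, add_im, sub_re, sub_im, neg_re, neg_im, I_re, I_im, ofReal_re,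
      ofReal_im, one_re, one_im, dt, normSq_apply, re_ofNat, im_ofNat]
    try ring
  have e_d_xu_im : v474 = d_xu.im := by
    rw [e_d_xu_d]
    simp only [dB, Cf.dv, hor, dhor, h474, h469, h468, h467, h466, h465, h464, h459, h373, h141, h19, h4, h1, mul_re, mul_im, add_re, add_im, sub_re, sub_im, neg_re, neg_im, I_re, I_im, ofReal_re,
      ofReal_im, one_re, one_im, dt, normSq_apply, re_ofNat, im_ofNat]
    try ring
  obtain ⟨v475, h475, h⟩ := h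
  replace h475 : v475 = (9151 : ℝ) / 2 ^ 20 := by rw [h475]; norm_num [step, realAlg]
  obtain ⟨v476, h476, h⟩ := h
  change v476 = v141 * v475 at h476
  obtain ⟨v477, h477, h⟩ := h
  replace h477 : v477 = (97979 : ℝ) / 2 ^ 20 := by rw [h477]; norm_num [step, realAlg]
  obtain ⟨v478, h478, h⟩ := h
  change v478 = v477 - v476 at h478
  obtain ⟨v479, h479, h⟩ := h
  change v479 = v141 * v478 at h479
  exact pQB_c12 m h1 h4 h8 h12 h13 h16 h19 h20 e_K_d e_S_d e_ys_d e_ys_re e_ys_im h34 e_cAv_d e_sAv_d e_oav_d e_obv_d e_vs_d e_vs_re e_vs_im e_ns_d e_ns_re e_ns_im e_k0_d e_F_d e_F_v e_pr_d e_bs_d e_wd_d e_wd_v h74 e_w_d e_w_v e_hh2_d e_c2_d e_V0_d e_V0_re e_V0_im e_V0f_d e_V0f_re e_V0f_im e_mm_d e_tkv_d e_pkv_d e_kc_d e_kq_d e_qv_d h141 e_t2_d e_cax_d e_cbu_d e_ae_d e_be_d e_be_re e_be_im e_a_d e_a_re e_a_im e_aeV_d e_DT_d e_gq_d e_sa_d e_sa_re e_sa_im e_fv1_d e_fv1_re e_fv1_im e_fvI_d e_fvI_im e_fvs_d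 e_zv_d e_zv_re e_zv_im e_bz_d e_kap_d e_g4_d e_gw_d e_D1_d e_D1_re e_D1_im e_DI_d e_DI_re e_DI_im e_Mq1_d e_Mq1_re e_Mq1_im e_MqI_d e_MqI_re e_MqI_im e_hc_d e_Lq1_d e_Lq1_re e_Lq1_im e_LqI_d e_LqI_re e_LqI_im e_io_d e_io_v e_c_xx_d e_c_xx_re e_c_xx_im h370 h373 e_d_xx_d e_d_xx_re e_d_xx_im e_c_xb_d e_c_xb_im e_d_xb_d e_d_xb_im e_c_x3_d e_c_x3_re e_c_x3_im e_d_x3_d e_d_x3_re e_d_x3_im e_c_x2b_d e_c_x2b_re e_c_x2b_im e_d_x2b_d e_d_x2b_re e_d_x2b_im h464 e_c_xu_d e_c_xu_re e_c_xu_im e_d_xu_d e_d_xu_re e_d_xu_im h475 h476 h477 h478 h479 h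

theorem pQB_c10 (m : ℝ) {v0 v1 v2 v3 v4 v5 v6 v7 v8 v9 v10 v11 v12 v13 v14 v15 v16 v17 v18 v19 v20 v21 v22 v23 K v24 v25 v26 v27 S v28 v29 v30 v31 : ℝ} {ys : ℂ} {v32 v33 v34 v35 cAv v36 v37 v38 sAv v39 v40 v41 v42 v43 v44 : ℝ} {oav : ℂ} {v45 v46 v47 v48 v49 v50 : ℝ} {obv : ℂ} {v51 v52 v53 v54 v55 v56 v57 v58 : ℝ} {vs : ℂ} {v59 v60 : ℝ} {ns : ℂ} {v61 v62 v63 k0 v64 F v65 v66 v67 v68 : ℝ} {pr : ℂ} {v69 v70 v71 : ℝ} {bs : ℂ} {v72 wd v73 v74 v75 w v76 hh2 v77 : ℝ} {c2 : ℂ} {v78 v79 : ℝ} {V0 : ℂ} {v80 v81 : ℝ} {V0f : ℂ} {v82 mm v83 v84 v85 v86 v87 v88 v89 v90 v91 v92 v93 v94 v95 v96 v97 v98 v99 v100 v101 v102 v103 v104 v105 v106 v107 v108 v109 v110 v111 v112 v113 v114 : ℝ} {tkv : ℂ} {v115 v116 v117 v118 v119 v120 v121 v122 v123 v124 v125 v126 v127 : ℝ} {pkv : ℂ} {v128 v129 v130 kc v131 v132 v133 v134 kq v135 v136 v137 v138 v139 v140 : ℝ} {qv : ℂ} {v141 t2 v142 v143 v144 v145 v146 v147 v148 v149 v150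 v151 v152 v153 v154 v155 v156 v157 v158 v159 v160 v161 v162 v163 v164 v165 v166 v167 v168 v169 : ℝ} {cax : ℂ} {v170 v171 v172 v173 v174 v175 v176 v177 v178 v179 v180 v181 v182 v183 v184 v185 v186 v187 v188 v189 v190 v191 v192 v193 v194 v195 v196 v197 : ℝ} {cbu ae be : ℂ} {v198 v199 : ℝ} {a : ℂ} {v200 v201 v202 v203 aeV v204 v205 v206 v207 v208 v209 v210 v211 v212 v213 v214 v215 v216 v217 v218 v219 : ℝ} {DT : ℂ} {v220 v221 v222 v223 v224 v225 v226 v227 v228 v229 v230 v231 gq v232 v233 v234 v235 v236 v237 v238 v239 v240 v241 : ℝ} {sa : ℂ} {v242 v243 v244 v245 v246 : ℝ} {fv1 : ℂ} {v247 v248 v249 : ℝ} {fvI : ℂ} {v250 v251 : ℝ} {fvs : ℂ} {v252 v253 : ℝ} {zv : ℂ} {v254 v255 v256 bz v257 v258 v259 v260 v261 v262 v263 v264 v265 v266 v267 v268 v269 v270 v271 v272 : ℝ} {kap : ℂ} {v273 g4 v274 gw v275 v276 v277 v278 v279 v280 v281 : ℝ} {D1 : ℂ} {v282 v283 v284 v285 v286 v287 : ℝ} {DI : ℂ} {v288 v289 v290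 v291 v292 v293 : ℝ} {Mq1 : ℂ} {v294 v295 v296 v297 v298 : ℝ} {MqI : ℂ} {v299 hc v300 v301 v302 v303 v304 v305 v306 v307 v308 v309 v310 v311 v312 v313 v314 v315 v316 v317 v318 v319 v320 : ℝ} {Lq1 : ℂ} {v321 v322 v323 v324 v325 v326 v327 v328 v329 v330 v331 v332 v333 v334 v335 v336 v337 : ℝ} {LqI : ℂ} {v338 v339 io v340 v341 v342 v343 v344 v345 v346 v347 v348 v349 v350 v351 v352 v353 v354 v355 v356 v357 v358 v359 v360 v361 v362 v363 v364 v365 v366 v367 v368 v369 : ℝ} {c_xx : ℂ} {v370 v371 v372 v373 v374 : ℝ} {d_xx : ℂ} {v375 v376 v377 v378 v379 v380 v381 v382 v383 v384 v385 v386 v387 v388 v389 : ℝ} {c_xb : ℂ} {v390 : ℝ} {d_xb : ℂ} {v391 v392 v393 v394 v395 v396 v397 v398 v399 : ℝ}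
    (h1 : v1 = s3)
    (h4 : v4 = 1 / m1)
    (h8 : v8 = oc)
    (h12 : v12 = 1 / oS m)
    (h13 : v13 = oR m)
    (h16 : v16 = 1 / 6)
    (h19 : v19 = m / m1)
    (h20 : v20 = (2 : ℝ))
    (e_K_d : K = oK)
    (e_S_d : S = oS m)
    (e_ys_d : ys = oy m)
    (e_ys_re : v29 = ys.re)
    (e_ys_im : v31 = ys.im)
    (h34 : v34 = (1 : ℝ) / 2 ^ 1)
    (e_cAv_d : cAv = cA)
    (e_sAv_d : sAv = sA)
    (e_oav_d : oav = oa m)
    (e_obv_d : obv = ob m)
    (e_vs_d : vs = ov m)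
    (e_vs_re : v57 = -vs.re)
    (e_vs_im : v58 = -vs.im)
    (e_ns_d : ns = oN m)
    (e_ns_re : v59 = -ns.re)
    (e_ns_im : v60 = -ns.im)
    (e_k0_d : k0 = dt (oy m) (oN m))
    (e_F_d : F = oF m)
    (e_F_v : v64 = F)
    (e_pr_d : pr = oy m - oN m * (k0 : ℂ))
    (e_bs_d : bs = oB m)
    (e_wd_d : wd = oK * (1 / oS m))
    (e_wd_v : v72 = wd)
    (h74 : v74 = (3 : ℝ))
    (e_w_d : w = 3 * oK * (1 / oS m) ^ 2)
    (e_w_v : v75 = w)
    (e_hh2_d : hh2 = 2 * (oK * (1 / oS m)))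
    (e_c2_d : c2 = (hh2 : ℂ) - oy m)
    (e_V0_d : V0 = oV m)
    (e_V0_re : v79 = V0.re)
    (e_V0_im : v78 = V0.im)
    (e_V0f_d : V0f = oV m / (oF m : ℂ))
    (e_V0f_re : v80 = V0f.re)
    (e_V0f_im : v81 = V0f.im)
    (e_mm_d : mm = m)
    (e_tkv_d : tkv = tk m)
    (e_pkv_d : pkv = pk m)
    (e_kc_d : kc = oc * (3 * (4 - Real.sqrt 2) / 4))
    (e_kq_d : kq = oS m * s3 * (1 / 27) * (1 / oK) ^ 2)
    (e_qv_d : qv = qy m)
    (h141 : v141 = v19 * v19)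
    (e_t2_d : t2 = (m / m1) ^ 2)
    (e_cax_d : cax = (dB.ax).ev m)
    (e_cbu_d : cbu = (dB.bu).ev m)
    (e_ae_d : ae = dB.ae m)
    (e_be_d : be = dB.be m)
    (e_be_re : v197 = be.re)
    (e_be_im : v182 = be.im)
    (e_a_d : a = qy m + dB.ae m)
    (e_a_re : v198 = a.re)
    (e_a_im : v199 = a.im)
    (e_aeV_d : aeV = dt (dB.ae m) (oV m) / oF m)
    (e_DT_d : DT = DVT (oy m) (qy m + dB.ae m))
    (e_gq_d : gq = aeV - 2 * oc * oR m ^ 2 + dt be (bs - (oR m : ℂ) * (I * ns)))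
    (e_sa_d : sa = (dB.pt m).sa)
    (e_sa_re : v240 = sa.re)
    (e_sa_im : v241 = -sa.im)
    (e_fv1_d : fv1 = (dB.pt m).fv 1)
    (e_fv1_re : v244 = fv1.re)
    (e_fv1_im : v246 = -fv1.im)
    (e_fvI_d : fvI = (dB.pt m).fv I)
    (e_fvI_im : v249 = fvI.im)
    (e_fvs_d : fvs = (oy m - ((dt (oy m) (oN m) : ℝ) : ℂ) * oN m) / (oR m : ℂ))
    (e_zv_d : zv = I * ov m - oB m)
    (e_zv_re : v252 = zv.re)
    (e_zv_im : v253 = zv.im)
    (e_bz_d : bz = dt (dB.be m) (I * ov m - oB m))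
    (e_kap_d : kap = (dB.pt m).kap)
    (e_g4_d : g4 = -4 * (oK * (1 / oS m)))
    (e_gw_d : gw = 4 * (oK * (1 / oS m)) ^ 2)
    (e_D1_d : D1 = (dB.pt m).DV 1)
    (e_D1_re : v276 = -D1.re)
    (e_D1_im : v281 = D1.im)
    (e_DI_d : DI = (dB.pt m).DV I)
    (e_DI_re : v286 = DI.re)
    (e_DI_im : v287 = -DI.im)
    (e_Mq1_d : Mq1 = (dB.pt m).M 1)
    (e_Mq1_re : v290 = Mq1.re)
    (e_Mq1_im : v293 = Mq1.im)
    (e_MqI_d : MqI = (dB.pt m).M I)
    (e_MqI_re : v295 = MqI.re)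
    (e_MqI_im : v298 = MqI.im)
    (e_hc_d : hc = 1 / 2 - oc)
    (e_Lq1_d : Lq1 = (dB.pt m).L 1)
    (e_Lq1_re : v319 = Lq1.re)
    (e_Lq1_im : v320 = Lq1.im)
    (e_LqI_d : LqI = (dB.pt m).L I)
    (e_LqI_re : v336 = LqI.re)
    (e_LqI_im : v337 = LqI.im)
    (e_io_d : io = 1 / osd m)
    (e_io_v : v339 = io)
    (e_c_xx_d : c_xx = dB.xx.ev m)
    (e_c_xx_re : v349 = c_xx.re)
    (e_c_xx_im : v369 = c_xx.im)
    (h370 : v370 = v4 * v19)
    (h373 : v373 = v1 * v4)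
    (e_d_xx_d : d_xx = dB.xx.dv m)
    (e_d_xx_re : v372 = d_xx.re)
    (e_d_xx_im : v374 = d_xx.im)
    (e_c_xb_d : c_xb = dB.xb.ev m)
    (e_c_xb_im : v389 = c_xb.im)
    (e_d_xb_d : d_xb = dB.xb.dv m)
    (e_d_xb_im : v390 = d_xb.im)
    (h391 : v391 = (569 : ℝ) / 2 ^ 19)
    (h392 : v392 = v141 * v391)
    (h393 : v393 = (511 : ℝ) / 2 ^ 19)
    (h394 : v394 = v393 - v392)
    (h395 : v395 = v141 * v394)
    (h396 : v396 = (5869 : ℝ) / 2 ^ 19)
    (h397 : v397 = v395 - v396)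
    (h398 : v398 = (73 : ℝ) / 2 ^ 17)
    (h399 : v399 = v141 * v398)
    (h : TrE (realAlg (fun i => get 0 (l1 μB m) i) (m / m1) 0) (pQB.drop 400) [v399, v398, v397, v396, v395, v394, v393, v392, v391, v390, v389, v388, v387, v386, v385, v384, v383, v382, v381, v380, v379, v378, v377, v376, v375, v374, v373, v372, v371, v370, v369, v368, v367, v366, v365, v364, v363, v362, v361, v360, v359, v358, v357, v356, v355, v354, v353, v352, v351, v350, v349, v348, v347, v346, v345, v344, v343, v342, v341, v340, v339, v338, v337, v336, v335, v334, v333, v332, v331, v330, v329, v328, v327, v326, v325, v324, v323, v322, v321, v320, v319, v318, v317, v316, v315, v314, v313, v312, v311, v310, v309, v308, v307, v306, v305, v304, v303, v302, v301, v300, v299, v298, v297, v296, v295, v294, v293, v292, v291, v290, v289, v288, v287, v286, v285, v284, v283, v282, v281, v280, v279, v278, v277, v276, v275, v274,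 v273, v272, v271, v270, v269, v268, v267, v266, v265, v264, v263, v262, v261, v260, v259, v258, v257, v256, v255, v254, v253, v252, v251, v250, v249, v248, v247, v246, v245, v244, v243, v242, v241, v240, v239, v238, v237, v236, v235, v234, v233, v232, v231, v230, v229, v228, v227, v226, v225, v224, v223, v222, v221, v220, v219, v218, v217, v216, v215, v214, v213, v212, v211, v210, v209, v208, v207, v206, v205, v204, v203, v202, v201, v200, v199, v198, v197, v196, v195, v194, v193, v192, v191, v190, v189, v188, v187, v186, v185, v184, v183, v182, v181, v180, v179, v178, v177, v176, v175, v174, v173, v172, v171, v170, v169, v168, v167, v166, v165, v164, v163, v162, v161, v160, v159, v158, v157, v156, v155, v154, v153, v152, v151, v150, v149, v148, v147, v146, v145, v144, v143, v142, v141, v140, v139, v138, v137, v136, v135, v134, v133, v132, v131, v130, v129, v128, v127, v126, v125, v124, v123,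 v122, v121, v120, v119, v118, v117, v116, v115, v114, v113, v112, v111, v110, v109, v108, v107, v106, v105, v104, v103, v102, v101, v100, v99, v98, v97, v96, v95, v94, v93, v92, v91, v90, v89, v88, v87, v86, v85, v84, v83, v82, v81, v80, v79, v78, v77, v76, v75, v74, v73, v72, v71, v70, v69, v68, v67, v66, v65, v64, v63, v62, v61, v60, v59, v58, v57, v56, v55, v54, v53, v52, v51, v50, v49, v48, v47, v46, v45, v44, v43, v42, v41, v40, v39, v38, v37, v36, v35, v34, v33, v32, v31, v30, v29, v28, v27, v26, v25, v24, v23, v22, v21, v20, v19, v18, v17, v16, v15, v14, v13, v12, v11, v10, v9, v8, v7, v6, v5, v4, v3, v2, v1, v0] (fun st => run (realAlg (fun i => get 0 (l1 μB m) i) (m / m1) 0) pQB [] = st)) :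
    pQB_goal m := by
  have hm1 : m1 ≠ 0 := m1_ne
  obtain ⟨v400, h400, h⟩ := h
  replace h400 : v400 = (4713 : ℝ) / 2 ^ 20 := by rw [h400]; norm_num [step, realAlg]
  obtain ⟨v401, h401, h⟩ := h
  change v401 = v399 - v400 at h401
  obtain ⟨v402, h402, h⟩ := h
  change v402 = v141 * v401 at h402
  obtain ⟨v403, h403, h⟩ := h
  replace h403 : v403 = (4129 : ℝ) / 2 ^ 20 := by rw [h403]; norm_num [step, realAlg]
  obtain ⟨v404, h404, h⟩ := h
  change v404 = v402 + v403 at h404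
  obtain ⟨v405, h405, h⟩ := h
  replace h405 : v405 = (569 : ℝ) / 2 ^ 18 := by rw [h405]; norm_num [step, realAlg]
  obtain ⟨v406, h406, h⟩ := h
  change v406 = v141 * v405 at h406
  obtain ⟨v407, h407, h⟩ := h
  change v407 = v393 - v406 at h407
  obtain ⟨v408, h408, h⟩ := h
  replace h408 : v408 = (365 : ℝ) / 2 ^ 17 := by rw [h408]; norm_num [step, realAlg]
  obtain ⟨v409, h409, h⟩ := h
  change v409 = v141 * v408 at h409
  obtain ⟨v410, h410, h⟩ := h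
  replace h410 : v410 = (14139 : ℝ) / 2 ^ 20 := by rw [h410]; norm_num [step, realAlg]
  obtain ⟨v411, h411, h⟩ := h
  change v411 = v409 - v410 at h411
  obtain ⟨v412, h412, h⟩ := h
  change v412 = v141 * v411 at h412
  obtain ⟨v413, h413, h⟩ := h
  change v413 = v412 + v403 at h413
  obtain ⟨v414, h414, h⟩ := h
  change v414 = v19 * v404 at h414
  obtain ⟨v415, h415, h⟩ := h
  change v415 = v1 * v414 at h415
  obtain ⟨c_x3, e_c_x3_d⟩ : ∃ q : ℂ, q = dB.x3.ev m := ⟨_, rfl⟩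
  have e_c_x3_re : v397 = c_x3.re := by
    rw [e_c_x3_d]
    simp only [dB, Cf.ev, hor, h397, h396, h395, h394, h393, h392, h391, h141, h19, mul_re, mul_im, add_re, add_im, sub_re, sub_im, neg_re, neg_im, I_re, I_im, ofReal_re,
      ofReal_im, one_re, one_im, dt, normSq_apply, re_ofNat, im_ofNat]
    try ring
  have e_c_x3_im : v415 = c_x3.im := by
    rw [e_c_x3_d]
    simp only [dB, Cf.ev, hor, h415, h414, h404, h403, h402, h401, h400, h399, h398, h141, h19, h1, mul_re, mul_im, add_re, add_im, sub_re, sub_im, neg_re, neg_im, I_re, I_im, ofReal_re,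
      ofReal_im, one_re, one_im, dt, normSq_apply, re_ofNat, im_ofNat]
    try ring
  obtain ⟨v416, h416, h⟩ := h
  change v416 = v20 * v407 at h416
  obtain ⟨v417, h417, h⟩ := h
  change v417 = v370 * v416 at h417
  obtain ⟨v418, h418, h⟩ := h
  change v418 = v373 * v413 at h418
  obtain ⟨d_x3, e_d_x3_d⟩ : ∃ q : ℂ, q = dB.x3.dv m := ⟨_, rfl⟩
  have e_d_x3_re : v417 = d_x3.re := by
    rw [e_d_x3_d]
    simp only [dB, Cf.dv, hor, dhor, h417, h416, h407, h406, h405, h393, h370, h141, h20, h19, h4, mul_re, mul_im, add_re, add_im, sub_re, sub_im, neg_re, neg_im, I_re, I_im, ofReal_re,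
      ofReal_im, one_re, one_im, dt, normSq_apply, re_ofNat, im_ofNat]
    try ring
  have e_d_x3_im : v418 = d_x3.im := by
    rw [e_d_x3_d]
    simp only [dB, Cf.dv, hor, dhor, h418, h413, h412, h411, h410, h409, h408, h403, h373, h141, h19, h4, h1, mul_re, mul_im, add_re, add_im, sub_re, sub_im, neg_re, neg_im, I_re, I_im, ofReal_re,
      ofReal_im, one_re, one_im, dt, normSq_apply, re_ofNat, im_ofNat]
    try ring
  obtain ⟨v419, h419, h⟩ := h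
  replace h419 : v419 = (1437 : ℝ) / 2 ^ 18 := by rw [h419]; norm_num [step, realAlg]
  obtain ⟨v420, h420, h⟩ := h
  change v420 = v141 * v419 at h420
  obtain ⟨v421, h421, h⟩ := h
  replace h421 : v421 = (-387 : ℝ) / 2 ^ 16 := by rw [h421]; norm_num [step, realAlg]
  obtain ⟨v422, h422, h⟩ := h
  change v422 = v421 - v420 at h422
  obtain ⟨v423, h423, h⟩ := h
  change v423 = v141 * v422 at h423
  obtain ⟨v424, h424, h⟩ := h
  replace h424 : v424 = (6003 : ℝ) / 2 ^ 19 := by rw [h424]; norm_num [step, realAlg]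
  obtain ⟨v425, h425, h⟩ := h
  change v425 = v423 + v424 at h425
  obtain ⟨v426, h426, h⟩ := h
  replace h426 : v426 = (1601 : ℝ) / 2 ^ 20 := by rw [h426]; norm_num [step, realAlg]
  obtain ⟨v427, h427, h⟩ := h
  change v427 = v141 * v426 at h427
  obtain ⟨v428, h428, h⟩ := h
  replace h428 : v428 = (435 : ℝ) / 2 ^ 18 := by rw [h428]; norm_num [step, realAlg]
  obtain ⟨v429, h429, h⟩ := h
  change v429 = v427 + v428 at h429
  obtain ⟨v430, h430, h⟩ := h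
  change v430 = v141 * v429 at h430
  obtain ⟨v431, h431, h⟩ := h
  replace h431 : v431 = (3275 : ℝ) / 2 ^ 20 := by rw [h431]; norm_num [step, realAlg]
  obtain ⟨v432, h432, h⟩ := h
  change v432 = v430 - v431 at h432
  obtain ⟨v433, h433, h⟩ := h
  replace h433 : v433 = (1437 : ℝ) / 2 ^ 17 := by rw [h433]; norm_num [step, realAlg]
  obtain ⟨v434, h434, h⟩ := h
  change v434 = v141 * v433 at h434
  obtain ⟨v435, h435, h⟩ := h
  change v435 = v421 - v434 at h435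
  obtain ⟨v436, h436, h⟩ := h
  replace h436 : v436 = (8005 : ℝ) / 2 ^ 20 := by rw [h436]; norm_num [step, realAlg]
  obtain ⟨v437, h437, h⟩ := h
  change v437 = v141 * v436 at h437
  obtain ⟨v438, h438, h⟩ := h
  replace h438 : v438 = (1305 : ℝ) / 2 ^ 18 := by rw [h438]; norm_num [step, realAlg]
  obtain ⟨v439, h439, h⟩ := h
  change v439 = v437 + v438 at h439
  exact pQB_c11 m h1 h4 h8 h12 h13 h16 h19 h20 e_K_d e_S_d e_ys_d e_ys_re e_ys_im h34 e_cAv_d e_sAv_d e_oav_d e_obv_d e_vs_d e_vs_re e_vs_im e_ns_d e_ns_re e_ns_im e_k0_d e_F_d e_F_v e_pr_d e_bs_d e_wd_d e_wd_v h74 e_w_d e_w_v e_hh2_d e_c2_d e_V0_d e_V0_re e_V0_im e_V0f_d e_V0f_re e_V0f_im e_mm_d e_tkv_d e_pkv_d e_kc_d e_kq_d e_qv_d h141 e_t2_d e_cax_d e_cbu_d e_ae_d e_be_d e_be_re e_be_im e_a_d e_a_re e_a_im e_aeV_d e_DT_d e_gq_d e_sa_d e_sa_re e_sa_im e_fv1_d e_fv1_re e_fv1_im e_fvI_d e_fvI_im e_fvs_d e_zv_d e_zv_re e_zv_im e_bz_d e_kap_d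 e_g4_d e_gw_d e_D1_d e_D1_re e_D1_im e_DI_d e_DI_re e_DI_im e_Mq1_d e_Mq1_re e_Mq1_im e_MqI_d e_MqI_re e_MqI_im e_hc_d e_Lq1_d e_Lq1_re e_Lq1_im e_LqI_d e_LqI_re e_LqI_im e_io_d e_io_v e_c_xx_d e_c_xx_re e_c_xx_im h370 h373 e_d_xx_d e_d_xx_re e_d_xx_im e_c_xb_d e_c_xb_im e_d_xb_d e_d_xb_im e_c_x3_d e_c_x3_re e_c_x3_im e_d_x3_d e_d_x3_re e_d_x3_im h419 h420 h421 h422 h423 h424 h425 h426 h427 h428 h429 h430 h431 h432 h433 h434 h435 h436 h437 h438 h439 h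

theorem pQB_c9 (m : ℝ) {v0 v1 v2 v3 v4 v5 v6 v7 v8 v9 v10 v11 v12 v13 v14 v15 v16 v17 v18 v19 v20 v21 v22 v23 K v24 v25 v26 v27 S v28 v29 v30 v31 : ℝ} {ys : ℂ} {v32 v33 v34 v35 cAv v36 v37 v38 sAv v39 v40 v41 v42 v43 v44 : ℝ} {oav : ℂ} {v45 v46 v47 v48 v49 v50 : ℝ} {obv : ℂ} {v51 v52 v53 v54 v55 v56 v57 v58 : ℝ} {vs : ℂ} {v59 v60 : ℝ} {ns : ℂ} {v61 v62 v63 k0 v64 F v65 v66 v67 v68 : ℝ} {pr : ℂ} {v69 v70 v71 : ℝ} {bs : ℂ} {v72 wd v73 v74 v75 w v76 hh2 v77 : ℝ} {c2 : ℂ} {v78 v79 : ℝ} {V0 : ℂ} {v80 v81 : ℝ} {V0f : ℂ} {v82 mm v83 v84 v85 v86 v87 v88 v89 v90 v91 v92 v93 v94 v95 v96 v97 v98 v99 v100 v101 v102 v103 v104 v105 v106 v107 v108 v109 v110 v111 v112 v113 v114 : ℝ} {tkv : ℂ} {v115 v116 v117 v118 v119 v120 v121 v122 v123 v124 v125 v126 v127 : ℝ} {pkv : ℂ} {v128 v129 v130 kc v131 v132 v133 v134 kq v135 v136 v137 v138 v139 v140 : ℝ} {qv : ℂ} {v141 t2 v142 v143 v144 v145 v146 v147 v148 v149 v150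 v151 v152 v153 v154 v155 v156 v157 v158 v159 v160 v161 v162 v163 v164 v165 v166 v167 v168 v169 : ℝ} {cax : ℂ} {v170 v171 v172 v173 v174 v175 v176 v177 v178 v179 v180 v181 v182 v183 v184 v185 v186 v187 v188 v189 v190 v191 v192 v193 v194 v195 v196 v197 : ℝ} {cbu ae be : ℂ} {v198 v199 : ℝ} {a : ℂ} {v200 v201 v202 v203 aeV v204 v205 v206 v207 v208 v209 v210 v211 v212 v213 v214 v215 v216 v217 v218 v219 : ℝ} {DT : ℂ} {v220 v221 v222 v223 v224 v225 v226 v227 v228 v229 v230 v231 gq v232 v233 v234 v235 v236 v237 v238 v239 v240 v241 : ℝ} {sa : ℂ} {v242 v243 v244 v245 v246 : ℝ} {fv1 : ℂ} {v247 v248 v249 : ℝ} {fvI : ℂ} {v250 v251 : ℝ} {fvs : ℂ} {v252 v253 : ℝ} {zv : ℂ} {v254 v255 v256 bz v257 v258 v259 v260 v261 v262 v263 v264 v265 v266 v267 v268 v269 v270 v271 v272 : ℝ} {kap : ℂ} {v273 g4 v274 gw v275 v276 v277 v278 v279 v280 v281 : ℝ} {D1 : ℂ} {v282 v283 v284 v285 v286 v287 : ℝ} {DI : ℂ} {v288 v289 v290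 v291 v292 v293 : ℝ} {Mq1 : ℂ} {v294 v295 v296 v297 v298 : ℝ} {MqI : ℂ} {v299 hc v300 v301 v302 v303 v304 v305 v306 v307 v308 v309 v310 v311 v312 v313 v314 v315 v316 v317 v318 v319 v320 : ℝ} {Lq1 : ℂ} {v321 v322 v323 v324 v325 v326 v327 v328 v329 v330 v331 v332 v333 v334 v335 v336 v337 : ℝ} {LqI : ℂ} {v338 v339 io v340 v341 v342 v343 v344 v345 v346 v347 v348 v349 v350 v351 v352 v353 v354 v355 v356 v357 v358 v359 : ℝ}
    (h1 : v1 = s3)
    (h4 : v4 = 1 / m1)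
    (h8 : v8 = oc)
    (h12 : v12 = 1 / oS m)
    (h13 : v13 = oR m)
    (h16 : v16 = 1 / 6)
    (h18 : v18 = pj μB)
    (h19 : v19 = m / m1)
    (h20 : v20 = (2 : ℝ))
    (e_K_d : K = oK)
    (e_S_d : S = oS m)
    (e_ys_d : ys = oy m)
    (e_ys_re : v29 = ys.re)
    (e_ys_im : v31 = ys.im)
    (h34 : v34 = (1 : ℝ) / 2 ^ 1)
    (e_cAv_d : cAv = cA)
    (e_sAv_d : sAv = sA)
    (e_oav_d : oav = oa m)
    (e_obv_d : obv = ob m)
    (e_vs_d : vs = ov m)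
    (e_vs_re : v57 = -vs.re)
    (e_vs_im : v58 = -vs.im)
    (e_ns_d : ns = oN m)
    (e_ns_re : v59 = -ns.re)
    (e_ns_im : v60 = -ns.im)
    (e_k0_d : k0 = dt (oy m) (oN m))
    (e_F_d : F = oF m)
    (e_F_v : v64 = F)
    (e_pr_d : pr = oy m - oN m * (k0 : ℂ))
    (e_bs_d : bs = oB m)
    (e_wd_d : wd = oK * (1 / oS m))
    (e_wd_v : v72 = wd)
    (h74 : v74 = (3 : ℝ))
    (e_w_d : w = 3 * oK * (1 / oS m) ^ 2)
    (e_w_v : v75 = w)
    (e_hh2_d : hh2 = 2 * (oK * (1 / oS m)))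
    (e_c2_d : c2 = (hh2 : ℂ) - oy m)
    (e_V0_d : V0 = oV m)
    (e_V0_re : v79 = V0.re)
    (e_V0_im : v78 = V0.im)
    (e_V0f_d : V0f = oV m / (oF m : ℂ))
    (e_V0f_re : v80 = V0f.re)
    (e_V0f_im : v81 = V0f.im)
    (e_mm_d : mm = m)
    (e_tkv_d : tkv = tk m)
    (e_pkv_d : pkv = pk m)
    (e_kc_d : kc = oc * (3 * (4 - Real.sqrt 2) / 4))
    (e_kq_d : kq = oS m * s3 * (1 / 27) * (1 / oK) ^ 2)
    (e_qv_d : qv = qy m)
    (h141 : v141 = v19 * v19)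
    (e_t2_d : t2 = (m / m1) ^ 2)
    (e_cax_d : cax = (dB.ax).ev m)
    (e_cbu_d : cbu = (dB.bu).ev m)
    (e_ae_d : ae = dB.ae m)
    (e_be_d : be = dB.be m)
    (e_be_re : v197 = be.re)
    (e_be_im : v182 = be.im)
    (e_a_d : a = qy m + dB.ae m)
    (e_a_re : v198 = a.re)
    (e_a_im : v199 = a.im)
    (e_aeV_d : aeV = dt (dB.ae m) (oV m) / oF m)
    (e_DT_d : DT = DVT (oy m) (qy m + dB.ae m))
    (e_gq_d : gq = aeV - 2 * oc * oR m ^ 2 + dt be (bs - (oR m : ℂ) * (I * ns)))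
    (e_sa_d : sa = (dB.pt m).sa)
    (e_sa_re : v240 = sa.re)
    (e_sa_im : v241 = -sa.im)
    (e_fv1_d : fv1 = (dB.pt m).fv 1)
    (e_fv1_re : v244 = fv1.re)
    (e_fv1_im : v246 = -fv1.im)
    (e_fvI_d : fvI = (dB.pt m).fv I)
    (e_fvI_im : v249 = fvI.im)
    (e_fvs_d : fvs = (oy m - ((dt (oy m) (oN m) : ℝ) : ℂ) * oN m) / (oR m : ℂ))
    (e_zv_d : zv = I * ov m - oB m)
    (e_zv_re : v252 = zv.re)
    (e_zv_im : v253 = zv.im)
    (e_bz_d : bz = dt (dB.be m) (I * ov m - oB m))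
    (e_kap_d : kap = (dB.pt m).kap)
    (e_g4_d : g4 = -4 * (oK * (1 / oS m)))
    (e_gw_d : gw = 4 * (oK * (1 / oS m)) ^ 2)
    (e_D1_d : D1 = (dB.pt m).DV 1)
    (e_D1_re : v276 = -D1.re)
    (e_D1_im : v281 = D1.im)
    (e_DI_d : DI = (dB.pt m).DV I)
    (e_DI_re : v286 = DI.re)
    (e_DI_im : v287 = -DI.im)
    (e_Mq1_d : Mq1 = (dB.pt m).M 1)
    (e_Mq1_re : v290 = Mq1.re)
    (e_Mq1_im : v293 = Mq1.im)
    (e_MqI_d : MqI = (dB.pt m).M I)
    (e_MqI_re : v295 = MqI.re)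
    (e_MqI_im : v298 = MqI.im)
    (e_hc_d : hc = 1 / 2 - oc)
    (e_Lq1_d : Lq1 = (dB.pt m).L 1)
    (e_Lq1_re : v319 = Lq1.re)
    (e_Lq1_im : v320 = Lq1.im)
    (e_LqI_d : LqI = (dB.pt m).L I)
    (e_LqI_re : v336 = LqI.re)
    (e_LqI_im : v337 = LqI.im)
    (e_io_d : io = 1 / osd m)
    (e_io_v : v339 = io)
    (h340 : v340 = (1 : ℝ) / 2 ^ 2)
    (h341 : v341 = v18 * v340)
    (h342 : v342 = (2075 : ℝ) / 2 ^ 18)
    (h343 : v343 = v342 - v341)
    (h344 : v344 = v141 * v343)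
    (h345 : v345 = (981 : ℝ) / 2 ^ 16)
    (h346 : v346 = v344 + v345)
    (h347 : v347 = v141 * v346)
    (h348 : v348 = (5999 : ℝ) / 2 ^ 18)
    (h349 : v349 = v347 - v348)
    (h350 : v350 = (2065 : ℝ) / 2 ^ 19)
    (h351 : v351 = v341 - v350)
    (h352 : v352 = v141 * v351)
    (h353 : v353 = (3153 : ℝ) / 2 ^ 20)
    (h354 : v354 = v352 - v353)
    (h355 : v355 = v141 * v354)
    (h356 : v356 = (7283 : ℝ) / 2 ^ 20)
    (h357 : v357 = v355 + v356)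
    (h358 : v358 = v20 * v343)
    (h359 : v359 = v141 * v358)
    (h : TrE (realAlg (fun i => get 0 (l1 μB m) i) (m / m1) 0) (pQB.drop 360) [v359, v358, v357, v356, v355, v354, v353, v352, v351, v350, v349, v348, v347, v346, v345, v344, v343, v342, v341, v340, v339, v338, v337, v336, v335, v334, v333, v332, v331, v330, v329, v328, v327, v326, v325, v324, v323, v322, v321, v320, v319, v318, v317, v316, v315, v314, v313, v312, v311, v310, v309, v308, v307, v306, v305, v304, v303, v302, v301, v300, v299, v298, v297, v296, v295, v294, v293, v292, v291, v290, v289, v288, v287, v286, v285, v284, v283, v282, v281, v280, v279, v278, v277, v276, v275, v274, v273, v272, v271, v270, v269, v268, v267, v266, v265, v264, v263, v262, v261, v260, v259, v258, v257, v256, v255, v254, v253, v252, v251, v250, v249, v248, v247, v246, v245, v244, v243, v242, v241, v240, v239, v238, v237, v236, v235, v234, v233, v232,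 v231, v230, v229, v228, v227, v226, v225, v224, v223, v222, v221, v220, v219, v218, v217, v216, v215, v214, v213, v212, v211, v210, v209, v208, v207, v206, v205, v204, v203, v202, v201, v200, v199, v198, v197, v196, v195, v194, v193, v192, v191, v190, v189, v188, v187, v186, v185, v184, v183, v182, v181, v180, v179, v178, v177, v176, v175, v174, v173, v172, v171, v170, v169, v168, v167, v166, v165, v164, v163, v162, v161, v160, v159, v158, v157, v156, v155, v154, v153, v152, v151, v150, v149, v148, v147, v146, v145, v144, v143, v142, v141, v140, v139, v138, v137, v136, v135, v134, v133, v132, v131, v130, v129, v128, v127, v126, v125, v124, v123, v122, v121, v120, v119, v118, v117, v116, v115, v114, v113, v112, v111, v110, v109, v108, v107, v106, v105, v104, v103, v102, v101, v100, v99, v98, v97, v96, v95, v94, v93, v92, v91, v90, v89, v88, v87, v86, v85, v84, v83, v82, v81, v80, v79, v78, v77,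 v76, v75, v74, v73, v72, v71, v70, v69, v68, v67, v66, v65, v64, v63, v62, v61, v60, v59, v58, v57, v56, v55, v54, v53, v52, v51, v50, v49, v48, v47, v46, v45, v44, v43, v42, v41, v40, v39, v38, v37, v36, v35, v34, v33, v32, v31, v30, v29, v28, v27, v26, v25, v24, v23, v22, v21, v20, v19, v18, v17, v16, v15, v14, v13, v12, v11, v10, v9, v8, v7, v6, v5, v4, v3, v2, v1, v0] (fun st => run (realAlg (fun i => get 0 (l1 μB m) i) (m / m1) 0) pQB [] = st)) :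
    pQB_goal m := by
  have hm1 : m1 ≠ 0 := m1_ne
  obtain ⟨v360, h360, h⟩ := h
  change v360 = v359 + v345 at h360
  obtain ⟨v361, h361, h⟩ := h
  replace h361 : v361 = (5 : ℝ) := by rw [h361]; norm_num [step, realAlg]
  obtain ⟨v362, h362, h⟩ := h
  change v362 = v351 * v361 at h362
  obtain ⟨v363, h363, h⟩ := h
  change v363 = v141 * v362 at h363
  obtain ⟨v364, h364, h⟩ := h
  replace h364 : v364 = (9459 : ℝ) / 2 ^ 20 := by rw [h364]; norm_num [step, realAlg]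
  obtain ⟨v365, h365, h⟩ := h
  change v365 = v363 - v364 at h365
  obtain ⟨v366, h366, h⟩ := h
  change v366 = v141 * v365 at h366
  obtain ⟨v367, h367, h⟩ := h
  change v367 = v366 + v356 at h367
  obtain ⟨v368, h368, h⟩ := h
  change v368 = v19 * v357 at h368
  obtain ⟨v369, h369, h⟩ := h
  change v369 = v1 * v368 at h369
  obtain ⟨c_xx, e_c_xx_d⟩ : ∃ q : ℂ, q = dB.xx.ev m := ⟨_, rfl⟩
  have e_c_xx_re : v349 = c_xx.re := by
    rw [e_c_xx_d]
    simp only [dB, Cf.ev, hor, h349, h348, h347, h346, h345, h344, h343, h342, h341, h340, h141, h19, h18, mul_re, mul_im, add_re, add_im, sub_re, sub_im, neg_re, neg_im, I_re, I_im, ofReal_re,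
      ofReal_im, one_re, one_im, dt, normSq_apply, re_ofNat, im_ofNat]
    try ring
  have e_c_xx_im : v369 = c_xx.im := by
    rw [e_c_xx_d]
    simp only [dB, Cf.ev, hor, h369, h368, h357, h356, h355, h354, h353, h352, h351, h350, h341, h340, h141, h19, h18, h1, mul_re, mul_im, add_re, add_im, sub_re, sub_im, neg_re, neg_im, I_re, I_im, ofReal_re,
      ofReal_im, one_re, one_im, dt, normSq_apply, re_ofNat, im_ofNat]
    try ring
  obtain ⟨v370, h370, h⟩ := h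
  change v370 = v4 * v19 at h370
  obtain ⟨v371, h371, h⟩ := h
  change v371 = v20 * v360 at h371
  obtain ⟨v372, h372, h⟩ := h
  change v372 = v370 * v371 at h372
  obtain ⟨v373, h373, h⟩ := h
  change v373 = v1 * v4 at h373
  obtain ⟨v374, h374, h⟩ := h
  change v374 = v367 * v373 at h374
  obtain ⟨d_xx, e_d_xx_d⟩ : ∃ q : ℂ, q = dB.xx.dv m := ⟨_, rfl⟩
  have e_d_xx_re : v372 = d_xx.re := by
    rw [e_d_xx_d]
    simp only [dB, Cf.dv, hor, dhor, h372, h371, h370, h360, h359, h358, h345, h343, h342, h341, h340, h141, h20, h19, h18, h4, mul_re, mul_im, add_re, add_im, sub_re, sub_im, neg_re, neg_im, I_re, I_im, ofReal_re,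
      ofReal_im, one_re, one_im, dt, normSq_apply, re_ofNat, im_ofNat]
    try ring
  have e_d_xx_im : v374 = d_xx.im := by
    rw [e_d_xx_d]
    simp only [dB, Cf.dv, hor, dhor, h374, h373, h367, h366, h365, h364, h363, h362, h361, h356, h351, h350, h341, h340, h141, h19, h18, h4, h1, mul_re, mul_im, add_re, add_im, sub_re, sub_im, neg_re, neg_im, I_re, I_im, ofReal_re,
      ofReal_im, one_re, one_im, dt, normSq_apply, re_ofNat, im_ofNat]
    try ring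
  obtain ⟨v375, h375, h⟩ := h
  replace h375 : v375 = (181 : ℝ) / 2 ^ 20 := by rw [h375]; norm_num [step, realAlg]
  obtain ⟨v376, h376, h⟩ := h
  change v376 = v141 * v375 at h376
  obtain ⟨v377, h377, h⟩ := h
  replace h377 : v377 = (8087 : ℝ) / 2 ^ 20 := by rw [h377]; norm_num [step, realAlg]
  obtain ⟨v378, h378, h⟩ := h
  change v378 = v376 - v377 at h378
  obtain ⟨v379, h379, h⟩ := h
  change v379 = v141 * v378 at h379
  obtain ⟨v380, h380, h⟩ := h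
  replace h380 : v380 = (3953 : ℝ) / 2 ^ 19 := by rw [h380]; norm_num [step, realAlg]
  obtain ⟨v381, h381, h⟩ := h
  change v381 = v379 + v380 at h381
  obtain ⟨v382, h382, h⟩ := h
  replace h382 : v382 = (905 : ℝ) / 2 ^ 20 := by rw [h382]; norm_num [step, realAlg]
  obtain ⟨v383, h383, h⟩ := h
  change v383 = v141 * v382 at h383
  obtain ⟨v384, h384, h⟩ := h
  replace h384 : v384 = (24261 : ℝ) / 2 ^ 20 := by rw [h384]; norm_num [step, realAlg]
  obtain ⟨v385, h385, h⟩ := h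
  change v385 = v383 - v384 at h385
  obtain ⟨v386, h386, h⟩ := h
  change v386 = v141 * v385 at h386
  obtain ⟨v387, h387, h⟩ := h
  change v387 = v386 + v380 at h387
  obtain ⟨v388, h388, h⟩ := h
  change v388 = v19 * v381 at h388
  obtain ⟨v389, h389, h⟩ := h
  change v389 = v1 * v388 at h389
  obtain ⟨c_xb, e_c_xb_d⟩ : ∃ q : ℂ, q = dB.xb.ev m := ⟨_, rfl⟩
  have e_c_xb_re : (0 : ℝ) = c_xb.re := by
    rw [e_c_xb_d]; simp only [dB, Cf.ev, hor, mul_re, mul_im, add_re, add_im, sub_re, sub_im, neg_re, neg_im, I_re, I_im, ofReal_re,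
      ofReal_im, one_re, one_im, dt, normSq_apply, re_ofNat, im_ofNat]; try ring
  have e_c_xb_im : v389 = c_xb.im := by
    rw [e_c_xb_d]
    simp only [dB, Cf.ev, hor, h389, h388, h381, h380, h379, h378, h377, h376, h375, h141, h19, h1, mul_re, mul_im, add_re, add_im, sub_re, sub_im, neg_re, neg_im, I_re, I_im, ofReal_re,
      ofReal_im, one_re, one_im, dt, normSq_apply, re_ofNat, im_ofNat]
    try ring
  obtain ⟨v390, h390, h⟩ := h
  change v390 = v373 * v387 at h390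
  obtain ⟨d_xb, e_d_xb_d⟩ : ∃ q : ℂ, q = dB.xb.dv m := ⟨_, rfl⟩
  have e_d_xb_re : (0 : ℝ) = d_xb.re := by
    rw [e_d_xb_d]; simp only [dB, Cf.dv, hor, dhor, mul_re, mul_im, add_re, add_im, sub_re, sub_im, neg_re, neg_im, I_re, I_im, ofReal_re,
      ofReal_im, one_re, one_im, dt, normSq_apply, re_ofNat, im_ofNat]; try ring
  have e_d_xb_im : v390 = d_xb.im := by
    rw [e_d_xb_d]
    simp only [dB, Cf.dv, hor, dhor, h390, h387, h386, h385, h384, h383, h382, h380, h373, h141, h19, h4, h1, mul_re, mul_im, add_re, add_im, sub_re, sub_im, neg_re, neg_im, I_re, I_im, ofReal_re,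
      ofReal_im, one_re, one_im, dt, normSq_apply, re_ofNat, im_ofNat]
    try ring
  obtain ⟨v391, h391, h⟩ := h
  replace h391 : v391 = (569 : ℝ) / 2 ^ 19 := by rw [h391]; norm_num [step, realAlg]
  obtain ⟨v392, h392, h⟩ := h
  change v392 = v141 * v391 at h392
  obtain ⟨v393, h393, h⟩ := h
  replace h393 : v393 = (511 : ℝ) / 2 ^ 19 := by rw [h393]; norm_num [step, realAlg]
  obtain ⟨v394, h394, h⟩ := h
  change v394 = v393 - v392 at h394
  obtain ⟨v395, h395, h⟩ := h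
  change v395 = v141 * v394 at h395
  obtain ⟨v396, h396, h⟩ := h
  replace h396 : v396 = (5869 : ℝ) / 2 ^ 19 := by rw [h396]; norm_num [step, realAlg]
  obtain ⟨v397, h397, h⟩ := h
  change v397 = v395 - v396 at h397
  obtain ⟨v398, h398, h⟩ := h
  replace h398 : v398 = (73 : ℝ) / 2 ^ 17 := by rw [h398]; norm_num [step, realAlg]
  obtain ⟨v399, h399, h⟩ := h
  change v399 = v141 * v398 at h399
  exact pQB_c10 m h1 h4 h8 h12 h13 h16 h19 h20 e_K_d e_S_d e_ys_d e_ys_re e_ys_im h34 e_cAv_d e_sAv_d e_oav_d e_obv_d e_vs_d e_vs_re e_vs_im e_ns_d e_ns_re e_ns_im e_k0_d e_F_d e_F_v e_pr_d e_bs_d e_wd_d e_wd_v h74 e_w_d e_w_v e_hh2_d e_c2_d e_V0_d e_V0_re e_V0_im e_V0f_d e_V0f_re e_V0f_im e_mm_d e_tkv_d e_pkv_d e_kc_d e_kq_d e_qv_d h141 e_t2_d e_cax_d e_cbu_d e_ae_d e_be_d e_be_re e_be_im e_a_d e_a_re e_a_im e_aeV_d e_DT_d e_gq_d e_sa_d e_sa_re e_sa_im e_fv1_d e_fv1_re e_fv1_im e_fvI_d e_fvI_im e_fvs_d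 e_zv_d e_zv_re e_zv_im e_bz_d e_kap_d e_g4_d e_gw_d e_D1_d e_D1_re e_D1_im e_DI_d e_DI_re e_DI_im e_Mq1_d e_Mq1_re e_Mq1_im e_MqI_d e_MqI_re e_MqI_im e_hc_d e_Lq1_d e_Lq1_re e_Lq1_im e_LqI_d e_LqI_re e_LqI_im e_io_d e_io_v e_c_xx_d e_c_xx_re e_c_xx_im h370 h373 e_d_xx_d e_d_xx_re e_d_xx_im e_c_xb_d e_c_xb_im e_d_xb_d e_d_xb_im h391 h392 h393 h394 h395 h396 h397 h398 h399 h

theorem pQB_c8 (m : ℝ) {v0 v1 v2 v3 v4 v5 v6 v7 v8 v9 v10 v11 v12 v13 v14 v15 v16 v17 v18 v19 v20 v21 v22 v23 K v24 v25 v26 v27 S v28 v29 v30 v31 : ℝ} {ys : ℂ} {v32 v33 v34 v35 cAv v36 v37 v38 sAv v39 v40 v41 v42 v43 v44 : ℝ} {oav : ℂ} {v45 v46 v47 v48 v49 v50 : ℝ} {obv : ℂ} {v51 v52 v53 v54 v55 v56 v57 v58 : ℝ} {vs : ℂ} {v59 v60 : ℝ} {ns : ℂ} {v61 v62 v63 k0 v64 F v65 v66 v67 v68 : ℝ} {pr : ℂ} {v69 v70 v71 : ℝ} {bs : ℂ} {v72 wd v73 v74 v75 w v76 hh2 v77 : ℝ} {c2 : ℂ} {v78 v79 : ℝ} {V0 : ℂ} {v80 v81 : ℝ} {V0f : ℂ} {v82 mm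 v83 v84 v85 v86 v87 v88 v89 v90 v91 v92 v93 v94 v95 v96 v97 v98 v99 v100 v101 v102 v103 v104 v105 v106 v107 v108 v109 v110 v111 v112 v113 v114 : ℝ} {tkv : ℂ} {v115 v116 v117 v118 v119 v120 v121 v122 v123 v124 v125 v126 v127 : ℝ} {pkv : ℂ} {v128 v129 v130 kc v131 v132 v133 v134 kq v135 v136 v137 v138 v139 v140 : ℝ} {qv : ℂ} {v141 t2 v142 v143 v144 v145 v146 v147 v148 v149 v150 v151 v152 v153 v154 v155 v156 v157 v158 v159 v160 v161 v162 v163 v164 v165 v166 v167 v168 v169 : ℝ} {cax : ℂ} {v170 v171 v172 v173 v174 v175 v176 v177 v178 v179 v180 v181 v182 v183 v184 v185 v186 v187 v188 v189 v190 v191 v192 v193 v194 v195 v196 v197 : ℝ} {cbu ae be : ℂ} {v198 v199 : ℝ} {a : ℂ} {v200 v201 v202 v203 aeV v204 v205 v206 v207 v208 v209 v210 v211 v212 v213 v214 v215 v216 v217 v218 v219 : ℝ} {DT : ℂ} {v220 v221 v222 v223 v224 v225 v226 v227 v228 v229 v230 v231 gq v232 v233 v234 v235 v236 v237 v238 v239 v240 v241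 : ℝ} {sa : ℂ} {v242 v243 v244 v245 v246 : ℝ} {fv1 : ℂ} {v247 v248 v249 : ℝ} {fvI : ℂ} {v250 v251 : ℝ} {fvs : ℂ} {v252 v253 : ℝ} {zv : ℂ} {v254 v255 v256 bz v257 v258 v259 v260 v261 v262 v263 v264 v265 v266 v267 v268 v269 v270 v271 v272 : ℝ} {kap : ℂ} {v273 g4 v274 gw v275 v276 v277 v278 v279 v280 v281 : ℝ} {D1 : ℂ} {v282 v283 v284 v285 v286 v287 : ℝ} {DI : ℂ} {v288 v289 v290 v291 v292 v293 : ℝ} {Mq1 : ℂ} {v294 v295 v296 v297 v298 : ℝ} {MqI : ℂ} {v299 hc v300 v301 v302 v303 v304 v305 v306 v307 v308 v309 v310 v311 v312 v313 v314 v315 v316 v317 v318 v319 : ℝ}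
    (h1 : v1 = s3)
    (h4 : v4 = 1 / m1)
    (h8 : v8 = oc)
    (h12 : v12 = 1 / oS m)
    (h13 : v13 = oR m)
    (h15 : v15 = 1 / oF m)
    (h16 : v16 = 1 / 6)
    (h18 : v18 = pj μB)
    (h19 : v19 = m / m1)
    (h20 : v20 = (2 : ℝ))
    (e_K_d : K = oK)
    (e_S_d : S = oS m)
    (e_ys_d : ys = oy m)
    (e_ys_re : v29 = ys.re)
    (e_ys_im : v31 = ys.im)
    (h34 : v34 = (1 : ℝ) / 2 ^ 1)
    (e_cAv_d : cAv = cA)
    (e_sAv_d : sAv = sA)
    (e_oav_d : oav = oa m)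
    (e_obv_d : obv = ob m)
    (e_vs_d : vs = ov m)
    (e_vs_re : v57 = -vs.re)
    (e_vs_im : v58 = -vs.im)
    (e_ns_d : ns = oN m)
    (e_ns_re : v59 = -ns.re)
    (e_ns_im : v60 = -ns.im)
    (e_k0_d : k0 = dt (oy m) (oN m))
    (e_F_d : F = oF m)
    (e_F_v : v64 = F)
    (e_pr_d : pr = oy m - oN m * (k0 : ℂ))
    (e_bs_d : bs = oB m)
    (e_wd_d : wd = oK * (1 / oS m))
    (e_wd_v : v72 = wd)
    (h74 : v74 = (3 : ℝ))
    (e_w_d : w = 3 * oK * (1 / oS m) ^ 2)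
    (e_w_v : v75 = w)
    (e_hh2_d : hh2 = 2 * (oK * (1 / oS m)))
    (e_c2_d : c2 = (hh2 : ℂ) - oy m)
    (e_V0_d : V0 = oV m)
    (e_V0_re : v79 = V0.re)
    (e_V0_im : v78 = V0.im)
    (e_V0f_d : V0f = oV m / (oF m : ℂ))
    (e_V0f_re : v80 = V0f.re)
    (e_V0f_im : v81 = V0f.im)
    (e_mm_d : mm = m)
    (e_tkv_d : tkv = tk m)
    (e_pkv_d : pkv = pk m)
    (e_kc_d : kc = oc * (3 * (4 - Real.sqrt 2) / 4))
    (e_kq_d : kq = oS m * s3 * (1 / 27) * (1 / oK) ^ 2)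
    (e_qv_d : qv = qy m)
    (h141 : v141 = v19 * v19)
    (e_t2_d : t2 = (m / m1) ^ 2)
    (e_cax_d : cax = (dB.ax).ev m)
    (e_cbu_d : cbu = (dB.bu).ev m)
    (e_ae_d : ae = dB.ae m)
    (e_be_d : be = dB.be m)
    (e_be_re : v197 = be.re)
    (e_be_im : v182 = be.im)
    (e_a_d : a = qy m + dB.ae m)
    (e_a_re : v198 = a.re)
    (e_a_im : v199 = a.im)
    (e_aeV_d : aeV = dt (dB.ae m) (oV m) / oF m)
    (e_aeV_v : v203 = aeV)
    (e_DT_d : DT = DVT (oy m) (qy m + dB.ae m))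
    (e_gq_d : gq = aeV - 2 * oc * oR m ^ 2 + dt be (bs - (oR m : ℂ) * (I * ns)))
    (e_sa_d : sa = (dB.pt m).sa)
    (e_sa_re : v240 = sa.re)
    (e_sa_im : v241 = -sa.im)
    (e_fv1_d : fv1 = (dB.pt m).fv 1)
    (e_fv1_re : v244 = fv1.re)
    (e_fv1_im : v246 = -fv1.im)
    (e_fvI_d : fvI = (dB.pt m).fv I)
    (e_fvI_re : v246 = -fvI.re)
    (e_fvI_im : v249 = fvI.im)
    (e_fvs_d : fvs = (oy m - ((dt (oy m) (oN m) : ℝ) : ℂ) * oN m) / (oR m : ℂ))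
    (e_zv_d : zv = I * ov m - oB m)
    (e_zv_re : v252 = zv.re)
    (e_zv_im : v253 = zv.im)
    (e_bz_d : bz = dt (dB.be m) (I * ov m - oB m))
    (e_bz_v : v256 = bz)
    (e_kap_d : kap = (dB.pt m).kap)
    (e_kap_re : v271 = kap.re)
    (e_kap_im : v272 = kap.im)
    (e_g4_d : g4 = -4 * (oK * (1 / oS m)))
    (e_gw_d : gw = 4 * (oK * (1 / oS m)) ^ 2)
    (e_D1_d : D1 = (dB.pt m).DV 1)
    (e_D1_re : v276 = -D1.re)
    (e_D1_im : v281 = D1.im)
    (e_DI_d : DI = (dB.pt m).DV I)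
    (e_DI_re : v286 = DI.re)
    (e_DI_im : v287 = -DI.im)
    (e_Mq1_d : Mq1 = (dB.pt m).M 1)
    (e_Mq1_re : v290 = Mq1.re)
    (e_Mq1_im : v293 = Mq1.im)
    (e_MqI_d : MqI = (dB.pt m).M I)
    (e_MqI_re : v295 = MqI.re)
    (e_MqI_im : v298 = MqI.im)
    (e_hc_d : hc = 1 / 2 - oc)
    (e_hc_v : v299 = hc)
    (h300 : v300 = v290 * v299)
    (h301 : v301 = v293 * v299)
    (h302 : v302 = v59 * v271)
    (h303 : v303 = v59 * v272)
    (h304 : v304 = v300 - v302)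
    (h305 : v305 = v301 - v303)
    (h306 : v306 = v59 * v182)
    (h307 : v307 = v60 * v182)
    (h308 : v308 = v244 * v256)
    (h309 : v309 = v246 * v256)
    (h310 : v310 = v306 + v308)
    (h311 : v311 = v307 - v309)
    (h312 : v312 = v59 * v197)
    (h313 : v313 = v310 - v306)
    (h314 : v314 = v311 + v312)
    (h315 : v315 = v304 - v313)
    (h316 : v316 = v305 - v314)
    (h317 : v317 = v203 * v244)
    (h318 : v318 = v203 * v246)
    (h319 : v319 = v315 + v317)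
    (h : TrE (realAlg (fun i => get 0 (l1 μB m) i) (m / m1) 0) (pQB.drop 320) [v319, v318, v317, v316, v315, v314, v313, v312, v311, v310, v309, v308, v307, v306, v305, v304, v303, v302, v301, v300, v299, v298, v297, v296, v295, v294, v293, v292, v291, v290, v289, v288, v287, v286, v285, v284, v283, v282, v281, v280, v279, v278, v277, v276, v275, v274, v273, v272, v271, v270, v269, v268, v267, v266, v265, v264, v263, v262, v261, v260, v259, v258, v257, v256, v255, v254, v253, v252, v251, v250, v249, v248, v247, v246, v245, v244, v243, v242, v241, v240, v239, v238, v237, v236, v235, v234, v233, v232, v231, v230, v229, v228, v227, v226, v225, v224, v223, v222, v221, v220, v219, v218, v217, v216, v215, v214, v213, v212, v211, v210, v209, v208, v207, v206, v205, v204, v203, v202, v201, v200, v199, v198, v197, v196, v195, v194, v193, v192, v191, v190, v189, v188, v187, v186, v185, v184, v183, v182,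 v181, v180, v179, v178, v177, v176, v175, v174, v173, v172, v171, v170, v169, v168, v167, v166, v165, v164, v163, v162, v161, v160, v159, v158, v157, v156, v155, v154, v153, v152, v151, v150, v149, v148, v147, v146, v145, v144, v143, v142, v141, v140, v139, v138, v137, v136, v135, v134, v133, v132, v131, v130, v129, v128, v127, v126, v125, v124, v123, v122, v121, v120, v119, v118, v117, v116, v115, v114, v113, v112, v111, v110, v109, v108, v107, v106, v105, v104, v103, v102, v101, v100, v99, v98, v97, v96, v95, v94, v93, v92, v91, v90, v89, v88, v87, v86, v85, v84, v83, v82, v81, v80, v79, v78, v77, v76, v75, v74, v73, v72, v71, v70, v69, v68, v67, v66, v65, v64, v63, v62, v61, v60, v59, v58, v57, v56, v55, v54, v53, v52, v51, v50, v49, v48, v47, v46, v45, v44, v43, v42, v41, v40, v39, v38, v37, v36, v35, v34, v33, v32, v31, v30, v29, v28, v27, v26, v25, v24, v23, v22, v21, v20, v19, v18, v17,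 v16, v15, v14, v13, v12, v11, v10, v9, v8, v7, v6, v5, v4, v3, v2, v1, v0] (fun st => run (realAlg (fun i => get 0 (l1 μB m) i) (m / m1) 0) pQB [] = st)) :
    pQB_goal m := by
  have hm1 : m1 ≠ 0 := m1_ne
  obtain ⟨v320, h320, h⟩ := h
  change v320 = v316 - v318 at h320
  obtain ⟨Lq1, e_Lq1_d⟩ : ∃ q : ℂ, q = (dB.pt m).L 1 := ⟨_, rfl⟩
  have a_Lq1 : (dB.pt m).L 1 = (hc : ℂ) * Mq1 + ((dt ns 1 : ℝ) : ℂ) * kap - (((dt be (-(I * 1)) : ℝ) : ℂ) * ns + (bz : ℂ) * fv1 - ((dt 1 ns : ℝ) : ℂ) * (I * be)) + (aeV : ℂ) * fv1 := by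
    rw [e_hc_d, e_Mq1_d, e_kap_d, e_bz_d, e_aeV_d, e_fv1_d, e_ns_d, e_be_d]; rfl
  have e_Lq1_re : v319 = Lq1.re := by
    rw [e_Lq1_d, a_Lq1]
    simp only [h319, h317, h315, h313, h310, h308, h306, h304, h302, h300, e_fv1_re, e_aeV_v, e_be_im, e_ns_re, e_bz_v, e_kap_re, e_hc_v, e_Mq1_re, mul_re, mul_im, add_re, add_im, sub_re, sub_im, neg_re, neg_im, I_re, I_im, ofReal_re,
      ofReal_im, one_re, one_im, dt, normSq_apply, re_ofNat, im_ofNat]
    try ring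
  have e_Lq1_im : v320 = Lq1.im := by
    rw [e_Lq1_d, a_Lq1]
    simp only [h320, h318, h316, h314, h312, h311, h309, h307, h305, h303, h301, e_fv1_im, e_aeV_v, e_be_re, e_ns_re, e_bz_v, e_be_im, e_ns_im, e_kap_im, e_hc_v, e_Mq1_im, mul_re, mul_im, add_re, add_im, sub_re, sub_im, neg_re, neg_im, I_re, I_im, ofReal_re,
      ofReal_im, one_re, one_im, dt, normSq_apply, re_ofNat, im_ofNat]
    try ring
  obtain ⟨v321, h321, h⟩ := h
  change v321 = v295 * v299 at h321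
  obtain ⟨v322, h322, h⟩ := h
  change v322 = v298 * v299 at h322
  obtain ⟨v323, h323, h⟩ := h
  change v323 = v60 * v271 at h323
  obtain ⟨v324, h324, h⟩ := h
  change v324 = v60 * v272 at h324
  obtain ⟨v325, h325, h⟩ := h
  change v325 = v321 - v323 at h325
  obtain ⟨v326, h326, h⟩ := h
  change v326 = v322 - v324 at h326
  obtain ⟨v327, h327, h⟩ := h
  change v327 = v60 * v197 at h327
  obtain ⟨v328, h328, h⟩ := h
  change v328 = v249 * v256 at h328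
  obtain ⟨v329, h329, h⟩ := h
  change v329 = v309 + v312 at h329
  obtain ⟨v330, h330, h⟩ := h
  change v330 = v328 - v327 at h330
  obtain ⟨v331, h331, h⟩ := h
  change v331 = v307 + v329 at h331
  obtain ⟨v332, h332, h⟩ := h
  change v332 = v327 + v330 at h332
  obtain ⟨v333, h333, h⟩ := h
  change v333 = v325 + v331 at h333
  obtain ⟨v334, h334, h⟩ := h
  change v334 = v326 - v332 at h334
  obtain ⟨v335, h335, h⟩ := h
  change v335 = v203 * v249 at h335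
  obtain ⟨v336, h336, h⟩ := h
  change v336 = v333 - v318 at h336
  obtain ⟨v337, h337, h⟩ := h
  change v337 = v334 + v335 at h337
  obtain ⟨LqI, e_LqI_d⟩ : ∃ q : ℂ, q = (dB.pt m).L I := ⟨_, rfl⟩
  have a_LqI : (dB.pt m).L I = (hc : ℂ) * MqI + ((dt ns I : ℝ) : ℂ) * kap - (((dt be (-(I * I)) : ℝ) : ℂ) * ns + (bz : ℂ) * fvI - ((dt I ns : ℝ) : ℂ) * (I * be)) + (aeV : ℂ) * fvI := by
    rw [e_hc_d, e_MqI_d, e_kap_d, e_bz_d, e_aeV_d, e_fvI_d, e_ns_d, e_be_d]; rfl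
  have e_LqI_re : v336 = LqI.re := by
    rw [e_LqI_d, a_LqI]
    simp only [h336, h333, h331, h329, h325, h323, h321, h318, h312, h309, h307, e_fvI_re, e_aeV_v, e_be_re, e_ns_re, e_bz_v, e_be_im, e_ns_im, e_kap_re, e_hc_v, e_MqI_re, mul_re, mul_im, add_re, add_im, sub_re, sub_im, neg_re, neg_im, I_re, I_im, ofReal_re,
      ofReal_im, one_re, one_im, dt, normSq_apply, re_ofNat, im_ofNat]
    try ring
  have e_LqI_im : v337 = LqI.im := by
    rw [e_LqI_d, a_LqI]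
    simp only [h337, h335, h334, h332, h330, h328, h327, h326, h324, h322, e_fvI_im, e_aeV_v, e_be_re, e_ns_im, e_bz_v, e_kap_im, e_hc_v, e_MqI_im, mul_re, mul_im, add_re, add_im, sub_re, sub_im, neg_re, neg_im, I_re, I_im, ofReal_re,
      ofReal_im, one_re, one_im, dt, normSq_apply, re_ofNat, im_ofNat]
    try ring
  obtain ⟨v338, h338, h⟩ := h
  change v338 = v1 * v72 at h338
  obtain ⟨v339, h339, h⟩ := h
  change v339 = v15 * v338 at h339
  obtain ⟨io, e_io_d⟩ : ∃ q : ℝ, q = 1 / osd m := ⟨_, rfl⟩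
  have a_io : 1 / osd m = s3 * wd * (1 / oF m) := by
    rw [e_wd_d, iosd_l1]; ring
  have e_io_v : v339 = io := by
    rw [e_io_d, a_io]
    simp only [h339, h338, h15, h1, e_wd_v, mul_re, mul_im, add_re, add_im, sub_re, sub_im, neg_re, neg_im, I_re, I_im, ofReal_re,
      ofReal_im, one_re, one_im, dt, normSq_apply, re_ofNat, im_ofNat]
    try ring
  obtain ⟨v340, h340, h⟩ := h
  replace h340 : v340 = (1 : ℝ) / 2 ^ 2 := by rw [h340]; norm_num [step, realAlg]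
  obtain ⟨v341, h341, h⟩ := h
  change v341 = v18 * v340 at h341
  obtain ⟨v342, h342, h⟩ := h
  replace h342 : v342 = (2075 : ℝ) / 2 ^ 18 := by rw [h342]; norm_num [step, realAlg]
  obtain ⟨v343, h343, h⟩ := h
  change v343 = v342 - v341 at h343
  obtain ⟨v344, h344, h⟩ := h
  change v344 = v141 * v343 at h344
  obtain ⟨v345, h345, h⟩ := h
  replace h345 : v345 = (981 : ℝ) / 2 ^ 16 := by rw [h345]; norm_num [step, realAlg]
  obtain ⟨v346, h346, h⟩ := h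
  change v346 = v344 + v345 at h346
  obtain ⟨v347, h347, h⟩ := h
  change v347 = v141 * v346 at h347
  obtain ⟨v348, h348, h⟩ := h
  replace h348 : v348 = (5999 : ℝ) / 2 ^ 18 := by rw [h348]; norm_num [step, realAlg]
  obtain ⟨v349, h349, h⟩ := h
  change v349 = v347 - v348 at h349
  obtain ⟨v350, h350, h⟩ := h
  replace h350 : v350 = (2065 : ℝ) / 2 ^ 19 := by rw [h350]; norm_num [step, realAlg]
  obtain ⟨v351, h351, h⟩ := h
  change v351 = v341 - v350 at h351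
  obtain ⟨v352, h352, h⟩ := h
  change v352 = v141 * v351 at h352
  obtain ⟨v353, h353, h⟩ := h
  replace h353 : v353 = (3153 : ℝ) / 2 ^ 20 := by rw [h353]; norm_num [step, realAlg]
  obtain ⟨v354, h354, h⟩ := h
  change v354 = v352 - v353 at h354
  obtain ⟨v355, h355, h⟩ := h
  change v355 = v141 * v354 at h355
  obtain ⟨v356, h356, h⟩ := h
  replace h356 : v356 = (7283 : ℝ) / 2 ^ 20 := by rw [h356]; norm_num [step, realAlg]
  obtain ⟨v357, h357, h⟩ := h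
  change v357 = v355 + v356 at h357
  obtain ⟨v358, h358, h⟩ := h
  change v358 = v20 * v343 at h358
  obtain ⟨v359, h359, h⟩ := h
  change v359 = v141 * v358 at h359
  exact pQB_c9 m h1 h4 h8 h12 h13 h16 h18 h19 h20 e_K_d e_S_d e_ys_d e_ys_re e_ys_im h34 e_cAv_d e_sAv_d e_oav_d e_obv_d e_vs_d e_vs_re e_vs_im e_ns_d e_ns_re e_ns_im e_k0_d e_F_d e_F_v e_pr_d e_bs_d e_wd_d e_wd_v h74 e_w_d e_w_v e_hh2_d e_c2_d e_V0_d e_V0_re e_V0_im e_V0f_d e_V0f_re e_V0f_im e_mm_d e_tkv_d e_pkv_d e_kc_d e_kq_d e_qv_d h141 e_t2_d e_cax_d e_cbu_d e_ae_d e_be_d e_be_re e_be_im e_a_d e_a_re e_a_im e_aeV_d e_DT_d e_gq_d e_sa_d e_sa_re e_sa_im e_fv1_d e_fv1_re e_fv1_im e_fvI_d e_fvI_im e_fvs_d e_zv_d e_zv_re e_zv_im e_bz_d e_kap_d e_g4_d e_gw_d e_D1_d e_D1_re e_D1_im e_DI_d e_DI_re e_DI_im e_Mq1_d e_Mq1_re e_Mq1_im e_MqI_d e_MqI_re e_MqI_im e_hc_d e_Lq1_d e_Lq1_re e_Lq1_im e_LqI_d e_LqI_re e_LqI_im e_io_d e_io_v h340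 h341 h342 h343 h344 h345 h346 h347 h348 h349 h350 h351 h352 h353 h354 h355 h356 h357 h358 h359 h

theorem pQB_c7 (m : ℝ) {v0 v1 v2 v3 v4 v5 v6 v7 v8 v9 v10 v11 v12 v13 v14 v15 v16 v17 v18 v19 v20 v21 v22 v23 K v24 v25 v26 v27 S v28 v29 v30 v31 : ℝ} {ys : ℂ} {v32 v33 v34 v35 cAv v36 v37 v38 sAv v39 v40 v41 v42 v43 v44 : ℝ} {oav : ℂ} {v45 v46 v47 v48 v49 v50 : ℝ} {obv : ℂ} {v51 v52 v53 v54 v55 v56 v57 v58 : ℝ} {vs : ℂ} {v59 v60 : ℝ} {ns : ℂ} {v61 v62 v63 k0 v64 F v65 v66 v67 v68 : ℝ} {pr : ℂ} {v69 v70 v71 : ℝ} {bs : ℂ} {v72 wd v73 v74 v75 w v76 hh2 v77 : ℝ} {c2 : ℂ} {v78 v79 : ℝ} {V0 : ℂ} {v80 v81 : ℝ} {V0f : ℂ} {v82 mm v83 v84 v85 v86 v87 v88 v89 v90 v91 v92 v93 v94 v95 v96 v97 v98 v99 v100 v101 v102 v103 v104 v105 v106 v107 v108 v109 v110 v111 v112 v113 v114 : ℝ} {tkv : ℂ} {v115 v116 v117 v118 v119 v120 v121 v122 v123 v124 v125 v126 v127 : ℝ} {pkv : ℂ} {v128 v129 v130 kc v131 v132 v133 v134 kq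 v135 v136 v137 v138 v139 v140 : ℝ} {qv : ℂ} {v141 t2 v142 v143 v144 v145 v146 v147 v148 v149 v150 v151 v152 v153 v154 v155 v156 v157 v158 v159 v160 v161 v162 v163 v164 v165 v166 v167 v168 v169 : ℝ} {cax : ℂ} {v170 v171 v172 v173 v174 v175 v176 v177 v178 v179 v180 v181 v182 v183 v184 v185 v186 v187 v188 v189 v190 v191 v192 v193 v194 v195 v196 v197 : ℝ} {cbu ae be : ℂ} {v198 v199 : ℝ} {a : ℂ} {v200 v201 v202 v203 aeV v204 v205 v206 v207 v208 v209 v210 v211 v212 v213 v214 v215 v216 v217 v218 v219 : ℝ} {DT : ℂ} {v220 v221 v222 v223 v224 v225 v226 v227 v228 v229 v230 v231 gq v232 v233 v234 v235 v236 v237 v238 v239 v240 v241 : ℝ} {sa : ℂ} {v242 v243 v244 v245 v246 : ℝ} {fv1 : ℂ} {v247 v248 v249 : ℝ} {fvI : ℂ} {v250 v251 : ℝ} {fvs : ℂ} {v252 v253 : ℝ} {zv : ℂ} {v254 v255 v256 bz v257 v258 v259 v260 v261 v262 v263 v264 v265 v266 v267 v268 v269 v270 v271 v272 : ℝ} {kap : ℂ} {v273 g4 v274 gw v275 v276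 v277 v278 v279 : ℝ}
    (h1 : v1 = s3)
    (h4 : v4 = 1 / m1)
    (h8 : v8 = oc)
    (h12 : v12 = 1 / oS m)
    (h13 : v13 = oR m)
    (h15 : v15 = 1 / oF m)
    (h16 : v16 = 1 / 6)
    (h18 : v18 = pj μB)
    (h19 : v19 = m / m1)
    (h20 : v20 = (2 : ℝ))
    (h22 : v22 = (1 : ℝ))
    (e_K_d : K = oK)
    (e_S_d : S = oS m)
    (e_ys_d : ys = oy m)
    (e_ys_re : v29 = ys.re)
    (e_ys_im : v31 = ys.im)
    (h34 : v34 = (1 : ℝ) / 2 ^ 1)
    (e_cAv_d : cAv = cA)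
    (e_sAv_d : sAv = sA)
    (e_oav_d : oav = oa m)
    (e_obv_d : obv = ob m)
    (e_vs_d : vs = ov m)
    (e_vs_re : v57 = -vs.re)
    (e_vs_im : v58 = -vs.im)
    (e_ns_d : ns = oN m)
    (e_ns_re : v59 = -ns.re)
    (e_ns_im : v60 = -ns.im)
    (e_k0_d : k0 = dt (oy m) (oN m))
    (e_F_d : F = oF m)
    (e_F_v : v64 = F)
    (e_pr_d : pr = oy m - oN m * (k0 : ℂ))
    (e_bs_d : bs = oB m)
    (e_bs_re : v70 = bs.re)
    (e_bs_im : v71 = -bs.im)
    (e_wd_d : wd = oK * (1 / oS m))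
    (e_wd_v : v72 = wd)
    (h74 : v74 = (3 : ℝ))
    (e_w_d : w = 3 * oK * (1 / oS m) ^ 2)
    (e_w_v : v75 = w)
    (e_hh2_d : hh2 = 2 * (oK * (1 / oS m)))
    (e_c2_d : c2 = (hh2 : ℂ) - oy m)
    (e_c2_re : v77 = c2.re)
    (e_c2_im : v31 = -c2.im)
    (e_V0_d : V0 = oV m)
    (e_V0_re : v79 = V0.re)
    (e_V0_im : v78 = V0.im)
    (e_V0f_d : V0f = oV m / (oF m : ℂ))
    (e_V0f_re : v80 = V0f.re)
    (e_V0f_im : v81 = V0f.im)
    (e_mm_d : mm = m)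
    (e_tkv_d : tkv = tk m)
    (e_pkv_d : pkv = pk m)
    (e_kc_d : kc = oc * (3 * (4 - Real.sqrt 2) / 4))
    (e_kq_d : kq = oS m * s3 * (1 / 27) * (1 / oK) ^ 2)
    (e_qv_d : qv = qy m)
    (h141 : v141 = v19 * v19)
    (e_t2_d : t2 = (m / m1) ^ 2)
    (e_cax_d : cax = (dB.ax).ev m)
    (e_cbu_d : cbu = (dB.bu).ev m)
    (e_ae_d : ae = dB.ae m)
    (e_be_d : be = dB.be m)
    (e_be_re : v197 = be.re)
    (e_be_im : v182 = be.im)
    (e_a_d : a = qy m + dB.ae m)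
    (e_a_re : v198 = a.re)
    (e_a_im : v199 = a.im)
    (e_aeV_d : aeV = dt (dB.ae m) (oV m) / oF m)
    (e_aeV_v : v203 = aeV)
    (e_DT_d : DT = DVT (oy m) (qy m + dB.ae m))
    (e_gq_d : gq = aeV - 2 * oc * oR m ^ 2 + dt be (bs - (oR m : ℂ) * (I * ns)))
    (e_sa_d : sa = (dB.pt m).sa)
    (e_sa_re : v240 = sa.re)
    (e_sa_im : v241 = -sa.im)
    (h242 : v242 = v59 * v59)
    (h243 : v243 = v22 - v242)
    (h245 : v245 = v59 * v60)
    (e_fv1_d : fv1 = (dB.pt m).fv 1)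
    (e_fv1_re : v244 = fv1.re)
    (e_fv1_im : v246 = -fv1.im)
    (h247 : v247 = v60 * v60)
    (h248 : v248 = v22 - v247)
    (e_fvI_d : fvI = (dB.pt m).fv I)
    (e_fvI_re : v246 = -fvI.re)
    (e_fvI_im : v249 = fvI.im)
    (e_fvs_d : fvs = (oy m - ((dt (oy m) (oN m) : ℝ) : ℂ) * oN m) / (oR m : ℂ))
    (e_zv_d : zv = I * ov m - oB m)
    (e_zv_re : v252 = zv.re)
    (e_zv_im : v253 = zv.im)
    (e_bz_d : bz = dt (dB.be m) (I * ov m - oB m))
    (e_bz_v : v256 = bz)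
    (e_kap_d : kap = (dB.pt m).kap)
    (e_kap_re : v271 = kap.re)
    (e_kap_im : v272 = kap.im)
    (e_g4_d : g4 = -4 * (oK * (1 / oS m)))
    (e_g4_v : v273 = -g4)
    (e_gw_d : gw = 4 * (oK * (1 / oS m)) ^ 2)
    (e_gw_v : v274 = gw)
    (h275 : v275 = v20 * v29)
    (h276 : v276 = v31 * v275)
    (h277 : v277 = v77 * v275)
    (h278 : v278 = v29 * v273)
    (h279 : v279 = v274 - v278)
    (h : TrE (realAlg (fun i => get 0 (l1 μB m) i) (m / m1) 0) (pQB.drop 280) [v279, v278, v277, v276, v275, v274, v273, v272, v271, v270, v269, v268, v267, v266, v265, v264, v263, v262, v261, v260, v259, v258, v257, v256, v255, v254, v253, v252, v251, v250, v249, v248, v247, v246, v245, v244, v243, v242, v241, v240, v239, v238, v237, v236, v235, v234, v233, v232, v231, v230, v229, v228, v227, v226, v225, v224, v223, v222, v221, v220, v219, v218, v217, v216, v215, v214, v213, v212, v211, v210, v209, v208, v207,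 v206, v205, v204, v203, v202, v201, v200, v199, v198, v197, v196, v195, v194, v193, v192, v191, v190, v189, v188, v187, v186, v185, v184, v183, v182, v181, v180, v179, v178, v177, v176, v175, v174, v173, v172, v171, v170, v169, v168, v167, v166, v165, v164, v163, v162, v161, v160, v159, v158, v157, v156, v155, v154, v153, v152, v151, v150, v149, v148, v147, v146, v145, v144, v143, v142, v141, v140, v139, v138, v137, v136, v135, v134, v133, v132, v131, v130, v129, v128, v127, v126, v125, v124, v123, v122, v121, v120, v119, v118, v117, v116, v115, v114, v113, v112, v111, v110, v109, v108, v107, v106, v105, v104, v103, v102, v101, v100, v99, v98, v97, v96, v95, v94, v93, v92, v91, v90, v89, v88, v87, v86, v85, v84, v83, v82, v81, v80, v79, v78, v77, v76, v75, v74, v73, v72, v71, v70, v69, v68, v67, v66, v65, v64, v63, v62, v61, v60, v59, v58, v57, v56, v55, v54, v53, v52, v51, v50, v49, v48, v47,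 v46, v45, v44, v43, v42, v41, v40, v39, v38, v37, v36, v35, v34, v33, v32, v31, v30, v29, v28, v27, v26, v25, v24, v23, v22, v21, v20, v19, v18, v17, v16, v15, v14, v13, v12, v11, v10, v9, v8, v7, v6, v5, v4, v3, v2, v1, v0] (fun st => run (realAlg (fun i => get 0 (l1 μB m) i) (m / m1) 0) pQB [] = st)) :
    pQB_goal m := by
  have hm1 : m1 ≠ 0 := m1_ne
  obtain ⟨v280, h280, h⟩ := h
  change v280 = v279 - v75 at h280
  obtain ⟨v281, h281, h⟩ := h
  change v281 = v280 - v277 at h281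
  obtain ⟨D1, e_D1_d⟩ : ∃ q : ℂ, q = (dB.pt m).DV 1 := ⟨_, rfl⟩
  have a_D1 : (dB.pt m).DV 1 = I * ((-2 * dt ys 1 : ℝ) : ℂ) * c2 + I * (((g4 * dt ys 1 + gw * (1 : ℂ).re : ℝ) : ℂ) - (w : ℂ) * 1) := by
    rw [e_ys_d, e_c2_d, e_hh2_d, e_g4_d, e_gw_d, e_w_d]; exact DV_l1 _ m 1
  have e_D1_re : v276 = -D1.re := by
    have q0 : c2.im = -ys.im := by linear_combination e_c2_im - e_ys_im
    rw [e_D1_d, a_D1]
    simp only [h276, h275, h20, e_ys_re, e_ys_im, q0, mul_re, mul_im, add_re, add_im, sub_re, sub_im, neg_re, neg_im, I_re, I_im, ofReal_re,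
      ofReal_im, one_re, one_im, dt, normSq_apply, re_ofNat, im_ofNat]
    try ring
  have e_D1_im : v281 = D1.im := by
    rw [e_D1_d, a_D1]
    simp only [h281, h280, h279, h278, h277, h275, h20, e_ys_re, e_c2_re, e_w_v, e_g4_v, e_gw_v, mul_re, mul_im, add_re, add_im, sub_re, sub_im, neg_re, neg_im, I_re, I_im, ofReal_re,
      ofReal_im, one_re, one_im, dt, normSq_apply, re_ofNat, im_ofNat]
    try ring
  obtain ⟨v282, h282, h⟩ := h
  change v282 = v20 * v31 at h282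
  obtain ⟨v283, h283, h⟩ := h
  change v283 = v31 * v282 at h283
  obtain ⟨v284, h284, h⟩ := h
  change v284 = v77 * v282 at h284
  obtain ⟨v285, h285, h⟩ := h
  change v285 = v31 * v273 at h285
  obtain ⟨v286, h286, h⟩ := h
  change v286 = v75 - v283 at h286
  obtain ⟨v287, h287, h⟩ := h
  change v287 = v284 + v285 at h287
  obtain ⟨DI, e_DI_d⟩ : ∃ q : ℂ, q = (dB.pt m).DV I := ⟨_, rfl⟩
  have a_DI : (dB.pt m).DV I = I * ((-2 * dt ys I : ℝ) : ℂ) * c2 + I * (((g4 * dt ys I + gw * (I : ℂ).re : ℝ) : ℂ) - (w : ℂ) * I) := by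
    rw [e_ys_d, e_c2_d, e_hh2_d, e_g4_d, e_gw_d, e_w_d]; exact DV_l1 _ m I
  have e_DI_re : v286 = DI.re := by
    have q0 : c2.im = -ys.im := by linear_combination e_c2_im - e_ys_im
    rw [e_DI_d, a_DI]
    simp only [h286, h283, h282, h20, e_ys_im, e_w_v, q0, mul_re, mul_im, add_re, add_im, sub_re, sub_im, neg_re, neg_im, I_re, I_im, ofReal_re,
      ofReal_im, one_re, one_im, dt, normSq_apply, re_ofNat, im_ofNat]
    try ring
  have e_DI_im : v287 = -DI.im := by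
    have q0 : c2.im = -ys.im := by linear_combination e_c2_im - e_ys_im
    rw [e_DI_d, a_DI]
    simp only [h287, h285, h284, h282, h20, e_g4_v, e_ys_im, e_c2_re, q0, mul_re, mul_im, add_re, add_im, sub_re, sub_im, neg_re, neg_im, I_re, I_im, ofReal_re,
      ofReal_im, one_re, one_im, dt, normSq_apply, re_ofNat, im_ofNat]
    try ring
  obtain ⟨v288, h288, h⟩ := h
  change v288 = v13 * v243 at h288
  obtain ⟨v289, h289, h⟩ := h
  change v289 = v59 * v71 at h289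
  obtain ⟨v290, h290, h⟩ := h
  change v290 = v288 + v289 at h290
  obtain ⟨v291, h291, h⟩ := h
  change v291 = v13 * v245 at h291
  obtain ⟨v292, h292, h⟩ := h
  change v292 = v59 * v70 at h292
  obtain ⟨v293, h293, h⟩ := h
  change v293 = v292 - v291 at h293
  obtain ⟨Mq1, e_Mq1_d⟩ : ∃ q : ℂ, q = (dB.pt m).M 1 := ⟨_, rfl⟩
  have a_Mq1 : (dB.pt m).M 1 = (oR m : ℂ) * (1 - ((dt ns 1 : ℝ) : ℂ) * ns) - ((dt ns 1 : ℝ) : ℂ) * (I * bs) := by
    rw [e_ns_d, e_bs_d]; rfl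
  have e_Mq1_re : v290 = Mq1.re := by
    rw [e_Mq1_d, a_Mq1]
    simp only [h290, h289, h288, h243, h242, h22, h13, e_bs_im, e_ns_re, mul_re, mul_im, add_re, add_im, sub_re, sub_im, neg_re, neg_im, I_re, I_im, ofReal_re,
      ofReal_im, one_re, one_im, dt, normSq_apply, re_ofNat, im_ofNat]
    try ring
  have e_Mq1_im : v293 = Mq1.im := by
    rw [e_Mq1_d, a_Mq1]
    simp only [h293, h292, h291, h245, h13, e_ns_im, e_ns_re, e_bs_re, mul_re, mul_im, add_re, add_im, sub_re, sub_im, neg_re, neg_im, I_re, I_im, ofReal_re,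
      ofReal_im, one_re, one_im, dt, normSq_apply, re_ofNat, im_ofNat]
    try ring
  obtain ⟨v294, h294, h⟩ := h
  change v294 = v60 * v71 at h294
  obtain ⟨v295, h295, h⟩ := h
  change v295 = v294 - v291 at h295
  obtain ⟨v296, h296, h⟩ := h
  change v296 = v13 * v248 at h296
  obtain ⟨v297, h297, h⟩ := h
  change v297 = v60 * v70 at h297
  obtain ⟨v298, h298, h⟩ := h
  change v298 = v296 + v297 at h298
  obtain ⟨MqI, e_MqI_d⟩ : ∃ q : ℂ, q = (dB.pt m).M I := ⟨_, rfl⟩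
  have a_MqI : (dB.pt m).M I = (oR m : ℂ) * (I - ((dt ns I : ℝ) : ℂ) * ns) - ((dt ns I : ℝ) : ℂ) * (I * bs) := by
    rw [e_ns_d, e_bs_d]; rfl
  have e_MqI_re : v295 = MqI.re := by
    rw [e_MqI_d, a_MqI]
    simp only [h295, h294, h291, h245, h13, e_ns_im, e_ns_re, e_bs_im, mul_re, mul_im, add_re, add_im, sub_re, sub_im, neg_re, neg_im, I_re, I_im, ofReal_re,
      ofReal_im, one_re, one_im, dt, normSq_apply, re_ofNat, im_ofNat]
    try ring
  have e_MqI_im : v298 = MqI.im := by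
    rw [e_MqI_d, a_MqI]
    simp only [h298, h297, h296, h248, h247, h22, h13, e_bs_re, e_ns_im, mul_re, mul_im, add_re, add_im, sub_re, sub_im, neg_re, neg_im, I_re, I_im, ofReal_re,
      ofReal_im, one_re, one_im, dt, normSq_apply, re_ofNat, im_ofNat]
    try ring
  obtain ⟨v299, h299, h⟩ := h
  change v299 = v34 - v8 at h299
  obtain ⟨hc, e_hc_d⟩ : ∃ q : ℝ, q = 1 / 2 - oc := ⟨_, rfl⟩
  have e_hc_v : v299 = hc := by
    rw [e_hc_d]
    simp only [h299, h34, h8, mul_re, mul_im, add_re, add_im, sub_re, sub_im, neg_re, neg_im, I_re, I_im, ofReal_re,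
      ofReal_im, one_re, one_im, dt, normSq_apply, re_ofNat, im_ofNat]
    try ring
  obtain ⟨v300, h300, h⟩ := h
  change v300 = v290 * v299 at h300
  obtain ⟨v301, h301, h⟩ := h
  change v301 = v293 * v299 at h301
  obtain ⟨v302, h302, h⟩ := h
  change v302 = v59 * v271 at h302
  obtain ⟨v303, h303, h⟩ := h
  change v303 = v59 * v272 at h303
  obtain ⟨v304, h304, h⟩ := h
  change v304 = v300 - v302 at h304
  obtain ⟨v305, h305, h⟩ := h
  change v305 = v301 - v303 at h305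
  obtain ⟨v306, h306, h⟩ := h
  change v306 = v59 * v182 at h306
  obtain ⟨v307, h307, h⟩ := h
  change v307 = v60 * v182 at h307
  obtain ⟨v308, h308, h⟩ := h
  change v308 = v244 * v256 at h308
  obtain ⟨v309, h309, h⟩ := h
  change v309 = v246 * v256 at h309
  obtain ⟨v310, h310, h⟩ := h
  change v310 = v306 + v308 at h310
  obtain ⟨v311, h311, h⟩ := h
  change v311 = v307 - v309 at h311
  obtain ⟨v312, h312, h⟩ := h
  change v312 = v59 * v197 at h312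
  obtain ⟨v313, h313, h⟩ := h
  change v313 = v310 - v306 at h313
  obtain ⟨v314, h314, h⟩ := h
  change v314 = v311 + v312 at h314
  obtain ⟨v315, h315, h⟩ := h
  change v315 = v304 - v313 at h315
  obtain ⟨v316, h316, h⟩ := h
  change v316 = v305 - v314 at h316
  obtain ⟨v317, h317, h⟩ := h
  change v317 = v203 * v244 at h317
  obtain ⟨v318, h318, h⟩ := h
  change v318 = v203 * v246 at h318
  obtain ⟨v319, h319, h⟩ := h
  change v319 = v315 + v317 at h319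
  exact pQB_c8 m h1 h4 h8 h12 h13 h15 h16 h18 h19 h20 e_K_d e_S_d e_ys_d e_ys_re e_ys_im h34 e_cAv_d e_sAv_d e_oav_d e_obv_d e_vs_d e_vs_re e_vs_im e_ns_d e_ns_re e_ns_im e_k0_d e_F_d e_F_v e_pr_d e_bs_d e_wd_d e_wd_v h74 e_w_d e_w_v e_hh2_d e_c2_d e_V0_d e_V0_re e_V0_im e_V0f_d e_V0f_re e_V0f_im e_mm_d e_tkv_d e_pkv_d e_kc_d e_kq_d e_qv_d h141 e_t2_d e_cax_d e_cbu_d e_ae_d e_be_d e_be_re e_be_im e_a_d e_a_re e_a_im e_aeV_d e_aeV_v e_DT_d e_gq_d e_sa_d e_sa_re e_sa_im e_fv1_d e_fv1_re e_fv1_im e_fvI_d e_fvI_re e_fvI_im e_fvs_d e_zv_d e_zv_re e_zv_im e_bz_d e_bz_v e_kap_d e_kap_re e_kap_im e_g4_d e_gw_d e_D1_d e_D1_re e_D1_im e_DI_d e_DI_re e_DI_im e_Mq1_d e_Mq1_re e_Mq1_im e_MqI_d e_MqI_re e_MqI_im e_hc_d e_hc_v h300 h301 h302 h303 h304 h305 h306 h307 h308 h309 h310 h311 h312 h313 h314 h315 h316 h317 h318 h319 h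

theorem pQB_c6 (m : ℝ) {v0 v1 v2 v3 v4 v5 v6 v7 v8 v9 v10 v11 v12 v13 v14 v15 v16 v17 v18 v19 v20 v21 v22 v23 K v24 v25 v26 v27 S v28 v29 v30 v31 : ℝ} {ys : ℂ} {v32 v33 v34 v35 cAv v36 v37 v38 sAv v39 v40 v41 v42 v43 v44 : ℝ} {oav : ℂ} {v45 v46 v47 v48 v49 v50 : ℝ} {obv : ℂ} {v51 v52 v53 v54 v55 v56 v57 v58 : ℝ} {vs : ℂ} {v59 v60 : ℝ} {ns : ℂ} {v61 v62 v63 k0 v64 F v65 v66 v67 v68 : ℝ} {pr : ℂ} {v69 v70 v71 : ℝ} {bs : ℂ} {v72 wd v73 v74 v75 w v76 hh2 v77 : ℝ} {c2 : ℂ} {v78 v79 : ℝ} {V0 : ℂ} {v80 v81 : ℝ} {V0f : ℂ} {v82 mm v83 v84 v85 v86 v87 v88 v89 v90 v91 v92 v93 v94 v95 v96 v97 v98 v99 v100 v101 v102 v103 v104 v105 v106 v107 v108 v109 v110 v111 v112 v113 v114 : ℝ} {tkv : ℂ} {v115 v116 v117 v118 v119 v120 v121 v122 v123 v124 v125 v126 v127 : ℝ} {pkv : ℂ} {v128 v129 v130 kc v131 v132 v133 v134 kq v135 v136 v137 v138 v139 v140 : ℝ} {qv : ℂ} {v141 t2 v142 v143 v144 v145 v146 v147 v148 v149 v150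 v151 v152 v153 v154 v155 v156 v157 v158 v159 v160 v161 v162 v163 v164 v165 v166 v167 v168 v169 : ℝ} {cax : ℂ} {v170 v171 v172 v173 v174 v175 v176 v177 v178 v179 v180 v181 v182 v183 v184 v185 v186 v187 v188 v189 v190 v191 v192 v193 v194 v195 v196 v197 : ℝ} {cbu ae be : ℂ} {v198 v199 : ℝ} {a : ℂ} {v200 v201 v202 v203 aeV v204 v205 v206 v207 v208 v209 v210 v211 v212 v213 v214 v215 v216 v217 v218 v219 : ℝ} {DT : ℂ} {v220 v221 v222 v223 v224 v225 v226 v227 v228 v229 v230 v231 gq v232 v233 v234 v235 v236 v237 v238 v239 : ℝ}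
    (h1 : v1 = s3)
    (h4 : v4 = 1 / m1)
    (h8 : v8 = oc)
    (h12 : v12 = 1 / oS m)
    (h13 : v13 = oR m)
    (h14 : v14 = 1 / oR m)
    (h15 : v15 = 1 / oF m)
    (h16 : v16 = 1 / 6)
    (h18 : v18 = pj μB)
    (h19 : v19 = m / m1)
    (h20 : v20 = (2 : ℝ))
    (h22 : v22 = (1 : ℝ))
    (e_K_d : K = oK)
    (e_S_d : S = oS m)
    (e_ys_d : ys = oy m)
    (e_ys_re : v29 = ys.re)
    (e_ys_im : v31 = ys.im)
    (h34 : v34 = (1 : ℝ) / 2 ^ 1)
    (e_cAv_d : cAv = cA)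
    (e_sAv_d : sAv = sA)
    (e_oav_d : oav = oa m)
    (e_obv_d : obv = ob m)
    (e_vs_d : vs = ov m)
    (e_vs_re : v57 = -vs.re)
    (e_vs_im : v58 = -vs.im)
    (e_ns_d : ns = oN m)
    (e_ns_re : v59 = -ns.re)
    (e_ns_im : v60 = -ns.im)
    (e_k0_d : k0 = dt (oy m) (oN m))
    (e_k0_v : v63 = -k0)
    (e_F_d : F = oF m)
    (e_F_v : v64 = F)
    (e_pr_d : pr = oy m - oN m * (k0 : ℂ))
    (e_pr_re : v67 = pr.re)
    (e_pr_im : v68 = pr.im)
    (e_bs_d : bs = oB m)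
    (e_bs_re : v70 = bs.re)
    (e_bs_im : v71 = -bs.im)
    (e_wd_d : wd = oK * (1 / oS m))
    (e_wd_v : v72 = wd)
    (h74 : v74 = (3 : ℝ))
    (e_w_d : w = 3 * oK * (1 / oS m) ^ 2)
    (e_w_v : v75 = w)
    (e_hh2_d : hh2 = 2 * (oK * (1 / oS m)))
    (e_c2_d : c2 = (hh2 : ℂ) - oy m)
    (e_c2_re : v77 = c2.re)
    (e_c2_im : v31 = -c2.im)
    (e_V0_d : V0 = oV m)
    (e_V0_re : v79 = V0.re)
    (e_V0_im : v78 = V0.im)
    (e_V0f_d : V0f = oV m / (oF m : ℂ))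
    (e_V0f_re : v80 = V0f.re)
    (e_V0f_im : v81 = V0f.im)
    (e_mm_d : mm = m)
    (e_tkv_d : tkv = tk m)
    (h125 : v125 = (4 : ℝ))
    (e_pkv_d : pkv = pk m)
    (e_kc_d : kc = oc * (3 * (4 - Real.sqrt 2) / 4))
    (e_kq_d : kq = oS m * s3 * (1 / 27) * (1 / oK) ^ 2)
    (e_qv_d : qv = qy m)
    (h141 : v141 = v19 * v19)
    (e_t2_d : t2 = (m / m1) ^ 2)
    (e_cax_d : cax = (dB.ax).ev m)
    (e_cbu_d : cbu = (dB.bu).ev m)
    (e_ae_d : ae = dB.ae m)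
    (e_be_d : be = dB.be m)
    (e_be_re : v197 = be.re)
    (e_be_im : v182 = be.im)
    (e_a_d : a = qy m + dB.ae m)
    (e_a_re : v198 = a.re)
    (e_a_im : v199 = a.im)
    (e_aeV_d : aeV = dt (dB.ae m) (oV m) / oF m)
    (e_aeV_v : v203 = aeV)
    (h212 : v212 = v72 * v72)
    (e_DT_d : DT = DVT (oy m) (qy m + dB.ae m))
    (e_DT_re : v218 = DT.re)
    (e_DT_im : v219 = DT.im)
    (e_gq_d : gq = aeV - 2 * oc * oR m ^ 2 + dt be (bs - (oR m : ℂ) * (I * ns)))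
    (e_gq_v : v231 = gq)
    (h232 : v232 = v59 * v231)
    (h233 : v233 = v60 * v231)
    (h234 : v234 = v218 + v232)
    (h235 : v235 = v219 + v233)
    (h236 : v236 = v13 * v197)
    (h237 : v237 = v13 * v182)
    (h238 : v238 = v237 - v234)
    (h239 : v239 = v235 + v236)
    (h : TrE (realAlg (fun i => get 0 (l1 μB m) i) (m / m1) 0) (pQB.drop 240) [v239, v238, v237, v236, v235, v234, v233, v232, v231, v230, v229, v228, v227, v226, v225, v224, v223, v222, v221, v220, v219, v218, v217, v216, v215, v214, v213, v212, v211, v210, v209, v208, v207, v206, v205, v204, v203, v202, v201, v200, v199, v198, v197, v196, v195, v194, v193, v192, v191, v190, v189, v188, v187, v186, v185, v184, v183, v182, v181, v180, v179, v178, v177, v176, v175, v174, v173, v172, v171, v170, v169, v168, v167, v166, v165, v164, v163, v162, v161, v160, v159, v158, v157, v156, v155, v154, v153, v152, v151, v150, v149, v148,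 v147, v146, v145, v144, v143, v142, v141, v140, v139, v138, v137, v136, v135, v134, v133, v132, v131, v130, v129, v128, v127, v126, v125, v124, v123, v122, v121, v120, v119, v118, v117, v116, v115, v114, v113, v112, v111, v110, v109, v108, v107, v106, v105, v104, v103, v102, v101, v100, v99, v98, v97, v96, v95, v94, v93, v92, v91, v90, v89, v88, v87, v86, v85, v84, v83, v82, v81, v80, v79, v78, v77, v76, v75, v74, v73, v72, v71, v70, v69, v68, v67, v66, v65, v64, v63, v62, v61, v60, v59, v58, v57, v56, v55, v54, v53, v52, v51, v50, v49, v48, v47, v46, v45, v44, v43, v42, v41, v40, v39, v38, v37, v36, v35, v34, v33, v32, v31, v30, v29, v28, v27, v26, v25, v24, v23, v22, v21, v20, v19, v18, v17, v16, v15, v14, v13, v12, v11, v10, v9, v8, v7, v6, v5, v4, v3, v2, v1, v0] (fun st => run (realAlg (fun i => get 0 (l1 μB m) i) (m / m1) 0) pQB [] = st)) :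
    pQB_goal m := by
  have hm1 : m1 ≠ 0 := m1_ne
  obtain ⟨v240, h240, h⟩ := h
  change v240 = v15 * v238 at h240
  obtain ⟨v241, h241, h⟩ := h
  change v241 = v15 * v239 at h241
  obtain ⟨sa, e_sa_d⟩ : ∃ q : ℂ, q = (dB.pt m).sa := ⟨_, rfl⟩
  have a_sa : (dB.pt m).sa = (-DT + (gq : ℂ) * ns - (oR m : ℂ) * (I * be)) * ((1 / oF m : ℝ) : ℂ) := by
    rw [e_DT_d, e_gq_d, e_aeV_d, e_be_d, e_bs_d, e_ns_d]; exact sa_l1 _ m
  have e_sa_re : v240 = sa.re := by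
    rw [e_sa_d, a_sa]
    simp only [h240, h238, h237, h234, h232, h15, h13, e_gq_v, e_ns_re, e_DT_re, e_be_im, mul_re, mul_im, add_re, add_im, sub_re, sub_im, neg_re, neg_im, I_re, I_im, ofReal_re,
      ofReal_im, one_re, one_im, dt, normSq_apply, re_ofNat, im_ofNat]
    try ring
  have e_sa_im : v241 = -sa.im := by
    rw [e_sa_d, a_sa]
    simp only [h241, h239, h236, h235, h233, h15, h13, e_be_re, e_gq_v, e_ns_im, e_DT_im, mul_re, mul_im, add_re, add_im, sub_re, sub_im, neg_re, neg_im, I_re, I_im, ofReal_re,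
      ofReal_im, one_re, one_im, dt, normSq_apply, re_ofNat, im_ofNat]
    try ring
  obtain ⟨v242, h242, h⟩ := h
  change v242 = v59 * v59 at h242
  obtain ⟨v243, h243, h⟩ := h
  change v243 = v22 - v242 at h243
  obtain ⟨v244, h244, h⟩ := h
  change v244 = v14 * v243 at h244
  obtain ⟨v245, h245, h⟩ := h
  change v245 = v59 * v60 at h245
  obtain ⟨v246, h246, h⟩ := h
  change v246 = v14 * v245 at h246
  obtain ⟨fv1, e_fv1_d⟩ : ∃ q : ℂ, q = (dB.pt m).fv 1 := ⟨_, rfl⟩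
  have a_fv1 : (dB.pt m).fv 1 = (1 - ((dt 1 ns : ℝ) : ℂ) * ns) * ((1 / oR m : ℝ) : ℂ) := by
    rw [e_ns_d]; exact fv_l1 _ m 1
  have e_fv1_re : v244 = fv1.re := by
    rw [e_fv1_d, a_fv1]
    simp only [h244, h243, h242, h22, h14, e_ns_re, mul_re, mul_im, add_re, add_im, sub_re, sub_im, neg_re, neg_im, I_re, I_im, ofReal_re,
      ofReal_im, one_re, one_im, dt, normSq_apply, re_ofNat, im_ofNat]
    try ring
  have e_fv1_im : v246 = -fv1.im := by
    rw [e_fv1_d, a_fv1]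
    simp only [h246, h245, h14, e_ns_im, e_ns_re, mul_re, mul_im, add_re, add_im, sub_re, sub_im, neg_re, neg_im, I_re, I_im, ofReal_re,
      ofReal_im, one_re, one_im, dt, normSq_apply, re_ofNat, im_ofNat]
    try ring
  obtain ⟨v247, h247, h⟩ := h
  change v247 = v60 * v60 at h247
  obtain ⟨v248, h248, h⟩ := h
  change v248 = v22 - v247 at h248
  obtain ⟨v249, h249, h⟩ := h
  change v249 = v14 * v248 at h249
  obtain ⟨fvI, e_fvI_d⟩ : ∃ q : ℂ, q = (dB.pt m).fv I := ⟨_, rfl⟩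
  have a_fvI : (dB.pt m).fv I = (I - ((dt I ns : ℝ) : ℂ) * ns) * ((1 / oR m : ℝ) : ℂ) := by
    rw [e_ns_d]; exact fv_l1 _ m I
  have e_fvI_re : v246 = -fvI.re := by
    rw [e_fvI_d, a_fvI]
    simp only [h246, h245, h14, e_ns_im, e_ns_re, mul_re, mul_im, add_re, add_im, sub_re, sub_im, neg_re, neg_im, I_re, I_im, ofReal_re,
      ofReal_im, one_re, one_im, dt, normSq_apply, re_ofNat, im_ofNat]
    try ring
  have e_fvI_im : v249 = fvI.im := by
    rw [e_fvI_d, a_fvI]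
    simp only [h249, h248, h247, h22, h14, e_ns_im, mul_re, mul_im, add_re, add_im, sub_re, sub_im, neg_re, neg_im, I_re, I_im, ofReal_re,
      ofReal_im, one_re, one_im, dt, normSq_apply, re_ofNat, im_ofNat]
    try ring
  obtain ⟨v250, h250, h⟩ := h
  change v250 = v14 * v67 at h250
  obtain ⟨v251, h251, h⟩ := h
  change v251 = v14 * v68 at h251
  obtain ⟨fvs, e_fvs_d⟩ : ∃ q : ℂ, q = (oy m - ((dt (oy m) (oN m) : ℝ) : ℂ) * oN m) / (oR m : ℂ) := ⟨_, rfl⟩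
  have a_fvs : (oy m - ((dt (oy m) (oN m) : ℝ) : ℂ) * oN m) / (oR m : ℂ) = pr * ((1 / oR m : ℝ) : ℂ) := by
    rw [e_pr_d, e_k0_d]; push_cast; ring
  have e_fvs_re : v250 = fvs.re := by
    rw [e_fvs_d, a_fvs]
    simp only [h250, h14, e_pr_re, mul_re, mul_im, add_re, add_im, sub_re, sub_im, neg_re, neg_im, I_re, I_im, ofReal_re,
      ofReal_im, one_re, one_im, dt, normSq_apply, re_ofNat, im_ofNat]
    try ring
  have e_fvs_im : v251 = fvs.im := by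
    rw [e_fvs_d, a_fvs]
    simp only [h251, h14, e_pr_im, mul_re, mul_im, add_re, add_im, sub_re, sub_im, neg_re, neg_im, I_re, I_im, ofReal_re,
      ofReal_im, one_re, one_im, dt, normSq_apply, re_ofNat, im_ofNat]
    try ring
  obtain ⟨v252, h252, h⟩ := h
  change v252 = v58 - v70 at h252
  obtain ⟨v253, h253, h⟩ := h
  change v253 = v71 - v57 at h253
  obtain ⟨zv, e_zv_d⟩ : ∃ q : ℂ, q = I * ov m - oB m := ⟨_, rfl⟩
  have a_zv : I * ov m - oB m = I * vs - bs := by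
    rw [e_vs_d, e_bs_d]
  have e_zv_re : v252 = zv.re := by
    rw [e_zv_d, a_zv]
    simp only [h252, e_bs_re, e_vs_im, mul_re, mul_im, add_re, add_im, sub_re, sub_im, neg_re, neg_im, I_re, I_im, ofReal_re,
      ofReal_im, one_re, one_im, dt, normSq_apply, re_ofNat, im_ofNat]
    try ring
  have e_zv_im : v253 = zv.im := by
    rw [e_zv_d, a_zv]
    simp only [h253, e_vs_re, e_bs_im, mul_re, mul_im, add_re, add_im, sub_re, sub_im, neg_re, neg_im, I_re, I_im, ofReal_re,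
      ofReal_im, one_re, one_im, dt, normSq_apply, re_ofNat, im_ofNat]
    try ring
  obtain ⟨v254, h254, h⟩ := h
  change v254 = v197 * v252 at h254
  obtain ⟨v255, h255, h⟩ := h
  change v255 = v182 * v253 at h255
  obtain ⟨v256, h256, h⟩ := h
  change v256 = v254 + v255 at h256
  obtain ⟨bz, e_bz_d⟩ : ∃ q : ℝ, q = dt (dB.be m) (I * ov m - oB m) := ⟨_, rfl⟩
  have a_bz : dt (dB.be m) (I * ov m - oB m) = dt be zv := by
    rw [e_be_d, e_zv_d]
  have e_bz_v : v256 = bz := by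
    rw [e_bz_d, a_bz]
    simp only [h256, h255, h254, e_zv_im, e_be_im, e_zv_re, e_be_re, mul_re, mul_im, add_re, add_im, sub_re, sub_im, neg_re, neg_im, I_re, I_im, ofReal_re,
      ofReal_im, one_re, one_im, dt, normSq_apply, re_ofNat, im_ofNat]
    try ring
  obtain ⟨v257, h257, h⟩ := h
  change v257 = v31 * v197 at h257
  obtain ⟨v258, h258, h⟩ := h
  change v258 = v29 * v182 at h258
  obtain ⟨v259, h259, h⟩ := h
  change v259 = v257 - v258 at h259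
  obtain ⟨v260, h260, h⟩ := h
  change v260 = v59 * v259 at h260
  obtain ⟨v261, h261, h⟩ := h
  change v261 = v60 * v259 at h261
  obtain ⟨v262, h262, h⟩ := h
  change v262 = v256 - v203 at h262
  obtain ⟨v263, h263, h⟩ := h
  change v263 = v250 * v262 at h263
  obtain ⟨v264, h264, h⟩ := h
  change v264 = v251 * v262 at h264
  obtain ⟨v265, h265, h⟩ := h
  change v265 = v263 - v260 at h265
  obtain ⟨v266, h266, h⟩ := h
  change v266 = v264 - v261 at h266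
  obtain ⟨v267, h267, h⟩ := h
  change v267 = v63 * v197 at h267
  obtain ⟨v268, h268, h⟩ := h
  change v268 = v63 * v182 at h268
  obtain ⟨v269, h269, h⟩ := h
  change v269 = v265 - v268 at h269
  obtain ⟨v270, h270, h⟩ := h
  change v270 = v266 + v267 at h270
  obtain ⟨v271, h271, h⟩ := h
  change v271 = v15 * v269 at h271
  obtain ⟨v272, h272, h⟩ := h
  change v272 = v15 * v270 at h272
  obtain ⟨kap, e_kap_d⟩ : ∃ q : ℂ, q = (dB.pt m).kap := ⟨_, rfl⟩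
  have a_kap : (dB.pt m).kap = (((dt be (-(I * ys)) : ℝ) : ℂ) * ns + ((bz - aeV : ℝ) : ℂ) * fvs - (k0 : ℂ) * (I * be)) * ((1 / oF m : ℝ) : ℂ) := by
    rw [e_fvs_d, e_bz_d, e_aeV_d, e_k0_d, e_be_d, e_ys_d, e_ns_d]; exact kap_l1 _ m
  have e_kap_re : v271 = kap.re := by
    rw [e_kap_d, a_kap]
    simp only [h271, h269, h268, h265, h263, h262, h260, h259, h258, h257, h15, e_be_im, e_k0_v, e_ys_re, e_be_re, e_ys_im, e_ns_re, e_aeV_v, e_bz_v, e_fvs_re, mul_re, mul_im, add_re, add_im, sub_re, sub_im, neg_re, neg_im, I_re, I_im, ofReal_re,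
      ofReal_im, one_re, one_im, dt, normSq_apply, re_ofNat, im_ofNat]
    try ring
  have e_kap_im : v272 = kap.im := by
    rw [e_kap_d, a_kap]
    simp only [h272, h270, h267, h266, h264, h262, h261, h259, h258, h257, h15, e_be_re, e_k0_v, e_be_im, e_ys_re, e_ys_im, e_ns_im, e_aeV_v, e_bz_v, e_fvs_im, mul_re, mul_im, add_re, add_im, sub_re, sub_im, neg_re, neg_im, I_re, I_im, ofReal_re,
      ofReal_im, one_re, one_im, dt, normSq_apply, re_ofNat, im_ofNat]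
    try ring
  obtain ⟨v273, h273, h⟩ := h
  change v273 = v72 * v125 at h273
  obtain ⟨g4, e_g4_d⟩ : ∃ q : ℝ, q = -4 * (oK * (1 / oS m)) := ⟨_, rfl⟩
  have a_g4 : -4 * (oK * (1 / oS m)) = -4 * wd := by
    rw [e_wd_d]
  have e_g4_v : v273 = -g4 := by
    rw [e_g4_d, a_g4]
    simp only [h273, h125, e_wd_v, mul_re, mul_im, add_re, add_im, sub_re, sub_im, neg_re, neg_im, I_re, I_im, ofReal_re,
      ofReal_im, one_re, one_im, dt, normSq_apply, re_ofNat, im_ofNat]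
    try ring
  obtain ⟨v274, h274, h⟩ := h
  change v274 = v125 * v212 at h274
  obtain ⟨gw, e_gw_d⟩ : ∃ q : ℝ, q = 4 * (oK * (1 / oS m)) ^ 2 := ⟨_, rfl⟩
  have a_gw : 4 * (oK * (1 / oS m)) ^ 2 = 4 * wd ^ 2 := by
    rw [e_wd_d]
  have e_gw_v : v274 = gw := by
    rw [e_gw_d, a_gw]
    simp only [h274, h212, h125, e_wd_v, mul_re, mul_im, add_re, add_im, sub_re, sub_im, neg_re, neg_im, I_re, I_im, ofReal_re,
      ofReal_im, one_re, one_im, dt, normSq_apply, re_ofNat, im_ofNat]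
    try ring
  obtain ⟨v275, h275, h⟩ := h
  change v275 = v20 * v29 at h275
  obtain ⟨v276, h276, h⟩ := h
  change v276 = v31 * v275 at h276
  obtain ⟨v277, h277, h⟩ := h
  change v277 = v77 * v275 at h277
  obtain ⟨v278, h278, h⟩ := h
  change v278 = v29 * v273 at h278
  obtain ⟨v279, h279, h⟩ := h
  change v279 = v274 - v278 at h279
  exact pQB_c7 m h1 h4 h8 h12 h13 h15 h16 h18 h19 h20 h22 e_K_d e_S_d e_ys_d e_ys_re e_ys_im h34 e_cAv_d e_sAv_d e_oav_d e_obv_d e_vs_d e_vs_re e_vs_im e_ns_d e_ns_re e_ns_im e_k0_d e_F_d e_F_v e_pr_d e_bs_d e_bs_re e_bs_im e_wd_d e_wd_v h74 e_w_d e_w_v e_hh2_d e_c2_d e_c2_re e_c2_im e_V0_d e_V0_re e_V0_im e_V0f_d e_V0f_re e_V0f_im e_mm_d e_tkv_d e_pkv_d e_kc_d e_kq_d e_qv_d h141 e_t2_d e_cax_d e_cbu_d e_ae_d e_be_d e_be_re e_be_im e_a_d e_a_re e_a_im e_aeV_d e_aeV_v e_DT_d e_gq_d e_sa_d e_sa_re e_sa_im h242 h243 h245 e_fv1_d e_fv1_re e_fv1_im h247 h248 e_fvI_d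 e_fvI_re e_fvI_im e_fvs_d e_zv_d e_zv_re e_zv_im e_bz_d e_bz_v e_kap_d e_kap_re e_kap_im e_g4_d e_g4_v e_gw_d e_gw_v h275 h276 h277 h278 h279 h

theorem pQB_c5 (m : ℝ) {v0 v1 v2 v3 v4 v5 v6 v7 v8 v9 v10 v11 v12 v13 v14 v15 v16 v17 v18 v19 v20 v21 v22 v23 K v24 v25 v26 v27 S v28 v29 v30 v31 : ℝ} {ys : ℂ} {v32 v33 v34 v35 cAv v36 v37 v38 sAv v39 v40 v41 v42 v43 v44 : ℝ} {oav : ℂ} {v45 v46 v47 v48 v49 v50 : ℝ} {obv : ℂ} {v51 v52 v53 v54 v55 v56 v57 v58 : ℝ} {vs : ℂ} {v59 v60 : ℝ} {ns : ℂ} {v61 v62 v63 k0 v64 F v65 v66 v67 v68 : ℝ} {pr : ℂ} {v69 v70 v71 : ℝ} {bs : ℂ} {v72 wd v73 v74 v75 w v76 hh2 v77 : ℝ} {c2 : ℂ} {v78 v79 : ℝ} {V0 : ℂ} {v80 v81 : ℝ} {V0f : ℂ} {v82 mm v83 v84 v85 v86 v87 v88 v89 v90 v91 v92 v93 v94 v95 v96 v97 v98 v99 v100 v101 v102 v103 v104 v105 v106 v107 v108 v109 v110 v111 v112 v113 v114 : ℝ} {tkv : ℂ} {v115 v116 v117 v118 v119 v120 v121 v122 v123 v124 v125 v126 v127 : ℝ} {pkv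 : ℂ} {v128 v129 v130 kc v131 v132 v133 v134 kq v135 v136 v137 v138 v139 v140 : ℝ} {qv : ℂ} {v141 t2 v142 v143 v144 v145 v146 v147 v148 v149 v150 v151 v152 v153 v154 v155 v156 v157 v158 v159 v160 v161 v162 v163 v164 v165 v166 v167 v168 v169 : ℝ} {cax : ℂ} {v170 v171 v172 v173 v174 v175 v176 v177 v178 v179 v180 v181 v182 v183 v184 v185 v186 v187 v188 v189 v190 v191 v192 v193 v194 v195 v196 v197 : ℝ} {cbu ae be : ℂ} {v198 v199 : ℝ} {a : ℂ}
    (h1 : v1 = s3)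
    (h4 : v4 = 1 / m1)
    (h8 : v8 = oc)
    (h12 : v12 = 1 / oS m)
    (h13 : v13 = oR m)
    (h14 : v14 = 1 / oR m)
    (h15 : v15 = 1 / oF m)
    (h16 : v16 = 1 / 6)
    (h18 : v18 = pj μB)
    (h19 : v19 = m / m1)
    (h20 : v20 = (2 : ℝ))
    (h22 : v22 = (1 : ℝ))
    (e_K_d : K = oK)
    (e_S_d : S = oS m)
    (e_ys_d : ys = oy m)
    (e_ys_re : v29 = ys.re)
    (e_ys_im : v31 = ys.im)
    (h34 : v34 = (1 : ℝ) / 2 ^ 1)
    (e_cAv_d : cAv = cA)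
    (e_sAv_d : sAv = sA)
    (e_oav_d : oav = oa m)
    (e_obv_d : obv = ob m)
    (e_vs_d : vs = ov m)
    (e_vs_re : v57 = -vs.re)
    (e_vs_im : v58 = -vs.im)
    (e_ns_d : ns = oN m)
    (e_ns_re : v59 = -ns.re)
    (e_ns_im : v60 = -ns.im)
    (e_k0_d : k0 = dt (oy m) (oN m))
    (e_k0_v : v63 = -k0)
    (e_F_d : F = oF m)
    (e_F_v : v64 = F)
    (e_pr_d : pr = oy m - oN m * (k0 : ℂ))
    (e_pr_re : v67 = pr.re)
    (e_pr_im : v68 = pr.im)
    (e_bs_d : bs = oB m)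
    (e_bs_re : v70 = bs.re)
    (e_bs_im : v71 = -bs.im)
    (e_wd_d : wd = oK * (1 / oS m))
    (e_wd_v : v72 = wd)
    (h74 : v74 = (3 : ℝ))
    (e_w_d : w = 3 * oK * (1 / oS m) ^ 2)
    (e_w_v : v75 = w)
    (h76 : v76 = v20 * v72)
    (e_hh2_d : hh2 = 2 * (oK * (1 / oS m)))
    (e_c2_d : c2 = (hh2 : ℂ) - oy m)
    (e_c2_re : v77 = c2.re)
    (e_c2_im : v31 = -c2.im)
    (e_V0_d : V0 = oV m)
    (e_V0_re : v79 = V0.re)
    (e_V0_im : v78 = V0.im)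
    (e_V0f_d : V0f = oV m / (oF m : ℂ))
    (e_V0f_re : v80 = V0f.re)
    (e_V0f_im : v81 = V0f.im)
    (e_mm_d : mm = m)
    (e_tkv_d : tkv = tk m)
    (h125 : v125 = (4 : ℝ))
    (e_pkv_d : pkv = pk m)
    (e_kc_d : kc = oc * (3 * (4 - Real.sqrt 2) / 4))
    (e_kq_d : kq = oS m * s3 * (1 / 27) * (1 / oK) ^ 2)
    (e_qv_d : qv = qy m)
    (h141 : v141 = v19 * v19)
    (e_t2_d : t2 = (m / m1) ^ 2)
    (e_cax_d : cax = (dB.ax).ev m)
    (e_cbu_d : cbu = (dB.bu).ev m)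
    (e_ae_d : ae = dB.ae m)
    (e_ae_re : v169 = ae.re)
    (e_ae_im : v154 = ae.im)
    (e_be_d : be = dB.be m)
    (e_be_re : v197 = be.re)
    (e_be_im : v182 = be.im)
    (e_a_d : a = qy m + dB.ae m)
    (e_a_re : v198 = a.re)
    (e_a_im : v199 = a.im)
    (h : TrE (realAlg (fun i => get 0 (l1 μB m) i) (m / m1) 0) (pQB.drop 200) [v199, v198, v197, v196, v195, v194, v193, v192, v191, v190, v189, v188, v187, v186, v185, v184, v183, v182, v181, v180, v179, v178, v177, v176, v175, v174, v173, v172, v171, v170, v169, v168, v167, v166, v165, v164, v163, v162, v161, v160, v159, v158, v157, v156, v155, v154, v153, v152, v151, v150, v149, v148, v147, v146, v145, v144, v143, v142, v141, v140, v139, v138, v137, v136, v135, v134, v133, v132, v131, v130, v129, v128, v127, v126, v125, v124, v123, v122, v121, v120, v119, v118, v117, v116, v115, v114, v113, v112, v111, v110, v109, v108, v107, v106, v105,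 v104, v103, v102, v101, v100, v99, v98, v97, v96, v95, v94, v93, v92, v91, v90, v89, v88, v87, v86, v85, v84, v83, v82, v81, v80, v79, v78, v77, v76, v75, v74, v73, v72, v71, v70, v69, v68, v67, v66, v65, v64, v63, v62, v61, v60, v59, v58, v57, v56, v55, v54, v53, v52, v51, v50, v49, v48, v47, v46, v45, v44, v43, v42, v41, v40, v39, v38, v37, v36, v35, v34, v33, v32, v31, v30, v29, v28, v27, v26, v25, v24, v23, v22, v21, v20, v19, v18, v17, v16, v15, v14, v13, v12, v11, v10, v9, v8, v7, v6, v5, v4, v3, v2, v1, v0] (fun st => run (realAlg (fun i => get 0 (l1 μB m) i) (m / m1) 0) pQB [] = st)) :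
    pQB_goal m := by
  have hm1 : m1 ≠ 0 := m1_ne
  obtain ⟨v200, h200, h⟩ := h
  change v200 = v79 * v169 at h200
  obtain ⟨v201, h201, h⟩ := h
  change v201 = v78 * v154 at h201
  obtain ⟨v202, h202, h⟩ := h
  change v202 = v200 + v201 at h202
  obtain ⟨v203, h203, h⟩ := h
  change v203 = v15 * v202 at h203
  obtain ⟨aeV, e_aeV_d⟩ : ∃ q : ℝ, q = dt (dB.ae m) (oV m) / oF m := ⟨_, rfl⟩
  have a_aeV : dt (dB.ae m) (oV m) / oF m = dt ae V0 * (1 / oF m) := by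
    rw [e_ae_d, e_V0_d]; ring
  have e_aeV_v : v203 = aeV := by
    rw [e_aeV_d, a_aeV]
    simp only [h203, h202, h201, h200, h15, e_ae_im, e_V0_im, e_ae_re, e_V0_re, mul_re, mul_im, add_re, add_im, sub_re, sub_im, neg_re, neg_im, I_re, I_im, ofReal_re,
      ofReal_im, one_re, one_im, dt, normSq_apply, re_ofNat, im_ofNat]
    try ring
  obtain ⟨v204, h204, h⟩ := h
  change v204 = v31 * v198 at h204
  obtain ⟨v205, h205, h⟩ := h
  change v205 = v77 * v199 at h205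
  obtain ⟨v206, h206, h⟩ := h
  change v206 = v204 + v205 at h206
  obtain ⟨v207, h207, h⟩ := h
  change v207 = v76 * v199 at h207
  obtain ⟨v208, h208, h⟩ := h
  change v208 = v206 + v207 at h208
  obtain ⟨v209, h209, h⟩ := h
  change v209 = v20 * v208 at h209
  obtain ⟨v210, h210, h⟩ := h
  change v210 = v29 * v209 at h210
  obtain ⟨v211, h211, h⟩ := h
  change v211 = v31 * v209 at h211
  obtain ⟨v212, h212, h⟩ := h
  change v212 = v72 * v72 at h212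
  obtain ⟨v213, h213, h⟩ := h
  change v213 = v199 * v212 at h213
  obtain ⟨v214, h214, h⟩ := h
  change v214 = v125 * v213 at h214
  obtain ⟨v215, h215, h⟩ := h
  change v215 = v214 - v210 at h215
  obtain ⟨v216, h216, h⟩ := h
  change v216 = v75 * v198 at h216
  obtain ⟨v217, h217, h⟩ := h
  change v217 = v75 * v199 at h217
  obtain ⟨v218, h218, h⟩ := h
  change v218 = v215 - v217 at h218
  obtain ⟨v219, h219, h⟩ := h
  change v219 = v216 - v211 at h219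
  obtain ⟨DT, e_DT_d⟩ : ∃ q : ℂ, q = DVT (oy m) (qy m + dB.ae m) := ⟨_, rfl⟩
  have a_DT : DVT (oy m) (qy m + dB.ae m) = -2 * ys * ((dt a (I * c2) + 2 * wd * dt a I : ℝ) : ℂ) + ((4 * wd ^ 2 * dt a I : ℝ) : ℂ) + (w : ℂ) * (I * a) := by
    rw [e_ys_d, e_c2_d, e_hh2_d, e_wd_d, e_w_d, e_a_d]; exact DVT_l1 m _
  have e_DT_re : v218 = DT.re := by
    have q0 : c2.im = -ys.im := by linear_combination e_c2_im - e_ys_im
    rw [e_DT_d, a_DT]
    simp only [h218, h217, h215, h214, h213, h212, h210, h209, h208, h207, h206, h205, h204, h125, h76, h20, e_a_im, e_w_v, e_wd_v, e_c2_re, e_a_re, e_ys_im, e_ys_re, q0, mul_re, mul_im, add_re, add_im, sub_re, sub_im, neg_re, neg_im, I_re, I_im, ofReal_re,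
      ofReal_im, one_re, one_im, dt, normSq_apply, re_ofNat, im_ofNat]
    try ring
  have e_DT_im : v219 = DT.im := by
    have q0 : c2.im = -ys.im := by linear_combination e_c2_im - e_ys_im
    rw [e_DT_d, a_DT]
    simp only [h219, h216, h211, h209, h208, h207, h206, h205, h204, h76, h20, e_a_im, e_wd_v, e_c2_re, e_a_re, e_ys_im, e_w_v, q0, mul_re, mul_im, add_re, add_im, sub_re, sub_im, neg_re, neg_im, I_re, I_im, ofReal_re,
      ofReal_im, one_re, one_im, dt, normSq_apply, re_ofNat, im_ofNat]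
    try ring
  obtain ⟨v220, h220, h⟩ := h
  change v220 = v13 * v13 at h220
  obtain ⟨v221, h221, h⟩ := h
  change v221 = v13 * v59 at h221
  obtain ⟨v222, h222, h⟩ := h
  change v222 = v13 * v60 at h222
  obtain ⟨v223, h223, h⟩ := h
  change v223 = v8 * v220 at h223
  obtain ⟨v224, h224, h⟩ := h
  change v224 = v20 * v223 at h224
  obtain ⟨v225, h225, h⟩ := h
  change v225 = v203 - v224 at h225
  obtain ⟨v226, h226, h⟩ := h
  change v226 = v70 - v222 at h226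
  obtain ⟨v227, h227, h⟩ := h
  change v227 = v221 - v71 at h227
  obtain ⟨v228, h228, h⟩ := h
  change v228 = v197 * v226 at h228
  obtain ⟨v229, h229, h⟩ := h
  change v229 = v182 * v227 at h229
  obtain ⟨v230, h230, h⟩ := h
  change v230 = v228 + v229 at h230
  obtain ⟨v231, h231, h⟩ := h
  change v231 = v225 + v230 at h231
  obtain ⟨gq, e_gq_d⟩ : ∃ q : ℝ, q = aeV - 2 * oc * oR m ^ 2 + dt be (bs - (oR m : ℂ) * (I * ns)) := ⟨_, rfl⟩
  have e_gq_v : v231 = gq := by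
    rw [e_gq_d]
    simp only [h231, h230, h229, h228, h227, h226, h225, h224, h223, h222, h221, h220, h20, h13, h8, e_bs_im, e_ns_re, e_be_im, e_ns_im, e_bs_re, e_be_re, e_aeV_v, mul_re, mul_im, add_re, add_im, sub_re, sub_im, neg_re, neg_im, I_re, I_im, ofReal_re,
      ofReal_im, one_re, one_im, dt, normSq_apply, re_ofNat, im_ofNat]
    try ring
  obtain ⟨v232, h232, h⟩ := h
  change v232 = v59 * v231 at h232
  obtain ⟨v233, h233, h⟩ := h
  change v233 = v60 * v231 at h233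
  obtain ⟨v234, h234, h⟩ := h
  change v234 = v218 + v232 at h234
  obtain ⟨v235, h235, h⟩ := h
  change v235 = v219 + v233 at h235
  obtain ⟨v236, h236, h⟩ := h
  change v236 = v13 * v197 at h236
  obtain ⟨v237, h237, h⟩ := h
  change v237 = v13 * v182 at h237
  obtain ⟨v238, h238, h⟩ := h
  change v238 = v237 - v234 at h238
  obtain ⟨v239, h239, h⟩ := h
  change v239 = v235 + v236 at h239
  exact pQB_c6 m h1 h4 h8 h12 h13 h14 h15 h16 h18 h19 h20 h22 e_K_d e_S_d e_ys_d e_ys_re e_ys_im h34 e_cAv_d e_sAv_d e_oav_d e_obv_d e_vs_d e_vs_re e_vs_im e_ns_d e_ns_re e_ns_im e_k0_d e_k0_v e_F_d e_F_v e_pr_d e_pr_re e_pr_im e_bs_d e_bs_re e_bs_im e_wd_d e_wd_v h74 e_w_d e_w_v e_hh2_d e_c2_d e_c2_re e_c2_im e_V0_d e_V0_re e_V0_im e_V0f_d e_V0f_re e_V0f_im e_mm_d e_tkv_d h125 e_pkv_d e_kc_d e_kq_d e_qv_d h141 e_t2_d e_cax_d e_cbu_d e_ae_d e_be_d e_be_re e_be_im e_a_d e_a_re e_a_im e_aeV_d e_aeV_v h212 e_DT_d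 e_DT_re e_DT_im e_gq_d e_gq_v h232 h233 h234 h235 h236 h237 h238 h239 h

theorem pQB_c4 (m : ℝ) {v0 v1 v2 v3 v4 v5 v6 v7 v8 v9 v10 v11 v12 v13 v14 v15 v16 v17 v18 v19 v20 v21 v22 v23 K v24 v25 v26 v27 S v28 v29 v30 v31 : ℝ} {ys : ℂ} {v32 v33 v34 v35 cAv v36 v37 v38 sAv v39 v40 v41 v42 v43 v44 : ℝ} {oav : ℂ} {v45 v46 v47 v48 v49 v50 : ℝ} {obv : ℂ} {v51 v52 v53 v54 v55 v56 v57 v58 : ℝ} {vs : ℂ} {v59 v60 : ℝ} {ns : ℂ} {v61 v62 v63 k0 v64 F v65 v66 v67 v68 : ℝ} {pr : ℂ} {v69 v70 v71 : ℝ} {bs : ℂ} {v72 wd v73 v74 v75 w v76 hh2 v77 : ℝ} {c2 : ℂ} {v78 v79 : ℝ} {V0 : ℂ} {v80 v81 : ℝ} {V0f : ℂ} {v82 mm v83 v84 v85 v86 v87 v88 v89 v90 v91 v92 v93 v94 v95 v96 v97 v98 v99 v100 v101 v102 v103 v104 v105 v106 v107 v108 v109 v110 v111 v112 v113 v114 : ℝ} {tkv : ℂ} {v115 v116 v117 v118 v119 v120 v121 v122 v123 v124 v125 v126 v127 : ℝ} {pkv : ℂ} {v128 v129 v130 kc v131 v132 v133 v134 kq v135 v136 v137 v138 v139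 v140 : ℝ} {qv : ℂ} {v141 t2 v142 v143 v144 v145 v146 v147 v148 v149 v150 v151 v152 v153 v154 v155 v156 v157 v158 v159 : ℝ}
    (h1 : v1 = s3)
    (h4 : v4 = 1 / m1)
    (h8 : v8 = oc)
    (h12 : v12 = 1 / oS m)
    (h13 : v13 = oR m)
    (h14 : v14 = 1 / oR m)
    (h15 : v15 = 1 / oF m)
    (h16 : v16 = 1 / 6)
    (h18 : v18 = pj μB)
    (h19 : v19 = m / m1)
    (h20 : v20 = (2 : ℝ))
    (h22 : v22 = (1 : ℝ))
    (e_K_d : K = oK)
    (e_S_d : S = oS m)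
    (e_ys_d : ys = oy m)
    (e_ys_re : v29 = ys.re)
    (e_ys_im : v31 = ys.im)
    (h34 : v34 = (1 : ℝ) / 2 ^ 1)
    (e_cAv_d : cAv = cA)
    (e_sAv_d : sAv = sA)
    (e_oav_d : oav = oa m)
    (e_obv_d : obv = ob m)
    (e_vs_d : vs = ov m)
    (e_vs_re : v57 = -vs.re)
    (e_vs_im : v58 = -vs.im)
    (e_ns_d : ns = oN m)
    (e_ns_re : v59 = -ns.re)
    (e_ns_im : v60 = -ns.im)
    (e_k0_d : k0 = dt (oy m) (oN m))
    (e_k0_v : v63 = -k0)
    (e_F_d : F = oF m)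
    (e_F_v : v64 = F)
    (e_pr_d : pr = oy m - oN m * (k0 : ℂ))
    (e_pr_re : v67 = pr.re)
    (e_pr_im : v68 = pr.im)
    (e_bs_d : bs = oB m)
    (e_bs_re : v70 = bs.re)
    (e_bs_im : v71 = -bs.im)
    (e_wd_d : wd = oK * (1 / oS m))
    (e_wd_v : v72 = wd)
    (h74 : v74 = (3 : ℝ))
    (e_w_d : w = 3 * oK * (1 / oS m) ^ 2)
    (e_w_v : v75 = w)
    (h76 : v76 = v20 * v72)
    (e_hh2_d : hh2 = 2 * (oK * (1 / oS m)))
    (e_c2_d : c2 = (hh2 : ℂ) - oy m)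
    (e_c2_re : v77 = c2.re)
    (e_c2_im : v31 = -c2.im)
    (e_V0_d : V0 = oV m)
    (e_V0_re : v79 = V0.re)
    (e_V0_im : v78 = V0.im)
    (e_V0f_d : V0f = oV m / (oF m : ℂ))
    (e_V0f_re : v80 = V0f.re)
    (e_V0f_im : v81 = V0f.im)
    (e_mm_d : mm = m)
    (e_tkv_d : tkv = tk m)
    (h125 : v125 = (4 : ℝ))
    (e_pkv_d : pkv = pk m)
    (e_kc_d : kc = oc * (3 * (4 - Real.sqrt 2) / 4))
    (e_kq_d : kq = oS m * s3 * (1 / 27) * (1 / oK) ^ 2)
    (e_qv_d : qv = qy m)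
    (e_qv_re : v139 = qv.re)
    (e_qv_im : v140 = qv.im)
    (h141 : v141 = v19 * v19)
    (e_t2_d : t2 = (m / m1) ^ 2)
    (h142 : v142 = (21160355 : ℝ) / 2 ^ 45)
    (h143 : v143 = v141 * v142)
    (h144 : v144 = (20784505 : ℝ) / 2 ^ 42)
    (h145 : v145 = v144 - v143)
    (h146 : v146 = v141 * v145)
    (h147 : v147 = (10128217875 : ℝ) / 2 ^ 44)
    (h148 : v148 = v146 + v147)
    (h149 : v149 = v141 * v148)
    (h150 : v150 = (421711404925 : ℝ) / 2 ^ 45)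
    (h151 : v151 = v149 - v150)
    (h152 : v152 = v141 * v151)
    (h153 : v153 = (713500522835 : ℝ) / 2 ^ 45)
    (h154 : v154 = v152 + v153)
    (h155 : v155 = (187925 : ℝ) / 2 ^ 42)
    (h156 : v156 = v141 * v155)
    (h157 : v157 = (5149145 : ℝ) / 2 ^ 42)
    (h158 : v158 = v157 - v156)
    (h159 : v159 = v141 * v158)
    (h : TrE (realAlg (fun i => get 0 (l1 μB m) i) (m / m1) 0) (pQB.drop 160) [v159, v158, v157, v156, v155, v154, v153, v152, v151, v150, v149, v148, v147, v146, v145, v144, v143, v142, v141, v140, v139, v138, v137, v136, v135, v134, v133, v132, v131, v130, v129, v128, v127, v126, v125, v124, v123, v122, v121, v120, v119, v118, v117, v116, v115, v114, v113, v112, v111, v110, v109, v108, v107, v106, v105, v104, v103, v102, v101, v100, v99, v98, v97, v96, v95, v94, v93, v92, v91, v90, v89, v88, v87, v86, v85, v84, v83, v82, v81, v80, v79, v78, v77, v76, v75, v74, v73, v72, v71,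 v70, v69, v68, v67, v66, v65, v64, v63, v62, v61, v60, v59, v58, v57, v56, v55, v54, v53, v52, v51, v50, v49, v48, v47, v46, v45, v44, v43, v42, v41, v40, v39, v38, v37, v36, v35, v34, v33, v32, v31, v30, v29, v28, v27, v26, v25, v24, v23, v22, v21, v20, v19, v18, v17, v16, v15, v14, v13, v12, v11, v10, v9, v8, v7, v6, v5, v4, v3, v2, v1, v0] (fun st => run (realAlg (fun i => get 0 (l1 μB m) i) (m / m1) 0) pQB [] = st)) :
    pQB_goal m := by
  have hm1 : m1 ≠ 0 := m1_ne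
  obtain ⟨v160, h160, h⟩ := h
  replace h160 : v160 = (1681815995 : ℝ) / 2 ^ 45 := by rw [h160]; norm_num [step, realAlg]
  obtain ⟨v161, h161, h⟩ := h
  change v161 = v159 + v160 at h161
  obtain ⟨v162, h162, h⟩ := h
  change v162 = v141 * v161 at h162
  obtain ⟨v163, h163, h⟩ := h
  replace h163 : v163 = (59962921075 : ℝ) / 2 ^ 45 := by rw [h163]; norm_num [step, realAlg]
  obtain ⟨v164, h164, h⟩ := h
  change v164 = v162 - v163 at h164
  obtain ⟨v165, h165, h⟩ := h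
  change v165 = v141 * v164 at h165
  obtain ⟨v166, h166, h⟩ := h
  replace h166 : v166 = (370432084665 : ℝ) / 2 ^ 45 := by rw [h166]; norm_num [step, realAlg]
  obtain ⟨v167, h167, h⟩ := h
  change v167 = v165 + v166 at h167
  obtain ⟨v168, h168, h⟩ := h
  change v168 = v19 * v167 at h168
  obtain ⟨v169, h169, h⟩ := h
  change v169 = v1 * v168 at h169
  obtain ⟨cax, e_cax_d⟩ : ∃ q : ℂ, q = (dB.ax).ev m := ⟨_, rfl⟩
  have e_cax_re : v154 = cax.re := by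
    rw [e_cax_d]
    simp only [dB, Cf.ev, hor, sml, axp, axq, bup, buq, List.map, μB, h154, h153, h152, h151, h150, h149, h148, h147, h146, h145, h144, h143, h142, h141, h19, mul_re, mul_im, add_re, add_im, sub_re, sub_im, neg_re, neg_im, I_re, I_im, ofReal_re,
      ofReal_im, one_re, one_im, dt, normSq_apply, re_ofNat, im_ofNat]
    try ring
  have e_cax_im : v169 = cax.im := by
    rw [e_cax_d]
    simp only [dB, Cf.ev, hor, sml, axp, axq, bup, buq, List.map, μB, h169, h168, h167, h166, h165, h164, h163, h162, h161, h160, h159, h158, h157, h156, h155, h141, h19, h1, mul_re, mul_im, add_re, add_im, sub_re, sub_im, neg_re, neg_im, I_re, I_im, ofReal_re,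
      ofReal_im, one_re, one_im, dt, normSq_apply, re_ofNat, im_ofNat]
    try ring
  obtain ⟨v170, h170, h⟩ := h
  replace h170 : v170 = (223142145 : ℝ) / 2 ^ 45 := by rw [h170]; norm_num [step, realAlg]
  obtain ⟨v171, h171, h⟩ := h
  change v171 = v141 * v170 at h171
  obtain ⟨v172, h172, h⟩ := h
  replace h172 : v172 = (-451057585 : ℝ) / 2 ^ 43 := by rw [h172]; norm_num [step, realAlg]
  obtain ⟨v173, h173, h⟩ := h
  change v173 = v172 - v171 at h173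
  obtain ⟨v174, h174, h⟩ := h
  change v174 = v141 * v173 at h174
  obtain ⟨v175, h175, h⟩ := h
  replace h175 : v175 = (134699115005 : ℝ) / 2 ^ 44 := by rw [h175]; norm_num [step, realAlg]
  obtain ⟨v176, h176, h⟩ := h
  change v176 = v174 + v175 at h176
  obtain ⟨v177, h177, h⟩ := h
  change v177 = v141 * v176 at h177
  obtain ⟨v178, h178, h⟩ := h
  replace h178 : v178 = (897639886465 : ℝ) / 2 ^ 43 := by rw [h178]; norm_num [step, realAlg]
  obtain ⟨v179, h179, h⟩ := h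
  change v179 = v177 - v178 at h179
  obtain ⟨v180, h180, h⟩ := h
  change v180 = v141 * v179 at h180
  obtain ⟨v181, h181, h⟩ := h
  replace h181 : v181 = (6654950327245 : ℝ) / 2 ^ 45 := by rw [h181]; norm_num [step, realAlg]
  obtain ⟨v182, h182, h⟩ := h
  change v182 = v180 + v181 at h182
  obtain ⟨v183, h183, h⟩ := h
  replace h183 : v183 = (9884855 : ℝ) / 2 ^ 44 := by rw [h183]; norm_num [step, realAlg]
  obtain ⟨v184, h184, h⟩ := h
  change v184 = v141 * v183 at h184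
  obtain ⟨v185, h185, h⟩ := h
  replace h185 : v185 = (468346685 : ℝ) / 2 ^ 45 := by rw [h185]; norm_num [step, realAlg]
  obtain ⟨v186, h186, h⟩ := h
  change v186 = v185 - v184 at h186
  obtain ⟨v187, h187, h⟩ := h
  change v187 = v141 * v186 at h187
  obtain ⟨v188, h188, h⟩ := h
  replace h188 : v188 = (10877587605 : ℝ) / 2 ^ 44 := by rw [h188]; norm_num [step, realAlg]
  obtain ⟨v189, h189, h⟩ := h
  change v189 = v187 + v188 at h189
  obtain ⟨v190, h190, h⟩ := h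
  change v190 = v141 * v189 at h190
  obtain ⟨v191, h191, h⟩ := h
  replace h191 : v191 = (691361003415 : ℝ) / 2 ^ 45 := by rw [h191]; norm_num [step, realAlg]
  obtain ⟨v192, h192, h⟩ := h
  change v192 = v190 - v191 at h192
  obtain ⟨v193, h193, h⟩ := h
  change v193 = v141 * v192 at h193
  obtain ⟨v194, h194, h⟩ := h
  replace h194 : v194 = (1000229722535 : ℝ) / 2 ^ 43 := by rw [h194]; norm_num [step, realAlg]
  obtain ⟨v195, h195, h⟩ := h
  change v195 = v193 + v194 at h195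
  obtain ⟨v196, h196, h⟩ := h
  change v196 = v19 * v195 at h196
  obtain ⟨v197, h197, h⟩ := h
  change v197 = v1 * v196 at h197
  obtain ⟨cbu, e_cbu_d⟩ : ∃ q : ℂ, q = (dB.bu).ev m := ⟨_, rfl⟩
  have e_cbu_re : v182 = cbu.re := by
    rw [e_cbu_d]
    simp only [dB, Cf.ev, hor, sml, axp, axq, bup, buq, List.map, μB, h182, h181, h180, h179, h178, h177, h176, h175, h174, h173, h172, h171, h170, h141, h19, mul_re, mul_im, add_re, add_im, sub_re, sub_im, neg_re, neg_im, I_re, I_im, ofReal_re,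
      ofReal_im, one_re, one_im, dt, normSq_apply, re_ofNat, im_ofNat]
    try ring
  have e_cbu_im : v197 = cbu.im := by
    rw [e_cbu_d]
    simp only [dB, Cf.ev, hor, sml, axp, axq, bup, buq, List.map, μB, h197, h196, h195, h194, h193, h192, h191, h190, h189, h188, h187, h186, h185, h184, h183, h141, h19, h1, mul_re, mul_im, add_re, add_im, sub_re, sub_im, neg_re, neg_im, I_re, I_im, ofReal_re,
      ofReal_im, one_re, one_im, dt, normSq_apply, re_ofNat, im_ofNat]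
    try ring
  obtain ⟨ae, e_ae_d⟩ : ∃ q : ℂ, q = dB.ae m := ⟨_, rfl⟩
  have a_ae : dB.ae m = I * (starRingEnd ℂ) cax := by
    rw [e_cax_d]; rfl
  have e_ae_re : v169 = ae.re := by
    rw [e_ae_d, a_ae]
    simp only [conj_re, conj_im, e_cax_im, mul_re, mul_im, add_re, add_im, sub_re, sub_im, neg_re, neg_im, I_re, I_im, ofReal_re,
      ofReal_im, one_re, one_im, dt, normSq_apply, re_ofNat, im_ofNat]
    try ring
  have e_ae_im : v154 = ae.im := by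
    rw [e_ae_d, a_ae]
    simp only [conj_re, conj_im, e_cax_re, mul_re, mul_im, add_re, add_im, sub_re, sub_im, neg_re, neg_im, I_re, I_im, ofReal_re,
      ofReal_im, one_re, one_im, dt, normSq_apply, re_ofNat, im_ofNat]
    try ring
  obtain ⟨be, e_be_d⟩ : ∃ q : ℂ, q = dB.be m := ⟨_, rfl⟩
  have a_be : dB.be m = I * (starRingEnd ℂ) cbu := by
    rw [e_cbu_d]; rfl
  have e_be_re : v197 = be.re := by
    rw [e_be_d, a_be]
    simp only [conj_re, conj_im, e_cbu_im, mul_re, mul_im, add_re, add_im, sub_re, sub_im, neg_re, neg_im, I_re, I_im, ofReal_re,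
      ofReal_im, one_re, one_im, dt, normSq_apply, re_ofNat, im_ofNat]
    try ring
  have e_be_im : v182 = be.im := by
    rw [e_be_d, a_be]
    simp only [conj_re, conj_im, e_cbu_re, mul_re, mul_im, add_re, add_im, sub_re, sub_im, neg_re, neg_im, I_re, I_im, ofReal_re,
      ofReal_im, one_re, one_im, dt, normSq_apply, re_ofNat, im_ofNat]
    try ring
  obtain ⟨v198, h198, h⟩ := h
  change v198 = v139 + v169 at h198
  obtain ⟨v199, h199, h⟩ := h
  change v199 = v140 + v154 at h199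
  obtain ⟨a, e_a_d⟩ : ∃ q : ℂ, q = qy m + dB.ae m := ⟨_, rfl⟩
  have a_a : qy m + dB.ae m = qv + ae := by
    rw [e_qv_d, e_ae_d]
  have e_a_re : v198 = a.re := by
    rw [e_a_d, a_a]
    simp only [h198, e_ae_re, e_qv_re, mul_re, mul_im, add_re, add_im, sub_re, sub_im, neg_re, neg_im, I_re, I_im, ofReal_re,
      ofReal_im, one_re, one_im, dt, normSq_apply, re_ofNat, im_ofNat]
    try ring
  have e_a_im : v199 = a.im := by
    rw [e_a_d, a_a]
    simp only [h199, e_ae_im, e_qv_im, mul_re, mul_im, add_re, add_im, sub_re, sub_im, neg_re, neg_im, I_re, I_im, ofReal_re,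
      ofReal_im, one_re, one_im, dt, normSq_apply, re_ofNat, im_ofNat]
    try ring
  exact pQB_c5 m h1 h4 h8 h12 h13 h14 h15 h16 h18 h19 h20 h22 e_K_d e_S_d e_ys_d e_ys_re e_ys_im h34 e_cAv_d e_sAv_d e_oav_d e_obv_d e_vs_d e_vs_re e_vs_im e_ns_d e_ns_re e_ns_im e_k0_d e_k0_v e_F_d e_F_v e_pr_d e_pr_re e_pr_im e_bs_d e_bs_re e_bs_im e_wd_d e_wd_v h74 e_w_d e_w_v h76 e_hh2_d e_c2_d e_c2_re e_c2_im e_V0_d e_V0_re e_V0_im e_V0f_d e_V0f_re e_V0f_im e_mm_d e_tkv_d h125 e_pkv_d e_kc_d e_kq_d e_qv_d h141 e_t2_d e_cax_d e_cbu_d e_ae_d e_ae_re e_ae_im e_be_d e_be_re e_be_im e_a_d e_a_re e_a_im h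

theorem pQB_c3 (m : ℝ) {v0 v1 v2 v3 v4 v5 v6 v7 v8 v9 v10 v11 v12 v13 v14 v15 v16 v17 v18 v19 v20 v21 v22 v23 K v24 v25 v26 v27 S v28 v29 v30 v31 : ℝ} {ys : ℂ} {v32 v33 v34 v35 cAv v36 v37 v38 sAv v39 v40 v41 v42 v43 v44 : ℝ} {oav : ℂ} {v45 v46 v47 v48 v49 v50 : ℝ} {obv : ℂ} {v51 v52 v53 v54 v55 v56 v57 v58 : ℝ} {vs : ℂ} {v59 v60 : ℝ} {ns : ℂ} {v61 v62 v63 k0 v64 F v65 v66 v67 v68 : ℝ} {pr : ℂ} {v69 v70 v71 : ℝ} {bs : ℂ} {v72 wd v73 v74 v75 w v76 hh2 v77 : ℝ} {c2 : ℂ} {v78 v79 : ℝ} {V0 : ℂ} {v80 v81 : ℝ} {V0f : ℂ} {v82 mm v83 v84 v85 v86 v87 v88 v89 v90 v91 v92 v93 v94 v95 v96 v97 v98 v99 v100 v101 v102 v103 v104 v105 v106 v107 v108 v109 v110 v111 v112 v113 v114 : ℝ} {tkv : ℂ} {v115 v116 v117 v118 v119 : ℝ}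
    (h0 : v0 = Real.sqrt 2)
    (h1 : v1 = s3)
    (h2 : v2 = kp)
    (h4 : v4 = 1 / m1)
    (h8 : v8 = oc)
    (h9 : v9 = 1 / oK)
    (h10 : v10 = Real.cosh m)
    (h11 : v11 = Real.sinh m)
    (h12 : v12 = 1 / oS m)
    (h13 : v13 = oR m)
    (h14 : v14 = 1 / oR m)
    (h15 : v15 = 1 / oF m)
    (h16 : v16 = 1 / 6)
    (h17 : v17 = 1 / 27)
    (h18 : v18 = pj μB)
    (h19 : v19 = m / m1)
    (h20 : v20 = (2 : ℝ))
    (h22 : v22 = (1 : ℝ))
    (e_K_d : K = oK)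
    (h24 : v24 = v2 * v10)
    (e_S_d : S = oS m)
    (e_S_v : v27 = S)
    (e_ys_d : ys = oy m)
    (e_ys_re : v29 = ys.re)
    (e_ys_im : v31 = ys.im)
    (h34 : v34 = (1 : ℝ) / 2 ^ 1)
    (e_cAv_d : cAv = cA)
    (e_sAv_d : sAv = sA)
    (e_oav_d : oav = oa m)
    (e_obv_d : obv = ob m)
    (e_vs_d : vs = ov m)
    (e_vs_re : v57 = -vs.re)
    (e_vs_im : v58 = -vs.im)
    (e_ns_d : ns = oN m)
    (e_ns_re : v59 = -ns.re)
    (e_ns_im : v60 = -ns.im)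
    (e_k0_d : k0 = dt (oy m) (oN m))
    (e_k0_v : v63 = -k0)
    (e_F_d : F = oF m)
    (e_F_v : v64 = F)
    (e_pr_d : pr = oy m - oN m * (k0 : ℂ))
    (e_pr_re : v67 = pr.re)
    (e_pr_im : v68 = pr.im)
    (e_bs_d : bs = oB m)
    (e_bs_re : v70 = bs.re)
    (e_bs_im : v71 = -bs.im)
    (e_wd_d : wd = oK * (1 / oS m))
    (e_wd_v : v72 = wd)
    (h74 : v74 = (3 : ℝ))
    (e_w_d : w = 3 * oK * (1 / oS m) ^ 2)
    (e_w_v : v75 = w)
    (h76 : v76 = v20 * v72)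
    (e_hh2_d : hh2 = 2 * (oK * (1 / oS m)))
    (e_c2_d : c2 = (hh2 : ℂ) - oy m)
    (e_c2_re : v77 = c2.re)
    (e_c2_im : v31 = -c2.im)
    (e_V0_d : V0 = oV m)
    (e_V0_re : v79 = V0.re)
    (e_V0_im : v78 = V0.im)
    (e_V0f_d : V0f = oV m / (oF m : ℂ))
    (e_V0f_re : v80 = V0f.re)
    (e_V0f_im : v81 = V0f.im)
    (e_mm_d : mm = m)
    (h102 : v102 = (3 : ℝ) / 2 ^ 2)
    (e_tkv_d : tkv = tk m)
    (e_tkv_re : v98 = tkv.re)
    (e_tkv_im : v114 = tkv.im)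
    (h115 : v115 = (9 : ℝ))
    (h116 : v116 = v2 * v115)
    (h117 : v117 = (8 : ℝ))
    (h118 : v118 = v10 * v117)
    (h119 : v119 = v116 - v118)
    (h : TrE (realAlg (fun i => get 0 (l1 μB m) i) (m / m1) 0) (pQB.drop 120) [v119, v118, v117, v116, v115, v114, v113, v112, v111, v110, v109, v108, v107, v106, v105, v104, v103, v102, v101, v100, v99, v98, v97, v96, v95, v94, v93, v92, v91, v90, v89, v88, v87, v86, v85, v84, v83, v82, v81, v80, v79, v78, v77, v76, v75, v74, v73, v72, v71, v70, v69, v68, v67, v66, v65, v64, v63, v62, v61, v60, v59, v58, v57, v56, v55, v54, v53, v52, v51, v50, v49, v48, v47, v46, v45, v44, v43, v42, v41, v40, v39, v38, v37, v36, v35, v34, v33, v32, v31, v30, v29, v28, v27, v26, v25, v24, v23, v22, v21, v20, v19, v18, v17, v16, v15, v14, v13, v12, v11, v10, v9, v8, v7, v6, v5, v4, v3, v2, v1, v0] (fun st => run (realAlg (fun i => get 0 (l1 μB m) i) (m / m1) 0) pQB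 [] = st)) :
    pQB_goal m := by
  have hm1 : m1 ≠ 0 := m1_ne
  obtain ⟨v120, h120, h⟩ := h
  change v120 = v1 * v119 at h120
  obtain ⟨v121, h121, h⟩ := h
  change v121 = v11 * v120 at h121
  obtain ⟨v122, h122, h⟩ := h
  change v122 = v10 * v10 at h122
  obtain ⟨v123, h123, h⟩ := h
  change v123 = v117 * v122 at h123
  obtain ⟨v124, h124, h⟩ := h
  change v124 = v24 - v123 at h124
  obtain ⟨v125, h125, h⟩ := h
  replace h125 : v125 = (4 : ℝ) := by rw [h125]; norm_num [step, realAlg]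
  obtain ⟨v126, h126, h⟩ := h
  change v126 = v124 + v125 at h126
  obtain ⟨v127, h127, h⟩ := h
  change v127 = v74 * v126 at h127
  obtain ⟨pkv, e_pkv_d⟩ : ∃ q : ℂ, q = pk m := ⟨_, rfl⟩
  have e_pkv_re : v121 = pkv.re := by
    rw [e_pkv_d]
    simp only [pk, h121, h120, h119, h118, h117, h116, h115, h11, h10, h2, h1, mul_re, mul_im, add_re, add_im, sub_re, sub_im, neg_re, neg_im, I_re, I_im, ofReal_re,
      ofReal_im, one_re, one_im, dt, normSq_apply, re_ofNat, im_ofNat]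
    try ring
  have e_pkv_im : v127 = pkv.im := by
    rw [e_pkv_d]
    simp only [pk, h127, h126, h125, h124, h123, h122, h117, h74, h24, h10, h2, mul_re, mul_im, add_re, add_im, sub_re, sub_im, neg_re, neg_im, I_re, I_im, ofReal_re,
      ofReal_im, one_re, one_im, dt, normSq_apply, re_ofNat, im_ofNat]
    try ring
  obtain ⟨v128, h128, h⟩ := h
  change v128 = v125 - v0 at h128
  obtain ⟨v129, h129, h⟩ := h
  change v129 = v102 * v128 at h129
  obtain ⟨v130, h130, h⟩ := h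
  change v130 = v8 * v129 at h130
  obtain ⟨kc, e_kc_d⟩ : ∃ q : ℝ, q = oc * (3 * (4 - Real.sqrt 2) / 4) := ⟨_, rfl⟩
  have e_kc_v : v130 = kc := by
    rw [e_kc_d]
    simp only [h130, h129, h128, h125, h102, h8, h0, mul_re, mul_im, add_re, add_im, sub_re, sub_im, neg_re, neg_im, I_re, I_im, ofReal_re,
      ofReal_im, one_re, one_im, dt, normSq_apply, re_ofNat, im_ofNat]
    try ring
  obtain ⟨v131, h131, h⟩ := h
  change v131 = v1 * v27 at h131
  obtain ⟨v132, h132, h⟩ := h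
  change v132 = v17 * v131 at h132
  obtain ⟨v133, h133, h⟩ := h
  change v133 = v9 * v9 at h133
  obtain ⟨v134, h134, h⟩ := h
  change v134 = v132 * v133 at h134
  obtain ⟨kq, e_kq_d⟩ : ∃ q : ℝ, q = oS m * s3 * (1 / 27) * (1 / oK) ^ 2 := ⟨_, rfl⟩
  have a_kq : oS m * s3 * (1 / 27) * (1 / oK) ^ 2 = S * s3 * (1 / 27) * (1 / oK) ^ 2 := by
    rw [e_S_d]
  have e_kq_v : v134 = kq := by
    rw [e_kq_d, a_kq]
    simp only [h134, h133, h132, h131, h17, h9, h1, e_S_v, mul_re, mul_im, add_re, add_im, sub_re, sub_im, neg_re, neg_im, I_re, I_im, ofReal_re,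
      ofReal_im, one_re, one_im, dt, normSq_apply, re_ofNat, im_ofNat]
    try ring
  obtain ⟨v135, h135, h⟩ := h
  change v135 = v121 * v130 at h135
  obtain ⟨v136, h136, h⟩ := h
  change v136 = v127 * v130 at h136
  obtain ⟨v137, h137, h⟩ := h
  change v137 = v98 + v135 at h137
  obtain ⟨v138, h138, h⟩ := h
  change v138 = v114 + v136 at h138
  obtain ⟨v139, h139, h⟩ := h
  change v139 = v134 * v137 at h139
  obtain ⟨v140, h140, h⟩ := h
  change v140 = v134 * v138 at h140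
  obtain ⟨qv, e_qv_d⟩ : ∃ q : ℂ, q = qy m := ⟨_, rfl⟩
  have a_qv : qy m = (kq : ℂ) * (tkv + (kc : ℂ) * pkv) := by
    rw [e_kq_d, e_tkv_d, e_kc_d, e_pkv_d]; exact qy_l1 m
  have e_qv_re : v139 = qv.re := by
    rw [e_qv_d, a_qv]
    simp only [h139, h137, h135, e_kc_v, e_pkv_re, e_tkv_re, e_kq_v, mul_re, mul_im, add_re, add_im, sub_re, sub_im, neg_re, neg_im, I_re, I_im, ofReal_re,
      ofReal_im, one_re, one_im, dt, normSq_apply, re_ofNat, im_ofNat]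
    try ring
  have e_qv_im : v140 = qv.im := by
    rw [e_qv_d, a_qv]
    simp only [h140, h138, h136, e_kc_v, e_pkv_im, e_tkv_im, e_kq_v, mul_re, mul_im, add_re, add_im, sub_re, sub_im, neg_re, neg_im, I_re, I_im, ofReal_re,
      ofReal_im, one_re, one_im, dt, normSq_apply, re_ofNat, im_ofNat]
    try ring
  obtain ⟨v141, h141, h⟩ := h
  change v141 = v19 * v19 at h141
  obtain ⟨t2, e_t2_d⟩ : ∃ q : ℝ, q = (m / m1) ^ 2 := ⟨_, rfl⟩
  have e_t2_v : v141 = t2 := by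
    rw [e_t2_d]
    simp only [h141, h19, mul_re, mul_im, add_re, add_im, sub_re, sub_im, neg_re, neg_im, I_re, I_im, ofReal_re,
      ofReal_im, one_re, one_im, dt, normSq_apply, re_ofNat, im_ofNat]
    try ring
  obtain ⟨v142, h142, h⟩ := h
  replace h142 : v142 = (21160355 : ℝ) / 2 ^ 45 := by rw [h142]; norm_num [step, realAlg]
  obtain ⟨v143, h143, h⟩ := h
  change v143 = v141 * v142 at h143
  obtain ⟨v144, h144, h⟩ := h
  replace h144 : v144 = (20784505 : ℝ) / 2 ^ 42 := by rw [h144]; norm_num [step, realAlg]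
  obtain ⟨v145, h145, h⟩ := h
  change v145 = v144 - v143 at h145
  obtain ⟨v146, h146, h⟩ := h
  change v146 = v141 * v145 at h146
  obtain ⟨v147, h147, h⟩ := h
  replace h147 : v147 = (10128217875 : ℝ) / 2 ^ 44 := by rw [h147]; norm_num [step, realAlg]
  obtain ⟨v148, h148, h⟩ := h
  change v148 = v146 + v147 at h148
  obtain ⟨v149, h149, h⟩ := h
  change v149 = v141 * v148 at h149
  obtain ⟨v150, h150, h⟩ := h
  replace h150 : v150 = (421711404925 : ℝ) / 2 ^ 45 := by rw [h150]; norm_num [step, realAlg]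
  obtain ⟨v151, h151, h⟩ := h
  change v151 = v149 - v150 at h151
  obtain ⟨v152, h152, h⟩ := h
  change v152 = v141 * v151 at h152
  obtain ⟨v153, h153, h⟩ := h
  replace h153 : v153 = (713500522835 : ℝ) / 2 ^ 45 := by rw [h153]; norm_num [step, realAlg]
  obtain ⟨v154, h154, h⟩ := h
  change v154 = v152 + v153 at h154
  obtain ⟨v155, h155, h⟩ := h
  replace h155 : v155 = (187925 : ℝ) / 2 ^ 42 := by rw [h155]; norm_num [step, realAlg]
  obtain ⟨v156, h156, h⟩ := h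
  change v156 = v141 * v155 at h156
  obtain ⟨v157, h157, h⟩ := h
  replace h157 : v157 = (5149145 : ℝ) / 2 ^ 42 := by rw [h157]; norm_num [step, realAlg]
  obtain ⟨v158, h158, h⟩ := h
  change v158 = v157 - v156 at h158
  obtain ⟨v159, h159, h⟩ := h
  change v159 = v141 * v158 at h159
  exact pQB_c4 m h1 h4 h8 h12 h13 h14 h15 h16 h18 h19 h20 h22 e_K_d e_S_d e_ys_d e_ys_re e_ys_im h34 e_cAv_d e_sAv_d e_oav_d e_obv_d e_vs_d e_vs_re e_vs_im e_ns_d e_ns_re e_ns_im e_k0_d e_k0_v e_F_d e_F_v e_pr_d e_pr_re e_pr_im e_bs_d e_bs_re e_bs_im e_wd_d e_wd_v h74 e_w_d e_w_v h76 e_hh2_d e_c2_d e_c2_re e_c2_im e_V0_d e_V0_re e_V0_im e_V0f_d e_V0f_re e_V0f_im e_mm_d e_tkv_d h125 e_pkv_d e_kc_d e_kq_d e_qv_d e_qv_re e_qv_im h141 e_t2_d h142 h143 h144 h145 h146 h147 h148 h149 h150 h151 h152 h153 h154 h155 h156 h157 h158 h159 h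

theorem pQB_c2 (m : ℝ) {v0 v1 v2 v3 v4 v5 v6 v7 v8 v9 v10 v11 v12 v13 v14 v15 v16 v17 v18 v19 v20 v21 v22 v23 K v24 v25 v26 v27 S v28 v29 v30 v31 : ℝ} {ys : ℂ} {v32 v33 v34 v35 cAv v36 v37 v38 sAv v39 v40 v41 v42 v43 v44 : ℝ} {oav : ℂ} {v45 v46 v47 v48 v49 v50 : ℝ} {obv : ℂ} {v51 v52 v53 v54 v55 v56 v57 v58 : ℝ} {vs : ℂ} {v59 v60 : ℝ} {ns : ℂ} {v61 v62 v63 k0 v64 F v65 v66 v67 v68 : ℝ} {pr : ℂ} {v69 v70 v71 : ℝ} {bs : ℂ} {v72 wd v73 v74 v75 w v76 hh2 v77 : ℝ} {c2 : ℂ} {v78 v79 : ℝ} {V0 : ℂ}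
    (h0 : v0 = Real.sqrt 2)
    (h1 : v1 = s3)
    (h2 : v2 = kp)
    (h3 : v3 = m1)
    (h4 : v4 = 1 / m1)
    (h8 : v8 = oc)
    (h9 : v9 = 1 / oK)
    (h10 : v10 = Real.cosh m)
    (h11 : v11 = Real.sinh m)
    (h12 : v12 = 1 / oS m)
    (h13 : v13 = oR m)
    (h14 : v14 = 1 / oR m)
    (h15 : v15 = 1 / oF m)
    (h16 : v16 = 1 / 6)
    (h17 : v17 = 1 / 27)
    (h18 : v18 = pj μB)
    (h19 : v19 = m / m1)
    (h20 : v20 = (2 : ℝ))
    (h22 : v22 = (1 : ℝ))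
    (e_K_d : K = oK)
    (h24 : v24 = v2 * v10)
    (h25 : v25 = v2 * v11)
    (e_S_d : S = oS m)
    (e_S_v : v27 = S)
    (e_ys_d : ys = oy m)
    (e_ys_re : v29 = ys.re)
    (e_ys_im : v31 = ys.im)
    (h34 : v34 = (1 : ℝ) / 2 ^ 1)
    (e_cAv_d : cAv = cA)
    (e_sAv_d : sAv = sA)
    (e_oav_d : oav = oa m)
    (e_obv_d : obv = ob m)
    (e_vs_d : vs = ov m)
    (e_vs_re : v57 = -vs.re)
    (e_vs_im : v58 = -vs.im)
    (e_ns_d : ns = oN m)
    (e_ns_re : v59 = -ns.re)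
    (e_ns_im : v60 = -ns.im)
    (e_k0_d : k0 = dt (oy m) (oN m))
    (e_k0_v : v63 = -k0)
    (e_F_d : F = oF m)
    (e_F_v : v64 = F)
    (e_pr_d : pr = oy m - oN m * (k0 : ℂ))
    (e_pr_re : v67 = pr.re)
    (e_pr_im : v68 = pr.im)
    (e_bs_d : bs = oB m)
    (e_bs_re : v70 = bs.re)
    (e_bs_im : v71 = -bs.im)
    (e_wd_d : wd = oK * (1 / oS m))
    (e_wd_v : v72 = wd)
    (h74 : v74 = (3 : ℝ))
    (e_w_d : w = 3 * oK * (1 / oS m) ^ 2)
    (e_w_v : v75 = w)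
    (h76 : v76 = v20 * v72)
    (e_hh2_d : hh2 = 2 * (oK * (1 / oS m)))
    (e_c2_d : c2 = (hh2 : ℂ) - oy m)
    (e_c2_re : v77 = c2.re)
    (e_c2_im : v31 = -c2.im)
    (e_V0_d : V0 = oV m)
    (e_V0_re : v79 = V0.re)
    (e_V0_im : v78 = V0.im)
    (h : TrE (realAlg (fun i => get 0 (l1 μB m) i) (m / m1) 0) (pQB.drop 80) [v79, v78, v77, v76, v75, v74, v73, v72, v71, v70, v69, v68, v67, v66, v65, v64, v63, v62, v61, v60, v59, v58, v57, v56, v55, v54, v53, v52, v51, v50, v49, v48, v47, v46, v45, v44, v43, v42, v41, v40, v39, v38, v37, v36, v35, v34, v33, v32, v31, v30, v29, v28, v27, v26, v25, v24, v23, v22, v21, v20, v19, v18, v17, v16, v15, v14, v13, v12, v11, v10, v9, v8, v7, v6, v5, v4, v3, v2, v1, v0] (fun st => run (realAlg (fun i => get 0 (l1 μB m) i) (m / m1) 0) pQB [] = st)) :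
    pQB_goal m := by
  have hm1 : m1 ≠ 0 := m1_ne
  obtain ⟨v80, h80, h⟩ := h
  change v80 = v15 * v79 at h80
  obtain ⟨v81, h81, h⟩ := h
  change v81 = v15 * v78 at h81
  obtain ⟨V0f, e_V0f_d⟩ : ∃ q : ℂ, q = oV m / (oF m : ℂ) := ⟨_, rfl⟩
  have a_V0f : oV m / (oF m : ℂ) = V0 * ((1 / oF m : ℝ) : ℂ) := by
    rw [e_V0_d]; push_cast; ring
  have e_V0f_re : v80 = V0f.re := by
    rw [e_V0f_d, a_V0f]
    simp only [h80, h15, e_V0_re, mul_re, mul_im, add_re, add_im, sub_re, sub_im, neg_re, neg_im, I_re, I_im, ofReal_re,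
      ofReal_im, one_re, one_im, dt, normSq_apply, re_ofNat, im_ofNat]
    try ring
  have e_V0f_im : v81 = V0f.im := by
    rw [e_V0f_d, a_V0f]
    simp only [h81, h15, e_V0_im, mul_re, mul_im, add_re, add_im, sub_re, sub_im, neg_re, neg_im, I_re, I_im, ofReal_re,
      ofReal_im, one_re, one_im, dt, normSq_apply, re_ofNat, im_ofNat]
    try ring
  obtain ⟨v82, h82, h⟩ := h
  change v82 = v3 * v19 at h82
  obtain ⟨mm, e_mm_d⟩ : ∃ q : ℝ, q = m := ⟨_, rfl⟩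
  have a_mm : m = m1 * (m / m1) := by
    field_simp
  have e_mm_v : v82 = mm := by
    rw [e_mm_d, a_mm]
    simp only [h82, h19, h3, mul_re, mul_im, add_re, add_im, sub_re, sub_im, neg_re, neg_im, I_re, I_im, ofReal_re,
      ofReal_im, one_re, one_im, dt, normSq_apply, re_ofNat, im_ofNat]
    try ring
  obtain ⟨v83, h83, h⟩ := h
  change v83 = v10 * v11 at h83
  obtain ⟨v84, h84, h⟩ := h
  replace h84 : v84 = (93 : ℝ) / 2 ^ 2 := by rw [h84]; norm_num [step, realAlg]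
  obtain ⟨v85, h85, h⟩ := h
  change v85 = v0 * v84 at h85
  obtain ⟨v86, h86, h⟩ := h
  replace h86 : v86 = (-15 : ℝ) := by rw [h86]; norm_num [step, realAlg]
  obtain ⟨v87, h87, h⟩ := h
  change v87 = v86 - v85 at h87
  obtain ⟨v88, h88, h⟩ := h
  change v88 = v25 * v87 at h88
  obtain ⟨v89, h89, h⟩ := h
  change v89 = v0 * v83 at h89
  obtain ⟨v90, h90, h⟩ := h
  replace h90 : v90 = (24 : ℝ) := by rw [h90]; norm_num [step, realAlg]
  obtain ⟨v91, h91, h⟩ := h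
  change v91 = v89 * v90 at h91
  obtain ⟨v92, h92, h⟩ := h
  change v92 = v88 + v91 at h92
  obtain ⟨v93, h93, h⟩ := h
  change v93 = v0 * v90 at h93
  obtain ⟨v94, h94, h⟩ := h
  replace h94 : v94 = (6 : ℝ) := by rw [h94]; norm_num [step, realAlg]
  obtain ⟨v95, h95, h⟩ := h
  change v95 = v24 * v94 at h95
  obtain ⟨v96, h96, h⟩ := h
  change v96 = v93 - v95 at h96
  obtain ⟨v97, h97, h⟩ := h
  change v97 = v82 * v96 at h97
  obtain ⟨v98, h98, h⟩ := h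
  change v98 = v92 + v97 at h98
  obtain ⟨v99, h99, h⟩ := h
  replace h99 : v99 = (12 : ℝ) := by rw [h99]; norm_num [step, realAlg]
  obtain ⟨v100, h100, h⟩ := h
  change v100 = v0 * v99 at h100
  obtain ⟨v101, h101, h⟩ := h
  change v101 = v100 - v94 at h101
  obtain ⟨v102, h102, h⟩ := h
  replace h102 : v102 = (3 : ℝ) / 2 ^ 2 := by rw [h102]; norm_num [step, realAlg]
  obtain ⟨v103, h103, h⟩ := h
  change v103 = v0 * v102 at h103
  obtain ⟨v104, h104, h⟩ := h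
  change v104 = v74 - v103 at h104
  obtain ⟨v105, h105, h⟩ := h
  change v105 = v24 * v104 at h105
  obtain ⟨v106, h106, h⟩ := h
  change v106 = v101 - v105 at h106
  obtain ⟨v107, h107, h⟩ := h
  change v107 = v11 * v11 at h107
  obtain ⟨v108, h108, h⟩ := h
  change v108 = v0 * v107 at h108
  obtain ⟨v109, h109, h⟩ := h
  change v109 = v90 * v108 at h109
  obtain ⟨v110, h110, h⟩ := h
  change v110 = v106 + v109 at h110
  obtain ⟨v111, h111, h⟩ := h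
  change v111 = v25 * v82 at h111
  obtain ⟨v112, h112, h⟩ := h
  change v112 = v94 * v111 at h112
  obtain ⟨v113, h113, h⟩ := h
  change v113 = v110 - v112 at h113
  obtain ⟨v114, h114, h⟩ := h
  change v114 = v1 * v113 at h114
  obtain ⟨tkv, e_tkv_d⟩ : ∃ q : ℂ, q = tk m := ⟨_, rfl⟩
  have a_tkv : tk m = (⟨kp * Real.sinh m * (-15 - 93 / 4 * Real.sqrt 2) + 24 * Real.sqrt 2 * Real.sinh m * Real.cosh m + mm * (24 * Real.sqrt 2 - 6 * kp * Real.cosh m), s3 * (12 * Real.sqrt 2 - 6 - (3 - 3 / 4 * Real.sqrt 2) * kp * Real.cosh m + 24 * Real.sqrt 2 * Real.sinh m ^ 2 - 6 * mm * kp * Real.sinh m)⟩ : ℂ) := by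
    rw [e_mm_d]; rfl
  have e_tkv_re : v98 = tkv.re := by
    rw [e_tkv_d, a_tkv]
    simp only [tk, h98, h97, h96, h95, h94, h93, h92, h91, h90, h89, h88, h87, h86, h85, h84, h83, h25, h24, h11, h10, h2, h0, e_mm_v, mul_re, mul_im, add_re, add_im, sub_re, sub_im, neg_re, neg_im, I_re, I_im, ofReal_re,
      ofReal_im, one_re, one_im, dt, normSq_apply, re_ofNat, im_ofNat]
    try ring
  have e_tkv_im : v114 = tkv.im := by
    rw [e_tkv_d, a_tkv]
    simp only [tk, h114, h113, h112, h111, h110, h109, h108, h107, h106, h105, h104, h103, h102, h101, h100, h99, h94, h90, h74, h25, h24, h11, h10, h2, h1, h0, e_mm_v, mul_re, mul_im, add_re, add_im, sub_re, sub_im, neg_re, neg_im, I_re, I_im, ofReal_re,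
      ofReal_im, one_re, one_im, dt, normSq_apply, re_ofNat, im_ofNat]
    try ring
  obtain ⟨v115, h115, h⟩ := h
  replace h115 : v115 = (9 : ℝ) := by rw [h115]; norm_num [step, realAlg]
  obtain ⟨v116, h116, h⟩ := h
  change v116 = v2 * v115 at h116
  obtain ⟨v117, h117, h⟩ := h
  replace h117 : v117 = (8 : ℝ) := by rw [h117]; norm_num [step, realAlg]
  obtain ⟨v118, h118, h⟩ := h
  change v118 = v10 * v117 at h118
  obtain ⟨v119, h119, h⟩ := h
  change v119 = v116 - v118 at h119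
  exact pQB_c3 m h0 h1 h2 h4 h8 h9 h10 h11 h12 h13 h14 h15 h16 h17 h18 h19 h20 h22 e_K_d h24 e_S_d e_S_v e_ys_d e_ys_re e_ys_im h34 e_cAv_d e_sAv_d e_oav_d e_obv_d e_vs_d e_vs_re e_vs_im e_ns_d e_ns_re e_ns_im e_k0_d e_k0_v e_F_d e_F_v e_pr_d e_pr_re e_pr_im e_bs_d e_bs_re e_bs_im e_wd_d e_wd_v h74 e_w_d e_w_v h76 e_hh2_d e_c2_d e_c2_re e_c2_im e_V0_d e_V0_re e_V0_im e_V0f_d e_V0f_re e_V0f_im e_mm_d h102 e_tkv_d e_tkv_re e_tkv_im h115 h116 h117 h118 h119 h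

theorem pQB_c1 (m : ℝ) {v0 v1 v2 v3 v4 v5 v6 v7 v8 v9 v10 v11 v12 v13 v14 v15 v16 v17 v18 v19 v20 v21 v22 v23 K v24 v25 v26 v27 S v28 v29 v30 v31 : ℝ} {ys : ℂ} {v32 v33 v34 v35 cAv v36 v37 v38 sAv v39 : ℝ}
    (h0 : v0 = Real.sqrt 2)
    (h1 : v1 = s3)
    (h2 : v2 = kp)
    (h3 : v3 = m1)
    (h4 : v4 = 1 / m1)
    (h5 : v5 = oC)
    (h6 : v6 = cB)
    (h7 : v7 = sB)
    (h8 : v8 = oc)
    (h9 : v9 = 1 / oK)
    (h10 : v10 = Real.cosh m)
    (h11 : v11 = Real.sinh m)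
    (h12 : v12 = 1 / oS m)
    (h13 : v13 = oR m)
    (h14 : v14 = 1 / oR m)
    (h15 : v15 = 1 / oF m)
    (h16 : v16 = 1 / 6)
    (h17 : v17 = 1 / 27)
    (h18 : v18 = pj μB)
    (h19 : v19 = m / m1)
    (h20 : v20 = (2 : ℝ))
    (h22 : v22 = (1 : ℝ))
    (e_K_d : K = oK)
    (e_K_v : v23 = K)
    (h24 : v24 = v2 * v10)
    (h25 : v25 = v2 * v11)
    (e_S_d : S = oS m)
    (e_S_v : v27 = S)
    (e_ys_d : ys = oy m)
    (e_ys_re : v29 = ys.re)
    (e_ys_im : v31 = ys.im)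
    (h34 : v34 = (1 : ℝ) / 2 ^ 1)
    (e_cAv_d : cAv = cA)
    (e_cAv_v : v35 = cAv)
    (e_sAv_d : sAv = sA)
    (e_sAv_v : v38 = sAv)
    (h39 : v39 = v11 * v35)
    (h : TrE (realAlg (fun i => get 0 (l1 μB m) i) (m / m1) 0) (pQB.drop 40) [v39, v38, v37, v36, v35, v34, v33, v32, v31, v30, v29, v28, v27, v26, v25, v24, v23, v22, v21, v20, v19, v18, v17, v16, v15, v14, v13, v12, v11, v10, v9, v8, v7, v6, v5, v4, v3, v2, v1, v0] (fun st => run (realAlg (fun i => get 0 (l1 μB m) i) (m / m1) 0) pQB [] = st)) :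
    pQB_goal m := by
  have hm1 : m1 ≠ 0 := m1_ne
  obtain ⟨v40, h40, h⟩ := h
  change v40 = v5 * v39 at h40
  obtain ⟨v41, h41, h⟩ := h
  change v41 = v10 * v38 at h41
  obtain ⟨v42, h42, h⟩ := h
  change v42 = v2 * v6 at h42
  obtain ⟨v43, h43, h⟩ := h
  change v43 = v41 - v42 at h43
  obtain ⟨v44, h44, h⟩ := h
  change v44 = v5 * v43 at h44
  obtain ⟨oav, e_oav_d⟩ : ∃ q : ℂ, q = oa m := ⟨_, rfl⟩
  have a_oav : oa m = (⟨oC * (Real.sinh m * cAv), oC * (Real.cosh m * sAv - kp * cB)⟩ : ℂ) := by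
    rw [e_cAv_d, e_sAv_d]; rfl
  have e_oav_re : v40 = oav.re := by
    rw [e_oav_d, a_oav]
    simp only [oa, h40, h39, h11, h5, e_cAv_v, mul_re, mul_im, add_re, add_im, sub_re, sub_im, neg_re, neg_im, I_re, I_im, ofReal_re,
      ofReal_im, one_re, one_im, dt, normSq_apply, re_ofNat, im_ofNat]
    try ring
  have e_oav_im : v44 = oav.im := by
    rw [e_oav_d, a_oav]
    simp only [oa, h44, h43, h42, h41, h10, h6, h5, h2, e_sAv_v, mul_re, mul_im, add_re, add_im, sub_re, sub_im, neg_re, neg_im, I_re, I_im, ofReal_re,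
      ofReal_im, one_re, one_im, dt, normSq_apply, re_ofNat, im_ofNat]
    try ring
  obtain ⟨v45, h45, h⟩ := h
  change v45 = v7 * v11 at h45
  obtain ⟨v46, h46, h⟩ := h
  change v46 = v5 * v45 at h46
  obtain ⟨v47, h47, h⟩ := h
  change v47 = v6 * v10 at h47
  obtain ⟨v48, h48, h⟩ := h
  change v48 = v2 * v38 at h48
  obtain ⟨v49, h49, h⟩ := h
  change v49 = v47 - v48 at h49
  obtain ⟨v50, h50, h⟩ := h
  change v50 = v5 * v49 at h50
  obtain ⟨obv, e_obv_d⟩ : ∃ q : ℂ, q = ob m := ⟨_, rfl⟩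
  have a_obv : ob m = (⟨-(oC * (Real.sinh m * sB)), oC * (Real.cosh m * cB - kp * sAv)⟩ : ℂ) := by
    rw [e_sAv_d]; rfl
  have e_obv_re : v46 = -obv.re := by
    rw [e_obv_d, a_obv]
    simp only [ob, h46, h45, h11, h7, h5, mul_re, mul_im, add_re, add_im, sub_re, sub_im, neg_re, neg_im, I_re, I_im, ofReal_re,
      ofReal_im, one_re, one_im, dt, normSq_apply, re_ofNat, im_ofNat]
    try ring
  have e_obv_im : v50 = obv.im := by
    rw [e_obv_d, a_obv]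
    simp only [ob, h50, h49, h48, h47, h10, h6, h5, h2, e_sAv_v, mul_re, mul_im, add_re, add_im, sub_re, sub_im, neg_re, neg_im, I_re, I_im, ofReal_re,
      ofReal_im, one_re, one_im, dt, normSq_apply, re_ofNat, im_ofNat]
    try ring
  obtain ⟨v51, h51, h⟩ := h
  change v51 = v40 * v46 at h51
  obtain ⟨v52, h52, h⟩ := h
  change v52 = v44 * v50 at h52
  obtain ⟨v53, h53, h⟩ := h
  change v53 = v52 - v51 at h53
  obtain ⟨v54, h54, h⟩ := h
  change v54 = v44 * v46 at h54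
  obtain ⟨v55, h55, h⟩ := h
  change v55 = v40 * v50 at h55
  obtain ⟨v56, h56, h⟩ := h
  change v56 = v54 + v55 at h56
  obtain ⟨v57, h57, h⟩ := h
  change v57 = v14 * v53 at h57
  obtain ⟨v58, h58, h⟩ := h
  change v58 = v14 * v56 at h58
  obtain ⟨vs, e_vs_d⟩ : ∃ q : ℂ, q = ov m := ⟨_, rfl⟩
  have a_vs : ov m = -(obv * (starRingEnd ℂ) oav) * ((1 / oR m : ℝ) : ℂ) := by
    rw [e_obv_d, e_oav_d]; exact ov_l1 m
  have e_vs_re : v57 = -vs.re := by
    rw [e_vs_d, a_vs]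
    simp only [conj_re, conj_im, h57, h53, h52, h51, h14, e_obv_re, e_oav_re, e_obv_im, e_oav_im, mul_re, mul_im, add_re, add_im, sub_re, sub_im, neg_re, neg_im, I_re, I_im, ofReal_re,
      ofReal_im, one_re, one_im, dt, normSq_apply, re_ofNat, im_ofNat]
    try ring
  have e_vs_im : v58 = -vs.im := by
    rw [e_vs_d, a_vs]
    simp only [conj_re, conj_im, h58, h56, h55, h54, h14, e_obv_im, e_oav_re, e_obv_re, e_oav_im, mul_re, mul_im, add_re, add_im, sub_re, sub_im, neg_re, neg_im, I_re, I_im, ofReal_re,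
      ofReal_im, one_re, one_im, dt, normSq_apply, re_ofNat, im_ofNat]
    try ring
  obtain ⟨v59, h59, h⟩ := h
  change v59 = v14 * v57 at h59
  obtain ⟨v60, h60, h⟩ := h
  change v60 = v14 * v58 at h60
  obtain ⟨ns, e_ns_d⟩ : ∃ q : ℂ, q = oN m := ⟨_, rfl⟩
  have a_ns : oN m = vs * ((1 / oR m : ℝ) : ℂ) := by
    rw [e_vs_d]; exact oN_l1 m
  have e_ns_re : v59 = -ns.re := by
    rw [e_ns_d, a_ns]
    simp only [h59, h14, e_vs_re, mul_re, mul_im, add_re, add_im, sub_re, sub_im, neg_re, neg_im, I_re, I_im, ofReal_re,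
      ofReal_im, one_re, one_im, dt, normSq_apply, re_ofNat, im_ofNat]
    try ring
  have e_ns_im : v60 = -ns.im := by
    rw [e_ns_d, a_ns]
    simp only [h60, h14, e_vs_im, mul_re, mul_im, add_re, add_im, sub_re, sub_im, neg_re, neg_im, I_re, I_im, ofReal_re,
      ofReal_im, one_re, one_im, dt, normSq_apply, re_ofNat, im_ofNat]
    try ring
  obtain ⟨v61, h61, h⟩ := h
  change v61 = v29 * v59 at h61
  obtain ⟨v62, h62, h⟩ := h
  change v62 = v31 * v60 at h62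
  obtain ⟨v63, h63, h⟩ := h
  change v63 = v61 + v62 at h63
  obtain ⟨k0, e_k0_d⟩ : ∃ q : ℝ, q = dt (oy m) (oN m) := ⟨_, rfl⟩
  have a_k0 : dt (oy m) (oN m) = dt ys ns := by
    rw [e_ys_d, e_ns_d]
  have e_k0_v : v63 = -k0 := by
    rw [e_k0_d, a_k0]
    simp only [h63, h62, h61, e_ns_im, e_ys_im, e_ns_re, e_ys_re, mul_re, mul_im, add_re, add_im, sub_re, sub_im, neg_re, neg_im, I_re, I_im, ofReal_re,
      ofReal_im, one_re, one_im, dt, normSq_apply, re_ofNat, im_ofNat]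
    try ring
  obtain ⟨v64, h64, h⟩ := h
  change v64 = v22 - v63 at h64
  obtain ⟨F, e_F_d⟩ : ∃ q : ℝ, q = oF m := ⟨_, rfl⟩
  have a_F : oF m = 1 + k0 := by
    rw [e_k0_d]; exact oF_eq m
  have e_F_v : v64 = F := by
    rw [e_F_d, a_F]
    simp only [h64, h22, e_k0_v, mul_re, mul_im, add_re, add_im, sub_re, sub_im, neg_re, neg_im, I_re, I_im, ofReal_re,
      ofReal_im, one_re, one_im, dt, normSq_apply, re_ofNat, im_ofNat]
    try ring
  obtain ⟨v65, h65, h⟩ := h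
  change v65 = v59 * v63 at h65
  obtain ⟨v66, h66, h⟩ := h
  change v66 = v60 * v63 at h66
  obtain ⟨v67, h67, h⟩ := h
  change v67 = v29 - v65 at h67
  obtain ⟨v68, h68, h⟩ := h
  change v68 = v31 - v66 at h68
  obtain ⟨pr, e_pr_d⟩ : ∃ q : ℂ, q = oy m - oN m * (k0 : ℂ) := ⟨_, rfl⟩
  have a_pr : oy m - oN m * (k0 : ℂ) = ys - ns * (k0 : ℂ) := by
    rw [e_ys_d, e_ns_d]
  have e_pr_re : v67 = pr.re := by
    rw [e_pr_d, a_pr]
    simp only [h67, h65, e_k0_v, e_ns_re, e_ys_re, mul_re, mul_im, add_re, add_im, sub_re, sub_im, neg_re, neg_im, I_re, I_im, ofReal_re,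
      ofReal_im, one_re, one_im, dt, normSq_apply, re_ofNat, im_ofNat]
    try ring
  have e_pr_im : v68 = pr.im := by
    rw [e_pr_d, a_pr]
    simp only [h68, h66, e_k0_v, e_ns_im, e_ys_im, mul_re, mul_im, add_re, add_im, sub_re, sub_im, neg_re, neg_im, I_re, I_im, ofReal_re,
      ofReal_im, one_re, one_im, dt, normSq_apply, re_ofNat, im_ofNat]
    try ring
  obtain ⟨v69, h69, h⟩ := h
  change v69 = v13 * v15 at h69
  obtain ⟨v70, h70, h⟩ := h
  change v70 = v68 * v69 at h70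
  obtain ⟨v71, h71, h⟩ := h
  change v71 = v67 * v69 at h71
  obtain ⟨bs, e_bs_d⟩ : ∃ q : ℂ, q = oB m := ⟨_, rfl⟩
  have a_bs : oB m = -(I * pr) * ((oR m * (1 / oF m) : ℝ) : ℂ) := by
    rw [e_pr_d, e_k0_d]; exact oB_l1 m
  have e_bs_re : v70 = bs.re := by
    rw [e_bs_d, a_bs]
    simp only [h70, h69, h15, h13, e_pr_im, mul_re, mul_im, add_re, add_im, sub_re, sub_im, neg_re, neg_im, I_re, I_im, ofReal_re,
      ofReal_im, one_re, one_im, dt, normSq_apply, re_ofNat, im_ofNat]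
    try ring
  have e_bs_im : v71 = -bs.im := by
    rw [e_bs_d, a_bs]
    simp only [h71, h69, h15, h13, e_pr_re, mul_re, mul_im, add_re, add_im, sub_re, sub_im, neg_re, neg_im, I_re, I_im, ofReal_re,
      ofReal_im, one_re, one_im, dt, normSq_apply, re_ofNat, im_ofNat]
    try ring
  obtain ⟨v72, h72, h⟩ := h
  change v72 = v12 * v23 at h72
  obtain ⟨wd, e_wd_d⟩ : ∃ q : ℝ, q = oK * (1 / oS m) := ⟨_, rfl⟩
  have a_wd : oK * (1 / oS m) = K * (1 / oS m) := by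
    rw [e_K_d]
  have e_wd_v : v72 = wd := by
    rw [e_wd_d, a_wd]
    simp only [h72, h12, e_K_v, mul_re, mul_im, add_re, add_im, sub_re, sub_im, neg_re, neg_im, I_re, I_im, ofReal_re,
      ofReal_im, one_re, one_im, dt, normSq_apply, re_ofNat, im_ofNat]
    try ring
  obtain ⟨v73, h73, h⟩ := h
  change v73 = v12 * v72 at h73
  obtain ⟨v74, h74, h⟩ := h
  replace h74 : v74 = (3 : ℝ) := by rw [h74]; norm_num [step, realAlg]
  obtain ⟨v75, h75, h⟩ := h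
  change v75 = v73 * v74 at h75
  obtain ⟨w, e_w_d⟩ : ∃ q : ℝ, q = 3 * oK * (1 / oS m) ^ 2 := ⟨_, rfl⟩
  have a_w : 3 * oK * (1 / oS m) ^ 2 = 3 * wd * (1 / oS m) := by
    rw [e_wd_d]; ring
  have e_w_v : v75 = w := by
    rw [e_w_d, a_w]
    simp only [h75, h74, h73, h12, e_wd_v, mul_re, mul_im, add_re, add_im, sub_re, sub_im, neg_re, neg_im, I_re, I_im, ofReal_re,
      ofReal_im, one_re, one_im, dt, normSq_apply, re_ofNat, im_ofNat]
    try ring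
  obtain ⟨v76, h76, h⟩ := h
  change v76 = v20 * v72 at h76
  obtain ⟨hh2, e_hh2_d⟩ : ∃ q : ℝ, q = 2 * (oK * (1 / oS m)) := ⟨_, rfl⟩
  have a_hh2 : 2 * (oK * (1 / oS m)) = 2 * wd := by
    rw [e_wd_d]
  have e_hh2_v : v76 = hh2 := by
    rw [e_hh2_d, a_hh2]
    simp only [h76, h20, e_wd_v, mul_re, mul_im, add_re, add_im, sub_re, sub_im, neg_re, neg_im, I_re, I_im, ofReal_re,
      ofReal_im, one_re, one_im, dt, normSq_apply, re_ofNat, im_ofNat]
    try ring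
  obtain ⟨v77, h77, h⟩ := h
  change v77 = v76 - v29 at h77
  obtain ⟨c2, e_c2_d⟩ : ∃ q : ℂ, q = (hh2 : ℂ) - oy m := ⟨_, rfl⟩
  have a_c2 : (hh2 : ℂ) - oy m = (hh2 : ℂ) - ys := by
    rw [e_ys_d]
  have e_c2_re : v77 = c2.re := by
    rw [e_c2_d, a_c2]
    simp only [h77, e_ys_re, e_hh2_v, mul_re, mul_im, add_re, add_im, sub_re, sub_im, neg_re, neg_im, I_re, I_im, ofReal_re,
      ofReal_im, one_re, one_im, dt, normSq_apply, re_ofNat, im_ofNat]
    try ring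
  have e_c2_im : v31 = -c2.im := by
    rw [e_c2_d, a_c2]
    simp only [e_ys_im, mul_re, mul_im, add_re, add_im, sub_re, sub_im, neg_re, neg_im, I_re, I_im, ofReal_re,
      ofReal_im, one_re, one_im, dt, normSq_apply, re_ofNat, im_ofNat]
    try ring
  obtain ⟨v78, h78, h⟩ := h
  change v78 = v75 * v77 at h78
  obtain ⟨v79, h79, h⟩ := h
  change v79 = v31 * v75 at h79
  obtain ⟨V0, e_V0_d⟩ : ∃ q : ℂ, q = oV m := ⟨_, rfl⟩
  have a_V0 : oV m = I * (w : ℂ) * c2 := by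
    rw [e_w_d, e_c2_d, e_hh2_d]; exact oV_l1 m
  have e_V0_re : v79 = V0.re := by
    rw [e_V0_d, a_V0]
    simp only [h79, e_w_v, e_c2_im, mul_re, mul_im, add_re, add_im, sub_re, sub_im, neg_re, neg_im, I_re, I_im, ofReal_re,
      ofReal_im, one_re, one_im, dt, normSq_apply, re_ofNat, im_ofNat]
    try ring
  have e_V0_im : v78 = V0.im := by
    rw [e_V0_d, a_V0]
    simp only [h78, e_c2_re, e_w_v, mul_re, mul_im, add_re, add_im, sub_re, sub_im, neg_re, neg_im, I_re, I_im, ofReal_re,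
      ofReal_im, one_re, one_im, dt, normSq_apply, re_ofNat, im_ofNat]
    try ring
  exact pQB_c2 m h0 h1 h2 h3 h4 h8 h9 h10 h11 h12 h13 h14 h15 h16 h17 h18 h19 h20 h22 e_K_d h24 h25 e_S_d e_S_v e_ys_d e_ys_re e_ys_im h34 e_cAv_d e_sAv_d e_oav_d e_obv_d e_vs_d e_vs_re e_vs_im e_ns_d e_ns_re e_ns_im e_k0_d e_k0_v e_F_d e_F_v e_pr_d e_pr_re e_pr_im e_bs_d e_bs_re e_bs_im e_wd_d e_wd_v h74 e_w_d e_w_v h76 e_hh2_d e_c2_d e_c2_re e_c2_im e_V0_d e_V0_re e_V0_im h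

theorem pQB_c0 (m : ℝ)
    (h : TrE (realAlg (fun i => get 0 (l1 μB m) i) (m / m1) 0) (pQB) [] (fun st => run (realAlg (fun i => get 0 (l1 μB m) i) (m / m1) 0) pQB [] = st)) :
    pQB_goal m := by
  have hm1 : m1 ≠ 0 := m1_ne
  obtain ⟨v0, h0, h⟩ := h
  change v0 = Real.sqrt 2 at h0
  obtain ⟨v1, h1, h⟩ := h
  change v1 = s3 at h1
  obtain ⟨v2, h2, h⟩ := h
  change v2 = kp at h2
  obtain ⟨v3, h3, h⟩ := h
  change v3 = m1 at h3
  obtain ⟨v4, h4, h⟩ := h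
  change v4 = 1 / m1 at h4
  obtain ⟨v5, h5, h⟩ := h
  change v5 = oC at h5
  obtain ⟨v6, h6, h⟩ := h
  change v6 = cB at h6
  obtain ⟨v7, h7, h⟩ := h
  change v7 = sB at h7
  obtain ⟨v8, h8, h⟩ := h
  change v8 = oc at h8
  obtain ⟨v9, h9, h⟩ := h
  change v9 = 1 / oK at h9
  obtain ⟨v10, h10, h⟩ := h
  change v10 = Real.cosh m at h10
  obtain ⟨v11, h11, h⟩ := h
  change v11 = Real.sinh m at h11
  obtain ⟨v12, h12, h⟩ := h
  change v12 = 1 / oS m at h12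
  obtain ⟨v13, h13, h⟩ := h
  change v13 = oR m at h13
  obtain ⟨v14, h14, h⟩ := h
  change v14 = 1 / oR m at h14
  obtain ⟨v15, h15, h⟩ := h
  change v15 = 1 / oF m at h15
  obtain ⟨v16, h16, h⟩ := h
  change v16 = 1 / 6 at h16
  obtain ⟨v17, h17, h⟩ := h
  change v17 = 1 / 27 at h17
  obtain ⟨v18, h18, h⟩ := h
  change v18 = pj μB at h18
  obtain ⟨v19, h19, h⟩ := h
  change v19 = m / m1 at h19
  obtain ⟨v20, h20, h⟩ := h
  replace h20 : v20 = (2 : ℝ) := by rw [h20]; norm_num [step, realAlg]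
  obtain ⟨v21, h21, h⟩ := h
  change v21 = v0 * v20 at h21
  obtain ⟨v22, h22, h⟩ := h
  replace h22 : v22 = (1 : ℝ) := by rw [h22]; norm_num [step, realAlg]
  obtain ⟨v23, h23, h⟩ := h
  change v23 = v21 - v22 at h23
  obtain ⟨K, e_K_d⟩ : ∃ q : ℝ, q = oK := ⟨_, rfl⟩
  have e_K_v : v23 = K := by
    rw [e_K_d]
    simp only [oK, h23, h22, h21, h20, h0, mul_re, mul_im, add_re, add_im, sub_re, sub_im, neg_re, neg_im, I_re, I_im, ofReal_re,
      ofReal_im, one_re, one_im, dt, normSq_apply, re_ofNat, im_ofNat]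
    try ring
  obtain ⟨v24, h24, h⟩ := h
  change v24 = v2 * v10 at h24
  obtain ⟨v25, h25, h⟩ := h
  change v25 = v2 * v11 at h25
  obtain ⟨v26, h26, h⟩ := h
  change v26 = v20 * v24 at h26
  obtain ⟨v27, h27, h⟩ := h
  change v27 = v26 - v22 at h27
  obtain ⟨S, e_S_d⟩ : ∃ q : ℝ, q = oS m := ⟨_, rfl⟩
  have e_S_v : v27 = S := by
    rw [e_S_d]
    simp only [oS, h27, h26, h24, h22, h20, h10, h2, mul_re, mul_im, add_re, add_im, sub_re, sub_im, neg_re, neg_im, I_re, I_im, ofReal_re,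
      ofReal_im, one_re, one_im, dt, normSq_apply, re_ofNat, im_ofNat]
    try ring
  obtain ⟨v28, h28, h⟩ := h
  change v28 = v24 - v20 at h28
  obtain ⟨v29, h29, h⟩ := h
  change v29 = v12 * v28 at h29
  obtain ⟨v30, h30, h⟩ := h
  change v30 = v1 * v25 at h30
  obtain ⟨v31, h31, h⟩ := h
  change v31 = v12 * v30 at h31
  obtain ⟨ys, e_ys_d⟩ : ∃ q : ℂ, q = oy m := ⟨_, rfl⟩
  have e_ys_re : v29 = ys.re := by
    rw [e_ys_d]
    simp only [oy_l1, h29, h28, h24, h20, h12, h10, h2, mul_re, mul_im, add_re, add_im, sub_re, sub_im, neg_re, neg_im, I_re, I_im, ofReal_re,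
      ofReal_im, one_re, one_im, dt, normSq_apply, re_ofNat, im_ofNat]
    try ring
  have e_ys_im : v31 = ys.im := by
    rw [e_ys_d]
    simp only [oy_l1, h31, h30, h25, h12, h11, h2, h1, mul_re, mul_im, add_re, add_im, sub_re, sub_im, neg_re, neg_im, I_re, I_im, ofReal_re,
      ofReal_im, one_re, one_im, dt, normSq_apply, re_ofNat, im_ofNat]
    try ring
  obtain ⟨v32, h32, h⟩ := h
  change v32 = v1 * v6 at h32
  obtain ⟨v33, h33, h⟩ := h
  change v33 = v32 - v7 at h33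
  obtain ⟨v34, h34, h⟩ := h
  replace h34 : v34 = (1 : ℝ) / 2 ^ 1 := by rw [h34]; norm_num [step, realAlg]
  obtain ⟨v35, h35, h⟩ := h
  change v35 = v33 * v34 at h35
  obtain ⟨cAv, e_cAv_d⟩ : ∃ q : ℝ, q = cA := ⟨_, rfl⟩
  have e_cAv_v : v35 = cAv := by
    rw [e_cAv_d]
    simp only [cA_eq, h35, h34, h33, h32, h7, h6, h1, mul_re, mul_im, add_re, add_im, sub_re, sub_im, neg_re, neg_im, I_re, I_im, ofReal_re,
      ofReal_im, one_re, one_im, dt, normSq_apply, re_ofNat, im_ofNat]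
    try ring
  obtain ⟨v36, h36, h⟩ := h
  change v36 = v1 * v7 at h36
  obtain ⟨v37, h37, h⟩ := h
  change v37 = v6 + v36 at h37
  obtain ⟨v38, h38, h⟩ := h
  change v38 = v34 * v37 at h38
  obtain ⟨sAv, e_sAv_d⟩ : ∃ q : ℝ, q = sA := ⟨_, rfl⟩
  have e_sAv_v : v38 = sAv := by
    rw [e_sAv_d]
    simp only [sA_eq, h38, h37, h36, h34, h7, h6, h1, mul_re, mul_im, add_re, add_im, sub_re, sub_im, neg_re, neg_im, I_re, I_im, ofReal_re,
      ofReal_im, one_re, one_im, dt, normSq_apply, re_ofNat, im_ofNat]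
    try ring
  obtain ⟨v39, h39, h⟩ := h
  change v39 = v11 * v35 at h39
  exact pQB_c1 m h0 h1 h2 h3 h4 h5 h6 h7 h8 h9 h10 h11 h12 h13 h14 h15 h16 h17 h18 h19 h20 h22 e_K_d e_K_v h24 h25 e_S_d e_S_v e_ys_d e_ys_re e_ys_im h34 e_cAv_d e_cAv_v e_sAv_d e_sAv_v h39 h

theorem pQB_val (m : ℝ) :
    OutEq (run (realAlg (fun i => get 0 (l1 μB m) i) (m / m1) 0) pQB []) pQB_out ((dB.pt m).sy) :=
  pQB_c0 m (trE_runst (realAlg (fun i => get 0 (l1 μB m) i) (m / m1) 0) pQB)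

end Pool.H61.Rh
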