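import Pool.Agent.H61.Rz.Sl

/-! # Rr: scaled forms of the other inequalities of a zone -/

set_option autoImplicit false

namespace Pool.H61.Rh

open Complex

/-- `d η` for the vertex `j` -/
noncomputable def ηd (j : Fin 3) (y : ℂ) : ℂ :=
  I * ((1 - normSq y : ℝ) : ℂ)
    * (((2 * (1 - normSq y) : ℝ) : ℂ) * uu j - ((1 - 2 * dt (uu j) y : ℝ) : ℂ) * y)

lemma ηd_eq (j : Fin 3) (y : ℂ) (h : 1 - 2 * dt (uu j) y ≠ 0) :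
    ηd j y = ((1 - 2 * dt (uu j) y : ℝ) : ℂ) * Vx y j := by
  have hc : ((1 - 2 * dt (uu j) y : ℝ) : ℂ) ≠ 0 := by exact_mod_cast h
  rw [ηd, Vx, ofReal_div]
  field_simp

noncomputable def Pt.fpr (P : Pt) (r : ℝ) (X : ℂ) : ℂ :=
  (-((1 / 2 + oc : ℝ) : ℂ) * P.vs - I * P.b - I * (VBr P.c r X * (r : ℂ))) * (P.fr r X : ℂ)
    - P.M X * (r : ℂ) / 6

noncomputable def Pt.ctr (P : Pt) (r : ℝ) (X η : ℂ) (d : ℝ) : ℝ :=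
  P.fr r X * (d * (1 / 2) - dt (P.a + VAxr P.c r X * (r : ℂ)) η)
    + dt (P.fpr r X) (P.vs + P.yr r X * (P.rs : ℂ)) * d

noncomputable def Pt.fqr (P : Pt) (r : ℝ) (X η : ℂ) (d : ℝ) : ℂ :=
  VBd P.c (X * (r : ℂ)) η * (P.fr r X : ℂ) - P.fpr r X * (d : ℂ)

noncomputable def Pt.wr (P : Pt) (r : ℝ) (X η : ℂ) (d : ℝ) : ℂ :=
  P.fqr r X η d * (P.fr r X : ℂ) + P.yr r X * ((P.ctr r X η d * (957 / 1000) : ℝ) : ℂ)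

noncomputable def Pt.RCr (P : Pt) (z : Zc) (r : ℝ) (X η : ℂ) (d : ℝ) : ℝ :=
  P.fr r X ^ 4 * d ^ 2 * (4 * z.lam) * ((z.K0 - z.R1 * r) * P.fr r X ^ 2
      + 493 / 1000 * dt (P.fpr r X) (P.yr r X))
    - z.Phi * normSq (P.yr r X * ((P.fr r X ^ 3 * d * z.lam : ℝ) : ℂ) - P.wr r X η d)

lemma fpr_eq (P : Pt) (r : ℝ) (X : ℂ) : P.fpr r X = P.fp (X * (r : ℂ)) := by
  rw [Pt.fpr, Pt.fp, f_scale, VB_scale, M_scale]; push_cast; ring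

lemma ctr_eq (P : Pt) (r : ℝ) (X η : ℂ) (d : ℝ) :
    P.ctr r X ((d : ℂ) * η) d = P.ct (X * (r : ℂ)) η * d := by
  rw [Pt.ctr, Pt.ct, fpr_eq, f_scale, VAx_scale, dt_smul_right', mul_comm (r : ℂ),
    mul_comm (P.rs : ℂ), Pt.yr]
  ring

lemma fqr_eq (P : Pt) (r : ℝ) (X η : ℂ) (d : ℝ) :
    P.fqr r X ((d : ℂ) * η) d = P.fq (X * (r : ℂ)) η * (d : ℂ) := by
  rw [Pt.fqr, Pt.fq, fpr_eq, f_scale, VBd_smul]; ring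

lemma wr_eq (P : Pt) (r : ℝ) (X η : ℂ) (d : ℝ) :
    P.wr r X ((d : ℂ) * η) d = P.wh (X * (r : ℂ)) η * (d : ℂ) := by
  rw [Pt.wr, Pt.wh, fqr_eq, ctr_eq, f_scale, Pt.yr]; push_cast; ring

lemma RCr_eq (P : Pt) (z : Zc) (r : ℝ) (X η : ℂ) (d : ℝ) :
    P.RCr z r X ((d : ℂ) * η) d
      = (4 * z.lam * (z.K0 - z.R1 * r) * P.f (X * (r : ℂ)) ^ 6
        + 4 * z.lam * (493 / 1000) * P.f (X * (r : ℂ)) ^ 4 * dt (P.fp (X * (r : ℂ))) (P.ys + X * (r : ℂ))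
        - z.Phi * normSq ((z.lam * P.f (X * (r : ℂ)) ^ 3 : ℝ) * (P.ys + X * (r : ℂ))
          - P.wh (X * (r : ℂ)) η)) * d ^ 2 := by
  have h : P.yr r X * ((P.fr r X ^ 3 * d * z.lam : ℝ) : ℂ) - P.wh (X * (r : ℂ)) η * (d : ℂ)
      = (((z.lam * P.fr r X ^ 3 : ℝ) : ℂ) * P.yr r X - P.wh (X * (r : ℂ)) η) * (d : ℂ) := by
    push_cast; ring
  rw [Pt.RCr, wr_eq, h, normSq_mul, normSq_ofReal, fpr_eq, f_scale, Pt.yr]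
  ring

end Pool.H61.Rh
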