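import Pool.Agent.H61.Re.F2
import Pool.Agent.H61.Rz.L1
import Pool.Agent.H61.Rz.L2

/-! # Rs0: the residuals are `μ` times common functions -/

set_option autoImplicit false

namespace Pool.H61.Rh

open Complex

/-- the common lists of the extra costate -/
noncomputable def dL : VD where
  xx := ⟨[], []⟩
  xb := ⟨[], []⟩
  x3 := ⟨[], []⟩
  x2b := ⟨[], []⟩
  xu := ⟨[], []⟩
  xc := ⟨[], []⟩
  x2u := ⟨[], []⟩
  x2c := ⟨[], []⟩
  xbu := ⟨[], []⟩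
  ax := ⟨axp, axq⟩
  bu := ⟨bup, buq⟩

lemma hor_sml (μ : ℝ) (l : List ℝ) (t : ℝ) : hor (sml μ l) t = μ * hor l t := by
  induction l with
  | nil => show (0 : ℝ) = μ * 0; ring
  | cons a l ih =>
    show μ * a + t * hor (sml μ l) t = μ * (a + t * hor l t)
    rw [ih]; ring

lemma dhor_sml (μ : ℝ) (l : List ℝ) (t : ℝ) : dhor (sml μ l) t = μ * dhor l t := by
  induction l with
  | nil => show (0 : ℝ) = μ * 0; ring
  | cons a l ih =>
    show hor (sml μ l) t + t * dhor (sml μ l) t = μ * (hor l t + t * dhor l t)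
    rw [ih, hor_sml]; ring

lemma ev_sml (μ : ℝ) (p q : List ℝ) (m : ℝ) :
    (⟨sml μ p, sml μ q⟩ : Cf).ev m = (μ : ℂ) * (⟨p, q⟩ : Cf).ev m := by
  apply Complex.ext
  · simp only [Cf.ev, hor_sml, re_ofReal_mul]
  · simp only [Cf.ev, hor_sml, im_ofReal_mul]; ring

lemma dv_sml (μ : ℝ) (p q : List ℝ) (m : ℝ) :
    (⟨sml μ p, sml μ q⟩ : Cf).dv m = (μ : ℂ) * (⟨p, q⟩ : Cf).dv m := by
  apply Complex.ext
  · simp only [Cf.dv, dhor_sml, re_ofReal_mul]; ring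
  · simp only [Cf.dv, hor_sml, dhor_sml, im_ofReal_mul]; ring

/-- the data `d` carry `μ` times the common extra costate -/
structure IsL (d : VD) (μ : ℝ) : Prop where
  ae : ∀ m, d.ae m = (μ : ℂ) * dL.ae m
  aed : ∀ m, d.aed m = (μ : ℂ) * dL.aed m
  be : ∀ m, d.be m = (μ : ℂ) * dL.be m
  bed : ∀ m, d.bed m = (μ : ℂ) * dL.bed m

lemma isL_of {d : VD} {μ : ℝ} (h1 : d.ax = ⟨sml μ axp, sml μ axq⟩)
    (h2 : d.bu = ⟨sml μ bup, sml μ buq⟩) : IsL d μ := by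
  have e : ∀ z : ℂ, I * (starRingEnd ℂ) ((μ : ℂ) * z) = (μ : ℂ) * (I * (starRingEnd ℂ) z) := by
    intro z; rw [map_mul, conj_ofReal]; ring
  refine ⟨fun m => ?_, fun m => ?_, fun m => ?_, fun m => ?_⟩
  · rw [VD.ae, h1, ev_sml, e]; rfl
  · rw [VD.aed, h1, dv_sml, e]; rfl
  · rw [VD.be, h2, ev_sml, e]; rfl
  · rw [VD.bed, h2, dv_sml, e]; rfl

lemma dA_isL : IsL dA μA := isL_of rfl rfl

lemma dB_isL : IsL dB μB := isL_of rfl rfl

/-- linear part of the residual, `y` part -/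
noncomputable def lx (m : ℝ) : ℂ :=
  dL.aed m / (osd m : ℂ) + (DVT (oy m) (dL.ae m)
    - ((dt (dL.ae m) (oV m) / oF m + dt (dL.be m) (oB m - (oR m : ℂ) * (I * oN m)) : ℝ) : ℂ) * oN m
    + (oR m : ℂ) * (I * dL.be m)) / (oF m : ℂ)

/-- linear part of the residual, `v` part -/
noncomputable def lu (m : ℝ) : ℂ :=
  dL.bed m / (osd m : ℂ) - ((starRingEnd ℂ) (es (oa m) ^ 8) - 2 * I * dL.be m
    - (((dt (dL.be m) (-(I * oy m)) : ℝ) : ℂ) * oN m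
      + ((dt (dL.be m) (I * ov m - oB m) - dt (dL.ae m) (oV m) / oF m : ℝ) : ℂ) *
        ((oy m - ((dt (oy m) (oN m) : ℝ) : ℂ) * oN m) / (oR m : ℂ))
      - ((dt (oy m) (oN m) : ℝ) : ℂ) * (I * dL.be m)) / (oF m : ℂ))

lemma DVT_add (y p q : ℂ) : DVT y (p + q) = DVT y p + DVT y q := by
  have h : ∀ w, dt (p + q) w = dt p w + dt q w := by intro w; simp [dt]; ring
  unfold DVT
  rw [h, h]
  push_cast
  ring

lemma DVT_smul (y : ℂ) (t : ℝ) (q : ℂ) : DVT y ((t : ℂ) * q) = (t : ℂ) * DVT y q := by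
  have h : ∀ w, dt ((t : ℂ) * q) w = t * dt q w := by intro w; simp [dt]; ring
  unfold DVT
  rw [h, h]
  push_cast
  ring

theorem resx_lin {d : VD} {μ : ℝ} (h : IsL d μ) (m : ℝ) : d.resx m = (μ : ℂ) * lx m := by
  have hF : (oF m : ℂ) ≠ 0 := by exact_mod_cast oF_ne m
  have hR : (oR m : ℂ) ≠ 0 := by exact_mod_cast oR_ne m
  have hdt : ∀ z w : ℂ, dt ((μ : ℂ) * z) w = μ * dt z w := by intro z w; simp [dt]; ring
  have ht : (otau' m : ℂ) ≠ 0 := by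
    rw [otau'_eq]
    have h1 : oS m / (s3 * oK) ≠ 0 := div_ne_zero (oS_ne m) (mul_ne_zero s3_pos.ne' oK_ne)
    exact_mod_cast h1
  have hN : (oR m : ℂ) * oN m = ov m := by rw [oN]; field_simp
  have ho : (osd m : ℂ) = (oF m : ℂ) * (otau' m : ℂ) := by rw [osd_eq]; push_cast; ring
  have hq : qd m / (osd m : ℂ) = (-DVT (oy m) (qy m) - ((2 * oc * oR m : ℝ) : ℂ) * ov m) / (oF m : ℂ) := by
    rw [qd, ho]; field_simp
  have hs : (d.pt m).sa = (-DVT (oy m) (qy m + d.ae m)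
      + ((dt (d.ae m) (oV m) / oF m - 2 * oc * oR m ^ 2
          + dt (d.be m) (oB m - (oR m : ℂ) * (I * oN m)) : ℝ) : ℂ) * oN m
      - (oR m : ℂ) * (I * d.be m)) / (oF m : ℂ) := rfl
  rw [VD.resx, add_div, hq, hs, h.ae, h.be, h.aed, DVT_add, DVT_smul, hdt, hdt, lx]
  rw [← hN]
  push_cast
  ring

theorem resu_lin {d : VD} {μ : ℝ} (h : IsL d μ) (m : ℝ) : d.resu μ m = (μ : ℂ) * lu m := by
  have hdt : ∀ z w : ℂ, dt ((μ : ℂ) * z) w = μ * dt z w := by intro z w; simp [dt]; ring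
  have hs : (d.pt m).kap = (((dt (d.be m) (-(I * oy m)) : ℝ) : ℂ) * oN m
      + ((dt (d.be m) (I * ov m - oB m) - dt (d.ae m) (oV m) / oF m : ℝ) : ℂ) *
        ((oy m - ((dt (oy m) (oN m) : ℝ) : ℂ) * oN m) / (oR m : ℂ))
      - ((dt (oy m) (oN m) : ℝ) : ℂ) * (I * d.be m)) / (oF m : ℂ) := rfl
  rw [VD.resu, hs, h.ae, h.be, h.bed, hdt, hdt, hdt, lu]
  push_cast
  ring

/-- the rotation factor -/
theorem e8_l1 (m : ℝ) : (starRingEnd ℂ) (es (oa m) ^ 8)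
    = (starRingEnd ℂ) (oa m) ^ 8 * (((1 / oR m) ^ 8 : ℝ) : ℂ) := by
  rw [es, ← oR_eq, div_pow, mul_pow, show (I : ℂ) ^ 8 = 1 by
    rw [show (8 : ℕ) = 4 * 2 by norm_num, pow_mul, I_pow_four, one_pow], one_mul, map_div₀, map_pow,
    map_pow, conj_ofReal]
  push_cast
  rw [one_div, inv_pow]
  ring

end Pool.H61.Rh
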