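import Pool.Agent.H61.Rz.Rs0

/-! # generated: the residuals as values of a program -/

set_option autoImplicit false
set_option maxRecDepth 100000
set_option linter.unusedVariables false

namespace Pool.H61.Rh

open Complex Pool.H47.Kc

/-- program -/
def pL : List Op := [.base 0, .base 1, .base 2, .base 4, .base 5, .base 6, .base 7, .base 10,
  .base 11, .base 12, .base 13, .base 14, .base 15, .x, .cst 2 0, .mul 14 0,
  .cst 1 0, .sub 1 0, .mul 15 10, .mul 16 10, .sub 1 5, .mul 11 0, .mul 20 2, .mul 13 0,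
  .mul 22 18, .sub 0 18, .cst 1 1, .mul 1 0, .mul 26 21, .add 23 0, .mul 3 0, .mul 22 3,
  .mul 27 0, .mul 25 2, .mul 31 28, .sub 1 0, .mul 31 0, .mul 30 28, .mul 33 0, .mul 33 31,
  .mul 37 9, .sub 1 0, .mul 37 0, .mul 10 4, .mul 7 1, .sub 0 1, .mul 9 7, .mul 14 4,
  .add 1 0, .mul 37 3, .mul 38 1, .mul 39 1, .mul 40 1, .mul 31 1, .mul 30 1, .add 1 0,
  .mul 4 0, .mul 4 1, .sub 36 1, .sub 35 1, .mul 49 47, .mul 1 0, .mul 3 1, .mul 53 45,
  .mul 54 0, .cst 3 0, .mul 1 0, .mul 52 3, .sub 0 46, .mul 2 0, .mul 46 3, .mul 57 57,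
  .cst 563 30, .mul 1 0, .cst 553 27, .sub 0 1, .mul 4 0, .cst 269475 29, .add 1 0, .mul 7 0,
  .cst 11220205 30, .sub 1 0, .mul 10 0, .cst 18983651 30, .add 1 0, .cst 5 27, .mul 14 0, .cst 137 27,
  .sub 0 1, .mul 17 0, .cst 44747 30, .add 1 0, .mul 20 0, .cst 1595395 30, .sub 1 0, .mul 23 0,
  .cst 9855849 30, .add 1 0, .cst 563 28, .mul 27 0, .cst 1659 27, .sub 0 1, .mul 30 0, .cst 269475 28,
  .add 1 0, .mul 33 0, .sub 0 25, .cst 45 27, .mul 36 0, .cst 959 27, .sub 0 1, .mul 39 0,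
  .cst 223735 30, .add 1 0, .mul 42 0, .cst 4786185 30, .sub 1 0, .mul 45 0, .add 0 21, .mul 105 21,
  .mul 118 0, .mul 117 107, .mul 107 15, .mul 1 0, .mul 122 120, .mul 6 0, .cst 5937 30, .mul 55 0,
  .cst (-12001) 28, .sub 0 1, .mul 58 0, .cst 3583853 29, .add 1 0, .mul 61 0, .cst 23882929 28, .sub 1 0,
  .mul 64 0, .cst 177063997 30, .add 1 0, .cst 263 29, .mul 68 0, .cst 12461 30, .sub 0 1, .mul 71 0,
  .cst 289413 29, .add 1 0, .mul 74 0, .cst 18394599 30, .sub 1 0, .mul 77 0, .cst 26612471 28, .add 1 0,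
  .cst 5937 28, .mul 81 0, .cst (-36003) 28, .sub 0 1, .mul 84 0, .cst 3583853 28, .add 1 0, .mul 87 0,
  .sub 0 25, .cst 2367 29, .mul 90 0, .cst 87227 30, .sub 0 1, .mul 93 0, .cst 1447065 29, .add 1 0,
  .mul 96 0, .cst 55183797 30, .sub 1 0, .mul 99 0, .add 0 21, .mul 159 21, .mul 172 0, .mul 160 14,
  .mul 54 0, .mul 52 4, .mul 107 57, .mul 109 94, .add 1 0, .mul 168 0, .mul 158 61, .mul 114 98,
  .add 1 0, .mul 117 100, .add 1 0, .mul 172 0, .mul 166 0, .mul 165 1, .mul 126 126, .mul 106 0,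
  .cst 4 0, .mul 1 0, .sub 0 5, .mul 128 74, .mul 129 111, .sub 2 0, .sub 2 8, .mul 188 147,
  .mul 189 147, .sub 139 0, .sub 2 139, .mul 28 1, .mul 65 1, .add 1 0, .add 24 0, .mul 205 143,
  .mul 195 0, .mul 83 0, .mul 86 1, .mul 159 4, .mul 159 5, .add 15 1, .add 15 1, .mul 204 40,
  .mul 205 77, .sub 3 0, .add 3 2, .mul 206 1, .mul 207 1, .add 11 1, .add 11 1, .sub 172 161,
  .sub 161 174, .mul 50 1, .mul 87 1, .add 1 0, .mul 216 169, .mul 217 169, .mul 206 55, .mul 209 92,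
  .sub 1 0, .mul 200 200, .mul 197 197, .sub 1 0, .mul 203 199, .add 0 0, .mul 2 2, .mul 1 1,
  .sub 1 0, .mul 5 3, .add 0 0, .mul 2 2, .mul 1 1, .sub 1 0, .mul 5 3, .add 0 0,
  .mul 236 236, .mul 0 0, .mul 0 0, .mul 5 0, .mul 4 1, .mul 75 44, .mul 77 45, .mul 240 116,
  .mul 241 81, .add 5 1, .add 5 1, .mul 207 26, .mul 207 27, .sub 33 79, .mul 33 0, .mul 33 1,
  .sub 1 4, .sub 1 4, .mul 210 91, .mul 211 128, .sub 3 0, .add 3 2, .mul 257 1, .mul 258 1,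
  .sub 14 1, .add 14 1, .sub 20 1, .add 20 1]

/-- positions of the outputs -/
def pL_out : List ℕ := [54, 53, 1, 0]

/-- the final condition of the trace -/
def pL_valQ (m : ℝ) (st : List ℝ) : Prop := run (realAlg (fun i => get 0 (l1 μA m) i) (m / m1) 0) pL [] = st

theorem pL_val_s5 (m : ℝ)
    (hm1 : m1 ≠ 0) (v0 : ℝ) (v1 : ℝ) (v2 : ℝ) (v3 : ℝ) (v4 : ℝ) (v5 : ℝ) (v6 : ℝ) (v7 : ℝ)
    (v8 : ℝ) (v9 : ℝ) (v10 : ℝ) (v11 : ℝ) (h11 : v11 = 1 / oR m) (v12 : ℝ) (h12 : v12 = 1 / oF m)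
    (v13 : ℝ) (v14 : ℝ) (h14 : v14 = (2 : ℝ)) (v15 : ℝ) (v16 : ℝ) (v17 : ℝ) (v18 : ℝ) (v19 : ℝ)
    (v20 : ℝ) (v21 : ℝ) (v22 : ℝ) (v23 : ℝ) (ys : ℂ) (e_ys_d : ys = oy m) (e_ys_re : v21 = ys.re)
    (e_ys_im : v23 = ys.im) (v24 : ℝ) (v25 : ℝ) (v26 : ℝ) (v27 : ℝ) (v28 : ℝ) (v29 : ℝ) (v30 : ℝ)
    (v31 : ℝ) (v32 : ℝ) (v33 : ℝ) (v34 : ℝ) (v35 : ℝ) (v36 : ℝ) (oav : ℂ) (e_oav_d : oav = oa m)
    (e_oav_re : v32 = oav.re) (e_oav_im : v36 = oav.im) (v37 : ℝ) (v38 : ℝ) (v39 : ℝ) (v40 : ℝ)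
    (v41 : ℝ) (v42 : ℝ) (v43 : ℝ) (v44 : ℝ) (v45 : ℝ) (v46 : ℝ) (v47 : ℝ) (v48 : ℝ) (v49 : ℝ)
    (v50 : ℝ) (v51 : ℝ) (v52 : ℝ) (ns : ℂ) (e_ns_d : ns = oN m) (e_ns_re : v51 = -ns.re)
    (e_ns_im : v52 = -ns.im) (v53 : ℝ) (v54 : ℝ) (v55 : ℝ) (k0 : ℝ)
    (e_k0_d : k0 = dt (oy m) (oN m)) (e_k0_v : v55 = -k0) (v56 : ℝ) (v57 : ℝ) (v58 : ℝ) (v59 : ℝ)
    (pr : ℂ) (e_pr_d : pr = oy m - ((dt (oy m) (oN m) : ℝ) : ℂ) * oN m) (e_pr_re : v58 = pr.re)
    (e_pr_im : v59 = pr.im) (v60 : ℝ) (v61 : ℝ) (v62 : ℝ) (v63 : ℝ) (v64 : ℝ) (v65 : ℝ) (v66 : ℝ)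
    (v67 : ℝ) (v68 : ℝ) (v69 : ℝ) (v70 : ℝ) (v71 : ℝ) (v72 : ℝ) (v73 : ℝ) (v74 : ℝ) (v75 : ℝ)
    (v76 : ℝ) (v77 : ℝ) (v78 : ℝ) (v79 : ℝ) (v80 : ℝ) (v81 : ℝ) (v82 : ℝ) (v83 : ℝ) (v84 : ℝ)
    (v85 : ℝ) (v86 : ℝ) (v87 : ℝ) (v88 : ℝ) (v89 : ℝ) (v90 : ℝ) (v91 : ℝ) (v92 : ℝ) (v93 : ℝ)
    (v94 : ℝ) (v95 : ℝ) (v96 : ℝ) (v97 : ℝ) (v98 : ℝ) (v99 : ℝ) (v100 : ℝ) (v101 : ℝ) (v102 : ℝ)
    (v103 : ℝ) (v104 : ℝ) (v105 : ℝ) (v106 : ℝ) (v107 : ℝ) (v108 : ℝ) (v109 : ℝ) (v110 : ℝ)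
    (v111 : ℝ) (v112 : ℝ) (v113 : ℝ) (v114 : ℝ) (v115 : ℝ) (v116 : ℝ) (v117 : ℝ) (v118 : ℝ)
    (v119 : ℝ) (v120 : ℝ) (v121 : ℝ) (v122 : ℝ) (v123 : ℝ) (v124 : ℝ) (v125 : ℝ) (v126 : ℝ)
    (v127 : ℝ) (v128 : ℝ) (v129 : ℝ) (v130 : ℝ) (v131 : ℝ) (v132 : ℝ) (v133 : ℝ) (v134 : ℝ)
    (v135 : ℝ) (v136 : ℝ) (v137 : ℝ) (v138 : ℝ) (v139 : ℝ) (v140 : ℝ) (v141 : ℝ) (v142 : ℝ)
    (v143 : ℝ) (v144 : ℝ) (v145 : ℝ) (v146 : ℝ) (v147 : ℝ) (v148 : ℝ) (v149 : ℝ) (v150 : ℝ)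
    (v151 : ℝ) (v152 : ℝ) (v153 : ℝ) (v154 : ℝ) (v155 : ℝ) (v156 : ℝ) (v157 : ℝ) (v158 : ℝ)
    (v159 : ℝ) (v160 : ℝ) (v161 : ℝ) (v162 : ℝ) (v163 : ℝ) (v164 : ℝ) (v165 : ℝ) (v166 : ℝ)
    (v167 : ℝ) (v168 : ℝ) (v169 : ℝ) (v170 : ℝ) (v171 : ℝ) (v172 : ℝ) (v173 : ℝ) (v174 : ℝ)
    (v175 : ℝ) (v176 : ℝ) (v177 : ℝ) (ae : ℂ) (be : ℂ) (e_be_d : be = dL.be m)
    (e_be_re : v174 = be.re) (e_be_im : v138 = be.im) (bed : ℂ) (e_bed_d : bed = dL.bed m)
    (e_bed_re : v177 = bed.re) (e_bed_im : v176 = bed.im) (v178 : ℝ) (v179 : ℝ) (v180 : ℝ)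
    (v181 : ℝ) (aeV : ℝ) (e_aeV_d : aeV = dt (dL.ae m) (oV m) / oF m) (e_aeV_v : v181 = aeV)
    (v182 : ℝ) (v183 : ℝ) (v184 : ℝ) (v185 : ℝ) (v186 : ℝ) (v187 : ℝ) (v188 : ℝ) (v189 : ℝ)
    (v190 : ℝ) (v191 : ℝ) (v192 : ℝ) (v193 : ℝ) (v194 : ℝ) (v195 : ℝ) (v196 : ℝ) (v197 : ℝ)
    (v198 : ℝ) (v199 : ℝ) (v200 : ℝ) (v201 : ℝ) (v202 : ℝ) (v203 : ℝ) (v204 : ℝ) (v205 : ℝ)
    (v206 : ℝ) (v207 : ℝ) (v208 : ℝ) (io : ℝ) (e_io_d : io = 1 / osd m) (e_io_v : v208 = io)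
    (v209 : ℝ) (v210 : ℝ) (v211 : ℝ) (v212 : ℝ) (v213 : ℝ) (v214 : ℝ) (v215 : ℝ) (v216 : ℝ)
    (v217 : ℝ) (v218 : ℝ) (v219 : ℝ) (v220 : ℝ) (v221 : ℝ) (v222 : ℝ) (lxv : ℂ)
    (e_lxv_d : lxv = lx m) (e_lxv_re : v221 = lxv.re) (e_lxv_im : v222 = lxv.im) (v223 : ℝ)
    (v224 : ℝ) (v225 : ℝ) (v226 : ℝ) (v227 : ℝ) (bz : ℝ)
    (e_bz_d : bz = dt (dL.be m) (I * ov m - oB m)) (e_bz_v : v227 = bz)
    (h : TrE (realAlg (fun i => get 0 (l1 μA m) i) (m / m1) 0)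
    [.mul 216 169, .mul 217 169, .mul 206 55, .mul 209 92, .sub 1 0, .mul 200 200, .mul 197 197,
    .sub 1 0, .mul 203 199, .add 0 0, .mul 2 2, .mul 1 1, .sub 1 0, .mul 5 3, .add 0 0, .mul 2 2,
    .mul 1 1, .sub 1 0, .mul 5 3, .add 0 0, .mul 236 236, .mul 0 0, .mul 0 0, .mul 5 0, .mul 4 1,
    .mul 75 44, .mul 77 45, .mul 240 116, .mul 241 81, .add 5 1, .add 5 1, .mul 207 26,
    .mul 207 27, .sub 33 79, .mul 33 0, .mul 33 1, .sub 1 4, .sub 1 4, .mul 210 91, .mul 211 128,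
    .sub 3 0, .add 3 2, .mul 257 1, .mul 258 1, .sub 14 1, .add 14 1, .sub 20 1, .add 20 1]
    [v227, v226, v225, v224, v223, v222, v221, v220, v219, v218, v217, v216, v215, v214, v213,
    v212, v211, v210, v209, v208, v207, v206, v205, v204, v203, v202, v201, v200, v199, v198,
    v197, v196, v195, v194, v193, v192, v191, v190, v189, v188, v187, v186, v185, v184, v183,
    v182, v181, v180, v179, v178, v177, v176, v175, v174, v173, v172, v171, v170, v169, v168,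
    v167, v166, v165, v164, v163, v162, v161, v160, v159, v158, v157, v156, v155, v154, v153,
    v152, v151, v150, v149, v148, v147, v146, v145, v144, v143, v142, v141, v140, v139, v138,
    v137, v136, v135, v134, v133, v132, v131, v130, v129, v128, v127, v126, v125, v124, v123,
    v122, v121, v120, v119, v118, v117, v116, v115, v114, v113, v112, v111, v110, v109, v108,
    v107, v106, v105, v104, v103, v102, v101, v100, v99, v98, v97, v96, v95, v94, v93, v92, v91,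
    v90, v89, v88, v87, v86, v85, v84, v83, v82, v81, v80, v79, v78, v77, v76, v75, v74, v73,
    v72, v71, v70, v69, v68, v67, v66, v65, v64, v63, v62, v61, v60, v59, v58, v57, v56, v55,
    v54, v53, v52, v51, v50, v49, v48, v47, v46, v45, v44, v43, v42, v41, v40, v39, v38, v37,
    v36, v35, v34, v33, v32, v31, v30, v29, v28, v27, v26, v25, v24, v23, v22, v21, v20, v19,
    v18, v17, v16, v15, v14, v13, v12, v11, v10, v9, v8, v7, v6, v5, v4, v3, v2, v1, v0]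
    (pL_valQ m)) :
    OutEq (run (realAlg (fun i => get 0 (l1 μA m) i) (m / m1) 0) pL []) pL_out [(lx m).re, (lx m).im, (lu m).re, (lu m).im] := by
  obtain ⟨v228, h228, h⟩ := h
  change v228 = v11 * v58 at h228
  obtain ⟨v229, h229, h⟩ := h
  change v229 = v11 * v59 at h229
  obtain ⟨fvs, e_fvs_d⟩ : ∃ q : ℂ, q = (oy m - ((dt (oy m) (oN m) : ℝ) : ℂ) * oN m) / (oR m : ℂ) := ⟨_, rfl⟩
  have a_fvs : (oy m - ((dt (oy m) (oN m) : ℝ) : ℂ) * oN m) / (oR m : ℂ) = pr * ((1 / oR m : ℝ) : ℂ) := by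
    rw [e_pr_d]; push_cast; ring
  have e_fvs_re : v228 = fvs.re := by
    rw [e_fvs_d, a_fvs]
    simp only [h228, h11, e_pr_re, mul_re, mul_im, add_re, add_im, sub_re, sub_im, neg_re, neg_im, I_re, I_im, ofReal_re,
      ofReal_im, one_re, one_im, dt, normSq_apply, re_ofNat, im_ofNat]
    try ring
  have e_fvs_im : v229 = fvs.im := by
    rw [e_fvs_d, a_fvs]
    simp only [h229, h11, e_pr_im, mul_re, mul_im, add_re, add_im, sub_re, sub_im, neg_re, neg_im, I_re, I_im, ofReal_re,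
      ofReal_im, one_re, one_im, dt, normSq_apply, re_ofNat, im_ofNat]
    try ring
  obtain ⟨ca, e_ca_d⟩ : ∃ q : ℂ, q = (starRingEnd ℂ) (oa m) := ⟨_, rfl⟩
  have a_ca : (starRingEnd ℂ) (oa m) = (starRingEnd ℂ) oav := by
    rw [e_oav_d]
  have e_ca_re : v32 = ca.re := by
    rw [e_ca_d, a_ca]
    simp only [conj_re, conj_im, e_oav_re, mul_re, mul_im, add_re, add_im, sub_re, sub_im, neg_re, neg_im, I_re, I_im, ofReal_re,
      ofReal_im, one_re, one_im, dt, normSq_apply, re_ofNat, im_ofNat]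
    try ring
  have e_ca_im : v36 = -ca.im := by
    rw [e_ca_d, a_ca]
    simp only [conj_re, conj_im, e_oav_im, mul_re, mul_im, add_re, add_im, sub_re, sub_im, neg_re, neg_im, I_re, I_im, ofReal_re,
      ofReal_im, one_re, one_im, dt, normSq_apply, re_ofNat, im_ofNat]
    try ring
  obtain ⟨v230, h230, h⟩ := h
  change v230 = v23 * v174 at h230
  obtain ⟨v231, h231, h⟩ := h
  change v231 = v21 * v138 at h231
  obtain ⟨v232, h232, h⟩ := h
  change v232 = v230 - v231 at h232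
  obtain ⟨v233, h233, h⟩ := h
  change v233 = v32 * v32 at h233
  obtain ⟨v234, h234, h⟩ := h
  change v234 = v36 * v36 at h234
  obtain ⟨v235, h235, h⟩ := h
  change v235 = v233 - v234 at h235
  obtain ⟨v236, h236, h⟩ := h
  change v236 = v32 * v36 at h236
  obtain ⟨v237, h237, h⟩ := h
  change v237 = v236 + v236 at h237
  obtain ⟨pw2, e_pw2_d⟩ : ∃ q : ℂ, q = ca * ca := ⟨_, rfl⟩
  have e_pw2_re : v235 = pw2.re := by
    rw [e_pw2_d]
    simp only [h235, h234, h233, e_ca_im, e_ca_re, mul_re, mul_im, add_re, add_im, sub_re, sub_im, neg_re, neg_im, I_re, I_im, ofReal_re,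
      ofReal_im, one_re, one_im, dt, normSq_apply, re_ofNat, im_ofNat]
    try ring
  have e_pw2_im : v237 = -pw2.im := by
    rw [e_pw2_d]
    simp only [h237, h236, e_ca_im, e_ca_re, mul_re, mul_im, add_re, add_im, sub_re, sub_im, neg_re, neg_im, I_re, I_im, ofReal_re,
      ofReal_im, one_re, one_im, dt, normSq_apply, re_ofNat, im_ofNat]
    try ring
  obtain ⟨v238, h238, h⟩ := h
  change v238 = v235 * v235 at h238
  obtain ⟨v239, h239, h⟩ := h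
  change v239 = v237 * v237 at h239
  obtain ⟨v240, h240, h⟩ := h
  change v240 = v238 - v239 at h240
  obtain ⟨v241, h241, h⟩ := h
  change v241 = v235 * v237 at h241
  obtain ⟨v242, h242, h⟩ := h
  change v242 = v241 + v241 at h242
  obtain ⟨pw4, e_pw4_d⟩ : ∃ q : ℂ, q = pw2 * pw2 := ⟨_, rfl⟩
  have e_pw4_re : v240 = pw4.re := by
    rw [e_pw4_d]
    simp only [h240, h239, h238, e_pw2_im, e_pw2_re, mul_re, mul_im, add_re, add_im, sub_re, sub_im, neg_re, neg_im, I_re, I_im, ofReal_re,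
      ofReal_im, one_re, one_im, dt, normSq_apply, re_ofNat, im_ofNat]
    try ring
  have e_pw4_im : v242 = -pw4.im := by
    rw [e_pw4_d]
    simp only [h242, h241, e_pw2_im, e_pw2_re, mul_re, mul_im, add_re, add_im, sub_re, sub_im, neg_re, neg_im, I_re, I_im, ofReal_re,
      ofReal_im, one_re, one_im, dt, normSq_apply, re_ofNat, im_ofNat]
    try ring
  obtain ⟨v243, h243, h⟩ := h
  change v243 = v240 * v240 at h243
  obtain ⟨v244, h244, h⟩ := h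
  change v244 = v242 * v242 at h244
  obtain ⟨v245, h245, h⟩ := h
  change v245 = v243 - v244 at h245
  obtain ⟨v246, h246, h⟩ := h
  change v246 = v240 * v242 at h246
  obtain ⟨v247, h247, h⟩ := h
  change v247 = v246 + v246 at h247
  obtain ⟨pw8, e_pw8_d⟩ : ∃ q : ℂ, q = pw4 * pw4 := ⟨_, rfl⟩
  have e_pw8_re : v245 = pw8.re := by
    rw [e_pw8_d]
    simp only [h245, h244, h243, e_pw4_im, e_pw4_re, mul_re, mul_im, add_re, add_im, sub_re, sub_im, neg_re, neg_im, I_re, I_im, ofReal_re,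
      ofReal_im, one_re, one_im, dt, normSq_apply, re_ofNat, im_ofNat]
    try ring
  have e_pw8_im : v247 = -pw8.im := by
    rw [e_pw8_d]
    simp only [h247, h246, e_pw4_im, e_pw4_re, mul_re, mul_im, add_re, add_im, sub_re, sub_im, neg_re, neg_im, I_re, I_im, ofReal_re,
      ofReal_im, one_re, one_im, dt, normSq_apply, re_ofNat, im_ofNat]
    try ring
  obtain ⟨v248, h248, h⟩ := h
  change v248 = v11 * v11 at h248
  obtain ⟨ri2, e_ri2_d⟩ : ∃ q : ℝ, q = (1 / oR m) * (1 / oR m) := ⟨_, rfl⟩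
  have e_ri2_v : v248 = ri2 := by
    rw [e_ri2_d]
    simp only [h248, h11, mul_re, mul_im, add_re, add_im, sub_re, sub_im, neg_re, neg_im, I_re, I_im, ofReal_re,
      ofReal_im, one_re, one_im, dt, normSq_apply, re_ofNat, im_ofNat]
    try ring
  obtain ⟨v249, h249, h⟩ := h
  change v249 = v248 * v248 at h249
  obtain ⟨ri4, e_ri4_d⟩ : ∃ q : ℝ, q = ri2 * ri2 := ⟨_, rfl⟩
  have e_ri4_v : v249 = ri4 := by
    rw [e_ri4_d]
    simp only [h249, e_ri2_v, mul_re, mul_im, add_re, add_im, sub_re, sub_im, neg_re, neg_im, I_re, I_im, ofReal_re,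
      ofReal_im, one_re, one_im, dt, normSq_apply, re_ofNat, im_ofNat]
    try ring
  obtain ⟨v250, h250, h⟩ := h
  change v250 = v249 * v249 at h250
  obtain ⟨ri8, e_ri8_d⟩ : ∃ q : ℝ, q = ri4 * ri4 := ⟨_, rfl⟩
  have e_ri8_v : v250 = ri8 := by
    rw [e_ri8_d]
    simp only [h250, e_ri4_v, mul_re, mul_im, add_re, add_im, sub_re, sub_im, neg_re, neg_im, I_re, I_im, ofReal_re,
      ofReal_im, one_re, one_im, dt, normSq_apply, re_ofNat, im_ofNat]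
    try ring
  obtain ⟨v251, h251, h⟩ := h
  change v251 = v245 * v250 at h251
  obtain ⟨v252, h252, h⟩ := h
  change v252 = v247 * v250 at h252
  obtain ⟨e8, e_e8_d⟩ : ∃ q : ℂ, q = (starRingEnd ℂ) (es (oa m) ^ 8) := ⟨_, rfl⟩
  have a_e8 : (starRingEnd ℂ) (es (oa m) ^ 8) = pw8 * (ri8 : ℂ) := by
    rw [e8_l1, e_pw8_d, e_pw4_d, e_pw2_d, e_ri8_d, e_ri4_d, e_ri2_d, e_ca_d]; push_cast; ring
  have e_e8_re : v251 = e8.re := by
    rw [e_e8_d, a_e8]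
    simp only [h251, e_ri8_v, e_pw8_re, mul_re, mul_im, add_re, add_im, sub_re, sub_im, neg_re, neg_im, I_re, I_im, ofReal_re,
      ofReal_im, one_re, one_im, dt, normSq_apply, re_ofNat, im_ofNat]
    try ring
  have e_e8_im : v252 = -e8.im := by
    rw [e_e8_d, a_e8]
    simp only [h252, e_ri8_v, e_pw8_im, mul_re, mul_im, add_re, add_im, sub_re, sub_im, neg_re, neg_im, I_re, I_im, ofReal_re,
      ofReal_im, one_re, one_im, dt, normSq_apply, re_ofNat, im_ofNat]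
    try ring
  obtain ⟨v253, h253, h⟩ := h
  change v253 = v177 * v208 at h253
  obtain ⟨v254, h254, h⟩ := h
  change v254 = v176 * v208 at h254
  obtain ⟨v255, h255, h⟩ := h
  change v255 = v14 * v138 at h255
  obtain ⟨v256, h256, h⟩ := h
  change v256 = v14 * v174 at h256
  obtain ⟨v257, h257, h⟩ := h
  change v257 = v251 + v255 at h257
  obtain ⟨v258, h258, h⟩ := h
  change v258 = v252 + v256 at h258
  obtain ⟨v259, h259, h⟩ := h
  change v259 = v51 * v232 at h259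
  obtain ⟨v260, h260, h⟩ := h
  change v260 = v52 * v232 at h260
  obtain ⟨v261, h261, h⟩ := h
  change v261 = v227 - v181 at h261
  obtain ⟨v262, h262, h⟩ := h
  change v262 = v228 * v261 at h262
  obtain ⟨v263, h263, h⟩ := h
  change v263 = v229 * v261 at h263
  obtain ⟨v264, h264, h⟩ := h
  change v264 = v262 - v259 at h264
  obtain ⟨v265, h265, h⟩ := h
  change v265 = v263 - v260 at h265
  obtain ⟨v266, h266, h⟩ := h
  change v266 = v55 * v174 at h266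
  obtain ⟨v267, h267, h⟩ := h
  change v267 = v55 * v138 at h267
  obtain ⟨v268, h268, h⟩ := h
  change v268 = v264 - v267 at h268
  obtain ⟨v269, h269, h⟩ := h
  change v269 = v265 + v266 at h269
  obtain ⟨v270, h270, h⟩ := h
  change v270 = v12 * v268 at h270
  obtain ⟨v271, h271, h⟩ := h
  change v271 = v12 * v269 at h271
  obtain ⟨v272, h272, h⟩ := h
  change v272 = v257 - v270 at h272
  obtain ⟨v273, h273, h⟩ := h
  change v273 = v258 + v271 at h273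
  obtain ⟨v274, h274, h⟩ := h
  change v274 = v253 - v272 at h274
  obtain ⟨v275, h275, h⟩ := h
  change v275 = v254 + v273 at h275
  obtain ⟨luv, e_luv_d⟩ : ∃ q : ℂ, q = lu m := ⟨_, rfl⟩
  have a_luv : lu m = bed * (io : ℂ) - (e8 - 2 * I * be - (((dt be (-(I * ys)) : ℝ) : ℂ) * ns + ((bz - aeV : ℝ) : ℂ) * fvs - (k0 : ℂ) * (I * be)) * ((1 / oF m : ℝ) : ℂ)) := by
    rw [lu, e_bed_d, e_io_d, e_e8_d, e_be_d, e_ys_d, e_ns_d, e_bz_d, e_aeV_d, e_fvs_d, e_k0_d]; push_cast; ring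
  have e_luv_re : v274 = luv.re := by
    rw [e_luv_d, a_luv]
    simp only [h274, h272, h270, h268, h267, h264, h262, h261, h259, h257, h255, h253, h232, h231, h230, h14, h12, e_be_im, e_k0_v, e_ys_re, e_be_re, e_ys_im, e_ns_re, e_aeV_v, e_bz_v, e_fvs_re, e_e8_re, e_io_v, e_bed_re, mul_re, mul_im, add_re, add_im, sub_re, sub_im, neg_re, neg_im, I_re, I_im, ofReal_re,
      ofReal_im, one_re, one_im, dt, normSq_apply, re_ofNat, im_ofNat]
    try ring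
  have e_luv_im : v275 = luv.im := by
    rw [e_luv_d, a_luv]
    simp only [h275, h273, h271, h269, h266, h265, h263, h261, h260, h258, h256, h254, h232, h231, h230, h14, h12, e_be_re, e_k0_v, e_be_im, e_ys_re, e_ys_im, e_ns_im, e_aeV_v, e_bz_v, e_fvs_im, e_e8_im, e_io_v, e_bed_im, mul_re, mul_im, add_re, add_im, sub_re, sub_im, neg_re, neg_im, I_re, I_im, ofReal_re,
      ofReal_im, one_re, one_im, dt, normSq_apply, re_ofNat, im_ofNat]
    try ring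
  obtain ⟨o_a, e_o_a_d⟩ : ∃ q : ℝ, q = (lx m).re := ⟨_, rfl⟩
  have a_o_a : (lx m).re = lxv.re := by
    rw [e_lxv_d]
  have e_o_a_v : v221 = o_a := by
    rw [e_o_a_d, a_o_a]
    simp only [e_lxv_re, mul_re, mul_im, add_re, add_im, sub_re, sub_im, neg_re, neg_im, I_re, I_im, ofReal_re,
      ofReal_im, one_re, one_im, dt, normSq_apply, re_ofNat, im_ofNat]
    try ring
  obtain ⟨o_b, e_o_b_d⟩ : ∃ q : ℝ, q = (lx m).im := ⟨_, rfl⟩
  have a_o_b : (lx m).im = lxv.im := by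
    rw [e_lxv_d]
  have e_o_b_v : v222 = o_b := by
    rw [e_o_b_d, a_o_b]
    simp only [e_lxv_im, mul_re, mul_im, add_re, add_im, sub_re, sub_im, neg_re, neg_im, I_re, I_im, ofReal_re,
      ofReal_im, one_re, one_im, dt, normSq_apply, re_ofNat, im_ofNat]
    try ring
  obtain ⟨o_c, e_o_c_d⟩ : ∃ q : ℝ, q = (lu m).re := ⟨_, rfl⟩
  have a_o_c : (lu m).re = luv.re := by
    rw [e_luv_d]
  have e_o_c_v : v274 = o_c := by
    rw [e_o_c_d, a_o_c]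
    simp only [e_luv_re, mul_re, mul_im, add_re, add_im, sub_re, sub_im, neg_re, neg_im, I_re, I_im, ofReal_re,
      ofReal_im, one_re, one_im, dt, normSq_apply, re_ofNat, im_ofNat]
    try ring
  obtain ⟨o_d, e_o_d_d⟩ : ∃ q : ℝ, q = (lu m).im := ⟨_, rfl⟩
  have a_o_d : (lu m).im = luv.im := by
    rw [e_luv_d]
  have e_o_d_v : v275 = o_d := by
    rw [e_o_d_d, a_o_d]
    simp only [e_luv_im, mul_re, mul_im, add_re, add_im, sub_re, sub_im, neg_re, neg_im, I_re, I_im, ofReal_re,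
      ofReal_im, one_re, one_im, dt, normSq_apply, re_ofNat, im_ofNat]
    try ring
  refine OutEq_of h ?_
  exact ⟨e_o_a_v.trans e_o_a_d, e_o_b_v.trans e_o_b_d, e_o_c_v.trans e_o_c_d, e_o_d_v.trans e_o_d_d, trivial⟩

theorem pL_val_s4 (m : ℝ)
    (hm1 : m1 ≠ 0) (v0 : ℝ) (v1 : ℝ) (h1 : v1 = s3) (v2 : ℝ) (v3 : ℝ) (h3 : v3 = 1 / m1) (v4 : ℝ)
    (v5 : ℝ) (v6 : ℝ) (v7 : ℝ) (v8 : ℝ) (v9 : ℝ) (v10 : ℝ) (h10 : v10 = oR m) (v11 : ℝ)
    (h11 : v11 = 1 / oR m) (v12 : ℝ) (h12 : v12 = 1 / oF m) (v13 : ℝ) (h13 : v13 = m / m1)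
    (v14 : ℝ) (h14 : v14 = (2 : ℝ)) (v15 : ℝ) (v16 : ℝ) (v17 : ℝ) (v18 : ℝ) (v19 : ℝ) (v20 : ℝ)
    (v21 : ℝ) (v22 : ℝ) (v23 : ℝ) (ys : ℂ) (e_ys_d : ys = oy m) (e_ys_re : v21 = ys.re)
    (e_ys_im : v23 = ys.im) (v24 : ℝ) (v25 : ℝ) (v26 : ℝ) (v27 : ℝ) (v28 : ℝ) (v29 : ℝ) (v30 : ℝ)
    (v31 : ℝ) (v32 : ℝ) (v33 : ℝ) (v34 : ℝ) (v35 : ℝ) (v36 : ℝ) (oav : ℂ) (e_oav_d : oav = oa m)
    (e_oav_re : v32 = oav.re) (e_oav_im : v36 = oav.im) (v37 : ℝ) (v38 : ℝ) (v39 : ℝ) (v40 : ℝ)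
    (v41 : ℝ) (v42 : ℝ) (v43 : ℝ) (v44 : ℝ) (v45 : ℝ) (v46 : ℝ) (v47 : ℝ) (v48 : ℝ) (v49 : ℝ)
    (v50 : ℝ) (vs : ℂ) (e_vs_d : vs = ov m) (e_vs_re : v49 = -vs.re) (e_vs_im : v50 = -vs.im)
    (v51 : ℝ) (v52 : ℝ) (ns : ℂ) (e_ns_d : ns = oN m) (e_ns_re : v51 = -ns.re)
    (e_ns_im : v52 = -ns.im) (v53 : ℝ) (v54 : ℝ) (v55 : ℝ) (k0 : ℝ)
    (e_k0_d : k0 = dt (oy m) (oN m)) (e_k0_v : v55 = -k0) (v56 : ℝ) (v57 : ℝ) (v58 : ℝ) (v59 : ℝ)
    (pr : ℂ) (e_pr_d : pr = oy m - ((dt (oy m) (oN m) : ℝ) : ℂ) * oN m) (e_pr_re : v58 = pr.re)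
    (e_pr_im : v59 = pr.im) (v60 : ℝ) (v61 : ℝ) (v62 : ℝ) (bs : ℂ) (e_bs_d : bs = oB m)
    (e_bs_re : v61 = bs.re) (e_bs_im : v62 = -bs.im) (v63 : ℝ) (wd : ℝ)
    (e_wd_d : wd = oK * (1 / oS m)) (e_wd_v : v63 = wd) (v64 : ℝ) (v65 : ℝ) (v66 : ℝ) (w : ℝ)
    (e_w_d : w = 3 * oK * (1 / oS m) ^ 2) (e_w_v : v66 = w) (v67 : ℝ) (h67 : v67 = v14 * v63)
    (hh2 : ℝ) (e_hh2_d : hh2 = 2 * (oK * (1 / oS m))) (v68 : ℝ) (c2 : ℂ)
    (e_c2_d : c2 = (hh2 : ℂ) - oy m) (e_c2_re : v68 = c2.re) (e_c2_im : v23 = -c2.im) (v69 : ℝ)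
    (v70 : ℝ) (V0 : ℂ) (e_V0_d : V0 = oV m) (e_V0_re : v70 = V0.re) (e_V0_im : v69 = V0.im)
    (v71 : ℝ) (h71 : v71 = v13 * v13) (v72 : ℝ) (v73 : ℝ) (v74 : ℝ) (v75 : ℝ) (v76 : ℝ) (v77 : ℝ)
    (v78 : ℝ) (v79 : ℝ) (v80 : ℝ) (v81 : ℝ) (v82 : ℝ) (v83 : ℝ) (v84 : ℝ) (v85 : ℝ) (v86 : ℝ)
    (v87 : ℝ) (v88 : ℝ) (v89 : ℝ) (v90 : ℝ) (v91 : ℝ) (v92 : ℝ) (v93 : ℝ) (v94 : ℝ) (v95 : ℝ)
    (v96 : ℝ) (v97 : ℝ) (v98 : ℝ) (v99 : ℝ) (v100 : ℝ) (v101 : ℝ) (v102 : ℝ) (v103 : ℝ)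
    (v104 : ℝ) (v105 : ℝ) (v106 : ℝ) (v107 : ℝ) (v108 : ℝ) (v109 : ℝ) (v110 : ℝ) (v111 : ℝ)
    (v112 : ℝ) (v113 : ℝ) (v114 : ℝ) (v115 : ℝ) (v116 : ℝ) (v117 : ℝ) (v118 : ℝ) (v119 : ℝ)
    (v120 : ℝ) (c_ax : ℂ) (e_c_ax_d : c_ax = dL.ax.ev m) (e_c_ax_re : v84 = c_ax.re)
    (e_c_ax_im : v120 = c_ax.im) (v121 : ℝ) (h121 : v121 = v3 * v13) (v122 : ℝ) (v123 : ℝ)
    (v124 : ℝ) (h124 : v124 = v1 * v3) (v125 : ℝ) (d_ax : ℂ) (e_d_ax_d : d_ax = dL.ax.dv m)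
    (e_d_ax_re : v123 = d_ax.re) (e_d_ax_im : v125 = d_ax.im) (v126 : ℝ) (v127 : ℝ) (v128 : ℝ)
    (v129 : ℝ) (v130 : ℝ) (v131 : ℝ) (v132 : ℝ) (v133 : ℝ) (v134 : ℝ)
    (h134 : v134 = (23882929 : ℝ) / 2 ^ 28) (v135 : ℝ) (v136 : ℝ) (v137 : ℝ) (v138 : ℝ)
    (v139 : ℝ) (v140 : ℝ) (v141 : ℝ) (v142 : ℝ) (v143 : ℝ) (v144 : ℝ) (v145 : ℝ) (v146 : ℝ)
    (v147 : ℝ) (v148 : ℝ) (v149 : ℝ) (v150 : ℝ) (h150 : v150 = (26612471 : ℝ) / 2 ^ 28)
    (v151 : ℝ) (v152 : ℝ) (h152 : v152 = (5937 : ℝ) / 2 ^ 28) (v153 : ℝ)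
    (h153 : v153 = v71 * v152) (v154 : ℝ) (h154 : v154 = (-36003 : ℝ) / 2 ^ 28) (v155 : ℝ)
    (h155 : v155 = v154 - v153) (v156 : ℝ) (h156 : v156 = v71 * v155) (v157 : ℝ)
    (h157 : v157 = (3583853 : ℝ) / 2 ^ 28) (v158 : ℝ) (h158 : v158 = v156 + v157) (v159 : ℝ)
    (h159 : v159 = v71 * v158) (v160 : ℝ) (h160 : v160 = v159 - v134) (v161 : ℝ)
    (h161 : v161 = (2367 : ℝ) / 2 ^ 29) (v162 : ℝ) (h162 : v162 = v71 * v161) (v163 : ℝ)
    (h163 : v163 = (87227 : ℝ) / 2 ^ 30) (v164 : ℝ) (h164 : v164 = v163 - v162) (v165 : ℝ)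
    (h165 : v165 = v71 * v164) (v166 : ℝ) (h166 : v166 = (1447065 : ℝ) / 2 ^ 29) (v167 : ℝ)
    (h167 : v167 = v165 + v166) (v168 : ℝ) (h168 : v168 = v71 * v167) (v169 : ℝ)
    (h169 : v169 = (55183797 : ℝ) / 2 ^ 30) (v170 : ℝ) (h170 : v170 = v168 - v169) (v171 : ℝ)
    (h171 : v171 = v71 * v170) (v172 : ℝ) (h172 : v172 = v171 + v150) (v173 : ℝ) (v174 : ℝ)
    (c_bu : ℂ) (e_c_bu_d : c_bu = dL.bu.ev m) (e_c_bu_re : v138 = c_bu.re)
    (e_c_bu_im : v174 = c_bu.im) (v175 : ℝ) (h175 : v175 = v14 * v160) (v176 : ℝ)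
    (h176 : v176 = v121 * v175)
    (h : TrE (realAlg (fun i => get 0 (l1 μA m) i) (m / m1) 0)
    [.mul 52 4, .mul 107 57, .mul 109 94, .add 1 0, .mul 168 0, .mul 158 61, .mul 114 98,
    .add 1 0, .mul 117 100, .add 1 0, .mul 172 0, .mul 166 0, .mul 165 1, .mul 126 126,
    .mul 106 0, .cst 4 0, .mul 1 0, .sub 0 5, .mul 128 74, .mul 129 111, .sub 2 0, .sub 2 8,
    .mul 188 147, .mul 189 147, .sub 139 0, .sub 2 139, .mul 28 1, .mul 65 1, .add 1 0,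
    .add 24 0, .mul 205 143, .mul 195 0, .mul 83 0, .mul 86 1, .mul 159 4, .mul 159 5, .add 15 1,
    .add 15 1, .mul 204 40, .mul 205 77, .sub 3 0, .add 3 2, .mul 206 1, .mul 207 1, .add 11 1,
    .add 11 1, .sub 172 161, .sub 161 174, .mul 50 1, .mul 87 1, .add 1 0, .mul 216 169,
    .mul 217 169, .mul 206 55, .mul 209 92, .sub 1 0, .mul 200 200, .mul 197 197, .sub 1 0,
    .mul 203 199, .add 0 0, .mul 2 2, .mul 1 1, .sub 1 0, .mul 5 3, .add 0 0, .mul 2 2, .mul 1 1,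
    .sub 1 0, .mul 5 3, .add 0 0, .mul 236 236, .mul 0 0, .mul 0 0, .mul 5 0, .mul 4 1,
    .mul 75 44, .mul 77 45, .mul 240 116, .mul 241 81, .add 5 1, .add 5 1, .mul 207 26,
    .mul 207 27, .sub 33 79, .mul 33 0, .mul 33 1, .sub 1 4, .sub 1 4, .mul 210 91, .mul 211 128,
    .sub 3 0, .add 3 2, .mul 257 1, .mul 258 1, .sub 14 1, .add 14 1, .sub 20 1, .add 20 1]
    [v176, v175, v174, v173, v172, v171, v170, v169, v168, v167, v166, v165, v164, v163, v162,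
    v161, v160, v159, v158, v157, v156, v155, v154, v153, v152, v151, v150, v149, v148, v147,
    v146, v145, v144, v143, v142, v141, v140, v139, v138, v137, v136, v135, v134, v133, v132,
    v131, v130, v129, v128, v127, v126, v125, v124, v123, v122, v121, v120, v119, v118, v117,
    v116, v115, v114, v113, v112, v111, v110, v109, v108, v107, v106, v105, v104, v103, v102,
    v101, v100, v99, v98, v97, v96, v95, v94, v93, v92, v91, v90, v89, v88, v87, v86, v85, v84,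
    v83, v82, v81, v80, v79, v78, v77, v76, v75, v74, v73, v72, v71, v70, v69, v68, v67, v66,
    v65, v64, v63, v62, v61, v60, v59, v58, v57, v56, v55, v54, v53, v52, v51, v50, v49, v48,
    v47, v46, v45, v44, v43, v42, v41, v40, v39, v38, v37, v36, v35, v34, v33, v32, v31, v30,
    v29, v28, v27, v26, v25, v24, v23, v22, v21, v20, v19, v18, v17, v16, v15, v14, v13, v12,
    v11, v10, v9, v8, v7, v6, v5, v4, v3, v2, v1, v0]
    (pL_valQ m)) :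
    OutEq (run (realAlg (fun i => get 0 (l1 μA m) i) (m / m1) 0) pL []) pL_out [(lx m).re, (lx m).im, (lu m).re, (lu m).im] := by
  obtain ⟨v177, h177, h⟩ := h
  change v177 = v124 * v172 at h177
  obtain ⟨d_bu, e_d_bu_d⟩ : ∃ q : ℂ, q = dL.bu.dv m := ⟨_, rfl⟩
  have e_d_bu_re : v176 = d_bu.re := by
    rw [e_d_bu_d]
    simp only [dL, Cf.dv, hor, dhor, axp, axq, bup, buq, h176, h175, h160, h159, h158, h157, h156, h155, h154, h153, h152, h134, h121, h71, h14, h13, h3, mul_re, mul_im, add_re, add_im, sub_re, sub_im, neg_re, neg_im, I_re, I_im, ofReal_re,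
      ofReal_im, one_re, one_im, dt, normSq_apply, re_ofNat, im_ofNat]
    try ring
  have e_d_bu_im : v177 = d_bu.im := by
    rw [e_d_bu_d]
    simp only [dL, Cf.dv, hor, dhor, axp, axq, bup, buq, h177, h172, h171, h170, h169, h168, h167, h166, h165, h164, h163, h162, h161, h150, h124, h71, h13, h3, h1, mul_re, mul_im, add_re, add_im, sub_re, sub_im, neg_re, neg_im, I_re, I_im, ofReal_re,
      ofReal_im, one_re, one_im, dt, normSq_apply, re_ofNat, im_ofNat]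
    try ring
  obtain ⟨ae, e_ae_d⟩ : ∃ q : ℂ, q = dL.ae m := ⟨_, rfl⟩
  have a_ae : dL.ae m = I * (starRingEnd ℂ) c_ax := by
    rw [e_c_ax_d]; rfl
  have e_ae_re : v120 = ae.re := by
    rw [e_ae_d, a_ae]
    simp only [conj_re, conj_im, e_c_ax_im, mul_re, mul_im, add_re, add_im, sub_re, sub_im, neg_re, neg_im, I_re, I_im, ofReal_re,
      ofReal_im, one_re, one_im, dt, normSq_apply, re_ofNat, im_ofNat]
    try ring
  have e_ae_im : v84 = ae.im := by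
    rw [e_ae_d, a_ae]
    simp only [conj_re, conj_im, e_c_ax_re, mul_re, mul_im, add_re, add_im, sub_re, sub_im, neg_re, neg_im, I_re, I_im, ofReal_re,
      ofReal_im, one_re, one_im, dt, normSq_apply, re_ofNat, im_ofNat]
    try ring
  obtain ⟨be, e_be_d⟩ : ∃ q : ℂ, q = dL.be m := ⟨_, rfl⟩
  have a_be : dL.be m = I * (starRingEnd ℂ) c_bu := by
    rw [e_c_bu_d]; rfl
  have e_be_re : v174 = be.re := by
    rw [e_be_d, a_be]
    simp only [conj_re, conj_im, e_c_bu_im, mul_re, mul_im, add_re, add_im, sub_re, sub_im, neg_re, neg_im, I_re, I_im, ofReal_re,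
      ofReal_im, one_re, one_im, dt, normSq_apply, re_ofNat, im_ofNat]
    try ring
  have e_be_im : v138 = be.im := by
    rw [e_be_d, a_be]
    simp only [conj_re, conj_im, e_c_bu_re, mul_re, mul_im, add_re, add_im, sub_re, sub_im, neg_re, neg_im, I_re, I_im, ofReal_re,
      ofReal_im, one_re, one_im, dt, normSq_apply, re_ofNat, im_ofNat]
    try ring
  obtain ⟨aed, e_aed_d⟩ : ∃ q : ℂ, q = dL.aed m := ⟨_, rfl⟩
  have a_aed : dL.aed m = I * (starRingEnd ℂ) d_ax := by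
    rw [e_d_ax_d]; rfl
  have e_aed_re : v125 = aed.re := by
    rw [e_aed_d, a_aed]
    simp only [conj_re, conj_im, e_d_ax_im, mul_re, mul_im, add_re, add_im, sub_re, sub_im, neg_re, neg_im, I_re, I_im, ofReal_re,
      ofReal_im, one_re, one_im, dt, normSq_apply, re_ofNat, im_ofNat]
    try ring
  have e_aed_im : v123 = aed.im := by
    rw [e_aed_d, a_aed]
    simp only [conj_re, conj_im, e_d_ax_re, mul_re, mul_im, add_re, add_im, sub_re, sub_im, neg_re, neg_im, I_re, I_im, ofReal_re,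
      ofReal_im, one_re, one_im, dt, normSq_apply, re_ofNat, im_ofNat]
    try ring
  obtain ⟨bed, e_bed_d⟩ : ∃ q : ℂ, q = dL.bed m := ⟨_, rfl⟩
  have a_bed : dL.bed m = I * (starRingEnd ℂ) d_bu := by
    rw [e_d_bu_d]; rfl
  have e_bed_re : v177 = bed.re := by
    rw [e_bed_d, a_bed]
    simp only [conj_re, conj_im, e_d_bu_im, mul_re, mul_im, add_re, add_im, sub_re, sub_im, neg_re, neg_im, I_re, I_im, ofReal_re,
      ofReal_im, one_re, one_im, dt, normSq_apply, re_ofNat, im_ofNat]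
    try ring
  have e_bed_im : v176 = bed.im := by
    rw [e_bed_d, a_bed]
    simp only [conj_re, conj_im, e_d_bu_re, mul_re, mul_im, add_re, add_im, sub_re, sub_im, neg_re, neg_im, I_re, I_im, ofReal_re,
      ofReal_im, one_re, one_im, dt, normSq_apply, re_ofNat, im_ofNat]
    try ring
  obtain ⟨v178, h178, h⟩ := h
  change v178 = v70 * v120 at h178
  obtain ⟨v179, h179, h⟩ := h
  change v179 = v69 * v84 at h179
  obtain ⟨v180, h180, h⟩ := h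
  change v180 = v178 + v179 at h180
  obtain ⟨v181, h181, h⟩ := h
  change v181 = v12 * v180 at h181
  obtain ⟨aeV, e_aeV_d⟩ : ∃ q : ℝ, q = dt (dL.ae m) (oV m) / oF m := ⟨_, rfl⟩
  have a_aeV : dt (dL.ae m) (oV m) / oF m = dt ae V0 * (1 / oF m) := by
    rw [e_ae_d, e_V0_d]; ring
  have e_aeV_v : v181 = aeV := by
    rw [e_aeV_d, a_aeV]
    simp only [h181, h180, h179, h178, h12, e_ae_im, e_V0_im, e_ae_re, e_V0_re, mul_re, mul_im, add_re, add_im, sub_re, sub_im, neg_re, neg_im, I_re, I_im, ofReal_re,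
      ofReal_im, one_re, one_im, dt, normSq_apply, re_ofNat, im_ofNat]
    try ring
  obtain ⟨v182, h182, h⟩ := h
  change v182 = v23 * v120 at h182
  obtain ⟨v183, h183, h⟩ := h
  change v183 = v68 * v84 at h183
  obtain ⟨v184, h184, h⟩ := h
  change v184 = v182 + v183 at h184
  obtain ⟨v185, h185, h⟩ := h
  change v185 = v67 * v84 at h185
  obtain ⟨v186, h186, h⟩ := h
  change v186 = v184 + v185 at h186
  obtain ⟨v187, h187, h⟩ := h
  change v187 = v14 * v186 at h187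
  obtain ⟨v188, h188, h⟩ := h
  change v188 = v21 * v187 at h188
  obtain ⟨v189, h189, h⟩ := h
  change v189 = v23 * v187 at h189
  obtain ⟨v190, h190, h⟩ := h
  change v190 = v63 * v63 at h190
  obtain ⟨v191, h191, h⟩ := h
  change v191 = v84 * v190 at h191
  obtain ⟨v192, h192, h⟩ := h
  replace h192 : v192 = (4 : ℝ) := by rw [h192]; norm_num [step, realAlg]
  obtain ⟨v193, h193, h⟩ := h
  change v193 = v191 * v192 at h193
  obtain ⟨v194, h194, h⟩ := h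
  change v194 = v193 - v188 at h194
  obtain ⟨v195, h195, h⟩ := h
  change v195 = v66 * v120 at h195
  obtain ⟨v196, h196, h⟩ := h
  change v196 = v66 * v84 at h196
  obtain ⟨v197, h197, h⟩ := h
  change v197 = v194 - v196 at h197
  obtain ⟨v198, h198, h⟩ := h
  change v198 = v195 - v189 at h198
  obtain ⟨DT, e_DT_d⟩ : ∃ q : ℂ, q = DVT (oy m) (dL.ae m) := ⟨_, rfl⟩
  have a_DT : DVT (oy m) (dL.ae m) = -2 * ys * ((dt ae (I * c2) + 2 * wd * dt ae I : ℝ) : ℂ) + ((4 * wd ^ 2 * dt ae I : ℝ) : ℂ) + (w : ℂ) * (I * ae) := by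
    rw [e_ys_d, e_c2_d, e_hh2_d, e_wd_d, e_w_d, e_ae_d]; exact DVT_l1 m _
  have e_DT_re : v197 = DT.re := by
    have q0 : c2.im = -ys.im := by linear_combination e_c2_im - e_ys_im
    rw [e_DT_d, a_DT]
    simp only [h197, h196, h194, h193, h192, h191, h190, h188, h187, h186, h185, h184, h183, h182, h67, h14, e_ae_im, e_w_v, e_wd_v, e_c2_re, e_ae_re, e_ys_im, e_ys_re, q0, mul_re, mul_im, add_re, add_im, sub_re, sub_im, neg_re, neg_im, I_re, I_im, ofReal_re,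
      ofReal_im, one_re, one_im, dt, normSq_apply, re_ofNat, im_ofNat]
    try ring
  have e_DT_im : v198 = DT.im := by
    have q0 : c2.im = -ys.im := by linear_combination e_c2_im - e_ys_im
    rw [e_DT_d, a_DT]
    simp only [h198, h195, h189, h187, h186, h185, h184, h183, h182, h67, h14, e_ae_im, e_wd_v, e_c2_re, e_ae_re, e_ys_im, e_w_v, q0, mul_re, mul_im, add_re, add_im, sub_re, sub_im, neg_re, neg_im, I_re, I_im, ofReal_re,
      ofReal_im, one_re, one_im, dt, normSq_apply, re_ofNat, im_ofNat]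
    try ring
  obtain ⟨v199, h199, h⟩ := h
  change v199 = v10 * v51 at h199
  obtain ⟨v200, h200, h⟩ := h
  change v200 = v10 * v52 at h200
  obtain ⟨v201, h201, h⟩ := h
  change v201 = v61 - v200 at h201
  obtain ⟨v202, h202, h⟩ := h
  change v202 = v199 - v62 at h202
  obtain ⟨v203, h203, h⟩ := h
  change v203 = v174 * v201 at h203
  obtain ⟨v204, h204, h⟩ := h
  change v204 = v138 * v202 at h204
  obtain ⟨v205, h205, h⟩ := h
  change v205 = v203 + v204 at h205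
  obtain ⟨v206, h206, h⟩ := h
  change v206 = v181 + v205 at h206
  obtain ⟨gq, e_gq_d⟩ : ∃ q : ℝ, q = dt (dL.ae m) (oV m) / oF m + dt (dL.be m) (oB m - (oR m : ℂ) * (I * oN m)) := ⟨_, rfl⟩
  have a_gq : dt (dL.ae m) (oV m) / oF m + dt (dL.be m) (oB m - (oR m : ℂ) * (I * oN m)) = aeV + dt be (bs - (oR m : ℂ) * (I * ns)) := by
    rw [e_aeV_d, e_be_d, e_bs_d, e_ns_d]
  have e_gq_v : v206 = gq := by
    rw [e_gq_d, a_gq]
    simp only [h206, h205, h204, h203, h202, h201, h200, h199, h10, e_bs_im, e_ns_re, e_be_im, e_ns_im, e_bs_re, e_be_re, e_aeV_v, mul_re, mul_im, add_re, add_im, sub_re, sub_im, neg_re, neg_im, I_re, I_im, ofReal_re,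
      ofReal_im, one_re, one_im, dt, normSq_apply, re_ofNat, im_ofNat]
    try ring
  obtain ⟨v207, h207, h⟩ := h
  change v207 = v1 * v63 at h207
  obtain ⟨v208, h208, h⟩ := h
  change v208 = v12 * v207 at h208
  obtain ⟨io, e_io_d⟩ : ∃ q : ℝ, q = 1 / osd m := ⟨_, rfl⟩
  have a_io : 1 / osd m = s3 * wd * (1 / oF m) := by
    rw [e_wd_d, iosd_l1]; ring
  have e_io_v : v208 = io := by
    rw [e_io_d, a_io]
    simp only [h208, h207, h12, h1, e_wd_v, mul_re, mul_im, add_re, add_im, sub_re, sub_im, neg_re, neg_im, I_re, I_im, ofReal_re,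
      ofReal_im, one_re, one_im, dt, normSq_apply, re_ofNat, im_ofNat]
    try ring
  obtain ⟨v209, h209, h⟩ := h
  change v209 = v125 * v208 at h209
  obtain ⟨v210, h210, h⟩ := h
  change v210 = v123 * v208 at h210
  obtain ⟨v211, h211, h⟩ := h
  change v211 = v51 * v206 at h211
  obtain ⟨v212, h212, h⟩ := h
  change v212 = v52 * v206 at h212
  obtain ⟨v213, h213, h⟩ := h
  change v213 = v197 + v211 at h213
  obtain ⟨v214, h214, h⟩ := h
  change v214 = v198 + v212 at h214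
  obtain ⟨v215, h215, h⟩ := h
  change v215 = v10 * v174 at h215
  obtain ⟨v216, h216, h⟩ := h
  change v216 = v10 * v138 at h216
  obtain ⟨v217, h217, h⟩ := h
  change v217 = v213 - v216 at h217
  obtain ⟨v218, h218, h⟩ := h
  change v218 = v214 + v215 at h218
  obtain ⟨v219, h219, h⟩ := h
  change v219 = v12 * v217 at h219
  obtain ⟨v220, h220, h⟩ := h
  change v220 = v12 * v218 at h220
  obtain ⟨v221, h221, h⟩ := h
  change v221 = v209 + v219 at h221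
  obtain ⟨v222, h222, h⟩ := h
  change v222 = v210 + v220 at h222
  obtain ⟨lxv, e_lxv_d⟩ : ∃ q : ℂ, q = lx m := ⟨_, rfl⟩
  have a_lxv : lx m = aed * (io : ℂ) + (DT - (gq : ℂ) * ns + (oR m : ℂ) * (I * be)) * ((1 / oF m : ℝ) : ℂ) := by
    rw [lx, e_aed_d, e_io_d, e_DT_d, e_gq_d, e_ns_d, e_be_d]; push_cast; ring
  have e_lxv_re : v221 = lxv.re := by
    rw [e_lxv_d, a_lxv]
    simp only [h221, h219, h217, h216, h213, h211, h209, h12, h10, e_be_im, e_gq_v, e_ns_re, e_DT_re, e_io_v, e_aed_re, mul_re, mul_im, add_re, add_im, sub_re, sub_im, neg_re, neg_im, I_re, I_im, ofReal_re,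
      ofReal_im, one_re, one_im, dt, normSq_apply, re_ofNat, im_ofNat]
    try ring
  have e_lxv_im : v222 = lxv.im := by
    rw [e_lxv_d, a_lxv]
    simp only [h222, h220, h218, h215, h214, h212, h210, h12, h10, e_be_re, e_gq_v, e_ns_im, e_DT_im, e_io_v, e_aed_im, mul_re, mul_im, add_re, add_im, sub_re, sub_im, neg_re, neg_im, I_re, I_im, ofReal_re,
      ofReal_im, one_re, one_im, dt, normSq_apply, re_ofNat, im_ofNat]
    try ring
  obtain ⟨v223, h223, h⟩ := h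
  change v223 = v50 - v61 at h223
  obtain ⟨v224, h224, h⟩ := h
  change v224 = v62 - v49 at h224
  obtain ⟨zv, e_zv_d⟩ : ∃ q : ℂ, q = I * ov m - oB m := ⟨_, rfl⟩
  have a_zv : I * ov m - oB m = I * vs - bs := by
    rw [e_vs_d, e_bs_d]
  have e_zv_re : v223 = zv.re := by
    rw [e_zv_d, a_zv]
    simp only [h223, e_bs_re, e_vs_im, mul_re, mul_im, add_re, add_im, sub_re, sub_im, neg_re, neg_im, I_re, I_im, ofReal_re,
      ofReal_im, one_re, one_im, dt, normSq_apply, re_ofNat, im_ofNat]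
    try ring
  have e_zv_im : v224 = zv.im := by
    rw [e_zv_d, a_zv]
    simp only [h224, e_vs_re, e_bs_im, mul_re, mul_im, add_re, add_im, sub_re, sub_im, neg_re, neg_im, I_re, I_im, ofReal_re,
      ofReal_im, one_re, one_im, dt, normSq_apply, re_ofNat, im_ofNat]
    try ring
  obtain ⟨v225, h225, h⟩ := h
  change v225 = v174 * v223 at h225
  obtain ⟨v226, h226, h⟩ := h
  change v226 = v138 * v224 at h226
  obtain ⟨v227, h227, h⟩ := h
  change v227 = v225 + v226 at h227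
  obtain ⟨bz, e_bz_d⟩ : ∃ q : ℝ, q = dt (dL.be m) (I * ov m - oB m) := ⟨_, rfl⟩
  have a_bz : dt (dL.be m) (I * ov m - oB m) = dt be zv := by
    rw [e_be_d, e_zv_d]
  have e_bz_v : v227 = bz := by
    rw [e_bz_d, a_bz]
    simp only [h227, h226, h225, e_zv_im, e_be_im, e_zv_re, e_be_re, mul_re, mul_im, add_re, add_im, sub_re, sub_im, neg_re, neg_im, I_re, I_im, ofReal_re,
      ofReal_im, one_re, one_im, dt, normSq_apply, re_ofNat, im_ofNat]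
    try ring
  exact pL_val_s5
    m hm1 v0 v1 v2 v3 v4 v5 v6 v7 v8 v9 v10 v11 h11 v12 h12 v13 v14 h14 v15 v16 v17 v18 v19 v20
    v21 v22 v23 ys e_ys_d e_ys_re e_ys_im v24 v25 v26 v27 v28 v29 v30 v31 v32 v33 v34 v35 v36 oav
    e_oav_d e_oav_re e_oav_im v37 v38 v39 v40 v41 v42 v43 v44 v45 v46 v47 v48 v49 v50 v51 v52 ns
    e_ns_d e_ns_re e_ns_im v53 v54 v55 k0 e_k0_d e_k0_v v56 v57 v58 v59 pr e_pr_d e_pr_re e_pr_im
    v60 v61 v62 v63 v64 v65 v66 v67 v68 v69 v70 v71 v72 v73 v74 v75 v76 v77 v78 v79 v80 v81 v82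
    v83 v84 v85 v86 v87 v88 v89 v90 v91 v92 v93 v94 v95 v96 v97 v98 v99 v100 v101 v102 v103 v104
    v105 v106 v107 v108 v109 v110 v111 v112 v113 v114 v115 v116 v117 v118 v119 v120 v121 v122
    v123 v124 v125 v126 v127 v128 v129 v130 v131 v132 v133 v134 v135 v136 v137 v138 v139 v140
    v141 v142 v143 v144 v145 v146 v147 v148 v149 v150 v151 v152 v153 v154 v155 v156 v157 v158
    v159 v160 v161 v162 v163 v164 v165 v166 v167 v168 v169 v170 v171 v172 v173 v174 v175 v176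
    v177 ae be e_be_d e_be_re e_be_im bed e_bed_d e_bed_re e_bed_im v178 v179 v180 v181 aeV
    e_aeV_d e_aeV_v v182 v183 v184 v185 v186 v187 v188 v189 v190 v191 v192 v193 v194 v195 v196
    v197 v198 v199 v200 v201 v202 v203 v204 v205 v206 v207 v208 io e_io_d e_io_v v209 v210 v211
    v212 v213 v214 v215 v216 v217 v218 v219 v220 v221 v222 lxv e_lxv_d e_lxv_re e_lxv_im v223
    v224 v225 v226 v227 bz e_bz_d e_bz_v h

theorem pL_val_s3 (m : ℝ)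
    (hm1 : m1 ≠ 0) (v0 : ℝ) (v1 : ℝ) (h1 : v1 = s3) (v2 : ℝ) (v3 : ℝ) (h3 : v3 = 1 / m1) (v4 : ℝ)
    (v5 : ℝ) (v6 : ℝ) (v7 : ℝ) (v8 : ℝ) (v9 : ℝ) (v10 : ℝ) (h10 : v10 = oR m) (v11 : ℝ)
    (h11 : v11 = 1 / oR m) (v12 : ℝ) (h12 : v12 = 1 / oF m) (v13 : ℝ) (h13 : v13 = m / m1)
    (v14 : ℝ) (h14 : v14 = (2 : ℝ)) (v15 : ℝ) (v16 : ℝ) (v17 : ℝ) (v18 : ℝ) (v19 : ℝ) (v20 : ℝ)
    (v21 : ℝ) (v22 : ℝ) (v23 : ℝ) (ys : ℂ) (e_ys_d : ys = oy m) (e_ys_re : v21 = ys.re)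
    (e_ys_im : v23 = ys.im) (v24 : ℝ) (v25 : ℝ) (v26 : ℝ) (v27 : ℝ) (v28 : ℝ) (v29 : ℝ) (v30 : ℝ)
    (v31 : ℝ) (v32 : ℝ) (v33 : ℝ) (v34 : ℝ) (v35 : ℝ) (v36 : ℝ) (oav : ℂ) (e_oav_d : oav = oa m)
    (e_oav_re : v32 = oav.re) (e_oav_im : v36 = oav.im) (v37 : ℝ) (v38 : ℝ) (v39 : ℝ) (v40 : ℝ)
    (v41 : ℝ) (v42 : ℝ) (v43 : ℝ) (v44 : ℝ) (v45 : ℝ) (v46 : ℝ) (v47 : ℝ) (v48 : ℝ) (v49 : ℝ)
    (v50 : ℝ) (vs : ℂ) (e_vs_d : vs = ov m) (e_vs_re : v49 = -vs.re) (e_vs_im : v50 = -vs.im)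
    (v51 : ℝ) (v52 : ℝ) (ns : ℂ) (e_ns_d : ns = oN m) (e_ns_re : v51 = -ns.re)
    (e_ns_im : v52 = -ns.im) (v53 : ℝ) (v54 : ℝ) (v55 : ℝ) (k0 : ℝ)
    (e_k0_d : k0 = dt (oy m) (oN m)) (e_k0_v : v55 = -k0) (v56 : ℝ) (v57 : ℝ) (v58 : ℝ) (v59 : ℝ)
    (pr : ℂ) (e_pr_d : pr = oy m - ((dt (oy m) (oN m) : ℝ) : ℂ) * oN m) (e_pr_re : v58 = pr.re)
    (e_pr_im : v59 = pr.im) (v60 : ℝ) (v61 : ℝ) (v62 : ℝ) (bs : ℂ) (e_bs_d : bs = oB m)
    (e_bs_re : v61 = bs.re) (e_bs_im : v62 = -bs.im) (v63 : ℝ) (wd : ℝ)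
    (e_wd_d : wd = oK * (1 / oS m)) (e_wd_v : v63 = wd) (v64 : ℝ) (v65 : ℝ) (v66 : ℝ) (w : ℝ)
    (e_w_d : w = 3 * oK * (1 / oS m) ^ 2) (e_w_v : v66 = w) (v67 : ℝ) (h67 : v67 = v14 * v63)
    (hh2 : ℝ) (e_hh2_d : hh2 = 2 * (oK * (1 / oS m))) (v68 : ℝ) (c2 : ℂ)
    (e_c2_d : c2 = (hh2 : ℂ) - oy m) (e_c2_re : v68 = c2.re) (e_c2_im : v23 = -c2.im) (v69 : ℝ)
    (v70 : ℝ) (V0 : ℂ) (e_V0_d : V0 = oV m) (e_V0_re : v70 = V0.re) (e_V0_im : v69 = V0.im)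
    (v71 : ℝ) (h71 : v71 = v13 * v13) (v72 : ℝ) (h72 : v72 = (563 : ℝ) / 2 ^ 30) (v73 : ℝ)
    (h73 : v73 = v71 * v72) (v74 : ℝ) (h74 : v74 = (553 : ℝ) / 2 ^ 27) (v75 : ℝ)
    (h75 : v75 = v74 - v73) (v76 : ℝ) (h76 : v76 = v71 * v75) (v77 : ℝ)
    (h77 : v77 = (269475 : ℝ) / 2 ^ 29) (v78 : ℝ) (h78 : v78 = v76 + v77) (v79 : ℝ)
    (h79 : v79 = v71 * v78) (v80 : ℝ) (h80 : v80 = (11220205 : ℝ) / 2 ^ 30) (v81 : ℝ)
    (h81 : v81 = v79 - v80) (v82 : ℝ) (h82 : v82 = v71 * v81) (v83 : ℝ)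
    (h83 : v83 = (18983651 : ℝ) / 2 ^ 30) (v84 : ℝ) (h84 : v84 = v82 + v83) (v85 : ℝ)
    (h85 : v85 = (5 : ℝ) / 2 ^ 27) (v86 : ℝ) (h86 : v86 = v71 * v85) (v87 : ℝ)
    (h87 : v87 = (137 : ℝ) / 2 ^ 27) (v88 : ℝ) (h88 : v88 = v87 - v86) (v89 : ℝ)
    (h89 : v89 = v71 * v88) (v90 : ℝ) (h90 : v90 = (44747 : ℝ) / 2 ^ 30) (v91 : ℝ)
    (h91 : v91 = v89 + v90) (v92 : ℝ) (h92 : v92 = v71 * v91) (v93 : ℝ)
    (h93 : v93 = (1595395 : ℝ) / 2 ^ 30) (v94 : ℝ) (h94 : v94 = v92 - v93) (v95 : ℝ)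
    (h95 : v95 = v71 * v94) (v96 : ℝ) (h96 : v96 = (9855849 : ℝ) / 2 ^ 30) (v97 : ℝ)
    (h97 : v97 = v95 + v96) (v98 : ℝ) (h98 : v98 = (563 : ℝ) / 2 ^ 28) (v99 : ℝ)
    (h99 : v99 = v71 * v98) (v100 : ℝ) (h100 : v100 = (1659 : ℝ) / 2 ^ 27) (v101 : ℝ)
    (h101 : v101 = v100 - v99) (v102 : ℝ) (h102 : v102 = v71 * v101) (v103 : ℝ)
    (h103 : v103 = (269475 : ℝ) / 2 ^ 28) (v104 : ℝ) (h104 : v104 = v102 + v103) (v105 : ℝ)
    (h105 : v105 = v71 * v104) (v106 : ℝ) (h106 : v106 = v105 - v80) (v107 : ℝ)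
    (h107 : v107 = (45 : ℝ) / 2 ^ 27) (v108 : ℝ) (h108 : v108 = v71 * v107) (v109 : ℝ)
    (h109 : v109 = (959 : ℝ) / 2 ^ 27) (v110 : ℝ) (h110 : v110 = v109 - v108) (v111 : ℝ)
    (h111 : v111 = v71 * v110) (v112 : ℝ) (h112 : v112 = (223735 : ℝ) / 2 ^ 30)
    (h : TrE (realAlg (fun i => get 0 (l1 μA m) i) (m / m1) 0)
    [.add 1 0, .mul 42 0, .cst 4786185 30, .sub 1 0, .mul 45 0, .add 0 21, .mul 105 21,
    .mul 118 0, .mul 117 107, .mul 107 15, .mul 1 0, .mul 122 120, .mul 6 0, .cst 5937 30,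
    .mul 55 0, .cst (-12001) 28, .sub 0 1, .mul 58 0, .cst 3583853 29, .add 1 0, .mul 61 0,
    .cst 23882929 28, .sub 1 0, .mul 64 0, .cst 177063997 30, .add 1 0, .cst 263 29, .mul 68 0,
    .cst 12461 30, .sub 0 1, .mul 71 0, .cst 289413 29, .add 1 0, .mul 74 0, .cst 18394599 30,
    .sub 1 0, .mul 77 0, .cst 26612471 28, .add 1 0, .cst 5937 28, .mul 81 0, .cst (-36003) 28,
    .sub 0 1, .mul 84 0, .cst 3583853 28, .add 1 0, .mul 87 0, .sub 0 25, .cst 2367 29,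
    .mul 90 0, .cst 87227 30, .sub 0 1, .mul 93 0, .cst 1447065 29, .add 1 0, .mul 96 0,
    .cst 55183797 30, .sub 1 0, .mul 99 0, .add 0 21, .mul 159 21, .mul 172 0, .mul 160 14,
    .mul 54 0, .mul 52 4, .mul 107 57, .mul 109 94, .add 1 0, .mul 168 0, .mul 158 61,
    .mul 114 98, .add 1 0, .mul 117 100, .add 1 0, .mul 172 0, .mul 166 0, .mul 165 1,
    .mul 126 126, .mul 106 0, .cst 4 0, .mul 1 0, .sub 0 5, .mul 128 74, .mul 129 111, .sub 2 0,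
    .sub 2 8, .mul 188 147, .mul 189 147, .sub 139 0, .sub 2 139, .mul 28 1, .mul 65 1, .add 1 0,
    .add 24 0, .mul 205 143, .mul 195 0, .mul 83 0, .mul 86 1, .mul 159 4, .mul 159 5, .add 15 1,
    .add 15 1, .mul 204 40, .mul 205 77, .sub 3 0, .add 3 2, .mul 206 1, .mul 207 1, .add 11 1,
    .add 11 1, .sub 172 161, .sub 161 174, .mul 50 1, .mul 87 1, .add 1 0, .mul 216 169,
    .mul 217 169, .mul 206 55, .mul 209 92, .sub 1 0, .mul 200 200, .mul 197 197, .sub 1 0,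
    .mul 203 199, .add 0 0, .mul 2 2, .mul 1 1, .sub 1 0, .mul 5 3, .add 0 0, .mul 2 2, .mul 1 1,
    .sub 1 0, .mul 5 3, .add 0 0, .mul 236 236, .mul 0 0, .mul 0 0, .mul 5 0, .mul 4 1,
    .mul 75 44, .mul 77 45, .mul 240 116, .mul 241 81, .add 5 1, .add 5 1, .mul 207 26,
    .mul 207 27, .sub 33 79, .mul 33 0, .mul 33 1, .sub 1 4, .sub 1 4, .mul 210 91, .mul 211 128,
    .sub 3 0, .add 3 2, .mul 257 1, .mul 258 1, .sub 14 1, .add 14 1, .sub 20 1, .add 20 1]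
    [v112, v111, v110, v109, v108, v107, v106, v105, v104, v103, v102, v101, v100, v99, v98, v97,
    v96, v95, v94, v93, v92, v91, v90, v89, v88, v87, v86, v85, v84, v83, v82, v81, v80, v79,
    v78, v77, v76, v75, v74, v73, v72, v71, v70, v69, v68, v67, v66, v65, v64, v63, v62, v61,
    v60, v59, v58, v57, v56, v55, v54, v53, v52, v51, v50, v49, v48, v47, v46, v45, v44, v43,
    v42, v41, v40, v39, v38, v37, v36, v35, v34, v33, v32, v31, v30, v29, v28, v27, v26, v25,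
    v24, v23, v22, v21, v20, v19, v18, v17, v16, v15, v14, v13, v12, v11, v10, v9, v8, v7, v6,
    v5, v4, v3, v2, v1, v0]
    (pL_valQ m)) :
    OutEq (run (realAlg (fun i => get 0 (l1 μA m) i) (m / m1) 0) pL []) pL_out [(lx m).re, (lx m).im, (lu m).re, (lu m).im] := by
  obtain ⟨v113, h113, h⟩ := h
  change v113 = v111 + v112 at h113
  obtain ⟨v114, h114, h⟩ := h
  change v114 = v71 * v113 at h114
  obtain ⟨v115, h115, h⟩ := h
  replace h115 : v115 = (4786185 : ℝ) / 2 ^ 30 := by rw [h115]; norm_num [step, realAlg]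
  obtain ⟨v116, h116, h⟩ := h
  change v116 = v114 - v115 at h116
  obtain ⟨v117, h117, h⟩ := h
  change v117 = v71 * v116 at h117
  obtain ⟨v118, h118, h⟩ := h
  change v118 = v117 + v96 at h118
  obtain ⟨v119, h119, h⟩ := h
  change v119 = v13 * v97 at h119
  obtain ⟨v120, h120, h⟩ := h
  change v120 = v1 * v119 at h120
  obtain ⟨c_ax, e_c_ax_d⟩ : ∃ q : ℂ, q = dL.ax.ev m := ⟨_, rfl⟩
  have e_c_ax_re : v84 = c_ax.re := by
    rw [e_c_ax_d]
    simp only [dL, Cf.ev, hor, axp, axq, bup, buq, h84, h83, h82, h81, h80, h79, h78, h77, h76, h75, h74, h73, h72, h71, h13, mul_re, mul_im, add_re, add_im, sub_re, sub_im, neg_re, neg_im, I_re, I_im, ofReal_re,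
      ofReal_im, one_re, one_im, dt, normSq_apply, re_ofNat, im_ofNat]
    try ring
  have e_c_ax_im : v120 = c_ax.im := by
    rw [e_c_ax_d]
    simp only [dL, Cf.ev, hor, axp, axq, bup, buq, h120, h119, h97, h96, h95, h94, h93, h92, h91, h90, h89, h88, h87, h86, h85, h71, h13, h1, mul_re, mul_im, add_re, add_im, sub_re, sub_im, neg_re, neg_im, I_re, I_im, ofReal_re,
      ofReal_im, one_re, one_im, dt, normSq_apply, re_ofNat, im_ofNat]
    try ring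
  obtain ⟨v121, h121, h⟩ := h
  change v121 = v3 * v13 at h121
  obtain ⟨v122, h122, h⟩ := h
  change v122 = v14 * v106 at h122
  obtain ⟨v123, h123, h⟩ := h
  change v123 = v121 * v122 at h123
  obtain ⟨v124, h124, h⟩ := h
  change v124 = v1 * v3 at h124
  obtain ⟨v125, h125, h⟩ := h
  change v125 = v118 * v124 at h125
  obtain ⟨d_ax, e_d_ax_d⟩ : ∃ q : ℂ, q = dL.ax.dv m := ⟨_, rfl⟩
  have e_d_ax_re : v123 = d_ax.re := by
    rw [e_d_ax_d]
    simp only [dL, Cf.dv, hor, dhor, axp, axq, bup, buq, h123, h122, h121, h106, h105, h104, h103, h102, h101, h100, h99, h98, h80, h71, h14, h13, h3, mul_re, mul_im, add_re, add_im, sub_re, sub_im, neg_re, neg_im, I_re, I_im, ofReal_re,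
      ofReal_im, one_re, one_im, dt, normSq_apply, re_ofNat, im_ofNat]
    try ring
  have e_d_ax_im : v125 = d_ax.im := by
    rw [e_d_ax_d]
    simp only [dL, Cf.dv, hor, dhor, axp, axq, bup, buq, h125, h124, h118, h117, h116, h115, h114, h113, h112, h111, h110, h109, h108, h107, h96, h71, h13, h3, h1, mul_re, mul_im, add_re, add_im, sub_re, sub_im, neg_re, neg_im, I_re, I_im, ofReal_re,
      ofReal_im, one_re, one_im, dt, normSq_apply, re_ofNat, im_ofNat]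
    try ring
  obtain ⟨v126, h126, h⟩ := h
  replace h126 : v126 = (5937 : ℝ) / 2 ^ 30 := by rw [h126]; norm_num [step, realAlg]
  obtain ⟨v127, h127, h⟩ := h
  change v127 = v71 * v126 at h127
  obtain ⟨v128, h128, h⟩ := h
  replace h128 : v128 = (-12001 : ℝ) / 2 ^ 28 := by rw [h128]; norm_num [step, realAlg]
  obtain ⟨v129, h129, h⟩ := h
  change v129 = v128 - v127 at h129
  obtain ⟨v130, h130, h⟩ := h
  change v130 = v71 * v129 at h130
  obtain ⟨v131, h131, h⟩ := h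
  replace h131 : v131 = (3583853 : ℝ) / 2 ^ 29 := by rw [h131]; norm_num [step, realAlg]
  obtain ⟨v132, h132, h⟩ := h
  change v132 = v130 + v131 at h132
  obtain ⟨v133, h133, h⟩ := h
  change v133 = v71 * v132 at h133
  obtain ⟨v134, h134, h⟩ := h
  replace h134 : v134 = (23882929 : ℝ) / 2 ^ 28 := by rw [h134]; norm_num [step, realAlg]
  obtain ⟨v135, h135, h⟩ := h
  change v135 = v133 - v134 at h135
  obtain ⟨v136, h136, h⟩ := h
  change v136 = v71 * v135 at h136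
  obtain ⟨v137, h137, h⟩ := h
  replace h137 : v137 = (177063997 : ℝ) / 2 ^ 30 := by rw [h137]; norm_num [step, realAlg]
  obtain ⟨v138, h138, h⟩ := h
  change v138 = v136 + v137 at h138
  obtain ⟨v139, h139, h⟩ := h
  replace h139 : v139 = (263 : ℝ) / 2 ^ 29 := by rw [h139]; norm_num [step, realAlg]
  obtain ⟨v140, h140, h⟩ := h
  change v140 = v71 * v139 at h140
  obtain ⟨v141, h141, h⟩ := h
  replace h141 : v141 = (12461 : ℝ) / 2 ^ 30 := by rw [h141]; norm_num [step, realAlg]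
  obtain ⟨v142, h142, h⟩ := h
  change v142 = v141 - v140 at h142
  obtain ⟨v143, h143, h⟩ := h
  change v143 = v71 * v142 at h143
  obtain ⟨v144, h144, h⟩ := h
  replace h144 : v144 = (289413 : ℝ) / 2 ^ 29 := by rw [h144]; norm_num [step, realAlg]
  obtain ⟨v145, h145, h⟩ := h
  change v145 = v143 + v144 at h145
  obtain ⟨v146, h146, h⟩ := h
  change v146 = v71 * v145 at h146
  obtain ⟨v147, h147, h⟩ := h
  replace h147 : v147 = (18394599 : ℝ) / 2 ^ 30 := by rw [h147]; norm_num [step, realAlg]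
  obtain ⟨v148, h148, h⟩ := h
  change v148 = v146 - v147 at h148
  obtain ⟨v149, h149, h⟩ := h
  change v149 = v71 * v148 at h149
  obtain ⟨v150, h150, h⟩ := h
  replace h150 : v150 = (26612471 : ℝ) / 2 ^ 28 := by rw [h150]; norm_num [step, realAlg]
  obtain ⟨v151, h151, h⟩ := h
  change v151 = v149 + v150 at h151
  obtain ⟨v152, h152, h⟩ := h
  replace h152 : v152 = (5937 : ℝ) / 2 ^ 28 := by rw [h152]; norm_num [step, realAlg]
  obtain ⟨v153, h153, h⟩ := h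
  change v153 = v71 * v152 at h153
  obtain ⟨v154, h154, h⟩ := h
  replace h154 : v154 = (-36003 : ℝ) / 2 ^ 28 := by rw [h154]; norm_num [step, realAlg]
  obtain ⟨v155, h155, h⟩ := h
  change v155 = v154 - v153 at h155
  obtain ⟨v156, h156, h⟩ := h
  change v156 = v71 * v155 at h156
  obtain ⟨v157, h157, h⟩ := h
  replace h157 : v157 = (3583853 : ℝ) / 2 ^ 28 := by rw [h157]; norm_num [step, realAlg]
  obtain ⟨v158, h158, h⟩ := h
  change v158 = v156 + v157 at h158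
  obtain ⟨v159, h159, h⟩ := h
  change v159 = v71 * v158 at h159
  obtain ⟨v160, h160, h⟩ := h
  change v160 = v159 - v134 at h160
  obtain ⟨v161, h161, h⟩ := h
  replace h161 : v161 = (2367 : ℝ) / 2 ^ 29 := by rw [h161]; norm_num [step, realAlg]
  obtain ⟨v162, h162, h⟩ := h
  change v162 = v71 * v161 at h162
  obtain ⟨v163, h163, h⟩ := h
  replace h163 : v163 = (87227 : ℝ) / 2 ^ 30 := by rw [h163]; norm_num [step, realAlg]
  obtain ⟨v164, h164, h⟩ := h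
  change v164 = v163 - v162 at h164
  obtain ⟨v165, h165, h⟩ := h
  change v165 = v71 * v164 at h165
  obtain ⟨v166, h166, h⟩ := h
  replace h166 : v166 = (1447065 : ℝ) / 2 ^ 29 := by rw [h166]; norm_num [step, realAlg]
  obtain ⟨v167, h167, h⟩ := h
  change v167 = v165 + v166 at h167
  obtain ⟨v168, h168, h⟩ := h
  change v168 = v71 * v167 at h168
  obtain ⟨v169, h169, h⟩ := h
  replace h169 : v169 = (55183797 : ℝ) / 2 ^ 30 := by rw [h169]; norm_num [step, realAlg]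
  obtain ⟨v170, h170, h⟩ := h
  change v170 = v168 - v169 at h170
  obtain ⟨v171, h171, h⟩ := h
  change v171 = v71 * v170 at h171
  obtain ⟨v172, h172, h⟩ := h
  change v172 = v171 + v150 at h172
  obtain ⟨v173, h173, h⟩ := h
  change v173 = v13 * v151 at h173
  obtain ⟨v174, h174, h⟩ := h
  change v174 = v1 * v173 at h174
  obtain ⟨c_bu, e_c_bu_d⟩ : ∃ q : ℂ, q = dL.bu.ev m := ⟨_, rfl⟩
  have e_c_bu_re : v138 = c_bu.re := by
    rw [e_c_bu_d]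
    simp only [dL, Cf.ev, hor, axp, axq, bup, buq, h138, h137, h136, h135, h134, h133, h132, h131, h130, h129, h128, h127, h126, h71, h13, mul_re, mul_im, add_re, add_im, sub_re, sub_im, neg_re, neg_im, I_re, I_im, ofReal_re,
      ofReal_im, one_re, one_im, dt, normSq_apply, re_ofNat, im_ofNat]
    try ring
  have e_c_bu_im : v174 = c_bu.im := by
    rw [e_c_bu_d]
    simp only [dL, Cf.ev, hor, axp, axq, bup, buq, h174, h173, h151, h150, h149, h148, h147, h146, h145, h144, h143, h142, h141, h140, h139, h71, h13, h1, mul_re, mul_im, add_re, add_im, sub_re, sub_im, neg_re, neg_im, I_re, I_im, ofReal_re,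
      ofReal_im, one_re, one_im, dt, normSq_apply, re_ofNat, im_ofNat]
    try ring
  obtain ⟨v175, h175, h⟩ := h
  change v175 = v14 * v160 at h175
  obtain ⟨v176, h176, h⟩ := h
  change v176 = v121 * v175 at h176
  exact pL_val_s4
    m hm1 v0 v1 h1 v2 v3 h3 v4 v5 v6 v7 v8 v9 v10 h10 v11 h11 v12 h12 v13 h13 v14 h14 v15 v16 v17
    v18 v19 v20 v21 v22 v23 ys e_ys_d e_ys_re e_ys_im v24 v25 v26 v27 v28 v29 v30 v31 v32 v33 v34
    v35 v36 oav e_oav_d e_oav_re e_oav_im v37 v38 v39 v40 v41 v42 v43 v44 v45 v46 v47 v48 v49 v50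
    vs e_vs_d e_vs_re e_vs_im v51 v52 ns e_ns_d e_ns_re e_ns_im v53 v54 v55 k0 e_k0_d e_k0_v v56
    v57 v58 v59 pr e_pr_d e_pr_re e_pr_im v60 v61 v62 bs e_bs_d e_bs_re e_bs_im v63 wd e_wd_d
    e_wd_v v64 v65 v66 w e_w_d e_w_v v67 h67 hh2 e_hh2_d v68 c2 e_c2_d e_c2_re e_c2_im v69 v70 V0
    e_V0_d e_V0_re e_V0_im v71 h71 v72 v73 v74 v75 v76 v77 v78 v79 v80 v81 v82 v83 v84 v85 v86
    v87 v88 v89 v90 v91 v92 v93 v94 v95 v96 v97 v98 v99 v100 v101 v102 v103 v104 v105 v106 v107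
    v108 v109 v110 v111 v112 v113 v114 v115 v116 v117 v118 v119 v120 c_ax e_c_ax_d e_c_ax_re
    e_c_ax_im v121 h121 v122 v123 v124 h124 v125 d_ax e_d_ax_d e_d_ax_re e_d_ax_im v126 v127 v128
    v129 v130 v131 v132 v133 v134 h134 v135 v136 v137 v138 v139 v140 v141 v142 v143 v144 v145
    v146 v147 v148 v149 v150 h150 v151 v152 h152 v153 h153 v154 h154 v155 h155 v156 h156 v157
    h157 v158 h158 v159 h159 v160 h160 v161 h161 v162 h162 v163 h163 v164 h164 v165 h165 v166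
    h166 v167 h167 v168 h168 v169 h169 v170 h170 v171 h171 v172 h172 v173 v174 c_bu e_c_bu_d
    e_c_bu_re e_c_bu_im v175 h175 v176 h176 h

theorem pL_val_s2 (m : ℝ)
    (hm1 : m1 ≠ 0) (v0 : ℝ) (v1 : ℝ) (h1 : v1 = s3) (v2 : ℝ) (v3 : ℝ) (h3 : v3 = 1 / m1) (v4 : ℝ)
    (v5 : ℝ) (v6 : ℝ) (v7 : ℝ) (v8 : ℝ) (v9 : ℝ) (h9 : v9 = 1 / oS m) (v10 : ℝ)
    (h10 : v10 = oR m) (v11 : ℝ) (h11 : v11 = 1 / oR m) (v12 : ℝ) (h12 : v12 = 1 / oF m)
    (v13 : ℝ) (h13 : v13 = m / m1) (v14 : ℝ) (h14 : v14 = (2 : ℝ)) (v15 : ℝ) (v16 : ℝ) (v17 : ℝ)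
    (K : ℝ) (e_K_d : K = oK) (e_K_v : v17 = K) (v18 : ℝ) (v19 : ℝ) (v20 : ℝ) (v21 : ℝ) (v22 : ℝ)
    (v23 : ℝ) (ys : ℂ) (e_ys_d : ys = oy m) (e_ys_re : v21 = ys.re) (e_ys_im : v23 = ys.im)
    (v24 : ℝ) (v25 : ℝ) (v26 : ℝ) (v27 : ℝ) (v28 : ℝ) (v29 : ℝ) (v30 : ℝ) (v31 : ℝ) (v32 : ℝ)
    (v33 : ℝ) (v34 : ℝ) (v35 : ℝ) (v36 : ℝ) (oav : ℂ) (e_oav_d : oav = oa m)
    (e_oav_re : v32 = oav.re) (e_oav_im : v36 = oav.im) (v37 : ℝ) (v38 : ℝ) (v39 : ℝ) (v40 : ℝ)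
    (v41 : ℝ) (v42 : ℝ) (v43 : ℝ) (v44 : ℝ) (v45 : ℝ) (v46 : ℝ) (v47 : ℝ) (v48 : ℝ) (v49 : ℝ)
    (v50 : ℝ) (vs : ℂ) (e_vs_d : vs = ov m) (e_vs_re : v49 = -vs.re) (e_vs_im : v50 = -vs.im)
    (v51 : ℝ) (v52 : ℝ) (ns : ℂ) (e_ns_d : ns = oN m) (e_ns_re : v51 = -ns.re)
    (e_ns_im : v52 = -ns.im) (v53 : ℝ) (v54 : ℝ) (v55 : ℝ) (k0 : ℝ)
    (e_k0_d : k0 = dt (oy m) (oN m)) (e_k0_v : v55 = -k0)
    (h : TrE (realAlg (fun i => get 0 (l1 μA m) i) (m / m1) 0)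
    [.mul 4 0, .mul 4 1, .sub 36 1, .sub 35 1, .mul 49 47, .mul 1 0, .mul 3 1, .mul 53 45,
    .mul 54 0, .cst 3 0, .mul 1 0, .mul 52 3, .sub 0 46, .mul 2 0, .mul 46 3, .mul 57 57,
    .cst 563 30, .mul 1 0, .cst 553 27, .sub 0 1, .mul 4 0, .cst 269475 29, .add 1 0, .mul 7 0,
    .cst 11220205 30, .sub 1 0, .mul 10 0, .cst 18983651 30, .add 1 0, .cst 5 27, .mul 14 0,
    .cst 137 27, .sub 0 1, .mul 17 0, .cst 44747 30, .add 1 0, .mul 20 0, .cst 1595395 30,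
    .sub 1 0, .mul 23 0, .cst 9855849 30, .add 1 0, .cst 563 28, .mul 27 0, .cst 1659 27,
    .sub 0 1, .mul 30 0, .cst 269475 28, .add 1 0, .mul 33 0, .sub 0 25, .cst 45 27, .mul 36 0,
    .cst 959 27, .sub 0 1, .mul 39 0, .cst 223735 30, .add 1 0, .mul 42 0, .cst 4786185 30,
    .sub 1 0, .mul 45 0, .add 0 21, .mul 105 21, .mul 118 0, .mul 117 107, .mul 107 15, .mul 1 0,
    .mul 122 120, .mul 6 0, .cst 5937 30, .mul 55 0, .cst (-12001) 28, .sub 0 1, .mul 58 0,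
    .cst 3583853 29, .add 1 0, .mul 61 0, .cst 23882929 28, .sub 1 0, .mul 64 0,
    .cst 177063997 30, .add 1 0, .cst 263 29, .mul 68 0, .cst 12461 30, .sub 0 1, .mul 71 0,
    .cst 289413 29, .add 1 0, .mul 74 0, .cst 18394599 30, .sub 1 0, .mul 77 0, .cst 26612471 28,
    .add 1 0, .cst 5937 28, .mul 81 0, .cst (-36003) 28, .sub 0 1, .mul 84 0, .cst 3583853 28,
    .add 1 0, .mul 87 0, .sub 0 25, .cst 2367 29, .mul 90 0, .cst 87227 30, .sub 0 1, .mul 93 0,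
    .cst 1447065 29, .add 1 0, .mul 96 0, .cst 55183797 30, .sub 1 0, .mul 99 0, .add 0 21,
    .mul 159 21, .mul 172 0, .mul 160 14, .mul 54 0, .mul 52 4, .mul 107 57, .mul 109 94,
    .add 1 0, .mul 168 0, .mul 158 61, .mul 114 98, .add 1 0, .mul 117 100, .add 1 0, .mul 172 0,
    .mul 166 0, .mul 165 1, .mul 126 126, .mul 106 0, .cst 4 0, .mul 1 0, .sub 0 5, .mul 128 74,
    .mul 129 111, .sub 2 0, .sub 2 8, .mul 188 147, .mul 189 147, .sub 139 0, .sub 2 139,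
    .mul 28 1, .mul 65 1, .add 1 0, .add 24 0, .mul 205 143, .mul 195 0, .mul 83 0, .mul 86 1,
    .mul 159 4, .mul 159 5, .add 15 1, .add 15 1, .mul 204 40, .mul 205 77, .sub 3 0, .add 3 2,
    .mul 206 1, .mul 207 1, .add 11 1, .add 11 1, .sub 172 161, .sub 161 174, .mul 50 1,
    .mul 87 1, .add 1 0, .mul 216 169, .mul 217 169, .mul 206 55, .mul 209 92, .sub 1 0,
    .mul 200 200, .mul 197 197, .sub 1 0, .mul 203 199, .add 0 0, .mul 2 2, .mul 1 1, .sub 1 0,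
    .mul 5 3, .add 0 0, .mul 2 2, .mul 1 1, .sub 1 0, .mul 5 3, .add 0 0, .mul 236 236, .mul 0 0,
    .mul 0 0, .mul 5 0, .mul 4 1, .mul 75 44, .mul 77 45, .mul 240 116, .mul 241 81, .add 5 1,
    .add 5 1, .mul 207 26, .mul 207 27, .sub 33 79, .mul 33 0, .mul 33 1, .sub 1 4, .sub 1 4,
    .mul 210 91, .mul 211 128, .sub 3 0, .add 3 2, .mul 257 1, .mul 258 1, .sub 14 1, .add 14 1,
    .sub 20 1, .add 20 1]
    [v55, v54, v53, v52, v51, v50, v49, v48, v47, v46, v45, v44, v43, v42, v41, v40, v39, v38,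
    v37, v36, v35, v34, v33, v32, v31, v30, v29, v28, v27, v26, v25, v24, v23, v22, v21, v20,
    v19, v18, v17, v16, v15, v14, v13, v12, v11, v10, v9, v8, v7, v6, v5, v4, v3, v2, v1, v0]
    (pL_valQ m)) :
    OutEq (run (realAlg (fun i => get 0 (l1 μA m) i) (m / m1) 0) pL []) pL_out [(lx m).re, (lx m).im, (lu m).re, (lu m).im] := by
  obtain ⟨v56, h56, h⟩ := h
  change v56 = v51 * v55 at h56
  obtain ⟨v57, h57, h⟩ := h
  change v57 = v52 * v55 at h57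
  obtain ⟨v58, h58, h⟩ := h
  change v58 = v21 - v56 at h58
  obtain ⟨v59, h59, h⟩ := h
  change v59 = v23 - v57 at h59
  obtain ⟨pr, e_pr_d⟩ : ∃ q : ℂ, q = oy m - ((dt (oy m) (oN m) : ℝ) : ℂ) * oN m := ⟨_, rfl⟩
  have a_pr : oy m - ((dt (oy m) (oN m) : ℝ) : ℂ) * oN m = ys - (k0 : ℂ) * ns := by
    rw [e_k0_d, e_ys_d, e_ns_d]
  have e_pr_re : v58 = pr.re := by
    rw [e_pr_d, a_pr]
    simp only [h58, h56, e_k0_v, e_ns_re, e_ys_re, mul_re, mul_im, add_re, add_im, sub_re, sub_im, neg_re, neg_im, I_re, I_im, ofReal_re,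
      ofReal_im, one_re, one_im, dt, normSq_apply, re_ofNat, im_ofNat]
    try ring
  have e_pr_im : v59 = pr.im := by
    rw [e_pr_d, a_pr]
    simp only [h59, h57, e_k0_v, e_ns_im, e_ys_im, mul_re, mul_im, add_re, add_im, sub_re, sub_im, neg_re, neg_im, I_re, I_im, ofReal_re,
      ofReal_im, one_re, one_im, dt, normSq_apply, re_ofNat, im_ofNat]
    try ring
  obtain ⟨v60, h60, h⟩ := h
  change v60 = v10 * v12 at h60
  obtain ⟨v61, h61, h⟩ := h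
  change v61 = v59 * v60 at h61
  obtain ⟨v62, h62, h⟩ := h
  change v62 = v58 * v60 at h62
  obtain ⟨bs, e_bs_d⟩ : ∃ q : ℂ, q = oB m := ⟨_, rfl⟩
  have a_bs : oB m = -(I * pr) * ((oR m * (1 / oF m) : ℝ) : ℂ) := by
    rw [e_pr_d, mul_comm ((dt (oy m) (oN m) : ℝ) : ℂ)]; exact oB_l1 m
  have e_bs_re : v61 = bs.re := by
    rw [e_bs_d, a_bs]
    simp only [h61, h60, h12, h10, e_pr_im, mul_re, mul_im, add_re, add_im, sub_re, sub_im, neg_re, neg_im, I_re, I_im, ofReal_re,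
      ofReal_im, one_re, one_im, dt, normSq_apply, re_ofNat, im_ofNat]
    try ring
  have e_bs_im : v62 = -bs.im := by
    rw [e_bs_d, a_bs]
    simp only [h62, h60, h12, h10, e_pr_re, mul_re, mul_im, add_re, add_im, sub_re, sub_im, neg_re, neg_im, I_re, I_im, ofReal_re,
      ofReal_im, one_re, one_im, dt, normSq_apply, re_ofNat, im_ofNat]
    try ring
  obtain ⟨v63, h63, h⟩ := h
  change v63 = v9 * v17 at h63
  obtain ⟨wd, e_wd_d⟩ : ∃ q : ℝ, q = oK * (1 / oS m) := ⟨_, rfl⟩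
  have a_wd : oK * (1 / oS m) = K * (1 / oS m) := by
    rw [e_K_d]
  have e_wd_v : v63 = wd := by
    rw [e_wd_d, a_wd]
    simp only [h63, h9, e_K_v, mul_re, mul_im, add_re, add_im, sub_re, sub_im, neg_re, neg_im, I_re, I_im, ofReal_re,
      ofReal_im, one_re, one_im, dt, normSq_apply, re_ofNat, im_ofNat]
    try ring
  obtain ⟨v64, h64, h⟩ := h
  change v64 = v9 * v63 at h64
  obtain ⟨v65, h65, h⟩ := h
  replace h65 : v65 = (3 : ℝ) := by rw [h65]; norm_num [step, realAlg]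
  obtain ⟨v66, h66, h⟩ := h
  change v66 = v64 * v65 at h66
  obtain ⟨w, e_w_d⟩ : ∃ q : ℝ, q = 3 * oK * (1 / oS m) ^ 2 := ⟨_, rfl⟩
  have a_w : 3 * oK * (1 / oS m) ^ 2 = 3 * wd * (1 / oS m) := by
    rw [e_wd_d]; ring
  have e_w_v : v66 = w := by
    rw [e_w_d, a_w]
    simp only [h66, h65, h64, h9, e_wd_v, mul_re, mul_im, add_re, add_im, sub_re, sub_im, neg_re, neg_im, I_re, I_im, ofReal_re,
      ofReal_im, one_re, one_im, dt, normSq_apply, re_ofNat, im_ofNat]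
    try ring
  obtain ⟨v67, h67, h⟩ := h
  change v67 = v14 * v63 at h67
  obtain ⟨hh2, e_hh2_d⟩ : ∃ q : ℝ, q = 2 * (oK * (1 / oS m)) := ⟨_, rfl⟩
  have a_hh2 : 2 * (oK * (1 / oS m)) = 2 * wd := by
    rw [e_wd_d]
  have e_hh2_v : v67 = hh2 := by
    rw [e_hh2_d, a_hh2]
    simp only [h67, h14, e_wd_v, mul_re, mul_im, add_re, add_im, sub_re, sub_im, neg_re, neg_im, I_re, I_im, ofReal_re,
      ofReal_im, one_re, one_im, dt, normSq_apply, re_ofNat, im_ofNat]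
    try ring
  obtain ⟨v68, h68, h⟩ := h
  change v68 = v67 - v21 at h68
  obtain ⟨c2, e_c2_d⟩ : ∃ q : ℂ, q = (hh2 : ℂ) - oy m := ⟨_, rfl⟩
  have a_c2 : (hh2 : ℂ) - oy m = (hh2 : ℂ) - ys := by
    rw [e_ys_d]
  have e_c2_re : v68 = c2.re := by
    rw [e_c2_d, a_c2]
    simp only [h68, e_ys_re, e_hh2_v, mul_re, mul_im, add_re, add_im, sub_re, sub_im, neg_re, neg_im, I_re, I_im, ofReal_re,
      ofReal_im, one_re, one_im, dt, normSq_apply, re_ofNat, im_ofNat]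
    try ring
  have e_c2_im : v23 = -c2.im := by
    rw [e_c2_d, a_c2]
    simp only [e_ys_im, mul_re, mul_im, add_re, add_im, sub_re, sub_im, neg_re, neg_im, I_re, I_im, ofReal_re,
      ofReal_im, one_re, one_im, dt, normSq_apply, re_ofNat, im_ofNat]
    try ring
  obtain ⟨v69, h69, h⟩ := h
  change v69 = v66 * v68 at h69
  obtain ⟨v70, h70, h⟩ := h
  change v70 = v23 * v66 at h70
  obtain ⟨V0, e_V0_d⟩ : ∃ q : ℂ, q = oV m := ⟨_, rfl⟩
  have a_V0 : oV m = I * (w : ℂ) * c2 := by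
    rw [e_w_d, e_c2_d, e_hh2_d]; exact oV_l1 m
  have e_V0_re : v70 = V0.re := by
    rw [e_V0_d, a_V0]
    simp only [h70, e_w_v, e_c2_im, mul_re, mul_im, add_re, add_im, sub_re, sub_im, neg_re, neg_im, I_re, I_im, ofReal_re,
      ofReal_im, one_re, one_im, dt, normSq_apply, re_ofNat, im_ofNat]
    try ring
  have e_V0_im : v69 = V0.im := by
    rw [e_V0_d, a_V0]
    simp only [h69, e_c2_re, e_w_v, mul_re, mul_im, add_re, add_im, sub_re, sub_im, neg_re, neg_im, I_re, I_im, ofReal_re,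
      ofReal_im, one_re, one_im, dt, normSq_apply, re_ofNat, im_ofNat]
    try ring
  obtain ⟨v71, h71, h⟩ := h
  change v71 = v13 * v13 at h71
  obtain ⟨t2, e_t2_d⟩ : ∃ q : ℝ, q = (m / m1) ^ 2 := ⟨_, rfl⟩
  have e_t2_v : v71 = t2 := by
    rw [e_t2_d]
    simp only [h71, h13, mul_re, mul_im, add_re, add_im, sub_re, sub_im, neg_re, neg_im, I_re, I_im, ofReal_re,
      ofReal_im, one_re, one_im, dt, normSq_apply, re_ofNat, im_ofNat]
    try ring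
  obtain ⟨v72, h72, h⟩ := h
  replace h72 : v72 = (563 : ℝ) / 2 ^ 30 := by rw [h72]; norm_num [step, realAlg]
  obtain ⟨v73, h73, h⟩ := h
  change v73 = v71 * v72 at h73
  obtain ⟨v74, h74, h⟩ := h
  replace h74 : v74 = (553 : ℝ) / 2 ^ 27 := by rw [h74]; norm_num [step, realAlg]
  obtain ⟨v75, h75, h⟩ := h
  change v75 = v74 - v73 at h75
  obtain ⟨v76, h76, h⟩ := h
  change v76 = v71 * v75 at h76
  obtain ⟨v77, h77, h⟩ := h
  replace h77 : v77 = (269475 : ℝ) / 2 ^ 29 := by rw [h77]; norm_num [step, realAlg]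
  obtain ⟨v78, h78, h⟩ := h
  change v78 = v76 + v77 at h78
  obtain ⟨v79, h79, h⟩ := h
  change v79 = v71 * v78 at h79
  obtain ⟨v80, h80, h⟩ := h
  replace h80 : v80 = (11220205 : ℝ) / 2 ^ 30 := by rw [h80]; norm_num [step, realAlg]
  obtain ⟨v81, h81, h⟩ := h
  change v81 = v79 - v80 at h81
  obtain ⟨v82, h82, h⟩ := h
  change v82 = v71 * v81 at h82
  obtain ⟨v83, h83, h⟩ := h
  replace h83 : v83 = (18983651 : ℝ) / 2 ^ 30 := by rw [h83]; norm_num [step, realAlg]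
  obtain ⟨v84, h84, h⟩ := h
  change v84 = v82 + v83 at h84
  obtain ⟨v85, h85, h⟩ := h
  replace h85 : v85 = (5 : ℝ) / 2 ^ 27 := by rw [h85]; norm_num [step, realAlg]
  obtain ⟨v86, h86, h⟩ := h
  change v86 = v71 * v85 at h86
  obtain ⟨v87, h87, h⟩ := h
  replace h87 : v87 = (137 : ℝ) / 2 ^ 27 := by rw [h87]; norm_num [step, realAlg]
  obtain ⟨v88, h88, h⟩ := h
  change v88 = v87 - v86 at h88
  obtain ⟨v89, h89, h⟩ := h
  change v89 = v71 * v88 at h89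
  obtain ⟨v90, h90, h⟩ := h
  replace h90 : v90 = (44747 : ℝ) / 2 ^ 30 := by rw [h90]; norm_num [step, realAlg]
  obtain ⟨v91, h91, h⟩ := h
  change v91 = v89 + v90 at h91
  obtain ⟨v92, h92, h⟩ := h
  change v92 = v71 * v91 at h92
  obtain ⟨v93, h93, h⟩ := h
  replace h93 : v93 = (1595395 : ℝ) / 2 ^ 30 := by rw [h93]; norm_num [step, realAlg]
  obtain ⟨v94, h94, h⟩ := h
  change v94 = v92 - v93 at h94
  obtain ⟨v95, h95, h⟩ := h
  change v95 = v71 * v94 at h95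
  obtain ⟨v96, h96, h⟩ := h
  replace h96 : v96 = (9855849 : ℝ) / 2 ^ 30 := by rw [h96]; norm_num [step, realAlg]
  obtain ⟨v97, h97, h⟩ := h
  change v97 = v95 + v96 at h97
  obtain ⟨v98, h98, h⟩ := h
  replace h98 : v98 = (563 : ℝ) / 2 ^ 28 := by rw [h98]; norm_num [step, realAlg]
  obtain ⟨v99, h99, h⟩ := h
  change v99 = v71 * v98 at h99
  obtain ⟨v100, h100, h⟩ := h
  replace h100 : v100 = (1659 : ℝ) / 2 ^ 27 := by rw [h100]; norm_num [step, realAlg]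
  obtain ⟨v101, h101, h⟩ := h
  change v101 = v100 - v99 at h101
  obtain ⟨v102, h102, h⟩ := h
  change v102 = v71 * v101 at h102
  obtain ⟨v103, h103, h⟩ := h
  replace h103 : v103 = (269475 : ℝ) / 2 ^ 28 := by rw [h103]; norm_num [step, realAlg]
  obtain ⟨v104, h104, h⟩ := h
  change v104 = v102 + v103 at h104
  obtain ⟨v105, h105, h⟩ := h
  change v105 = v71 * v104 at h105
  obtain ⟨v106, h106, h⟩ := h
  change v106 = v105 - v80 at h106
  obtain ⟨v107, h107, h⟩ := h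
  replace h107 : v107 = (45 : ℝ) / 2 ^ 27 := by rw [h107]; norm_num [step, realAlg]
  obtain ⟨v108, h108, h⟩ := h
  change v108 = v71 * v107 at h108
  obtain ⟨v109, h109, h⟩ := h
  replace h109 : v109 = (959 : ℝ) / 2 ^ 27 := by rw [h109]; norm_num [step, realAlg]
  obtain ⟨v110, h110, h⟩ := h
  change v110 = v109 - v108 at h110
  obtain ⟨v111, h111, h⟩ := h
  change v111 = v71 * v110 at h111
  obtain ⟨v112, h112, h⟩ := h
  replace h112 : v112 = (223735 : ℝ) / 2 ^ 30 := by rw [h112]; norm_num [step, realAlg]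
  exact pL_val_s3
    m hm1 v0 v1 h1 v2 v3 h3 v4 v5 v6 v7 v8 v9 v10 h10 v11 h11 v12 h12 v13 h13 v14 h14 v15 v16 v17
    v18 v19 v20 v21 v22 v23 ys e_ys_d e_ys_re e_ys_im v24 v25 v26 v27 v28 v29 v30 v31 v32 v33 v34
    v35 v36 oav e_oav_d e_oav_re e_oav_im v37 v38 v39 v40 v41 v42 v43 v44 v45 v46 v47 v48 v49 v50
    vs e_vs_d e_vs_re e_vs_im v51 v52 ns e_ns_d e_ns_re e_ns_im v53 v54 v55 k0 e_k0_d e_k0_v v56
    v57 v58 v59 pr e_pr_d e_pr_re e_pr_im v60 v61 v62 bs e_bs_d e_bs_re e_bs_im v63 wd e_wd_d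
    e_wd_v v64 v65 v66 w e_w_d e_w_v v67 h67 hh2 e_hh2_d v68 c2 e_c2_d e_c2_re e_c2_im v69 v70 V0
    e_V0_d e_V0_re e_V0_im v71 h71 v72 h72 v73 h73 v74 h74 v75 h75 v76 h76 v77 h77 v78 h78 v79
    h79 v80 h80 v81 h81 v82 h82 v83 h83 v84 h84 v85 h85 v86 h86 v87 h87 v88 h88 v89 h89 v90 h90
    v91 h91 v92 h92 v93 h93 v94 h94 v95 h95 v96 h96 v97 h97 v98 h98 v99 h99 v100 h100 v101 h101
    v102 h102 v103 h103 v104 h104 v105 h105 v106 h106 v107 h107 v108 h108 v109 h109 v110 h110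
    v111 h111 v112 h112 h

theorem pL_val (m : ℝ) :
    OutEq (run (realAlg (fun i => get 0 (l1 μA m) i) (m / m1) 0) pL []) pL_out [(lx m).re, (lx m).im, (lu m).re, (lu m).im] := by
  have h : TrE (realAlg (fun i => get 0 (l1 μA m) i) (m / m1) 0)
    [.base 0, .base 1, .base 2, .base 4, .base 5, .base 6, .base 7, .base 10, .base 11, .base 12,
    .base 13, .base 14, .base 15, .x, .cst 2 0, .mul 14 0, .cst 1 0, .sub 1 0, .mul 15 10,
    .mul 16 10, .sub 1 5, .mul 11 0, .mul 20 2, .mul 13 0, .mul 22 18, .sub 0 18, .cst 1 1,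
    .mul 1 0, .mul 26 21, .add 23 0, .mul 3 0, .mul 22 3, .mul 27 0, .mul 25 2, .mul 31 28,
    .sub 1 0, .mul 31 0, .mul 30 28, .mul 33 0, .mul 33 31, .mul 37 9, .sub 1 0, .mul 37 0,
    .mul 10 4, .mul 7 1, .sub 0 1, .mul 9 7, .mul 14 4, .add 1 0, .mul 37 3, .mul 38 1,
    .mul 39 1, .mul 40 1, .mul 31 1, .mul 30 1, .add 1 0, .mul 4 0, .mul 4 1, .sub 36 1,
    .sub 35 1, .mul 49 47, .mul 1 0, .mul 3 1, .mul 53 45, .mul 54 0, .cst 3 0, .mul 1 0,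
    .mul 52 3, .sub 0 46, .mul 2 0, .mul 46 3, .mul 57 57, .cst 563 30, .mul 1 0, .cst 553 27,
    .sub 0 1, .mul 4 0, .cst 269475 29, .add 1 0, .mul 7 0, .cst 11220205 30, .sub 1 0,
    .mul 10 0, .cst 18983651 30, .add 1 0, .cst 5 27, .mul 14 0, .cst 137 27, .sub 0 1,
    .mul 17 0, .cst 44747 30, .add 1 0, .mul 20 0, .cst 1595395 30, .sub 1 0, .mul 23 0,
    .cst 9855849 30, .add 1 0, .cst 563 28, .mul 27 0, .cst 1659 27, .sub 0 1, .mul 30 0,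
    .cst 269475 28, .add 1 0, .mul 33 0, .sub 0 25, .cst 45 27, .mul 36 0, .cst 959 27, .sub 0 1,
    .mul 39 0, .cst 223735 30, .add 1 0, .mul 42 0, .cst 4786185 30, .sub 1 0, .mul 45 0,
    .add 0 21, .mul 105 21, .mul 118 0, .mul 117 107, .mul 107 15, .mul 1 0, .mul 122 120,
    .mul 6 0, .cst 5937 30, .mul 55 0, .cst (-12001) 28, .sub 0 1, .mul 58 0, .cst 3583853 29,
    .add 1 0, .mul 61 0, .cst 23882929 28, .sub 1 0, .mul 64 0, .cst 177063997 30, .add 1 0,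
    .cst 263 29, .mul 68 0, .cst 12461 30, .sub 0 1, .mul 71 0, .cst 289413 29, .add 1 0,
    .mul 74 0, .cst 18394599 30, .sub 1 0, .mul 77 0, .cst 26612471 28, .add 1 0, .cst 5937 28,
    .mul 81 0, .cst (-36003) 28, .sub 0 1, .mul 84 0, .cst 3583853 28, .add 1 0, .mul 87 0,
    .sub 0 25, .cst 2367 29, .mul 90 0, .cst 87227 30, .sub 0 1, .mul 93 0, .cst 1447065 29,
    .add 1 0, .mul 96 0, .cst 55183797 30, .sub 1 0, .mul 99 0, .add 0 21, .mul 159 21,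
    .mul 172 0, .mul 160 14, .mul 54 0, .mul 52 4, .mul 107 57, .mul 109 94, .add 1 0,
    .mul 168 0, .mul 158 61, .mul 114 98, .add 1 0, .mul 117 100, .add 1 0, .mul 172 0,
    .mul 166 0, .mul 165 1, .mul 126 126, .mul 106 0, .cst 4 0, .mul 1 0, .sub 0 5, .mul 128 74,
    .mul 129 111, .sub 2 0, .sub 2 8, .mul 188 147, .mul 189 147, .sub 139 0, .sub 2 139,
    .mul 28 1, .mul 65 1, .add 1 0, .add 24 0, .mul 205 143, .mul 195 0, .mul 83 0, .mul 86 1,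
    .mul 159 4, .mul 159 5, .add 15 1, .add 15 1, .mul 204 40, .mul 205 77, .sub 3 0, .add 3 2,
    .mul 206 1, .mul 207 1, .add 11 1, .add 11 1, .sub 172 161, .sub 161 174, .mul 50 1,
    .mul 87 1, .add 1 0, .mul 216 169, .mul 217 169, .mul 206 55, .mul 209 92, .sub 1 0,
    .mul 200 200, .mul 197 197, .sub 1 0, .mul 203 199, .add 0 0, .mul 2 2, .mul 1 1, .sub 1 0,
    .mul 5 3, .add 0 0, .mul 2 2, .mul 1 1, .sub 1 0, .mul 5 3, .add 0 0, .mul 236 236, .mul 0 0,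
    .mul 0 0, .mul 5 0, .mul 4 1, .mul 75 44, .mul 77 45, .mul 240 116, .mul 241 81, .add 5 1,
    .add 5 1, .mul 207 26, .mul 207 27, .sub 33 79, .mul 33 0, .mul 33 1, .sub 1 4, .sub 1 4,
    .mul 210 91, .mul 211 128, .sub 3 0, .add 3 2, .mul 257 1, .mul 258 1, .sub 14 1, .add 14 1,
    .sub 20 1, .add 20 1] []
    (pL_valQ m) := trE_runst _ pL
  have hm1 : m1 ≠ 0 := m1_ne
  obtain ⟨v0, h0, h⟩ := h
  change v0 = Real.sqrt 2 at h0
  obtain ⟨v1, h1, h⟩ := h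
  change v1 = s3 at h1
  obtain ⟨v2, h2, h⟩ := h
  change v2 = kp at h2
  obtain ⟨v3, h3, h⟩ := h
  change v3 = 1 / m1 at h3
  obtain ⟨v4, h4, h⟩ := h
  change v4 = oC at h4
  obtain ⟨v5, h5, h⟩ := h
  change v5 = cB at h5
  obtain ⟨v6, h6, h⟩ := h
  change v6 = sB at h6
  obtain ⟨v7, h7, h⟩ := h
  change v7 = Real.cosh m at h7
  obtain ⟨v8, h8, h⟩ := h
  change v8 = Real.sinh m at h8
  obtain ⟨v9, h9, h⟩ := h
  change v9 = 1 / oS m at h9
  obtain ⟨v10, h10, h⟩ := h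
  change v10 = oR m at h10
  obtain ⟨v11, h11, h⟩ := h
  change v11 = 1 / oR m at h11
  obtain ⟨v12, h12, h⟩ := h
  change v12 = 1 / oF m at h12
  obtain ⟨v13, h13, h⟩ := h
  change v13 = m / m1 at h13
  obtain ⟨v14, h14, h⟩ := h
  replace h14 : v14 = (2 : ℝ) := by rw [h14]; norm_num [step, realAlg]
  obtain ⟨v15, h15, h⟩ := h
  change v15 = v0 * v14 at h15
  obtain ⟨v16, h16, h⟩ := h
  replace h16 : v16 = (1 : ℝ) := by rw [h16]; norm_num [step, realAlg]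
  obtain ⟨v17, h17, h⟩ := h
  change v17 = v15 - v16 at h17
  obtain ⟨K, e_K_d⟩ : ∃ q : ℝ, q = oK := ⟨_, rfl⟩
  have e_K_v : v17 = K := by
    rw [e_K_d]
    simp only [oK, h17, h16, h15, h14, h0, mul_re, mul_im, add_re, add_im, sub_re, sub_im, neg_re, neg_im, I_re, I_im, ofReal_re,
      ofReal_im, one_re, one_im, dt, normSq_apply, re_ofNat, im_ofNat]
    try ring
  obtain ⟨v18, h18, h⟩ := h
  change v18 = v2 * v7 at h18
  obtain ⟨v19, h19, h⟩ := h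
  change v19 = v2 * v8 at h19
  obtain ⟨v20, h20, h⟩ := h
  change v20 = v18 - v14 at h20
  obtain ⟨v21, h21, h⟩ := h
  change v21 = v9 * v20 at h21
  obtain ⟨v22, h22, h⟩ := h
  change v22 = v1 * v19 at h22
  obtain ⟨v23, h23, h⟩ := h
  change v23 = v9 * v22 at h23
  obtain ⟨ys, e_ys_d⟩ : ∃ q : ℂ, q = oy m := ⟨_, rfl⟩
  have e_ys_re : v21 = ys.re := by
    rw [e_ys_d]
    simp only [oy_l1, h21, h20, h18, h14, h9, h7, h2, mul_re, mul_im, add_re, add_im, sub_re, sub_im, neg_re, neg_im, I_re, I_im, ofReal_re,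
      ofReal_im, one_re, one_im, dt, normSq_apply, re_ofNat, im_ofNat]
    try ring
  have e_ys_im : v23 = ys.im := by
    rw [e_ys_d]
    simp only [oy_l1, h23, h22, h19, h9, h8, h2, h1, mul_re, mul_im, add_re, add_im, sub_re, sub_im, neg_re, neg_im, I_re, I_im, ofReal_re,
      ofReal_im, one_re, one_im, dt, normSq_apply, re_ofNat, im_ofNat]
    try ring
  obtain ⟨v24, h24, h⟩ := h
  change v24 = v1 * v5 at h24
  obtain ⟨v25, h25, h⟩ := h
  change v25 = v24 - v6 at h25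
  obtain ⟨v26, h26, h⟩ := h
  replace h26 : v26 = (1 : ℝ) / 2 ^ 1 := by rw [h26]; norm_num [step, realAlg]
  obtain ⟨v27, h27, h⟩ := h
  change v27 = v25 * v26 at h27
  obtain ⟨cAv, e_cAv_d⟩ : ∃ q : ℝ, q = cA := ⟨_, rfl⟩
  have e_cAv_v : v27 = cAv := by
    rw [e_cAv_d]
    simp only [cA_eq, h27, h26, h25, h24, h6, h5, h1, mul_re, mul_im, add_re, add_im, sub_re, sub_im, neg_re, neg_im, I_re, I_im, ofReal_re,
      ofReal_im, one_re, one_im, dt, normSq_apply, re_ofNat, im_ofNat]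
    try ring
  obtain ⟨v28, h28, h⟩ := h
  change v28 = v1 * v6 at h28
  obtain ⟨v29, h29, h⟩ := h
  change v29 = v5 + v28 at h29
  obtain ⟨v30, h30, h⟩ := h
  change v30 = v26 * v29 at h30
  obtain ⟨sAv, e_sAv_d⟩ : ∃ q : ℝ, q = sA := ⟨_, rfl⟩
  have e_sAv_v : v30 = sAv := by
    rw [e_sAv_d]
    simp only [sA_eq, h30, h29, h28, h26, h6, h5, h1, mul_re, mul_im, add_re, add_im, sub_re, sub_im, neg_re, neg_im, I_re, I_im, ofReal_re,
      ofReal_im, one_re, one_im, dt, normSq_apply, re_ofNat, im_ofNat]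
    try ring
  obtain ⟨v31, h31, h⟩ := h
  change v31 = v8 * v27 at h31
  obtain ⟨v32, h32, h⟩ := h
  change v32 = v4 * v31 at h32
  obtain ⟨v33, h33, h⟩ := h
  change v33 = v7 * v30 at h33
  obtain ⟨v34, h34, h⟩ := h
  change v34 = v2 * v5 at h34
  obtain ⟨v35, h35, h⟩ := h
  change v35 = v33 - v34 at h35
  obtain ⟨v36, h36, h⟩ := h
  change v36 = v4 * v35 at h36
  obtain ⟨oav, e_oav_d⟩ : ∃ q : ℂ, q = oa m := ⟨_, rfl⟩
  have a_oav : oa m = (⟨oC * (Real.sinh m * cAv), oC * (Real.cosh m * sAv - kp * cB)⟩ : ℂ) := by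
    rw [e_cAv_d, e_sAv_d]; rfl
  have e_oav_re : v32 = oav.re := by
    rw [e_oav_d, a_oav]
    simp only [oa, h32, h31, h8, h4, e_cAv_v, mul_re, mul_im, add_re, add_im, sub_re, sub_im, neg_re, neg_im, I_re, I_im, ofReal_re,
      ofReal_im, one_re, one_im, dt, normSq_apply, re_ofNat, im_ofNat]
    try ring
  have e_oav_im : v36 = oav.im := by
    rw [e_oav_d, a_oav]
    simp only [oa, h36, h35, h34, h33, h7, h5, h4, h2, e_sAv_v, mul_re, mul_im, add_re, add_im, sub_re, sub_im, neg_re, neg_im, I_re, I_im, ofReal_re,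
      ofReal_im, one_re, one_im, dt, normSq_apply, re_ofNat, im_ofNat]
    try ring
  obtain ⟨v37, h37, h⟩ := h
  change v37 = v6 * v8 at h37
  obtain ⟨v38, h38, h⟩ := h
  change v38 = v4 * v37 at h38
  obtain ⟨v39, h39, h⟩ := h
  change v39 = v5 * v7 at h39
  obtain ⟨v40, h40, h⟩ := h
  change v40 = v2 * v30 at h40
  obtain ⟨v41, h41, h⟩ := h
  change v41 = v39 - v40 at h41
  obtain ⟨v42, h42, h⟩ := h
  change v42 = v4 * v41 at h42
  obtain ⟨obv, e_obv_d⟩ : ∃ q : ℂ, q = ob m := ⟨_, rfl⟩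
  have a_obv : ob m = (⟨-(oC * (Real.sinh m * sB)), oC * (Real.cosh m * cB - kp * sAv)⟩ : ℂ) := by
    rw [e_sAv_d]; rfl
  have e_obv_re : v38 = -obv.re := by
    rw [e_obv_d, a_obv]
    simp only [ob, h38, h37, h8, h6, h4, mul_re, mul_im, add_re, add_im, sub_re, sub_im, neg_re, neg_im, I_re, I_im, ofReal_re,
      ofReal_im, one_re, one_im, dt, normSq_apply, re_ofNat, im_ofNat]
    try ring
  have e_obv_im : v42 = obv.im := by
    rw [e_obv_d, a_obv]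
    simp only [ob, h42, h41, h40, h39, h7, h5, h4, h2, e_sAv_v, mul_re, mul_im, add_re, add_im, sub_re, sub_im, neg_re, neg_im, I_re, I_im, ofReal_re,
      ofReal_im, one_re, one_im, dt, normSq_apply, re_ofNat, im_ofNat]
    try ring
  obtain ⟨v43, h43, h⟩ := h
  change v43 = v32 * v38 at h43
  obtain ⟨v44, h44, h⟩ := h
  change v44 = v36 * v42 at h44
  obtain ⟨v45, h45, h⟩ := h
  change v45 = v44 - v43 at h45
  obtain ⟨v46, h46, h⟩ := h
  change v46 = v36 * v38 at h46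
  obtain ⟨v47, h47, h⟩ := h
  change v47 = v32 * v42 at h47
  obtain ⟨v48, h48, h⟩ := h
  change v48 = v46 + v47 at h48
  obtain ⟨v49, h49, h⟩ := h
  change v49 = v11 * v45 at h49
  obtain ⟨v50, h50, h⟩ := h
  change v50 = v11 * v48 at h50
  obtain ⟨vs, e_vs_d⟩ : ∃ q : ℂ, q = ov m := ⟨_, rfl⟩
  have a_vs : ov m = -(obv * (starRingEnd ℂ) oav) * ((1 / oR m : ℝ) : ℂ) := by
    rw [e_obv_d, e_oav_d]; exact ov_l1 m
  have e_vs_re : v49 = -vs.re := by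
    rw [e_vs_d, a_vs]
    simp only [conj_re, conj_im, h49, h45, h44, h43, h11, e_obv_re, e_oav_re, e_obv_im, e_oav_im, mul_re, mul_im, add_re, add_im, sub_re, sub_im, neg_re, neg_im, I_re, I_im, ofReal_re,
      ofReal_im, one_re, one_im, dt, normSq_apply, re_ofNat, im_ofNat]
    try ring
  have e_vs_im : v50 = -vs.im := by
    rw [e_vs_d, a_vs]
    simp only [conj_re, conj_im, h50, h48, h47, h46, h11, e_obv_im, e_oav_re, e_obv_re, e_oav_im, mul_re, mul_im, add_re, add_im, sub_re, sub_im, neg_re, neg_im, I_re, I_im, ofReal_re,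
      ofReal_im, one_re, one_im, dt, normSq_apply, re_ofNat, im_ofNat]
    try ring
  obtain ⟨v51, h51, h⟩ := h
  change v51 = v11 * v49 at h51
  obtain ⟨v52, h52, h⟩ := h
  change v52 = v11 * v50 at h52
  obtain ⟨ns, e_ns_d⟩ : ∃ q : ℂ, q = oN m := ⟨_, rfl⟩
  have a_ns : oN m = vs * ((1 / oR m : ℝ) : ℂ) := by
    rw [e_vs_d]; exact oN_l1 m
  have e_ns_re : v51 = -ns.re := by
    rw [e_ns_d, a_ns]
    simp only [h51, h11, e_vs_re, mul_re, mul_im, add_re, add_im, sub_re, sub_im, neg_re, neg_im, I_re, I_im, ofReal_re,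
      ofReal_im, one_re, one_im, dt, normSq_apply, re_ofNat, im_ofNat]
    try ring
  have e_ns_im : v52 = -ns.im := by
    rw [e_ns_d, a_ns]
    simp only [h52, h11, e_vs_im, mul_re, mul_im, add_re, add_im, sub_re, sub_im, neg_re, neg_im, I_re, I_im, ofReal_re,
      ofReal_im, one_re, one_im, dt, normSq_apply, re_ofNat, im_ofNat]
    try ring
  obtain ⟨v53, h53, h⟩ := h
  change v53 = v21 * v51 at h53
  obtain ⟨v54, h54, h⟩ := h
  change v54 = v23 * v52 at h54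
  obtain ⟨v55, h55, h⟩ := h
  change v55 = v53 + v54 at h55
  obtain ⟨k0, e_k0_d⟩ : ∃ q : ℝ, q = dt (oy m) (oN m) := ⟨_, rfl⟩
  have a_k0 : dt (oy m) (oN m) = dt ys ns := by
    rw [e_ys_d, e_ns_d]
  have e_k0_v : v55 = -k0 := by
    rw [e_k0_d, a_k0]
    simp only [h55, h54, h53, e_ns_im, e_ys_im, e_ns_re, e_ys_re, mul_re, mul_im, add_re, add_im, sub_re, sub_im, neg_re, neg_im, I_re, I_im, ofReal_re,
      ofReal_im, one_re, one_im, dt, normSq_apply, re_ofNat, im_ofNat]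
    try ring
  exact pL_val_s2
    m hm1 v0 v1 h1 v2 v3 h3 v4 v5 v6 v7 v8 v9 h9 v10 h10 v11 h11 v12 h12 v13 h13 v14 h14 v15 v16
    v17 K e_K_d e_K_v v18 v19 v20 v21 v22 v23 ys e_ys_d e_ys_re e_ys_im v24 v25 v26 v27 v28 v29
    v30 v31 v32 v33 v34 v35 v36 oav e_oav_d e_oav_re e_oav_im v37 v38 v39 v40 v41 v42 v43 v44 v45
    v46 v47 v48 v49 v50 vs e_vs_d e_vs_re e_vs_im v51 v52 ns e_ns_d e_ns_re e_ns_im v53 v54 v55
    k0 e_k0_d e_k0_v h

end Pool.H61.Rh
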