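import Pool.Agent.H61.Rz.Fr
import Pool.Agent.H47.Kc.Defs

/-! # Sy: the base symbols of the programs, real forms of the building blocks -/

set_option autoImplicit false

namespace Pool.H61.Rh

open Complex

lemma M_re (P : Pt) (x : ℂ) : (P.M x).re = (P.M 1).re * x.re + (P.M I).re * x.im := by
  simp [Pt.M, dt]; ring

lemma M_im (P : Pt) (x : ℂ) : (P.M x).im = (P.M 1).im * x.re + (P.M I).im * x.im := by
  simp [Pt.M, dt]; ring

lemma fv_re (P : Pt) (x : ℂ) : (P.fv x).re = (P.fv 1).re * x.re + (P.fv 1).im * x.im := by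
  rw [Pt.fv, Pt.fv, div_ofReal_re, div_ofReal_re, div_ofReal_im]
  simp [dt]; ring

lemma fv_im (P : Pt) (x : ℂ) : (P.fv x).im = (P.fv 1).im * x.re + (P.fv I).im * x.im := by
  rw [Pt.fv, Pt.fv, Pt.fv, div_ofReal_im, div_ofReal_im, div_ofReal_im]
  simp [dt]; ring

lemma fv_sym (P : Pt) : (P.fv I).re = (P.fv 1).im := by
  rw [Pt.fv, Pt.fv, div_ofReal_re, div_ofReal_im]
  simp [dt]; ring

lemma L_re (P : Pt) (x : ℂ) : (P.L x).re = (P.L 1).re * x.re + (P.L I).re * x.im := by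
  simp only [Pt.L, Pt.ZT, add_re, sub_re, sub_im, ofReal_re, ofReal_im, M_re P x, fv_re P x,
    fv_sym P, I_re, I_im, mul_re, mul_im, neg_re, neg_im, dt, one_re, one_im]
  ring

lemma L_im (P : Pt) (x : ℂ) : (P.L x).im = (P.L 1).im * x.re + (P.L I).im * x.im := by
  simp only [Pt.L, Pt.ZT, add_im, sub_im, sub_re, ofReal_re, ofReal_im, M_im P x, fv_im P x,
    fv_sym P, I_re, I_im, mul_re, mul_im, neg_re, neg_im, dt, one_re, one_im]
  ring

lemma DV_re (P : Pt) (x : ℂ) : (P.DV x).re = (P.DV 1).re * x.re + (P.DV I).re * x.im := by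
  simp only [Pt.DV, add_re, add_im, mul_re, mul_im, sub_re, sub_im, ofReal_re, ofReal_im, I_re,
    I_im, dt, one_re, one_im]
  ring

lemma DV_im (P : Pt) (x : ℂ) : (P.DV x).im = (P.DV 1).im * x.re + (P.DV I).im * x.im := by
  simp only [Pt.DV, add_re, add_im, mul_re, mul_im, sub_re, sub_im, ofReal_re, ofReal_im, I_re,
    I_im, dt, one_re, one_im]
  ring

/-! ### coefficients of `V` in real form -/

def VC.a20 (c : VC) : ℝ := c.xx.im + c.xb.im
def VC.a02 (c : VC) : ℝ := -c.xx.im + c.xb.im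
def VC.a11 (c : VC) : ℝ := 2 * c.xx.re
def VC.a30 (c : VC) : ℝ := c.x3.im + c.x2b.im
def VC.a12 (c : VC) : ℝ := -3 * c.x3.im + c.x2b.im
def VC.a21 (c : VC) : ℝ := 3 * c.x3.re + c.x2b.re
def VC.a03 (c : VC) : ℝ := -c.x3.re + c.x2b.re
def VC.b11 (c : VC) : ℝ := c.xu.im + c.xc.im
def VC.b12 (c : VC) : ℝ := c.xu.re + c.xc.re
def VC.b21 (c : VC) : ℝ := c.xu.re - c.xc.re
def VC.b22 (c : VC) : ℝ := -c.xu.im + c.xc.im
def VC.q1 (c : VC) : ℝ := c.x2u.im + c.x2c.im + c.xbu.im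
def VC.q2 (c : VC) : ℝ := 2 * (c.x2u.re + c.x2c.re)
def VC.q3 (c : VC) : ℝ := -c.x2u.im - c.x2c.im + c.xbu.im
def VC.q4 (c : VC) : ℝ := c.x2u.re - c.x2c.re + c.xbu.re
def VC.q5 (c : VC) : ℝ := 2 * (-c.x2u.im + c.x2c.im)
def VC.q6 (c : VC) : ℝ := -c.x2u.re + c.x2c.re + c.xbu.re

lemma VAr_eq (c : VC) (r : ℝ) (X : ℂ) : VAr c r X
    = c.a20 * (X.re * X.re) + c.a11 * (X.re * X.im) + c.a02 * (X.im * X.im)
      + ((c.a30 * X.re + c.a21 * X.im) * (X.re * X.re)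
        + (c.a12 * X.re + c.a03 * X.im) * (X.im * X.im)) * r := by
  simp only [VAr, VC.a20, VC.a02, VC.a11, VC.a30, VC.a12, VC.a21, VC.a03, normSq_apply, pow_succ,
    pow_zero, one_mul, add_re, add_im, mul_re, mul_im, ofReal_re, ofReal_im]
  ring

lemma VAxr_re (c : VC) (r : ℝ) (X : ℂ) : (VAxr c r X).re
    = 2 * c.a20 * X.re + c.a11 * X.im + (3 * c.a30 * (X.re * X.re) + 2 * c.a21 * (X.re * X.im)
      + c.a12 * (X.im * X.im)) * r := by
  simp only [VAxr, VC.a20, VC.a02, VC.a11, VC.a30, VC.a12, VC.a21, VC.a03, normSq_apply, pow_succ,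
    pow_zero, one_mul, add_re, add_im, sub_re, sub_im, mul_re, mul_im, ofReal_re, ofReal_im, I_re,
    I_im, conj_re, conj_im, re_ofNat, im_ofNat]
  ring

lemma VAxr_im (c : VC) (r : ℝ) (X : ℂ) : (VAxr c r X).im
    = c.a11 * X.re + 2 * c.a02 * X.im + (c.a21 * (X.re * X.re) + 2 * c.a12 * (X.re * X.im)
      + 3 * c.a03 * (X.im * X.im)) * r := by
  simp only [VAxr, VC.a20, VC.a02, VC.a11, VC.a30, VC.a12, VC.a21, VC.a03, normSq_apply, pow_succ,
    pow_zero, one_mul, add_re, add_im, sub_re, sub_im, mul_re, mul_im, ofReal_re, ofReal_im, I_re,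
    I_im, conj_re, conj_im, re_ofNat, im_ofNat]
  ring

lemma VBr_re (c : VC) (r : ℝ) (X : ℂ) : (VBr c r X).re
    = c.b11 * X.re + c.b12 * X.im + (c.q1 * (X.re * X.re) + c.q2 * (X.re * X.im)
      + c.q3 * (X.im * X.im)) * r := by
  simp only [VBr, VC.b11, VC.b12, VC.q1, VC.q2, VC.q3, normSq_apply, pow_succ,
    pow_zero, one_mul, add_re, add_im, sub_re, sub_im, mul_re, mul_im, ofReal_re, ofReal_im, I_re,
    I_im, conj_re, conj_im]
  ring

lemma VBr_im (c : VC) (r : ℝ) (X : ℂ) : (VBr c r X).im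
    = c.b21 * X.re + c.b22 * X.im + (c.q4 * (X.re * X.re) + c.q5 * (X.re * X.im)
      + c.q6 * (X.im * X.im)) * r := by
  simp only [VBr, VC.b21, VC.b22, VC.q4, VC.q5, VC.q6, normSq_apply, pow_succ,
    pow_zero, one_mul, add_re, add_im, sub_re, sub_im, mul_re, mul_im, ofReal_re, ofReal_im, I_re,
    I_im, conj_re, conj_im]
  ring

lemma VBd_re (c : VC) (r : ℝ) (X h : ℂ) : (VBd c (X * (r : ℂ)) h).re
    = c.b11 * h.re + c.b12 * h.im + (c.q1 * (X.re * h.re * 2) + c.q2 * (X.re * h.im + X.im * h.re)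
      + c.q3 * (X.im * h.im * 2)) * r := by
  simp only [VBd, VC.b11, VC.b12, VC.q1, VC.q2, VC.q3, dt,
    add_re, add_im, sub_re, sub_im, mul_re, mul_im, ofReal_re, ofReal_im, I_re,
    I_im, conj_re, conj_im, re_ofNat, im_ofNat]
  ring

lemma VBd_im (c : VC) (r : ℝ) (X h : ℂ) : (VBd c (X * (r : ℂ)) h).im
    = c.b21 * h.re + c.b22 * h.im + (c.q4 * (X.re * h.re * 2) + c.q5 * (X.re * h.im + X.im * h.re)
      + c.q6 * (X.im * h.im * 2)) * r := by
  simp only [VBd, VC.b21, VC.b22, VC.q4, VC.q5, VC.q6, dt,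
    add_re, add_im, sub_re, sub_im, mul_re, mul_im, ofReal_re, ofReal_im, I_re,
    I_im, conj_re, conj_im, re_ofNat, im_ofNat]
  ring

end Pool.H61.Rh
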