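import Pool.Agent.H61.Rz.Tq

/-! # Te0: lemmas for the enclosures of the level-1 symbols -/

set_option autoImplicit false

namespace Pool.H61.Rh

open Complex Pool.H47.Kc

/-- `b` contains `a` -/
def Tm.le (a b : Tm) : Bool := Nat.ble (a.sub ⟨b.c, 0⟩).bd b.e

theorem Tm.le_sound {a b : Tm} {t v : ℝ} (ht : |t| ≤ 1) (ha : a.In t v)
    (h : Tm.le a b = true) : b.In t v := by
  have h0 : (⟨b.c, 0⟩ : Tm).In t (pv b.c t / 2 ^ 60) := by
    show |pv b.c t / 2 ^ 60 * 2 ^ 60 - pv b.c t| ≤ ((0 : ℕ) : ℝ)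
    have h : pv b.c t / 2 ^ 60 * 2 ^ 60 - pv b.c t = 0 := by
      field_simp
      ring
    rw [h]
    simp
  have h1 := Tm.bd_sound ht (Tm.sub_sound ha h0)
  have h2 : ((a.sub ⟨b.c, 0⟩).bd : ℝ) ≤ (b.e : ℝ) := by
    exact_mod_cast Nat.le_of_ble_eq_true h
  show |v * 2 ^ 60 - pv b.c t| ≤ (b.e : ℝ)
  have h3 : (v - pv b.c t / 2 ^ 60) * 2 ^ 60 = v * 2 ^ 60 - pv b.c t := by field_simp
  rw [h3] at h1
  exact h1.trans h2

theorem Tm.conv {a : Tm} {t v w : ℝ} (h : a.In t v) (e : v = w) : a.In t w := e ▸ h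

theorem m1_60 : |m1 * 2 ^ 60 - 199786072581291495| ≤ 4 := by
  have t : |(2⁻¹ : ℝ)| = 2⁻¹ := by rw [abs_of_pos]; norm_num
  have z := Real.abs_log_sub_add_sum_range_le (show |(2⁻¹ : ℝ)| < 1 by rw [t]; norm_num) 64
  rw [t] at z
  have hl : Real.log (1 - 2⁻¹) = -Real.log 2 := by
    rw [show (1 : ℝ) - 2⁻¹ = 2⁻¹ by norm_num, Real.log_inv]
  rw [hl] at z
  have hs : |(∑ i ∈ Finset.range 64, (2⁻¹ : ℝ) ^ (i + 1) / (i + 1)) -
      199786072581291495 / 2 ^ 58| ≤ 1 / 2 ^ 58 := by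
    simp only [Finset.sum_range_succ, Finset.sum_range_zero]
    norm_num [abs_le]
  have hz : (2⁻¹ : ℝ) ^ (64 + 1) / (1 - 2⁻¹) ≤ 1 / 2 ^ 58 := by norm_num
  have z2 := z.trans hz
  set S : ℝ := ∑ i ∈ Finset.range 64, (2⁻¹ : ℝ) ^ (i + 1) / (i + 1) with hS
  rw [abs_le] at z2 hs ⊢
  rw [m1]
  constructor
  · have := z2.1
    have := hs.1
    norm_num at *
    linarith
  · have := z2.2
    have := hs.2
    norm_num at *
    linarith

/-- the parameter -/
noncomputable def te_m (t : ℝ) : ℝ := m1 * ((1 + t) / 2)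

def uX : Tm := ⟨[576460752303423488, 576460752303423488], 0⟩

theorem te_x (t : ℝ) : uX.In t ((1 + t) / 2) := by
  show |(1 + t) / 2 * 2 ^ 60 - (((576460752303423488 : ℤ) : ℝ) +
    t * (((576460752303423488 : ℤ) : ℝ) + t * 0))| ≤ ((0 : ℕ) : ℝ)
  have h : (1 + t) / 2 * 2 ^ 60 - (((576460752303423488 : ℤ) : ℝ) +
      t * (((576460752303423488 : ℤ) : ℝ) + t * 0)) = 0 := by
    push_cast
    ring
  rw [h]
  simp

theorem te_m0 {t : ℝ} (ht : |t| ≤ 1) : 0 ≤ te_m t := by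
  have h1 := (abs_le.1 ht).1
  have h2 := m1_bounds.1
  exact mul_nonneg (by linarith) (by linarith)

theorem te_m1 {t : ℝ} (ht : |t| ≤ 1) : te_m t ≤ 1733 / 10000 := by
  have h1 := (abs_le.1 ht).2
  have h0 := (abs_le.1 ht).1
  have h3 := (abs_le.1 m1_60).2
  have h4 := (abs_le.1 m1_60).1
  have h5 : m1 ≤ 1733 / 10000 := by
    norm_num at h3
    linarith
  have h6 : 0 ≤ m1 := by
    norm_num at h4
    linarith
  rw [te_m]
  nlinarith

theorem te_m_one : te_m 1 = m1 := by rw [te_m]; ring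

theorem te_r2 : Real.sqrt 2 * Real.sqrt 2 = 2 := Real.mul_self_sqrt (by norm_num)

theorem te_s3 : s3 * s3 = 3 := Real.mul_self_sqrt (by norm_num)

theorem te_s3_pos : 0 < s3 := Real.sqrt_pos.mpr (by norm_num)

theorem te_oC0 : 0 ≤ Real.sqrt 2 * s3 * (1 / oK) * (2 / 3) := by
  have := oK_pos
  have := te_s3_pos
  positivity

theorem te_oC : Real.sqrt (Real.sqrt 2 * s3 * (1 / oK) * (2 / 3)) = oC := by
  rw [oC]
  congr 1
  have h6 : Real.sqrt 6 = Real.sqrt 2 * s3 := by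
    rw [s3, ← Real.sqrt_mul (by norm_num)]
    norm_num
  have hK := oK_pos.ne'
  rw [h6, show 2 * Real.sqrt 2 - 1 = oK from rfl]
  field_simp

private theorem te_cc : cB ^ 2 = 1 / 2 + Real.sqrt 2 * (s3 + 1) / 8 ∧
    cB * sB = Real.sqrt 2 * (s3 - 1) / 8 := by
  have a1 : sA * cB + cA * sB = Real.sqrt 2 / 2 := by
    have h := Real.sin_add (5 * Real.pi / 24) (Real.pi / 24)
    rw [show 5 * Real.pi / 24 + Real.pi / 24 = Real.pi / 4 by ring, Real.sin_pi_div_four] at h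
    exact h.symm
  have a2 : sA * cB - cA * sB = 1 / 2 := by
    have h := Real.sin_sub (5 * Real.pi / 24) (Real.pi / 24)
    rw [show 5 * Real.pi / 24 - Real.pi / 24 = Real.pi / 6 by ring, Real.sin_pi_div_six] at h
    exact h.symm
  have a3 : cA * cB - sA * sB = Real.sqrt 2 / 2 := by
    have h := Real.cos_add (5 * Real.pi / 24) (Real.pi / 24)
    rw [show 5 * Real.pi / 24 + Real.pi / 24 = Real.pi / 4 by ring, Real.cos_pi_div_four] at h
    exact h.symm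
  have a4 : cA * cB + sA * sB = s3 / 2 := by
    have h := Real.cos_sub (5 * Real.pi / 24) (Real.pi / 24)
    rw [show 5 * Real.pi / 24 - Real.pi / 24 = Real.pi / 6 by ring, Real.cos_pi_div_six] at h
    exact h.symm
  have h1 : sA * cB = (Real.sqrt 2 + 1) / 4 := by linarith
  have h1' : cA * sB = (Real.sqrt 2 - 1) / 4 := by linarith
  have h2 : cA * cB = (Real.sqrt 2 + s3) / 4 := by linarith
  have h2' : sA * sB = (s3 - Real.sqrt 2) / 4 := by linarith
  have h3 : sA ^ 2 + cA ^ 2 = 1 := Real.sin_sq_add_cos_sq _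
  have h4 := te_r2
  have h5 := te_s3
  constructor
  · have e : cB ^ 2 = (sA * cB) ^ 2 + (cA * cB) ^ 2 := by
      linear_combination (-cB ^ 2) * h3
    rw [e, h1, h2]
    linear_combination (1 / 8) * h4 + (1 / 16) * h5
  · have e : cB * sB = (sA * cB) * (sA * sB) + (cA * cB) * (cA * sB) := by
      linear_combination (-(cB * sB)) * h3
    rw [e, h1, h2, h1', h2']
    ring

theorem te_cB2 : cB ^ 2 = 1 / 2 + Real.sqrt 2 * (s3 + 1) / 8 := te_cc.1

theorem te_sB : Real.sqrt 2 * (s3 - 1) * (1 / 8) * (1 / cB) = sB := by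
  have h1 := te_cc.1
  have h2 := te_cc.2
  have h3 : cB ≠ 0 := by
    intro h
    have := te_s3_pos
    have : 0 < 1 / 2 + Real.sqrt 2 * (s3 + 1) / 8 := by positivity
    rw [← h1, h] at this
    norm_num at this
  rw [show Real.sqrt 2 * (s3 - 1) * (1 / 8) = cB * sB by rw [h2]; ring]
  field_simp

theorem te_cBe : cB ^ 2 = (1 + (Real.sqrt 2 * s3 + Real.sqrt 2) * (1 / 4)) * (1 / 2) := by
  rw [te_cB2]
  ring

theorem te_cB0 : 0 ≤ (1 + (Real.sqrt 2 * s3 + Real.sqrt 2) * (1 / 4)) * (1 / 2) := by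
  rw [← te_cBe]
  positivity

theorem te_cB : Real.sqrt ((1 + (Real.sqrt 2 * s3 + Real.sqrt 2) * (1 / 4)) * (1 / 2)) = cB := by
  rw [← te_cBe]
  refine Real.sqrt_sq ?_
  refine Real.cos_nonneg_of_mem_Icc ⟨?_, ?_⟩
  · have := Real.pi_pos
    linarith
  · have := Real.pi_pos
    linarith

theorem te_nn (z : ℂ) : 0 ≤ 1 + Complex.normSq z := by
  have := Complex.normSq_nonneg z
  linarith

theorem te_oR (m : ℝ) : oR m = Real.sqrt (1 + Complex.normSq (ob m)) := by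
  have h1 := oR_eq m
  have h2 := oa_normSq m
  rw [show 1 + Complex.normSq (ob m) = Complex.normSq (oa m) by linarith, h1]
  rfl

theorem te_vr (m : ℝ) : 0 - ((ob m).im * (oa m).im - -(ob m).re * (oa m).re) * (1 / oR m)
    = (ov m).re := by
  rw [ov_l1]
  simp only [mul_re, neg_re, neg_im, mul_im, conj_re, conj_im, ofReal_re, ofReal_im]
  ring

theorem te_vi (m : ℝ) : 0 - ((ob m).im * (oa m).re + -(ob m).re * (oa m).im) * (1 / oR m)
    = (ov m).im := by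
  rw [ov_l1]
  simp only [mul_re, neg_re, neg_im, mul_im, conj_re, conj_im, ofReal_re, ofReal_im]
  ring

theorem te_nr (m : ℝ) : (ov m).re * (1 / oR m) = (oN m).re := by
  rw [oN_l1]
  simp only [mul_re, ofReal_re, ofReal_im]
  ring

theorem te_ni (m : ℝ) : (ov m).im * (1 / oR m) = (oN m).im := by
  rw [oN_l1]
  simp only [mul_im, ofReal_re, ofReal_im]
  ring

theorem te_qi (m : ℝ) : ((tk m).im + (pk m).im * (oc * (3 * (4 - Real.sqrt 2) / 4)))
    * (oS m * s3 * (1 / 27) * (1 / oK) ^ 2) = (qy m).im := by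
  rw [qy_l1]
  simp only [mul_im, add_im, add_re, mul_re, ofReal_re, ofReal_im]
  ring

private theorem te_exp {x : ℝ} (hx : |x| ≤ 1733 / 10000) :
    |Real.exp x - (1 + x + x ^ 2 / 2 + x ^ 3 / 6 + x ^ 4 / 24 + x ^ 5 / 120 + x ^ 6 / 720
      + x ^ 7 / 5040 + x ^ 8 / 40320 + x ^ 9 / 362880 + x ^ 10 / 3628800 + x ^ 11 / 39916800)|
      ≤ 4 / 2 ^ 60 := by
  have h1 : |x| ≤ 1 := hx.trans (by norm_num)
  have h := Real.exp_bound h1 (n := 12) (by norm_num)
  have e : (∑ m ∈ Finset.range 12, x ^ m / (m.factorial : ℝ)) =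
      (1 + x + x ^ 2 / 2 + x ^ 3 / 6 + x ^ 4 / 24 + x ^ 5 / 120 + x ^ 6 / 720
      + x ^ 7 / 5040 + x ^ 8 / 40320 + x ^ 9 / 362880 + x ^ 10 / 3628800 + x ^ 11 / 39916800) := by
    simp only [Finset.sum_range_succ, Finset.sum_range_zero]
    norm_num [Nat.factorial]
  rw [e] at h
  refine h.trans ?_
  have h2 : |x| ^ 12 ≤ (1733 / 10000) ^ 12 := pow_le_pow_left₀ (abs_nonneg _) hx 12
  calc |x| ^ 12 * ((Nat.succ 12 : ℕ) / ((Nat.factorial 12 : ℕ) * (12 : ℕ)) : ℝ)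
      ≤ (1733 / 10000) ^ 12 * ((Nat.succ 12 : ℕ) / ((Nat.factorial 12 : ℕ) * (12 : ℕ)) : ℝ) :=
        mul_le_mul_of_nonneg_right h2 (by positivity)
    _ ≤ 4 / 2 ^ 60 := by norm_num [Nat.factorial]

theorem te_cosh {m : ℝ} (h0 : 0 ≤ m) (h1 : m ≤ 1733 / 10000) :
    |Real.cosh m - (1 + m * m * (1 + m * m * (1 + m * m * (1 + m * m * (1 + m * m * 1 * (1 / 90))
      * (1 / 56)) * (1 / 30)) * (1 / 12)) * (1 / 2))| * 2 ^ 60 ≤ ((4 : ℕ) : ℝ) := by
  have ha : |m| ≤ 1733 / 10000 := by rw [abs_of_nonneg h0]; exact h1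
  have hb : |-m| ≤ 1733 / 10000 := by rw [abs_neg]; exact ha
  have e1 := te_exp ha
  have e2 := te_exp hb
  rw [Real.cosh_eq]
  rw [abs_le] at e1 e2
  have h3 : |(Real.exp m + Real.exp (-m)) / 2 - (1 + m * m * (1 + m * m * (1 + m * m * (1 + m * m * (1 + m * m * 1 * (1 / 90))
      * (1 / 56)) * (1 / 30)) * (1 / 12)) * (1 / 2))| ≤ 4 / 2 ^ 60 := by
    rw [abs_le]
    constructor
    · have := e1.1
      have := e2.1
      nlinarith
    · have := e1.2
      have := e2.2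
      nlinarith
  rw [le_div_iff₀ (by positivity)] at h3
  push_cast
  exact h3

theorem te_sinh {m : ℝ} (h0 : 0 ≤ m) (h1 : m ≤ 1733 / 10000) :
    |Real.sinh m - (m * (1 + m * m * (1 + m * m * (1 + m * m * (1 + m * m * (1 + m * m * 1 * (1 / 110))
      * (1 / 72)) * (1 / 42)) * (1 / 20)) * (1 / 6)))| * 2 ^ 60 ≤ ((4 : ℕ) : ℝ) := by
  have ha : |m| ≤ 1733 / 10000 := by rw [abs_of_nonneg h0]; exact h1
  have hb : |-m| ≤ 1733 / 10000 := by rw [abs_neg]; exact ha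
  have e1 := te_exp ha
  have e2 := te_exp hb
  rw [Real.sinh_eq]
  rw [abs_le] at e1 e2
  have h3 : |(Real.exp m - Real.exp (-m)) / 2 - (m * (1 + m * m * (1 + m * m * (1 + m * m * (1 + m * m * (1 + m * m * 1 * (1 / 110))
      * (1 / 72)) * (1 / 42)) * (1 / 20)) * (1 / 6)))| ≤ 4 / 2 ^ 60 := by
    rw [abs_le]
    constructor
    · have := e1.1
      have := e2.2
      nlinarith
    · have := e1.2
      have := e2.1
      nlinarith
  rw [le_div_iff₀ (by positivity)] at h3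
  push_cast
  exact h3

end Pool.H61.Rh
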