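import Pool.Agent.H47.Kc.Rel

/-! # Tm: Taylor models in one variable `t ∈ [-1, 1]`

A real number `v` (function of `t`) is enclosed by `⟨c, e⟩` if `|2^60 v - Σ c_k t^k| ≤ e`.
Programs (`List Op` of `Kc`) are evaluated on Taylor models; only 13 coefficients are kept, the
coefficients are rounded (floor) to integers.

PLAN OF PROOFS.
* `pv_le`: `|pv l t| ≤ nrm l` for `|t| ≤ 1`: induction.
* `pv_addL`, `pv_subL`, `pv_scL`, `pv_mulL`: induction (exact identities).
* rounding: `pv_rd`: `|pv l t / 2^60 - pv (rdL n l) t| ≤ n + nrm (dropL n l) / 2^60` by induction on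
  `n` (generalizing `l`): `a / 2^60 - floor ∈ [0, 1)` (`Int.emod_add_ediv`/`Int.ediv_mul_le`,
  `Int.lt_ediv_add_one_mul_self`), and for `n = 0` use `pv_le`.
* `mul_sound`: with `A = pv a.c t`, `B = pv b.c t`, `p = 2^60 v - A`, `q = 2^60 w - B`:
  `2^60 v w = (A B + A q + p B + p q) / 2^60`; the natural number division only loses less than `1`
  (`Nat.lt_div_mul_add` or `Nat.div_add_mod`), so `13 + 1 + N / 2^60` suffices.
* `res_sound`, `run_sound`: `res_rel` of `Kc.Rel` for `res_sound`; for `run_sound` (the whole stack)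
  make the same induction on the program: relation `get a.dflt st i ~ get b.dflt st' i` for all `i`.
* `inv_sound`: `P = pv p t / 2^60`, `|v P - 1| ≤ δ / 2^60 ≤ 1/2`, hence `v ≠ 0`, `1 ≤ 2 |v| |P|`,
  `|1/v - P| = |1 - v P| / |v| ≤ (δ / 2^60) * 2 |P|`, `|P| ≤ nrm p / 2^60`.
* `sqrt_sound`: `P ≥ 1/2`, `|√v - P| = |v - P^2| / (√v + P) ≤ 2 |v - P^2|`.
* `chk_sound`: `horner_rel` of `Kc.Rel` (or direct induction) gives the Taylor model of
  `pval s.p ((1 + t) / 2)`. -/

set_option autoImplicit false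

namespace Pool.H61.Rh

open Pool.H47.Kc

/-- value of an integer polynomial -/
noncomputable def pv : List Int → ℝ → ℝ
  | [], _ => 0
  | a :: l, t => (a : ℝ) + t * pv l t

/-- Taylor model -/
structure Tm where
  c : List Int
  e : Nat

/-- `|2^60 v - p(t)| ≤ e` -/
def Tm.In (a : Tm) (t v : ℝ) : Prop := |v * 2 ^ 60 - pv a.c t| ≤ (a.e : ℝ)

def addL : List Int → List Int → List Int
  | [], q => q
  | a :: l, [] => a :: l
  | a :: l, b :: q => (a + b) :: addL l q

def negL : List Int → List Int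
  | [] => []
  | a :: l => (-a) :: negL l

def subL : List Int → List Int → List Int
  | [], q => negL q
  | a :: l, [] => a :: l
  | a :: l, b :: q => (a - b) :: subL l q

def scL (k : Int) : List Int → List Int
  | [] => []
  | a :: l => (k * a) :: scL k l

def mulL : List Int → List Int → List Int
  | [], _ => []
  | a :: l, q => addL (scL a q) (0 :: mulL l q)

/-- sum of the absolute values -/
def nrm : List Int → Nat
  | [] => 0
  | a :: l => Nat.add a.natAbs (nrm l)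

/-- division by `2^60` of the first `n` coefficients -/
def rdL : Nat → List Int → List Int
  | 0, _ => []
  | _ + 1, [] => []
  | n + 1, a :: l => (a / 1152921504606846976) :: rdL n l

def dropL : Nat → List Int → List Int
  | 0, l => l
  | _ + 1, [] => []
  | n + 1, _ :: l => dropL n l

def Tm.add (a b : Tm) : Tm := ⟨addL a.c b.c, Nat.add a.e b.e⟩

def Tm.sub (a b : Tm) : Tm := ⟨subL a.c b.c, Nat.add a.e b.e⟩

def Tm.mul (a b : Tm) : Tm :=
  ⟨rdL 13 (mulL a.c b.c),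
    Nat.add 14 (Nat.div (Nat.add (nrm (dropL 13 (mulL a.c b.c)))
      (Nat.add (Nat.mul (nrm a.c) b.e) (Nat.mul a.e (Nat.add (nrm b.c) b.e))))
        1152921504606846976)⟩

/-- `z / 2^e` -/
def Tm.cst (z : Int) (e : Nat) : Tm := ⟨[(z * 1152921504606846976) / ((2 : Int) ^ e)], 1⟩

/-- `z / n` -/
def Tm.rat (z : Int) (n : Nat) : Tm := ⟨[(z * 1152921504606846976) / (n : Int)], 1⟩

/-- the interpretation; `x` is `(1 + t) / 2` -/
def tmAlg (q : List Tm) : Alg Tm where
  cst := Tm.cst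
  base i := get ⟨[], 0⟩ q i
  x := ⟨[576460752303423488, 576460752303423488], 0⟩
  y := ⟨[], 0⟩
  add := Tm.add
  sub := Tm.sub
  mul := Tm.mul
  dflt := ⟨[], 0⟩

/-- base symbols enclosed -/
def TmIn (q : List Tm) (t : ℝ) (β : ℕ → ℝ) : Prop := ∀ i, (get ⟨[], 0⟩ q i).In t (β i)

/-- bound of `|v|` times `2^60` -/
def Tm.bd (a : Tm) : Nat := Nat.add (nrm a.c) a.e

/-- defect of the candidate `p` for the inverse -/
def Tm.invd (a : Tm) (p : List Int) : Nat := ((a.mul ⟨p, 0⟩).sub (Tm.cst 1 0)).bd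

def Tm.inv (a : Tm) (p : List Int) : Tm :=
  ⟨p, Nat.add 1 (Nat.div (Nat.mul (Nat.mul 2 (a.invd p)) (nrm p)) 1152921504606846976)⟩

def Tm.sqrt (a : Tm) (p : List Int) : Tm :=
  ⟨p, Nat.mul 2 (a.sub (Tm.mul ⟨p, 0⟩ ⟨p, 0⟩)).bd⟩

/-- `p ≥ 1/2` on `[-1, 1]` -/
def posL : List Int → Bool
  | [] => false
  | a :: l => Nat.ble (Nat.add 576460752303423488 (nrm l)) a.toNat

/-- comparison with a base symbol of `Kc` (polynomial in `(1 + t) / 2`) -/
def chk (a : Tm) (s : Sym) : Bool :=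
  Nat.ble (a.sub (horner (tmAlg []) (tmAlg []).x s.p)).bd s.eps

private theorem Tm_natAbs (a : Int) : ((a.natAbs : ℕ) : ℝ) = |(a : ℝ)| := by
  rw [Nat.cast_natAbs]
  push_cast
  rfl

private theorem Tm_nrm_cons (a : Int) (l : List Int) :
    ((nrm (a :: l) : ℕ) : ℝ) = |(a : ℝ)| + (nrm l : ℝ) := by
  have h : nrm (a :: l) = a.natAbs + nrm l := rfl
  rw [h]
  push_cast
  rw [← Tm_natAbs]

theorem pv_le (l : List Int) {t : ℝ} (ht : |t| ≤ 1) : |pv l t| ≤ (nrm l : ℝ) := by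
  induction l with
  | nil => simp [pv, nrm]
  | cons a l ih =>
    rw [Tm_nrm_cons]
    show |(a : ℝ) + t * pv l t| ≤ _
    have h1 : |t * pv l t| ≤ (nrm l : ℝ) := by
      rw [abs_mul]
      calc |t| * |pv l t| ≤ 1 * |pv l t| := mul_le_mul_of_nonneg_right ht (abs_nonneg _)
        _ = |pv l t| := one_mul _
        _ ≤ _ := ih
    exact (abs_add_le _ _).trans (add_le_add le_rfl h1)

private theorem Tm_pv_addL (p : List Int) (t : ℝ) : ∀ q : List Int,
    pv (addL p q) t = pv p t + pv q t := by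
  induction p with
  | nil =>
    intro q
    show pv q t = 0 + pv q t
    ring
  | cons a l ih =>
    intro q
    cases q with
    | nil =>
      show pv (a :: l) t = pv (a :: l) t + 0
      ring
    | cons b q =>
      show ((a + b : ℤ) : ℝ) + t * pv (addL l q) t =
        ((a : ℝ) + t * pv l t) + ((b : ℝ) + t * pv q t)
      rw [ih]
      push_cast
      ring

private theorem Tm_pv_negL (p : List Int) (t : ℝ) : pv (negL p) t = -pv p t := by
  induction p with
  | nil =>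
    show (0 : ℝ) = -0
    ring
  | cons a l ih =>
    show ((-a : ℤ) : ℝ) + t * pv (negL l) t = -((a : ℝ) + t * pv l t)
    rw [ih]
    push_cast
    ring

private theorem Tm_pv_subL (p : List Int) (t : ℝ) : ∀ q : List Int,
    pv (subL p q) t = pv p t - pv q t := by
  induction p with
  | nil =>
    intro q
    show pv (negL q) t = 0 - pv q t
    rw [Tm_pv_negL]
    ring
  | cons a l ih =>
    intro q
    cases q with
    | nil =>
      show pv (a :: l) t = pv (a :: l) t - 0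
      ring
    | cons b q =>
      show ((a - b : ℤ) : ℝ) + t * pv (subL l q) t =
        ((a : ℝ) + t * pv l t) - ((b : ℝ) + t * pv q t)
      rw [ih]
      push_cast
      ring

private theorem Tm_pv_scL (k : Int) (p : List Int) (t : ℝ) : pv (scL k p) t = k * pv p t := by
  induction p with
  | nil =>
    show (0 : ℝ) = (k : ℝ) * 0
    ring
  | cons a l ih =>
    show ((k * a : ℤ) : ℝ) + t * pv (scL k l) t = (k : ℝ) * ((a : ℝ) + t * pv l t)
    rw [ih]
    push_cast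
    ring

private theorem Tm_pv_mulL (p : List Int) (t : ℝ) (q : List Int) :
    pv (mulL p q) t = pv p t * pv q t := by
  induction p with
  | nil =>
    show (0 : ℝ) = 0 * pv q t
    ring
  | cons a l ih =>
    show pv (addL (scL a q) (0 :: mulL l q)) t = ((a : ℝ) + t * pv l t) * pv q t
    rw [Tm_pv_addL, Tm_pv_scL]
    show (a : ℝ) * pv q t + (((0 : ℤ) : ℝ) + t * pv (mulL l q) t) = _
    rw [ih]
    push_cast
    ring

private theorem Tm_floor (z : ℤ) {m : ℤ} (hm : 0 < m) :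
    |(z : ℝ) / (m : ℝ) - ((z / m : ℤ) : ℝ)| ≤ 1 := by
  have hm' : (0 : ℝ) < (m : ℝ) := by exact_mod_cast hm
  have h1 : z / m * m ≤ z := Int.ediv_mul_le z hm.ne'
  have h2 : z < (z / m + 1) * m := Int.lt_ediv_add_one_mul_self z hm
  have h1' : ((z / m : ℤ) : ℝ) * (m : ℝ) ≤ (z : ℝ) := by exact_mod_cast h1
  have h2' : (z : ℝ) < (((z / m : ℤ) : ℝ) + 1) * (m : ℝ) := by exact_mod_cast h2
  have h3 : ((z / m : ℤ) : ℝ) ≤ (z : ℝ) / (m : ℝ) := by
    rw [le_div_iff₀ hm']
    exact h1'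
  have h4 : (z : ℝ) / (m : ℝ) < ((z / m : ℤ) : ℝ) + 1 := by
    rw [div_lt_iff₀ hm']
    exact h2'
  rw [abs_le]
  constructor <;> linarith

private theorem Tm_natdiv (N : ℕ) : (N : ℝ) / 2 ^ 60 ≤ 1 + ((N / 1152921504606846976 : ℕ) : ℝ) := by
  have h1 : N < 1152921504606846976 * (N / 1152921504606846976 + 1) :=
    Nat.lt_mul_div_succ N (by norm_num)
  have h2 : (N : ℝ) < 1152921504606846976 * (((N / 1152921504606846976 : ℕ) : ℝ) + 1) := by
    exact_mod_cast h1
  rw [div_le_iff₀ (by positivity)]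
  have h3 : (2 : ℝ) ^ 60 = 1152921504606846976 := by norm_num
  rw [h3]
  linarith

private theorem Tm_pv_rd (n : ℕ) {t : ℝ} (ht : |t| ≤ 1) : ∀ l : List Int,
    |pv l t / 2 ^ 60 - pv (rdL n l) t| ≤ (n : ℝ) + (nrm (dropL n l) : ℝ) / 2 ^ 60 := by
  induction n with
  | zero =>
    intro l
    show |pv l t / 2 ^ 60 - 0| ≤ ((0 : ℕ) : ℝ) + (nrm l : ℝ) / 2 ^ 60
    rw [sub_zero, abs_div, abs_of_pos (show (0 : ℝ) < 2 ^ 60 by positivity), Nat.cast_zero,
      zero_add]
    exact div_le_div_of_nonneg_right (pv_le l ht) (by positivity)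
  | succ n ih =>
    intro l
    cases l with
    | nil =>
      show |(0 : ℝ) / 2 ^ 60 - 0| ≤ ((n + 1 : ℕ) : ℝ) + ((0 : ℕ) : ℝ) / 2 ^ 60
      rw [zero_div, sub_zero, abs_zero]
      positivity
    | cons a l =>
      show |((a : ℝ) + t * pv l t) / 2 ^ 60 -
        (((a / 1152921504606846976 : ℤ) : ℝ) + t * pv (rdL n l) t)| ≤
        ((n + 1 : ℕ) : ℝ) + (nrm (dropL n l) : ℝ) / 2 ^ 60
      have h1 := Tm_floor a (m := 1152921504606846976) (by norm_num)
      have h2 := ih l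
      have h3 : ((a : ℝ) + t * pv l t) / 2 ^ 60 -
          (((a / 1152921504606846976 : ℤ) : ℝ) + t * pv (rdL n l) t) =
          ((a : ℝ) / ((1152921504606846976 : ℤ) : ℝ) - ((a / 1152921504606846976 : ℤ) : ℝ)) +
            t * (pv l t / 2 ^ 60 - pv (rdL n l) t) := by
        have h4 : ((1152921504606846976 : ℤ) : ℝ) = 2 ^ 60 := by norm_num
        rw [h4]
        ring
      rw [h3]
      have h5 : |t * (pv l t / 2 ^ 60 - pv (rdL n l) t)| ≤
          (n : ℝ) + (nrm (dropL n l) : ℝ) / 2 ^ 60 := by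
        rw [abs_mul]
        calc |t| * |pv l t / 2 ^ 60 - pv (rdL n l) t|
            ≤ 1 * |pv l t / 2 ^ 60 - pv (rdL n l) t| :=
              mul_le_mul_of_nonneg_right ht (abs_nonneg _)
          _ = _ := one_mul _
          _ ≤ _ := h2
      refine (abs_add_le _ _).trans ?_
      push_cast at h1 ⊢
      linarith

theorem Tm.bd_sound {a : Tm} {t v : ℝ} (ht : |t| ≤ 1) (h : a.In t v) :
    |v * 2 ^ 60| ≤ (a.bd : ℝ) := by
  have h1 : (a.bd : ℝ) = (nrm a.c : ℝ) + (a.e : ℝ) := by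
    have : a.bd = nrm a.c + a.e := rfl
    rw [this]
    push_cast
    rfl
  have h2 := pv_le a.c ht
  have h3 : v * 2 ^ 60 = pv a.c t + (v * 2 ^ 60 - pv a.c t) := by ring
  rw [h1, h3]
  exact (abs_add_le _ _).trans (add_le_add h2 h)

theorem Tm.add_sound {a b : Tm} {t v w : ℝ} (ha : a.In t v) (hb : b.In t w) :
    (a.add b).In t (v + w) := by
  show |(v + w) * 2 ^ 60 - pv (addL a.c b.c) t| ≤ ((a.e + b.e : ℕ) : ℝ)
  rw [Tm_pv_addL]
  have h3 : (v + w) * 2 ^ 60 - (pv a.c t + pv b.c t) =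
      (v * 2 ^ 60 - pv a.c t) + (w * 2 ^ 60 - pv b.c t) := by ring
  rw [h3]
  push_cast
  exact (abs_add_le _ _).trans (add_le_add ha hb)

theorem Tm.sub_sound {a b : Tm} {t v w : ℝ} (ha : a.In t v) (hb : b.In t w) :
    (a.sub b).In t (v - w) := by
  show |(v - w) * 2 ^ 60 - pv (subL a.c b.c) t| ≤ ((a.e + b.e : ℕ) : ℝ)
  rw [Tm_pv_subL]
  have h3 : (v - w) * 2 ^ 60 - (pv a.c t - pv b.c t) =
      (v * 2 ^ 60 - pv a.c t) - (w * 2 ^ 60 - pv b.c t) := by ring
  rw [h3]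
  push_cast
  exact (abs_sub _ _).trans (add_le_add ha hb)

theorem Tm.mul_sound {a b : Tm} {t v w : ℝ} (ht : |t| ≤ 1) (ha : a.In t v) (hb : b.In t w) :
    (a.mul b).In t (v * w) := by
  set N : ℕ := nrm (dropL 13 (mulL a.c b.c)) + (nrm a.c * b.e + a.e * (nrm b.c + b.e)) with hN
  show |v * w * 2 ^ 60 - pv (rdL 13 (mulL a.c b.c)) t| ≤
    ((14 + N / 1152921504606846976 : ℕ) : ℝ)
  have h1 := Tm_pv_rd 13 ht (mulL a.c b.c)
  rw [Tm_pv_mulL] at h1
  have hA := pv_le a.c ht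
  have hB := pv_le b.c ht
  set A : ℝ := pv a.c t with hAdef
  set B : ℝ := pv b.c t with hBdef
  have hp : |v * 2 ^ 60 - A| ≤ (a.e : ℝ) := ha
  have hq : |w * 2 ^ 60 - B| ≤ (b.e : ℝ) := hb
  set p : ℝ := v * 2 ^ 60 - A with hpdef
  set q : ℝ := w * 2 ^ 60 - B with hqdef
  have h2 : v * w * 2 ^ 60 - pv (rdL 13 (mulL a.c b.c)) t =
      (A * B / 2 ^ 60 - pv (rdL 13 (mulL a.c b.c)) t) + (A * q + p * (B + q)) / 2 ^ 60 := by
    rw [hpdef, hqdef]
    field_simp
    ring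
  have h3 : |A * q + p * (B + q)| ≤
      (nrm a.c : ℝ) * b.e + (a.e : ℝ) * ((nrm b.c : ℝ) + b.e) := by
    refine (abs_add_le _ _).trans ?_
    rw [abs_mul, abs_mul]
    apply add_le_add
    · exact mul_le_mul hA hq (abs_nonneg _) (Nat.cast_nonneg _)
    · exact mul_le_mul hp ((abs_add_le _ _).trans (add_le_add hB hq)) (abs_nonneg _)
        (Nat.cast_nonneg _)
  have h4 := Tm_natdiv N
  have h5 : (N : ℝ) = (nrm (dropL 13 (mulL a.c b.c)) : ℝ) +
      ((nrm a.c : ℝ) * b.e + (a.e : ℝ) * ((nrm b.c : ℝ) + b.e)) := by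
    rw [hN]
    push_cast
    rfl
  have h6 : |(A * q + p * (B + q)) / 2 ^ 60| ≤
      ((nrm a.c : ℝ) * b.e + (a.e : ℝ) * ((nrm b.c : ℝ) + b.e)) / 2 ^ 60 := by
    rw [abs_div, abs_of_pos (show (0 : ℝ) < 2 ^ 60 by positivity)]
    exact div_le_div_of_nonneg_right h3 (by positivity)
  rw [h2]
  refine (abs_add_le _ _).trans ?_
  rw [h5, add_div] at h4
  push_cast at h1 h4 ⊢
  linarith

theorem Tm.cst_sound (z : Int) (e : Nat) (t : ℝ) : (Tm.cst z e).In t (z / 2 ^ e) := by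
  show |(z : ℝ) / 2 ^ e * 2 ^ 60 -
    ((((z * 1152921504606846976) / ((2 : Int) ^ e) : ℤ) : ℝ) + t * 0)| ≤ ((1 : ℕ) : ℝ)
  have h1 := Tm_floor (z * 1152921504606846976) (m := (2 : ℤ) ^ e) (by positivity)
  have h2 : (z : ℝ) / 2 ^ e * 2 ^ 60 -
      ((((z * 1152921504606846976) / ((2 : Int) ^ e) : ℤ) : ℝ) + t * 0) =
      ((z * 1152921504606846976 : ℤ) : ℝ) / (((2 : ℤ) ^ e : ℤ) : ℝ) -
        (((z * 1152921504606846976) / ((2 : Int) ^ e) : ℤ) : ℝ) := by
    rw [Int.cast_mul, Int.cast_pow]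
    norm_num
    ring
  rw [h2, Nat.cast_one]
  exact h1

theorem Tm.rat_sound (z : Int) {n : Nat} (hn : 0 < n) (t : ℝ) : (Tm.rat z n).In t (z / n) := by
  show |(z : ℝ) / n * 2 ^ 60 -
    ((((z * 1152921504606846976) / (n : Int) : ℤ) : ℝ) + t * 0)| ≤ ((1 : ℕ) : ℝ)
  have h1 := Tm_floor (z * 1152921504606846976) (m := (n : ℤ)) (by exact_mod_cast hn)
  have h2 : (z : ℝ) / n * 2 ^ 60 -
      ((((z * 1152921504606846976) / (n : Int) : ℤ) : ℝ) + t * 0) =
      ((z * 1152921504606846976 : ℤ) : ℝ) / (((n : ℤ)) : ℝ) -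
        (((z * 1152921504606846976) / (n : Int) : ℤ) : ℝ) := by
    rw [Int.cast_mul, Int.cast_natCast]
    norm_num
    ring
  rw [h2, Nat.cast_one]
  exact h1

private theorem Tm_get_cons {α β : Type} {R : α → β → Prop} {da : α} {db : β} {a : α} {b : β}
    {l : List α} {l' : List β} (hab : R a b) (hl : ∀ i, R (get da l i) (get db l' i)) (i : ℕ) :
    R (get da (a :: l) i) (get db (b :: l') i) := by
  cases i with
  | zero => exact hab
  | succ n => exact hl n

private theorem Tm_step {α β : Type} {A : Alg α} {B : Alg β} {R : α → β → Prop}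
    (h : RelAlg A B R) (op : Op) (st : List α) (st' : List β)
    (hst : ∀ i, R (get A.dflt st i) (get B.dflt st' i)) :
    R (step A st op) (step B st' op) := by
  cases op with
  | cst z e => exact h.cst z e
  | base i => exact h.base i
  | x => exact h.x
  | y => exact h.y
  | add a b => exact h.add _ _ _ _ (hst a) (hst b)
  | sub a b => exact h.sub _ _ _ _ (hst a) (hst b)
  | mul a b => exact h.mul _ _ _ _ (hst a) (hst b)

private theorem Tm_run {α β : Type} {A : Alg α} {B : Alg β} {R : α → β → Prop}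
    (h : RelAlg A B R) (P : List Op) : ∀ (st : List α) (st' : List β),
    (∀ i, R (get A.dflt st i) (get B.dflt st' i)) →
    ∀ i, R (get A.dflt (run A P st) i) (get B.dflt (run B P st') i) := by
  induction P with
  | nil => intro st st' hst i; exact hst i
  | cons op P ih =>
    intro st st' hst i
    exact ih (step A st op :: st) (step B st' op :: st')
      (Tm_get_cons (Tm_step h op st st' hst) hst) i

private theorem Tm_zero (t : ℝ) : (⟨[], 0⟩ : Tm).In t 0 := by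
  show |(0 : ℝ) * 2 ^ 60 - 0| ≤ ((0 : ℕ) : ℝ)
  simp

private theorem Tm_x (t : ℝ) :
    (⟨[576460752303423488, 576460752303423488], 0⟩ : Tm).In t ((1 + t) / 2) := by
  show |(1 + t) / 2 * 2 ^ 60 - (((576460752303423488 : ℤ) : ℝ) +
    t * (((576460752303423488 : ℤ) : ℝ) + t * 0))| ≤ ((0 : ℕ) : ℝ)
  have h : (1 + t) / 2 * 2 ^ 60 - (((576460752303423488 : ℤ) : ℝ) +
      t * (((576460752303423488 : ℤ) : ℝ) + t * 0)) = 0 := by
    push_cast
    ring
  rw [h]
  simp

private theorem Tm_rel {q : List Tm} {t : ℝ} (ht : |t| ≤ 1) {β : ℕ → ℝ} (h : TmIn q t β) :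
    RelAlg (tmAlg q) (realAlg β ((1 + t) / 2) 0) (fun a v => a.In t v) where
  cst z e := Tm.cst_sound z e t
  base i := h i
  x := Tm_x t
  y := Tm_zero t
  add _ _ _ _ h1 h2 := Tm.add_sound h1 h2
  sub _ _ _ _ h1 h2 := Tm.sub_sound h1 h2
  mul _ _ _ _ h1 h2 := Tm.mul_sound ht h1 h2
  dflt := Tm_zero t

/-- all values on the stack of a program are enclosed -/
theorem run_sound {q : List Tm} {t : ℝ} (ht : |t| ≤ 1) {β : ℕ → ℝ} (h : TmIn q t β) (P : List Op)
    (i : ℕ) : (get ⟨[], 0⟩ (run (tmAlg q) P []) i).In t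
      (get 0 (run (realAlg β ((1 + t) / 2) 0) P []) i) := by
  exact Tm_run (Tm_rel ht h) P [] [] (fun _ => Tm_zero t) i

theorem res_sound {q : List Tm} {t : ℝ} (ht : |t| ≤ 1) {β : ℕ → ℝ} (h : TmIn q t β) (P : List Op) :
    (res (tmAlg q) P).In t (res (realAlg β ((1 + t) / 2) 0) P) := by
  exact res_rel (Tm_rel ht h) P

private theorem Tm_poly (p : List Int) (t : ℝ) : (⟨p, 0⟩ : Tm).In t (pv p t / 2 ^ 60) := by
  show |pv p t / 2 ^ 60 * 2 ^ 60 - pv p t| ≤ ((0 : ℕ) : ℝ)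
  have h : pv p t / 2 ^ 60 * 2 ^ 60 - pv p t = 0 := by
    field_simp
    ring
  rw [h]
  simp

theorem Tm.inv_sound {a : Tm} {t v : ℝ} (ht : |t| ≤ 1) (ha : a.In t v) (p : List Int)
    (h : Nat.ble (a.invd p) 576460752303423488 = true) : (a.inv p).In t (1 / v) := by
  have h0 : a.invd p ≤ 576460752303423488 := Nat.le_of_ble_eq_true h
  have h0' : (a.invd p : ℝ) ≤ 576460752303423488 := by exact_mod_cast h0
  set P : ℝ := pv p t / 2 ^ 60 with hP
  have h1 : ((a.mul ⟨p, 0⟩).sub (Tm.cst 1 0)).In t (v * P - ((1 : ℤ) : ℝ) / 2 ^ 0) :=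
    Tm.sub_sound (Tm.mul_sound ht ha (Tm_poly p t)) (Tm.cst_sound 1 0 t)
  have h2 := Tm.bd_sound ht h1
  have h3 : |v * P - 1| * 2 ^ 60 ≤ (a.invd p : ℝ) := by
    have e : (v * P - ((1 : ℤ) : ℝ) / 2 ^ 0) * 2 ^ 60 = (v * P - 1) * 2 ^ 60 := by
      norm_num
    rw [e, abs_mul, abs_of_pos (show (0 : ℝ) < 2 ^ 60 by positivity)] at h2
    exact h2
  have h4 : |v * P - 1| ≤ 1 / 2 := by
    have : |v * P - 1| * 2 ^ 60 ≤ 576460752303423488 := h3.trans h0'
    norm_num at this ⊢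
    linarith
  have h5 := (abs_le.1 h4).1
  have hv0 : v ≠ 0 := by
    rintro rfl
    norm_num at h5
  have hvabs : 0 < |v| := abs_pos.2 hv0
  have h6 : 1 ≤ 2 * |v| * |P| := by
    have : v * P ≤ |v| * |P| := by
      rw [← abs_mul]
      exact le_abs_self _
    linarith
  have h7 : |1 / v - P| = |v * P - 1| / |v| := by
    rw [← abs_div, ← abs_neg]
    congr 1
    field_simp
    ring
  have hPn : |P| ≤ (nrm p : ℝ) / 2 ^ 60 := by
    rw [hP, abs_div, abs_of_pos (show (0 : ℝ) < 2 ^ 60 by positivity)]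
    exact div_le_div_of_nonneg_right (pv_le p ht) (by positivity)
  have h8 : |1 / v - P| ≤ |v * P - 1| * (2 * |P|) := by
    rw [h7, div_le_iff₀ hvabs]
    calc |v * P - 1| = |v * P - 1| * 1 := (mul_one _).symm
      _ ≤ |v * P - 1| * (2 * |v| * |P|) := mul_le_mul_of_nonneg_left h6 (abs_nonneg _)
      _ = _ := by ring
  show |1 / v * 2 ^ 60 - pv p t| ≤
    ((1 + (2 * a.invd p * nrm p) / 1152921504606846976 : ℕ) : ℝ)
  have h9 : 1 / v * 2 ^ 60 - pv p t = (1 / v - P) * 2 ^ 60 := by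
    rw [hP]
    field_simp
  rw [h9, abs_mul, abs_of_pos (show (0 : ℝ) < 2 ^ 60 by positivity)]
  have h10 := Tm_natdiv (2 * a.invd p * nrm p)
  calc |1 / v - P| * 2 ^ 60 ≤ |v * P - 1| * (2 * |P|) * 2 ^ 60 :=
        mul_le_mul_of_nonneg_right h8 (by positivity)
    _ = (|v * P - 1| * 2 ^ 60) * (2 * |P|) := by ring
    _ ≤ (a.invd p : ℝ) * (2 * ((nrm p : ℝ) / 2 ^ 60)) :=
        mul_le_mul h3 (mul_le_mul_of_nonneg_left hPn (by norm_num)) (by positivity)
          (Nat.cast_nonneg _)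
    _ = ((2 * a.invd p * nrm p : ℕ) : ℝ) / 2 ^ 60 := by
        push_cast
        ring
    _ ≤ _ := by
        push_cast at h10 ⊢
        exact h10

theorem Tm.sqrt_sound {a : Tm} {t v : ℝ} (ht : |t| ≤ 1) (ha : a.In t v) (hv : 0 ≤ v) (p : List Int)
    (h : posL p = true) : (a.sqrt p).In t (Real.sqrt v) := by
  set P : ℝ := pv p t / 2 ^ 60 with hP
  have hP2 : 1 / 2 ≤ P := by
    cases p with
    | nil => exact absurd h (by simp [posL])
    | cons b l =>
      have h1 : 576460752303423488 + nrm l ≤ b.toNat := Nat.le_of_ble_eq_true h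
      have h2 : (576460752303423488 : ℤ) + (nrm l : ℤ) ≤ b := by omega
      have h3 : (576460752303423488 : ℝ) + (nrm l : ℝ) ≤ (b : ℝ) := by exact_mod_cast h2
      have h4 : |t * pv l t| ≤ (nrm l : ℝ) := by
        rw [abs_mul]
        calc |t| * |pv l t| ≤ 1 * |pv l t| := mul_le_mul_of_nonneg_right ht (abs_nonneg _)
          _ = |pv l t| := one_mul _
          _ ≤ _ := pv_le l ht
      have h5 := (abs_le.1 h4).1
      have h6 : pv (b :: l) t = (b : ℝ) + t * pv l t := rfl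
      rw [hP, h6, le_div_iff₀ (by positivity)]
      norm_num
      linarith
  have h1 : (a.sub (Tm.mul ⟨p, 0⟩ ⟨p, 0⟩)).In t (v - P * P) :=
    Tm.sub_sound ha (Tm.mul_sound ht (Tm_poly p t) (Tm_poly p t))
  have h2 := Tm.bd_sound ht h1
  rw [abs_mul, abs_of_pos (show (0 : ℝ) < 2 ^ 60 by positivity)] at h2
  have hs := Real.sqrt_nonneg v
  have hs2 := Real.mul_self_sqrt hv
  have h3 : |Real.sqrt v - P| ≤ 2 * |v - P * P| := by
    have h4 : v - P * P = (Real.sqrt v - P) * (Real.sqrt v + P) := by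
      rw [← hs2]
      have : Real.sqrt (Real.sqrt v * Real.sqrt v) = Real.sqrt v := by rw [hs2]
      rw [this]
      ring
    rw [h4, abs_mul, abs_of_nonneg (show 0 ≤ Real.sqrt v + P by linarith)]
    have h5 : 0 ≤ |Real.sqrt v - P| := abs_nonneg _
    nlinarith
  show |Real.sqrt v * 2 ^ 60 - pv p t| ≤
    ((2 * (a.sub (Tm.mul ⟨p, 0⟩ ⟨p, 0⟩)).bd : ℕ) : ℝ)
  have h9 : Real.sqrt v * 2 ^ 60 - pv p t = (Real.sqrt v - P) * 2 ^ 60 := by
    rw [hP]
    field_simp
  rw [h9, abs_mul, abs_of_pos (show (0 : ℝ) < 2 ^ 60 by positivity)]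
  push_cast
  calc |Real.sqrt v - P| * 2 ^ 60 ≤ 2 * |v - P * P| * 2 ^ 60 :=
        mul_le_mul_of_nonneg_right h3 (by positivity)
    _ = 2 * (|v - P * P| * 2 ^ 60) := by ring
    _ ≤ _ := mul_le_mul_of_nonneg_left h2 (by norm_num)

private theorem Tm_horner_real (β : ℕ → ℝ) (x y t : ℝ) (l : List Fx) :
    horner (realAlg β x y) t l = pval l t := by
  induction l with
  | nil => simp [horner, realAlg, pval]
  | cons a l ih =>
    have h1 : horner (realAlg β x y) t (a :: l) =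
        a.val + t * horner (realAlg β x y) t l := rfl
    rw [h1, ih]
    rfl

theorem chk_sound {a : Tm} {t v : ℝ} (ht : |t| ≤ 1) (ha : a.In t v) {s : Sym}
    (h : chk a s = true) : |v - pval s.p ((1 + t) / 2)| ≤ (s.eps : ℝ) / 2 ^ 60 := by
  have h0 : (a.sub (horner (tmAlg []) (tmAlg []).x s.p)).bd ≤ s.eps := Nat.le_of_ble_eq_true h
  have h0' : ((a.sub (horner (tmAlg []) (tmAlg []).x s.p)).bd : ℝ) ≤ (s.eps : ℝ) := by
    exact_mod_cast h0
  have h1 : (horner (tmAlg []) (tmAlg []).x s.p).In t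
      (horner (realAlg (fun _ => 0) ((1 + t) / 2) 0) ((1 + t) / 2) s.p) :=
    horner_rel (R := fun (a : Tm) (v : ℝ) => a.In t v)
      (fun z e => Tm.cst_sound z e t) (fun _ _ _ _ h1 h2 => Tm.add_sound h1 h2)
      (fun _ _ _ _ h1 h2 => Tm.mul_sound ht h1 h2) _ _ (Tm_x t) s.p
  rw [Tm_horner_real] at h1
  have h2 := Tm.bd_sound ht (Tm.sub_sound ha h1)
  rw [abs_mul, abs_of_pos (show (0 : ℝ) < 2 ^ 60 by positivity)] at h2
  rw [le_div_iff₀ (by positivity)]
  exact h2.trans h0'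

/-- extension of the list of base symbols -/
theorem TmIn_cons {q : List Tm} {t : ℝ} {b : List ℝ} {a : Tm} {v : ℝ}
    (h : TmIn q t (fun i => get 0 b i)) (ha : a.In t v) :
    TmIn (a :: q) t (fun i => get 0 (v :: b) i) := by
  intro i
  exact Tm_get_cons (R := fun (a : Tm) (v : ℝ) => a.In t v) ha h i

theorem TmIn_nil (t : ℝ) : TmIn [] t (fun i => get 0 ([] : List ℝ) i) := by
  intro i
  exact Tm_zero t

/-- enlarging the error -/
theorem Tm.weaken {a : Tm} {t v : ℝ} (ha : a.In t v) {w : ℝ} {e : Nat}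
    (h : |w - v| * 2 ^ 60 ≤ (e : ℝ)) : (⟨a.c, Nat.add a.e e⟩ : Tm).In t w := by
  show |w * 2 ^ 60 - pv a.c t| ≤ ((a.e + e : ℕ) : ℝ)
  have h1 : w * 2 ^ 60 - pv a.c t = (v * 2 ^ 60 - pv a.c t) + (w - v) * 2 ^ 60 := by ring
  rw [h1]
  push_cast
  refine (abs_add_le _ _).trans (add_le_add ha ?_)
  rw [abs_mul, abs_of_pos (show (0 : ℝ) < 2 ^ 60 by positivity)]
  exact h

end Pool.H61.Rh
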