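import Pool.Agent.H61.Rz.Rr

/-! # Zp: from the scaled inequalities to `Pt.Z` -/

set_option autoImplicit false

namespace Pool.H61.Rh

open Complex

/-- relations of the zone constants -/
structure Zc.Rel (z : Zc) (hb Qb : ℝ) : Prop where
  K : z.K0 = 6 - z.R0 - 1 / 8192 - Kz hb z.Phi z.cb Qb z.pb
  Q : z.Qb2 = Qb ^ 2

/-- the constants at radius `r` -/
noncomputable def Zc.zc (z : Zc) (hb Qb r : ℝ) : ZC :=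
  ⟨z.R0 + z.R1 * r + 1 / 8192, z.lam, hb, z.Phi, z.cb, Qb, z.pb⟩

theorem Z_core (P : Pt) (z : Zc) (hb Qb : ℝ) (hz : z.Rel hb Qb) (j : Fin 3) (r : ℝ) (X : ℂ)
    (hd : 1 - 2 * dt (uu j) (P.ys + X * (r : ℂ)) ≠ 0)
    (hn : normSq (P.ys + X * (r : ℂ)) ≤ hb ^ 2)
    (hF : 0 ≤ (4 * (z.R0 + z.R1 * r) * P.f (X * (r : ℂ)) ^ 4
      * (P.Eh (X * (r : ℂ)) (Vx (P.ys + X * (r : ℂ)) j)
        - 1 / 8192 * normSq (X * (r : ℂ)) * P.f (X * (r : ℂ)) ^ 2)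
      - normSq (P.Gh (X * (r : ℂ)) (Vx (P.ys + X * (r : ℂ)) j)))
        * (1 - 2 * dt (uu j) (P.ys + X * (r : ℂ))) ^ 2)
    (hRC : 0 ≤ P.RCr z r X (ηd j (P.yr r X)) (1 - 2 * dt (uu j) (P.yr r X)))
    (hC0 : 0 ≤ P.ctr r X (ηd j (P.yr r X)) (1 - 2 * dt (uu j) (P.yr r X)))
    (hC1 : 0 ≤ z.cb * (P.fr r X ^ 3 * (1 - 2 * dt (uu j) (P.yr r X)))
      - P.ctr r X (ηd j (P.yr r X)) (1 - 2 * dt (uu j) (P.yr r X)))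
    (hQ : 0 ≤ z.Qb2 * (P.fr r X ^ 2 * (1 - 2 * dt (uu j) (P.yr r X)) ^ 2)
      - normSq (P.fqr r X (ηd j (P.yr r X)) (1 - 2 * dt (uu j) (P.yr r X))))
    (hP1 : 0 ≤ z.pb * P.fr r X ^ 2 - dt (P.fpr r X) (P.yr r X))
    (hP2 : 0 ≤ z.pb * P.fr r X ^ 2 + dt (P.fpr r X) (P.yr r X)) :
    P.Z (1 / 8192) (z.zc hb Qb r) (X * (r : ℂ)) (Vx (P.ys + X * (r : ℂ)) j)
      (1 - 2 * dt (uu j) (P.ys + X * (r : ℂ))) := by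
  rw [show P.ys + X * (r : ℂ) = P.yr r X from rfl] at *
  rw [ηd_eq j _ hd] at hRC hC0 hC1 hQ
  rw [ctr_eq] at hC0 hC1
  rw [RCr_eq] at hRC
  rw [fqr_eq, normSq_mul, normSq_ofReal, ← f_scale] at hQ
  rw [fpr_eq, ← f_scale] at hP1 hP2
  rw [← f_scale] at hC1
  refine ⟨hn, ?_, hC0, ?_, ?_, hP1, hP2, ?_⟩
  · have : (z.zc hb Qb r).R - 1 / 8192 = z.R0 + z.R1 * r := by simp only [Zc.zc]; ring
    rw [this]; exact hF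
  · refine hC1.trans (le_of_eq ?_)
    simp only [Zc.zc]; ring
  · refine hQ.trans (le_of_eq ?_)
    rw [hz.Q]; simp only [Zc.zc]; ring
  · refine hRC.trans (le_of_eq ?_)
    rw [hz.K]; simp only [Zc.zc, Pt.yr]
    ring

theorem F_of0 (P : Pt) (hfv : P.fvs = P.fv P.ys) (hV : P.V0 = Vx P.ys 0) (hf : P.fs ≠ 0)
    (h0 : 1 - 2 * P.ys.re ≠ 0) (r : ℝ) (X : ℂ) (Rm : ℝ)
    (hd : 1 - 2 * dt (uu 0) (P.ys + X * (r : ℂ)) ≠ 0)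
    (h : 0 ≤ P.Fr r X (P.T0 r X (1 - 2 * P.ys.re - 2 * (r * X.re)))
      (P.U0 r X (P.T0 r X (1 - 2 * P.ys.re - 2 * (r * X.re)))
        (1 - 2 * P.ys.re - 2 * (r * X.re))) (1 - 2 * P.ys.re - 2 * (r * X.re)) Rm (1 / 8192)) :
    0 ≤ (4 * Rm * P.f (X * (r : ℂ)) ^ 4
      * (P.Eh (X * (r : ℂ)) (Vx (P.ys + X * (r : ℂ)) 0)
        - 1 / 8192 * normSq (X * (r : ℂ)) * P.f (X * (r : ℂ)) ^ 2)
      - normSq (P.Gh (X * (r : ℂ)) (Vx (P.ys + X * (r : ℂ)) 0)))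
        * (1 - 2 * dt (uu 0) (P.ys + X * (r : ℂ))) ^ 2 := by
  have e : 1 - 2 * dt (uu 0) (P.ys + X * (r : ℂ)) = 1 - 2 * P.ys.re - 2 * (r * X.re) := by
    simp only [dt, uu0_re, uu0_im, add_re, mul_re, ofReal_re, ofReal_im]; ring
  rw [e] at hd ⊢
  have hT := T0_eq P hV h0 r X hd
  have hU := U0_eq P hf r X _ _ _ hT
  have := Fr_eq P hfv r X _ _ _ _ Rm (1 / 8192) hT hU
  have h2 := mul_nonneg h (sq_nonneg r)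
  rw [this] at h2
  exact (mul_nonneg_iff_of_pos_left (by norm_num)).mp h2

theorem F_ofj (P : Pt) (hfv : P.fvs = P.fv P.ys) (hf : P.fs ≠ 0) (j : Fin 3) (x : ℂ) (Rm : ℝ)
    (hd : 1 - 2 * dt (uu j) (P.ys + x) ≠ 0)
    (h : 0 ≤ P.Fr 1 x (ηd j (P.ys + x) - (P.V0 + P.DV x) * ((1 - 2 * dt (uu j) (P.ys + x) : ℝ) : ℂ))
      (ηd j (P.ys + x) - P.V0 / (P.fs : ℂ)
        * (((1 - 2 * dt (uu j) (P.ys + x)) * (P.fs + dt P.ns x) : ℝ) : ℂ))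
      (1 - 2 * dt (uu j) (P.ys + x)) Rm (1 / 8192)) :
    0 ≤ (4 * Rm * P.f x ^ 4
      * (P.Eh x (Vx (P.ys + x) j) - 1 / 8192 * normSq x * P.f x ^ 2)
      - normSq (P.Gh x (Vx (P.ys + x) j))) * (1 - 2 * dt (uu j) (P.ys + x)) ^ 2 := by
  have hfc : (P.fs : ℂ) ≠ 0 := by exact_mod_cast hf
  have hx : x * ((1 : ℝ) : ℂ) = x := by simp
  have hη := ηd_eq j (P.ys + x) hd
  have := Fr_eq P hfv 1 x
    (ηd j (P.ys + x) - (P.V0 + P.DV x) * ((1 - 2 * dt (uu j) (P.ys + x) : ℝ) : ℂ))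
    (ηd j (P.ys + x) - P.V0 / (P.fs : ℂ)
        * (((1 - 2 * dt (uu j) (P.ys + x)) * (P.fs + dt P.ns x) : ℝ) : ℂ))
    (Vx (P.ys + x) j) (1 - 2 * dt (uu j) (P.ys + x)) Rm (1 / 8192)
    (by rw [hx, hη]; push_cast; ring)
    (by
      rw [hη, Pt.fr]; push_cast; field_simp)
  rw [hx] at this
  have h2 : 0 ≤ P.Fr 1 x (ηd j (P.ys + x) - (P.V0 + P.DV x) * ((1 - 2 * dt (uu j) (P.ys + x) : ℝ) : ℂ))
      (ηd j (P.ys + x) - P.V0 / (P.fs : ℂ)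
        * (((1 - 2 * dt (uu j) (P.ys + x)) * (P.fs + dt P.ns x) : ℝ) : ℂ))
      (1 - 2 * dt (uu j) (P.ys + x)) Rm (1 / 8192) * 1 ^ 2 := by rw [one_pow, mul_one]; exact h
  rw [this] at h2
  exact (mul_nonneg_iff_of_pos_left (by norm_num)).mp h2

end Pool.H61.Rh
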